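import Pool.Agent.Lib.MP_5d4057_al.HM.Defs

/-! Automorphisms of the complex numbers (for the application, section F). -/

set_option autoImplicit false

namespace Pool.Agent.Lib.MP_5d4057_al.HM

open Matrix Pool.Agent.Lib.MP_5d4057_al Pool.Agent.Lib.MP_5d4057_al.Hyb Cardinal

/-- Two algebraically closed fields with equipotent transcendence bases over `R` are isomorphic over
`R`, with a prescribed correspondence of the bases. -/
theorem aut_bases {R A B : Type} [Field R] [Field A] [Field B] [Algebra R A] [Algebra R B]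
    [IsAlgClosed A] [IsAlgClosed B] {ι κ : Type} {v : ι → A} {w : κ → B} (e : ι ≃ κ)
    (hv : IsTranscendenceBasis R v) (hw : IsTranscendenceBasis R w) :
    ∃ t : A ≃+* B, (∀ r : R, t (algebraMap R A r) = algebraMap R B r) ∧
      ∀ i, t (v i) = w (e i) := by
  let _ := IsAlgClosed.isAlgClosure_of_transcendence_basis v hv
  let _ := IsAlgClosed.isAlgClosure_of_transcendence_basis w hw
  let e' : Algebra.adjoin R (Set.range v) ≃ₐ[R] Algebra.adjoin R (Set.range w) :=
    (hv.1.aevalEquiv.symm.trans (MvPolynomial.renameEquiv R e)).trans hw.1.aevalEquiv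
  refine ⟨IsAlgClosure.equivOfEquiv A B e'.toRingEquiv, ?_, ?_⟩
  · intro r
    have h1 : algebraMap R A r = algebraMap (Algebra.adjoin R (Set.range v)) A
        (algebraMap R (Algebra.adjoin R (Set.range v)) r) := rfl
    rw [h1, IsAlgClosure.equivOfEquiv_algebraMap]
    have h2 : e'.toRingEquiv (algebraMap R (Algebra.adjoin R (Set.range v)) r) =
        algebraMap R (Algebra.adjoin R (Set.range w)) r := e'.commutes r
    rw [h2]
    rfl
  · intro i
    have h1 : v i = algebraMap (Algebra.adjoin R (Set.range v)) A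
        (hv.1.aevalEquiv (MvPolynomial.X i)) := by
      rw [AlgebraicIndependent.algebraMap_aevalEquiv, MvPolynomial.aeval_X]
    rw [h1, IsAlgClosure.equivOfEquiv_algebraMap]
    have h2 : e'.toRingEquiv (hv.1.aevalEquiv (MvPolynomial.X i)) =
        hw.1.aevalEquiv (MvPolynomial.X (e i)) := by
      show hw.1.aevalEquiv (MvPolynomial.renameEquiv R e
        (hv.1.aevalEquiv.symm (hv.1.aevalEquiv (MvPolynomial.X i)))) = _
      rw [AlgEquiv.symm_apply_apply, MvPolynomial.renameEquiv_apply, MvPolynomial.rename_X]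
    rw [h2, AlgebraicIndependent.algebraMap_aevalEquiv, MvPolynomial.aeval_X]

theorem aut_general {R A B : Type} [Field R] [Countable R] [Field A] [Field B] [Algebra R A]
    [Algebra R B] [IsAlgClosed A] [IsAlgClosed B] (hA : ℵ₀ < #A) (hAB : #A = #B) :
    ∃ t : A ≃+* B, ∀ r : R, t (algebraMap R A r) = algebraMap R B r := by
  obtain ⟨s, hs⟩ := exists_isTranscendenceBasis R A
  obtain ⟨s', hs'⟩ := exists_isTranscendenceBasis R B
  have hR : #R ≤ ℵ₀ := Cardinal.mk_le_aleph0
  have h1 := IsAlgClosed.cardinal_eq_cardinal_transcendence_basis_of_aleph0_lt' _ hs hR hA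
  have h2 := IsAlgClosed.cardinal_eq_cardinal_transcendence_basis_of_aleph0_lt' _ hs' hR (hAB ▸ hA)
  obtain ⟨e⟩ := Cardinal.eq.1 (h1.symm.trans (hAB.trans h2))
  obtain ⟨t, ht, -⟩ := aut_bases e hs hs'
  exact ⟨t, ht⟩

theorem aleph0_lt_complex : ℵ₀ < #ℂ := by
  rw [Cardinal.mk_complex]
  exact Cardinal.aleph0_lt_continuum

/-- Every embedding of a countable subfield of `ℂ` extends to an automorphism of `ℂ`. -/
theorem exists_aut (K : Subfield ℂ) [Countable K] (τ : K →+* ℂ) :
    ∃ t : ℂ ≃+* ℂ, ∀ x : K, t (x : ℂ) = τ x := by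
  obtain ⟨t, ht⟩ := @aut_general K ℂ ℂ _ _ _ _ _ τ.toAlgebra _ _ aleph0_lt_complex rfl
  exact ⟨t, fun x => ht x⟩

instance countable_of_numberField (K : Subfield ℂ) [NumberField K] : Countable K := by
  have : #K ≤ max #ℚ ℵ₀ := Algebra.IsAlgebraic.cardinalMk_le_max ℚ K
  rw [Cardinal.mkRat, max_self] at this
  exact Cardinal.mk_le_aleph0_iff.1 this

/-- The fixed field of the automorphisms of `ℂ` over a countable subfield `K` is `K`. -/
theorem exists_aut_ne (K : Subfield ℂ) [Countable K] (x : ℂ) (hx : x ∉ K) :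
    ∃ t : ℂ ≃+* ℂ, (∀ y : K, t (y : ℂ) = y) ∧ t x ≠ x := by
  by_cases hal : IsAlgebraic K x
  · have hint : IsIntegral K x := hal.isIntegral
    have hdeg : (minpoly K x).natDegree ≠ 1 := by
      intro h
      obtain ⟨y, hy⟩ := minpoly.natDegree_eq_one_iff.1 h
      apply hx
      rw [← hy]
      exact y.2
    have hsep : (minpoly K x).Separable := (minpoly.irreducible hint).separable
    have hspl : ((minpoly K x).map (algebraMap K ℂ)).Splits := IsAlgClosed.splits _
    obtain ⟨y, hy, hyx⟩ : ∃ y ∈ (minpoly K x).aroots ℂ, y ≠ x := by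
      by_contra hcon
      push Not at hcon
      have h1 : (minpoly K x).aroots ℂ = Multiset.replicate ((minpoly K x).aroots ℂ).card x :=
        Multiset.eq_replicate.2 ⟨rfl, hcon⟩
      have h2 : ((minpoly K x).aroots ℂ).card = (minpoly K x).natDegree := by
        rw [Polynomial.aroots, ← hspl.natDegree_eq_card_roots, Polynomial.natDegree_map]
      have h3 : ((minpoly K x).aroots ℂ).Nodup := Polynomial.nodup_roots (hsep.map)
      have h4 : 0 < (minpoly K x).natDegree := minpoly.natDegree_pos hint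
      have h5 := Multiset.nodup_iff_count_le_one.1 h3 x
      rw [h1, Multiset.count_replicate_self, h2] at h5
      omega
    let φ : IntermediateField.adjoin K {x} →ₐ[K] ℂ :=
      (IntermediateField.algHomAdjoinIntegralEquiv K hint).symm ⟨y, hy⟩
    have hφ : φ (IntermediateField.AdjoinSimple.gen K x) = y :=
      IntermediateField.algHomAdjoinIntegralEquiv_symm_apply_gen K hint ⟨y, hy⟩
    set L : Subfield ℂ := (IntermediateField.adjoin K {x}).toSubfield with hL
    have : Countable L := by
      have hfin : FiniteDimensional K (IntermediateField.adjoin K {x}) :=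
        IntermediateField.adjoin.finiteDimensional hint
      have : #(IntermediateField.adjoin K {x}) ≤ max #K ℵ₀ :=
        Algebra.IsAlgebraic.cardinalMk_le_max K _
      have h5 : #K ≤ ℵ₀ := Cardinal.mk_le_aleph0
      exact Cardinal.mk_le_aleph0_iff.1 (this.trans (max_le h5 le_rfl))
    obtain ⟨t, ht⟩ := exists_aut L φ.toRingHom
    refine ⟨t, ?_, ?_⟩
    · intro z
      have hz : (z : ℂ) ∈ L := (IntermediateField.adjoin K {x}).algebraMap_mem z
      have := ht ⟨z, hz⟩
      rw [show t (z : ℂ) = t ((⟨z, hz⟩ : L) : ℂ) from rfl, this]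
      exact φ.commutes z
    · have hxm : x ∈ L := IntermediateField.mem_adjoin_simple_self K x
      have := ht ⟨x, hxm⟩
      rw [show t x = t ((⟨x, hxm⟩ : L) : ℂ) from rfl, this]
      have h6 : φ.toRingHom ⟨x, hxm⟩ = y := hφ
      rw [h6]
      exact hyx
  · have hxt : Transcendental K x := hal
    have hind : AlgebraicIndepOn K id ({x} : Set ℂ) := by
      have := (algebraicIndependent_unique_type_iff (R := K)
        (x := fun i : ({x} : Set ℂ) => (i : ℂ))).2 (by simpa using hxt)
      exact this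
    obtain ⟨s, hxs, hs⟩ := exists_isTranscendenceBasis_superset hind
    have hR : #K ≤ ℵ₀ := Cardinal.mk_le_aleph0
    have h1 := IsAlgClosed.cardinal_eq_cardinal_transcendence_basis_of_aleph0_lt' _ hs hR
      aleph0_lt_complex
    have hinf : Infinite s := by
      rw [Cardinal.infinite_iff, ← h1]
      exact aleph0_lt_complex.le
    have hxs' : x ∈ s := hxs rfl
    obtain ⟨y, hy⟩ := exists_ne (⟨x, hxs'⟩ : s)
    obtain ⟨t, ht1, ht2⟩ := aut_bases (Equiv.swap (⟨x, hxs'⟩ : s) y) hs hs
    refine ⟨t, ht1, ?_⟩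
    have h2 := ht2 ⟨x, hxs'⟩
    rw [Equiv.swap_apply_left] at h2
    have h3 : t x = (y : ℂ) := h2
    rw [h3]
    intro h4
    exact hy (Subtype.ext h4)

/-- If all automorphisms over `K` fix `x`, then `x ∈ K`. -/
theorem mem_of_fixed (K : Subfield ℂ) [Countable K] (x : ℂ)
    (h : ∀ t : ℂ ≃+* ℂ, (∀ y : K, t (y : ℂ) = y) → t x = x) : x ∈ K := by
  by_contra hx
  obtain ⟨t, ht, htx⟩ := exists_aut_ne K x hx
  exact htx (h t ht)

/-- Complex conjugation as an automorphism. -/
noncomputable def cj : ℂ ≃+* ℂ := starRingAut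

theorem cj_apply (x : ℂ) : cj x = (starRingEnd ℂ) x := rfl

variable {m : ℕ}

/-- Spanning sets of matrices are mapped to spanning sets by field automorphisms. -/
theorem span_image_map (t : ℂ ≃+* ℂ) (S : Set (Matrix (Fin m) (Fin m) ℂ))
    (hS : Submodule.span ℂ S = ⊤) :
    Submodule.span ℂ ((fun A : Matrix (Fin m) (Fin m) ℂ => A.map t) '' S) = ⊤ := by
  set N := Submodule.span ℂ ((fun A : Matrix (Fin m) (Fin m) ℂ => A.map t) '' S) with hN
  let T : Submodule ℂ (Matrix (Fin m) (Fin m) ℂ) :=
    { carrier := {A | A.map t ∈ N}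
      add_mem' := by
        intro A B hA hB
        show (A + B).map t ∈ N
        rw [Matrix.map_add t (map_add t)]
        exact Submodule.add_mem _ hA hB
      zero_mem' := by
        show (0 : Matrix (Fin m) (Fin m) ℂ).map t ∈ N
        rw [Matrix.map_zero t (map_zero t)]
        exact Submodule.zero_mem _
      smul_mem' := by
        intro c A hA
        show (c • A).map t ∈ N
        have : (c • A).map t = t c • A.map t := by
          ext i j
          simp [Matrix.map_apply]
        rw [this]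
        exact Submodule.smul_mem _ _ hA }
  have h1 : T = ⊤ := by
    rw [eq_top_iff, ← hS, Submodule.span_le]
    intro A hA
    exact Submodule.subset_span ⟨A, hA, rfl⟩
  rw [eq_top_iff]
  intro A _
  have h2 : A.map t.symm ∈ T := by rw [h1]; trivial
  have h3 : (A.map t.symm).map t ∈ N := h2
  have h4 : (A.map t.symm).map t = A := by
    ext i j
    simp [Matrix.map_apply]
  rwa [h4] at h3

/-- The representation `γ ↦ t(γ)` (entrywise). -/
noncomputable def rhoT {n : ℕ} (t : ℂ ≃+* ℂ) (Γ : Subgroup (SUGroup n)) :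
    Γ →* Mat (n + 1) where
  toFun γ := (γ : SUGroup n).toMatrix.map t
  map_one' := by
    show (1 : Matrix (Fin (n + 1)) (Fin (n + 1)) ℂ).map t = 1
    exact Matrix.map_one t (map_zero t) (map_one t)
  map_mul' a b := by
    show ((a : SUGroup n).toMatrix * (b : SUGroup n).toMatrix).map t = _
    rw [Matrix.map_mul]

theorem rhoT_apply {n : ℕ} (t : ℂ ≃+* ℂ) (Γ : Subgroup (SUGroup n)) (γ : Γ) :
    rhoT t Γ γ = (γ : SUGroup n).toMatrix.map t := rfl

theorem span_rhoT {n : ℕ} (t : ℂ ≃+* ℂ) (Γ : Subgroup (SUGroup n))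
    (h : Submodule.span ℂ (SUGroup.toMatrix '' (Γ : Set (SUGroup n))) = ⊤) :
    Submodule.span ℂ (Set.range (rhoT t Γ)) = ⊤ := by
  have h1 := span_image_map t _ h
  convert h1 using 2
  ext A
  constructor
  · rintro ⟨γ, rfl⟩
    exact ⟨(γ : SUGroup n).toMatrix, ⟨γ, γ.2, rfl⟩, rfl⟩
  · rintro ⟨B, ⟨γ, hγ, rfl⟩, rfl⟩
    exact ⟨⟨γ, hγ⟩, rfl⟩

end Pool.Agent.Lib.MP_5d4057_al.HM
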