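import Pool.Agent.Lib.MP_5d4057_al.HM.Haar

namespace Pool.Agent.Lib.MP_5d4057_al.HM

open Matrix MeasureTheory Filter Topology Pool.Agent.Lib.MP_5d4057_al Pool.Agent.Lib.MP_5d4057_al.Hyb

open scoped ComplexOrder MatrixOrder Matrix.Norms.L2Operator

variable {n m : ℕ} {E : Type} [NormedAddCommGroup E] [NormedSpace ℝ E]

/-- Integration by parts along a one-parameter group (blueprint A5):
`∫ (Ψ (g * b t) - Ψ g) = 0` by right invariance and it is `∫_0^t ∫ Ψ' (g * b u) dg du = t * ∫ Ψ'` (Fubini). -/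
theorem integral_flow [CompleteSpace E] {b : ℝ → SUGroup n} (hb0 : b 0 = 1)
    (hb : ∀ s t, b (s + t) = b s * b t) (hbc : Continuous b) {Ψ Ψ' : SUGroup n → E}
    (hc : Continuous Ψ') (hd : ∀ g t, HasDerivAt (fun t => Ψ (g * b t)) (Ψ' (g * b t)) t)
    (hi : Integrable Ψ (mu n)) (hi' : Integrable Ψ' (mu n)) : ∫ g, Ψ' g ∂(mu n) = 0 := by
  have _ := hb
  have hcont : Continuous (fun p : SUGroup n × ℝ => Ψ' (p.1 * b p.2)) :=
    hc.comp (continuous_fst.mul (hbc.comp continuous_snd))
  -- the fundamental theorem of calculus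
  have h1 : ∀ g, Ψ (g * b 1) - Ψ g = ∫ u in (0 : ℝ)..1, Ψ' (g * b u) := by
    intro g
    have hcg : Continuous (fun u : ℝ => Ψ' (g * b u)) :=
      hc.comp (continuous_const.mul hbc)
    have h := intervalIntegral.integral_eq_sub_of_hasDerivAt (a := 0) (b := 1)
      (f := fun t => Ψ (g * b t)) (f' := fun t => Ψ' (g * b t)) (fun t _ => hd g t)
      (hcg.intervalIntegrable 0 1)
    rw [h, hb0, mul_one]
  have h2 : ∫ g, (Ψ (g * b 1) - Ψ g) ∂(mu n) = 0 := by
    have h3 : Integrable (fun g => Ψ (g * b 1)) (mu n) := hi.comp_mul_right (b 1)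
    rw [integral_sub h3 hi, integral_mul_right_eq_self (fun g => Ψ g) (b 1), sub_self]
  have h4 : ∫ g, (∫ u in (0 : ℝ)..1, Ψ' (g * b u)) ∂(mu n) =
      ∫ u in (0 : ℝ)..1, (∫ g, Ψ' (g * b u) ∂(mu n)) := by
    simp only [intervalIntegral.integral_of_le zero_le_one]
    refine integral_integral_swap ?_
    have hmeas : AEStronglyMeasurable (fun p : SUGroup n × ℝ => Ψ' (p.1 * b p.2))
        ((mu n).prod (volume.restrict (Set.Ioc (0 : ℝ) 1))) := hcont.aestronglyMeasurable
    show Integrable (fun p : SUGroup n × ℝ => Ψ' (p.1 * b p.2))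
        ((mu n).prod (volume.restrict (Set.Ioc (0 : ℝ) 1)))
    rw [integrable_prod_iff' hmeas]
    constructor
    · refine Filter.Eventually.of_forall fun u => ?_
      exact hi'.comp_mul_right (b u)
    · have h5 : ∀ u : ℝ, ∫ g, ‖Ψ' (g * b u)‖ ∂(mu n) = ∫ g, ‖Ψ' g‖ ∂(mu n) := fun u =>
        integral_mul_right_eq_self (fun g => ‖Ψ' g‖) (b u)
      simp only [h5]
      exact integrable_const _
  have h6 : ∀ u : ℝ, ∫ g, Ψ' (g * b u) ∂(mu n) = ∫ g, Ψ' g ∂(mu n) := fun u =>
    integral_mul_right_eq_self (fun g => Ψ' g) (b u)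
  simp only [h6] at h4
  rw [intervalIntegral.integral_const, sub_zero, one_smul] at h4
  rw [← h4, ← h2]
  exact integral_congr_ae (Filter.Eventually.of_forall fun g => (h1 g).symm)

/-- the action on a coordinate vector -/
theorem act_single (g : SUGroup n) (i : Fin (n + 1)) (c : ℂ) :
    act g (Pi.single i c) = ∑ k, Pi.single k (g.toMatrix k i * c) := by
  have h : (∑ k, Pi.single k (g.toMatrix k i * c) : Vec n) = fun k => g.toMatrix k i * c :=
    Finset.univ_sum_single _
  rw [h]
  ext k
  rw [act, Matrix.mulVec_single]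
  simp

/-- The sum over the diagonal form in terms of a frame: `g J g^* = J`. `B` is bilinear over the reals
and invariant under multiplication of both arguments by `I`. -/
theorem sum_J_frame (B : Vec n → Vec n → E) (hadd₁ : ∀ a b c, B (a + b) c = B a c + B b c)
    (hadd₂ : ∀ a b c, B a (b + c) = B a b + B a c)
    (hs₁ : ∀ (r : ℝ) a c, B (r • a) c = r • B a c) (hs₂ : ∀ (r : ℝ) a c, B a (r • c) = r • B a c)
    (g : SUGroup n) :
    ∑ i : Fin (n + 1), (J n i i).re • (B (Pi.single i 1) (Pi.single i 1) +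
        B (Pi.single i Complex.I) (Pi.single i Complex.I)) =
      ∑ i : Fin (n + 1), (J n i i).re • (B (act g (Pi.single i 1)) (act g (Pi.single i 1)) +
        B (act g (Pi.single i Complex.I)) (act g (Pi.single i Complex.I))) := by
  obtain ⟨Bl, hBl⟩ : ∃ Bl : Vec n →ₗ[ℝ] Vec n →ₗ[ℝ] E, ∀ a c, Bl a c = B a c :=
    ⟨LinearMap.mk₂ ℝ B hadd₁ (fun r a c => hs₁ r a c) hadd₂ (fun r a c => hs₂ r a c),
      fun a c => rfl⟩
  simp only [← hBl]
  have hsing : ∀ (k : Fin (n + 1)) (c : ℂ), (Pi.single k c : Vec n) =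
      c.re • (Pi.single k 1 : Vec n) + c.im • (Pi.single k Complex.I : Vec n) := by
    intro k c
    rw [← Pi.single_smul, ← Pi.single_smul, ← Pi.single_add]
    congr 1
    rw [Complex.real_smul, Complex.real_smul, mul_one]
    exact (Complex.re_add_im c).symm
  -- the pair sum
  have hpair : ∀ (k l : Fin (n + 1)) (c d : ℂ),
      Bl (Pi.single k c) (Pi.single l d) +
        Bl (Pi.single k (c * Complex.I)) (Pi.single l (d * Complex.I)) =
      (c * star d).re • (Bl (Pi.single k 1) (Pi.single l 1) +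
        Bl (Pi.single k Complex.I) (Pi.single l Complex.I)) -
      (c * star d).im • (Bl (Pi.single k 1) (Pi.single l Complex.I) -
        Bl (Pi.single k Complex.I) (Pi.single l 1)) := by
    intro k l c d
    rw [hsing k c, hsing l d, hsing k (c * Complex.I), hsing l (d * Complex.I)]
    simp only [map_add, map_smul, LinearMap.add_apply, LinearMap.smul_apply]
    have e1 : (c * Complex.I).re = - c.im := by simp
    have e2 : (c * Complex.I).im = c.re := by simp
    have e3 : (d * Complex.I).re = - d.im := by simp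
    have e4 : (d * Complex.I).im = d.re := by simp
    have e5 : (c * star d).re = c.re * d.re + c.im * d.im := by simp
    have e6 : (c * star d).im = c.im * d.re - c.re * d.im := by
      simp
      ring
    rw [e1, e2, e3, e4, e5, e6]
    module
  have hexp : ∀ (i : Fin (n + 1)) (c : ℂ), Bl (act g (Pi.single i c)) (act g (Pi.single i c)) =
      ∑ k, ∑ l, Bl (Pi.single k (g.toMatrix k i * c)) (Pi.single l (g.toMatrix l i * c)) := by
    intro i c
    rw [act_single]
    rw [map_sum Bl, LinearMap.sum_apply]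
    refine Finset.sum_congr rfl fun k _ => ?_
    rw [map_sum (Bl (Pi.single k (g.toMatrix k i * c)))]
  have hact : ∀ (i : Fin (n + 1)), Bl (act g (Pi.single i 1)) (act g (Pi.single i 1)) +
      Bl (act g (Pi.single i Complex.I)) (act g (Pi.single i Complex.I)) =
      ∑ k, ∑ l, ((g.toMatrix k i * star (g.toMatrix l i)).re •
        (Bl (Pi.single k 1) (Pi.single l 1) +
        Bl (Pi.single k Complex.I) (Pi.single l Complex.I)) -
      (g.toMatrix k i * star (g.toMatrix l i)).im •
        (Bl (Pi.single k 1) (Pi.single l Complex.I) -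
        Bl (Pi.single k Complex.I) (Pi.single l 1))) := by
    intro i
    rw [hexp, hexp, ← Finset.sum_add_distrib]
    refine Finset.sum_congr rfl fun k _ => ?_
    rw [← Finset.sum_add_distrib]
    refine Finset.sum_congr rfl fun l _ => ?_
    rw [mul_one, mul_one]
    exact hpair k l _ _
  simp only [hact]
  -- interchange the sums
  have hJ : ∀ k l : Fin (n + 1), ∑ i, ((J n i i).re : ℂ) * (g.toMatrix k i * star (g.toMatrix l i)) =
      J n k l := by
    intro k l
    have h := congrFun (congrFun (mul_J_mul g) k) l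
    rw [Matrix.mul_apply] at h
    rw [← h]
    refine Finset.sum_congr rfl fun i _ => ?_
    rw [J, Matrix.mul_diagonal, conjTranspose_apply, diagonal_apply_eq]
    split_ifs <;> simp
  have hJre : ∀ k l : Fin (n + 1), ∑ i, (J n i i).re * (g.toMatrix k i * star (g.toMatrix l i)).re =
      (J n k l).re := by
    intro k l
    rw [← hJ k l, Complex.re_sum]
    refine Finset.sum_congr rfl fun i _ => ?_
    rw [Complex.re_ofReal_mul]
  have hJim : ∀ k l : Fin (n + 1), ∑ i, (J n i i).re * (g.toMatrix k i * star (g.toMatrix l i)).im =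
      (J n k l).im := by
    intro k l
    rw [← hJ k l, Complex.im_sum]
    refine Finset.sum_congr rfl fun i _ => ?_
    rw [Complex.im_ofReal_mul]
  have hJ0 : ∀ k l : Fin (n + 1), (J n k l).im = 0 := by
    intro k l
    rw [J, diagonal_apply]
    split_ifs <;> simp
  have hswap : ∑ i, (J n i i).re • ∑ k, ∑ l, ((g.toMatrix k i * star (g.toMatrix l i)).re •
        (Bl (Pi.single k 1) (Pi.single l 1) +
        Bl (Pi.single k Complex.I) (Pi.single l Complex.I)) -
      (g.toMatrix k i * star (g.toMatrix l i)).im •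
        (Bl (Pi.single k 1) (Pi.single l Complex.I) -
        Bl (Pi.single k Complex.I) (Pi.single l 1))) =
      ∑ k, ∑ l, ((J n k l).re • (Bl (Pi.single k 1) (Pi.single l 1) +
        Bl (Pi.single k Complex.I) (Pi.single l Complex.I)) -
        (J n k l).im • (Bl (Pi.single k 1) (Pi.single l Complex.I) -
        Bl (Pi.single k Complex.I) (Pi.single l 1))) := by
    simp only [Finset.smul_sum]
    rw [Finset.sum_comm]
    refine Finset.sum_congr rfl fun k _ => ?_
    rw [Finset.sum_comm]
    refine Finset.sum_congr rfl fun l _ => ?_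
    rw [← hJre, ← hJim, Finset.sum_smul, Finset.sum_smul, ← Finset.sum_sub_distrib]
    refine Finset.sum_congr rfl fun i _ => ?_
    rw [smul_sub, smul_smul, smul_smul]
  rw [hswap]
  refine Finset.sum_congr rfl fun k _ => ?_
  rw [Finset.sum_eq_single k]
  · rw [hJ0, zero_smul, sub_zero]
  · intro l _ hlk
    have h0 : J n k l = 0 := by
      rw [J, diagonal_apply, if_neg hlk.symm]
    rw [h0]
    simp
  · intro h
    exact absurd (Finset.mem_univ k) h

/-- Euler relations for a homogeneous function. -/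
theorem homog_fderiv {f : Vec n → E} (hf : Homog f) {v : Vec n} (hv : v ∈ Cone n)
    (hd : DifferentiableAt ℝ f v) (c : ℂ) : fderiv ℝ f v (c • v) = 0 := by
  -- the path `t ↦ (1 + t c) • v`
  have h1 : HasDerivAt (fun t : ℝ => ((1 : ℂ) + (t : ℂ) * c) • v) (c • v) 0 := by
    have h2 : HasDerivAt (fun t : ℝ => (1 : ℂ) + (t : ℂ) * c) c 0 := by
      have h3 : HasDerivAt (fun t : ℝ => (t : ℂ)) 1 (0 : ℝ) := Complex.ofRealCLM.hasDerivAt
      have h4 := (h3.mul_const c).const_add (1 : ℂ)
      simpa using h4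
    exact h2.smul_const v
  have h0 : ((1 : ℂ) + ((0 : ℝ) : ℂ) * c) • v = v := by simp
  have h2 : HasDerivAt (fun t : ℝ => f (((1 : ℂ) + (t : ℂ) * c) • v)) (fderiv ℝ f v (c • v)) 0 := by
    have h3 : HasFDerivAt f (fderiv ℝ f v) (((1 : ℂ) + ((0 : ℝ) : ℂ) * c) • v) := by
      rw [h0]
      exact hd.hasFDerivAt
    exact h3.comp_hasDerivAt (0 : ℝ) h1
  have h3 : (fun t : ℝ => f (((1 : ℂ) + (t : ℂ) * c) • v)) =ᶠ[𝓝 0] fun _ => f v := by
    have h4 : ∀ᶠ t : ℝ in 𝓝 0, (1 : ℂ) + (t : ℂ) * c ≠ 0 := by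
      have h5 : ContinuousAt (fun t : ℝ => (1 : ℂ) + (t : ℂ) * c) 0 := by fun_prop
      refine h5.eventually_ne ?_
      simp
    filter_upwards [h4] with t ht
    exact hf _ ht v hv
  have h4 : HasDerivAt (fun t : ℝ => f (((1 : ℂ) + (t : ℂ) * c) • v)) 0 0 :=
    (hasDerivAt_const (0 : ℝ) (f v)).congr_of_eventuallyEq h3
  exact h2.unique h4

/-- both second derivatives in the direction of the fibre vanish -/
theorem homog_fderiv_two_aux {f : Vec n → E} (hf : Homog f) {v : Vec n} (hv : v ∈ Cone n)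
    (hd : ContDiffAt ℝ 2 f v) (c : ℂ) :
    fderiv ℝ (fderiv ℝ f) v (c • v) (c • v) = 0 := by
  have hev : ∀ᶠ u in 𝓝 v, fderiv ℝ f u (c • u) = 0 := by
    have h1 : ∀ᶠ u in 𝓝 v, ContDiffAt ℝ 2 f u := hd.eventually (by norm_num)
    have h2 : ∀ᶠ u in 𝓝 v, u ∈ Cone n := (isOpen_cone n).mem_nhds hv
    filter_upwards [h1, h2] with u hu1 hu2
    exact homog_fderiv hf hu2 (hu1.differentiableAt (by norm_num)) c
  have hD : DifferentiableAt ℝ (fderiv ℝ f) v :=
    (hd.fderiv_right (m := 1) (by norm_num)).differentiableAt (by norm_num)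
  have hL : HasFDerivAt (fun u : Vec n => c • u)
      (c • ContinuousLinearMap.id ℝ (Vec n)) v := by
    exact (hasFDerivAt_id v).const_smul c
  have h1 : HasFDerivAt (fun u => fderiv ℝ f u (c • u))
      ((fderiv ℝ f v).comp (c • ContinuousLinearMap.id ℝ (Vec n)) +
        (fderiv ℝ (fderiv ℝ f) v).flip (c • v)) v :=
    hD.hasFDerivAt.clm_apply hL
  have h2 : HasFDerivAt (fun u => fderiv ℝ f u (c • u)) (0 : Vec n →L[ℝ] E) v :=
    (hasFDerivAt_const (0 : E) v).congr_of_eventuallyEq hev
  have h3 := congrArg (fun A : Vec n →L[ℝ] E => A (c • v)) (h1.unique h2)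
  simp only [_root_.add_apply, ContinuousLinearMap.flip_apply,
    _root_.zero_apply, ContinuousLinearMap.comp_apply] at h3
  have h4 : (c • ContinuousLinearMap.id ℝ (Vec n)) (c • v) = (c * c) • v := by
    simp [smul_smul]
  rw [h4, homog_fderiv hf hv (hd.differentiableAt (by norm_num)) (c * c), zero_add] at h3
  exact h3

theorem homog_fderiv_two {f : Vec n → E} (hf : Homog f) {v : Vec n} (hv : v ∈ Cone n)
    (hd : ContDiffAt ℝ 2 f v) :
    fderiv ℝ (fderiv ℝ f) v v v + fderiv ℝ (fderiv ℝ f) v (Complex.I • v) (Complex.I • v) = 0 := by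
  have h1 := homog_fderiv_two_aux hf hv hd 1
  have h2 := homog_fderiv_two_aux hf hv hd Complex.I
  rw [one_smul] at h1
  rw [h1, h2, add_zero]

/-- the last frame vectors -/
private theorem act_single_last (g : SUGroup n) (c : ℂ) :
    act g (Pi.single (Fin.last n) c) = c • act g (base n) := by
  rw [← act_smul, base, ← Pi.single_smul, smul_eq_mul, mul_one]

/-- The Laplacian in a frame. -/
theorem lap_frame {f : Vec n → E} (hf : Homog f) (g : SUGroup n)
    (hd : ContDiffAt ℝ 2 f (act g (base n))) :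
    Lap f (act g (base n)) = (1 / 4 : ℝ) • ∑ j : Fin n,
      (fderiv ℝ (fderiv ℝ f) (act g (base n)) (act g (Pi.single j.castSucc 1))
          (act g (Pi.single j.castSucc 1)) +
        fderiv ℝ (fderiv ℝ f) (act g (base n)) (act g (Pi.single j.castSucc Complex.I))
          (act g (Pi.single j.castSucc Complex.I))) := by
  rw [Lap, sum_J_frame (fun a b => fderiv ℝ (fderiv ℝ f) (act g (base n)) a b)
    (fun a b c => by simp) (fun a b c => by simp) (fun r a c => by simp) (fun r a c => by simp) g,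
    Fin.sum_univ_castSucc, q_orbit, neg_neg]
  rw [act_single_last, act_single_last, one_smul, homog_fderiv_two hf (orbit_mem g) hd, smul_zero,
    add_zero]
  congr 1
  refine Finset.sum_congr rfl fun j _ => ?_
  rw [show J n j.castSucc j.castSucc = 1 by rw [J, diagonal_apply_eq, if_neg (Fin.castSucc_lt_last j).ne], Complex.one_re, one_smul]

/-- The energy matrix in a frame. -/
theorem en_frame {A : Vec n → Mat m} (hf : Homog A) (g : SUGroup n)
    (hd : DifferentiableAt ℝ A (act g (base n))) :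
    en A (act g (base n)) = (1 / 4 : ℝ) • ∑ j : Fin n,
      (fderiv ℝ A (act g (base n)) (act g (Pi.single j.castSucc 1)) * (A (act g (base n)))⁻¹ *
          fderiv ℝ A (act g (base n)) (act g (Pi.single j.castSucc 1)) +
        fderiv ℝ A (act g (base n)) (act g (Pi.single j.castSucc Complex.I)) *
          (A (act g (base n)))⁻¹ *
          fderiv ℝ A (act g (base n)) (act g (Pi.single j.castSucc Complex.I))) := by
  rw [en, sum_J_frame (fun a b => fderiv ℝ A (act g (base n)) a * (A (act g (base n)))⁻¹ *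
      fderiv ℝ A (act g (base n)) b)
    (fun a b c => by simp [Matrix.add_mul]) (fun a b c => by simp [Matrix.mul_add])
    (fun r a c => by simp) (fun r a c => by simp) g,
    Fin.sum_univ_castSucc, q_orbit, neg_neg]
  rw [act_single_last, act_single_last, one_smul]
  have h1 := homog_fderiv hf (orbit_mem g) hd 1
  have h2 := homog_fderiv hf (orbit_mem g) hd Complex.I
  rw [one_smul] at h1
  rw [h1, h2]
  simp only [Matrix.zero_mul, add_zero, smul_zero]
  congr 1
  refine Finset.sum_congr rfl fun j _ => ?_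
  rw [show J n j.castSucc j.castSucc = 1 by
    rw [J, diagonal_apply_eq, if_neg (Fin.castSucc_lt_last j).ne], Complex.one_re, one_smul]

/-- the derivative of an orbit map along the flow -/
private theorem hasDerivAt_act_flow {ξ : Fin n → ℂ} {b : ℝ → SUGroup n}
    (hbd : ∀ t, HasDerivAt (fun t => (b t).toMatrix) ((b t).toMatrix * xmat ξ) t) (g : SUGroup n)
    (w : Vec n) (t : ℝ) :
    HasDerivAt (fun t => act (g * b t) w) (act (g * b t) (xmat ξ *ᵥ w)) t := by
  let L : Mat (n + 1) →ₗ[ℝ] Vec n :=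
    { toFun := fun M => (g.toMatrix * M) *ᵥ w
      map_add' := fun M N => by rw [Matrix.mul_add, Matrix.add_mulVec]
      map_smul' := fun r M => by
        rw [Matrix.mul_smul, Matrix.smul_mulVec]
        rfl }
  have h1 : HasDerivAt (fun t => L.toContinuousLinearMap ((b t).toMatrix))
      (L.toContinuousLinearMap ((b t).toMatrix * xmat ξ)) t :=
    L.toContinuousLinearMap.hasFDerivAt.comp_hasDerivAt t (hbd t)
  have e1 : (fun t => L.toContinuousLinearMap ((b t).toMatrix)) = fun t => act (g * b t) w := by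
    funext t
    rfl
  have e2 : L.toContinuousLinearMap ((b t).toMatrix * xmat ξ) = act (g * b t) (xmat ξ *ᵥ w) := by
    show (g.toMatrix * ((b t).toMatrix * xmat ξ)) *ᵥ w = (g * b t).toMatrix *ᵥ (xmat ξ *ᵥ w)
    rw [Matrix.mulVec_mulVec, toMatrix_mul, Matrix.mul_assoc]
  rw [e1, e2] at h1
  exact h1

private theorem vec_last (ξ : Fin n → ℂ) : vec ξ (Fin.last n) = 0 := by
  rw [vec, Fin.snoc_last]

private theorem vec_castSucc (ξ : Fin n → ℂ) (i : Fin n) : vec ξ i.castSucc = ξ i := by
  rw [vec, Fin.snoc_castSucc]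

private theorem base_dot (w : Vec n) : base n ⬝ᵥ w = w (Fin.last n) := by
  rw [base, single_one_dotProduct]

private theorem xmat_base (ξ : Fin n → ℂ) : xmat ξ *ᵥ base n = vec ξ := by
  rw [xmat, Matrix.add_mulVec, Matrix.vecMulVec_mulVec, Matrix.vecMulVec_mulVec, base_dot]
  have h1 : base n (Fin.last n) = 1 := by rw [base, Pi.single_eq_same]
  have h2 : star (vec ξ) ⬝ᵥ base n = 0 := by
    rw [base, dotProduct_single_one, Pi.star_apply, vec_last, star_zero]
  rw [h1, h2]
  simp

private theorem xmat_vec (ξ : Fin n → ℂ) (hξ : ∑ i, ‖ξ i‖ ^ 2 = 1) : xmat ξ *ᵥ vec ξ = base n := by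
  rw [xmat, Matrix.add_mulVec, Matrix.vecMulVec_mulVec, Matrix.vecMulVec_mulVec, base_dot, vec_last]
  have h2 : star (vec ξ) ⬝ᵥ vec ξ = 1 := by
    rw [dotProduct, Fin.sum_univ_castSucc]
    simp only [Pi.star_apply, vec_castSucc, vec_last, mul_zero, add_zero]
    have h3 : ∀ i : Fin n, star (ξ i) * ξ i = ((‖ξ i‖ ^ 2 : ℝ) : ℂ) := by
      intro i
      rw [RCLike.star_def, Complex.conj_mul']
      push_cast
      rfl
    rw [Finset.sum_congr rfl (fun i _ => h3 i), ← Complex.ofReal_sum, hξ, Complex.ofReal_one]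
  rw [h2]
  simp

/-- Differentiation of a function on the group which comes from the cone along the flow of
`xmat ξ`: the first derivative is `Df(g e_n)[g ξ]` and the second one is `D²f(g e_n)[g ξ, g ξ]`
(the term `Df(g e_n)[g e_n]` vanishes). -/
theorem hasDerivAt_flow {f : Vec n → E} {ξ : Fin n → ℂ} {b : ℝ → SUGroup n}
    (hbd : ∀ t, HasDerivAt (fun t => (b t).toMatrix) ((b t).toMatrix * xmat ξ) t) (g : SUGroup n)
    (t : ℝ) (hd : DifferentiableAt ℝ f (act (g * b t) (base n))) :
    HasDerivAt (fun t => f (act (g * b t) (base n)))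
      (fderiv ℝ f (act (g * b t) (base n)) (act (g * b t) (vec ξ))) t := by
  have h1 := hasDerivAt_act_flow hbd g (base n) t
  rw [xmat_base] at h1
  exact hd.hasFDerivAt.comp_hasDerivAt t h1

theorem hasDerivAt_flow_two {f : Vec n → E} (hf : Homog f) {ξ : Fin n → ℂ}
    (hξ : ∑ i, ‖ξ i‖ ^ 2 = 1) {b : ℝ → SUGroup n}
    (hbd : ∀ t, HasDerivAt (fun t => (b t).toMatrix) ((b t).toMatrix * xmat ξ) t) (g : SUGroup n)
    (t : ℝ) (hd : ContDiffAt ℝ 2 f (act (g * b t) (base n))) :
    HasDerivAt (fun t => fderiv ℝ f (act (g * b t) (base n)) (act (g * b t) (vec ξ)))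
      (fderiv ℝ (fderiv ℝ f) (act (g * b t) (base n)) (act (g * b t) (vec ξ))
        (act (g * b t) (vec ξ))) t := by
  have h1 := hasDerivAt_act_flow hbd g (base n) t
  have h2 := hasDerivAt_act_flow hbd g (vec ξ) t
  rw [xmat_base] at h1
  rw [xmat_vec ξ hξ] at h2
  have hD : DifferentiableAt ℝ (fderiv ℝ f) (act (g * b t) (base n)) :=
    (hd.fderiv_right (m := 1) (by norm_num)).differentiableAt (by norm_num)
  have h3 : HasDerivAt (fun t => fderiv ℝ f (act (g * b t) (base n)))
      (fderiv ℝ (fderiv ℝ f) (act (g * b t) (base n)) (act (g * b t) (vec ξ))) t :=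
    hD.hasFDerivAt.comp_hasDerivAt t h1
  have h4 := h3.clm_apply h2
  have h5 := homog_fderiv hf (orbit_mem (g * b t)) (hd.differentiableAt (by norm_num)) 1
  rw [one_smul] at h5
  rw [h5, add_zero] at h4
  exact h4

/-- the action as a continuous real linear map -/
noncomputable def actL (g : SUGroup n) : Vec n →L[ℝ] Vec n :=
  ((g.toMatrix).mulVecLin.restrictScalars ℝ).toContinuousLinearMap

theorem actL_apply (g : SUGroup n) (v : Vec n) : actL g v = act g v := rfl

/-- second derivative of a composition with a linear map -/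
theorem fderiv_two_comp {f : Vec n → E} (L : Vec n →L[ℝ] Vec n) {v : Vec n}
    (hd : ContDiffAt ℝ 2 f (L v)) (ξ η : Vec n) :
    fderiv ℝ (fderiv ℝ (fun u => f (L u))) v ξ η = fderiv ℝ (fderiv ℝ f) (L v) (L ξ) (L η) := by
  have hev : fderiv ℝ (fun u => f (L u)) =ᶠ[𝓝 v] fun u => (fderiv ℝ f (L u)).comp L := by
    have h1 : ∀ᶠ w in 𝓝 (L v), ContDiffAt ℝ 2 f w := hd.eventually (by norm_num)
    have h2 : ∀ᶠ u in 𝓝 v, ContDiffAt ℝ 2 f (L u) := L.continuous.continuousAt.eventually h1
    filter_upwards [h2] with u hu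
    exact ((hu.differentiableAt (by norm_num)).hasFDerivAt.comp u L.hasFDerivAt).fderiv
  have hD : DifferentiableAt ℝ (fderiv ℝ f) (L v) :=
    (hd.fderiv_right (m := 1) (by norm_num)).differentiableAt (by norm_num)
  have h3 : HasFDerivAt (fun u => fderiv ℝ f (L u)) ((fderiv ℝ (fderiv ℝ f) (L v)).comp L) v :=
    hD.hasFDerivAt.comp v L.hasFDerivAt
  have h4 : HasFDerivAt (fun u => (fderiv ℝ f (L u)).comp L)
      ((((ContinuousLinearMap.compL ℝ (Vec n) (Vec n) E).flip L)).comp
        ((fderiv ℝ (fderiv ℝ f) (L v)).comp L)) v :=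
    (((ContinuousLinearMap.compL ℝ (Vec n) (Vec n) E).flip L)).hasFDerivAt.comp v h3
  rw [hev.fderiv_eq, h4.fderiv]
  rfl

/-- The Laplacian is invariant. -/
theorem lap_act (f : Vec n → E) (g : SUGroup n) {v : Vec n} (hv : v ∈ Cone n)
    (hd : ContDiffAt ℝ 2 f (act g v)) : Lap (fun u => f (act g u)) v = Lap f (act g v) := by
  have _ := hv
  rw [Lap, Lap, sum_J_frame (fun a b => fderiv ℝ (fderiv ℝ f) (act g v) a b)
    (fun a b c => by simp) (fun a b c => by simp) (fun r a c => by simp) (fun r a c => by simp) g,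
    q_act]
  congr 1
  refine Finset.sum_congr rfl fun i _ => ?_
  congr 1
  have h := fun ξ η => fderiv_two_comp (f := f) (actL g) (v := v) hd ξ η
  exact congrArg₂ (· + ·) (h _ _) (h _ _)

end Pool.Agent.Lib.MP_5d4057_al.HM
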