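import Pool.Agent.Lib.MP_5d4057_al.HM.Haar
import Pool.Agent.Lib.MP_5d4057_al.HM.Flow

/-! Moments of the kernels (blueprint A4). All statements hold in the sharp range `n < s`. -/

namespace Pool.Agent.Lib.MP_5d4057_al.HM

open Matrix MeasureTheory Filter Topology Pool.Agent.Lib.MP_5d4057_al Pool.Agent.Lib.MP_5d4057_al.Hyb

open scoped ComplexOrder MatrixOrder Matrix.Norms.L2Operator

variable {n m : ℕ} {E : Type} [NormedAddCommGroup E] [NormedSpace ℝ E]

theorem ch_pos (x : SUGroup n) : 0 < ch x := lt_of_lt_of_le one_pos (one_le_ch x)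

theorem cs_nonneg (n s : ℕ) : 0 ≤ cs n s :=
  integral_nonneg fun x => by
    have := ch_pos x
    positivity

theorem kap_nonneg (s : ℕ) (x : SUGroup n) : 0 ≤ kap s x := by
  have := ch_pos x
  exact div_nonneg (by positivity) (cs_nonneg n s)

private theorem mom_cont_inv (s : ℕ) : Continuous fun x : SUGroup n => (ch x ^ (2 * s))⁻¹ :=
  (continuous_ch.pow _).inv₀ fun x => (pow_pos (ch_pos x) _).ne'

theorem continuous_kap (s : ℕ) : Continuous (kap s : SUGroup n → ℝ) :=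
  (mom_cont_inv s).div_const _

theorem kap_inv (s : ℕ) (x : SUGroup n) : kap s x⁻¹ = kap s x := by
  rw [kap, kap, ch_inv]

section recursion

private theorem mom_pw1 {u : ℝ} (hu : u ≠ 0) (k : ℕ) : u * (u ^ (k + 1))⁻¹ = (u ^ k)⁻¹ := by
  rw [pow_succ, mul_inv, mul_comm, mul_assoc, inv_mul_cancel₀ hu, mul_one]

private theorem mom_pw2 {u : ℝ} (hu : u ≠ 0) (k : ℕ) : u ^ 2 * (u ^ (k + 2))⁻¹ = (u ^ k)⁻¹ := by
  rw [pow_add, mul_inv, mul_comm, mul_assoc, inv_mul_cancel₀ (pow_ne_zero 2 hu), mul_one]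

/-- the derivative of an orbit map along the flow -/
private theorem mom_act_flow {ξ : Fin n → ℂ} {b : ℝ → SUGroup n}
    (hbd : ∀ t, HasDerivAt (fun t => (b t).toMatrix) ((b t).toMatrix * xmat ξ) t) (g : SUGroup n)
    (w : Vec n) (t : ℝ) :
    HasDerivAt (fun t => act (g * b t) w) (act (g * b t) (xmat ξ *ᵥ w)) t := by
  let L : Mat (n + 1) →ₗ[ℝ] Vec n :=
    { toFun := fun M => (g.toMatrix * M) *ᵥ w
      map_add' := fun M N => by rw [Matrix.mul_add, Matrix.add_mulVec]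
      map_smul' := fun r M => by
        rw [Matrix.mul_smul, Matrix.smul_mulVec]
        rfl }
  have h1 : HasDerivAt (fun t => L.toContinuousLinearMap ((b t).toMatrix))
      (L.toContinuousLinearMap ((b t).toMatrix * xmat ξ)) t :=
    L.toContinuousLinearMap.hasFDerivAt.comp_hasDerivAt t (hbd t)
  have e1 : (fun t => L.toContinuousLinearMap ((b t).toMatrix)) = fun t => act (g * b t) w := by
    funext t
    rfl
  have e2 : L.toContinuousLinearMap ((b t).toMatrix * xmat ξ) = act (g * b t) (xmat ξ *ᵥ w) := by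
    show (g.toMatrix * ((b t).toMatrix * xmat ξ)) *ᵥ w = (g * b t).toMatrix *ᵥ (xmat ξ *ᵥ w)
    rw [Matrix.mulVec_mulVec, toMatrix_mul, Matrix.mul_assoc]
  rw [e1, e2] at h1
  exact h1

private theorem mom_vec_last (ξ : Fin n → ℂ) : vec ξ (Fin.last n) = 0 := by
  rw [vec, Fin.snoc_last]

private theorem mom_vec_castSucc (ξ : Fin n → ℂ) (i : Fin n) : vec ξ i.castSucc = ξ i := by
  rw [vec, Fin.snoc_castSucc]

private theorem mom_base_dot (w : Vec n) : base n ⬝ᵥ w = w (Fin.last n) := by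
  rw [base, single_one_dotProduct]

private theorem mom_xmat_base (ξ : Fin n → ℂ) : xmat ξ *ᵥ base n = vec ξ := by
  rw [xmat, Matrix.add_mulVec, Matrix.vecMulVec_mulVec, Matrix.vecMulVec_mulVec, mom_base_dot]
  have h1 : base n (Fin.last n) = 1 := by rw [base, Pi.single_eq_same]
  have h2 : star (vec ξ) ⬝ᵥ base n = 0 := by
    rw [base, dotProduct_single_one, Pi.star_apply, mom_vec_last, star_zero]
  rw [h1, h2]
  simp

private theorem mom_xmat_vec (ξ : Fin n → ℂ) (hξ : ∑ i, ‖ξ i‖ ^ 2 = 1) :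
    xmat ξ *ᵥ vec ξ = base n := by
  rw [xmat, Matrix.add_mulVec, Matrix.vecMulVec_mulVec, Matrix.vecMulVec_mulVec, mom_base_dot,
    mom_vec_last]
  have h2 : star (vec ξ) ⬝ᵥ vec ξ = 1 := by
    rw [dotProduct, Fin.sum_univ_castSucc]
    simp only [Pi.star_apply, mom_vec_castSucc, mom_vec_last, mul_zero, add_zero]
    have h3 : ∀ i : Fin n, star (ξ i) * ξ i = ((‖ξ i‖ ^ 2 : ℝ) : ℂ) := by
      intro i
      rw [RCLike.star_def, Complex.conj_mul']
      push_cast
      rfl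
    rw [Finset.sum_congr rfl (fun i _ => h3 i), ← Complex.ofReal_sum, hξ, Complex.ofReal_one]
  rw [h2]
  simp

/-- last entry of the last column -/
private noncomputable def momX (g : SUGroup n) : ℂ := act g (base n) (Fin.last n)

private noncomputable def momY (ξ : Fin n → ℂ) (g : SUGroup n) : ℂ := act g (vec ξ) (Fin.last n)

private theorem momX_eq (g : SUGroup n) : momX g = g.toMatrix (Fin.last n) (Fin.last n) := by
  rw [momX, act, base, mulVec_single_one]
  rfl

private theorem momY_eq (ξ : Fin n → ℂ) (g : SUGroup n) :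
    momY ξ g = ∑ j : Fin n, g.toMatrix (Fin.last n) j.castSucc * ξ j := by
  rw [momY, act, mulVec, dotProduct, Fin.sum_univ_castSucc, mom_vec_last, mul_zero, add_zero]
  simp only [mom_vec_castSucc]

private theorem mom_norm_X (g : SUGroup n) : ‖momX g‖ = ch g := by rw [momX_eq, ch]

private theorem mom_cont_X : Continuous (momX (n := n)) := by
  have : momX (n := n) = fun g => g.toMatrix (Fin.last n) (Fin.last n) := funext momX_eq
  rw [this]
  exact (continuous_toMatrix n).matrix_elem _ _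

private theorem mom_cont_Y (ξ : Fin n → ℂ) : Continuous (momY (n := n) ξ) := by
  have : momY (n := n) ξ = fun g => ∑ j : Fin n, g.toMatrix (Fin.last n) j.castSucc * ξ j :=
    funext (momY_eq ξ)
  rw [this]
  exact continuous_finsetSum _ fun j _ => ((continuous_toMatrix n).matrix_elem _ _).mul_const _

/-- `p = 2 Re (conj X Y)` -/
private noncomputable def momP (ξ : Fin n → ℂ) (g : SUGroup n) : ℝ :=
  2 * ((momX g).re * (momY ξ g).re + (momX g).im * (momY ξ g).im)

private noncomputable def momPsi (s : ℕ) (ξ : Fin n → ℂ) (g : SUGroup n) : ℝ :=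
  -(s : ℝ) * (momP ξ g * ((ch g ^ 2) ^ (s + 1))⁻¹)

private noncomputable def momPsi' (s : ℕ) (ξ : Fin n → ℂ) (g : SUGroup n) : ℝ :=
  -(s : ℝ) * (2 * (‖momX g‖ ^ 2 + ‖momY ξ g‖ ^ 2) * ((ch g ^ 2) ^ (s + 1))⁻¹ -
    (s + 1) * momP ξ g ^ 2 * ((ch g ^ 2) ^ (s + 2))⁻¹)

private theorem mom_normsq (z : ℂ) : ‖z‖ ^ 2 = z.re ^ 2 + z.im ^ 2 := by
  rw [← Complex.normSq_eq_norm_sq, Complex.normSq_apply]
  ring

private theorem mom_deriv {ξ : Fin n → ℂ} (hξ : ∑ i, ‖ξ i‖ ^ 2 = 1) {b : ℝ → SUGroup n}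
    (hbd : ∀ t, HasDerivAt (fun t => (b t).toMatrix) ((b t).toMatrix * xmat ξ) t) (s : ℕ)
    (g : SUGroup n) (t : ℝ) :
    HasDerivAt (fun t => momPsi s ξ (g * b t)) (momPsi' s ξ (g * b t)) t := by
  have hX : HasDerivAt (fun t => momX (g * b t)) (momY ξ (g * b t)) t := by
    have h := hasDerivAt_pi.1 (mom_act_flow hbd g (base n) t) (Fin.last n)
    rw [mom_xmat_base] at h
    exact h
  have hY : HasDerivAt (fun t => momY ξ (g * b t)) (momX (g * b t)) t := by
    have h := hasDerivAt_pi.1 (mom_act_flow hbd g (vec ξ) t) (Fin.last n)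
    rw [mom_xmat_vec ξ hξ] at h
    exact h
  have hXr : HasDerivAt (fun t => (momX (g * b t)).re) (momY ξ (g * b t)).re t :=
    Complex.reCLM.hasFDerivAt.comp_hasDerivAt t hX
  have hXi : HasDerivAt (fun t => (momX (g * b t)).im) (momY ξ (g * b t)).im t :=
    Complex.imCLM.hasFDerivAt.comp_hasDerivAt t hX
  have hYr : HasDerivAt (fun t => (momY ξ (g * b t)).re) (momX (g * b t)).re t :=
    Complex.reCLM.hasFDerivAt.comp_hasDerivAt t hY
  have hYi : HasDerivAt (fun t => (momY ξ (g * b t)).im) (momX (g * b t)).im t :=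
    Complex.imCLM.hasFDerivAt.comp_hasDerivAt t hY
  have hP : HasDerivAt (fun t => momP ξ (g * b t))
      (2 * (‖momX (g * b t)‖ ^ 2 + ‖momY ξ (g * b t)‖ ^ 2)) t := by
    refine (((hXr.fun_mul hYr).fun_add (hXi.fun_mul hYi)).const_mul 2).congr_deriv ?_
    rw [mom_normsq, mom_normsq]
    ring
  have hu : HasDerivAt (fun t => ch (g * b t) ^ 2) (momP ξ (g * b t)) t := by
    have h := ((hXr.fun_mul hXr).fun_add (hXi.fun_mul hXi))
    have e : (fun t => ch (g * b t) ^ 2) = fun t => (momX (g * b t)).re * (momX (g * b t)).re +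
        (momX (g * b t)).im * (momX (g * b t)).im := by
      funext t
      rw [← mom_norm_X, mom_normsq]
      ring
    rw [e]
    refine h.congr_deriv ?_
    rw [momP]
    ring
  have hu0 : ch (g * b t) ^ 2 ≠ 0 := (pow_pos (ch_pos _) 2).ne'
  have h1 := (hu.fun_pow (s + 1)).fun_inv (pow_ne_zero _ hu0)
  have h2 := (hP.fun_mul h1).const_mul (-(s : ℝ))
  refine h2.congr_deriv ?_
  rw [momPsi']
  have e1 : ((ch (g * b t) ^ 2) ^ (s + 2))⁻¹ =
      (ch (g * b t) ^ 2) ^ s / ((ch (g * b t) ^ 2) ^ (s + 1)) ^ 2 := by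
    rw [eq_div_iff (pow_ne_zero _ (pow_ne_zero _ hu0)), inv_mul_eq_div,
      div_eq_iff (pow_ne_zero _ hu0)]
    ring
  rw [e1]
  push_cast [Nat.add_sub_cancel]
  ring

private theorem mom_bounds {ξ : Fin n → ℂ} (hY : ∀ g : SUGroup n, ‖momY ξ g‖ ^ 2 ≤ ch g ^ 2) (g : SUGroup n) :
    |momP ξ g| ≤ 2 * ch g ^ 2 := by
  have h1 : momP ξ g = 2 * (star (momX g) * momY ξ g).re := by
    rw [momP, RCLike.star_def, Complex.mul_re, Complex.conj_re, Complex.conj_im]
    ring
  have h2 : |(star (momX g) * momY ξ g).re| ≤ ch g * ‖momY ξ g‖ := by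
    refine (Complex.abs_re_le_norm _).trans ?_
    rw [norm_mul, norm_star, mom_norm_X]
  have h3 : ‖momY ξ g‖ ≤ ch g := le_of_sq_le_sq (hY g) (ch_pos g).le
  have h4 := ch_pos g
  rw [h1, abs_mul, abs_of_pos (by norm_num : (0 : ℝ) < 2)]
  nlinarith [norm_nonneg (momY ξ g)]

private theorem mom_cont_P (ξ : Fin n → ℂ) : Continuous (momP (n := n) ξ) :=
  continuous_const.mul (((Complex.continuous_re.comp mom_cont_X).mul
    (Complex.continuous_re.comp (mom_cont_Y ξ))).add ((Complex.continuous_im.comp mom_cont_X).mul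
    (Complex.continuous_im.comp (mom_cont_Y ξ))))

private theorem mom_cont_sq_inv (k : ℕ) : Continuous fun g : SUGroup n => ((ch g ^ 2) ^ k)⁻¹ :=
  ((continuous_ch.pow 2).pow k).inv₀ fun g => (pow_pos (pow_pos (ch_pos g) 2) k).ne'

private theorem mom_cont_Psi (s : ℕ) (ξ : Fin n → ℂ) : Continuous (momPsi (n := n) s ξ) :=
  continuous_const.mul ((mom_cont_P ξ).mul (mom_cont_sq_inv _))

private theorem mom_cont_Psi' (s : ℕ) (ξ : Fin n → ℂ) : Continuous (momPsi' (n := n) s ξ) :=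
  continuous_const.mul (((continuous_const.mul ((mom_cont_X.norm.pow 2).add
    ((mom_cont_Y ξ).norm.pow 2))).mul (mom_cont_sq_inv _)).sub
    ((continuous_const.mul ((mom_cont_P ξ).pow 2)).mul (mom_cont_sq_inv _)))

private theorem mom_int_Psi' {s : ℕ} (hi : Integrable (fun x : SUGroup n => (ch x ^ (2 * s))⁻¹) (mu n))
    {ξ : Fin n → ℂ} (hξ : ∑ i, ‖ξ i‖ ^ 2 = 1) (hY : ∀ g : SUGroup n, ‖momY ξ g‖ ^ 2 ≤ ch g ^ 2) :
    Integrable (momPsi' (n := n) s ξ) (mu n) ∧ ∫ g, momPsi' s ξ g ∂(mu n) = 0 := by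
  obtain ⟨b, hb0, hb, hbc, -, hbd⟩ := exists_flow ξ hξ
  have e : ∀ g : SUGroup n, (ch g ^ (2 * s))⁻¹ = ((ch g ^ 2) ^ s)⁻¹ := fun g => by rw [pow_mul]
  have h1 : Integrable (momPsi (n := n) s ξ) (mu n) := by
    refine Integrable.mono' (hi.const_mul (2 * s)) (mom_cont_Psi s ξ).aestronglyMeasurable
      (Filter.Eventually.of_forall fun g => ?_)
    have hu : 0 < ch g ^ 2 := pow_pos (ch_pos g) 2
    have hP := mom_bounds hY g
    rw [Real.norm_eq_abs, momPsi, abs_mul, abs_neg, Nat.abs_cast, abs_mul,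
      abs_of_pos (inv_pos.2 (pow_pos hu _)), e]
    have h2 : |momP ξ g| * ((ch g ^ 2) ^ (s + 1))⁻¹ ≤ 2 * ((ch g ^ 2) ^ s)⁻¹ := by
      calc _ ≤ (2 * ch g ^ 2) * ((ch g ^ 2) ^ (s + 1))⁻¹ :=
            mul_le_mul_of_nonneg_right hP (inv_nonneg.2 (pow_pos hu _).le)
        _ = _ := by rw [mul_assoc, mom_pw1 hu.ne']
    calc _ ≤ (s : ℝ) * (2 * ((ch g ^ 2) ^ s)⁻¹) := mul_le_mul_of_nonneg_left h2 (Nat.cast_nonneg _)
      _ = _ := by ring
  have h2 : Integrable (momPsi' (n := n) s ξ) (mu n) := by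
    refine Integrable.mono' (hi.const_mul (4 * s + 4 * s * (s + 1)))
      (mom_cont_Psi' s ξ).aestronglyMeasurable (Filter.Eventually.of_forall fun g => ?_)
    have hu : 0 < ch g ^ 2 := pow_pos (ch_pos g) 2
    have hP := mom_bounds hY g
    have hP2 : momP ξ g ^ 2 ≤ 4 * (ch g ^ 2) ^ 2 := by
      rw [← sq_abs]
      nlinarith [abs_nonneg (momP ξ g)]
    have hr : 2 * (‖momX g‖ ^ 2 + ‖momY ξ g‖ ^ 2) ≤ 4 * ch g ^ 2 := by
      rw [mom_norm_X]
      linarith [hY g]
    have hr0 : 0 ≤ 2 * (‖momX g‖ ^ 2 + ‖momY ξ g‖ ^ 2) := by positivity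
    rw [Real.norm_eq_abs, momPsi', abs_mul, abs_neg, Nat.abs_cast, e]
    have h3 : 2 * (‖momX g‖ ^ 2 + ‖momY ξ g‖ ^ 2) * ((ch g ^ 2) ^ (s + 1))⁻¹ ≤
        4 * ((ch g ^ 2) ^ s)⁻¹ := by
      calc _ ≤ (4 * ch g ^ 2) * ((ch g ^ 2) ^ (s + 1))⁻¹ :=
            mul_le_mul_of_nonneg_right hr (inv_nonneg.2 (pow_pos hu _).le)
        _ = _ := by rw [mul_assoc, mom_pw1 hu.ne']
    have h4 : ((s : ℝ) + 1) * momP ξ g ^ 2 * ((ch g ^ 2) ^ (s + 2))⁻¹ ≤
        4 * (s + 1) * ((ch g ^ 2) ^ s)⁻¹ := by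
      calc _ ≤ (s + 1) * (4 * (ch g ^ 2) ^ 2) * ((ch g ^ 2) ^ (s + 2))⁻¹ := by
            gcongr
        _ = _ := by rw [← mom_pw2 hu.ne' s]; ring
    have h5 : 0 ≤ 2 * (‖momX g‖ ^ 2 + ‖momY ξ g‖ ^ 2) * ((ch g ^ 2) ^ (s + 1))⁻¹ := by positivity
    have h6 : 0 ≤ ((s : ℝ) + 1) * momP ξ g ^ 2 * ((ch g ^ 2) ^ (s + 2))⁻¹ := by positivity
    have h7 : |2 * (‖momX g‖ ^ 2 + ‖momY ξ g‖ ^ 2) * ((ch g ^ 2) ^ (s + 1))⁻¹ -
        ((s : ℝ) + 1) * momP ξ g ^ 2 * ((ch g ^ 2) ^ (s + 2))⁻¹| ≤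
        4 * ((ch g ^ 2) ^ s)⁻¹ + 4 * (s + 1) * ((ch g ^ 2) ^ s)⁻¹ := by
      rw [abs_le]
      constructor <;> linarith
    calc _ ≤ (s : ℝ) * (4 * ((ch g ^ 2) ^ s)⁻¹ + 4 * (s + 1) * ((ch g ^ 2) ^ s)⁻¹) :=
          mul_le_mul_of_nonneg_left h7 (Nat.cast_nonneg _)
      _ = _ := by ring
  exact ⟨h2, integral_flow hb0 hb hbc (mom_cont_Psi' s ξ) (mom_deriv hξ hbd s) h1 h2⟩

private theorem mom_single (j : Fin n) (c : ℂ) (hc : ‖c‖ = 1) :
    ∑ i, ‖(Pi.single j c : Fin n → ℂ) i‖ ^ 2 = 1 := by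
  rw [Finset.sum_eq_single j]
  · rw [Pi.single_eq_same, hc, one_pow]
  · intro i _ hij
    rw [Pi.single_eq_of_ne hij, norm_zero]
    ring
  · intro h
    exact absurd (Finset.mem_univ j) h

private theorem momY_single (j : Fin n) (c : ℂ) (g : SUGroup n) :
    momY (Pi.single j c) g = g.toMatrix (Fin.last n) j.castSucc * c := by
  rw [momY_eq, Finset.sum_eq_single j]
  · rw [Pi.single_eq_same]
  · intro i _ hij
    rw [Pi.single_eq_of_ne hij, mul_zero]
  · intro h
    exact absurd (Finset.mem_univ j) h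

private theorem mom_Y_le (j : Fin n) (c : ℂ) (hc : ‖c‖ = 1) (g : SUGroup n) :
    ‖momY (Pi.single j c) g‖ ^ 2 ≤ ch g ^ 2 := by
  rw [momY_single, norm_mul, hc, mul_one]
  have h := sum_row g
  have h1 := Finset.single_le_sum (f := fun j : Fin n => ‖g.toMatrix (Fin.last n) j.castSucc‖ ^ 2)
    (fun i _ => sq_nonneg _) (Finset.mem_univ j)
  linarith

private theorem mom_sum_Psi' (s : ℕ) (g : SUGroup n) :
    ∑ j : Fin n, (momPsi' s (Pi.single j 1) g + momPsi' s (Pi.single j Complex.I) g) =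
      4 * (s : ℝ) * ((s - n) * (ch g ^ (2 * s))⁻¹ - s * (ch g ^ (2 * (s + 1)))⁻¹) := by
  have hu : ch g ^ 2 ≠ 0 := (pow_pos (ch_pos g) 2).ne'
  have h1 : ∀ j : Fin n, momPsi' s (Pi.single j 1) g + momPsi' s (Pi.single j Complex.I) g =
      -(4 * (s : ℝ)) * ((ch g ^ 2 + ‖g.toMatrix (Fin.last n) j.castSucc‖ ^ 2) *
        ((ch g ^ 2) ^ (s + 1))⁻¹ - (s + 1) * (ch g ^ 2 *
        ‖g.toMatrix (Fin.last n) j.castSucc‖ ^ 2) * ((ch g ^ 2) ^ (s + 2))⁻¹) := by
    intro j
    have h2 : momP (Pi.single j 1) g ^ 2 + momP (Pi.single j Complex.I) g ^ 2 =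
        4 * (ch g ^ 2 * ‖g.toMatrix (Fin.last n) j.castSucc‖ ^ 2) := by
      rw [momP, momP, momY_single, momY_single, mul_one, ← mom_norm_X, mom_normsq, mom_normsq]
      simp only [Complex.mul_re, Complex.mul_im, Complex.I_re, Complex.I_im]
      ring
    have h3 : ‖momY (Pi.single j 1) g‖ ^ 2 = ‖g.toMatrix (Fin.last n) j.castSucc‖ ^ 2 := by
      rw [momY_single, mul_one]
    have h4 : ‖momY (Pi.single j Complex.I) g‖ ^ 2 =
        ‖g.toMatrix (Fin.last n) j.castSucc‖ ^ 2 := by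
      rw [momY_single, norm_mul, Complex.norm_I, mul_one]
    rw [momPsi', momPsi', h3, h4, mom_norm_X]
    linear_combination (s : ℝ) * (s + 1) * ((ch g ^ 2) ^ (s + 2))⁻¹ * h2
  rw [Finset.sum_congr rfl fun j _ => h1 j, ← Finset.mul_sum, Finset.sum_sub_distrib,
    ← Finset.sum_mul, ← Finset.sum_mul, Finset.sum_add_distrib, ← Finset.mul_sum,
    ← Finset.mul_sum, sum_row, Finset.sum_const, Finset.card_univ, Fintype.card_fin, nsmul_eq_mul]
  have e1 : (ch g ^ (2 * s))⁻¹ = ch g ^ 2 * ((ch g ^ 2) ^ (s + 1))⁻¹ := by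
    rw [pow_mul, mom_pw1 hu]
  have e2 : ((ch g ^ 2) ^ (s + 2))⁻¹ * ch g ^ 2 = ((ch g ^ 2) ^ (s + 1))⁻¹ := by
    rw [mul_comm]
    exact mom_pw1 hu (s + 1)
  have e3 : (ch g ^ (2 * (s + 1)))⁻¹ = ((ch g ^ 2) ^ (s + 1))⁻¹ := by rw [pow_mul]
  rw [e1, e3]
  linear_combination 4 * (s : ℝ) * (s + 1) * (ch g ^ 2 - 1) * e2

private theorem mom_succ {s : ℕ} (hs : 0 < s)
    (hi : Integrable (fun x : SUGroup n => (ch x ^ (2 * s))⁻¹) (mu n))
    (hi' : Integrable (fun x : SUGroup n => (ch x ^ (2 * (s + 1)))⁻¹) (mu n)) :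
    (s : ℝ) * cs n (s + 1) = (s - n) * cs n s := by
  have h1 : ∫ g, ∑ j : Fin n, (momPsi' s (Pi.single j 1) g +
      momPsi' s (Pi.single j Complex.I) g) ∂(mu n) = 0 := by
    have hA := fun j : Fin n => mom_int_Psi' hi (mom_single j 1 (by simp)) (mom_Y_le j 1 (by simp))
    have hB := fun j : Fin n => mom_int_Psi' hi (mom_single j Complex.I (by simp))
      (mom_Y_le j Complex.I (by simp))
    have hC : ∀ j : Fin n, Integrable (fun g : SUGroup n => momPsi' s (Pi.single j 1) g +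
        momPsi' s (Pi.single j Complex.I) g) (mu n) := fun j => (hA j).1.add (hB j).1
    rw [integral_finsetSum _ fun j _ => hC j]
    refine Finset.sum_eq_zero fun j _ => ?_
    rw [integral_add (hA j).1 (hB j).1, (hA j).2, (hB j).2, add_zero]
  rw [integral_congr_ae (Filter.Eventually.of_forall fun g => mom_sum_Psi' s g),
    integral_const_mul, integral_sub (hi.const_mul _) (hi'.const_mul _), integral_const_mul,
    integral_const_mul] at h1
  have hs' : (4 * (s : ℝ)) ≠ 0 := by positivity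
  have h2 := (mul_eq_zero.1 h1).resolve_left hs'
  rw [cs, cs]
  linarith

end recursion

section beta

/-- Beta integrals. -/
private noncomputable def momI (n s j : ℕ) : ℝ :=
  ∫ x : SUGroup n, (ch x ^ (2 * s))⁻¹ * (1 - (ch x ^ 2)⁻¹) ^ j ∂(mu n)

private theorem mom_w (x : SUGroup n) : 0 ≤ 1 - (ch x ^ 2)⁻¹ ∧ 1 - (ch x ^ 2)⁻¹ ≤ 1 := by
  have h1 : 1 ≤ ch x ^ 2 := one_le_pow₀ (one_le_ch x)
  have h2 : (ch x ^ 2)⁻¹ ≤ 1 := inv_le_one_of_one_le₀ h1
  have h3 : 0 < (ch x ^ 2)⁻¹ := inv_pos.2 (by positivity)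
  constructor <;> linarith

private theorem mom_cont_j (s j : ℕ) :
    Continuous fun x : SUGroup n => (ch x ^ (2 * s))⁻¹ * (1 - (ch x ^ 2)⁻¹) ^ j :=
  (mom_cont_inv s).mul ((continuous_const.sub ((continuous_ch.pow 2).inv₀
    fun x => (pow_pos (ch_pos x) 2).ne')).pow j)

private theorem mom_int_j {s : ℕ} (hi : Integrable (fun x : SUGroup n => (ch x ^ (2 * s))⁻¹) (mu n))
    (j : ℕ) : Integrable (fun x : SUGroup n => (ch x ^ (2 * s))⁻¹ * (1 - (ch x ^ 2)⁻¹) ^ j) (mu n) := by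
  refine Integrable.mono' hi (mom_cont_j s j).aestronglyMeasurable
    (Filter.Eventually.of_forall fun x => ?_)
  have h := mom_w x
  have h1 : 0 < (ch x ^ (2 * s))⁻¹ := inv_pos.2 (pow_pos (ch_pos x) _)
  rw [Real.norm_eq_abs, abs_of_nonneg (mul_nonneg h1.le (pow_nonneg h.1 j))]
  exact mul_le_of_le_one_right h1.le (pow_le_one₀ h.1 h.2)

private theorem momI_zero (n s : ℕ) : momI n s 0 = cs n s := by
  rw [momI, cs]
  simp only [pow_zero, mul_one]

private theorem momI_succ {s : ℕ} (hi : Integrable (fun x : SUGroup n => (ch x ^ (2 * s))⁻¹) (mu n))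
    (hi' : Integrable (fun x : SUGroup n => (ch x ^ (2 * (s + 1)))⁻¹) (mu n)) (j : ℕ) :
    momI n s (j + 1) = momI n s j - momI n (s + 1) j := by
  rw [momI, momI, momI, ← integral_sub (mom_int_j hi j) (mom_int_j hi' j)]
  refine integral_congr_ae (Filter.Eventually.of_forall fun x => ?_)
  have e : (ch x ^ (2 * (s + 1)))⁻¹ = (ch x ^ (2 * s))⁻¹ * (ch x ^ 2)⁻¹ := by
    rw [← mul_inv, ← pow_add]
    rfl
  simp only
  rw [e]
  ring

private theorem momI_ratio {t : ℕ} (ht : 0 < t)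
    (hi : ∀ s, t ≤ s → Integrable (fun x : SUGroup n => (ch x ^ (2 * s))⁻¹) (mu n)) (j : ℕ) :
    ∀ s, t ≤ s → ((s : ℝ) + j) * momI n (s + 1) j = (s - n) * momI n s j := by
  induction j with
  | zero =>
    intro s hs
    rw [momI_zero, momI_zero, Nat.cast_zero, add_zero]
    exact mom_succ (ht.trans_le hs) (hi s hs) (hi (s + 1) (by omega))
  | succ j ih =>
    intro s hs
    have h1 := ih s hs
    have h2 := ih (s + 1) (by omega)
    rw [momI_succ (hi s hs) (hi (s + 1) (by omega)),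
      momI_succ (hi (s + 1) (by omega)) (hi (s + 1 + 1) (by omega))]
    push_cast at h1 h2 ⊢
    linear_combination h1 - h2

private theorem momI_step {t : ℕ} (ht : 0 < t)
    (hi : ∀ s, t ≤ s → Integrable (fun x : SUGroup n => (ch x ^ (2 * s))⁻¹) (mu n)) (j : ℕ) {s : ℕ}
    (hs : t ≤ s) : ((s : ℝ) + j) * momI n s (j + 1) = (n + j) * momI n s j := by
  rw [momI_succ (hi s hs) (hi (s + 1) (by omega))]
  linear_combination -(momI_ratio ht hi j s hs)

private theorem momI_nonneg (n s j : ℕ) : 0 ≤ momI n s j :=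
  integral_nonneg fun x => mul_nonneg (inv_pos.2 (pow_pos (ch_pos x) _)).le
    (pow_nonneg (mom_w x).1 j)

private theorem mom_down {t : ℕ} (ht : n < t)
    (hi : ∀ s, t + 1 ≤ s → Integrable (fun x : SUGroup n => (ch x ^ (2 * s))⁻¹) (mu n)) :
    Integrable (fun x : SUGroup n => (ch x ^ (2 * t))⁻¹) (mu n) := by
  have hstep : ∀ j : ℕ, ((t : ℝ) + 1 + j) * momI n (t + 1) (j + 1) = (n + j) * momI n (t + 1) j := by
    intro j
    have h := momI_step (Nat.succ_pos t) hi j le_rfl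
    push_cast at h
    exact h
  have htn : (0 : ℝ) < t - n := by
    have : (n : ℝ) < t := by exact_mod_cast ht
    linarith
  have hsum : ∀ J : ℕ, ((t : ℝ) - n) * ∑ j ∈ Finset.range J, momI n (t + 1) j =
      t * momI n (t + 1) 0 - (t + J) * momI n (t + 1) J := by
    intro J
    induction J with
    | zero => simp
    | succ J ih =>
      rw [Finset.sum_range_succ, mul_add, ih]
      push_cast
      linear_combination (hstep J)
  have hsm : Summable fun j => momI n (t + 1) j := by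
    refine summable_of_sum_range_le (c := t * momI n (t + 1) 0 / (t - n))
      (fun j => momI_nonneg n (t + 1) j) fun J => ?_
    rw [le_div_iff₀ htn, mul_comm, hsum J]
    have := mul_nonneg (add_nonneg (Nat.cast_nonneg t) (Nat.cast_nonneg J))
      (momI_nonneg n (t + 1) J)
    linarith [show (0 : ℝ) ≤ (t + J) * momI n (t + 1) J from this]
  refine ⟨(mom_cont_inv t).aestronglyMeasurable, ?_⟩
  rw [hasFiniteIntegral_def]
  have hF : ∀ x : SUGroup n, ‖(ch x ^ (2 * t))⁻¹‖ₑ =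
      ∑' j : ℕ, ENNReal.ofReal ((ch x ^ (2 * (t + 1)))⁻¹ * (1 - (ch x ^ 2)⁻¹) ^ j) := by
    intro x
    have h1 : 0 < (ch x ^ (2 * (t + 1)))⁻¹ := inv_pos.2 (pow_pos (ch_pos x) _)
    have h2 : 0 < (ch x ^ 2)⁻¹ := inv_pos.2 (pow_pos (ch_pos x) _)
    have hw := mom_w x
    have hg : HasSum (fun j : ℕ => (1 - (ch x ^ 2)⁻¹) ^ j) (1 - (1 - (ch x ^ 2)⁻¹))⁻¹ :=
      hasSum_geometric_of_lt_one hw.1 (by linarith)
    have hg2 := hg.mul_left ((ch x ^ (2 * (t + 1)))⁻¹)
    rw [← ENNReal.ofReal_tsum_of_nonneg (fun j => mul_nonneg h1.le (pow_nonneg hw.1 j)) hg2.summable,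
      hg2.tsum_eq, Real.enorm_eq_ofReal (inv_pos.2 (pow_pos (ch_pos x) _)).le]
    congr 1
    rw [sub_sub_cancel, inv_inv, pow_mul, pow_mul, mul_comm,
      mom_pw1 (pow_pos (ch_pos x) 2).ne']
  have hm : ∀ j : ℕ, AEMeasurable (fun x : SUGroup n => ENNReal.ofReal
      ((ch x ^ (2 * (t + 1)))⁻¹ * (1 - (ch x ^ 2)⁻¹) ^ j)) (mu n) := fun j =>
    (ENNReal.continuous_ofReal.comp (mom_cont_j (n := n) (t + 1) j)).aemeasurable
  rw [lintegral_congr hF, lintegral_tsum hm]
  have h3 : ∀ j : ℕ, ∫⁻ x : SUGroup n, ENNReal.ofReal ((ch x ^ (2 * (t + 1)))⁻¹ *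
      (1 - (ch x ^ 2)⁻¹) ^ j) ∂(mu n) = ENNReal.ofReal (momI n (t + 1) j) := by
    intro j
    rw [momI, ofReal_integral_eq_lintegral_ofReal (mom_int_j (hi (t + 1) le_rfl) j)
      (Filter.Eventually.of_forall fun x => mul_nonneg (inv_pos.2 (pow_pos (ch_pos x) _)).le
        (pow_nonneg (mom_w x).1 j))]
  rw [tsum_congr h3, ← ENNReal.ofReal_tsum_of_nonneg (fun j => momI_nonneg n (t + 1) j) hsm]
  exact ENNReal.ofReal_lt_top

end beta

/-- Integrability of the kernel: the sharp range. -/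
theorem integrable_inv {s : ℕ} (h : n < s) :
    Integrable (fun x : SUGroup n => (ch x ^ (2 * s))⁻¹) (mu n) := by
  obtain ⟨s₀, hs₀⟩ := integrable_ch n
  have key : ∀ k s : ℕ, n < s → s₀ ≤ s + k →
      Integrable (fun x : SUGroup n => (ch x ^ (2 * s))⁻¹) (mu n) := by
    intro k
    induction k with
    | zero => exact fun s _ hs => hs₀ s hs
    | succ k ih => exact fun s hn hs => mom_down hn fun s' hs' => ih s' (by omega) (by omega)
  exact key s₀ s h (by omega)

theorem integrable_pow {s N : ℕ} (h : n + N < s) :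
    Integrable (fun x : SUGroup n => (ch x ^ (2 * s))⁻¹ * ch x ^ (2 * N)) (mu n) := by
  have h1 := integrable_inv (n := n) (s := s - N) (by omega)
  refine h1.congr (Filter.Eventually.of_forall fun x => ?_)
  have hx := (ch_pos x).ne'
  simp only
  rw [show 2 * s = 2 * (s - N) + 2 * N by omega, pow_add, mul_inv, mul_assoc,
    inv_mul_cancel₀ (pow_ne_zero _ hx), mul_one]

theorem cs_pos' {s : ℕ} (h : n < s) : 0 < cs n s := by
  have hpos : ∀ x : SUGroup n, 0 < (ch x ^ (2 * s))⁻¹ := fun x => by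
    have : 0 < ch x := ch_pos x
    positivity
  rw [cs, integral_pos_iff_support_of_nonneg (fun x => (hpos x).le) (integrable_inv h)]
  have h1 : Function.support (fun x : SUGroup n => (ch x ^ (2 * s))⁻¹) = Set.univ := by
    ext x
    simp only [Function.mem_support, Set.mem_univ, iff_true]
    exact (hpos x).ne'
  rw [h1]
  exact isOpen_univ.measure_pos (mu n) ⟨1, trivial⟩

theorem kap_pos {s : ℕ} (h : n < s) (x : SUGroup n) : 0 < kap s x :=
  div_pos (inv_pos.2 (pow_pos (ch_pos x) _)) (cs_pos' h)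

theorem integrable_kap {s : ℕ} (h : n < s) : Integrable (kap s : SUGroup n → ℝ) (mu n) :=
  (integrable_inv h).div_const _

theorem integrable_kap_pow {s N : ℕ} (h : n + N < s) :
    Integrable (fun x : SUGroup n => kap s x * ch x ^ (2 * N)) (mu n) := by
  refine ((integrable_pow (n := n) h).div_const (cs n s)).congr
    (Filter.Eventually.of_forall fun x => ?_)
  simp only [kap]
  ring

theorem integral_kap {s : ℕ} (h : n < s) : ∫ x : SUGroup n, kap s x ∂(mu n) = 1 := by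
  have h1 : ∫ x : SUGroup n, kap s x ∂(mu n) = cs n s / cs n s := by
    simp only [kap]
    rw [integral_div]
    rfl
  rw [h1, div_self (cs_pos' h).ne']

/-- The ratio of consecutive constants. -/
theorem cs_succ {s : ℕ} (h : n < s) : (s : ℝ) * cs n (s + 1) = (s - n) * cs n s :=
  mom_succ (by omega) (integrable_inv h) (integrable_inv (by omega))

theorem integral_kap_pow {s N : ℕ} (h : n + N < s) :
    ∫ x : SUGroup n, kap s x * ch x ^ (2 * N) ∂(mu n) = cs n (s - N) / cs n s := by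
  rw [cs, ← integral_div]
  refine integral_congr_ae (Filter.Eventually.of_forall fun x => ?_)
  have hx := (ch_pos x).ne'
  have e : (ch x ^ (2 * s))⁻¹ * ch x ^ (2 * N) = (ch x ^ (2 * (s - N)))⁻¹ := by
    rw [show 2 * s = 2 * (s - N) + 2 * N by omega, pow_add, mul_inv, mul_assoc,
      inv_mul_cancel₀ (pow_ne_zero _ hx), mul_one]
  simp only [kap]
  rw [← e]
  ring

theorem cs_ratio_le {s N : ℕ} (h : n + N < s) : cs n (s - N) ≤ ((n : ℝ) + 1) ^ N * cs n s := by
  induction N with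
  | zero => simp
  | succ N ih =>
    have h1 := ih (by omega)
    obtain ⟨t, ht⟩ : ∃ t, s - (N + 1) = t := ⟨_, rfl⟩
    have h2 : s - N = t + 1 := by omega
    have htn : n + 1 ≤ t := by omega
    rw [h2] at h1
    rw [ht]
    have h3 := cs_succ (n := n) (s := t) (by omega)
    have h4 : (0 : ℝ) ≤ cs n (t + 1) := cs_nonneg _ _
    have h5 : (n : ℝ) + 1 ≤ t := by exact_mod_cast htn
    have h6 : (0 : ℝ) ≤ cs n t := cs_nonneg _ _
    have h7 : cs n t ≤ ((n : ℝ) + 1) * cs n (t + 1) := by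
      have ht0 : (0 : ℝ) < t := by linarith [(Nat.cast_nonneg n : (0 : ℝ) ≤ n)]
      have h8 : cs n (t + 1) = ((t : ℝ) - n) * cs n t / t := by
        rw [eq_div_iff ht0.ne', mul_comm]
        exact h3
      rw [h8, ← mul_div_assoc, le_div_iff₀ ht0]
      have h9 : (t : ℝ) ≤ ((n : ℝ) + 1) * (t - n) := by
        nlinarith [(Nat.cast_nonneg n : (0 : ℝ) ≤ n)]
      calc cs n t * t ≤ cs n t * (((n : ℝ) + 1) * (t - n)) := mul_le_mul_of_nonneg_left h9 h6
        _ = _ := by ring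
    calc cs n t ≤ ((n : ℝ) + 1) * cs n (t + 1) := h7
      _ ≤ ((n : ℝ) + 1) * (((n : ℝ) + 1) ^ N * cs n s) :=
          mul_le_mul_of_nonneg_left h1 (by positivity)
      _ = _ := by ring

theorem integral_kap_pow_le {s N : ℕ} (h : n + N < s) :
    ∫ x : SUGroup n, kap s x * ch x ^ (2 * N) ∂(mu n) ≤ ((n : ℝ) + 1) ^ N := by
  rw [integral_kap_pow h, div_le_iff₀ (cs_pos' (by omega))]
  exact cs_ratio_le h

private theorem mom_w2 (x : SUGroup n) : 0 ≤ ch x ^ 2 - 1 := by
  have h1 : 1 ≤ ch x ^ 2 := one_le_pow₀ (one_le_ch x)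
  linarith

theorem integrable_mom {s N k : ℕ} (h : n + N + k < s) :
    Integrable (fun x : SUGroup n => kap s x * (ch x ^ (2 * N) * (ch x ^ 2 - 1) ^ k)) (mu n) := by
  refine Integrable.mono' (integrable_kap_pow (n := n) (s := s) (N := N + k) (by omega))
    ((continuous_kap s).mul ((continuous_ch.pow _).mul
      (((continuous_ch.pow 2).sub continuous_const).pow k))).aestronglyMeasurable
    (Filter.Eventually.of_forall fun x => ?_)
  have h1 := mom_w2 x
  have h2 := kap_nonneg s x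
  have h3 := ch_pos x
  rw [Real.norm_eq_abs, abs_of_nonneg (by positivity)]
  refine mul_le_mul_of_nonneg_left ?_ h2
  rw [mul_add, pow_add, pow_mul _ 2 k]
  refine mul_le_mul_of_nonneg_left (pow_le_pow_left₀ h1 (by linarith) k) (by positivity)

/-- The first moment. -/
theorem mom_one {s : ℕ} (h : n + 1 < s) :
    ∫ x : SUGroup n, kap s x * (ch x ^ 2 - 1) ∂(mu n) = (n : ℝ) / (s - 1 - n) := by
  have h1 := integrable_kap_pow (n := n) (s := s) (N := 1) h
  have h2 := integrable_kap (n := n) (s := s) (by omega)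
  have e : ∀ x : SUGroup n, kap s x * (ch x ^ 2 - 1) = kap s x * ch x ^ (2 * 1) - kap s x := by
    intro x
    ring
  rw [integral_congr_ae (Filter.Eventually.of_forall e), integral_sub h1 h2,
    integral_kap_pow h, integral_kap (by omega)]
  obtain ⟨t, rfl⟩ : ∃ t, s = t + 1 := ⟨s - 1, by omega⟩
  have h3 := cs_succ (n := n) (s := t) (by omega)
  have h4 := cs_pos' (n := n) (s := t + 1) (by omega)
  have h5 : (n : ℝ) < t := by exact_mod_cast (by omega : n < t)
  have h6 : (t : ℝ) - n ≠ 0 := by linarith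
  rw [Nat.add_sub_cancel]
  push_cast
  rw [add_sub_cancel_right, eq_div_iff h6, sub_mul, one_mul, div_mul_eq_mul_div, ← sub_eq_zero]
  have h7 : cs n t * (t - n) / cs n (t + 1) = t := by
    rw [div_eq_iff h4.ne']
    linarith
  rw [h7]
  ring

private theorem momI_le {t k : ℕ} (ht : n < t) : ∀ j ≤ k,
    momI n t j ≤ (((n : ℝ) + k) / t) ^ j * cs n t := by
  intro j
  induction j with
  | zero =>
    intro _
    rw [momI_zero, pow_zero, one_mul]
  | succ j ih =>
    intro hj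
    have h1 := ih (by omega)
    have h2 := momI_step (n := n) (t := t) (by omega) (fun s hs => integrable_inv (by omega)) j
      le_rfl
    have ht0 : (0 : ℝ) < t := by exact_mod_cast (by omega : 0 < t)
    have hj0 : (0 : ℝ) ≤ j := Nat.cast_nonneg j
    have hjk : (j : ℝ) ≤ k := by exact_mod_cast (by omega : j ≤ k)
    have h3 : momI n t (j + 1) = ((n : ℝ) + j) / (t + j) * momI n t j := by
      rw [div_mul_eq_mul_div, eq_div_iff (by positivity), mul_comm]
      exact h2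
    have h4 : ((n : ℝ) + j) / (t + j) ≤ ((n : ℝ) + k) / t := by
      refine div_le_div₀ (by positivity) (by linarith) ht0 (by linarith)
    rw [h3, pow_succ', mul_assoc]
    exact mul_le_mul h4 h1 (momI_nonneg n t j) (by positivity)

private theorem mom_eq {t N k : ℕ} :
    ∫ x : SUGroup n, kap (t + N + k) x * (ch x ^ (2 * N) * (ch x ^ 2 - 1) ^ k) ∂(mu n) =
      momI n t k / cs n (t + N + k) := by
  rw [momI, ← integral_div]
  refine integral_congr_ae (Filter.Eventually.of_forall fun x => ?_)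
  have hx := (ch_pos x).ne'
  have e : (ch x ^ (2 * (t + N + k)))⁻¹ * (ch x ^ (2 * N) * (ch x ^ 2 - 1) ^ k) =
      (ch x ^ (2 * t))⁻¹ * (1 - (ch x ^ 2)⁻¹) ^ k := by
    have e1 : (1 - (ch x ^ 2)⁻¹) = (ch x ^ 2 - 1) * (ch x ^ 2)⁻¹ := by
      rw [sub_mul, mul_inv_cancel₀ (pow_ne_zero 2 hx), one_mul]
    rw [e1, mul_pow, show 2 * (t + N + k) = 2 * t + 2 * N + 2 * k by ring, pow_add, pow_add,
      mul_inv, mul_inv, inv_pow, ← pow_mul]
    have h1 : (ch x ^ (2 * N))⁻¹ * ch x ^ (2 * N) = 1 := inv_mul_cancel₀ (pow_ne_zero _ hx)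
    linear_combination (ch x ^ (2 * t))⁻¹ * (ch x ^ (2 * k))⁻¹ * (ch x ^ 2 - 1) ^ k * h1
  simp only [kap]
  rw [← e]
  ring

/-- All moments. -/
theorem mom_le (n N k : ℕ) : ∃ C : ℝ, 0 < C ∧ ∀ s : ℕ, n + N + k < s →
    ∫ x : SUGroup n, kap s x * (ch x ^ (2 * N) * (ch x ^ 2 - 1) ^ k) ∂(mu n) ≤ C / s ^ k := by
  refine ⟨(((n : ℝ) + k) * (N + k + 1)) ^ k * ((n : ℝ) + 1) ^ (N + k) + 1, by positivity,
    fun s hs => ?_⟩
  obtain ⟨t, rfl⟩ : ∃ t, s = t + N + k := ⟨s - N - k, by omega⟩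
  have htn : n < t := by omega
  have ht0 : (0 : ℝ) < t := by exact_mod_cast (by omega : 0 < t)
  have ht1 : (1 : ℝ) ≤ t := by exact_mod_cast (by omega : 1 ≤ t)
  have hc := cs_pos' (n := n) (s := t + N + k) (by omega)
  have hN : (0 : ℝ) ≤ N := Nat.cast_nonneg N
  have hk : (0 : ℝ) ≤ k := Nat.cast_nonneg k
  have hS : (0 : ℝ) < ((t + N + k : ℕ) : ℝ) := by exact_mod_cast (by omega : 0 < t + N + k)
  rw [mom_eq]
  have h1 := momI_le (n := n) (t := t) (k := k) htn k le_rfl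
  have h2 := cs_ratio_le (n := n) (s := t + N + k) (N := N + k) (by omega)
  rw [show t + N + k - (N + k) = t by omega] at h2
  have h3 : momI n t k ≤ (((n : ℝ) + k) / t) ^ k * (((n : ℝ) + 1) ^ (N + k) * cs n (t + N + k)) :=
    h1.trans (mul_le_mul_of_nonneg_left h2 (by positivity))
  have h4 : ((n : ℝ) + k) / t ≤ ((n : ℝ) + k) * (N + k + 1) / ((t + N + k : ℕ) : ℝ) := by
    rw [div_le_div_iff₀ ht0 hS, mul_assoc]
    refine mul_le_mul_of_nonneg_left ?_ (by positivity)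
    push_cast
    nlinarith
  have h5 : (((n : ℝ) + k) / t) ^ k ≤ (((n : ℝ) + k) * (N + k + 1)) ^ k /
      ((t + N + k : ℕ) : ℝ) ^ k := by
    rw [← div_pow]
    exact pow_le_pow_left₀ (by positivity) h4 k
  rw [div_le_iff₀ hc]
  calc _ ≤ _ := h3
    _ ≤ ((((n : ℝ) + k) * (N + k + 1)) ^ k / ((t + N + k : ℕ) : ℝ) ^ k) *
        (((n : ℝ) + 1) ^ (N + k) * cs n (t + N + k)) :=
        mul_le_mul_of_nonneg_right h5 (by positivity)
    _ = ((((n : ℝ) + k) * (N + k + 1)) ^ k * ((n : ℝ) + 1) ^ (N + k)) /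
        ((t + N + k : ℕ) : ℝ) ^ k * cs n (t + N + k) := by ring
    _ ≤ _ := by
        refine mul_le_mul_of_nonneg_right ?_ hc.le
        exact div_le_div_of_nonneg_right (by linarith) (by positivity)

private theorem mom_rpow_aux {x θ S : ℝ} {k : ℕ} (hx : 0 ≤ x) (hθ : 0 ≤ θ) (hk : θ ≤ k)
    (hS : 0 < S) : x ^ θ ≤ S ^ (-θ) * (1 + S ^ k * x ^ k) := by
  have h1 : (S * x) ^ θ ≤ 1 + (S * x) ^ k := by
    have hy : 0 ≤ S * x := mul_nonneg hS.le hx
    rcases le_total (S * x) 1 with h | h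
    · have h2 : (S * x) ^ θ ≤ 1 := Real.rpow_le_one hy h hθ
      have h3 := pow_nonneg hy k
      linarith
    · have h2 := Real.rpow_le_rpow_of_exponent_le h hk
      rw [Real.rpow_natCast] at h2
      linarith
  have h2 : x ^ θ = S ^ (-θ) * (S * x) ^ θ := by
    rw [Real.mul_rpow hS.le hx, ← mul_assoc, ← Real.rpow_add hS, neg_add_cancel, Real.rpow_zero,
      one_mul]
  rw [h2, ← mul_pow]
  exact mul_le_mul_of_nonneg_left h1 (Real.rpow_nonneg hS.le _)

/-- Moments with real exponents. -/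
theorem mom_rpow (n N : ℕ) {θ : ℝ} (hθ : 0 ≤ θ) : ∃ (s₀ : ℕ) (C : ℝ), 0 < C ∧ ∀ s : ℕ, s₀ ≤ s →
    Integrable (fun x : SUGroup n => kap s x * (ch x ^ (2 * N) * (ch x ^ 2 - 1) ^ θ)) (mu n) ∧
    ∫ x : SUGroup n, kap s x * (ch x ^ (2 * N) * (ch x ^ 2 - 1) ^ θ) ∂(mu n) ≤
      C * (s : ℝ) ^ (-θ) := by
  obtain ⟨C, hC, hmom⟩ := mom_le n N ⌈θ⌉₊
  set k := ⌈θ⌉₊ with hk
  have hkθ : θ ≤ k := Nat.le_ceil θ
  refine ⟨n + N + k + 1, ((n : ℝ) + 1) ^ N + C, by positivity, fun s hs => ?_⟩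
  have hS : (0 : ℝ) < s := by exact_mod_cast (by omega : 0 < s)
  have hbd : ∀ x : SUGroup n, kap s x * (ch x ^ (2 * N) * (ch x ^ 2 - 1) ^ θ) ≤
      (s : ℝ) ^ (-θ) * (kap s x * ch x ^ (2 * N) + (s : ℝ) ^ k *
        (kap s x * (ch x ^ (2 * N) * (ch x ^ 2 - 1) ^ k))) := by
    intro x
    have h1 := mom_rpow_aux (mom_w2 x) hθ hkθ hS
    have h2 := kap_nonneg s x
    have h3 := ch_pos x
    calc _ ≤ kap s x * (ch x ^ (2 * N) * ((s : ℝ) ^ (-θ) * (1 + (s : ℝ) ^ k * (ch x ^ 2 - 1) ^ k))) := by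
          gcongr
      _ = _ := by ring
  have hi : Integrable (fun x : SUGroup n => (s : ℝ) ^ (-θ) * (kap s x * ch x ^ (2 * N) +
      (s : ℝ) ^ k * (kap s x * (ch x ^ (2 * N) * (ch x ^ 2 - 1) ^ k)))) (mu n) :=
    ((integrable_kap_pow (by omega)).add ((integrable_mom (by omega)).const_mul _)).const_mul _
  have hnn : ∀ x : SUGroup n, 0 ≤ kap s x * (ch x ^ (2 * N) * (ch x ^ 2 - 1) ^ θ) := fun x =>
    mul_nonneg (kap_nonneg s x) (mul_nonneg (pow_nonneg (ch_pos x).le _)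
      (Real.rpow_nonneg (mom_w2 x) _))
  have hint : Integrable (fun x : SUGroup n => kap s x * (ch x ^ (2 * N) * (ch x ^ 2 - 1) ^ θ))
      (mu n) := by
    refine Integrable.mono' hi ((continuous_kap s).mul ((continuous_ch.pow _).mul
      (((continuous_ch.pow 2).sub continuous_const).rpow_const
        fun x => Or.inr hθ))).aestronglyMeasurable (Filter.Eventually.of_forall fun x => ?_)
    rw [Real.norm_eq_abs, abs_of_nonneg (hnn x)]
    exact hbd x
  refine ⟨hint, ?_⟩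
  have h1 := integral_mono hint hi hbd
  have hA : Integrable (fun x : SUGroup n => kap s x * ch x ^ (2 * N)) (mu n) :=
    integrable_kap_pow (by omega)
  have hB : Integrable (fun x : SUGroup n => (s : ℝ) ^ k *
      (kap s x * (ch x ^ (2 * N) * (ch x ^ 2 - 1) ^ k))) (mu n) :=
    (integrable_mom (by omega)).const_mul _
  rw [integral_const_mul, integral_add hA hB, integral_const_mul] at h1
  have h2 := integral_kap_pow_le (n := n) (s := s) (N := N) (by omega)
  have h3 := hmom s (by omega)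
  have h4 : (s : ℝ) ^ k * ∫ x : SUGroup n, kap s x * (ch x ^ (2 * N) * (ch x ^ 2 - 1) ^ k) ∂(mu n) ≤
      C := by
    calc _ ≤ (s : ℝ) ^ k * (C / s ^ k) := mul_le_mul_of_nonneg_left h3 (by positivity)
      _ = C := by field_simp
  calc _ ≤ _ := h1
    _ ≤ (s : ℝ) ^ (-θ) * (((n : ℝ) + 1) ^ N + C) :=
        mul_le_mul_of_nonneg_left (add_le_add h2 h4) (Real.rpow_nonneg hS.le _)
    _ = _ := mul_comm _ _

/-- Tails: outside of a neighbourhood of `K` the kernels are as small as one likes. -/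
theorem mom_tail (n N k : ℕ) {e : ℝ} (he : 0 < e) : ∃ C : ℝ, 0 < C ∧ ∀ s : ℕ, n + N + k < s →
    ∫ x in {x : SUGroup n | e ≤ ch x ^ 2 - 1}, kap s x * ch x ^ (2 * N) ∂(mu n) ≤ C / s ^ k := by
  obtain ⟨C, hC, hmom⟩ := mom_le n N k
  refine ⟨C / e ^ k, by positivity, fun s hs => ?_⟩
  have hm : MeasurableSet {x : SUGroup n | e ≤ ch x ^ 2 - 1} :=
    (isClosed_le continuous_const ((continuous_ch.pow 2).sub continuous_const)).measurableSet
  have hi := (integrable_mom (n := n) (s := s) (N := N) (k := k) hs).div_const (e ^ k)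
  have hnn : ∀ x : SUGroup n, 0 ≤ kap s x * (ch x ^ (2 * N) * (ch x ^ 2 - 1) ^ k) / e ^ k :=
    fun x => div_nonneg (mul_nonneg (kap_nonneg s x) (mul_nonneg (pow_nonneg (ch_pos x).le _)
      (pow_nonneg (mom_w2 x) _))) (by positivity)
  calc _ ≤ ∫ x in {x : SUGroup n | e ≤ ch x ^ 2 - 1},
        kap s x * (ch x ^ (2 * N) * (ch x ^ 2 - 1) ^ k) / e ^ k ∂(mu n) := by
        refine setIntegral_mono_on (integrable_kap_pow (by omega)).integrableOn hi.integrableOn hm
          fun x (hx : e ≤ ch x ^ 2 - 1) => ?_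
        rw [le_div_iff₀ (by positivity), mul_assoc]
        refine mul_le_mul_of_nonneg_left ?_ (kap_nonneg s x)
        exact mul_le_mul_of_nonneg_left (pow_le_pow_left₀ he.le hx k) (pow_nonneg (ch_pos x).le _)
    _ ≤ ∫ x : SUGroup n, kap s x * (ch x ^ (2 * N) * (ch x ^ 2 - 1) ^ k) / e ^ k ∂(mu n) :=
        setIntegral_le_integral hi (Filter.Eventually.of_forall hnn)
    _ ≤ _ := by
        rw [integral_div, div_right_comm]
        exact div_le_div_of_nonneg_right (hmom s hs) (by positivity)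

/-- The distance is bounded by its hyperbolic sine. -/
theorem log_wt_le (x : SUGroup n) : Real.log (wt x) ≤ Real.sqrt (ch x ^ 2 - 1) := by
  have h1 : Real.log (wt x) = Real.arsinh (Real.sqrt (ch x ^ 2 - 1)) := by
    rw [Real.arsinh, Real.sq_sqrt (mom_w2 x), add_sub_cancel, Real.sqrt_sq (ch_pos x).le, wt,
      add_comm]
  rw [h1, ← Real.sinh_le_sinh, Real.sinh_arsinh]
  exact Real.self_le_sinh_iff.2 (Real.sqrt_nonneg _)

theorem continuous_zc (j : Fin n) : Continuous fun x : SUGroup n => zc x j :=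
  ((continuous_toMatrix n).matrix_elem _ _).div ((continuous_toMatrix n).matrix_elem _ _)
    fun x => norm_ne_zero_iff.1 (ch_pos x).ne'

theorem sum_norm_zc (x : SUGroup n) : ∑ j : Fin n, ‖zc x j‖ ^ 2 = 1 - (ch x ^ 2)⁻¹ := by
  have hx := (ch_pos x).ne'
  have h1 : ∀ j : Fin n, ‖zc x j‖ ^ 2 =
      ‖x.toMatrix j.castSucc (Fin.last n)‖ ^ 2 * (ch x ^ 2)⁻¹ := by
    intro j
    rw [zc, norm_div, div_pow, div_eq_mul_inv]
    rfl
  rw [Finset.sum_congr rfl fun j _ => h1 j, ← Finset.sum_mul, sum_col, sub_mul, one_mul,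
    mul_inv_cancel₀ (pow_ne_zero 2 hx)]

theorem norm_zc_le (x : SUGroup n) (j : Fin n) : ‖zc x j‖ ≤ 1 := by
  have h1 := sum_norm_zc x
  have h2 := Finset.single_le_sum (f := fun j : Fin n => ‖zc x j‖ ^ 2)
    (fun i _ => sq_nonneg _) (Finset.mem_univ j)
  have h3 : 0 < (ch x ^ 2)⁻¹ := inv_pos.2 (pow_pos (ch_pos x) 2)
  have h4 : ‖zc x j‖ ^ 2 ≤ 1 := by
    have h5 : ‖zc x j‖ ^ 2 ≤ ∑ j : Fin n, ‖zc x j‖ ^ 2 := h2
    linarith
  nlinarith [norm_nonneg (zc x j)]

section zc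

/-- the diagonal element of the stabiliser -/
private theorem mom_diag (d : Fin (n + 1) → ℂ) (hd : ∀ i, ‖d i‖ = 1) (hp : ∏ i, d i = 1) :
    ∃ k : SUGroup n, ∀ x : SUGroup n, ch (k * x) = ch x ∧
      ∀ j, zc (k * x) j = d j.castSucc / d (Fin.last n) * zc x j := by
  have h1 : (Matrix.diagonal d).det = 1 := by rw [det_diagonal, hp]
  have hs : ∀ i, star (d i) * d i = 1 := by
    intro i
    rw [RCLike.star_def, Complex.conj_mul', hd]
    simp
  have h2 : (Matrix.diagonal d)ᴴ * J n * Matrix.diagonal d = J n := by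
    rw [J, diagonal_conjTranspose, diagonal_mul_diagonal, diagonal_mul_diagonal]
    congr 1
    funext i
    rw [Pi.star_apply, mul_right_comm, hs, one_mul]
  refine ⟨ofMatrix _ h1 h2, fun x => ?_⟩
  have h3 : ∀ i j, (ofMatrix _ h1 h2 * x).toMatrix i j = d i * x.toMatrix i j := by
    intro i j
    rw [toMatrix_mul, toMatrix_ofMatrix, diagonal_mul]
  constructor
  · rw [ch, h3, norm_mul, hd, one_mul]
    rfl
  · intro j
    rw [zc, zc, h3, h3, mul_div_mul_comm]

private theorem mom_swap (i j : Fin n) (hij : i ≠ j) :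
    ∃ k : SUGroup n, ∀ x : SUGroup n, ch (k * x) = ch x ∧ ‖zc (k * x) i‖ = ‖zc x j‖ := by
  set d : Vec n := Pi.single i.castSucc 1 - Pi.single j.castSucc 1 with hd
  have hij' : i.castSucc ≠ j.castSucc := fun h => hij (Fin.castSucc_injective n h)
  have hdi : d i.castSucc = 1 := by
    rw [hd, Pi.sub_apply, Pi.single_eq_same, Pi.single_eq_of_ne hij', sub_zero]
  have hdj : d j.castSucc = -1 := by
    rw [hd, Pi.sub_apply, Pi.single_eq_same, Pi.single_eq_of_ne hij'.symm, zero_sub]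
  have hdl : d (Fin.last n) = 0 := by
    rw [hd, Pi.sub_apply, Pi.single_eq_of_ne (Fin.castSucc_lt_last i).ne',
      Pi.single_eq_of_ne (Fin.castSucc_lt_last j).ne', sub_zero]
  have hq : q d = 2 := by
    rw [q_eq, hdl, norm_zero, zero_pow two_ne_zero, sub_zero,
      Finset.sum_eq_add_of_mem i j (Finset.mem_univ i) (Finset.mem_univ j) hij, hdi, hdj]
    · rw [norm_neg, norm_one]
      norm_num
    · intro k _ hk
      have h1 : (k.castSucc : Fin (n + 1)) ≠ i.castSucc := fun h =>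
        hk.1 (Fin.castSucc_injective n h)
      have h2 : (k.castSucc : Fin (n + 1)) ≠ j.castSucc := fun h =>
        hk.2 (Fin.castSucc_injective n h)
      rw [hd, Pi.sub_apply, Pi.single_eq_of_ne h1, Pi.single_eq_of_ne h2, sub_zero, norm_zero]
      norm_num
  have hherm : ∀ v : Vec n, herm d v = v i.castSucc - v j.castSucc := by
    intro v
    rw [herm_eq, hdl, star_zero, zero_mul, sub_zero,
      Finset.sum_eq_add_of_mem i j (Finset.mem_univ i) (Finset.mem_univ j) hij, hdi, hdj]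
    · rw [star_neg, star_one]
      ring
    · intro k _ hk
      have h1 : (k.castSucc : Fin (n + 1)) ≠ i.castSucc := fun h =>
        hk.1 (Fin.castSucc_injective n h)
      have h2 : (k.castSucc : Fin (n + 1)) ≠ j.castSucc := fun h =>
        hk.2 (Fin.castSucc_injective n h)
      rw [hd, Pi.sub_apply, Pi.single_eq_of_ne h1, Pi.single_eq_of_ne h2, sub_zero, star_zero,
        zero_mul]
  have hq0 : q d ≠ 0 := by rw [hq]; norm_num
  obtain ⟨c, hc⟩ : ∃ c : ℂ, c ^ (n + 1) = -1 := IsAlgClosed.exists_pow_nat_eq _ (Nat.succ_pos n)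
  have hc1 : ‖c‖ = 1 := by
    have h1 := congrArg norm hc
    rw [norm_pow, norm_neg, norm_one] at h1
    exact (pow_eq_one_iff_of_nonneg (norm_nonneg c) (Nat.succ_ne_zero n)).1 h1
  have hcc : star c * c = 1 := by
    rw [RCLike.star_def, Complex.conj_mul', hc1]; simp
  have hdet : (c • Kak.refl d).det = 1 := by
    rw [det_smul, Kak.det_refl hq0, Fintype.card_fin, hc]; norm_num
  have hpres : (c • Kak.refl d)ᴴ * J n * (c • Kak.refl d) = J n := by
    apply Kak.pres_of_herm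
    intro v w
    rw [smul_mulVec, smul_mulVec, herm_smul_left, herm_smul_right, Kak.herm_refl hq0, ← mul_assoc,
      hcc, one_mul]
  refine ⟨ofMatrix _ hdet hpres, fun x => ?_⟩
  have hcol : ∀ k, (ofMatrix _ hdet hpres * x).toMatrix k (Fin.last n) =
      c * (x.toMatrix k (Fin.last n) - (x.toMatrix i.castSucc (Fin.last n) -
        x.toMatrix j.castSucc (Fin.last n)) * d k) := by
    intro k
    have h1 : (ofMatrix _ hdet hpres * x).toMatrix k (Fin.last n) =
        ((c • Kak.refl d) *ᵥ (fun l => x.toMatrix l (Fin.last n))) k := by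
      rw [toMatrix_mul, toMatrix_ofMatrix, Matrix.mul_apply, mulVec, dotProduct]
    rw [h1, smul_mulVec, Kak.refl_mulVec, hherm, hq, Pi.smul_apply, Pi.sub_apply, Pi.smul_apply,
      smul_eq_mul, smul_eq_mul]
    push_cast
    ring
  have hl : (ofMatrix _ hdet hpres * x).toMatrix (Fin.last n) (Fin.last n) =
      c * x.toMatrix (Fin.last n) (Fin.last n) := by
    rw [hcol, hdl, mul_zero, sub_zero]
  constructor
  · rw [ch, hl, norm_mul, hc1, one_mul]
    rfl
  · rw [zc, zc, hl, hcol, hdi, mul_one, sub_sub_cancel, norm_div, norm_div, norm_mul, norm_mul,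
      hc1, one_mul, one_mul]

private theorem mom_inv {s : ℕ} {k : SUGroup n} (hk : ∀ x : SUGroup n, ch (k * x) = ch x)
    (f : SUGroup n → ℂ) {c : ℂ} (hc : c ≠ 1) (hf : ∀ x : SUGroup n, f (k * x) = c * f x) :
    ∫ x : SUGroup n, (kap s x : ℂ) * f x ∂(mu n) = 0 := by
  have h1 := integral_mul_left_eq_self (μ := mu n) (fun x : SUGroup n => (kap s x : ℂ) * f x) k
  have h2 : ∀ x : SUGroup n, (kap s (k * x) : ℂ) * f (k * x) = c * ((kap s x : ℂ) * f x) := by
    intro x
    rw [hf, kap, kap, hk]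
    ring
  rw [integral_congr_ae (Filter.Eventually.of_forall h2), integral_const_mul] at h1
  by_contra h3
  exact hc (mul_right_cancel₀ h3 (h1.trans (one_mul _).symm))

/-- scalar elements of the stabiliser -/
private theorem mom_scal (c : ℂ) (hc : ‖c‖ = 1) :
    ∃ k : SUGroup n, ∀ x : SUGroup n, ch (k * x) = ch x ∧ ∀ j, zc (k * x) j = c ^ (n + 1) * zc x j := by
  have hcc : c * star c = 1 := by
    rw [RCLike.star_def, Complex.mul_conj', hc]; simp
  have hc0 : c ≠ 0 := by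
    intro h
    rw [h, norm_zero] at hc
    exact zero_ne_one hc
  obtain ⟨k, hk⟩ := mom_diag (n := n) (Fin.snoc (α := fun _ => ℂ) (fun _ => c) (star c ^ n))
    (fun i => by
      refine Fin.lastCases ?_ (fun i => ?_) i
      · rw [Fin.snoc_last, norm_pow, norm_star, hc, one_pow]
      · rw [Fin.snoc_castSucc, hc])
    (by
      rw [Fin.prod_univ_castSucc]
      simp only [Fin.snoc_castSucc, Fin.snoc_last, Finset.prod_const, Finset.card_univ,
        Fintype.card_fin]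
      rw [← mul_pow, hcc, one_pow])
  refine ⟨k, fun x => ⟨(hk x).1, fun j => ?_⟩⟩
  rw [(hk x).2 j, Fin.snoc_castSucc, Fin.snoc_last]
  congr 1
  have h1 : star c ^ n ≠ 0 := pow_ne_zero _ (star_ne_zero.2 hc0)
  rw [div_eq_iff h1, pow_succ', mul_assoc, ← mul_pow, hcc, one_pow, mul_one]

private theorem mom_root (z : ℂ) (hz : ‖z‖ = 1) : ∃ c : ℂ, c ^ (n + 1) = z ∧ ‖c‖ = 1 := by
  obtain ⟨c, hc⟩ : ∃ c : ℂ, c ^ (n + 1) = z := IsAlgClosed.exists_pow_nat_eq _ (Nat.succ_pos n)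
  refine ⟨c, hc, ?_⟩
  have h1 := congrArg norm hc
  rw [norm_pow, hz] at h1
  exact (pow_eq_one_iff_of_nonneg (norm_nonneg c) (Nat.succ_ne_zero n)).1 h1

end zc

/-- First moments of the coordinates vanish. -/
theorem integral_zc {s : ℕ} (h : n < s) (i : Fin n) :
    ∫ x : SUGroup n, (kap s x : ℂ) * zc x i ∂(mu n) = 0 := by
  have _ := h
  obtain ⟨c, hc, hc1⟩ := mom_root (n := n) (-1) (by simp)
  obtain ⟨k, hk⟩ := mom_scal (n := n) c hc1
  refine mom_inv (fun x => (hk x).1) (fun x => zc x i) (c := -1) (by norm_num) fun x => ?_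
  rw [(hk x).2, hc]

theorem integral_zc_zc {s : ℕ} (h : n < s) (i j : Fin n) :
    ∫ x : SUGroup n, (kap s x : ℂ) * (zc x i * zc x j) ∂(mu n) = 0 := by
  have _ := h
  obtain ⟨c, hc, hc1⟩ := mom_root (n := n) Complex.I (by simp)
  obtain ⟨k, hk⟩ := mom_scal (n := n) c hc1
  refine mom_inv (fun x => (hk x).1) (fun x => zc x i * zc x j) (c := -1) (by norm_num) fun x => ?_
  rw [(hk x).2, (hk x).2, hc]
  linear_combination (zc x i * zc x j) * Complex.I_mul_I

private theorem mom_cross {s : ℕ} {i j : Fin n} (hij : i ≠ j) :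
    ∫ x : SUGroup n, (kap s x : ℂ) * (zc x i * star (zc x j)) ∂(mu n) = 0 := by
  obtain ⟨k, hk⟩ := mom_diag (n := n) (Fin.snoc (α := fun _ => ℂ)
    (fun l => if l = i then -1 else 1) (-1))
    (fun l => by
      refine Fin.lastCases ?_ (fun l => ?_) l
      · rw [Fin.snoc_last]
        simp
      · rw [Fin.snoc_castSucc]
        split_ifs <;> simp)
    (by
      rw [Fin.prod_univ_castSucc]
      simp only [Fin.snoc_castSucc, Fin.snoc_last]
      rw [Finset.prod_ite_eq' Finset.univ i fun _ => (-1 : ℂ)]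
      simp)
  refine mom_inv (fun x => (hk x).1) (fun x => zc x i * star (zc x j)) (c := -1) (by norm_num)
    fun x => ?_
  rw [(hk x).2, (hk x).2, Fin.snoc_castSucc, Fin.snoc_castSucc, Fin.snoc_last, if_pos rfl,
    if_neg hij.symm]
  simp

private theorem mom_int_sq {s : ℕ} (h : n < s) (i : Fin n) :
    Integrable (fun x : SUGroup n => kap s x * ‖zc x i‖ ^ 2) (mu n) := by
  refine Integrable.mono' (integrable_kap h) ((continuous_kap s).mul
    ((continuous_zc i).norm.pow 2)).aestronglyMeasurable (Filter.Eventually.of_forall fun x => ?_)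
  have h1 := kap_nonneg s x
  rw [Real.norm_eq_abs, abs_of_nonneg (by positivity)]
  exact mul_le_of_le_one_right h1 (pow_le_one₀ (norm_nonneg _) (norm_zc_le x i))

private theorem mom_sq {s : ℕ} (h : n < s) (i : Fin n) :
    ∫ x : SUGroup n, kap s x * ‖zc x i‖ ^ 2 ∂(mu n) = 1 / s := by
  have heq : ∀ j : Fin n, ∫ x : SUGroup n, kap s x * ‖zc x j‖ ^ 2 ∂(mu n) =
      ∫ x : SUGroup n, kap s x * ‖zc x i‖ ^ 2 ∂(mu n) := by
    intro j
    rcases eq_or_ne i j with rfl | hij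
    · rfl
    obtain ⟨k, hk⟩ := mom_swap i j hij
    have h1 := integral_mul_left_eq_self (μ := mu n)
      (fun x : SUGroup n => kap s x * ‖zc x i‖ ^ 2) k
    rw [← h1]
    refine integral_congr_ae (Filter.Eventually.of_forall fun x => ?_)
    simp only
    rw [(hk x).2, kap, kap, (hk x).1]
  have hsum : ∑ j : Fin n, ∫ x : SUGroup n, kap s x * ‖zc x j‖ ^ 2 ∂(mu n) = (n : ℝ) / s := by
    rw [← integral_finsetSum _ fun j _ => mom_int_sq h j]
    have h1 : ∀ x : SUGroup n, ∑ j : Fin n, kap s x * ‖zc x j‖ ^ 2 =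
        kap s x - kap s x * (ch x ^ 2)⁻¹ := by
      intro x
      rw [← Finset.mul_sum, sum_norm_zc]
      ring
    have h2 : ∀ x : SUGroup n, kap s x * (ch x ^ 2)⁻¹ = (ch x ^ (2 * (s + 1)))⁻¹ / cs n s := by
      intro x
      rw [kap, show 2 * (s + 1) = 2 * s + 2 by ring, pow_add, mul_inv]
      ring
    have h3 : Integrable (fun x : SUGroup n => kap s x * (ch x ^ 2)⁻¹) (mu n) :=
      ((integrable_inv (n := n) (s := s + 1) (by omega)).div_const (cs n s)).congr
        (Filter.Eventually.of_forall fun x => (h2 x).symm)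
    rw [integral_congr_ae (Filter.Eventually.of_forall h1), integral_sub (integrable_kap h) h3,
      integral_kap h, integral_congr_ae (Filter.Eventually.of_forall h2), integral_div]
    have h4 : ∫ x : SUGroup n, (ch x ^ (2 * (s + 1)))⁻¹ ∂(mu n) = cs n (s + 1) := rfl
    have h5 := cs_succ h
    have h6 := cs_pos' h
    have hs : (0 : ℝ) < s := by exact_mod_cast (by omega : 0 < s)
    rw [h4, sub_eq_iff_eq_add, ← sub_eq_iff_eq_add', eq_div_iff h6.ne']
    have h7 : cs n (s + 1) = ((s : ℝ) - n) * cs n s / s := by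
      rw [eq_div_iff hs.ne', mul_comm]
      exact h5
    rw [h7]
    field_simp
  rw [Finset.sum_congr rfl fun j _ => heq j, Finset.sum_const, Finset.card_univ,
    Fintype.card_fin, nsmul_eq_mul] at hsum
  have hn : (n : ℝ) ≠ 0 := by
    have : 0 < n := i.pos
    positivity
  have hs : (s : ℝ) ≠ 0 := by
    have : 0 < s := by omega
    positivity
  field_simp at hsum ⊢
  linarith

theorem integral_zc_conj {s : ℕ} (h : n < s) (i j : Fin n) :
    ∫ x : SUGroup n, (kap s x : ℂ) * (zc x i * star (zc x j)) ∂(mu n) =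
      if i = j then (1 / s : ℂ) else 0 := by
  split_ifs with hij
  · subst hij
    have h1 : ∀ x : SUGroup n, (kap s x : ℂ) * (zc x i * star (zc x i)) =
        ((kap s x * ‖zc x i‖ ^ 2 : ℝ) : ℂ) := by
      intro x
      rw [RCLike.star_def, Complex.mul_conj']
      push_cast
      rfl
    rw [integral_congr_ae (Filter.Eventually.of_forall h1), integral_complex_ofReal, mom_sq h i]
    push_cast
    rfl
  · exact mom_cross hij

end Pool.Agent.Lib.MP_5d4057_al.HM

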