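import Pool.Agent.Lib.MP_5d4057_al.HM.WideA
import Pool.Agent.Lib.MP_5d4057_al.Hyb.Norm
import Pool.Agent.Lib.MP_5d4057_al.Hyb.Span
import Pool.Agent.Lib.MP_5d4057_al.Hyb.Main

/-! Groups commensurable with `SU(H, O_K)`: the rational part, and the scalars of the commensurator. -/

namespace Pool.Agent.Lib.MP_5d4057_al.HM

open Matrix Pool.Agent.Lib.MP_5d4057_al Pool.Agent.Lib.MP_5d4057_al.Hyb

variable {m : ℕ}

/-- `Γ` is commensurable with `SU(H, O_K)` for an admissible Hermitian form `H` over the CM field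
`K`. -/
def IsArithmeticOver (m : ℕ) (K : Subfield ℂ) (Γ : Subgroup (SUGroup m)) : Prop :=
  ∃ (H : Matrix (Fin (m + 1)) (Fin (m + 1)) K) (B : Matrix (Fin (m + 1)) (Fin (m + 1)) ℂ),
    IsForm m K H B ∧ Subgroup.Commensurable Γ (integralPoints m K B)

/-- The elements of `Γ` rational over `K` in the basis `B`. -/
def ratPart (Γ : Subgroup (SUGroup m)) (K : Subfield ℂ)
    (B : Matrix (Fin (m + 1)) (Fin (m + 1)) ℂ) : Subgroup (SUGroup m) where
  carrier := {g | g ∈ Γ ∧ EntriesIn K B g.toMatrix ∧ EntriesIn K B g⁻¹.toMatrix}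
  mul_mem' {g h} hg hh := ⟨Γ.mul_mem hg.1 hh.1,
    EntriesIn.mul (R := K.toSubring) hg.2.1 hh.2.1, by
      rw [_root_.mul_inv_rev]
      exact EntriesIn.mul (R := K.toSubring) hh.2.2 hg.2.2⟩
  one_mem' := ⟨Γ.one_mem, EntriesIn.one (R := K.toSubring), by
    rw [inv_one]; exact EntriesIn.one (R := K.toSubring)⟩
  inv_mem' {g} hg := ⟨Γ.inv_mem hg.1, hg.2.2, by rw [inv_inv]; exact hg.2.1⟩

theorem ratPart_le (Γ : Subgroup (SUGroup m)) (K : Subfield ℂ)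
    (B : Matrix (Fin (m + 1)) (Fin (m + 1)) ℂ) : ratPart Γ K B ≤ Γ := fun _ hg => hg.1

theorem ratPart_relIndex {Γ : Subgroup (SUGroup m)} {K : Subfield ℂ}
    {B : Matrix (Fin (m + 1)) (Fin (m + 1)) ℂ}
    (hc : Subgroup.Commensurable Γ (integralPoints m K B)) : (ratPart Γ K B).relIndex Γ ≠ 0 := by
  have h1 : Γ ⊓ integralPoints m K B ≤ ratPart Γ K B := by
    rintro x ⟨hx, hx1, hx2⟩
    exact ⟨hx, fun i j => (hx1 i j).1, fun i j => (hx2 i j).1⟩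
  have h2 : (Γ ⊓ integralPoints m K B).relIndex Γ ≠ 0 := by
    rw [Subgroup.inf_relIndex_left]
    exact hc.2
  intro h3
  have h4 := Subgroup.relIndex_dvd_of_le_left Γ h1
  rw [h3, zero_dvd_iff] at h4
  exact h2 h4

theorem isArithmetic_ratPart {Γ : Subgroup (SUGroup m)} {K : Subfield ℂ}
    {H : Matrix (Fin (m + 1)) (Fin (m + 1)) K} {B : Matrix (Fin (m + 1)) (Fin (m + 1)) ℂ}
    (hf : IsForm m K H B) (hc : Subgroup.Commensurable Γ (integralPoints m K B)) :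
    IsArithmetic m (ratPart Γ K B) := by
  refine ⟨K, H, B, hf, fun γ hγ => hγ.2.1, ?_⟩
  have h1 : Subgroup.Commensurable (ratPart Γ K B) Γ := by
    refine ⟨ratPart_relIndex hc, ?_⟩
    rw [Subgroup.relIndex_eq_one.2 (ratPart_le Γ K B)]
    exact one_ne_zero
  exact h1.trans hc

/-- The elements of `Γ` are rational up to a scalar. -/
theorem exists_rat_scalar (hm : 1 ≤ m) {Γ : Subgroup (SUGroup m)} (hΓ : Coc Γ) {K : Subfield ℂ}
    {H : Matrix (Fin (m + 1)) (Fin (m + 1)) K} {B : Matrix (Fin (m + 1)) (Fin (m + 1)) ℂ}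
    (hf : IsForm m K H B) (hc : Subgroup.Commensurable Γ (integralPoints m K B))
    {γ : SUGroup m} (hγ : γ ∈ Γ) :
    ∃ l : ℂ, l ≠ 0 ∧ l ^ (m + 1) ∈ K ∧ EntriesIn K B (l⁻¹ • γ.toMatrix) := by
  obtain ⟨Γ', hΓ'⟩ : ∃ Γ', Γ' = ratPart Γ K B := ⟨_, rfl⟩
  have hfin : Γ'.relIndex Γ ≠ 0 := by rw [hΓ']; exact ratPart_relIndex hc
  obtain ⟨φ, hφ⟩ : ∃ φ : SUGroup m →* SUGroup m, φ = (MulAut.conj γ).toMonoidHom := ⟨_, rfl⟩
  have hφi : Function.Injective φ := by rw [hφ]; exact (MulAut.conj γ).injective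
  have hmap : Γ.map φ = Γ := by
    ext x
    rw [Subgroup.mem_map]
    constructor
    · rintro ⟨y, hy, rfl⟩
      rw [hφ]
      exact Γ.mul_mem (Γ.mul_mem hγ hy) (Γ.inv_mem hγ)
    · intro hx
      refine ⟨γ⁻¹ * x * γ, Γ.mul_mem (Γ.mul_mem (Γ.inv_mem hγ) hx) hγ, ?_⟩
      rw [hφ]
      show γ * (γ⁻¹ * x * γ) * γ⁻¹ = x
      group
  have hfin2 : (Γ'.map φ).relIndex Γ ≠ 0 := by
    have h1 := Subgroup.relIndex_map_map_of_injective Γ' Γ hφi
    rw [hmap] at h1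
    rw [h1]
    exact hfin
  obtain ⟨Δ, hΔ⟩ : ∃ Δ, Δ = Γ' ⊓ Γ'.map φ := ⟨_, rfl⟩
  have hΔfin : Δ.relIndex Γ ≠ 0 := by rw [hΔ]; exact Subgroup.relIndex_inf_ne_zero hfin hfin2
  have hΔle : Δ ≤ Γ := by
    rw [hΔ, hΓ']
    exact inf_le_left.trans (ratPart_le Γ K B)
  have hspan := span_top hm Δ (hΓ.of_relIndex hΔle hΔfin).isLattice
  have hgd : (γ.toMatrix * B).det ≠ 0 := by
    rw [det_mul, det_toMatrix, one_mul]
    exact hf.det
  obtain ⟨ν, Y, hν, hY, hYB⟩ := exists_similar (K := K)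
    (SUGroup.toMatrix '' (Δ : Set (SUGroup m))) hspan B (γ.toMatrix * B) hf.det hgd
    (by
      rintro _ ⟨x, hx, rfl⟩
      rw [SetLike.mem_coe, hΔ, hΓ'] at hx
      exact hx.1.2.1)
    (by
      rintro _ ⟨x, hx, rfl⟩
      rw [SetLike.mem_coe, hΔ, hΓ'] at hx
      obtain ⟨y, hy, hyx⟩ := hx.2
      have h1 : x.toMatrix = γ.toMatrix * y.toMatrix * (γ⁻¹).toMatrix := by
        rw [← hyx, hφ]
        rfl
      rw [h1]
      exact (entriesIn_conj γ B y.toMatrix).2 hy.2.1)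
  have hBu := isUnit_iff_ne_zero.2 hf.det
  have hYm : (Y.map (fun x : K => (x : ℂ))).det ≠ 0 := by
    have h1 : (Y.map (fun x : K => (x : ℂ))).det = ((Y.det : K) : ℂ) :=
      (RingHom.map_det K.subtype Y).symm
    rw [h1]
    exact fun h => hY (Subtype.ext h)
  have hYu := isUnit_iff_ne_zero.2 hYm
  have hYinv : (Y.map (fun x : K => (x : ℂ)))⁻¹ = (Y⁻¹).map (fun x : K => (x : ℂ)) := by
    apply inv_eq_right_inv
    have h1 : (Y * Y⁻¹).map (fun x : K => (x : ℂ)) =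
        Y.map (fun x : K => (x : ℂ)) * (Y⁻¹).map (fun x : K => (x : ℂ)) :=
      Matrix.map_mul (f := K.subtype)
    rw [← h1, Matrix.mul_nonsing_inv _ (isUnit_iff_ne_zero.2 hY)]
    exact Matrix.map_one _ rfl rfl
  -- `B⁻¹ γ B = ν Y⁻¹`
  have h1 : B⁻¹ * γ.toMatrix * B = ν • (Y⁻¹).map (fun x : K => (x : ℂ)) := by
    rw [← hYinv]
    calc B⁻¹ * γ.toMatrix * B = B⁻¹ * (γ.toMatrix * B * Y.map (fun x : K => (x : ℂ))) *
          (Y.map (fun x : K => (x : ℂ)))⁻¹ := by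
          simp only [Matrix.mul_assoc]
          rw [Matrix.mul_nonsing_inv _ hYu, Matrix.mul_one]
      _ = _ := by
          rw [hYB, Matrix.mul_smul, Matrix.nonsing_inv_mul _ hBu, Matrix.smul_mul, Matrix.one_mul]
  have h2 : B⁻¹ * (ν⁻¹ • γ.toMatrix) * B = (Y⁻¹).map (fun x : K => (x : ℂ)) := by
    rw [Matrix.mul_smul, Matrix.smul_mul, h1, smul_smul, inv_mul_cancel₀ hν, one_smul]
  refine ⟨ν, hν, ?_, fun i j => ?_⟩
  · have h3 := congrArg det h2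
    rw [det_mul, det_mul, det_smul, det_toMatrix, Fintype.card_fin, det_nonsing_inv,
      Ring.inverse_eq_inv', mul_one] at h3
    have h4 : ((Y⁻¹).map (fun x : K => (x : ℂ))).det = ((Y⁻¹.det : K) : ℂ) :=
      (RingHom.map_det K.subtype Y⁻¹).symm
    rw [h4] at h3
    have h5 : B.det⁻¹ * ν⁻¹ ^ (m + 1) * B.det = (ν ^ (m + 1))⁻¹ := by
      have := hf.det
      rw [inv_pow]
      field_simp
    rw [h5] at h3
    have h6 : ν ^ (m + 1) = (((Y⁻¹.det : K) : ℂ))⁻¹ := by rw [← h3, inv_inv]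
    rw [h6]
    exact K.inv_mem (Y⁻¹.det).2
  · rw [h2]
    exact (Y⁻¹ i j).2

end Pool.Agent.Lib.MP_5d4057_al.HM
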