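import Pool.Agent.Lib.MP_5d4057_al.HM.Basic

/-! Boosts, the one-parameter groups, reflections and the smooth section of the orbit map. -/

namespace Pool.Agent.Lib.MP_5d4057_al.HM

open Matrix MeasureTheory Filter Topology Pool.Agent.Lib.MP_5d4057_al Pool.Agent.Lib.MP_5d4057_al.Hyb

open scoped ComplexOrder MatrixOrder Matrix.Norms.L2Operator

variable {n m : ℕ} {E : Type} [NormedAddCommGroup E] [NormedSpace ℝ E]

namespace Kak

theorem vec_castSucc (p : Fin n → ℂ) (i : Fin n) : vec p i.castSucc = p i := by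
  simp [vec, Fin.snoc]

theorem vec_last (p : Fin n → ℂ) : vec p (Fin.last n) = 0 := by
  simp [vec, Fin.snoc]

theorem base_castSucc (i : Fin n) : base n i.castSucc = 0 := by
  rw [base, Pi.single_eq_of_ne (Fin.castSucc_lt_last i).ne]

theorem base_last (n : ℕ) : base n (Fin.last n) = 1 := by
  rw [base, Pi.single_eq_same]

attribute [local simp] vec_castSucc vec_last base_castSucc base_last

section boost

/-- The square of the norm. -/
noncomputable def nq (p : Fin n → ℂ) : ℝ := ∑ i, ‖p i‖ ^ 2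

theorem star_vec_dot (p : Fin n → ℂ) : star (vec p) ⬝ᵥ vec p = (nq p : ℂ) := by
  rw [dotProduct, Fin.sum_univ_castSucc, nq]
  simp [Complex.conj_mul']

theorem star_vec_dot_base (p : Fin n → ℂ) : star (vec p) ⬝ᵥ base n = 0 := by
  rw [dotProduct, Fin.sum_univ_castSucc]
  simp

theorem base_dot_vec (p : Fin n → ℂ) : base n ⬝ᵥ vec p = 0 := by
  rw [dotProduct, Fin.sum_univ_castSucc]
  simp

theorem base_dot_base (n : ℕ) : base n ⬝ᵥ base n = 1 := by
  rw [dotProduct, Fin.sum_univ_castSucc]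
  simp

theorem star_base (n : ℕ) : star (base n) = base n := by
  ext i
  refine Fin.lastCases ?_ (fun i => ?_) i <;> simp

/-- Matrices supported on the plane of `(p, 0)` and `e_n`. -/
def MM (p : Fin n → ℂ) (a b c d : ℂ) : Mat (n + 1) :=
  1 + a • vecMulVec (vec p) (star (vec p)) + b • vecMulVec (vec p) (base n) +
    c • vecMulVec (base n) (star (vec p)) + d • vecMulVec (base n) (base n)

theorem MM_mul (p : Fin n → ℂ) (a b c d a' b' c' d' : ℂ) :
    MM p a b c d * MM p a' b' c' d' =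
      MM p (a + a' + a * a' * nq p + b * c') (b + b' + a * b' * nq p + b * d')
        (c + c' + c * a' * nq p + d * c') (d + d' + c * b' * nq p + d * d') := by
  simp only [MM, add_mul, mul_add, one_mul, mul_one, smul_mul_smul_comm, vecMulVec_mul_vecMulVec,
    star_vec_dot, star_vec_dot_base, base_dot_vec, base_dot_base, vecMulVec_smul,
    zero_smul, smul_zero, one_smul, vecMulVec_zero]
  module

theorem MM_conjTranspose (p : Fin n → ℂ) (a b c d : ℂ) :
    (MM p a b c d)ᴴ = MM p (star a) (star c) (star b) (star d) := by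
  simp only [MM, conjTranspose_add, conjTranspose_smul, conjTranspose_one, conjTranspose_vecMulVec,
    star_star, star_base]
  module

theorem J_eq_MM (p : Fin n → ℂ) : J n = MM p 0 0 0 (-2) := by
  ext i j
  rw [J, MM]
  refine Fin.lastCases ?_ (fun i => ?_) i <;> refine Fin.lastCases ?_ (fun j => ?_) j
  · simp [vecMulVec_apply]; norm_num
  · rw [diagonal_apply_ne _ (Fin.castSucc_lt_last j).ne']
    simp [vecMulVec_apply, Matrix.one_apply_ne (Fin.castSucc_lt_last j).ne']
  · rw [diagonal_apply_ne _ (Fin.castSucc_lt_last i).ne]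
    simp [vecMulVec_apply, Matrix.one_apply_ne (Fin.castSucc_lt_last i).ne]
  · simp only [vecMulVec_apply, Matrix.add_apply, Matrix.smul_apply, vec_castSucc, base_castSucc]
    by_cases h : i = j
    · subst h
      simp [(Fin.castSucc_lt_last i).ne]
    · have h' : i.castSucc ≠ j.castSucc := fun e => h (Fin.castSucc_injective _ e)
      rw [diagonal_apply_ne _ h', Matrix.one_apply_ne h']
      simp

theorem MM_det (p : Fin n → ℂ) (a b c d : ℂ) :
    (MM p a b c d).det = (1 + a * nq p) * (1 + d) - b * c * nq p := by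
  have h : MM p a b c d = 1 + (Matrix.of fun (i : Fin (n + 1)) (j : Fin 2) =>
      (![vec p i, base n i] j : ℂ)) * (Matrix.of ![fun j => a * star (vec p j) + b * base n j,
        fun j => c * star (vec p j) + d * base n j] : Matrix (Fin 2) (Fin (n + 1)) ℂ) := by
    ext i j
    simp only [MM, Matrix.add_apply, Matrix.smul_apply, Matrix.mul_apply, Fin.sum_univ_two,
      vecMulVec_apply, Matrix.of_apply, Matrix.cons_val_zero, Matrix.cons_val_one, smul_eq_mul,
      Pi.star_apply]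
    ring
  rw [h, det_one_add_mul_comm, det_fin_two]
  have h1 := star_vec_dot p
  have h2 := star_vec_dot_base p
  have h3 := base_dot_vec p
  have h4 := base_dot_base n
  simp only [dotProduct, Pi.star_apply] at h1 h2 h3 h4
  simp only [Matrix.add_apply, Matrix.mul_apply, Matrix.of_apply, Matrix.cons_val_zero,
    Matrix.cons_val_one, add_mul, Finset.sum_add_distrib, mul_assoc, ← Finset.mul_sum, h1, h2, h3,
    h4, Matrix.one_apply_eq]
  simp

theorem MM_pres (p : Fin n → ℂ) {a b c d : ℂ}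
    (h1 : star a + a + star a * a * nq p = star c * c)
    (h2 : star a * b * nq p + b = star c * (1 + d))
    (h3 : star d + d + star d * d = star b * b * nq p) :
    (MM p a b c d)ᴴ * J n * MM p a b c d = J n := by
  rw [MM_conjTranspose, J_eq_MM p, MM_mul, MM_mul]
  have h2' := congrArg star h2
  simp only [star_add, star_mul', star_one, RCLike.star_def, Complex.conj_ofReal,
    Complex.conj_conj] at h2' h1 h2 h3 ⊢
  congr 1
  · linear_combination h1
  · linear_combination h2
  · linear_combination h2'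
  · linear_combination -h3

theorem MM_mulVec_base (p : Fin n → ℂ) (a b c d : ℂ) :
    MM p a b c d *ᵥ base n = b • vec p + (1 + d) • base n := by
  simp only [MM, add_mulVec, smul_mulVec, one_mulVec, vecMulVec_mulVec, star_vec_dot_base,
    base_dot_base, MulOpposite.op_zero, MulOpposite.op_one, zero_smul, one_smul, smul_zero]
  module

theorem MM_last (p : Fin n → ℂ) (a b c d : ℂ) :
    MM p a b c d (Fin.last n) (Fin.last n) = 1 + d := by
  simp [MM, vecMulVec_apply]

theorem boost_aux (p : Fin n → ℂ) {a b : ℝ} (h : 2 * a + a ^ 2 * nq p = b ^ 2) :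
    (MM p a b b (a * nq p)).det = 1 ∧
      (MM p a b b (a * nq p))ᴴ * J n * MM p a b b (a * nq p) = J n := by
  have h' : 2 * (a : ℂ) + a ^ 2 * nq p = b ^ 2 := by exact_mod_cast h
  constructor
  · rw [MM_det]
    linear_combination (nq p : ℂ) * h'
  · apply MM_pres
    · simp only [RCLike.star_def, Complex.conj_ofReal]
      linear_combination h'
    · simp only [RCLike.star_def, Complex.conj_ofReal]
      ring
    · simp only [RCLike.star_def, Complex.conj_ofReal, map_mul]
      linear_combination (nq p : ℂ) * h'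

/-- The group element of the plane of `(p, 0)` and `e_n`. -/
noncomputable def boost (p : Fin n → ℂ) (a b : ℝ) (h : 2 * a + a ^ 2 * nq p = b ^ 2) :
    SUGroup n := ofMatrix (MM p a b b (a * nq p)) (boost_aux p h).1 (boost_aux p h).2

theorem toMatrix_boost (p : Fin n → ℂ) {a b : ℝ} (h : 2 * a + a ^ 2 * nq p = b ^ 2) :
    (boost p a b h).toMatrix = MM p a b b (a * nq p) := rfl

theorem act_boost (p : Fin n → ℂ) {a b : ℝ} (h : 2 * a + a ^ 2 * nq p = b ^ 2) :
    act (boost p a b h) (base n) = (b : ℂ) • vec p + (1 + a * nq p : ℂ) • base n := by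
  rw [act, toMatrix_boost, MM_mulVec_base]

theorem ch_boost (p : Fin n → ℂ) {a b : ℝ} (h : 2 * a + a ^ 2 * nq p = b ^ 2) :
    ch (boost p a b h) = |1 + a * nq p| := by
  rw [ch, toMatrix_boost, MM_last, ← Complex.ofReal_mul, ← Complex.ofReal_one,
    ← Complex.ofReal_add, Complex.norm_real, Real.norm_eq_abs]

theorem nq_nonneg (p : Fin n → ℂ) : 0 ≤ nq p := Finset.sum_nonneg fun _ _ => sq_nonneg _

theorem bp_aux (p : Fin n → ℂ) : 2 * (1 / (1 + Real.sqrt (1 + nq p))) +
    (1 / (1 + Real.sqrt (1 + nq p))) ^ 2 * nq p = 1 ^ 2 := by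
  have h0 := nq_nonneg p
  have h1 : Real.sqrt (1 + nq p) ^ 2 = 1 + nq p := Real.sq_sqrt (by linarith)
  have h2 : 0 ≤ Real.sqrt (1 + nq p) := Real.sqrt_nonneg _
  have h3 : 1 + Real.sqrt (1 + nq p) ≠ 0 := by positivity
  field_simp
  nlinarith

/-- The positive element which maps the base point to `(p, sqrt (1 + |p|²))`. -/
noncomputable def bp (p : Fin n → ℂ) : SUGroup n :=
  boost p (1 / (1 + Real.sqrt (1 + nq p))) 1 (bp_aux p)

theorem bp_d (p : Fin n → ℂ) :
    1 + 1 / (1 + Real.sqrt (1 + nq p)) * nq p = Real.sqrt (1 + nq p) := by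
  have h0 := nq_nonneg p
  have h1 : Real.sqrt (1 + nq p) ^ 2 = 1 + nq p := Real.sq_sqrt (by linarith)
  have h2 : 0 ≤ Real.sqrt (1 + nq p) := Real.sqrt_nonneg _
  have h3 : 1 + Real.sqrt (1 + nq p) ≠ 0 := by positivity
  field_simp
  nlinarith

theorem act_bp (p : Fin n → ℂ) :
    act (bp p) (base n) = vec p + (Real.sqrt (1 + nq p) : ℂ) • base n := by
  rw [bp, act_boost, Complex.ofReal_one, one_smul]
  congr 2
  exact_mod_cast bp_d p

theorem ch_bp (p : Fin n → ℂ) : ch (bp p) = Real.sqrt (1 + nq p) := by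
  rw [bp, ch_boost, bp_d, abs_of_nonneg (Real.sqrt_nonneg _)]

theorem nq_zero : nq (0 : Fin n → ℂ) = 0 := by simp [nq]

theorem vec_zero : vec (0 : Fin n → ℂ) = 0 := by
  ext i
  refine Fin.lastCases ?_ (fun i => ?_) i <;> simp

theorem bp_zero : bp (0 : Fin n → ℂ) = 1 := by
  apply toMatrix_injective
  rw [bp, toMatrix_boost, toMatrix_one, MM, nq_zero, vec_zero]
  simp

end boost

section flow

theorem flow_aux {ξ : Fin n → ℂ} (hξ : nq ξ = 1) (t : ℝ) :
    2 * (Real.cosh t - 1) + (Real.cosh t - 1) ^ 2 * nq ξ = Real.sinh t ^ 2 := by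
  rw [hξ, Real.sinh_sq]
  ring

/-- The one-parameter group. -/
noncomputable def flow (ξ : Fin n → ℂ) (hξ : nq ξ = 1) (t : ℝ) : SUGroup n :=
  boost ξ (Real.cosh t - 1) (Real.sinh t) (flow_aux hξ t)

theorem toMatrix_flow {ξ : Fin n → ℂ} (hξ : nq ξ = 1) (t : ℝ) :
    (flow ξ hξ t).toMatrix = MM ξ ((Real.cosh t - 1 : ℝ) : ℂ) (Real.sinh t) (Real.sinh t)
      ((Real.cosh t - 1 : ℝ) : ℂ) := by
  rw [flow, toMatrix_boost, hξ, Complex.ofReal_one, mul_one]

theorem flow_zero {ξ : Fin n → ℂ} (hξ : nq ξ = 1) : flow ξ hξ 0 = 1 := by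
  apply toMatrix_injective
  rw [toMatrix_flow, toMatrix_one, MM]
  simp

theorem flow_add {ξ : Fin n → ℂ} (hξ : nq ξ = 1) (s t : ℝ) :
    flow ξ hξ (s + t) = flow ξ hξ s * flow ξ hξ t := by
  apply toMatrix_injective
  rw [toMatrix_mul, toMatrix_flow, toMatrix_flow, toMatrix_flow, MM_mul, hξ, Real.cosh_add,
    Real.sinh_add]
  push_cast
  congr 1 <;> ring

theorem ch_flow {ξ : Fin n → ℂ} (hξ : nq ξ = 1) (t : ℝ) : ch (flow ξ hξ t) = Real.cosh t := by
  rw [flow, ch_boost, hξ, mul_one, add_sub_cancel, abs_of_pos (Real.cosh_pos t)]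

theorem wt_flow {ξ : Fin n → ℂ} (hξ : nq ξ = 1) {t : ℝ} (ht : 0 ≤ t) :
    wt (flow ξ hξ t) = Real.exp t := by
  rw [wt, ch_flow, ← Real.sinh_sq, Real.sqrt_sq (Real.sinh_nonneg_iff.2 ht), Real.cosh_add_sinh]

theorem flow_pow {ξ : Fin n → ℂ} (hξ : nq ξ = 1) (t : ℝ) (N : ℕ) :
    flow ξ hξ (N * t) = flow ξ hξ t ^ N := by
  induction N with
  | zero => simp [flow_zero]
  | succ N ih => rw [pow_succ, ← ih, ← flow_add]; congr 1; push_cast; ring

theorem xmat_eq (ξ : Fin n → ℂ) : 1 + xmat ξ = MM ξ 0 1 1 0 := by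
  rw [xmat, MM]
  simp [add_assoc]

theorem MM_mul_xmat {ξ : Fin n → ℂ} (hξ : nq ξ = 1) (a b : ℂ) :
    MM ξ a b b a * xmat ξ = b • (vecMulVec (vec ξ) (star (vec ξ)) +
      vecMulVec (base n) (base n)) + (1 + a) • xmat ξ := by
  have h : MM ξ a b b a * (1 + xmat ξ) = MM ξ a b b a + (b • (vecMulVec (vec ξ) (star (vec ξ)) +
      vecMulVec (base n) (base n)) + (1 + a) • xmat ξ) := by
    rw [xmat_eq, MM_mul, hξ]
    simp only [MM, xmat, Complex.ofReal_one]
    module
  rw [mul_add, mul_one] at h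
  exact add_left_cancel h

theorem hasDerivAt_flow {ξ : Fin n → ℂ} (hξ : nq ξ = 1) (t : ℝ) :
    HasDerivAt (fun t => (flow ξ hξ t).toMatrix) ((flow ξ hξ t).toMatrix * xmat ξ) t := by
  have hc : HasDerivAt (fun t : ℝ => ((Real.cosh t - 1 : ℝ) : ℂ)) ((Real.sinh t : ℝ) : ℂ) t :=
    ((Real.hasDerivAt_cosh t).sub_const 1).ofReal_comp
  have hs : HasDerivAt (fun t : ℝ => ((Real.sinh t : ℝ) : ℂ)) ((Real.cosh t : ℝ) : ℂ) t :=
    (Real.hasDerivAt_sinh t).ofReal_comp
  have e : (fun t => (flow ξ hξ t).toMatrix) = fun t : ℝ =>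
      ((Real.cosh t - 1 : ℝ) : ℂ) • (vecMulVec (vec ξ) (star (vec ξ)) +
        vecMulVec (base n) (base n)) + ((Real.sinh t : ℝ) : ℂ) • xmat ξ + 1 := by
    funext t
    rw [toMatrix_flow, MM, xmat]
    module
  have e2 : (flow ξ hξ t).toMatrix * xmat ξ = ((Real.sinh t : ℝ) : ℂ) •
      (vecMulVec (vec ξ) (star (vec ξ)) + vecMulVec (base n) (base n)) +
        ((Real.cosh t : ℝ) : ℂ) • xmat ξ := by
    rw [toMatrix_flow, MM_mul_xmat hξ]
    congr 2
    push_cast
    ring
  rw [e, e2]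
  have h1 := ((hc.smul_const (vecMulVec (vec ξ) (star (vec ξ)) +
        vecMulVec (base n) (base n) : Mat (n + 1))).add (hs.smul_const (xmat ξ))).add_const
        (1 : Mat (n + 1))
  exact h1

theorem continuous_flow {ξ : Fin n → ℂ} (hξ : nq ξ = 1) : Continuous (flow ξ hξ) := by
  rw [(isClosedEmbedding_toMatrix n).isInducing.continuous_iff]
  exact continuous_iff_continuousAt.2 fun t => (hasDerivAt_flow hξ t).continuousAt

end flow

section sec

/-- The coordinates of the normalised vector. -/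
noncomputable def pf (v : Vec n) (i : Fin n) : ℂ :=
  v i.castSucc * star (v (Fin.last n)) / ((‖v (Fin.last n)‖ * Real.sqrt (- q v) : ℝ) : ℂ)

theorem norm_last_pos {v : Vec n} (hv : v ∈ Cone n) : 0 < ‖v (Fin.last n)‖ := by
  have h : q v < 0 := hv
  rw [q_eq] at h
  have h1 : 0 ≤ ∑ i : Fin n, ‖v i.castSucc‖ ^ 2 := Finset.sum_nonneg fun _ _ => sq_nonneg _
  by_contra h2
  have h3 : ‖v (Fin.last n)‖ = 0 := le_antisymm (not_lt.1 h2) (norm_nonneg _)
  rw [h3] at h
  linarith

theorem nq_pf {v : Vec n} (hv : v ∈ Cone n) : 1 + nq (pf v) = ‖v (Fin.last n)‖ ^ 2 / (- q v) := by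
  have h : q v < 0 := hv
  have h0 := norm_last_pos hv
  have h1 : nq (pf v) = (∑ i : Fin n, ‖v i.castSucc‖ ^ 2) / (- q v) := by
    rw [nq, Finset.sum_div]
    refine Finset.sum_congr rfl fun i _ => ?_
    rw [pf, norm_div, norm_mul, norm_star, Complex.norm_real, Real.norm_eq_abs,
      abs_of_nonneg (by positivity), mul_comm ‖v i.castSucc‖, mul_div_mul_left _ _ h0.ne',
      div_pow, Real.sq_sqrt (by linarith)]
  rw [h1]
  have h2 := q_eq v
  have h3 : - q v ≠ 0 := by linarith
  rw [eq_div_iff h3, add_mul, div_mul_cancel₀ _ h3]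
  linarith

theorem sqrt_pf {v : Vec n} (hv : v ∈ Cone n) :
    Real.sqrt (1 + nq (pf v)) = ‖v (Fin.last n)‖ / Real.sqrt (- q v) := by
  rw [nq_pf hv, Real.sqrt_div (sq_nonneg _), Real.sqrt_sq (norm_nonneg _)]

theorem pf_smul (v : Vec n) {c : ℂ} (hc : c ≠ 0) : pf (c • v) = pf v := by
  have hc' : ‖c‖ ≠ 0 := norm_ne_zero_iff.2 hc
  have h1 : Real.sqrt (- q (c • v)) = ‖c‖ * Real.sqrt (- q v) := by
    rw [q_smul, ← mul_neg, Real.sqrt_mul (sq_nonneg _), Real.sqrt_sq (norm_nonneg _)]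
  funext i
  simp only [pf, h1, Pi.smul_apply, smul_eq_mul, norm_mul, star_mul']
  have h2 : star c * c = ((‖c‖ * ‖c‖ : ℝ) : ℂ) := by
    rw [RCLike.star_def, Complex.conj_mul']; push_cast; ring
  calc c * v i.castSucc * (star c * star (v (Fin.last n))) /
        ((‖c‖ * ‖v (Fin.last n)‖ * (‖c‖ * Real.sqrt (- q v)) : ℝ) : ℂ)
      = (star c * c) * (v i.castSucc * star (v (Fin.last n))) /
        (((‖c‖ * ‖c‖ : ℝ) : ℂ) * ((‖v (Fin.last n)‖ * Real.sqrt (- q v) : ℝ) : ℂ)) := by
        congr 1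
        · ring
        · push_cast; ring
    _ = _ := by
        rw [h2, mul_div_mul_left]
        exact_mod_cast mul_ne_zero hc' hc'

theorem pf_base (n : ℕ) : pf (base n) = 0 := by
  funext i
  simp [pf]

theorem act_sec {v : Vec n} (hv : v ∈ Cone n) :
    ∃ c : ℂ, c ≠ 0 ∧ v = c • act (bp (pf v)) (base n) := by
  have h : q v < 0 := hv
  have h0 := norm_last_pos hv
  have h1 : 0 < Real.sqrt (- q v) := Real.sqrt_pos.2 (by linarith)
  have hl : v (Fin.last n) ≠ 0 := norm_pos_iff.1 h0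
  refine ⟨v (Fin.last n) * ((Real.sqrt (- q v) / ‖v (Fin.last n)‖ : ℝ) : ℂ),
    mul_ne_zero hl ?_, ?_⟩
  · exact_mod_cast (div_pos h1 h0).ne'
  · rw [act_bp, sqrt_pf hv]
    have h2 : (Real.sqrt (- q v) : ℂ) ≠ 0 := by exact_mod_cast h1.ne'
    have h3 : (‖v (Fin.last n)‖ : ℂ) ≠ 0 := by exact_mod_cast h0.ne'
    have h4 : v (Fin.last n) * star (v (Fin.last n)) = (‖v (Fin.last n)‖ : ℂ) ^ 2 := by
      rw [RCLike.star_def, Complex.mul_conj']
    ext i
    refine Fin.lastCases ?_ (fun i => ?_) i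
    · simp only [Pi.smul_apply, Pi.add_apply, vec_last, base_last, smul_eq_mul]
      push_cast
      field_simp
      ring
    · simp only [Pi.smul_apply, Pi.add_apply, vec_castSucc, base_castSucc, smul_eq_mul, pf]
      push_cast
      field_simp
      linear_combination (- v i.castSucc) * h4

theorem contDiffOn_mat {f : Vec n → Mat (n + 1)} {s : Set (Vec n)}
    (h : ∀ i j, ContDiffOn ℝ (⊤ : ℕ∞) (fun v => f v i j) s) : ContDiffOn ℝ (⊤ : ℕ∞) f s := by
  let L : (Fin (n + 1) → Fin (n + 1) → ℂ) →ₗ[ℝ] Mat (n + 1) :=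
    (Matrix.ofLinearEquiv ℝ).toLinearMap
  have h1 : ContDiffOn ℝ (⊤ : ℕ∞) (fun v => (fun i j => f v i j : Fin (n + 1) → Fin (n + 1) → ℂ)) s :=
    contDiffOn_pi.2 fun i => contDiffOn_pi.2 fun j => h i j
  exact (L.toContinuousLinearMap.contDiff (n := (⊤ : ℕ∞))).comp_contDiffOn h1

theorem contDiffOn_normSq {f : Vec n → ℂ} {s : Set (Vec n)} (h : ContDiffOn ℝ (⊤ : ℕ∞) f s) :
    ContDiffOn ℝ (⊤ : ℕ∞) (fun v => ‖f v‖ ^ 2) s := h.norm_sq ℝ

theorem contDiffOn_star {f : Vec n → ℂ} {s : Set (Vec n)} (h : ContDiffOn ℝ (⊤ : ℕ∞) f s) :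
    ContDiffOn ℝ (⊤ : ℕ∞) (fun v => star (f v)) s :=
  Complex.conjCLE.contDiff.comp_contDiffOn h

theorem contDiffOn_ofReal {f : Vec n → ℝ} {s : Set (Vec n)} (h : ContDiffOn ℝ (⊤ : ℕ∞) f s) :
    ContDiffOn ℝ (⊤ : ℕ∞) (fun v => (f v : ℂ)) s :=
  Complex.ofRealCLM.contDiff.comp_contDiffOn h

theorem contDiffOn_coord (i : Fin (n + 1)) (s : Set (Vec n)) :
    ContDiffOn ℝ (⊤ : ℕ∞) (fun v : Vec n => v i) s := (contDiff_apply ℝ ℂ i).contDiffOn

theorem contDiffOn_q (s : Set (Vec n)) : ContDiffOn ℝ (⊤ : ℕ∞) (q (n := n)) s := by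
  have e : (q (n := n)) = fun v => ∑ i : Fin n, ‖v i.castSucc‖ ^ 2 - ‖v (Fin.last n)‖ ^ 2 :=
    funext q_eq
  rw [e]
  exact (ContDiffOn.sum fun i _ => contDiffOn_normSq (contDiffOn_coord _ s)).sub
    (contDiffOn_normSq (contDiffOn_coord _ s))

theorem contDiffOn_pf (i : Fin n) :
    ContDiffOn ℝ (⊤ : ℕ∞) (fun v : Vec n => pf v i) (Cone n) := by
  have hN : ContDiffOn ℝ (⊤ : ℕ∞)
      (fun v : Vec n => v i.castSucc * star (v (Fin.last n))) (Cone n) :=
    (contDiffOn_coord _ _).mul (contDiffOn_star (contDiffOn_coord _ _))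
  have hD : ContDiffOn ℝ (⊤ : ℕ∞)
      (fun v : Vec n => ((‖v (Fin.last n)‖ * Real.sqrt (- q v) : ℝ) : ℂ)) (Cone n) := by
    refine contDiffOn_ofReal (((contDiffOn_coord _ _).norm ℝ ?_).mul ((contDiffOn_q _).neg.sqrt ?_))
    · intro v hv
      exact norm_pos_iff.1 (norm_last_pos hv)
    · intro v hv
      have : q v < 0 := hv
      exact (neg_pos.2 this).ne'
  have hI : ContDiffOn ℝ (⊤ : ℕ∞)
      (fun v : Vec n => (((‖v (Fin.last n)‖ * Real.sqrt (- q v) : ℝ) : ℂ))⁻¹) (Cone n) := by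
    refine hD.inv fun v hv => ?_
    have : q v < 0 := hv
    have h1 := norm_last_pos hv
    have h2 := Real.sqrt_pos.2 (neg_pos.2 this)
    exact_mod_cast (mul_pos h1 h2).ne'
  have e : (fun v : Vec n => pf v i) = fun v => v i.castSucc * star (v (Fin.last n)) *
      (((‖v (Fin.last n)‖ * Real.sqrt (- q v) : ℝ) : ℂ))⁻¹ := by
    funext v
    rw [pf, div_eq_mul_inv]
  rw [e]
  exact hN.mul hI

theorem contDiffOn_nq : ContDiffOn ℝ (⊤ : ℕ∞) (fun v : Vec n => nq (pf v)) (Cone n) :=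
  ContDiffOn.sum fun i _ => contDiffOn_normSq (contDiffOn_pf i)

theorem contDiffOn_a : ContDiffOn ℝ (⊤ : ℕ∞)
    (fun v : Vec n => 1 / (1 + Real.sqrt (1 + nq (pf v)))) (Cone n) := by
  refine contDiffOn_const.div (contDiffOn_const.add ((contDiffOn_const.add contDiffOn_nq).sqrt ?_)) ?_
  · intro v _
    have := nq_nonneg (pf v)
    positivity
  · intro v _
    positivity

theorem contDiffOn_vec (i : Fin (n + 1)) :
    ContDiffOn ℝ (⊤ : ℕ∞) (fun v : Vec n => vec (pf v) i) (Cone n) := by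
  refine Fin.lastCases ?_ (fun i => ?_) i
  · simp only [vec_last]
    exact contDiffOn_const
  · simp only [vec_castSucc]
    exact contDiffOn_pf i

theorem contDiffOn_sec :
    ContDiffOn ℝ (⊤ : ℕ∞) (fun v : Vec n => (bp (pf v)).toMatrix) (Cone n) := by
  refine contDiffOn_mat fun i j => ?_
  have e : (fun v : Vec n => (bp (pf v)).toMatrix i j) = fun v => (1 : Mat (n + 1)) i j +
      ((1 / (1 + Real.sqrt (1 + nq (pf v))) : ℝ) : ℂ) * (vec (pf v) i * star (vec (pf v) j)) +
      ((1 : ℝ) : ℂ) * (vec (pf v) i * base n j) +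
      ((1 : ℝ) : ℂ) * (base n i * star (vec (pf v) j)) +
      ((1 / (1 + Real.sqrt (1 + nq (pf v))) : ℝ) : ℂ) * ((nq (pf v) : ℝ) : ℂ) *
        (base n i * base n j) := by
    funext v
    rfl
  rw [e]
  exact (((contDiffOn_const.add ((contDiffOn_ofReal contDiffOn_a).mul
    ((contDiffOn_vec i).mul (contDiffOn_star (contDiffOn_vec j))))).add
    (contDiffOn_const.mul ((contDiffOn_vec i).mul contDiffOn_const))).add
    (contDiffOn_const.mul (contDiffOn_const.mul (contDiffOn_star (contDiffOn_vec j))))).add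
    (((contDiffOn_ofReal contDiffOn_a).mul (contDiffOn_ofReal contDiffOn_nq)).mul contDiffOn_const)

end sec

section factor

theorem wt_eq_of_ch {x y : SUGroup n} (h : ch x = ch y) : wt x = wt y := by rw [wt, wt, h]

/-- Polar decomposition. -/
theorem exists_polar (hn : 1 ≤ n) (x : SUGroup n) :
    ∃ (ξ : Fin n → ℂ) (hξ : nq ξ = 1) (t : ℝ) (k : SUGroup n), 0 ≤ t ∧ ch k = 1 ∧
      x = flow ξ hξ t * k := by
  set t : ℝ := Real.arcosh (ch x) with ht
  have hch : Real.cosh t = ch x := Real.cosh_arcosh (one_le_ch x)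
  have ht0 : 0 ≤ t := Real.arcosh_nonneg (one_le_ch x)
  obtain ⟨ξ, hξ, u, hu, h⟩ : ∃ (ξ : Fin n → ℂ) (hξ : nq ξ = 1) (u : ℂ), ‖u‖ = 1 ∧
      act x (base n) = u • act (flow ξ hξ t) (base n) := by
    obtain ⟨c, hc, hv⟩ := act_sec (orbit_mem x)
    set p := pf (act x (base n)) with hp
    have hqv := q_orbit x
    have hc1 : ‖c‖ = 1 := by
      have h1 := congrArg q hv
      rw [q_smul, q_orbit, q_orbit] at h1
      have h2 : ‖c‖ ^ 2 = 1 := by linarith
      exact (pow_eq_one_iff_of_nonneg (norm_nonneg c) two_ne_zero).1 h2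
    have hl : ‖act x (base n) (Fin.last n)‖ = ch x := by
      rw [act, base, mulVec_single_one, ch]
      rfl
    have hnq : 1 + nq p = Real.cosh t ^ 2 := by
      rw [hp, nq_pf (orbit_mem x), hqv, hl, hch]
      simp
    have hsq : Real.sqrt (1 + nq p) = Real.cosh t := by
      rw [hnq, Real.sqrt_sq (Real.cosh_pos t).le]
    have hsinh : nq p = Real.sinh t ^ 2 := by
      rw [Real.sinh_sq]; linarith
    rw [act_bp, hsq] at hv
    have key : ∀ (ξ : Fin n → ℂ) (hξ : nq ξ = 1), act (flow ξ hξ t) (base n) =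
        ((Real.sinh t : ℝ) : ℂ) • vec ξ + ((Real.cosh t : ℝ) : ℂ) • base n := by
      intro ξ hξ
      rw [flow, act_boost, hξ]
      congr 2
      push_cast
      ring
    by_cases h0 : Real.sinh t = 0
    · have hp0 : p = 0 := by
        funext i
        rw [h0, nq, zero_pow two_ne_zero] at hsinh
        have := (Finset.sum_eq_zero_iff_of_nonneg fun i _ => sq_nonneg ‖p i‖).1 hsinh i
          (Finset.mem_univ i)
        exact norm_eq_zero.1 (pow_eq_zero_iff two_ne_zero |>.1 this)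
      refine ⟨Pi.single ⟨0, hn⟩ 1, ?_, c, hc1, ?_⟩
      · rw [nq, Finset.sum_eq_single ⟨0, hn⟩]
        · simp
        · intro i _ hi
          simp [Pi.single_eq_of_ne hi]
        · simp
      · rw [key, h0, hv, hp0, vec_zero, Complex.ofReal_zero, zero_smul]
    · have h0' : ((Real.sinh t : ℝ) : ℂ) ≠ 0 := by exact_mod_cast h0
      refine ⟨fun i => p i / ((Real.sinh t : ℝ) : ℂ), ?_, c, hc1, ?_⟩
      · rw [nq] at hsinh ⊢
        simp only [norm_div, div_pow, ← Finset.sum_div, Complex.norm_real, Real.norm_eq_abs, sq_abs]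
        rw [hsinh, div_self (pow_ne_zero 2 h0)]
      · rw [key, hv]
        congr 2
        ext i
        refine Fin.lastCases ?_ (fun i => ?_) i
        · simp
        · simp only [vec_castSucc, Pi.smul_apply, smul_eq_mul]
          field_simp
  refine ⟨ξ, hξ, t, (flow ξ hξ t)⁻¹ * x, ht0, ?_, ?_⟩
  · rw [ch_eq_one_iff]
    refine ⟨u, hu, ?_⟩
    rw [act_mul, h, act_smul, ← act_mul, inv_mul_cancel, act_one]
  · rw [mul_inv_cancel_left]

end factor

section swap

/-- The reflection in `d`. -/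
noncomputable def refl (d : Vec n) : Mat (n + 1) :=
  1 - (2 / (q d : ℂ)) • vecMulVec d (star d ᵥ* J n)

theorem refl_mulVec (d v : Vec n) : refl d *ᵥ v = v - (2 * herm d v / (q d : ℂ)) • d := by
  rw [refl, sub_mulVec, one_mulVec, smul_mulVec, vecMulVec_mulVec, ← dotProduct_mulVec]
  congr 1
  rw [op_smul_eq_smul, smul_smul, herm]
  congr 1
  ring

theorem herm_refl {d : Vec n} (hd : q d ≠ 0) (v w : Vec n) :
    herm (refl d *ᵥ v) (refl d *ᵥ w) = herm v w := by
  have hd' : (q d : ℂ) ≠ 0 := by exact_mod_cast hd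
  have e : ∀ u w : Vec n, herm u (refl d *ᵥ w) = herm u w -
      (2 * herm d w / (q d : ℂ)) * herm u d := by
    intro u w
    rw [refl_mulVec, sub_eq_add_neg, ← neg_smul, herm_add_right, herm_smul_right]
    ring
  have e' : ∀ u w : Vec n, herm (refl d *ᵥ w) u = herm w u -
      (2 * herm w d / (q d : ℂ)) * herm d u := by
    intro u w
    rw [herm_comm, e, star_sub, star_mul', star_div₀, star_mul', ← herm_comm, ← herm_comm,
      ← herm_comm]
    simp
  rw [e, e', e', herm_self]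
  field_simp
  ring

theorem det_refl {d : Vec n} (hd : q d ≠ 0) : (refl d).det = -1 := by
  have hd' : (q d : ℂ) ≠ 0 := by exact_mod_cast hd
  have h1 : refl d = 1 + (Matrix.of fun i (_ : Unit) => d i) *
      (Matrix.of fun (_ : Unit) j => -(2 / (q d : ℂ)) * (star d ᵥ* J n) j) := by
    ext i j
    simp only [refl, Matrix.sub_apply, Matrix.add_apply, Matrix.smul_apply, Matrix.mul_apply,
      vecMulVec_apply, Matrix.of_apply, Finset.univ_unique, Finset.sum_singleton, smul_eq_mul]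
    ring
  have h2 : (star d ᵥ* J n) ⬝ᵥ d = (q d : ℂ) := by
    rw [← dotProduct_mulVec, ← herm_self, herm]
  rw [h1, det_one_add_mul_comm, det_unique]
  simp only [Matrix.add_apply, Matrix.one_apply_eq, Matrix.mul_apply, Matrix.of_apply, mul_assoc,
    ← Finset.mul_sum]
  rw [dotProduct] at h2
  rw [h2]
  field_simp
  norm_num

theorem pres_of_herm {A : Mat (n + 1)} (h : ∀ v w, herm (A *ᵥ v) (A *ᵥ w) = herm v w) :
    Aᴴ * J n * A = J n := by
  have h1 : ∀ (B : Mat (n + 1)) i j, star (Pi.single i 1 : Vec n) ⬝ᵥ (B *ᵥ Pi.single j 1) = B i j := by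
    intro B i j
    rw [mulVec_single_one, ← Pi.single_star, single_dotProduct]
    simp
  ext i j
  have h2 := h (Pi.single i 1) (Pi.single j 1)
  rw [herm, herm, h1, star_mulVec, ← dotProduct_mulVec, mulVec_mulVec, mulVec_mulVec, h1] at h2
  exact h2

end swap

end Kak

attribute [local simp] Kak.vec_castSucc Kak.vec_last Kak.base_castSucc Kak.base_last

open Kak in
/-- Transitivity. Explicit: for `u = (p, t)`, `t = sqrt (1 + |p|²) > 0` the matrix with blocks
`1 + p p^*/(1+t)`, `p`, `p^*`, `t` is in `SU(n,1)` and maps `e_n` to `u`. -/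
theorem exists_act_eq {v : Vec n} (hv : v ∈ Cone n) :
    ∃ (g : SUGroup n) (c : ℂ), c ≠ 0 ∧ v = c • act g (base n) :=
  ⟨bp (pf v), act_sec hv⟩

open Kak in
/-- Cartan decomposition, in the form: every `x` is a product of `N` elements of length
`(log wt x)/N`. (`x = k a_t k'`, `a_t = (a_{t/N})^N`, `wt (a_t) = e^t`.) -/
theorem exists_factor (hn : 1 ≤ n) (x : SUGroup n) (N : ℕ) (hN : 1 ≤ N) :
    ∃ l : List (SUGroup n), l.length = N ∧ l.prod = x ∧ ∀ y ∈ l, wt y ^ N = wt x := by
  obtain ⟨ξ, hξ, t, k, ht, hk, hx⟩ := exists_polar hn x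
  have hN0 : (N : ℝ) ≠ 0 := by positivity
  set a := flow ξ hξ (t / N) with ha
  have hwa : wt a = Real.exp (t / N) := wt_flow hξ (by positivity)
  have hwx : wt x = Real.exp t := by
    rw [hx, wt_eq_of_ch (ch_mul_of_ch_eq_one hk (flow ξ hξ t)).2, wt_flow hξ ht]
  have hp : wt a ^ N = wt x := by
    rw [hwa, hwx, ← Real.exp_nat_mul, mul_div_cancel₀ _ hN0]
  have hak : wt (a * k) ^ N = wt x := by
    rw [wt_eq_of_ch (ch_mul_of_ch_eq_one hk a).2, hp]
  refine ⟨List.replicate (N - 1) a ++ [a * k], ?_, ?_, ?_⟩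
  · simp; omega
  · rw [List.prod_append, List.prod_replicate, List.prod_singleton, ← mul_assoc, ← pow_succ,
      Nat.sub_add_cancel hN, ha, ← flow_pow, mul_div_cancel₀ _ hN0, hx]
  · intro y hy
    rw [List.mem_append] at hy
    rcases hy with hy | hy
    · rw [List.eq_of_mem_replicate hy, hp]
    · rw [List.mem_singleton.1 hy, hak]

open Kak in
/-- Two-point homogeneity: some `g` exchanges two given points. (Multiply `w` by a phase such that
`herm v w < 0` and normalise; the map exchanging `v` and `w` and fixing the orthogonal complement is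
an isometry; correct the determinant by a scalar.) -/
theorem exists_swap {v w : Vec n} (hv : v ∈ Cone n) (hw : w ∈ Cone n) :
    ∃ (g : SUGroup n) (a b : ℂ), a ≠ 0 ∧ b ≠ 0 ∧ act g v = a • w ∧ act g w = b • v := by
  have hqv : q v < 0 := hv
  have hqw : q w < 0 := hw
  have hh := herm_ne_zero hv hw
  have hn0 : ‖herm v w‖ ≠ 0 := norm_ne_zero_iff.2 hh
  have hn1 : 0 < ‖herm v w‖ := norm_pos_iff.2 hh
  -- the normalised second vector
  set r : ℝ := Real.sqrt (q v / q w) with hr
  have hr0 : 0 < r := Real.sqrt_pos.2 (div_pos_of_neg_of_neg hqv hqw)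
  have hr2 : r ^ 2 * q w = q v := by
    rw [hr, Real.sq_sqrt (div_pos_of_neg_of_neg hqv hqw).le, div_mul_cancel₀ _ hqw.ne]
  set s : ℂ := (r / ‖herm v w‖ : ℝ) * star (herm v w) with hs
  have hs0 : s ≠ 0 := by
    refine mul_ne_zero ?_ (star_ne_zero.2 hh)
    exact_mod_cast (div_pos hr0 hn1).ne'
  have hns : ‖s‖ = r := by
    rw [hs, norm_mul, norm_star, Complex.norm_real, Real.norm_eq_abs,
      abs_of_pos (div_pos hr0 hn1), div_mul_cancel₀ _ hn0]
  have hq1 : q (s • w) = q v := by rw [q_smul, hns, hr2]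
  have hh1 : herm v (s • w) = ((r * ‖herm v w‖ : ℝ) : ℂ) := by
    rw [herm_smul_right, hs, mul_assoc, RCLike.star_def, Complex.conj_mul']
    push_cast
    field_simp
  set x : ℝ := r * ‖herm v w‖ with hx
  have hx0 : 0 < x := mul_pos hr0 hn1
  set w1 := s • w with hw1
  set d := v - w1 with hd
  have hh2 : herm w1 v = (x : ℂ) := by
    rw [herm_comm, hh1, RCLike.star_def, Complex.conj_ofReal]
  have hde : d = v + (-1 : ℂ) • w1 := by rw [hd]; module
  have hdv : herm d v = ((q v - x : ℝ) : ℂ) := by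
    rw [hde, herm_add_left, herm_smul_left, herm_self, hh2]
    push_cast
    simp
    ring
  have hdw : herm d w1 = ((x - q v : ℝ) : ℂ) := by
    rw [hde, herm_add_left, herm_smul_left, herm_self, hh1, hq1]
    push_cast
    simp
    ring
  have hqd : q d = 2 * (q v - x) := by
    have h1 : herm d d = ((2 * (q v - x) : ℝ) : ℂ) := by
      conv_lhs => rw [hde, herm_add_right, herm_smul_right, ← hde, hdv, hdw]
      push_cast
      ring
    rw [herm_self] at h1
    exact_mod_cast h1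
  have hqd0 : q d ≠ 0 := by
    rw [hqd]
    have : q v - x < 0 := by linarith
    exact (mul_neg_of_pos_of_neg two_pos this).ne
  have hqd0' : ((q v - x : ℝ) : ℂ) ≠ 0 := by
    have : q v - x < 0 := by linarith
    exact_mod_cast this.ne
  -- the scalar
  obtain ⟨c, hc⟩ : ∃ c : ℂ, c ^ (n + 1) = -1 := IsAlgClosed.exists_pow_nat_eq _ (Nat.succ_pos n)
  have hc1 : ‖c‖ = 1 := by
    have h1 := congrArg norm hc
    rw [norm_pow, norm_neg, norm_one] at h1
    exact (pow_eq_one_iff_of_nonneg (norm_nonneg c) (Nat.succ_ne_zero n)).1 h1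
  have hc0 : c ≠ 0 := by
    intro h
    rw [h, norm_zero] at hc1
    exact zero_ne_one hc1
  have hcc : star c * c = 1 := by
    rw [RCLike.star_def, Complex.conj_mul', hc1]; simp
  have hdet : (c • refl d).det = 1 := by
    rw [det_smul, det_refl hqd0, Fintype.card_fin, hc]; norm_num
  have hpres : (c • refl d)ᴴ * J n * (c • refl d) = J n := by
    apply pres_of_herm
    intro v w
    rw [smul_mulVec, smul_mulVec, herm_smul_left, herm_smul_right, herm_refl hqd0, ← mul_assoc,
      hcc, one_mul]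
  have e1 : refl d *ᵥ v = w1 := by
    rw [refl_mulVec, hdv, hqd]
    have : (2 * ((q v - x : ℝ) : ℂ) / ((2 * (q v - x) : ℝ) : ℂ)) = 1 := by
      rw [Complex.ofReal_mul, Complex.ofReal_ofNat]
      exact div_self (mul_ne_zero two_ne_zero hqd0')
    rw [this, one_smul, hd, sub_sub_cancel]
  have e2 : refl d *ᵥ w1 = v := by
    rw [refl_mulVec, hdw, hqd]
    have : (2 * ((x - q v : ℝ) : ℂ) / ((2 * (q v - x) : ℝ) : ℂ)) = -1 := by
      rw [div_eq_iff (by rw [Complex.ofReal_mul, Complex.ofReal_ofNat]; exact mul_ne_zero two_ne_zero hqd0')]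
      push_cast
      ring
    rw [this, neg_one_smul, hd]
    abel
  refine ⟨ofMatrix (c • refl d) hdet hpres, c * s, c * s⁻¹, mul_ne_zero hc0 hs0,
    mul_ne_zero hc0 (inv_ne_zero hs0), ?_, ?_⟩
  · rw [act, toMatrix_ofMatrix, smul_mulVec, e1, hw1, smul_smul]
  · have h3 : w = s⁻¹ • w1 := by rw [hw1, smul_smul, inv_mul_cancel₀ hs0, one_smul]
    rw [act, toMatrix_ofMatrix, smul_mulVec]
    conv_lhs => rw [h3, mulVec_smul, e2, smul_smul]

open Kak in
/-- The one-parameter group of `xmat ξ`, `|ξ| = 1`: `b t = 1 + (cosh t - 1) (ξ ξ^* + e_n e_n^*) +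
sinh t (ξ e_n^* + e_n ξ^*)`. -/
theorem exists_flow (ξ : Fin n → ℂ) (hξ : ∑ i, ‖ξ i‖ ^ 2 = 1) :
    ∃ b : ℝ → SUGroup n, b 0 = 1 ∧ (∀ s t, b (s + t) = b s * b t) ∧ Continuous b ∧
      (∀ t, ch (b t) = Real.cosh t) ∧
      ∀ t, HasDerivAt (fun t => (b t).toMatrix) ((b t).toMatrix * xmat ξ) t :=
  ⟨flow ξ hξ, flow_zero hξ, flow_add hξ, continuous_flow hξ, ch_flow hξ, hasDerivAt_flow hξ⟩

open Kak in
/-- The cone is connected. -/
theorem isPreconnected_cone (n : ℕ) : IsPreconnected (Cone n) := by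
  have h1 : IsPreconnected ({0}ᶜ : Set ℂ) :=
    (isConnected_compl_singleton_of_one_lt_rank (by simp) 0).isPreconnected
  have h2 : IsPreconnected {z : EuclideanSpace ℂ (Fin n) | ‖z‖ < 1} := by
    have : {z : EuclideanSpace ℂ (Fin n) | ‖z‖ < 1} = Metric.ball 0 1 := by
      ext z; simp
    rw [this]
    exact (convex_ball (0 : EuclideanSpace ℂ (Fin n)) 1).isPreconnected
  have h3 := (h1.prod h2).image
    (fun x : ℂ × EuclideanSpace ℂ (Fin n) => (x.1 • (vec (fun i => x.2 i) + base n) : Vec n)) ?_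
  · convert h3 using 1
    ext v
    constructor
    · intro hv
      have h : q v < 0 := hv
      have h0 := norm_last_pos hv
      have hl : v (Fin.last n) ≠ 0 := norm_pos_iff.1 h0
      refine ⟨(v (Fin.last n), WithLp.toLp 2 (fun i : Fin n => v i.castSucc / v (Fin.last n))), ⟨hl, ?_⟩, ?_⟩
      · show ‖WithLp.toLp 2 (fun i : Fin n => v i.castSucc / v (Fin.last n))‖ < 1
        rw [EuclideanSpace.norm_eq, Real.sqrt_lt' one_pos, one_pow]
        simp only [norm_div, div_pow, ← Finset.sum_div]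
        rw [div_lt_one (by positivity)]
        rw [q_eq] at h
        linarith
      · ext i
        refine Fin.lastCases ?_ (fun i => ?_) i
        · simp
        · simp
          field_simp
    · rintro ⟨⟨c, z⟩, ⟨hc, hz⟩, rfl⟩
      have hc' : c ≠ 0 := hc
      refine smul_mem_cone hc' ?_
      have hz' : ‖z‖ < 1 := hz
      show q _ < 0
      rw [q_eq]
      rw [EuclideanSpace.norm_eq, Real.sqrt_lt' one_pos, one_pow] at hz'
      simp only [Pi.add_apply, vec_castSucc, base_castSucc, vec_last, base_last, add_zero, zero_add,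
        norm_one, one_pow]
      linarith
  · refine Continuous.continuousOn (continuous_fst.smul (Continuous.add ?_ continuous_const))
    refine continuous_pi fun i => ?_
    refine Fin.lastCases ?_ (fun i => ?_) i
    · simp only [vec_last]
      exact continuous_const
    · simp only [vec_castSucc]
      fun_prop

open Kak in
/-- A smooth section: `sec v` maps the base point to a multiple of `v` (the formula of
`exists_act_eq`); it is homogeneous and its matrix is a smooth function on the cone. -/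
theorem exists_sec (n : ℕ) : ∃ sec : Vec n → SUGroup n,
    (∀ v ∈ Cone n, ∃ c : ℂ, c ≠ 0 ∧ v = c • act (sec v) (base n)) ∧
    (∀ v ∈ Cone n, ∀ c : ℂ, c ≠ 0 → sec (c • v) = sec v) ∧
    ContDiffOn ℝ (⊤ : ℕ∞) (fun v => (sec v).toMatrix) (Cone n) ∧
    sec (base n) = 1 :=
  ⟨fun v => bp (pf v), fun _ hv => act_sec hv, fun v _ c hc => by simp only [pf_smul v hc],
    contDiffOn_sec, by simp only [pf_base]; exact bp_zero⟩

end Pool.Agent.Lib.MP_5d4057_al.HM
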