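import Pool.Agent.Lib.MP_5d4057_al.HM.AppStd
import Pool.Agent.Lib.MP_5d4057_al.HM.Kak

/-! Section F: holomorphic functions and sections on a compact quotient. -/

set_option autoImplicit false

namespace Pool.Agent.Lib.MP_5d4057_al.HM

open Matrix Filter Topology Pool.Agent.Lib.MP_5d4057_al Pool.Agent.Lib.MP_5d4057_al.Hyb

open scoped ComplexOrder MatrixOrder Matrix.Norms.L2Operator

variable {n : ℕ} {E : Type} [NormedAddCommGroup E] [NormedSpace ℂ E]

/-- A real differentiable function with vanishing antilinear derivative is complex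
differentiable. -/
theorem differentiableAt_of_pb {f : Vec n → E} {v : Vec n} (hd : DifferentiableAt ℝ f v)
    (h : ∀ ξ, pb f v ξ = 0) : DifferentiableAt ℂ f v := by
  have hI : ∀ ξ, fderiv ℝ f v (Complex.I • ξ) = Complex.I • fderiv ℝ f v ξ := by
    intro ξ
    have h1 := (hasZ hd ξ).one
    have h2 := (hasZ hd ξ).I
    rw [h ξ, add_zero] at h1
    rw [h ξ, sub_zero] at h2
    rw [h2, h1]
  have hlin : ∀ (c : ℂ) (ξ : Vec n), fderiv ℝ f v (c • ξ) = c • fderiv ℝ f v ξ := by
    intro c ξ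
    have h1 : c • ξ = (c.re : ℝ) • ξ + (c.im : ℝ) • (Complex.I • ξ) := by
      conv_lhs => rw [← Complex.re_add_im c]
      rw [add_smul, mul_smul]
      rfl
    have h2 : c • fderiv ℝ f v ξ = (c.re : ℝ) • fderiv ℝ f v ξ +
        (c.im : ℝ) • (Complex.I • fderiv ℝ f v ξ) := by
      conv_lhs => rw [← Complex.re_add_im c]
      rw [add_smul, mul_smul]
      rfl
    rw [h1, h2, map_add, map_smul, map_smul, hI]
  let L : Vec n →L[ℂ] E :=
    { toFun := fun ξ => fderiv ℝ f v ξ
      map_add' := fun a b => map_add _ a b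
      map_smul' := hlin
      cont := (fderiv ℝ f v).continuous }
  have hL : L.restrictScalars ℝ = fderiv ℝ f v := by
    ext ξ
    rfl
  exact (hasFDerivAt_of_restrictScalars ℝ hd.hasFDerivAt hL).differentiableAt

variable {Γ : Subgroup (SUGroup n)}

/-- A continuous invariant homogeneous function attains its maximum. -/
theorem exists_max (hΓ : Coc Γ) {f : Vec n → ℝ} (hc : ContinuousOn f (Cone n))
    (hh : Homog f) (hinv : ∀ γ ∈ Γ, ∀ v ∈ Cone n, f (act γ v) = f v) :
    ∃ v₀ ∈ Cone n, ∀ v ∈ Cone n, f v ≤ f v₀ := by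
  obtain ⟨F, hF, hcov⟩ := hΓ.cpt
  have hne : F.Nonempty := by
    obtain ⟨γ, -, h⟩ := hcov 1
    exact ⟨_, h⟩
  have hcont : ContinuousOn (fun g : SUGroup n => f (act g (base n))) F :=
    (hc.comp_continuous continuous_orbit orbit_mem).continuousOn
  obtain ⟨g₀, hg₀, hmax⟩ := hF.exists_isMaxOn hne hcont
  refine ⟨act g₀ (base n), orbit_mem g₀, ?_⟩
  intro v hv
  obtain ⟨g, c, hc0, rfl⟩ := exists_act_eq hv
  obtain ⟨γ, hγ, hγg⟩ := hcov g
  rw [hh c hc0 _ (orbit_mem g), ← hinv γ hγ _ (orbit_mem g), ← act_mul]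
  exact hmax hγg

/-- Holomorphic invariant functions are constant. -/
theorem hol_const {f : Vec n → ℂ} (hΓ : Coc Γ) (hd : ∀ v ∈ Cone n, DifferentiableAt ℝ f v)
    (hpb : ∀ v ∈ Cone n, ∀ ξ, pb f v ξ = 0) (hh : Homog f)
    (hinv : ∀ γ ∈ Γ, ∀ v ∈ Cone n, f (act γ v) = f v) : ∀ v ∈ Cone n, f v = f (base n) := by
  have hcont : ContinuousOn f (Cone n) := fun v hv => (hd v hv).continuousAt.continuousWithinAt
  obtain ⟨v₀, hv₀, hmax⟩ := exists_max hΓ (f := fun v => ‖f v‖) hcont.norm
    (fun c hc v hv => congrArg norm (hh c hc v hv))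
    (fun γ hγ v hv => congrArg norm (hinv γ hγ v hv))
  have hdC : DifferentiableOn ℂ f (Cone n) := fun v hv =>
    (differentiableAt_of_pb (hd v hv) (hpb v hv)).differentiableWithinAt
  have h1 := Complex.eqOn_of_isPreconnected_of_isMaxOn_norm (isPreconnected_cone n)
    (isOpen_cone n) hdC hv₀ (fun v hv => hmax v hv)
  intro v hv
  have h2 : f v = f v₀ := h1 hv
  have h3 : f (base n) = f v₀ := h1 (base_mem n)
  rw [h2, h3]

theorem q_nonneg_of_orth {v w : Vec n} (hv : v ∈ Cone n) (h : herm v w = 0) : 0 ≤ q w := by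
  by_cases hw : w = 0
  · rw [hw]
    unfold q herm
    simp
  · exact (q_pos_of_orth hv h hw).le

theorem q_sub_smul (a b : Vec n) (c : ℂ) :
    (q (a - c • b) : ℂ) = (q a : ℂ) - c * herm a b - star c * herm b a +
      star c * c * (q b : ℂ) := by
  rw [← herm_self, ← herm_self, ← herm_self, sub_eq_add_neg, ← neg_smul, herm_add_right,
    herm_add_left, herm_add_left, herm_smul_right, herm_smul_right, herm_smul_left,
    herm_smul_left, star_neg]
  ring

/-- Cauchy-Schwarz on the orthogonal complement of a negative vector. -/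
theorem cauchy_orth {w a b : Vec n} (hw : w ∈ Cone n) (ha : herm w a = 0) (hb : herm w b = 0) :
    ‖herm a b‖ ^ 2 ≤ q a * q b := by
  by_cases hb0 : b = 0
  · have h1 : herm a b = 0 := by rw [hb0]; unfold herm; simp
    have h2 : q b = 0 := by rw [hb0]; unfold q herm; simp
    rw [h1, h2]
    simp
  · have hqb := q_pos_of_orth hw hb hb0
    set c : ℂ := herm b a / (q b : ℂ) with hc
    have horth : herm w (a - c • b) = 0 := by
      rw [sub_eq_add_neg, ← neg_smul, herm_add_right, herm_smul_right, ha, hb]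
      simp
    have h1 := q_nonneg_of_orth hw horth
    have hqc : (q b : ℂ) ≠ 0 := by exact_mod_cast hqb.ne'
    have h2 : (q (a - c • b) : ℂ) = ((q a - ‖herm a b‖ ^ 2 / q b : ℝ) : ℂ) := by
      rw [q_sub_smul]
      have e1 : herm b a = star (herm a b) := herm_comm a b
      have e2 : herm a b * star (herm a b) = ((‖herm a b‖ ^ 2 : ℝ) : ℂ) := by
        rw [RCLike.star_def, Complex.mul_conj, Complex.normSq_eq_norm_sq]
      have e3 : star (q b : ℂ) = (q b : ℂ) := Complex.conj_ofReal _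
      have e4 : star c = herm a b / (q b : ℂ) := by
        rw [hc, star_div₀, e1, star_star, e3]
      rw [e4, hc, e1]
      push_cast at e2 ⊢
      field_simp
      linear_combination (-1 : ℂ) * e2
    have h3 : q (a - c • b) = q a - ‖herm a b‖ ^ 2 / q b := by exact_mod_cast h2
    rw [h3] at h1
    have h4 : ‖herm a b‖ ^ 2 / q b ≤ q a := by linarith
    rwa [div_le_iff₀ hqb] at h4

theorem continuous_q : Continuous (q (n := n)) := by
  have : (q (n := n)) = fun v => ∑ i : Fin n, ‖v i.castSucc‖ ^ 2 - ‖v (Fin.last n)‖ ^ 2 := by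
    funext v
    exact q_eq v
  rw [this]
  fun_prop

/-- A section `y` of the tangent bundle, orthogonal to `v`, with
`∂̄_η y = -(⟨η, y⟩ / q v) v`, vanishes on a compact quotient. -/
theorem sec_zero (hΓ : Coc Γ) {y : Vec n → Vec n} (hd : ∀ v ∈ Cone n, DifferentiableAt ℝ y v)
    (hh : Homog y) (hinv : ∀ γ ∈ Γ, ∀ v ∈ Cone n, y (act γ v) = act γ (y v))
    (horth : ∀ v ∈ Cone n, herm v (y v) = 0)
    (hpb : ∀ v ∈ Cone n, ∀ η, pb y v η = -((herm η (y v) / (q v : ℂ)) • v)) :
    ∀ v ∈ Cone n, y v = 0 := by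
  have hcont : ContinuousOn y (Cone n) := fun v hv => (hd v hv).continuousAt.continuousWithinAt
  obtain ⟨v₀, hv₀, hmax⟩ := exists_max hΓ (f := fun v => q (y v))
    (continuous_q.comp_continuousOn hcont) (fun c hc v hv => congrArg q (hh c hc v hv))
    (fun γ hγ v hv => (congrArg q (hinv γ hγ v hv)).trans (q_act _ _))
  -- it suffices that `y v₀ = 0`
  suffices hy0 : y v₀ = 0 by
    intro v hv
    by_contra hne
    have h1 := q_pos_of_orth hv (horth v hv) hne
    have h2 := hmax v hv
    rw [hy0] at h2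
    have h3 : q (0 : Vec n) = 0 := by unfold q herm; simp
    rw [h3] at h2
    linarith
  by_contra hne
  set y₀ := y v₀ with hy₀
  have hf₀ : 0 < q y₀ := q_pos_of_orth hv₀ (horth v₀ hv₀) hne
  have hq₀ : q v₀ < 0 := hv₀
  have ho₀ : herm v₀ y₀ = 0 := horth v₀ hv₀
  have ho₀' : herm y₀ v₀ = 0 := by rw [herm_comm, ho₀, star_zero]
  -- the holomorphic function
  set Φ : Vec n → ℂ := fun w => herm v₀ w * herm y₀ (y w) - herm v₀ (y w) * herm y₀ w with hΦ
  have hΦd : ∀ v ∈ Cone n, DifferentiableAt ℂ Φ v := by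
    intro v hv
    have hz : ∀ ξ, HasZ Φ v ξ (herm v₀ v * herm y₀ (pz y v ξ) + herm v₀ ξ * herm y₀ (y v) -
        (herm v₀ (y v) * herm y₀ ξ + herm v₀ (pz y v ξ) * herm y₀ v))
        (herm v₀ v * herm y₀ (pb y v ξ) + 0 * herm y₀ (y v) -
        (herm v₀ (y v) * 0 + herm v₀ (pb y v ξ) * herm y₀ v)) := by
      intro ξ
      have h1 : HasZ (fun w => herm y₀ (y w)) v ξ (herm y₀ (pz y v ξ)) (herm y₀ (pb y v ξ)) :=
        (hasZ (hd v hv) ξ).clm (hmL n (star y₀))
      have h2 : HasZ (fun w => herm v₀ (y w)) v ξ (herm v₀ (pz y v ξ)) (herm v₀ (pb y v ξ)) :=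
        (hasZ (hd v hv) ξ).clm (hmL n (star v₀))
      exact ((hasZ_herm_left v₀ v ξ).mul' h1).sub (h2.mul' (hasZ_herm_left y₀ v ξ))
    refine differentiableAt_of_pb (hz 0).diff ?_
    intro ξ
    rw [(hz ξ).pb, hpb v hv ξ, ← neg_smul, herm_smul_right, herm_smul_right]
    ring
  -- restriction to the complex line
  set line : ℂ → Vec n := fun z => v₀ + z • y₀ with hline
  have hlc : Continuous line := by fun_prop
  have hlC : ∀ᶠ z in 𝓝 (0 : ℂ), line z ∈ Cone n := by
    have : line 0 ∈ Cone n := by rw [hline]; simpa using hv₀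
    exact hlc.continuousAt.eventually_mem ((isOpen_cone n).mem_nhds this)
  have hqline : ∀ z, q (line z) = q v₀ + ‖z‖ ^ 2 * q y₀ := by
    intro z
    have h1 : (q (line z) : ℂ) = ((q v₀ + ‖z‖ ^ 2 * q y₀ : ℝ) : ℂ) := by
      rw [← herm_self, hline]
      simp only []
      rw [herm_add_right, herm_add_left, herm_add_left, herm_smul_right, herm_smul_right,
        herm_smul_left, herm_smul_left, ho₀, ho₀', herm_self, herm_self]
      have e2 : z * star z = ((‖z‖ ^ 2 : ℝ) : ℂ) := by
        rw [RCLike.star_def, Complex.mul_conj, Complex.normSq_eq_norm_sq]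
      push_cast at e2 ⊢
      linear_combination (q y₀ : ℂ) * e2
    exact_mod_cast h1
  -- the bound
  have hbound : ∀ z, line z ∈ Cone n → ‖Φ (line z)‖ ^ 2 ≤ q y₀ ^ 2 * (q v₀ * q (line z)) := by
    intro z hz
    set w := line z with hw
    have how := horth w hz
    have hwv : herm v₀ w = (q v₀ : ℂ) := by
      rw [hw, hline]
      simp only []
      rw [herm_add_right, herm_smul_right, ho₀, herm_self]
      ring
    have hwy : herm y₀ w = z * (q y₀ : ℂ) := by
      rw [hw, hline]
      simp only []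
      rw [herm_add_right, herm_smul_right, ho₀', herm_self]
      ring
    have hq0c : (q v₀ : ℂ) ≠ 0 := by exact_mod_cast hq₀.ne
    -- the vector in the plane orthogonal to `w`
    set c : ℂ := -(star z * (q y₀ : ℂ) / (q v₀ : ℂ)) with hc
    set x : Vec n := y₀ + c • v₀ with hx
    have hwv' : herm w v₀ = (q v₀ : ℂ) := by
      rw [herm_comm, hwv]
      exact Complex.conj_ofReal _
    have hwy' : herm w y₀ = star z * (q y₀ : ℂ) := by
      rw [herm_comm, hwy, star_mul]
      have : star (q y₀ : ℂ) = (q y₀ : ℂ) := Complex.conj_ofReal _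
      rw [this]
      ring
    have hwx : herm w x = 0 := by
      rw [hx, herm_add_right, herm_smul_right, hwv', hwy', hc]
      field_simp
      ring
    have hstarc : star c = -(z * (q y₀ : ℂ) / (q v₀ : ℂ)) := by
      rw [hc, star_neg, star_div₀, star_mul, star_star]
      have e1 : star (q y₀ : ℂ) = (q y₀ : ℂ) := Complex.conj_ofReal _
      have e2 : star (q v₀ : ℂ) = (q v₀ : ℂ) := Complex.conj_ofReal _
      rw [e1, e2]
      ring
    have hxy : herm x (y w) = Φ w / (q v₀ : ℂ) := by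
      rw [hΦ]
      simp only []
      rw [hwv, hwy, hx, herm_add_left, herm_smul_left, hstarc]
      field_simp
      ring
    have hqx : q x = q y₀ * q w / q v₀ := by
      have h1 : (q x : ℂ) = ((q y₀ * q w / q v₀ : ℝ) : ℂ) := by
        rw [← herm_self, hx, herm_add_right, herm_add_left, herm_add_left, herm_smul_right,
          herm_smul_right, herm_smul_left, herm_smul_left, ho₀, ho₀', herm_self, herm_self,
          hstarc, hc, hqline z]
        have e2 : z * star z = ((‖z‖ ^ 2 : ℝ) : ℂ) := by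
          rw [RCLike.star_def, Complex.mul_conj, Complex.normSq_eq_norm_sq]
        push_cast at e2 ⊢
        field_simp
        linear_combination (q y₀ : ℂ) * e2
      exact_mod_cast h1
    have h1 := cauchy_orth hz hwx how
    rw [hxy, hqx, norm_div, div_pow] at h1
    have h2 : ‖(q v₀ : ℂ)‖ ^ 2 = q v₀ ^ 2 := by
      rw [Complex.norm_real, Real.norm_eq_abs, sq_abs]
    rw [h2] at h1
    have h3 : 0 < q v₀ ^ 2 := by
      have := hq₀.ne
      positivity
    rw [div_le_iff₀ h3] at h1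
    have h4 : 0 ≤ q y₀ * q w / q v₀ * q v₀ ^ 2 := by
      have : q w < 0 := hz
      have h5 : q y₀ * q w / q v₀ * q v₀ ^ 2 = q y₀ * (q w * q v₀) := by
        field_simp
      rw [h5]
      have h6 : 0 < q w * q v₀ := mul_pos_of_neg_of_neg this hq₀
      positivity
    have h5 := hmax w hz
    calc ‖Φ w‖ ^ 2 ≤ q y₀ * q w / q v₀ * q (y w) * q v₀ ^ 2 := h1
      _ = q y₀ * q w / q v₀ * q v₀ ^ 2 * q (y w) := by ring
      _ ≤ q y₀ * q w / q v₀ * q v₀ ^ 2 * q y₀ := mul_le_mul_of_nonneg_left h5 h4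
      _ = q y₀ ^ 2 * (q v₀ * q w) := by
          have : q v₀ ≠ 0 := hq₀.ne
          field_simp
  have hΦ0 : ‖Φ (line 0)‖ ^ 2 = q y₀ ^ 2 * (q v₀ * q v₀) := by
    have e0 : line 0 = v₀ := by rw [hline]; simp
    rw [e0, hΦ]
    simp only []
    rw [herm_self, ← hy₀, herm_self, ho₀, zero_mul, sub_zero, norm_mul, Complex.norm_real,
      Complex.norm_real, mul_pow, Real.norm_eq_abs, Real.norm_eq_abs, sq_abs, sq_abs]
    ring
  have hdiff : ∀ᶠ z in 𝓝 (0 : ℂ), DifferentiableAt ℂ (fun z => Φ (line z)) z := by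
    filter_upwards [hlC] with z hz
    have h1 : DifferentiableAt ℂ line z := by
      rw [hline]
      fun_prop
    exact (hΦd _ hz).comp z h1
  have hloc : IsLocalMax (norm ∘ fun z => Φ (line z)) (0 : ℂ) := by
    filter_upwards [hlC] with z hz
    have h1 := hbound z hz
    have h2 : q v₀ * q (line z) ≤ q v₀ * q v₀ := by
      rw [hqline z]
      have : 0 ≤ ‖z‖ ^ 2 * q y₀ := by positivity
      nlinarith
    have h3 : ‖Φ (line z)‖ ^ 2 ≤ ‖Φ (line 0)‖ ^ 2 := by
      rw [hΦ0]
      exact h1.trans (mul_le_mul_of_nonneg_left h2 (by positivity))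
    exact le_of_sq_le_sq h3 (norm_nonneg _)
  have hconst := Complex.eventually_eq_of_isLocalMax_norm hdiff hloc
  -- contradiction
  obtain ⟨ε, hε, hball⟩ := Metric.eventually_nhds_iff.1 (hconst.and hlC)
  obtain ⟨hz1, hz2⟩ := hball (y := ((ε / 2 : ℝ) : ℂ)) (by
    rw [dist_zero_right, Complex.norm_real, Real.norm_of_nonneg (by positivity)]
    linarith)
  have h1 := hbound _ hz2
  rw [hz1, hΦ0, hqline _, Complex.norm_real, Real.norm_of_nonneg (by positivity)] at h1
  have hz3 : 0 < (ε / 2) ^ 2 := by positivity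
  have h2 : 0 < q y₀ ^ 2 := by positivity
  have h3 : q v₀ * q v₀ ≤ q v₀ * (q v₀ + (ε / 2) ^ 2 * q y₀) := le_of_mul_le_mul_left h1 h2
  have h4 : 0 < (ε / 2) ^ 2 * q y₀ := by positivity
  nlinarith

end Pool.Agent.Lib.MP_5d4057_al.HM
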