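import Pool.Agent.Lib.MP_5d4057_al.HM.Defs

namespace Pool.Agent.Lib.MP_5d4057_al.HM

open Matrix MeasureTheory Filter Topology Pool.Agent.Lib.MP_5d4057_al Pool.Agent.Lib.MP_5d4057_al.Hyb

open scoped ComplexOrder MatrixOrder Matrix.Norms.L2Operator

variable {n m : ℕ} {E : Type} [NormedAddCommGroup E] [NormedSpace ℝ E]

private theorem exists_fac {A : Mat m} (hA : A.PosSemidef) : ∃ B : Mat m, A = Bᴴ * B := by
  obtain ⟨B, hB⟩ := CStarAlgebra.nonneg_iff_eq_star_mul_self.1 hA.nonneg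
  exact ⟨B, hB⟩

private theorem algMap_eq (c : ℝ) : algebraMap ℝ (Mat m) c = (c : ℂ) • (1 : Mat m) := by
  rw [Algebra.algebraMap_eq_smul_one]
  ext i j
  simp [Matrix.smul_apply]

theorem le_trace_smul_one {A : Mat m} (hA : A.PosSemidef) :
    A ≤ (A.trace.re : ℂ) • (1 : Mat m) := by
  rw [Matrix.le_iff]
  obtain ⟨U, hU⟩ : ∃ U : Mat m, U = (hA.1.eigenvectorUnitary : Mat m) := ⟨_, rfl⟩
  have hU1 : U * Uᴴ = 1 := by
    rw [hU]
    exact Unitary.coe_mul_star_self _
  have hU2 : Uᴴ * U = 1 := by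
    rw [hU]
    exact Unitary.coe_star_mul_self _
  have hsp : A = U * diagonal (fun i => (hA.1.eigenvalues i : ℂ)) * Uᴴ := by
    have h := hA.1.spectral_theorem
    rw [Unitary.conjStarAlgAut_apply] at h
    rw [hU]
    exact h
  have htr : A.trace.re = ∑ i, hA.1.eigenvalues i := by
    have h : A.trace = ∑ i, (hA.1.eigenvalues i : ℂ) := by
      conv_lhs => rw [hsp]
      rw [trace_mul_cycle, hU2, one_mul, trace_diagonal]
    rw [h, ← Complex.ofReal_sum, Complex.ofReal_re]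
  have key : (A.trace.re : ℂ) • (1 : Mat m) - A =
      U * diagonal (fun i => ((A.trace.re - hA.1.eigenvalues i : ℝ) : ℂ)) * Uᴴ := by
    have h1 : diagonal (fun i => ((A.trace.re - hA.1.eigenvalues i : ℝ) : ℂ)) =
        (A.trace.re : ℂ) • (1 : Mat m) - diagonal (fun i => (hA.1.eigenvalues i : ℂ)) := by
      rw [← diagonal_one, ← diagonal_smul, diagonal_sub]
      congr 1
      ext i
      simp
    rw [h1, mul_sub, sub_mul, ← hsp, mul_smul_comm, mul_one, smul_mul_assoc, hU1]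
  rw [key]
  refine PosSemidef.mul_mul_conjTranspose_same (PosSemidef.diagonal fun i => ?_) U
  rw [Pi.zero_apply, Complex.zero_le_real, htr, sub_nonneg]
  exact Finset.single_le_sum (f := fun i => hA.1.eigenvalues i)
    (fun j _ => hA.eigenvalues_nonneg j) (Finset.mem_univ i)

/-- The norm of a positive matrix is at most its trace. -/
theorem norm_le_trace {A : Mat m} (hA : A.PosSemidef) : ‖A‖ ≤ A.trace.re := by
  have h0 : 0 ≤ A.trace.re := (Complex.le_def.1 hA.trace_nonneg).1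
  rw [CStarAlgebra.norm_le_iff_le_algebraMap A h0 hA.nonneg, algMap_eq]
  exact le_trace_smul_one hA

theorem trace_le_norm (A : Mat m) : A.trace.re ≤ m * ‖A‖ := by
  have h1 : ∀ i, (A i i).re ≤ ‖A‖ := by
    intro i
    have h := A.l2_opNorm_mulVec (WithLp.toLp 2 (Pi.single i (1 : ℂ)))
    have h2 : ‖(WithLp.toLp 2 (A *ᵥ (Pi.single i (1 : ℂ))) : EuclideanSpace ℂ (Fin m))‖ ≤ ‖A‖ := by
      refine h.trans (le_of_eq ?_)
      simp
    have h3 := PiLp.norm_apply_le
      (WithLp.toLp 2 (A *ᵥ (Pi.single i (1 : ℂ))) : EuclideanSpace ℂ (Fin m)) i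
    have h4 : (A *ᵥ (Pi.single i (1 : ℂ))) i = A i i := by simp
    calc (A i i).re ≤ ‖A i i‖ := Complex.re_le_norm _
      _ = ‖(A *ᵥ (Pi.single i (1 : ℂ))) i‖ := by rw [h4]
      _ ≤ ‖A‖ := h3.trans h2
  calc A.trace.re = ∑ i, (A i i).re := by
        rw [trace, Complex.re_sum]
        rfl
    _ ≤ ∑ _i : Fin m, ‖A‖ := Finset.sum_le_sum fun i _ => h1 i
    _ = m * ‖A‖ := by simp

/-- Loewner order and quadratic forms. -/
theorem le_iff_re {A B : Mat m} (hA : A.IsHermitian) (hB : B.IsHermitian) :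
    A ≤ B ↔ ∀ v : Fin m → ℂ, (star v ⬝ᵥ (A *ᵥ v)).re ≤ (star v ⬝ᵥ (B *ᵥ v)).re := by
  rw [Matrix.le_iff]
  have he : ∀ v : Fin m → ℂ, star v ⬝ᵥ ((B - A) *ᵥ v) =
      star v ⬝ᵥ (B *ᵥ v) - star v ⬝ᵥ (A *ᵥ v) := fun v => by
    rw [sub_mulVec, dotProduct_sub]
  constructor
  · intro h v
    have h1 := (Complex.le_def.1 (h.dotProduct_mulVec_nonneg v)).1
    rw [he, Complex.sub_re, Complex.zero_re] at h1
    linarith
  · intro h
    refine PosSemidef.of_dotProduct_mulVec_nonneg (hB.sub hA) fun v => ?_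
    rw [Complex.le_def]
    constructor
    · rw [he, Complex.sub_re, Complex.zero_re]
      linarith [h v]
    · exact ((hB.sub hA).im_star_dotProduct_mulVec_self v).symm

theorem conj_le_conj {A B : Mat m} (h : A ≤ B) (C : Mat m) : C * A * Cᴴ ≤ C * B * Cᴴ := by
  rw [Matrix.le_iff] at h ⊢
  have h1 := h.mul_mul_conjTranspose_same C
  rwa [mul_sub, sub_mul] at h1

private theorem conj_le_conj' {A B : Mat m} (h : A ≤ B) (C : Mat m) :
    Cᴴ * A * C ≤ Cᴴ * B * C := by
  have h1 := conj_le_conj h Cᴴ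
  rwa [conjTranspose_conjTranspose] at h1

theorem trace_mul_nonneg {A B : Mat m} (hA : A.PosSemidef) (hB : B.PosSemidef) :
    0 ≤ (A * B).trace.re := by
  obtain ⟨X, rfl⟩ := exists_fac hA
  have h1 : (Xᴴ * X * B).trace = (X * B * Xᴴ).trace := by
    rw [mul_assoc, trace_mul_comm]
  rw [h1]
  exact (Complex.le_def.1 (hB.mul_mul_conjTranspose_same X).trace_nonneg).1

theorem trace_mul_le {A B C : Mat m} (hA : A ≤ B) (hC : C.PosSemidef) :
    (A * C).trace.re ≤ (B * C).trace.re := by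
  have h1 := trace_mul_nonneg (Matrix.le_iff.1 hA) hC
  rw [sub_mul, trace_sub, Complex.sub_re] at h1
  linarith

/-- Lower bound of a trace: `c ≤ B` implies `c tr A ≤ tr (B A)`. -/
theorem le_trace_mul {A B : Mat m} {c : ℝ} (hA : A.PosSemidef) (hB : (c : ℂ) • (1 : Mat m) ≤ B) :
    c * A.trace.re ≤ (B * A).trace.re := by
  have h1 := trace_mul_le hB hA
  rwa [smul_mul_assoc, one_mul, trace_smul, smul_eq_mul, Complex.re_ofReal_mul] at h1

/-- `X^* Y⁻¹ X ≥ X^* B + B^* X - B^* Y B`. -/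
theorem duality {Y : Mat m} (hY : Y.PosDef) (X B : Mat m) :
    Xᴴ * B + Bᴴ * X - Bᴴ * Y * B ≤ Xᴴ * Y⁻¹ * X := by
  rw [Matrix.le_iff]
  have hu : IsUnit Y.det := (isUnit_iff_isUnit_det Y).1 hY.isUnit
  have hYY : Y⁻¹ * Y = 1 := nonsing_inv_mul Y hu
  have hYY' : Y * Y⁻¹ = 1 := mul_nonsing_inv Y hu
  have key : Xᴴ * Y⁻¹ * X - (Xᴴ * B + Bᴴ * X - Bᴴ * Y * B) =
      (X - Y * B)ᴴ * Y⁻¹ * (X - Y * B) := by
    rw [conjTranspose_sub, conjTranspose_mul, hY.isHermitian.eq]
    have e1 : Xᴴ * Y⁻¹ * (Y * B) = Xᴴ * B := by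
      rw [mul_assoc, ← mul_assoc Y⁻¹, hYY, one_mul]
    have e2 : Bᴴ * Y * Y⁻¹ * X = Bᴴ * X := by
      rw [mul_assoc Bᴴ, hYY', mul_one]
    have e3 : Bᴴ * Y * Y⁻¹ * (Y * B) = Bᴴ * Y * B := by
      rw [mul_assoc Bᴴ, hYY', mul_one, mul_assoc]
    rw [sub_mul, sub_mul, mul_sub, mul_sub, e1, e2, e3]
    abel
  rw [key]
  exact hY.inv.posSemidef.conjTranspose_mul_mul_same _

theorem inv_le_inv_of_le {A B : Mat m} (hA : A.PosDef) (hAB : A ≤ B) : B⁻¹ ≤ A⁻¹ := by
  have hB : B.PosDef := by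
    have h := hA.add_posSemidef (Matrix.le_iff.1 hAB)
    rwa [add_sub_cancel] at h
  have hu : IsUnit B.det := (isUnit_iff_isUnit_det B).1 hB.isUnit
  have h1 := duality hA 1 B⁻¹
  have hBi : (B⁻¹)ᴴ = B⁻¹ := hB.inv.isHermitian.eq
  rw [hBi, conjTranspose_one, one_mul, mul_one, one_mul, mul_one] at h1
  have h2 := conj_le_conj hAB B⁻¹
  rw [hBi, nonsing_inv_mul B hu, one_mul] at h2
  calc B⁻¹ = B⁻¹ + B⁻¹ - B⁻¹ := by abel
    _ ≤ B⁻¹ + B⁻¹ - B⁻¹ * A * B⁻¹ := sub_le_sub_left h2 _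
    _ ≤ A⁻¹ := h1

/-! ### Integrals -/

/-- the functional `A ↦ v^* A w` -/
private noncomputable def qL (v w : Fin m → ℂ) : Mat m →L[ℝ] ℂ :=
  LinearMap.toContinuousLinearMap
    { toFun := fun A => star v ⬝ᵥ (A *ᵥ w)
      map_add' := fun A B => by rw [add_mulVec, dotProduct_add]
      map_smul' := fun c A => by
        rw [smul_mulVec, dotProduct_smul, RingHom.id_apply] }

private theorem qL_apply (v w : Fin m → ℂ) (A : Mat m) : qL v w A = star v ⬝ᵥ (A *ᵥ w) := rfl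

/-- the conjugate transpose as a continuous linear map -/
private noncomputable def ctL : Mat m →L[ℝ] Mat m :=
  LinearMap.toContinuousLinearMap
    { toFun := fun A => Aᴴ
      map_add' := fun A B => conjTranspose_add A B
      map_smul' := fun c A => by
        rw [conjTranspose_smul, RingHom.id_apply, star_trivial] }

private theorem ctL_apply (A : Mat m) : ctL A = Aᴴ := rfl

private theorem integral_ct {α : Type} [MeasurableSpace α] {ν : Measure α} {A : α → Mat m}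
    (hA : Integrable A ν) : (∫ x, A x ∂ν)ᴴ = ∫ x, (A x)ᴴ ∂ν := by
  have h := (ctL (m := m)).integral_comp_comm hA
  simp only [ctL_apply] at h
  exact h.symm

private theorem integral_q {α : Type} [MeasurableSpace α] {ν : Measure α} {A : α → Mat m}
    (hA : Integrable A ν) (v w : Fin m → ℂ) :
    star v ⬝ᵥ ((∫ x, A x ∂ν) *ᵥ w) = ∫ x, star v ⬝ᵥ (A x *ᵥ w) ∂ν := by
  have h := (qL v w).integral_comp_comm hA
  simp only [qL_apply] at h
  exact h.symm

private theorem integrable_q {α : Type} [MeasurableSpace α] {ν : Measure α} {A : α → Mat m}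
    (hA : Integrable A ν) (v w : Fin m → ℂ) :
    Integrable (fun x => star v ⬝ᵥ (A x *ᵥ w)) ν := by
  have h := (qL v w).integrable_comp hA
  exact h

private theorem integral_psd {α : Type} [MeasurableSpace α] {ν : Measure α} {A : α → Mat m}
    (hA : Integrable A ν) (h : ∀ᵐ x ∂ν, (A x).PosSemidef) :
    (∫ x, A x ∂ν).PosSemidef := by
  have hH : (∫ x, A x ∂ν).IsHermitian := by
    rw [IsHermitian, integral_ct hA]
    exact integral_congr_ae (h.mono fun x hx => hx.isHermitian.eq)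
  refine PosSemidef.of_dotProduct_mulVec_nonneg hH fun v => ?_
  rw [Complex.le_def]
  constructor
  · rw [integral_q hA v v, Complex.zero_re]
    have h1 := integral_re (𝕜 := ℂ) (integrable_q hA v v)
    have h2 : 0 ≤ ∫ x, RCLike.re (star v ⬝ᵥ (A x *ᵥ v)) ∂ν :=
      integral_nonneg_of_ae (h.mono fun x hx => hx.re_dotProduct_nonneg v)
    rw [h1] at h2
    exact h2
  · exact (hH.im_star_dotProduct_mulVec_self v).symm

/-- Integrals of positive semidefinite matrices. -/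
theorem integral_mono_mat {α : Type} [MeasurableSpace α] {ν : Measure α} {A B : α → Mat m}
    (hA : Integrable A ν) (hB : Integrable B ν) (h : ∀ᵐ x ∂ν, A x ≤ B x) :
    ∫ x, A x ∂ν ≤ ∫ x, B x ∂ν := by
  rw [Matrix.le_iff, ← integral_sub hB hA]
  exact integral_psd (hB.sub hA) (h.mono fun x hx => Matrix.le_iff.1 hx)

theorem integral_posDef {α : Type} [MeasurableSpace α] {ν : Measure α} {A : α → Mat m}
    (hA : Integrable A ν) (h : ∀ x, (A x).PosDef) (hν : ν ≠ 0) :
    (∫ x, A x ∂ν).PosDef := by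
  have h0 := integral_psd hA (Filter.Eventually.of_forall fun x => (h x).posSemidef)
  refine PosDef.of_dotProduct_mulVec_pos h0.isHermitian fun v hv => ?_
  rw [Complex.lt_def]
  constructor
  · rw [integral_q hA v v, Complex.zero_re]
    have h1 := integral_re (𝕜 := ℂ) (integrable_q hA v v)
    have hpos : ∀ x, 0 < RCLike.re (star v ⬝ᵥ (A x *ᵥ v)) := fun x => (h x).re_dotProduct_pos hv
    have h2 : 0 < ∫ x, RCLike.re (star v ⬝ᵥ (A x *ᵥ v)) ∂ν := by
      rw [integral_pos_iff_support_of_nonneg (fun x => (hpos x).le)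
        (integrable_q hA v v).re]
      have h3 : Function.support (fun x => RCLike.re (star v ⬝ᵥ (A x *ᵥ v))) = Set.univ := by
        ext x
        simp only [Function.mem_support, Set.mem_univ, iff_true]
        exact (hpos x).ne'
      rw [h3]
      exact pos_iff_ne_zero.2 fun h4 => hν (Measure.measure_univ_eq_zero.1 h4)
    rw [h1] at h2
    exact h2
  · exact (h0.isHermitian.im_star_dotProduct_mulVec_self v).symm

private theorem smul_le_smul_mat {A B : Mat m} {c : ℝ} (hc : 0 ≤ c) (h : A ≤ B) :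
    c • A ≤ c • B := by
  rw [Matrix.le_iff] at h ⊢
  rw [← smul_sub]
  exact h.smul hc

/-- left and right multiplication -/
private noncomputable def lmL (C : Mat m) : Mat m →L[ℝ] Mat m :=
  LinearMap.toContinuousLinearMap
    { toFun := fun A => C * A
      map_add' := fun A B => mul_add C A B
      map_smul' := fun c A => by rw [mul_smul_comm, RingHom.id_apply] }

private noncomputable def rmL (C : Mat m) : Mat m →L[ℝ] Mat m :=
  LinearMap.toContinuousLinearMap
    { toFun := fun A => A * C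
      map_add' := fun A B => add_mul A B C
      map_smul' := fun c A => by rw [smul_mul_assoc, RingHom.id_apply] }

private theorem lmL_apply (C A : Mat m) : lmL C A = C * A := rfl

private theorem rmL_apply (C A : Mat m) : rmL C A = A * C := rfl

private theorem integral_lm {α : Type} [MeasurableSpace α] {ν : Measure α} {A : α → Mat m}
    (hA : Integrable A ν) (C : Mat m) : ∫ x, C * A x ∂ν = C * ∫ x, A x ∂ν := by
  have h := (lmL C).integral_comp_comm hA
  simp only [lmL_apply] at h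
  exact h

private theorem integral_rm {α : Type} [MeasurableSpace α] {ν : Measure α} {A : α → Mat m}
    (hA : Integrable A ν) (C : Mat m) : ∫ x, A x * C ∂ν = (∫ x, A x ∂ν) * C := by
  have h := (rmL C).integral_comp_comm hA
  simp only [rmL_apply] at h
  exact h

private theorem integrable_lm {α : Type} [MeasurableSpace α] {ν : Measure α} {A : α → Mat m}
    (hA : Integrable A ν) (C : Mat m) : Integrable (fun x => C * A x) ν :=
  (lmL C).integrable_comp hA

private theorem integrable_rm {α : Type} [MeasurableSpace α] {ν : Measure α} {A : α → Mat m}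
    (hA : Integrable A ν) (C : Mat m) : Integrable (fun x => A x * C) ν :=
  (rmL C).integrable_comp hA

private theorem integrable_ct {α : Type} [MeasurableSpace α] {ν : Measure α} {A : α → Mat m}
    (hA : Integrable A ν) : Integrable (fun x => (A x)ᴴ) ν :=
  (ctL (m := m)).integrable_comp hA

/-- Joint convexity of `(X, Y) ↦ X^* Y⁻¹ X`. -/
theorem integral_joint {α : Type} [MeasurableSpace α] {ν : Measure α} {X Y : α → Mat m}
    {w : α → ℝ} (hw : ∀ x, 0 ≤ w x) (hY : ∀ x, (Y x).PosDef)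
    (hX : Integrable (fun x => w x • X x) ν) (hY' : Integrable (fun x => w x • Y x) ν)
    (hXY : Integrable (fun x => w x • ((X x)ᴴ * (Y x)⁻¹ * X x)) ν)
    (hpos : (∫ x, w x • Y x ∂ν).PosDef) :
    (∫ x, w x • X x ∂ν)ᴴ * (∫ x, w x • Y x ∂ν)⁻¹ * (∫ x, w x • X x ∂ν) ≤
      ∫ x, w x • ((X x)ᴴ * (Y x)⁻¹ * X x) ∂ν := by
  obtain ⟨U, hU⟩ : ∃ U, U = ∫ x, w x • X x ∂ν := ⟨_, rfl⟩
  obtain ⟨V, hV⟩ : ∃ V, V = ∫ x, w x • Y x ∂ν := ⟨_, rfl⟩
  rw [← hV] at hpos
  rw [← hU, ← hV]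
  obtain ⟨B, hB⟩ : ∃ B, B = V⁻¹ * U := ⟨_, rfl⟩
  have hu : IsUnit V.det := (isUnit_iff_isUnit_det V).1 hpos.isUnit
  have hI1 : Integrable (fun x => (w x • X x)ᴴ * B) ν := integrable_rm (integrable_ct hX) B
  have hI2 : Integrable (fun x => Bᴴ * (w x • X x)) ν := integrable_lm hX Bᴴ
  have hI3 : Integrable (fun x => Bᴴ * (w x • Y x) * B) ν :=
    integrable_rm (integrable_lm hY' Bᴴ) B
  have h1 : ∫ x, ((w x • X x)ᴴ * B + Bᴴ * (w x • X x) - Bᴴ * (w x • Y x) * B) ∂ν ≤
      ∫ x, w x • ((X x)ᴴ * (Y x)⁻¹ * X x) ∂ν := by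
    refine integral_mono_mat ((hI1.add hI2).sub hI3) hXY (Filter.Eventually.of_forall fun x => ?_)
    have h2 := smul_le_smul_mat (hw x) (duality (hY x) (X x) B)
    refine le_trans (le_of_eq ?_) h2
    simp only [conjTranspose_smul, star_trivial, smul_mul_assoc, mul_smul_comm, smul_sub, smul_add]
  have h2 : ∫ x, ((w x • X x)ᴴ * B + Bᴴ * (w x • X x) - Bᴴ * (w x • Y x) * B) ∂ν =
      Uᴴ * B + Bᴴ * U - Bᴴ * V * B := by
    have e1 := integral_sub (hI1.add hI2) hI3
    have e2 := integral_add hI1 hI2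
    rw [integral_rm (integrable_ct hX) B, ← integral_ct hX, integral_lm hX, ← hU] at e2
    rw [integral_rm (integrable_lm hY' Bᴴ) B, integral_lm hY', ← hV] at e1
    refine e1.trans ?_
    rw [← e2]
    rfl
  rw [h2, hB] at h1
  refine le_trans (le_of_eq ?_) h1
  rw [conjTranspose_mul, hpos.inv.isHermitian.eq]
  have e1 : Uᴴ * V⁻¹ * V * (V⁻¹ * U) = Uᴴ * V⁻¹ * U := by
    rw [mul_assoc Uᴴ, nonsing_inv_mul V hu, mul_one, mul_assoc]
  rw [e1, mul_assoc]
  abel

/-- Operator Jensen for the inverse (from `duality` with `X = 1`, `B = (∫ A)⁻¹`). -/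
theorem inv_integral_le {α : Type} [MeasurableSpace α] {ν : Measure α} {A : α → Mat m}
    {w : α → ℝ} (hw : ∀ x, 0 ≤ w x) (hw1 : ∫ x, w x ∂ν = 1) (h : ∀ x, (A x).PosDef)
    (hA : Integrable (fun x => w x • A x) ν) (hA' : Integrable (fun x => w x • (A x)⁻¹) ν) :
    (∫ x, w x • A x ∂ν)⁻¹ ≤ ∫ x, w x • (A x)⁻¹ ∂ν := by
  have hwi : Integrable w ν := by
    by_contra hn
    rw [integral_undef hn] at hw1
    exact zero_ne_one hw1
  have hpsd : (∫ x, w x • A x ∂ν).PosSemidef :=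
    integral_psd hA (Filter.Eventually.of_forall fun x => (h x).posSemidef.smul (hw x))
  have hpos : (∫ x, w x • A x ∂ν).PosDef := by
    refine PosDef.of_dotProduct_mulVec_pos hpsd.isHermitian fun v hv => ?_
    rw [Complex.lt_def]
    constructor
    · rw [integral_q hA v v, Complex.zero_re]
      have h1 := integral_re (𝕜 := ℂ) (integrable_q hA v v)
      have hq : ∀ x, RCLike.re (star v ⬝ᵥ ((w x • A x) *ᵥ v)) =
          w x * RCLike.re (star v ⬝ᵥ (A x *ᵥ v)) := by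
        intro x
        rw [smul_mulVec, dotProduct_smul]
        exact Complex.smul_re _ _
      have h2 : 0 < ∫ x, RCLike.re (star v ⬝ᵥ ((w x • A x) *ᵥ v)) ∂ν := by
        rw [integral_pos_iff_support_of_nonneg (fun x => by
            change 0 ≤ RCLike.re (star v ⬝ᵥ ((w x • A x) *ᵥ v))
            rw [hq]
            exact mul_nonneg (hw x) ((h x).re_dotProduct_pos hv).le)
          (integrable_q hA v v).re]
        have h3 : Function.support (fun x => RCLike.re (star v ⬝ᵥ ((w x • A x) *ᵥ v))) =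
            Function.support w := by
          ext x
          simp only [Function.mem_support, hq]
          rw [mul_ne_zero_iff]
          exact ⟨fun h4 => h4.1, fun h4 => ⟨h4, ((h x).re_dotProduct_pos hv).ne'⟩⟩
        rw [h3, ← integral_pos_iff_support_of_nonneg hw hwi, hw1]
        exact one_pos
      rw [h1] at h2
      exact h2
    · exact (hpsd.isHermitian.im_star_dotProduct_mulVec_self v).symm
  have hint : ∫ x, w x • (1 : Mat m) ∂ν = 1 := by
    rw [integral_smul_const, hw1, one_smul]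
  have hA'' : Integrable (fun x => w x • ((1 : Mat m)ᴴ * (A x)⁻¹ * 1)) ν := by
    simpa only [conjTranspose_one, one_mul, mul_one] using hA'
  have h5 := integral_joint (X := fun _ => (1 : Mat m)) hw h (hwi.smul_const 1) hA hA'' hpos
  simp only [hint, conjTranspose_one, one_mul, mul_one] at h5
  exact h5

/-! ### Traces -/

/-- The algebra behind the subharmonicity of `tr (B A)` (blueprint E4): `a, b` are the derivatives
of `A, B` in a complex direction (`aᴴ`, `bᴴ` those in the conjugate direction).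
With `X = B^(-1/2) bᴴ A^(1/2)`, `Y = B^(1/2) aᴴ A^(-1/2)` the left side is
`|X + Y|²/2`-like; write it as `tr ((bᴴ A + B aᴴ)ᴴ B⁻¹ (bᴴ A + B aᴴ) A⁻¹)`. -/
theorem trace_square {A B a b : Mat m} (hA : A.PosDef) (hB : B.PosDef) :
    (b * B⁻¹ * bᴴ * A).trace + (B * aᴴ * A⁻¹ * a).trace + (b * aᴴ).trace + (a * bᴴ).trace =
      ((bᴴ * A + B * aᴴ)ᴴ * B⁻¹ * (bᴴ * A + B * aᴴ) * A⁻¹).trace := by
  have huA : IsUnit A.det := (isUnit_iff_isUnit_det A).1 hA.isUnit
  have huB : IsUnit B.det := (isUnit_iff_isUnit_det B).1 hB.isUnit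
  have e0 : (bᴴ * A + B * aᴴ)ᴴ = A * b + a * B := by
    rw [conjTranspose_add, conjTranspose_mul, conjTranspose_mul, conjTranspose_conjTranspose,
      conjTranspose_conjTranspose, hA.isHermitian.eq, hB.isHermitian.eq]
  have e1 : (A * b + a * B) * B⁻¹ = A * b * B⁻¹ + a := by
    rw [add_mul, mul_assoc a, mul_nonsing_inv B huB, mul_one]
  have e2 : (bᴴ * A + B * aᴴ) * A⁻¹ = bᴴ + B * aᴴ * A⁻¹ := by
    rw [add_mul, mul_assoc bᴴ, mul_nonsing_inv A huA, mul_one]
  have e3 : A * b * B⁻¹ * (B * aᴴ * A⁻¹) = A * (b * aᴴ) * A⁻¹ := by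
    calc A * b * B⁻¹ * (B * aᴴ * A⁻¹) = A * b * (B⁻¹ * B) * aᴴ * A⁻¹ := by
          simp only [mul_assoc]
      _ = A * (b * aᴴ) * A⁻¹ := by
          rw [nonsing_inv_mul B huB, mul_one]
          simp only [mul_assoc]
  rw [e0, mul_assoc _ (bᴴ * A + B * aᴴ), e2, e1, add_mul, mul_add, mul_add, e3]
  simp only [trace_add]
  have t1 : (A * b * B⁻¹ * bᴴ).trace = (b * B⁻¹ * bᴴ * A).trace := by
    rw [trace_mul_comm (b * B⁻¹ * bᴴ) A]
    simp only [mul_assoc]
  have t2 : (A * (b * aᴴ) * A⁻¹).trace = (b * aᴴ).trace := by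
    rw [trace_mul_cycle, nonsing_inv_mul A huA, one_mul]
  have t3 : (a * (B * aᴴ * A⁻¹)).trace = (B * aᴴ * A⁻¹ * a).trace := by
    rw [trace_mul_comm]
  rw [t1, t2, t3]
  ring

theorem trace_square_nonneg {A B X : Mat m} (hA : A.PosDef) (hB : B.PosDef) :
    0 ≤ (Xᴴ * B⁻¹ * X * A⁻¹).trace.re :=
  trace_mul_nonneg (hB.inv.posSemidef.conjTranspose_mul_mul_same X) hA.inv.posSemidef

private theorem inv_smul_one {c : ℝ} (hc : 0 < c) :
    ((c : ℂ) • (1 : Mat m))⁻¹ = ((c⁻¹ : ℝ) : ℂ) • (1 : Mat m) := by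
  apply inv_eq_right_inv
  rw [smul_mul_smul_comm, one_mul]
  have h : (c : ℂ) * ((c⁻¹ : ℝ) : ℂ) = 1 := by
    rw [← Complex.ofReal_mul, mul_inv_cancel₀ hc.ne', Complex.ofReal_one]
  rw [h, one_smul]

/-- Lower bound: if `A ≤ c`, `B ≤ c` then `tr (X^* B⁻¹ X A⁻¹) ≥ c⁻² tr (X^* X)`. -/
theorem trace_square_ge {A B X : Mat m} {c : ℝ} (hc : 0 < c) (hA : A.PosDef) (hB : B.PosDef)
    (hA' : A ≤ (c : ℂ) • (1 : Mat m)) (hB' : B ≤ (c : ℂ) • (1 : Mat m)) :
    (c ^ 2)⁻¹ * (Xᴴ * X).trace.re ≤ (Xᴴ * B⁻¹ * X * A⁻¹).trace.re := by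
  have h1 := inv_le_inv_of_le hA hA'
  have h2 := inv_le_inv_of_le hB hB'
  rw [inv_smul_one hc] at h1 h2
  have h3 := le_trace_mul (hB.inv.posSemidef.conjTranspose_mul_mul_same X) h1
  rw [trace_mul_comm A⁻¹] at h3
  have h4 := conj_le_conj' h2 X
  have h5 := trace_mul_le h4 PosSemidef.one
  rw [mul_one, mul_one, mul_smul_comm, mul_one, smul_mul_assoc, trace_smul, smul_eq_mul,
    Complex.re_ofReal_mul] at h5
  have hci : 0 ≤ c⁻¹ := (inv_pos.2 hc).le
  calc (c ^ 2)⁻¹ * (Xᴴ * X).trace.re = c⁻¹ * (c⁻¹ * (Xᴴ * X).trace.re) := by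
        rw [sq, mul_inv]
        ring
    _ ≤ c⁻¹ * (Xᴴ * B⁻¹ * X).trace.re := mul_le_mul_of_nonneg_left h5 hci
    _ ≤ _ := h3

/-! ### Spanning families -/

/-- Cauchy-Schwarz for the quadratic form of a positive matrix. -/
private theorem q_sum_le {ι : Type} [Fintype ι] {A : Mat m} (hA : A.PosSemidef) (c : ι → ℂ)
    (x : ι → Fin m → ℂ) :
    (star (∑ i, c i • x i) ⬝ᵥ (A *ᵥ (∑ i, c i • x i))).re ≤
      (∑ i, ‖c i‖ ^ 2) * ∑ i, (star (x i) ⬝ᵥ (A *ᵥ x i)).re := by
  obtain ⟨B, rfl⟩ := exists_fac hA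
  have hq : ∀ v : Fin m → ℂ, (star v ⬝ᵥ ((Bᴴ * B) *ᵥ v)).re =
      ‖(WithLp.toLp 2 (B *ᵥ v) : EuclideanSpace ℂ (Fin m))‖ ^ 2 := by
    intro v
    rw [EuclideanSpace.norm_sq_eq, ← mulVec_mulVec, dotProduct_mulVec, ← star_mulVec, dotProduct,
      Complex.re_sum]
    refine Finset.sum_congr rfl fun i _ => ?_
    rw [Pi.star_apply]
    have h : star ((B *ᵥ v) i) * (B *ᵥ v) i = ((‖(B *ᵥ v) i‖ ^ 2 : ℝ) : ℂ) := by
      rw [mul_comm]
      have := Complex.mul_conj' ((B *ᵥ v) i)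
      rw [Complex.star_def, this]
      push_cast
      rfl
    rw [h, Complex.ofReal_re]
  simp only [hq]
  have hlin : (WithLp.toLp 2 (B *ᵥ ∑ i, c i • x i) : EuclideanSpace ℂ (Fin m)) =
      ∑ i, c i • (WithLp.toLp 2 (B *ᵥ x i) : EuclideanSpace ℂ (Fin m)) := by
    rw [mulVec_sum]
    simp only [mulVec_smul, WithLp.toLp_sum, WithLp.toLp_smul]
  rw [hlin]
  have h1 : ‖∑ i, c i • (WithLp.toLp 2 (B *ᵥ x i) : EuclideanSpace ℂ (Fin m))‖ ≤
      ∑ i, ‖c i‖ * ‖(WithLp.toLp 2 (B *ᵥ x i) : EuclideanSpace ℂ (Fin m))‖ :=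
    (norm_sum_le _ _).trans (le_of_eq (Finset.sum_congr rfl fun i _ => norm_smul _ _))
  exact (pow_le_pow_left₀ (norm_nonneg _) h1 2).trans (Finset.sum_mul_sq_le_sq_mul_sq _ _ _)

/-- Irreducibility and compactness (blueprint B5). If not, there are `A_j` with `tr A_j = 1` and
smallest eigenvalue tending to `0`; a limit `A` has `tr A = 1`, `ker A ≠ 0` and
`S_i A S_i^* ≤ C A`, so `ker A` is invariant under all `S_iᴴ`, hence under all matrices. -/
theorem exists_delta {ι : Type} [Finite ι] (S : ι → Mat m)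
    (hS : Submodule.span ℂ (Set.range S) = ⊤) (C : ℝ) :
    ∃ δ : ℝ, 0 < δ ∧ ∀ A : Mat m, A.PosSemidef → A.trace = 1 →
      (∀ i, S i * A * (S i)ᴴ ≤ (C : ℂ) • A) → (δ : ℂ) • (1 : Mat m) ≤ A := by
  classical
  have := Fintype.ofFinite ι
  have hex : ∀ k j : Fin m, ∃ c : ι → ℂ, ∑ i, c i • S i = Matrix.single k j (1 : ℂ) := by
    intro k j
    rw [← Submodule.mem_span_range_iff_exists_fun, hS]
    exact Submodule.mem_top
  choose c hc using hex
  obtain ⟨C', hC'⟩ : ∃ C' : ℝ, C' = max C 0 := ⟨_, rfl⟩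
  have hC0 : 0 ≤ C' := by rw [hC']; exact le_max_right _ _
  have hCC : C ≤ C' := by rw [hC']; exact le_max_left _ _
  obtain ⟨K, hK⟩ : ∃ K : ℝ, K = ∑ j : Fin m, ∑ i : ι, ∑ k : Fin m, ‖c k j i‖ ^ 2 := ⟨_, rfl⟩
  have hK0 : 0 ≤ K := by rw [hK]; positivity
  obtain ⟨N, hN⟩ : ∃ N : ℝ, N = Fintype.card ι := ⟨_, rfl⟩
  have hN0 : 0 ≤ N := by rw [hN]; positivity
  have hD0 : 0 < K * N * C' + 1 := by positivity
  refine ⟨(K * N * C' + 1)⁻¹, inv_pos.2 hD0, fun A hA htr hle => ?_⟩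
  have hδH : ((((K * N * C' + 1)⁻¹ : ℝ) : ℂ) • (1 : Mat m)).IsHermitian := by
    rw [IsHermitian, conjTranspose_smul, conjTranspose_one, Complex.star_def, Complex.conj_ofReal]
  rw [le_iff_re hδH hA.isHermitian]
  intro v
  obtain ⟨r, hr⟩ : ∃ r : ℝ, r = ∑ k, ‖v k‖ ^ 2 := ⟨_, rfl⟩
  have hr0 : 0 ≤ r := by rw [hr]; positivity
  have hvv : star v ⬝ᵥ v = (r : ℂ) := by
    rw [dotProduct, hr, Complex.ofReal_sum]
    refine Finset.sum_congr rfl fun k _ => ?_
    rw [Pi.star_apply, Complex.star_def, mul_comm, Complex.mul_conj']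
    push_cast
    rfl
  obtain ⟨Q, hQ⟩ : ∃ Q : ℝ, Q = (star v ⬝ᵥ (A *ᵥ v)).re := ⟨_, rfl⟩
  have hQ0 : 0 ≤ Q := by
    rw [hQ]
    exact hA.re_dotProduct_nonneg v
  rw [smul_mulVec, one_mulVec, dotProduct_smul, hvv, smul_eq_mul, ← Complex.ofReal_mul,
    Complex.ofReal_re, ← hQ]
  -- the images of `v`
  have hqS : ∀ i, (star ((S i)ᴴ *ᵥ v) ⬝ᵥ (A *ᵥ ((S i)ᴴ *ᵥ v))).re ≤ C' * Q := by
    intro i
    have h1 := (Complex.le_def.1 ((Matrix.le_iff.1 (hle i)).dotProduct_mulVec_nonneg v)).1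
    rw [sub_mulVec, dotProduct_sub, Complex.sub_re, Complex.zero_re, smul_mulVec, dotProduct_smul,
      smul_eq_mul, Complex.re_ofReal_mul, ← hQ] at h1
    have h2 : star ((S i)ᴴ *ᵥ v) ⬝ᵥ (A *ᵥ ((S i)ᴴ *ᵥ v)) =
        star v ⬝ᵥ ((S i * A * (S i)ᴴ) *ᵥ v) := by
      rw [star_mulVec, conjTranspose_conjTranspose, ← dotProduct_mulVec, mulVec_mulVec,
        mulVec_mulVec, mul_assoc]
    rw [h2]
    have h3 : C * Q ≤ C' * Q := mul_le_mul_of_nonneg_right hCC hQ0
    linarith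
  obtain ⟨d, hd⟩ : ∃ d : Fin m → ι → ℂ, ∀ j i, d j i = ∑ k, star (v k) * star (c k j i) :=
    ⟨_, fun _ _ => rfl⟩
  have hdn : ∀ j i, ‖d j i‖ ^ 2 ≤ r * ∑ k, ‖c k j i‖ ^ 2 := by
    intro j i
    have h1 : ‖d j i‖ ≤ ∑ k, ‖v k‖ * ‖c k j i‖ := by
      rw [hd]
      refine (norm_sum_le _ _).trans (le_of_eq (Finset.sum_congr rfl fun k _ => ?_))
      rw [norm_mul, norm_star, norm_star]
    rw [hr]
    exact (pow_le_pow_left₀ (norm_nonneg _) h1 2).trans (Finset.sum_mul_sq_le_sq_mul_sq _ _ _)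
  have hid : ∀ j, ∑ i, d j i • ((S i)ᴴ *ᵥ v) = (r : ℂ) • (Pi.single j (1 : ℂ) : Fin m → ℂ) := by
    intro j
    have h1 : ∀ k, ∑ i, star (c k j i) • (S i)ᴴ = Matrix.single j k (1 : ℂ) := by
      intro k
      have h2 := congrArg conjTranspose (hc k j)
      rw [conjTranspose_sum, conjTranspose_single, star_one] at h2
      rw [← h2]
      exact Finset.sum_congr rfl fun i _ => (conjTranspose_smul _ _).symm
    calc ∑ i, d j i • ((S i)ᴴ *ᵥ v)
        = ∑ i, ∑ k, star (v k) • ((star (c k j i) • (S i)ᴴ) *ᵥ v) := by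
          refine Finset.sum_congr rfl fun i _ => ?_
          rw [hd, Finset.sum_smul]
          refine Finset.sum_congr rfl fun k _ => ?_
          rw [smul_mulVec, smul_smul]
      _ = ∑ k, star (v k) • ((∑ i, star (c k j i) • (S i)ᴴ) *ᵥ v) := by
          rw [Finset.sum_comm]
          refine Finset.sum_congr rfl fun k _ => ?_
          rw [sum_mulVec, Finset.smul_sum]
      _ = ∑ k, star (v k) • (v k • (Pi.single j (1 : ℂ) : Fin m → ℂ)) := by
          refine Finset.sum_congr rfl fun k _ => ?_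
          rw [h1]
          congr 1
          ext l
          rw [Matrix.mulVec, dotProduct]
          simp only [Matrix.single_apply, Pi.smul_apply, Pi.single_apply, smul_eq_mul]
          rw [Finset.sum_eq_single k]
          · by_cases hjl : j = l
            · subst hjl
              simp
            · have : ¬ l = j := fun e => hjl e.symm
              simp [hjl, this]
          · intro b _ hb
            have : ¬ (j = l ∧ k = b) := fun e => hb e.2.symm
            rw [if_neg this, zero_mul]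
          · intro hk
            exact absurd (Finset.mem_univ k) hk
      _ = (r : ℂ) • (Pi.single j (1 : ℂ) : Fin m → ℂ) := by
          rw [← hvv, dotProduct, Finset.sum_smul]
          refine Finset.sum_congr rfl fun k _ => ?_
          rw [smul_smul, Pi.star_apply]
  have hmain : ∀ j, r ^ 2 * (A j j).re ≤
      (r * ∑ i, ∑ k, ‖c k j i‖ ^ 2) * (N * (C' * Q)) := by
    intro j
    have h1 := q_sum_le hA (d j) fun i => (S i)ᴴ *ᵥ v
    rw [hid j] at h1
    have h2 : (star ((r : ℂ) • (Pi.single j (1 : ℂ) : Fin m → ℂ)) ⬝ᵥ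
        (A *ᵥ ((r : ℂ) • (Pi.single j (1 : ℂ) : Fin m → ℂ)))).re = r ^ 2 * (A j j).re := by
      rw [mulVec_smul, dotProduct_smul, star_smul, smul_dotProduct, Complex.star_def,
        Complex.conj_ofReal, smul_eq_mul, smul_eq_mul, Complex.re_ofReal_mul,
        Complex.re_ofReal_mul, mulVec_single_one, sq, mul_assoc]
      congr 2
      rw [← Pi.single_star, star_one, single_one_dotProduct]
      rfl
    rw [h2] at h1
    refine h1.trans ?_
    have h3 : ∑ i, ‖d j i‖ ^ 2 ≤ r * ∑ i, ∑ k, ‖c k j i‖ ^ 2 := by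
      rw [Finset.mul_sum]
      exact Finset.sum_le_sum fun i _ => hdn j i
    have h4 : ∑ i, (star ((S i)ᴴ *ᵥ v) ⬝ᵥ (A *ᵥ ((S i)ᴴ *ᵥ v))).re ≤ N * (C' * Q) := by
      refine (Finset.sum_le_sum fun i _ => hqS i).trans (le_of_eq ?_)
      rw [Finset.sum_const, Finset.card_univ, nsmul_eq_mul, hN]
    have h5 : 0 ≤ ∑ i, (star ((S i)ᴴ *ᵥ v) ⬝ᵥ (A *ᵥ ((S i)ᴴ *ᵥ v))).re :=
      Finset.sum_nonneg fun i _ => hA.re_dotProduct_nonneg _
    exact mul_le_mul h3 h4 h5 (by positivity)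
  have hsum : r ^ 2 ≤ r * (K * N * C' * Q) := by
    have h1 : ∑ j, r ^ 2 * (A j j).re = r ^ 2 := by
      rw [← Finset.mul_sum]
      have h2 : ∑ j, (A j j).re = 1 := by
        have h3 := congrArg Complex.re htr
        rw [trace, Complex.re_sum, Complex.one_re] at h3
        exact h3
      rw [h2, mul_one]
    rw [← h1]
    refine (Finset.sum_le_sum fun j _ => hmain j).trans (le_of_eq ?_)
    rw [← Finset.sum_mul, ← Finset.mul_sum, ← hK]
    ring
  rw [inv_mul_le_iff₀ hD0]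
  rcases hr0.eq_or_lt with h0 | h0
  · rw [← h0]
    positivity
  · have h1 : r ≤ K * N * C' * Q := by
      have h2 : r * r ≤ r * (K * N * C' * Q) := by
        rw [← sq]
        exact hsum
      exact le_of_mul_le_mul_left h2 h0
    nlinarith

/-- A finite subset which still spans. -/
theorem exists_finite_span {G : Type} (f : G → Mat m) (h : Submodule.span ℂ (Set.range f) = ⊤) :
    ∃ T : Finset G, Submodule.span ℂ (f '' (T : Set G)) = ⊤ := by
  classical
  have hfg : (Submodule.span ℂ (Set.range f)).FG := by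
    rw [h]
    exact Module.Finite.fg_top
  obtain ⟨s, hs1, hs2⟩ := (Submodule.fg_span_iff_fg_span_finset_subset _).1 hfg
  rw [← Set.image_univ] at hs1
  obtain ⟨T, -, hT⟩ := Finset.subset_set_image_iff.1 hs1
  refine ⟨T, ?_⟩
  rw [← Finset.coe_image, hT, ← hs2, h]

/-- A matrix commuting with a spanning set is scalar. -/
theorem scalar_of_commute {G : Type} (f : G → Mat m) (h : Submodule.span ℂ (Set.range f) = ⊤)
    {S : Mat m} (hS : ∀ g, f g * S = S * f g) : ∃ c : ℂ, S = c • (1 : Mat m) := by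
  have hall : ∀ X : Mat m, X * S = S * X := by
    intro X
    have hX : X ∈ Submodule.span ℂ (Set.range f) := by
      rw [h]
      exact Submodule.mem_top
    induction hX using Submodule.span_induction with
    | mem x hx =>
      obtain ⟨g, rfl⟩ := hx
      exact hS g
    | zero => rw [zero_mul, mul_zero]
    | add x y _ _ hx hy => rw [add_mul, mul_add, hx, hy]
    | smul a x _ hx => rw [smul_mul_assoc, mul_smul_comm, hx]
  have hcom : ∀ i j : Fin m, Commute (Matrix.single i j (1 : ℂ)) S := fun i j => hall _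
  obtain ⟨c, hc⟩ := mem_range_scalar_iff_commute_single'.2 hcom
  refine ⟨c, ?_⟩
  rw [← hc, scalar_apply, smul_one_eq_diagonal]

end Pool.Agent.Lib.MP_5d4057_al.HM
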