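import Pool.Agent.Lib.MP_5d4057_al.HM.Haar
import Pool.Agent.Lib.MP_5d4057_al.HM.Mx

namespace Pool.Agent.Lib.MP_5d4057_al.HM

open Matrix MeasureTheory Filter Topology Pool.Agent.Lib.MP_5d4057_al Pool.Agent.Lib.MP_5d4057_al.Hyb

open scoped ComplexOrder MatrixOrder Matrix.Norms.L2Operator

variable {n m : ℕ} {E : Type} [NormedAddCommGroup E] [NormedSpace ℝ E]

variable {Γ : Subgroup (SUGroup n)}

/-- Only finitely many elements of `Γ` are in a compact set. -/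
theorem finite_inter (hΓ : Coc Γ) {K : Set (SUGroup n)} (hK : IsCompact K) :
    {γ : Γ | (γ : SUGroup n) ∈ K}.Finite := by
  have := hΓ.disc
  have hcl : IsClosed (Γ : Set (SUGroup n)) := Subgroup.isClosed_of_discrete
  have h1 : IsCompact ((fun γ : Γ => (γ : SUGroup n)) ⁻¹' K) :=
    hcl.isClosedEmbedding_subtypeVal.isCompact_preimage hK
  exact isCompact_iff_finite.1 h1

/-- Only finitely many translates of a compact set meet a compact set. -/
theorem finite_meet (hΓ : Coc Γ) {A B : Set (SUGroup n)} (hA : IsCompact A) (hB : IsCompact B) :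
    {γ : Γ | ∃ a ∈ A, (γ : SUGroup n) * a ∈ B}.Finite := by
  have h1 : IsCompact ((fun p : SUGroup n × SUGroup n => p.2 * p.1⁻¹) '' (A ×ˢ B)) :=
    (hA.prod hB).image (by fun_prop)
  refine (finite_inter hΓ h1).subset ?_
  rintro γ ⟨a, ha, hb⟩
  exact ⟨(a, γ * a), ⟨ha, hb⟩, by simp⟩

theorem coc_countable (hΓ : Coc Γ) : Countable Γ := by
  have := hΓ.disc
  exact TopologicalSpace.separableSpace_iff_countable.1 inferInstance

/-- Existence of a partition of unity (blueprint B1): `χ = φ / ∑ φ(γ ·)` with `φ > 0` on a compact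
fundamental set. -/
theorem exists_cut (hΓ : Coc Γ) : ∃ χ : SUGroup n → ℝ, Cut Γ χ := by
  classical
  obtain ⟨F, hF, hcov⟩ := hΓ.cpt
  obtain ⟨φ, hφ1, -, hφs, hφ⟩ :=
    exists_continuous_one_zero_of_isCompact hF isClosed_empty (Set.disjoint_empty F)
  -- the sum is locally finite
  have hloc : ∀ g0 : SUGroup n, ∃ T : Finset Γ, ∀ᶠ g in 𝓝 g0, ∀ γ : Γ, γ ∉ T →
      φ ((γ : SUGroup n) * g) = 0 := by
    intro g0
    obtain ⟨K, hK, hKn⟩ := exists_compact_mem_nhds g0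
    refine ⟨(finite_meet hΓ hK hφs).toFinset, ?_⟩
    filter_upwards [hKn] with g hg γ hγ
    by_contra h
    refine hγ ?_
    rw [Set.Finite.mem_toFinset]
    exact ⟨g, hg, subset_tsupport _ h⟩
  have hsum : ∀ g, Summable fun γ : Γ => φ ((γ : SUGroup n) * g) := by
    intro g
    obtain ⟨T, hT⟩ := hloc g
    exact summable_of_ne_finset_zero (s := T) fun γ hγ => hT.self_of_nhds γ hγ
  set S : SUGroup n → ℝ := fun g => ∑' γ : Γ, φ ((γ : SUGroup n) * g) with hS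
  have hSc : Continuous S := by
    rw [continuous_iff_continuousAt]
    intro g0
    obtain ⟨T, hT⟩ := hloc g0
    have h1 : ContinuousAt (fun g => ∑ γ ∈ T, φ ((γ : SUGroup n) * g)) g0 := by
      refine Continuous.continuousAt ?_
      fun_prop
    refine h1.congr ?_
    filter_upwards [hT] with g hg
    exact (tsum_eq_sum fun γ hγ => hg γ hγ).symm
  have hS1 : ∀ g, 1 ≤ S g := by
    intro g
    obtain ⟨γ, hγ, hγF⟩ := hcov g
    have h1 : φ (γ * g) = 1 := hφ1 hγF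
    have h2 := (hsum g).le_tsum (⟨γ, hγ⟩ : Γ) fun δ _ => (hφ _).1
    rw [hS]
    exact le_trans (le_of_eq h1.symm) h2
  have hSi : ∀ (γ : Γ) g, S ((γ : SUGroup n) * g) = S g := by
    intro γ g
    rw [hS]
    show ∑' δ : Γ, φ ((δ : SUGroup n) * (γ * g)) = ∑' δ : Γ, φ ((δ : SUGroup n) * g)
    rw [← (Equiv.mulRight γ).tsum_eq fun δ : Γ => φ ((δ : SUGroup n) * g)]
    refine tsum_congr fun δ => ?_
    rw [Equiv.coe_mulRight, Subgroup.coe_mul, mul_assoc]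
  refine ⟨fun g => φ g / S g, ?_, ?_, ?_, ?_⟩
  · exact φ.continuous.div hSc fun g => (lt_of_lt_of_le one_pos (hS1 g)).ne'
  · have h1 : (fun g => φ g / S g) = fun g => φ g * (S g)⁻¹ := by
      funext g
      rw [div_eq_mul_inv]
    rw [h1]
    exact hφs.mul_right
  · intro g
    exact div_nonneg (hφ g).1 (le_trans zero_le_one (hS1 g))
  · intro g
    have h1 : ∀ γ : Γ, φ ((γ : SUGroup n) * g) / S ((γ : SUGroup n) * g) =
        φ ((γ : SUGroup n) * g) / S g := fun γ => by rw [hSi]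
    rw [tsum_congr h1, tsum_div_const]
    exact div_self (lt_of_lt_of_le one_pos (hS1 g)).ne'

theorem Cut.summable {χ : SUGroup n → ℝ} (hχ : Cut Γ χ) (g : SUGroup n) :
    Summable fun γ : Γ => χ ((γ : SUGroup n) * g) := by
  by_contra h
  have h1 := hχ.sum g
  rw [tsum_eq_zero_of_not_summable h] at h1
  exact zero_ne_one h1

theorem Cut.sum_le {χ : SUGroup n → ℝ} (hχ : Cut Γ χ) (g : SUGroup n) (T : Finset Γ) :
    ∑ γ ∈ T, χ ((γ : SUGroup n) * g) ≤ 1 := by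
  rw [← hχ.sum g]
  exact (hχ.summable g).sum_le_tsum T fun γ _ => hχ.nonneg _

theorem Cut.le_one {χ : SUGroup n → ℝ} (hχ : Cut Γ χ) (g : SUGroup n) : χ g ≤ 1 := by
  have h1 := hχ.sum_le g {1}
  rw [Finset.sum_singleton] at h1
  simpa using h1

theorem Cut.integrable {χ : SUGroup n → ℝ} (hχ : Cut Γ χ) : Integrable χ (mu n) :=
  hχ.cont.integrable_of_hasCompactSupport hχ.supp

theorem Cut.integrable_smul {χ : SUGroup n → ℝ} (hχ : Cut Γ χ) {f : SUGroup n → E}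
    (hm : AEStronglyMeasurable f (mu n)) (hb : ∃ C : ℝ, ∀ g, ‖f g‖ ≤ C) :
    Integrable (fun g => χ g • f g) (mu n) := by
  obtain ⟨C, hC⟩ := hb
  refine (hχ.integrable.norm.mul_const C).mono' (hχ.cont.aestronglyMeasurable.smul hm) ?_
  refine Filter.Eventually.of_forall fun g => ?_
  rw [norm_smul]
  exact mul_le_mul_of_nonneg_left (hC g) (norm_nonneg _)

/-- Unfolding. -/
theorem unfold (hΓ : Coc Γ) {χ : SUGroup n → ℝ} (hχ : Cut Γ χ) {f : SUGroup n → E}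
    (hf : ∀ γ ∈ Γ, ∀ g, f (γ * g) = f g) (hm : AEStronglyMeasurable f (mu n))
    (hb : ∃ C : ℝ, ∀ g, ‖f g‖ ≤ C) {φ : SUGroup n → ℝ} (hφ : Integrable φ (mu n))
    (hφ1 : ∀ g, Summable fun γ : Γ => φ (γ * g)) {c : ℝ}
    (hφs : ∀ g, ∑' γ : Γ, φ (γ * g) = c) :
    ∫ g, φ g • f g ∂(mu n) = c • II χ f := by
  have := coc_countable hΓ
  obtain ⟨C, hC⟩ := hb
  have hint : Integrable (fun g => φ g • f g) (mu n) := by
    refine (hφ.norm.mul_const C).mono' (hφ.aestronglyMeasurable.smul hm) ?_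
    refine Filter.Eventually.of_forall fun g => ?_
    rw [norm_smul]
    exact mul_le_mul_of_nonneg_left (hC g) (norm_nonneg _)
  set A : Γ → SUGroup n → E := fun γ g => χ ((γ : SUGroup n) * g) • (φ g • f g) with hA
  have hχγ : ∀ γ : Γ, Continuous fun g => χ ((γ : SUGroup n) * g) := fun γ =>
    hχ.cont.comp (continuous_const_mul (γ : SUGroup n))
  have hAi : ∀ γ, Integrable (A γ) (mu n) := by
    intro γ
    refine hint.norm.mono' ((hχγ γ).aestronglyMeasurable.smul hint.aestronglyMeasurable) ?_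
    refine Filter.Eventually.of_forall fun g => ?_
    rw [hA, norm_smul, Real.norm_of_nonneg (hχ.nonneg _)]
    exact mul_le_of_le_one_left (norm_nonneg _) (hχ.le_one _)
  have hAs : Summable fun γ => ∫ g, ‖A γ g‖ ∂(mu n) := by
    refine summable_of_sum_le (c := ∫ g, ‖φ g • f g‖ ∂(mu n))
      (fun γ => integral_nonneg fun g => norm_nonneg _) fun T => ?_
    rw [← integral_finsetSum T fun γ _ => (hAi γ).norm]
    refine integral_mono (integrable_finsetSum T fun γ _ => (hAi γ).norm) hint.norm fun g => ?_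
    show ∑ γ ∈ T, ‖A γ g‖ ≤ ‖φ g • f g‖
    have h1 : ∀ γ ∈ T, ‖A γ g‖ = χ ((γ : SUGroup n) * g) * ‖φ g • f g‖ := by
      intro γ _
      rw [hA, norm_smul, Real.norm_of_nonneg (hχ.nonneg _)]
    rw [Finset.sum_congr rfl h1, ← Finset.sum_mul]
    exact mul_le_of_le_one_left (norm_nonneg _) (hχ.sum_le g T)
  have h1 := (hasSum_integral_of_summable_integral_norm hAi hAs).tsum_eq
  have e1 : ∀ g, ∑' γ, A γ g = φ g • f g := by
    intro g
    rw [hA]
    have h2 := (hχ.summable g).hasSum.smul_const (φ g • f g)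
    rw [hχ.sum g, one_smul] at h2
    exact h2.tsum_eq
  -- the translated functions
  set B : Γ → SUGroup n → E := fun γ g => A γ (((γ⁻¹ : Γ) : SUGroup n) * g) with hB
  have hBi : ∀ γ, Integrable (B γ) (mu n) := fun γ => (hAi γ).comp_mul_left _
  have hBA : ∀ γ, ∫ g, B γ g ∂(mu n) = ∫ g, A γ g ∂(mu n) := fun γ =>
    integral_mul_left_eq_self (A γ) _
  have hBAn : ∀ γ, ∫ g, ‖B γ g‖ ∂(mu n) = ∫ g, ‖A γ g‖ ∂(mu n) := fun γ =>
    integral_mul_left_eq_self (fun g => ‖A γ g‖) _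
  have hBs : Summable fun γ => ∫ g, ‖B γ g‖ ∂(mu n) := hAs.congr fun γ => (hBAn γ).symm
  have h2 := (hasSum_integral_of_summable_integral_norm hBi hBs).tsum_eq
  have e2 : ∀ g, ∑' γ, B γ g = c • (χ g • f g) := by
    intro g
    have h3 : ∀ γ : Γ, B γ g = φ (((γ⁻¹ : Γ) : SUGroup n) * g) • (χ g • f g) := by
      intro γ
      rw [hB, hA]
      show χ ((γ : SUGroup n) * (((γ⁻¹ : Γ) : SUGroup n) * g)) •
        (φ (((γ⁻¹ : Γ) : SUGroup n) * g) • f (((γ⁻¹ : Γ) : SUGroup n) * g)) = _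
      rw [hf _ (γ⁻¹).2, ← mul_assoc, ← Subgroup.coe_mul, mul_inv_cancel, Subgroup.coe_one, one_mul,
        smul_comm]
    rw [tsum_congr h3]
    have h4 : HasSum (fun γ : Γ => φ (((γ⁻¹ : Γ) : SUGroup n) * g)) c := by
      have h5 := (hφ1 g).hasSum
      rw [hφs g] at h5
      exact (Equiv.inv Γ).hasSum_iff.2 h5
    exact (h4.smul_const (χ g • f g)).tsum_eq
  calc ∫ g, φ g • f g ∂(mu n) = ∫ g, ∑' γ, A γ g ∂(mu n) := by simp only [e1]
    _ = ∑' γ, ∫ g, A γ g ∂(mu n) := h1.symm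
    _ = ∑' γ, ∫ g, B γ g ∂(mu n) := by simp only [hBA]
    _ = ∫ g, ∑' γ, B γ g ∂(mu n) := h2
    _ = ∫ g, c • (χ g • f g) ∂(mu n) := by simp only [e2]
    _ = c • II χ f := integral_smul c _

/-- Invariance under right translations (blueprint B2). -/
theorem II_mul_right (hΓ : Coc Γ) {χ : SUGroup n → ℝ} (hχ : Cut Γ χ) {f : SUGroup n → E}
    (hf : ∀ γ ∈ Γ, ∀ g, f (γ * g) = f g) (hm : AEStronglyMeasurable f (mu n))
    (hb : ∃ C : ℝ, ∀ g, ‖f g‖ ≤ C) (a : SUGroup n) :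
    II χ (fun g => f (g * a)) = II χ f := by
  have h1 : II χ (fun g => f (g * a)) = ∫ g, χ (g * a⁻¹) • f g ∂(mu n) := by
    unfold II
    rw [← integral_mul_right_eq_self (fun g => χ (g * a⁻¹) • f g) a]
    simp
  have h2 : ∀ g, (fun γ : Γ => χ ((γ : SUGroup n) * g * a⁻¹)) =
      fun γ : Γ => χ ((γ : SUGroup n) * (g * a⁻¹)) := by
    intro g
    funext γ
    rw [mul_assoc]
  rw [h1, unfold hΓ hχ hf hm hb (φ := fun g => χ (g * a⁻¹)) (c := 1) ?_ ?_ ?_, one_smul]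
  · exact hχ.integrable.comp_mul_right a⁻¹
  · intro g
    show Summable fun γ : Γ => χ ((γ : SUGroup n) * g * a⁻¹)
    rw [h2]
    exact hχ.summable _
  · intro g
    show ∑' γ : Γ, χ ((γ : SUGroup n) * g * a⁻¹) = 1
    rw [h2]
    exact hχ.sum _

/-- A continuous invariant function is bounded. -/
theorem bounded_of_invariant (hΓ : Coc Γ) {f : SUGroup n → E} (hc : Continuous f)
    (hf : ∀ γ ∈ Γ, ∀ g, f (γ * g) = f g) : ∃ C : ℝ, ∀ g, ‖f g‖ ≤ C := by
  obtain ⟨F, hF, hcov⟩ := hΓ.cpt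
  obtain ⟨C, hC⟩ := hF.exists_bound_of_continuousOn hc.continuousOn
  refine ⟨C, fun g => ?_⟩
  obtain ⟨γ, hγ, hγF⟩ := hcov g
  rw [← hf γ hγ g]
  exact hC _ hγF

/-- The integral of a derivative along a flow vanishes. -/
theorem II_flow [CompleteSpace E] (hΓ : Coc Γ) {χ : SUGroup n → ℝ} (hχ : Cut Γ χ) {b : ℝ → SUGroup n} (hb0 : b 0 = 1)
    (hb : ∀ s t, b (s + t) = b s * b t) (hbc : Continuous b) {Ψ Ψ' : SUGroup n → E}
    (hc0 : Continuous Ψ) (hc : Continuous Ψ')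
    (hd : ∀ g t, HasDerivAt (fun t => Ψ (g * b t)) (Ψ' (g * b t)) t)
    (hf : ∀ γ ∈ Γ, ∀ g, Ψ (γ * g) = Ψ g) : II χ Ψ' = 0 := by
  have hf' : ∀ γ ∈ Γ, ∀ g, Ψ' (γ * g) = Ψ' g := by
    intro γ hγ g
    have h1 := hd (γ * g) 0
    have h2 := hd g 0
    rw [hb0, mul_one] at h1 h2
    have h3 : (fun t => Ψ (γ * g * b t)) = fun t => Ψ (g * b t) := by
      funext t
      rw [mul_assoc, hf γ hγ]
    rw [h3] at h1
    exact h1.unique h2
  have hb1 := bounded_of_invariant hΓ hc hf'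
  have hb2 := bounded_of_invariant hΓ hc0 hf
  obtain ⟨C, hC⟩ := hb1
  have key := hasDerivAt_integral_of_dominated_loc_of_deriv_le (μ := mu n) (𝕜 := ℝ)
    (F := fun t g => χ g • Ψ (g * b t)) (F' := fun t g => χ g • Ψ' (g * b t)) (x₀ := 0)
    (bound := fun g => ‖χ g‖ * C) (s := Set.univ) univ_mem
    (Filter.Eventually.of_forall fun t =>
      (hχ.cont.smul (hc0.comp (continuous_mul_const (b t)))).aestronglyMeasurable)
    ?_ ((hχ.cont.smul (hc.comp (continuous_mul_const (b 0)))).aestronglyMeasurable)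
    (Filter.Eventually.of_forall fun g t _ => ?_) (hχ.integrable.norm.mul_const C)
    (Filter.Eventually.of_forall fun g t _ => (hd g t).const_smul (χ g))
  · have h1 : (fun t => ∫ g, χ g • Ψ (g * b t) ∂(mu n)) = fun _ => II χ Ψ := by
      funext t
      exact II_mul_right hΓ hχ hf hc0.aestronglyMeasurable hb2 (b t)
    have h2 := key.2
    rw [h1] at h2
    have h3 := h2.unique (hasDerivAt_const (0 : ℝ) (II χ Ψ))
    have h4 : ∫ g, χ g • Ψ' (g * b 0) ∂(mu n) = II χ Ψ' := by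
      rw [hb0]
      simp only [mul_one]
      rfl
    rw [← h4]
    exact h3
  · have h1 := hχ.integrable_smul hc0.aestronglyMeasurable hb2
    rw [hb0]
    simp only [mul_one]
    exact h1
  · rw [norm_smul]
    exact mul_le_mul_of_nonneg_left (hC _) (norm_nonneg _)

/-- If `f ≥ 0` is continuous, invariant and has integral `0`, it vanishes. -/
theorem eq_zero_of_II (hΓ : Coc Γ) {χ : SUGroup n → ℝ} (hχ : Cut Γ χ) {f : SUGroup n → ℝ}
    (hc : Continuous f) (hf : ∀ γ ∈ Γ, ∀ g, f (γ * g) = f g) (h0 : ∀ g, 0 ≤ f g)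
    (h : II χ f = 0) (g : SUGroup n) : f g = 0 := by
  have hb := bounded_of_invariant hΓ hc hf
  have hint := hχ.integrable_smul hc.aestronglyMeasurable hb
  have h1 : (fun g => χ g • f g) =ᵐ[mu n] 0 :=
    (integral_eq_zero_iff_of_nonneg (fun g => mul_nonneg (hχ.nonneg g) (h0 g)) hint).1 h
  have h2 : (fun g => χ g • f g) = 0 :=
    Continuous.ae_eq_iff_eq (mu n) (hχ.cont.smul hc) continuous_const |>.1 h1
  have h3 : ∀ γ : Γ, χ ((γ : SUGroup n) * g) * f g = 0 := by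
    intro γ
    have h4 := congrFun h2 ((γ : SUGroup n) * g)
    rw [← hf γ γ.2 g]
    exact h4
  have h5 := (hχ.summable g).tsum_mul_right (f g)
  rw [tsum_congr h3, tsum_zero, hχ.sum g, one_mul] at h5
  exact h5.symm

theorem II_mono {χ : SUGroup n → ℝ} (hχ : Cut Γ χ) {f₁ f₂ : SUGroup n → ℝ}
    (hm₁ : AEStronglyMeasurable f₁ (mu n)) (hb₁ : ∃ C : ℝ, ∀ g, ‖f₁ g‖ ≤ C)
    (hm₂ : AEStronglyMeasurable f₂ (mu n)) (hb₂ : ∃ C : ℝ, ∀ g, ‖f₂ g‖ ≤ C)
    (h : ∀ g, f₁ g ≤ f₂ g) : II χ f₁ ≤ II χ f₂ :=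
  integral_mono (hχ.integrable_smul hm₁ hb₁) (hχ.integrable_smul hm₂ hb₂) fun g =>
    mul_le_mul_of_nonneg_left (h g) (hχ.nonneg g)

/-- an enlarged fundamental set containing the identity -/
private theorem cut_fund (hΓ : Coc Γ) : ∃ F : Set (SUGroup n), IsCompact F ∧
    (1 : SUGroup n) ∈ F ∧ ∀ g, ∃ γ ∈ Γ, γ * g ∈ F := by
  obtain ⟨F, hF, hcov⟩ := hΓ.cpt
  refine ⟨insert 1 F, hF.insert 1, Set.mem_insert _ _, fun g => ?_⟩
  obtain ⟨γ, hγ, h⟩ := hcov g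
  exact ⟨γ, hγ, Set.mem_insert_of_mem _ h⟩

private theorem cut_bound (hΓ : Coc Γ) (ρ : Γ →* Mat m) {K : Set (SUGroup n)} (hK : IsCompact K) :
    ∃ M : ℝ, 1 ≤ M ∧ ∀ γ : Γ, (γ : SUGroup n) ∈ K → ‖ρ γ‖ ≤ M := by
  have h1 := (finite_inter hΓ hK).image fun γ => ‖ρ γ‖
  obtain ⟨M, hM⟩ := h1.bddAbove
  refine ⟨max 1 M, le_max_left _ _, fun γ hγ => le_trans ?_ (le_max_right _ _)⟩
  exact hM ⟨γ, hγ, rfl⟩

private theorem cut_word {F : Set (SUGroup n)} {K : Set (SUGroup n)}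
    (hcov : ∀ g, ∃ γ ∈ Γ, γ * g ∈ F) (ρ : Γ →* Mat m) {M : ℝ} (hM : 1 ≤ M)
    (hM1 : ∀ γ : Γ, (∃ f ∈ F, ∃ f' ∈ F, ∃ y ∈ K, (γ : SUGroup n) * f' = f * y) → ‖ρ γ‖ ≤ M)
    (h1K : (1 : SUGroup n) ∈ K) (l : List (SUGroup n)) (hl : ∀ y ∈ l, y ∈ K) :
    ∀ f ∈ F, ∀ f' ∈ F, ∀ γ : Γ, f * l.prod = γ * f' → ‖ρ γ‖ ≤ M ^ (l.length + 1) := by
  induction l with
  | nil =>
    intro f hf f' hf' γ h
    rw [List.length_nil, zero_add, pow_one]
    refine hM1 γ ⟨f, hf, f', hf', 1, h1K, ?_⟩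
    rw [← h, List.prod_nil]
  | cons y l ih =>
    intro f hf f' hf' γ h
    have hy := hl y List.mem_cons_self
    have hl' := fun z hz => hl z (List.mem_cons_of_mem y hz)
    obtain ⟨σ, hσF⟩ : ∃ σ : Γ, (σ : SUGroup n) * (f * y) ∈ F := by
      obtain ⟨σ, hσ, h⟩ := hcov (f * y)
      exact ⟨⟨σ, hσ⟩, h⟩
    have e0 : (σ : SUGroup n) * (f * y) * l.prod = (σ : SUGroup n) * (f * (y * l.prod)) := by
      simp only [mul_assoc]
    have e1 : (σ : SUGroup n) * (f * y) * l.prod = ((σ * γ : Γ) : SUGroup n) * f' := by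
      rw [e0, ← List.prod_cons, h, Subgroup.coe_mul, mul_assoc]
    have h1 := ih hl' _ hσF f' hf' (σ * γ) e1
    have h2 : ‖ρ σ⁻¹‖ ≤ M := by
      refine hM1 _ ⟨f, hf, _, hσF, y, hy, ?_⟩
      rw [Subgroup.coe_inv]
      exact inv_mul_cancel_left _ _
    have h3 : ρ γ = ρ σ⁻¹ * ρ (σ * γ) := by
      rw [← map_mul]
      congr 1
      exact (inv_mul_cancel_left σ γ).symm
    rw [h3, List.length_cons, pow_succ' M (l.length + 1)]
    refine (norm_mul_le _ _).trans ?_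
    exact mul_le_mul h2 h1 (norm_nonneg _) (le_trans zero_le_one hM)

/-- Growth of a linear representation (blueprint B4): the word length of `γ` is at most
`C (1 + log (wt γ))` by `exists_factor` and a compact fundamental set. -/
theorem rho_growth (hn : 1 ≤ n) (hΓ : Coc Γ) (ρ : Γ →* Mat m) :
    ∃ (N : ℕ) (C : ℝ), 0 < C ∧ ∀ γ : Γ, ‖ρ γ‖ ≤ C * ch (γ : SUGroup n) ^ N := by
  obtain ⟨F, hF, h1F, hcov⟩ := cut_fund hΓ
  set K : Set (SUGroup n) := {x | ch x ≤ 3} with hK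
  have hKc : IsCompact K := isCompact_ball 3
  have h1K : (1 : SUGroup n) ∈ K := by
    show ch (1 : SUGroup n) ≤ 3
    rw [ch_one]
    norm_num
  have hKK : IsCompact ((fun p : (SUGroup n × SUGroup n) × SUGroup n => p.1.1 * p.2 * p.1.2⁻¹) ''
      ((F ×ˢ F) ×ˢ K)) := ((hF.prod hF).prod hKc).image (by fun_prop)
  obtain ⟨M, hM, hMb⟩ := cut_bound hΓ ρ hKK
  have hM1 : ∀ γ : Γ, (∃ f ∈ F, ∃ f' ∈ F, ∃ y ∈ K, (γ : SUGroup n) * f' = f * y) → ‖ρ γ‖ ≤ M := by
    rintro γ ⟨f, hf, f', hf', y, hy, h⟩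
    refine hMb γ ⟨((f, f'), y), ⟨⟨hf, hf'⟩, hy⟩, ?_⟩
    show f * y * f'⁻¹ = γ
    rw [← h, mul_assoc, mul_inv_cancel, mul_one]
  obtain ⟨k, hk⟩ : ∃ k : ℕ, M ≤ Real.exp 1 ^ k := by
    refine ⟨⌈Real.log M⌉₊, ?_⟩
    rw [← Real.exp_nat_mul, mul_one]
    refine le_trans (le_of_eq (Real.exp_log (by linarith)).symm) (Real.exp_le_exp.2 ?_)
    exact Nat.le_ceil _
  refine ⟨k, (Real.exp 1 ^ 2 * 2) ^ k, by positivity, fun γ => ?_⟩
  set w : ℝ := wt (γ : SUGroup n) with hw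
  have hw1 : 1 ≤ w := one_le_wt _
  set N : ℕ := ⌊Real.log w⌋₊ + 1 with hN
  obtain ⟨l, hlen, hprod, hwt⟩ := exists_factor hn (γ : SUGroup n) N (by omega)
  have hlK : ∀ y ∈ l, y ∈ K := by
    intro y hy
    have h2 := hwt y hy
    have h3 : 1 ≤ wt y := one_le_wt y
    have h4 : (N : ℝ) * Real.log (wt y) ≤ N := by
      rw [← Real.log_pow, h2]
      have := (Nat.lt_floor_add_one (Real.log w)).le
      rw [hN]
      push_cast
      exact this
    have h5 : Real.log (wt y) ≤ 1 := by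
      have hN0 : (0 : ℝ) < N := by exact_mod_cast Nat.succ_pos _
      by_contra h6
      push Not at h6
      nlinarith
    have h6 : wt y ≤ 3 := by
      have h7 : wt y ≤ Real.exp 1 := by
        rw [← Real.exp_log (lt_of_lt_of_le one_pos h3)]
        exact Real.exp_le_exp.2 h5
      have h8 := Real.exp_one_lt_d9
      linarith
    exact (ch_le_wt y).trans h6
  have h2 := cut_word hcov ρ hM hM1 h1K l hlK 1 h1F 1 h1F γ (by rw [hprod, one_mul, mul_one])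
  rw [hlen] at h2
  have h3 : M ^ (N + 1) ≤ (Real.exp 1 ^ (N + 1)) ^ k := by
    refine (pow_le_pow_left₀ (by linarith) hk (N + 1)).trans (le_of_eq ?_)
    rw [← pow_mul, ← pow_mul, mul_comm]
  have h4 : Real.exp 1 ^ (N + 1) ≤ Real.exp 1 ^ 2 * w := by
    rw [hN, show ⌊Real.log w⌋₊ + 1 + 1 = 2 + ⌊Real.log w⌋₊ by ring, pow_add]
    refine mul_le_mul_of_nonneg_left ?_ (by positivity)
    rw [← Real.exp_nat_mul, mul_one]
    refine le_trans (Real.exp_le_exp.2 (Nat.floor_le (Real.log_nonneg hw1))) ?_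
    exact le_of_eq (Real.exp_log (by linarith))
  have h5 : w ≤ 2 * ch (γ : SUGroup n) := wt_le _
  refine (h2.trans h3).trans ?_
  rw [← mul_pow]
  refine pow_le_pow_left₀ (by positivity) ?_ k
  refine h4.trans ?_
  rw [mul_assoc]
  exact mul_le_mul_of_nonneg_left h5 (by positivity)

private theorem cut_trace (X : Mat m) {H : Mat m} (hH : H.PosSemidef) :
    (X * H * Xᴴ).trace.re ≤ m * ‖X‖ ^ 2 * H.trace.re := by
  have h1 : X * H * Xᴴ ≤ X * ((H.trace.re : ℂ) • (1 : Mat m)) * Xᴴ :=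
    conj_le_conj (le_trace_smul_one hH) X
  have h2 := trace_mul_le h1 (PosSemidef.one (n := Fin m) (R := ℂ))
  rw [mul_one, mul_one] at h2
  refine h2.trans ?_
  have h3 : X * ((H.trace.re : ℂ) • (1 : Mat m)) * Xᴴ = (H.trace.re : ℂ) • (X * Xᴴ) := by
    rw [Matrix.mul_smul, mul_one, Matrix.smul_mul]
  rw [h3, Matrix.trace_smul, smul_eq_mul, Complex.re_ofReal_mul]
  have h4 : 0 ≤ H.trace.re := by
    have := hH.trace_nonneg
    exact (Complex.le_def.1 this).1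
  have h5 : (X * Xᴴ).trace.re ≤ m * ‖X‖ ^ 2 := by
    refine (trace_le_norm _).trans ?_
    refine mul_le_mul_of_nonneg_left ?_ (Nat.cast_nonneg m)
    refine (norm_mul_le _ _).trans (le_of_eq ?_)
    rw [Matrix.l2_opNorm_conjTranspose, pow_two]
  calc H.trace.re * (X * Xᴴ).trace.re ≤ H.trace.re * (m * ‖X‖ ^ 2) :=
        mul_le_mul_of_nonneg_left h5 h4
    _ = m * ‖X‖ ^ 2 * H.trace.re := by ring

/-- Growth of an equivariant family of positive matrices. -/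
theorem equi_growth (hn : 1 ≤ n) (hΓ : Coc Γ) (ρ : Γ →* Mat m) :
    ∃ (F : Set (SUGroup n)) (N : ℕ) (C : ℝ), IsCompact F ∧ (∀ g, ∃ γ ∈ Γ, γ * g ∈ F) ∧ 0 < C ∧
      ∀ (H : Vec n → Mat m) (M : ℝ), Equi ρ H → (∀ v ∈ Cone n, (H v).PosSemidef) →
        (∀ g ∈ F, (H (act g (base n))).trace.re ≤ M) →
        ∀ g : SUGroup n, (H (act g (base n))).trace.re ≤ C * M * ch g ^ (2 * N) := by
  obtain ⟨F, hF, h1F, hcov⟩ := cut_fund hΓ
  obtain ⟨N, C, hC, hρ⟩ := rho_growth hn hΓ ρ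
  obtain ⟨R, hR⟩ := hF.exists_bound_of_continuousOn (continuous_ch (n := n)).continuousOn
  have hR' : ∀ f ∈ F, ch f ≤ max R 1 := fun f hf =>
    ((le_abs_self _).trans (hR f hf)).trans (le_max_left _ _)
  refine ⟨F, N, (m + 1) * (C * (2 * max R 1) ^ N) ^ 2, hF, hcov, by positivity, ?_⟩
  intro H M hE hpos hFM g
  obtain ⟨γ, hγF⟩ : ∃ γ : Γ, (γ : SUGroup n) * g ∈ F := by
    obtain ⟨γ, hγ, h⟩ := hcov g
    exact ⟨⟨γ, hγ⟩, h⟩
  have hM0 : 0 ≤ M := by
    have h1 := (hpos _ (orbit_mem (1 : SUGroup n))).trace_nonneg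
    exact le_trans (Complex.le_def.1 h1).1 (hFM 1 h1F)
  have e1 : act g (base n) = act ((γ⁻¹ : Γ) : SUGroup n) (act ((γ : SUGroup n) * g) (base n)) := by
    rw [← act_mul, Subgroup.coe_inv, ← mul_assoc, inv_mul_cancel, one_mul]
  have e2 := hE γ⁻¹ (act ((γ : SUGroup n) * g) (base n)) (orbit_mem _)
  rw [e1, e2]
  refine (cut_trace _ (hpos _ (orbit_mem _))).trans ?_
  have h1 : ‖ρ γ⁻¹‖ ≤ C * (2 * max R 1) ^ N * ch g ^ N := by
    refine (hρ _).trans ?_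
    rw [mul_assoc, ← mul_pow]
    refine mul_le_mul_of_nonneg_left ?_ hC.le
    refine pow_le_pow_left₀ (le_trans zero_le_one (one_le_ch _)) ?_ N
    have h2 : (((γ⁻¹ : Γ) : SUGroup n)) = g * ((γ : SUGroup n) * g)⁻¹ := by
      rw [Subgroup.coe_inv, _root_.mul_inv_rev, ← mul_assoc, mul_inv_cancel, one_mul]
    rw [h2]
    refine (ch_mul_le' _ _).trans ?_
    rw [ch_inv]
    have h3 := hR' _ hγF
    have h4 : 0 ≤ ch g := le_trans zero_le_one (one_le_ch g)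
    nlinarith
  have h2 : (H (act ((γ : SUGroup n) * g) (base n))).trace.re ≤ M := hFM _ hγF
  have h3 : 0 ≤ (H (act ((γ : SUGroup n) * g) (base n))).trace.re :=
    (Complex.le_def.1 (hpos _ (orbit_mem _)).trace_nonneg).1
  have h4 : ‖ρ γ⁻¹‖ ^ 2 ≤ (C * (2 * max R 1) ^ N * ch g ^ N) ^ 2 :=
    pow_le_pow_left₀ (norm_nonneg _) h1 2
  calc (m : ℝ) * ‖ρ γ⁻¹‖ ^ 2 * (H (act ((γ : SUGroup n) * g) (base n))).trace.re
      ≤ (m + 1) * (C * (2 * max R 1) ^ N * ch g ^ N) ^ 2 * M := by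
        refine mul_le_mul (mul_le_mul (by linarith) h4 (by positivity) (by positivity)) h2 h3
          (by positivity)
    _ = (m + 1) * (C * (2 * max R 1) ^ N) ^ 2 * M * ch g ^ (2 * N) := by
        rw [mul_pow _ (ch g ^ N), ← pow_mul, mul_comm N 2]
        ring

end Pool.Agent.Lib.MP_5d4057_al.HM
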