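import Pool.Agent.Lib.MP_5d4057_al.HM.Green
import Pool.Agent.Lib.MP_5d4057_al.HM.Cut

namespace Pool.Agent.Lib.MP_5d4057_al.HM

open Matrix MeasureTheory Filter Topology Pool.Agent.Lib.MP_5d4057_al Pool.Agent.Lib.MP_5d4057_al.Hyb

open scoped ComplexOrder MatrixOrder Matrix.Norms.L2Operator

variable {n m : ℕ} {E : Type} [NormedAddCommGroup E] [NormedSpace ℝ E] [CompleteSpace E]

variable {Γ : Subgroup (SUGroup n)}

/-- Invariance of a function on the cone. -/
def Inv (Γ : Subgroup (SUGroup n)) {F : Type} (f : Vec n → F) : Prop :=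
  ∀ γ ∈ Γ, ∀ v ∈ Cone n, f (act γ v) = f v

omit [NormedSpace ℝ E] [CompleteSpace E] in
theorem continuous_orb {f : Vec n → E} (hc : ContinuousOn f (Cone n)) :
    Continuous fun g : SUGroup n => f (act g (base n)) :=
  hc.comp_continuous continuous_orbit orbit_mem

omit [CompleteSpace E] in
/-- Fubini for integrals over the quotient. -/
theorem II_integral {χ : SUGroup n → ℝ} (hχ : Cut Γ χ) {k : SUGroup n → ℝ}
    (hk : Integrable k (mu n)) {Φ : SUGroup n → SUGroup n → E}
    (hc : AEStronglyMeasurable (fun p : SUGroup n × SUGroup n => Φ p.1 p.2)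
      ((mu n).prod (mu n))) (hb : ∀ g x, ‖Φ g x‖ ≤ k x) :
    II χ (fun g => ∫ x, Φ g x ∂(mu n)) = ∫ x, II χ (fun g => Φ g x) ∂(mu n) := by
  unfold II
  have h1 : ∀ g, χ g • ∫ x, Φ g x ∂(mu n) = ∫ x, χ g • Φ g x ∂(mu n) := fun g =>
    (integral_smul (χ g) _).symm
  simp only [h1]
  refine integral_integral_swap ?_
  have h2 : Integrable (fun p : SUGroup n × SUGroup n => ‖χ p.1‖ * k p.2)
      ((mu n).prod (mu n)) := hχ.integrable.norm.mul_prod hk
  refine h2.mono' ?_ (Filter.Eventually.of_forall fun p => ?_)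
  · exact (hχ.cont.comp continuous_fst).aestronglyMeasurable.smul hc
  · simp only [Function.uncurry]
    rw [norm_smul]
    exact mul_le_mul_of_nonneg_left (hb _ _) (norm_nonneg _)

/-- `∫_{Γ\G} P s f = ∫_{Γ\G} f` (blueprint B2): Fubini and `II_mul_right`. -/
theorem II_P (hΓ : Coc Γ) {χ : SUGroup n → ℝ} (hχ : Cut Γ χ) : ∃ s₀ : ℕ, ∀ s, s₀ ≤ s →
    ∀ f : Vec n → E, ContinuousOn f (Cone n) → Inv Γ f →
      II χ (fun g => P s f (act g (base n))) = II χ fun g => f (act g (base n)) := by
  refine ⟨n + 1, fun s hs f hf hi => ?_⟩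
  have hs' : n < s := hs
  have hF : Continuous fun g : SUGroup n => f (act g (base n)) := continuous_orb hf
  have hFi : ∀ γ ∈ Γ, ∀ g : SUGroup n, f (act (γ * g) (base n)) = f (act g (base n)) := by
    intro γ hγ g
    rw [act_mul]
    exact hi γ hγ _ (orbit_mem g)
  obtain ⟨C, hC⟩ := bounded_of_invariant hΓ hF hFi
  have h1 : (fun g => P s f (act g (base n))) =
      fun g => ∫ x : SUGroup n, kap s x • f (act (g * x) (base n)) ∂(mu n) := by
    funext g
    exact P_orbit s f g
  rw [h1, II_integral hχ ((integrable_kap hs').mul_const C) ?_ ?_]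
  · have h2 : ∀ x : SUGroup n, II χ (fun g => kap s x • f (act (g * x) (base n))) =
        kap s x • II χ (fun g => f (act g (base n))) := by
      intro x
      rw [← II_mul_right hΓ hχ hFi hF.aestronglyMeasurable ⟨C, hC⟩ x]
      unfold II
      rw [← integral_smul]
      refine integral_congr_ae (Filter.Eventually.of_forall fun g => ?_)
      exact smul_comm _ _ _
    simp only [h2]
    rw [integral_smul_const, integral_kap hs', one_smul]
  · refine Continuous.aestronglyMeasurable ?_
    exact ((continuous_kap s).comp continuous_snd).smul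
      (hF.comp (continuous_fst.mul continuous_snd))
  · intro g x
    rw [norm_smul, Real.norm_of_nonneg (kap_nonneg s x)]
    exact mul_le_mul_of_nonneg_left (hC _) (kap_nonneg s x)

/-- Symmetry of the kernel: for an invariant two-point function, fix `x`, use
`II_mul_right` with `a = x⁻¹` and then `x ↦ x⁻¹`. -/
theorem II_swap (hΓ : Coc Γ) {χ : SUGroup n → ℝ} (hχ : Cut Γ χ) (N : ℕ) : ∃ s₀ : ℕ, ∀ s, s₀ ≤ s →
    ∀ (C : ℝ) (Φ : SUGroup n → SUGroup n → ℝ), Continuous (fun p : SUGroup n × SUGroup n => Φ p.1 p.2) →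
      (∀ γ ∈ Γ, ∀ g h, Φ (γ * g) (γ * h) = Φ g h) → (∀ g x, |Φ g (g * x)| ≤ C * ch x ^ (2 * N)) →
      II χ (fun g => ∫ x, kap s x * Φ g (g * x) ∂(mu n)) =
        II χ fun g => ∫ x, kap s x * Φ (g * x) g ∂(mu n) := by
  refine ⟨n + N + 1, fun s hs C Φ hΦ hi hb => ?_⟩
  have hs' : n + N < s := hs
  have hk : Integrable (fun x : SUGroup n => C * (kap s x * ch x ^ (2 * N))) (mu n) :=
    (integrable_kap_pow hs').const_mul C
  have hb' : ∀ g x, |Φ (g * x) g| ≤ C * ch x ^ (2 * N) := by
    intro g x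
    have h1 := hb (g * x) x⁻¹
    rwa [mul_inv_cancel_right, ch_inv] at h1
  rw [II_integral hχ hk ?_ ?_, II_integral hχ hk ?_ ?_]
  · have h2 : ∀ x : SUGroup n, II χ (fun g => kap s x * Φ g (g * x)) =
        kap s x * II χ (fun g => Φ (g * x⁻¹) g) := by
      intro x
      have hc : Continuous fun g => Φ g (g * x) :=
        hΦ.comp (continuous_id.prodMk (continuous_mul_const x))
      have hi' : ∀ γ ∈ Γ, ∀ g, Φ (γ * g) (γ * g * x) = Φ g (g * x) := by
        intro γ hγ g
        rw [mul_assoc]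
        exact hi γ hγ _ _
      have h3 := II_mul_right hΓ hχ hi' hc.aestronglyMeasurable
        ⟨C * ch x ^ (2 * N), fun g => hb g x⟩ x⁻¹
      have h4 : (fun g => Φ (g * x⁻¹) (g * x⁻¹ * x)) = fun g => Φ (g * x⁻¹) g := by
        funext g
        rw [inv_mul_cancel_right]
      rw [h4] at h3
      rw [h3]
      unfold II
      rw [← integral_const_mul]
      refine integral_congr_ae (Filter.Eventually.of_forall fun g => ?_)
      show χ g * (kap s x * Φ g (g * x)) = kap s x * (χ g * Φ g (g * x))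
      ring
    have h5 : ∀ x : SUGroup n, II χ (fun g => kap s x * Φ (g * x) g) =
        kap s x * II χ (fun g => Φ (g * x) g) := by
      intro x
      unfold II
      rw [← integral_const_mul]
      refine integral_congr_ae (Filter.Eventually.of_forall fun g => ?_)
      show χ g * (kap s x * Φ (g * x) g) = kap s x * (χ g * Φ (g * x) g)
      ring
    simp only [h2, h5]
    rw [← integral_inv_eq_self (fun x : SUGroup n => kap s x * II χ (fun g => Φ (g * x) g)) (mu n)]
    refine integral_congr_ae (Filter.Eventually.of_forall fun x => ?_)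
    show _ = kap s x⁻¹ * _
    rw [kap_inv]
  · refine Continuous.aestronglyMeasurable ?_
    exact ((continuous_kap s).comp continuous_snd).mul
      (hΦ.comp ((continuous_fst.mul continuous_snd).prodMk continuous_fst))
  · intro g x
    rw [norm_mul, Real.norm_of_nonneg (kap_nonneg s x)]
    calc kap s x * ‖Φ (g * x) g‖ ≤ kap s x * (C * ch x ^ (2 * N)) :=
          mul_le_mul_of_nonneg_left (hb' g x) (kap_nonneg s x)
      _ = C * (kap s x * ch x ^ (2 * N)) := by ring
  · refine Continuous.aestronglyMeasurable ?_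
    exact ((continuous_kap s).comp continuous_snd).mul
      (hΦ.comp (continuous_fst.prodMk (continuous_fst.mul continuous_snd)))
  · intro g x
    rw [norm_mul, Real.norm_of_nonneg (kap_nonneg s x)]
    calc kap s x * ‖Φ g (g * x)‖ ≤ kap s x * (C * ch x ^ (2 * N)) :=
          mul_le_mul_of_nonneg_left (hb g x) (kap_nonneg s x)
      _ = C * (kap s x * ch x ^ (2 * N)) := by ring

omit [CompleteSpace E] in
theorem II_congr {χ : SUGroup n → ℝ} {f₁ f₂ : SUGroup n → E} (h : ∀ g, f₁ g = f₂ g) :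
    II χ f₁ = II χ f₂ := by
  have : f₁ = f₂ := funext h
  rw [this]

omit [CompleteSpace E] in
theorem Cut.integrable_cont {χ : SUGroup n → ℝ} (hχ : Cut Γ χ) {f : SUGroup n → E}
    (hf : Continuous f) : Integrable (fun g => χ g • f g) (mu n) :=
  (hχ.cont.smul hf).integrable_of_hasCompactSupport hχ.supp.smul_right

omit [CompleteSpace E] in
theorem II_add {χ : SUGroup n → ℝ} (hχ : Cut Γ χ) {f₁ f₂ : SUGroup n → E} (h₁ : Continuous f₁)
    (h₂ : Continuous f₂) : II χ (fun g => f₁ g + f₂ g) = II χ f₁ + II χ f₂ := by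
  unfold II
  rw [← integral_add (hχ.integrable_cont h₁) (hχ.integrable_cont h₂)]
  exact integral_congr_ae (Filter.Eventually.of_forall fun g => smul_add _ _ _)

omit [CompleteSpace E] in
theorem II_sub {χ : SUGroup n → ℝ} (hχ : Cut Γ χ) {f₁ f₂ : SUGroup n → E} (h₁ : Continuous f₁)
    (h₂ : Continuous f₂) : II χ (fun g => f₁ g - f₂ g) = II χ f₁ - II χ f₂ := by
  unfold II
  rw [← integral_sub (hχ.integrable_cont h₁) (hχ.integrable_cont h₂)]
  exact integral_congr_ae (Filter.Eventually.of_forall fun g => smul_sub _ _ _)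

omit [CompleteSpace E] in
theorem II_const_smul {χ : SUGroup n → ℝ} (c : ℝ) (f : SUGroup n → E) :
    II χ (fun g => c • f g) = c • II χ f := by
  unfold II
  rw [← integral_smul]
  exact integral_congr_ae (Filter.Eventually.of_forall fun g => smul_comm _ _ _)

omit [CompleteSpace E] in
theorem II_sum {χ : SUGroup n → ℝ} (hχ : Cut Γ χ) {ι : Type} (T : Finset ι)
    {f : ι → SUGroup n → E} (h : ∀ i ∈ T, Continuous (f i)) :
    II χ (fun g => ∑ i ∈ T, f i g) = ∑ i ∈ T, II χ (f i) := by
  unfold II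
  rw [← integral_finsetSum T fun i hi => hχ.integrable_cont (h i hi)]
  exact integral_congr_ae (Filter.Eventually.of_forall fun g => Finset.smul_sum)

section lap

variable {f : Vec n → E}

omit [CompleteSpace E] in
private theorem cda (hf2 : ContDiffOn ℝ 2 f (Cone n)) {v : Vec n} (hv : v ∈ Cone n) :
    ContDiffAt ℝ 2 f v := hf2.contDiffAt ((isOpen_cone n).mem_nhds hv)

omit [CompleteSpace E] in
theorem continuousOn_fderiv_cone (hf2 : ContDiffOn ℝ 2 f (Cone n)) :
    ContinuousOn (fderiv ℝ f) (Cone n) :=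
  (hf2.fderiv_of_isOpen (isOpen_cone n) (m := 1) (by norm_num)).continuousOn

omit [CompleteSpace E] in
theorem continuousOn_fderiv_two_cone (hf2 : ContDiffOn ℝ 2 f (Cone n)) :
    ContinuousOn (fderiv ℝ (fderiv ℝ f)) (Cone n) :=
  ((hf2.fderiv_of_isOpen (isOpen_cone n) (m := 1) (by norm_num)).fderiv_of_isOpen
    (isOpen_cone n) (m := 0) (by norm_num)).continuousOn

theorem continuous_actv (w : Vec n) : Continuous fun g : SUGroup n => act g w :=
  (continuous_toMatrix n).matrix_mulVec continuous_const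

omit [CompleteSpace E] in
theorem continuous_D1 (hf2 : ContDiffOn ℝ 2 f (Cone n)) (w : Vec n) :
    Continuous fun g : SUGroup n => fderiv ℝ f (act g (base n)) (act g w) :=
  ((continuousOn_fderiv_cone hf2).comp_continuous continuous_orbit orbit_mem).clm_apply
    (continuous_actv w)

omit [CompleteSpace E] in
theorem continuous_D2 (hf2 : ContDiffOn ℝ 2 f (Cone n)) (w : Vec n) :
    Continuous fun g : SUGroup n =>
      fderiv ℝ (fderiv ℝ f) (act g (base n)) (act g w) (act g w) :=
  (((continuousOn_fderiv_two_cone hf2).comp_continuous continuous_orbit orbit_mem).clm_apply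
    (continuous_actv w)).clm_apply (continuous_actv w)

omit [NormedSpace ℝ E] [CompleteSpace E] in
theorem Inv.eventuallyEq (hi : Inv Γ f) {γ : SUGroup n} (hγ : γ ∈ Γ) {v : Vec n}
    (hv : v ∈ Cone n) : (fun u => f (act γ u)) =ᶠ[𝓝 v] f := by
  filter_upwards [(isOpen_cone n).mem_nhds hv] with u hu
  exact hi γ hγ u hu

omit [CompleteSpace E] in
theorem Inv.fderiv_act (hi : Inv Γ f) {γ : SUGroup n} (hγ : γ ∈ Γ) {v : Vec n}
    (hv : v ∈ Cone n) (hd : DifferentiableAt ℝ f (act γ v)) (ξ : Vec n) :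
    fderiv ℝ f (act γ v) (act γ ξ) = fderiv ℝ f v ξ := by
  rw [← (hi.eventuallyEq hγ hv).fderiv_eq]
  have h1 : HasFDerivAt (fun u => f (actL γ u)) ((fderiv ℝ f (act γ v)).comp (actL γ)) v :=
    HasFDerivAt.comp v (g := f) (f := fun u => actL γ u) hd.hasFDerivAt (actL γ).hasFDerivAt
  have h2 : (fun u => f (act γ u)) = fun u => f (actL γ u) := rfl
  rw [h2, h1.fderiv]
  rfl

omit [CompleteSpace E] in
theorem lap_congr {f₁ f₂ : Vec n → E} {v : Vec n} (h : f₁ =ᶠ[𝓝 v] f₂) : Lap f₁ v = Lap f₂ v := by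
  unfold Lap
  rw [h.fderiv.fderiv_eq]

omit [CompleteSpace E] in
theorem Inv.lap (hi : Inv Γ f) (hf2 : ContDiffOn ℝ 2 f (Cone n)) : Inv Γ (Lap f) := by
  intro γ hγ v hv
  rw [← lap_act f γ hv (cda hf2 (act_mem γ hv))]
  exact lap_congr (hi.eventuallyEq hγ hv)

theorem vec_single (j : Fin n) (c : ℂ) : vec (Pi.single j c) = Pi.single j.castSucc c := by
  funext i
  refine Fin.lastCases ?_ (fun i => ?_) i
  · rw [Kak.vec_last, Pi.single_eq_of_ne]
    exact (Fin.castSucc_ne_last j).symm
  · rw [Kak.vec_castSucc]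
    by_cases h : i = j
    · rw [h, Pi.single_eq_same, Pi.single_eq_same]
    · rw [Pi.single_eq_of_ne h, Pi.single_eq_of_ne]
      exact fun h' => h (Fin.castSucc_injective n h')

theorem sum_single_sq (j : Fin n) {c : ℂ} (hc : ‖c‖ = 1) :
    ∑ i, ‖(Pi.single j c : Fin n → ℂ) i‖ ^ 2 = 1 := by
  rw [Finset.sum_eq_single j]
  · rw [Pi.single_eq_same, hc, one_pow]
  · intro i _ hij
    rw [Pi.single_eq_of_ne hij]
    simp
  · intro h
    exact absurd (Finset.mem_univ j) h

/-- The integral of a second derivative along a flow vanishes. -/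
theorem II_D2 (hΓ : Coc Γ) {χ : SUGroup n → ℝ} (hχ : Cut Γ χ) (hf : Homog f)
    (hf2 : ContDiffOn ℝ 2 f (Cone n)) (hi : Inv Γ f) {ξ : Fin n → ℂ} (hξ : ∑ i, ‖ξ i‖ ^ 2 = 1) :
    II χ (fun g => fderiv ℝ (fderiv ℝ f) (act g (base n)) (act g (vec ξ)) (act g (vec ξ))) = 0 := by
  obtain ⟨b, hb0, hb, hbc, -, hbd⟩ := exists_flow ξ hξ
  refine II_flow hΓ hχ hb0 hb hbc (continuous_D1 hf2 (vec ξ)) (continuous_D2 hf2 (vec ξ))
    (fun g t => hasDerivAt_flow_two hf hξ hbd g t (cda hf2 (orbit_mem _))) fun γ hγ g => ?_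
  rw [act_mul, act_mul]
  exact hi.fderiv_act hγ (orbit_mem g)
    ((cda hf2 (act_mem γ (orbit_mem g))).differentiableAt (by norm_num)) _

/-- `∫_{Γ\G} Lap f = 0`: `II_flow`, `hasDerivAt_flow_two`, `lap_frame`. -/
theorem II_lap (hn : 1 ≤ n) (hΓ : Coc Γ) {χ : SUGroup n → ℝ} (hχ : Cut Γ χ) {f : Vec n → E}
    (hf : Homog f) (hf2 : ContDiffOn ℝ 2 f (Cone n)) (hi : Inv Γ f) :
    II χ (fun g => Lap f (act g (base n))) = 0 := by
  have h1 : ∀ g, Lap f (act g (base n)) = (1 / 4 : ℝ) • ∑ j : Fin n,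
      (fderiv ℝ (fderiv ℝ f) (act g (base n)) (act g (vec (Pi.single j 1)))
          (act g (vec (Pi.single j 1))) +
        fderiv ℝ (fderiv ℝ f) (act g (base n)) (act g (vec (Pi.single j Complex.I)))
          (act g (vec (Pi.single j Complex.I)))) := by
    intro g
    rw [lap_frame hf g (cda hf2 (orbit_mem g))]
    simp only [vec_single]
  rw [II_congr h1, II_const_smul, II_sum hχ]
  · have h2 : ∀ j : Fin n, II χ (fun g => 
      fderiv ℝ (fderiv ℝ f) (act g (base n)) (act g (vec (Pi.single j 1)))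
          (act g (vec (Pi.single j 1))) +
        fderiv ℝ (fderiv ℝ f) (act g (base n)) (act g (vec (Pi.single j Complex.I)))
          (act g (vec (Pi.single j Complex.I)))) = 0 := by
      intro j
      rw [II_add hχ (continuous_D2 hf2 _) (continuous_D2 hf2 _),
        II_D2 hΓ hχ hf hf2 hi (sum_single_sq j (by simp)),
        II_D2 hΓ hχ hf hf2 hi (sum_single_sq j (by simp)), add_zero]
    simp only [h2, Finset.sum_const_zero, smul_zero]
  · intro j _
    exact (continuous_D2 hf2 _).add (continuous_D2 hf2 _)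

end lap

/-- A function on the cone is determined by its values on the orbit. -/
theorem eq_base_of_orbit {F : Type} {f : Vec n → F} (hh : Homog f)
    (h : ∀ g : SUGroup n, f (act g (base n)) = f (base n)) {v : Vec n} (hv : v ∈ Cone n) :
    f v = f (base n) := by
  obtain ⟨g, c, hc, rfl⟩ := exists_act_eq hv
  rw [hh c hc _ (orbit_mem g), h]

/-- A continuous invariant function which is below its average is constant (blueprint B3): the
integral of `P s f - f ≥ 0` vanishes, so `P s f = f`, and at a maximum (`kap s > 0` everywhere). -/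
theorem const_of_le_P (hΓ : Coc Γ) : ∃ s₀ : ℕ, ∀ s, s₀ ≤ s → ∀ f : Vec n → ℝ,
    ContinuousOn f (Cone n) → Homog f → Inv Γ f → (∀ v ∈ Cone n, f v ≤ P s f v) →
      ∀ v ∈ Cone n, f v = f (base n) := by
  obtain ⟨s₁, hs₁⟩ := P_contDiffOn (E := ℝ) n 0
  obtain ⟨χ, hχ⟩ := exists_cut hΓ
  obtain ⟨s₃, hs₃⟩ := II_P (E := ℝ) hΓ hχ
  refine ⟨max (max s₁ s₃) (n + 1), fun s hs f hf hh hi hle v hv => ?_⟩
  have hs1 : s₁ ≤ s := le_trans (le_trans (le_max_left _ _) (le_max_left _ _)) hs
  have hs3 : s₃ ≤ s := le_trans (le_trans (le_max_right _ _) (le_max_left _ _)) hs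
  have hns : n < s := le_trans (le_max_right _ _) hs
  have hF : Continuous fun g : SUGroup n => f (act g (base n)) := continuous_orb hf
  have hFi : ∀ γ ∈ Γ, ∀ g : SUGroup n, f (act (γ * g) (base n)) = f (act g (base n)) := by
    intro γ hγ g
    rw [act_mul]
    exact hi γ hγ _ (orbit_mem g)
  obtain ⟨C, hC⟩ := bounded_of_invariant hΓ hF hFi
  have hadm : Adm 0 C f := ⟨hF.aestronglyMeasurable, fun y => by
    rw [mul_zero, pow_zero, mul_one]
    exact hC y⟩
  have hPc : Continuous fun g : SUGroup n => P s f (act g (base n)) :=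
    continuous_orb (hs₁ s hs1 C f hadm).continuousOn
  have hPi : ∀ γ ∈ Γ, ∀ g : SUGroup n, P s f (act (γ * g) (base n)) = P s f (act g (base n)) := by
    intro γ hγ g
    rw [P_orbit, P_orbit]
    refine integral_congr_ae (Filter.Eventually.of_forall fun x => ?_)
    show kap s x • f (act (γ * g * x) (base n)) = kap s x • f (act (g * x) (base n))
    rw [mul_assoc, hFi γ hγ]
  have hzero : ∀ g : SUGroup n, P s f (act g (base n)) - f (act g (base n)) = 0 := by
    refine eq_zero_of_II hΓ hχ (hPc.sub hF) (fun γ hγ g => by rw [hPi γ hγ, hFi γ hγ])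
      (fun g => sub_nonneg.2 (hle _ (orbit_mem g))) ?_
    rw [II_sub hχ hPc hF, hs₃ s hs3 f hf hi, sub_self]
  -- the maximum
  obtain ⟨K, hK, hcov⟩ := hΓ.cpt
  have hKne : K.Nonempty := by
    obtain ⟨γ, -, h⟩ := hcov 1
    exact ⟨_, h⟩
  obtain ⟨g₀, -, hmax⟩ := hK.exists_isMaxOn hKne hF.continuousOn
  have hmax' : ∀ g : SUGroup n, f (act g (base n)) ≤ f (act g₀ (base n)) := by
    intro g
    obtain ⟨γ, hγ, h⟩ := hcov g
    rw [← hFi γ hγ g]
    exact hmax h
  have hc1 : Continuous fun x : SUGroup n =>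
      kap s x * (f (act g₀ (base n)) - f (act (g₀ * x) (base n))) :=
    (continuous_kap s).mul (continuous_const.sub (hF.comp (continuous_const_mul g₀)))
  have hi1 : Integrable (fun x : SUGroup n => kap s x * f (act g₀ (base n))) (mu n) :=
    (integrable_kap hns).mul_const _
  have hi2 : Integrable (fun x : SUGroup n => kap s x * f (act (g₀ * x) (base n))) (mu n) := by
    refine ((integrable_kap hns).mul_const C).mono'
      ((continuous_kap s).mul (hF.comp (continuous_const_mul g₀))).aestronglyMeasurable ?_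
    refine Filter.Eventually.of_forall fun x => ?_
    rw [norm_mul, Real.norm_of_nonneg (kap_nonneg s x)]
    exact mul_le_mul_of_nonneg_left (hC _) (kap_nonneg s x)
  have hint0 : ∫ x : SUGroup n, kap s x * (f (act g₀ (base n)) - f (act (g₀ * x) (base n)))
      ∂(mu n) = 0 := by
    have h1 := hzero g₀
    rw [P_orbit] at h1
    simp only [mul_sub]
    rw [integral_sub hi1 hi2, integral_mul_const, integral_kap hns, one_mul]
    have h2 : ∫ x : SUGroup n, kap s x • f (act (g₀ * x) (base n)) ∂(mu n) =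
        ∫ x : SUGroup n, kap s x * f (act (g₀ * x) (base n)) ∂(mu n) := rfl
    rw [h2] at h1
    linarith
  have hint1 : Integrable (fun x : SUGroup n =>
      kap s x * (f (act g₀ (base n)) - f (act (g₀ * x) (base n)))) (mu n) := by
    simp only [mul_sub]
    exact hi1.sub hi2
  have h0 : (fun x : SUGroup n =>
      kap s x * (f (act g₀ (base n)) - f (act (g₀ * x) (base n)))) = 0 := by
    refine (Continuous.ae_eq_iff_eq (mu n) hc1 continuous_const).1 ?_
    exact (integral_eq_zero_iff_of_nonneg (fun x => mul_nonneg (kap_nonneg s x)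
      (sub_nonneg.2 (hmax' _))) hint1).1 hint0
  have h1 : ∀ g : SUGroup n, f (act g (base n)) = f (act g₀ (base n)) := by
    intro g
    have h2 := congrFun h0 (g₀⁻¹ * g)
    rw [mul_inv_cancel_left] at h2
    rcases mul_eq_zero.1 h2 with h3 | h3
    · exact absurd h3 (kap_pos hns _).ne'
    · linarith
  refine eq_base_of_orbit hh (fun g => ?_) hv
  have h2 := h1 1
  rw [act_one] at h2
  rw [h1 g, h2]

/-- All derivatives in the directions of the frame vanish: constancy. -/
theorem const_of_frame (hn : 1 ≤ n) {f : Vec n → ℝ} (hf : Homog f)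
    (hf2 : ContDiffOn ℝ 2 f (Cone n))
    (h : ∀ (g : SUGroup n) (j : Fin n),
      fderiv ℝ f (act g (base n)) (act g (vec (Pi.single j 1))) = 0 ∧
        fderiv ℝ f (act g (base n)) (act g (vec (Pi.single j Complex.I))) = 0)
    {v : Vec n} (hv : v ∈ Cone n) : f v = f (base n) := by
  have h1 : ∀ (g : SUGroup n) (ξ : Fin n → ℂ),
      fderiv ℝ f (act g (base n)) (act g (vec ξ)) = 0 := by
    intro g ξ
    have e1 : act g (vec ξ) = ∑ j : Fin n, ((ξ j).re • act g (vec (Pi.single j 1)) +
        (ξ j).im • act g (vec (Pi.single j Complex.I))) := by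
      have e2 : vec ξ = ∑ j : Fin n, ((ξ j).re • vec (n := n) (Pi.single j 1) +
          (ξ j).im • vec (n := n) (Pi.single j Complex.I)) := by
        funext i
        rw [Finset.sum_apply]
        refine Fin.lastCases ?_ (fun i => ?_) i
        · rw [Kak.vec_last]
          refine (Finset.sum_eq_zero fun j _ => ?_).symm
          rw [Pi.add_apply, Pi.smul_apply, Pi.smul_apply, Kak.vec_last, Kak.vec_last]
          simp
        · rw [Kak.vec_castSucc, Finset.sum_eq_single i]
          · rw [Pi.add_apply, Pi.smul_apply, Pi.smul_apply, Kak.vec_castSucc, Kak.vec_castSucc,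
              Pi.single_eq_same, Pi.single_eq_same, Complex.real_smul, Complex.real_smul, mul_one,
              Complex.re_add_im]
          · intro j _ hj
            rw [Pi.add_apply, Pi.smul_apply, Pi.smul_apply, Kak.vec_castSucc, Kak.vec_castSucc,
              Pi.single_eq_of_ne (Ne.symm hj), Pi.single_eq_of_ne (Ne.symm hj)]
            simp
          · intro h'
            exact absurd (Finset.mem_univ i) h'
      rw [e2]
      show actL g _ = _
      rw [map_sum]
      refine Finset.sum_congr rfl fun j _ => ?_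
      rw [map_add, map_smul, map_smul]
      rfl
    rw [e1, map_sum]
    refine Finset.sum_eq_zero fun j _ => ?_
    rw [map_add, map_smul, map_smul, (h g j).1, (h g j).2, smul_zero, smul_zero, add_zero]
  refine eq_base_of_orbit hf (fun x => ?_) hv
  obtain ⟨ξ, hξ, t, k, -, hk, rfl⟩ := Kak.exists_polar hn x
  obtain ⟨c, hc, hkc⟩ := (ch_eq_one_iff k).1 hk
  have hc0 : c ≠ 0 := by
    intro h0
    rw [h0, norm_zero] at hc
    exact zero_ne_one hc
  rw [act_mul, hkc, act_smul, hf c hc0 _ (orbit_mem _)]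
  have h2 : ∀ t : ℝ, HasDerivAt (fun t => f (act (1 * Kak.flow ξ hξ t) (base n))) 0 t := by
    intro t
    have h3 := hasDerivAt_flow (Kak.hasDerivAt_flow hξ) 1 t
      ((hf2.contDiffAt ((isOpen_cone n).mem_nhds (orbit_mem _))).differentiableAt (by norm_num))
    rwa [h1] at h3
  have h4 := is_const_of_deriv_eq_zero (fun t => (h2 t).differentiableAt)
    (fun t => (h2 t).deriv) t 0
  simp only [one_mul] at h4
  rw [h4, Kak.flow_zero, act_one]

/-- An invariant `C²` function with `Lap f ≥ 0` is constant: `Lap f = 0` by `II_lap`, `eq_zero_of_II`, and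
`Lap (f²) = 2 f Lap f + |∇f|²/2`, or the maximum principle via `const_of_le_P`. -/
theorem const_of_lap_nonneg (hn : 1 ≤ n) (hΓ : Coc Γ) {f : Vec n → ℝ} (hf : Homog f)
    (hf2 : ContDiffOn ℝ 2 f (Cone n)) (hi : Inv Γ f) (h : ∀ v ∈ Cone n, 0 ≤ Lap f v) :
    ∀ v ∈ Cone n, f v = f (base n) := by
  intro v hv
  obtain ⟨χ, hχ⟩ := exists_cut hΓ
  set F : SUGroup n → ℝ := fun g => f (act g (base n)) with hFdef
  set D1 : Vec n → SUGroup n → ℝ := fun w g => fderiv ℝ f (act g (base n)) (act g w) with hD1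
  set D2 : Vec n → SUGroup n → ℝ := fun w g =>
    fderiv ℝ (fderiv ℝ f) (act g (base n)) (act g w) (act g w) with hD2
  have hFc : Continuous F := continuous_orb hf2.continuousOn
  have hFi : ∀ γ ∈ Γ, ∀ g : SUGroup n, F (γ * g) = F g := by
    intro γ hγ g
    rw [hFdef]
    show f (act (γ * g) (base n)) = f (act g (base n))
    rw [act_mul]
    exact hi γ hγ _ (orbit_mem g)
  have h1c : ∀ w, Continuous (D1 w) := fun w => continuous_D1 hf2 w
  have h2c : ∀ w, Continuous (D2 w) := fun w => continuous_D2 hf2 w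
  have h1i : ∀ w, ∀ γ ∈ Γ, ∀ g : SUGroup n, D1 w (γ * g) = D1 w g := by
    intro w γ hγ g
    show fderiv ℝ f (act (γ * g) (base n)) (act (γ * g) w) = fderiv ℝ f (act g (base n)) (act g w)
    rw [act_mul, act_mul]
    exact hi.fderiv_act hγ (orbit_mem g)
      ((cda hf2 (act_mem γ (orbit_mem g))).differentiableAt (by norm_num)) _
  have hlap : ∀ g : SUGroup n, Lap f (act g (base n)) = (1 / 4 : ℝ) * ∑ j : Fin n,
      (D2 (vec (Pi.single j 1)) g + D2 (vec (Pi.single j Complex.I)) g) := by
    intro g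
    rw [lap_frame hf g (cda hf2 (orbit_mem g)), smul_eq_mul]
    simp only [hD2, vec_single]
  have hlapc : Continuous fun g : SUGroup n => Lap f (act g (base n)) := by
    simp only [hlap]
    exact continuous_const.mul (continuous_finsetSum _ fun j _ => (h2c _).add (h2c _))
  have hlap0 : ∀ g : SUGroup n, Lap f (act g (base n)) = 0 := by
    refine eq_zero_of_II hΓ hχ hlapc (fun γ hγ g => ?_) (fun g => h _ (orbit_mem g))
      (II_lap hn hΓ hχ hf hf2 hi)
    rw [act_mul]
    exact hi.lap hf2 γ hγ _ (orbit_mem g)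
  -- the flow identity for `f D f`
  have hflow : ∀ ξ : Fin n → ℂ, ∑ i, ‖ξ i‖ ^ 2 = 1 →
      II χ (fun g => D1 (vec ξ) g * D1 (vec ξ) g + F g * D2 (vec ξ) g) = 0 := by
    intro ξ hξ
    obtain ⟨b, hb0, hb, hbc, -, hbd⟩ := exists_flow ξ hξ
    refine II_flow hΓ hχ hb0 hb hbc (Ψ := fun g => F g * D1 (vec ξ) g)
      (hFc.mul (h1c _)) (((h1c _).mul (h1c _)).add (hFc.mul (h2c _))) (fun g t => ?_)
      fun γ hγ g => ?_
    · exact (hasDerivAt_flow hbd g t
        ((cda hf2 (orbit_mem _)).differentiableAt (by norm_num))).mul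
        (hasDerivAt_flow_two hf hξ hbd g t (cda hf2 (orbit_mem _)))
    · show F (γ * g) * D1 (vec ξ) (γ * g) = F g * D1 (vec ξ) g
      rw [hFi γ hγ, h1i _ γ hγ]
  have hc3 : ∀ w, Continuous fun g => D1 w g * D1 w g + F g * D2 w g := fun w =>
    ((h1c w).mul (h1c w)).add (hFc.mul (h2c w))
  have hsum : II χ (fun g => ∑ j : Fin n,
      (D1 (vec (Pi.single j 1)) g * D1 (vec (Pi.single j 1)) g +
        D1 (vec (Pi.single j Complex.I)) g * D1 (vec (Pi.single j Complex.I)) g)) = 0 := by
    have e1 : ∀ g : SUGroup n, ∑ j : Fin n,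
        (D1 (vec (Pi.single j 1)) g * D1 (vec (Pi.single j 1)) g +
          D1 (vec (Pi.single j Complex.I)) g * D1 (vec (Pi.single j Complex.I)) g) =
        ∑ j : Fin n, ((D1 (vec (Pi.single j 1)) g * D1 (vec (Pi.single j 1)) g +
          F g * D2 (vec (Pi.single j 1)) g) +
        (D1 (vec (Pi.single j Complex.I)) g * D1 (vec (Pi.single j Complex.I)) g +
          F g * D2 (vec (Pi.single j Complex.I)) g)) := by
      intro g
      have e2 : ∑ j : Fin n, F g * (D2 (vec (Pi.single j 1)) g +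
          D2 (vec (Pi.single j Complex.I)) g) = 0 := by
        rw [← Finset.mul_sum]
        have e3 := hlap g
        rw [hlap0 g] at e3
        have e4 : ∑ j : Fin n, (D2 (vec (Pi.single j 1)) g +
          D2 (vec (Pi.single j Complex.I)) g) = 0 := by linarith
        rw [e4, mul_zero]
      rw [← add_zero (∑ j : Fin n, (D1 (vec (Pi.single j 1)) g * D1 (vec (Pi.single j 1)) g +
          D1 (vec (Pi.single j Complex.I)) g * D1 (vec (Pi.single j Complex.I)) g)), ← e2,
        ← Finset.sum_add_distrib]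
      refine Finset.sum_congr rfl fun j _ => ?_
      ring
    rw [II_congr e1, II_sum hχ]
    · refine Finset.sum_eq_zero fun j _ => ?_
      rw [II_add hχ (hc3 _) (hc3 _), hflow _ (sum_single_sq j (by simp)), hflow _ (sum_single_sq j (by simp)), add_zero]
    · intro j _
      exact (hc3 _).add (hc3 _)
  have hz : ∀ g : SUGroup n, ∑ j : Fin n,
      (D1 (vec (Pi.single j 1)) g * D1 (vec (Pi.single j 1)) g +
        D1 (vec (Pi.single j Complex.I)) g * D1 (vec (Pi.single j Complex.I)) g) = 0 := by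
    refine eq_zero_of_II hΓ hχ (continuous_finsetSum _ fun j _ =>
      ((h1c _).mul (h1c _)).add ((h1c _).mul (h1c _))) (fun γ hγ g => ?_) (fun g => ?_) hsum
    · refine Finset.sum_congr rfl fun j _ => ?_
      rw [h1i _ γ hγ, h1i _ γ hγ]
    · exact Finset.sum_nonneg fun j _ => add_nonneg (mul_self_nonneg _) (mul_self_nonneg _)
  refine const_of_frame hn hf hf2 (fun g j => ?_) hv
  have h3 := (Finset.sum_eq_zero_iff_of_nonneg fun j _ =>
    add_nonneg (mul_self_nonneg _) (mul_self_nonneg _)).1 (hz g) j (Finset.mem_univ j)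
  have h4 := (add_eq_zero_iff_of_nonneg (mul_self_nonneg _) (mul_self_nonneg _)).1 h3
  exact ⟨mul_self_eq_zero.1 h4.1, mul_self_eq_zero.1 h4.2⟩

end Pool.Agent.Lib.MP_5d4057_al.HM
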