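import Pool.Agent.Lib.MP_5d4057_al.HM.Basic

set_option linter.unusedSimpArgs false

namespace Pool.Agent.Lib.MP_5d4057_al.HM

open Matrix MeasureTheory Filter Topology Pool.Agent.Lib.MP_5d4057_al Pool.Agent.Lib.MP_5d4057_al.Hyb

open scoped ComplexOrder MatrixOrder Matrix.Norms.L2Operator

variable {n m : ℕ} {E : Type} [NormedAddCommGroup E] [NormedSpace ℝ E]

/-- The signs. -/
noncomputable def lkEps (n : ℕ) (i : Fin (n + 1)) : ℝ := if i = Fin.last n then -1 else 1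

theorem lkEps_sq (i : Fin (n + 1)) : lkEps n i * lkEps n i = 1 := by
  unfold lkEps; split_ifs <;> norm_num

theorem lk_J (i : Fin (n + 1)) : J n i i = ((lkEps n i : ℝ) : ℂ) := by
  unfold J lkEps
  rw [diagonal_apply_eq]
  split_ifs <;> simp

theorem lk_J_re (i : Fin (n + 1)) : (J n i i).re = lkEps n i := by
  rw [lk_J, Complex.ofReal_re]

theorem lk_herm (v w : Vec n) :
    herm v w = ∑ i, (starRingEnd ℂ) (v i) * (((lkEps n i : ℝ) : ℂ) * w i) := by
  rw [herm, dotProduct]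
  refine Finset.sum_congr rfl fun i _ => ?_
  rw [J, mulVec_diagonal, Pi.star_apply]
  unfold lkEps
  split_ifs <;> simp

theorem lk_q (v : Vec n) : q v = ∑ i, lkEps n i * ‖v i‖ ^ 2 := by
  rw [q, lk_herm, Complex.re_sum]
  refine Finset.sum_congr rfl fun i _ => ?_
  have : (starRingEnd ℂ) (v i) * (((lkEps n i : ℝ) : ℂ) * v i) =
      ((lkEps n i * ‖v i‖ ^ 2 : ℝ) : ℂ) := by
    rw [mul_left_comm, mul_comm ((starRingEnd ℂ) (v i)), Complex.mul_conj, Complex.normSq_eq_norm_sq]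
    push_cast; rfl
  rw [this, Complex.ofReal_re]

theorem lk_contDiff_herm (w : Vec n) : ContDiff ℝ (⊤ : ℕ∞) (fun v : Vec n => herm v w) := by
  have : (fun v : Vec n => herm v w) =
      fun v => ∑ i, (starRingEnd ℂ) (v i) * (((lkEps n i : ℝ) : ℂ) * w i) := funext fun v => lk_herm v w
  rw [this]
  refine ContDiff.sum fun i _ => ?_
  refine ContDiff.mul ?_ contDiff_const
  exact (Complex.conjCLE.contDiff (n := (⊤ : ℕ∞))).comp (contDiff_apply ℝ ℂ i)

theorem lk_contDiff_q : ContDiff ℝ (⊤ : ℕ∞) (fun v : Vec n => q v) := by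
  have : (fun v : Vec n => q v) = fun v => ∑ i, lkEps n i * ‖v i‖ ^ 2 := funext fun v => lk_q v
  rw [this]
  refine ContDiff.sum fun i _ => ?_
  refine ContDiff.mul contDiff_const ?_
  exact (contDiff_apply ℝ ℂ i).norm_sq ℝ

/-- The kernel is smooth in the first variable. -/
theorem contDiffOn_ker (s : ℕ) {w : Vec n} (hw : w ∈ Cone n) :
    ContDiffOn ℝ (⊤ : ℕ∞) (fun v => ker s v w) (Cone n) := by
  unfold ker
  refine ContDiffOn.pow ?_ s
  refine ContDiffOn.div ?_ ?_ ?_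
  · exact (lk_contDiff_q.mul contDiff_const).contDiffOn
  · exact ((lk_contDiff_herm w).norm_sq ℝ).contDiffOn
  · intro v hv
    have := herm_ne_zero hv hw
    positivity

/-- Second derivatives can be computed on real lines. -/
theorem fderiv_fderiv_line {f : Vec n → E} {v ξ : Vec n} (hf : ContDiffAt ℝ 2 f v) :
    fderiv ℝ (fderiv ℝ f) v ξ ξ = deriv (deriv fun t : ℝ => f (v + t • ξ)) 0 := by
  have hline : ∀ t : ℝ, HasDerivAt (fun t : ℝ => v + t • ξ) ξ t := by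
    intro t
    have := ((hasDerivAt_id t).smul_const ξ).const_add v
    simpa using this
  have hc : Tendsto (fun t : ℝ => v + t • ξ) (𝓝 0) (𝓝 v) := by
    have := (hline 0).continuousAt
    unfold ContinuousAt at this
    simpa using this
  have h1 : ∀ᶠ u in 𝓝 v, DifferentiableAt ℝ f u := by
    have h2 := hf.eventually (by norm_num)
    filter_upwards [h2] with u hu
    exact hu.differentiableAt (by norm_num)
  have h2 : deriv (fun t : ℝ => f (v + t • ξ)) =ᶠ[𝓝 0] fun t => fderiv ℝ f (v + t • ξ) ξ := by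
    filter_upwards [hc.eventually h1] with t ht
    exact (ht.hasFDerivAt.comp_hasDerivAt t (hline t)).deriv
  rw [h2.deriv_eq]
  have h3 : DifferentiableAt ℝ (fderiv ℝ f) v := by
    have h4 : ContDiffAt ℝ 1 (fderiv ℝ f) v := hf.fderiv_right (by norm_num)
    exact h4.differentiableAt (by norm_num)
  have h5 : HasFDerivAt (fderiv ℝ f) (fderiv ℝ (fderiv ℝ f) v) (v + (0 : ℝ) • ξ) := by
    rw [zero_smul, add_zero]
    exact h3.hasFDerivAt
  have h6 := (h5.comp_hasDerivAt (0 : ℝ) (hline 0))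
  have h7 : HasDerivAt (fun t : ℝ => fderiv ℝ f (v + t • ξ) ξ)
      (fderiv ℝ (fderiv ℝ f) v ξ ξ) 0 := by
    have := h6.clm_apply (hasDerivAt_const (0 : ℝ) ξ)
    simpa using this
  exact h7.deriv.symm

/-- Derivative of a power of a quotient. -/
theorem lk_pow_deriv (s : ℕ) {κ Q' N' t : ℝ} {Qf Nf : ℝ → ℝ} (hκ : κ ≠ 0) (hQ : Qf t ≠ 0)
    (hN : Nf t ≠ 0) (h1 : HasDerivAt Qf Q' t) (h2 : HasDerivAt Nf N' t) :
    HasDerivAt (fun t => (Qf t * κ / Nf t) ^ s)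
      ((Qf t * κ / Nf t) ^ s * (s * (Q' / Qf t - N' / Nf t))) t := by
  have h3 := ((h1.mul_const κ).fun_div h2 hN).fun_pow s
  refine h3.congr_deriv ?_
  have e : (Q' * κ * Nf t - Qf t * κ * N') / Nf t ^ 2 =
      Qf t * κ / Nf t * (Q' / Qf t - N' / Nf t) := by
    field_simp
  rw [e]
  rcases Nat.eq_zero_or_pos s with h | h
  · subst h; simp
  · obtain ⟨k, rfl⟩ : ∃ k, s = k + 1 := ⟨s - 1, by omega⟩
    simp only [Nat.add_sub_cancel]
    rw [pow_succ]
    ring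

theorem lk_real_smul (t : ℝ) (ξ : Vec n) : t • ξ = (t : ℂ) • ξ := by
  funext i
  simp

theorem lk_herm_line (v w ξ : Vec n) (t : ℝ) :
    herm (v + t • ξ) w = herm v w + (t : ℂ) * herm ξ w := by
  rw [lk_real_smul, herm_add_left, herm_smul_left, Complex.star_def, Complex.conj_ofReal]

theorem lk_q_line (v ξ : Vec n) (t : ℝ) :
    q (v + t • ξ) = q v + 2 * t * (herm v ξ).re + t ^ 2 * q ξ := by
  have h1 : herm (v + t • ξ) (v + t • ξ) = herm v v + (t : ℂ) * herm ξ v + (t : ℂ) *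
      (herm v ξ + (t : ℂ) * herm ξ ξ) := by
    rw [lk_herm_line, lk_real_smul, herm_add_right, herm_add_right, herm_smul_right,
      herm_smul_right]
    ring
  rw [q, h1, herm_comm v ξ, herm_self, herm_self]
  simp only [Complex.add_re, Complex.mul_re, Complex.ofReal_re, Complex.ofReal_im, Complex.add_im,
    Complex.mul_im, Complex.star_def, Complex.conj_re, Complex.conj_im]
  ring

theorem lk_norm_line (h k : ℂ) (t : ℝ) :
    ‖h + (t : ℂ) * k‖ ^ 2 = ‖h‖ ^ 2 + 2 * t * ((starRingEnd ℂ) h * k).re + t ^ 2 * ‖k‖ ^ 2 := by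
  rw [← Complex.normSq_eq_norm_sq, ← Complex.normSq_eq_norm_sq, ← Complex.normSq_eq_norm_sq,
    Complex.normSq_apply, Complex.normSq_apply, Complex.normSq_apply]
  simp only [Complex.add_re, Complex.mul_re, Complex.ofReal_re, Complex.ofReal_im, Complex.add_im,
    Complex.mul_im, Complex.conj_re, Complex.conj_im]
  ring

theorem lk_second (s : ℕ) (κ Q N a b c d : ℝ) (hκ : κ ≠ 0) (hQ : Q ≠ 0) (hN : N ≠ 0) :
    deriv (deriv fun t : ℝ => ((Q + 2 * t * a + t ^ 2 * b) * κ / (N + 2 * t * c + t ^ 2 * d)) ^ s) 0 =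
      (Q * κ / N) ^ s * ((s : ℝ) ^ 2 * (4 * a ^ 2 / Q ^ 2 - 8 * (a * c) / (Q * N) + 4 * c ^ 2 / N ^ 2) +
        s * (2 * b / Q - 2 * d / N - 4 * a ^ 2 / Q ^ 2 + 4 * c ^ 2 / N ^ 2)) := by
  have hq : ∀ (Q a b t : ℝ), HasDerivAt (fun t : ℝ => Q + 2 * t * a + t ^ 2 * b) (2 * a + 2 * t * b) t := by
    intro Q a b t
    have h1 : HasDerivAt (fun t : ℝ => 2 * t * a) (2 * a) t := by
      have := ((hasDerivAt_id t).const_mul 2).mul_const a
      simpa using this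
    have h2 : HasDerivAt (fun t : ℝ => t ^ 2 * b) (2 * t * b) t := by
      have := (hasDerivAt_pow 2 t).mul_const b
      simpa using this
    exact (h1.const_add Q).add h2
  have hl : ∀ (a b t : ℝ), HasDerivAt (fun t : ℝ => 2 * a + 2 * t * b) (2 * b) t := by
    intro a b t
    have := (((hasDerivAt_id t).const_mul 2).mul_const b).const_add (2 * a)
    simpa using this
  have hne : ∀ (Q a b : ℝ), Q ≠ 0 → ∀ᶠ t in 𝓝 (0 : ℝ), Q + 2 * t * a + t ^ 2 * b ≠ 0 := by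
    intro Q a b hQ
    have h1 := (hq Q a b 0).continuousAt
    refine h1.eventually_ne ?_
    simpa using hQ
  have h1 : (deriv fun t : ℝ => ((Q + 2 * t * a + t ^ 2 * b) * κ / (N + 2 * t * c + t ^ 2 * d)) ^ s)
      =ᶠ[𝓝 0] fun t => ((Q + 2 * t * a + t ^ 2 * b) * κ / (N + 2 * t * c + t ^ 2 * d)) ^ s *
        (s * ((2 * a + 2 * t * b) / (Q + 2 * t * a + t ^ 2 * b) -
          (2 * c + 2 * t * d) / (N + 2 * t * c + t ^ 2 * d))) := by
    filter_upwards [hne Q a b hQ, hne N c d hN] with t h2 h3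
    exact (lk_pow_deriv s (Qf := fun t => Q + 2 * t * a + t ^ 2 * b)
      (Nf := fun t => N + 2 * t * c + t ^ 2 * d) hκ h2 h3 (hq Q a b t) (hq N c d t)).deriv
  rw [h1.deriv_eq]
  have e1 : HasDerivAt (fun t : ℝ => ((Q + 2 * t * a + t ^ 2 * b) * κ / (N + 2 * t * c + t ^ 2 * d)) ^ s)
      ((Q * κ / N) ^ s * (s * (2 * a / Q - 2 * c / N))) 0 := by
    have := lk_pow_deriv s (Qf := fun t => Q + 2 * t * a + t ^ 2 * b)
      (Nf := fun t => N + 2 * t * c + t ^ 2 * d) hκ (by simpa using hQ) (by simpa using hN)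
      (hq Q a b 0) (hq N c d 0)
    simpa using this
  have e2 : ∀ (Q a b : ℝ), Q ≠ 0 → HasDerivAt (fun t : ℝ => (2 * a + 2 * t * b) /
      (Q + 2 * t * a + t ^ 2 * b)) ((2 * b * Q - 2 * a * (2 * a)) / Q ^ 2) 0 := by
    intro Q a b hQ
    have := (hl a b 0).fun_div (hq Q a b 0) (by simpa using hQ)
    simpa using this
  have e3 := e1.mul (((e2 Q a b hQ).sub (e2 N c d hN)).const_mul (s : ℝ))
  have e4 := e3.deriv
  simp only [Pi.mul_def, Pi.sub_def] at e4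
  refine Eq.trans ?_ (e4.trans ?_)
  · rfl
  · simp only [mul_zero, zero_mul, add_zero, ne_eq, OfNat.ofNat_ne_zero, not_false_eq_true, zero_pow]
    field_simp
    ring

theorem lk_line (s : ℕ) {v w : Vec n} (hv : v ∈ Cone n) (hw : w ∈ Cone n) (ξ : Vec n) :
    fderiv ℝ (fderiv ℝ (fun v => ker s v w)) v ξ ξ = ker s v w *
      ((s : ℝ) ^ 2 * (4 * (herm v ξ).re ^ 2 / q v ^ 2 -
          8 * ((herm v ξ).re * ((starRingEnd ℂ) (herm v w) * herm ξ w).re) / (q v * ‖herm v w‖ ^ 2) +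
          4 * ((starRingEnd ℂ) (herm v w) * herm ξ w).re ^ 2 / (‖herm v w‖ ^ 2) ^ 2) +
        s * (2 * q ξ / q v - 2 * ‖herm ξ w‖ ^ 2 / ‖herm v w‖ ^ 2 -
          4 * (herm v ξ).re ^ 2 / q v ^ 2 +
          4 * ((starRingEnd ℂ) (herm v w) * herm ξ w).re ^ 2 / (‖herm v w‖ ^ 2) ^ 2)) := by
  have hcd : ContDiffAt ℝ 2 (fun v => ker s v w) v :=
    (((contDiffOn_ker s hw).contDiffAt ((isOpen_cone n).mem_nhds hv)).of_le
      (WithTop.coe_le_coe.2 (le_top : (2 : ℕ∞) ≤ ⊤)))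
  rw [fderiv_fderiv_line hcd]
  have hq : q v < 0 := hv
  have hqw : q w < 0 := hw
  have hh := herm_ne_zero hv hw
  have h1 : (fun t : ℝ => ker s (v + t • ξ) w) = fun t : ℝ => ((q v + 2 * t * (herm v ξ).re + t ^ 2 * q ξ) *
      q w / (‖herm v w‖ ^ 2 + 2 * t * ((starRingEnd ℂ) (herm v w) * herm ξ w).re +
        t ^ 2 * ‖herm ξ w‖ ^ 2)) ^ s := by
    funext t
    rw [ker, lk_q_line, lk_herm_line, lk_norm_line]
  rw [h1, lk_second s (q w) _ _ _ _ _ _ hqw.ne hq.ne (by positivity), ker]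

theorem lk_alg (ε K S Q N a a' b b' c c' d d' A X V : ℝ) (hε : ε * ε = 1) (ha : a ^ 2 + a' ^ 2 = A)
    (hac : a * c + a' * c' = ε * X) (hc : c ^ 2 + c' ^ 2 = N * V) (hd : d = V) (hd' : d' = V)
    (hb : b = ε) (hb' : b' = ε) (hN : N ≠ 0) :
    ε * (K * (S ^ 2 * (4 * a ^ 2 / Q ^ 2 - 8 * (a * c) / (Q * N) + 4 * c ^ 2 / N ^ 2) +
        S * (2 * b / Q - 2 * d / N - 4 * a ^ 2 / Q ^ 2 + 4 * c ^ 2 / N ^ 2)) +
      K * (S ^ 2 * (4 * a' ^ 2 / Q ^ 2 - 8 * (a' * c') / (Q * N) + 4 * c' ^ 2 / N ^ 2) +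
        S * (2 * b' / Q - 2 * d' / N - 4 * a' ^ 2 / Q ^ 2 + 4 * c' ^ 2 / N ^ 2))) =
    K * (S ^ 2 * (4 * (ε * A) / Q ^ 2 - 8 * X / (Q * N) + 4 * (ε * V) / N) +
      S * (4 / Q - 4 * (ε * A) / Q ^ 2)) := by
  have h1 : ε * (K * (S ^ 2 * (4 * a ^ 2 / Q ^ 2 - 8 * (a * c) / (Q * N) + 4 * c ^ 2 / N ^ 2) +
        S * (2 * b / Q - 2 * d / N - 4 * a ^ 2 / Q ^ 2 + 4 * c ^ 2 / N ^ 2)) +
      K * (S ^ 2 * (4 * a' ^ 2 / Q ^ 2 - 8 * (a' * c') / (Q * N) + 4 * c' ^ 2 / N ^ 2) +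
        S * (2 * b' / Q - 2 * d' / N - 4 * a' ^ 2 / Q ^ 2 + 4 * c' ^ 2 / N ^ 2))) =
      K * (S ^ 2 * (4 * (ε * (a ^ 2 + a' ^ 2)) / Q ^ 2 - 8 * (ε * (a * c + a' * c')) / (Q * N) +
        4 * (ε * (c ^ 2 + c' ^ 2)) / N ^ 2) +
      S * (2 * (ε * b + ε * b') / Q - 2 * (ε * (d + d')) / N - 4 * (ε * (a ^ 2 + a' ^ 2)) / Q ^ 2 +
        4 * (ε * (c ^ 2 + c' ^ 2)) / N ^ 2)) := by ring
  rw [h1, ha, hac, hc, hd, hd', hb, hb', hε, ← mul_assoc ε ε X, hε, one_mul]
  have h2 : 4 * (ε * (N * V)) / N ^ 2 = 4 * (ε * V) / N := by field_simp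
  rw [h2]
  ring

/-- The sums over the basis. -/
theorem lk_single (w : Vec n) (i : Fin (n + 1)) (z : ℂ) :
    herm (Pi.single i z) w = (starRingEnd ℂ) z * (((lkEps n i : ℝ) : ℂ) * w i) := by
  rw [lk_herm, Finset.sum_eq_single i]
  · rw [Pi.single_eq_same]
  · intro j _ hj
    rw [Pi.single_eq_of_ne hj]; simp
  · intro h; exact absurd (Finset.mem_univ i) h

theorem lk_single' (v : Vec n) (i : Fin (n + 1)) (z : ℂ) :
    herm v (Pi.single i z) = (starRingEnd ℂ) (v i) * (((lkEps n i : ℝ) : ℂ) * z) := by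
  rw [lk_herm, Finset.sum_eq_single i]
  · rw [Pi.single_eq_same]
  · intro j _ hj
    rw [Pi.single_eq_of_ne hj]; simp
  · intro h; exact absurd (Finset.mem_univ i) h

theorem lk_q_single (i : Fin (n + 1)) (z : ℂ) :
    q (Pi.single i z : Vec n) = lkEps n i * ‖z‖ ^ 2 := by
  rw [lk_q, Finset.sum_eq_single i]
  · rw [Pi.single_eq_same]
  · intro j _ hj
    rw [Pi.single_eq_of_ne hj]; simp
  · intro h; exact absurd (Finset.mem_univ i) h

theorem lk_term (s : ℕ) (K Q : ℝ) (v w : Vec n) (h : ℂ) (hN : ‖h‖ ^ 2 ≠ 0) (i : Fin (n + 1)) :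
    lkEps n i *
      (K * ((s : ℝ) ^ 2 * (4 * (herm v (Pi.single i 1)).re ^ 2 / Q ^ 2 -
          8 * ((herm v (Pi.single i 1)).re * ((starRingEnd ℂ) h * herm (Pi.single i 1) w).re) /
            (Q * ‖h‖ ^ 2) +
          4 * ((starRingEnd ℂ) h * herm (Pi.single i 1) w).re ^ 2 / (‖h‖ ^ 2) ^ 2) +
        s * (2 * q (Pi.single i 1 : Vec n) / Q - 2 * ‖herm (Pi.single i 1) w‖ ^ 2 / ‖h‖ ^ 2 -
          4 * (herm v (Pi.single i 1)).re ^ 2 / Q ^ 2 +
          4 * ((starRingEnd ℂ) h * herm (Pi.single i 1) w).re ^ 2 / (‖h‖ ^ 2) ^ 2)) +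
      K * ((s : ℝ) ^ 2 * (4 * (herm v (Pi.single i Complex.I)).re ^ 2 / Q ^ 2 -
          8 * ((herm v (Pi.single i Complex.I)).re *
            ((starRingEnd ℂ) h * herm (Pi.single i Complex.I) w).re) / (Q * ‖h‖ ^ 2) +
          4 * ((starRingEnd ℂ) h * herm (Pi.single i Complex.I) w).re ^ 2 / (‖h‖ ^ 2) ^ 2) +
        s * (2 * q (Pi.single i Complex.I : Vec n) / Q -
          2 * ‖herm (Pi.single i Complex.I) w‖ ^ 2 / ‖h‖ ^ 2 -
          4 * (herm v (Pi.single i Complex.I)).re ^ 2 / Q ^ 2 +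
          4 * ((starRingEnd ℂ) h * herm (Pi.single i Complex.I) w).re ^ 2 / (‖h‖ ^ 2) ^ 2))) =
      K * ((s : ℝ) ^ 2 * (4 * (lkEps n i * ‖v i‖ ^ 2) / Q ^ 2 -
        8 * ((starRingEnd ℂ) h * ((starRingEnd ℂ) (v i) *
          (((lkEps n i : ℝ) : ℂ) * w i))).re / (Q * ‖h‖ ^ 2) +
        4 * (lkEps n i * ‖w i‖ ^ 2) / ‖h‖ ^ 2) +
        s * (4 / Q - 4 * (lkEps n i * ‖v i‖ ^ 2) / Q ^ 2)) := by
  have hε := lkEps_sq (n := n) i
  have hn : ∀ z : ℂ, ‖z‖ ^ 2 = z.re * z.re + z.im * z.im := by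
    intro z
    rw [← Complex.normSq_eq_norm_sq, Complex.normSq_apply]
  refine lk_alg _ _ _ _ _ _ _ _ _ _ _ _ _ _ _ _ hε ?_ ?_ ?_ ?_ ?_ ?_ ?_ hN
  · rw [lk_single', lk_single', hn]
    simp only [Complex.mul_re, Complex.ofReal_re, Complex.ofReal_im, Complex.mul_im, Complex.conj_re,
      Complex.conj_im, Complex.I_re, Complex.I_im, Complex.one_re, Complex.one_im]
    linear_combination ((v i).re ^ 2 + (v i).im ^ 2) * hε
  · rw [lk_single', lk_single', lk_single, lk_single]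
    simp only [Complex.mul_re, Complex.ofReal_re, Complex.ofReal_im, Complex.mul_im, Complex.conj_re,
      Complex.conj_im, Complex.I_re, Complex.I_im, Complex.one_re, Complex.one_im]
    ring
  · rw [lk_single, lk_single, hn, hn]
    simp only [Complex.mul_re, Complex.ofReal_re, Complex.ofReal_im, Complex.mul_im, Complex.conj_re,
      Complex.conj_im, Complex.I_re, Complex.I_im, Complex.one_re, Complex.one_im]
    linear_combination ((h.re * h.re + h.im * h.im) * ((w i).re * (w i).re + (w i).im * (w i).im)) * hε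
  · rw [lk_single, hn, hn]
    simp only [Complex.mul_re, Complex.ofReal_re, Complex.ofReal_im, Complex.mul_im, Complex.conj_re,
      Complex.conj_im, Complex.I_re, Complex.I_im, Complex.one_re, Complex.one_im]
    linear_combination ((w i).re * (w i).re + (w i).im * (w i).im) * hε
  · rw [lk_single, hn, hn]
    simp only [Complex.mul_re, Complex.ofReal_re, Complex.ofReal_im, Complex.mul_im, Complex.conj_re,
      Complex.conj_im, Complex.I_re, Complex.I_im, Complex.one_re, Complex.one_im]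
    linear_combination ((w i).re * (w i).re + (w i).im * (w i).im) * hε
  · rw [lk_q_single]; simp
  · rw [lk_q_single]; simp

/-- The main identity (blueprint A3). On the line `v + t ξ` the kernel is
`(q(w) Q(t)/N(t))^s` with `Q(t) = q v + 2 t Re <v,ξ> + t² q ξ`,
`N(t) = |<w,v>|² + 2 t Re(conj <w,v> <w,ξ>) + t² |<w,ξ>|²`; compute the second derivative at `0` and sum
over `ξ = e_i, I e_i` with the signs `J i i`:
`∑ J_ii ((Re<v,e_i>)² + (Re<v,I e_i>)²) = q v`, `∑ J_ii |<w,e_i>|² = q w`, etc. -/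
theorem lap_ker (s : ℕ) {v w : Vec n} (hv : v ∈ Cone n) (hw : w ∈ Cone n) :
    Lap (fun v => ker s v w) v = lam n s * ker s v w - (s : ℝ) ^ 2 * ker (s + 1) v w := by
  have hq : q v < 0 := hv
  have hqw : q w < 0 := hw
  have hh := herm_ne_zero hv hw
  have hN : 0 < ‖herm v w‖ ^ 2 := by positivity
  have hre : ∑ i, ((starRingEnd ℂ) (herm v w) * ((starRingEnd ℂ) (v i) *
      (((lkEps n i : ℝ) : ℂ) * w i))).re = ‖herm v w‖ ^ 2 := by
    rw [← Complex.re_sum, ← Finset.mul_sum, ← lk_herm, mul_comm, Complex.mul_conj,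
      Complex.normSq_eq_norm_sq, Complex.ofReal_re]
  have hk : ker (s + 1) v w = ker s v w * (q v * q w / ‖herm v w‖ ^ 2) := by
    rw [ker, ker, pow_succ]
  rw [Lap]
  simp only [lk_line s hv hw, lk_J_re, smul_eq_mul]
  rw [Finset.sum_congr rfl fun i _ => lk_term s (ker s v w) (q v) v w (herm v w) hN.ne' i]
  rw [← Finset.mul_sum, Finset.sum_add_distrib, ← Finset.mul_sum, ← Finset.mul_sum,
    Finset.sum_add_distrib, Finset.sum_sub_distrib, Finset.sum_sub_distrib, ← Finset.sum_div,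
    ← Finset.sum_div, ← Finset.sum_div, ← Finset.mul_sum, ← Finset.mul_sum, ← Finset.mul_sum,
    hre, ← lk_q, ← lk_q, Finset.sum_const, Finset.card_univ, Fintype.card_fin, nsmul_eq_mul, hk, lam]
  generalize ker s v w = K
  generalize hNd : ‖herm v w‖ ^ 2 = N at *
  generalize q v = Q at *
  generalize q w = R at *
  have hQ0 : Q ≠ 0 := hq.ne
  have hN0 : N ≠ 0 := hN.ne'
  push_cast
  field_simp
  ring

end Pool.Agent.Lib.MP_5d4057_al.HM
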