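import Pool.Agent.Lib.MP_5d4057_al.HM.GradA

/-! Gradient estimates for the averaging operators at an arbitrary point of the cone. -/

namespace Pool.Agent.Lib.MP_5d4057_al.HM.Gr

open Matrix MeasureTheory Filter Topology Pool.Agent.Lib.MP_5d4057_al Pool.Agent.Lib.MP_5d4057_al.Hyb

open scoped ComplexOrder MatrixOrder Matrix.Norms.L2Operator

variable {n m : ℕ} {E : Type} [NormedAddCommGroup E] [NormedSpace ℝ E]

/-- The distortion at a point of the cone. -/
noncomputable def lo (v : Vec n) : ℝ := 2 * (n + 1) * Real.sqrt (W v / (- q v))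

theorem lo_nonneg (v : Vec n) : 0 ≤ lo v := by
  unfold lo
  positivity

theorem lo_eq (g : SUGroup n) {c : ℂ} (hc : c ≠ 0) :
    lo (c • act g (base n)) = ‖c‖⁻¹ * (2 * (n + 1) * ch g) := by
  have h0 := ch_pos g
  have hc' : 0 < ‖c‖ := norm_pos_iff.mpr hc
  have h1 : q (c • act g (base n)) = -‖c‖ ^ 2 := by rw [q_smul, q_orbit]; ring
  have h2 : W (c • act g (base n)) = ch g ^ 2 := by
    rw [W, h1, ← W_orbit, W, q_orbit, Pi.smul_apply, smul_eq_mul, norm_mul, mul_pow]
    field_simp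
  rw [lo, h1, h2, neg_neg, Real.sqrt_div (by positivity), Real.sqrt_sq h0.le, Real.sqrt_sq hc'.le]
  field_simp

theorem W_eq (g : SUGroup n) {c : ℂ} (hc : c ≠ 0) : W (c • act g (base n)) = ch g ^ 2 := by
  have hc' : 0 < ‖c‖ := norm_pos_iff.mpr hc
  have h1 : q (c • act g (base n)) = -‖c‖ ^ 2 := by rw [q_smul, q_orbit]; ring
  rw [W, h1, ← W_orbit, W, q_orbit, Pi.smul_apply, smul_eq_mul, norm_mul, mul_pow]
  field_simp

theorem W_nonneg {v : Vec n} (hv : v ∈ Cone n) : 0 ≤ W v := by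
  have : q v < 0 := hv
  rw [W]
  exact div_nonneg (sq_nonneg _) (by linarith)

theorem continuous_q : Continuous (q (n := n)) := (contDiff_q (n := n)).continuous

theorem continuousOn_W : ContinuousOn (W (n := n)) (Cone n) := by
  unfold W
  refine ContinuousOn.div (by fun_prop) continuous_q.neg.continuousOn fun v hv => ?_
  have : q v < 0 := hv
  linarith

theorem continuousOn_lo : ContinuousOn (lo (n := n)) (Cone n) := by
  unfold lo
  refine continuousOn_const.mul (ContinuousOn.sqrt (continuousOn_W.div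
    continuous_q.neg.continuousOn fun v hv => ?_))
  have : q v < 0 := hv
  linarith

/-- Local bounds. -/
theorem exists_ball {v : Vec n} (hv : v ∈ Cone n) : ∃ r M : ℝ, 0 < r ∧ 0 < M ∧
    Metric.ball v r ⊆ Cone n ∧ ∀ u ∈ Metric.ball v r, W u ≤ M ∧ lo u ≤ M := by
  have h1 := (continuousOn_W (n := n)).continuousAt ((isOpen_cone n).mem_nhds hv)
  have h2 := (continuousOn_lo (n := n)).continuousAt ((isOpen_cone n).mem_nhds hv)
  have h3 : ∀ᶠ u in 𝓝 v, W u < W v + 1 := h1.eventually_lt_const (by linarith)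
  have h4 : ∀ᶠ u in 𝓝 v, lo u < lo v + 1 := h2.eventually_lt_const (by linarith)
  obtain ⟨r, hr, H⟩ := Metric.eventually_nhds_iff_ball.mp
    ((h3.and h4).and ((isOpen_cone n).eventually_mem hv))
  have hW := W_nonneg hv
  have hl := lo_nonneg v
  refine ⟨r, (W v + 1) + (lo v + 1), hr, by positivity, fun u hu => (H u hu).2, fun u hu => ?_⟩
  obtain ⟨⟨a, b⟩, c⟩ := H u hu
  constructor <;> linarith

omit [NormedSpace ℝ E] in
theorem adm_act {N : ℕ} {C : ℝ} {f : Vec n → E} (hf : Adm N C f) (g : SUGroup n) :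
    Adm N (C * (4 ^ N * ch g ^ (2 * N))) (fun v => f (act g v)) := by
  have hC := (adm_nn hf)
  constructor
  · have h1 := hf.meas.comp_measurePreserving (measurePreserving_mul_left (mu n) g)
    refine h1.congr (Eventually.of_forall fun y => ?_)
    show f (act (g * y) (base n)) = f (act g (act y (base n)))
    rw [act_mul]
  · intro y
    rw [← act_mul]
    refine (hf.bound _).trans ?_
    have h1 := ch_pos (g * y)
    have h2 : ch (g * y) ^ (2 * N) ≤ (2 * ch g * ch y) ^ (2 * N) :=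
      pow_le_pow_left₀ h1.le (ch_mul_le' g y) _
    calc C * ch (g * y) ^ (2 * N) ≤ C * (2 * ch g * ch y) ^ (2 * N) :=
          mul_le_mul_of_nonneg_left h2 hC
      _ = _ := by
          rw [mul_pow, mul_pow, pow_mul 2 2 N]
          norm_num
          ring

/-- First derivative. -/
theorem grad_one (n N : ℕ) : ∃ K : ℝ, 0 < K ∧ ∀ s : ℕ, n + N + 2 < s →
    ∀ (E : Type) [NormedAddCommGroup E] [NormedSpace ℝ E] (f : Vec n → E) (C : ℝ),
      Adm N C f → ∀ v ∈ Cone n, ‖fderiv ℝ (P s f) v‖ ≤ K * C * Real.sqrt s * (W v ^ N * lo v) := by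
  obtain ⟨K, hK, H⟩ := base_one n N
  refine ⟨4 ^ N * K, by positivity, fun s hs E _ _ f C hf v hv => ?_⟩
  have hC := (adm_nn hf)
  obtain ⟨g, c, hc, rfl⟩ := exists_act_eq hv
  have h0 := ch_pos g
  have h1 := H s hs E _ _ (adm_act hf g)
  rw [W_eq g hc, lo_eq g hc]
  refine ContinuousLinearMap.opNorm_le_bound _ (by positivity) fun ξ => ?_
  rw [fderiv_comp_tra g hc (fun u => P_tra s f g hc u)]
  calc _ ≤ ‖fderiv ℝ (P s fun v => f (act g v)) (base n)‖ * ‖(tra g c hc).symm ξ‖ :=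
        ContinuousLinearMap.le_opNorm _ _
    _ ≤ (K * (C * (4 ^ N * ch g ^ (2 * N))) * Real.sqrt s) *
          (‖c‖⁻¹ * (2 * (n + 1) * ch g) * ‖ξ‖) :=
        mul_le_mul h1 (norm_tra_symm_le g c hc ξ) (norm_nonneg _) (by positivity)
    _ = _ := by
        rw [pow_mul]
        ring

/-- Second derivative. -/
theorem grad_two (n N : ℕ) : ∃ K : ℝ, 0 < K ∧ ∀ s : ℕ, n + N + 2 < s →
    ∀ (E : Type) [NormedAddCommGroup E] [NormedSpace ℝ E] (f : Vec n → E) (C : ℝ),
      Adm N C f → ∀ v ∈ Cone n,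
        ‖fderiv ℝ (fderiv ℝ (P s f)) v‖ ≤ K * C * s * (W v ^ N * lo v ^ 2) := by
  obtain ⟨K, hK, H⟩ := base_two n N
  refine ⟨4 ^ N * K, by positivity, fun s hs E _ _ f C hf v hv => ?_⟩
  have hC := (adm_nn hf)
  obtain ⟨g, c, hc, rfl⟩ := exists_act_eq hv
  have h0 := ch_pos g
  have h1 := H s hs E _ _ (adm_act hf g)
  rw [W_eq g hc, lo_eq g hc]
  refine ContinuousLinearMap.opNorm_le_bound _ (by positivity) fun ξ => ?_
  refine ContinuousLinearMap.opNorm_le_bound _ (by positivity) fun η => ?_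
  rw [fderiv_two_comp_tra g hc (fun u => P_tra s f g hc u)]
  calc _ ≤ ‖fderiv ℝ (fderiv ℝ (P s fun v => f (act g v))) (base n)‖ * ‖(tra g c hc).symm ξ‖ *
          ‖(tra g c hc).symm η‖ := ContinuousLinearMap.le_opNorm₂ _ _ _
    _ ≤ (K * (C * (4 ^ N * ch g ^ (2 * N))) * s) *
          (‖c‖⁻¹ * (2 * (n + 1) * ch g) * ‖ξ‖) * (‖c‖⁻¹ * (2 * (n + 1) * ch g) * ‖η‖) :=
        mul_le_mul (mul_le_mul h1 (norm_tra_symm_le g c hc ξ) (norm_nonneg _) (by positivity))
          (norm_tra_symm_le g c hc η) (norm_nonneg _) (by positivity)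
    _ = _ := by
        rw [pow_mul]
        ring

/-- Constants are reproduced. -/
theorem P_const {s : ℕ} (hs : n < s) [CompleteSpace E] (c : E) {v : Vec n} (hv : v ∈ Cone n) :
    P s (fun _ => c) v = c := by
  obtain ⟨g, a, ha, rfl⟩ := exists_act_eq hv
  rw [P_tra s _ g ha]
  have := P_orbit s (fun _ : Vec n => c) (1 : SUGroup n)
  rw [act_one] at this
  rw [this, integral_smul_const, integral_kap hs, one_smul]

omit [NormedSpace ℝ E] in
theorem adm_sub {N : ℕ} {C A : ℝ} {f : Vec n → E} (hf : Adm N C f) (c : E)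
    (h : ∀ y : SUGroup n, ‖f (act y (base n)) - c‖ ≤ A * ch y ^ (2 * N)) :
    Adm N A (fun v => f v - c) :=
  ⟨hf.meas.sub aestronglyMeasurable_const, h⟩

theorem P_sub_const {N : ℕ} {C : ℝ} {s : ℕ} (hs : n + N < s) [CompleteSpace E] {f : Vec n → E}
    (hf : Adm N C f) (c : E) {v : Vec n} (hv : v ∈ Cone n) :
    P s (fun v => f v - c) v = P s f v - c := by
  have hC := (adm_nn hf)
  have h1 : Adm N ‖c‖ (fun _ : Vec n => c) := by
    refine ⟨aestronglyMeasurable_const, fun y => ?_⟩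
    have := one_le_pow₀ (one_le_ch y) (n := 2 * N)
    have h0 := norm_nonneg c
    nlinarith
  have i1 := integrable_P_of (adm_wgt hf hs) hv
  have i2 := integrable_P_of (adm_wgt h1 hs) hv
  have e : P s (fun v => f v - c) v = P s f v - P s (fun _ => c) v := by
    rw [P, P, P, ← integral_sub i1 i2]
    refine integral_congr_ae (Eventually.of_forall fun y => ?_)
    simp only [smul_sub]
  rw [e, P_const (s := s) (by omega) c hv]

/-- Second derivative at a point where `f` is Hölder continuous. -/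
theorem grad_two_holder (n N : ℕ) : ∃ K : ℝ, 0 < K ∧ ∀ s : ℕ, n + N + 2 < s →
    ∀ (E : Type) [NormedAddCommGroup E] [NormedSpace ℝ E] [CompleteSpace E] (f : Vec n → E)
      (C A : ℝ), Adm N C f → 0 ≤ A → ∀ v ∈ Cone n,
      (∀ y : SUGroup n, ‖f (act y (base n)) - f v‖ ≤
        A * (1 - ker 1 v (act y (base n))) ^ (1 / 4 : ℝ) * ch y ^ (2 * N)) →
        ‖fderiv ℝ (fderiv ℝ (P s f)) v‖ ≤
          K * A * (s : ℝ) ^ (3 / 4 : ℝ) * (W v ^ N * lo v ^ 2) := by
  obtain ⟨K, hK, H⟩ := base_two_holder n N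
  refine ⟨4 ^ N * K, by positivity, fun s hs E _ _ _ f C A hf hA v hv hle => ?_⟩
  have hC := (adm_nn hf)
  obtain ⟨g, c, hc, rfl⟩ := exists_act_eq hv
  have h0 := ch_pos g
  -- the translated function minus its value at the base point
  set c0 : E := f (c • act g (base n)) with hc0
  set F : Vec n → E := fun v => f (act g v) - c0 with hF
  have hle' : ∀ y : SUGroup n, ‖F (act y (base n))‖ ≤
      (A * (4 ^ N * ch g ^ (2 * N))) * hh y ^ (1 / 4 : ℝ) * ch y ^ (2 * N) := by
    intro y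
    have h1 := hle (g * y)
    rw [ker_smul_left 1 hc, ker_orbit, inv_mul_cancel_left, mul_one] at h1
    have h2 : ch (g * y) ^ (2 * N) ≤ (2 * ch g * ch y) ^ (2 * N) :=
      pow_le_pow_left₀ (ch_pos _).le (ch_mul_le' g y) _
    have h3 : 0 ≤ hh y ^ (1 / 4 : ℝ) := Real.rpow_nonneg (hh_nonneg y) _
    rw [act_mul] at h1
    calc ‖F (act y (base n))‖ ≤ A * hh y ^ (1 / 4 : ℝ) * ch (g * y) ^ (2 * N) := h1
      _ ≤ A * hh y ^ (1 / 4 : ℝ) * (2 * ch g * ch y) ^ (2 * N) :=
          mul_le_mul_of_nonneg_left h2 (by positivity)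
      _ = _ := by
          rw [mul_pow, mul_pow, pow_mul 2 2 N]
          norm_num
          ring
  have hFa : Adm N (A * (4 ^ N * ch g ^ (2 * N))) F := by
    refine adm_sub (adm_act hf g) c0 fun y => (hle' y).trans ?_
    have h3 : hh y ^ (1 / 4 : ℝ) ≤ 1 :=
      Real.rpow_le_one (hh_nonneg y) (hh_le_one y) (by norm_num)
    have h4 := ch_pos y
    calc _ ≤ (A * (4 ^ N * ch g ^ (2 * N))) * 1 * ch y ^ (2 * N) := by gcongr
      _ = _ := by ring
  have h1 := H s hs E F _ _ hFa (by positivity) hle'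
  have h2 : fderiv ℝ (fderiv ℝ (P s F)) (base n) =
      fderiv ℝ (fderiv ℝ (P s fun v => f (act g v))) (base n) := by
    have e1 : ∀ u ∈ Cone n, P s F u = P s (fun v => f (act g v)) u - c0 := fun u hu =>
      P_sub_const (by omega) (adm_act hf g) c0 hu
    have e2 : ∀ u ∈ Cone n, fderiv ℝ (P s F) u = fderiv ℝ (P s fun v => f (act g v)) u := by
      intro u hu
      have : P s F =ᶠ[𝓝 u] fun u => P s (fun v => f (act g v)) u - c0 :=
        (Filter.eventuallyEq_of_mem ((isOpen_cone n).mem_nhds hu) e1)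
      rw [this.fderiv_eq, fderiv_sub_const]
    exact (Filter.eventuallyEq_of_mem ((isOpen_cone n).mem_nhds (base_mem n)) e2).fderiv_eq
  rw [h2] at h1
  rw [W_eq g hc, lo_eq g hc]
  refine ContinuousLinearMap.opNorm_le_bound _ (by positivity) fun ξ => ?_
  refine ContinuousLinearMap.opNorm_le_bound _ (by positivity) fun η => ?_
  rw [fderiv_two_comp_tra g hc (fun u => P_tra s f g hc u)]
  calc _ ≤ ‖fderiv ℝ (fderiv ℝ (P s fun v => f (act g v))) (base n)‖ * ‖(tra g c hc).symm ξ‖ *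
          ‖(tra g c hc).symm η‖ := ContinuousLinearMap.le_opNorm₂ _ _ _
    _ ≤ (K * (A * (4 ^ N * ch g ^ (2 * N))) * (s : ℝ) ^ (3 / 4 : ℝ)) *
          (‖c‖⁻¹ * (2 * (n + 1) * ch g) * ‖ξ‖) * (‖c‖⁻¹ * (2 * (n + 1) * ch g) * ‖η‖) :=
        mul_le_mul (mul_le_mul h1 (norm_tra_symm_le g c hc ξ) (norm_nonneg _) (by positivity))
          (norm_tra_symm_le g c hc η) (norm_nonneg _) (by positivity)
    _ = _ := by
        rw [pow_mul]
        ring

end Pool.Agent.Lib.MP_5d4057_al.HM.Gr
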