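import Pool.Agent.Lib.MP_5d4057_al.HM.Green
import Pool.Agent.Lib.MP_5d4057_al.HM.GradB

/-! The derivatives of a homogeneous function are controlled by the horizontal ones. (The gradient
estimates themselves, blueprint A9, are in GradA, GradB, namespace HM.Gr.) -/

namespace Pool.Agent.Lib.MP_5d4057_al.HM

open Matrix MeasureTheory Filter Topology Pool.Agent.Lib.MP_5d4057_al Pool.Agent.Lib.MP_5d4057_al.Hyb

open scoped ComplexOrder MatrixOrder Matrix.Norms.L2Operator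

variable {n m : ℕ} {E : Type} [NormedAddCommGroup E] [NormedSpace ℝ E]

theorem Gr.vec_smul (c : ℂ) (ξ : Fin n → ℂ) : vec (fun j => c * ξ j) = c • vec ξ := by
  funext i
  refine Fin.lastCases ?_ (fun j => ?_) i
  · rw [Pi.smul_apply, gr_vec_last, gr_vec_last, smul_zero]
  · rw [Pi.smul_apply, gr_vec_castSucc, gr_vec_castSucc, smul_eq_mul]

/-- Decomposition of a vector in the frame at `g e_n`. -/
theorem Gr.frame_dec (g : SUGroup n) (u : Vec n) : ∃ (ξ : Fin n → ℂ) (c : ℂ) (ρ : ℝ),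
    0 ≤ ρ ∧ ρ ≤ 2 * (n + 1) ^ 2 * ch g * ‖u‖ ∧ ∑ j, ‖ξ j‖ ^ 2 ≤ 1 ∧
      ‖c‖ ≤ 2 * (n + 1) * ch g * ‖u‖ ∧ u = ρ • act g (vec ξ) + c • act g (base n) := by
  obtain ⟨w, hw⟩ : ∃ w : Vec n, w = act g⁻¹ u := ⟨_, rfl⟩
  have h1 : ‖w‖ ≤ 2 * (n + 1) * ch g * ‖u‖ := by
    have := Gr.norm_act_le g⁻¹ u
    rwa [ch_inv, ← hw] at this
  have h2 : u = act g w := by
    rw [hw, ← act_mul, mul_inv_cancel, act_one]
  have h3 : w = vec (fun j => w j.castSucc) + w (Fin.last n) • base n := by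
    funext i
    refine Fin.lastCases ?_ (fun j => ?_) i
    · rw [Pi.add_apply, gr_vec_last, Pi.smul_apply, base, Pi.single_eq_same, zero_add, smul_eq_mul,
        mul_one]
    · rw [Pi.add_apply, gr_vec_castSucc, Pi.smul_apply, base,
        Pi.single_eq_of_ne (Fin.castSucc_lt_last j).ne, smul_zero, add_zero]
  obtain ⟨ρ, hρ⟩ : ∃ ρ : ℝ, ρ = (n + 1) * ‖w‖ := ⟨_, rfl⟩
  have hρ0 : 0 ≤ ρ := by
    rw [hρ]
    positivity
  have hρ1 : ρ ≤ 2 * (n + 1) ^ 2 * ch g * ‖u‖ := by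
    rw [hρ]
    calc (n + 1) * ‖w‖ ≤ (n + 1) * (2 * (n + 1) * ch g * ‖u‖) :=
          mul_le_mul_of_nonneg_left h1 (by positivity)
      _ = _ := by ring
  rcases hρ0.eq_or_lt with h0 | h0
  · refine ⟨0, w (Fin.last n), 0, le_rfl, h0 ▸ hρ1, by simp, (norm_le_pi_norm w _).trans h1, ?_⟩
    have hw0 : w = 0 := by
      have h4 : ‖w‖ = 0 := by
        have h5 : (0 : ℝ) < n + 1 := by positivity
        rcases mul_eq_zero.mp (h0.trans hρ).symm with h6 | h6
        · exact absurd h6 h5.ne'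
        · exact h6
      exact norm_eq_zero.mp h4
    rw [h2, hw0]
    simp [act]
  · refine ⟨fun j => (ρ : ℂ)⁻¹ * w j.castSucc, w (Fin.last n), ρ, hρ0, hρ1, ?_,
      (norm_le_pi_norm w _).trans h1, ?_⟩
    · have h4 : ∀ j : Fin n, ‖(ρ : ℂ)⁻¹ * w j.castSucc‖ ^ 2 ≤ ρ⁻¹ ^ 2 * ‖w‖ ^ 2 := by
        intro j
        rw [norm_mul, norm_inv, Complex.norm_real, Real.norm_of_nonneg hρ0, mul_pow]
        exact mul_le_mul_of_nonneg_left
          (pow_le_pow_left₀ (norm_nonneg _) (norm_le_pi_norm w _) 2) (by positivity)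
      refine (Finset.sum_le_sum fun j _ => h4 j).trans ?_
      rw [Finset.sum_const, Finset.card_univ, Fintype.card_fin, nsmul_eq_mul, inv_pow]
      have h5 : (n : ℝ) * ‖w‖ ^ 2 ≤ ρ ^ 2 := by
        rw [hρ, mul_pow]
        refine mul_le_mul_of_nonneg_right ?_ (by positivity)
        have : (0 : ℝ) ≤ n := Nat.cast_nonneg n
        nlinarith
      have h6 : 0 < ρ ^ 2 := by positivity
      calc (n : ℝ) * ((ρ ^ 2)⁻¹ * ‖w‖ ^ 2) = (ρ ^ 2)⁻¹ * (n * ‖w‖ ^ 2) := by ring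
        _ ≤ (ρ ^ 2)⁻¹ * ρ ^ 2 := mul_le_mul_of_nonneg_left h5 (by positivity)
        _ = 1 := inv_mul_cancel₀ h6.ne'
    · have h4 : ρ • act g (vec fun j => (ρ : ℂ)⁻¹ * w j.castSucc) =
          act g (vec fun j => w j.castSucc) := by
        rw [Gr.vec_smul, act_smul, ← Complex.coe_smul, smul_smul, mul_inv_cancel₀, one_smul]
        exact_mod_cast h0.ne'
      rw [h4, h2]
      conv_lhs => rw [h3]
      rw [act_add, act_smul]

/-- For a homogeneous function the first derivative is controlled by the horizontal one. -/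
theorem norm_fderiv_le {f : Vec n → E} (hf : Homog f) {g : SUGroup n}
    (hd : DifferentiableAt ℝ f (act g (base n))) {D : ℝ}
    (h : ∀ ξ : Fin n → ℂ, ∑ j, ‖ξ j‖ ^ 2 ≤ 1 →
      ‖fderiv ℝ f (act g (base n)) (act g (vec ξ))‖ ≤ D) :
    ‖fderiv ℝ f (act g (base n))‖ ≤ 4 * (n + 1) ^ 2 * ch g * D := by
  have hD : 0 ≤ D := (norm_nonneg _).trans (h 0 (by simp))
  have hg := one_le_ch g
  refine ContinuousLinearMap.opNorm_le_bound _ (by positivity) fun u => ?_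
  obtain ⟨ξ, c, ρ, h0, h1, h2, -, h4⟩ := Gr.frame_dec g u
  conv_lhs => rw [h4]
  rw [map_add, homog_fderiv hf (orbit_mem g) hd, add_zero, map_smul, norm_smul,
    Real.norm_of_nonneg h0]
  have h5 := norm_nonneg u
  calc ρ * ‖fderiv ℝ f (act g (base n)) (act g (vec ξ))‖
      ≤ (2 * (n + 1) ^ 2 * ch g * ‖u‖) * D := mul_le_mul h1 (h ξ h2) (norm_nonneg _) (by positivity)
    _ ≤ 2 * ((2 * (n + 1) ^ 2 * ch g * ‖u‖) * D) := by
        have : 0 ≤ (2 * ((n : ℝ) + 1) ^ 2 * ch g * ‖u‖) * D := by positivity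
        linarith
    _ = _ := by ring

/-- For a homogeneous function the second derivative is controlled by the horizontal one and the first
derivative (`D²f(v)[c v, η] = - Df(v)[c η]`). -/
theorem norm_fderiv_two_le {f : Vec n → E} (hf : Homog f) {g : SUGroup n}
    (hd : ContDiffAt ℝ 2 f (act g (base n))) {D : ℝ}
    (h : ∀ ξ : Fin n → ℂ, ∑ j, ‖ξ j‖ ^ 2 ≤ 1 →
      ‖fderiv ℝ f (act g (base n)) (act g (vec ξ))‖ ≤ D ∧
      ‖fderiv ℝ (fderiv ℝ f) (act g (base n)) (act g (vec ξ)) (act g (vec ξ))‖ ≤ D) :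
    ‖fderiv ℝ (fderiv ℝ f) (act g (base n))‖ ≤ 100 * (n + 1) ^ 4 * ch g ^ 2 * D := by
  have hD : 0 ≤ D := (norm_nonneg _).trans (h 0 (by simp)).1
  have hg := one_le_ch g
  obtain ⟨v, hv⟩ : ∃ v : Vec n, v = act g (base n) := ⟨_, rfl⟩
  have hvc : v ∈ Cone n := hv ▸ orbit_mem g
  rw [← hv] at hd ⊢
  simp only [← hv] at h
  have hsymm : ∀ x y, fderiv ℝ (fderiv ℝ f) v x y = fderiv ℝ (fderiv ℝ f) v y x := fun x y =>
    (hd.isSymmSndFDerivAt (by simp)) x y
  have hdv : DifferentiableAt ℝ f v := hd.differentiableAt (by norm_num)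
  -- the mixed second derivative
  have hmix : ∀ (c : ℂ) (a : Vec n), fderiv ℝ (fderiv ℝ f) v a (c • v) = - fderiv ℝ f v (c • a) := by
    intro c a
    have hev : ∀ᶠ u in 𝓝 v, fderiv ℝ f u (c • u) = 0 := by
      have h1 : ∀ᶠ u in 𝓝 v, ContDiffAt ℝ 2 f u := hd.eventually (by norm_num)
      have h2 : ∀ᶠ u in 𝓝 v, u ∈ Cone n := (isOpen_cone n).mem_nhds hvc
      filter_upwards [h1, h2] with u hu1 hu2
      exact homog_fderiv hf hu2 (hu1.differentiableAt (by norm_num)) c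
    have hDD : DifferentiableAt ℝ (fderiv ℝ f) v :=
      (hd.fderiv_right (m := 1) (by norm_num)).differentiableAt (by norm_num)
    have hL : HasFDerivAt (fun u : Vec n => c • u)
        (c • ContinuousLinearMap.id ℝ (Vec n)) v := (hasFDerivAt_id v).const_smul c
    have h1 : HasFDerivAt (fun u => fderiv ℝ f u (c • u))
        ((fderiv ℝ f v).comp (c • ContinuousLinearMap.id ℝ (Vec n)) +
          (fderiv ℝ (fderiv ℝ f) v).flip (c • v)) v :=
      hDD.hasFDerivAt.clm_apply hL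
    have h2 : HasFDerivAt (fun u => fderiv ℝ f u (c • u)) (0 : Vec n →L[ℝ] E) v :=
      (hasFDerivAt_const (0 : E) v).congr_of_eventuallyEq hev
    have h3 := congrArg (fun A : Vec n →L[ℝ] E => A a) (h1.unique h2)
    simp only [_root_.add_apply, ContinuousLinearMap.flip_apply,
      _root_.zero_apply, ContinuousLinearMap.comp_apply] at h3
    have h4 : (c • ContinuousLinearMap.id ℝ (Vec n)) a = c • a := by simp
    rw [h4] at h3
    exact (neg_eq_of_add_eq_zero_right h3).symm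
  have hfirst : ∀ (c : ℂ) (ξ : Fin n → ℂ), ∑ j, ‖ξ j‖ ^ 2 ≤ 1 →
      ‖fderiv ℝ f v (c • act g (vec ξ))‖ ≤ ‖c‖ * D := by
    intro c ξ hξ
    rcases eq_or_ne c 0 with hc | hc
    · subst hc
      simp
    · have hc' : 0 < ‖c‖ := norm_pos_iff.mpr hc
      have e : c • act g (vec ξ) = ‖c‖ • act g (vec fun j => (‖c‖ : ℂ)⁻¹ * c * ξ j) := by
        have h1 : vec (fun j => (‖c‖ : ℂ)⁻¹ * c * ξ j) = ((‖c‖ : ℂ)⁻¹ * c) • vec ξ :=
          Gr.vec_smul _ _
        have h2 : (‖c‖ : ℂ) ≠ 0 := by exact_mod_cast hc'.ne'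
        rw [h1, act_smul, ← Complex.coe_smul, smul_smul, ← mul_assoc, mul_inv_cancel₀ h2, one_mul]
      rw [e, map_smul, norm_smul, norm_norm]
      refine mul_le_mul_of_nonneg_left (h _ ?_).1 hc'.le
      refine (Finset.sum_congr rfl fun j _ => ?_).trans_le hξ
      rw [norm_mul, norm_mul, norm_inv, Complex.norm_real, norm_norm, inv_mul_cancel₀ hc'.ne',
        one_mul]
  have key : ∀ u : Vec n, ‖fderiv ℝ (fderiv ℝ f) v u u‖ ≤
      (12 * (n + 1) ^ 4 * ch g ^ 2 * D) * ‖u‖ ^ 2 := by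
    intro u
    obtain ⟨ξ, c, ρ, h0, h1, h2, h3, h4⟩ := Gr.frame_dec g u
    rw [← hv] at h4
    have e : fderiv ℝ (fderiv ℝ f) v u u =
        (ρ ^ 2) • fderiv ℝ (fderiv ℝ f) v (act g (vec ξ)) (act g (vec ξ)) -
          (2 * ρ) • fderiv ℝ f v (c • act g (vec ξ)) := by
      have e1 := homog_fderiv_two_aux hf hvc hd c
      have e2 := hmix c (act g (vec ξ))
      have e3 := hsymm (c • v) (act g (vec ξ))
      conv_lhs => rw [h4]
      simp only [map_add, map_smul, _root_.add_apply, _root_.smul_apply]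
      rw [e1, e3, e2]
      module
    rw [e]
    have n1 : ‖(ρ ^ 2) • fderiv ℝ (fderiv ℝ f) v (act g (vec ξ)) (act g (vec ξ))‖ ≤ ρ ^ 2 * D := by
      rw [norm_smul, Real.norm_of_nonneg (by positivity)]
      exact mul_le_mul_of_nonneg_left (h ξ h2).2 (by positivity)
    have n2 : ‖(2 * ρ) • fderiv ℝ f v (c • act g (vec ξ))‖ ≤ 2 * ρ * (‖c‖ * D) := by
      rw [norm_smul, Real.norm_of_nonneg (by positivity)]
      exact mul_le_mul_of_nonneg_left (hfirst c ξ h2) (by positivity)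
    have hu := norm_nonneg u
    have hn1 : (1 : ℝ) ≤ n + 1 := by
      have : (0 : ℝ) ≤ n := Nat.cast_nonneg n
      linarith
    obtain ⟨X, hX⟩ : ∃ X : ℝ, X = (n + 1) * ch g * ‖u‖ := ⟨_, rfl⟩
    have hX0 : 0 ≤ X := by
      rw [hX]
      positivity
    have r1 : ρ ≤ 2 * (n + 1) * X := h1.trans (le_of_eq (by rw [hX]; ring))
    have r2 : ‖c‖ ≤ 2 * (n + 1) * X := by
      refine h3.trans ?_
      rw [hX]
      have : 0 ≤ ch g * ‖u‖ := by positivity
      nlinarith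
    have r3 : ρ ^ 2 ≤ (2 * (n + 1) * X) ^ 2 := pow_le_pow_left₀ h0 r1 2
    have r4 : ρ * ‖c‖ ≤ (2 * (n + 1) * X) ^ 2 := by
      rw [sq]
      exact mul_le_mul r1 r2 (norm_nonneg _) (by positivity)
    calc _ ≤ ρ ^ 2 * D + 2 * ρ * (‖c‖ * D) := (norm_sub_le _ _).trans (add_le_add n1 n2)
      _ = (ρ ^ 2 + 2 * (ρ * ‖c‖)) * D := by ring
      _ ≤ ((2 * (n + 1) * X) ^ 2 + 2 * (2 * (n + 1) * X) ^ 2) * D :=
          mul_le_mul_of_nonneg_right (by linarith) hD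
      _ = _ := by
        rw [hX]
        ring
  have h5 := Gr.opNorm_le_of_diag (fderiv ℝ (fderiv ℝ f) v) hsymm
    (M := 12 * (n + 1) ^ 4 * ch g ^ 2 * D) (by positivity) key
  refine h5.trans ?_
  have h6 : 0 ≤ ((n : ℝ) + 1) ^ 4 * ch g ^ 2 * D := by positivity
  calc 2 * (12 * ((n : ℝ) + 1) ^ 4 * ch g ^ 2 * D) = 24 * (((n : ℝ) + 1) ^ 4 * ch g ^ 2 * D) := by ring
    _ ≤ 100 * (((n : ℝ) + 1) ^ 4 * ch g ^ 2 * D) := by linarith
    _ = _ := by ring

end Pool.Agent.Lib.MP_5d4057_al.HM
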