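import Pool.Agent.Lib.MP_5d4057_al.HM.Lav
import Pool.Agent.Lib.MP_5d4057_al.HM.Grad

/-! Auxiliary estimates for the regularity step: operator norms of group elements, averages over
small mollifiers. -/

set_option linter.unusedSectionVars false

namespace Pool.Agent.Lib.MP_5d4057_al.HM.Ax

open Matrix MeasureTheory Filter Topology Pool.Agent.Lib.MP_5d4057_al Pool.Agent.Lib.MP_5d4057_al.Hyb
  Pool.Agent.Lib.MP_5d4057_al.HM

open scoped ComplexOrder MatrixOrder Matrix.Norms.L2Operator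

variable {n m : ℕ} {E : Type} [NormedAddCommGroup E] [NormedSpace ℝ E]

theorem adm_nonneg {N : ℕ} {C : ℝ} {f : Vec n → E} (hf : Adm N C f) : 0 ≤ C := by
  have h := hf.bound 1
  rw [ch_one, one_pow, mul_one] at h
  exact (norm_nonneg _).trans h

theorem adm_mono {N N' : ℕ} {C C' : ℝ} {f : Vec n → E} (hf : Adm N C f) (hN : N ≤ N')
    (hC : C ≤ C') : Adm N' C' f := by
  refine ⟨hf.meas, fun y => (hf.bound y).trans ?_⟩
  have h1 := one_le_ch y
  exact mul_le_mul hC (pow_le_pow_right₀ h1 (by omega)) (by positivity) ((adm_nonneg hf).trans hC)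

theorem pow_ch_mono (g : SUGroup n) {N N' : ℕ} (h : N ≤ N') : ch g ^ (2 * N) ≤ ch g ^ (2 * N') :=
  pow_le_pow_right₀ (one_le_ch g) (by omega)

theorem ch_pos0 (g : SUGroup n) : 0 < ch g := lt_of_lt_of_le one_pos (one_le_ch g)

/-- The operator norm is bounded by the Frobenius norm. -/
theorem norm_sq_le_frob {k : ℕ} (A : Mat k) : ‖A‖ ^ 2 ≤ ∑ j, ∑ i, ‖A i j‖ ^ 2 := by
  have h1 : ‖A‖ ^ 2 = ‖Aᴴ * A‖ := by
    have := CStarRing.norm_star_mul_self (x := A)
    rw [pow_two, ← this]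
    rfl
  rw [h1]
  refine (norm_le_trace (posSemidef_conjTranspose_mul_self A)).trans (le_of_eq ?_)
  rw [Matrix.trace, Complex.re_sum]
  refine Finset.sum_congr rfl fun j _ => ?_
  rw [Matrix.diag_apply, Matrix.mul_apply, Complex.re_sum]
  refine Finset.sum_congr rfl fun i _ => ?_
  rw [conjTranspose_apply, Complex.star_def, Complex.conj_mul', ← Complex.ofReal_pow,
    Complex.ofReal_re]

theorem norm_entry_le_op {k : ℕ} (A : Mat k) (i j : Fin k) : ‖A i j‖ ≤ ‖A‖ := by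
  have h := A.l2_opNorm_mulVec (WithLp.toLp 2 (Pi.single j (1 : ℂ)))
  have h2 : ‖(WithLp.toLp 2 (A *ᵥ (Pi.single j (1 : ℂ))) : EuclideanSpace ℂ (Fin k))‖ ≤ ‖A‖ := by
    refine h.trans (le_of_eq ?_)
    simp
  refine le_trans ?_ h2
  have h3 := PiLp.norm_apply_le (WithLp.toLp 2 (A *ᵥ (Pi.single j (1 : ℂ))) :
    EuclideanSpace ℂ (Fin k)) i
  refine le_trans (le_of_eq ?_) h3
  rw [mulVec_single_one]
  rfl

theorem norm_toMatrix_le (g : SUGroup n) : ‖g.toMatrix‖ ≤ 2 * (n + 1) * ch g := by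
  have h1 := norm_sq_le_frob g.toMatrix
  have h2 : ∑ j, ∑ i, ‖g.toMatrix i j‖ ^ 2 ≤ ∑ _j : Fin (n + 1), ∑ _i : Fin (n + 1),
      (2 * ch g) ^ 2 := by
    refine Finset.sum_le_sum fun j _ => Finset.sum_le_sum fun i _ => ?_
    exact pow_le_pow_left₀ (norm_nonneg _) (norm_entry_le g i j) 2
  have h3 : ‖g.toMatrix‖ ^ 2 ≤ (2 * (n + 1) * ch g) ^ 2 := by
    refine (h1.trans h2).trans (le_of_eq ?_)
    simp only [Finset.sum_const, Finset.card_univ, Fintype.card_fin, nsmul_eq_mul]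
    push_cast
    ring
  have h4 := ch_pos0 g
  exact le_of_sq_le_sq h3 (by positivity)

/-- Conjugation of small elements. -/
theorem norm_conj_sub_one (g x : SUGroup n) :
    ‖(g * x * g⁻¹).toMatrix - 1‖ ≤ (2 * (n + 1)) ^ 2 * ch g ^ 2 * ‖x.toMatrix - 1‖ := by
  have e : (g * x * g⁻¹).toMatrix - 1 = g.toMatrix * (x.toMatrix - 1) * (g⁻¹).toMatrix := by
    rw [toMatrix_mul, toMatrix_mul, mul_sub, sub_mul, mul_one, toMatrix_mul_inv]
  rw [e]
  have h1 := norm_toMatrix_le g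
  have h2 := norm_toMatrix_le g⁻¹
  rw [ch_inv] at h2
  calc _ ≤ ‖g.toMatrix * (x.toMatrix - 1)‖ * ‖(g⁻¹).toMatrix‖ := norm_mul_le _ _
    _ ≤ ‖g.toMatrix‖ * ‖x.toMatrix - 1‖ * ‖(g⁻¹).toMatrix‖ :=
        mul_le_mul_of_nonneg_right (norm_mul_le _ _) (norm_nonneg _)
    _ ≤ (2 * (n + 1) * ch g) * ‖x.toMatrix - 1‖ * (2 * (n + 1) * ch g) := by
        have := ch_pos0 g
        gcongr
    _ = _ := by ring

theorem ch_le_two {a : SUGroup n} (h : ‖a.toMatrix - 1‖ ≤ 1) : ch a ≤ 2 := by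
  have h1 := (norm_entry_le_op (a.toMatrix - 1) (Fin.last n) (Fin.last n)).trans h
  rw [Matrix.sub_apply, Matrix.one_apply_eq] at h1
  have h2 : ch a ≤ ‖a.toMatrix (Fin.last n) (Fin.last n) - 1‖ + ‖(1 : ℂ)‖ := by
    have h3 := norm_add_le (a.toMatrix (Fin.last n) (Fin.last n) - 1) (1 : ℂ)
    rw [sub_add_cancel] at h3
    exact h3
  rw [norm_one] at h2
  linarith

theorem ch_mul_le_four {a : SUGroup n} (h : ‖a.toMatrix - 1‖ ≤ 1) (g : SUGroup n) :
    ch (a * g) ≤ 4 * ch g := by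
  have h1 := ch_mul_le' a g
  have h2 := ch_le_two h
  have h3 := ch_pos0 g
  nlinarith

/-! Averages. -/

/-- A mollifier of size at most one. -/
structure Mo (n : ℕ) (Φ : Mat (n + 1) → ℝ) : Prop where
  test : Test n Φ
  int : ∫ a : SUGroup n, Φ a.toMatrix ∂(mu n) = 1
  small : ∀ A, 1 < ‖A - 1‖ → Φ A = 0

theorem compact_test {Φ : Mat (n + 1) → ℝ} (hΦ : Test n Φ) :
    HasCompactSupport fun a : SUGroup n => Φ a.toMatrix :=
  hΦ.supp.comp_isClosedEmbedding (isClosedEmbedding_toMatrix n)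

theorem continuous_test {Φ : Mat (n + 1) → ℝ} (hΦ : Test n Φ) :
    Continuous fun a : SUGroup n => Φ a.toMatrix :=
  hΦ.smooth.continuous.comp (continuous_toMatrix n)

theorem integrable_test {Φ : Mat (n + 1) → ℝ} (hΦ : Test n Φ) :
    Integrable (fun a : SUGroup n => Φ a.toMatrix) (mu n) :=
  (continuous_test hΦ).integrable_of_hasCompactSupport (compact_test hΦ)

theorem continuous_act_right (v : Vec n) : Continuous fun a : SUGroup n => act a v := by
  unfold act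
  exact (continuous_toMatrix n).matrix_mulVec continuous_const

theorem continuous_comp_act {F : Vec n → E} (hF : ContinuousOn F (Cone n)) {v : Vec n}
    (hv : v ∈ Cone n) : Continuous fun a : SUGroup n => F (act a v) :=
  hF.comp_continuous (continuous_act_right v) fun a => act_mem a hv

theorem integrable_test_smul {Φ : Mat (n + 1) → ℝ} (hΦ : Test n Φ) {F : Vec n → E}
    (hF : ContinuousOn F (Cone n)) {v : Vec n} (hv : v ∈ Cone n) :
    Integrable (fun a : SUGroup n => Φ a.toMatrix • F (act a v)) (mu n) := by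
  refine Continuous.integrable_of_hasCompactSupport
    ((continuous_test hΦ).smul (continuous_comp_act hF hv)) ?_
  exact (compact_test hΦ).smul_right

/-- Averages over small mollifiers. -/
theorem norm_avg_le {Φ : Mat (n + 1) → ℝ} (hΦ : Mo n Φ) {H : SUGroup n → E} {K : ℝ}
    (h : ∀ a : SUGroup n, ‖a.toMatrix - 1‖ ≤ 1 → ‖H a‖ ≤ K) :
    ‖∫ a : SUGroup n, Φ a.toMatrix • H a ∂(mu n)‖ ≤ K := by
  have h1 : ‖∫ a : SUGroup n, Φ a.toMatrix • H a ∂(mu n)‖ ≤
      ∫ a : SUGroup n, Φ a.toMatrix * K ∂(mu n) := by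
    refine norm_integral_le_of_norm_le ((integrable_test hΦ.test).mul_const K)
      (Eventually.of_forall fun a => ?_)
    rw [norm_smul, Real.norm_eq_abs, abs_of_nonneg (hΦ.test.nonneg _)]
    by_cases ha : ‖a.toMatrix - 1‖ ≤ 1
    · exact mul_le_mul_of_nonneg_left (h a ha) (hΦ.test.nonneg _)
    · rw [hΦ.small _ (not_le.1 ha), zero_mul, zero_mul]
  rw [integral_mul_const, hΦ.int, one_mul] at h1
  exact h1

theorem W_smul {c : ℂ} (hc : c ≠ 0) (v : Vec n) : W (c • v) = W v := by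
  rw [W, W, q_smul, Pi.smul_apply, norm_smul, mul_pow, ← mul_neg]
  rw [mul_div_mul_left _ _ (pow_ne_zero 2 (norm_ne_zero_iff.2 hc))]

theorem ch_sec (g : SUGroup n) : ch (sec n (act g (base n))) = ch g := by
  obtain ⟨c, hc, h⟩ := sec_spec (orbit_mem g)
  have h1 := congrArg W h
  rw [W_smul hc, W_orbit, W_orbit] at h1
  have h2 := ch_pos0 g
  have h3 := ch_pos0 (sec n (act g (base n)))
  exact ((pow_left_inj₀ h2.le h3.le two_ne_zero).1 h1).symm

theorem lav_bound {Φ : Mat (n + 1) → ℝ} (hΦ : Mo n Φ) {N : ℕ} {C : ℝ}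
    {F : Vec n → E} (hA : Adm N C F) (g : SUGroup n) :
    ‖lav Φ F (act g (base n))‖ ≤ C * 4 ^ (2 * N) * ch g ^ (2 * N) := by
  set s := sec n (act g (base n)) with hs
  have e : lav Φ F (act g (base n)) =
      ∫ a : SUGroup n, Φ a.toMatrix • F (act (a * s) (base n)) ∂(mu n) := by
    rw [lav, ← integral_mul_right_eq_self _ s]
    refine integral_congr_ae (Eventually.of_forall fun a => ?_)
    show Φ ((a * s * (sec n (act g (base n)))⁻¹).toMatrix) • F (act (a * s) (base n)) = _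
    rw [← hs, mul_inv_cancel_right]
  rw [e]
  refine norm_avg_le hΦ fun a ha => ?_
  refine (hA.bound _).trans ?_
  rw [mul_assoc, ← mul_pow, ← ch_sec g]
  refine mul_le_mul_of_nonneg_left ?_ (adm_nonneg hA)
  exact pow_le_pow_left₀ (ch_pos0 _).le (ch_mul_le_four ha s) _

/-- The average of a Lipschitz function is Lipschitz for right translations by small elements. -/
theorem lav_lip {Φ : Mat (n + 1) → ℝ} (hΦ : Mo n Φ) [CompleteSpace E] {N : ℕ} {C : ℝ}
    {F : Vec n → E} (hF : Homog F) (hc : ContinuousOn F (Cone n)) (hC : 0 ≤ C)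
    (hl : ∀ a g : SUGroup n, ‖a.toMatrix - 1‖ ≤ 1 →
      ‖F (act (a * g) (base n)) - F (act g (base n))‖ ≤ C * ‖a.toMatrix - 1‖ * ch g ^ (2 * N))
    (g x : SUGroup n) (hx : (2 * (n + 1)) ^ 2 * (4 * ch g) ^ 2 * ‖x.toMatrix - 1‖ ≤ 1) :
    ‖lav Φ F (act (g * x) (base n)) - lav Φ F (act g (base n))‖ ≤
      C * ((2 * (n + 1)) ^ 2 * (4 * ch g) ^ 2 * ‖x.toMatrix - 1‖) * (4 * ch g) ^ (2 * N) := by
  rw [lav_eq hF (orbit_mem _), lav_eq hF (orbit_mem g), ← integral_sub
    (integrable_test_smul hΦ.test hc (orbit_mem _)) (integrable_test_smul hΦ.test hc (orbit_mem _))]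
  simp only [← smul_sub]
  refine norm_avg_le hΦ fun a ha => ?_
  have hag := ch_mul_le_four ha g
  have e : act a (act (g * x) (base n)) =
      act ((a * g * x * (a * g)⁻¹) * (a * g)) (base n) := by
    rw [← act_mul, inv_mul_cancel_right, mul_assoc]
  rw [e, ← act_mul]
  have h1 : ‖(a * g * x * (a * g)⁻¹).toMatrix - 1‖ ≤
      (2 * (n + 1)) ^ 2 * (4 * ch g) ^ 2 * ‖x.toMatrix - 1‖ := by
    refine (norm_conj_sub_one (a * g) x).trans ?_
    have := ch_pos0 (a * g)
    gcongr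
  refine (hl _ _ (h1.trans hx)).trans ?_
  have := ch_pos0 (a * g)
  gcongr

theorem norm_vecMulVec_sq {k : ℕ} (u w : Fin k → ℂ) :
    ‖(vecMulVec u w : Mat k)‖ ^ 2 ≤ (∑ i, ‖u i‖ ^ 2) * ∑ j, ‖w j‖ ^ 2 := by
  refine (norm_sq_le_frob _).trans (le_of_eq ?_)
  rw [Finset.mul_sum]
  refine Finset.sum_congr rfl fun j _ => ?_
  rw [Finset.sum_mul]
  refine Finset.sum_congr rfl fun i _ => ?_
  rw [vecMulVec_apply, norm_mul, mul_pow]

theorem vec_cs (ξ : Fin n → ℂ) (i : Fin n) : vec ξ i.castSucc = ξ i := by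
  simp [vec, Fin.snoc]

theorem vec_l (ξ : Fin n → ℂ) : vec ξ (Fin.last n) = 0 := by
  simp [vec, Fin.snoc]

theorem norm_xmat_le {ξ : Fin n → ℂ} (hξ : ∑ i, ‖ξ i‖ ^ 2 = 1) : ‖xmat ξ‖ ≤ 2 := by
  have hb : ∑ j, ‖base n j‖ ^ 2 = 1 := by
    rw [Fin.sum_univ_castSucc, base, Pi.single_eq_same, Finset.sum_eq_zero]
    · simp
    · intro i _
      rw [Pi.single_eq_of_ne (Fin.castSucc_lt_last i).ne]
      simp
  have hv : ∑ j, ‖vec ξ j‖ ^ 2 = 1 := by
    rw [Fin.sum_univ_castSucc, vec_l]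
    simp only [vec_cs]
    rw [hξ]
    simp
  have hv' : ∑ j, ‖star (vec ξ) j‖ ^ 2 = 1 := by
    simp only [Pi.star_apply, norm_star]
    exact hv
  have h1 := norm_vecMulVec_sq (vec ξ) (base n)
  have h2 := norm_vecMulVec_sq (base n) (star (vec ξ))
  rw [hb, hv, mul_one] at h1
  rw [hb, hv', mul_one] at h2
  have h3 : ‖(vecMulVec (vec ξ) (base n) : Mat (n + 1))‖ ≤ 1 := by
    nlinarith [norm_nonneg (vecMulVec (vec ξ) (base n) : Mat (n + 1))]
  have h4 : ‖(vecMulVec (base n) (star (vec ξ)) : Mat (n + 1))‖ ≤ 1 := by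
    nlinarith [norm_nonneg (vecMulVec (base n) (star (vec ξ)) : Mat (n + 1))]
  rw [xmat]
  refine (norm_add_le _ _).trans ?_
  linarith

/-- The derivative of the average of a Lipschitz function. -/
theorem fderiv_lav_unit {Φ : Mat (n + 1) → ℝ} (hΦ : Mo n Φ) [CompleteSpace E] {N N₁ : ℕ}
    {C C₁ : ℝ} {F : Vec n → E} (hF : Homog F) (hc : ContinuousOn F (Cone n)) (hA : Adm N₁ C₁ F)
    (hC : 0 ≤ C)
    (hl : ∀ a g : SUGroup n, ‖a.toMatrix - 1‖ ≤ 1 →
      ‖F (act (a * g) (base n)) - F (act g (base n))‖ ≤ C * ‖a.toMatrix - 1‖ * ch g ^ (2 * N))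
    (g : SUGroup n) {η : Fin n → ℂ} (hη : ∑ i, ‖η i‖ ^ 2 = 1) :
    ‖fderiv ℝ (lav Φ F) (act g (base n)) (act g (vec η))‖ ≤
      C * ((2 * (n + 1)) ^ 2 * (4 * ch g) ^ 2 * 3) * (4 * ch g) ^ (2 * N) := by
  obtain ⟨b, hb0, hb, hbc, hch, hbd⟩ := exists_flow η hη
  have hg := ch_pos0 g
  have hsm : ContDiffOn ℝ (⊤ : ℕ∞) (lav Φ F) (Cone n) := lav_contDiffOn hΦ.test hA
  have hd : ∀ x : SUGroup n, DifferentiableAt ℝ (lav Φ F) (act x (base n)) := fun x =>
    (hsm.contDiffAt ((isOpen_cone n).mem_nhds (orbit_mem x))).differentiableAt (by norm_num)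
  have h := hasDerivAt_flow (f := lav Φ F) hbd g 0 (hd _)
  rw [hb0, mul_one] at h
  set K : ℝ := (2 * (n + 1)) ^ 2 * (4 * ch g) ^ 2 * 3 with hK
  have hK0 : 0 ≤ K := by positivity
  have hD : 0 ≤ C * K * (4 * ch g) ^ (2 * N) := by positivity
  have hev : ∀ᶠ t : ℝ in 𝓝 0, ‖(b t).toMatrix - 1‖ ≤ 3 * ‖t - 0‖ := by
    have h1 := (hbd 0).isLittleO.def one_pos
    refine h1.mono fun t ht => ?_
    rw [hb0, toMatrix_one, one_mul, one_mul] at ht
    have h2 : (b t).toMatrix - 1 = ((b t).toMatrix - 1 - (t - 0) • xmat η) + (t - 0) • xmat η := by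
      abel
    rw [h2]
    refine (norm_add_le _ _).trans ?_
    rw [norm_smul]
    have h3 := norm_xmat_le hη
    have h4 := norm_nonneg (t - 0)
    nlinarith
  have hev2 : ∀ᶠ t : ℝ in 𝓝 0, K * ‖t - 0‖ ≤ 1 := by
    have h1 : Continuous fun t : ℝ => K * ‖t - 0‖ := by fun_prop
    have h2 : Tendsto (fun t : ℝ => K * ‖t - 0‖) (𝓝 0) (𝓝 0) := by
      have := h1.tendsto 0
      simpa using this
    exact (h2.eventually (gt_mem_nhds one_pos)).mono fun t ht => ht.le
  have hev3 : ∀ᶠ t : ℝ in 𝓝 0, ‖lav Φ F (act (g * b t) (base n)) -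
      lav Φ F (act (g * b 0) (base n))‖ ≤ C * K * (4 * ch g) ^ (2 * N) * ‖t - 0‖ := by
    filter_upwards [hev, hev2] with t h1 h2
    rw [hb0, mul_one]
    have h3 : (2 * (n + 1)) ^ 2 * (4 * ch g) ^ 2 * ‖(b t).toMatrix - 1‖ ≤ K * ‖t - 0‖ := by
      rw [hK]
      calc _ ≤ (2 * (n + 1)) ^ 2 * (4 * ch g) ^ 2 * (3 * ‖t - 0‖) := by gcongr
        _ = _ := by ring
    refine (lav_lip hΦ hF hc hC hl g (b t) (h3.trans h2)).trans ?_
    calc _ ≤ C * (K * ‖t - 0‖) * (4 * ch g) ^ (2 * N) := by gcongr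
      _ = _ := by ring
  have h5 := h.hasFDerivAt.le_of_lip' hD hev3
  simpa using h5

theorem fderiv_lav_le {Φ : Mat (n + 1) → ℝ} (hΦ : Mo n Φ) [CompleteSpace E] {N N₁ : ℕ}
    {C C₁ : ℝ} {F : Vec n → E} (hF : Homog F) (hc : ContinuousOn F (Cone n)) (hA : Adm N₁ C₁ F)
    (hC : 0 ≤ C)
    (hl : ∀ a g : SUGroup n, ‖a.toMatrix - 1‖ ≤ 1 →
      ‖F (act (a * g) (base n)) - F (act g (base n))‖ ≤ C * ‖a.toMatrix - 1‖ * ch g ^ (2 * N))
    (g : SUGroup n) :
    ‖fderiv ℝ (lav Φ F) (act g (base n))‖ ≤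
      (4 * (n + 1) ^ 2 * (C * ((2 * (n + 1)) ^ 2 * 4 ^ 2 * 3) * 4 ^ (2 * N))) *
        ch g ^ (2 * (N + 2)) := by
  have hg := ch_pos0 g
  have hsm : ContDiffOn ℝ (⊤ : ℕ∞) (lav Φ F) (Cone n) := lav_contDiffOn hΦ.test hA
  have hd : DifferentiableAt ℝ (lav Φ F) (act g (base n)) :=
    (hsm.contDiffAt ((isOpen_cone n).mem_nhds (orbit_mem g))).differentiableAt (by norm_num)
  have h := norm_fderiv_le (lav_homog Φ F) hd
    (D := C * ((2 * (n + 1)) ^ 2 * (4 * ch g) ^ 2 * 3) * (4 * ch g) ^ (2 * N)) ?_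
  · refine h.trans ?_
    have h1 := one_le_ch g
    have h2 : ch g * ch g ^ 2 * ch g ^ (2 * N) ≤ ch g ^ (2 * (N + 2)) := by
      rw [show 2 * (N + 2) = 1 + 2 + 2 * N + 1 by ring, pow_succ _ (1 + 2 + 2 * N), pow_add,
        pow_add, pow_one]
      exact le_mul_of_one_le_right (by positivity) h1
    calc _ = (4 * (n + 1) ^ 2 * (C * ((2 * (n + 1)) ^ 2 * 4 ^ 2 * 3) * 4 ^ (2 * N))) *
          (ch g * ch g ^ 2 * ch g ^ (2 * N)) := by
          rw [mul_pow, mul_pow]
          ring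
      _ ≤ _ := by gcongr
  · intro ξ hξ
    have hD : 0 ≤ C * ((2 * (n + 1)) ^ 2 * (4 * ch g) ^ 2 * 3) * (4 * ch g) ^ (2 * N) := by
      positivity
    set r : ℝ := Real.sqrt (∑ j, ‖ξ j‖ ^ 2) with hr
    have hs0 : 0 ≤ ∑ j, ‖ξ j‖ ^ 2 := Finset.sum_nonneg fun _ _ => by positivity
    have hr0 : 0 ≤ r := Real.sqrt_nonneg _
    have hr1 : r ≤ 1 := by
      rw [hr]
      exact Real.sqrt_le_one.2 hξ
    have hr2 : r ^ 2 = ∑ j, ‖ξ j‖ ^ 2 := Real.sq_sqrt hs0
    rcases eq_or_lt_of_le hr0 with h0 | h0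
    · have h1 : ∑ j, ‖ξ j‖ ^ 2 = 0 := by
        rw [← hr2, ← h0]
        norm_num
      have h2 : ξ = 0 := by
        funext j
        have h3 := (Finset.sum_eq_zero_iff_of_nonneg (fun j _ => sq_nonneg ‖ξ j‖)).1 h1 j
          (Finset.mem_univ j)
        exact norm_eq_zero.1 (pow_eq_zero_iff two_ne_zero |>.1 h3)
      have h3 : act g (vec ξ) = 0 := by
        have h4 : vec ξ = 0 := by
          funext i
          refine Fin.lastCases ?_ (fun i => ?_) i
          · rw [vec_l]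
            rfl
          · rw [vec_cs, h2]
            rfl
        rw [h4, act, mulVec_zero]
      rw [h3, map_zero, norm_zero]
      exact hD
    · have hη : ∑ i, ‖((r⁻¹ : ℝ) • ξ) i‖ ^ 2 = 1 := by
        simp only [Pi.smul_apply, norm_smul, mul_pow]
        rw [← Finset.mul_sum, ← hr2, Real.norm_eq_abs, sq_abs, ← mul_pow, inv_mul_cancel₀ h0.ne',
          one_pow]
      have e : act g (vec ξ) = r • act g (vec ((r⁻¹ : ℝ) • ξ)) := by
        have h4 : vec ξ = (r : ℂ) • vec ((r⁻¹ : ℝ) • ξ) := by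
          funext i
          refine Fin.lastCases ?_ (fun i => ?_) i
          · rw [Pi.smul_apply, vec_l, vec_l, smul_zero]
          · rw [Pi.smul_apply, vec_cs, vec_cs, Pi.smul_apply, smul_eq_mul, Complex.real_smul,
              ← mul_assoc, ← Complex.ofReal_mul, mul_inv_cancel₀ h0.ne', Complex.ofReal_one,
              one_mul]
        rw [h4, act_smul]
        rfl
      rw [e, map_smul, norm_smul, Real.norm_eq_abs, abs_of_nonneg hr0]
      have h5 := fderiv_lav_unit hΦ hF hc hA hC hl g hη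
      calc _ ≤ 1 * _ := mul_le_mul hr1 h5 (norm_nonneg _) zero_le_one
        _ = _ := one_mul _

/-! Matrix estimates. -/

theorem norm_mono_mat {A B : Mat m} (hA : 0 ≤ A) (hAB : A ≤ B) : ‖A‖ ≤ ‖B‖ :=
  CStarAlgebra.norm_le_norm_of_nonneg_of_le hA hAB

theorem posDef_nonneg {A : Mat m} (hA : A.PosDef) : 0 ≤ A := hA.posSemidef.nonneg

theorem continuousOn_inv_mat {A : Vec n → Mat m} (hA : ContinuousOn A (Cone n))
    (hp : ∀ v ∈ Cone n, (A v).PosDef) : ContinuousOn (fun v => (A v)⁻¹) (Cone n) := by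
  intro v hv
  have h1 : ContinuousAt (fun x : Mat m => x⁻¹) (A v) := by
    simp only [Matrix.nonsing_inv_eq_ringInverse]
    exact NormedRing.inverse_continuousAt (hp v hv).isUnit.unit
  exact h1.comp_continuousWithinAt (hA v hv)

theorem homog_inv_mat {A : Vec n → Mat m} (hA : Homog A) : Homog fun v => (A v)⁻¹ := by
  intro c hc v hv
  show (A (c • v))⁻¹ = (A v)⁻¹
  rw [hA c hc v hv]

theorem norm_inv_lav {Φ : Mat (n + 1) → ℝ} (hΦ : Mo n Φ) {N : ℕ} {C : ℝ} {F : Vec n → Mat m}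
    (hF : Homog F) (hc : ContinuousOn F (Cone n)) (hp : ∀ v ∈ Cone n, (F v).PosDef)
    (hA : Adm N C F) (hA' : Adm N C fun v => (F v)⁻¹) (g : SUGroup n) :
    ‖(lav Φ F (act g (base n)))⁻¹‖ ≤ C * 4 ^ (2 * N) * ch g ^ (2 * N) := by
  have h0 : 0 < ∫ a : SUGroup n, Φ a.toMatrix ∂(mu n) := by
    rw [hΦ.int]
    exact one_pos
  have hpd := lav_posDef hΦ.test h0 hA hp (orbit_mem g)
  have hi := continuousOn_inv_mat hc hp
  have h1 : (lav Φ F (act g (base n)))⁻¹ ≤ lav Φ (fun v => (F v)⁻¹) (act g (base n)) := by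
    rw [lav_eq hF (orbit_mem g), lav_eq (homog_inv_mat hF) (orbit_mem g)]
    exact inv_integral_le (fun a => hΦ.test.nonneg _) hΦ.int (fun a => hp _ (act_mem a (orbit_mem g)))
      (integrable_test_smul hΦ.test hc (orbit_mem g)) (integrable_test_smul hΦ.test hi (orbit_mem g))
  exact (norm_mono_mat (posDef_nonneg hpd.inv) h1).trans (lav_bound hΦ hA' g)

theorem lower_of_inv {B : Mat m} (hB : B.PosDef) {K : ℝ} (hK : 0 < K) (h : ‖B⁻¹‖ ≤ K) :
    ((K⁻¹ : ℝ) : ℂ) • (1 : Mat m) ≤ B := by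
  have h1 : B⁻¹ ≤ (K : ℂ) • (1 : Mat m) := by
    have h2 := (CStarAlgebra.norm_le_iff_le_algebraMap B⁻¹ hK.le (posDef_nonneg hB.inv)).1 h
    refine h2.trans (le_of_eq ?_)
    rw [Algebra.algebraMap_eq_smul_one]
    ext i j
    simp [Matrix.smul_apply]
  have h3 := inv_le_inv_of_le hB.inv h1
  have h4 : ((K : ℂ) • (1 : Mat m))⁻¹ = ((K⁻¹ : ℝ) : ℂ) • (1 : Mat m) := by
    apply inv_eq_right_inv
    rw [smul_mul_smul_comm, one_mul, ← Complex.ofReal_mul, mul_inv_cancel₀ hK.ne',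
      Complex.ofReal_one, one_smul]
  have hu : IsUnit B.det := (isUnit_iff_isUnit_det B).1 hB.isUnit
  rw [h4, nonsing_inv_nonsing_inv B hu] at h3
  exact h3

theorem abs_trace_le (A : Mat m) : |A.trace.re| ≤ m * ‖A‖ := by
  rw [abs_le]
  constructor
  · have h := trace_le_norm (-A)
    rw [trace_neg, Complex.neg_re, norm_neg] at h
    linarith
  · exact trace_le_norm A

/-! The energy and the Laplacian. -/

theorem abs_J_le (i : Fin (n + 1)) : ‖((J n i i).re : ℝ)‖ ≤ 1 := by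
  rw [J, diagonal_apply_eq]
  split_ifs <;> simp

theorem norm_single_one (i : Fin (n + 1)) (c : ℂ) (hc : ‖c‖ = 1) :
    ‖(Pi.single i c : Vec n)‖ ≤ 1 := by
  rw [Pi.norm_single, hc]

theorem norm_en_le (A : Vec n → Mat m) (g : SUGroup n) {D K : ℝ}
    (hD : ‖fderiv ℝ A (act g (base n))‖ ≤ D) (hK : ‖(A (act g (base n)))⁻¹‖ ≤ K) :
    ‖en A (act g (base n))‖ ≤ (n + 1) * (D * K * D) := by
  have hD0 : 0 ≤ D := (norm_nonneg _).trans hD
  have hK0 : 0 ≤ K := (norm_nonneg _).trans hK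
  have h1 : ∀ (i : Fin (n + 1)) (c : ℂ), ‖c‖ = 1 →
      ‖fderiv ℝ A (act g (base n)) (Pi.single i c)‖ ≤ D := by
    intro i c hc
    refine ((fderiv ℝ A (act g (base n))).le_opNorm _).trans ?_
    calc _ ≤ D * 1 := mul_le_mul hD (norm_single_one i c hc) (norm_nonneg _) hD0
      _ = D := mul_one D
  have h2 : ∀ (i : Fin (n + 1)) (c : ℂ), ‖c‖ = 1 →
      ‖fderiv ℝ A (act g (base n)) (Pi.single i c) * (A (act g (base n)))⁻¹ *
        fderiv ℝ A (act g (base n)) (Pi.single i c)‖ ≤ D * K * D := by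
    intro i c hc
    refine (norm_mul_le _ _).trans (mul_le_mul ?_ (h1 i c hc) (norm_nonneg _) (by positivity))
    exact (norm_mul_le _ _).trans (mul_le_mul (h1 i c hc) hK (norm_nonneg _) hD0)
  rw [en, q_orbit, norm_smul]
  have h3 : ‖∑ i : Fin (n + 1), (J n i i).re •
      (fderiv ℝ A (act g (base n)) (Pi.single i 1) * (A (act g (base n)))⁻¹ *
        fderiv ℝ A (act g (base n)) (Pi.single i 1) +
      fderiv ℝ A (act g (base n)) (Pi.single i Complex.I) * (A (act g (base n)))⁻¹ *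
        fderiv ℝ A (act g (base n)) (Pi.single i Complex.I))‖ ≤
      ∑ _i : Fin (n + 1), 2 * (D * K * D) := by
    refine norm_sum_le_of_le _ fun i _ => ?_
    rw [norm_smul]
    have h4 := (norm_add_le _ _).trans (add_le_add (h2 i 1 norm_one) (h2 i Complex.I Complex.norm_I))
    calc _ ≤ 1 * (D * K * D + D * K * D) :=
          mul_le_mul (abs_J_le i) h4 (norm_nonneg _) zero_le_one
      _ = _ := by ring
  have h5 : ‖(- (-1 : ℝ) / 4)‖ = 1 / 4 := by norm_num
  rw [h5]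
  have h6 : 0 ≤ D * K * D := by positivity
  calc _ ≤ 1 / 4 * ∑ _i : Fin (n + 1), 2 * (D * K * D) := by gcongr
    _ = 1 / 2 * ((n + 1) * (D * K * D)) := by
        simp only [Finset.sum_const, Finset.card_univ, Fintype.card_fin, nsmul_eq_mul]
        push_cast
        ring
    _ ≤ _ := by
        have : 0 ≤ ((n : ℝ) + 1) * (D * K * D) := by positivity
        linarith

theorem norm_lap_sub_le (f h : Vec n → E) (g : SUGroup n) {D : ℝ}
    (hD : ‖fderiv ℝ (fderiv ℝ f) (act g (base n)) - fderiv ℝ (fderiv ℝ h) (act g (base n))‖ ≤ D) :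
    ‖Lap f (act g (base n)) - Lap h (act g (base n))‖ ≤ (n + 1) * D := by
  have hD0 : 0 ≤ D := by
    have h0 := norm_nonneg (fderiv ℝ (fderiv ℝ f) (act g (base n)) -
      fderiv ℝ (fderiv ℝ h) (act g (base n)))
    exact h0.trans hD
  set X := fderiv ℝ (fderiv ℝ f) (act g (base n)) - fderiv ℝ (fderiv ℝ h) (act g (base n)) with hX
  have h1 : ∀ (i : Fin (n + 1)) (c : ℂ), ‖c‖ = 1 → ‖X (Pi.single i c) (Pi.single i c)‖ ≤ D := by
    intro i c hc
    have e := norm_single_one i c hc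
    refine (X.le_opNorm₂ _ _).trans ?_
    have h0 := norm_nonneg (Pi.single i c : Vec n)
    calc _ ≤ D * 1 * 1 := by gcongr
      _ = D := by ring
  have e : Lap f (act g (base n)) - Lap h (act g (base n)) = (1 / 4 : ℝ) •
      ∑ i : Fin (n + 1), (J n i i).re • (X (Pi.single i 1) (Pi.single i 1) +
        X (Pi.single i Complex.I) (Pi.single i Complex.I)) := by
    rw [Lap, Lap, q_orbit, ← smul_sub, ← Finset.sum_sub_distrib]
    congr 1
    · norm_num
    · refine Finset.sum_congr rfl fun i _ => ?_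
      rw [← smul_sub, hX]
      congr 1
      simp only [_root_.sub_apply]
      abel
  rw [e, norm_smul]
  have h3 : ‖∑ i : Fin (n + 1), (J n i i).re • (X (Pi.single i 1) (Pi.single i 1) +
        X (Pi.single i Complex.I) (Pi.single i Complex.I))‖ ≤ ∑ _i : Fin (n + 1), 2 * D := by
    refine norm_sum_le_of_le _ fun i _ => ?_
    rw [norm_smul]
    have h4 := (norm_add_le _ _).trans (add_le_add (h1 i 1 norm_one) (h1 i Complex.I Complex.norm_I))
    calc _ ≤ 1 * (D + D) := mul_le_mul (abs_J_le i) h4 (norm_nonneg _) zero_le_one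
      _ = _ := by ring
  have h5 : ‖(1 / 4 : ℝ)‖ = 1 / 4 := by norm_num
  rw [h5]
  calc _ ≤ 1 / 4 * ∑ _i : Fin (n + 1), 2 * D := by gcongr
    _ = 1 / 2 * ((n + 1) * D) := by
        simp only [Finset.sum_const, Finset.card_univ, Fintype.card_fin, nsmul_eq_mul]
        push_cast
        ring
    _ ≤ _ := by
        have : 0 ≤ ((n : ℝ) + 1) * D := by positivity
        linarith

theorem continuous_q : Continuous (q (n := n)) := by
  have : q (n := n) = fun v => ∑ i : Fin n, ‖v i.castSucc‖ ^ 2 - ‖v (Fin.last n)‖ ^ 2 :=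
    funext q_eq
  rw [this]
  fun_prop

theorem continuousOn_lap_of {f : Vec n → E} (hf : ContDiffOn ℝ 2 f (Cone n)) :
    ContinuousOn (Lap f) (Cone n) := by
  have h1 : ContDiffOn ℝ 1 (fderiv ℝ f) (Cone n) := hf.fderiv_of_isOpen (isOpen_cone n) (by norm_num)
  have h2 : ContinuousOn (fderiv ℝ (fderiv ℝ f)) (Cone n) :=
    h1.continuousOn_fderiv_of_isOpen (isOpen_cone n) le_rfl
  unfold Lap
  refine ContinuousOn.smul ((continuous_q.neg.div_const 4).continuousOn) ?_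
  refine continuousOn_finsetSum _ fun i _ => ?_
  refine ContinuousOn.const_smul ?_ _
  exact ((h2.clm_apply continuousOn_const).clm_apply continuousOn_const).add
    ((h2.clm_apply continuousOn_const).clm_apply continuousOn_const)

theorem continuousOn_en_of {A : Vec n → Mat m} (hA : ContDiffOn ℝ 1 A (Cone n))
    (hp : ∀ v ∈ Cone n, (A v).PosDef) : ContinuousOn (en A) (Cone n) := by
  have h2 : ContinuousOn (fderiv ℝ A) (Cone n) :=
    hA.continuousOn_fderiv_of_isOpen (isOpen_cone n) le_rfl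
  have h3 := continuousOn_inv_mat hA.continuousOn hp
  have h4 : ∀ w : Vec n, ContinuousOn (fun v => fderiv ℝ A v w * (A v)⁻¹ * fderiv ℝ A v w)
      (Cone n) := fun w => ((h2.clm_apply continuousOn_const).mul h3).mul
    (h2.clm_apply continuousOn_const)
  unfold en
  refine ContinuousOn.smul ((continuous_q.neg.div_const 4).continuousOn) ?_
  refine continuousOn_finsetSum _ fun i _ => ?_
  exact ((h4 (Pi.single i 1)).add (h4 (Pi.single i Complex.I))).const_smul (J n i i).re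

/-- the real part of the trace as a continuous linear map -/
noncomputable def trL (m : ℕ) : Mat m →L[ℝ] ℝ :=
  LinearMap.toContinuousLinearMap
    { toFun := fun A => A.trace.re
      map_add' := fun A B => by rw [trace_add, Complex.add_re]
      map_smul' := fun c A => by
        rw [trace_smul, Complex.smul_re, RingHom.id_apply] }

theorem trL_apply (A : Mat m) : trL m A = A.trace.re := rfl

theorem contDiffOn_trace_mul {A B : Vec n → Mat m} {k : WithTop ℕ∞} (hA : ContDiffOn ℝ k A (Cone n))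
    (hB : ContDiffOn ℝ k B (Cone n)) :
    ContDiffOn ℝ k (fun v => (B v * A v).trace.re) (Cone n) :=
  (trL m).contDiff.comp_contDiffOn (hB.mul hA)

theorem lap_sub_const (f : Vec n → E) (c : E) : Lap (fun v => f v - c) = Lap f := by
  have h : fderiv ℝ (fun v => f v - c) = fderiv ℝ f := by
    funext v
    exact fderiv_sub_const c
  funext v
  rw [Lap, Lap, h]

/-- The Laplacian of a function vanishing on an open set vanishes there. -/
theorem lap_eq_zero {f : Vec n → E} {U : Set (Vec n)} (hU : IsOpen U) (h : ∀ v ∈ U, f v = 0)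
    {v : Vec n} (hv : v ∈ U) : Lap f v = 0 := by
  have h0 : ∀ w ∈ U, f =ᶠ[𝓝 w] fun _ => (0 : E) := fun w hw =>
    Filter.eventually_of_mem (hU.mem_nhds hw) h
  have h1 : ∀ w ∈ U, fderiv ℝ f w = 0 := fun w hw => by
    rw [(h0 w hw).fderiv_eq]
    simp
  have h2 : fderiv ℝ f =ᶠ[𝓝 v] fun _ => (0 : Vec n →L[ℝ] E) :=
    Filter.eventually_of_mem (hU.mem_nhds hv) h1
  have h3 : fderiv ℝ (fderiv ℝ f) v = 0 := by
    rw [h2.fderiv_eq]
    simp
  rw [Lap, h3]
  simp

theorem continuousOn_W : ContinuousOn (W (n := n)) (Cone n) := by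
  unfold W
  refine ContinuousOn.div (by fun_prop) continuous_q.neg.continuousOn fun v hv => ?_
  have h : q v < 0 := hv
  linarith

/-- The support of a cut-off function and of its Laplacian is contained in a ball. -/
theorem exists_ball_of_support {φ : Vec n → ℝ} (hφ : Homog φ)
    (hs : HasCompactSupport fun g : SUGroup n => φ (act g (base n))) :
    ∃ T' : ℝ, ∀ g : SUGroup n, T' < ch g → φ (act g (base n)) = 0 ∧ Lap φ (act g (base n)) = 0 := by
  obtain ⟨T', hT'⟩ := hs.isCompact.exists_bound_of_continuousOn (continuous_ch (n := n)).continuousOn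
  have h1 : ∀ g : SUGroup n, T' < ch g → φ (act g (base n)) = 0 := by
    intro g hg
    by_contra hne
    have h2 := hT' g (subset_tsupport _ hne)
    have h3 := le_abs_self (ch g)
    rw [Real.norm_eq_abs] at h2
    linarith
  refine ⟨max T' 0, fun g hg => ⟨h1 g ((le_max_left _ _).trans_lt hg), ?_⟩⟩
  have hU : IsOpen {v | v ∈ Cone n ∧ (max T' 0) ^ 2 < W v} := by
    have := continuousOn_W.isOpen_inter_preimage (isOpen_cone n)
      (isOpen_Ioi (a := (max T' 0) ^ 2))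
    exact this
  refine lap_eq_zero hU (fun v hv => ?_) ⟨orbit_mem g, ?_⟩
  · obtain ⟨x, c, hc, hx⟩ := exists_act_eq hv.1
    have h2 : W v = ch x ^ 2 := by rw [← W_orbit, hx, W_smul hc]
    have h3 : max T' 0 < ch x := by
      have h4 := hv.2
      rw [h2] at h4
      exact lt_of_pow_lt_pow_left₀ 2 (ch_pos0 x).le h4
    rw [hx, hφ c hc _ (orbit_mem x)]
    exact h1 x ((le_max_left _ _).trans_lt h3)
  · rw [W_orbit]
    exact pow_lt_pow_left₀ hg (le_max_right _ _) two_ne_zero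

end Pool.Agent.Lib.MP_5d4057_al.HM.Ax
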