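import Pool.Agent.Lib.MP_5d4057_al.HM.Defs

/-! Uniformly discrete lattices are cocompact (for the application, section F). -/

set_option autoImplicit false

namespace Pool.Agent.Lib.MP_5d4057_al.HM

open Matrix MeasureTheory Topology Pool.Agent.Lib.MP_5d4057_al Pool.Agent.Lib.MP_5d4057_al.Hyb

open scoped Pointwise ENNReal

section general

variable {G : Type} [Group G] [TopologicalSpace G] [IsTopologicalGroup G]
  [LocallyCompactSpace G] [SecondCountableTopology G] [MeasurableSpace G] [BorelSpace G]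
  {Δ : Subgroup G}

omit [LocallyCompactSpace G] in
/-- Tonelli for the action on the quotient. -/
theorem coc_tonelli (μ : Measure G) [SFinite μ] [MeasurableSpace (G ⧸ Δ)] [BorelSpace (G ⧸ Δ)]
    (ν : Measure (G ⧸ Δ)) [SFinite ν] (S : Set G) (Q : Set (G ⧸ Δ))
    (hQ : IsOpen Q) :
    ∫⁻ h in S, ν {y | h • y ∈ Q} ∂μ = ∫⁻ y, (μ.restrict S) {h | h • y ∈ Q} ∂ν := by
  have hcont : Continuous (fun p : G × (G ⧸ Δ) => p.1 • p.2) := continuous_smul
  have hm : MeasurableSet {p : G × (G ⧸ Δ) | p.1 • p.2 ∈ Q} :=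
    (hQ.preimage hcont).measurableSet
  have h1 := Measure.prod_apply (μ := μ.restrict S) (ν := ν) hm
  have h2 := Measure.prod_apply_symm (μ := μ.restrict S) (ν := ν) hm
  exact h1.symm.trans h2

/-- Lower bound for the measure of small sets near the base point. -/
theorem coc_lower (μ : Measure G) [μ.IsHaarMeasure] [μ.IsMulRightInvariant]
    [MeasurableSpace (G ⧸ Δ)] [BorelSpace (G ⧸ Δ)]
    (ν : Measure (G ⧸ Δ)) [IsFiniteMeasure ν]
    (hinv : ∀ (g : G) (s : Set (G ⧸ Δ)), MeasurableSet s → ν ((fun x => g • x) ⁻¹' s) = ν s)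
    (T B A : Set G) (hA : IsOpen A)
    (hB : ∀ a ∈ A, ∀ t ∈ T, a * t⁻¹ ∈ B) (hT : IsOpen T) (hBm : MeasurableSet B) :
    ν ((fun g : G => (g : G ⧸ Δ)) '' T) * μ A ≤
      μ B * ν ((fun g : G => (g : G ⧸ Δ)) '' A) := by
  set π : G → G ⧸ Δ := fun g => (g : G ⧸ Δ) with hπ
  have hop : IsOpenMap π := QuotientGroup.isOpenMap_coe
  have hAo : IsOpen (π '' A) := hop A hA
  have hTo : IsOpen (π '' T) := hop T hT
  have h1 := coc_tonelli μ ν B (π '' A) hAo
  have h2 : ∫⁻ h in B, ν {y | h • y ∈ π '' A} ∂μ = μ B * ν (π '' A) := by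
    have : ∀ h : G, ν {y | h • y ∈ π '' A} = ν (π '' A) := fun h =>
      hinv h (π '' A) hAo.measurableSet
    simp only [this]
    rw [lintegral_const, Measure.restrict_apply MeasurableSet.univ, Set.univ_inter, mul_comm]
  rw [← h2, h1]
  calc ν (π '' T) * μ A = ∫⁻ _y in π '' T, μ A ∂ν := by
        rw [lintegral_const, Measure.restrict_apply MeasurableSet.univ, Set.univ_inter, mul_comm]
    _ ≤ ∫⁻ y in π '' T, (μ.restrict B) {h | h • y ∈ π '' A} ∂ν := by
        apply setLIntegral_mono' hTo.measurableSet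
        rintro y ⟨t, ht, rfl⟩
        have h3 : μ A = μ ((fun a => a * t) ⁻¹' A) := (measure_preimage_mul_right μ t A).symm
        rw [h3]
        have hsub : (fun a => a * t) ⁻¹' A ⊆ {h | h • π t ∈ π '' A} ∩ B := by
          intro h hh
          have hh' : h * t ∈ A := hh
          refine ⟨⟨h * t, hh', rfl⟩, ?_⟩
          have := hB _ hh' t ht
          rwa [mul_inv_cancel_right] at this
        rw [Measure.restrict_apply' hBm]
        exact measure_mono hsub
    _ ≤ ∫⁻ y, (μ.restrict B) {h | h • y ∈ π '' A} ∂ν := setLIntegral_le_lintegral _ _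

/-- Lower bound for the measure of the translates of a neighbourhood. -/
theorem coc_lower_all (μ : Measure G) [μ.IsHaarMeasure] [μ.IsMulRightInvariant]
    [MeasurableSpace (G ⧸ Δ)] [BorelSpace (G ⧸ Δ)]
    (ν : Measure (G ⧸ Δ)) [IsFiniteMeasure ν]
    (hinv : ∀ (g : G) (s : Set (G ⧸ Δ)), MeasurableSet s → ν ((fun x => g • x) ⁻¹' s) = ν s)
    (W U : Set G) (hWo : IsOpen W) (hWs : ∀ w ∈ W, w⁻¹ ∈ W)
    (hWU : ∀ a ∈ W, ∀ b ∈ W, ∀ c ∈ W, ∀ d ∈ W, a * b * (c * d) ∈ U)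
    (hU : ∀ g : G, ∀ δ ∈ Δ, g * δ * g⁻¹ ∈ U → δ = 1)
    (g : G) (A : Set G) (hA : IsOpen A) (hAW : ∀ a ∈ A, g * a * g⁻¹ ∈ W) :
    μ W * ν ((fun g : G => (g : G ⧸ Δ)) '' A) ≤
      μ A * ν ((fun g : G => (g : G ⧸ Δ)) '' ((fun v => v * g) '' (W * W))) := by
  set π : G → G ⧸ Δ := fun g => (g : G ⧸ Δ) with hπ
  have hop : IsOpenMap π := QuotientGroup.isOpenMap_coe
  have hAo : IsOpen (π '' A) := hop A hA
  have hWW : IsOpen (W * W) := hWo.mul_right
  have hVo : IsOpen (π '' ((fun v => v * g) '' (W * W))) :=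
    hop _ (isOpenMap_mul_right g _ hWW)
  set S : Set G := (fun h => g * h) ⁻¹' W with hS
  have hSm : MeasurableSet S := (hWo.preimage (continuous_const_mul g)).measurableSet
  have hSμ : μ S = μ W := measure_preimage_mul μ g W
  have h1 := coc_tonelli μ ν S (π '' A) hAo
  have h2 : ∫⁻ h in S, ν {y | h • y ∈ π '' A} ∂μ = μ W * ν (π '' A) := by
    have : ∀ h : G, ν {y | h • y ∈ π '' A} = ν (π '' A) := fun h =>
      hinv h (π '' A) hAo.measurableSet
    simp only [this]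
    rw [lintegral_const, Measure.restrict_apply MeasurableSet.univ, Set.univ_inter, hSμ, mul_comm]
  rw [← h2, h1]
  set V := π '' ((fun v => v * g) '' (W * W)) with hV
  have h3 : ∀ y, (μ.restrict S) {h | h • y ∈ π '' A} ≤ V.indicator (fun _ => μ A) y := by
    intro y
    by_cases hy : y ∈ V
    · rw [Set.indicator_of_mem hy]
      obtain ⟨x, ⟨v, hv, rfl⟩, rfl⟩ := hy
      rw [Measure.restrict_apply' hSm]
      have hsub : {h | h • π (v * g) ∈ π '' A} ∩ S ⊆ (fun h => h * (v * g)) ⁻¹' A := by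
        rintro h ⟨⟨a, ha, hae⟩, hhS⟩
        have hae' : π a = π (h * (v * g)) := hae
        have hδ : a⁻¹ * (h * (v * g)) ∈ Δ := QuotientGroup.eq.1 hae'
        obtain ⟨w1, hw1, w2, hw2, rfl⟩ := hv
        have hgh : g * h ∈ W := hhS
        have hag := hAW a ha
        have h4 : g * (a⁻¹ * (h * (w1 * w2 * g))) * g⁻¹ =
            (g * a * g⁻¹)⁻¹ * (g * h) * (w1 * w2) := by group
        have h5 := hU g _ hδ (by
          rw [h4]
          exact hWU _ (hWs _ hag) _ hgh _ hw1 _ hw2)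
        have h6 : h * (w1 * w2 * g) = a := by
          rw [inv_mul_eq_one] at h5
          exact h5.symm
        show h * (w1 * w2 * g) ∈ A
        rw [h6]
        exact ha
      calc μ ({h | h • π (v * g) ∈ π '' A} ∩ S) ≤ μ ((fun h => h * (v * g)) ⁻¹' A) :=
            measure_mono hsub
        _ = μ A := measure_preimage_mul_right μ (v * g) A
    · rw [Set.indicator_of_notMem hy, nonpos_iff_eq_zero, Measure.restrict_apply' hSm]
      convert measure_empty (μ := μ)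
      rw [Set.eq_empty_iff_forall_notMem]
      rintro h ⟨⟨a, ha, hae⟩, hhS⟩
      apply hy
      have hgh : g * h ∈ W := hhS
      have hag := hAW a ha
      refine ⟨h⁻¹ * a, ⟨(g * h)⁻¹ * (g * a * g⁻¹), Set.mul_mem_mul (hWs _ hgh) hag, ?_⟩, ?_⟩
      · show (g * h)⁻¹ * (g * a * g⁻¹) * g = h⁻¹ * a
        group
      · have hae' : π a = h • y := hae
        show h⁻¹ • π a = y
        rw [hae', inv_smul_smul]
  refine (lintegral_mono h3).trans (le_of_eq ?_)
  rw [lintegral_indicator hVo.measurableSet, lintegral_const,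
    Measure.restrict_apply MeasurableSet.univ, Set.univ_inter]

omit [SecondCountableTopology G] [MeasurableSpace G] [BorelSpace G] in
/-- A symmetric open neighbourhood of `1` with `W W W W ⊆ U` inside a compact set. -/
theorem coc_nhd (U : Set G) (hU : U ∈ 𝓝 (1 : G)) : ∃ (W K : Set G), IsOpen W ∧ (1 : G) ∈ W ∧
    (∀ w ∈ W, w⁻¹ ∈ W) ∧ (∀ a ∈ W, ∀ b ∈ W, ∀ c ∈ W, ∀ d ∈ W, a * b * (c * d) ∈ U) ∧
    IsCompact K ∧ W ⊆ K := by
  obtain ⟨V, hVo, hV1, hV⟩ := exists_open_nhds_one_split hU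
  obtain ⟨V', hVo', hV1', hV'⟩ := exists_open_nhds_one_split (hVo.mem_nhds hV1)
  obtain ⟨K, hK, hK1⟩ := exists_compact_mem_nhds (1 : G)
  set W₀ := V' ∩ interior K with hW₀
  have hW₀o : IsOpen W₀ := hVo'.inter isOpen_interior
  have hW₀1 : (1 : G) ∈ W₀ := ⟨hV1', mem_interior_iff_mem_nhds.2 hK1⟩
  refine ⟨W₀ ∩ W₀⁻¹, K, hW₀o.inter hW₀o.inv, ⟨hW₀1, by simpa using hW₀1⟩, ?_, ?_, hK, ?_⟩
  · rintro w ⟨h1, h2⟩
    exact ⟨h2, by simpa using h1⟩
  · rintro a ⟨⟨ha, -⟩, -⟩ b ⟨⟨hb, -⟩, -⟩ c ⟨⟨hc, -⟩, -⟩ d ⟨⟨hd, -⟩, -⟩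
    exact hV _ (hV' a ha b hb) _ (hV' c hc d hd)
  · rintro w ⟨⟨-, h1⟩, -⟩
    exact interior_subset h1

/-- A uniformly discrete lattice is cocompact. -/
theorem coc_uniform [T2Space G] (μ : Measure G) [μ.IsHaarMeasure] [μ.IsMulRightInvariant]
    (hΔ : IsLattice Δ) (U : Set G) (hU1 : U ∈ 𝓝 (1 : G))
    (hU : ∀ g : G, ∀ δ ∈ Δ, g * δ * g⁻¹ ∈ U → δ = 1) :
    ∃ C : Set G, IsCompact C ∧ ∀ g : G, ∃ δ ∈ Δ, δ * g ∈ C := by
  classical
  obtain ⟨-, ν, hν0, hνf, hinv⟩ := hΔ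
  let _ : MeasurableSpace (G ⧸ Δ) := borel _
  have : BorelSpace (G ⧸ Δ) := ⟨rfl⟩
  have : IsFiniteMeasure ν := ⟨lt_top_iff_ne_top.2 hνf⟩
  obtain ⟨W, K, hWo, hW1, hWs, hWU, hK, hWK⟩ := coc_nhd U hU1
  set π : G → G ⧸ Δ := fun g => (g : G ⧸ Δ) with hπ
  have hop : IsOpenMap π := QuotientGroup.isOpenMap_coe
  -- positive measure of the image of `W`
  have hνW : ν (π '' W) ≠ 0 := by
    intro h0
    apply hν0
    have hcov : ∀ g : G, ν (π '' ((fun w => g * w) '' W)) = 0 := by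
      intro g
      have h1 := hinv g⁻¹ (π '' W) (hop W hWo).measurableSet
      have h2 : π '' ((fun w => g * w) '' W) ⊆ (fun x => g⁻¹ • x) ⁻¹' (π '' W) := by
        rintro x ⟨y, ⟨w, hw, rfl⟩, rfl⟩
        refine ⟨w, hw, ?_⟩
        show π w = π (g⁻¹ * (g * w))
        rw [inv_mul_cancel_left]
      exact measure_mono_null h2 (h1.trans h0)
    obtain ⟨s, hs, hsc⟩ := TopologicalSpace.isOpen_iUnion_countable
      (fun g : G => (fun w => g * w) '' W) (fun g => isOpenMap_mul_left g W hWo)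
    have huniv : (Set.univ : Set (G ⧸ Δ)) ⊆ ⋃ g ∈ s, π '' ((fun w => g * w) '' W) := by
      intro x _
      obtain ⟨g, rfl⟩ := QuotientGroup.mk_surjective x
      have hg : g ∈ ⋃ g : G, (fun w => g * w) '' W :=
        Set.mem_iUnion.2 ⟨g, 1, hW1, mul_one g⟩
      rw [← hsc] at hg
      obtain ⟨i, hi, hgi⟩ := Set.mem_iUnion₂.1 hg
      exact Set.mem_iUnion₂.2 ⟨i, hi, g, hgi, rfl⟩
    rw [← Measure.measure_univ_eq_zero]
    refine measure_mono_null huniv ?_
    rw [measure_biUnion_null_iff hs]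
    intro g _
    exact hcov g
  -- the uniform lower bound
  set B : Set G := K * K⁻¹ with hB
  have hBc : IsCompact B := hK.mul hK.inv
  have hμB : μ B ≠ ⊤ := hBc.measure_lt_top.ne
  have hμW0 : μ W ≠ 0 := (hWo.measure_pos μ ⟨1, hW1⟩).ne'
  have hB0 : μ B ≠ 0 := by
    intro h0
    apply hμW0
    refine measure_mono_null ?_ h0
    intro w hw
    exact ⟨w, hWK hw, 1, by simpa using hWK hW1, mul_one w⟩
  set ε : ℝ≥0∞ := μ W * ν (π '' W) / μ B with hε
  have hε0 : ε ≠ 0 := by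
    rw [hε]
    exact (ENNReal.div_pos (mul_ne_zero hμW0 hνW) hμB).ne'
  have hlow : ∀ g : G, ε ≤ ν (π '' ((fun v => v * g) '' (W * W))) := by
    intro g
    set A : Set G := W ∩ (fun a => g * a * g⁻¹) ⁻¹' W with hA
    have hAo : IsOpen A := hWo.inter
      (hWo.preimage ((continuous_const.mul continuous_id).mul continuous_const))
    have hA1 : (1 : G) ∈ A := ⟨hW1, by
      show g * 1 * g⁻¹ ∈ W
      rw [mul_one, mul_inv_cancel]
      exact hW1⟩
    have h1 := coc_lower μ ν hinv W B A hAo (fun a ha t ht =>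
      Set.mul_mem_mul (hWK ha.1) (Set.inv_mem_inv.2 (hWK ht))) hWo hBc.measurableSet
    have h2 := coc_lower_all μ ν hinv W U hWo hWs hWU hU g A hAo (fun a ha => ha.2)
    have hA0 : μ A ≠ 0 := (hAo.measure_pos μ ⟨1, hA1⟩).ne'
    have hAt : μ A ≠ ⊤ := ((measure_mono (fun a ha => hWK ha.1)).trans_lt hK.measure_lt_top).ne
    set x := ν (π '' ((fun v => v * g) '' (W * W))) with hx
    have h3 : μ A * (μ W * ν (π '' W)) ≤ μ A * (μ B * x) := by
      calc μ A * (μ W * ν (π '' W)) = μ W * (ν (π '' W) * μ A) := by ring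
        _ ≤ μ W * (μ B * ν (π '' A)) := by gcongr
        _ = μ B * (μ W * ν (π '' A)) := by ring
        _ ≤ μ B * (μ A * x) := by gcongr
        _ = μ A * (μ B * x) := by ring
    have h4 : μ W * ν (π '' W) ≤ μ B * x := (ENNReal.mul_le_mul_iff_right hA0 hAt).1 h3
    rw [hε]
    exact ENNReal.div_le_of_le_mul' h4
  -- a maximal family
  set P : ℕ → Prop := fun N => ∃ s : Finset G, s.card = N ∧
    (s : Set G).PairwiseDisjoint (fun g => π '' ((fun v => v * g) '' (W * W))) with hP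
  have hWW : IsOpen (W * W) := hWo.mul_right
  have hVo : ∀ g : G, IsOpen (π '' ((fun v => v * g) '' (W * W))) := fun g =>
    hop _ (isOpenMap_mul_right g _ hWW)
  have hbound : ∃ N₀ : ℕ, ∀ N, P N → N ≤ N₀ := by
    obtain ⟨N₀, hN₀⟩ := ENNReal.exists_nat_gt (ENNReal.div_ne_top hνf hε0)
    refine ⟨N₀, ?_⟩
    rintro N ⟨s, hs, hd⟩
    have h1 : (N : ℝ≥0∞) * ε ≤ ν Set.univ := by
      calc (N : ℝ≥0∞) * ε = ∑ g ∈ s, ε := by rw [Finset.sum_const, hs, nsmul_eq_mul]
        _ ≤ ∑ g ∈ s, ν (π '' ((fun v => v * g) '' (W * W))) :=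
            Finset.sum_le_sum (fun g _ => hlow g)
        _ = ν (⋃ g ∈ s, π '' ((fun v => v * g) '' (W * W))) :=
            (measure_biUnion_finset hd (fun g _ => (hVo g).measurableSet)).symm
        _ ≤ ν Set.univ := measure_mono (Set.subset_univ _)
    have h2 : (N : ℝ≥0∞) ≤ ν Set.univ / ε := by
      by_cases hεt : ε = ⊤
      · rw [hεt] at h1
        rcases Nat.eq_zero_or_pos N with hN | hN
        · rw [hN]; simp
        · exfalso
          rw [ENNReal.mul_top (by exact_mod_cast hN.ne')] at h1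
          exact hνf (top_le_iff.1 h1)
      · exact (ENNReal.le_div_iff_mul_le (Or.inl hε0) (Or.inl hεt)).2 h1
    exact_mod_cast (h2.trans_lt hN₀).le
  obtain ⟨N₀, hN₀⟩ := hbound
  have hP0 : P 0 := ⟨∅, rfl, by simp⟩
  have hmax : ∃ N, P N ∧ ¬ P (N + 1) := by
    by_contra hcon
    push Not at hcon
    have : ∀ N, P N := by
      intro N
      induction N with
      | zero => exact hP0
      | succ N ih => exact hcon N ih
    have := hN₀ _ (this (N₀ + 1))
    omega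
  obtain ⟨N, ⟨s, hs, hd⟩, hnot⟩ := hmax
  set V : Set G := K * K with hV
  have hVc : IsCompact V := hK.mul hK
  set C : Set G := ⋃ g ∈ s, (fun v => v * g) '' (V⁻¹ * V) with hC
  have hCc : IsCompact C := by
    rw [hC]
    exact s.finite_toSet.isCompact_biUnion (fun g _ =>
      (hVc.inv.mul hVc).image (continuous_mul_const g))
  have hcov : ∀ g : G, ∃ δ ∈ Δ, g * δ ∈ C := by
    intro g
    by_contra hcon
    push Not at hcon
    apply hnot
    have hdis : ∀ a ∈ s, Disjoint (π '' ((fun v => v * g) '' (W * W)))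
        (π '' ((fun v => v * a) '' (W * W))) := by
      intro a ha
      rw [Set.disjoint_left]
      rintro _ ⟨_, ⟨v, hv, rfl⟩, rfl⟩ ⟨_, ⟨v', hv', rfl⟩, he⟩
      have he' : (v * g)⁻¹ * (v' * a) ∈ Δ := QuotientGroup.eq.1 he.symm
      apply hcon _ he'
      rw [hC, Set.mem_iUnion₂]
      have hsubV : W * W ⊆ V := Set.mul_subset_mul hWK hWK
      refine ⟨a, ha, v⁻¹ * v', Set.mul_mem_mul (Set.inv_mem_inv.2 (hsubV hv)) (hsubV hv'), ?_⟩
      show v⁻¹ * v' * a = g * ((v * g)⁻¹ * (v' * a))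
      group
    have hgs : g ∉ s := by
      intro hgs
      have h1 := hdis g hgs
      rw [disjoint_self, Set.bot_eq_empty, Set.image_eq_empty, Set.image_eq_empty] at h1
      have h2 : (1 : G) * 1 ∈ W * W := Set.mul_mem_mul hW1 hW1
      rw [h1] at h2
      exact h2
    refine ⟨insert g s, ?_, ?_⟩
    · rw [Finset.card_insert_of_notMem hgs, hs]
    · rw [Finset.coe_insert, Set.pairwiseDisjoint_insert_of_notMem (by simpa using hgs)]
      exact ⟨hd, fun a ha => hdis a (by simpa using ha)⟩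
  refine ⟨C⁻¹, hCc.inv, ?_⟩
  intro g
  obtain ⟨δ, hδ, hg⟩ := hcov g⁻¹
  refine ⟨δ⁻¹, Δ.inv_mem hδ, ?_⟩
  rw [Set.mem_inv, _root_.mul_inv_rev, inv_inv]
  exact hg

end general

variable {n : ℕ}

/-- Conjugates of elements of a discrete cocompact group are uniformly far from `1`. -/
theorem Coc.uniform {Γ : Subgroup (SUGroup n)} (hΓ : Coc Γ) : ∃ U ∈ 𝓝 (1 : SUGroup n),
    ∀ g : SUGroup n, ∀ γ ∈ Γ, g * γ * g⁻¹ ∈ U → γ = 1 := by
  obtain ⟨F, hF, hcov⟩ := hΓ.cpt
  have hd : DiscreteTopology Γ := hΓ.disc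
  obtain ⟨K, hK, hK1⟩ := exists_compact_mem_nhds (1 : SUGroup n)
  have hcl : IsClosed (Γ : Set (SUGroup n)) := Subgroup.isClosed_of_discrete
  have hce : IsClosedEmbedding (Subtype.val : Γ → SUGroup n) := hcl.isClosedEmbedding_subtypeVal
  set Q : Set (SUGroup n) := F⁻¹⁻¹ * K * F⁻¹ with hQ
  have hQc : IsCompact Q := (hF.inv.inv.mul hK).mul hF.inv
  have hfin : (Subtype.val ⁻¹' Q : Set Γ).Finite :=
    (hce.isCompact_preimage hQc).finite_of_discrete
  set S : Set Γ := {γ | γ ∈ (Subtype.val ⁻¹' Q : Set Γ) ∧ γ ≠ 1} with hS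
  have hSf : S.Finite := hfin.subset (fun γ hγ => hγ.1)
  set cg : Γ → Set (SUGroup n) := fun γ => (fun f : SUGroup n => f⁻¹ * γ * f) '' F with hcg
  have hc1 : ∀ γ, IsCompact (cg γ) := fun γ =>
    hF.image ((continuous_inv.mul continuous_const).mul continuous_id)
  refine ⟨K ∩ ⋂ γ ∈ S, (cg γ)ᶜ, ?_, ?_⟩
  · refine Filter.inter_mem hK1 ?_
    rw [Filter.biInter_mem hSf]
    intro γ hγ
    refine (hc1 γ).isClosed.isOpen_compl.mem_nhds ?_
    rintro ⟨f, -, hf⟩
    apply hγ.2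
    have h1 : (γ : SUGroup n) = 1 := by
      have h2 : (γ : SUGroup n) = f * (f⁻¹ * γ * f) * f⁻¹ := by group
      have hf' : f⁻¹ * (γ : SUGroup n) * f = 1 := hf
      rw [h2, hf', mul_one, mul_inv_cancel]
    exact Subtype.ext h1
  · intro g γ hγ hU
    by_contra hne
    obtain ⟨η, hη, hηg⟩ := hcov g⁻¹
    set f := η * g⁻¹ with hf
    have h1 : g * γ * g⁻¹ = f⁻¹ * (η * γ * η⁻¹) * f := by rw [hf]; group
    have hmem : η * γ * η⁻¹ ∈ Γ := Γ.mul_mem (Γ.mul_mem hη hγ) (Γ.inv_mem hη)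
    have hne' : η * γ * η⁻¹ ≠ 1 := by
      intro h2
      apply hne
      rw [mul_inv_eq_one] at h2
      exact mul_eq_left.1 h2
    have hQm : η * γ * η⁻¹ ∈ Q := by
      have h3 : η * γ * η⁻¹ = f * (g * γ * g⁻¹) * f⁻¹ := by rw [h1]; group
      rw [h3, hQ, inv_inv]
      exact Set.mul_mem_mul (Set.mul_mem_mul hηg hU.1) (Set.inv_mem_inv.2 hηg)
    have h4 := Set.mem_iInter₂.1 hU.2 ⟨_, hmem⟩ ⟨hQm, fun h => hne' (congrArg Subtype.val h)⟩
    exact h4 ⟨f, hηg, h1.symm⟩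

/-- A lattice of a closed subgroup that is contained in a cocompact discrete group is cocompact. -/
theorem Coc.of_lattice {a b : ℕ} [(mu b).IsMulRightInvariant] {Γ : Subgroup (SUGroup a)}
    (hΓ : Coc Γ) {Δ : Subgroup (SUGroup b)} (hΔ : IsLattice Δ) (ι : SUGroup b →* SUGroup a)
    (hι : Continuous ι) (hinj : Function.Injective ι) (hsub : ∀ δ ∈ Δ, ι δ ∈ Γ) : Coc Δ := by
  obtain ⟨U, hU1, hU⟩ := hΓ.uniform
  have h1 : ι ⁻¹' U ∈ 𝓝 (1 : SUGroup b) := by
    apply hι.continuousAt.preimage_mem_nhds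
    rw [map_one]
    exact hU1
  obtain ⟨C, hC, hcov⟩ := coc_uniform (mu b) hΔ (ι ⁻¹' U) h1 (by
    intro g δ hδ hg
    have h2 : ι (g * δ * g⁻¹) ∈ U := hg
    rw [map_mul, map_mul, map_inv] at h2
    have h3 := hU (ι g) (ι δ) (hsub δ hδ) h2
    rw [← map_one ι] at h3
    exact hinj h3)
  exact ⟨hΔ.1, C, hC, hcov⟩

/-- The embedding `x ↦ g (1 ⊕ x) g⁻¹`. -/
def emb {m : ℕ} (g : SUGroup (m + 1)) : SUGroup m →* SUGroup (m + 1) :=
  (MulAut.conj g).toMonoidHom.comp (extend m)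

theorem emb_apply {m : ℕ} (g : SUGroup (m + 1)) (x : SUGroup m) :
    emb g x = g * extend m x * g⁻¹ := rfl

theorem continuous_extend (m : ℕ) : Continuous (extend m) := by
  rw [(isClosedEmbedding_toMatrix (m + 1)).isEmbedding.continuous_iff]
  have : (SUGroup.toMatrix ∘ extend m : SUGroup m → Matrix (Fin (m + 2)) (Fin (m + 2)) ℂ) =
      fun x => dsum 1 x.toMatrix := by
    ext x i j
    rfl
  rw [this]
  refine continuous_matrix ?_
  intro i j
  have hc := continuous_toMatrix m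
  refine Fin.cases ?_ (fun i => ?_) i
  · refine Fin.cases ?_ (fun j => ?_) j
    · exact continuous_const
    · exact continuous_const
  · refine Fin.cases ?_ (fun j => ?_) j
    · exact continuous_const
    · exact hc.matrix_elem i j

theorem continuous_emb {m : ℕ} (g : SUGroup (m + 1)) : Continuous (emb g) := by
  have := continuous_extend m
  exact (continuous_const.mul this).mul continuous_const

theorem extend_injective (m : ℕ) : Function.Injective (extend m) := by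
  intro x y h
  apply toMatrix_injective
  have h1 : dsum 1 x.toMatrix = dsum 1 y.toMatrix := congrArg SUGroup.toMatrix h
  ext i j
  exact congrFun (congrFun h1 i.succ) j.succ

theorem emb_injective {m : ℕ} (g : SUGroup (m + 1)) : Function.Injective (emb g) := by
  intro x y h
  exact extend_injective m ((MulAut.conj g).injective h)

/-- The pieces of a cocompact hybrid are cocompact. -/
theorem coc_piece {m : ℕ} [(mu m).IsMulRightInvariant] {Γ : Fin 2 → Subgroup (SUGroup m)}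
    {g : Fin 2 → SUGroup (m + 1)} (hL : ∀ b, IsLattice (Γ b)) (hc : Coc (hybrid Γ g)) (b : Fin 2) :
    Coc (Γ b) :=
  hc.of_lattice (hL b) (emb (g b)) (continuous_emb (g b)) (emb_injective (g b)) (fun δ hδ =>
    Subgroup.subset_closure ⟨b, δ, hδ, rfl⟩)

/-- The common piece is cocompact. -/
theorem coc_three {k : ℕ} [(mu k).IsMulRightInvariant] {Γ₃ : Subgroup (SUGroup k)}
    {Δ : Subgroup (SUGroup (k + 1))} (h₃ : IsLattice Γ₃) (hsub : ∀ γ ∈ Γ₃, extend k γ ∈ Δ)
    (hc : Coc Δ) : Coc Γ₃ :=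
  hc.of_lattice h₃ (extend k) (continuous_extend k) (extend_injective k) hsub

/-- A discrete group with compact quotient. -/
theorem coc_of_compactSpace {Γ : Subgroup (SUGroup n)} (hd : DiscreteTopology Γ)
    (hc : CompactSpace (SUGroup n ⧸ Γ)) : Coc Γ := by
  refine ⟨hd, ?_⟩
  obtain ⟨K, hK, hK1⟩ := exists_compact_mem_nhds (1 : SUGroup n)
  have hop : IsOpenMap (fun g : SUGroup n => (g : SUGroup n ⧸ Γ)) := QuotientGroup.isOpenMap_coe
  set W := interior K with hW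
  have hW1 : (1 : SUGroup n) ∈ W := mem_interior_iff_mem_nhds.2 hK1
  obtain ⟨s, hs⟩ := isCompact_univ.elim_finite_subcover
    (fun g : SUGroup n => (fun x : SUGroup n => (x : SUGroup n ⧸ Γ)) '' ((fun w => g * w) '' W))
    (fun g => hop _ (isOpenMap_mul_left g _ isOpen_interior)) (by
      intro x _
      obtain ⟨g, rfl⟩ := QuotientGroup.mk_surjective x
      exact Set.mem_iUnion.2 ⟨g, g, ⟨1, hW1, mul_one g⟩, rfl⟩)
  refine ⟨(⋃ g ∈ s, (fun w => g * w) '' K)⁻¹, ?_, ?_⟩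
  · exact (s.finite_toSet.isCompact_biUnion (fun g _ => hK.image (continuous_const_mul g))).inv
  · intro g
    obtain ⟨a, ha, x, ⟨w, hw, rfl⟩, hx⟩ := Set.mem_iUnion₂.1
      (hs (Set.mem_univ ((g⁻¹ : SUGroup n) : SUGroup n ⧸ Γ)))
    have h1 : (a * w)⁻¹ * g⁻¹ ∈ Γ := QuotientGroup.eq.1 hx
    refine ⟨(a * w)⁻¹ * g⁻¹, h1, ?_⟩
    rw [Set.mem_inv]
    refine Set.mem_iUnion₂.2 ⟨a, ha, w, interior_subset hw, ?_⟩
    show a * w = ((a * w)⁻¹ * g⁻¹ * g)⁻¹
    group

end Pool.Agent.Lib.MP_5d4057_al.HM
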