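import Pool.Agent.Lib.MP_5d4057_al.HM.Aut
import Pool.Agent.Lib.MP_5d4057_al.HM.CocSub
import Pool.Agent.Lib.MP_5d4057_al.Hyb.FinalA

/-! The arithmetic end of the application (section F). -/

set_option autoImplicit false

namespace Pool.Agent.Lib.MP_5d4057_al.HM

open Matrix Pool.Agent.Lib.MP_5d4057_al Pool.Agent.Lib.MP_5d4057_al.Hyb

/-- From the two key facts (`hlt`, `hid`) to arithmeticity. -/
theorem app_end {k : ℕ} (hk : 1 ≤ k) (Γ₃ : Subgroup (SUGroup k))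
    (Γ : Fin 2 → Subgroup (SUGroup (k + 1))) (g : Fin 2 → SUGroup (k + 2))
    (h₃ : IsLattice Γ₃) (hL : ∀ b, IsLattice (Γ b)) (hA : ∀ b, IsArithmetic (k + 1) (Γ b))
    (hsub : ∀ b, ∀ γ ∈ Γ₃, extend k γ ∈ Γ b)
    (hagree : ∀ γ ∈ Γ₃, g 0 * extend (k + 1) (extend k γ) * (g 0)⁻¹ =
      g 1 * extend (k + 1) (extend k γ) * (g 1)⁻¹)
    (hlat : IsLattice (hybrid Γ g))
    (hlt : ∀ (K : Subfield ℂ) (D : Matrix (Fin (k + 1)) (Fin (k + 1)) ℂ)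
      (HD : Matrix (Fin (k + 1)) (Fin (k + 1)) K) (μ : Fin 2 → ℂ) (q : Fin 2 → K), IsCM K →
      IsNF k K D HD μ q → (∀ b, ∀ γ ∈ Γ b, EntriesIn K (dsum (μ b) D) γ.toMatrix) →
      ∀ (X : Matrix (Fin 2) (Fin 2) ℂ) (ζ : ℂ), star ζ * ζ = 1 → Xᴴ * X = 1 →
      (g 1).toMatrix = (g 0).toMatrix * (ζ • bsum X 1) → X 0 1 ≠ 0 →
      ∀ t : ℂ ≃+* ℂ, (¬ ∀ x : K, t (x : ℂ) = x) → (¬ ∀ x : K, t (x : ℂ) = (starRingEnd ℂ) (x : ℂ)) →
        (t (cosSq g)).re < 1)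
    (hid : ∀ (K : Subfield ℂ) (D : Matrix (Fin (k + 1)) (Fin (k + 1)) ℂ)
      (HD : Matrix (Fin (k + 1)) (Fin (k + 1)) K) (μ : Fin 2 → ℂ) (q : Fin 2 → K), IsCM K →
      IsNF k K D HD μ q → (∀ b, ∀ γ ∈ Γ b, EntriesIn K (dsum (μ b) D) γ.toMatrix) →
      ∀ (X : Matrix (Fin 2) (Fin 2) ℂ) (ζ : ℂ), star ζ * ζ = 1 → Xᴴ * X = 1 →
      (g 1).toMatrix = (g 0).toMatrix * (ζ • bsum X 1) → X 0 1 ≠ 0 →
      ∀ t : ℂ ≃+* ℂ, (∀ x : K, t (x : ℂ) = x) →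
        ∀ γ ∈ hybrid Γ g, t γ.toMatrix.trace = γ.toMatrix.trace) :
    IsArithmetic (k + 2) (hybrid Γ g) ↔
      traceField (Γ 0) = traceField (Γ 1) ∧
      ∀ γ ∈ hybrid Γ g, IsIntegral ℤ γ.toMatrix.trace := by
  constructor
  · intro hAr
    exact main_mp hk Γ g hL hAr
  · rintro ⟨htr, hint⟩
    obtain ⟨X, ζ, hζ, hX, hg⟩ := frame hk Γ₃ h₃ g hagree
    have h01 := X01_ne Γ g hlat X ζ hζ hX hg
    obtain ⟨hcos, -⟩ := cosSq_eq hζ hX hg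
    refine build hk Γ₃ Γ g h₃ hL hA hsub hlat htr hint X ζ hζ hX hg ?_
    intro D HD μ q hcm hn h3D hrat hT
    have hnf : NumberField (traceField (Γ 0)) := hcm.1
    have hK : ∀ γ ∈ hybrid Γ g, γ.toMatrix.trace ∈ traceField (Γ 0) := by
      intro γ hγ
      refine mem_of_fixed _ _ ?_
      intro t ht
      exact hid _ D HD μ q hcm hn hrat X ζ hζ hX hg h01 t ht γ hγ
    have hzK := angle_mem_of_trace hcm hn Γ hL hrat g X ζ hζ hg (hybrid Γ g)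
      (fun b γ hγ => Subgroup.subset_closure ⟨b, γ, hγ, rfl⟩) hK
    refine ⟨hzK, ?_⟩
    -- the number `c` is in the field
    have hcK : star (X 1 1) * X 1 1 ∈ traceField (Γ 0) := by
      have h1 : star (X 1 1) * X 1 1 =
          (starRingEnd ℂ) (star (μ 0) * μ 1 * X 1 1) * (star (μ 0) * μ 1 * X 1 1) /
            ((q 0 : ℂ) * (q 1 : ℂ)) := by
        rw [hn.q_eq 0, hn.q_eq 1]
        have h0 : star (μ 0) ≠ 0 := fun h => hn.μ_ne 0 (star_eq_zero.1 h)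
        have h1 : star (μ 1) ≠ 0 := fun h => hn.μ_ne 1 (star_eq_zero.1 h)
        have h0' := hn.μ_ne 0
        have h1' := hn.μ_ne 1
        simp only [map_mul, RCLike.star_def, Complex.conj_conj] at h0 h1 ⊢
        field_simp
      rw [h1]
      exact (traceField (Γ 0)).div_mem ((traceField (Γ 0)).mul_mem (hcm.2.2.1 _ hzK) hzK)
        ((traceField (Γ 0)).mul_mem (q 0).2 (q 1).2)
    refine glue_form_angle hcm hn X hX hzK ⟨_, hcK⟩ rfl ?_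
    intro τ
    by_cases h1 : ∀ x : traceField (Γ 0), τ x = x
    · exact Or.inl h1
    by_cases h2 : ∀ x : traceField (Γ 0), τ x = (starRingEnd ℂ) (x : ℂ)
    · exact Or.inr (Or.inl h2)
    refine Or.inr (Or.inr ?_)
    obtain ⟨t, ht⟩ := exists_aut (traceField (Γ 0)) τ
    have h3 := hlt _ D HD μ q hcm hn hrat X ζ hζ hX hg h01 t
      (fun h => h1 (fun x => by rw [← ht x, h x])) (fun h => h2 (fun x => by rw [← ht x, h x]))
    have h4 := ht ⟨_, hcK⟩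
    rw [← h4]
    show (t (star (X 1 1) * X 1 1)).re < 1
    rw [← hcos]
    exact h3

end Pool.Agent.Lib.MP_5d4057_al.HM
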