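import Pool.Agent.Lib.MP_5d4057_al.HM.WideC
import Pool.Agent.Lib.MP_5d4057_al.HM.AppEnd

/-! Pieces commensurable with `SU(H, O_K)`, over the same field `K`: assembly. -/

set_option autoImplicit false

namespace Pool.Agent.Lib.MP_5d4057_al.HM

open Matrix Pool.Agent.Lib.MP_5d4057_al Pool.Agent.Lib.MP_5d4057_al.Hyb

variable {k : ℕ}

/-- The part of `Γ₃` in the subgroups `Γ' b`. -/
def commonPart (Γ₃ : Subgroup (SUGroup k)) (Γ' : Fin 2 → Subgroup (SUGroup (k + 1))) :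
    Subgroup (SUGroup k) := Γ₃ ⊓ ((Γ' 0 ⊓ Γ' 1).comap (extend k))

theorem commonPart_le (Γ₃ : Subgroup (SUGroup k)) (Γ' : Fin 2 → Subgroup (SUGroup (k + 1))) :
    commonPart Γ₃ Γ' ≤ Γ₃ := inf_le_left

theorem commonPart_sub (Γ₃ : Subgroup (SUGroup k)) (Γ' : Fin 2 → Subgroup (SUGroup (k + 1))) :
    ∀ b, ∀ γ ∈ commonPart Γ₃ Γ', extend k γ ∈ Γ' b := by
  rw [Fin.forall_fin_two]
  exact ⟨fun γ hγ => hγ.2.1, fun γ hγ => hγ.2.2⟩

theorem commonPart_relIndex {Γ₃ : Subgroup (SUGroup k)}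
    {Γ Γ' : Fin 2 → Subgroup (SUGroup (k + 1))} (hsub : ∀ b, ∀ γ ∈ Γ₃, extend k γ ∈ Γ b)
    (hfin : ∀ b, (Γ' b).relIndex (Γ b) ≠ 0) : (commonPart Γ₃ Γ').relIndex Γ₃ ≠ 0 := by
  have h1 : ∀ b, (Γ' b).relIndex (Γ₃.map (extend k)) ≠ 0 := by
    intro b h
    refine hfin b (Subgroup.relIndex_eq_zero_of_le_right ?_ h)
    rintro _ ⟨γ, hγ, rfl⟩
    exact hsub b γ hγ
  have h2 : (Γ' 0 ⊓ Γ' 1).relIndex (Γ₃.map (extend k)) ≠ 0 :=
    Subgroup.relIndex_inf_ne_zero (h1 0) (h1 1)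
  rw [commonPart, Subgroup.inf_relIndex_left, Subgroup.relIndex_comap]
  exact h2

/-- The pieces of a cocompact hybrid which are commensurable with `SU(H b, O_K)`, are contained in
`SU(H b, K)` (the case of one field `K`). -/
theorem wide_narrow_one (H : ThmH) (U : ThmU) (hk : 1 ≤ k) (Γ₃ : Subgroup (SUGroup k))
    (Γ : Fin 2 → Subgroup (SUGroup (k + 1))) (g : Fin 2 → SUGroup (k + 2))
    (h₃ : IsLattice Γ₃) (hL : ∀ b, IsLattice (Γ b)) {K : Subfield ℂ}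
    {HH : Fin 2 → Matrix (Fin (k + 1 + 1)) (Fin (k + 1 + 1)) K}
    {B : Fin 2 → Matrix (Fin (k + 1 + 1)) (Fin (k + 1 + 1)) ℂ}
    (hf : ∀ b, IsForm (k + 1) K (HH b) (B b))
    (hc : ∀ b, Subgroup.Commensurable (Γ b) (integralPoints (k + 1) K (B b)))
    (hsub : ∀ b, ∀ γ ∈ Γ₃, extend k γ ∈ Γ b)
    (hagree : ∀ γ ∈ Γ₃, g 0 * extend (k + 1) (extend k γ) * (g 0)⁻¹ =
      g 1 * extend (k + 1) (extend k γ) * (g 1)⁻¹)
    (hlat : IsLattice (hybrid Γ g)) (hcoc : Coc (hybrid Γ g)) :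
    ∀ b, ∀ γ ∈ Γ b, EntriesIn K (B b) γ.toMatrix := by
  have hcocb : ∀ b, Coc (Γ b) := coc_piece hL hcoc
  obtain ⟨Γ', hΓ'⟩ : ∃ Γ' : Fin 2 → Subgroup (SUGroup (k + 1)),
    Γ' = fun b => ratPart (Γ b) K (B b) := ⟨_, rfl⟩
  have hle : ∀ b, Γ' b ≤ Γ b := by
    intro b
    rw [hΓ']
    exact ratPart_le _ _ _
  have hfin : ∀ b, (Γ' b).relIndex (Γ b) ≠ 0 := by
    intro b
    rw [hΓ']
    exact ratPart_relIndex (hc b)
  have hr' : ∀ b, ∀ γ ∈ Γ' b, EntriesIn K (B b) γ.toMatrix := by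
    intro b γ hγ
    rw [hΓ'] at hγ
    exact hγ.2.1
  have hcocb' : ∀ b, Coc (Γ' b) := fun b => (hcocb b).of_relIndex (hle b) (hfin b)
  have hspanb : ∀ b, Submodule.span ℂ
      (SUGroup.toMatrix '' (Γ' b : Set (SUGroup (k + 1)))) = ⊤ :=
    fun b => span_top (by omega : 1 ≤ k + 1) (Γ' b) (hcocb' b).isLattice
  have hspan := span_top (by omega : 1 ≤ k + 2) (hybrid Γ g) hlat
  have hcoc3 : Coc Γ₃ := coc_three h₃ (hsub 0) (hcocb 0)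
  have hcoc3' : Coc (commonPart Γ₃ Γ') :=
    hcoc3.of_relIndex (commonPart_le Γ₃ Γ') (commonPart_relIndex hsub hfin)
  obtain ⟨D, HD, μ, q, hn, -, hch⟩ := exists_normal_form hk (commonPart Γ₃ Γ') hcoc3'.isLattice K
    HH B hf (fun b γ hγ => hr' b _ (commonPart_sub Γ₃ Γ' b γ hγ))
  choose σ Q hσ hQ hBQ using hch
  obtain ⟨X, ζ, hζ, hX, hg⟩ := frame hk Γ₃ h₃ g hagree
  have h01 := X01_ne Γ g hlat X ζ hζ hX hg
  have : NumberField K := (hf 0).cm.1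
  have hrat' : ∀ b, ∀ γ ∈ Γ' b, EntriesIn K (dsum (μ b) D) γ.toMatrix := fun b γ hγ =>
    EntriesIn.change (hf b).det (hσ b) (hQ b) (hBQ b) (hr' b γ hγ)
  have hsc : ∀ b, ∀ γ ∈ Γ b, ∃ s : ℂ, s ≠ 0 ∧ s ^ (k + 2) ∈ K ∧
      EntriesIn K (dsum (μ b) D) (s⁻¹ • γ.toMatrix) := by
    intro b γ hγ
    obtain ⟨s, hs, hsK, hγs⟩ := exists_rat_scalar (by omega : 1 ≤ k + 1) (hcocb b) (hf b) (hc b) hγ
    exact ⟨s, hs, hsK, EntriesIn.change (hf b).det (hσ b) (hQ b) (hBQ b) hγs⟩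
  have hrat := rat_wide H U Γ Γ' hle g hcoc hcocb' hspan hspanb hn hrat' hsc hζ hX hg h01
  intro b γ hγ
  have hQu := isUnit_iff_ne_zero.2 (hQ b)
  have hQi : ((Q b)⁻¹).det ≠ 0 := by
    rw [det_nonsing_inv, Ring.inverse_eq_inv']
    exact inv_ne_zero (hQ b)
  have hdet : (dsum (μ b) D).det ≠ 0 := by
    rw [det_dsum]
    exact mul_ne_zero (hn.μ_ne b) hn.det
  refine EntriesIn.change (B := dsum (μ b) D) (B' := B b) (Q := (Q b)⁻¹) (σ := (σ b)⁻¹) hdet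
    (inv_ne_zero (hσ b)) hQi ?_ (hrat b γ hγ)
  have h1 : (Q b).map (fun x : K => (x : ℂ)) * ((Q b)⁻¹).map (fun x : K => (x : ℂ)) = 1 := by
    have h0 : (Q b * (Q b)⁻¹).map (fun x : K => (x : ℂ)) =
        (Q b).map (fun x : K => (x : ℂ)) * ((Q b)⁻¹).map (fun x : K => (x : ℂ)) :=
      Matrix.map_mul (f := K.subtype)
    rw [← h0, Matrix.mul_nonsing_inv _ hQu]
    exact Matrix.map_one _ rfl rfl
  have h2 : dsum (μ b) D = (σ b)⁻¹ • (B b * (Q b).map (fun x : K => (x : ℂ))) := by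
    rw [hBQ, smul_smul, inv_mul_cancel₀ (hσ b), one_smul]
  rw [h2, Matrix.smul_mul, Matrix.mul_assoc, h1, Matrix.mul_one]

end Pool.Agent.Lib.MP_5d4057_al.HM
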