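import Pool.Agent.Lib.MP_5d4057_al.HM.AppCalc
import Pool.Agent.Lib.MP_5d4057_al.Hyb.Blk

/-! Section F: operations on pluriharmonic metrics. -/

set_option autoImplicit false

namespace Pool.Agent.Lib.MP_5d4057_al.HM

open Matrix Filter Topology Pool.Agent.Lib.MP_5d4057_al Pool.Agent.Lib.MP_5d4057_al.Hyb

open scoped ComplexOrder MatrixOrder Matrix.Norms.L2Operator

variable {n n' m : ℕ} {E F G : Type} [NormedAddCommGroup E] [NormedSpace ℂ E]
  [NormedAddCommGroup F] [NormedSpace ℂ F]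

/-- the derivative in a fixed direction is differentiable -/
theorem hasFDerivAt_fderiv {f : Vec n → E} {v : Vec n} (h : ContDiffAt ℝ 2 f v) (η : Vec n) :
    HasFDerivAt (fun w => fderiv ℝ f w η) ((fderiv ℝ (fderiv ℝ f) v).flip η) v := by
  have hD : DifferentiableAt ℝ (fderiv ℝ f) v :=
    (h.fderiv_right (m := 1) (by norm_num)).differentiableAt (by norm_num)
  have h1 := hD.hasFDerivAt.clm_apply (hasFDerivAt_const η v)
  rwa [ContinuousLinearMap.comp_zero, zero_add] at h1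

theorem hasFDerivAt_pb {f : Vec n → E} {v : Vec n} (h : ContDiffAt ℝ 2 f v) (η : Vec n) :
    HasFDerivAt (fun w => pb f w η) ((1 / 2 : ℂ) • ((fderiv ℝ (fderiv ℝ f) v).flip η +
      Complex.I • (fderiv ℝ (fderiv ℝ f) v).flip (Complex.I • η))) v :=
  ((hasFDerivAt_fderiv h η).add
    ((hasFDerivAt_fderiv h (Complex.I • η)).const_smul Complex.I)).const_smul (1 / 2 : ℂ)

theorem hasFDerivAt_pz {f : Vec n → E} {v : Vec n} (h : ContDiffAt ℝ 2 f v) (η : Vec n) :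
    HasFDerivAt (fun w => pz f w η) ((1 / 2 : ℂ) • ((fderiv ℝ (fderiv ℝ f) v).flip η -
      Complex.I • (fderiv ℝ (fderiv ℝ f) v).flip (Complex.I • η))) v :=
  ((hasFDerivAt_fderiv h η).sub
    ((hasFDerivAt_fderiv h (Complex.I • η)).const_smul Complex.I)).const_smul (1 / 2 : ℂ)

/-- Mixed second derivatives commute. -/
theorem pz_pb_comm {f : Vec n → E} {v : Vec n} (h : ContDiffAt ℝ 2 f v) (ξ η : Vec n) :
    pz (fun w => pb f w η) v ξ = pb (fun w => pz f w ξ) v η := by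
  have hs : ∀ a b : Vec n, fderiv ℝ (fderiv ℝ f) v a b = fderiv ℝ (fderiv ℝ f) v b a :=
    fun a b => (h.isSymmSndFDerivAt (by simp)).eq a b
  have e1 : ∀ a : Vec n, fderiv ℝ (fun w => pb f w η) v a = (1 / 2 : ℂ) •
      (fderiv ℝ (fderiv ℝ f) v a η + Complex.I • fderiv ℝ (fderiv ℝ f) v a (Complex.I • η)) := by
    intro a
    rw [(hasFDerivAt_pb h η).fderiv]
    rfl
  have e2 : ∀ a : Vec n, fderiv ℝ (fun w => pz f w ξ) v a = (1 / 2 : ℂ) •
      (fderiv ℝ (fderiv ℝ f) v a ξ - Complex.I • fderiv ℝ (fderiv ℝ f) v a (Complex.I • ξ)) := by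
    intro a
    rw [(hasFDerivAt_pz h ξ).fderiv]
    rfl
  rw [pz, pb, e1, e1, e2, e2, hs η ξ, hs η (Complex.I • ξ), hs (Complex.I • η) ξ,
    hs (Complex.I • η) (Complex.I • ξ)]
  module

theorem Harm.cda {F : Vec n → Mat m} (h : Harm F) {v : Vec n} (hv : v ∈ Cone n) :
    ContDiffAt ℝ 2 F v := h.cd.contDiffAt ((isOpen_cone n).mem_nhds hv)

theorem Harm.diff {F : Vec n → Mat m} (h : Harm F) {v : Vec n} (hv : v ∈ Cone n) :
    DifferentiableAt ℝ F v := (h.cda hv).differentiableAt (by norm_num)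

theorem Harm.unit {F : Vec n → Mat m} (h : Harm F) {v : Vec n} (hv : v ∈ Cone n) :
    IsUnit (F v) := (h.pos v hv).isUnit

theorem mem_nhds_cone {v : Vec n} (hv : v ∈ Cone n) : Cone n ∈ 𝓝 v := (isOpen_cone n).mem_nhds hv

/-- A criterion. -/
theorem Harm.mk' {F : Vec n → Mat m} (a b : Vec n → Vec n → Mat m)
    (cd : ContDiffOn ℝ 2 F (Cone n)) (hom : Homog F) (pos : ∀ v ∈ Cone n, (F v).PosDef)
    (hab : ∀ v ∈ Cone n, ∀ ξ, HasZ F v ξ (a v ξ) (b v ξ))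
    (ph : ∀ v ∈ Cone n, ∀ ξ η : Vec n, pz (fun w => b w η) v ξ =
      (1 / 2 : ℂ) • (b v η * (F v)⁻¹ * a v ξ + a v ξ * (F v)⁻¹ * b v η))
    (comm : ∀ v ∈ Cone n, ∀ ξ η : Vec n, a v ξ * (F v)⁻¹ * a v η = a v η * (F v)⁻¹ * a v ξ) :
    Harm F where
  cd := cd
  hom := hom
  pos := pos
  ph v hv ξ η := by
    have h1 : (fun w => dzb F w η) =ᶠ[𝓝 v] fun w => b w η := by
      filter_upwards [mem_nhds_cone hv] with w hw
      exact (hab w hw η).pb
    rw [dz_eq, pz_congr h1, ph v hv ξ η, dz_eq, dzb_eq, (hab v hv ξ).pz, (hab v hv η).pb]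
  comm v hv ξ η := by
    rw [dz_eq, dz_eq, (hab v hv ξ).pz, (hab v hv η).pz]
    exact comm v hv ξ η

/-- Composition with a linear map of cones. -/
theorem Harm.comp {F : Vec n → Mat m} (h : Harm F) (L : Vec n' →L[ℂ] Vec n)
    (hL : ∀ v ∈ Cone n', L v ∈ Cone n) : Harm fun v => F (L v) := by
  refine Harm.mk' (fun v ξ => pz F (L v) (L ξ)) (fun v ξ => pb F (L v) (L ξ)) ?_ ?_ ?_ ?_ ?_ ?_
  · exact h.cd.comp (L.restrictScalars ℝ).contDiff.contDiffOn hL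
  · intro c hc v hv
    show F (L (c • v)) = F (L v)
    rw [map_smul, h.hom c hc (L v) (hL v hv)]
  · exact fun v hv => h.pos _ (hL v hv)
  · exact fun v hv ξ => (hasZ (h.diff (hL v hv)) (L ξ)).comp_lin L
  · intro v hv ξ η
    have h1 : HasZ (fun w => pb F w (L η)) (L v) (L ξ) _ _ :=
      hasZ (hasFDerivAt_pb (h.cda (hL v hv)) (L η)).differentiableAt (L ξ)
    rw [(h1.comp_lin L).pz]
    exact h.ph (L v) (hL v hv) (L ξ) (L η)
  · exact fun v hv ξ η => h.comm (L v) (hL v hv) (L ξ) (L η)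

/-- Congruence. -/
theorem Harm.congr {F : Vec n → Mat m} (h : Harm F) {Q : Mat m} (hQ : IsUnit Q) :
    Harm fun v => Q * F v * Qᴴ := by
  have hQ' : IsUnit Qᴴ := (isUnit_conjTranspose Q).2 hQ
  have hd := (isUnit_iff_isUnit_det Q).1 hQ
  have hd' := (isUnit_iff_isUnit_det Qᴴ).1 hQ'
  have hz : ∀ {f : Vec n → Mat m} {v ξ : Vec n} {a b : Mat m}, HasZ f v ξ a b →
      HasZ (fun w => Q * f w * Qᴴ) v ξ (Q * a * Qᴴ) (Q * b * Qᴴ) := fun h =>
    h.clm (ContinuousLinearMap.mulLeftRight ℂ (Mat m) Q Qᴴ)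
  have hinv : ∀ v ∈ Cone n, (Q * F v * Qᴴ)⁻¹ = Qᴴ⁻¹ * (F v)⁻¹ * Q⁻¹ := by
    intro v _
    rw [Matrix.mul_inv_rev, Matrix.mul_inv_rev, ← Matrix.mul_assoc]
  have key : ∀ A B C : Mat m, Q * A * Qᴴ * (Qᴴ⁻¹ * B * Q⁻¹) * (Q * C * Qᴴ) = Q * (A * B * C) * Qᴴ := by
    intro A B C
    calc Q * A * Qᴴ * (Qᴴ⁻¹ * B * Q⁻¹) * (Q * C * Qᴴ)
        = Q * A * (Qᴴ * Qᴴ⁻¹) * B * (Q⁻¹ * Q) * C * Qᴴ := by simp only [Matrix.mul_assoc]
      _ = _ := by rw [mul_nonsing_inv _ hd', nonsing_inv_mul _ hd]; simp only [Matrix.mul_assoc,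
            Matrix.mul_one]
  refine Harm.mk' (fun v ξ => Q * pz F v ξ * Qᴴ) (fun v ξ => Q * pb F v ξ * Qᴴ) ?_ ?_ ?_ ?_ ?_ ?_
  · exact (contDiffOn_const.mul h.cd).mul contDiffOn_const
  · intro c hc v hv
    show Q * F (c • v) * Qᴴ = _
    rw [h.hom c hc v hv]
  · intro v hv
    exact (h.pos v hv).mul_mul_conjTranspose_same (by
      have := Matrix.vecMul_injective_of_isUnit hQ
      exact this)
  · exact fun v hv ξ => hz (hasZ (h.diff hv) ξ)
  · intro v hv ξ η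
    have h1 : HasZ (fun w => pb F w η) v ξ _ _ :=
      hasZ (hasFDerivAt_pb (h.cda hv) η).differentiableAt ξ
    rw [(hz h1).pz, hinv v hv, key, key]
    have h2 := h.ph v hv ξ η
    rw [dz_eq] at h2
    have h3 : pz (fun w => pb F w η) v ξ = (1 / 2 : ℂ) •
      (pb F v η * (F v)⁻¹ * pz F v ξ + pz F v ξ * (F v)⁻¹ * pb F v η) := h2
    rw [h3, Matrix.mul_smul, Matrix.smul_mul, Matrix.mul_add, Matrix.add_mul]
  · intro v hv ξ η
    show Q * pz F v ξ * Qᴴ * (Q * F v * Qᴴ)⁻¹ * (Q * pz F v η * Qᴴ) =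
      Q * pz F v η * Qᴴ * (Q * F v * Qᴴ)⁻¹ * (Q * pz F v ξ * Qᴴ)
    rw [hinv v hv, key, key]
    have h2 : pz F v ξ * (F v)⁻¹ * pz F v η = pz F v η * (F v)⁻¹ * pz F v ξ := h.comm v hv ξ η
    rw [h2]

/-- Constant metrics. -/
theorem harm_const {Z : Mat m} (hZ : Z.PosDef) : Harm fun _ : Vec n => Z := by
  refine Harm.mk' (fun _ _ => 0) (fun _ _ => 0) contDiffOn_const (fun _ _ _ _ => rfl)
    (fun _ _ => hZ) (fun v _ ξ => hasZ_const Z v ξ) ?_ ?_
  · intro v _ ξ _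
    rw [(hasZ_const (0 : Mat m) v ξ).pz]
    simp
  · intro v _ ξ η
    rfl

/-- The inverse. -/
theorem Harm.inv {F : Vec n → Mat m} (h : Harm F) : Harm fun v => (F v)⁻¹ := by
  refine Harm.mk' (fun v ξ => -((F v)⁻¹ * pz F v ξ * (F v)⁻¹))
    (fun v ξ => -((F v)⁻¹ * pb F v ξ * (F v)⁻¹)) ?_ ?_ ?_ ?_ ?_ ?_
  · intro v hv
    have h1 : ContDiffAt ℝ 2 (fun X : Mat m => X⁻¹) (F v) := by
      have h2 : (fun X : Mat m => X⁻¹) = Ring.inverse := by
        funext X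
        exact nonsing_inv_eq_ringInverse X
      rw [h2]
      obtain ⟨u, hu⟩ := h.unit hv
      rw [← hu]
      exact contDiffAt_ringInverse ℝ u
    exact (h1.comp v (h.cda hv)).contDiffWithinAt
  · intro c hc v hv
    show (F (c • v))⁻¹ = _
    rw [h.hom c hc v hv]
  · exact fun v hv => (h.pos v hv).inv
  · exact fun v hv ξ => (hasZ (h.diff hv) ξ).matInv (h.unit hv)
  · intro v hv ξ η
    have h1 : HasZ (fun w => pb F w η) v ξ _ _ :=
      hasZ (hasFDerivAt_pb (h.cda hv) η).differentiableAt ξ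
    have h2 : HasZ (fun w => (F w)⁻¹) v ξ _ _ := (hasZ (h.diff hv) ξ).matInv (h.unit hv)
    have h3 : pz (fun w => pb F w η) v ξ = (1 / 2 : ℂ) •
      (pb F v η * (F v)⁻¹ * pz F v ξ + pz F v ξ * (F v)⁻¹ * pb F v η) := h.ph v hv ξ η
    have hd := (isUnit_iff_isUnit_det _).1 (h.unit hv)
    have e1 : (F v)⁻¹⁻¹ = F v := nonsing_inv_nonsing_inv _ hd
    have e2 : (F v)⁻¹ * F v = 1 := nonsing_inv_mul _ hd
    rw [((h2.mul h1).mul h2).neg.pz, h3, e1]
    generalize F v = A at *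
    generalize A⁻¹ = B at *
    generalize pz F v ξ = x at *
    generalize pb F v η = y at *
    have e3 : ∀ C : Mat m, B * (A * C) = C := fun C => by rw [← Matrix.mul_assoc, e2, Matrix.one_mul]
    simp only [Matrix.mul_assoc, Matrix.mul_add, Matrix.add_mul, Matrix.smul_mul, Matrix.mul_smul,
      Matrix.neg_mul, Matrix.mul_neg, e3]
    module
  · intro v hv ξ η
    have hd := (isUnit_iff_isUnit_det _).1 (h.unit hv)
    have e1 : (F v)⁻¹⁻¹ = F v := nonsing_inv_nonsing_inv _ hd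
    have e2 : (F v)⁻¹ * F v = 1 := nonsing_inv_mul _ hd
    have h2 : pz F v ξ * (F v)⁻¹ * pz F v η = pz F v η * (F v)⁻¹ * pz F v ξ := h.comm v hv ξ η
    show -((F v)⁻¹ * pz F v ξ * (F v)⁻¹) * (F v)⁻¹⁻¹ * -((F v)⁻¹ * pz F v η * (F v)⁻¹) =
      -((F v)⁻¹ * pz F v η * (F v)⁻¹) * (F v)⁻¹⁻¹ * -((F v)⁻¹ * pz F v ξ * (F v)⁻¹)
    rw [e1]
    generalize F v = A at *
    generalize A⁻¹ = B at *
    generalize pz F v ξ = x at *
    generalize pz F v η = y at *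
    have e3 : ∀ C : Mat m, B * (A * C) = C := fun C => by rw [← Matrix.mul_assoc, e2, Matrix.one_mul]
    simp only [Matrix.neg_mul, Matrix.mul_neg, neg_neg, Matrix.mul_assoc, e3]
    have h4 : ∀ C : Mat m, x * (B * (y * C)) = y * (B * (x * C)) := fun C => by
      simpa only [Matrix.mul_assoc] using congrArg (· * C) h2
    rw [h4]

end Pool.Agent.Lib.MP_5d4057_al.HM
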