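import Pool.Agent.Lib.MP_5d4057_al.HM.Defs

namespace Pool.Agent.Lib.MP_5d4057_al.HM

open Matrix MeasureTheory Filter Topology Pool.Agent.Lib.MP_5d4057_al Pool.Agent.Lib.MP_5d4057_al.Hyb

open scoped ComplexOrder MatrixOrder Matrix.Norms.L2Operator

variable {n m : ℕ} {E : Type} [NormedAddCommGroup E] [NormedSpace ℝ E]

/-- The real diagonal matrix. -/
private noncomputable def dg (l : Fin m → ℝ) : Mat m := diagonal fun i => (l i : ℂ)

private theorem dg_mul (l k : Fin m → ℝ) : dg l * dg k = dg fun i => l i * k i := by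
  simp [dg, diagonal_mul_diagonal]

private theorem dg_one : dg (fun _ : Fin m => (1 : ℝ)) = 1 := by
  simp [dg]

private theorem dg_herm (l : Fin m → ℝ) : (dg l)ᴴ = dg l := by
  simp only [dg, diagonal_conjTranspose]
  congr 1
  funext i
  simp

private theorem dg_sub (l k : Fin m → ℝ) : dg l - dg k = dg fun i => l i - k i := by
  simp [dg, diagonal_sub]

private theorem dg_smul (r : ℝ) (l : Fin m → ℝ) : (r : ℂ) • dg l = dg fun i => r * l i := by
  simp only [dg, ← diagonal_smul]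
  congr 1
  funext i
  simp

private theorem dg_psd (l : Fin m → ℝ) : (dg l).PosSemidef ↔ ∀ i, 0 ≤ l i := by
  rw [dg, posSemidef_diagonal_iff]
  simp

private theorem dg_trace (l : Fin m → ℝ) : (dg l).trace = ((∑ i, l i : ℝ) : ℂ) := by
  simp [dg, trace_diagonal]

private theorem dg_inv (l : Fin m → ℝ) (h : ∀ i, 0 < l i) : (dg l)⁻¹ = dg fun i => (l i)⁻¹ := by
  apply inv_eq_right_inv
  rw [dg_mul, ← dg_one]
  congr 1
  funext i
  exact mul_inv_cancel₀ (h i).ne'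

private theorem spec {a : Mat m} (ha : a.PosDef) : ∃ (U : Mat m) (l : Fin m → ℝ),
    Uᴴ * U = 1 ∧ U * Uᴴ = 1 ∧ (∀ i, 0 < l i) ∧ a = U * dg l * Uᴴ := by
  refine ⟨ha.1.eigenvectorUnitary, ha.1.eigenvalues, ?_, ?_, ha.eigenvalues_pos, ?_⟩
  · rw [← star_eq_conjTranspose]; exact Unitary.coe_star_mul_self _
  · rw [← star_eq_conjTranspose]; exact Unitary.coe_mul_star_self _
  · have := ha.1.spectral_theorem
    rw [Unitary.conjStarAlgAut_apply] at this
    exact this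

private theorem isu {A B : Mat m} (h : A * B = 1) : IsUnit A :=
  ⟨⟨A, B, h, mul_eq_one_comm.1 h⟩, rfl⟩

private theorem factor {a : Mat m} (ha : a.PosDef) : ∃ B : Mat m, IsUnit B ∧ a = B * Bᴴ := by
  obtain ⟨U, l, h1, h2, hl, rfl⟩ := spec ha
  refine ⟨U * dg fun i => √(l i), ?_, ?_⟩
  · refine IsUnit.mul (isu h2) (isu (B := dg fun i => (√(l i))⁻¹) ?_)
    rw [dg_mul, ← dg_one]
    congr 1
    funext i
    exact mul_inv_cancel₀ (Real.sqrt_pos.2 (hl i)).ne'
  · have h : dg l = dg (fun i => √(l i)) * dg fun i => √(l i) := by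
      rw [dg_mul]
      congr 1
      funext i
      exact (Real.mul_self_sqrt (hl i).le).symm
    rw [conjTranspose_mul, dg_herm, h]
    simp only [Matrix.mul_assoc]

private theorem simdiag {a b : Mat m} (ha : a.PosDef) (hb : b.PosDef) :
    ∃ (C : Mat m) (l : Fin m → ℝ), IsUnit C ∧ (∀ i, 0 < l i) ∧ a = C * Cᴴ ∧ b = C * dg l * Cᴴ := by
  obtain ⟨B, hB, rfl⟩ := factor ha
  obtain ⟨B', hBB'⟩ := hB.exists_right_inv
  have hB'B : B' * B = 1 := mul_eq_one_comm.1 hBB'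
  have hB' : IsUnit B' := isu hB'B
  have hc : (B' * b * B'ᴴ).PosDef := by
    have := (IsUnit.posDef_star_right_conjugate_iff hB' (x := b)).2 hb
    rwa [star_eq_conjTranspose] at this
  obtain ⟨U, l, h1, h2, hl, h3⟩ := spec hc
  refine ⟨B * U, l, hB.mul (isu h2), hl, ?_, ?_⟩
  · rw [conjTranspose_mul, Matrix.mul_assoc, ← Matrix.mul_assoc U, h2, Matrix.one_mul]
  · rw [conjTranspose_mul]
    calc b = (B * B') * b * (B * B')ᴴ := by rw [hBB', conjTranspose_one, Matrix.one_mul, Matrix.mul_one]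
      _ = B * (B' * b * B'ᴴ) * Bᴴ := by rw [conjTranspose_mul]; simp only [Matrix.mul_assoc]
      _ = _ := by rw [h3]; simp only [Matrix.mul_assoc]

private theorem conj_le_iff {C : Mat m} (hC : IsUnit C) (a b : Mat m) :
    C * a * Cᴴ ≤ C * b * Cᴴ ↔ a ≤ b := by
  rw [Matrix.le_iff, Matrix.le_iff, ← Matrix.sub_mul, ← Matrix.mul_sub, ← star_eq_conjTranspose]
  exact IsUnit.posSemidef_star_right_conjugate_iff hC

private theorem smul_conj (r : ℂ) (C a : Mat m) : r • (C * a * Cᴴ) = C * (r • a) * Cᴴ := by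
  rw [Matrix.mul_smul, Matrix.smul_mul]

/-- The Thompson distance of positive definite matrices (blueprint D1); for `m = 0` it is `0`. -/
noncomputable def dT (a b : Mat m) : ℝ :=
  sInf {t : ℝ | 0 ≤ t ∧ a ≤ (Real.exp t : ℂ) • b ∧ b ≤ (Real.exp t : ℂ) • a}

theorem dT_nonneg (a b : Mat m) : 0 ≤ dT a b := Real.sInf_nonneg fun _ h => h.1

theorem dT_comm (a b : Mat m) : dT a b = dT b a := by
  unfold dT
  congr 1
  ext t
  simp only [Set.mem_ofPred_eq]
  tauto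

private theorem le_iff1 {C : Mat m} (hC : IsUnit C) (l : Fin m → ℝ) (r : ℝ) :
    C * Cᴴ ≤ (r : ℂ) • (C * dg l * Cᴴ) ↔ ∀ i, 1 ≤ r * l i := by
  rw [smul_conj, dg_smul]
  conv_lhs => rw [← Matrix.mul_one C, ← dg_one, conjTranspose_mul, dg_herm]
  have : C * dg (fun _ => 1) * (dg (fun _ => 1) * Cᴴ) = C * dg (fun _ => 1) * Cᴴ := by
    rw [dg_one]; simp
  have h2 : C * dg (fun _ : Fin m => (1 : ℝ)) * dg (fun i => r * l i) * (dg (fun _ => 1) * Cᴴ) =
      C * dg (fun i => r * l i) * Cᴴ := by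
    rw [dg_one]; simp
  rw [this, h2, conj_le_iff hC, Matrix.le_iff, dg_sub, dg_psd]
  simp

private theorem le_iff2 {C : Mat m} (hC : IsUnit C) (l : Fin m → ℝ) (r : ℝ) :
    C * dg l * Cᴴ ≤ (r : ℂ) • (C * Cᴴ) ↔ ∀ i, l i ≤ r := by
  have : (r : ℂ) • (C * Cᴴ) = C * dg (fun _ => r) * Cᴴ := by
    have h := smul_conj (r : ℂ) C (dg fun _ => 1)
    rw [dg_smul, dg_one, Matrix.mul_one] at h
    rw [h]; simp
  rw [this, conj_le_iff hC, Matrix.le_iff, dg_sub, dg_psd]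
  simp

private theorem inv_conj {C : Mat m} (l : Fin m → ℝ) (hl : ∀ i, 0 < l i) :
    (C * dg l * Cᴴ)⁻¹ = (Cᴴ)⁻¹ * dg (fun i => (l i)⁻¹) * C⁻¹ := by
  rw [Matrix.mul_inv_rev, Matrix.mul_inv_rev, dg_inv l hl, Matrix.mul_assoc]

private theorem inv_self {C : Mat m} : (C * Cᴴ)⁻¹ = (Cᴴ)⁻¹ * C⁻¹ := Matrix.mul_inv_rev _ _

private theorem cinv {C : Mat m} (hC : IsUnit C) : C⁻¹ * C = 1 :=
  nonsing_inv_mul C ((isUnit_iff_isUnit_det C).1 hC)

private theorem cinv' {C : Mat m} (hC : IsUnit C) : C * C⁻¹ = 1 :=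
  mul_nonsing_inv C ((isUnit_iff_isUnit_det C).1 hC)

private theorem trace1 {C : Mat m} (hC : IsUnit C) (l : Fin m → ℝ) :
    ((C * Cᴴ)⁻¹ * (C * dg l * Cᴴ)).trace = ((∑ i, l i : ℝ) : ℂ) := by
  have hC' : IsUnit Cᴴ := by rw [← star_eq_conjTranspose]; exact hC.star
  rw [inv_self]
  have : (Cᴴ)⁻¹ * C⁻¹ * (C * dg l * Cᴴ) = (Cᴴ)⁻¹ * (dg l * Cᴴ) := by
    calc _ = (Cᴴ)⁻¹ * (C⁻¹ * C) * (dg l * Cᴴ) := by simp only [Matrix.mul_assoc]
      _ = _ := by rw [cinv hC, Matrix.mul_one]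
  rw [this, trace_mul_comm, Matrix.mul_assoc, cinv' hC', Matrix.mul_one, dg_trace]

private theorem trace2 {C : Mat m} (hC : IsUnit C) (l : Fin m → ℝ) (hl : ∀ i, 0 < l i) :
    ((C * dg l * Cᴴ)⁻¹ * (C * Cᴴ)).trace = ((∑ i, (l i)⁻¹ : ℝ) : ℂ) := by
  have hC' : IsUnit Cᴴ := by rw [← star_eq_conjTranspose]; exact hC.star
  rw [inv_conj l hl]
  have : (Cᴴ)⁻¹ * dg (fun i => (l i)⁻¹) * C⁻¹ * (C * Cᴴ) =
      (Cᴴ)⁻¹ * (dg (fun i => (l i)⁻¹) * Cᴴ) := by
    calc _ = (Cᴴ)⁻¹ * dg (fun i => (l i)⁻¹) * (C⁻¹ * C) * Cᴴ := by simp only [Matrix.mul_assoc]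
      _ = _ := by rw [cinv hC, Matrix.mul_one, Matrix.mul_assoc]
  rw [this, trace_mul_comm, Matrix.mul_assoc, cinv' hC', Matrix.mul_one, dg_trace]

private theorem sig_diag {C : Mat m} (hC : IsUnit C) (l : Fin m → ℝ) (hl : ∀ i, 0 < l i) :
    sig (C * Cᴴ) (C * dg l * Cᴴ) = ∑ i, (l i + (l i)⁻¹ - 2) := by
  unfold sig
  rw [trace1 hC, trace2 hC l hl]
  rw [← Complex.ofReal_add, Complex.ofReal_re, Finset.sum_sub_distrib, Finset.sum_add_distrib]
  simp [mul_comm]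

private theorem term_nonneg {x : ℝ} (hx : 0 < x) : 0 ≤ x + x⁻¹ - 2 := by
  have : x + x⁻¹ - 2 = (x - 1) ^ 2 * x⁻¹ := by field_simp; ring
  rw [this]; positivity

/-- `e^t + e^{-t} - 2 ≥ t²`. -/
private theorem sq_le_exp0 {t : ℝ} (ht : 0 ≤ t) : t ^ 2 ≤ Real.exp t + Real.exp (-t) - 2 := by
  have h : t / 2 ≤ Real.sinh (t / 2) := Real.self_le_sinh_iff.2 (by linarith)
  have h2 : (t / 2) ^ 2 ≤ Real.sinh (t / 2) ^ 2 := pow_le_pow_left₀ (by linarith) h 2
  have h3 : Real.cosh (2 * (t / 2)) = Real.cosh (t / 2) ^ 2 + Real.sinh (t / 2) ^ 2 :=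
    Real.cosh_two_mul _
  have h4 := Real.cosh_sq (t / 2)
  have h5 : 2 * (t / 2) = t := by ring
  rw [h5, Real.cosh_eq] at h3
  nlinarith

private theorem sq_le_exp (t : ℝ) : t ^ 2 ≤ Real.exp t + Real.exp (-t) - 2 := by
  rcases le_total 0 t with h | h
  · exact sq_le_exp0 h
  · have := sq_le_exp0 (neg_nonneg.2 h)
    rw [neg_neg, neg_sq] at this
    linarith

theorem dT_le {a b : Mat m} {t : ℝ} (ht : 0 ≤ t) (h1 : a ≤ (Real.exp t : ℂ) • b)
    (h2 : b ≤ (Real.exp t : ℂ) • a) : dT a b ≤ t :=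
  csInf_le ⟨0, fun _ h => h.1⟩ ⟨ht, h1, h2⟩

private theorem set_diag {C : Mat m} (hC : IsUnit C) (l : Fin m → ℝ) :
    {t : ℝ | 0 ≤ t ∧ C * Cᴴ ≤ (Real.exp t : ℂ) • (C * dg l * Cᴴ) ∧
      C * dg l * Cᴴ ≤ (Real.exp t : ℂ) • (C * Cᴴ)} =
    {t : ℝ | 0 ≤ t ∧ ∀ i, 1 ≤ Real.exp t * l i ∧ l i ≤ Real.exp t} := by
  ext t
  simp only [Set.mem_ofPred_eq, le_iff1 hC, le_iff2 hC]
  constructor
  · rintro ⟨h0, h1, h2⟩
    exact ⟨h0, fun i => ⟨h1 i, h2 i⟩⟩
  · rintro ⟨h0, h⟩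
    exact ⟨h0, fun i => (h i).1, fun i => (h i).2⟩

private theorem mem_set {a b : Mat m} (ha : a.PosDef) (hb : b.PosDef) :
    dT a b ∈ {t : ℝ | 0 ≤ t ∧ a ≤ (Real.exp t : ℂ) • b ∧ b ≤ (Real.exp t : ℂ) • a} := by
  obtain ⟨C, l, hC, hl, rfl, rfl⟩ := simdiag ha hb
  unfold dT
  rw [set_diag hC l]
  refine IsClosed.csInf_mem ?_ ?_ ⟨0, fun _ h => h.1⟩
  · refine isClosed_Ici.inter ?_
    have : {t : ℝ | ∀ i, 1 ≤ Real.exp t * l i ∧ l i ≤ Real.exp t} =
        ⋂ i, {t : ℝ | 1 ≤ Real.exp t * l i} ∩ {t : ℝ | l i ≤ Real.exp t} := by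
      ext t
      simp
    change IsClosed {t : ℝ | ∀ i, 1 ≤ Real.exp t * l i ∧ l i ≤ Real.exp t}
    rw [this]
    refine isClosed_iInter fun i => IsClosed.inter ?_ ?_
    · exact isClosed_le continuous_const (by fun_prop)
    · exact isClosed_le continuous_const (by fun_prop)
  · refine ⟨∑ i, |Real.log (l i)|, Finset.sum_nonneg fun i _ => abs_nonneg _, fun i => ?_⟩
    have h := Finset.single_le_sum (f := fun i => |Real.log (l i)|)
      (fun i _ => abs_nonneg _) (Finset.mem_univ i)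
    set s := ∑ i, |Real.log (l i)|
    have h1 : Real.log (l i) ≤ s := (le_abs_self _).trans h
    have h2 : -Real.log (l i) ≤ s := (neg_le_abs _).trans h
    constructor
    · rw [← Real.exp_log (hl i), ← Real.exp_add]
      exact Real.one_le_exp (by linarith)
    · rw [← Real.exp_log (hl i)]
      exact Real.exp_le_exp.2 h1

/-- The infimum is attained. -/
theorem le_exp_dT {a b : Mat m} (ha : a.PosDef) (hb : b.PosDef) :
    a ≤ (Real.exp (dT a b) : ℂ) • b := (mem_set ha hb).2.1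

private theorem smul_le {a b : Mat m} {r : ℝ} (hr : 0 ≤ r) (h : a ≤ b) : (r : ℂ) • a ≤ (r : ℂ) • b := by
  rw [Matrix.le_iff, ← smul_sub]
  exact (Matrix.le_iff.1 h).smul (by exact_mod_cast hr)

theorem dT_triangle {a b c : Mat m} (ha : a.PosDef) (hb : b.PosDef) (hc : c.PosDef) :
    dT a c ≤ dT a b + dT b c := by
  obtain ⟨h0, h1, h2⟩ := mem_set ha hb
  obtain ⟨k0, k1, k2⟩ := mem_set hb hc
  refine dT_le (add_nonneg h0 k0) ?_ ?_
  · refine h1.trans ?_
    rw [Real.exp_add, Complex.ofReal_mul, mul_smul]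
    exact smul_le (Real.exp_pos _).le k1
  · refine k2.trans ?_
    rw [add_comm, Real.exp_add, Complex.ofReal_mul, mul_smul]
    exact smul_le (Real.exp_pos _).le h2

/-- Invariance under congruence. -/
theorem dT_conj {a b : Mat m} (C : Mat m) (hC : IsUnit C) :
    dT (C * a * Cᴴ) (C * b * Cᴴ) = dT a b := by
  unfold dT
  congr 1
  ext t
  simp only [Set.mem_ofPred_eq, smul_conj, conj_le_iff hC]

theorem sig_nonneg {a b : Mat m} (ha : a.PosDef) (hb : b.PosDef) : 0 ≤ sig a b := by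
  obtain ⟨C, l, hC, hl, rfl, rfl⟩ := simdiag ha hb
  rw [sig_diag hC l hl]
  exact Finset.sum_nonneg fun i _ => term_nonneg (hl i)

/-- `d_T² ≤ σ`: an extreme eigenvalue `e^{±d}` of `a⁻¹ b` gives `σ ≥ e^d + e^{-d} - 2 ≥ d²`. -/
theorem dT_sq_le_sig {a b : Mat m} (ha : a.PosDef) (hb : b.PosDef) : dT a b ^ 2 ≤ sig a b := by
  have hs := sig_nonneg ha hb
  obtain ⟨C, l, hC, hl, rfl, rfl⟩ := simdiag ha hb
  have hd : dT (C * Cᴴ) (C * dg l * Cᴴ) ≤ √(sig (C * Cᴴ) (C * dg l * Cᴴ)) := by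
    set s := sig (C * Cᴴ) (C * dg l * Cᴴ) with hs1
    have hi : ∀ i, l i + (l i)⁻¹ - 2 ≤ s := by
      intro i
      rw [hs1, sig_diag hC l hl]
      exact Finset.single_le_sum (f := fun i => l i + (l i)⁻¹ - 2)
        (fun i _ => term_nonneg (hl i)) (Finset.mem_univ i)
    have hlog : ∀ i, |Real.log (l i)| ≤ √s := by
      intro i
      refine Real.abs_le_sqrt ?_
      refine (sq_le_exp _).trans ?_
      rw [Real.exp_neg, Real.exp_log (hl i)]
      exact hi i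
    refine dT_le (Real.sqrt_nonneg _) ?_ ?_
    · rw [le_iff1 hC]
      intro i
      conv_rhs => rw [← Real.exp_log (hl i), ← Real.exp_add]
      exact Real.one_le_exp (by have := (neg_le_abs _).trans (hlog i); linarith)
    · rw [le_iff2 hC]
      intro i
      conv_lhs => rw [← Real.exp_log (hl i)]
      exact Real.exp_le_exp.2 ((le_abs_self _).trans (hlog i))
  calc dT (C * Cᴴ) (C * dg l * Cᴴ) ^ 2 ≤ √(sig (C * Cᴴ) (C * dg l * Cᴴ)) ^ 2 :=
        pow_le_pow_left₀ (dT_nonneg _ _) hd 2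
    _ = _ := Real.sq_sqrt hs

/-- `σ ≤ m (e^{t/2} - e^{-t/2})²` if `d_T ≤ t`. -/
theorem sig_le {a b : Mat m} {t : ℝ} (ht : 0 ≤ t) (ha : a.PosDef) (hb : b.PosDef)
    (h1 : a ≤ (Real.exp t : ℂ) • b) (h2 : b ≤ (Real.exp t : ℂ) • a) :
    sig a b ≤ m * (Real.exp (t / 2) - Real.exp (-(t / 2))) ^ 2 := by
  obtain ⟨C, l, hC, hl, rfl, rfl⟩ := simdiag ha hb
  rw [le_iff1 hC] at h1
  rw [le_iff2 hC] at h2
  rw [sig_diag hC l hl]
  have hsq : (Real.exp (t / 2) - Real.exp (-(t / 2))) ^ 2 = Real.exp t + (Real.exp t)⁻¹ - 2 := by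
    have e1 : Real.exp (t / 2) ^ 2 = Real.exp t := by rw [← Real.exp_nat_mul]; congr 1; push_cast; ring
    have e2 : Real.exp (-(t / 2)) ^ 2 = (Real.exp t)⁻¹ := by
      rw [← Real.exp_nat_mul, ← Real.exp_neg]; congr 1; push_cast; ring
    have e3 : Real.exp (t / 2) * Real.exp (-(t / 2)) = 1 := by rw [← Real.exp_add]; simp
    rw [sub_sq, e1, e2, mul_assoc, e3]; ring
  rw [hsq]
  calc ∑ i, (l i + (l i)⁻¹ - 2) ≤ ∑ _i : Fin m, (Real.exp t + (Real.exp t)⁻¹ - 2) := by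
        refine Finset.sum_le_sum fun i _ => ?_
        have hE : 0 < Real.exp t := Real.exp_pos t
        have hx := hl i
        have p1 := h1 i
        have p2 := h2 i
        have : Real.exp t + (Real.exp t)⁻¹ - 2 - (l i + (l i)⁻¹ - 2) =
            (Real.exp t - l i) * (Real.exp t * l i - 1) * ((Real.exp t)⁻¹ * (l i)⁻¹) := by
          field_simp; ring
        have h3 : 0 ≤ (Real.exp t - l i) * (Real.exp t * l i - 1) * ((Real.exp t)⁻¹ * (l i)⁻¹) :=
          mul_nonneg (mul_nonneg (by linarith) (by linarith)) (by positivity)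
        linarith
    _ = _ := by rw [Finset.sum_const, Finset.card_univ, Fintype.card_fin, nsmul_eq_mul]

/-- `σ` and the difference: `tr ((b - a) a⁻¹ (b - a) b⁻¹) = σ(a,b)`. -/
theorem sig_eq {a b : Mat m} (ha : a.PosDef) (hb : b.PosDef) :
    sig a b = (((b - a) * a⁻¹ * (b - a) * b⁻¹).trace).re := by
  have ha' : a * a⁻¹ = 1 := mul_nonsing_inv a ((isUnit_iff_isUnit_det a).1 ha.isUnit)
  have hb' : b * b⁻¹ = 1 := mul_nonsing_inv b ((isUnit_iff_isUnit_det b).1 hb.isUnit)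
  have h : (b - a) * a⁻¹ * (b - a) * b⁻¹ = b * a⁻¹ - 1 - 1 + a * b⁻¹ := by
    calc (b - a) * a⁻¹ * (b - a) * b⁻¹ = (b * a⁻¹ - a * a⁻¹) * (b * b⁻¹ - a * b⁻¹) := by
          noncomm_ring
      _ = (b * a⁻¹ - 1) * (1 - a * b⁻¹) := by rw [ha', hb']
      _ = b * a⁻¹ - 1 - b * (a⁻¹ * a) * b⁻¹ + a * b⁻¹ := by noncomm_ring
      _ = _ := by
        rw [mul_eq_one_comm.1 ha', Matrix.mul_one, hb']
  rw [h]
  unfold sig
  simp only [trace_add, trace_sub, trace_one, Complex.add_re, Complex.sub_re]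
  rw [trace_mul_comm b, trace_mul_comm a b⁻¹]
  simp
  ring

/-- Traces and the distance from `1`. -/
theorem trace_le_exp_dT {a : Mat m} (ha : a.PosDef) :
    a.trace.re ≤ m * Real.exp (dT 1 a) ∧ (a⁻¹).trace.re ≤ m * Real.exp (dT 1 a) := by
  have h1 : (1 : Mat m).PosDef := Matrix.PosDef.one
  have key : ((1 : Mat m)⁻¹ * a).trace.re ≤ m * Real.exp (dT 1 a) ∧
      (a⁻¹ * 1).trace.re ≤ m * Real.exp (dT 1 a) := by
    obtain ⟨C, l, hC, hl, hC1, rfl⟩ := simdiag h1 ha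
    rw [hC1]
    obtain ⟨-, k1, k2⟩ := mem_set (hC1 ▸ h1) ha
    rw [le_iff1 hC] at k1
    rw [le_iff2 hC] at k2
    rw [trace1 hC, trace2 hC l hl, Complex.ofReal_re, Complex.ofReal_re]
    set t := dT (C * Cᴴ) (C * dg l * Cᴴ)
    constructor
    · calc ∑ i, l i ≤ ∑ _i : Fin m, Real.exp t := Finset.sum_le_sum fun i _ => k2 i
        _ = _ := by simp
    · calc ∑ i, (l i)⁻¹ ≤ ∑ _i : Fin m, Real.exp t := by
            refine Finset.sum_le_sum fun i _ => ?_
            rw [inv_le_iff_one_le_mul₀ (hl i)]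
            exact k1 i
        _ = _ := by simp
  simpa using key

/-- Continuity on positive definite matrices. -/
theorem continuousOn_dT :
    ContinuousOn (fun p : Mat m × Mat m => dT p.1 p.2) {p | p.1.PosDef ∧ p.2.PosDef} := by
  rintro ⟨a, b⟩ ⟨ha, hb⟩
  change Tendsto (fun p : Mat m × Mat m => dT p.1 p.2)
    (𝓝[{p | p.1.PosDef ∧ p.2.PosDef}] (a, b)) (𝓝 (dT a b))
  have hinv : ∀ c : Mat m, c.PosDef → ContinuousAt (fun x : Mat m => x⁻¹) c := by
    intro c hc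
    simp only [Matrix.nonsing_inv_eq_ringInverse]
    exact NormedRing.inverse_continuousAt hc.isUnit.unit
  have hsig : ∀ c : Mat m, c.PosDef → ContinuousAt (fun x : Mat m => sig c x) c := by
    intro c hc
    unfold sig
    have h1 := hinv c hc
    have h2 : Continuous fun x : Mat m => x.trace := by
      simp only [Matrix.trace]
      fun_prop
    refine ContinuousAt.sub (Complex.continuous_re.continuousAt.comp (ContinuousAt.add ?_ ?_))
      continuousAt_const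
    · exact h2.continuousAt.comp (continuousAt_const.mul continuousAt_id)
    · exact h2.continuousAt.comp (h1.mul continuousAt_const)
  have hsig0 : ∀ c : Mat m, c.PosDef → sig c c = 0 := by
    intro c hc
    rw [sig_eq hc hc]
    simp
  have hd : ∀ c : Mat m, c.PosDef → Tendsto (fun x : Mat m => dT c x) (𝓝[{x | x.PosDef}] c) (𝓝 0) := by
    intro c hc
    have h1 : Tendsto (fun x : Mat m => √(sig c x)) (𝓝[{x | x.PosDef}] c) (𝓝 0) := by
      have := ((Real.continuous_sqrt.continuousAt.comp (hsig c hc)).tendsto).mono_left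
        (nhdsWithin_le_nhds (s := {x | x.PosDef}))
      have h0 : ((fun x => √x) ∘ fun x => sig c x) c = 0 := by
        simp only [Function.comp_apply, hsig0 c hc, Real.sqrt_zero]
      rw [h0] at this
      exact this
    refine tendsto_of_tendsto_of_tendsto_of_le_of_le' tendsto_const_nhds h1
      (Eventually.of_forall fun x => dT_nonneg _ _) ?_
    filter_upwards [self_mem_nhdsWithin] with x hx
    exact Real.le_sqrt_of_sq_le (dT_sq_le_sig hc hx)
  have hA : Tendsto (fun p : Mat m × Mat m => dT a p.1)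
      (𝓝[{p | p.1.PosDef ∧ p.2.PosDef}] (a, b)) (𝓝 0) := by
    refine (hd a ha).comp (tendsto_nhdsWithin_iff.2 ⟨?_, ?_⟩)
    · exact (continuous_fst.tendsto (a, b)).mono_left nhdsWithin_le_nhds
    · filter_upwards [self_mem_nhdsWithin] with p hp using hp.1
  have hB : Tendsto (fun p : Mat m × Mat m => dT b p.2)
      (𝓝[{p | p.1.PosDef ∧ p.2.PosDef}] (a, b)) (𝓝 0) := by
    refine (hd b hb).comp (tendsto_nhdsWithin_iff.2 ⟨?_, ?_⟩)
    · exact (continuous_snd.tendsto (a, b)).mono_left nhdsWithin_le_nhds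
    · filter_upwards [self_mem_nhdsWithin] with p hp using hp.2
  have hAB := hA.add hB
  rw [add_zero] at hAB
  rw [tendsto_iff_dist_tendsto_zero]
  refine tendsto_of_tendsto_of_tendsto_of_le_of_le' tendsto_const_nhds hAB
    (Eventually.of_forall fun x => dist_nonneg) ?_
  filter_upwards [self_mem_nhdsWithin] with p hp
  obtain ⟨hp1, hp2⟩ := hp
  rw [Real.dist_eq, abs_le]
  have t1 := dT_triangle ha hp1 hb
  have t2 := dT_triangle hp1 hp2 hb
  have t3 := dT_triangle hp1 ha hp2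
  have t4 := dT_triangle ha hb hp2
  rw [dT_comm p.2 b] at t2
  rw [dT_comm p.1 a] at t3
  constructor <;> linarith

end Pool.Agent.Lib.MP_5d4057_al.HM
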