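import Pool.Agent.Lib.MP_5d4057_al.HM.Kak
import Pool.Agent.Lib.MP_5d4057_al.HM.Thompson

namespace Pool.Agent.Lib.MP_5d4057_al.HM

open Matrix MeasureTheory Filter Topology Pool.Agent.Lib.MP_5d4057_al Pool.Agent.Lib.MP_5d4057_al.Hyb

open scoped ComplexOrder MatrixOrder Matrix.Norms.L2Operator

variable {n m : ℕ} {E : Type} [NormedAddCommGroup E] [NormedSpace ℝ E]

/-- Functions of class `C²`, homogeneous of degree `0`, with polynomial growth of all derivatives up to
order two (measured in the ambient space at the points `g e_n`). -/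
structure Tame (N : ℕ) (C : ℝ) (f : Vec n → E) : Prop where
  hom : Homog f
  cd : ContDiffOn ℝ 2 f (Cone n)
  b0 : ∀ g : SUGroup n, ‖f (act g (base n))‖ ≤ C * ch g ^ (2 * N)
  b1 : ∀ g : SUGroup n, ‖fderiv ℝ f (act g (base n))‖ ≤ C * ch g ^ (2 * N)
  b2 : ∀ g : SUGroup n, ‖fderiv ℝ (fderiv ℝ f) (act g (base n))‖ ≤ C * ch g ^ (2 * N)

/-- A critical pair at level `s` (blueprint C4). -/
structure Pair {Γ : Subgroup (SUGroup n)} (ρ : Γ →* Mat m) (s : ℕ) (H L : Vec n → Mat m) :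
    Prop where
  metH : Met ρ H
  metL : Met ρ L
  el1 : ∀ v ∈ Cone n, L v * P s (fun w => (H w)⁻¹) v * L v = P s H v
  el2 : ∀ v ∈ Cone n, H v * P s (fun w => (L w)⁻¹) v * H v = P s L v

/-- The energy of a pair at level `s` (blueprint C6). -/
noncomputable def Es (χ : SUGroup n → ℝ) (s : ℕ) (H L : Vec n → Mat m) : ℝ :=
  II χ fun g => ∫ x, kap s x * sig (L (act g (base n))) (H (act (g * x) (base n))) ∂(mu n)

/-- A sequence of continuous metrics of uniform growth, strongly subharmonic at level `s j → ∞`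
(`M P_s(M⁻¹) M ≤ P_s M`, equivalently `P_s M - M ≥ (1/2) ∫ kap s (M' - M) M'⁻¹ (M' - M)`),
converging to `F` almost everywhere. (In the application `M j = (H_j + L_j)/2` or
`(H_j⁻¹ + L_j⁻¹)/2`, see `pair_mean`.) -/
structure Approx (N : ℕ) (C : ℝ) (s : ℕ → ℕ) (M : ℕ → Vec n → Mat m) (F : Vec n → Mat m) :
    Prop where
  tends : Tendsto s atTop atTop
  hom : ∀ j, Homog (M j)
  cont : ∀ j, ContinuousOn (M j) (Cone n)
  pos : ∀ j, ∀ v ∈ Cone n, (M j v).PosDef
  bound : ∀ j g, ‖M j (act g (base n))‖ ≤ C * ch g ^ (2 * N)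
  boundInv : ∀ j g, ‖(M j (act g (base n)))⁻¹‖ ≤ C * ch g ^ (2 * N)
  sub : ∀ j, ∀ v ∈ Cone n,
    M j v * P (s j) (fun w => (M j w)⁻¹) v * M j v ≤ P (s j) (M j) v
  lim : ∀ᵐ g ∂(mu n), Tendsto (fun j => M j (act g (base n))) atTop (𝓝 (F (act g (base n))))

/-- The limit metric (blueprint E1, in the strong form of dnote 3678): a measurable metric, exactly homogeneous and
equivariant, locally bounded above and below. -/
structure LimMet {Γ : Subgroup (SUGroup n)} (ρ : Γ →* Mat m) (χ : SUGroup n → ℝ) (N : ℕ) (C : ℝ)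
    (F : Vec n → Mat m) : Prop where
  hom : Homog F
  equi : Equi ρ F
  pos : ∀ v ∈ Cone n, (F v).PosDef
  meas : AEStronglyMeasurable (fun g : SUGroup n => F (act g (base n))) (mu n)
  bound : ∀ g : SUGroup n, ‖F (act g (base n))‖ ≤ C * ch g ^ (2 * N)
  boundInv : ∀ g : SUGroup n, ‖(F (act g (base n)))⁻¹‖ ≤ C * ch g ^ (2 * N)
  dist : ∀ x : SUGroup n,
    II χ (fun g => dT (F (act g (base n))) (F (act (g * x) (base n))) ^ 2) ≤
      C * Real.log (wt x) ^ 2
  sub : ∃ s M, Approx N C s M F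
  sub' : ∃ s M, Approx N C s M fun v => (F v)⁻¹

/-- A smooth section (`exists_sec`). -/
noncomputable def sec (n : ℕ) : Vec n → SUGroup n := (exists_sec n).choose

theorem sec_spec {v : Vec n} (hv : v ∈ Cone n) :
    ∃ c : ℂ, c ≠ 0 ∧ v = c • act (sec n v) (base n) := (exists_sec n).choose_spec.1 v hv

theorem sec_smul {v : Vec n} (hv : v ∈ Cone n) {c : ℂ} (hc : c ≠ 0) :
    sec n (c • v) = sec n v := (exists_sec n).choose_spec.2.1 v hv c hc

theorem contDiffOn_sec (n : ℕ) :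
    ContDiffOn ℝ (⊤ : ℕ∞) (fun v => (sec n v).toMatrix) (Cone n) :=
  (exists_sec n).choose_spec.2.2.1

theorem sec_base (n : ℕ) : sec n (base n) = 1 := (exists_sec n).choose_spec.2.2.2

/-- Test functions on the group: restrictions of smooth functions with compact support on the space
of matrices. -/
structure Test (n : ℕ) (Φ : Mat (n + 1) → ℝ) : Prop where
  smooth : ContDiff ℝ (⊤ : ℕ∞) Φ
  supp : HasCompactSupport Φ
  nonneg : ∀ A, 0 ≤ Φ A

/-- Left averages: `lav Φ F (v) = ∫ Φ(a) F (a v) da` (blueprint E2), written as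
`∫ Φ(b (sec v)⁻¹) F (b e_n) db`. -/
noncomputable def lav (Φ : Mat (n + 1) → ℝ) (F : Vec n → E) (v : Vec n) : E :=
  ∫ b : SUGroup n, Φ ((b * (sec n v)⁻¹).toMatrix) • F (act b (base n)) ∂(mu n)

end Pool.Agent.Lib.MP_5d4057_al.HM
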