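import Pool.Agent.Lib.MP_5d4057_al.Hyb.Rk

/-! The group `SU(n,1)`: the function `top`, boosts, polar form. -/

set_option autoImplicit false

namespace Pool.Agent.Lib.MP_5d4057_al.HG

open Matrix Pool.Agent.Lib.MP_5d4057_al Pool.Agent.Lib.MP_5d4057_al.Hyb

variable {n : ℕ}

/-- the absolute value of the lower right entry: `cosh d(x o, o)` -/
noncomputable def top (x : SUGroup n) : ℝ := ‖x.toMatrix (Fin.last n) (Fin.last n)‖

theorem continuous_entry (i j : Fin (n + 1)) :
    Continuous (fun x : SUGroup n => x.toMatrix i j) :=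
  (continuous_toMatrix n).matrix_elem i j

theorem continuous_top : Continuous (top (n := n)) := (continuous_entry _ _).norm

theorem inv_toMatrix (x : SUGroup n) : (x⁻¹).toMatrix = J n * x.toMatrixᴴ * J n := by
  calc (x⁻¹).toMatrix = (J n * J n) * (x⁻¹).toMatrix := by rw [J_mul_J, Matrix.one_mul]
    _ = (J n * (x.toMatrixᴴ * J n * x.toMatrix)) * (x⁻¹).toMatrix := by rw [pres]
    _ = J n * x.toMatrixᴴ * J n * (x.toMatrix * (x⁻¹).toMatrix) := by
        simp only [Matrix.mul_assoc]
    _ = _ := by rw [toMatrix_mul_inv, Matrix.mul_one]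

theorem pres' (x : SUGroup n) : x.toMatrix * J n * x.toMatrixᴴ = J n := by
  calc x.toMatrix * J n * x.toMatrixᴴ
      = x.toMatrix * (J n * x.toMatrixᴴ * J n) * J n := by
        simp only [Matrix.mul_assoc, J_mul_J, Matrix.mul_one]
    _ = x.toMatrix * (x⁻¹).toMatrix * J n := by rw [inv_toMatrix]
    _ = J n := by rw [toMatrix_mul_inv, Matrix.one_mul]

theorem J_last : J n (Fin.last n) (Fin.last n) = -1 := by
  rw [J, diagonal_apply_eq, if_pos rfl]

theorem J_castSucc (i : Fin n) : J n i.castSucc i.castSucc = 1 := by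
  rw [J, diagonal_apply_eq, if_neg (Fin.castSucc_lt_last i).ne]

theorem J_mul_apply (A : Matrix (Fin (n + 1)) (Fin (n + 1)) ℂ) (i j : Fin (n + 1)) :
    (J n * A) i j = J n i i * A i j := by
  rw [J, diagonal_mul, diagonal_apply_eq]

theorem mul_J_apply (A : Matrix (Fin (n + 1)) (Fin (n + 1)) ℂ) (i j : Fin (n + 1)) :
    (A * J n) i j = A i j * J n j j := by
  rw [J, mul_diagonal, diagonal_apply_eq]

theorem col_form (x : SUGroup n) (j j' : Fin (n + 1)) :
    ∑ i : Fin n, star (x.toMatrix i.castSucc j) * x.toMatrix i.castSucc j' -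
      star (x.toMatrix (Fin.last n) j) * x.toMatrix (Fin.last n) j' = J n j j' := by
  rw [← pres x, Matrix.mul_assoc, Matrix.mul_apply, Fin.sum_univ_castSucc]
  simp only [J_mul_apply, J_castSucc, J_last, conjTranspose_apply]
  simp only [one_mul, neg_mul, mul_neg, sub_eq_add_neg]

theorem row_form (x : SUGroup n) (j j' : Fin (n + 1)) :
    ∑ i : Fin n, x.toMatrix j i.castSucc * star (x.toMatrix j' i.castSucc) -
      x.toMatrix j (Fin.last n) * star (x.toMatrix j' (Fin.last n)) = J n j j' := by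
  rw [← pres' x, Matrix.mul_apply, Fin.sum_univ_castSucc]
  simp only [mul_J_apply, J_castSucc, J_last, conjTranspose_apply]
  simp only [mul_one, neg_mul, mul_neg, sub_eq_add_neg]

theorem star_mul_self_eq (z : ℂ) : star z * z = ((‖z‖ ^ 2 : ℝ) : ℂ) := by
  rw [RCLike.star_def, Complex.conj_mul']
  push_cast
  rfl

theorem mul_star_self_eq (z : ℂ) : z * star z = ((‖z‖ ^ 2 : ℝ) : ℂ) := by
  rw [mul_comm, star_mul_self_eq]

/-- the last column has norm `-1` -/
theorem top_sq_col (x : SUGroup n) :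
    top x ^ 2 = 1 + ∑ i : Fin n, ‖x.toMatrix i.castSucc (Fin.last n)‖ ^ 2 := by
  have h := col_form x (Fin.last n) (Fin.last n)
  simp only [star_mul_self_eq, J_last] at h
  have h' : ((∑ i : Fin n, ‖x.toMatrix i.castSucc (Fin.last n)‖ ^ 2 -
      ‖x.toMatrix (Fin.last n) (Fin.last n)‖ ^ 2 : ℝ) : ℂ) = ((-1 : ℝ) : ℂ) := by
    push_cast
    push_cast at h
    exact h
  have h2 := Complex.ofReal_injective h'
  rw [top]
  linarith

/-- the last row has norm `-1` -/
theorem top_sq_row (x : SUGroup n) :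
    top x ^ 2 = 1 + ∑ i : Fin n, ‖x.toMatrix (Fin.last n) i.castSucc‖ ^ 2 := by
  have h := row_form x (Fin.last n) (Fin.last n)
  simp only [mul_star_self_eq, J_last] at h
  have h' : ((∑ i : Fin n, ‖x.toMatrix (Fin.last n) i.castSucc‖ ^ 2 -
      ‖x.toMatrix (Fin.last n) (Fin.last n)‖ ^ 2 : ℝ) : ℂ) = ((-1 : ℝ) : ℂ) := by
    push_cast
    push_cast at h
    exact h
  have h2 := Complex.ofReal_injective h'
  rw [top]
  linarith

theorem one_le_top (x : SUGroup n) : 1 ≤ top x := by
  have h := top_sq_col x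
  have h1 : 0 ≤ ∑ i : Fin n, ‖x.toMatrix i.castSucc (Fin.last n)‖ ^ 2 :=
    Finset.sum_nonneg fun i _ => sq_nonneg _
  have h2 : 0 ≤ top x := norm_nonneg _
  nlinarith

theorem top_pos (x : SUGroup n) : 0 < top x := lt_of_lt_of_le one_pos (one_le_top x)

@[simp] theorem top_one : top (1 : SUGroup n) = 1 := by
  rw [top, toMatrix_one, Matrix.one_apply_eq, norm_one]

@[simp] theorem top_inv (x : SUGroup n) : top x⁻¹ = top x := by
  rw [top, inv_toMatrix, mul_J_apply, J_mul_apply, J_last, conjTranspose_apply]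
  simp [top]

theorem mul_last_last (x y : SUGroup n) : (x * y).toMatrix (Fin.last n) (Fin.last n) =
    ∑ i : Fin n, x.toMatrix (Fin.last n) i.castSucc * y.toMatrix i.castSucc (Fin.last n) +
      x.toMatrix (Fin.last n) (Fin.last n) * y.toMatrix (Fin.last n) (Fin.last n) := by
  rw [toMatrix_mul, Matrix.mul_apply, Fin.sum_univ_castSucc]

theorem norm_cross_le (x y : SUGroup n) :
    ‖∑ i : Fin n, x.toMatrix (Fin.last n) i.castSucc * y.toMatrix i.castSucc (Fin.last n)‖ ≤
      Real.sqrt (top x ^ 2 - 1) * Real.sqrt (top y ^ 2 - 1) := by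
  have h1 : ∑ i : Fin n, ‖x.toMatrix (Fin.last n) i.castSucc‖ ^ 2 = top x ^ 2 - 1 := by
    rw [top_sq_row]; ring
  have h2 : ∑ i : Fin n, ‖y.toMatrix i.castSucc (Fin.last n)‖ ^ 2 = top y ^ 2 - 1 := by
    rw [top_sq_col]; ring
  rw [← h1, ← h2]
  calc _ ≤ ∑ i : Fin n, ‖x.toMatrix (Fin.last n) i.castSucc * y.toMatrix i.castSucc (Fin.last n)‖ :=
        norm_sum_le _ _
    _ = ∑ i : Fin n, ‖x.toMatrix (Fin.last n) i.castSucc‖ * ‖y.toMatrix i.castSucc (Fin.last n)‖ := by
        simp only [norm_mul]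
    _ ≤ _ := Real.sum_mul_le_sqrt_mul_sqrt _ _ _

theorem top_mul_le (x y : SUGroup n) :
    top (x * y) ≤ top x * top y + Real.sqrt (top x ^ 2 - 1) * Real.sqrt (top y ^ 2 - 1) := by
  rw [top, mul_last_last]
  calc _ ≤ _ := norm_add_le _ _
    _ ≤ Real.sqrt (top x ^ 2 - 1) * Real.sqrt (top y ^ 2 - 1) + top x * top y := by
        refine add_le_add (norm_cross_le x y) ?_
        rw [norm_mul, top, top]
    _ = _ := by ring

theorem top_mul_ge (x y : SUGroup n) :
    top x * top y - Real.sqrt (top x ^ 2 - 1) * Real.sqrt (top y ^ 2 - 1) ≤ top (x * y) := by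
  have h1 : top x * top y =
      ‖x.toMatrix (Fin.last n) (Fin.last n) * y.toMatrix (Fin.last n) (Fin.last n)‖ := by
    rw [norm_mul, top, top]
  have h2 : x.toMatrix (Fin.last n) (Fin.last n) * y.toMatrix (Fin.last n) (Fin.last n) =
      (x * y).toMatrix (Fin.last n) (Fin.last n) -
      ∑ i : Fin n, x.toMatrix (Fin.last n) i.castSucc * y.toMatrix i.castSucc (Fin.last n) := by
    rw [mul_last_last]; ring
  rw [h1, h2]
  have h3 := norm_sub_le ((x * y).toMatrix (Fin.last n) (Fin.last n))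
    (∑ i : Fin n, x.toMatrix (Fin.last n) i.castSucc * y.toMatrix i.castSucc (Fin.last n))
  have h4 := norm_cross_le x y
  have e : top (x * y) = ‖(x * y).toMatrix (Fin.last n) (Fin.last n)‖ := rfl
  rw [e]
  linarith

/-- `w x = e^{d(x o, o)}` -/
noncomputable def wt (x : SUGroup n) : ℝ := top x + Real.sqrt (top x ^ 2 - 1)

theorem top_mul_le_wt (x y : SUGroup n) : top (x * y) ≤ wt x * top y := by
  have h := top_mul_le x y
  have h1 : Real.sqrt (top y ^ 2 - 1) ≤ top y := by
    rw [Real.sqrt_le_left (top_pos y).le]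
    linarith
  have h2 := Real.sqrt_nonneg (top x ^ 2 - 1)
  have h3 := mul_le_mul_of_nonneg_left h1 h2
  rw [wt]
  nlinarith

theorem one_le_wt (x : SUGroup n) : 1 ≤ wt x := by
  have := one_le_top x
  have := Real.sqrt_nonneg (top x ^ 2 - 1)
  rw [wt]
  linarith

theorem wt_le (x : SUGroup n) : wt x ≤ 2 * top x := by
  have h1 : Real.sqrt (top x ^ 2 - 1) ≤ top x := by
    rw [Real.sqrt_le_left (top_pos x).le]
    linarith
  rw [wt]
  linarith

@[simp] theorem wt_inv (x : SUGroup n) : wt x⁻¹ = wt x := by rw [wt, wt, top_inv]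

theorem top_mul_right_eq (x k : SUGroup n) (hk : top k = 1) : top (x * k) = top x := by
  have h1 := top_mul_le x k
  have h2 := top_mul_ge x k
  rw [hk] at h1 h2
  simp at h1 h2
  linarith

theorem top_mul_left_eq (k x : SUGroup n) (hk : top k = 1) : top (k * x) = top x := by
  have h1 := top_mul_le k x
  have h2 := top_mul_ge k x
  rw [hk] at h1 h2
  simp at h1 h2
  linarith

theorem norm_entry_le (x : SUGroup n) (i j : Fin (n + 1)) : ‖x.toMatrix i j‖ ≤ top x + 1 := by
  have h0 := one_le_top x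
  have key : ‖x.toMatrix i j‖ ^ 2 ≤ (top x + 1) ^ 2 := by
    have hrow : ‖x.toMatrix (Fin.last n) j‖ ^ 2 ≤ top x ^ 2 := by
      refine Fin.lastCases ?_ (fun j => ?_) j
      · exact le_rfl
      · rw [top_sq_row x]
        have := Finset.single_le_sum
          (f := fun i : Fin n => ‖x.toMatrix (Fin.last n) i.castSucc‖ ^ 2)
          (fun i _ => sq_nonneg _) (Finset.mem_univ j)
        linarith
    refine Fin.lastCases ?_ (fun i => ?_) i
    · nlinarith
    · have h := col_form x j j
      simp only [star_mul_self_eq] at h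
      have hJ : (J n j j).re ≤ 1 := by
        refine Fin.lastCases ?_ (fun j => ?_) j
        · rw [J_last]; simp
        · rw [J_castSucc]; simp
      have h' := congrArg Complex.re h
      rw [← Complex.ofReal_sum, ← Complex.ofReal_sub, Complex.ofReal_re] at h'
      have := Finset.single_le_sum (f := fun i : Fin n => ‖x.toMatrix i.castSucc j‖ ^ 2)
          (fun i _ => sq_nonneg _) (Finset.mem_univ i)
      nlinarith
  exact le_of_sq_le_sq key (by linarith)

theorem isCompact_top_le (T : ℝ) : IsCompact {x : SUGroup n | top x ≤ T} := by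
  have h1 : IsCompact (Set.pi Set.univ fun _ : Fin (n + 1) => Set.pi Set.univ fun _ : Fin (n + 1) =>
      Metric.closedBall (0 : ℂ) (T + 1)) :=
    isCompact_univ_pi fun _ => isCompact_univ_pi fun _ => isCompact_closedBall _ _
  have h2 : IsCompact ((SUGroup.toMatrix (m := n)) ⁻¹' (Set.pi Set.univ fun _ : Fin (n + 1) =>
      Set.pi Set.univ fun _ : Fin (n + 1) => Metric.closedBall (0 : ℂ) (T + 1))) :=
    (isClosedEmbedding_toMatrix n).isCompact_preimage h1
  refine h2.of_isClosed_subset (isClosed_le continuous_top continuous_const) ?_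
  intro x hx
  have hx' : top x ≤ T := hx
  intro i _ j _
  rw [mem_closedBall_zero_iff]
  have := norm_entry_le x i j
  linarith

end Pool.Agent.Lib.MP_5d4057_al.HG
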