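import Pool.Agent.Lib.MP_5d4057_al.HM.CutB
import Pool.Agent.Lib.MP_5d4057_al.HM.Mom
import Pool.Agent.Lib.MP_5d4057_al.HM.Thompson
import Pool.Agent.Lib.MP_5d4057_al.HM.DefsB
import Pool.Agent.Lib.MP_5d4057_al.HM.Grp

/-! Tools for the Lipschitz estimate: norms of group elements, comparison of kernels. -/

namespace Pool.Agent.Lib.MP_5d4057_al.HM

open Matrix MeasureTheory Filter Topology Pool.Agent.Lib.MP_5d4057_al Pool.Agent.Lib.MP_5d4057_al.Hyb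

open scoped ComplexOrder MatrixOrder Matrix.Norms.L2Operator ENNReal

variable {n m : ℕ}

theorem lp_ch_sq (b : SUGroup n) : ch b ^ 2 - 1 ≤ ‖b.toMatrix - 1‖ ^ 2 := by
  have h := (b.toMatrix - 1).l2_opNorm_mulVec (WithLp.toLp 2 (Pi.single (Fin.last n) (1 : ℂ)))
  have h1 : ‖(WithLp.toLp 2 (Pi.single (Fin.last n) (1 : ℂ)) : EuclideanSpace ℂ (Fin (n + 1)))‖ = 1 := by
    simp
  rw [h1, mul_one] at h
  have h2 : ‖(WithLp.toLp 2 ((b.toMatrix - 1) *ᵥ (Pi.single (Fin.last n) (1 : ℂ))) :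
      EuclideanSpace ℂ (Fin (n + 1)))‖ ≤ ‖b.toMatrix - 1‖ := h
  have h3 := pow_le_pow_left₀ (norm_nonneg _) h2 2
  rw [EuclideanSpace.norm_sq_eq] at h3
  refine le_trans ?_ h3
  rw [← sum_col b, Fin.sum_univ_castSucc]
  have h4 : ∀ j : Fin n, ‖b.toMatrix j.castSucc (Fin.last n)‖ ^ 2 =
      ‖(WithLp.toLp 2 ((b.toMatrix - 1) *ᵥ (Pi.single (Fin.last n) (1 : ℂ))) :
      EuclideanSpace ℂ (Fin (n + 1))) j.castSucc‖ ^ 2 := by
    intro j
    have hne : j.castSucc ≠ Fin.last n := (Fin.castSucc_lt_last j).ne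
    simp [Matrix.one_apply_ne hne]
  rw [Finset.sum_congr rfl fun j _ => h4 j]
  linarith [sq_nonneg ‖(WithLp.toLp 2 ((b.toMatrix - 1) *ᵥ (Pi.single (Fin.last n) (1 : ℂ))) :
      EuclideanSpace ℂ (Fin (n + 1))) (Fin.last n)‖]

theorem lp_norm_le (x : SUGroup n) : ‖x.toMatrix‖ ≤ 2 * (n + 1) * ch x := by
  have h1 : ‖x.toMatrix‖ ^ 2 ≤ (2 * (n + 1) * ch x) ^ 2 := by
    have h2 := l2_opNorm_conjTranspose_mul_self x.toMatrix
    have h3 := norm_le_trace (posSemidef_conjTranspose_mul_self x.toMatrix)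
    rw [h2] at h3
    rw [sq]
    refine h3.trans ?_
    have h4 : (x.toMatrixᴴ * x.toMatrix).trace.re = ∑ i, ∑ j, ‖x.toMatrix j i‖ ^ 2 := by
      rw [trace, Complex.re_sum]
      refine Finset.sum_congr rfl fun i _ => ?_
      rw [diag_apply, mul_apply, Complex.re_sum]
      refine Finset.sum_congr rfl fun j _ => ?_
      rw [conjTranspose_apply, Complex.star_def, ← Complex.normSq_eq_conj_mul_self,
        Complex.ofReal_re, Complex.normSq_eq_norm_sq]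
    rw [h4]
    have h5 : ∑ i : Fin (n + 1), ∑ j : Fin (n + 1), ‖x.toMatrix j i‖ ^ 2 ≤
        ∑ _i : Fin (n + 1), ∑ _j : Fin (n + 1), (2 * ch x) ^ 2 := by
      refine Finset.sum_le_sum fun i _ => Finset.sum_le_sum fun j _ => ?_
      exact pow_le_pow_left₀ (norm_nonneg _) (norm_entry_le x j i) 2
    refine h5.trans (le_of_eq ?_)
    simp only [Finset.sum_const, Finset.card_univ, Fintype.card_fin, nsmul_eq_mul]
    push_cast
    ring
  have h0 := ch_pos x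
  exact le_of_sq_le_sq h1 (by positivity)

/-- conjugation of an element near `1` -/
theorem lp_conj (h a : SUGroup n) :
    ‖(h⁻¹ * a * h).toMatrix - 1‖ ≤ (2 * (n + 1)) ^ 2 * ch h ^ 2 * ‖a.toMatrix - 1‖ := by
  have e1 : (h⁻¹ * a * h).toMatrix - 1 = (h⁻¹).toMatrix * (a.toMatrix - 1) * h.toMatrix := by
    rw [toMatrix_mul, toMatrix_mul, mul_sub, sub_mul, mul_one, toMatrix_inv_mul]
  rw [e1]
  have h1 := lp_norm_le h
  have h2 := lp_norm_le h⁻¹
  rw [ch_inv] at h2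
  have h0 := ch_pos h
  calc ‖(h⁻¹).toMatrix * (a.toMatrix - 1) * h.toMatrix‖
      ≤ ‖(h⁻¹).toMatrix‖ * ‖a.toMatrix - 1‖ * ‖h.toMatrix‖ :=
        (norm_mul_le _ _).trans (mul_le_mul_of_nonneg_right (norm_mul_le _ _) (norm_nonneg _))
    _ ≤ (2 * (n + 1) * ch h) * ‖a.toMatrix - 1‖ * (2 * (n + 1) * ch h) := by
        gcongr
    _ = _ := by ring

theorem lp_exp {x : ℝ} (h0 : 0 ≤ x) (h1 : x ≤ 1 / 2) : Real.exp (-(2 * x)) ≤ 1 - x := by
  have h2 : 1 + 2 * x ≤ Real.exp (2 * x) := by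
    have := Real.add_one_le_exp (2 * x)
    linarith
  have h3 : Real.exp (-(2 * x)) * Real.exp (2 * x) = 1 := by rw [← Real.exp_add]; simp
  have h4 := Real.exp_pos (-(2 * x))
  have h5 : Real.exp (-(2 * x)) * (1 + 2 * x) ≤ 1 :=
    (mul_le_mul_of_nonneg_left h2 h4.le).trans h3.le
  have h6 : (1 : ℝ) ≤ (1 - x) * (1 + 2 * x) := by nlinarith
  have h7 : Real.exp (-(2 * x)) * (1 + 2 * x) ≤ (1 - x) * (1 + 2 * x) := h5.trans h6
  exact le_of_mul_le_mul_right h7 (by linarith)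

/-- The ratio of `cs n s` and `cs n (2 s)`. -/
theorem lp_cs {s : ℕ} (hs : 2 * n < s) : cs n s ≤ Real.exp (2 * n) * cs n (2 * s) := by
  have hs0 : (0 : ℝ) < s := by exact_mod_cast (by omega : 0 < s)
  have hx0 : (0 : ℝ) ≤ n / s := by positivity
  have hx1 : (n : ℝ) / s ≤ 1 / 2 := by
    rw [div_le_iff₀ hs0]
    have : (2 * n : ℝ) < s := by exact_mod_cast hs
    linarith
  have key : ∀ k : ℕ, (1 - (n : ℝ) / s) ^ k * cs n s ≤ cs n (s + k) := by
    intro k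
    induction k with
    | zero => simp
    | succ k ih =>
      have h1 := cs_succ (n := n) (s := s + k) (by omega)
      have h2 : (0 : ℝ) < ((s + k : ℕ) : ℝ) := by exact_mod_cast (by omega : 0 < s + k)
      have h3 : (1 - (n : ℝ) / s) ≤ (((s + k : ℕ) : ℝ) - n) / ((s + k : ℕ) : ℝ) := by
        rw [sub_div, div_self h2.ne']
        have : (n : ℝ) / ((s + k : ℕ) : ℝ) ≤ n / s := by
          refine div_le_div_of_nonneg_left (Nat.cast_nonneg _) hs0 ?_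
          exact_mod_cast Nat.le_add_right s k
        linarith
      have h4 : cs n (s + (k + 1)) = (((s + k : ℕ) : ℝ) - n) / ((s + k : ℕ) : ℝ) * cs n (s + k) := by
        rw [div_mul_eq_mul_div, ← h1, ← add_assoc]
        field_simp
      rw [h4, pow_succ']
      have h5 : (0 : ℝ) ≤ 1 - n / s := by linarith
      have h6 := cs_nonneg n (s + k)
      calc (1 - (n : ℝ) / s) * (1 - (n : ℝ) / s) ^ k * cs n s
          = (1 - (n : ℝ) / s) * ((1 - (n : ℝ) / s) ^ k * cs n s) := by ring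
        _ ≤ (1 - (n : ℝ) / s) * cs n (s + k) := mul_le_mul_of_nonneg_left ih h5
        _ ≤ _ := mul_le_mul_of_nonneg_right h3 h6
  have h1 := key s
  have h2 : Real.exp (-(2 * n)) ≤ (1 - (n : ℝ) / s) ^ s := by
    have h3 := pow_le_pow_left₀ (Real.exp_pos _).le (lp_exp hx0 hx1) s
    rw [← Real.exp_nat_mul] at h3
    have h4 : (s : ℝ) * -(2 * ((n : ℝ) / s)) = -(2 * n) := by field_simp
    rwa [h4] at h3
  have h3 := mul_le_mul_of_nonneg_right h2 (cs_nonneg n s)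
  have h4 : Real.exp (2 * n) * Real.exp (-(2 * n)) = 1 := by rw [← Real.exp_add]; simp
  have h5 : s + s = 2 * s := by ring
  rw [h5] at h1
  calc cs n s = Real.exp (2 * n) * (Real.exp (-(2 * n)) * cs n s) := by rw [← mul_assoc, h4, one_mul]
    _ ≤ Real.exp (2 * n) * cs n (2 * s) := mul_le_mul_of_nonneg_left (h3.trans h1) (Real.exp_pos _).le

theorem lp_ch_mul_ge (x y : SUGroup n) :
    ch x * ch y - Real.sqrt (ch x ^ 2 - 1) * Real.sqrt (ch y ^ 2 - 1) ≤ ch (x * y) :=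
  Pool.Agent.Lib.MP_5d4057_al.HG.top_mul_ge x y

/-- Comparison of kernels. -/
theorem lp_kap {s : ℕ} (hs : 2 * n < s) {b : SUGroup n} {β : ℝ} (hβ : 0 ≤ β) (hβ1 : β ≤ 1 / 2)
    (hb : ch b ^ 2 - 1 ≤ β ^ 2) (y : SUGroup n) :
    kap (2 * s) (y⁻¹ * b) ≤ Real.exp (2 * n + 16 * s * β ^ 2) * kap s y := by
  have hc := ch_pos y
  have hc1 := one_le_ch y
  have hs0 : (0 : ℝ) < s := by exact_mod_cast (by omega : 0 < s)
  have hcs := cs_pos' (n := n) (s := s) (by omega)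
  have hcs2 := cs_pos' (n := n) (s := 2 * s) (by omega)
  obtain ⟨σ, hσ⟩ : ∃ σ : ℝ, σ = Real.sqrt (ch y ^ 2 - 1) := ⟨_, rfl⟩
  have hσ0 : 0 ≤ σ := by rw [hσ]; exact Real.sqrt_nonneg _
  have hσ2 : σ ^ 2 = ch y ^ 2 - 1 := by
    rw [hσ]; exact Real.sq_sqrt (by nlinarith)
  have h1 := lp_ch_mul_ge y⁻¹ b
  rw [ch_inv, ← hσ] at h1
  have h2 : Real.sqrt (ch b ^ 2 - 1) ≤ β := Real.sqrt_le_iff.2 ⟨hβ, hb⟩
  have h3 : ch y - σ * β ≤ ch (y⁻¹ * b) := by
    have h4 := one_le_ch b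
    have h5 : σ * Real.sqrt (ch b ^ 2 - 1) ≤ σ * β := mul_le_mul_of_nonneg_left h2 hσ0
    have h6 : ch y * 1 ≤ ch y * ch b := mul_le_mul_of_nonneg_left h4 hc.le
    linarith
  obtain ⟨τ, hτ⟩ : ∃ τ : ℝ, τ = σ / ch y := ⟨_, rfl⟩
  have hτ0 : 0 ≤ τ := by rw [hτ]; positivity
  have hσle : σ ≤ ch y := by nlinarith
  have hτ1 : τ ≤ 1 := by rw [hτ, div_le_one hc]; exact hσle
  have hu : τ * β ≤ 1 / 2 := by nlinarith
  have h4 : ch y * Real.exp (-(2 * (τ * β))) ≤ ch (y⁻¹ * b) := by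
    refine le_trans ?_ h3
    have h5 := mul_le_mul_of_nonneg_left (lp_exp (mul_nonneg hτ0 hβ) hu) hc.le
    refine h5.trans (le_of_eq ?_)
    rw [hτ]; field_simp
  have h5 : (ch (y⁻¹ * b) ^ (2 * (2 * s)))⁻¹ ≤ (ch y ^ (2 * (2 * s)))⁻¹ * Real.exp (8 * s * (τ * β)) := by
    have h6 : 0 < ch y * Real.exp (-(2 * (τ * β))) := by positivity
    have h7 := pow_le_pow_left₀ h6.le h4 (2 * (2 * s))
    have h8 := inv_anti₀ (pow_pos h6 _) h7
    refine h8.trans (le_of_eq ?_)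
    rw [mul_pow, mul_inv, ← Real.exp_nat_mul, ← Real.exp_neg]
    congr 2
    push_cast
    ring
  have h6 : Real.exp (8 * s * (τ * β)) ≤ ch y ^ (2 * s) * Real.exp (16 * s * β ^ 2) := by
    have h7 : 8 * s * (τ * β) ≤ s * τ ^ 2 + 16 * s * β ^ 2 := by nlinarith [sq_nonneg (τ - 4 * β)]
    have h8 : Real.exp (s * τ ^ 2) ≤ ch y ^ (2 * s) := by
      have h9 : τ ^ 2 ≤ Real.log (ch y ^ 2) := by
        have h10 : τ ^ 2 = 1 - (ch y ^ 2)⁻¹ := by
          rw [hτ, div_pow, hσ2]; field_simp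
        rw [h10]
        exact Real.one_sub_inv_le_log_of_pos (by positivity)
      have h11 : Real.exp (s * τ ^ 2) ≤ Real.exp (s * Real.log (ch y ^ 2)) :=
        Real.exp_le_exp.2 (mul_le_mul_of_nonneg_left h9 hs0.le)
      rw [Real.exp_nat_mul, Real.exp_nat_mul, Real.exp_log (by positivity), ← pow_mul] at h11
      rwa [Real.exp_nat_mul]
    calc Real.exp (8 * s * (τ * β)) ≤ Real.exp (s * τ ^ 2 + 16 * s * β ^ 2) := Real.exp_le_exp.2 h7
      _ = Real.exp (s * τ ^ 2) * Real.exp (16 * s * β ^ 2) := Real.exp_add _ _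
      _ ≤ _ := mul_le_mul_of_nonneg_right h8 (Real.exp_pos _).le
  have h7 : (ch (y⁻¹ * b) ^ (2 * (2 * s)))⁻¹ ≤ (ch y ^ (2 * s))⁻¹ * Real.exp (16 * s * β ^ 2) := by
    refine h5.trans ((mul_le_mul_of_nonneg_left h6 (by positivity)).trans (le_of_eq ?_))
    have h8 : ch y ^ (2 * (2 * s)) = ch y ^ (2 * s) * ch y ^ (2 * s) := by rw [← pow_add]; congr 1; ring
    rw [h8]
    field_simp
  have h8 : 1 / cs n (2 * s) ≤ Real.exp (2 * n) / cs n s := by
    rw [div_le_div_iff₀ hcs2 hcs, one_mul]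
    exact lp_cs hs
  unfold kap
  rw [Real.exp_add]
  calc (ch (y⁻¹ * b) ^ (2 * (2 * s)))⁻¹ / cs n (2 * s)
      = (ch (y⁻¹ * b) ^ (2 * (2 * s)))⁻¹ * (1 / cs n (2 * s)) := by ring
    _ ≤ ((ch y ^ (2 * s))⁻¹ * Real.exp (16 * s * β ^ 2)) * (Real.exp (2 * n) / cs n s) :=
        mul_le_mul h7 h8 (by positivity) (by positivity)
    _ = _ := by ring

end Pool.Agent.Lib.MP_5d4057_al.HM
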