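import Pool.Agent.Lib.MP_5d4057_al.HM.Basic

namespace Pool.Agent.Lib.MP_5d4057_al.HM

open Filter Topology

variable {V E : Type} [NormedAddCommGroup V] [NormedSpace ℝ V] [FiniteDimensional ℝ V]
  [NormedAddCommGroup E] [NormedSpace ℝ E] [FiniteDimensional ℝ E]

/-- Arzela-Ascoli for a sequence of functions on an open set, pointwise bounded and equicontinuous. -/
theorem exists_subseq {U : Set V} (hU : IsOpen U) {F : ℕ → V → E}
    (hb : ∀ v ∈ U, ∃ C : ℝ, ∀ j, ‖F j v‖ ≤ C)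
    (he : ∀ v ∈ U, ∀ ε > 0, ∃ δ > 0, ∀ w, ‖w - v‖ < δ → ∀ j, ‖F j w - F j v‖ ≤ ε) :
    ∃ (φ : ℕ → ℕ) (f : V → E), StrictMono φ ∧ ContinuousOn f U ∧
      TendstoLocallyUniformlyOn (fun j => F (φ j)) f atTop U := by
  classical
  have : ProperSpace V := FiniteDimensional.proper ℝ V
  have : ProperSpace E := FiniteDimensional.proper ℝ E
  obtain ⟨D, hDc, hDd⟩ := TopologicalSpace.exists_countable_dense V
  let I := {d : V // d ∈ D ∩ U}
  have : Countable I := (hDc.mono Set.inter_subset_left).to_subtype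
  choose! C hC using hb
  have hK : IsCompact (Set.pi Set.univ (fun d : I => Metric.closedBall (0 : E) (C d.1))) :=
    isCompact_univ_pi (fun d => isCompact_closedBall _ _)
  have hmem : ∀ j, (fun d : I => F j d.1) ∈
      Set.pi Set.univ (fun d : I => Metric.closedBall (0 : E) (C d.1)) := by
    intro j d _
    simpa [mem_closedBall_zero_iff] using hC d.1 d.2.2 j
  obtain ⟨g, _, φ, hφ, hlim⟩ := hK.tendsto_subseq hmem
  have hlim' : ∀ d : I, Tendsto (fun j => F (φ j) d.1) atTop (𝓝 (g d)) := by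
    intro d
    exact (tendsto_pi_nhds.1 hlim) d
  have hcau : ∀ v ∈ U, CauchySeq (fun j => F (φ j) v) := by
    intro v hv
    rw [Metric.cauchySeq_iff]
    intro ε hε
    obtain ⟨δ, hδ, hδ'⟩ := he v hv (ε / 4) (by positivity)
    obtain ⟨d, ⟨hdU, hdball⟩, hdD⟩ := hDd.inter_open_nonempty (U ∩ Metric.ball v δ)
      (hU.inter Metric.isOpen_ball) ⟨v, hv, Metric.mem_ball_self hδ⟩
    have hd1 : ∀ j, ‖F j d - F j v‖ ≤ ε / 4 :=
      hδ' d (mem_ball_iff_norm.1 hdball)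
    have hc := (hlim' ⟨d, hdD, hdU⟩).cauchySeq
    rw [Metric.cauchySeq_iff] at hc
    obtain ⟨N, hN⟩ := hc (ε / 4) (by positivity)
    refine ⟨N, fun m hm n hn => ?_⟩
    have h1 := hN m hm n hn
    rw [dist_eq_norm] at h1 ⊢
    have h2 := hd1 (φ m)
    have h3 := hd1 (φ n)
    have h4 : F (φ m) v - F (φ n) v = -(F (φ m) d - F (φ m) v) + (F (φ m) d - F (φ n) d)
        + (F (φ n) d - F (φ n) v) := by abel
    rw [h4]
    calc _ ≤ ‖-(F (φ m) d - F (φ m) v)‖ + ‖F (φ m) d - F (φ n) d‖ + ‖F (φ n) d - F (φ n) v‖ :=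
          norm_add₃_le
      _ < ε := by rw [norm_neg]; linarith
  have hex : ∀ v, ∃ y : E, v ∈ U → Tendsto (fun j => F (φ j) v) atTop (𝓝 y) := by
    intro v
    by_cases hv : v ∈ U
    · obtain ⟨y, hy⟩ := cauchySeq_tendsto_of_complete (hcau v hv)
      exact ⟨y, fun _ => hy⟩
    · exact ⟨0, fun h => absurd h hv⟩
  choose f hf using hex
  have hfe : ∀ v ∈ U, ∀ ε > 0, ∃ δ > 0, ∀ w ∈ U, ‖w - v‖ < δ → ‖f w - f v‖ ≤ ε := by
    intro v hv ε hε
    obtain ⟨δ, hδ, hδ'⟩ := he v hv ε hε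
    refine ⟨δ, hδ, fun w hw hwv => ?_⟩
    have h1 : Tendsto (fun j => ‖F (φ j) w - F (φ j) v‖) atTop (𝓝 ‖f w - f v‖) :=
      ((hf w hw).sub (hf v hv)).norm
    exact le_of_tendsto' h1 (fun j => hδ' w hwv (φ j))
  refine ⟨φ, f, hφ, ?_, ?_⟩
  · intro v hv
    rw [Metric.continuousWithinAt_iff]
    intro ε hε
    obtain ⟨δ, hδ, hδ'⟩ := hfe v hv (ε / 2) (by positivity)
    refine ⟨δ, hδ, fun {w} hw hwv => ?_⟩
    rw [dist_eq_norm] at hwv ⊢
    have := hδ' w hw hwv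
    linarith
  · rw [Metric.tendstoLocallyUniformlyOn_iff]
    intro ε hε v hv
    obtain ⟨δ, hδ, hδ'⟩ := he v hv (ε / 4) (by positivity)
    obtain ⟨δ2, hδ2, hδ2'⟩ := hfe v hv (ε / 4) (by positivity)
    refine ⟨U ∩ Metric.ball v (min δ δ2), ?_, ?_⟩
    · exact inter_mem_nhdsWithin _ (Metric.ball_mem_nhds v (lt_min hδ hδ2))
    · have h1 : ∀ᶠ j in atTop, dist (F (φ j) v) (f v) < ε / 4 :=
        (Metric.tendsto_nhds.1 (hf v hv)) (ε / 4) (by positivity)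
      filter_upwards [h1] with j hj w hw
      have hw2 : ‖w - v‖ < min δ δ2 := mem_ball_iff_norm.1 hw.2
      have h2 := hδ' w (lt_of_lt_of_le hw2 (min_le_left _ _)) (φ j)
      have h3 := hδ2' w hw.1 (lt_of_lt_of_le hw2 (min_le_right _ _))
      rw [dist_eq_norm] at hj ⊢
      have h4 : f w - F (φ j) w = (f w - f v) + -(F (φ j) v - f v) + -(F (φ j) w - F (φ j) v) := by
        abel
      rw [h4]
      calc _ ≤ ‖f w - f v‖ + ‖-(F (φ j) v - f v)‖ + ‖-(F (φ j) w - F (φ j) v)‖ := norm_add₃_le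
        _ < ε := by rw [norm_neg, norm_neg]; linarith

private theorem norm_le_aux {X : Type} [NormedAddCommGroup X] (a b : X) : ‖a‖ ≤ ‖a - b‖ + ‖b‖ := by
  have h : a = (a - b) + b := by abel
  calc ‖a‖ = ‖(a - b) + b‖ := by rw [← h]
    _ ≤ _ := norm_add_le _ _

omit [NormedSpace ℝ V] [FiniteDimensional ℝ V] in
private theorem tlu_subseq {X : Type} [NormedAddCommGroup X] {U : Set V} {G : ℕ → V → X} {g : V → X}
    (h : TendstoLocallyUniformlyOn G g atTop U) {ψ : ℕ → ℕ} (hψ : StrictMono ψ) :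
    TendstoLocallyUniformlyOn (fun j => G (ψ j)) g atTop U := by
  intro u hu x hx
  obtain ⟨t, ht, h1⟩ := h u hu x hx
  exact ⟨t, ht, hψ.tendsto_atTop.eventually h1⟩

/-- Limits of a sequence of `C²` functions, the second derivatives of which are locally bounded and
equicontinuous: a subsequence converges with its first two derivatives. -/
theorem exists_subseq_two {U : Set V} (hU : IsOpen U) {F : ℕ → V → E} {f : V → E}
    (hd : ∀ j, ContDiffOn ℝ 2 (F j) U) (hlim : ∀ v ∈ U, Tendsto (fun j => F j v) atTop (𝓝 (f v)))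
    (hb1 : ∀ v ∈ U, ∃ C : ℝ, ∃ δ > 0, ∀ w, ‖w - v‖ < δ → ∀ j, ‖fderiv ℝ (F j) w‖ ≤ C)
    (hb : ∀ v ∈ U, ∃ C : ℝ, ∀ j, ‖fderiv ℝ (fderiv ℝ (F j)) v‖ ≤ C)
    (he : ∀ v ∈ U, ∀ ε > 0, ∃ δ > 0, ∀ w, ‖w - v‖ < δ → ∀ j,
      ‖fderiv ℝ (fderiv ℝ (F j)) w - fderiv ℝ (fderiv ℝ (F j)) v‖ ≤ ε) :
    ContDiffOn ℝ 2 f U ∧ ∃ φ : ℕ → ℕ, StrictMono φ ∧
      (∀ v ∈ U, Tendsto (fun j => fderiv ℝ (F (φ j)) v) atTop (𝓝 (fderiv ℝ f v))) ∧
      ∀ v ∈ U, Tendsto (fun j => fderiv ℝ (fderiv ℝ (F (φ j))) v) atTop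
        (𝓝 (fderiv ℝ (fderiv ℝ f) v)) := by
  obtain ⟨φ, h, hφ, hhc, hh⟩ := exists_subseq (E := V →L[ℝ] V →L[ℝ] E)
    (F := fun j => fderiv ℝ (fderiv ℝ (F j))) hU hb he
  have hd1 : ∀ j, ∀ v ∈ U, HasFDerivAt (F j) (fderiv ℝ (F j) v) v := by
    intro j v hv
    exact (((hd j).differentiableOn (by norm_num)).differentiableAt (hU.mem_nhds hv)).hasFDerivAt
  have hd2 : ∀ j, ∀ v ∈ U, HasFDerivAt (fderiv ℝ (F j)) (fderiv ℝ (fderiv ℝ (F j)) v) v := by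
    intro j v hv
    have h1 : ContDiffOn ℝ 1 (fderiv ℝ (F j)) U :=
      (hd j).fderiv_of_isOpen hU (by norm_num)
    exact ((h1.differentiableOn (by norm_num)).differentiableAt (hU.mem_nhds hv)).hasFDerivAt
  -- equicontinuity of the first derivatives
  have he1 : ∀ v ∈ U, ∀ ε > 0, ∃ δ > 0, ∀ w, ‖w - v‖ < δ → ∀ j,
      ‖fderiv ℝ (F j) w - fderiv ℝ (F j) v‖ ≤ ε := by
    intro v hv ε hε
    obtain ⟨C, hC⟩ := hb v hv
    obtain ⟨δ, hδ, hδ'⟩ := he v hv 1 one_pos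
    obtain ⟨r, hr, hrU⟩ := Metric.isOpen_iff.1 hU v hv
    have hC0 : 0 ≤ C := le_trans (norm_nonneg (fderiv ℝ (fderiv ℝ (F 0)) v)) (hC 0)
    refine ⟨min (min δ r) (ε / (C + 1)), lt_min (lt_min hδ hr) (by positivity), fun w hw j => ?_⟩
    have hw1 : ‖w - v‖ < δ := lt_of_lt_of_le hw ((min_le_left _ _).trans (min_le_left _ _))
    have hw2 : ‖w - v‖ < r := lt_of_lt_of_le hw ((min_le_left _ _).trans (min_le_right _ _))
    have hw3 : ‖w - v‖ < ε / (C + 1) := lt_of_lt_of_le hw (min_le_right _ _)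
    have hbd : ∀ x ∈ Metric.ball v (min δ r), ‖fderiv ℝ (fderiv ℝ (F j)) x‖ ≤ C + 1 := by
      intro x hx
      have hx' : ‖x - v‖ < min δ r := mem_ball_iff_norm.1 hx
      have h1 := hδ' x (lt_of_lt_of_le hx' (min_le_left _ _)) j
      have h2 := hC j
      have h3 := norm_le_aux (X := V →L[ℝ] V →L[ℝ] E) (fderiv ℝ (fderiv ℝ (F j)) x)
        (fderiv ℝ (fderiv ℝ (F j)) v)
      linarith
    have hsub : Metric.ball v (min δ r) ⊆ U := fun x hx =>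
      hrU (Metric.ball_subset_ball (min_le_right _ _) hx)
    have hmv := (convex_ball v (min δ r)).norm_image_sub_le_of_norm_hasFDerivWithin_le
      (f := fderiv ℝ (F j)) (f' := fderiv ℝ (fderiv ℝ (F j))) (C := C + 1)
      (fun x hx => (hd2 j x (hsub hx)).hasFDerivWithinAt) hbd
      (Metric.mem_ball_self (lt_min hδ hr))
      (mem_ball_iff_norm.2 (lt_min hw1 hw2))
    refine hmv.trans ?_
    have h5 : (C + 1) * ‖w - v‖ ≤ (C + 1) * (ε / (C + 1)) :=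
      mul_le_mul_of_nonneg_left hw3.le (by positivity)
    rwa [mul_div_cancel₀ _ (by positivity : (C + 1) ≠ 0)] at h5
  have hb' : ∀ v ∈ U, ∃ C : ℝ, ∀ j, ‖fderiv ℝ (F (φ j)) v‖ ≤ C := by
    intro v hv
    obtain ⟨C, δ, hδ, hC⟩ := hb1 v hv
    exact ⟨C, fun j => hC v (by simpa using hδ) (φ j)⟩
  have he' : ∀ v ∈ U, ∀ ε > 0, ∃ δ > 0, ∀ w, ‖w - v‖ < δ → ∀ j,
      ‖fderiv ℝ (F (φ j)) w - fderiv ℝ (F (φ j)) v‖ ≤ ε := by
    intro v hv ε hε
    obtain ⟨δ, hδ, hδ'⟩ := he1 v hv ε hε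
    exact ⟨δ, hδ, fun w hw j => hδ' w hw (φ j)⟩
  obtain ⟨ψ, g, hψ, hgc, hg⟩ := exists_subseq (E := V →L[ℝ] E)
    (F := fun j => fderiv ℝ (F (φ j))) hU hb' he'
  have hh' : TendstoLocallyUniformlyOn (fun j => fderiv ℝ (fderiv ℝ (F (φ (ψ j))))) h atTop U :=
    tlu_subseq (G := fun j => fderiv ℝ (fderiv ℝ (F (φ j)))) hh hψ
  have hφψ : StrictMono (fun j => φ (ψ j)) := hφ.comp hψ
  have hlim' : ∀ v ∈ U, Tendsto (fun j => F (φ (ψ j)) v) atTop (𝓝 (f v)) := fun v hv =>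
    (hlim v hv).comp hφψ.tendsto_atTop
  have hf1 : ∀ v ∈ U, HasFDerivAt f (g v) v := fun v hv =>
    hasFDerivAt_of_tendstoLocallyUniformlyOn hU hg (fun j x hx => hd1 _ x hx) hlim' hv
  have hfd : ∀ v ∈ U, fderiv ℝ f v = g v := fun v hv => (hf1 v hv).fderiv
  have hg' : ∀ v ∈ U, Tendsto (fun j => fderiv ℝ (F (φ (ψ j))) v) atTop (𝓝 (g v)) := fun v hv =>
    hg.tendsto_at hv
  have hg1 : ∀ v ∈ U, HasFDerivAt g (h v) v := fun v hv =>
    hasFDerivAt_of_tendstoLocallyUniformlyOn hU hh' (fun j x hx => hd2 _ x hx) hg' hv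
  have hev : ∀ v ∈ U, fderiv ℝ f =ᶠ[𝓝 v] g := fun v hv =>
    Filter.eventually_of_mem (hU.mem_nhds hv) hfd
  have hf2 : ∀ v ∈ U, HasFDerivAt (fderiv ℝ f) (h v) v := fun v hv =>
    (hg1 v hv).congr_of_eventuallyEq (hev v hv)
  have hfdd : ∀ v ∈ U, fderiv ℝ (fderiv ℝ f) v = h v := fun v hv => (hf2 v hv).fderiv
  refine ⟨?_, fun j => φ (ψ j), hφψ, ?_, ?_⟩
  · have e2 : ((2 : ℕ∞) : WithTop ℕ∞) = ((1 : ℕ∞) : WithTop ℕ∞) + 1 := by norm_num
    have h2 : ContDiffOn ℝ 1 (fderiv ℝ f) U := by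
      have h3 : ContDiffOn ℝ 0 (fderiv ℝ (fderiv ℝ f)) U :=
        contDiffOn_zero.2 (hhc.congr hfdd)
      have := (contDiffOn_succ_iff_fderiv_of_isOpen (n := 0) (f := fderiv ℝ f) hU).2
        ⟨fun v hv => (hf2 v hv).differentiableAt.differentiableWithinAt, by simp, h3⟩
      simpa using this
    have := (contDiffOn_succ_iff_fderiv_of_isOpen (n := 1) (f := f) hU).2
        ⟨fun v hv => (hf1 v hv).differentiableAt.differentiableWithinAt, by simp, h2⟩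
    have e3 : (1 : WithTop ℕ∞) + 1 = 2 := by norm_num
    rwa [e3] at this
  · intro v hv
    rw [hfd v hv]
    exact hg' v hv
  · intro v hv
    rw [hfdd v hv]
    exact hh'.tendsto_at hv

/-- The same for first derivatives. -/
theorem exists_subseq_one {U : Set V} (hU : IsOpen U) {F : ℕ → V → E} {f : V → E}
    (hd : ∀ j, ContDiffOn ℝ 1 (F j) U) (hlim : ∀ v ∈ U, Tendsto (fun j => F j v) atTop (𝓝 (f v)))
    (hb : ∀ v ∈ U, ∃ C : ℝ, ∀ j, ‖fderiv ℝ (F j) v‖ ≤ C)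
    (he : ∀ v ∈ U, ∀ ε > 0, ∃ δ > 0, ∀ w, ‖w - v‖ < δ → ∀ j,
      ‖fderiv ℝ (F j) w - fderiv ℝ (F j) v‖ ≤ ε) :
    ContDiffOn ℝ 1 f U ∧ ∃ φ : ℕ → ℕ, StrictMono φ ∧
      TendstoLocallyUniformlyOn (fun j => fderiv ℝ (F (φ j))) (fderiv ℝ f) atTop U := by
  obtain ⟨φ, g, hφ, hgc, hg⟩ := exists_subseq (E := V →L[ℝ] E)
    (F := fun j => fderiv ℝ (F j)) hU hb he
  have hd1 : ∀ j, ∀ v ∈ U, HasFDerivAt (F j) (fderiv ℝ (F j) v) v := by
    intro j v hv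
    exact (((hd j).differentiableOn (by norm_num)).differentiableAt (hU.mem_nhds hv)).hasFDerivAt
  have hlim' : ∀ v ∈ U, Tendsto (fun j => F (φ j) v) atTop (𝓝 (f v)) := fun v hv =>
    (hlim v hv).comp hφ.tendsto_atTop
  have hf1 : ∀ v ∈ U, HasFDerivAt f (g v) v := fun v hv =>
    hasFDerivAt_of_tendstoLocallyUniformlyOn hU hg (fun j x hx => hd1 _ x hx) hlim' hv
  have hfd : ∀ v ∈ U, fderiv ℝ f v = g v := fun v hv => (hf1 v hv).fderiv
  refine ⟨?_, φ, hφ, ?_⟩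
  · have h3 : ContDiffOn ℝ 0 (fderiv ℝ f) U := contDiffOn_zero.2 (hgc.congr hfd)
    have := (contDiffOn_succ_iff_fderiv_of_isOpen (n := 0) (f := f) hU).2
        ⟨fun v hv => (hf1 v hv).differentiableAt.differentiableWithinAt, by simp, h3⟩
    simpa using this
  · exact hg.congr_right (fun v hv => (hfd v hv).symm)

end Pool.Agent.Lib.MP_5d4057_al.HM
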