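import Pool.Agent.Lib.MP_5d4057_al.HM.Green
import Pool.Agent.Lib.MP_5d4057_al.HM.Mx
import Pool.Agent.Lib.MP_5d4057_al.HM.Kak

namespace Pool.Agent.Lib.MP_5d4057_al.HM

open Matrix MeasureTheory Filter Topology Pool.Agent.Lib.MP_5d4057_al Pool.Agent.Lib.MP_5d4057_al.Hyb

open scoped ComplexOrder MatrixOrder Matrix.Norms.L2Operator

variable {n m : ℕ} {E : Type} [NormedAddCommGroup E] [NormedSpace ℝ E] [CompleteSpace E]

/-- The square `tr (X^* B⁻¹ X A⁻¹)` for `X = D(B A)[ξ]`. -/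
noncomputable def sqd (B A : Vec n → Mat m) (v ξ : Vec n) : ℝ :=
  ((fderiv ℝ (fun w => B w * A w) v ξ)ᴴ * (B v)⁻¹ * fderiv ℝ (fun w => B w * A w) v ξ *
    (A v)⁻¹).trace.re

/-- The sum of these squares over a frame. -/
noncomputable def sqs (B A : Vec n → Mat m) (g : SUGroup n) : ℝ :=
  ∑ j : Fin n, (sqd B A (act g (base n)) (act g (Pi.single j.castSucc 1)) +
    sqd B A (act g (base n)) (act g (Pi.single j.castSucc Complex.I)))

/-! ### Second derivatives of products -/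

namespace TrSub

section deriv

variable {R X Y : Type} [NormedRing R] [NormedAlgebra ℝ R] [NormedAddCommGroup X]
  [NormedSpace ℝ X] [NormedAddCommGroup Y] [NormedSpace ℝ Y]

theorem hasFDerivAt_two {f : X → Y} {v : X} (hf : ContDiffAt ℝ 2 f v) (ξ : X) :
    HasFDerivAt (fun u => fderiv ℝ f u ξ) ((fderiv ℝ (fderiv ℝ f) v).flip ξ) v := by
  have hD : DifferentiableAt ℝ (fderiv ℝ f) v :=
    (hf.fderiv_right (m := 1) (by norm_num)).differentiableAt (by norm_num)
  have h := hD.hasFDerivAt.clm_apply (hasFDerivAt_const ξ v)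
  rw [ContinuousLinearMap.comp_zero, zero_add] at h
  exact h

theorem fderiv_mul_apply {f g : X → R} {v : X} (hf : DifferentiableAt ℝ f v)
    (hg : DifferentiableAt ℝ g v) (ξ : X) :
    fderiv ℝ (fun u => f u * g u) v ξ = f v * fderiv ℝ g v ξ + fderiv ℝ f v ξ * g v := by
  have h := (hf.hasFDerivAt.fun_mul' hg.hasFDerivAt).fderiv
  rw [h]
  rfl

theorem fderiv_two_mul_apply {f g : X → R} {v : X} (hf : ContDiffAt ℝ 2 f v)
    (hg : ContDiffAt ℝ 2 g v) (ξ : X) :
    fderiv ℝ (fderiv ℝ (fun u => f u * g u)) v ξ ξ = f v * fderiv ℝ (fderiv ℝ g) v ξ ξ +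
      (fderiv ℝ f v ξ * fderiv ℝ g v ξ + fderiv ℝ f v ξ * fderiv ℝ g v ξ) +
      fderiv ℝ (fderiv ℝ f) v ξ ξ * g v := by
  have h1 := hasFDerivAt_two (hf.mul hg) ξ
  have hf1 := (hf.differentiableAt (by norm_num)).hasFDerivAt
  have hg1 := (hg.differentiableAt (by norm_num)).hasFDerivAt
  have h2 := (hf1.fun_mul' (hasFDerivAt_two hg ξ)).fun_add
    ((hasFDerivAt_two hf ξ).fun_mul' hg1)
  have hev : (fun u => fderiv ℝ (fun x => f x * g x) u ξ) =ᶠ[𝓝 v]
      fun u => f u * fderiv ℝ g u ξ + fderiv ℝ f u ξ * g u := by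
    filter_upwards [hf.eventually (by norm_num), hg.eventually (by norm_num)] with u hu1 hu2
    exact fderiv_mul_apply (hu1.differentiableAt (by norm_num))
      (hu2.differentiableAt (by norm_num)) ξ
  have h3 := h1.unique (h2.congr_of_eventuallyEq hev)
  have h4 := congrArg (fun T : X →L[ℝ] R => T ξ) h3
  have h5 : fderiv ℝ (fderiv ℝ (fun u => f u * g u)) v ξ ξ =
      ((fderiv ℝ (fderiv ℝ (fun u => f u * g u)) v).flip ξ) ξ := rfl
  rw [h5]
  rw [h4]
  change f v * fderiv ℝ (fderiv ℝ g) v ξ ξ + fderiv ℝ f v ξ * fderiv ℝ g v ξ +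
    (fderiv ℝ f v ξ * fderiv ℝ g v ξ + fderiv ℝ (fderiv ℝ f) v ξ ξ * g v) = _
  abel

theorem fderiv_two_clm (L : Y →L[ℝ] R) {f : X → Y} {v : X} (hf : ContDiffAt ℝ 2 f v) (ξ : X) :
    fderiv ℝ (fderiv ℝ (fun u => L (f u))) v ξ ξ = L (fderiv ℝ (fderiv ℝ f) v ξ ξ) := by
  have hLf : ContDiffAt ℝ 2 (fun u => L (f u)) v := L.contDiff.contDiffAt.comp v hf
  have h1 := hasFDerivAt_two hLf ξ
  have h2 := L.hasFDerivAt.comp v (hasFDerivAt_two hf ξ)
  have hev : (fun u => fderiv ℝ (fun u => L (f u)) u ξ) =ᶠ[𝓝 v]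
      (fun u => L (fderiv ℝ f u ξ)) := by
    filter_upwards [hf.eventually (by norm_num)] with u hu
    have h3 := (L.hasFDerivAt.comp u (hu.differentiableAt (by norm_num)).hasFDerivAt).fderiv
    have h4 : fderiv ℝ (fun u => L (f u)) u = L.comp (fderiv ℝ f u) := h3
    rw [h4]
    rfl
  have h3 := h1.unique (h2.congr_of_eventuallyEq hev)
  exact congrArg (fun T : X →L[ℝ] R => T ξ) h3

end deriv

/-- The real part of the trace. -/
noncomputable def trL (m : ℕ) : Mat m →L[ℝ] ℝ :=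
  (Complex.reLm.comp (Matrix.traceLinearMap (Fin m) ℝ ℂ)).toContinuousLinearMap

theorem trL_apply (X : Mat m) : trL m X = X.trace.re := rfl

omit [CompleteSpace E] in
theorem contDiffAt_cone {f : Vec n → E} (hf : ContDiffOn ℝ 2 f (Cone n)) {v : Vec n}
    (hv : v ∈ Cone n) : ContDiffAt ℝ 2 f v := hf.contDiffAt ((isOpen_cone n).mem_nhds hv)

/-- The derivative of a Hermitian matrix function is Hermitian. -/
theorem fderiv_herm {A : Vec n → Mat m} (hA2 : ContDiffOn ℝ 2 A (Cone n))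
    (hAp : ∀ v ∈ Cone n, (A v).PosDef) {v : Vec n} (hv : v ∈ Cone n) (ξ : Vec n) :
    (fderiv ℝ A v ξ)ᴴ = fderiv ℝ A v ξ := by
  have h1 := ((contDiffAt_cone hA2 hv).differentiableAt (by norm_num)).hasFDerivAt
  have h2 := h1.star
  have hev : A =ᶠ[𝓝 v] fun u => star (A u) := by
    filter_upwards [(isOpen_cone n).mem_nhds hv] with u hu
    exact (hAp u hu).isHermitian.eq.symm
  have h3 := h1.unique (h2.congr_of_eventuallyEq hev)
  have h4 := congrArg (fun T : Vec n →L[ℝ] Mat m => T ξ) h3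
  conv_rhs => rw [h4]
  rfl

theorem sqd_nonneg {A B : Vec n → Mat m} (hAp : ∀ v ∈ Cone n, (A v).PosDef)
    (hBp : ∀ v ∈ Cone n, (B v).PosDef) {v : Vec n} (hv : v ∈ Cone n) (ξ : Vec n) :
    0 ≤ sqd B A v ξ := trace_square_nonneg (hAp v hv) (hBp v hv)

/-- The functional `X ↦ re tr (X A)`. -/
noncomputable def lR (A : Mat m) : Mat m →ₗ[ℝ] ℝ :=
  (trL m : Mat m →ₗ[ℝ] ℝ) ∘ₗ LinearMap.mulRight ℝ A

/-- The functional `X ↦ re tr (B X)`. -/
noncomputable def lL (B : Mat m) : Mat m →ₗ[ℝ] ℝ :=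
  (trL m : Mat m →ₗ[ℝ] ℝ) ∘ₗ LinearMap.mulLeft ℝ B

theorem lR_apply (A X : Mat m) : lR A X = (X * A).trace.re := rfl

theorem lL_apply (B X : Mat m) : lL B X = (B * X).trace.re := rfl

/-- The identity in one real direction. -/
theorem one_dir {A B : Vec n → Mat m} (hA2 : ContDiffOn ℝ 2 A (Cone n))
    (hB2 : ContDiffOn ℝ 2 B (Cone n)) (hAp : ∀ v ∈ Cone n, (A v).PosDef)
    (hBp : ∀ v ∈ Cone n, (B v).PosDef) {v : Vec n} (hv : v ∈ Cone n) (ξ : Vec n) :
    fderiv ℝ (fderiv ℝ (fun u => (B u * A u).trace.re)) v ξ ξ =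
      lR (A v) (fderiv ℝ (fderiv ℝ B) v ξ ξ -
        fderiv ℝ B v ξ * (B v)⁻¹ * fderiv ℝ B v ξ) +
      lL (B v) (fderiv ℝ (fderiv ℝ A) v ξ ξ -
        fderiv ℝ A v ξ * (A v)⁻¹ * fderiv ℝ A v ξ) + sqd B A v ξ := by
  have hAv := contDiffAt_cone hA2 hv
  have hBv := contDiffAt_cone hB2 hv
  have h1 : fderiv ℝ (fderiv ℝ (fun u => (B u * A u).trace.re)) v ξ ξ =
      trL m (fderiv ℝ (fderiv ℝ (fun u => B u * A u)) v ξ ξ) :=
    fderiv_two_clm (trL m) (hBv.mul hAv) ξ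
  rw [h1, fderiv_two_mul_apply hBv hAv, lR_apply, lL_apply, trL_apply]
  have ha := fderiv_herm hA2 hAp hv ξ
  have hb := fderiv_herm hB2 hBp hv ξ
  have h2 : fderiv ℝ (fun u => B u * A u) v ξ =
      (fderiv ℝ B v ξ)ᴴ * A v + B v * (fderiv ℝ A v ξ)ᴴ := by
    rw [fderiv_mul_apply (hBv.differentiableAt (by norm_num))
      (hAv.differentiableAt (by norm_num)), ha, hb, add_comm]
  have h3 := trace_square (a := fderiv ℝ A v ξ) (b := fderiv ℝ B v ξ) (hAp v hv) (hBp v hv)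
  rw [sqd, h2, ← h3, ha, hb]
  have h4 : (fderiv ℝ A v ξ * fderiv ℝ B v ξ).trace = (fderiv ℝ B v ξ * fderiv ℝ A v ξ).trace :=
    trace_mul_comm _ _
  have h5 : (B v * fderiv ℝ A v ξ * (A v)⁻¹ * fderiv ℝ A v ξ).trace =
      (B v * (fderiv ℝ A v ξ * (A v)⁻¹ * fderiv ℝ A v ξ)).trace := by
    simp only [Matrix.mul_assoc]
  rw [h4, h5]
  simp only [Matrix.sub_mul, Matrix.mul_sub, trace_add, trace_sub, Complex.add_re, Complex.sub_re]
  ring

/-- Positive definite matrices are bounded by a multiple of the identity. -/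
theorem le_smul_of_le {A : Mat m} {c : ℝ} (hA : A.PosDef) (hc : A.trace.re ≤ c) :
    A ≤ (c : ℂ) • (1 : Mat m) := by
  refine (le_trace_smul_one hA.posSemidef).trans ?_
  rw [Matrix.le_iff, ← sub_smul, ← Complex.ofReal_sub, smul_one_eq_diagonal]
  refine PosSemidef.diagonal fun i => ?_
  rw [Pi.zero_apply, Complex.zero_le_real, sub_nonneg]
  exact hc

theorem trace_re_nonneg {A : Mat m} (hA : A.PosDef) : 0 ≤ A.trace.re :=
  (Complex.le_def.1 hA.posSemidef.trace_nonneg).1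

/-- The square is definite. -/
theorem eq_zero_of_sqd {A B X : Mat m} (hA : A.PosDef) (hB : B.PosDef)
    (h : (Xᴴ * B⁻¹ * X * A⁻¹).trace.re ≤ 0) : X = 0 := by
  have hc : 0 < A.trace.re + B.trace.re + 1 := by
    linarith [trace_re_nonneg hA, trace_re_nonneg hB]
  have h1 := trace_square_ge (X := X) hc hA hB
    (le_smul_of_le hA (by linarith [trace_re_nonneg hB]))
    (le_smul_of_le hB (by linarith [trace_re_nonneg hA]))
  have h2 : (Xᴴ * X).trace.re ≤ 0 := by
    have h3 : 0 < ((A.trace.re + B.trace.re + 1) ^ 2)⁻¹ := by positivity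
    by_contra h4
    rw [not_le] at h4
    have := mul_pos h3 h4
    linarith
  have h3 : 0 ≤ (Xᴴ * X).trace := (posSemidef_conjTranspose_mul_self X).trace_nonneg
  have h4 : (Xᴴ * X).trace = 0 := by
    apply Complex.ext
    · rw [Complex.zero_re]
      exact le_antisymm h2 (Complex.le_def.1 h3).1
    · exact (Complex.le_def.1 h3).2.symm
  exact trace_conjTranspose_mul_self_eq_zero_iff.1 h4

/-- The inverse is `C²`. -/
theorem contDiffAt_inv {F : Vec n → Mat m} (hF2 : ContDiffOn ℝ 2 F (Cone n))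
    (hFp : ∀ v ∈ Cone n, (F v).PosDef) {v : Vec n} (hv : v ∈ Cone n) :
    ContDiffAt ℝ 2 (fun w => (F w)⁻¹) v := by
  obtain ⟨u, hu⟩ := (hFp v hv).isUnit
  have h1 : ContDiffAt ℝ 2 (Ring.inverse : Mat m → Mat m) (F v) := by
    rw [← hu]
    exact contDiffAt_ringInverse ℝ u
  have h2 := h1.comp v (contDiffAt_cone hF2 hv)
  have h3 : (fun w => (F w)⁻¹) = Ring.inverse ∘ F := by
    funext w
    rw [Function.comp_apply, nonsing_inv_eq_ringInverse]
  rw [h3]
  exact h2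

/-- The derivatives of the inverse. -/
theorem fderiv_inv {F : Vec n → Mat m} (hF2 : ContDiffOn ℝ 2 F (Cone n))
    (hFp : ∀ v ∈ Cone n, (F v).PosDef) {v : Vec n} (hv : v ∈ Cone n) (ξ : Vec n) :
    fderiv ℝ (fun w => (F w)⁻¹) v ξ = -((F v)⁻¹ * fderiv ℝ F v ξ * (F v)⁻¹) ∧
    fderiv ℝ (fderiv ℝ (fun w => (F w)⁻¹)) v ξ ξ =
      2 • ((F v)⁻¹ * (fderiv ℝ F v ξ * (F v)⁻¹ * fderiv ℝ F v ξ) * (F v)⁻¹) -
        (F v)⁻¹ * fderiv ℝ (fderiv ℝ F) v ξ ξ * (F v)⁻¹ := by
  have hF := contDiffAt_cone hF2 hv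
  have hG := contDiffAt_inv hF2 hFp hv
  have huF : IsUnit (F v).det := (isUnit_iff_isUnit_det _).1 (hFp v hv).isUnit
  have hev : (fun w => F w * (F w)⁻¹) =ᶠ[𝓝 v] fun _ => (1 : Mat m) := by
    filter_upwards [(isOpen_cone n).mem_nhds hv] with u hu
    exact mul_nonsing_inv _ ((isUnit_iff_isUnit_det _).1 (hFp u hu).isUnit)
  have h1 : fderiv ℝ (fun w => F w * (F w)⁻¹) v = 0 := by
    rw [hev.fderiv_eq]
    exact fderiv_const_apply _
  have h2 : fderiv ℝ (fderiv ℝ (fun w => F w * (F w)⁻¹)) v = 0 := by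
    have hev2 : fderiv ℝ (fun w => F w * (F w)⁻¹) =ᶠ[𝓝 v] fun _ => 0 := by
      refine hev.fderiv.trans ?_
      filter_upwards with u
      exact fderiv_const_apply _
    rw [hev2.fderiv_eq]
    exact fderiv_const_apply _
  have h3 := congrArg (fun T : Vec n →L[ℝ] Mat m => T ξ) h1
  have h4 := congrArg (fun T : Vec n →L[ℝ] Vec n →L[ℝ] Mat m => T ξ ξ) h2
  have h5 := fderiv_mul_apply (hF.differentiableAt (by norm_num))
    (hG.differentiableAt (by norm_num)) ξ
  have h6 := fderiv_two_mul_apply hF hG ξ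
  have h7 : F v * fderiv ℝ (fun w => (F w)⁻¹) v ξ + fderiv ℝ F v ξ * (F v)⁻¹ = 0 := by
    rw [← h5]
    exact h3
  have h8 : F v * fderiv ℝ (fderiv ℝ (fun w => (F w)⁻¹)) v ξ ξ +
      (fderiv ℝ F v ξ * fderiv ℝ (fun w => (F w)⁻¹) v ξ +
        fderiv ℝ F v ξ * fderiv ℝ (fun w => (F w)⁻¹) v ξ) +
      fderiv ℝ (fderiv ℝ F) v ξ ξ * (F v)⁻¹ = 0 := by
    rw [← h6]
    exact h4
  have hinv : ∀ Z : Mat m, (F v)⁻¹ * (F v * Z) = Z := fun Z => by
    rw [← Matrix.mul_assoc, nonsing_inv_mul _ huF, Matrix.one_mul]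
  have h9 : fderiv ℝ (fun w => (F w)⁻¹) v ξ = -((F v)⁻¹ * fderiv ℝ F v ξ * (F v)⁻¹) := by
    have h10 := congrArg (fun Z => (F v)⁻¹ * Z) h7
    simp only [Matrix.mul_add, hinv, Matrix.mul_zero] at h10
    rw [Matrix.mul_assoc]
    exact eq_neg_of_add_eq_zero_left h10
  refine ⟨h9, ?_⟩
  rw [h9] at h8
  have h10 := congrArg (fun Z => (F v)⁻¹ * Z) h8
  simp only [Matrix.mul_add, hinv, Matrix.mul_zero, Matrix.mul_neg] at h10
  have h11 : fderiv ℝ (fderiv ℝ (fun w => (F w)⁻¹)) v ξ ξ =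
      (F v)⁻¹ * (fderiv ℝ F v ξ * ((F v)⁻¹ * fderiv ℝ F v ξ * (F v)⁻¹)) +
      (F v)⁻¹ * (fderiv ℝ F v ξ * ((F v)⁻¹ * fderiv ℝ F v ξ * (F v)⁻¹)) -
      (F v)⁻¹ * (fderiv ℝ (fderiv ℝ F) v ξ ξ * (F v)⁻¹) := by
    rw [← sub_eq_zero, ← h10]
    abel
  rw [h11, two_smul]
  simp only [Matrix.mul_assoc]

end TrSub

open TrSub

/-- The identity (blueprint E4, in real directions): by the product rule, `en_frame`, `lap_frame` and
`trace_square` (`a`, `b` Hermitian):
`Lap tr(BA) = tr((Lap B - e B) A) + tr(B (Lap A - e A)) + (1/4) sqs`. -/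
theorem lap_trace {A B : Vec n → Mat m} (hA : Homog A) (hB : Homog B)
    (hA2 : ContDiffOn ℝ 2 A (Cone n)) (hB2 : ContDiffOn ℝ 2 B (Cone n))
    (hAp : ∀ v ∈ Cone n, (A v).PosDef) (hBp : ∀ v ∈ Cone n, (B v).PosDef) (g : SUGroup n) :
    Lap (fun v => (B v * A v).trace.re) (act g (base n)) =
      (((Lap B (act g (base n)) - en B (act g (base n))) * A (act g (base n))).trace +
        (B (act g (base n)) * (Lap A (act g (base n)) - en A (act g (base n)))).trace).re +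
      1 / 4 * sqs B A g := by
  have hv := orbit_mem g
  have hAv := contDiffAt_cone hA2 hv
  have hBv := contDiffAt_cone hB2 hv
  have hf : Homog (fun v => (B v * A v).trace.re) := by
    intro c hc v hv
    simp only [hA c hc v hv, hB c hc v hv]
  have hfc : ContDiffAt ℝ 2 (fun v => (B v * A v).trace.re) (act g (base n)) :=
    (trL m).contDiff.contDiffAt.comp _ (hBv.mul hAv)
  rw [lap_frame hf g hfc]
  simp only [one_dir hA2 hB2 hAp hBp hv]
  rw [Complex.add_re, ← lR_apply, ← lL_apply, lap_frame hB g hBv, lap_frame hA g hAv,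
    en_frame hB g (hBv.differentiableAt (by norm_num)),
    en_frame hA g (hAv.differentiableAt (by norm_num)), sqs]
  rw [← smul_sub, ← smul_sub, ← Finset.sum_sub_distrib, ← Finset.sum_sub_distrib, map_smul,
    map_smul, map_sum, map_sum, smul_eq_mul, smul_eq_mul, smul_eq_mul, ← mul_add, ← mul_add,
    ← Finset.sum_add_distrib, ← Finset.sum_add_distrib]
  congr 1
  refine Finset.sum_congr rfl fun j _ => ?_
  simp only [map_sub, map_add]
  ring

theorem sqs_nonneg {A B : Vec n → Mat m} (hAp : ∀ v ∈ Cone n, (A v).PosDef)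
    (hBp : ∀ v ∈ Cone n, (B v).PosDef) (g : SUGroup n) : 0 ≤ sqs B A g :=
  Finset.sum_nonneg fun _ _ => add_nonneg (sqd_nonneg hAp hBp (orbit_mem g) _)
    (sqd_nonneg hAp hBp (orbit_mem g) _)

/-- If `sqs B A g = 0` then the derivative of `B A` vanishes at `g e_n` (it is homogeneous). -/
theorem fderiv_eq_zero_of_sqs {A B : Vec n → Mat m} (hA : Homog A) (hB : Homog B)
    (hA2 : ContDiffOn ℝ 2 A (Cone n)) (hB2 : ContDiffOn ℝ 2 B (Cone n))
    (hAp : ∀ v ∈ Cone n, (A v).PosDef) (hBp : ∀ v ∈ Cone n, (B v).PosDef) (g : SUGroup n)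
    (h : sqs B A g = 0) : fderiv ℝ (fun w => B w * A w) (act g (base n)) = 0 := by
  have hv := orbit_mem g
  have hAv := contDiffAt_cone hA2 hv
  have hBv := contDiffAt_cone hB2 hv
  have hf : Homog (fun v => B v * A v) := by
    intro c hc v hv
    simp only [hA c hc v hv, hB c hc v hv]
  have hfd : DifferentiableAt ℝ (fun v => B v * A v) (act g (base n)) :=
    (hBv.mul hAv).differentiableAt (by norm_num)
  -- the frame directions
  have h1 : ∀ j : Fin n,
      sqd B A (act g (base n)) (act g (Pi.single j.castSucc 1)) = 0 ∧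
      sqd B A (act g (base n)) (act g (Pi.single j.castSucc Complex.I)) = 0 := by
    intro j
    have h2 := (Finset.sum_eq_zero_iff_of_nonneg (fun j _ =>
      add_nonneg (sqd_nonneg hAp hBp hv _) (sqd_nonneg hAp hBp hv _))).1 h j (Finset.mem_univ j)
    have h3 := sqd_nonneg hAp hBp hv (act g (Pi.single j.castSucc 1))
    have h4 := sqd_nonneg hAp hBp hv (act g (Pi.single j.castSucc Complex.I))
    constructor <;> linarith
  have h2 : ∀ ξ, sqd B A (act g (base n)) ξ = 0 →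
      fderiv ℝ (fun w => B w * A w) (act g (base n)) ξ = 0 := fun ξ hξ =>
    eq_zero_of_sqd (hAp _ hv) (hBp _ hv) hξ.le
  -- all coordinates
  have h3 : ∀ (i : Fin (n + 1)) (c : ℂ),
      fderiv ℝ (fun w => B w * A w) (act g (base n)) (act g (Pi.single i c)) = 0 := by
    intro i c
    refine Fin.lastCases ?_ (fun j => ?_) i
    · have h4 : act g (Pi.single (Fin.last n) c) = c • act g (base n) := by
        rw [← act_smul, base, ← Pi.single_smul, smul_eq_mul, mul_one]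
      rw [h4]
      exact homog_fderiv hf hv hfd c
    · have h4 : act g (Pi.single j.castSucc c) = c.re • act g (Pi.single j.castSucc 1) +
          c.im • act g (Pi.single j.castSucc Complex.I) := by
        have h5 : ∀ (r : ℝ) (w : Vec n), r • act g w = act g (r • w) := by
          intro r w
          unfold act
          rw [mulVec_smul]
        rw [h5, h5, ← act_add, ← Pi.single_smul, ← Pi.single_smul, ← Pi.single_add]
        congr 2
        rw [Complex.real_smul, Complex.real_smul, mul_one, Complex.re_add_im]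
      rw [h4, map_add, map_smul, map_smul, h2 _ (h1 j).1, h2 _ (h1 j).2, smul_zero, smul_zero,
        add_zero]
  ext1 w
  have h4 : w = act g (act g⁻¹ w) := by
    rw [← act_mul, mul_inv_cancel, act_one]
  have h5 : act g (act g⁻¹ w) = ∑ i, act g (Pi.single i (act g⁻¹ w i)) := by
    have h6 : act g⁻¹ w = ∑ i, Pi.single i (act g⁻¹ w i) :=
      (Finset.univ_sum_single (act g⁻¹ w)).symm
    conv_lhs => rw [h6]
    unfold act
    rw [mulVec_sum]
  rw [h4, h5, map_sum]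
  exact Finset.sum_eq_zero fun i _ => h3 i _

/-- Subharmonicity. -/
theorem lap_trace_nonneg {A B : Vec n → Mat m} (hA : Homog A) (hB : Homog B)
    (hA2 : ContDiffOn ℝ 2 A (Cone n)) (hB2 : ContDiffOn ℝ 2 B (Cone n))
    (hAp : ∀ v ∈ Cone n, (A v).PosDef) (hBp : ∀ v ∈ Cone n, (B v).PosDef)
    (hA' : ∀ v ∈ Cone n, en A v ≤ Lap A v) (hB' : ∀ v ∈ Cone n, en B v ≤ Lap B v) :
    ∀ v ∈ Cone n, 0 ≤ Lap (fun v => (B v * A v).trace.re) v := by
  intro v hv
  obtain ⟨g, c, hc, rfl⟩ := exists_act_eq hv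
  have hf : Homog (fun v => (B v * A v).trace.re) := by
    intro c hc v hv
    simp only [hA c hc v hv, hB c hc v hv]
  have hfc : ContDiffOn ℝ 2 (fun v => (B v * A v).trace.re) (Cone n) :=
    (trL m).contDiff.comp_contDiffOn (hB2.mul hA2)
  have hu := orbit_mem g
  rw [homog_lap hf hfc c hc _ hu, lap_trace hA hB hA2 hB2 hAp hBp g, Complex.add_re]
  have h1 := trace_mul_nonneg (Matrix.le_iff.1 (hB' _ hu)) (hAp _ hu).posSemidef
  have h2 := trace_mul_nonneg (hBp _ hu).posSemidef (Matrix.le_iff.1 (hA' _ hu))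
  have h3 := sqs_nonneg hAp hBp g
  positivity

/-- The inverse of a harmonic metric is harmonic. -/
theorem lap_inv {F : Vec n → Mat m} (hF : Homog F) (hF2 : ContDiffOn ℝ 2 F (Cone n))
    (hFp : ∀ v ∈ Cone n, (F v).PosDef) (h : ∀ v ∈ Cone n, Lap F v = en F v) :
    ∀ v ∈ Cone n, Lap (fun w => (F w)⁻¹) v = en (fun w => (F w)⁻¹) v := by
  intro v hv
  have huF : IsUnit (F v).det := (isUnit_iff_isUnit_det _).1 (hFp v hv).isUnit
  let T : Mat m →ₗ[ℝ] Mat m := LinearMap.mulRight ℝ (F v)⁻¹ ∘ₗ LinearMap.mulLeft ℝ (F v)⁻¹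
  have hT : ∀ X, (F v)⁻¹ * X * (F v)⁻¹ = T X := fun X => rfl
  have h1 : Lap (fun w => (F w)⁻¹) v = 2 • T (en F v) - T (Lap F v) := by
    rw [Lap, Lap, en]
    simp only [(fderiv_inv hF2 hFp hv _).2, hT]
    rw [map_smul, map_smul, map_sum, map_sum, smul_comm (2 : ℕ), ← smul_sub]
    congr 1
    rw [Finset.smul_sum, ← Finset.sum_sub_distrib]
    refine Finset.sum_congr rfl fun i _ => ?_
    rw [map_smul, map_smul, map_add, map_add, smul_comm (2 : ℕ), ← smul_sub]
    congr 1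
    simp only [two_smul]
    abel
  have h2 : en (fun w => (F w)⁻¹) v = T (en F v) := by
    rw [en, en]
    simp only [(fderiv_inv hF2 hFp hv _).1]
    have h3 : ∀ X : Mat m, -((F v)⁻¹ * X * (F v)⁻¹) * (F v)⁻¹⁻¹ * -((F v)⁻¹ * X * (F v)⁻¹) =
        T (X * (F v)⁻¹ * X) := by
      intro X
      rw [← hT, nonsing_inv_nonsing_inv _ huF]
      have h4 : (F v)⁻¹ * (F v * ((F v)⁻¹ * (X * (F v)⁻¹))) = (F v)⁻¹ * (X * (F v)⁻¹) := by
        rw [← Matrix.mul_assoc (F v), mul_nonsing_inv _ huF, Matrix.one_mul]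
      simp only [Matrix.neg_mul, Matrix.mul_neg, neg_neg, Matrix.mul_assoc, h4]
    simp only [h3]
    rw [map_smul, map_sum]
    congr 1
    refine Finset.sum_congr rfl fun i _ => ?_
    rw [map_smul, map_add]
  rw [h1, h2, h v hv, two_smul, add_sub_cancel_right]

end Pool.Agent.Lib.MP_5d4057_al.HM
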