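import Pool.Agent.Lib.MP_5d4057_al.HM.Lav
import Pool.Agent.Lib.MP_5d4057_al.HM.TrSub
import Pool.Agent.Lib.MP_5d4057_al.HM.Grad
import Pool.Agent.Lib.MP_5d4057_al.HM.AA
import Pool.Agent.Lib.MP_5d4057_al.HM.RegAx

namespace Pool.Agent.Lib.MP_5d4057_al.HM

open Matrix MeasureTheory Filter Topology Pool.Agent.Lib.MP_5d4057_al Pool.Agent.Lib.MP_5d4057_al.Hyb

open scoped ComplexOrder MatrixOrder Matrix.Norms.L2Operator

variable {n m : ℕ} {E : Type} [NormedAddCommGroup E] [NormedSpace ℝ E] [CompleteSpace E]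

/-- A Lipschitz metric all left averages of which are strongly subharmonic, and the same for the
inverse (blueprint E7: input). -/
structure LipMet (n m N : ℕ) (C : ℝ) (F : Vec n → Mat m) : Prop where
  hom : Homog F
  cont : ContinuousOn F (Cone n)
  pos : ∀ v ∈ Cone n, (F v).PosDef
  adm : Adm N C F
  admInv : Adm N C fun v => (F v)⁻¹
  lip : ∀ a g : SUGroup n, ‖a.toMatrix - 1‖ ≤ 1 →
    ‖F (act (a * g) (base n)) - F (act g (base n))‖ ≤ C * ‖a.toMatrix - 1‖ * ch g ^ (2 * N)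
  sub : ∀ Φ : Mat (n + 1) → ℝ, Test n Φ → 0 < ∫ a : SUGroup n, Φ a.toMatrix ∂(mu n) →
    ∀ v ∈ Cone n, en (lav Φ F) v ≤ Lap (lav Φ F) v
  sub' : ∀ Φ : Mat (n + 1) → ℝ, Test n Φ → 0 < ∫ a : SUGroup n, Φ a.toMatrix ∂(mu n) →
    ∀ v ∈ Cone n, en (lav Φ fun w => (F w)⁻¹) v ≤ Lap (lav Φ fun w => (F w)⁻¹) v

/-- `Φ` is a mollifier of size `δ`. -/
structure Moll (n : ℕ) (δ : ℝ) (Φ : Mat (n + 1) → ℝ) : Prop where
  test : Test n Φ
  int : ∫ a : SUGroup n, Φ a.toMatrix ∂(mu n) = 1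
  small : ∀ A, δ < ‖A - 1‖ → Φ A = 0

private theorem mo_of {δ : ℝ} (hδ : δ ≤ 1) {Φ : Mat (n + 1) → ℝ} (h : Moll n δ Φ) : Ax.Mo n Φ :=
  ⟨h.test, h.int, fun A hA => h.small A (hδ.trans_lt hA)⟩

private theorem moll_mono {δ δ' : ℝ} (hδ : δ ≤ δ') {Φ : Mat (n + 1) → ℝ} (h : Moll n δ Φ) :
    Moll n δ' Φ :=
  ⟨h.test, h.int, fun A hA => h.small A (hδ.trans_lt hA)⟩

private theorem lip_inv {N : ℕ} {C : ℝ} {F : Vec n → Mat m} (hF : LipMet n m N C F)
    (a g : SUGroup n) (ha : ‖a.toMatrix - 1‖ ≤ 1) :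
    ‖(F (act (a * g) (base n)))⁻¹ - (F (act g (base n)))⁻¹‖ ≤
      (C ^ 3 * 4 ^ (2 * N)) * ‖a.toMatrix - 1‖ * ch g ^ (2 * (3 * N)) := by
  have hC := Ax.adm_nonneg hF.adm
  have hg := Ax.ch_pos0 g
  have h1 := hF.admInv.bound (a * g)
  have h2 := hF.admInv.bound g
  have h3 := hF.lip a g ha
  have h4 : ch (a * g) ^ (2 * N) ≤ 4 ^ (2 * N) * ch g ^ (2 * N) := by
    rw [← mul_pow]
    exact pow_le_pow_left₀ (Ax.ch_pos0 _).le (Ax.ch_mul_le_four ha g) _
  have hu1 : IsUnit (F (act (a * g) (base n))).det :=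
    (isUnit_iff_isUnit_det _).1 (hF.pos _ (orbit_mem _)).isUnit
  have hu2 : IsUnit (F (act g (base n))).det :=
    (isUnit_iff_isUnit_det _).1 (hF.pos _ (orbit_mem _)).isUnit
  have e : (F (act (a * g) (base n)))⁻¹ - (F (act g (base n)))⁻¹ =
      (F (act (a * g) (base n)))⁻¹ * (F (act g (base n)) - F (act (a * g) (base n))) *
        (F (act g (base n)))⁻¹ := by
    rw [mul_sub, sub_mul, nonsing_inv_mul _ hu1, one_mul, mul_assoc, mul_nonsing_inv _ hu2,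
      mul_one]
  rw [norm_sub_rev] at h3
  rw [e]
  calc _ ≤ ‖(F (act (a * g) (base n)))⁻¹‖ * ‖F (act g (base n)) - F (act (a * g) (base n))‖ *
        ‖(F (act g (base n)))⁻¹‖ :=
        (norm_mul_le _ _).trans (mul_le_mul_of_nonneg_right (norm_mul_le _ _) (norm_nonneg _))
    _ ≤ (C * (4 ^ (2 * N) * ch g ^ (2 * N))) * (C * ‖a.toMatrix - 1‖ * ch g ^ (2 * N)) *
        (C * ch g ^ (2 * N)) := by
        have h5 := h1.trans (mul_le_mul_of_nonneg_left h4 hC)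
        gcongr
    _ = _ := by
        rw [show 2 * (3 * N) = 2 * N + 2 * N + 2 * N by ring, pow_add, pow_add]
        ring

private theorem cd_of_top {f : Vec n → E} (hf : ContDiffOn ℝ (⊤ : ℕ∞) f (Cone n)) {k : ℕ} :
    ContDiffOn ℝ k f (Cone n) :=
  hf.of_le (by exact_mod_cast le_top)

private theorem lav_cd {Φ : Mat (n + 1) → ℝ} (hΦ : Test n Φ) {N : ℕ} {C : ℝ} {F : Vec n → E}
    (hF : Adm N C F) {k : ℕ} : ContDiffOn ℝ k (lav Φ F) (Cone n) :=
  (lav_contDiffOn hΦ hF).of_le (by exact_mod_cast le_top)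

/-- The first derivatives and the energies of the left averages of a Lipschitz metric are bounded, uniformly over
all mollifiers of size at most one: `g b(t) e_n = (g b(t) g⁻¹) g e_n` and `‖g b(t) g⁻¹ - 1‖ ≤ C ch(g)² |t|`. -/
theorem lip_bound {N : ℕ} {C : ℝ} {F : Vec n → Mat m} (hF : LipMet n m N C F) :
    ∃ (N' : ℕ) (C' : ℝ), ∀ Φ : Mat (n + 1) → ℝ, Moll n 1 Φ → ∀ g : SUGroup n,
      ‖fderiv ℝ (lav Φ F) (act g (base n))‖ ≤ C' * ch g ^ (2 * N') ∧
      ‖fderiv ℝ (lav Φ fun w => (F w)⁻¹) (act g (base n))‖ ≤ C' * ch g ^ (2 * N') ∧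
      ‖en (lav Φ F) (act g (base n))‖ ≤ C' * ch g ^ (2 * N') := by
  have hC := Ax.adm_nonneg hF.adm
  set C₁ : ℝ := 4 * (n + 1) ^ 2 * (C * ((2 * (n + 1)) ^ 2 * 4 ^ 2 * 3) * 4 ^ (2 * N)) with hC₁
  set C₂ : ℝ := 4 * (n + 1) ^ 2 * ((C ^ 3 * 4 ^ (2 * N)) * ((2 * (n + 1)) ^ 2 * 4 ^ 2 * 3) *
    4 ^ (2 * (3 * N))) with hC₂
  set C₃ : ℝ := (n + 1) * (C₁ * (C * 4 ^ (2 * N)) * C₁) with hC₃
  have h1 : 0 ≤ C₁ := by positivity
  have h2 : 0 ≤ C₂ := by positivity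
  have h3 : 0 ≤ C₃ := by positivity
  refine ⟨3 * N + 4, C₁ + C₂ + C₃, fun Φ hΦ g => ?_⟩
  have hM := mo_of le_rfl hΦ
  have hg := Ax.ch_pos0 g
  have e1 := Ax.fderiv_lav_le hM hF.hom hF.cont hF.adm hC hF.lip g
  have e2 := Ax.fderiv_lav_le hM (Ax.homog_inv_mat hF.hom) (Ax.continuousOn_inv_mat hF.cont hF.pos)
    hF.admInv (C := C ^ 3 * 4 ^ (2 * N)) (N := 3 * N) (by positivity) (lip_inv hF) g
  have e3 := Ax.norm_en_le (lav Φ F) g e1
    (Ax.norm_inv_lav hM hF.hom hF.cont hF.pos hF.adm hF.admInv g)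
  have hp1 : ch g ^ (2 * (N + 2)) ≤ ch g ^ (2 * (3 * N + 4)) := Ax.pow_ch_mono g (by omega)
  have hp2 : ch g ^ (2 * (3 * N + 2)) ≤ ch g ^ (2 * (3 * N + 4)) := Ax.pow_ch_mono g (by omega)
  have hp : 0 ≤ ch g ^ (2 * (3 * N + 4)) := by positivity
  refine ⟨?_, ?_, ?_⟩
  · refine e1.trans ?_
    calc _ ≤ C₁ * ch g ^ (2 * (3 * N + 4)) := mul_le_mul_of_nonneg_left hp1 h1
      _ ≤ _ := mul_le_mul_of_nonneg_right (by linarith) hp
  · refine e2.trans ?_
    calc _ ≤ C₂ * ch g ^ (2 * (3 * N + 4)) := mul_le_mul_of_nonneg_left hp2 h2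
      _ ≤ _ := mul_le_mul_of_nonneg_right (by linarith) hp
  · refine e3.trans ?_
    calc _ = C₃ * ch g ^ (2 * (3 * N + 4)) := by
          rw [hC₃, show 2 * (3 * N + 4) = 2 * (N + 2) + 2 * N + 2 * (N + 2) by ring, pow_add,
            pow_add]
          ring
      _ ≤ _ := mul_le_mul_of_nonneg_right (by linarith) hp

private theorem moll_pos {δ : ℝ} {Φ : Mat (n + 1) → ℝ} (h : Moll n δ Φ) :
    0 < ∫ a : SUGroup n, Φ a.toMatrix ∂(mu n) := by
  rw [h.int]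
  exact one_pos

private theorem defect_le {N : ℕ} {C : ℝ} {F : Vec n → Mat m} (hF : LipMet n m N C F) {δ : ℝ}
    {Φ : Mat (n + 1) → ℝ} (hΦ : Moll n δ Φ) {K : ℝ} (hK : 0 < K) (g : SUGroup n)
    (hKg : ‖(lav Φ (fun w => (F w)⁻¹) (act g (base n)))⁻¹‖ ≤ K) :
    ‖Lap (lav Φ F) (act g (base n)) - en (lav Φ F) (act g (base n))‖ ≤
      K * Lap (fun v => (lav Φ (fun w => (F w)⁻¹) v * lav Φ F v).trace.re) (act g (base n)) := by
  have hA : Homog (lav Φ F) := lav_homog Φ F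
  have hB : Homog (lav Φ fun w => (F w)⁻¹) := lav_homog Φ _
  have hA2 : ContDiffOn ℝ 2 (lav Φ F) (Cone n) := lav_cd hΦ.test hF.adm
  have hB2 : ContDiffOn ℝ 2 (lav Φ fun w => (F w)⁻¹) (Cone n) := lav_cd hΦ.test hF.admInv
  have hAp : ∀ v ∈ Cone n, (lav Φ F v).PosDef := fun v hv =>
    lav_posDef hΦ.test (moll_pos hΦ) hF.adm hF.pos hv
  have hBp : ∀ v ∈ Cone n, (lav Φ (fun w => (F w)⁻¹) v).PosDef := fun v hv =>
    lav_posDef hΦ.test (moll_pos hΦ) hF.admInv (fun v hv => (hF.pos v hv).inv) hv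
  have hg := orbit_mem g
  have h1 := hF.sub Φ hΦ.test (moll_pos hΦ) _ hg
  have h2 := hF.sub' Φ hΦ.test (moll_pos hΦ) _ hg
  have hD := Matrix.le_iff.1 h1
  have hD' := Matrix.le_iff.1 h2
  rw [lap_trace hA hB hA2 hB2 hAp hBp g]
  have h3 := sqs_nonneg (A := lav Φ F) (B := lav Φ fun w => (F w)⁻¹) hAp hBp g
  have h4 := trace_mul_nonneg hD' (hAp _ hg).posSemidef
  have h5 := le_trace_mul hD (Ax.lower_of_inv (hBp _ hg) hK hKg)
  have h6 := norm_le_trace hD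
  rw [Complex.add_re]
  set X := Lap (lav Φ F) (act g (base n)) - en (lav Φ F) (act g (base n))
  have h7 : K⁻¹ * ‖X‖ ≤ K⁻¹ * X.trace.re := mul_le_mul_of_nonneg_left h6 (inv_nonneg.2 hK.le)
  have h8 : ‖X‖ = K * (K⁻¹ * ‖X‖) := by
    rw [← mul_assoc, mul_inv_cancel₀ hK.ne', one_mul]
  rw [h8]
  refine mul_le_mul_of_nonneg_left ?_ hK.le
  linarith

private theorem trace_close {N : ℕ} {C : ℝ} {F : Vec n → Mat m} (hF : LipMet n m N C F)
    (T : ℝ) {ε : ℝ} (hε : 0 < ε) : ∃ δ > 0, ∀ Φ : Mat (n + 1) → ℝ, Moll n δ Φ →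
      ∀ g : SUGroup n, ch g ≤ T →
        |(lav Φ (fun w => (F w)⁻¹) (act g (base n)) * lav Φ F (act g (base n))).trace.re - m| ≤
          ε := by
  have hC := Ax.adm_nonneg hF.adm
  set K : ℝ := C * 4 ^ (2 * N) * (max T 1) ^ (2 * N) with hK
  have hT0 : (0 : ℝ) ≤ max T 1 := le_trans zero_le_one (le_max_right _ _)
  have hK0 : 0 ≤ K := by positivity
  set ε₁ : ℝ := ε / (2 * ((m : ℝ) + 1) * (K + 1)) with hε₁
  have hε₁0 : 0 < ε₁ := by positivity
  obtain ⟨δ₁, hδ₁, h1⟩ := lav_approx hF.hom hF.cont T hε₁0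
  obtain ⟨δ₂, hδ₂, h2⟩ := lav_approx (Ax.homog_inv_mat hF.hom)
    (Ax.continuousOn_inv_mat hF.cont hF.pos) T hε₁0
  refine ⟨min 1 (min δ₁ δ₂), by positivity, fun Φ hΦ g hg => ?_⟩
  have hM := mo_of (min_le_left _ _) hΦ
  have hchT : ch g ^ (2 * N) ≤ (max T 1) ^ (2 * N) :=
    pow_le_pow_left₀ (Ax.ch_pos0 g).le (hg.trans (le_max_left _ _)) _
  have a1 := h1 Φ hΦ.test hΦ.int (fun A hA => hΦ.small A
    (((min_le_right _ _).trans (min_le_left _ _)).trans_lt hA)) g hg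
  have a2 := h2 Φ hΦ.test hΦ.int (fun A hA => hΦ.small A
    (((min_le_right _ _).trans (min_le_right _ _)).trans_lt hA)) g hg
  have b1 : ‖lav Φ F (act g (base n))‖ ≤ K := by
    refine (Ax.lav_bound hM hF.adm g).trans ?_
    rw [hK]
    exact mul_le_mul_of_nonneg_left hchT (by positivity)
  have b2 : ‖(F (act g (base n)))⁻¹‖ ≤ K := by
    refine (hF.admInv.bound g).trans ?_
    rw [hK, mul_assoc]
    refine mul_le_mul_of_nonneg_left ?_ hC
    refine hchT.trans ?_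
    refine le_mul_of_one_le_left (by positivity) (one_le_pow₀ (by norm_num))
  have hu2 : IsUnit (F (act g (base n))).det :=
    (isUnit_iff_isUnit_det _).1 (hF.pos _ (orbit_mem _)).isUnit
  set A := lav Φ F (act g (base n))
  set B := lav Φ (fun w => (F w)⁻¹) (act g (base n))
  have e : (B * A).trace.re - m = (B * A - (F (act g (base n)))⁻¹ * F (act g (base n))).trace.re := by
    rw [nonsing_inv_mul _ hu2, trace_sub, Complex.sub_re, trace_one, Fintype.card_fin,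
      Complex.natCast_re]
  rw [e]
  refine (Ax.abs_trace_le _).trans ?_
  have e2 : B * A - (F (act g (base n)))⁻¹ * F (act g (base n)) =
      (B - (F (act g (base n)))⁻¹) * A + (F (act g (base n)))⁻¹ * (A - F (act g (base n))) := by
    rw [sub_mul, mul_sub]
    abel
  have h3 : ‖B * A - (F (act g (base n)))⁻¹ * F (act g (base n))‖ ≤ ε₁ * K + K * ε₁ := by
    rw [e2]
    refine (norm_add_le _ _).trans (add_le_add ?_ ?_)
    · exact (norm_mul_le _ _).trans (mul_le_mul a2 b1 (norm_nonneg _) hε₁0.le)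
    · exact (norm_mul_le _ _).trans (mul_le_mul b2 a1 (norm_nonneg _) hK0)
  calc (m : ℝ) * _ ≤ ((m : ℝ) + 1) * (ε₁ * K + K * ε₁) :=
        mul_le_mul (by linarith) h3 (norm_nonneg _) (by positivity)
    _ = ε * (K / (K + 1)) := by
        rw [hε₁]
        field_simp
        ring
    _ ≤ ε * 1 := by
        refine mul_le_mul_of_nonneg_left ?_ hε.le
        rw [div_le_one (by positivity)]
        linarith
    _ = ε := mul_one ε

/-- The defect tends to zero in `L¹` on balls (blueprint E7, dnote 3678 (d4)): with `A = lav Φ F`,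
`B = lav Φ F⁻¹`, `tr (B (Lap A - en A)) ≤ Lap tr(BA)` by `lap_trace`, `tr(BA) → m` uniformly on balls, `green` with a
cut-off function, `B ≥ c` on balls. -/
theorem defect_tendsto (hn : 1 ≤ n) {N : ℕ} {C : ℝ} {F : Vec n → Mat m} (hF : LipMet n m N C F)
    (T : ℝ) {ε : ℝ} (hε : 0 < ε) : ∃ δ > 0, ∀ Φ : Mat (n + 1) → ℝ, Moll n δ Φ →
      ∫ g in {g : SUGroup n | ch g ≤ T},
        ‖Lap (lav Φ F) (act g (base n)) - en (lav Φ F) (act g (base n))‖ ∂(mu n) ≤ ε := by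
  have hC := Ax.adm_nonneg hF.adm
  obtain ⟨φ, hφ, hφs, hφc, hφ01, hφ1⟩ := exists_cutoff n T
  obtain ⟨T', hT'⟩ := Ax.exists_ball_of_support hφ hφc
  have hφ2 : ContDiffOn ℝ 2 φ (Cone n) := cd_of_top hφs (k := 2)
  have hLc : Continuous fun g : SUGroup n => Lap φ (act g (base n)) :=
    (Ax.continuousOn_lap_of hφ2).comp_continuous continuous_orbit orbit_mem
  obtain ⟨K₁, hK₁⟩ := (isCompact_ball (n := n) T').exists_bound_of_continuousOn hLc.continuousOn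
  set K : ℝ := C * 4 ^ (2 * N) * (max T 1) ^ (2 * N) + 1 with hK
  have hT0 : (0 : ℝ) ≤ max T 1 := le_trans zero_le_one (le_max_right _ _)
  have hK0 : 0 < K := by positivity
  set M : ℝ := (mu n).real {g : SUGroup n | ch g ≤ T'} with hM
  have hM0 : 0 ≤ M := measureReal_nonneg
  set ε' : ℝ := ε / (K * ((max K₁ 0 + 1) * (M + 1))) with hε'
  have hK₁0 : 0 ≤ max K₁ 0 := le_max_right _ _
  have hε'0 : 0 < ε' := by positivity
  obtain ⟨δ, hδ, hcl⟩ := trace_close hF T' hε'0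
  refine ⟨min 1 δ, by positivity, fun Φ hΦ => ?_⟩
  have hMo := mo_of (min_le_left _ _) hΦ
  have hΦδ := moll_mono (min_le_right 1 δ) hΦ
  have hA2 : ContDiffOn ℝ 2 (lav Φ F) (Cone n) := lav_cd hΦ.test hF.adm
  have hB2 : ContDiffOn ℝ 2 (lav Φ fun w => (F w)⁻¹) (Cone n) := lav_cd hΦ.test hF.admInv
  have hAp : ∀ v ∈ Cone n, (lav Φ F v).PosDef := fun v hv =>
    lav_posDef hΦ.test (moll_pos hΦ) hF.adm hF.pos hv
  have hBp : ∀ v ∈ Cone n, (lav Φ (fun w => (F w)⁻¹) v).PosDef := fun v hv =>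
    lav_posDef hΦ.test (moll_pos hΦ) hF.admInv (fun v hv => (hF.pos v hv).inv) hv
  set u : Vec n → ℝ := fun v => (lav Φ (fun w => (F w)⁻¹) v * lav Φ F v).trace.re with hu
  have hu2 : ContDiffOn ℝ 2 u (Cone n) := Ax.contDiffOn_trace_mul hA2 hB2
  have huh : Homog u := by
    intro c hc v hv
    show (lav Φ (fun w => (F w)⁻¹) (c • v) * lav Φ F (c • v)).trace.re = _
    rw [lav_homog Φ _ c hc v hv, lav_homog Φ _ c hc v hv]
  have hun : ∀ v ∈ Cone n, 0 ≤ Lap u v := lap_trace_nonneg (lav_homog Φ F) (lav_homog Φ _) hA2 hB2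
    hAp hBp (hF.sub Φ hΦ.test (moll_pos hΦ)) (hF.sub' Φ hΦ.test (moll_pos hΦ))
  have hLu : Continuous fun g : SUGroup n => Lap u (act g (base n)) :=
    (Ax.continuousOn_lap_of hu2).comp_continuous continuous_orbit orbit_mem
  have hLA : Continuous fun g : SUGroup n => Lap (lav Φ F) (act g (base n)) :=
    (Ax.continuousOn_lap_of hA2).comp_continuous continuous_orbit orbit_mem
  have heA : Continuous fun g : SUGroup n => en (lav Φ F) (act g (base n)) :=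
    (Ax.continuousOn_en_of (hA2.of_le (by norm_num)) hAp).comp_continuous continuous_orbit orbit_mem
  have hS : IsCompact {g : SUGroup n | ch g ≤ T} := isCompact_ball T
  have hSm : MeasurableSet {g : SUGroup n | ch g ≤ T} := hS.isClosed.measurableSet
  have hφo : Continuous fun g : SUGroup n => φ (act g (base n)) :=
    hφ2.continuousOn.comp_continuous continuous_orbit orbit_mem
  -- first inequality
  have i1 : ∫ g in {g : SUGroup n | ch g ≤ T},
      ‖Lap (lav Φ F) (act g (base n)) - en (lav Φ F) (act g (base n))‖ ∂(mu n) ≤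
      ∫ g in {g : SUGroup n | ch g ≤ T}, K * Lap u (act g (base n)) ∂(mu n) := by
    refine setIntegral_mono_on ((hLA.sub heA).norm.continuousOn.integrableOn_compact hS)
      ((continuous_const.mul hLu).continuousOn.integrableOn_compact hS) hSm fun g hg => ?_
    refine defect_le hF hΦ hK0 g ?_
    have hchT : ch g ^ (2 * N) ≤ (max T 1) ^ (2 * N) :=
      pow_le_pow_left₀ (Ax.ch_pos0 g).le (le_trans hg (le_max_left _ _)) _
    have hinv : ∀ v ∈ Cone n, ((F v)⁻¹)⁻¹ = F v := fun v hv =>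
      nonsing_inv_nonsing_inv _ ((isUnit_iff_isUnit_det _).1 (hF.pos v hv).isUnit)
    have hA'' : Adm N C fun v => ((F v)⁻¹)⁻¹ := by
      refine ⟨?_, fun y => ?_⟩
      · refine hF.adm.meas.congr (Eventually.of_forall fun y => ?_)
        exact (hinv _ (orbit_mem y)).symm
      · show ‖((F (act y (base n)))⁻¹)⁻¹‖ ≤ _
        rw [hinv _ (orbit_mem y)]
        exact hF.adm.bound y
    refine (Ax.norm_inv_lav hMo (Ax.homog_inv_mat hF.hom) (Ax.continuousOn_inv_mat hF.cont hF.pos)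
      (fun v hv => (hF.pos v hv).inv) hF.admInv hA'' g).trans ?_
    have h1 : C * 4 ^ (2 * N) * ch g ^ (2 * N) ≤ C * 4 ^ (2 * N) * (max T 1) ^ (2 * N) :=
      mul_le_mul_of_nonneg_left hchT (by positivity)
    linarith
  -- second inequality
  have hint : Integrable (fun g : SUGroup n => φ (act g (base n)) • Lap u (act g (base n)))
      (mu n) :=
    (hφo.smul hLu).integrable_of_hasCompactSupport hφc.smul_right
  have i2 : ∫ g in {g : SUGroup n | ch g ≤ T}, Lap u (act g (base n)) ∂(mu n) ≤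
      ∫ g : SUGroup n, φ (act g (base n)) • Lap u (act g (base n)) ∂(mu n) := by
    have e : ∫ g in {g : SUGroup n | ch g ≤ T}, Lap u (act g (base n)) ∂(mu n) =
        ∫ g in {g : SUGroup n | ch g ≤ T}, φ (act g (base n)) • Lap u (act g (base n)) ∂(mu n) := by
      refine setIntegral_congr_fun hSm fun g hg => ?_
      show _ = φ (act g (base n)) • Lap u (act g (base n))
      rw [hφ1 g hg, one_smul]
    rw [e]
    refine setIntegral_le_integral hint (Eventually.of_forall fun g => ?_)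
    exact mul_nonneg (hφ01 _ (orbit_mem g)).1 (hun _ (orbit_mem g))
  -- Green's formula
  have hgreen := green hn hφ hφ2 hφc (f := fun v => u v - m) (fun c hc v hv => by
    show u (c • v) - m = u v - m
    rw [huh c hc v hv]) (hu2.sub contDiffOn_const)
  rw [Ax.lap_sub_const] at hgreen
  have i3 : ‖∫ g : SUGroup n, Lap φ (act g (base n)) • (u (act g (base n)) - m) ∂(mu n)‖ ≤
      (max K₁ 0) * ε' * M := by
    have e : ∫ g : SUGroup n, Lap φ (act g (base n)) • (u (act g (base n)) - m) ∂(mu n) =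
        ∫ g in {g : SUGroup n | ch g ≤ T'}, Lap φ (act g (base n)) • (u (act g (base n)) - m)
          ∂(mu n) := by
      refine (setIntegral_eq_integral_of_forall_compl_eq_zero fun g hg => ?_).symm
      rw [(hT' g (not_le.1 hg)).2, zero_smul]
    rw [e]
    refine norm_setIntegral_le_of_norm_le_const (isCompact_ball T').measure_lt_top fun g hg => ?_
    rw [norm_smul]
    refine mul_le_mul ((hK₁ g hg).trans (le_max_left _ _)) ?_ (norm_nonneg _) hK₁0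
    exact hcl Φ hΦδ g hg
  have i4 : ∫ g : SUGroup n, φ (act g (base n)) • Lap u (act g (base n)) ∂(mu n) ≤
      (max K₁ 0) * ε' * M := by
    rw [hgreen]
    exact (le_abs_self _).trans i3
  rw [integral_const_mul] at i1
  have i5 := mul_le_mul_of_nonneg_left (i2.trans i4) hK0.le
  refine (i1.trans i5).trans ?_
  have i6 : K * (max K₁ 0 * ε' * M) ≤ K * ((max K₁ 0 + 1) * ε' * (M + 1)) := by
    gcongr <;> linarith
  refine i6.trans (le_of_eq ?_)
  rw [hε']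
  field_simp

private theorem adm_en {N N' : ℕ} {C C' : ℝ} {F : Vec n → Mat m} (hF : LipMet n m N C F)
    {Φ : Mat (n + 1) → ℝ} (hΦ : Moll n 1 Φ)
    (h : ∀ g : SUGroup n, ‖en (lav Φ F) (act g (base n))‖ ≤ C' * ch g ^ (2 * N')) :
    Adm N' C' (en (lav Φ F)) := by
  have hA1 : ContDiffOn ℝ 1 (lav Φ F) (Cone n) := by
    have := lav_cd hΦ.test hF.adm (k := 1)
    exact_mod_cast this
  have hAp : ∀ v ∈ Cone n, (lav Φ F v).PosDef := fun v hv =>
    lav_posDef hΦ.test (moll_pos hΦ) hF.adm hF.pos hv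
  exact ⟨((Ax.continuousOn_en_of hA1 hAp).comp_continuous continuous_orbit
    orbit_mem).aestronglyMeasurable, h⟩

private theorem adm_lav {N : ℕ} {C : ℝ} {F : Vec n → E} (hF : Adm N C F)
    {Φ : Mat (n + 1) → ℝ} (hΦ : Moll n 1 Φ) : Adm N (C * 4 ^ (2 * N)) (lav Φ F) :=
  ⟨((lav_contDiffOn hΦ.test hF).continuousOn.comp_continuous continuous_orbit
    orbit_mem).aestronglyMeasurable, Ax.lav_bound (mo_of le_rfl hΦ) hF⟩

/-- The Laplacian of a twofold average. -/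
private theorem lap_lav_lav (hn : 1 ≤ n) {N : ℕ} {C : ℝ} {F : Vec n → Mat m}
    (hF : LipMet n m N C F) {Ψ : Mat (n + 1) → ℝ} (hΨ : Test n Ψ) (T : ℝ) {ε : ℝ} (hε : 0 < ε) :
    ∃ δ > 0, δ ≤ 1 ∧ ∀ Φ : Mat (n + 1) → ℝ, Moll n δ Φ → ∀ g : SUGroup n, ch g ≤ T →
      ‖Lap (lav Ψ (lav Φ F)) (act g (base n)) - lav Ψ (en (lav Φ F)) (act g (base n))‖ ≤ ε := by
  obtain ⟨T', C', hC', h⟩ := lav_bound_L1 (E := Mat m) hΨ T
  obtain ⟨δ, hδ, hd⟩ := defect_tendsto hn hF T' (ε := ε / C') (by positivity)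
  obtain ⟨N₁, C₁, hb⟩ := lip_bound hF
  refine ⟨min δ 1, by positivity, min_le_right _ _, fun Φ hΦ g hg => ?_⟩
  have hΦδ := moll_mono (min_le_left δ 1) hΦ
  have hΦ1 := moll_mono (min_le_right δ 1) hΦ
  obtain ⟨N₂, hN₂⟩ := lav_tame (E := Mat m) n N
  obtain ⟨C₂, hC₂, hT⟩ := hN₂ Φ hΦ.test
  have hTame := hT C F hF.hom hF.adm
  have hen : Adm N₁ C₁ (en (lav Φ F)) := adm_en hF hΦ1 fun g => (hb Φ hΦ1 g).2.2
  have hlap := hTame.adm_lap
  have hen' := Ax.adm_mono hen (le_max_left N₁ N₂) (le_max_left C₁ ((n + 1) * (C₂ * C)))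
  have hlap' := Ax.adm_mono hlap (le_max_right N₁ N₂) (le_max_right C₁ ((n + 1) * (C₂ * C)))
  rw [lap_lav hΨ hTame (orbit_mem g), ← lav_sub hΨ hlap' hen' (orbit_mem g)]
  have hdiff : Adm (max N₁ N₂) (max C₁ ((n + 1) * (C₂ * C)) + max C₁ ((n + 1) * (C₂ * C)))
      (fun w => Lap (lav Φ F) w - en (lav Φ F) w) := by
    refine ⟨hlap'.meas.sub hen'.meas, fun y => ?_⟩
    refine (norm_sub_le _ _).trans ?_
    rw [add_mul]
    exact add_le_add (hlap'.bound y) (hen'.bound y)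
  have h1 := h _ _ _ hdiff g hg
  have h2 := hd Φ hΦδ
  have h3 : ‖lav Ψ (fun w => Lap (lav Φ F) w - en (lav Φ F) w) (act g (base n))‖ ≤
      C' * ∫ b in {b : SUGroup n | ch b ≤ T'}, ‖Lap (lav Φ F) (act b (base n)) -
        en (lav Φ F) (act b (base n))‖ ∂(mu n) := by
    refine le_trans ?_ h1
    have h4 := norm_nonneg (fderiv ℝ (lav Ψ fun w => Lap (lav Φ F) w - en (lav Φ F) w)
      (act g (base n)))
    have h5 := norm_nonneg (fderiv ℝ (fderiv ℝ (lav Ψ fun w => Lap (lav Φ F) w - en (lav Φ F) w))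
      (act g (base n)))
    linarith
  refine h3.trans ?_
  calc _ ≤ C' * (ε / C') := mul_le_mul_of_nonneg_left h2 hC'.le
    _ = ε := by field_simp

/-- The averages converge. -/
private theorem lav_tendsto_moll {N : ℕ} {C : ℝ} {F : Vec n → Mat m} (hF : LipMet n m N C F)
    {Φ : ℕ → Mat (n + 1) → ℝ} {δ : ℕ → ℝ} (hδ : Tendsto δ atTop (𝓝 0))
    (hΦ : ∀ j, Moll n (δ j) (Φ j)) (g : SUGroup n) :
    Tendsto (fun j => lav (Φ j) F (act g (base n))) atTop (𝓝 (F (act g (base n)))) := by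
  rw [Metric.tendsto_atTop]
  intro ε hε
  obtain ⟨δ₀, hδ₀, h⟩ := lav_approx hF.hom hF.cont (ch g) (half_pos hε)
  obtain ⟨j₀, hj₀⟩ := (hδ.eventually (gt_mem_nhds hδ₀)).exists_forall_of_atTop
  refine ⟨j₀, fun j hj => ?_⟩
  rw [dist_eq_norm]
  have h1 := h (Φ j) (hΦ j).test (hΦ j).int
    (fun A hA => (hΦ j).small A ((hj₀ j hj).trans hA)) g le_rfl
  exact h1.trans_lt (half_lt_self hε)

/-- The Laplacian of an average is the limit of the Laplacians of the twofold averages. -/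
private theorem lap_lav_approx {N : ℕ} {C : ℝ} {F : Vec n → Mat m} (hF : LipMet n m N C F)
    {Φ : ℕ → Mat (n + 1) → ℝ} {δ : ℕ → ℝ} (hδ : Tendsto δ atTop (𝓝 0))
    (hδ1 : ∀ j, δ j ≤ 1) (hΦ : ∀ j, Moll n (δ j) (Φ j)) {Ψ : Mat (n + 1) → ℝ} (hΨ : Test n Ψ)
    (g : SUGroup n) :
    Tendsto (fun j => Lap (lav Ψ (lav (Φ j) F)) (act g (base n))) atTop
      (𝓝 (Lap (lav Ψ F) (act g (base n)))) := by
  have hC := Ax.adm_nonneg hF.adm
  rw [Metric.tendsto_atTop]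
  intro ε hε
  have hC' : C ≤ C * 4 ^ (2 * N) :=
    le_mul_of_one_le_right hC (one_le_pow₀ (by norm_num))
  obtain ⟨j₀, h⟩ := lav_tendsto hΨ (fun j => adm_lav hF.adm (moll_mono (hδ1 j) (hΦ j)))
    (Ax.adm_mono hF.adm le_rfl hC') (Eventually.of_forall fun g => lav_tendsto_moll hF hδ hΦ g)
    (ch g) (ε / (2 * (n + 1))) (by positivity)
  refine ⟨j₀, fun j hj => ?_⟩
  rw [dist_eq_norm]
  have h1 := Ax.norm_lap_sub_le _ _ g (h j hj g le_rfl).2.2
  refine h1.trans_lt ?_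
  have e : ((n : ℝ) + 1) * (ε / (2 * (n + 1))) = ε / 2 := by
    field_simp
  rw [e]
  exact half_lt_self hε

private theorem exists_seq (n : ℕ) : ∃ (Φ : ℕ → Mat (n + 1) → ℝ) (δ : ℕ → ℝ),
    Tendsto δ atTop (𝓝 0) ∧ (∀ j, δ j ≤ 1) ∧ ∀ j, Moll n (δ j) (Φ j) := by
  have h : ∀ j : ℕ, ∃ Φ : Mat (n + 1) → ℝ, Moll n (1 / ((j : ℝ) + 1)) Φ := by
    intro j
    obtain ⟨Φ, h1, h2, h3⟩ := exists_moll n (ε := 1 / ((j : ℝ) + 1)) (by positivity)
    exact ⟨Φ, h1, h2, h3⟩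
  choose Φ hΦ using h
  refine ⟨Φ, fun j => 1 / ((j : ℝ) + 1), tendsto_one_div_add_atTop_nhds_zero_nat, fun j => ?_, hΦ⟩
  rw [div_le_one (by positivity)]
  have : (0 : ℝ) ≤ j := Nat.cast_nonneg j
  linarith

/-- The difference of the Laplacian of the twofold average and the average of the energies tends
to zero along a sequence. -/
private theorem lap_lav_seq (hn : 1 ≤ n) {N : ℕ} {C : ℝ} {F : Vec n → Mat m}
    (hF : LipMet n m N C F) {Φ : ℕ → Mat (n + 1) → ℝ} {δ : ℕ → ℝ} (hδ : Tendsto δ atTop (𝓝 0))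
    (hΦ : ∀ j, Moll n (δ j) (Φ j)) {Ψ : Mat (n + 1) → ℝ} (hΨ : Test n Ψ) (g : SUGroup n) :
    Tendsto (fun j => Lap (lav Ψ (lav (Φ j) F)) (act g (base n)) -
      lav Ψ (en (lav (Φ j) F)) (act g (base n))) atTop (𝓝 0) := by
  rw [Metric.tendsto_atTop]
  intro ε hε
  obtain ⟨δ₀, hδ₀, -, h⟩ := lap_lav_lav hn hF hΨ (ch g) (half_pos hε)
  obtain ⟨j₀, hj₀⟩ := (hδ.eventually (gt_mem_nhds hδ₀)).exists_forall_of_atTop
  refine ⟨j₀, fun j hj => ?_⟩
  rw [dist_zero_right]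
  exact (h (Φ j) (moll_mono (hj₀ j hj).le (hΦ j)) g le_rfl).trans_lt (half_lt_self hε)

/-- Uniform bound for the Laplacian of all left averages: for fixed `Ψ` and `Φ` of size `δ → 0`,
`Lap (lav Ψ (lav Φ F)) = lav Ψ (Lap (lav Φ F)) = lav Ψ (en (lav Φ F)) + lav Ψ (defect)`; the left side
tends to `Lap (lav Ψ F)` (`lav_tendsto`), the last term to zero. -/
theorem lap_bound (hn : 1 ≤ n) {N : ℕ} {C : ℝ} {F : Vec n → Mat m} (hF : LipMet n m N C F) :
    ∃ (N' : ℕ) (C' : ℝ), ∀ Φ : Mat (n + 1) → ℝ, Moll n 1 Φ → Adm N' C' (Lap (lav Φ F)) := by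
  obtain ⟨N', C', hb⟩ := lip_bound hF
  refine ⟨N', C' * 4 ^ (2 * N'), fun Ψ hΨ => ⟨?_, fun g => ?_⟩⟩
  · exact ((Ax.continuousOn_lap_of (lav_cd hΨ.test hF.adm (k := 2))).comp_continuous
      continuous_orbit orbit_mem).aestronglyMeasurable
  · obtain ⟨Φ, δ, hδ, hδ1, hΦ⟩ := exists_seq n
    have h1 := lap_lav_seq hn hF hδ hΦ hΨ.test g
    have h2 := lap_lav_approx hF hδ hδ1 hΦ hΨ.test g
    have h3 := h2.sub h1
    simp only [sub_sub_cancel, sub_zero] at h3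
    refine le_of_tendsto h3.norm (Eventually.of_forall fun j => ?_)
    have hΦ1 := moll_mono (hδ1 j) (hΦ j)
    exact Ax.lav_bound (mo_of le_rfl hΨ) (adm_en hF hΦ1 fun g => (hb _ hΦ1 g).2.2) g

/-- If moreover `en (lav Φ F) → E₀` locally uniformly as `Φ → δ`, with `E₀` of polynomial growth, then
`Lap (lav Ψ F) = lav Ψ E₀`. -/
theorem lap_eq_lav (hn : 1 ≤ n) {N : ℕ} {C : ℝ} {F : Vec n → Mat m} (hF : LipMet n m N C F)
    {N' : ℕ} {C' : ℝ} {E₀ : Vec n → Mat m} (hE : Adm N' C' E₀) {Φ : ℕ → Mat (n + 1) → ℝ} {δ : ℕ → ℝ}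
    (hδ : Tendsto δ atTop (𝓝 0)) (hΦ : ∀ j, Moll n (δ j) (Φ j))
    (h : ∀ g : SUGroup n, Tendsto (fun j => en (lav (Φ j) F) (act g (base n))) atTop
      (𝓝 (E₀ (act g (base n))))) {Ψ : Mat (n + 1) → ℝ} (hΨ : Test n Ψ) {v : Vec n}
    (hv : v ∈ Cone n) : Lap (lav Ψ F) v = lav Ψ E₀ v := by
  obtain ⟨g, c, hc, rfl⟩ := exists_act_eq hv
  have hcd : ContDiffOn ℝ 2 (lav Ψ F) (Cone n) := lav_cd hΨ hF.adm (k := 2)
  rw [homog_lap (lav_homog Ψ F) hcd c hc _ (orbit_mem g), lav_homog Ψ E₀ c hc _ (orbit_mem g)]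
  obtain ⟨j₁, hj₁⟩ := (hδ.eventually (gt_mem_nhds one_pos)).exists_forall_of_atTop
  have hδ' : Tendsto (fun j => δ (j + j₁)) atTop (𝓝 0) := hδ.comp (tendsto_add_atTop_nat j₁)
  have hδ1 : ∀ j, δ (j + j₁) ≤ 1 := fun j => (hj₁ _ (by omega)).le
  have hΦ' : ∀ j, Moll n (δ (j + j₁)) (Φ (j + j₁)) := fun j => hΦ _
  obtain ⟨N₁, C₁, hb⟩ := lip_bound hF
  have h1 := lap_lav_seq hn hF hδ' hΦ' hΨ g
  have h2 := lap_lav_approx hF hδ' hδ1 hΦ' hΨ g
  have h3 := h2.sub h1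
  simp only [sub_sub_cancel, sub_zero] at h3
  have hen : ∀ j, Adm (max N₁ N') (max C₁ C') (en (lav (Φ (j + j₁)) F)) := fun j =>
    Ax.adm_mono (adm_en hF (moll_mono (hδ1 j) (hΦ' j)) fun g =>
      (hb _ (moll_mono (hδ1 j) (hΦ' j)) g).2.2) (le_max_left _ _) (le_max_left _ _)
  have hE' := Ax.adm_mono hE (le_max_right N₁ N') (le_max_right C₁ C')
  have h4 : Tendsto (fun j => lav Ψ (en (lav (Φ (j + j₁)) F)) (act g (base n))) atTop
      (𝓝 (lav Ψ E₀ (act g (base n)))) := by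
    rw [Metric.tendsto_atTop]
    intro ε hε
    obtain ⟨j₀, h5⟩ := lav_tendsto hΨ hen hE' (Eventually.of_forall fun g =>
      (h g).comp (tendsto_add_atTop_nat j₁)) (ch g) (ε / 2) (half_pos hε)
    refine ⟨j₀, fun j hj => ?_⟩
    rw [dist_eq_norm]
    exact (h5 j hj g le_rfl).1.trans_lt (half_lt_self hε)
  exact tendsto_nhds_unique h3 h4

end Pool.Agent.Lib.MP_5d4057_al.HM
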