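import Pool.Agent.Lib.MP_5d4057_al.HM.BochCG

/-! The integrated identity and its limit. -/

namespace Pool.Agent.Lib.MP_5d4057_al.HM

open Matrix MeasureTheory Filter Topology Pool.Agent.Lib.MP_5d4057_al Pool.Agent.Lib.MP_5d4057_al.Hyb

open scoped ComplexOrder MatrixOrder Matrix.Norms.L2Operator

set_option maxSynthPendingDepth 3

variable {n m : ℕ}

variable {Γ : Subgroup (SUGroup n)}

theorem bc_Yf_props {ρ : Γ →* Mat m} {F : Vec n → Mat m} (hF : Met ρ F)
    (hF3 : ContDiffOn ℝ 3 F (Cone n)) :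
    (∀ v a b, Yf F v (a + b) = Yf F v a + Yf F v b) ∧
    (∀ (v : Vec n) (r : ℂ) a, Yf F v (r • a) = star r * Yf F v a) ∧
    (∀ a, ContDiffOn ℝ 1 (fun v => Yf F v a) (Cone n)) ∧ (∀ v ∈ Cone n, Yf F v v = 0) ∧
    (∀ c : ℂ, c ≠ 0 → ∀ v ∈ Cone n, ∀ a, Yf F (c • v) (c • a) = Yf F v a) ∧
    (∀ γ ∈ Γ, ∀ v ∈ Cone n, ∀ a, Yf F (act γ v) (act γ a) = Yf F v a) := by
  have hF2 : ContDiffOn ℝ 2 F (Cone n) := hF3.of_le (by norm_num)
  have hu : ∀ v ∈ Cone n, IsUnit (F v) := fun v hv => (hF.pos v hv).isUnit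
  exact ⟨bc_Yf_add F, fun v r a => bc_Yf_smul F v a r, fun a => bc_cd_Yf hF3 hu a,
    fun v hv => bc_Yf_zero hF.hom hF2 hv,
    fun c hc v hv a => (tr_scl hF.hom hc).Yf (tj_scl hc) hF2 hv a,
    fun γ hγ v hv a => (tr_act hF.equi ⟨γ, hγ⟩).Yf (tj_act γ) hF2 hv a⟩

theorem bc_II_re {χ : SUGroup n → ℝ} (hχ : Cut Γ χ) {f : SUGroup n → ℂ} (hf : Continuous f) :
    II χ (fun g => (f g).re) = (II χ f).re := by
  have h1 := hχ.integrable_cont hf
  have h2 := Complex.reCLM.integral_comp_comm h1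
  have e : ∀ g, χ g • (f g).re = Complex.reCLM (χ g • f g) := by
    intro g
    rw [Complex.reCLM_apply, Complex.smul_re]
  rw [II, II]
  simp only [e]
  exact h2

theorem bc_II_boch (hΓ : Coc Γ) {χ : SUGroup n → ℝ} (hχ : Cut Γ χ) {ρ : Γ →* Mat m}
    {F : Vec n → Mat m} (hF : Met ρ F) (hF3 : ContDiffOn ℝ 3 F (Cone n)) :
    II χ (bochL F) = II χ fun g => nF (F (act g (base n))) (tauT F (act g (base n))) := by
  have hF2 : ContDiffOn ℝ 2 F (Cone n) := hF3.of_le (by norm_num)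
  obtain ⟨p1, p2, p3, p4, p5, p6⟩ := bc_Yf_props hF hF3
  have h0 := bc_II_div hΓ hχ p1 p2 p3 p4 p5 p6
  have hc : Continuous fun g : SUGroup n => ∑ c : Fin (n + 1), J n c c *
      dzc (fun w => Yf F w (Pi.single c 1)) (act g (base n)) (Pi.single c 1) := by
    refine continuous_finset_sum _ fun c _ => continuous_const.mul ?_
    have h1 : ContinuousOn (fderiv ℝ (fun w => Yf F w (Pi.single c 1))) (Cone n) :=
      (p3 _).continuousOn_fderiv_of_isOpen (isOpen_cone n) (by norm_num)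
    have h2 : Continuous fun g : SUGroup n =>
        fderiv ℝ (fun w => Yf F w (Pi.single c 1)) (act g (base n)) := continuous_orb h1
    have h3 : ∀ ζ : Vec n, Continuous fun g : SUGroup n =>
        fderiv ℝ (fun w => Yf F w (Pi.single c 1)) (act g (base n)) ζ := fun ζ =>
      h2.clm_apply continuous_const
    unfold dzc
    exact continuous_const.mul ((h3 _).sub (continuous_const.mul (h3 _)))
  have h1 : ∀ g, bochL F g = nF (F (act g (base n))) (tauT F (act g (base n))) +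
      (∑ c : Fin (n + 1), J n c c *
        dzc (fun w => Yf F w (Pi.single c 1)) (act g (base n)) (Pi.single c 1)).re := fun g =>
    boch_frame hF.hom hF3 hF.pos g
  have hcre : Continuous fun g : SUGroup n => (∑ c : Fin (n + 1), J n c c *
      dzc (fun w => Yf F w (Pi.single c 1)) (act g (base n)) (Pi.single c 1)).re :=
    Complex.continuous_re.comp hc
  rw [II_congr h1, II_add hχ (nFT_cont hF2 hF.pos) hcre,
    bc_II_re hχ hc, h0, Complex.zero_re, add_zero]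

/-! ### averages of metrics -/

theorem bc_adm_of_tame {N : ℕ} {C : ℝ} {F : Vec n → Mat m} (hF : Tame N C F) : Adm N C F :=
  bc_adm hF.cd.continuousOn hF.b0

theorem bc_met_P {N : ℕ} {C : ℝ} {ρ : Γ →* Mat m} {F : Vec n → Mat m} (hT : Tame N C F)
    (hF : Met ρ F) : ∃ s₀ : ℕ, ∀ s, s₀ ≤ s → Met ρ (P s F) ∧
      ContDiffOn ℝ (⊤ : ℕ∞) (P s F) (Cone n) := by
  obtain ⟨s₁, h1⟩ := P_contDiffOn (E := Mat m) n N
  obtain ⟨s₂, h2⟩ := P_posDef n m N
  obtain ⟨s₃, h3⟩ := P_clm (E := Mat m) (E' := Mat m) n N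
  have hA := bc_adm_of_tame hT
  refine ⟨max s₁ (max s₂ s₃), fun s hs => ?_⟩
  have hs1 : s₁ ≤ s := (le_max_left _ _).trans hs
  have hs2 : s₂ ≤ s := ((le_max_left _ _).trans (le_max_right _ _)).trans hs
  have hs3 : s₃ ≤ s := ((le_max_right _ _).trans (le_max_right _ _)).trans hs
  have hcd := h1 s hs1 C F hA
  refine ⟨⟨P_homog s F, hcd.continuousOn, h2 s hs2 C F hA fun g => hF.pos _ (orbit_mem g),
    fun γ v hv => ?_⟩, hcd⟩
  have e1 := P_act s F (γ : SUGroup n) hv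
  have e2 := h3 s hs3 C F ((bcL (ρ γ) (ρ γ)ᴴ).restrictScalars ℝ) hA v hv
  have e3 : P s (fun w => F (act (γ : SUGroup n) w)) v =
      P s (fun w => (bcL (ρ γ) (ρ γ)ᴴ).restrictScalars ℝ (F w)) v := by
    rw [P, P]
    refine integral_congr_ae (Filter.Eventually.of_forall fun y => ?_)
    show _ • F (act (γ : SUGroup n) (act y (base n))) = _ • (ρ γ * F (act y (base n)) * (ρ γ)ᴴ)
    rw [hF.equi γ _ (orbit_mem y)]
  rw [← e1, e3, e2]
  rfl

/-- convergence of the integrals of an expression in the jets -/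
theorem bc_II_tendsto {N : ℕ} {C : ℝ} {F : Vec n → Mat m} (hT : Tame N C F)
    (hp : ∀ v ∈ Cone n, (F v).PosDef) {χ : SUGroup n → ℝ} (hχ : Cut Γ χ) {Q : Jet n m → ℝ}
    (hQ : ContinuousOn Q (jS n m)) (e : SUGroup n → Fin (n + 1) → Vec n) (he : Continuous e)
    {j : (Vec n → Mat m) → SUGroup n → Jet n m}
    (hj : ∀ G g, j G g = (G (act g (base n)), fderiv ℝ G (act g (base n)),
      fderiv ℝ (fderiv ℝ G) (act g (base n)), e g)) (s₀ : ℕ)
    (hc : ∀ s, s₀ ≤ s → Continuous fun g => Q (j (P s F) g)) :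
    Tendsto (fun s : ℕ => II χ fun g => Q (j (P s F) g)) atTop (𝓝 (II χ fun g => Q (j F g))) := by
  obtain ⟨hlim, hbd⟩ := bc_P_deriv_tendsto hT
  -- a ball containing the support
  have h3' : ∃ T, ∀ g ∈ tsupport χ, ‖ch g‖ ≤ T :=
    IsCompact.exists_bound_of_continuousOn hχ.supp continuous_ch.continuousOn
  obtain ⟨T, hT'⟩ := h3'
  obtain ⟨R, s₁, hR⟩ := hbd T
  have hK0 : IsCompact ((fun g : SUGroup n => F (act g (base n))) '' {g | ch g ≤ T}) :=
    (isCompact_ball T).image (continuous_orb hT.cd.continuousOn)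
  obtain ⟨δ, hδ, hsub⟩ := hK0.exists_cthickening_subset_open (Units.isOpen (R := Mat m)) (by
    rintro M ⟨g, -, rfl⟩
    exact bc_unit hp (orbit_mem g))
  have hK1 := hK0.cthickening (r := δ)
  have hP := P_tendsto n N (f := fun _ : ℕ => F) (f₀ := F) (fun _ => bc_adm_of_tame hT)
    hT.cd.continuousOn hT.hom
    (fun T ε hε => ⟨0, fun j _ g _ => by rw [sub_self, norm_zero]; exact hε.le⟩) T δ hδ
  obtain ⟨j₀, s₂, hP⟩ := hP
  have hKe : IsCompact (e '' {g | ch g ≤ T}) := (isCompact_ball T).image he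
  have := FiniteDimensional.proper ℝ (Vec n →L[ℝ] Mat m)
  have := FiniteDimensional.proper ℝ (Vec n →L[ℝ] Vec n →L[ℝ] Mat m)
  have hK : IsCompact (Metric.cthickening δ
      ((fun g : SUGroup n => F (act g (base n))) '' {g | ch g ≤ T}) ×ˢ
      (Metric.closedBall (0 : Vec n →L[ℝ] Mat m) R) ×ˢ
      (Metric.closedBall (0 : Vec n →L[ℝ] Vec n →L[ℝ] Mat m) R) ×ˢ (e '' {g | ch g ≤ T})) :=
    hK1.prod ((isCompact_closedBall _ _).prod ((isCompact_closedBall _ _).prod hKe))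
  obtain ⟨D, hD⟩ := hK.exists_bound_of_continuousOn (hQ.mono (by
    rintro p ⟨h1, -⟩
    exact hsub h1))
  have hmem : ∀ s, max s₀ (max s₁ s₂) ≤ s → ∀ g ∈ tsupport χ, ‖Q (j (P s F) g)‖ ≤ D := by
    intro s hs g hg
    have hgT : ch g ≤ T := by
      have := hT' g hg
      rwa [Real.norm_of_nonneg (ch_pos g).le] at this
    refine hD _ ?_
    rw [hj]
    refine ⟨?_, ?_, ?_, ⟨g, hgT, rfl⟩⟩
    · refine Metric.mem_cthickening_of_dist_le _ (F (act g (base n))) δ _ ⟨g, hgT, rfl⟩ ?_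
      rw [dist_eq_norm]
      exact hP j₀ le_rfl s (((le_max_right _ _).trans (le_max_right _ _)).trans hs) g hgT
    · rw [mem_closedBall_zero_iff]
      exact (hR s (((le_max_left _ _).trans (le_max_right _ _)).trans hs) g hgT).1
    · rw [mem_closedBall_zero_iff]
      exact (hR s (((le_max_left _ _).trans (le_max_right _ _)).trans hs) g hgT).2
  unfold II
  refine tendsto_integral_filter_of_dominated_convergence (fun g => D * χ g) ?_ ?_
    (hχ.integrable.const_mul D) ?_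
  · filter_upwards [eventually_ge_atTop s₀] with s hs
    exact (hχ.cont.smul (hc s hs)).aestronglyMeasurable
  · filter_upwards [eventually_ge_atTop (max s₀ (max s₁ s₂))] with s hs
    refine Filter.Eventually.of_forall fun g => ?_
    by_cases hg : g ∈ tsupport χ
    · rw [norm_smul, Real.norm_of_nonneg (hχ.nonneg g), mul_comm]
      exact mul_le_mul_of_nonneg_right (hmem s hs g hg) (hχ.nonneg g)
    · rw [image_eq_zero_of_notMem_tsupport hg, zero_smul, norm_zero, mul_zero]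
  · refine Filter.Eventually.of_forall fun g => Tendsto.const_smul ?_ _
    obtain ⟨t0, t1, t2⟩ := hlim g
    have ht : Tendsto (fun s : ℕ => j (P s F) g) atTop (𝓝 (j F g)) := by
      simp only [hj]
      exact t0.prodMk_nhds (t1.prodMk_nhds (t2.prodMk_nhds tendsto_const_nhds))
    have hu : j F g ∈ jS n m := by
      rw [hj]
      exact bc_unit hp (orbit_mem g)
    have hca : ContinuousAt Q (j F g) := hQ.continuousAt (isOpen_jS.mem_nhds hu)
    exact hca.tendsto.comp ht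

/-- invariance of `nF` -/
theorem bc_nF_inv {M A : Mat m} (hA : IsUnit A) (X : Mat m) :
    nF (A * M * Aᴴ) ((Aᴴ)⁻¹ * X * Aᴴ) = nF M X := by
  have hA' : IsUnit Aᴴ := by
    have := hA.star
    rwa [star_eq_conjTranspose] at this
  have h1 : A⁻¹ * A = 1 := Matrix.nonsing_inv_mul _ ((Matrix.isUnit_iff_isUnit_det _).mp hA)
  have h2 : Aᴴ * (Aᴴ)⁻¹ = 1 := Matrix.mul_nonsing_inv _ ((Matrix.isUnit_iff_isUnit_det _).mp hA')
  have h3 : ((Aᴴ)⁻¹ * X * Aᴴ)ᴴ = A * Xᴴ * A⁻¹ := by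
    rw [conjTranspose_mul, conjTranspose_mul, conjTranspose_conjTranspose,
      conjTranspose_nonsing_inv, conjTranspose_conjTranspose, Matrix.mul_assoc]
  have h4 : (A * M * Aᴴ)⁻¹ = (Aᴴ)⁻¹ * M⁻¹ * A⁻¹ := by
    rw [Matrix.mul_inv_rev, Matrix.mul_inv_rev, Matrix.mul_assoc]
  rw [nF, nF, h3, h4]
  have h5 : (Aᴴ)⁻¹ * X * Aᴴ * ((Aᴴ)⁻¹ * M⁻¹ * A⁻¹) * (A * Xᴴ * A⁻¹) * (A * M * Aᴴ) =
      (Aᴴ)⁻¹ * (X * M⁻¹ * Xᴴ * M) * Aᴴ := by
    calc (Aᴴ)⁻¹ * X * Aᴴ * ((Aᴴ)⁻¹ * M⁻¹ * A⁻¹) * (A * Xᴴ * A⁻¹) * (A * M * Aᴴ) =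
        (Aᴴ)⁻¹ * X * (Aᴴ * (Aᴴ)⁻¹) * M⁻¹ * (A⁻¹ * A) * Xᴴ * (A⁻¹ * A) * M * Aᴴ := by
          simp only [Matrix.mul_assoc]
      _ = _ := by
        rw [h1, h2, Matrix.mul_one, Matrix.mul_one, Matrix.mul_one]
        simp only [Matrix.mul_assoc]
  rw [h5, Matrix.trace_mul_comm, ← Matrix.mul_assoc, h2, Matrix.one_mul]

theorem bc_comm_conj {A : Mat m} (hA : IsUnit A) (X Y : Mat m) :
    (Aᴴ)⁻¹ * X * Aᴴ * ((Aᴴ)⁻¹ * Y * Aᴴ) - (Aᴴ)⁻¹ * Y * Aᴴ * ((Aᴴ)⁻¹ * X * Aᴴ) =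
      (Aᴴ)⁻¹ * (X * Y - Y * X) * Aᴴ := by
  have hA' : IsUnit Aᴴ := by
    have := hA.star
    rwa [star_eq_conjTranspose] at this
  have h2 : Aᴴ * (Aᴴ)⁻¹ = 1 := Matrix.mul_nonsing_inv _ ((Matrix.isUnit_iff_isUnit_det _).mp hA')
  have h3 : ∀ X Y : Mat m, (Aᴴ)⁻¹ * X * Aᴴ * ((Aᴴ)⁻¹ * Y * Aᴴ) = (Aᴴ)⁻¹ * (X * Y) * Aᴴ := by
    intro X Y
    calc (Aᴴ)⁻¹ * X * Aᴴ * ((Aᴴ)⁻¹ * Y * Aᴴ) = (Aᴴ)⁻¹ * X * (Aᴴ * (Aᴴ)⁻¹) * Y * Aᴴ := by
          simp only [Matrix.mul_assoc]
      _ = _ := by rw [h2, Matrix.mul_one]; simp only [Matrix.mul_assoc]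
  rw [h3, h3, ← Matrix.sub_mul, ← Matrix.mul_sub]

theorem bochL_inv {ρ : Γ →* Mat m} {F : Vec n → Mat m} (hF : Met ρ F)
    (hF2 : ContDiffOn ℝ 2 F (Cone n)) (γ : SUGroup n) (hγ : γ ∈ Γ) (g : SUGroup n) :
    bochL F (γ * g) = bochL F g := by
  have hT := tr_act hF.equi ⟨γ, hγ⟩
  have hv := orbit_mem g
  have e1 : ∀ v : Vec n, act (γ * g) v = actLC γ (act g v) := fun v => act_mul γ g v
  rw [bochL, bochL]
  refine Finset.sum_congr rfl fun i _ => Finset.sum_congr rfl fun j _ => ?_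
  simp only [e1]
  have r1 := hT.rel _ hv
  have r2 := fun ξ η => hT.tau hF2 hv ξ η
  have r3 := fun ξ => hT.thz hF2 hv ξ
  simp only at r1 r2 r3
  rw [r1, r2, r3, r3, bc_comm_conj hT.unit, bc_nF_inv hT.unit, bc_nF_inv hT.unit]

/-- the vanishing of the Bochner expression -/
theorem bochL_zero (hn : 1 ≤ n) (hΓ : Coc Γ) {ρ : Γ →* Mat m} {F : Vec n → Mat m}
    (hF : Met ρ F) (hF2 : ContDiffOn ℝ 2 F (Cone n)) (hh : ∀ v ∈ Cone n, Lap F v = en F v)
    (g : SUGroup n) : bochL F g = 0 := by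
  obtain ⟨χ, hχ⟩ := exists_cut hΓ
  obtain ⟨N, C, hT⟩ := bc_tame_of_met hn hΓ hF hF2
  obtain ⟨s₀, hs₀⟩ := bc_met_P hT hF
  have hc3 : ∀ s, s₀ ≤ s → ContDiffOn ℝ 3 (P s F) (Cone n) := fun s hs =>
    (hs₀ s hs).2.of_le (WithTop.coe_le_coe.2 (le_top : (3 : ℕ∞) ≤ ⊤))
  have hc2 : ∀ s, s₀ ≤ s → ContDiffOn ℝ 2 (P s F) (Cone n) := fun s hs =>
    (hs₀ s hs).2.of_le (WithTop.coe_le_coe.2 (le_top : (2 : ℕ∞) ≤ ⊤))
  have hfr : Continuous fun (g : SUGroup n) (i : Fin (n + 1)) => act g (Pi.single i 1) :=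
    continuous_pi fun i => continuous_actv _
  have t1 := bc_II_tendsto hT hF.pos hχ jB_cont (fun g i => act g (Pi.single i 1)) hfr
    (j := jet) (fun G g => rfl) s₀ fun s hs =>
      jB_cont.comp_continuous (jet_cont (hc2 s hs)) fun g =>
        bc_unit (hs₀ s hs).1.pos (orbit_mem g)
  have t2 := bc_II_tendsto hT hF.pos hχ jT_cont (fun g i => Pi.single i 1) continuous_const
    (j := jet') (fun G g => rfl) s₀ fun s hs =>
      jT_cont.comp_continuous (jet'_cont (hc2 s hs)) fun g =>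
        bc_unit (hs₀ s hs).1.pos (orbit_mem g)
  have t3 : ∀ᶠ s : ℕ in atTop, (II χ fun g => jB (jet (P s F) g)) =
      II χ fun g => jT (jet' (P s F) g) := by
    filter_upwards [eventually_ge_atTop s₀] with s hs
    rw [II_congr (fun g => jB_jet (hc2 s hs) g), II_congr (fun g => jT_jet' (hc2 s hs) g)]
    exact bc_II_boch hΓ hχ (hs₀ s hs).1 (hc3 s hs)
  have t4 := tendsto_nhds_unique (t1.congr' t3) t2
  rw [II_congr (fun g => jB_jet hF2 g), II_congr (fun g => jT_jet' hF2 g)] at t4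
  have t5 : ∀ g, nF (F (act g (base n))) (tauT F (act g (base n))) = 0 := by
    intro g
    have hv := orbit_mem g
    rw [tauT_eq (hF2.contDiffAt ((isOpen_cone n).mem_nhds hv)), hh _ hv, sub_self,
      Matrix.mul_zero, smul_zero, nF, Matrix.zero_mul, Matrix.zero_mul, Matrix.zero_mul,
      trace_zero, Complex.zero_re]
  have t6 : II χ (bochL F) = 0 := by
    have : II χ (fun g => bochL F g) = 0 := by
      rw [t4, II_congr t5, II]
      simp
    exact this
  refine eq_zero_of_II hΓ hχ (bochL_cont hF2 hF.pos) (fun γ hγ g => bochL_inv hF hF2 γ hγ g)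
    (fun g => ?_) t6 g
  rw [bochL]
  refine Finset.sum_nonneg fun i _ => Finset.sum_nonneg fun j _ => ?_
  exact add_nonneg (nF_nonneg (hF.pos _ (orbit_mem g)) _) (nF_nonneg (hF.pos _ (orbit_mem g)) _)

/-- the consequences in the frame -/
theorem bc_frame_zero (hn : 1 ≤ n) (hΓ : Coc Γ) {ρ : Γ →* Mat m} {F : Vec n → Mat m}
    (hF : Met ρ F) (hF2 : ContDiffOn ℝ 2 F (Cone n)) (hh : ∀ v ∈ Cone n, Lap F v = en F v)
    (g : SUGroup n) (i j : Fin (n + 1)) :
    tau F (act g (base n)) (act g (Pi.single i 1)) (act g (Pi.single j 1)) = 0 ∧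
      thz F (act g (base n)) (act g (Pi.single i 1)) *
          thz F (act g (base n)) (act g (Pi.single j 1)) =
        thz F (act g (base n)) (act g (Pi.single j 1)) *
          thz F (act g (base n)) (act g (Pi.single i 1)) := by
  have hv := orbit_mem g
  have hp := hF.pos _ hv
  have h0 := bochL_zero hn hΓ hF hF2 hh g
  rw [bochL] at h0
  have h1 : ∀ i j : Fin n, (nF (F (act g (base n))) (tau F (act g (base n))
      (act g (Pi.single i.castSucc 1)) (act g (Pi.single j.castSucc 1))) +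
      nF (F (act g (base n))) (thz F (act g (base n)) (act g (Pi.single i.castSucc 1)) *
          thz F (act g (base n)) (act g (Pi.single j.castSucc 1)) -
        thz F (act g (base n)) (act g (Pi.single j.castSucc 1)) *
          thz F (act g (base n)) (act g (Pi.single i.castSucc 1)))) = 0 := by
    have hnn : ∀ i j : Fin n, 0 ≤ (nF (F (act g (base n))) (tau F (act g (base n))
      (act g (Pi.single i.castSucc 1)) (act g (Pi.single j.castSucc 1))) +
      nF (F (act g (base n))) (thz F (act g (base n)) (act g (Pi.single i.castSucc 1)) *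
          thz F (act g (base n)) (act g (Pi.single j.castSucc 1)) -
        thz F (act g (base n)) (act g (Pi.single j.castSucc 1)) *
          thz F (act g (base n)) (act g (Pi.single i.castSucc 1)))) := fun i j =>
      add_nonneg (nF_nonneg hp _) (nF_nonneg hp _)
    intro i j
    have h2 := (Finset.sum_eq_zero_iff_of_nonneg
      (fun i _ => Finset.sum_nonneg fun j _ => hnn i j)).1 h0 i (Finset.mem_univ i)
    exact (Finset.sum_eq_zero_iff_of_nonneg (fun j _ => hnn i j)).1 h2 j (Finset.mem_univ j)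
  refine Fin.lastCases ?_ (fun i => ?_) i
  · have e : act g (Pi.single (Fin.last n) 1) = act g (base n) := rfl
    obtain ⟨_, a2, a3, _⟩ := tau_self hF.hom hv hF2 (act g (Pi.single j 1))
    rw [e, a2, a3, Matrix.zero_mul, Matrix.mul_zero]
    exact ⟨rfl, rfl⟩
  · refine Fin.lastCases ?_ (fun j => ?_) j
    · have e : act g (Pi.single (Fin.last n) 1) = act g (base n) := rfl
      obtain ⟨a1, _, a3, _⟩ := tau_self hF.hom hv hF2 (act g (Pi.single i.castSucc 1))
      rw [e, a1, a3, Matrix.zero_mul, Matrix.mul_zero]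
      exact ⟨rfl, rfl⟩
    · have h3 := h1 i j
      have a := nF_nonneg hp (tau F (act g (base n))
        (act g (Pi.single i.castSucc 1)) (act g (Pi.single j.castSucc 1)))
      have b := nF_nonneg hp (thz F (act g (base n)) (act g (Pi.single i.castSucc 1)) *
          thz F (act g (base n)) (act g (Pi.single j.castSucc 1)) -
        thz F (act g (base n)) (act g (Pi.single j.castSucc 1)) *
          thz F (act g (base n)) (act g (Pi.single i.castSucc 1)))
      refine ⟨nF_eq_zero hp (by linarith), sub_eq_zero.1 (nF_eq_zero hp (by linarith))⟩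

theorem bc_exp (g : SUGroup n) (ξ : Vec n) :
    ξ = ∑ k, (act g⁻¹ ξ) k • act g (Pi.single k 1) := by
  have h1 : act g (act g⁻¹ ξ) = ξ := by rw [← act_mul, mul_inv_cancel, act_one]
  have h2 : act g⁻¹ ξ = ∑ k, (act g⁻¹ ξ) k • (Pi.single k 1 : Vec n) := by
    funext i
    rw [Finset.sum_apply, Finset.sum_eq_single i]
    · rw [Pi.smul_apply, Pi.single_eq_same, smul_eq_mul, mul_one]
    · intro k _ hk
      rw [Pi.smul_apply, Pi.single_eq_of_ne (Ne.symm hk), smul_zero]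
    · intro h
      exact absurd (Finset.mem_univ i) h
  have h3 : ∀ (s : Finset (Fin (n + 1))) (c : Fin (n + 1) → ℂ),
      act g (∑ k ∈ s, c k • (Pi.single k 1 : Vec n)) = ∑ k ∈ s, c k • act g (Pi.single k 1) := by
    intro s c
    unfold act
    rw [Matrix.mulVec_sum]
    exact Finset.sum_congr rfl fun k _ => Matrix.mulVec_smul _ _ _
  conv_lhs => rw [← h1, h2]
  exact h3 _ _

theorem bc_thz_sum (F : Vec n → Mat m) (v : Vec n) {ι : Type} (s : Finset ι) (c : ι → ℂ)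
    (f : ι → Vec n) : thz F v (∑ k ∈ s, c k • f k) = ∑ k ∈ s, c k • thz F v (f k) := by
  classical
  induction s using Finset.induction_on with
  | empty =>
    rw [Finset.sum_empty, Finset.sum_empty]
    have := bc_thz_smul F v 0 0
    rwa [zero_smul, zero_smul] at this
  | insert a s ha ih =>
    rw [Finset.sum_insert ha, Finset.sum_insert ha, bc_thz_add, bc_thz_smul, ih]

theorem bc_orbit_zero (hn : 1 ≤ n) (hΓ : Coc Γ) {ρ : Γ →* Mat m} {F : Vec n → Mat m}
    (hF : Met ρ F) (hF2 : ContDiffOn ℝ 2 F (Cone n)) (hh : ∀ v ∈ Cone n, Lap F v = en F v)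
    (g : SUGroup n) (ξ η : Vec n) : tau F (act g (base n)) ξ η = 0 ∧
      thz F (act g (base n)) ξ * thz F (act g (base n)) η =
        thz F (act g (base n)) η * thz F (act g (base n)) ξ := by
  have hfr := bc_frame_zero hn hΓ hF hF2 hh g
  have hs := bc_sesq_tau hF2 (orbit_mem g)
  have e1 := bc_exp g ξ
  have e2 := bc_exp g η
  generalize act g⁻¹ ξ = a at e1
  generalize act g⁻¹ η = b at e2
  subst e1 e2
  refine ⟨?_, ?_⟩
  · rw [hs.sum₁]
    refine Finset.sum_eq_zero fun k _ => ?_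
    rw [hs.sum₂]
    refine Finset.sum_eq_zero fun l _ => ?_
    rw [bc_tau_smul₂, bc_tau_smul₁ hF2 (orbit_mem g), (hfr k l).1, smul_zero, smul_zero]
  · rw [bc_thz_sum, bc_thz_sum, Finset.sum_mul_sum, Finset.sum_mul_sum, Finset.sum_comm]
    refine Finset.sum_congr rfl fun k _ => Finset.sum_congr rfl fun l _ => ?_
    rw [smul_mul_assoc, mul_smul_comm, smul_mul_assoc, mul_smul_comm, (hfr l k).2,
      smul_comm]

theorem bc_pluriharmonic (hn : 1 ≤ n) (hΓ : Coc Γ) {ρ : Γ →* Mat m} {F : Vec n → Mat m}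
    (hF : Met ρ F) (hF2 : ContDiffOn ℝ 2 F (Cone n)) (hh : ∀ v ∈ Cone n, Lap F v = en F v) :
    (∀ v ∈ Cone n, ∀ ξ η : Vec n, dzb (fun w => dz F w ξ) v η =
      (1 / 2 : ℂ) • (dzb F v η * (F v)⁻¹ * dz F v ξ + dz F v ξ * (F v)⁻¹ * dzb F v η)) ∧
    ∀ v ∈ Cone n, ∀ ξ η : Vec n,
      dz F v ξ * (F v)⁻¹ * dz F v η = dz F v η * (F v)⁻¹ * dz F v ξ := by
  have key : ∀ v ∈ Cone n, ∀ ξ η : Vec n, tau F v ξ η = 0 ∧
      thz F v ξ * thz F v η = thz F v η * thz F v ξ := by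
    intro v hv ξ η
    obtain ⟨g, c, hc, rfl⟩ := exists_act_eq hv
    have ht := tr_scl hF.hom hc
    have hg := orbit_mem g
    have e : ∀ ζ : Vec n, ζ = c • (c⁻¹ • ζ) := fun ζ => by rw [smul_inv_smul₀ hc]
    obtain ⟨z1, z2⟩ := bc_orbit_zero hn hΓ hF hF2 hh g (c⁻¹ • ξ) (c⁻¹ • η)
    have t1 := ht.tau hF2 hg (c⁻¹ • ξ) (c⁻¹ • η)
    have t2 := ht.thz hF2 hg (c⁻¹ • ξ)
    have t3 := ht.thz hF2 hg (c⁻¹ • η)
    simp only [sclL_apply, ← e] at t1 t2 t3
    rw [conjTranspose_one, inv_one, Matrix.one_mul, Matrix.mul_one] at t1 t2 t3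
    rw [t1, t2, t3]
    exact ⟨z1, z2⟩
  refine ⟨fun v hv ξ η => ?_, fun v hv ξ η => ?_⟩
  · have h := (key v hv ξ η).1
    have hu := (hF.pos v hv).isUnit
    have h1 : F v * (F v)⁻¹ = 1 :=
      Matrix.mul_nonsing_inv _ ((Matrix.isUnit_iff_isUnit_det _).mp hu)
    rw [tau] at h
    have h2 := (smul_eq_zero.1 h).resolve_left (by norm_num)
    have h3 := congrArg (fun X => F v * X) h2
    simp only [← Matrix.mul_assoc, h1, Matrix.one_mul, Matrix.mul_zero] at h3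
    exact sub_eq_zero.1 h3
  · have h := (key v hv ξ η).2
    have hu := (hF.pos v hv).isUnit
    have h1 : F v * (F v)⁻¹ = 1 :=
      Matrix.mul_nonsing_inv _ ((Matrix.isUnit_iff_isUnit_det _).mp hu)
    rw [thz, thz, smul_mul_assoc, mul_smul_comm, smul_mul_assoc, mul_smul_comm, smul_smul,
      smul_smul] at h
    have h2 := smul_right_injective (Mat m) (show (1 / 2 : ℂ) * (1 / 2) ≠ 0 by norm_num) h
    have h3 := congrArg (fun X => F v * X) h2
    calc dz F v ξ * (F v)⁻¹ * dz F v η = F v * ((F v)⁻¹ * dz F v ξ * ((F v)⁻¹ * dz F v η)) := by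
          simp only [← Matrix.mul_assoc, h1, Matrix.one_mul]
      _ = F v * ((F v)⁻¹ * dz F v η * ((F v)⁻¹ * dz F v ξ)) := h3
      _ = _ := by simp only [← Matrix.mul_assoc, h1, Matrix.one_mul]

end Pool.Agent.Lib.MP_5d4057_al.HM
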