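import Pool.Agent.Lib.MP_5d4057_al.HM.BochB
import Pool.Agent.Lib.MP_5d4057_al.HM.CutB
import Pool.Agent.Lib.MP_5d4057_al.HM.BochCH

namespace Pool.Agent.Lib.MP_5d4057_al.HM

open Matrix MeasureTheory Filter Topology Pool.Agent.Lib.MP_5d4057_al Pool.Agent.Lib.MP_5d4057_al.Hyb

open scoped ComplexOrder MatrixOrder Matrix.Norms.L2Operator

variable {n m : ℕ}

variable {Γ : Subgroup (SUGroup n)}

/-- The divergence theorem for a `(0,1)`-form: with `Ψ_j(g) = Y(g e_n)[g e_j]`, `II_flow` along `xmat e_j` and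
`xmat (i e_j)`; the slot derivatives vanish as `Y(v)[v] = 0`; `sum_J_sesq`. -/
theorem II_div (hn : 1 ≤ n) (hΓ : Coc Γ) {χ : SUGroup n → ℝ} (hχ : Cut Γ χ)
    {Y : Vec n → Vec n → ℂ} (hadd : ∀ v a b, Y v (a + b) = Y v a + Y v b)
    (hs : ∀ (v : Vec n) (r : ℂ) a, Y v (r • a) = star r * Y v a)
    (hY1 : ∀ a, ContDiffOn ℝ 1 (fun v => Y v a) (Cone n)) (hY0 : ∀ v ∈ Cone n, Y v v = 0)
    (hh : ∀ c : ℂ, c ≠ 0 → ∀ v ∈ Cone n, ∀ a, Y (c • v) (c • a) = Y v a)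
    (hi : ∀ γ ∈ Γ, ∀ v ∈ Cone n, ∀ a, Y (act γ v) (act γ a) = Y v a) :
    II χ (fun g => ∑ c : Fin (n + 1), J n c c *
      dzc (fun w => Y w (Pi.single c 1)) (act g (base n)) (Pi.single c 1)) = 0 := by
  have _ := hn
  exact bc_II_div hΓ hχ hadd hs hY1 hY0 hh hi

/-- `Yf F` satisfies the hypotheses for a smooth equivariant metric. -/
theorem Yf_props {ρ : Γ →* Mat m} {F : Vec n → Mat m} (hF : Met ρ F)
    (hF3 : ContDiffOn ℝ 3 F (Cone n)) :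
    (∀ v a b, Yf F v (a + b) = Yf F v a + Yf F v b) ∧
    (∀ (v : Vec n) (r : ℂ) a, Yf F v (r • a) = star r * Yf F v a) ∧
    (∀ a, ContDiffOn ℝ 1 (fun v => Yf F v a) (Cone n)) ∧ (∀ v ∈ Cone n, Yf F v v = 0) ∧
    (∀ c : ℂ, c ≠ 0 → ∀ v ∈ Cone n, ∀ a, Yf F (c • v) (c • a) = Yf F v a) ∧
    (∀ γ ∈ Γ, ∀ v ∈ Cone n, ∀ a, Yf F (act γ v) (act γ a) = Yf F v a) := bc_Yf_props hF hF3

/-- The integrated identity for smooth equivariant metrics. -/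
theorem II_boch (hn : 1 ≤ n) (hΓ : Coc Γ) {χ : SUGroup n → ℝ} (hχ : Cut Γ χ) {ρ : Γ →* Mat m}
    {F : Vec n → Mat m} (hF : Met ρ F) (hF3 : ContDiffOn ℝ 3 F (Cone n)) :
    II χ (bochL F) = II χ fun g => nF (F (act g (base n))) (tauT F (act g (base n))) := by
  have _ := hn
  exact bc_II_boch hΓ hχ hF hF3

/-- Derivatives of `P s F` converge to those of `F` for an equivariant `C²` function `F`
(blueprint E8): `D(P_s F)(g e_n)[g vec ξ] = P_s(w ↦ DF(w)[X w])(g e_n)`, `X = g xmat(ξ) g⁻¹`, and similarly for the second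
derivatives; uniformly bounded on balls. -/
theorem P_deriv_tendsto (hn : 1 ≤ n) {N : ℕ} {C : ℝ} {F : Vec n → Mat m} (hF : Tame N C F) :
    (∀ g : SUGroup n, Tendsto (fun s : ℕ => P s F (act g (base n))) atTop (𝓝 (F (act g (base n)))) ∧
      Tendsto (fun s : ℕ => fderiv ℝ (P s F) (act g (base n))) atTop
        (𝓝 (fderiv ℝ F (act g (base n)))) ∧
      Tendsto (fun s : ℕ => fderiv ℝ (fderiv ℝ (P s F)) (act g (base n))) atTop
        (𝓝 (fderiv ℝ (fderiv ℝ F) (act g (base n))))) ∧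
    ∀ T : ℝ, ∃ (K : ℝ) (s₀ : ℕ), ∀ s, s₀ ≤ s → ∀ g : SUGroup n, ch g ≤ T →
      ‖fderiv ℝ (P s F) (act g (base n))‖ ≤ K ∧
        ‖fderiv ℝ (fderiv ℝ (P s F)) (act g (base n))‖ ≤ K := by
  have _ := hn
  exact bc_P_deriv_tendsto hF

/-- A `C²` equivariant metric is tame. -/
theorem tame_of_met (hn : 1 ≤ n) (hΓ : Coc Γ) {ρ : Γ →* Mat m} {F : Vec n → Mat m}
    (hF : Met ρ F) (hF2 : ContDiffOn ℝ 2 F (Cone n)) : ∃ (N : ℕ) (C : ℝ), Tame N C F :=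
  bc_tame_of_met hn hΓ hF hF2

/-- RESULT (pluriharmonicity and the commutation relation, Siu, Sampson). -/
theorem pluriharmonic (hn : 1 ≤ n) (hΓ : Coc Γ) {ρ : Γ →* Mat m} {F : Vec n → Mat m}
    (hF : Met ρ F) (hF2 : ContDiffOn ℝ 2 F (Cone n)) (hh : ∀ v ∈ Cone n, Lap F v = en F v) :
    (∀ v ∈ Cone n, ∀ ξ η : Vec n, dzb (fun w => dz F w ξ) v η =
      (1 / 2 : ℂ) • (dzb F v η * (F v)⁻¹ * dz F v ξ + dz F v ξ * (F v)⁻¹ * dzb F v η)) ∧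
    ∀ v ∈ Cone n, ∀ ξ η : Vec n,
      dz F v ξ * (F v)⁻¹ * dz F v η = dz F v η * (F v)⁻¹ * dz F v ξ :=
  bc_pluriharmonic hn hΓ hF hF2 hh

end Pool.Agent.Lib.MP_5d4057_al.HM
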