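import Pool.Agent.Lib.MP_5d4057_al.HM.LipF

/-! Unfolding over the group `Γ`: the almost everywhere Lipschitz estimate. -/

namespace Pool.Agent.Lib.MP_5d4057_al.HM

open Matrix MeasureTheory Filter Topology Pool.Agent.Lib.MP_5d4057_al Pool.Agent.Lib.MP_5d4057_al.Hyb

open scoped ComplexOrder MatrixOrder Matrix.Norms.L2Operator ENNReal

variable {n m : ℕ} {Γ : Subgroup (SUGroup n)}

theorem lint_unfold (hΓ : Coc Γ) {χ : SUGroup n → ℝ} (hχ : Cut Γ χ) {f : SUGroup n → ℝ≥0∞}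
    (hf : AEMeasurable f (mu n)) :
    ∫⁻ y, f y ∂(mu n) =
      ∑' γ : Γ, ∫⁻ y, ENNReal.ofReal (χ y) * f ((γ : SUGroup n)⁻¹ * y) ∂(mu n) := by
  have := coc_countable hΓ
  have h1 : ∀ y, f y = ∑' γ : Γ, ENNReal.ofReal (χ ((γ : SUGroup n) * y)) * f y := by
    intro y
    rw [ENNReal.tsum_mul_right, ← ENNReal.ofReal_tsum_of_nonneg (fun γ => hχ.nonneg _)
      (hχ.summable y), hχ.sum y, ENNReal.ofReal_one, one_mul]
  have h2 : ∀ γ : Γ, AEMeasurable (fun y => ENNReal.ofReal (χ ((γ : SUGroup n) * y)) * f y) (mu n) := by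
    intro γ
    have : Measurable fun y => ENNReal.ofReal (χ ((γ : SUGroup n) * y)) :=
      (hχ.cont.comp (continuous_const.mul continuous_id)).measurable.ennreal_ofReal
    exact this.aemeasurable.mul hf
  calc ∫⁻ y, f y ∂(mu n)
      = ∫⁻ y, ∑' γ : Γ, ENNReal.ofReal (χ ((γ : SUGroup n) * y)) * f y ∂(mu n) :=
        lintegral_congr h1
    _ = ∑' γ : Γ, ∫⁻ y, ENNReal.ofReal (χ ((γ : SUGroup n) * y)) * f y ∂(mu n) :=
        lintegral_tsum (f := fun (γ : Γ) y => ENNReal.ofReal (χ ((γ : SUGroup n) * y)) * f y) h2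
    _ = _ := by
        congr 1
        funext γ
        rw [← lintegral_mul_left_eq_self (μ := mu n)
          (fun y => ENNReal.ofReal (χ y) * f ((γ : SUGroup n)⁻¹ * y)) (γ : SUGroup n)]
        refine lintegral_congr fun y => ?_
        rw [inv_mul_cancel_left]

theorem exists_supp_ball {χ : SUGroup n → ℝ} (hχ : Cut Γ χ) : ∃ T : ℝ, 1 ≤ T ∧
    ∀ y, ENNReal.ofReal (χ y) ≤ ib T y := by
  obtain ⟨T, hT⟩ := (hχ.supp.isCompact.image continuous_ch).bddAbove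
  refine ⟨max 1 T, le_max_left _ _, fun y => ?_⟩
  by_cases h : χ y = 0
  · rw [h]; simp
  · have h1 : ch y ≤ max 1 T :=
      (hT ⟨y, subset_tsupport _ (Function.mem_support.2 h), rfl⟩).trans (le_max_right _ _)
    unfold ib
    rw [if_pos h1, ← ENNReal.ofReal_one]
    exact ENNReal.ofReal_le_ofReal (hχ.le_one y)

theorem ch_gamma_le {γ y : SUGroup n} {T : ℝ} (hy : ch y ≤ T) :
    ch γ ≤ 2 * T * ch (γ⁻¹ * y) ∧ ch (γ⁻¹ * y) ≤ 2 * T * ch γ := by
  have h1 := ch_mul_le' (γ⁻¹ * y) y⁻¹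
  have h2 := ch_mul_le' γ⁻¹ y
  rw [mul_inv_cancel_right, ch_inv, ch_inv] at h1
  rw [ch_inv] at h2
  have h3 := ch_pos (γ⁻¹ * y)
  have h4 := ch_pos γ
  constructor
  · calc ch γ ≤ 2 * ch (γ⁻¹ * y) * ch y := h1
      _ ≤ 2 * ch (γ⁻¹ * y) * T := by gcongr
      _ = _ := by ring
  · calc ch (γ⁻¹ * y) ≤ 2 * ch γ * ch y := h2
      _ ≤ 2 * ch γ * T := by gcongr
      _ = _ := by ring

theorem tsum_ch (hΓ : Coc Γ) {χ : SUGroup n → ℝ} (hχ : Cut Γ χ) {s : ℕ} (hs : n < s) :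
    ∑' γ : Γ, ENNReal.ofReal ((ch (γ : SUGroup n) ^ (2 * s))⁻¹) < ⊤ := by
  obtain ⟨T, hT1, hT⟩ := exists_supp_ball hχ
  have hT0 : 0 < T := by linarith
  obtain ⟨c, hc⟩ : ∃ c : ℝ≥0∞, c = ∫⁻ y, ENNReal.ofReal (χ y) ∂(mu n) := ⟨_, rfl⟩
  have hc0 : c ≠ 0 := by
    intro h0
    have h1 := lint_unfold hΓ hχ (f := fun _ => 1) aemeasurable_const
    simp only [mul_one, ← hc, h0, tsum_zero, lintegral_const, one_mul] at h1
    exact (Measure.measure_univ_ne_zero.2 (NeZero.ne (mu n))) h1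
  have hcont : Continuous fun y : SUGroup n => (ch y ^ (2 * s))⁻¹ :=
    (continuous_ch.pow _).inv₀ fun y => (pow_pos (ch_pos y) _).ne'
  have h2 := lint_unfold hΓ hχ (f := fun y => ENNReal.ofReal ((ch y ^ (2 * s))⁻¹))
    hcont.measurable.ennreal_ofReal.aemeasurable
  have h3 : ∫⁻ y : SUGroup n, ENNReal.ofReal ((ch y ^ (2 * s))⁻¹) ∂(mu n) < ⊤ :=
    ((integrable_inv hs).lintegral_lt_top)
  have h4 : ∀ γ : Γ, ENNReal.ofReal ((ch (γ : SUGroup n) ^ (2 * s))⁻¹) *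
      (ENNReal.ofReal (((2 * T) ^ (2 * s))⁻¹) * c) ≤
      ∫⁻ y, ENNReal.ofReal (χ y) *
        ENNReal.ofReal ((ch ((γ : SUGroup n)⁻¹ * y) ^ (2 * s))⁻¹) ∂(mu n) := by
    intro γ
    rw [hc, ← mul_assoc, ← lintegral_const_mul' _ _ (ENNReal.mul_ne_top ENNReal.ofReal_ne_top
      ENNReal.ofReal_ne_top)]
    refine lintegral_mono fun y => ?_
    simp only
    by_cases hy : ch y ≤ T
    · rw [mul_comm]
      refine mul_le_mul_right ?_ _
      have h9 := ch_pos (γ : SUGroup n)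
      rw [← ENNReal.ofReal_mul (by positivity), ← mul_inv, ← mul_pow]
      refine ENNReal.ofReal_le_ofReal ?_
      have h5 := ch_pos ((γ : SUGroup n)⁻¹ * y)
      refine inv_anti₀ (pow_pos h5 _) (pow_le_pow_left₀ h5.le ?_ _)
      rw [mul_comm]
      exact (ch_gamma_le hy).2
    · have h6 := hT y
      have h7 : ib T y = 0 := by unfold ib; rw [if_neg hy]
      rw [h7] at h6
      have h8 : ENNReal.ofReal (χ y) = 0 := le_antisymm h6 zero_le
      rw [h8]; simp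
  have h5 : (∑' γ : Γ, ENNReal.ofReal ((ch (γ : SUGroup n) ^ (2 * s))⁻¹)) *
      (ENNReal.ofReal (((2 * T) ^ (2 * s))⁻¹) * c) < ⊤ := by
    rw [← ENNReal.tsum_mul_right]
    exact lt_of_le_of_lt ((ENNReal.tsum_le_tsum h4).trans h2.ge) h3
  by_contra h6
  have h7 := top_le_iff.1 (not_lt.1 h6)
  rw [h7, ENNReal.top_mul] at h5
  · exact lt_irrefl _ h5
  · refine mul_ne_zero ?_ hc0
    rw [Ne, ENNReal.ofReal_eq_zero, not_le]
    positivity

theorem sig_conj' {a b : Mat m} {U : Mat m} (hU : IsUnit U) :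
    sig (U * a * Uᴴ) (U * b * Uᴴ) = sig a b := by
  have hd : IsUnit U.det := (Matrix.isUnit_iff_isUnit_det _).1 hU
  have hd' : IsUnit Uᴴ.det := by rw [det_conjTranspose]; exact hd.star
  have key : ∀ x y : Mat m, ((U * x * Uᴴ)⁻¹ * (U * y * Uᴴ)).trace = (x⁻¹ * y).trace := by
    intro x y
    rw [Matrix.mul_inv_rev, Matrix.mul_inv_rev]
    have e1 : Uᴴ⁻¹ * (x⁻¹ * U⁻¹) * (U * y * Uᴴ) = Uᴴ⁻¹ * (x⁻¹ * (U⁻¹ * U) * y * Uᴴ) := by
      simp only [Matrix.mul_assoc]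
    rw [e1, nonsing_inv_mul _ hd, Matrix.mul_one, trace_mul_comm, Matrix.mul_assoc,
      mul_nonsing_inv _ hd', Matrix.mul_one]
  unfold sig
  rw [key, key]

section lim

variable {ρ : Γ →* Mat m} {χ : SUGroup n → ℝ} {N : ℕ} {C : ℝ} {F : Vec n → Mat m}

/-- `sig` of the metric and its left translate -/
noncomputable def Sq (F : Vec n → Mat m) (a y : SUGroup n) : ℝ≥0∞ :=
  ENNReal.ofReal (sig (F (act y (base n))) (F (act (a * y) (base n))))

theorem LimMet.sq_conj (hF : LimMet ρ χ N C F) (γ : Γ) (a y : SUGroup n) :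
    Sq F a ((γ : SUGroup n)⁻¹ * y) = Sq F ((γ : SUGroup n) * a * (γ : SUGroup n)⁻¹) y := by
  unfold Sq
  have h1 := hF.equi γ _ (orbit_mem ((γ : SUGroup n)⁻¹ * y))
  have h2 := hF.equi γ _ (orbit_mem (a * ((γ : SUGroup n)⁻¹ * y)))
  have hu : IsUnit (ρ γ) := (Group.isUnit γ).map ρ
  rw [← act_mul] at h1 h2
  rw [mul_inv_cancel_left] at h1
  rw [h1]
  have e1 : (γ : SUGroup n) * a * (γ : SUGroup n)⁻¹ * y = (γ : SUGroup n) * (a * ((γ : SUGroup n)⁻¹ * y)) := by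
    group
  rw [e1, h2, sig_conj' hu]

theorem LimMet.aem_Sq (hF : LimMet ρ χ N C F) (a : SUGroup n) : AEMeasurable (Sq F a) (mu n) :=
  (aesm_sig hF.meas (hF.meas_left a) hF.opos fun _ => hF.opos _).aemeasurable.ennreal_ofReal

theorem lp_ch_le_norm (b : SUGroup n) : ch b ≤ ‖b.toMatrix - 1‖ + 1 := by
  have h1 : ch b ≤ ‖b.toMatrix‖ := Ax.norm_entry_le_op _ _ _
  have h2 : ‖b.toMatrix‖ ≤ ‖b.toMatrix - 1‖ + ‖(1 : Mat (n + 1))‖ := by
    have := norm_add_le (b.toMatrix - 1) 1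
    simpa using this
  have h3 : ‖(1 : Mat (n + 1))‖ = 1 := norm_one
  linarith

/-- the local estimate for arbitrary translations -/
theorem LimMet.lint_any (hF : LimMet ρ χ N C F) (hΓ : Coc Γ) (hχ : Cut Γ χ) {T : ℝ} (hT : 1 ≤ T) :
    ∃ M : ℝ, 0 ≤ M ∧ ∀ (b : SUGroup n) (r : ℝ), 0 ≤ r → ‖b.toMatrix - 1‖ ≤ r →
      ∫⁻ y, ib T y * Sq F b y ∂(mu n) ≤ ENNReal.ofReal (M * (r ^ 2 + r ^ (2 * N + 2))) := by
  obtain ⟨M, hM0, hM⟩ := hF.lint_sig hΓ hχ T
  obtain ⟨R, hR1, hR⟩ := hF.dT_bound T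
  obtain ⟨V, hV⟩ : ∃ V : ℝ, V = (mu n).real {g : SUGroup n | ch g ≤ T} := ⟨_, rfl⟩
  have hV0 : 0 ≤ V := by rw [hV]; exact measureReal_nonneg
  obtain ⟨K, hK⟩ : ∃ K : ℝ, K = m * (2 * R * (|C| * (4 * T) ^ (2 * N))) := ⟨_, rfl⟩
  have hK0 : 0 ≤ K := by rw [hK]; positivity
  refine ⟨M + V * K, by positivity, fun b r hr0 hb => ?_⟩
  rcases le_or_gt r 1 with hr1 | hr1
  · refine (hM b r hr0 hr1 hb).trans (ENNReal.ofReal_le_ofReal ?_)
    have h1 : 0 ≤ r ^ (2 * N + 2) := by positivity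
    have h2 : 0 ≤ r ^ 2 := by positivity
    have h3 : 0 ≤ V * K := by positivity
    nlinarith [mul_nonneg hM0 h1, mul_nonneg h3 h2, mul_nonneg h3 h1]
  · have h1 : ∀ y, ib T y * Sq F b y ≤ ib T y * ENNReal.ofReal (K * r ^ (2 * N)) := by
      intro y
      by_cases hy : ch y ≤ T
      · refine mul_le_mul_right ?_ _
        unfold Sq
        refine ENNReal.ofReal_le_ofReal ?_
        have h2 : ch (b * y) ≤ 4 * T * r := by
          have h3 := ch_mul_le' b y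
          have h4 := lp_ch_le_norm b
          have h5 : ch b ≤ 2 * r := by linarith
          have h6 := ch_pos b
          have h7 := ch_pos y
          calc ch (b * y) ≤ 2 * ch b * ch y := h3
            _ ≤ 2 * (2 * r) * T := by gcongr
            _ = _ := by ring
        have h8 : C * ch (b * y) ^ (2 * N) ≤ |C| * (4 * T) ^ (2 * N) * r ^ (2 * N) := by
          rw [mul_assoc, ← mul_pow]
          exact mul_le_mul (le_abs_self C) (pow_le_pow_left₀ (ch_pos _).le h2 _)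
            (pow_nonneg (ch_pos _).le _) (abs_nonneg _)
        have h9 := (hF.bound (b * y)).trans h8
        have h10 := (hF.boundInv (b * y)).trans h8
        obtain ⟨h11, h12⟩ := hR y hy
        refine (sig_le_norm' _ _).trans ?_
        rw [hK]
        calc (m : ℝ) * (‖(F (act y (base n)))⁻¹‖ * ‖F (act (b * y) (base n))‖ +
              ‖(F (act (b * y) (base n)))⁻¹‖ * ‖F (act y (base n))‖)
            ≤ m * (R * (|C| * (4 * T) ^ (2 * N) * r ^ (2 * N)) +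
              (|C| * (4 * T) ^ (2 * N) * r ^ (2 * N)) * R) := by gcongr
          _ = _ := by ring
      · have : ib T y = 0 := by unfold ib; rw [if_neg hy]
        simp only [this, zero_mul, le_refl]
    calc ∫⁻ y, ib T y * Sq F b y ∂(mu n)
        ≤ ∫⁻ y, ib T y * ENNReal.ofReal (K * r ^ (2 * N)) ∂(mu n) := lintegral_mono h1
      _ = ENNReal.ofReal (V * (K * r ^ (2 * N))) := by
          rw [lintegral_mul_const' _ _ ENNReal.ofReal_ne_top, lint_ib, ← hV, ENNReal.ofReal_mul hV0]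
      _ ≤ _ := by
          refine ENNReal.ofReal_le_ofReal ?_
          have h2 : r ^ (2 * N) ≤ r ^ (2 * N + 2) := pow_le_pow_right₀ hr1.le (by omega)
          have h3 : 0 ≤ r ^ 2 := by positivity
          have h4 : 0 ≤ r ^ (2 * N) := by positivity
          have h5 : 0 ≤ V * K := by positivity
          nlinarith [mul_le_mul_of_nonneg_left h2 h5, mul_nonneg hM0 h3, mul_nonneg h5 h3,
            mul_nonneg hM0 (h4.trans h2)]

/-- The weighted integral over the whole group. -/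
theorem LimMet.lint_all (hF : LimMet ρ χ N C F) (hΓ : Coc Γ) (hχ : Cut Γ χ) {t : ℕ}
    (ht : n + (2 * N + 2) < t) : ∃ M : ℝ, 0 ≤ M ∧ ∀ a : SUGroup n, ‖a.toMatrix - 1‖ ≤ 1 →
      ∫⁻ y, ENNReal.ofReal ((ch y ^ (2 * t))⁻¹) * Sq F a y ∂(mu n) ≤
        ENNReal.ofReal (M * ‖a.toMatrix - 1‖ ^ 2) := by
  obtain ⟨T, hT1, hT⟩ := exists_supp_ball hχ
  have hT0 : 0 < T := by linarith
  obtain ⟨K, hK0, hK⟩ := hF.lint_any hΓ hχ hT1
  obtain ⟨s, hs⟩ : ∃ s : ℕ, t = s + (2 * N + 2) := ⟨t - (2 * N + 2), by omega⟩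
  have hs1 : n < s := by omega
  have hsum := tsum_ch hΓ hχ hs1
  obtain ⟨Z, hZ⟩ : ∃ Z : ℝ, Z = (∑' γ : Γ, ENNReal.ofReal ((ch (γ : SUGroup n) ^ (2 * s))⁻¹)).toReal :=
    ⟨_, rfl⟩
  have hZ0 : 0 ≤ Z := by rw [hZ]; exact ENNReal.toReal_nonneg
  obtain ⟨c, hc⟩ : ∃ c : ℝ, c = (2 * (n + 1)) ^ 2 := ⟨_, rfl⟩
  have hc1 : 1 ≤ c := by
    rw [hc]
    refine one_le_pow₀ ?_
    have : (0 : ℝ) ≤ n := Nat.cast_nonneg n
    linarith
  obtain ⟨B, hB⟩ : ∃ B : ℝ, B = (2 * T) ^ (2 * t) * (K * (2 * c ^ (2 * N + 2))) := ⟨_, rfl⟩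
  have hB0 : 0 ≤ B := by rw [hB]; positivity
  refine ⟨B * Z, by positivity, fun a ha => ?_⟩
  obtain ⟨δ, hδ⟩ : ∃ δ : ℝ, δ = ‖a.toMatrix - 1‖ := ⟨_, rfl⟩
  have hδ0 : 0 ≤ δ := by rw [hδ]; exact norm_nonneg _
  have hδ1 : δ ≤ 1 := by rw [hδ]; exact ha
  have hcont : Continuous fun y : SUGroup n => (ch y ^ (2 * t))⁻¹ :=
    (continuous_ch.pow _).inv₀ fun y => (pow_pos (ch_pos y) _).ne'
  have h2 := lint_unfold hΓ hχ (f := fun y => ENNReal.ofReal ((ch y ^ (2 * t))⁻¹) * Sq F a y)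
    (hcont.measurable.ennreal_ofReal.aemeasurable.mul (hF.aem_Sq a))
  rw [h2, ← hδ]
  have h3 : ∀ γ : Γ, ∫⁻ y, ENNReal.ofReal (χ y) * (ENNReal.ofReal
      ((ch ((γ : SUGroup n)⁻¹ * y) ^ (2 * t))⁻¹) * Sq F a ((γ : SUGroup n)⁻¹ * y)) ∂(mu n) ≤
      ENNReal.ofReal (B * δ ^ 2) * ENNReal.ofReal ((ch (γ : SUGroup n) ^ (2 * s))⁻¹) := by
    intro γ
    obtain ⟨x, hx⟩ : ∃ x : ℝ, x = ch (γ : SUGroup n) := ⟨_, rfl⟩
    have hx1 : 1 ≤ x := by rw [hx]; exact one_le_ch _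
    have hx0 : 0 < x := by linarith
    obtain ⟨p, hp⟩ : ∃ p : ℝ, p = c * x ^ 2 := ⟨_, rfl⟩
    have hp1 : 1 ≤ p := by
      rw [hp]; exact one_le_mul_of_one_le_of_one_le hc1 (one_le_pow₀ hx1)
    have h4 : ∀ y, ENNReal.ofReal (χ y) * (ENNReal.ofReal
        ((ch ((γ : SUGroup n)⁻¹ * y) ^ (2 * t))⁻¹) * Sq F a ((γ : SUGroup n)⁻¹ * y)) ≤
        ENNReal.ofReal ((2 * T) ^ (2 * t) * (x ^ (2 * t))⁻¹) *
          (ib T y * Sq F ((γ : SUGroup n) * a * (γ : SUGroup n)⁻¹) y) := by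
      intro y
      rw [hF.sq_conj]
      by_cases hy : ch y ≤ T
      · rw [mul_left_comm, ← mul_assoc, ← mul_assoc (ENNReal.ofReal ((2 * T) ^ (2 * t) * _))]
        refine mul_le_mul_left ?_ _
        refine mul_le_mul ?_ (hT y) zero_le zero_le
        refine ENNReal.ofReal_le_ofReal ?_
        have h5 := ch_pos ((γ : SUGroup n)⁻¹ * y)
        have h6 := (ch_gamma_le (γ := (γ : SUGroup n)) hy).1
        rw [← hx] at h6
        rw [inv_eq_one_div, div_le_iff₀ (pow_pos h5 _)]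
        have h7 : x ^ (2 * t) ≤ (2 * T) ^ (2 * t) * ch ((γ : SUGroup n)⁻¹ * y) ^ (2 * t) := by
          rw [← mul_pow]; exact pow_le_pow_left₀ hx0.le h6 _
        calc (1 : ℝ) = x ^ (2 * t) * (x ^ (2 * t))⁻¹ := (mul_inv_cancel₀ (by positivity)).symm
          _ ≤ ((2 * T) ^ (2 * t) * ch ((γ : SUGroup n)⁻¹ * y) ^ (2 * t)) * (x ^ (2 * t))⁻¹ :=
              mul_le_mul_of_nonneg_right h7 (by positivity)
          _ = _ := by ring
      · have h6 := hT y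
        have h7 : ib T y = 0 := by unfold ib; rw [if_neg hy]
        rw [h7] at h6
        have h8 : ENNReal.ofReal (χ y) = 0 := le_antisymm h6 zero_le
        rw [h8]; simp
    have h5 : ‖((γ : SUGroup n) * a * (γ : SUGroup n)⁻¹).toMatrix - 1‖ ≤ p * δ := by
      have h6 := lp_conj (γ : SUGroup n)⁻¹ a
      rw [inv_inv, ch_inv, ← hx, ← hc, ← hδ, ← hp] at h6
      exact h6
    calc _ ≤ ∫⁻ y, ENNReal.ofReal ((2 * T) ^ (2 * t) * (x ^ (2 * t))⁻¹) *
          (ib T y * Sq F ((γ : SUGroup n) * a * (γ : SUGroup n)⁻¹) y) ∂(mu n) := lintegral_mono h4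
      _ = ENNReal.ofReal ((2 * T) ^ (2 * t) * (x ^ (2 * t))⁻¹) *
          ∫⁻ y, (ib T y * Sq F ((γ : SUGroup n) * a * (γ : SUGroup n)⁻¹) y) ∂(mu n) :=
          lintegral_const_mul' _ _ ENNReal.ofReal_ne_top
      _ ≤ ENNReal.ofReal ((2 * T) ^ (2 * t) * (x ^ (2 * t))⁻¹) *
          ENNReal.ofReal (K * ((p * δ) ^ 2 + (p * δ) ^ (2 * N + 2))) := by
          gcongr
          exact hK _ _ (by positivity) h5
      _ ≤ _ := by
          rw [← hx, ← ENNReal.ofReal_mul (by positivity), ← ENNReal.ofReal_mul (by positivity)]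
          refine ENNReal.ofReal_le_ofReal ?_
          have h7 : (p * δ) ^ 2 + (p * δ) ^ (2 * N + 2) ≤ 2 * p ^ (2 * N + 2) * δ ^ 2 := by
            have h8 : p ^ 2 ≤ p ^ (2 * N + 2) := pow_le_pow_right₀ hp1 (by omega)
            have h9 : δ ^ (2 * N + 2) ≤ δ ^ 2 := pow_le_pow_of_le_one hδ0 hδ1 (by omega)
            have h10 : 0 ≤ p ^ (2 * N + 2) := by positivity
            rw [mul_pow, mul_pow]
            have h11 := mul_le_mul_of_nonneg_right h8 (show 0 ≤ δ ^ 2 by positivity)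
            have h12 := mul_le_mul_of_nonneg_left h9 h10
            linarith
          have h13 : (x ^ (2 * t))⁻¹ * (x ^ 2) ^ (2 * N + 2) = (x ^ (2 * s))⁻¹ := by
            rw [← pow_mul, inv_mul_eq_div, div_eq_iff (by positivity), inv_mul_eq_div,
              eq_div_iff (by positivity), ← pow_add]
            congr 1
            omega
          calc (2 * T) ^ (2 * t) * (x ^ (2 * t))⁻¹ * (K * ((p * δ) ^ 2 + (p * δ) ^ (2 * N + 2)))
              ≤ (2 * T) ^ (2 * t) * (x ^ (2 * t))⁻¹ * (K * (2 * p ^ (2 * N + 2) * δ ^ 2)) := by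
                gcongr
            _ = (2 * T) ^ (2 * t) * (K * (2 * c ^ (2 * N + 2))) * δ ^ 2 *
                ((x ^ (2 * t))⁻¹ * (x ^ 2) ^ (2 * N + 2)) := by rw [hp, mul_pow]; ring
            _ = _ := by rw [h13, hB]
  refine (ENNReal.tsum_le_tsum h3).trans ?_
  rw [ENNReal.tsum_mul_left, ← ENNReal.ofReal_toReal hsum.ne, ← hZ, ← ENNReal.ofReal_mul (by positivity)]
  refine ENNReal.ofReal_le_ofReal (le_of_eq ?_)
  ring

/-- The almost everywhere estimate of `sig`. -/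
theorem LimMet.P_sig_le (hF : LimMet ρ χ N C F) (hΓ : Coc Γ) (hχ : Cut Γ χ) {t : ℕ}
    (ht : n + (2 * N + 2) < t) : ∃ M : ℝ, 0 ≤ M ∧ ∀ a : SUGroup n, ‖a.toMatrix - 1‖ ≤ 1 →
      ∀ g : SUGroup n, P t (fun v => sig (F v) (F (act a v))) (act g (base n)) ≤
        M * ‖a.toMatrix - 1‖ ^ 2 * ch g ^ (2 * t) := by
  obtain ⟨M, hM0, hM⟩ := hF.lint_all hΓ hχ ht
  have hcs : 0 < cs n t := cs_pos' (by omega)
  refine ⟨2 ^ (2 * t) / cs n t * M, by positivity, fun a ha g => ?_⟩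
  rw [P_orbit]
  have hm : AEStronglyMeasurable (fun x : SUGroup n => kap t x •
      sig (F (act (g * x) (base n))) (F (act a (act (g * x) (base n))))) (mu n) := by
    refine (continuous_kap t).aestronglyMeasurable.smul ?_
    refine aesm_sig (hF.meas_left g) ?_ (fun _ => hF.opos _) fun x => ?_
    · have h1 := hF.meas_left (a * g)
      refine h1.congr (Eventually.of_forall fun x => ?_)
      simp only
      rw [mul_assoc, act_mul a]
    · rw [← act_mul]; exact hF.opos _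
  have hg := ch_pos g
  rw [integral_eq_lintegral_of_nonneg_ae (Eventually.of_forall fun x => ?_) hm]
  · refine ENNReal.toReal_le_of_le_ofReal (by positivity) ?_
    have h1 : ∫⁻ x : SUGroup n, ENNReal.ofReal (kap t x •
        sig (F (act (g * x) (base n))) (F (act a (act (g * x) (base n))))) ∂(mu n) =
        ∫⁻ y : SUGroup n, ENNReal.ofReal (kap t (g⁻¹ * y)) * Sq F a y ∂(mu n) := by
      rw [← lintegral_mul_left_eq_self (μ := mu n)
        (fun y => ENNReal.ofReal (kap t (g⁻¹ * y)) * Sq F a y) g]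
      refine lintegral_congr fun x => ?_
      unfold Sq
      rw [inv_mul_cancel_left, smul_eq_mul, ENNReal.ofReal_mul (kap_nonneg _ _), act_mul a]
    rw [h1]
    have h2 : ∀ y, ENNReal.ofReal (kap t (g⁻¹ * y)) * Sq F a y ≤
        ENNReal.ofReal ((2 * ch g) ^ (2 * t) / cs n t) *
          (ENNReal.ofReal ((ch y ^ (2 * t))⁻¹) * Sq F a y) := by
      intro y
      rw [← mul_assoc, ← ENNReal.ofReal_mul (by positivity)]
      refine mul_le_mul_left (ENNReal.ofReal_le_ofReal ?_) _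
      unfold kap
      have h3 := ch_mul_le' g (g⁻¹ * y)
      rw [mul_inv_cancel_left] at h3
      have h4 := ch_pos y
      have h5 := ch_pos (g⁻¹ * y)
      have h6 : ch y ^ (2 * t) ≤ (2 * ch g) ^ (2 * t) * ch (g⁻¹ * y) ^ (2 * t) := by
        rw [← mul_pow]; exact pow_le_pow_left₀ h4.le h3 _
      have h7 : (ch (g⁻¹ * y) ^ (2 * t))⁻¹ ≤ (2 * ch g) ^ (2 * t) * (ch y ^ (2 * t))⁻¹ := by
        rw [inv_eq_one_div, div_le_iff₀ (pow_pos h5 _)]
        calc (1 : ℝ) = ch y ^ (2 * t) * (ch y ^ (2 * t))⁻¹ := (mul_inv_cancel₀ (by positivity)).symm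
          _ ≤ ((2 * ch g) ^ (2 * t) * ch (g⁻¹ * y) ^ (2 * t)) * (ch y ^ (2 * t))⁻¹ :=
              mul_le_mul_of_nonneg_right h6 (by positivity)
          _ = _ := by ring
      calc (ch (g⁻¹ * y) ^ (2 * t))⁻¹ / cs n t ≤ ((2 * ch g) ^ (2 * t) * (ch y ^ (2 * t))⁻¹) / cs n t :=
            div_le_div_of_nonneg_right h7 hcs.le
        _ = _ := by ring
    calc _ ≤ ∫⁻ y, ENNReal.ofReal ((2 * ch g) ^ (2 * t) / cs n t) *
          (ENNReal.ofReal ((ch y ^ (2 * t))⁻¹) * Sq F a y) ∂(mu n) := lintegral_mono h2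
      _ = ENNReal.ofReal ((2 * ch g) ^ (2 * t) / cs n t) *
          ∫⁻ y, (ENNReal.ofReal ((ch y ^ (2 * t))⁻¹) * Sq F a y) ∂(mu n) :=
          lintegral_const_mul' _ _ ENNReal.ofReal_ne_top
      _ ≤ ENNReal.ofReal ((2 * ch g) ^ (2 * t) / cs n t) *
          ENNReal.ofReal (M * ‖a.toMatrix - 1‖ ^ 2) := by gcongr; exact hM a ha
      _ = _ := by
          rw [← ENNReal.ofReal_mul (by positivity)]
          congr 1
          rw [mul_pow]; ring
  · simp only [smul_eq_mul, Pi.zero_apply]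
    exact mul_nonneg (kap_nonneg _ _) (sig_nonneg (hF.opos _) (by rw [← act_mul]; exact hF.opos _))

/-- RESULT of the unfolding: the limit metric is Lipschitz for left translations, almost everywhere. -/
theorem LimMet.ae_lip (hF : LimMet ρ χ N C F) (hΓ : Coc Γ) (hχ : Cut Γ χ) {t₀ : ℕ}
    (h : ∀ t, t₀ ≤ t → ∀ a : SUGroup n, ∀ᵐ g ∂(mu n),
      sig (F (act g (base n))) (F (act (a * g) (base n))) ≤
        P t (fun v => sig (F v) (F (act a v))) (act g (base n))) :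
    ∃ (N₁ : ℕ) (C₁ : ℝ), 0 ≤ C₁ ∧ ∀ a : SUGroup n, ‖a.toMatrix - 1‖ ≤ 1 → ∀ᵐ g ∂(mu n),
      ‖F (act (a * g) (base n)) - F (act g (base n))‖ ≤
        C₁ * ‖a.toMatrix - 1‖ * ch g ^ (2 * N₁) := by
  obtain ⟨t, ht⟩ : ∃ t : ℕ, t = t₀ + (n + (2 * N + 2) + 1) := ⟨_, rfl⟩
  obtain ⟨M, hM0, hM⟩ := hF.P_sig_le hΓ hχ (t := t) (by omega)
  refine ⟨N + t, (|C| + 1) * 4 ^ (2 * N) * (M + 1), by positivity, fun a ha => ?_⟩
  filter_upwards [h t (by omega) a] with g hg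
  have h1 := hg.trans (hM a ha g)
  have hg1 := one_le_ch g
  have hg0 := ch_pos g
  obtain ⟨R, hR⟩ : ∃ R : ℝ, R = (|C| + 1) * (4 * ch g) ^ (2 * N) := ⟨_, rfl⟩
  have hR0 : 0 < R := by rw [hR]; positivity
  have hbd : ∀ y : SUGroup n, ch y ≤ 4 * ch g → ‖F (act y (base n))‖ ≤ R := by
    intro y hy
    refine (hF.bound y).trans ?_
    rw [hR]
    exact mul_le_mul ((le_abs_self C).trans (by linarith)) (pow_le_pow_left₀ (ch_pos y).le hy _)
      (pow_nonneg (ch_pos y).le _) (by positivity)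
  have h2 := norm_sub_sq_le (hF.opos g) (hF.opos (a * g)) hR0 (hbd g (by linarith))
    (hbd _ (lp_ch_four ha g))
  obtain ⟨δ, hδ⟩ : ∃ δ : ℝ, δ = ‖a.toMatrix - 1‖ := ⟨_, rfl⟩
  have hδ0 : 0 ≤ δ := by rw [hδ]; exact norm_nonneg _
  rw [← hδ] at h1 ⊢
  have h3 : ‖F (act (a * g) (base n)) - F (act g (base n))‖ ^ 2 ≤
      (R * (M + 1) * δ * ch g ^ (2 * t)) ^ 2 := by
    refine h2.trans ((mul_le_mul_of_nonneg_left h1 (by positivity)).trans ?_)
    have h4 : M ≤ (M + 1) ^ 2 := by nlinarith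
    have h5 : ch g ^ (2 * t) ≤ (ch g ^ (2 * t)) ^ 2 := by
      have : 1 ≤ ch g ^ (2 * t) := one_le_pow₀ hg1
      nlinarith
    calc R ^ 2 * (M * δ ^ 2 * ch g ^ (2 * t))
        ≤ R ^ 2 * ((M + 1) ^ 2 * δ ^ 2 * (ch g ^ (2 * t)) ^ 2) := by gcongr
      _ = _ := by ring
  have h6 := (pow_le_pow_iff_left₀ (norm_nonneg _) (by positivity) (by norm_num)).1 h3
  refine h6.trans (le_of_eq ?_)
  rw [hR, mul_pow, show 2 * (N + t) = 2 * N + 2 * t by ring, pow_add]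
  ring

end lim

end Pool.Agent.Lib.MP_5d4057_al.HM
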