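import Pool.Agent.Lib.MP_5d4057_al.HM.LipRA

/-! A metric which is almost everywhere Lipschitz for left translations has a Lipschitz representative. -/

namespace Pool.Agent.Lib.MP_5d4057_al.HM

open Matrix MeasureTheory Filter Topology Pool.Agent.Lib.MP_5d4057_al Pool.Agent.Lib.MP_5d4057_al.Hyb

open scoped ComplexOrder MatrixOrder Matrix.Norms.L2Operator

variable {n m : ℕ} {Γ : Subgroup (SUGroup n)}

private theorem lq_cont_sec : ContinuousOn (sec n) (Cone n) := by
  rw [(isClosedEmbedding_toMatrix n).isInducing.continuousOn_iff]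
  exact (contDiffOn_sec n).continuousOn

private theorem lq_entry (A : Mat m) (i j : Fin m) : ‖A i j‖ ≤ ‖A‖ := by
  have h := A.l2_opNorm_mulVec (WithLp.toLp 2 (Pi.single j (1 : ℂ)))
  have h2 : ‖(WithLp.toLp 2 (A *ᵥ (Pi.single j (1 : ℂ))) : EuclideanSpace ℂ (Fin m))‖ ≤ ‖A‖ := by
    refine h.trans (le_of_eq ?_)
    simp
  have h3 := PiLp.norm_apply_le
    (WithLp.toLp 2 (A *ᵥ (Pi.single j (1 : ℂ))) : EuclideanSpace ℂ (Fin m)) i
  have h4 : (WithLp.toLp 2 (A *ᵥ (Pi.single j (1 : ℂ))) : EuclideanSpace ℂ (Fin m)) i = A i j := by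
    simp
  rw [h4] at h3
  exact h3.trans h2

/-- a positive definite matrix is bounded below by the norm of its inverse -/
private theorem lq_one_le {A : Mat m} (hA : A.PosDef) {c : ℝ} (hc : ‖A⁻¹‖ ≤ c) :
    (1 : Mat m) ≤ ((m * c + 1 : ℝ) : ℂ) • A := by
  have h0 : 0 ≤ c := (norm_nonneg _).trans hc
  have hpos : 0 < (m : ℝ) * c + 1 := by positivity
  have h1 : A⁻¹ ≤ ((m * c + 1 : ℝ) : ℂ) • (1 : Mat m) := by
    refine (le_trace_smul_one hA.inv.posSemidef).trans ?_
    have h2 : (A⁻¹).trace.re ≤ m * c + 1 := by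
      have h3 := trace_le_norm A⁻¹
      have h4 : (m : ℝ) * ‖A⁻¹‖ ≤ m * c := mul_le_mul_of_nonneg_left hc (Nat.cast_nonneg m)
      linarith
    rw [Matrix.le_iff, ← sub_smul]
    refine PosSemidef.one.smul ?_
    rw [← Complex.ofReal_sub]
    exact_mod_cast sub_nonneg.2 h2
  have h2 := inv_le_inv_of_le hA.inv h1
  have hu : IsUnit A.det := (Matrix.isUnit_iff_isUnit_det _).mp hA.isUnit
  rw [Matrix.nonsing_inv_nonsing_inv _ hu] at h2
  have h3 : (((m * c + 1 : ℝ) : ℂ) • (1 : Mat m))⁻¹ = ((m * c + 1 : ℝ) : ℂ)⁻¹ • (1 : Mat m) := by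
    refine Matrix.inv_eq_right_inv ?_
    rw [smul_mul_smul_comm, Matrix.one_mul, mul_inv_cancel₀, one_smul]
    exact_mod_cast hpos.ne'
  rw [h3] at h2
  rw [Matrix.le_iff] at h2 ⊢
  have h4 := h2.smul (show (0 : ℂ) ≤ ((m * c + 1 : ℝ) : ℂ) by exact_mod_cast hpos.le)
  rw [smul_sub, smul_smul, mul_inv_cancel₀, one_smul] at h4
  · exact h4
  · exact_mod_cast hpos.ne'

private theorem lq_posDef {A : Mat m} {c : ℝ} (hc : 0 < c) (hA : (1 : Mat m) ≤ (c : ℂ) • A) :
    A.PosDef := by
  rw [Matrix.le_iff] at hA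
  have h1 := Matrix.PosDef.one.add_posSemidef hA
  rw [add_sub_cancel] at h1
  have h2 := h1.smul (show (0 : ℂ) < ((c⁻¹ : ℝ) : ℂ) by exact_mod_cast inv_pos.2 hc)
  rw [smul_smul, ← Complex.ofReal_mul, inv_mul_cancel₀ hc.ne', Complex.ofReal_one, one_smul] at h2
  exact h2

/-- equality almost everywhere of continuous functions on the group -/
private theorem lq_eq {E : Type} [TopologicalSpace E] [T2Space E] {f g : SUGroup n → E}
    (hf : Continuous f) (hg : Continuous g) (h : ∀ᵐ x ∂(mu n), f x = g x) (x : SUGroup n) :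
    f x = g x :=
  congrFun ((hf.ae_eq_iff_eq (mu n) hg).1 h) x

/-- a closed condition which holds almost everywhere holds everywhere -/
private theorem lq_all {p : SUGroup n → Prop} (hp : IsClosed {g | p g})
    (h : ∀ᵐ g ∂(mu n), p g) (g : SUGroup n) : p g := by
  have hd := Measure.dense_of_ae h
  have := hp.closure_eq ▸ hd g
  exact this

/-- RESULT -/
theorem exists_rep {ρ : Γ →* Mat m} {N : ℕ} {C : ℝ} {F : Vec n → Mat m} (hom : Homog F)
    (equi : Equi ρ F) (pos : ∀ v ∈ Cone n, (F v).PosDef)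
    (meas : AEStronglyMeasurable (fun g : SUGroup n => F (act g (base n))) (mu n))
    (bound : ∀ g : SUGroup n, ‖F (act g (base n))‖ ≤ C * ch g ^ (2 * N))
    (boundInv : ∀ g : SUGroup n, ‖(F (act g (base n)))⁻¹‖ ≤ C * ch g ^ (2 * N))
    {C1 : ℝ} {N1 : ℕ} (hl : ∀ a : SUGroup n, ‖a.toMatrix - 1‖ ≤ 1 → ∀ᵐ g ∂(mu n),
      ‖F (act (a * g) (base n)) - F (act g (base n))‖ ≤
        C1 * ‖a.toMatrix - 1‖ * ch g ^ (2 * N1)) :
    ∃ F' : Vec n → Mat m, Met ρ F' ∧
      (∀ᵐ g ∂(mu n), F' (act g (base n)) = F (act g (base n))) ∧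
      ∃ (N' : ℕ) (C' : ℝ), Adm N' C' F' ∧ Adm N' C' (fun v => (F' v)⁻¹) ∧
        ∀ a g : SUGroup n, ‖a.toMatrix - 1‖ ≤ 1 →
          ‖F' (act (a * g) (base n)) - F' (act g (base n))‖ ≤
            C' * ‖a.toMatrix - 1‖ * ch g ^ (2 * N') := by
  obtain ⟨f, hfc, hfe, hfl⟩ := exists_ext meas hl
  -- invariance under the stabiliser of the base point
  have hK : ∀ (g k : SUGroup n) (c : ℂ), c ≠ 0 → act k (base n) = c • base n → f (g * k) = f g := by
    intro g k c hc hk
    refine lq_eq (hfc.comp (continuous_id.mul continuous_const)) hfc ?_ g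
    have h1 : ∀ᵐ x ∂(mu n), f (x * k) = F (act (x * k) (base n)) :=
      (measurePreserving_mul_right (mu n) k).quasiMeasurePreserving.ae hfe
    filter_upwards [h1, hfe] with x e1 e2
    show f (x * k) = f x
    rw [e1, e2, act_mul, hk, act_smul, hom c hc _ (orbit_mem x)]
  obtain ⟨F', hF'⟩ : ∃ F' : Vec n → Mat m, F' = fun v => f (sec n v) := ⟨_, rfl⟩
  have horb : ∀ g : SUGroup n, F' (act g (base n)) = f g := by
    intro g
    obtain ⟨c, hc, h⟩ := sec_spec (orbit_mem g)
    have h1 : act (g⁻¹ * sec n (act g (base n))) (base n) = c⁻¹ • base n := by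
      have h2 : act (sec n (act g (base n))) (base n) = c⁻¹ • act g (base n) := by
        conv_rhs => rw [h]
        rw [inv_smul_smul₀ hc]
      rw [act_mul, h2, act_smul, ← act_mul, inv_mul_cancel, act_one]
    have h2 := hK g _ c⁻¹ (inv_ne_zero hc) h1
    rw [mul_inv_cancel_left] at h2
    rw [hF']
    exact h2
  have hhom : Homog F' := by
    intro c hc v hv
    rw [hF']
    show f (sec n (c • v)) = f (sec n v)
    rw [sec_smul hv hc]
  have hcont : ContinuousOn F' (Cone n) := by
    rw [hF']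
    exact hfc.comp_continuousOn lq_cont_sec
  have hC0 : 0 ≤ C := by
    have h1 := (norm_nonneg _).trans (bound 1)
    rwa [ch_one, one_pow, mul_one] at h1
  -- bounds
  have hb : ∀ g : SUGroup n, ‖f g‖ ≤ C * ch g ^ (2 * N) := by
    refine lq_all (isClosed_le hfc.norm (continuous_const.mul (continuous_ch.pow _))) ?_
    filter_upwards [hfe] with g hg
    rw [hg]
    exact bound g
  have hlow : ∀ g : SUGroup n,
      (1 : Mat m) ≤ ((m * (C * ch g ^ (2 * N)) + 1 : ℝ) : ℂ) • f g := by
    have hcc : Continuous fun g : SUGroup n => ((m * (C * ch g ^ (2 * N)) + 1 : ℝ) : ℂ) :=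
      Complex.continuous_ofReal.comp
        ((continuous_const.mul (continuous_const.mul (continuous_ch.pow _))).add
          continuous_const)
    have hcs : Continuous fun g : SUGroup n =>
        ((m * (C * ch g ^ (2 * N)) + 1 : ℝ) : ℂ) • f g := hcc.smul hfc
    refine lq_all (isClosed_le continuous_const hcs) ?_
    · filter_upwards [hfe] with g hg
      rw [hg]
      exact lq_one_le (pos _ (orbit_mem g)) (boundInv g)
  have hposf : ∀ g, (f g).PosDef := by
    intro g
    refine lq_posDef ?_ (hlow g)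
    have := ch_pos g
    positivity
  have hinv : Continuous fun g => (f g)⁻¹ := by
    refine continuous_iff_continuousAt.2 fun g => ?_
    obtain ⟨u, hu⟩ := (hposf g).isUnit
    have h1 : ContinuousAt (Ring.inverse : Mat m → Mat m) (f g) := by
      rw [← hu]
      exact NormedRing.inverse_continuousAt u
    have e : (fun g => (f g)⁻¹) = Ring.inverse ∘ f := by
      funext w
      rw [Matrix.nonsing_inv_eq_ringInverse, Function.comp_apply]
    rw [e]
    exact h1.comp hfc.continuousAt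
  have hbi : ∀ g : SUGroup n, ‖(f g)⁻¹‖ ≤ C * ch g ^ (2 * N) := by
    refine lq_all (isClosed_le hinv.norm (continuous_const.mul (continuous_ch.pow _))) ?_
    filter_upwards [hfe] with g hg
    rw [hg]
    exact boundInv g
  have hpos : ∀ v ∈ Cone n, (F' v).PosDef := by
    intro v _
    rw [hF']
    exact hposf _
  have hequi : Equi ρ F' := by
    intro γ v hv
    obtain ⟨g, c, hc, rfl⟩ := exists_act_eq hv
    rw [act_smul, hhom c hc _ (act_mem _ (orbit_mem g)), hhom c hc _ (orbit_mem g), ← act_mul,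
      horb, horb]
    have hcr : Continuous fun x => ρ γ * f x * (ρ γ)ᴴ :=
      (continuous_const.mul hfc).mul continuous_const
    refine lq_eq (hfc.comp (continuous_const.mul continuous_id)) hcr ?_ g
    have h1 : ∀ᵐ x ∂(mu n), f ((γ : SUGroup n) * x) = F (act ((γ : SUGroup n) * x) (base n)) :=
      (measurePreserving_mul_left (mu n) (γ : SUGroup n)).quasiMeasurePreserving.ae hfe
    filter_upwards [h1, hfe] with x e1 e2
    show f ((γ : SUGroup n) * x) = ρ γ * f x * (ρ γ)ᴴ
    rw [e1, e2, act_mul]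
    exact equi γ _ (orbit_mem x)
  have hch : ∀ a : SUGroup n, ‖a.toMatrix - 1‖ ≤ 1 → ch a ≤ 2 := by
    intro a ha
    have h1 : ‖(a.toMatrix - 1) (Fin.last n) (Fin.last n)‖ ≤ ‖a.toMatrix - 1‖ :=
      lq_entry _ _ _
    have h2 : a.toMatrix (Fin.last n) (Fin.last n) =
        (a.toMatrix - 1) (Fin.last n) (Fin.last n) + 1 := by
      rw [Matrix.sub_apply, Matrix.one_apply_eq]
      ring
    rw [ch, h2]
    refine (norm_add_le _ _).trans ?_
    rw [norm_one]
    linarith
  have hC1 : 0 ≤ C * (4 ^ (2 * N) + 1) := by positivity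
  obtain ⟨D, hD⟩ : ∃ D : ℝ, D = max C (max C1 (C * (4 ^ (2 * N) + 1))) := ⟨_, rfl⟩
  have hDC : C ≤ D := by rw [hD]; exact le_max_left _ _
  have hDC1 : C1 ≤ D := by rw [hD]; exact (le_max_left _ _).trans (le_max_right _ _)
  have hDC2 : C * (4 ^ (2 * N) + 1) ≤ D := by
    rw [hD]
    exact (le_max_right _ _).trans (le_max_right _ _)
  have hD0 : 0 ≤ D := hC0.trans hDC
  have hmono : ∀ g : SUGroup n, ∀ k, k ≤ N + N1 → ch g ^ (2 * k) ≤ ch g ^ (2 * (N + N1)) := by
    intro g k hk
    exact pow_le_pow_right₀ (one_le_ch g) (by omega)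
  refine ⟨F', ⟨hhom, hcont, hpos, hequi⟩, ?_, N + N1, D, ⟨?_, fun g => ?_⟩, ⟨?_, fun g => ?_⟩,
    fun a g ha => ?_⟩
  · filter_upwards [hfe] with g hg
    rw [horb, hg]
  · simp only [horb]
    exact hfc.aestronglyMeasurable
  · rw [horb]
    refine (hb g).trans ?_
    exact mul_le_mul hDC (hmono g N (by omega)) (by
      have := ch_pos g
      positivity) hD0
  · simp only [horb]
    exact hinv.aestronglyMeasurable
  · simp only [horb]
    refine (hbi g).trans ?_
    exact mul_le_mul hDC (hmono g N (by omega)) (by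
      have := ch_pos g
      positivity) hD0
  · rw [horb, horb]
    have hcg := ch_pos g
    rcases ha.lt_or_eq with h1 | h1
    · refine (hfl a g h1).trans ?_
      refine mul_le_mul ?_ (hmono g N1 (by omega)) (by positivity) (by positivity)
      exact mul_le_mul_of_nonneg_right hDC1 (norm_nonneg _)
    · rw [h1, mul_one]
      have e1 : ‖f (a * g)‖ ≤ C * (4 ^ (2 * N) * ch g ^ (2 * N)) := by
        refine (hb _).trans (mul_le_mul_of_nonneg_left ?_ hC0)
        rw [← mul_pow]
        refine pow_le_pow_left₀ (ch_pos _).le ?_ _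
        refine (ch_mul_le' a g).trans ?_
        have := hch a ha
        nlinarith
      have e2 := hb g
      have e3 : ‖f (a * g) - f g‖ ≤ C * (4 ^ (2 * N) + 1) * ch g ^ (2 * N) := by
        refine (norm_sub_le _ _).trans ?_
        linarith
      refine e3.trans ?_
      exact mul_le_mul hDC2 (hmono g N (by omega)) (by positivity) hD0

end Pool.Agent.Lib.MP_5d4057_al.HM
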