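import Pool.Agent.Lib.MP_5d4057_al.HM.LipP
import Pool.Agent.Lib.MP_5d4057_al.HM.LipE
import Pool.Agent.Lib.MP_5d4057_al.HM.LipR
import Pool.Agent.Lib.MP_5d4057_al.HM.AA

/-! The limit metric is Lipschitz for left translations: `sig_le_P_of` (LipP), the local integral estimate
`integral_sig_le` (LipD), unfolding `LimMet.ae_lip` (LipE), the continuous representative `exists_rep` (LipR). -/

namespace Pool.Agent.Lib.MP_5d4057_al.HM

open Matrix MeasureTheory Filter Topology Pool.Agent.Lib.MP_5d4057_al Pool.Agent.Lib.MP_5d4057_al.Hyb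

open scoped ComplexOrder MatrixOrder Matrix.Norms.L2Operator

variable {n m : ℕ} {Γ : Subgroup (SUGroup n)}

/-- The two-point function is below its average (blueprint E6): for `a ∈ G` let
`u(v) = tr (F(v)⁻¹ F(a v)) + tr (F(a v)⁻¹ F(v)) - 2m = sig (F v) (F (a v))`; then `u ≤ P_t u` almost everywhere. -/
theorem sig_le_P (hn : 1 ≤ n) (hΓ : Coc Γ) {ρ : Γ →* Mat m} {χ : SUGroup n → ℝ} (hχ : Cut Γ χ) (N : ℕ) :
    ∃ t₀ : ℕ, ∀ t, t₀ ≤ t →
    ∀ (C : ℝ) (F : Vec n → Mat m), LimMet ρ χ N C F → ∀ a : SUGroup n, ∀ᵐ g ∂(mu n),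
      sig (F (act g (base n))) (F (act (a * g) (base n))) ≤
        P t (fun v => sig (F v) (F (act a v))) (act g (base n)) := by
  obtain ⟨t₀, ht₀⟩ := sig_le_P_of hn (ρ := ρ) (χ := χ) N
  refine ⟨t₀, fun t ht C F hF a => ?_⟩
  obtain ⟨Φ, h1, _, h3, h4⟩ := hF.exists_moll_ae hΓ hχ
  exact ht₀ t ht C F hF ⟨Φ, h1, h3, h4⟩ a

/-- RESULT: the limit metric is almost everywhere equal to a metric which is Lipschitz for left translations. -/
theorem exists_lip (hn : 1 ≤ n) (hΓ : Coc Γ) {χ : SUGroup n → ℝ} (hχ : Cut Γ χ)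
    {ρ : Γ →* Mat m} {N : ℕ} {C : ℝ} {F : Vec n → Mat m} (hF : LimMet ρ χ N C F) :
    ∃ F' : Vec n → Mat m, Met ρ F' ∧
      (∀ᵐ g ∂(mu n), F' (act g (base n)) = F (act g (base n))) ∧
      ∃ (N' : ℕ) (C' : ℝ), Adm N' C' F' ∧ Adm N' C' (fun v => (F' v)⁻¹) ∧
        ∀ a g : SUGroup n, ‖a.toMatrix - 1‖ ≤ 1 →
          ‖F' (act (a * g) (base n)) - F' (act g (base n))‖ ≤
            C' * ‖a.toMatrix - 1‖ * ch g ^ (2 * N') := by
  obtain ⟨t₀, ht₀⟩ := sig_le_P hn hΓ (ρ := ρ) hχ N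
  obtain ⟨N₁, C₁, _, h1⟩ := hF.ae_lip hΓ hχ fun t ht a => ht₀ t ht C F hF a
  exact exists_rep hF.hom hF.equi hF.pos hF.meas hF.bound hF.boundInv h1

end Pool.Agent.Lib.MP_5d4057_al.HM
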