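import Pool.Agent.Lib.MP_5d4057_al.HM.RegA

/-! Left averages of a `C¹` function (used in the regularity part, blueprint E7). -/

namespace Pool.Agent.Lib.MP_5d4057_al.HM

open Matrix MeasureTheory Filter Topology Pool.Agent.Lib.MP_5d4057_al Pool.Agent.Lib.MP_5d4057_al.Hyb

open scoped ComplexOrder MatrixOrder Matrix.Norms.L2Operator

variable {n m : ℕ} {E : Type} [NormedAddCommGroup E] [NormedSpace ℝ E]

namespace Gr

open Lv

/-- The linear map `u ↦ g u`. -/
noncomputable def actL (g : SUGroup n) : Vec n →L[ℝ] Vec n := (tra g 1 one_ne_zero).toContinuousLinearMap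

theorem actL_apply (g : SUGroup n) (u : Vec n) : actL g u = act g u := by
  show tra g 1 one_ne_zero u = act g u
  rw [tra_apply, one_smul]

theorem continuous_actL : Continuous (actL : SUGroup n → Vec n →L[ℝ] Vec n) := by
  rw [continuous_clm_apply]
  intro u
  simp only [actL_apply]
  exact Ax.continuous_act_right u

attribute [local instance] Lv.instMS Lv.instBS

/-- The derivative of a left average of a `C¹` function. -/
theorem lav_fderiv_apply [CompleteSpace E] {Φ : Mat (n + 1) → ℝ} (hΦ : Test n Φ) {F : Vec n → E}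
    (hh : Homog F) (hc : ContDiffOn ℝ 1 F (Cone n)) {v : Vec n} (hv : v ∈ Cone n) (ξ : Vec n) :
    fderiv ℝ (lav Φ F) v ξ =
      ∫ a : SUGroup n, Φ a.toMatrix • fderiv ℝ F (act a v) (act a ξ) ∂(mu n) := by
  obtain ⟨R, hR1, hR⟩ := exists_R hΦ
  have hΦm := integrable_phi hΦ
  obtain ⟨Ω, hΩ⟩ : ∃ Ω : Set (Vec n × Mat (n + 1)), Ω = {p | p.2 *ᵥ p.1 ∈ Cone n} := ⟨_, rfl⟩
  have hΩo : IsOpen Ω := by
    rw [hΩ]
    exact (isOpen_cone n).preimage (contDiff_mulVec n).continuous
  have hψ : ContDiffOn ℝ 1 (Function.uncurry fun (w : Vec n) (X : Mat (n + 1)) => F (X *ᵥ w))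
      Ω := by
    refine hc.comp ((contDiff_mulVec n).of_le (WithTop.coe_le_coe.2 le_top)).contDiffOn ?_
    intro p hp
    rw [hΩ] at hp
    exact hp
  have hsub : Cone n ×ˢ kb n R ⊆ Ω := by
    rintro ⟨w, X⟩ ⟨hw, b, -, rfl⟩
    rw [hΩ]
    exact act_mem b hw
  have heq' : lav Φ F =ᶠ[𝓝 v] fun w => ∫ a : SUGroup n,
      (ContinuousLinearMap.lsmul ℝ ℝ : ℝ →L[ℝ] E →L[ℝ] E).flip (F (ub R a *ᵥ w))
        (Φ a.toMatrix) ∂(mu n) := by
    filter_upwards [(isOpen_cone n).mem_nhds hv] with w hw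
    rw [lav_eq hh hw]
    refine integral_congr_ae (Eventually.of_forall fun a => ?_)
    show Φ a.toMatrix • F (act a w) = Φ a.toMatrix • F (ub R a *ᵥ w)
    by_cases ha : ch a ≤ R
    · rw [ub, if_pos ha]
      rfl
    · rw [phi_zero hR ha, zero_smul, zero_smul]
  have h1 := fderiv_param_apply
    ((ContinuousLinearMap.lsmul ℝ ℝ : ℝ →L[ℝ] E →L[ℝ] E).flip)
    (Φ := fun (w : Vec n) (X : Mat (n + 1)) => F (X *ᵥ w))
    (isOpen_cone n) hΩo (isCompact_kb n R) hsub hψ (measurable_ub R).aemeasurable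
    (ub_mem hR1) hΦm hv ξ
  rw [heq'.fderiv_eq, h1]
  refine integral_congr_ae (Eventually.of_forall fun a => ?_)
  show Φ a.toMatrix • fderiv ℝ (fun w => F (ub R a *ᵥ w)) v ξ =
    Φ a.toMatrix • fderiv ℝ F (act a v) (act a ξ)
  by_cases ha : ch a ≤ R
  · have e : (fun w : Vec n => F (ub R a *ᵥ w)) = fun w => F (actL a w) := by
      funext w
      rw [ub, if_pos ha, actL_apply]
      rfl
    have hd : HasFDerivAt F (fderiv ℝ F (act a v)) (actL a v) := by
      rw [actL_apply]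
      exact ((hc.contDiffAt ((isOpen_cone n).mem_nhds (act_mem a hv))).differentiableAt
        (by norm_num)).hasFDerivAt
    have h2 : HasFDerivAt (fun w => F (actL a w)) ((fderiv ℝ F (act a v)).comp (actL a)) v :=
      hd.comp v (actL a).hasFDerivAt
    rw [e, h2.fderiv, ContinuousLinearMap.comp_apply, actL_apply]
  · rw [phi_zero hR ha, zero_smul, zero_smul]

end Gr

/-- The derivative of the left averages of a `C¹` function converges: by `lav_eq`
`lav Φ F v = ∫ Φ(a) F(a v) da`, so `D (lav Φ F) v [ξ] = ∫ Φ(a) DF(a v)[a ξ] da`, and the integrand is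
continuous at `a = 1`. -/
theorem lav_fderiv_tendsto [CompleteSpace E] {F : Vec n → E} (hh : Homog F)
    (hc : ContDiffOn ℝ 1 F (Cone n))
    {Φ : ℕ → Mat (n + 1) → ℝ} {δ : ℕ → ℝ} (hδ : Tendsto δ atTop (𝓝 0))
    (hΦ : ∀ j, Moll n (δ j) (Φ j)) {v : Vec n} (hv : v ∈ Cone n) :
    Tendsto (fun j => fderiv ℝ (lav (Φ j) F) v) atTop (𝓝 (fderiv ℝ F v)) := by
  obtain ⟨H, hH⟩ : ∃ H : SUGroup n → (Vec n →L[ℝ] E),
      H = fun a => (fderiv ℝ F (act a v)).comp (Gr.actL a) := ⟨_, rfl⟩
  have hHa : ∀ a ξ, H a ξ = fderiv ℝ F (act a v) (act a ξ) := by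
    intro a ξ
    rw [hH, ContinuousLinearMap.comp_apply, Gr.actL_apply]
  have hHc : Continuous H := by
    rw [hH]
    have h1 : Continuous fun a : SUGroup n => fderiv ℝ F (act a v) :=
      (hc.continuousOn_fderiv_of_isOpen (isOpen_cone n) le_rfl).comp_continuous
        (Ax.continuous_act_right v) fun a => act_mem a hv
    exact h1.clm_comp Gr.continuous_actL
  have hH1 : H 1 = fderiv ℝ F v := by
    ext ξ
    rw [hHa, act_one, act_one]
  rw [Metric.tendsto_atTop]
  intro ε hε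
  have hev : ∀ᶠ a : SUGroup n in 𝓝 1, ‖H a - H 1‖ < ε / 2 := by
    have h1 : Continuous fun a : SUGroup n => ‖H a - H 1‖ := (hHc.sub continuous_const).norm
    refine h1.continuousAt.eventually (gt_mem_nhds ?_)
    simp only [sub_self, norm_zero]
    positivity
  rw [(isClosedEmbedding_toMatrix n).isInducing.nhds_eq_comap, Filter.eventually_comap,
    toMatrix_one, Metric.eventually_nhds_iff] at hev
  obtain ⟨δ₀, hδ₀, h⟩ := hev
  obtain ⟨j₀, hj₀⟩ := (hδ.eventually (gt_mem_nhds hδ₀)).exists_forall_of_atTop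
  refine ⟨j₀, fun j hj => ?_⟩
  have hMo := hΦ j
  have hcont : Continuous fun a : SUGroup n => (Φ j) a.toMatrix :=
    hMo.test.smooth.continuous.comp (continuous_toMatrix n)
  have hsup : HasCompactSupport fun a : SUGroup n => (Φ j) a.toMatrix :=
    hMo.test.supp.comp_isClosedEmbedding (isClosedEmbedding_toMatrix n)
  have hi : Integrable (fun a : SUGroup n => (Φ j) a.toMatrix) (mu n) :=
    hcont.integrable_of_hasCompactSupport hsup
  rw [dist_eq_norm]
  refine lt_of_le_of_lt (ContinuousLinearMap.opNorm_le_bound _ (by positivity : 0 ≤ ε / 2)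
    fun ξ => ?_) (half_lt_self hε)
  have hi2 : Integrable (fun a : SUGroup n => (Φ j) a.toMatrix • H a ξ) (mu n) := by
    refine Continuous.integrable_of_hasCompactSupport
      (hcont.smul (hHc.clm_apply continuous_const)) ?_
    exact hsup.smul_right
  have e1 : (fderiv ℝ (lav (Φ j) F) v - fderiv ℝ F v) ξ =
      ∫ a : SUGroup n, (Φ j) a.toMatrix • ((H a - H 1) ξ) ∂(mu n) := by
    rw [_root_.sub_apply, Gr.lav_fderiv_apply hMo.test hh hc hv ξ]
    simp only [_root_.sub_apply, smul_sub, ← hHa]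
    rw [integral_sub hi2 (hi.smul_const _), integral_smul_const, hMo.int, one_smul, hH1]
  have e2 : ε / 2 * ‖ξ‖ = ∫ a : SUGroup n, (Φ j) a.toMatrix * (ε / 2 * ‖ξ‖) ∂(mu n) := by
    rw [integral_mul_const, hMo.int, one_mul]
  rw [e1, e2]
  refine norm_integral_le_of_norm_le (hi.mul_const _) (Eventually.of_forall fun a => ?_)
  rw [norm_smul, Real.norm_of_nonneg (hMo.test.nonneg _)]
  by_cases ha : (Φ j) a.toMatrix = 0
  · rw [ha, zero_mul, zero_mul]
  · refine mul_le_mul_of_nonneg_left ?_ (hMo.test.nonneg _)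
    have h3 : ‖a.toMatrix - 1‖ < δ₀ := by
      by_contra h4
      exact ha (hMo.small _ ((hj₀ j hj).trans_le (not_lt.1 h4)))
    refine ((H a - H 1).le_opNorm ξ).trans (mul_le_mul_of_nonneg_right ?_ (norm_nonneg _))
    exact (h (y := a.toMatrix) (by rw [dist_eq_norm]; exact h3) a rfl).le

end Pool.Agent.Lib.MP_5d4057_al.HM
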