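import Pool.Agent.Lib.MP_5d4057_al.HM.RegH
import Pool.Agent.Lib.MP_5d4057_al.HM.RegD

/-! Regularity of Lipschitz metrics (blueprint E7): mollification, the first derivative, the equation
for the averages, the second derivative. -/

namespace Pool.Agent.Lib.MP_5d4057_al.HM.Gr

open Matrix MeasureTheory Filter Topology Pool.Agent.Lib.MP_5d4057_al Pool.Agent.Lib.MP_5d4057_al.Hyb

open scoped ComplexOrder MatrixOrder Matrix.Norms.L2Operator

variable {n m : ℕ} {E : Type} [NormedAddCommGroup E] [NormedSpace ℝ E] [CompleteSpace E]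

theorem moll_seq (n : ℕ) : ∃ (Φ : ℕ → Mat (n + 1) → ℝ) (δ : ℕ → ℝ),
    Tendsto δ atTop (𝓝 0) ∧ (∀ j, Moll n 1 (Φ j)) ∧ ∀ j, Moll n (δ j) (Φ j) := by
  have h : ∀ j : ℕ, ∃ Φ : Mat (n + 1) → ℝ, Moll n (1 / ((j : ℝ) + 1)) Φ := by
    intro j
    obtain ⟨Φ, h1, h2, h3⟩ := exists_moll n (ε := 1 / ((j : ℝ) + 1)) (by positivity)
    exact ⟨Φ, h1, h2, h3⟩
  choose Φ hΦ using h
  refine ⟨Φ, fun j => 1 / ((j : ℝ) + 1), tendsto_one_div_add_atTop_nhds_zero_nat, fun j => ?_, hΦ⟩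
  refine ⟨(hΦ j).test, (hΦ j).int, fun A hA => (hΦ j).small A (lt_of_le_of_lt ?_ hA)⟩
  rw [div_le_one (by positivity)]
  have : (0 : ℝ) ≤ j := Nat.cast_nonneg j
  linarith

theorem adm_lav {N : ℕ} {C : ℝ} {F : Vec n → E} (hF : Adm N C F)
    {Φ : Mat (n + 1) → ℝ} (hΦ : Moll n 1 Φ) : Adm N (C * 4 ^ (2 * N)) (lav Φ F) :=
  ⟨((lav_contDiffOn hΦ.test hF).continuousOn.comp_continuous continuous_orbit
    orbit_mem).aestronglyMeasurable, Ax.lav_bound ⟨hΦ.test, hΦ.int, hΦ.small⟩ hF⟩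

theorem lav_pt {F : Vec n → E} (hh : Homog F) (hc : ContinuousOn F (Cone n))
    {Φ : ℕ → Mat (n + 1) → ℝ} {δ : ℕ → ℝ} (hδ : Tendsto δ atTop (𝓝 0))
    (hΦ : ∀ j, Moll n (δ j) (Φ j)) {v : Vec n} (hv : v ∈ Cone n) :
    Tendsto (fun j => lav (Φ j) F v) atTop (𝓝 (F v)) := by
  obtain ⟨g, c, hc0, rfl⟩ := exists_act_eq hv
  rw [hh c hc0 _ (orbit_mem g)]
  have e : ∀ j, lav (Φ j) F (c • act g (base n)) = lav (Φ j) F (act g (base n)) := fun j =>
    lav_homog (Φ j) F c hc0 _ (orbit_mem g)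
  simp only [e]
  rw [Metric.tendsto_atTop]
  intro ε hε
  obtain ⟨δ₀, hδ₀, h⟩ := lav_approx hh hc (ch g) (half_pos hε)
  obtain ⟨j₀, hj₀⟩ := (hδ.eventually (gt_mem_nhds hδ₀)).exists_forall_of_atTop
  refine ⟨j₀, fun j hj => ?_⟩
  rw [dist_eq_norm]
  have h1 := h (Φ j) (hΦ j).test (hΦ j).int
    (fun A hA => (hΦ j).small A ((hj₀ j hj).trans hA)) g le_rfl
  exact h1.trans_lt (half_lt_self hε)

omit [CompleteSpace E] in
theorem P_congr (s : ℕ) {f h : Vec n → E} (e : ∀ v ∈ Cone n, f v = h v) (v : Vec n) :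
    P s f v = P s h v := by
  unfold P
  refine integral_congr_ae (Eventually.of_forall fun y => ?_)
  simp only [e _ (orbit_mem y)]

/-- The difference of two consecutive averages of the mollified metric. -/
theorem lav_step (hn : 1 ≤ n) (N : ℕ) : ∃ s₀ : ℕ, ∀ s, s₀ ≤ s → ∀ (C : ℝ) (F : Vec n → E),
    Homog F → Adm N C F → ∀ Φ : Mat (n + 1) → ℝ, Test n Φ → ∀ v ∈ Cone n,
      P s (lav Φ F) v - P (s + 1) (lav Φ F) v = (lam n s)⁻¹ • P s (Lap (lav Φ F)) v := by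
  obtain ⟨N₂, hT⟩ := lav_tame (E := E) n N
  obtain ⟨s₁, h1⟩ := P_sub_P (E := E) hn N₂
  refine ⟨s₁, fun s hs C F hh hA Φ hΦ v hv => ?_⟩
  obtain ⟨C', -, h2⟩ := hT Φ hΦ
  have := h1 s hs _ _ (h2 C F hh hA) v hv 1
  simpa using this

theorem lav_lim {N : ℕ} {C : ℝ} {F : Vec n → E} (hF : Adm N C F) (hh : Homog F)
    (hc : ContinuousOn F (Cone n)) {Φ : ℕ → Mat (n + 1) → ℝ} {δ : ℕ → ℝ}
    (hδ : Tendsto δ atTop (𝓝 0)) (hΦ1 : ∀ j, Moll n 1 (Φ j)) (hΦ : ∀ j, Moll n (δ j) (Φ j)) :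
    ∀ᶠ s : ℕ in atTop, ∀ v ∈ Cone n,
      Tendsto (fun j => P s (lav (Φ j) F) v) atTop (𝓝 (P s F v)) := by
  obtain ⟨s₁, h1⟩ := P_tendsto_of_ae (E := E) n N
  filter_upwards [eventually_ge_atTop s₁] with s hs v hv
  exact h1 s hs (C * 4 ^ (2 * N)) _ _ (fun j => adm_lav hF (hΦ1 j))
    (Eventually.of_forall fun g => lav_pt hh hc hδ hΦ (orbit_mem g)) v hv

/-- The metric is of class `C¹`. -/
theorem reg_one (hn : 1 ≤ n) {N : ℕ} {C : ℝ} {F : Vec n → Mat m} (hF : LipMet n m N C F) :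
    ContDiffOn ℝ 1 F (Cone n) := by
  obtain ⟨Φ, δ, hδ, hΦ1, hΦ⟩ := moll_seq n
  obtain ⟨N₁, C₁, hL⟩ := lap_bound hn hF
  obtain ⟨s₁, h1⟩ := lav_step (E := Mat m) hn N
  obtain ⟨K₁, hK₁, H₁⟩ := grad_one n N₁
  have hC₁ : 0 ≤ C₁ := adm_nn (hL (Φ 0) (hΦ1 0))
  have hlim : ∀ v ∈ Cone n, Tendsto (fun s => P s F v) atTop (𝓝 (F v)) := fun v hv =>
    (tlu_P hF.adm hF.hom hF.cont).tendsto_at hv
  refine (core_one hF.adm hlim fun v hv => ?_).1
  obtain ⟨r, M, hr, hM, hb, hB⟩ := exists_ball hv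
  refine ⟨r, K₁ * C₁ * (M ^ N₁ * M), hr, by positivity, ?_⟩
  filter_upwards [lav_lim hF.adm hF.hom hF.cont hδ hΦ1 hΦ,
    (eventually_ge_atTop 0).and ((tendsto_add_atTop_nat 1).eventually
      (lav_lim hF.adm hF.hom hF.cont hδ hΦ1 hΦ)),
    eventually_ge_atTop s₁, eventually_gt_atTop (n + N₁ + 2), eventually_ge_atTop (2 * n + 1)]
    with s hs1 hs2 hs3 hs4 hs5
  intro u hu huU w hw hwU
  have hl := lam_pos' hs5
  have tu : ∀ x ∈ Cone n, Tendsto (fun j => lam n s • (P s (lav (Φ j) F) x -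
      P (s + 1) (lav (Φ j) F) x)) atTop (𝓝 (lam n s • (P s F x - P (s + 1) F x))) := fun x hx =>
    ((hs1 x hx).sub (hs2.2 x hx)).const_smul _
  refine le_of_tendsto ((tu u huU).sub (tu w hwU)).norm (Eventually.of_forall fun j => ?_)
  have e : ∀ x ∈ Cone n, lam n s • (P s (lav (Φ j) F) x - P (s + 1) (lav (Φ j) F) x) =
      P s (Lap (lav (Φ j) F)) x := fun x hx => by
    rw [h1 s hs3 C F hF.hom hF.adm (Φ j) (hΦ1 j).test x hx, smul_smul, mul_inv_cancel₀ hl.ne',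
      one_smul]
  rw [e u huU, e w hwU]
  have hcd : ContDiffOn ℝ (⊤ : ℕ∞) (P s (Lap (lav (Φ j) F))) (Cone n) :=
    contDiffOn_P_of (adm_wgt (hL (Φ j) (hΦ1 j)) (by omega))
  refine (convex_ball v r).norm_image_sub_le_of_norm_fderiv_le (𝕜 := ℝ) (fun x hx => ?_)
    (fun x hx => ?_) hw hu
  · exact (hcd.differentiableOn (by simp)).differentiableAt ((isOpen_cone n).mem_nhds (hb hx))
  · refine (H₁ s hs4 _ _ C₁ (hL (Φ j) (hΦ1 j)) x (hb hx)).trans ?_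
    have hW := W_nonneg (hb hx)
    have hlo := lo_nonneg x
    obtain ⟨b1, b2⟩ := hB x hx
    calc K₁ * C₁ * Real.sqrt s * (W x ^ N₁ * lo x) ≤ K₁ * C₁ * Real.sqrt s * (M ^ N₁ * M) := by
          gcongr
      _ = _ := by ring

/-- Convergence of the energies. -/
theorem en_tendsto {F : Vec n → Mat m} (hh : Homog F) (hc : ContDiffOn ℝ 1 F (Cone n))
    (hp : ∀ v ∈ Cone n, (F v).PosDef) {Φ : ℕ → Mat (n + 1) → ℝ} {δ : ℕ → ℝ}
    (hδ : Tendsto δ atTop (𝓝 0)) (hΦ : ∀ j, Moll n (δ j) (Φ j)) {v : Vec n} (hv : v ∈ Cone n) :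
    Tendsto (fun j => en (lav (Φ j) F) v) atTop (𝓝 (en F v)) := by
  have h1 := lav_fderiv_tendsto hh hc hδ hΦ hv
  have h2 := lav_pt hh hc.continuousOn hδ hΦ hv
  have h3 : Tendsto (fun j => (lav (Φ j) F v)⁻¹) atTop (𝓝 (F v)⁻¹) := by
    have h4 : ContinuousAt (fun x : Mat m => x⁻¹) (F v) := by
      simp only [Matrix.nonsing_inv_eq_ringInverse]
      exact NormedRing.inverse_continuousAt (hp v hv).isUnit.unit
    exact h4.tendsto.comp h2
  have h4 : ∀ ξ : Vec n, Tendsto (fun j => fderiv ℝ (lav (Φ j) F) v ξ) atTop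
      (𝓝 (fderiv ℝ F v ξ)) := fun ξ =>
    ((ContinuousLinearMap.apply ℝ (Mat m) ξ).continuous.tendsto _).comp h1
  unfold en
  refine Tendsto.const_smul (tendsto_finsetSum _ fun i _ => ?_) _
  exact (((h4 _).mul h3).mul (h4 _)).add (((h4 _).mul h3).mul (h4 _)) |>.const_smul _

/-- RESULT of the regularity part: `F` is of class `C²` and `Lap F = en F`. -/
theorem reg_two_aux (hn : 1 ≤ n) {N : ℕ} {C : ℝ} {F : Vec n → Mat m} (hF : LipMet n m N C F) :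
    ContDiffOn ℝ 2 F (Cone n) ∧ ∀ v ∈ Cone n, Lap F v = en F v := by
  have hC1 := reg_one hn hF
  obtain ⟨Φ, δ, hδ, hΦ1, hΦ⟩ := moll_seq n
  have hent : ∀ v ∈ Cone n, Tendsto (fun j => en (lav (Φ j) F) v) atTop (𝓝 (en F v)) :=
    fun v hv => en_tendsto hF.hom hC1 hF.pos hδ hΦ hv
  have hencont : ContinuousOn (en F) (Cone n) := Ax.continuousOn_en_of hC1 hF.pos
  have henh : Homog (en F) := homog_en hF.hom hC1
  obtain ⟨N₁, C₁, hL⟩ := lip_bound hF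
  have hen : Adm N₁ C₁ (en F) := by
    refine ⟨(hencont.comp_continuous continuous_orbit orbit_mem).aestronglyMeasurable, fun g => ?_⟩
    exact le_of_tendsto (hent _ (orbit_mem g)).norm
      (Eventually.of_forall fun j => (hL (Φ j) (hΦ1 j) g).2.2)
  have hlim : ∀ v ∈ Cone n, Tendsto (fun s => P s F v) atTop (𝓝 (F v)) := fun v hv =>
    (tlu_P hF.adm hF.hom hF.cont).tendsto_at hv
  obtain ⟨s₁, h1⟩ := lav_step (E := Mat m) hn N
  have hstep : ∀ᶠ s : ℕ in atTop, ∀ v ∈ Cone n,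
      P s F v - P (s + 1) F v = (lam n s)⁻¹ • P s (en F) v := by
    filter_upwards [lav_lim hF.adm hF.hom hF.cont hδ hΦ1 hΦ,
      (eventually_ge_atTop 0).and ((tendsto_add_atTop_nat 1).eventually
        (lav_lim hF.adm hF.hom hF.cont hδ hΦ1 hΦ)),
      lav_lim hen henh hencont hδ hΦ1 hΦ, eventually_ge_atTop s₁] with s hs1 hs2 hs3 hs4 v hv
    have t1 := (hs1 v hv).sub (hs2.2 v hv)
    have t2 := (hs3 v hv).const_smul (lam n s)⁻¹
    refine tendsto_nhds_unique t1 (t2.congr fun j => ?_)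
    rw [h1 s hs4 C F hF.hom hF.adm (Φ j) (hΦ1 j).test v hv]
    congr 1
    refine P_congr s (fun x hx => ?_) v
    exact (lap_eq_lav hn hF hen hδ hΦ (fun g => hent _ (orbit_mem g)) (hΦ1 j).test hx).symm
  have hS : Step (max N N₁) (max C C₁) F (en F) :=
    ⟨Ax.adm_mono hF.adm (le_max_left _ _) (le_max_left _ _),
      Ax.adm_mono hen (le_max_right _ _) (le_max_right _ _), hlim, hstep⟩
  obtain ⟨-, -, hLH⟩ := core_holder hS
  obtain ⟨c1, c2, c3⟩ := core_two hS henh (lh_en hC1 hF.pos hLH)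
  refine ⟨c1, fun v hv => ?_⟩
  have t1 := lap_tendsto c3 hv
  have t2 : Tendsto (fun s => P s (en F) v) atTop (𝓝 (en F v)) :=
    (tlu_P hen henh hencont).tendsto_at hv
  obtain ⟨s₂, h2⟩ := lap_P (E := Mat m) hn N
  refine tendsto_nhds_unique t1 (t2.congr' ?_)
  filter_upwards [hstep, eventually_ge_atTop s₂, eventually_ge_atTop (2 * n + 1)] with s e1 e2 e3
  have hl := lam_pos' e3
  rw [h2 s e2 C F hF.adm v hv, e1 v hv, smul_smul, mul_inv_cancel₀ hl.ne', one_smul]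

end Pool.Agent.Lib.MP_5d4057_al.HM.Gr
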