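import Pool.Agent.Lib.MP_5d4057_al.HM.RegD
import Pool.Agent.Lib.MP_5d4057_al.HM.RegI

namespace Pool.Agent.Lib.MP_5d4057_al.HM

open Matrix MeasureTheory Filter Topology Pool.Agent.Lib.MP_5d4057_al Pool.Agent.Lib.MP_5d4057_al.Hyb

open scoped ComplexOrder MatrixOrder Matrix.Norms.L2Operator

variable {n m : ℕ}

/-- RESULT of the regularity part: `F` is of class `C²` and `Lap F = en F`. -/
theorem reg_two (hn : 1 ≤ n) {N : ℕ} {C : ℝ} {F : Vec n → Mat m} (hF : LipMet n m N C F) :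
    ContDiffOn ℝ 2 F (Cone n) ∧ ∀ v ∈ Cone n, Lap F v = en F v := Gr.reg_two_aux hn hF

end Pool.Agent.Lib.MP_5d4057_al.HM
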