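import Pool.Agent.Lib.MP_5d4057_al.HM.Limit
import Pool.Agent.Lib.MP_5d4057_al.HM.Lip
import Pool.Agent.Lib.MP_5d4057_al.HM.RegC
import Pool.Agent.Lib.MP_5d4057_al.HM.BochC
import Pool.Agent.Lib.MP_5d4057_al.HM.Unique

namespace Pool.Agent.Lib.MP_5d4057_al.HM

open Matrix MeasureTheory Filter Topology Pool.Agent.Lib.MP_5d4057_al Pool.Agent.Lib.MP_5d4057_al.Hyb

open scoped ComplexOrder MatrixOrder Matrix.Norms.L2Operator

variable {n m : ℕ}

variable {Γ : Subgroup (SUGroup n)}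

/-- A pluriharmonic metric (Corlette, Siu, Sampson). -/
structure Plur {Γ : Subgroup (SUGroup n)} (ρ : Γ →* Mat m) (F : Vec n → Mat m) : Prop where
  met : Met ρ F
  cd : ContDiffOn ℝ 2 F (Cone n)
  harm : ∀ v ∈ Cone n, Lap F v = en F v
  ph : ∀ v ∈ Cone n, ∀ ξ η : Vec n, dzb (fun w => dz F w ξ) v η =
      (1 / 2 : ℂ) • (dzb F v η * (F v)⁻¹ * dz F v ξ + dz F v ξ * (F v)⁻¹ * dzb F v η)
  comm : ∀ v ∈ Cone n, ∀ ξ η : Vec n,
      dz F v ξ * (F v)⁻¹ * dz F v η = dz F v η * (F v)⁻¹ * dz F v ξ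

private theorem pow_le_thm {N N₀ : ℕ} {C C₀ a t : ℝ} (hN : N ≤ N₀) (hC : C ≤ C₀) (hC₀ : 0 ≤ C₀)
    (ht : 1 ≤ t) (h : a ≤ C * t ^ (2 * N)) : a ≤ C₀ * t ^ (2 * N₀) := by
  have h0 : (0 : ℝ) ≤ t ^ (2 * N) := pow_nonneg (zero_le_one.trans ht) _
  exact h.trans ((mul_le_mul_of_nonneg_right hC h0).trans
    (mul_le_mul_of_nonneg_left (pow_le_pow_right₀ ht (Nat.mul_le_mul_left 2 hN)) hC₀))

private theorem adm_mono_thm {E : Type} [NormedAddCommGroup E] [NormedSpace ℝ E] {N N₀ : ℕ}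
    {C C₀ : ℝ} (hN : N ≤ N₀) (hC : C ≤ C₀) (hC₀ : 0 ≤ C₀) {f : Vec n → E} (h : Adm N C f) :
    Adm N₀ C₀ f :=
  ⟨h.meas, fun y => pow_le_thm hN hC hC₀ (one_le_ch y) (h.bound y)⟩

/-- A larger exponent and constant, and a function which is equal almost everywhere. -/
private theorem approx_mono_thm {N N₀ : ℕ} {C C₀ : ℝ} (hN : N ≤ N₀) (hC : C ≤ C₀) (hC₀ : 0 ≤ C₀)
    {s : ℕ → ℕ} {M : ℕ → Vec n → Mat m} {F F' : Vec n → Mat m} (h : Approx N C s M F)
    (hae : ∀ᵐ g ∂(mu n), F' (act g (base n)) = F (act g (base n))) : Approx N₀ C₀ s M F' where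
  tends := h.tends
  hom := h.hom
  cont := h.cont
  pos := h.pos
  bound := fun j g => pow_le_thm hN hC hC₀ (one_le_ch g) (h.bound j g)
  boundInv := fun j g => pow_le_thm hN hC hC₀ (one_le_ch g) (h.boundInv j g)
  sub := h.sub
  lim := by
    filter_upwards [h.lim, hae] with g h1 h2
    rw [h2]
    exact h1

/-- THEOREM H: existence of a pluriharmonic metric for an absolutely irreducible representation of a
cocompact discrete subgroup of `SU(n,1)`. Assembly: `exists_cut`, `exists_limit`, `exists_lip` (the new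
metric is again a limit: the approximations converge to it almost everywhere, `lav` does not change),
`lap_ge_en`, `reg_two`, `pluriharmonic`. -/
theorem exists_plur (hn : 1 ≤ n) (hm : 0 < m) (hΓ : Coc Γ) (ρ : Γ →* Mat m)
    (hρ : Submodule.span ℂ (Set.range ρ) = ⊤) : ∃ F : Vec n → Mat m, Plur ρ F := by
  obtain ⟨χ, hχ⟩ := exists_cut hΓ
  obtain ⟨N, C, F, hF⟩ := exists_limit hn hm hΓ hχ ρ hρ
  obtain ⟨F', hM, hae, N', C', hadm, hadmi, hlip⟩ := exists_lip hn hΓ hχ hF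
  obtain ⟨N₀, hN₀⟩ : ∃ N₀ : ℕ, N₀ = max N N' := ⟨_, rfl⟩
  obtain ⟨C₀, hC₀⟩ : ∃ C₀ : ℝ, C₀ = max 0 (max C C') := ⟨_, rfl⟩
  have hN1 : N ≤ N₀ := hN₀ ▸ le_max_left _ _
  have hN2 : N' ≤ N₀ := hN₀ ▸ le_max_right _ _
  have hC0 : 0 ≤ C₀ := hC₀ ▸ le_max_left _ _
  have hC1 : C ≤ C₀ := hC₀ ▸ (le_max_left _ _).trans (le_max_right _ _)
  have hC2 : C' ≤ C₀ := hC₀ ▸ (le_max_right _ _).trans (le_max_right _ _)
  have hA : Adm N₀ C₀ F' := adm_mono_thm hN2 hC2 hC0 hadm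
  have hAi : Adm N₀ C₀ (fun v => (F' v)⁻¹) := adm_mono_thm hN2 hC2 hC0 hadmi
  have hcone : ∀ g : SUGroup n, act g (base n) ∈ Cone n := fun g => orbit_mem g
  have hinv : ∀ v ∈ Cone n, ((F' v)⁻¹)⁻¹ = F' v := fun v hv =>
    Matrix.nonsing_inv_nonsing_inv _ ((Matrix.isUnit_iff_isUnit_det _).1 (hM.pos v hv).isUnit)
  have hAii : Adm N₀ C₀ (fun v => ((F' v)⁻¹)⁻¹) := by
    refine ⟨?_, fun y => ?_⟩
    · have h : (fun y : SUGroup n => ((F' (act y (base n)))⁻¹)⁻¹) =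
          fun y : SUGroup n => F' (act y (base n)) := by
        funext y
        exact hinv _ (hcone y)
      rw [h]
      exact hA.meas
    · rw [hinv _ (hcone y)]
      exact hA.bound y
  have hL : LipMet n m N₀ C₀ F' :=
    { hom := hM.hom
      cont := hM.cont
      pos := hM.pos
      adm := hA
      admInv := hAi
      lip := fun a g ha => by
        refine (hlip a g ha).trans ?_
        have h0 : 0 ≤ ‖a.toMatrix - 1‖ := norm_nonneg _
        have h1 : (0 : ℝ) ≤ ch g ^ (2 * N') := pow_nonneg (zero_le_one.trans (one_le_ch g)) _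
        exact mul_le_mul (mul_le_mul_of_nonneg_right hC2 h0)
          (pow_le_pow_right₀ (one_le_ch g) (Nat.mul_le_mul_left 2 hN2)) h1 (mul_nonneg hC0 h0)
      sub := fun Φ hΦ hΦ1 v hv => by
        obtain ⟨s, M, hs⟩ := hF.sub
        exact lap_ge_en hn (approx_mono_thm hN1 hC1 hC0 hs hae) hM.hom hA hAi hM.pos hΦ hΦ1 hv
      sub' := fun Φ hΦ hΦ1 v hv => by
        obtain ⟨s, M, hs⟩ := hF.sub'
        have hae' : ∀ᵐ g ∂(mu n), (fun v => (F' v)⁻¹) (act g (base n)) =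
            (fun v => (F v)⁻¹) (act g (base n)) := by
          filter_upwards [hae] with g h2
          simp only [h2]
        have h3 : Approx N₀ C₀ s M (fun v => (F' v)⁻¹) := approx_mono_thm hN1 hC1 hC0 hs hae'
        have h4 : Homog (fun v => (F' v)⁻¹) := by
          intro c hc w hw
          simp only [hM.hom c hc w hw]
        have h5 : ∀ w ∈ Cone n, ((fun v => (F' v)⁻¹) w).PosDef := fun w hw => (hM.pos w hw).inv
        exact lap_ge_en (F := fun v => (F' v)⁻¹) hn h3 h4 hAi hAii h5 hΦ hΦ1 hv }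
  obtain ⟨hcd, hh⟩ := reg_two hn hL
  obtain ⟨h1, h2⟩ := pluriharmonic hn hΓ hM hcd hh
  exact ⟨F', hM, hcd, hh, h1, h2⟩

end Pool.Agent.Lib.MP_5d4057_al.HM
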