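import Pool.Agent.Lib.MP_5d4057_al.HM.AppHarm
import Pool.Agent.Lib.MP_5d4057_al.HM.Thm

/-! Section F: the two hypotheses from Theorem H and Theorem U. -/

set_option autoImplicit false

namespace Pool.Agent.Lib.MP_5d4057_al.HM

open Matrix Filter Topology Pool.Agent.Lib.MP_5d4057_al Pool.Agent.Lib.MP_5d4057_al.Hyb

open scoped ComplexOrder MatrixOrder Matrix.Norms.L2Operator

variable {n m : ℕ}

/-- A pluriharmonic metric is harmonic. -/
theorem Harm.lap {F : Vec n → Mat m} (h : Harm F) {v : Vec n} (hv : v ∈ Cone n) :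
    Lap F v = en F v := by
  have hd := h.cda hv
  rw [Lap, en]
  congr 1
  refine Finset.sum_congr rfl fun i _ => ?_
  congr 1
  have hI : (Pi.single i Complex.I : Vec n) = Complex.I • Pi.single i 1 := by
    rw [← Pi.single_smul, smul_eq_mul, mul_one]
  rw [hI]
  set e : Vec n := Pi.single i 1
  have hs : ∀ a b : Vec n, fderiv ℝ (fderiv ℝ F) v a b = fderiv ℝ (fderiv ℝ F) v b a :=
    fun a b => (hd.isSymmSndFDerivAt (by simp)).eq a b
  have e1 : ∀ a : Vec n, fderiv ℝ (fun w => pb F w e) v a = (1 / 2 : ℂ) •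
      (fderiv ℝ (fderiv ℝ F) v a e + Complex.I • fderiv ℝ (fderiv ℝ F) v a (Complex.I • e)) := by
    intro a
    rw [(hasFDerivAt_pb hd e).fderiv]
    rfl
  have h1 : pz (fun w => pb F w e) v e = (1 / 2 : ℂ) •
      (pb F v e * (F v)⁻¹ * pz F v e + pz F v e * (F v)⁻¹ * pb F v e) := h.ph v hv e e
  have h2 : pz (fun w => pb F w e) v e = (1 / 4 : ℂ) • (fderiv ℝ (fderiv ℝ F) v e e +
      fderiv ℝ (fderiv ℝ F) v (Complex.I • e) (Complex.I • e)) := by
    rw [pz, e1, e1, hs (Complex.I • e) e]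
    simp only [smul_add, smul_sub, smul_smul]
    have : (1 / 2 : ℂ) * (Complex.I * (1 / 2 * Complex.I)) = -(1 / 4) := by
      linear_combination (1 / 4 : ℂ) * Complex.I_mul_I
    rw [this]
    module
  have hz := hasZ (h.diff hv) e
  rw [hz.one, hz.I]
  have h3 : fderiv ℝ (fderiv ℝ F) v e e + fderiv ℝ (fderiv ℝ F) v (Complex.I • e) (Complex.I • e) =
      (4 : ℂ) • pz (fun w => pb F w e) v e := by
    rw [h2, smul_smul]
    norm_num
  rw [h3, h1]
  generalize pz F v e = a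
  generalize pb F v e = b
  generalize (F v)⁻¹ = G
  have h4 : Complex.I • (a - b) * G * Complex.I • (a - b) = -((a - b) * G * (a - b)) := by
    rw [Matrix.smul_mul, Matrix.smul_mul, Matrix.mul_smul, smul_smul, Complex.I_mul_I, neg_one_smul]
  rw [h4]
  simp only [Matrix.add_mul, Matrix.mul_add, Matrix.sub_mul, Matrix.mul_sub]
  module

theorem Harm.met {Γ : Subgroup (SUGroup n)} {ρ : Γ →* Mat m} {F : Vec n → Mat m} (h : Harm F)
    (he : Equi ρ F) : Met ρ F := ⟨h.hom, h.cd.continuousOn, h.pos, he⟩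

theorem Plur.toHarm {Γ : Subgroup (SUGroup n)} {ρ : Γ →* Mat m} {F : Vec n → Mat m}
    (h : Plur ρ F) : Harm F where
  cd := h.cd
  hom := h.met.hom
  pos := h.met.pos
  ph v hv ξ η := by
    have h1 := h.ph v hv ξ η
    have h2 : pz (fun w => pb F w η) v ξ = pb (fun w => pz F w ξ) v η :=
      pz_pb_comm (h.cd.contDiffAt ((isOpen_cone n).mem_nhds hv)) ξ η
    exact h2.trans h1
  comm := h.comm

theorem thmH : ThmH := by
  intro n m hn hm Γ ρ hΓ hρ
  obtain ⟨F, hF⟩ := exists_plur hn hm hΓ ρ hρ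
  exact ⟨F, hF.toHarm, hF.met.equi⟩

theorem thmU : ThmU := by
  intro n m hn Γ ρ hΓ F₁ F₂ h₁ h₂ e₁ e₂
  have h := unique_harmonic hn hΓ (h₁.met e₁) (h₂.met e₂) h₁.cd h₂.cd (fun v hv => h₁.lap hv)
    (fun v hv => h₂.lap hv)
  refine ⟨(F₁ (base n))⁻¹ * F₂ (base n), fun v hv => ?_⟩
  rw [← h v hv, ← Matrix.mul_assoc, mul_nonsing_inv _ ((isUnit_iff_isUnit_det _).1 (h₁.unit hv)),
    Matrix.one_mul]

end Pool.Agent.Lib.MP_5d4057_al.HM
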