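import Mathlib

namespace Pool.Agent.Lib.MP_5d4057_al.HM.BarAux

open Matrix ComplexOrder
open scoped MatrixOrder

variable {m : Type*} [Fintype m] [DecidableEq m]

theorem unit_conj {P : Matrix m m ℂ} (hP : IsUnit P) : IsUnit Pᴴ := by
  have := hP.star
  rwa [star_eq_conjTranspose] at this

theorem mul_inv_unit {P : Matrix m m ℂ} (hP : IsUnit P) : P * P⁻¹ = 1 :=
  mul_nonsing_inv P ((isUnit_iff_isUnit_det P).1 hP)

theorem inv_mul_unit {P : Matrix m m ℂ} (hP : IsUnit P) : P⁻¹ * P = 1 :=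
  nonsing_inv_mul P ((isUnit_iff_isUnit_det P).1 hP)

/-- A positive definite matrix is `Q Qᴴ` with `Q` invertible. -/
theorem exists_root {a : Matrix m m ℂ} (ha : a.PosDef) :
    ∃ Q : Matrix m m ℂ, IsUnit Q ∧ a = Q * Qᴴ := by
  obtain ⟨y, hy⟩ := CStarAlgebra.nonneg_iff_eq_star_mul_self.mp ha.posSemidef.nonneg
  rw [star_eq_conjTranspose] at hy
  refine ⟨yᴴ, ?_, by rw [conjTranspose_conjTranspose]; exact hy⟩
  have h := ha.isUnit
  rw [hy] at h
  exact isUnit_of_mul_isUnit_left h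

/-- Simultaneous diagonalisation of two positive definite matrices by a congruence. -/
theorem simdiag {a b : Matrix m m ℂ} (ha : a.PosDef) (hb : b.PosDef) :
    ∃ (P : Matrix m m ℂ) (d : m → ℝ), IsUnit P ∧ (∀ i, 0 < d i) ∧ a = P * Pᴴ ∧
      b = P * diagonal (fun i => (d i : ℂ)) * Pᴴ := by
  obtain ⟨Q, hQ, rfl⟩ := exists_root ha
  have hQi : IsUnit Q⁻¹ := by
    rw [isUnit_iff_isUnit_det] at hQ ⊢
    exact isUnit_nonsing_inv_det Q hQ
  have hc : (Q⁻¹ * b * (Q⁻¹)ᴴ).PosDef := by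
    have := (Matrix.IsUnit.posDef_star_right_conjugate_iff (x := b) hQi).2 hb
    rwa [star_eq_conjTranspose] at this
  set c := Q⁻¹ * b * (Q⁻¹)ᴴ with hcdef
  set U := (hc.1.eigenvectorUnitary : Matrix m m ℂ) with hU
  have hUU : U * Uᴴ = 1 := by
    have := (Matrix.mem_unitaryGroup_iff).1 hc.1.eigenvectorUnitary.2
    rwa [star_eq_conjTranspose] at this
  have hsp : c = U * diagonal (fun i => ((hc.1.eigenvalues i : ℝ) : ℂ)) * Uᴴ := by
    have := hc.1.spectral_theorem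
    rw [Unitary.conjStarAlgAut_apply] at this
    exact this
  have hUunit : IsUnit U := by
    have := hUU
    exact (isUnit_iff_isUnit_det U).2 (by
      have h2 : U.det * Uᴴ.det = 1 := by rw [← det_mul, hUU, det_one]
      exact IsUnit.of_mul_eq_one _ h2)
  refine ⟨Q * U, hc.1.eigenvalues, hQ.mul hUunit, hc.eigenvalues_pos, ?_, ?_⟩
  · rw [conjTranspose_mul]
    calc Q * Qᴴ = Q * 1 * Qᴴ := by rw [Matrix.mul_one]
      _ = Q * (U * Uᴴ) * Qᴴ := by rw [hUU]
      _ = _ := by simp only [Matrix.mul_assoc]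
  · rw [conjTranspose_mul]
    have h1 : (Q⁻¹)ᴴ * Qᴴ = 1 := by
      rw [← conjTranspose_mul, mul_inv_unit hQ, conjTranspose_one]
    calc b = 1 * b * 1 := by simp
      _ = (Q * Q⁻¹) * b * ((Q⁻¹)ᴴ * Qᴴ) := by rw [h1, mul_inv_unit hQ]
      _ = Q * c * Qᴴ := by rw [hcdef]; simp only [Matrix.mul_assoc]
      _ = Q * (U * diagonal (fun i => ((hc.1.eigenvalues i : ℝ) : ℂ)) * Uᴴ) * Qᴴ := by rw [← hsp]
      _ = _ := by simp only [Matrix.mul_assoc]


theorem posDef_conj {P a : Matrix m m ℂ} (hP : IsUnit P) : (P * a * Pᴴ).PosDef ↔ a.PosDef := by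
  have := Matrix.IsUnit.posDef_star_right_conjugate_iff (x := a) hP
  rwa [star_eq_conjTranspose] at this

theorem posSemidef_conj {P a : Matrix m m ℂ} (hP : IsUnit P) :
    (P * a * Pᴴ).PosSemidef ↔ a.PosSemidef := by
  have := Matrix.IsUnit.posSemidef_star_right_conjugate_iff (x := a) hP
  rwa [star_eq_conjTranspose] at this

omit [DecidableEq m] in
theorem le_conj {P a b : Matrix m m ℂ} (h : a ≤ b) : P * a * Pᴴ ≤ P * b * Pᴴ := by
  rw [Matrix.le_iff] at h ⊢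
  have := h.mul_mul_conjTranspose_same P
  rwa [Matrix.mul_sub, Matrix.sub_mul] at this

theorem le_conj_iff {P a b : Matrix m m ℂ} (hP : IsUnit P) :
    P * a * Pᴴ ≤ P * b * Pᴴ ↔ a ≤ b := by
  refine ⟨fun h => ?_, le_conj⟩
  rw [Matrix.le_iff] at h ⊢
  rw [← posSemidef_conj hP, Matrix.mul_sub, Matrix.sub_mul]
  exact h

theorem isUnit_inv {P : Matrix m m ℂ} (hP : IsUnit P) : IsUnit P⁻¹ := by
  rw [isUnit_iff_isUnit_det] at hP ⊢
  exact isUnit_nonsing_inv_det P hP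

theorem inv_conj {P a : Matrix m m ℂ} (hP : IsUnit P) (ha : IsUnit a) :
    (P * a * Pᴴ)⁻¹ = (P⁻¹)ᴴ * a⁻¹ * P⁻¹ := by
  apply Matrix.inv_eq_left_inv
  have h1 : (P⁻¹)ᴴ * Pᴴ = 1 := by rw [← conjTranspose_mul, mul_inv_unit hP, conjTranspose_one]
  calc (P⁻¹)ᴴ * a⁻¹ * P⁻¹ * (P * a * Pᴴ) = (P⁻¹)ᴴ * (a⁻¹ * ((P⁻¹ * P) * (a * Pᴴ))) := by
        simp only [Matrix.mul_assoc]
    _ = (P⁻¹)ᴴ * ((a⁻¹ * a) * Pᴴ) := by rw [inv_mul_unit hP, Matrix.one_mul, Matrix.mul_assoc]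
    _ = 1 := by rw [inv_mul_unit ha, Matrix.one_mul, h1]

/-! ### The equation `u A u = B` -/

/-- Existence of a positive definite solution of `u A u = B`. -/
theorem exists_bar {A B : Matrix m m ℂ} (hA : A.PosDef) (hB : B.PosDef) :
    ∃ u : Matrix m m ℂ, u.PosDef ∧ u * A * u = B := by
  obtain ⟨P, d, hP, hd, h1, h2⟩ := simdiag hA.inv hB
  have hPc : IsUnit Pᴴ := unit_conj hP
  refine ⟨P * diagonal (fun i => ((Real.sqrt (d i) : ℝ) : ℂ)) * Pᴴ, ?_, ?_⟩
  · rw [posDef_conj hP, posDef_diagonal_iff]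
    intro i
    have := Real.sqrt_pos.2 (hd i)
    exact_mod_cast this
  · have hA' : A = (Pᴴ)⁻¹ * P⁻¹ := by
      rw [← Matrix.mul_inv_rev, ← h1, Matrix.nonsing_inv_nonsing_inv]
      exact (isUnit_iff_isUnit_det A).1 hA.isUnit
    have e1 : Pᴴ * (Pᴴ)⁻¹ = 1 := mul_inv_unit hPc
    have e2 : P⁻¹ * P = 1 := inv_mul_unit hP
    set D := diagonal (fun i => ((Real.sqrt (d i) : ℝ) : ℂ)) with hD
    have hDD : D * D = diagonal (fun i => (d i : ℂ)) := by
      rw [hD, diagonal_mul_diagonal]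
      congr 1
      ext i
      rw [← Complex.ofReal_mul, Real.mul_self_sqrt (hd i).le]
    calc P * D * Pᴴ * A * (P * D * Pᴴ)
        = P * D * (Pᴴ * (Pᴴ)⁻¹) * (P⁻¹ * P) * D * Pᴴ := by
          rw [hA']; simp only [Matrix.mul_assoc]
      _ = P * (D * D) * Pᴴ := by
          rw [e1, e2, Matrix.mul_one, Matrix.mul_one]; simp only [Matrix.mul_assoc]
      _ = B := by rw [hDD, h2]

/-- The trace identity behind the minimisation property of `u A u = B`. -/
theorem bar_trace {A B u v : Matrix m m ℂ} (hu : u * A * u = B) (hv : IsUnit v) :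
    trace (v⁻¹ * B) + trace (A * v) - 2 * trace (A * u) =
      trace (A * ((v - u) * v⁻¹ * (v - u))) := by
  have e1 : v * v⁻¹ = 1 := mul_inv_unit hv
  have e2 : v⁻¹ * v = 1 := inv_mul_unit hv
  have h1 : (v - u) * v⁻¹ * (v - u) = v - 2 • u + u * v⁻¹ * u := by
    calc (v - u) * v⁻¹ * (v - u)
        = (v * v⁻¹) * v - (v * v⁻¹) * u - u * (v⁻¹ * v) + u * v⁻¹ * u := by noncomm_ring
      _ = _ := by rw [e1, e2, Matrix.one_mul, Matrix.one_mul, Matrix.mul_one]; abel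
  have h2 : trace (A * (u * v⁻¹ * u)) = trace (v⁻¹ * B) := by
    rw [← hu]
    calc trace (A * (u * v⁻¹ * u)) = trace ((A * u) * (v⁻¹ * u)) := by
          simp only [Matrix.mul_assoc]
      _ = trace ((v⁻¹ * u) * (A * u)) := trace_mul_comm _ _
      _ = _ := by simp only [Matrix.mul_assoc]
  rw [h1, Matrix.mul_add, Matrix.mul_sub, trace_add, trace_sub, h2, Matrix.mul_smul, trace_smul]
  simp only [nsmul_eq_mul, Nat.cast_ofNat]
  ring

theorem trace_mul_nonneg {A B : Matrix m m ℂ} (hA : A.PosSemidef) (hB : B.PosSemidef) :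
    0 ≤ trace (A * B) := by
  obtain ⟨y, hy⟩ := CStarAlgebra.nonneg_iff_eq_star_mul_self.mp hA.nonneg
  rw [star_eq_conjTranspose] at hy
  have : trace (A * B) = trace (y * B * yᴴ) := by
    rw [hy, Matrix.mul_assoc, trace_mul_comm, Matrix.mul_assoc]
  rw [this]
  exact (hB.mul_mul_conjTranspose_same y).trace_nonneg

theorem trace_mul_eq_zero {A B : Matrix m m ℂ} (hA : A.PosDef) (hB : B.PosSemidef)
    (h : trace (A * B) = 0) : B = 0 := by
  obtain ⟨Q, hQ, rfl⟩ := exists_root hA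
  have e : trace (Q * Qᴴ * B) = trace (Qᴴ * B * Qᴴᴴ) := by
    rw [conjTranspose_conjTranspose, Matrix.mul_assoc, trace_mul_comm]
  rw [e] at h
  have h2 := ((hB.mul_mul_conjTranspose_same Qᴴ).trace_eq_zero_iff).1 h
  rw [conjTranspose_conjTranspose] at h2
  have h3 : (Qᴴ)⁻¹ * (Qᴴ * B * Q) * Q⁻¹ = B := by
    calc (Qᴴ)⁻¹ * (Qᴴ * B * Q) * Q⁻¹ = ((Qᴴ)⁻¹ * Qᴴ) * B * (Q * Q⁻¹) := by
          simp only [Matrix.mul_assoc]
      _ = B := by rw [inv_mul_unit (unit_conj hQ), mul_inv_unit hQ, Matrix.one_mul, Matrix.mul_one]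
  rw [← h3, h2]
  simp

theorem sandwich_posSemidef {u v : Matrix m m ℂ} (hu : u.IsHermitian) (hv : v.PosDef) :
    ((v - u) * v⁻¹ * (v - u)).PosSemidef := by
  have h := hv.inv.posSemidef.mul_mul_conjTranspose_same (v - u)
  have : (v - u)ᴴ = v - u := by rw [conjTranspose_sub, hv.1.eq, hu.eq]
  rwa [this] at h

/-- `u` minimises `v ↦ tr (v⁻¹ B) + tr (A v)`. -/
theorem bar_le {A B u v : Matrix m m ℂ} (hA : A.PosSemidef) (hu : u * A * u = B)
    (hu' : u.IsHermitian) (hv : v.PosDef) :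
    2 * trace (A * u) ≤ trace (v⁻¹ * B) + trace (A * v) := by
  have h := trace_mul_nonneg hA (sandwich_posSemidef hu' hv)
  rw [← bar_trace hu hv.isUnit] at h
  exact sub_nonneg.1 h

theorem bar_eq_of_le {A B u v : Matrix m m ℂ} (hA : A.PosDef) (hu : u * A * u = B)
    (hu' : u.IsHermitian) (hv : v.PosDef)
    (h : trace (v⁻¹ * B) + trace (A * v) ≤ 2 * trace (A * u)) : v = u := by
  have h0 : trace (A * ((v - u) * v⁻¹ * (v - u))) = 0 := by
    rw [← bar_trace hu hv.isUnit]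
    exact le_antisymm (sub_nonpos.2 h) (sub_nonneg.2 (bar_le hA.posSemidef hu hu' hv))
  have h1 := trace_mul_eq_zero hA (sandwich_posSemidef hu' hv) h0
  obtain ⟨Q, hQ, hq⟩ := exists_root hv.inv
  have hX : (v - u)ᴴ = v - u := by rw [conjTranspose_sub, hv.1.eq, hu'.eq]
  have h2 : ((v - u) * Q) * ((v - u) * Q)ᴴ = 0 := by
    rw [conjTranspose_mul, hX, ← h1, hq]
    simp only [Matrix.mul_assoc]
  have h3 : (v - u) * Q = 0 := by
    have := (trace_mul_conjTranspose_self_eq_zero_iff (A := (v - u) * Q)).1 (by rw [h2]; simp)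
    exact this
  have h4 : v - u = 0 := by
    calc v - u = (v - u) * (Q * Q⁻¹) := by rw [mul_inv_unit hQ, Matrix.mul_one]
      _ = ((v - u) * Q) * Q⁻¹ := by rw [Matrix.mul_assoc]
      _ = 0 := by rw [h3, Matrix.zero_mul]
  exact sub_eq_zero.1 h4

/-- Uniqueness of the positive definite solution of `u A u = B`. -/
theorem bar_unique {A B u v : Matrix m m ℂ} (hA : A.PosDef) (hu : u.PosDef) (hv : v.PosDef)
    (h1 : u * A * u = B) (h2 : v * A * v = B) : v = u := by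
  have e : ∀ w : Matrix m m ℂ, w.PosDef → w * A * w = B → trace (w⁻¹ * B) = trace (A * w) := by
    intro w hw h
    rw [← h]
    calc trace (w⁻¹ * (w * A * w)) = trace ((w⁻¹ * w) * (A * w)) := by
          simp only [Matrix.mul_assoc]
      _ = _ := by rw [inv_mul_unit hw.isUnit, Matrix.one_mul]
  have a1 := bar_le hA.posSemidef h1 hu.1 hv
  have a2 := bar_le hA.posSemidef h2 hv.1 hu
  rw [e v hv h2] at a1
  rw [e u hu h1] at a2
  apply bar_eq_of_le hA h1 hu.1 hv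
  rw [e v hv h2]
  calc trace (A * v) + trace (A * v) = 2 * trace (A * v) := by ring
    _ ≤ trace (A * u) + trace (A * u) := a2
    _ = _ := by ring

open Classical in
/-- The positive definite solution `u` of `u A u = B` (for `A`, `B` positive definite). -/
noncomputable def bar (A B : Matrix m m ℂ) : Matrix m m ℂ :=
  if h : A.PosDef ∧ B.PosDef then Classical.choose (exists_bar h.1 h.2) else 1

theorem bar_posDef (A B : Matrix m m ℂ) : (bar A B).PosDef := by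
  unfold bar
  split_ifs with h
  · exact (Classical.choose_spec (exists_bar h.1 h.2)).1
  · exact PosDef.one

theorem bar_eq {A B : Matrix m m ℂ} (hA : A.PosDef) (hB : B.PosDef) :
    bar A B * A * bar A B = B := by
  have h : A.PosDef ∧ B.PosDef := ⟨hA, hB⟩
  unfold bar
  rw [dif_pos h]
  exact (Classical.choose_spec (exists_bar h.1 h.2)).2

theorem eq_bar {A B u : Matrix m m ℂ} (hA : A.PosDef) (hB : B.PosDef) (hu : u.PosDef)
    (h : u * A * u = B) : u = bar A B :=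
  bar_unique hA (bar_posDef A B) hu (bar_eq hA hB) h

theorem bar_inv_eq {A B : Matrix m m ℂ} (hA : A.PosDef) (hB : B.PosDef) :
    (bar A B)⁻¹ * B * (bar A B)⁻¹ = A := by
  have hu := (bar_posDef A B).isUnit
  calc (bar A B)⁻¹ * B * (bar A B)⁻¹
      = (bar A B)⁻¹ * (bar A B * A * bar A B) * (bar A B)⁻¹ := by rw [bar_eq hA hB]
    _ = ((bar A B)⁻¹ * bar A B) * A * (bar A B * (bar A B)⁻¹) := by
        simp only [Matrix.mul_assoc]
    _ = A := by rw [inv_mul_unit hu, mul_inv_unit hu, Matrix.one_mul, Matrix.mul_one]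

/-- `bar (B, A) = (bar (A, B))⁻¹`. -/
theorem bar_swap {A B : Matrix m m ℂ} (hA : A.PosDef) (hB : B.PosDef) :
    bar B A = (bar A B)⁻¹ :=
  (eq_bar hB hA (bar_posDef A B).inv (bar_inv_eq hA hB)).symm

/-- Congruence covariance: `bar (g⁻ᴴ A g⁻¹, g B gᴴ) = g (bar (A, B)) gᴴ`. -/
theorem bar_conj {A B g : Matrix m m ℂ} (hA : A.PosDef) (hB : B.PosDef) (hg : IsUnit g) :
    bar ((g⁻¹)ᴴ * A * g⁻¹) (g * B * gᴴ) = g * bar A B * gᴴ := by
  symm
  have hgi : IsUnit (g⁻¹)ᴴ := unit_conj (isUnit_inv hg)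
  have e1 : gᴴ * (g⁻¹)ᴴ = 1 := by
    rw [← conjTranspose_mul, inv_mul_unit hg, conjTranspose_one]
  apply eq_bar
  · have := (posDef_conj (a := A) hgi).2 hA
    rwa [conjTranspose_conjTranspose] at this
  · exact (posDef_conj hg).2 hB
  · exact (posDef_conj hg).2 (bar_posDef A B)
  · calc g * bar A B * gᴴ * ((g⁻¹)ᴴ * A * g⁻¹) * (g * bar A B * gᴴ)
        = g * bar A B * (gᴴ * (g⁻¹)ᴴ) * A * (g⁻¹ * g) * bar A B * gᴴ := by
          simp only [Matrix.mul_assoc]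
      _ = g * (bar A B * A * bar A B) * gᴴ := by
          rw [e1, inv_mul_unit hg, Matrix.mul_one, Matrix.mul_one]
          simp only [Matrix.mul_assoc]
      _ = g * B * gᴴ := by rw [bar_eq hA hB]

/-- Scaling: `bar (t⁻¹ A, s B)` for positive reals is covered by `bar_smul`. -/
theorem bar_smul {A B : Matrix m m ℂ} (hA : A.PosDef) (hB : B.PosDef) {c : ℝ} (hc : 0 < c) :
    bar (c⁻¹ • A) (c • B) = c • bar A B := by
  have key : ∀ (M : Matrix m m ℂ) (t : ℝ), 0 < t → M.PosDef → (t • M).PosDef := by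
    intro M t ht hM
    have := hM.smul (a := t) ht
    exact this
  symm
  apply eq_bar (key A _ (inv_pos.2 hc) hA) (key B _ hc hB) (key _ _ hc (bar_posDef A B))
  rw [Matrix.smul_mul, Matrix.smul_mul, Matrix.mul_smul, Matrix.mul_smul, Matrix.smul_mul,
    bar_eq hA hB, smul_smul, smul_smul]
  congr 1
  field_simp

omit [DecidableEq m] in
theorem qf_herm (M : Matrix m m ℂ) {w : Matrix m m ℂ} (hw : w.IsHermitian) (x : m → ℂ) :
    star x ⬝ᵥ ((w * M * w) *ᵥ x) = star (w *ᵥ x) ⬝ᵥ (M *ᵥ (w *ᵥ x)) := by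
  rw [star_mulVec, ← dotProduct_mulVec, mulVec_mulVec, mulVec_mulVec, hw.eq, Matrix.mul_assoc]

/-- The comparison principle for `u A u = B` (touching lemma): if `A' ≤ c A` and `B ≤ c B'` then
`u ≤ c u'`. -/
theorem bar_harnack {A A' B B' u u' : Matrix m m ℂ} {c : ℝ} (hc : 0 ≤ c)
    (hB : B.PosDef) (hu : u.PosDef) (hu' : u'.PosDef) (h1 : u * A * u = B)
    (h2 : u' * A' * u' = B') (hAA : A' ≤ c • A) (hBB : B ≤ c • B') : u ≤ c • u' := by
  obtain ⟨P, d, hP, hd, hPu', hPu⟩ := simdiag hu' hu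
  have hPc : IsUnit Pᴴ := unit_conj hP
  have hdc : ∀ i, d i ≤ c := by
    intro i
    set x : m → ℂ := (Pᴴ)⁻¹ *ᵥ (Pi.single i 1) with hx
    have hPx : Pᴴ *ᵥ x = Pi.single i 1 := by
      rw [hx, mulVec_mulVec, mul_inv_unit hPc, one_mulVec]
    have hx0 : x ≠ 0 := by
      intro h0
      rw [h0, mulVec_zero] at hPx
      have := congrFun hPx i
      simp at this
    set y : m → ℂ := u' *ᵥ x with hy
    have hyP : y = P *ᵥ Pi.single i 1 := by
      rw [hy, hPu', ← mulVec_mulVec, hPx]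
    have hux : u *ᵥ x = (d i : ℂ) • y := by
      rw [hPu, ← mulVec_mulVec, hPx, ← mulVec_mulVec, hyP]
      have : diagonal (fun i => (d i : ℂ)) *ᵥ Pi.single i 1 = (d i : ℂ) • Pi.single i 1 := by
        ext j
        rw [mulVec_diagonal]
        by_cases hj : j = i
        · subst hj; simp
        · simp [Pi.single_eq_of_ne hj]
      rw [this, mulVec_smul]
    have q1 : star x ⬝ᵥ (B *ᵥ x) = ((d i : ℂ) * (d i : ℂ)) * (star y ⬝ᵥ (A *ᵥ y)) := by
      rw [← h1, qf_herm A hu.1 x, hux, star_smul, mulVec_smul, smul_dotProduct, dotProduct_smul,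
        smul_eq_mul, smul_eq_mul, ← mul_assoc]
      congr 2
      simp
    have q2 : star x ⬝ᵥ (B' *ᵥ x) = star y ⬝ᵥ (A' *ᵥ y) := by
      rw [← h2, qf_herm A' hu'.1 x]
    have q3 : star y ⬝ᵥ (A' *ᵥ y) ≤ (c : ℂ) * (star y ⬝ᵥ (A *ᵥ y)) := by
      have := (Matrix.le_iff.1 hAA).dotProduct_mulVec_nonneg y
      rw [sub_mulVec, dotProduct_sub, sub_nonneg, smul_mulVec, dotProduct_smul] at this
      rwa [Complex.real_smul] at this
    have q4 : star x ⬝ᵥ (B *ᵥ x) ≤ (c : ℂ) * (star x ⬝ᵥ (B' *ᵥ x)) := by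
      have := (Matrix.le_iff.1 hBB).dotProduct_mulVec_nonneg x
      rw [sub_mulVec, dotProduct_sub, sub_nonneg, smul_mulVec, dotProduct_smul] at this
      rwa [Complex.real_smul] at this
    have q5 : 0 < star x ⬝ᵥ (B *ᵥ x) := hB.dotProduct_mulVec_pos hx0
    have hcc : (0 : ℂ) ≤ (c : ℂ) := by exact_mod_cast hc
    have q6 : ((d i : ℂ) * (d i : ℂ)) * (star y ⬝ᵥ (A *ᵥ y)) ≤
        ((c : ℂ) * (c : ℂ)) * (star y ⬝ᵥ (A *ᵥ y)) := by
      rw [← q1]
      calc star x ⬝ᵥ (B *ᵥ x) ≤ (c : ℂ) * (star x ⬝ᵥ (B' *ᵥ x)) := q4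
        _ ≤ (c : ℂ) * ((c : ℂ) * (star y ⬝ᵥ (A *ᵥ y))) := by
            rw [q2]; exact mul_le_mul_of_nonneg_left q3 hcc
        _ = _ := by ring
    rw [q1] at q5
    have him : (star y ⬝ᵥ (A *ᵥ y)).im = 0 ∧ 0 < (star y ⬝ᵥ (A *ᵥ y)).re := by
      have hdd : (0 : ℝ) < d i * d i := mul_pos (hd i) (hd i)
      rw [← Complex.ofReal_mul, Complex.lt_def] at q5
      simp only [Complex.zero_re, Complex.zero_im, Complex.re_ofReal_mul,
        Complex.im_ofReal_mul] at q5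
      refine ⟨?_, ?_⟩
      · have := q5.2.symm
        rcases mul_eq_zero.1 this with h | h
        · exact absurd h hdd.ne'
        · exact h
      · exact (mul_pos_iff_of_pos_left hdd).1 q5.1
    have q7 : d i * d i * (star y ⬝ᵥ (A *ᵥ y)).re ≤ c * c * (star y ⬝ᵥ (A *ᵥ y)).re := by
      rw [← Complex.ofReal_mul, ← Complex.ofReal_mul] at q6
      have := (Complex.le_def.1 q6).1
      rwa [Complex.re_ofReal_mul, Complex.re_ofReal_mul] at this
    have q8 : d i * d i ≤ c * c := le_of_mul_le_mul_right q7 him.2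
    exact abs_le_of_sq_le_sq' (by nlinarith [q8]) hc |>.2
  rw [hPu, hPu', ← Matrix.mul_one P, ← Matrix.smul_mul, ← Matrix.mul_smul, Matrix.mul_one]
  apply le_conj
  rw [Matrix.le_iff]
  have : c • (1 : Matrix m m ℂ) - diagonal (fun i => (d i : ℂ)) =
      diagonal (fun i => ((c - d i : ℝ) : ℂ)) := by
    ext i j
    by_cases hij : i = j
    · subst hij; simp
    · simp [hij]
  rw [this, posSemidef_diagonal_iff]
  intro i
  have := sub_nonneg.2 (hdc i)
  exact_mod_cast this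

/-- If `B⁻¹ ≤ A` then `bar (A, B) ≤ B`. -/
theorem bar_le_right {A B : Matrix m m ℂ} (hA : A.PosDef) (hB : B.PosDef) (h : B⁻¹ ≤ A) :
    bar A B ≤ B := by
  have := bar_harnack (A := A) (A' := B⁻¹) (B := B) (B' := B) (u := bar A B) (u' := B)
    (c := 1) zero_le_one hB (bar_posDef A B) hB (bar_eq hA hB)
    (by rw [mul_inv_unit hB.isUnit, Matrix.one_mul]) (by rwa [one_smul]) (by rw [one_smul])
  rwa [one_smul] at this

/-- If `B⁻¹ ≤ A` then `A⁻¹ ≤ bar (A, B)`. -/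
theorem inv_le_bar {A B : Matrix m m ℂ} (hA : A.PosDef) (hB : B.PosDef) (h : B⁻¹ ≤ A) :
    A⁻¹ ≤ bar A B := by
  have e : A⁻¹ * A * A⁻¹ = A⁻¹ := by rw [inv_mul_unit hA.isUnit, Matrix.one_mul]
  have h' : A⁻¹ ≤ B := by
    obtain ⟨P, d, hP, hd, h1, h2⟩ := simdiag hA hB.inv
    have hPc : IsUnit Pᴴ := unit_conj hP
    have hD : IsUnit (diagonal (fun i => (d i : ℂ))) := by
      rw [isUnit_iff_isUnit_det, det_diagonal, isUnit_iff_ne_zero, Finset.prod_ne_zero_iff]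
      intro i _
      exact_mod_cast (hd i).ne'
    have hB2 : B = (P⁻¹)ᴴ * diagonal (fun i => ((d i)⁻¹ : ℂ)) * P⁻¹ := by
      have := congrArg (fun M => M⁻¹) h2
      rw [Matrix.nonsing_inv_nonsing_inv _ ((isUnit_iff_isUnit_det B).1 hB.isUnit),
        inv_conj hP hD] at this
      rw [this]
      congr 2
      apply Matrix.inv_eq_left_inv
      rw [diagonal_mul_diagonal, ← diagonal_one]
      congr 1
      ext i
      exact inv_mul_cancel₀ (by exact_mod_cast (hd i).ne')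
    have hA2 : A⁻¹ = (P⁻¹)ᴴ * 1 * P⁻¹ := by
      have h1' : A = P * 1 * Pᴴ := by rw [Matrix.mul_one]; exact h1
      rw [h1', inv_conj hP isUnit_one]
      congr 2
      simp
    have hPi : IsUnit (P⁻¹)ᴴ := unit_conj (isUnit_inv hP)
    have hle := h
    rw [h1, h2] at hle
    have hle' : diagonal (fun i => (d i : ℂ)) ≤ 1 := by
      rw [← le_conj_iff hP, Matrix.mul_one]
      exact hle
    have hd1 : ∀ i, d i ≤ 1 := by
      intro i
      have := (Matrix.le_iff.1 hle').diag_nonneg (i := i)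
      simp only [Matrix.sub_apply, one_apply_eq, diagonal_apply_eq, sub_nonneg] at this
      exact_mod_cast this
    rw [hA2, hB2]
    have := le_conj (P := (P⁻¹)ᴴ) (a := 1) (b := diagonal (fun i => ((d i)⁻¹ : ℂ))) (by
      rw [Matrix.le_iff]
      have : diagonal (fun i => ((d i)⁻¹ : ℂ)) - 1 =
          diagonal (fun i => (((d i)⁻¹ - 1 : ℝ) : ℂ)) := by
        ext i j
        by_cases hij : i = j
        · subst hij; simp
        · simp [hij]
      rw [this, posSemidef_diagonal_iff]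
      intro i
      have h3 : (1 : ℝ) ≤ (d i)⁻¹ := (one_le_inv₀ (hd i)).2 (hd1 i)
      have := sub_nonneg.2 h3
      exact_mod_cast this)
    rwa [conjTranspose_conjTranspose] at this
  have := bar_harnack (A := A) (A' := A) (B := A⁻¹) (B' := B) (u := A⁻¹) (u' := bar A B)
    (c := 1) zero_le_one hA.inv hA.inv (bar_posDef A B) e (bar_eq hA hB)
    (by rw [one_smul]) (by rwa [one_smul])
  rwa [one_smul] at this

/-! ### Duality -/

/-- `Xᴴ b + bᴴ X - bᴴ Y b ≤ Xᴴ Y⁻¹ X`, with the exact defect. -/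
theorem duality_eq {X Y b : Matrix m m ℂ} (hY : Y.PosDef) :
    Xᴴ * Y⁻¹ * X - (Xᴴ * b + bᴴ * X - bᴴ * Y * b) =
      (X - Y * b)ᴴ * Y⁻¹ * (X - Y * b) := by
  have e1 : Y * Y⁻¹ = 1 := mul_inv_unit hY.isUnit
  have e2 : Y⁻¹ * Y = 1 := inv_mul_unit hY.isUnit
  rw [conjTranspose_sub, conjTranspose_mul, hY.1.eq]
  calc Xᴴ * Y⁻¹ * X - (Xᴴ * b + bᴴ * X - bᴴ * Y * b)
      = Xᴴ * Y⁻¹ * X - Xᴴ * 1 * b - bᴴ * 1 * X + bᴴ * 1 * Y * b := by
        simp only [Matrix.mul_one]; abel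
    _ = Xᴴ * Y⁻¹ * X - Xᴴ * (Y⁻¹ * Y) * b - bᴴ * (Y * Y⁻¹) * X + bᴴ * (Y * Y⁻¹) * Y * b := by
        rw [e1, e2]
    _ = _ := by noncomm_ring

theorem duality {X Y b : Matrix m m ℂ} (hY : Y.PosDef) :
    Xᴴ * b + bᴴ * X - bᴴ * Y * b ≤ Xᴴ * Y⁻¹ * X := by
  rw [Matrix.le_iff, duality_eq hY]
  exact hY.inv.posSemidef.conjTranspose_mul_mul_same _

theorem duality_herm {X Y b : Matrix m m ℂ} (hX : X.IsHermitian) (hY : Y.PosDef) :
    X * b + bᴴ * X - bᴴ * Y * b ≤ X * Y⁻¹ * X := by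
  have := duality (X := X) (b := b) hY
  rwa [hX.eq] at this

end Pool.Agent.Lib.MP_5d4057_al.HM.BarAux
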