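import Pool.Agent.Lib.MP_5d4057_al.HM.Basic

/-! Section F (application): pluriharmonic metrics and the two theorems used as hypotheses. -/

set_option autoImplicit false

namespace Pool.Agent.Lib.MP_5d4057_al.HM

open Matrix Pool.Agent.Lib.MP_5d4057_al Pool.Agent.Lib.MP_5d4057_al.Hyb

open scoped ComplexOrder MatrixOrder Matrix.Norms.L2Operator

variable {n m : ℕ}

/-- Pluriharmonic metrics with commuting derivatives (what Theorem H gives). -/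
structure Harm (F : Vec n → Mat m) : Prop where
  cd : ContDiffOn ℝ 2 F (Cone n)
  hom : Homog F
  pos : ∀ v ∈ Cone n, (F v).PosDef
  ph : ∀ v ∈ Cone n, ∀ ξ η : Vec n, dz (fun w => dzb F w η) v ξ =
    (1 / 2 : ℂ) • (dzb F v η * (F v)⁻¹ * dz F v ξ + dz F v ξ * (F v)⁻¹ * dzb F v η)
  comm : ∀ v ∈ Cone n, ∀ ξ η : Vec n, dz F v ξ * (F v)⁻¹ * dz F v η =
    dz F v η * (F v)⁻¹ * dz F v ξ

/-- Theorem H: existence of a pluriharmonic metric. -/
def ThmH : Prop := ∀ (n m : ℕ), 1 ≤ n → 1 ≤ m → ∀ (Γ : Subgroup (SUGroup n)) (ρ : Γ →* Mat m),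
  Coc Γ → Submodule.span ℂ (Set.range ρ) = ⊤ → ∃ F : Vec n → Mat m, Harm F ∧ Equi ρ F

/-- Theorem U: uniqueness of harmonic metrics (for arbitrary representations). -/
def ThmU : Prop := ∀ (n m : ℕ), 1 ≤ n → ∀ (Γ : Subgroup (SUGroup n)) (ρ : Γ →* Mat m),
  Coc Γ → ∀ F₁ F₂ : Vec n → Mat m, Harm F₁ → Harm F₂ → Equi ρ F₁ → Equi ρ F₂ →
    ∃ S : Mat m, ∀ v ∈ Cone n, F₂ v = F₁ v * S

end Pool.Agent.Lib.MP_5d4057_al.HM
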