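import Pool.Agent.Lib.MP_5d4057_al.HM.AppEmb

/-! Section F1: the automorphisms which are neither the identity nor complex conjugation on the
trace field. -/

set_option autoImplicit false

namespace Pool.Agent.Lib.MP_5d4057_al.HM

open Matrix Filter Topology Pool.Agent.Lib.MP_5d4057_al Pool.Agent.Lib.MP_5d4057_al.Hyb

open scoped ComplexOrder MatrixOrder Matrix.Norms.L2Operator

variable {n m j k : ℕ}

/-- `1 ⊕ ..` maps the base point to itself, up to the scalar `ζ`. -/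
theorem act_gen_one {g : Fin 2 → SUGroup (k + 2)} {X : Matrix (Fin 2) (Fin 2) ℂ} {ζ : ℂ}
    (hg : (g 1).toMatrix = (g 0).toMatrix * (ζ • bsum X 1)) :
    act (g 1) (base (k + 2)) = ζ • act (g 0) (base (k + 2)) := by
  have h1 : bsum X (1 : Matrix (Fin (k + 1)) (Fin (k + 1)) ℂ) *ᵥ base (k + 2) = base (k + 2) := by
    rw [← inc_base, ← inc_base, inc_apply, inc_apply, bsum_mulVec_cons]
    simp
  rw [act, act, hg, ← mulVec_mulVec, smul_mulVec, h1, mulVec_smul]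

theorem hyp_base (g : SUGroup (j + 1)) : hyp g (base j) = act g (base (j + 1)) := by
  rw [hyp_apply, inc_base]

/-- The values at the common base point. -/
theorem hyp_agree {g : Fin 2 → SUGroup (k + 2)} {X : Matrix (Fin 2) (Fin 2) ℂ} {ζ : ℂ}
    (hζ : star ζ * ζ = 1) (hg : (g 1).toMatrix = (g 0).toMatrix * (ζ • bsum X 1))
    {F : Vec (k + 2) → Mat m} (hF : Homog F) :
    F (hyp (g 1) (base (k + 1))) = F (hyp (g 0) (base (k + 1))) := by
  rw [hyp_base, hyp_base, act_gen_one hg]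
  refine hF ζ ?_ _ (orbit_mem (g 0))
  intro h
  rw [h, mul_zero] at hζ
  exact zero_ne_one hζ

theorem pos_star_mul {z : ℂ} (hz : z ≠ 0) : 0 < star z * z := by
  refine lt_of_le_of_ne (star_mul_self_nonneg z) ?_
  intro h
  rcases mul_eq_zero.1 h.symm with h | h
  · exact hz (star_eq_zero.1 h)
  · exact hz h

theorem pos_inv {z : ℂ} (hz : 0 < z) : 0 < z⁻¹ := by
  obtain ⟨r, hr, rfl⟩ : ∃ r : ℝ, 0 < r ∧ z = (r : ℂ) := by
    have h3 := Complex.lt_def.1 hz
    refine ⟨z.re, by simpa using h3.1, ?_⟩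
    apply Complex.ext
    · simp
    · simpa using h3.2.symm
  have : (0 : ℝ) < r⁻¹ := inv_pos.2 hr
  rw [← Complex.ofReal_inv]
  exact_mod_cast this

theorem key_lt (H : ThmH) (U : ThmU) (Γ : Fin 2 → Subgroup (SUGroup (k + 1)))
    (g : Fin 2 → SUGroup (k + 2)) (hcoc : Coc (hybrid Γ g)) (hcocb : ∀ b, Coc (Γ b))
    (hspan : Submodule.span ℂ (SUGroup.toMatrix '' (hybrid Γ g : Set (SUGroup (k + 2)))) = ⊤)
    (hspanb : ∀ b, Submodule.span ℂ (SUGroup.toMatrix '' (Γ b : Set (SUGroup (k + 1)))) = ⊤)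
    {K : Subfield ℂ} {D : Matrix (Fin (k + 1)) (Fin (k + 1)) ℂ}
    {HD : Matrix (Fin (k + 1)) (Fin (k + 1)) K} {μ : Fin 2 → ℂ} {q : Fin 2 → K} (hcm : IsCM K)
    (hn : IsNF k K D HD μ q) (hrat : ∀ b, ∀ γ ∈ Γ b, EntriesIn K (dsum (μ b) D) γ.toMatrix)
    {X : Matrix (Fin 2) (Fin 2) ℂ} {ζ : ℂ} (hζ : star ζ * ζ = 1) (hX : Xᴴ * X = 1)
    (hg : (g 1).toMatrix = (g 0).toMatrix * (ζ • bsum X 1)) (h01 : X 0 1 ≠ 0)
    (t : ℂ ≃+* ℂ) (ht : ¬ ∀ x : K, t (x : ℂ) = x)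
    (ht' : ¬ ∀ x : K, t (x : ℂ) = (starRingEnd ℂ) (x : ℂ)) :
    (t (star (X 1 1) * X 1 1)).re < 1 := by
  set ρ := rhoT t (hybrid Γ g) with hρ
  obtain ⟨F, hF, hFe⟩ := H (k + 2) (k + 3) (by omega) (by omega) (hybrid Γ g) ρ hcoc
    (span_rhoT t _ hspan)
  -- definiteness
  set τ : K →+* ℂ := t.toRingHom.comp K.subtype with hτ
  have hτa : ∀ x : K, τ x = t (x : ℂ) := fun x => rfl
  obtain ⟨ε, hε, hεq, hεD⟩ : ∃ ε : ℂ, ε ≠ 0 ∧ (∀ b, 0 < ε * τ (q b)) ∧ (ε • HD.map τ).PosDef := by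
    have h0 := hn.definite 0 τ
    have h1 := hn.definite 1 τ
    have hneg : ∀ b, (-(dsum (τ (q b)) (HD.map τ))).PosDef →
        0 < -1 * τ (q b) ∧ ((-1 : ℂ) • HD.map τ).PosDef := by
      intro b hb
      have h2 : -(dsum (τ (q b)) (HD.map τ)) = dsum (-1 * τ (q b)) ((-1 : ℂ) • HD.map τ) := by
        rw [← smul_dsum, neg_one_smul]
      rw [h2] at hb
      exact posDef_of_dsum' hb
    have hno : (HD.map τ).PosDef → ((-1 : ℂ) • HD.map τ).PosDef → False := by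
      intro h2 h3
      have a1 : 0 < (HD.map τ) 0 0 := h2.diag_pos
      have a2 : 0 < -1 * (HD.map τ) 0 0 := by simpa using h3.diag_pos (i := 0)
      rw [neg_one_mul] at a2
      exact absurd a1 (lt_asymm (neg_pos.1 a2))
    rcases h0 with h0 | h0 | h0 | h0
    · exact absurd h0 ht
    · exact absurd h0 ht'
    · obtain ⟨p0, pD⟩ := posDef_of_dsum' h0
      rcases h1 with h1 | h1 | h1 | h1
      · exact absurd h1 ht
      · exact absurd h1 ht'
      · obtain ⟨p1, -⟩ := posDef_of_dsum' h1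
        refine ⟨1, one_ne_zero, ?_, by rw [one_smul]; exact pD⟩
        rw [Fin.forall_fin_two, one_mul, one_mul]
        exact ⟨p0, p1⟩
      · exact (hno pD (hneg 1 h1).2).elim
    · obtain ⟨p0, pD⟩ := hneg 0 h0
      rcases h1 with h1 | h1 | h1 | h1
      · exact absurd h1 ht
      · exact absurd h1 ht'
      · obtain ⟨-, pD'⟩ := posDef_of_dsum' h1
        exact (hno pD' pD).elim
      · obtain ⟨p1, -⟩ := hneg 1 h1
        refine ⟨-1, by norm_num, ?_, pD⟩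
        rw [Fin.forall_fin_two]
        exact ⟨p0, p1⟩
  -- the invariant metrics
  have hTD : IsUnit (D.map t) := tm_unit t hn.det
  set tD : Matrix (Fin (k + 1)) (Fin (k + 1)) ℂ := D.map t with htD
  set Z' : Matrix (Fin (k + 1)) (Fin (k + 1)) ℂ := tD * (ε • HD.map τ)⁻¹ * tDᴴ with hZ'
  have hZ'pos : Z'.PosDef :=
    hεD.inv.mul_mul_conjTranspose_same (Matrix.vecMul_injective_of_isUnit hTD)
  have hμ : ∀ b, t (μ b) ≠ 0 := fun b => (map_ne_zero t).2 (hn.μ_ne b)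
  set z : Fin 2 → ℂ := fun b => t (μ b) * (ε * τ (q b))⁻¹ * star (t (μ b)) with hz
  have hzpos : ∀ b, 0 < z b := by
    intro b
    have h1 : z b = (star (t (μ b)) * t (μ b)) * (ε * τ (q b))⁻¹ := by rw [hz]; ring
    rw [h1]
    exact mul_pos (pos_star_mul (hμ b)) (pos_inv (hεq b))
  have hZb : ∀ b, dsum (z b) Z' = (dsum (μ b) D).map t * (ε • dsum (τ (q b)) (HD.map τ))⁻¹ *
      ((dsum (μ b) D).map t)ᴴ := by
    intro b
    rw [tm_dsum, smul_dsum, dsum_inv' (hεq b).ne' hεD.isUnit, dsum_conjTranspose, dsum_mul, dsum_mul]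
  have hinv : ∀ b, ∀ γ : Γ b, rhoT t (Γ b) γ * dsum (z b) Z' * (rhoT t (Γ b) γ)ᴴ =
      dsum (z b) Z' := by
    intro b γ
    have hf := isForm_of_nf hcm hn b
    obtain ⟨G, hG1, -, hG2⟩ := exists_rat hf (γ : SUGroup (k + 1)) (hrat b γ γ.2)
    have hG := hG2 τ
    rw [dsum_map _ _ _ (map_zero τ)] at hG
    have hBd := isUnit_iff_ne_zero.2 hf.det
    set B := dsum (μ b) D with hB
    set tB := B.map t with htB
    have htBu : IsUnit tB := tm_unit t hf.det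
    have htBd := (isUnit_iff_isUnit_det _).1 htBu
    set Gt := G.map τ with hGt
    have h1 : rhoT t (Γ b) γ = tB * Gt * tB⁻¹ := by
      have h2 : (γ : SUGroup (k + 1)).toMatrix = B * G.map (fun x : K => (x : ℂ)) * B⁻¹ := by
        rw [hG1]
        calc (γ : SUGroup (k + 1)).toMatrix = (B * B⁻¹) * (γ : SUGroup (k + 1)).toMatrix *
              (B * B⁻¹) := by rw [mul_nonsing_inv _ hBd, Matrix.one_mul, Matrix.mul_one]
          _ = _ := by simp only [Matrix.mul_assoc]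
      rw [rhoT_apply, h2, tm_mul, tm_mul, ← tm_inv t hf.det]
      rfl
    set P := ε • dsum (τ (q b)) (HD.map τ) with hP
    have hPu : IsUnit P := by
      rw [hP, smul_dsum]
      exact (posDef_dsum (hεq b) hεD).isUnit
    have hPd := (isUnit_iff_isUnit_det _).1 hPu
    have h3 : Gtᴴ * P * Gt = P := by
      rw [hP, Matrix.mul_smul, Matrix.smul_mul, hG]
    have h4 : Gt * P⁻¹ * Gtᴴ = P⁻¹ := by
      have h5 : (P⁻¹ * Gtᴴ * P) * Gt = 1 := by
        calc (P⁻¹ * Gtᴴ * P) * Gt = P⁻¹ * (Gtᴴ * P * Gt) := by simp only [Matrix.mul_assoc]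
          _ = 1 := by rw [h3, nonsing_inv_mul _ hPd]
      have h6 : Gt * (P⁻¹ * Gtᴴ * P) = 1 := mul_eq_one_comm.1 h5
      calc Gt * P⁻¹ * Gtᴴ = Gt * (P⁻¹ * Gtᴴ * P) * P⁻¹ := by
            simp only [Matrix.mul_assoc]
            rw [mul_nonsing_inv _ hPd, Matrix.mul_one]
        _ = P⁻¹ := by rw [h6, Matrix.one_mul]
    rw [hZb b, ← hB, ← htB, ← hP, h1]
    have e1 : tB⁻¹ * tB = 1 := nonsing_inv_mul _ htBd
    have e2 : tBᴴ * (tB⁻¹)ᴴ = 1 := by rw [← conjTranspose_mul, e1, conjTranspose_one]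
    calc tB * Gt * tB⁻¹ * (tB * P⁻¹ * tBᴴ) * (tB * Gt * tB⁻¹)ᴴ
        = tB * Gt * (tB⁻¹ * tB) * P⁻¹ * (tBᴴ * (tB⁻¹)ᴴ) * Gtᴴ * tBᴴ := by
          rw [conjTranspose_mul, conjTranspose_mul]
          simp only [Matrix.mul_assoc]
      _ = tB * (Gt * P⁻¹ * Gtᴴ) * tBᴴ := by
          rw [e1, e2]
          simp only [Matrix.mul_assoc, Matrix.mul_one]
      _ = _ := by rw [h4]
  -- the metric on the hyperplanes
  have hsl : ∀ b, ∃ l a : ℂ, 0 < l ∧ 0 < a ∧ ∀ w ∈ Cone (k + 1), F (hyp (g b) w) =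
      (g b).toMatrix.map t * dsum l (a • dsum (z b) Z') * ((g b).toMatrix.map t)ᴴ := by
    intro b
    refine slice_form U (by omega) (hcocb b) (rhoT t (Γ b)) (span_rhoT t _ (hspanb b))
      (harm_const (posDef_dsum (hzpos b) hZ'pos)) ?_ (tm_gp_unit t (g b)) (hF.hyp (g b))
      (ρ.comp (embHyb Γ g b)) (rhoT_emb t Γ g b) (hFe.hyp b)
    intro γ w _
    exact (hinv b γ).symm
  choose l a hl ha hFb using hsl
  -- comparison at the base point
  have hb0 := hFb 0 (base (k + 1)) (base_mem _)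
  have hb1 := hFb 1 (base (k + 1)) (base_mem _)
  rw [hyp_agree hζ hg hF.hom, hb0, hg, tm_mul, tm_smul, tm_bsum] at hb1
  have hQ := tm_gp_unit t (g 0)
  set Q := (g 0).toMatrix.map t with hQd
  have hQ' : IsUnit Qᴴ := (isUnit_conjTranspose Q).2 hQ
  have h2 : dsum (l 0) (a 0 • dsum (z 0) Z') = (t ζ • bsum (X.map t) ((1 : Mat (k + 1)).map t)) *
      dsum (l 1) (a 1 • dsum (z 1) Z') * (t ζ • bsum (X.map t) ((1 : Mat (k + 1)).map t))ᴴ := by
    have h3 : Q * (dsum (l 0) (a 0 • dsum (z 0) Z')) * Qᴴ =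
        Q * ((t ζ • bsum (X.map t) ((1 : Mat (k + 1)).map t)) *
      dsum (l 1) (a 1 • dsum (z 1) Z') * (t ζ • bsum (X.map t) ((1 : Mat (k + 1)).map t))ᴴ) * Qᴴ := by
      rw [hb1, conjTranspose_mul]
      simp only [Matrix.mul_assoc]
    exact hQ.mul_left_cancel (hQ'.mul_right_cancel h3)
  rw [smul_dsum, smul_dsum, dsum_dsum, dsum_dsum, tm_one, conjTranspose_smul, Matrix.smul_mul,
    Matrix.smul_mul, Matrix.mul_smul, bsum_conjTranspose, bsum_mul, bsum_mul, smul_smul,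
    smul_bsum] at h2
  have h3 := (bsum_inj h2).1
  -- scalar computation
  have hP1 : (Xᴴ).map t * X.map t = 1 := by
    rw [← tm_mul, hX, tm_one]
  have h4 : (Xᴴ).map t * !![l 0, 0; 0, a 0 * z 0] =
      (t ζ * star (t ζ)) • (!![l 1, 0; 0, a 1 * z 1] * (X.map t)ᴴ) := by
    rw [h3, Matrix.mul_smul, ← Matrix.mul_assoc, ← Matrix.mul_assoc, hP1, Matrix.one_mul]
  have h5 := congrFun (congrFun h4 1) 0
  have h6 := congrFun (congrFun hP1 1) 1
  simp only [Matrix.mul_apply, Fin.sum_univ_two, Matrix.smul_apply, Matrix.map_apply,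
    conjTranspose_apply, Matrix.of_apply, Matrix.cons_val', Matrix.cons_val_zero,
    Matrix.cons_val_one, Matrix.one_apply_eq, smul_eq_mul, mul_zero, add_zero,
    zero_mul, zero_add] at h5 h6
  have hl0 : l 0 ≠ 0 := (hl 0).ne'
  have h7 : t (star (X 0 1)) = (star (t ζ) * t ζ) * (a 1 * z 1) * (l 0)⁻¹ * star (t (X 0 1)) := by
    field_simp
    linear_combination h5
  have h8 : t (star (X 1 1) * X 1 1) = 1 - (star (t ζ) * t ζ) * (a 1 * z 1) * (l 0)⁻¹ *
      (star (t (X 0 1)) * t (X 0 1)) := by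
    rw [map_mul]
    linear_combination h6 - t (X 0 1) * h7
  have hζ0 : t ζ ≠ 0 := by
    refine (map_ne_zero t).2 ?_
    intro h
    rw [h, mul_zero] at hζ
    exact zero_ne_one hζ
  have h9 : 0 < (star (t ζ) * t ζ) * (a 1 * z 1) * (l 0)⁻¹ * (star (t (X 0 1)) * t (X 0 1)) :=
    mul_pos (mul_pos (mul_pos (pos_star_mul hζ0) (mul_pos (ha 1) (hzpos 1))) (pos_inv (hl 0)))
      (pos_star_mul ((map_ne_zero t).2 h01))
  rw [h8, Complex.sub_re, Complex.one_re]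
  have h10 := (Complex.lt_def.1 h9).1
  rw [Complex.zero_re] at h10
  linarith

end Pool.Agent.Lib.MP_5d4057_al.HM
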