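import Mathlib

/-! Smoothness of integrals depending on a parameter, when the integrand is a smooth function of the
parameter and of a variable which runs in a compact set. -/

namespace Pool.Agent.Lib.MP_5d4057_al.HM

open MeasureTheory Filter Topology Set Function Metric Bornology

set_option linter.unusedSectionVars false

section param

variable {α P X F G H : Type} [MeasurableSpace α] {ν : Measure α}
  [NormedAddCommGroup P] [NormedSpace ℝ P] [NormedAddCommGroup X] [NormedSpace ℝ X]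
  [MeasurableSpace X] [BorelSpace X] [SecondCountableTopology X]
  [NormedAddCommGroup F] [NormedSpace ℝ F] [NormedAddCommGroup G] [NormedSpace ℝ G]
  [NormedAddCommGroup H] [NormedSpace ℝ H]

theorem aestronglyMeasurable_comp_param {φ : X → F} {k : Set X} (hk : IsCompact k)
    (hφ : ContinuousOn φ k) {u : α → X} (hu : AEMeasurable u ν) (huk : ∀ a, u a ∈ k) :
    AEStronglyMeasurable (fun a => φ (u a)) ν := by
  have h1 : (ν.map u).restrict k = ν.map u := by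
    refine Measure.restrict_eq_self_of_ae_mem ?_
    exact (ae_map_iff (p := fun x => x ∈ k) hu hk.measurableSet).2 (Eventually.of_forall huk)
  have h2 : AEStronglyMeasurable φ (ν.map u) := by
    rw [← h1]
    exact hφ.aestronglyMeasurable_of_isCompact hk hk.measurableSet
  exact h2.comp_aemeasurable hu

/-- Local bound near a compact set of parameters. -/
theorem exists_bound_param {ψ : P × X → F} {Ω : Set (P × X)} {s : Set P} {k : Set X}
    (hs : IsOpen s) (hΩ : IsOpen Ω) (hk : IsCompact k) (hsk : s ×ˢ k ⊆ Ω)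
    (hψ : ContinuousOn ψ Ω) {p₀ : P} (hp₀ : p₀ ∈ s) :
    ∃ ε C : ℝ, 0 < ε ∧ 0 < C ∧ ball p₀ ε ⊆ s ∧ ∀ p ∈ ball p₀ ε, ∀ x ∈ k, ‖ψ (p, x)‖ ≤ C := by
  have A : IsCompact (({p₀} : Set P) ×ˢ k) := isCompact_singleton.prod hk
  obtain ⟨t, kt, t_open, ht⟩ : ∃ t, ({p₀} : Set P) ×ˢ k ⊆ t ∧ IsOpen t ∧ IsBounded (ψ '' t) := by
    refine exists_isOpen_isBounded_image_of_isCompact_of_continuousOn A hΩ ?_ hψ
    exact (prod_mono (singleton_subset_iff.2 hp₀) Subset.rfl).trans hsk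
  obtain ⟨ε, εpos, hε, h'ε⟩ :
      ∃ ε : ℝ, 0 < ε ∧ thickening ε (({p₀} : Set P) ×ˢ k) ⊆ t ∧ ball p₀ ε ⊆ s := by
    obtain ⟨ε, εpos, hε⟩ : ∃ ε : ℝ, 0 < ε ∧ thickening ε (({p₀} : Set P) ×ˢ k) ⊆ t :=
      A.exists_thickening_subset_open t_open kt
    obtain ⟨δ, δpos, hδ⟩ : ∃ δ : ℝ, 0 < δ ∧ ball p₀ δ ⊆ s := Metric.isOpen_iff.1 hs _ hp₀
    refine ⟨min ε δ, lt_min εpos δpos, ?_, ?_⟩
    · exact Subset.trans (thickening_mono (min_le_left _ _) _) hε
    · exact Subset.trans (ball_subset_ball (min_le_right _ _)) hδ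
  obtain ⟨C, Cpos, hC⟩ : ∃ C, 0 < C ∧ ψ '' t ⊆ closedBall 0 C := ht.subset_closedBall_lt 0 0
  refine ⟨ε, C, εpos, Cpos, h'ε, fun p hp x hx => ?_⟩
  have H : (p, x) ∈ t := by
    apply hε
    refine mem_thickening_iff.2 ⟨(p₀, x), ?_, ?_⟩
    · exact ⟨rfl, hx⟩
    · rw [mem_ball] at hp
      simpa only [Prod.dist_eq, εpos, dist_self, max_lt_iff, and_true] using hp
  have : ψ (p, x) ∈ closedBall (0 : F) C := hC (mem_image_of_mem _ H)
  rwa [mem_closedBall_zero_iff] at this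

/-- The partial derivative in the first variable. -/
noncomputable def pd (Φ : P → X → F) (p : P) (x : X) : P →L[ℝ] F :=
  (fderiv ℝ (uncurry Φ) (p, x)).comp (ContinuousLinearMap.inl ℝ P X)

theorem hasFDerivAt_pd {Φ : P → X → F} {Ω : Set (P × X)} (hΩ : IsOpen Ω)
    (hΦ : ContDiffOn ℝ 1 (uncurry Φ) Ω) {p : P} {x : X} (h : (p, x) ∈ Ω) :
    HasFDerivAt (fun p => Φ p x) (pd Φ p x) p := by
  have h1 : HasFDerivAt (uncurry Φ) (fderiv ℝ (uncurry Φ) (p, x)) (p, x) :=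
    ((hΦ.differentiableOn one_ne_zero).differentiableAt (hΩ.mem_nhds h)).hasFDerivAt
  have h2 : HasFDerivAt (fun p : P => (p, x)) (ContinuousLinearMap.inl ℝ P X) p := by
    simpa using hasFDerivAt_prodMk_left p x
  exact h1.comp p h2

theorem contDiffOn_pd {Φ : P → X → F} {Ω : Set (P × X)} (hΩ : IsOpen Ω) {n : ℕ∞}
    (hΦ : ContDiffOn ℝ (n + 1) (uncurry Φ) Ω) : ContDiffOn ℝ n (uncurry (pd Φ)) Ω := by
  have h1 : ContDiffOn ℝ n (fderiv ℝ (uncurry Φ)) Ω := hΦ.fderiv_of_isOpen hΩ le_rfl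
  exact h1.clm_comp contDiffOn_const

theorem norm_le_aux (B : F →L[ℝ] G →L[ℝ] H) {C : ℝ} {x : F} (hx : ‖x‖ ≤ C) (y : G) :
    ‖B x y‖ ≤ ‖B‖ * C * ‖y‖ := by
  calc ‖B x y‖ ≤ ‖B x‖ * ‖y‖ := (B x).le_opNorm y
    _ ≤ ‖B‖ * ‖x‖ * ‖y‖ := by gcongr; exact B.le_opNorm x
    _ ≤ _ := by gcongr

/-- The bilinear map `(A, y) ↦ (x ↦ B (A x) y)`. -/
noncomputable def preL (B : F →L[ℝ] G →L[ℝ] H) : (P →L[ℝ] F) →L[ℝ] G →L[ℝ] (P →L[ℝ] H) :=
  B.precompL P

theorem preL_apply (B : F →L[ℝ] G →L[ℝ] H) (A : P →L[ℝ] F) (y : G) (x : P) :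
    preL B A y x = B (A x) y := rfl

theorem norm_precompL_aux (B : F →L[ℝ] G →L[ℝ] H) {C : ℝ} {A : P →L[ℝ] F} (hA : ‖A‖ ≤ C) (y : G) :
    ‖(preL B) A y‖ ≤ ‖B‖ * C * ‖y‖ := by
  have hC : 0 ≤ C := (norm_nonneg _).trans hA
  refine ContinuousLinearMap.opNorm_le_bound _ (by positivity) fun x => ?_
  rw [preL_apply]
  calc ‖B (A x) y‖ ≤ ‖B‖ * (C * ‖x‖) * ‖y‖ :=
        norm_le_aux B ((A.le_opNorm x).trans (by gcongr)) y
    _ = _ := by ring

variable (B : F →L[ℝ] G →L[ℝ] H) {Φ : P → X → F} {Ω : Set (P × X)} {s : Set P} {k : Set X}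

theorem aestronglyMeasurable_param (hk : IsCompact k) (hsk : s ×ˢ k ⊆ Ω)
    (hΦ : ContinuousOn (uncurry Φ) Ω) {u : α → X} (hu : AEMeasurable u ν) (huk : ∀ a, u a ∈ k)
    {m : α → G} (hm : AEStronglyMeasurable m ν) {p : P} (hp : p ∈ s) :
    AEStronglyMeasurable (fun a => B (Φ p (u a)) (m a)) ν := by
  have h1 : ContinuousOn (Φ p) k := by
    have h2 : ContinuousOn (fun x : X => (p, x)) k := by fun_prop
    exact hΦ.comp h2 fun x hx => hsk ⟨hp, hx⟩
  have h3 := aestronglyMeasurable_comp_param hk h1 hu huk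
  exact B.aestronglyMeasurable_comp₂ h3 hm

theorem integrable_param (hs : IsOpen s) (hΩ : IsOpen Ω) (hk : IsCompact k) (hsk : s ×ˢ k ⊆ Ω)
    (hΦ : ContinuousOn (uncurry Φ) Ω) {u : α → X} (hu : AEMeasurable u ν) (huk : ∀ a, u a ∈ k)
    {m : α → G} (hm : Integrable m ν) {p : P} (hp : p ∈ s) :
    Integrable (fun a => B (Φ p (u a)) (m a)) ν := by
  obtain ⟨ε, C, hε, hC, hb, hbd⟩ := exists_bound_param hs hΩ hk hsk hΦ hp
  refine Integrable.mono' (g := fun a => ‖B‖ * C * ‖m a‖) (hm.norm.const_mul _)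
    (aestronglyMeasurable_param B hk hsk hΦ hu huk hm.1 hp) ?_
  exact Eventually.of_forall fun a => norm_le_aux B (hbd p (mem_ball_self hε) _ (huk a)) _

theorem continuousOn_param (hs : IsOpen s) (hΩ : IsOpen Ω) (hk : IsCompact k)
    (hsk : s ×ˢ k ⊆ Ω) (hΦ : ContinuousOn (uncurry Φ) Ω) {u : α → X} (hu : AEMeasurable u ν)
    (huk : ∀ a, u a ∈ k) {m : α → G} (hm : Integrable m ν) :
    ContinuousOn (fun p => ∫ a, B (Φ p (u a)) (m a) ∂ν) s := by
  intro p hp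
  refine ContinuousAt.continuousWithinAt ?_
  obtain ⟨ε, C, hε, hC, hb, hbd⟩ := exists_bound_param hs hΩ hk hsk hΦ hp
  refine continuousAt_of_dominated (bound := fun a => ‖B‖ * C * ‖m a‖) ?_ ?_
    (hm.norm.const_mul _) ?_
  · filter_upwards [hs.mem_nhds hp] with q hq
    exact aestronglyMeasurable_param B hk hsk hΦ hu huk hm.1 hq
  · filter_upwards [ball_mem_nhds p hε] with q hq
    exact Eventually.of_forall fun a => norm_le_aux B (hbd q hq _ (huk a)) _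
  · refine Eventually.of_forall fun a => ?_
    have h1 : ContinuousAt (uncurry Φ) (p, u a) :=
      hΦ.continuousAt (hΩ.mem_nhds (hsk ⟨hp, huk a⟩))
    have h2 : ContinuousAt (fun p : P => (p, u a)) p := by fun_prop
    have h3 : ContinuousAt (fun p : P => Φ p (u a)) p :=
      ContinuousAt.comp (f := fun p : P => (p, u a)) (g := uncurry Φ) h1 h2
    exact (B.continuous.continuousAt.comp h3).clm_apply continuousAt_const

theorem hasFDerivAt_param (hs : IsOpen s) (hΩ : IsOpen Ω) (hk : IsCompact k)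
    (hsk : s ×ˢ k ⊆ Ω) (hΦ : ContDiffOn ℝ 1 (uncurry Φ) Ω) {u : α → X} (hu : AEMeasurable u ν)
    (huk : ∀ a, u a ∈ k) {m : α → G} (hm : Integrable m ν) {p : P} (hp : p ∈ s) :
    HasFDerivAt (fun p => ∫ a, B (Φ p (u a)) (m a) ∂ν)
      (∫ a, (preL B) (pd Φ p (u a)) (m a) ∂ν) p := by
  have hd : ContinuousOn (uncurry (pd Φ)) Ω := by
    have := contDiffOn_pd (n := 0) hΩ (by simpa using hΦ)
    exact this.continuousOn
  obtain ⟨ε, C, hε, hC, hb, hbd⟩ := exists_bound_param hs hΩ hk hsk hd hp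
  refine hasFDerivAt_integral_of_dominated_of_fderiv_le (𝕜 := ℝ)
    (F := fun p a => B (Φ p (u a)) (m a))
    (F' := fun p a => (preL B) (pd Φ p (u a)) (m a))
    (bound := fun a => ‖B‖ * C * ‖m a‖) (ball_mem_nhds p hε) ?_ ?_ ?_ ?_
    (hm.norm.const_mul _) ?_
  · filter_upwards [hs.mem_nhds hp] with q hq
    exact aestronglyMeasurable_param B hk hsk hΦ.continuousOn hu huk hm.1 hq
  · exact integrable_param B hs hΩ hk hsk hΦ.continuousOn hu huk hm hp
  · exact aestronglyMeasurable_param (preL B) hk hsk hd hu huk hm.1 hp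
  · exact Eventually.of_forall fun a q hq => norm_precompL_aux B (hbd q hq _ (huk a)) _
  · refine Eventually.of_forall fun a q hq => ?_
    have h1 := hasFDerivAt_pd hΩ hΦ (hsk ⟨hb hq, huk a⟩)
    have h2 : HasFDerivAt (fun p => B (Φ p (u a))) (B.comp (pd Φ q (u a))) q :=
      B.hasFDerivAt.comp q h1
    have h3 := h2.clm_apply (hasFDerivAt_const (m a) q)
    convert h3 using 1
    ext x
    simp [preL_apply]

theorem fderiv_param_apply (hs : IsOpen s) (hΩ : IsOpen Ω) (hk : IsCompact k)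
    (hsk : s ×ˢ k ⊆ Ω) (hΦ : ContDiffOn ℝ 1 (uncurry Φ) Ω) {u : α → X} (hu : AEMeasurable u ν)
    (huk : ∀ a, u a ∈ k) {m : α → G} (hm : Integrable m ν) {p : P} (hp : p ∈ s) (ξ : P) :
    fderiv ℝ (fun p => ∫ a, B (Φ p (u a)) (m a) ∂ν) p ξ =
      ∫ a, B (fderiv ℝ (fun p => Φ p (u a)) p ξ) (m a) ∂ν := by
  have hd : ContinuousOn (uncurry (pd Φ)) Ω :=
    (contDiffOn_pd (n := 0) hΩ (by simpa using hΦ)).continuousOn
  have hi : Integrable (fun a => (preL B) (pd Φ p (u a)) (m a)) ν :=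
    integrable_param (preL B) hs hΩ hk hsk hd hu huk hm hp
  rw [(hasFDerivAt_param B hs hΩ hk hsk hΦ hu huk hm hp).fderiv,
    ContinuousLinearMap.integral_apply hi]
  refine integral_congr_ae (Eventually.of_forall fun a => ?_)
  show (preL B) (pd Φ p (u a)) (m a) ξ = B (fderiv ℝ (fun p => Φ p (u a)) p ξ) (m a)
  rw [preL_apply, (hasFDerivAt_pd hΩ hΦ (hsk ⟨hp, huk a⟩)).fderiv]

theorem integrable_fderiv_param (hs : IsOpen s) (hΩ : IsOpen Ω) (hk : IsCompact k)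
    (hsk : s ×ˢ k ⊆ Ω) (hΦ : ContDiffOn ℝ 1 (uncurry Φ) Ω) {u : α → X} (hu : AEMeasurable u ν)
    (huk : ∀ a, u a ∈ k) {m : α → G} (hm : Integrable m ν) {p : P} (hp : p ∈ s) (ξ : P) :
    Integrable (fun a => B (fderiv ℝ (fun p => Φ p (u a)) p ξ) (m a)) ν := by
  have hd : ContinuousOn (uncurry (pd Φ)) Ω :=
    (contDiffOn_pd (n := 0) hΩ (by simpa using hΦ)).continuousOn
  have hi : Integrable (fun a => (preL B) (pd Φ p (u a)) (m a)) ν :=
    integrable_param (preL B) hs hΩ hk hsk hd hu huk hm hp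
  refine (hi.apply_continuousLinearMap ξ).congr (Eventually.of_forall fun a => ?_)
  show (preL B) (pd Φ p (u a)) (m a) ξ = B (fderiv ℝ (fun p => Φ p (u a)) p ξ) (m a)
  rw [preL_apply, (hasFDerivAt_pd hΩ hΦ (hsk ⟨hp, huk a⟩)).fderiv]

theorem fderiv_fderiv_param_apply (hs : IsOpen s) (hΩ : IsOpen Ω) (hk : IsCompact k)
    (hsk : s ×ˢ k ⊆ Ω) (hΦ : ContDiffOn ℝ 2 (uncurry Φ) Ω) {u : α → X} (hu : AEMeasurable u ν)
    (huk : ∀ a, u a ∈ k) {m : α → G} (hm : Integrable m ν) {p : P} (hp : p ∈ s) (ξ η : P) :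
    fderiv ℝ (fderiv ℝ (fun p => ∫ a, B (Φ p (u a)) (m a) ∂ν)) p ξ η =
      ∫ a, B (fderiv ℝ (fderiv ℝ (fun p => Φ p (u a))) p ξ η) (m a) ∂ν := by
  have hΦ1 : ContDiffOn ℝ 1 (uncurry Φ) Ω := hΦ.of_le (by norm_num)
  have hd : ContDiffOn ℝ 1 (uncurry (pd Φ)) Ω :=
    contDiffOn_pd (n := 1) hΩ (by simpa [one_add_one_eq_two] using hΦ)
  have hdd : ContinuousOn (uncurry (pd (pd Φ))) Ω :=
    (contDiffOn_pd (n := 0) hΩ (by simpa using hd)).continuousOn
  have hi : Integrable (fun a => preL (preL B) (pd (pd Φ) p (u a)) (m a)) ν :=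
    integrable_param (preL (preL B)) hs hΩ hk hsk hdd hu huk hm hp
  have h1 : fderiv ℝ (fun p => ∫ a, B (Φ p (u a)) (m a) ∂ν) =ᶠ[𝓝 p]
      fun p => ∫ a, (preL B) (pd Φ p (u a)) (m a) ∂ν := by
    filter_upwards [hs.mem_nhds hp] with p hp
    exact (hasFDerivAt_param B hs hΩ hk hsk hΦ1 hu huk hm hp).fderiv
  rw [h1.fderiv_eq, (hasFDerivAt_param (preL B) hs hΩ hk hsk hd hu huk hm hp).fderiv,
    ContinuousLinearMap.integral_apply hi, ContinuousLinearMap.integral_apply]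
  swap
  · exact hi.apply_continuousLinearMap ξ
  refine integral_congr_ae (Eventually.of_forall fun a => ?_)
  show (preL (preL B) (pd (pd Φ) p (u a)) (m a)) ξ η =
    B (fderiv ℝ (fderiv ℝ (fun p => Φ p (u a))) p ξ η) (m a)
  rw [preL_apply, preL_apply]
  have h2 : fderiv ℝ (fun p => Φ p (u a)) =ᶠ[𝓝 p] fun p => pd Φ p (u a) := by
    filter_upwards [hs.mem_nhds hp] with p hp
    exact (hasFDerivAt_pd hΩ hΦ1 (hsk ⟨hp, huk a⟩)).fderiv
  rw [h2.fderiv_eq, (hasFDerivAt_pd hΩ hd (hsk ⟨hp, huk a⟩)).fderiv]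

theorem integrable_fderiv_fderiv_param (hs : IsOpen s) (hΩ : IsOpen Ω) (hk : IsCompact k)
    (hsk : s ×ˢ k ⊆ Ω) (hΦ : ContDiffOn ℝ 2 (uncurry Φ) Ω) {u : α → X} (hu : AEMeasurable u ν)
    (huk : ∀ a, u a ∈ k) {m : α → G} (hm : Integrable m ν) {p : P} (hp : p ∈ s) (ξ η : P) :
    Integrable (fun a => B (fderiv ℝ (fderiv ℝ (fun p => Φ p (u a))) p ξ η) (m a)) ν := by
  have hΦ1 : ContDiffOn ℝ 1 (uncurry Φ) Ω := hΦ.of_le (by norm_num)
  have hd : ContDiffOn ℝ 1 (uncurry (pd Φ)) Ω :=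
    contDiffOn_pd (n := 1) hΩ (by simpa [one_add_one_eq_two] using hΦ)
  have hdd : ContinuousOn (uncurry (pd (pd Φ))) Ω :=
    (contDiffOn_pd (n := 0) hΩ (by simpa using hd)).continuousOn
  have hi : Integrable (fun a => preL (preL B) (pd (pd Φ) p (u a)) (m a)) ν :=
    integrable_param (preL (preL B)) hs hΩ hk hsk hdd hu huk hm hp
  have h3 : Integrable (fun a => preL (preL B) (pd (pd Φ) p (u a)) (m a) ξ η) ν :=
    have h4 : Integrable (fun a => preL (preL B) (pd (pd Φ) p (u a)) (m a) ξ) ν :=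
      hi.apply_continuousLinearMap ξ
    h4.apply_continuousLinearMap η
  refine h3.congr (Eventually.of_forall fun a => ?_)
  show (preL (preL B) (pd (pd Φ) p (u a)) (m a)) ξ η =
    B (fderiv ℝ (fderiv ℝ (fun p => Φ p (u a))) p ξ η) (m a)
  rw [preL_apply, preL_apply]
  have h2 : fderiv ℝ (fun p => Φ p (u a)) =ᶠ[𝓝 p] fun p => pd Φ p (u a) := by
    filter_upwards [hs.mem_nhds hp] with p hp
    exact (hasFDerivAt_pd hΩ hΦ1 (hsk ⟨hp, huk a⟩)).fderiv
  rw [h2.fderiv_eq, (hasFDerivAt_pd hΩ hd (hsk ⟨hp, huk a⟩)).fderiv]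

end param

section smooth

theorem contDiffOn_param {α P X F G H : Type} [MeasurableSpace α] {ν : Measure α}
    [NormedAddCommGroup P] [NormedSpace ℝ P] [NormedAddCommGroup X] [NormedSpace ℝ X]
    [MeasurableSpace X] [BorelSpace X] [SecondCountableTopology X]
    [NormedAddCommGroup F] [NormedSpace ℝ F] [NormedAddCommGroup G] [NormedSpace ℝ G]
    [NormedAddCommGroup H] [NormedSpace ℝ H]
    (B : F →L[ℝ] G →L[ℝ] H) {Φ : P → X → F} {Ω : Set (P × X)} {s : Set P} {k : Set X}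
    (hs : IsOpen s) (hΩ : IsOpen Ω) (hk : IsCompact k) (hsk : s ×ˢ k ⊆ Ω) {n : ℕ∞}
    (hΦ : ContDiffOn ℝ n (uncurry Φ) Ω) {u : α → X} (hu : AEMeasurable u ν)
    (huk : ∀ a, u a ∈ k) {m : α → G} (hm : Integrable m ν) :
    ContDiffOn ℝ n (fun p => ∫ a, B (Φ p (u a)) (m a) ∂ν) s := by
  induction n using ENat.nat_induction generalizing F H with
  | zero =>
    rw [WithTop.coe_zero, contDiffOn_zero] at hΦ ⊢
    exact continuousOn_param B hs hΩ hk hsk hΦ hu huk hm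
  | succ n ih =>
    simp only [Nat.succ_eq_add_one, Nat.cast_add, Nat.cast_one, WithTop.coe_add,
      WithTop.coe_natCast, WithTop.coe_one] at hΦ ⊢
    have A : ∀ p ∈ s, HasFDerivAt (fun p => ∫ a, B (Φ p (u a)) (m a) ∂ν)
        (∫ a, (preL B) (pd Φ p (u a)) (m a) ∂ν) p := fun p hp =>
      hasFDerivAt_param B hs hΩ hk hsk hΦ.one_of_succ hu huk hm hp
    rw [contDiffOn_succ_iff_fderiv_of_isOpen hs]
    refine ⟨fun p hp => (A p hp).differentiableAt.differentiableWithinAt, by simp, ?_⟩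
    have H1 : ContDiffOn ℝ n (fun p => ∫ a, (preL B) (pd Φ p (u a)) (m a) ∂ν) s :=
      ih (preL B) (contDiffOn_pd (n := n) hΩ (by simpa using hΦ))
    exact H1.congr fun p hp => (A p hp).fderiv
  | top ih =>
    rw [contDiffOn_infty] at hΦ ⊢
    exact fun n => ih n B (hΦ n)

end smooth

end Pool.Agent.Lib.MP_5d4057_al.HM
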