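import Pool.Agent.Lib.MP_5d4057_al.HM.Green
import Pool.Agent.Lib.MP_5d4057_al.HM.Mx
import Pool.Agent.Lib.MP_5d4057_al.HM.Param

/-! Left averages: preparations. -/

set_option linter.unusedSectionVars false

namespace Pool.Agent.Lib.MP_5d4057_al.HM

open Matrix MeasureTheory Filter Topology Pool.Agent.Lib.MP_5d4057_al Pool.Agent.Lib.MP_5d4057_al.Hyb

open scoped ComplexOrder MatrixOrder Matrix.Norms.L2Operator

namespace Lv

variable {n m : ℕ} {E : Type} [NormedAddCommGroup E] [NormedSpace ℝ E]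

theorem norm_entry_le_norm (A : Mat m) (i j : Fin m) : ‖A i j‖ ≤ ‖A‖ := by
  have h := A.l2_opNorm_mulVec (WithLp.toLp 2 (Pi.single j (1 : ℂ)))
  have h2 : ‖(WithLp.toLp 2 (A *ᵥ (Pi.single j (1 : ℂ))) : EuclideanSpace ℂ (Fin m))‖ ≤ ‖A‖ := by
    refine h.trans (le_of_eq ?_)
    simp
  have h3 := PiLp.norm_apply_le
    (WithLp.toLp 2 (A *ᵥ (Pi.single j (1 : ℂ))) : EuclideanSpace ℂ (Fin m)) i
  have h4 : (WithLp.toLp 2 (A *ᵥ (Pi.single j (1 : ℂ))) : EuclideanSpace ℂ (Fin m)) i = A i j := by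
    simp
  rw [h4] at h3
  exact h3.trans h2

theorem ch_le_norm (x : SUGroup n) : ch x ≤ ‖x.toMatrix‖ := norm_entry_le_norm _ _ _

theorem norm_toMatrix_le (x : SUGroup n) : ‖x.toMatrix‖ ≤ 2 * (n + 1) * ch x := by
  have h0 := one_le_ch x
  have h1 : ‖x.toMatrixᴴ * x.toMatrix‖ = ‖x.toMatrix‖ * ‖x.toMatrix‖ :=
    Matrix.l2_opNorm_conjTranspose_mul_self _
  have h2 := norm_le_trace (posSemidef_conjTranspose_mul_self x.toMatrix)
  have h3 : (x.toMatrixᴴ * x.toMatrix).trace.re = ∑ j, ∑ i, ‖x.toMatrix i j‖ ^ 2 := by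
    rw [Matrix.trace, Complex.re_sum]
    refine Finset.sum_congr rfl fun j _ => ?_
    rw [Matrix.diag_apply, Matrix.mul_apply, Complex.re_sum]
    refine Finset.sum_congr rfl fun i _ => ?_
    rw [conjTranspose_apply, RCLike.star_def, Complex.conj_mul']
    norm_cast
  have h4 : ∑ j, ∑ i, ‖x.toMatrix i j‖ ^ 2 ≤ (2 * (n + 1) * ch x) ^ 2 := by
    calc _ ≤ ∑ j : Fin (n + 1), ∑ i : Fin (n + 1), (2 * ch x) ^ 2 := by
          refine Finset.sum_le_sum fun j _ => Finset.sum_le_sum fun i _ => ?_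
          exact pow_le_pow_left₀ (norm_nonneg _) (norm_entry_le x i j) 2
      _ = _ := by
          simp
          ring
  rw [h1, h3] at h2
  refine le_of_sq_le_sq ?_ (by positivity)
  rw [sq]
  exact h2.trans h4

theorem W_smul {c : ℂ} (hc : c ≠ 0) (v : Vec n) : W (c • v) = W v := by
  rw [W, W, q_smul, Pi.smul_apply, smul_eq_mul, norm_mul, mul_pow, ← mul_neg]
  exact mul_div_mul_left _ _ (by positivity)

theorem W_of_eq {v : Vec n} {c : ℂ} (hc : c ≠ 0) {σ : SUGroup n} (h : v = c • act σ (base n)) :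
    W v = ch σ ^ 2 := by
  rw [h, W_smul hc, W_orbit]

theorem W_eq {v : Vec n} (hv : v ∈ Cone n) : W v = ch (sec n v) ^ 2 := by
  obtain ⟨c, hc, h⟩ := sec_spec hv
  exact W_of_eq hc h

theorem continuous_q' : Continuous fun v : Vec n => q v := by
  simp only [q_eq]
  fun_prop

theorem continuousOn_W : ContinuousOn (W : Vec n → ℝ) (Cone n) := by
  have h1 : Continuous fun v : Vec n => ‖v (Fin.last n)‖ ^ 2 := by fun_prop
  refine h1.continuousOn.div continuous_q'.neg.continuousOn fun v hv => ?_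
  have : q v < 0 := hv
  linarith

theorem isOpen_sub (T : ℝ) : IsOpen {v : Vec n | v ∈ Cone n ∧ W v < T} :=
  continuousOn_W.isOpen_inter_preimage (isOpen_cone n) (isOpen_Iio (a := T))

theorem J_mul_J' (n : ℕ) : J n * J n = 1 := by
  rw [J, diagonal_mul_diagonal, ← diagonal_one]
  congr 1
  funext i
  split_ifs <;> norm_num

theorem toMatrix_inv_eq (x : SUGroup n) : (x⁻¹).toMatrix = J n * x.toMatrixᴴ * J n := by
  have h1 : (J n * x.toMatrixᴴ * J n) * x.toMatrix = 1 := by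
    rw [mul_assoc, mul_assoc, ← mul_assoc x.toMatrixᴴ, pres, J_mul_J']
  have h2 := toMatrix_mul_inv x
  calc (x⁻¹).toMatrix = (J n * x.toMatrixᴴ * J n) * x.toMatrix * (x⁻¹).toMatrix := by
        rw [h1, one_mul]
    _ = _ := by rw [mul_assoc, h2, mul_one]

theorem contDiffOn_sec_inv (n : ℕ) :
    ContDiffOn ℝ (⊤ : ℕ∞) (fun v => ((sec n v)⁻¹).toMatrix) (Cone n) := by
  refine Kak.contDiffOn_mat fun i j => ?_
  have e : (fun v : Vec n => ((sec n v)⁻¹).toMatrix i j) =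
      fun v => J n i i * star ((sec n v).toMatrix j i) * J n j j := by
    funext v
    rw [toMatrix_inv_eq, J, mul_diagonal, diagonal_mul, conjTranspose_apply, diagonal_apply_eq,
      diagonal_apply_eq]
  rw [e]
  have h1 : ContDiffOn ℝ (⊤ : ℕ∞) (fun v : Vec n => (sec n v).toMatrix j i) (Cone n) := by
    let L : Mat (n + 1) →ₗ[ℝ] ℂ := Matrix.entryLinearMap ℝ ℂ j i
    exact (L.toContinuousLinearMap.contDiff (n := (⊤ : ℕ∞))).comp_contDiffOn (contDiffOn_sec n)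
  exact (contDiffOn_const.mul (Kak.contDiffOn_star h1)).mul contDiffOn_const

theorem exists_R {Φ : Mat (n + 1) → ℝ} (hΦ : Test n Φ) :
    ∃ R : ℝ, 1 ≤ R ∧ ∀ A, R < ‖A‖ → Φ A = 0 := by
  obtain ⟨R, hR⟩ := hΦ.supp.isCompact.isBounded.subset_closedBall 0
  refine ⟨max R 1, le_max_right _ _, fun A hA => ?_⟩
  by_contra h
  have h1 := hR (subset_tsupport _ h)
  rw [mem_closedBall_zero_iff] at h1
  exact absurd (h1.trans (le_max_left R 1)) (not_le.2 hA)

theorem exists_K {Φ : Mat (n + 1) → ℝ} (hΦ : Test n Φ) :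
    ∃ K : ℝ, 0 < K ∧ ∀ i ≤ 2, ∀ A, ‖iteratedFDeriv ℝ i Φ A‖ ≤ K := by
  have h : ∀ i : ℕ, ∃ K : ℝ, ∀ A, ‖iteratedFDeriv ℝ i Φ A‖ ≤ K := fun i =>
    (hΦ.smooth.continuous_iteratedFDeriv (m := i)
      (by exact_mod_cast le_top)).bounded_above_of_compact_support (hΦ.supp.iteratedFDeriv i)
  choose K hK using h
  refine ⟨max 1 (max (K 0) (max (K 1) (K 2))), lt_of_lt_of_le one_pos (le_max_left _ _), ?_⟩
  intro i hi A
  interval_cases i
  · exact (hK 0 A).trans (by simp)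
  · exact (hK 1 A).trans (by simp)
  · exact (hK 2 A).trans (by simp)

/-- Support of the weights. -/
theorem ch_le_of_ne {Φ : Mat (n + 1) → ℝ} {R : ℝ} (hR : ∀ A, R < ‖A‖ → Φ A = 0)
    {b σ : SUGroup n} (h : Φ ((b * σ⁻¹).toMatrix) ≠ 0) : ch b ≤ 2 * R * ch σ := by
  have h1 : ‖(b * σ⁻¹).toMatrix‖ ≤ R := by
    by_contra h2
    exact h (hR _ (not_le.1 h2))
  have h2 := (ch_le_norm _).trans h1
  have h3 := ch_mul_le' (b * σ⁻¹) σ
  rw [inv_mul_cancel_right] at h3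
  have h4 := one_le_ch σ
  refine h3.trans ?_
  gcongr

/-- Averages by means of a section. -/
theorem int_sec {Φ : Mat (n + 1) → ℝ} {F : Vec n → E} (hF : Homog F) {v : Vec n} {c : ℂ}
    (hc : c ≠ 0) {σ : SUGroup n} (h : v = c • act σ (base n)) :
    ∫ b : SUGroup n, Φ ((b * σ⁻¹).toMatrix) • F (act b (base n)) ∂(mu n) =
      ∫ a : SUGroup n, Φ a.toMatrix • F (act a v) ∂(mu n) := by
  rw [← integral_mul_right_eq_self
    (fun b : SUGroup n => Φ ((b * σ⁻¹).toMatrix) • F (act b (base n))) σ]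
  refine integral_congr_ae (Eventually.of_forall fun a => ?_)
  show Φ ((a * σ * σ⁻¹).toMatrix) • F (act (a * σ) (base n)) = Φ a.toMatrix • F (act a v)
  rw [mul_inv_cancel_right, h, act_smul, ← act_mul, hF c hc _ (orbit_mem _)]

theorem measurableSet_ball (T : ℝ) : MeasurableSet {x : SUGroup n | ch x ≤ T} :=
  (isClosed_le continuous_ch continuous_const).measurableSet

/-- Local integrability of admissible functions. -/
theorem adm_integrableOn {N : ℕ} {C : ℝ} {F : Vec n → E} (hF : Adm N C F) (T : ℝ) :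
    IntegrableOn (fun b : SUGroup n => F (act b (base n))) {b : SUGroup n | ch b ≤ T} (mu n) := by
  have hC : 0 ≤ C := by
    have h1 := (norm_nonneg _).trans (hF.bound 1)
    rwa [ch_one, one_pow, mul_one] at h1
  refine Measure.integrableOn_of_bounded (M := C * T ^ (2 * N))
    (isCompact_ball T).measure_lt_top.ne hF.meas ?_
  refine (ae_restrict_iff' (measurableSet_ball T)).2 (Eventually.of_forall fun b hb => ?_)
  refine (hF.bound b).trans ?_
  have h2 : ch b ≤ T := hb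
  have h3 := one_le_ch b
  gcongr

section core

variable [CompleteSpace E]

/-- The group variable, cut off. -/
noncomputable def ub (T : ℝ) (b : SUGroup n) : Mat (n + 1) := if ch b ≤ T then b.toMatrix else 1

/-- The function, cut off. -/
noncomputable def mb (T : ℝ) (F : Vec n → E) (b : SUGroup n) : E :=
  {b : SUGroup n | ch b ≤ T}.indicator (fun b => F (act b (base n))) b

/-- The compact set of the values of `ub`. -/
def kb (n : ℕ) (T : ℝ) : Set (Mat (n + 1)) := SUGroup.toMatrix '' {b : SUGroup n | ch b ≤ T}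

theorem isCompact_kb (n : ℕ) (T : ℝ) : IsCompact (kb n T) :=
  (isCompact_ball T).image (continuous_toMatrix n)

theorem ub_mem {T : ℝ} (hT : 1 ≤ T) (b : SUGroup n) : ub T b ∈ kb n T := by
  unfold ub
  split_ifs with h
  · exact ⟨b, h, rfl⟩
  · exact ⟨1, by rw [Set.mem_ofPred_eq, ch_one]; exact hT, toMatrix_one⟩

theorem norm_kb {T : ℝ} {X : Mat (n + 1)} (hX : X ∈ kb n T) : ‖X‖ ≤ 2 * (n + 1) * T := by
  obtain ⟨b, hb, rfl⟩ := hX
  refine (norm_toMatrix_le b).trans ?_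
  have : ch b ≤ T := hb
  gcongr

theorem integrable_mb {T : ℝ} {F : Vec n → E}
    (hF : IntegrableOn (fun b : SUGroup n => F (act b (base n))) {b : SUGroup n | ch b ≤ T} (mu n)) :
    Integrable (mb T F) (mu n) :=
  (integrable_indicator_iff (measurableSet_ball T)).2 hF

theorem integral_norm_mb (T : ℝ) (F : Vec n → E) :
    ∫ b, ‖mb T F b‖ ∂(mu n) = ∫ b in {b : SUGroup n | ch b ≤ T}, ‖F (act b (base n))‖ ∂(mu n) := by
  rw [← integral_indicator (measurableSet_ball T)]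
  refine integral_congr_ae (Eventually.of_forall fun b => ?_)
  show ‖mb T F b‖ = _
  rw [mb, norm_indicator_eq_indicator_norm]

variable {Φ : Mat (n + 1) → ℝ} {s : Set (Vec n)} {σ : Vec n → SUGroup n} {F : Vec n → E} {T R : ℝ}

theorem core_eq (hR : ∀ A, R < ‖A‖ → Φ A = 0) (hR0 : 0 ≤ R) (hch : ∀ v ∈ s, ch (σ v) ≤ T)
    {v : Vec n} (hv : v ∈ s) :
    (fun b : SUGroup n => Φ ((b * (σ v)⁻¹).toMatrix) • F (act b (base n))) =
      fun b : SUGroup n => ContinuousLinearMap.lsmul ℝ ℝ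
        (Φ (ub (2 * R * T) b * ((σ v)⁻¹).toMatrix)) (mb (2 * R * T) F b) := by
  funext b
  rw [ContinuousLinearMap.lsmul_apply]
  by_cases h : ch b ≤ 2 * R * T
  · rw [ub, if_pos h, mb, Set.indicator_of_mem (show b ∈ {b : SUGroup n | ch b ≤ 2 * R * T} from h),
      toMatrix_mul]
  · rw [mb, Set.indicator_of_notMem (show b ∉ {b : SUGroup n | ch b ≤ 2 * R * T} from h), smul_zero]
    have h1 : Φ ((b * (σ v)⁻¹).toMatrix) = 0 := by
      by_contra h2
      refine h ((ch_le_of_ne hR h2).trans ?_)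
      have := hch v hv
      gcongr
    rw [h1, zero_smul]

noncomputable local instance instMS (n : ℕ) : MeasurableSpace (Mat (n + 1)) := borel _

local instance instBS (n : ℕ) : BorelSpace (Mat (n + 1)) := ⟨rfl⟩

theorem measurable_ub (T : ℝ) : Measurable (ub T : SUGroup n → Mat (n + 1)) :=
  Measurable.ite (measurableSet_ball T) (continuous_toMatrix n).measurable measurable_const

theorem core_smooth (hΦ : Test n Φ)
    (hσ : ContDiffOn ℝ (⊤ : ℕ∞) (fun v => ((σ v)⁻¹).toMatrix) s) :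
    ContDiffOn ℝ (⊤ : ℕ∞)
      (Function.uncurry fun (v : Vec n) (X : Mat (n + 1)) => Φ (X * ((σ v)⁻¹).toMatrix))
      (s ×ˢ Set.univ) := by
  have h1 : ContDiffOn ℝ (⊤ : ℕ∞) (fun p : Vec n × Mat (n + 1) => ((σ p.1)⁻¹).toMatrix)
      (s ×ˢ Set.univ) := hσ.comp contDiffOn_fst fun p hp => hp.1
  have h2 : ContDiffOn ℝ (⊤ : ℕ∞) (fun p : Vec n × Mat (n + 1) => p.2 * ((σ p.1)⁻¹).toMatrix)
      (s ×ˢ Set.univ) := contDiffOn_snd.mul h1
  exact hΦ.smooth.comp_contDiffOn h2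

theorem core_contDiffOn (hΦ : Test n Φ) (hR : ∀ A, R < ‖A‖ → Φ A = 0) (hR0 : 0 ≤ R)
    (hRT : 1 ≤ 2 * R * T) (hs : IsOpen s)
    (hσ : ContDiffOn ℝ (⊤ : ℕ∞) (fun v => ((σ v)⁻¹).toMatrix) s) (hch : ∀ v ∈ s, ch (σ v) ≤ T)
    (hF : IntegrableOn (fun b : SUGroup n => F (act b (base n)))
      {b : SUGroup n | ch b ≤ 2 * R * T} (mu n)) :
    ContDiffOn ℝ (⊤ : ℕ∞) (fun v => ∫ b : SUGroup n, Φ ((b * (σ v)⁻¹).toMatrix) •
      F (act b (base n)) ∂(mu n)) s := by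
  have h1 := contDiffOn_param (ContinuousLinearMap.lsmul ℝ ℝ : ℝ →L[ℝ] E →L[ℝ] E) (n := ⊤)
    (Φ := fun (v : Vec n) (X : Mat (n + 1)) => Φ (X * ((σ v)⁻¹).toMatrix)) hs
    (hs.prod isOpen_univ) (isCompact_kb n (2 * R * T))
    (Set.prod_mono subset_rfl (Set.subset_univ _)) (core_smooth hΦ hσ)
    (measurable_ub (2 * R * T)).aemeasurable (ub_mem hRT) (integrable_mb hF)
  refine h1.congr fun v hv => ?_
  rw [core_eq hR hR0 hch hv]

theorem norm_iter_le (hΦ : Test n Φ) {K : ℝ} (hK : ∀ i ≤ 2, ∀ A, ‖iteratedFDeriv ℝ i Φ A‖ ≤ K)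
    (hs : IsOpen s) (hσ : ContDiffOn ℝ (⊤ : ℕ∞) (fun v => ((σ v)⁻¹).toMatrix) s) {w : Vec n}
    (hw : w ∈ s) {D : ℝ} (hD : 1 ≤ D)
    (h1 : ‖iteratedFDeriv ℝ 1 (fun v => ((σ v)⁻¹).toMatrix) w‖ ≤ D)
    (h2 : ‖iteratedFDeriv ℝ 2 (fun v => ((σ v)⁻¹).toMatrix) w‖ ≤ D) (X : Mat (n + 1)) (i : ℕ)
    (hi : i ≤ 2) :
    ‖iteratedFDeriv ℝ i (fun v => Φ (X * ((σ v)⁻¹).toMatrix)) w‖ ≤
      2 * K * ((1 + ‖X‖) * D) ^ 2 := by
  have hK0 : 0 ≤ K := (norm_nonneg _).trans (hK 0 (by norm_num) 0)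
  have hD1 : 1 ≤ (1 + ‖X‖) * D := one_le_mul_of_one_le_of_one_le (by linarith [norm_nonneg X]) hD
  have hf : ContDiffOn ℝ (⊤ : ℕ∞) (fun v => X * ((σ v)⁻¹).toMatrix) s := contDiffOn_const.mul hσ
  have hbd : ∀ j : ℕ, 1 ≤ j → j ≤ i →
      ‖iteratedFDerivWithin ℝ j (fun v => X * ((σ v)⁻¹).toMatrix) s w‖ ≤ ((1 + ‖X‖) * D) ^ j := by
    intro j hj1 hj2
    have h3 : ‖iteratedFDerivWithin ℝ j (fun v => X * ((σ v)⁻¹).toMatrix) s w‖ ≤
        ‖ContinuousLinearMap.mul ℝ (Mat (n + 1)) X‖ *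
          ‖iteratedFDerivWithin ℝ j (fun v => ((σ v)⁻¹).toMatrix) s w‖ :=
      (ContinuousLinearMap.mul ℝ (Mat (n + 1)) X).norm_iteratedFDerivWithin_comp_left
        (hσ w hw) hs.uniqueDiffOn hw (by exact_mod_cast le_top)
    have h4 : ‖ContinuousLinearMap.mul ℝ (Mat (n + 1)) X‖ ≤ 1 + ‖X‖ :=
      (ContinuousLinearMap.opNorm_mul_apply_le ℝ (Mat (n + 1)) X).trans (by linarith)
    have h5 : ‖iteratedFDerivWithin ℝ j (fun v => ((σ v)⁻¹).toMatrix) s w‖ ≤ D := by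
      rw [iteratedFDerivWithin_of_isOpen j hs hw]
      have hj3 : j ≤ 2 := hj2.trans hi
      interval_cases j
      · exact h1
      · exact h2
    calc _ ≤ _ := h3
      _ ≤ (1 + ‖X‖) * D := mul_le_mul h4 h5 (norm_nonneg _) (by positivity)
      _ ≤ _ := le_self_pow₀ hD1 (by omega)
  have key := norm_iteratedFDerivWithin_comp_le (g := Φ) (n := i)
    (f := fun v => X * ((σ v)⁻¹).toMatrix) (s := s) (t := Set.univ) (x := w) (C := K)
    (D := (1 + ‖X‖) * D) hΦ.smooth.contDiffOn hf (by exact_mod_cast le_top) uniqueDiffOn_univ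
    hs.uniqueDiffOn (Set.mapsTo_univ _ _) hw
    (fun j hj => by rw [iteratedFDerivWithin_univ]; exact hK j (hj.trans hi) _) hbd
  rw [iteratedFDerivWithin_of_isOpen i hs hw] at key
  refine (show _ ≤ _ from key).trans ?_
  have h6 : ((i.factorial : ℕ) : ℝ) ≤ 2 := by
    interval_cases i <;> norm_num [Nat.factorial]
  have h7 : ((1 + ‖X‖) * D) ^ i ≤ ((1 + ‖X‖) * D) ^ 2 := pow_le_pow_right₀ hD1 hi
  gcongr

theorem core_bound (hΦ : Test n Φ) {K : ℝ} (hK : ∀ i ≤ 2, ∀ A, ‖iteratedFDeriv ℝ i Φ A‖ ≤ K)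
    (hR : ∀ A, R < ‖A‖ → Φ A = 0) (hR0 : 0 ≤ R)
    (hRT : 1 ≤ 2 * R * T) (hs : IsOpen s)
    (hσ : ContDiffOn ℝ (⊤ : ℕ∞) (fun v => ((σ v)⁻¹).toMatrix) s) (hch : ∀ v ∈ s, ch (σ v) ≤ T)
    (hF : IntegrableOn (fun b : SUGroup n => F (act b (base n)))
      {b : SUGroup n | ch b ≤ 2 * R * T} (mu n)) {w : Vec n} (hw : w ∈ s) {D : ℝ} (hD : 1 ≤ D)
    (h1 : ‖iteratedFDeriv ℝ 1 (fun v => ((σ v)⁻¹).toMatrix) w‖ ≤ D)
    (h2 : ‖iteratedFDeriv ℝ 2 (fun v => ((σ v)⁻¹).toMatrix) w‖ ≤ D) {h : Vec n → E}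
    (hh : ∀ v ∈ s, h v = ∫ b : SUGroup n, Φ ((b * (σ v)⁻¹).toMatrix) •
      F (act b (base n)) ∂(mu n)) {M : ℝ}
    (hM : M = 2 * K * ((1 + 2 * (n + 1) * (2 * R * T)) * D) ^ 2 *
      ∫ b in {b : SUGroup n | ch b ≤ 2 * R * T}, ‖F (act b (base n))‖ ∂(mu n)) :
    ‖h w‖ ≤ M ∧ ‖fderiv ℝ h w‖ ≤ M ∧ ‖fderiv ℝ (fderiv ℝ h) w‖ ≤ M := by
  obtain ⟨M₀, hM₀⟩ : ∃ M₀, M₀ = 2 * K * ((1 + 2 * (n + 1) * (2 * R * T)) * D) ^ 2 := ⟨_, rfl⟩
  have hK0 : 0 ≤ K := (norm_nonneg _).trans (hK 0 (by norm_num) 0)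
  have hM0 : 0 ≤ M₀ := by rw [hM₀]; positivity
  rw [← hM₀, ← integral_norm_mb] at hM
  have hi : Integrable (fun b => ‖mb (2 * R * T) F b‖) (mu n) := (integrable_mb hF).norm
  have hI0 : 0 ≤ ∫ b, ‖mb (2 * R * T) F b‖ ∂(mu n) := integral_nonneg fun b => norm_nonneg _
  have hMnn : 0 ≤ M := by rw [hM]; positivity
  -- pointwise bounds
  have hpt : ∀ i ≤ 2, ∀ b : SUGroup n, ‖iteratedFDeriv ℝ i
      (fun v => Φ (ub (2 * R * T) b * ((σ v)⁻¹).toMatrix)) w‖ ≤ M₀ := by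
    intro i hi2 b
    refine (norm_iter_le hΦ hK hs hσ hw hD h1 h2 _ i hi2).trans ?_
    rw [hM₀]
    have := norm_kb (ub_mem hRT b)
    gcongr
  have hsm := core_smooth (s := s) (σ := σ) hΦ hσ
  have hsm1 : ContDiffOn ℝ 1
      (Function.uncurry fun (v : Vec n) (X : Mat (n + 1)) => Φ (X * ((σ v)⁻¹).toMatrix))
      (s ×ˢ Set.univ) := hsm.of_le (by exact_mod_cast le_top)
  have hsm2 : ContDiffOn ℝ 2
      (Function.uncurry fun (v : Vec n) (X : Mat (n + 1)) => Φ (X * ((σ v)⁻¹).toMatrix))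
      (s ×ˢ Set.univ) := hsm.of_le (WithTop.coe_le_coe.2 le_top)
  have hsub : s ×ˢ kb n (2 * R * T) ⊆ s ×ˢ Set.univ :=
    Set.prod_mono subset_rfl (Set.subset_univ _)
  have heq : h =ᶠ[𝓝 w] fun v => ∫ b : SUGroup n, ContinuousLinearMap.lsmul ℝ ℝ
        (Φ (ub (2 * R * T) b * ((σ v)⁻¹).toMatrix)) (mb (2 * R * T) F b) ∂(mu n) := by
    filter_upwards [hs.mem_nhds hw] with v hv
    rw [hh v hv, core_eq hR hR0 hch hv]
  rw [heq.fderiv_eq, heq.fderiv.fderiv_eq, heq.eq_of_nhds]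
  refine ⟨?_, ?_, ?_⟩
  · rw [hM, ← integral_const_mul]
    refine norm_integral_le_of_norm_le (hi.const_mul _) (Eventually.of_forall fun b => ?_)
    rw [ContinuousLinearMap.lsmul_apply, norm_smul]
    refine mul_le_mul_of_nonneg_right ?_ (norm_nonneg _)
    have := hpt 0 (by norm_num) b
    rwa [norm_iteratedFDeriv_zero] at this
  · refine ContinuousLinearMap.opNorm_le_bound _ hMnn fun ξ => ?_
    rw [fderiv_param_apply (ContinuousLinearMap.lsmul ℝ ℝ : ℝ →L[ℝ] E →L[ℝ] E)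
      (Φ := fun (v : Vec n) (X : Mat (n + 1)) => Φ (X * ((σ v)⁻¹).toMatrix)) hs
      (hs.prod isOpen_univ) (isCompact_kb n (2 * R * T)) hsub hsm1
      (measurable_ub (2 * R * T)).aemeasurable (ub_mem hRT) (integrable_mb hF) hw ξ]
    have e : M * ‖ξ‖ = ∫ b, (M₀ * ‖ξ‖) * ‖mb (2 * R * T) F b‖ ∂(mu n) := by
      rw [integral_const_mul, hM]
      ring
    rw [e]
    refine norm_integral_le_of_norm_le (hi.const_mul _) (Eventually.of_forall fun b => ?_)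
    rw [ContinuousLinearMap.lsmul_apply, norm_smul]
    refine mul_le_mul_of_nonneg_right ?_ (norm_nonneg _)
    have h3 := hpt 1 (by norm_num) b
    rw [norm_iteratedFDeriv_one] at h3
    exact (ContinuousLinearMap.le_opNorm _ _).trans (mul_le_mul_of_nonneg_right h3 (norm_nonneg _))
  · refine ContinuousLinearMap.opNorm_le_bound₂ _ hMnn fun ξ η => ?_
    rw [fderiv_fderiv_param_apply (ContinuousLinearMap.lsmul ℝ ℝ : ℝ →L[ℝ] E →L[ℝ] E)
      (Φ := fun (v : Vec n) (X : Mat (n + 1)) => Φ (X * ((σ v)⁻¹).toMatrix)) hs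
      (hs.prod isOpen_univ) (isCompact_kb n (2 * R * T)) hsub hsm2
      (measurable_ub (2 * R * T)).aemeasurable (ub_mem hRT) (integrable_mb hF) hw ξ η]
    have e : M * ‖ξ‖ * ‖η‖ = ∫ b, (M₀ * ‖ξ‖ * ‖η‖) * ‖mb (2 * R * T) F b‖ ∂(mu n) := by
      rw [integral_const_mul, hM]
      ring
    rw [e]
    refine norm_integral_le_of_norm_le (hi.const_mul _) (Eventually.of_forall fun b => ?_)
    rw [ContinuousLinearMap.lsmul_apply, norm_smul]
    refine mul_le_mul_of_nonneg_right ?_ (norm_nonneg _)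
    have h3 := hpt 2 (by norm_num) b
    rw [← norm_iteratedFDeriv_fderiv, norm_iteratedFDeriv_one] at h3
    refine (ContinuousLinearMap.le_opNorm₂ _ _ _).trans ?_
    gcongr

end core

section phi

theorem integrable_phi {Φ : Mat (n + 1) → ℝ} (hΦ : Test n Φ) :
    Integrable (fun a : SUGroup n => Φ a.toMatrix) (mu n) :=
  (hΦ.smooth.continuous.comp (continuous_toMatrix n)).integrable_of_hasCompactSupport
    (hΦ.supp.comp_isClosedEmbedding (isClosedEmbedding_toMatrix n))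

theorem phi_zero {Φ : Mat (n + 1) → ℝ} {R : ℝ} (hR : ∀ A, R < ‖A‖ → Φ A = 0) {a : SUGroup n}
    (ha : ¬ ch a ≤ R) : Φ a.toMatrix = 0 := hR _ ((not_le.1 ha).trans_le (ch_le_norm a))

theorem contDiff_mulVec (n : ℕ) :
    ContDiff ℝ (⊤ : ℕ∞) fun p : Vec n × Mat (n + 1) => p.2 *ᵥ p.1 := by
  rw [contDiff_pi]
  intro i
  simp only [mulVec, dotProduct]
  refine ContDiff.sum fun j _ => ?_
  let L : Mat (n + 1) →ₗ[ℝ] ℂ := Matrix.entryLinearMap ℝ ℂ i j
  have h1 : ContDiff ℝ (⊤ : ℕ∞) fun p : Vec n × Mat (n + 1) => p.2 i j :=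
    (L.toContinuousLinearMap.contDiff (n := (⊤ : ℕ∞))).comp contDiff_snd
  exact h1.mul ((contDiff_apply ℝ ℂ j).comp contDiff_fst)

end phi

end Lv

end Pool.Agent.Lib.MP_5d4057_al.HM
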