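import Pool.Agent.Lib.MP_5d4057_al.HM.AppVan

/-! Section F: the normal derivative of a metric with the second kind of symmetry vanishes in the
normal direction. -/

set_option autoImplicit false

namespace Pool.Agent.Lib.MP_5d4057_al.HM

open Matrix Filter Topology Pool.Agent.Lib.MP_5d4057_al Pool.Agent.Lib.MP_5d4057_al.Hyb

open scoped ComplexOrder MatrixOrder Matrix.Norms.L2Operator

variable {n m j k : ℕ}

/-- The metric near one of the hyperplanes, with the second kind of symmetry. -/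
structure Pco (j : ℕ) (Γ : Subgroup (SUGroup j)) (G : Vec (j + 1) → Mat (j + 2)) (l a : ℂ) :
    Prop where
  harm : Harm G
  hl : 0 < l
  ha : 0 < a
  slice : ∀ w ∈ Cone j, G (inc j w) = dsum l (a • std w)
  refl : ∀ v ∈ Cone (j + 1), dsum (-l) (a • J j) * (G v)⁻¹ * dsum (-l) (a • J j) = G v
  equi : ∀ γ ∈ Γ, ∀ v ∈ Cone (j + 1), G (act (extend j γ) v) =
    dsum 1 γ.toMatrix * G v * (dsum 1 γ.toMatrix)ᴴ

variable {Γ : Subgroup (SUGroup j)} {G : Vec (j + 1) → Mat (j + 2)} {l a : ℂ}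

/-- The antiholomorphic tangential derivatives. -/
theorem Pco.pbt (P : Pco j Γ G l a) {w : Vec j} (hw : w ∈ Cone j) (η : Vec j) :
    pb G (inc j w) (inc j η) =
      (a * (-2 * (q w : ℂ)⁻¹)) • vecMulVec (inc j w) (star (inc j (prj w η))) := by
  have h1 : HasZ (fun w => G (inc j w)) w η _ _ :=
    (hasZ (P.harm.diff (inc_mem hw)) (inc j η)).comp_lin (inc j)
  have h2 : HasZ (fun w => dsum l (a • std w)) w η _ _ :=
    ((hasZ_std hw η).const_smul a).dsum l
  have h3 : (fun w => dsum l (a • std w)) =ᶠ[𝓝 w] fun w => G (inc j w) := by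
    filter_upwards [mem_nhds_cone hw] with v hv
    exact (P.slice v hv).symm
  rw [← h1.pb, ← pb_congr h3, h2.pb, stdB, smul_smul, smul_dsum_zero, dsum_zero_vm]

theorem Pco.inv (P : Pco j Γ G l a) {w : Vec j} (hw : w ∈ Cone j) :
    (G (inc j w))⁻¹ = dsum l⁻¹ (a⁻¹ • (std w)⁻¹) := by
  rw [P.slice w hw, dsum_inv' P.hl.ne' (smul_unit P.ha.ne' (std_unit hw)),
    smul_matInv P.ha.ne' (std_unit hw)]

/-- `G⁻¹` on vectors orthogonal to `w`. -/
theorem Pco.inv_orth (P : Pco j Γ G l a) {w : Vec j} (hw : w ∈ Cone j) {x : Vec j}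
    (hx : herm w x = 0) : (G (inc j w))⁻¹ *ᵥ inc j x = a⁻¹ • (J (j + 1) *ᵥ inc j x) := by
  rw [P.inv hw, dsum_mulVec_inc, smul_mulVec, std_inv_mulVec hw hx, map_smul, J_inc]

/-- The reflection `-1 ⊕ S J`. -/
noncomputable def Zs (w : Vec j) : Mat (j + 2) := dsum (-1) (std w * J j)

theorem J_nrm : J (j + 1) *ᵥ nrm j = nrm j := by
  rw [J_succ, nrm, dsum_mulVec_cons, mulVec_zero, mul_one]

theorem Zs_nrm (w : Vec j) : Zs w *ᵥ nrm j = -nrm j := by
  rw [Zs, nrm, dsum_mulVec_cons, mulVec_zero, mul_one]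
  ext i
  refine Fin.cases ?_ (fun i => ?_) i <;> simp

/-- Consequence of the symmetry of the metric. -/
theorem Pco.refl_rel (P : Pco j Γ G l a) {w : Vec j} (hw : w ∈ Cone j) :
    NN G w *ᵥ nrm j = Zs w *ᵥ (NN G w *ᵥ nrm j) := by
  have hu := inc_mem hw
  have hl := P.hl.ne'
  have ha := P.ha.ne'
  set N' : Mat (j + 2) := dsum (-l) (a • J j) with hN'
  have h1 : HasZ (fun v => N' * (G v)⁻¹ * N') (inc j w) (nrm j) _ _ :=
    ((hasZ (P.harm.diff hu) (nrm j)).matInv (P.harm.unit hu)).clm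
      (ContinuousLinearMap.mulLeftRight ℂ (Mat (j + 2)) N' N')
  have h2 : (fun v => N' * (G v)⁻¹ * N') =ᶠ[𝓝 (inc j w)] G := by
    filter_upwards [mem_nhds_cone hu] with v hv
    exact P.refl v hv
  have h3 : NN G w = N' * -((G (inc j w))⁻¹ * NN G w * (G (inc j w))⁻¹) * N' := by
    have h4 : NN G w = pz (fun v => N' * (G v)⁻¹ * N') (inc j w) (nrm j) :=
      (pz_congr h2 (nrm j)).symm
    conv_lhs => rw [h4, h1.pz]
    rfl
  have e1 : N' * (G (inc j w))⁻¹ = Zs w := by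
    rw [P.inv hw, hN', dsum_mul, neg_mul, mul_inv_cancel₀ hl, Matrix.smul_mul, Matrix.mul_smul,
      smul_smul, mul_inv_cancel₀ ha, one_smul, std_inv hw, Zs, ← Matrix.mul_assoc,
      ← Matrix.mul_assoc, J_J, Matrix.one_mul]
  have e2 : (G (inc j w))⁻¹ * N' = J (j + 1) * Zs w * J (j + 1) := by
    rw [P.inv hw, hN', dsum_mul, mul_neg, inv_mul_cancel₀ hl, Matrix.smul_mul, Matrix.mul_smul,
      smul_smul, inv_mul_cancel₀ ha, one_smul, std_inv hw, Zs, J_succ, dsum_mul, dsum_mul, one_mul,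
      mul_one]
    congr 1
    simp only [Matrix.mul_assoc]
  have e3 : NN G w = -(Zs w * NN G w * (J (j + 1) * Zs w * J (j + 1))) := by
    calc NN G w = N' * -((G (inc j w))⁻¹ * NN G w * (G (inc j w))⁻¹) * N' := h3
      _ = -((N' * (G (inc j w))⁻¹) * NN G w * ((G (inc j w))⁻¹ * N')) := by
          simp only [Matrix.mul_neg, Matrix.neg_mul, Matrix.mul_assoc]
      _ = _ := by rw [e1, e2]
  conv_lhs => rw [e3]
  simp only [neg_mulVec, ← mulVec_mulVec]
  rw [J_nrm, Zs_nrm, mulVec_neg, J_nrm, mulVec_neg, mulVec_neg, neg_neg]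

/-- The tangential part of the normal derivative. -/
noncomputable def bt (G : Vec (j + 1) → Mat (j + 2)) (w : Vec j) : Vec j :=
  tl j (NN G w *ᵥ nrm j)

theorem Pco.col (P : Pco j Γ G l a) {w : Vec j} (hw : w ∈ Cone j) :
    herm w (bt G w) = 0 ∧ NN G w *ᵥ nrm j = inc j (bt G w) := by
  have hq := q_ne hw
  have h1 := P.refl_rel hw
  set y := NN G w *ᵥ nrm j with hy
  have hb : bt G w = tl j y := rfl
  have h2 : Zs w *ᵥ y = Fin.cons (-1 * hd0 j y) ((std w * J j) *ᵥ tl j y) := by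
    conv_lhs => rw [eq_cons y]
    rw [Zs, dsum_mulVec_cons]
  rw [h2] at h1
  have h3 : hd0 j y = -1 * hd0 j y := congrFun h1 0
  have h4 : hd0 j y = 0 := by
    have : (2 : ℂ) * hd0 j y = 0 := by linear_combination h3
    exact (mul_eq_zero.1 this).resolve_left two_ne_zero
  have h5 : tl j y = (std w * J j) *ᵥ tl j y := by
    ext i
    exact congrFun h1 i.succ
  have h6 : herm w (tl j y) = 0 := by
    have h7 := congrArg (herm w) h5
    rw [← mulVec_mulVec, std, add_mulVec, mulVec_mulVec, J_J, one_mulVec, smul_mulVec, vmv,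
      herm_add_right, herm_smul_right, herm_smul_right, herm_self] at h7
    have h8 : star w ⬝ᵥ J j *ᵥ tl j y = herm w (tl j y) := rfl
    rw [h8] at h7
    have h9 : (-2 * (q w : ℂ)⁻¹) * (herm w (tl j y) * (q w : ℂ)) = -2 * herm w (tl j y) := by
      field_simp
    rw [h9] at h7
    linear_combination (1 / 2 : ℂ) * h7
  refine ⟨h6, ?_⟩
  rw [hb]
  conv_lhs => rw [eq_cons y, h4]
  rfl

/-- The linear map `A ↦ tl (A e_0)`. -/
noncomputable def btL (j : ℕ) : Mat (j + 2) →L[ℂ] Vec j := LinearMap.toContinuousLinearMap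
  { toFun := fun A => tl j (A *ᵥ nrm j)
    map_add' := fun A B => by rw [add_mulVec, map_add]
    map_smul' := fun c A => by rw [smul_mulVec, map_smul]; rfl }

theorem btL_apply (A : Mat (j + 2)) : btL j A = tl j (A *ᵥ nrm j) := rfl

theorem Pco.pb_bt (P : Pco j Γ G l a) {w : Vec j} (hw : w ∈ Cone j) (η : Vec j) :
    HasZ (bt G) w η (pz (bt G) w η) (-((herm η (bt G w) / (q w : ℂ)) • w)) := by
  have hq := q_ne hw
  have hu := inc_mem hw
  have ha := P.ha.ne'
  obtain ⟨horth, hcol⟩ := P.col hw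
  have h1 : HasZ (fun v => pz G v (nrm j)) (inc j w) (inc j η) _ _ :=
    hasZ (hasFDerivAt_pz (P.harm.cda hu) (nrm j)).differentiableAt (inc j η)
  have h2 : HasZ (bt G) w η _ _ := (h1.comp_lin (inc j)).clm (btL j)
  refine HasZ.of_eq h2 h2.pz.symm ?_
  rw [← pz_pb_comm (P.harm.cda hu) (nrm j) (inc j η)]
  have h3 : pz (fun v => pb G v (inc j η)) (inc j w) (nrm j) = (1 / 2 : ℂ) •
      (pb G (inc j w) (inc j η) * (G (inc j w))⁻¹ * NN G w +
        NN G w * (G (inc j w))⁻¹ * pb G (inc j w) (inc j η)) :=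
    P.harm.ph _ hu (nrm j) (inc j η)
  have e0 : star (inc j (prj w η)) ⬝ᵥ nrm j = 0 := by
    rw [star_inc, nrm, cons_dot_cons, zero_mul, dotProduct_zero, add_zero]
  have e1 : herm (prj w η) (bt G w) = herm η (bt G w) := by
    rw [prj, herm_sub_left, herm_smul_left, horth, mul_zero, sub_zero]
  rw [h3, P.pbt hw η, btL_apply, smul_mulVec, add_mulVec, ← mulVec_mulVec, ← mulVec_mulVec,
    ← mulVec_mulVec, ← mulVec_mulVec, hcol, P.inv_orth hw horth, smul_mulVec, smul_mulVec, vmv, vmv,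
    e0, zero_smul, smul_zero, mulVec_zero, mulVec_zero, add_zero, dotProduct_smul]
  have e2 : star (inc j (prj w η)) ⬝ᵥ J (j + 1) *ᵥ inc j (bt G w) = herm η (bt G w) := by
    rw [← e1, ← herm_inc]
    rfl
  rw [e2, smul_eq_mul, map_smul, map_smul, map_smul, tl_inc, smul_smul, smul_smul, ← neg_smul]
  congr 1
  field_simp

theorem Pco.bt_smul (P : Pco j Γ G l a) {c : ℂ} (hc : c ≠ 0) {w : Vec j} (hw : w ∈ Cone j) :
    bt G (c • w) = c⁻¹ • bt G w := by
  have h1 := pz_homog P.harm.hom (inc_mem hw) (fun u hu => P.harm.diff hu) hc (nrm j)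
  have h2 : c • NN G (c • w) = NN G w := by
    rw [NN, map_smul, h1]
    rfl
  rw [bt, bt, ← h2, smul_mulVec, map_smul, smul_smul, inv_mul_cancel₀ hc, one_smul]

theorem Pco.bt_act (P : Pco j Γ G l a) {γ : SUGroup j} (hγ : γ ∈ Γ) {w : Vec j}
    (hw : w ∈ Cone j) : bt G (act γ w) = act γ (bt G w) := by
  have hu := inc_mem hw
  set D := (extend j γ).toMatrix with hD
  have h1 : HasZ (fun v => G (actC (extend j γ) v)) (inc j w) (nrm j) _ _ :=
    (hasZ (P.harm.diff (act_mem (extend j γ) hu)) (actC (extend j γ) (nrm j))).comp_lin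
      (actC (extend j γ))
  have h2 : HasZ (fun v => D * G v * Dᴴ) (inc j w) (nrm j) _ _ :=
    (hasZ (P.harm.diff hu) (nrm j)).clm (ContinuousLinearMap.mulLeftRight ℂ (Mat (j + 2)) D Dᴴ)
  have h3 : (fun v => G (actC (extend j γ) v)) =ᶠ[𝓝 (inc j w)] fun v => D * G v * Dᴴ := by
    filter_upwards [mem_nhds_cone hu] with v hv
    exact P.equi γ hγ v hv
  have h4 : pz G (act (extend j γ) (inc j w)) (actC (extend j γ) (nrm j)) =
      D * pz G (inc j w) (nrm j) * Dᴴ := by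
    rw [← h1.pz, pz_congr h3, h2.pz]
    rfl
  rw [actC_apply, act_nrm, act_extend] at h4
  have h5 : NN G (act γ w) = D * NN G w * Dᴴ := h4
  have h6 : Dᴴ *ᵥ nrm j = nrm j := by
    rw [hD, extend_toMatrix, dsum_conjTranspose, star_one, nrm, dsum_mulVec_cons, mulVec_zero,
      mul_one]
  rw [bt, h5, ← mulVec_mulVec, ← mulVec_mulVec, h6]
  exact (act_extend_hd γ _).2

theorem Pco.sec (P : Pco j Γ G l a) : Sec Γ (bt G) where
  cd := by
    have h1 : ContDiffOn ℝ 1 (fderiv ℝ G) (Cone (j + 1)) :=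
      P.harm.cd.fderiv_of_isOpen (isOpen_cone _) (by rw [one_add_one_eq_two])
    have h2 : ContDiffOn ℝ 1 (fun w => fderiv ℝ G (inc j w)) (Cone j) :=
      h1.comp (((inc j).restrictScalars ℝ).contDiff.contDiffOn) fun w hw => inc_mem hw
    have h3 : ContDiffOn ℝ 1 (fun w => (1 / 2 : ℂ) • (fderiv ℝ G (inc j w) (nrm j) -
        Complex.I • fderiv ℝ G (inc j w) (Complex.I • nrm j))) (Cone j) :=
      ((h2.clm_apply contDiffOn_const).sub
        ((h2.clm_apply contDiffOn_const).const_smul Complex.I)).const_smul (1 / 2 : ℂ)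
    exact ((btL j).restrictScalars ℝ).contDiff.comp_contDiffOn h3
  hom _ hc _ hv := P.bt_smul hc hv
  equi _ hγ _ hv := P.bt_act hγ hv
  orth _ hv := (P.col hv).1
  pb _ hv ξ := (P.pb_bt hv ξ).pb

/-- The normal derivative vanishes in the normal direction. -/
theorem Pco.zero (P : Pco j Γ G l a) (hj : 2 ≤ j) (hΓ : Coc Γ) {w : Vec j} (hw : w ∈ Cone j) :
    NN G w *ᵥ nrm j = 0 := by
  rw [(P.col hw).2, P.sec.zero hj hΓ w hw, map_zero]

end Pool.Agent.Lib.MP_5d4057_al.HM
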