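import Pool.Agent.Lib.MP_5d4057_al.HM.AppNormA

/-! Section F3: the normal derivative of the metric along a hyperplane. -/

set_option autoImplicit false

namespace Pool.Agent.Lib.MP_5d4057_al.HM

open Matrix Filter Topology Pool.Agent.Lib.MP_5d4057_al Pool.Agent.Lib.MP_5d4057_al.Hyb

open scoped ComplexOrder MatrixOrder Matrix.Norms.L2Operator

variable {n m j k : ℕ}

variable {Γ : Subgroup (SUGroup j)} {G : Vec (j + 1) → Mat (j + 2)} {l a : ℂ}

theorem inc_prj {w : Vec j} (η : Vec j) : inc j (prj w η) = prj (inc j w) (inc j η) := by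
  rw [prj, prj, herm_inc, q_inc, map_sub, map_smul]

theorem herm_sub_left (v w u : Vec n) : herm (v - w) u = herm v u - herm w u := by
  rw [sub_eq_add_neg, ← neg_one_smul ℂ w, herm_add_left, herm_smul_left]
  simp
  ring

/-- The antiholomorphic derivative of the normal derivative. -/
theorem Pce.pb_NN (P : Pce j Γ G l a) (hj : 1 ≤ j) {w : Vec j} (hw : w ∈ Cone j) (η : Vec j) :
    HasZ (NN G) w η (pz (NN G) w η)
      (((q w : ℂ)⁻¹ * (q w : ℂ)⁻¹ * herm (inc j η) (pv G w)) •
        vecMulVec (inc j w) (star (inc j w)) +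
        (-(q w : ℂ)⁻¹) • vecMulVec (pv G w) (star (inc j (prj w η)))) := by
  have hq := q_ne hw
  have hu := inc_mem hw
  have ha := P.ha.ne'
  obtain ⟨horth, hNN⟩ := P.normal hj hw
  have h1 : HasZ (fun v => pz G v (nrm j)) (inc j w) (inc j η) _ _ :=
    hasZ (hasFDerivAt_pz (P.harm.cda hu) (nrm j)).differentiableAt (inc j η)
  have h2 : HasZ (NN G) w η _ _ := h1.comp_lin (inc j)
  refine HasZ.of_eq h2 h2.pz.symm ?_
  rw [← pz_pb_comm (P.harm.cda hu) (nrm j) (inc j η)]
  have h3 : pz (fun v => pb G v (inc j η)) (inc j w) (nrm j) = (1 / 2 : ℂ) •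
      (pb G (inc j w) (inc j η) * (G (inc j w))⁻¹ * NN G w +
        NN G w * (G (inc j w))⁻¹ * pb G (inc j w) (inc j η)) :=
    P.harm.ph _ hu (nrm j) (inc j η)
  rw [h3, (P.tan hw η).2]
  -- first term
  have e0 : herm (inc j (prj w η)) (pv G w) = herm (inc j η) (pv G w) := by
    rw [prj, map_sub, map_smul, herm_sub_left, herm_smul_left, horth, mul_zero, sub_zero]
  have e1 : vecMulVec (inc j w) (star (inc j (prj w η))) * (G (inc j w))⁻¹ * NN G w =
      (-(q w : ℂ)⁻¹ * (a⁻¹ * herm (inc j η) (pv G w))) • vecMulVec (inc j w) (star (inc j w)) := by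
    rw [vecMulVec_mul, P.inv_orth' hw (herm_prj hw η)]
    conv_lhs => rw [hNN]
    rw [Matrix.mul_smul, vmm, smul_dotProduct]
    have : star (inc j (prj w η)) ᵥ* J (j + 1) ⬝ᵥ pv G w = herm (inc j η) (pv G w) := by
      rw [← herm_eq', e0]
    rw [this, smul_smul, smul_eq_mul]
  have e2 : NN G w * (G (inc j w))⁻¹ * vecMulVec (inc j w) (star (inc j (prj w η))) =
      a⁻¹ • vecMulVec (pv G w) (star (inc j (prj w η))) := by
    rw [Matrix.mul_assoc, mul_vecMulVec, P.inv_self hw, mul_vecMulVec, mulVec_neg, mulVec_smul,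
      mulVec_mulVec]
    have h4 : (NN G w * J (j + 1)) *ᵥ inc j w = -pv G w := by rw [pv, neg_neg]
    rw [h4, smul_neg, neg_neg]
    ext i i'
    simp only [vecMulVec_apply, Pi.smul_apply, Matrix.smul_apply, smul_eq_mul]
    ring
  rw [Matrix.smul_mul, Matrix.smul_mul, e1, Matrix.mul_smul, e2, smul_add, smul_smul, smul_smul,
    smul_smul, smul_smul]
  congr 2
  · field_simp
  · field_simp

/-- The bilinear map `(A, w) ↦ -(A J) (0, w)`. -/
noncomputable def pB (j : ℕ) : Mat (j + 2) →L[ℂ] Vec j →L[ℂ] Vec (j + 1) :=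
  toBil (LinearMap.mk₂ ℂ (fun (A : Mat (j + 2)) (w : Vec j) => -((A * J (j + 1)) *ᵥ inc j w))
    (fun A A' w => by rw [Matrix.add_mul, add_mulVec, neg_add])
    (fun c A w => by rw [Matrix.smul_mul, smul_mulVec, smul_neg])
    (fun A w w' => by rw [map_add, mulVec_add, neg_add])
    (fun c A w => by rw [map_smul, mulVec_smul, smul_neg]))

theorem pB_apply (A : Mat (j + 2)) (w : Vec j) :
    pB j A w = -((A * J (j + 1)) *ᵥ inc j w) := rfl

/-- `∂̄ p`. -/
theorem Pce.pb_pv (P : Pce j Γ G l a) (hj : 1 ≤ j) {w : Vec j} (hw : w ∈ Cone j) (η : Vec j) :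
    HasZ (pv G) w η (pz (pv G) w η)
      (-((herm (inc j η) (pv G w) / (q w : ℂ)) • inc j w)) := by
  have hq := q_ne hw
  have hu := inc_mem hw
  have h1 := (P.pb_NN hj hw η).bilin (hasZ_id w η) (pB j)
  have h2 : HasZ (pv G) w η _ _ := h1
  refine HasZ.of_eq h2 h2.pz.symm ?_
  have e1 : star (inc j w) ⬝ᵥ (J (j + 1) *ᵥ inc j w) = (q w : ℂ) := by
    rw [← q_inc]
    exact herm_self (inc j w)
  have e2 : star (inc j (prj w η)) ⬝ᵥ (J (j + 1) *ᵥ inc j w) = 0 := by
    have : herm (inc j (prj w η)) (inc j w) = 0 := by rw [herm_inc, herm_prj' hw]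
    exact this
  rw [map_zero, zero_add, pB_apply, ← mulVec_mulVec, add_mulVec, smul_mulVec, smul_mulVec, vmv, vmv,
    e1, e2, zero_smul, smul_zero, add_zero, smul_smul]
  congr 2
  field_simp

theorem HasZ.smul_dir {E : Type} [NormedAddCommGroup E] [NormedSpace ℂ E] {f : Vec n → E}
    {v ξ : Vec n} {a b : E} (h : HasZ f v ξ a b) (c : ℂ) :
    HasZ f v (c • ξ) (c • a) (star c • b) := by
  have key : ∀ c : ℂ, fderiv ℝ f v (c • ξ) = c • a + star c • b := by
    intro c
    have h1 : c • ξ = (c.re : ℝ) • ξ + (c.im : ℝ) • (Complex.I • ξ) := by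
      conv_lhs => rw [← Complex.re_add_im c]
      rw [add_smul, mul_smul]
      rfl
    have h2 : ∀ (r : ℝ) (x : E), r • x = (r : ℂ) • x := fun _ _ => rfl
    have h3 : star c = (c.re : ℂ) - (c.im : ℂ) * Complex.I := by
      apply Complex.ext <;> simp
    rw [h1, map_add, map_smul, map_smul, h.one, h.I, h2, h2, h3]
    conv_rhs => rw [← Complex.re_add_im c]
    simp only [Complex.add_re, Complex.ofReal_re, Complex.mul_re, Complex.I_re, mul_zero,
      Complex.ofReal_im, Complex.I_im, mul_one, sub_self, add_zero, Complex.add_im, Complex.mul_im,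
      zero_add]
    module
  refine ⟨h.diff, key c, ?_⟩
  rw [smul_smul, key, star_mul']
  have : star Complex.I = -Complex.I := Complex.conj_I
  rw [this]
  module

theorem pz_homog {f : Vec n → Mat m} (hf : Homog f) {v : Vec n} (hv : v ∈ Cone n)
    (hd : ∀ u ∈ Cone n, DifferentiableAt ℝ f u) {c : ℂ} (hc : c ≠ 0) (ξ : Vec n) :
    c • pz f (c • v) ξ = pz f v ξ := by
  have h0 := hasZ (hd _ (smul_mem_cone hc hv)) ξ
  have h1 : HasZ (fun w => f ((c • ContinuousLinearMap.id ℂ (Vec n)) w)) v ξ _ _ :=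
    (h0.smul_dir c).comp_lin (c • ContinuousLinearMap.id ℂ (Vec n))
  have h2 : (fun w => f ((c • ContinuousLinearMap.id ℂ (Vec n)) w)) =ᶠ[𝓝 v] f := by
    filter_upwards [mem_nhds_cone hv] with w hw
    exact hf c hc w hw
  rw [← pz_congr h2, h1.pz]

theorem Pce.NN_smul (P : Pce j Γ G l a) {w : Vec j} (hw : w ∈ Cone j) {c : ℂ} (hc : c ≠ 0) :
    c • NN G (c • w) = NN G w := by
  have h1 := pz_homog P.harm.hom (inc_mem hw) (fun u hu => P.harm.diff hu) hc (nrm j)
  rw [NN, map_smul, h1]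
  rfl

theorem Pce.pv_homog (P : Pce j Γ G l a) : Homog (pv G) := by
  intro c hc w hw
  rw [pv, pv, ← P.NN_smul hw hc, map_smul, mulVec_smul, Matrix.smul_mul, smul_mulVec]

theorem act_nrm (γ : SUGroup j) : act (extend j γ) (nrm j) = nrm j := by
  rw [act, extend_toMatrix, nrm, dsum_mulVec_cons, mulVec_zero, mul_one]

theorem Pce.NN_act (P : Pce j Γ G l a) {γ : SUGroup j} (hγ : γ ∈ Γ) {w : Vec j}
    (hw : w ∈ Cone j) :
    NN G (act γ w) = (extend j γ).toMatrix * NN G w * ((extend j γ).toMatrix)ᴴ := by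
  have hu := inc_mem hw
  set D := (extend j γ).toMatrix with hD
  have h1 : HasZ (fun v => G (actC (extend j γ) v)) (inc j w) (nrm j) _ _ :=
    (hasZ (P.harm.diff (act_mem (extend j γ) hu)) (actC (extend j γ) (nrm j))).comp_lin
      (actC (extend j γ))
  have h2 : HasZ (fun v => D * G v * Dᴴ) (inc j w) (nrm j) _ _ :=
    (hasZ (P.harm.diff hu) (nrm j)).clm (ContinuousLinearMap.mulLeftRight ℂ (Mat (j + 2)) D Dᴴ)
  have h3 : (fun v => G (actC (extend j γ) v)) =ᶠ[𝓝 (inc j w)] fun v => D * G v * Dᴴ := by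
    filter_upwards [mem_nhds_cone hu] with v hv
    exact P.equi γ hγ v hv
  have h4 : pz G (act (extend j γ) (inc j w)) (actC (extend j γ) (nrm j)) =
      D * pz G (inc j w) (nrm j) * Dᴴ := by
    rw [← h1.pz, pz_congr h3, h2.pz]
    rfl
  rw [actC_apply, act_nrm, act_extend] at h4
  exact h4

theorem Pce.pv_act (P : Pce j Γ G l a) {γ : SUGroup j} (hγ : γ ∈ Γ) {w : Vec j}
    (hw : w ∈ Cone j) : pv G (act γ w) = act (extend j γ) (pv G w) := by
  rw [pv, pv, P.NN_act hγ hw, ← act_extend, act, act, mulVec_neg]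
  congr 1
  rw [mulVec_mulVec, mulVec_mulVec]
  congr 1
  calc (extend j γ).toMatrix * NN G w * ((extend j γ).toMatrix)ᴴ * J (j + 1) *
        (extend j γ).toMatrix
      = (extend j γ).toMatrix * NN G w * (((extend j γ).toMatrix)ᴴ * J (j + 1) *
        (extend j γ).toMatrix) := by simp only [Matrix.mul_assoc]
    _ = _ := by rw [pres]; simp only [Matrix.mul_assoc]

/-- The first coordinate. -/
noncomputable def hd0 (j : ℕ) : Vec (j + 1) →L[ℂ] ℂ := ContinuousLinearMap.proj 0

theorem hd0_apply (y : Vec (j + 1)) : hd0 j y = y 0 := rfl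

/-- The other coordinates. -/
noncomputable def tl (j : ℕ) : Vec (j + 1) →L[ℂ] Vec j := LinearMap.toContinuousLinearMap
  { toFun := fun y i => y i.succ
    map_add' := fun _ _ => rfl
    map_smul' := fun _ _ => rfl }

theorem tl_apply (y : Vec (j + 1)) (i : Fin (j + 1)) : tl j y i = y i.succ := rfl

theorem tl_inc (w : Vec j) : tl j (inc j w) = w := by
  ext i
  rw [tl_apply, inc_succ]

theorem eq_cons (y : Vec (j + 1)) : y = Fin.cons (hd0 j y) (tl j y) := by
  ext i
  refine Fin.cases rfl (fun i => rfl) i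

theorem herm_inc_tl (w : Vec j) (y : Vec (j + 1)) : herm (inc j w) y = herm w (tl j y) := by
  conv_lhs => rw [eq_cons y]
  rw [herm, J_succ, dsum_mulVec_cons, star_inc, cons_dot_cons, zero_mul, zero_add]
  rfl

theorem act_extend_hd (γ : SUGroup j) (y : Vec (j + 1)) :
    hd0 j (act (extend j γ) y) = hd0 j y ∧ tl j (act (extend j γ) y) = act γ (tl j y) := by
  have h : act (extend j γ) y = Fin.cons (hd0 j y) (act γ (tl j y)) := by
    conv_lhs => rw [eq_cons y]
    rw [act, extend_toMatrix, dsum_mulVec_cons, one_mul]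
    rfl
  rw [h]
  refine ⟨rfl, ?_⟩
  ext i
  rfl

/-- F3: the normal derivative at the base point. -/
theorem Pce.nrm_deriv (P : Pce j Γ G l a) (hj : 1 ≤ j) (hΓ : Coc Γ) :
    ∃ p : ℂ, pz G (base (j + 1)) (nrm j) = p • vecMulVec (nrm j) (star (base (j + 1))) := by
  have hd : ∀ w ∈ Cone j, DifferentiableAt ℝ (pv G) w := fun w hw => (P.pb_pv hj hw 0).diff
  have hy : ∀ w ∈ Cone j, tl j (pv G w) = 0 := by
    refine sec_zero hΓ (y := fun w => tl j (pv G w)) ?_ ?_ ?_ ?_ ?_
    · intro w hw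
      exact ((P.pb_pv hj hw 0).clm (tl j)).diff
    · intro c hc w hw
      show tl j (pv G (c • w)) = tl j (pv G w)
      rw [P.pv_homog c hc w hw]
    · intro γ hγ w hw
      show tl j (pv G (act γ w)) = act γ (tl j (pv G w))
      rw [P.pv_act hγ hw, (act_extend_hd γ _).2]
    · intro w hw
      show herm w (tl j (pv G w)) = 0
      rw [← herm_inc_tl]
      exact (P.normal hj hw).1
    · intro w hw η
      show pb (fun w => tl j (pv G w)) w η = -((herm η (tl j (pv G w)) / (q w : ℂ)) • w)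
      rw [((P.pb_pv hj hw η).clm (tl j)).pb, map_neg, map_smul, tl_inc, herm_inc_tl]
  have hp : ∀ w ∈ Cone j, hd0 j (pv G w) = hd0 j (pv G (base j)) := by
    refine hol_const (f := fun w => hd0 j (pv G w)) hΓ ?_ ?_ ?_ ?_
    · intro w hw
      exact ((P.pb_pv hj hw 0).clm (hd0 j)).diff
    · intro w hw η
      rw [((P.pb_pv hj hw η).clm (hd0 j)).pb, map_neg, map_smul, hd0_apply, inc_zero, smul_zero,
        neg_zero]
    · intro c hc w hw
      show hd0 j (pv G (c • w)) = hd0 j (pv G w)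
      rw [P.pv_homog c hc w hw]
    · intro γ hγ w hw
      show hd0 j (pv G (act γ w)) = hd0 j (pv G w)
      rw [P.pv_act hγ hw, (act_extend_hd γ _).1]
  refine ⟨hd0 j (pv G (base j)), ?_⟩
  have hb := base_mem j
  have h1 := (P.normal hj hb).2
  rw [NN, inc_base, q_base] at h1
  rw [h1]
  have h2 : pv G (base j) = hd0 j (pv G (base j)) • nrm j := by
    conv_lhs => rw [eq_cons (pv G (base j)), hy _ hb]
    rw [nrm]
    ext i
    refine Fin.cases ?_ (fun i => ?_) i <;> simp
  rw [h2]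
  ext i i'
  simp only [vecMulVec_apply, Pi.smul_apply, Matrix.smul_apply, smul_eq_mul, hd0_apply]
  have h3 : nrm j 0 = 1 := rfl
  rw [h3]
  push_cast
  ring

end Pool.Agent.Lib.MP_5d4057_al.HM
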