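import Pool.Agent.Lib.MP_5d4057_al.HM.BochCD

/-! Convergence of the derivatives of the averages. -/

namespace Pool.Agent.Lib.MP_5d4057_al.HM

open Matrix MeasureTheory Filter Topology Pool.Agent.Lib.MP_5d4057_al Pool.Agent.Lib.MP_5d4057_al.Hyb

open scoped ComplexOrder MatrixOrder Matrix.Norms.L2Operator

set_option maxSynthPendingDepth 3

variable {n m : ℕ} {E : Type} [NormedAddCommGroup E] [NormedSpace ℝ E] [CompleteSpace E]

theorem bc_norm_orbit_le (x : SUGroup n) : ‖act x (base n)‖ ≤ 2 * ch x := by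
  have h0 : (0 : ℝ) ≤ 2 * ch x := by
    have := ch_pos x
    positivity
  rw [pi_norm_le_iff_of_nonneg h0]
  intro i
  have h : act x (base n) i = x.toMatrix i (Fin.last n) := by
    rw [act, base, Matrix.mulVec_single_one, Matrix.col_apply]
  rw [h]
  exact norm_entry_le x i _

omit [CompleteSpace E] in
theorem bc_compL_le (A : Vec n →L[ℝ] E) :
    ‖ContinuousLinearMap.compL ℝ (Vec n) (Vec n) E A‖ ≤ ‖A‖ := by
  have h : ‖ContinuousLinearMap.compL ℝ (Vec n) (Vec n) E A‖ ≤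
      ‖ContinuousLinearMap.compL ℝ (Vec n) (Vec n) E‖ * ‖A‖ :=
    ContinuousLinearMap.le_opNorm _ _
  have h1 := ContinuousLinearMap.norm_compL_le ℝ (Vec n) (Vec n) E
  have h2 := norm_nonneg A
  nlinarith

omit [CompleteSpace E] in
theorem bc_compL_flip_le (A : Vec n →L[ℝ] Vec n) :
    ‖(ContinuousLinearMap.compL ℝ (Vec n) (Vec n) E).flip A‖ ≤ ‖A‖ := by
  have h : ‖(ContinuousLinearMap.compL ℝ (Vec n) (Vec n) E).flip A‖ ≤
      ‖(ContinuousLinearMap.compL ℝ (Vec n) (Vec n) E).flip‖ * ‖A‖ :=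
    ContinuousLinearMap.le_opNorm _ _
  have h1 := ContinuousLinearMap.norm_compL_le ℝ (Vec n) (Vec n) E
  rw [ContinuousLinearMap.opNorm_flip] at h
  have h2 := norm_nonneg A
  nlinarith

theorem bc_compL_le' (A : Mat (n + 1) →L[ℝ] Vec n) :
    ‖ContinuousLinearMap.compL ℝ (Vec n) (Mat (n + 1)) (Vec n) A‖ ≤ ‖A‖ := by
  have h : ‖ContinuousLinearMap.compL ℝ (Vec n) (Mat (n + 1)) (Vec n) A‖ ≤
      ‖ContinuousLinearMap.compL ℝ (Vec n) (Mat (n + 1)) (Vec n)‖ * ‖A‖ :=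
    ContinuousLinearMap.le_opNorm _ _
  have h1 := ContinuousLinearMap.norm_compL_le ℝ (Vec n) (Mat (n + 1)) (Vec n)
  have h2 := norm_nonneg A
  nlinarith

theorem bc_bdd_on {K : Set (Vec n)} (hK : IsCompact K) (hKc : K ⊆ Cone n) :
    ∃ B : ℝ, 1 ≤ B ∧ ∀ v ∈ K, ch (sec n v) ≤ B ∧ ‖fderiv ℝ (bcS n) v‖ ≤ B ∧
      ‖fderiv ℝ (fderiv ℝ (bcS n)) v‖ ≤ B := by
  have hc0 : ContinuousOn (fun v => bcS n v (Fin.last n) (Fin.last n)) (Cone n) :=
    (continuous_id.matrix_elem (Fin.last n) (Fin.last n)).comp_continuousOn bcS_cont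
  obtain ⟨B0, h0⟩ := hK.exists_bound_of_continuousOn (hc0.mono hKc)
  obtain ⟨B1, h1⟩ := hK.exists_bound_of_continuousOn (bcS_cont1.mono hKc)
  have h2' : ∃ B2, ∀ v ∈ K, ‖fderiv ℝ (fderiv ℝ (bcS n)) v‖ ≤ B2 :=
    hK.exists_bound_of_continuousOn (bcS_cont2.mono hKc)
  obtain ⟨B2, h2⟩ := h2'
  refine ⟨max 1 (max B0 (max B1 B2)), le_max_left _ _, fun v hv => ⟨?_, ?_, ?_⟩⟩
  · exact ((h0 v hv).trans (le_max_left _ _)).trans (le_max_right _ _)
  · exact (((h1 v hv).trans (le_max_left _ _)).trans (le_max_right _ _)).trans (le_max_right _ _)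
  · exact (((h2 v hv).trans (le_max_right _ _)).trans (le_max_right _ _)).trans (le_max_right _ _)

theorem bc_bound {N : ℕ} {C : ℝ} {F : Vec n → E} (hF : Tame N C F) {K : Set (Vec n)}
    (hK : IsCompact K) (hKc : K ⊆ Cone n) : ∃ D : ℝ, 0 ≤ D ∧ ∀ v ∈ K, ∀ x : SUGroup n,
      ‖bcF0 F v (act x (base n))‖ ≤ D * ch x ^ (2 * (N + 1)) ∧
      ‖bcF1 F v (act x (base n))‖ ≤ D * ch x ^ (2 * (N + 1)) ∧
      ‖bcF2 F v (act x (base n))‖ ≤ D * ch x ^ (2 * (N + 1)) := by
  obtain ⟨B, hB1, hB⟩ := bc_bdd_on hK hKc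
  have hC : 0 ≤ C := by
    have h1 := (norm_nonneg _).trans (hF.b0 1)
    rwa [ch_one, one_pow, mul_one] at h1
  obtain ⟨b, hb⟩ : ∃ b : ℝ, b = ‖bcB n‖ := ⟨_, rfl⟩
  have hb0 : 0 ≤ b := by rw [hb]; positivity
  obtain ⟨A, hA⟩ : ∃ A : ℝ, A = C * (2 * B) ^ (2 * N) := ⟨_, rfl⟩
  have hA0 : 0 ≤ A := by rw [hA]; positivity
  obtain ⟨R, hR⟩ : ∃ R : ℝ, R = b * 2 * B := ⟨_, rfl⟩
  have hR0 : 0 ≤ R := by rw [hR]; positivity
  refine ⟨A * (1 + R + R ^ 2), by positivity, fun v hv x => ?_⟩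
  obtain ⟨hs, hS1, hS2⟩ := hB v hv
  have hX := one_le_ch x
  obtain ⟨X, hXd⟩ : ∃ X : ℝ, X = ch x := ⟨_, rfl⟩
  rw [← hXd] at hX
  have hX0 : 0 < X := by linarith
  -- the point
  have hpt : bcB n (act x (base n)) (bcS n v) = act (sec n v * x) (base n) := by
    rw [bcS_act, act_mul]
  have hch : ch (sec n v * x) ≤ (2 * B) * X := by
    refine (ch_mul_le' _ _).trans ?_
    rw [← hXd]
    nlinarith
  have hgr : C * ch (sec n v * x) ^ (2 * N) ≤ A * X ^ (2 * N) := by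
    rw [hA, mul_assoc, ← mul_pow]
    exact mul_le_mul_of_nonneg_left (pow_le_pow_left₀ (ch_pos _).le hch _) hC
  have d0 : ‖F (bcB n (act x (base n)) (bcS n v))‖ ≤ A * X ^ (2 * N) := by
    rw [hpt]
    exact (hF.b0 _).trans hgr
  have d1 : ‖fderiv ℝ F (bcB n (act x (base n)) (bcS n v))‖ ≤ A * X ^ (2 * N) := by
    rw [hpt]
    exact (hF.b1 _).trans hgr
  have d2 : ‖fderiv ℝ (fderiv ℝ F) (bcB n (act x (base n)) (bcS n v))‖ ≤ A * X ^ (2 * N) := by
    rw [hpt]
    exact (hF.b2 _).trans hgr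
  have hL : ‖bcB n (act x (base n))‖ ≤ b * (2 * X) := by
    refine ((bcB n).le_opNorm _).trans ?_
    rw [← hb, hXd]
    exact mul_le_mul_of_nonneg_left (bc_norm_orbit_le x) hb0
  have c1 : ‖bcC1 n v (act x (base n))‖ ≤ R * X := by
    refine (ContinuousLinearMap.opNorm_comp_le _ _).trans ?_
    calc _ ≤ (b * (2 * X)) * B := mul_le_mul hL hS1 (norm_nonneg _) (by positivity)
      _ = R * X := by rw [hR]; ring
  have c2 : ‖bcC2 n v (act x (base n))‖ ≤ R * X := by
    refine (ContinuousLinearMap.opNorm_comp_le _ _).trans ?_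
    calc _ ≤ (b * (2 * X)) * B :=
          mul_le_mul ((bc_compL_le' _).trans hL) hS2 (norm_nonneg _) (by positivity)
      _ = R * X := by rw [hR]; ring
  have e0 : A * X ^ (2 * N) * 1 ≤ A * X ^ (2 * N) * X ^ 2 := by
    refine mul_le_mul_of_nonneg_left ?_ (by positivity)
    nlinarith
  have e1 : A * X ^ (2 * N) * (R * X) ≤ A * X ^ (2 * N) * (R * X ^ 2) := by
    refine mul_le_mul_of_nonneg_left ?_ (by positivity)
    exact mul_le_mul_of_nonneg_left (by nlinarith) hR0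
  have hpow : X ^ (2 * (N + 1)) = X ^ (2 * N) * X ^ 2 := by
    rw [← pow_add]
    congr 1
  have hP : 0 ≤ A * X ^ (2 * N) * X ^ 2 := by positivity
  have hP1 : 0 ≤ A * X ^ (2 * N) * X ^ 2 * R := by positivity
  have hP2 : 0 ≤ A * X ^ (2 * N) * X ^ 2 * R ^ 2 := by positivity
  rw [← hXd, hpow]
  have expand : A * (1 + R + R ^ 2) * (X ^ (2 * N) * X ^ 2) =
      A * X ^ (2 * N) * X ^ 2 + A * X ^ (2 * N) * X ^ 2 * R + A * X ^ (2 * N) * X ^ 2 * R ^ 2 := by
    ring
  rw [expand]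
  have f1 : ‖bcF1 F v (act x (base n))‖ ≤ A * X ^ (2 * N) * (R * X) := by
    refine (ContinuousLinearMap.opNorm_comp_le _ _).trans ?_
    exact mul_le_mul d1 c1 (norm_nonneg _) (by positivity)
  have f2 : ‖bcF2 F v (act x (base n))‖ ≤ A * X ^ (2 * N) * (R * X) +
      (R * X) * (A * X ^ (2 * N) * (R * X)) := by
    refine (norm_add_le _ _).trans (add_le_add ?_ ?_)
    · refine (ContinuousLinearMap.opNorm_comp_le _ _).trans ?_
      exact mul_le_mul ((bc_compL_le _).trans d1) c2 (norm_nonneg _) (by positivity)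
    · refine (ContinuousLinearMap.opNorm_comp_le _ _).trans ?_
      refine mul_le_mul ((bc_compL_flip_le _).trans c1) ?_ (norm_nonneg _) (by positivity)
      refine (ContinuousLinearMap.opNorm_comp_le _ _).trans ?_
      exact mul_le_mul d2 c1 (norm_nonneg _) (by positivity)
  refine ⟨?_, ?_, ?_⟩
  · have : ‖bcF0 F v (act x (base n))‖ ≤ A * X ^ (2 * N) := d0
    linarith
  · have e2 : A * X ^ (2 * N) * (R * X ^ 2) = A * X ^ (2 * N) * X ^ 2 * R := by ring
    linarith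
  · have e2 : A * X ^ (2 * N) * (R * X ^ 2) = A * X ^ (2 * N) * X ^ 2 * R := by ring
    have e3 : (R * X) * (A * X ^ (2 * N) * (R * X)) = A * X ^ (2 * N) * X ^ 2 * R ^ 2 := by ring
    linarith

/-- integrability -/
theorem bc_int {G : Type} [NormedAddCommGroup G] [NormedSpace ℝ G] {M s : ℕ} (hs : n + M < s)
    {f : Vec n → G} (hc : ContinuousOn f (Cone n)) {D : ℝ}
    (hb : ∀ x : SUGroup n, ‖f (act x (base n))‖ ≤ D * ch x ^ (2 * M)) :
    Integrable (fun x : SUGroup n => kap s x • f (act x (base n))) (mu n) := by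
  have h1 : Continuous fun x : SUGroup n => kap s x • f (act x (base n)) :=
    (continuous_kap s).smul (continuous_orb hc)
  refine Integrable.mono' ((integrable_kap_pow (N := M) hs).const_mul D) h1.aestronglyMeasurable
    (Filter.Eventually.of_forall fun x => ?_)
  rw [norm_smul, Real.norm_of_nonneg (kap_nonneg s x)]
  have := mul_le_mul_of_nonneg_left (hb x) (kap_nonneg s x)
  calc _ ≤ _ := this
    _ = _ := by ring

/-- differentiation under the integral -/
theorem bc_diff_int {G : Type} [NormedAddCommGroup G] [NormedSpace ℝ G] {M s : ℕ}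
    (hs : n + M < s) {Ψ : Vec n → Vec n → G} {Ψ' : Vec n → Vec n → Vec n →L[ℝ] G}
    (hd : ∀ v ∈ Cone n, ∀ w ∈ Cone n, HasFDerivAt (fun v => Ψ v w) (Ψ' v w) v)
    (hc : ∀ v, ContinuousOn (Ψ v) (Cone n)) (hc' : ∀ v, ContinuousOn (Ψ' v) (Cone n))
    (hb : ∀ K : Set (Vec n), IsCompact K → K ⊆ Cone n → ∃ D : ℝ, ∀ v ∈ K, ∀ x : SUGroup n,
      ‖Ψ v (act x (base n))‖ ≤ D * ch x ^ (2 * M) ∧
        ‖Ψ' v (act x (base n))‖ ≤ D * ch x ^ (2 * M)) {v : Vec n} (hv : v ∈ Cone n) :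
    HasFDerivAt (fun v => ∫ x : SUGroup n, kap s x • Ψ v (act x (base n)) ∂(mu n))
      (∫ x : SUGroup n, kap s x • Ψ' v (act x (base n)) ∂(mu n)) v := by
  obtain ⟨ε, hε, hball⟩ := Metric.nhds_basis_closedBall.mem_iff.1 ((isOpen_cone n).mem_nhds hv)
  obtain ⟨D, hD⟩ := hb _ (isCompact_closedBall v ε) hball
  have hvb : v ∈ Metric.closedBall v ε := Metric.mem_closedBall_self hε.le
  refine hasFDerivAt_integral_of_dominated_of_fderiv_le
    (F := fun u x => kap s x • Ψ u (act x (base n)))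
    (F' := fun u x => kap s x • Ψ' u (act x (base n))) (Metric.ball_mem_nhds v hε)
    (bound := fun x => D * (kap s x * ch x ^ (2 * M)))
    (Filter.Eventually.of_forall fun u =>
      ((continuous_kap s).smul (continuous_orb (hc u))).aestronglyMeasurable)
    (bc_int hs (hc v) fun x => (hD v hvb x).1)
    ((continuous_kap s).smul (continuous_orb (hc' v))).aestronglyMeasurable
    (Filter.Eventually.of_forall fun x u hu => ?_) ((integrable_kap_pow hs).const_mul D)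
    (Filter.Eventually.of_forall fun x u hu => ?_)
  · rw [norm_smul, Real.norm_of_nonneg (kap_nonneg s x)]
    have := mul_le_mul_of_nonneg_left (hD u (Metric.ball_subset_closedBall hu) x).2
      (kap_nonneg s x)
    calc _ ≤ _ := this
      _ = _ := by ring
  · exact (hd u (hball (Metric.ball_subset_closedBall hu)) _ (orbit_mem x)).const_smul (kap s x)

/-- the averages at a point of the cone -/
theorem bc_P_eq {F : Vec n → E} {s : ℕ} {v : Vec n} (hv : v ∈ Cone n) :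
    P s F v = ∫ x : SUGroup n, kap s x • bcF0 F v (act x (base n)) ∂(mu n) := by
  obtain ⟨c, hc, h⟩ := sec_spec hv
  conv_lhs => rw [h]
  rw [P_homog s F c hc _ (orbit_mem _), P_orbit]
  refine integral_congr_ae (Filter.Eventually.of_forall fun x => ?_)
  simp only [bcF0, bcS_act, act_mul]

section
variable {N : ℕ} {C : ℝ} {F : Vec n → E}

theorem bc_P_d1 (hF : Tame N C F) {s : ℕ} (hs : n + (N + 1) < s) {v : Vec n} (hv : v ∈ Cone n) :
    HasFDerivAt (P s F) (∫ x : SUGroup n, kap s x • bcF1 F v (act x (base n)) ∂(mu n)) v := by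
  have h1 := bc_diff_int hs (Ψ := bcF0 F) (Ψ' := bcF1 F)
    (fun v hv w hw => bcF0_hasFDerivAt hF.cd hv hw)
    (fun v => (bcF_cont hF.cd).1) (fun v => (bcF_cont hF.cd).2.1)
    (fun K hK hKc => by
      obtain ⟨D, _, h⟩ := bc_bound hF hK hKc
      exact ⟨D, fun v hv x => ⟨(h v hv x).1, (h v hv x).2.1⟩⟩) hv
  refine h1.congr_of_eventuallyEq ?_
  filter_upwards [cone_nhds hv] with u hu
  exact bc_P_eq hu

theorem bc_P_d2 (hF : Tame N C F) {s : ℕ} (hs : n + (N + 1) < s) {v : Vec n} (hv : v ∈ Cone n) :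
    HasFDerivAt (fderiv ℝ (P s F))
      (∫ x : SUGroup n, kap s x • bcF2 F v (act x (base n)) ∂(mu n)) v := by
  have h1 := bc_diff_int hs (Ψ := bcF1 F) (Ψ' := bcF2 F)
    (fun v hv w hw => bcF1_hasFDerivAt hF.cd hv hw)
    (fun v => (bcF_cont hF.cd).2.1) (fun v => (bcF_cont hF.cd).2.2)
    (fun K hK hKc => by
      obtain ⟨D, _, h⟩ := bc_bound hF hK hKc
      exact ⟨D, fun v hv x => (h v hv x).2⟩) hv
  refine h1.congr_of_eventuallyEq ?_
  filter_upwards [cone_nhds hv] with u hu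
  exact (bc_P_d1 hF hs hu).fderiv

omit [CompleteSpace E] in
theorem bc_adm {G : Type} [NormedAddCommGroup G] [NormedSpace ℝ G] {f : Vec n → G}
    (hc : ContinuousOn f (Cone n)) {M : ℕ} {D : ℝ}
    (hb : ∀ x : SUGroup n, ‖f (act x (base n))‖ ≤ D * ch x ^ (2 * M)) : Adm M D f :=
  ⟨(continuous_orb hc).aestronglyMeasurable, hb⟩

/-- convergence of the averages at the base point -/
theorem bc_tendsto {G : Type} [NormedAddCommGroup G] [NormedSpace ℝ G] [CompleteSpace G]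
    {f : Vec n → G} (hh : Homog f) (hc : ContinuousOn f (Cone n)) {M : ℕ} {D : ℝ}
    (hb : ∀ x : SUGroup n, ‖f (act x (base n))‖ ≤ D * ch x ^ (2 * M)) :
    Tendsto (fun s : ℕ => ∫ x : SUGroup n, kap s x • f (act x (base n)) ∂(mu n)) atTop
      (𝓝 (f (base n))) := by
  have h1 := P_tendsto n M (f := fun _ : ℕ => f) (f₀ := f) (fun _ => bc_adm hc hb) hc hh
    (fun T ε hε => ⟨0, fun j _ g _ => by rw [sub_self, norm_zero]; exact hε.le⟩)
  rw [Metric.tendsto_atTop]
  intro ε hε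
  obtain ⟨j₀, s₁, h2⟩ := h1 1 (ε / 2) (by positivity)
  refine ⟨s₁, fun s hs => ?_⟩
  have h3 := h2 j₀ le_rfl s hs 1 ch_one.le
  rw [P_orbit, act_one] at h3
  simp only [one_mul] at h3
  rw [dist_eq_norm]
  linarith

theorem bc_integral_le {G : Type} [NormedAddCommGroup G] [NormedSpace ℝ G] {M s : ℕ}
    (hs : n + M < s) {f : Vec n → G} {D : ℝ} (hD : 0 ≤ D)
    (hb : ∀ x : SUGroup n, ‖f (act x (base n))‖ ≤ D * ch x ^ (2 * M)) :
    ‖∫ x : SUGroup n, kap s x • f (act x (base n)) ∂(mu n)‖ ≤ D * ((n : ℝ) + 1) ^ M := by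
  refine (norm_integral_le_of_norm_le ((integrable_kap_pow (N := M) hs).const_mul D)
    (Filter.Eventually.of_forall fun x => ?_)).trans ?_
  · rw [norm_smul, Real.norm_of_nonneg (kap_nonneg s x)]
    have := mul_le_mul_of_nonneg_left (hb x) (kap_nonneg s x)
    calc _ ≤ _ := this
      _ = _ := by ring
  · rw [integral_const_mul]
    exact mul_le_mul_of_nonneg_left (integral_kap_pow_le hs) hD

theorem bc_P_deriv_tendsto (hF : Tame N C F) :
    (∀ g : SUGroup n, Tendsto (fun s : ℕ => P s F (act g (base n))) atTop (𝓝 (F (act g (base n)))) ∧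
      Tendsto (fun s : ℕ => fderiv ℝ (P s F) (act g (base n))) atTop
        (𝓝 (fderiv ℝ F (act g (base n)))) ∧
      Tendsto (fun s : ℕ => fderiv ℝ (fderiv ℝ (P s F)) (act g (base n))) atTop
        (𝓝 (fderiv ℝ (fderiv ℝ F) (act g (base n))))) ∧
    ∀ T : ℝ, ∃ (K : ℝ) (s₀ : ℕ), ∀ s, s₀ ≤ s → ∀ g : SUGroup n, ch g ≤ T →
      ‖fderiv ℝ (P s F) (act g (base n))‖ ≤ K ∧
        ‖fderiv ℝ (fderiv ℝ (P s F)) (act g (base n))‖ ≤ K := by
  refine ⟨fun g => ?_, fun T => ?_⟩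
  · have hv := orbit_mem g
    obtain ⟨D, hD, hb⟩ := bc_bound hF (K := {act g (base n)}) isCompact_singleton (by
      intro w hw
      rw [Set.mem_singleton_iff] at hw
      rw [hw]
      exact hv)
    have hb' := hb _ rfl
    have t0 := bc_tendsto (f := bcF0 F (act g (base n)))
      (fun c hc w hw => bcF0_smul hF.hom _ hw hc) (bcF_cont hF.cd).1 fun x => (hb' x).1
    have t1 := bc_tendsto (f := bcF1 F (act g (base n)))
      (fun c hc w hw => bcF1_smul hF.hom hF.cd hv hw hc) (bcF_cont hF.cd).2.1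
      fun x => (hb' x).2.1
    have t2 := bc_tendsto (f := bcF2 F (act g (base n)))
      (fun c hc w hw => bcF2_smul hF.hom hF.cd hv hw hc) (bcF_cont hF.cd).2.2
      fun x => (hb' x).2.2
    rw [bcF0_base hF.hom hv] at t0
    rw [bcF1_base hF.hom hF.cd hv] at t1
    rw [bcF2_base hF.hom hF.cd hv] at t2
    refine ⟨t0.congr fun s => (bc_P_eq hv).symm, ?_, ?_⟩
    · refine t1.congr' ?_
      filter_upwards [eventually_gt_atTop (n + (N + 1))] with s hs
      exact (bc_P_d1 hF hs hv).fderiv.symm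
    · refine t2.congr' ?_
      filter_upwards [eventually_gt_atTop (n + (N + 1))] with s hs
      exact (bc_P_d2 hF hs hv).fderiv.symm
  · have hK : IsCompact ((fun g : SUGroup n => act g (base n)) '' {g | ch g ≤ T}) :=
      (isCompact_ball T).image continuous_orbit
    obtain ⟨D, hD, hb⟩ := bc_bound hF hK (by
      rintro w ⟨g, -, rfl⟩
      exact orbit_mem g)
    refine ⟨D * ((n : ℝ) + 1) ^ (N + 1), n + (N + 1) + 1, fun s hs g hg => ?_⟩
    have hs' : n + (N + 1) < s := by omega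
    have hv := orbit_mem g
    have hb' := hb _ ⟨g, hg, rfl⟩
    rw [(bc_P_d1 hF hs' hv).fderiv, (bc_P_d2 hF hs' hv).fderiv]
    exact ⟨bc_integral_le hs' hD fun x => (hb' x).2.1, bc_integral_le hs' hD fun x => (hb' x).2.2⟩

end

end Pool.Agent.Lib.MP_5d4057_al.HM
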