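import Pool.Agent.Lib.MP_5d4057_al.HM.AppSlice
import Pool.Agent.Lib.MP_5d4057_al.HM.Aut
import Pool.Agent.Lib.MP_5d4057_al.Hyb.Main
import Pool.Agent.Lib.MP_5d4057_al.Hyb.Norm
import Pool.Agent.Lib.MP_5d4057_al.Hyb.Sig

/-! Section F: the hyperplanes of a hybrid. -/

set_option autoImplicit false

namespace Pool.Agent.Lib.MP_5d4057_al.HM

open Matrix Filter Topology Pool.Agent.Lib.MP_5d4057_al Pool.Agent.Lib.MP_5d4057_al.Hyb

open scoped ComplexOrder MatrixOrder Matrix.Norms.L2Operator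

variable {n m j k : ℕ}

/-- The inclusion `w ↦ (0, w)`. -/
noncomputable def inc (j : ℕ) : Vec j →L[ℂ] Vec (j + 1) := LinearMap.toContinuousLinearMap
  { toFun := fun w => Fin.cons 0 w
    map_add' := fun v w => by
      ext i
      refine Fin.cases ?_ (fun i => ?_) i <;> simp
    map_smul' := fun c w => by
      ext i
      refine Fin.cases ?_ (fun i => ?_) i <;> simp }

theorem inc_apply (w : Vec j) : inc j w = Fin.cons 0 w := rfl

theorem inc_zero (w : Vec j) : inc j w 0 = 0 := rfl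

theorem inc_succ (w : Vec j) (i : Fin (j + 1)) : inc j w i.succ = w i := rfl

theorem star_inc (w : Vec j) : star (inc j w) = Fin.cons 0 (star w) := by
  ext i
  refine Fin.cases ?_ (fun i => ?_) i
  · show star (inc j w 0) = 0
    rw [inc_zero, star_zero]
  · rfl

theorem dsum_mulVec_inc (l : ℂ) (A : Mat (j + 1)) (w : Vec j) :
    dsum l A *ᵥ inc j w = inc j (A *ᵥ w) := by
  rw [inc_apply, dsum_mulVec_cons, mul_zero, inc_apply]

theorem cons_dot_cons {l : ℕ} (a b : ℂ) (v w : Fin l → ℂ) :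
    (Fin.cons a v : Fin (l + 1) → ℂ) ⬝ᵥ Fin.cons b w = a * b + v ⬝ᵥ w := by
  simp [dotProduct, Fin.sum_univ_succ]

theorem herm_inc (v w : Vec j) : herm (inc j v) (inc j w) = herm v w := by
  rw [herm, J_succ, dsum_mulVec_inc, star_inc, inc_apply, cons_dot_cons, zero_mul, zero_add, herm]

theorem q_inc (w : Vec j) : q (inc j w) = q w := by
  rw [q, q, herm_inc]

theorem inc_mem {w : Vec j} (hw : w ∈ Cone j) : inc j w ∈ Cone (j + 1) := by
  show q (inc j w) < 0
  rw [q_inc]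
  exact hw

theorem act_extend (γ : SUGroup j) (w : Vec j) : act (extend j γ) (inc j w) = inc j (act γ w) := by
  rw [act, extend_toMatrix, dsum_mulVec_inc, act]

theorem inc_base : inc j (base j) = base (j + 1) := by
  ext i
  refine Fin.cases ?_ (fun i => ?_) i
  · rw [inc_zero, base, Pi.single_eq_of_ne (Fin.last_pos).ne]
  · rw [inc_succ, base, base, Pi.single_apply, Pi.single_apply, ← Fin.succ_last]
    simp only [Fin.succ_inj]

/-- The action as a complex linear map. -/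
noncomputable def actC (g : SUGroup n) : Vec n →L[ℂ] Vec n :=
  LinearMap.toContinuousLinearMap g.toMatrix.mulVecLin

theorem actC_apply (g : SUGroup n) (v : Vec n) : actC g v = act g v := rfl

/-- The hyperplane number `b`. -/
noncomputable def hyp (g : SUGroup (j + 1)) : Vec j →L[ℂ] Vec (j + 1) := (actC g).comp (inc j)

theorem hyp_apply (g : SUGroup (j + 1)) (w : Vec j) : hyp g w = act g (inc j w) := rfl

theorem hyp_mem (g : SUGroup (j + 1)) {w : Vec j} (hw : w ∈ Cone j) : hyp g w ∈ Cone (j + 1) :=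
  act_mem g (inc_mem hw)

/-- The restriction of a metric to a hyperplane. -/
theorem Harm.hyp {F : Vec (j + 1) → Mat m} (h : Harm F) (g : SUGroup (j + 1)) :
    Harm fun w => F (hyp g w) := h.comp (HM.hyp g) fun _ hv => hyp_mem g hv

/-- The pieces in the hybrid. -/
def embHyb (Γ : Fin 2 → Subgroup (SUGroup j)) (g : Fin 2 → SUGroup (j + 1)) (b : Fin 2) :
    Γ b →* hybrid Γ g where
  toFun γ := ⟨g b * extend j γ * (g b)⁻¹, Subgroup.subset_closure ⟨b, γ, γ.2, rfl⟩⟩
  map_one' := Subtype.ext (by simp)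
  map_mul' x y := Subtype.ext (by simp [_root_.mul_assoc])

theorem embHyb_coe (Γ : Fin 2 → Subgroup (SUGroup j)) (g : Fin 2 → SUGroup (j + 1)) (b : Fin 2)
    (γ : Γ b) : (embHyb Γ g b γ : SUGroup (j + 1)) = g b * extend j γ * (g b)⁻¹ := rfl

theorem Equi.hyp {Γ : Fin 2 → Subgroup (SUGroup j)} {g : Fin 2 → SUGroup (j + 1)}
    {ρ : hybrid Γ g →* Mat m} {F : Vec (j + 1) → Mat m} (h : Equi ρ F) (b : Fin 2) :
    Equi (ρ.comp (embHyb Γ g b)) fun w => F (HM.hyp (g b) w) := by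
  intro γ w hw
  show F (HM.hyp (g b) (act (γ : SUGroup j) w)) =
    ρ (embHyb Γ g b γ) * F (HM.hyp (g b) w) * (ρ (embHyb Γ g b γ))ᴴ
  rw [← h _ _ (hyp_mem (g b) hw), embHyb_coe]
  congr 1
  rw [hyp_apply, hyp_apply, ← act_mul, ← act_extend, ← act_mul, inv_mul_cancel_right]

/-- Entrywise automorphisms. -/
theorem tm_mul (t : ℂ ≃+* ℂ) (A B : Mat m) : (A * B).map t = A.map t * B.map t := by
  rw [Matrix.map_mul]

theorem tm_one (t : ℂ ≃+* ℂ) : (1 : Mat m).map t = 1 := Matrix.map_one t (map_zero t) (map_one t)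

theorem tm_dsum (t : ℂ ≃+* ℂ) (l : ℂ) (A : Mat m) : (dsum l A).map t = dsum (t l) (A.map t) :=
  dsum_map l A t (map_zero t)

theorem tm_bsum (t : ℂ ≃+* ℂ) (X : Mat 2) (A : Mat m) :
    (bsum X A).map t = bsum (X.map t) (A.map t) := bsum_map X A t (map_zero t)

theorem tm_unit (t : ℂ ≃+* ℂ) {A : Mat m} (h : A.det ≠ 0) : IsUnit (A.map t) := by
  rw [isUnit_iff_isUnit_det, isUnit_iff_ne_zero]
  have : (A.map t).det = t A.det := by
    have := (RingHom.map_det t.toRingHom A).symm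
    exact this
  rw [this]
  exact (map_ne_zero t).2 h

theorem tm_inv (t : ℂ ≃+* ℂ) {A : Mat m} (h : A.det ≠ 0) : (A.map t)⁻¹ = A⁻¹.map t := by
  apply inv_eq_left_inv
  rw [← tm_mul, nonsing_inv_mul _ (isUnit_iff_ne_zero.2 h), tm_one]

theorem tm_smul (t : ℂ ≃+* ℂ) (c : ℂ) (A : Mat m) : (c • A).map t = t c • A.map t := by
  ext i j
  simp

theorem toMatrix_unit (g : SUGroup n) : IsUnit g.toMatrix := by
  rw [isUnit_iff_isUnit_det, det_toMatrix]
  exact isUnit_one

theorem tm_gp_unit (t : ℂ ≃+* ℂ) (g : SUGroup n) : IsUnit (g.toMatrix.map t) :=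
  tm_unit t (by rw [det_toMatrix]; exact one_ne_zero)

theorem tm_gp_inv (t : ℂ ≃+* ℂ) (g : SUGroup n) :
    (g⁻¹).toMatrix.map t = (g.toMatrix.map t)⁻¹ := by
  rw [toMatrix_inv, tm_inv t (by rw [det_toMatrix]; exact one_ne_zero)]

/-- The conjugate representation on a piece. -/
theorem rhoT_emb (t : ℂ ≃+* ℂ) (Γ : Fin 2 → Subgroup (SUGroup j)) (g : Fin 2 → SUGroup (j + 1))
    (b : Fin 2) (γ : Γ b) : ((rhoT t (hybrid Γ g)).comp (embHyb Γ g b)) γ =
      (g b).toMatrix.map t * dsum 1 (rhoT t (Γ b) γ) * ((g b).toMatrix.map t)⁻¹ := by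
  show (g b * extend j γ * (g b)⁻¹).toMatrix.map t = _
  rw [toMatrix_mul, toMatrix_mul, tm_mul, tm_mul, tm_gp_inv, extend_toMatrix, tm_dsum, map_one]
  rfl

theorem isForm_of_nf {K : Subfield ℂ} {D : Matrix (Fin (k + 1)) (Fin (k + 1)) ℂ}
    {HD : Matrix (Fin (k + 1)) (Fin (k + 1)) K} {μ : Fin 2 → ℂ} {q : Fin 2 → K} (hcm : IsCM K)
    (hn : IsNF k K D HD μ q) (b : Fin 2) :
    IsForm (k + 1) K (dsum (q b) HD) (dsum (μ b) D) where
  cm := hcm
  det := by
    rw [det_dsum]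
    exact mul_ne_zero (hn.μ_ne b) hn.det
  form := by
    rw [dsum_conjTranspose, J_succ, dsum_mul, dsum_mul, hn.form, dsum_map _ _ _ rfl, mul_one,
      hn.q_eq b]
  definite τ := by
    rw [dsum_map _ _ _ (map_zero τ)]
    exact hn.definite b τ

/-- `t(γ)` in the rational structure, `t` fixing `K`. -/
theorem tm_fix {K : Subfield ℂ} (t : ℂ ≃+* ℂ) (ht : ∀ x : K, t (x : ℂ) = x) {B A : Mat m}
    (hB : B.det ≠ 0) (hA : EntriesIn K B A) :
    A.map t = (B.map t * B⁻¹) * A * (B.map t * B⁻¹)⁻¹ := by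
  have hB' := isUnit_iff_ne_zero.2 hB
  have h1 : (B⁻¹ * A * B).map t = B⁻¹ * A * B := by
    ext i j
    exact ht ⟨_, hA i j⟩
  have h2 : A = B * (B⁻¹ * A * B) * B⁻¹ := by
    calc A = (B * B⁻¹) * A * (B * B⁻¹) := by
          rw [mul_nonsing_inv _ hB', Matrix.one_mul, Matrix.mul_one]
      _ = _ := by simp only [Matrix.mul_assoc]
  have h3 : A.map t = B.map t * (B⁻¹ * A * B) * (B⁻¹).map t := by
    conv_lhs => rw [h2]
    rw [tm_mul, tm_mul, h1]
  rw [h3, Matrix.mul_inv_rev, nonsing_inv_nonsing_inv _ hB', ← tm_inv t hB]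
  simp only [Matrix.mul_assoc]

end Pool.Agent.Lib.MP_5d4057_al.HM
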