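import Pool.Agent.Lib.MP_5d4057_al.HM.Defs

namespace Pool.Agent.Lib.MP_5d4057_al.HM

open Matrix MeasureTheory Pool.Agent.Lib.MP_5d4057_al Pool.Agent.Lib.MP_5d4057_al.Hyb

open scoped ComplexOrder MatrixOrder Matrix.Norms.L2Operator

variable {n m : ℕ} {E : Type} [NormedAddCommGroup E] [NormedSpace ℝ E]

section form

theorem herm_eq (v w : Vec n) :
    herm v w = ∑ i : Fin n, star (v i.castSucc) * w i.castSucc -
      star (v (Fin.last n)) * w (Fin.last n) := by
  rw [herm, dotProduct, Fin.sum_univ_castSucc, sub_eq_add_neg]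
  congr 1
  · refine Finset.sum_congr rfl fun i _ => ?_
    rw [J, mulVec_diagonal, if_neg (Fin.castSucc_lt_last i).ne, one_mul, Pi.star_apply]
  · rw [J, mulVec_diagonal, if_pos rfl, Pi.star_apply]
    ring

private theorem star_mul_norm (z : ℂ) : star z * z = ((‖z‖ ^ 2 : ℝ) : ℂ) := by
  rw [Complex.star_def, Complex.conj_mul']
  push_cast
  rfl

private theorem herm_self_aux (v : Vec n) : herm v v =
    ((∑ i : Fin n, ‖v i.castSucc‖ ^ 2 - ‖v (Fin.last n)‖ ^ 2 : ℝ) : ℂ) := by
  rw [herm_eq, Complex.ofReal_sub, Complex.ofReal_sum, star_mul_norm]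
  congr 1
  exact Finset.sum_congr rfl fun i _ => star_mul_norm _

theorem q_eq (v : Vec n) : q v = ∑ i : Fin n, ‖v i.castSucc‖ ^ 2 - ‖v (Fin.last n)‖ ^ 2 := by
  rw [q, herm_self_aux, Complex.ofReal_re]

theorem herm_self (v : Vec n) : herm v v = (q v : ℂ) := by
  rw [herm_self_aux, q_eq]

theorem herm_add_right (v w u : Vec n) : herm v (w + u) = herm v w + herm v u := by
  rw [herm, herm, herm, mulVec_add, dotProduct_add]

theorem herm_smul_right (v w : Vec n) (c : ℂ) : herm v (c • w) = c * herm v w := by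
  rw [herm, herm, mulVec_smul, dotProduct_smul, smul_eq_mul]

theorem herm_add_left (v w u : Vec n) : herm (v + w) u = herm v u + herm w u := by
  rw [herm, herm, herm, star_add, add_dotProduct]

theorem herm_smul_left (v w : Vec n) (c : ℂ) : herm (c • v) w = star c * herm v w := by
  rw [herm, herm, star_smul, smul_dotProduct, smul_eq_mul]

theorem herm_comm (v w : Vec n) : herm w v = star (herm v w) := by
  rw [herm_eq, herm_eq, star_sub, star_sum, star_mul, star_star]
  congr 1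
  refine Finset.sum_congr rfl fun i _ => ?_
  rw [star_mul, star_star]

theorem q_smul (c : ℂ) (v : Vec n) : q (c • v) = ‖c‖ ^ 2 * q v := by
  rw [q_eq, q_eq, mul_sub, Finset.mul_sum]
  simp only [Pi.smul_apply, smul_eq_mul, norm_mul, mul_pow]

theorem isOpen_cone (n : ℕ) : IsOpen (Cone n) := by
  have h : Continuous (q (n := n)) := by
    have : q (n := n) = fun v => ∑ i : Fin n, ‖v i.castSucc‖ ^ 2 - ‖v (Fin.last n)‖ ^ 2 :=
      funext q_eq
    rw [this]
    fun_prop
  exact isOpen_lt h continuous_const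

theorem smul_mem_cone {c : ℂ} (hc : c ≠ 0) {v : Vec n} (hv : v ∈ Cone n) : c • v ∈ Cone n := by
  have h1 : q v < 0 := hv
  have h2 : 0 < ‖c‖ ^ 2 := by positivity
  change q (c • v) < 0
  rw [q_smul]
  exact mul_neg_of_pos_of_neg h2 h1

theorem q_base (n : ℕ) : q (base n) = -1 := by
  rw [q_eq, base, Pi.single_eq_same, Finset.sum_eq_zero]
  · simp
  · intro i _
    rw [Pi.single_eq_of_ne (Fin.castSucc_lt_last i).ne]
    simp

theorem base_mem (n : ℕ) : base n ∈ Cone n := by
  change q (base n) < 0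
  rw [q_base]
  norm_num

private theorem cauchy (v w : Vec n) :
    ‖∑ i : Fin n, star (v i.castSucc) * w i.castSucc‖ ≤
      Real.sqrt (∑ i : Fin n, ‖v i.castSucc‖ ^ 2) * Real.sqrt (∑ i : Fin n, ‖w i.castSucc‖ ^ 2) := by
  have h1 : ‖∑ i : Fin n, star (v i.castSucc) * w i.castSucc‖ ≤
      ∑ i : Fin n, ‖v i.castSucc‖ * ‖w i.castSucc‖ := by
    refine (norm_sum_le _ _).trans (le_of_eq ?_)
    refine Finset.sum_congr rfl fun i _ => ?_
    rw [norm_mul, norm_star]
  refine h1.trans ?_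
  rw [← Real.sqrt_mul (Finset.sum_nonneg fun _ _ => by positivity)]
  apply Real.le_sqrt_of_sq_le
  exact Finset.sum_mul_sq_le_sq_mul_sq _ _ _

/-- Reversed Cauchy-Schwarz. -/
theorem q_mul_q_le {v w : Vec n} (hv : v ∈ Cone n) (hw : w ∈ Cone n) :
    q v * q w ≤ ‖herm v w‖ ^ 2 := by
  have h1 : q v < 0 := hv
  have h2 : q w < 0 := hw
  have h3 := cauchy v w
  rw [q_eq] at h1 h2
  rw [q_eq, q_eq, herm_eq]
  have hA : 0 ≤ ∑ i : Fin n, ‖v i.castSucc‖ ^ 2 := Finset.sum_nonneg fun _ _ => by positivity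
  have hB : 0 ≤ ∑ i : Fin n, ‖w i.castSucc‖ ^ 2 := Finset.sum_nonneg fun _ _ => by positivity
  set A := ∑ i : Fin n, ‖v i.castSucc‖ ^ 2
  set B := ∑ i : Fin n, ‖w i.castSucc‖ ^ 2
  obtain ⟨a, ha⟩ : ∃ a, a = Real.sqrt A := ⟨_, rfl⟩
  obtain ⟨b, hb⟩ : ∃ b, b = Real.sqrt B := ⟨_, rfl⟩
  have ha0 : 0 ≤ a := by rw [ha]; exact Real.sqrt_nonneg _
  have hb0 : 0 ≤ b := by rw [hb]; exact Real.sqrt_nonneg _
  have haA : A = a ^ 2 := by rw [ha, Real.sq_sqrt hA]
  have hbB : B = b ^ 2 := by rw [hb, Real.sq_sqrt hB]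
  rw [← ha, ← hb] at h3
  have h4 := norm_sub_norm_le (star (v (Fin.last n)) * w (Fin.last n))
    (∑ i : Fin n, star (v i.castSucc) * w i.castSucc)
  rw [norm_mul, norm_star, norm_sub_rev] at h4
  rw [haA] at h1
  rw [hbB] at h2
  rw [haA, hbB]
  obtain ⟨α, hα⟩ : ∃ α, α = ‖v (Fin.last n)‖ := ⟨_, rfl⟩
  obtain ⟨β, hβ⟩ : ∃ β, β = ‖w (Fin.last n)‖ := ⟨_, rfl⟩
  rw [← hα] at h1 h4 ⊢
  rw [← hβ] at h2 h4 ⊢
  have hα0 : 0 ≤ α := by rw [hα]; exact norm_nonneg _
  have hβ0 : 0 ≤ β := by rw [hβ]; exact norm_nonneg _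
  have haα : a ≤ α := by nlinarith
  have hbβ : b ≤ β := by nlinarith
  have h5 : a * b ≤ α * β := mul_le_mul haα hbβ hb0 hα0
  have h6 : α * β - a * b ≤ ‖∑ i : Fin n, star (v i.castSucc) * w i.castSucc -
      star (v (Fin.last n)) * w (Fin.last n)‖ := by linarith
  have h7 : (α * β - a * b) ^ 2 ≤ ‖∑ i : Fin n, star (v i.castSucc) * w i.castSucc -
      star (v (Fin.last n)) * w (Fin.last n)‖ ^ 2 := pow_le_pow_left₀ (by linarith) h6 2
  nlinarith [sq_nonneg (α * b - a * β)]

/-- The form is positive on the orthogonal complement of a negative vector. -/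
theorem q_pos_of_orth {v w : Vec n} (hv : v ∈ Cone n) (h : herm v w = 0) (hw : w ≠ 0) :
    0 < q w := by
  by_contra hneg
  rw [not_lt] at hneg
  have h1 : q v < 0 := hv
  have h3 := cauchy v w
  rw [q_eq] at h1 hneg
  rw [herm_eq, sub_eq_zero] at h
  have hA : 0 ≤ ∑ i : Fin n, ‖v i.castSucc‖ ^ 2 := Finset.sum_nonneg fun _ _ => by positivity
  have hB : 0 ≤ ∑ i : Fin n, ‖w i.castSucc‖ ^ 2 := Finset.sum_nonneg fun _ _ => by positivity
  obtain ⟨a, ha⟩ : ∃ a, a = Real.sqrt (∑ i : Fin n, ‖v i.castSucc‖ ^ 2) := ⟨_, rfl⟩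
  obtain ⟨b, hb⟩ : ∃ b, b = Real.sqrt (∑ i : Fin n, ‖w i.castSucc‖ ^ 2) := ⟨_, rfl⟩
  have ha0 : 0 ≤ a := by rw [ha]; exact Real.sqrt_nonneg _
  have hb0 : 0 ≤ b := by rw [hb]; exact Real.sqrt_nonneg _
  have haA : ∑ i : Fin n, ‖v i.castSucc‖ ^ 2 = a ^ 2 := by rw [ha, Real.sq_sqrt hA]
  have hbB : ∑ i : Fin n, ‖w i.castSucc‖ ^ 2 = b ^ 2 := by rw [hb, Real.sq_sqrt hB]
  rw [← ha, ← hb, h, norm_mul, norm_star] at h3
  rw [haA] at h1
  rw [hbB] at hneg
  have hα0 : 0 ≤ ‖v (Fin.last n)‖ := norm_nonneg _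
  have hβ0 : 0 ≤ ‖w (Fin.last n)‖ := norm_nonneg _
  have haα : a < ‖v (Fin.last n)‖ := by nlinarith
  have hbβ : b ≤ ‖w (Fin.last n)‖ := by nlinarith
  have hβ : ‖w (Fin.last n)‖ = 0 := by
    by_contra hne
    have hpos : 0 < ‖w (Fin.last n)‖ := lt_of_le_of_ne hβ0 (Ne.symm hne)
    nlinarith
  have hb' : b = 0 := by linarith
  apply hw
  funext j
  refine Fin.lastCases ?_ (fun i => ?_) j
  · exact norm_eq_zero.1 hβ
  · have h5 : ∑ i : Fin n, ‖w i.castSucc‖ ^ 2 = 0 := by rw [hbB, hb']; norm_num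
    have h6 := (Finset.sum_eq_zero_iff_of_nonneg (fun _ _ => by positivity)).1 h5 i
      (Finset.mem_univ i)
    exact norm_eq_zero.1 (pow_eq_zero_iff (two_ne_zero) |>.1 h6)

theorem herm_ne_zero {v w : Vec n} (hv : v ∈ Cone n) (hw : w ∈ Cone n) : herm v w ≠ 0 := by
  intro h
  have h1 := q_mul_q_le hv hw
  have h2 : q v < 0 := hv
  have h3 : q w < 0 := hw
  rw [h, norm_zero] at h1
  nlinarith

end form

section action

theorem act_mul (g h : SUGroup n) (v : Vec n) : act (g * h) v = act g (act h v) := by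
  rw [act, act, act, toMatrix_mul, mulVec_mulVec]

theorem act_one (v : Vec n) : act (1 : SUGroup n) v = v := by
  rw [act, toMatrix_one, one_mulVec]

theorem act_smul (g : SUGroup n) (c : ℂ) (v : Vec n) : act g (c • v) = c • act g v := by
  rw [act, act, mulVec_smul]

theorem act_add (g : SUGroup n) (v w : Vec n) : act g (v + w) = act g v + act g w := by
  rw [act, act, act, mulVec_add]

theorem herm_act (g : SUGroup n) (v w : Vec n) : herm (act g v) (act g w) = herm v w := by
  rw [herm, herm, act, act, star_mulVec, mulVec_mulVec, ← dotProduct_mulVec, mulVec_mulVec,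
    ← Matrix.mul_assoc, pres]

theorem q_act (g : SUGroup n) (v : Vec n) : q (act g v) = q v := by
  rw [q, q, herm_act]

theorem act_mem (g : SUGroup n) {v : Vec n} (hv : v ∈ Cone n) : act g v ∈ Cone n := by
  change q (act g v) < 0
  rw [q_act]
  exact hv

theorem orbit_mem (g : SUGroup n) : act g (base n) ∈ Cone n := act_mem g (base_mem n)

theorem q_orbit (g : SUGroup n) : q (act g (base n)) = -1 := by
  rw [q_act, q_base]

private theorem act_single (g : SUGroup n) (i j : Fin (n + 1)) :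
    act g (Pi.single j 1) i = g.toMatrix i j := by
  rw [act, mulVec_single_one]
  rfl

private theorem herm_base (w : Vec n) : herm (base n) w = -w (Fin.last n) := by
  rw [herm_eq, base, Pi.single_eq_same, Finset.sum_eq_zero]
  · simp
  · intro i _
    rw [Pi.single_eq_of_ne (Fin.castSucc_lt_last i).ne]
    simp

theorem norm_herm_orbit (g y : SUGroup n) :
    ‖herm (act g (base n)) (act y (base n))‖ = ch (g⁻¹ * y) := by
  have h1 : herm (act g (base n)) (act y (base n)) = herm (base n) (act (g⁻¹ * y) (base n)) := by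
    rw [← herm_act g⁻¹, ← act_mul, inv_mul_cancel, act_one, ← act_mul]
  rw [h1, herm_base, norm_neg, ch, base, act_single]

theorem W_orbit (g : SUGroup n) : W (act g (base n)) = ch g ^ 2 := by
  rw [W, q_orbit, neg_neg, div_one, ch, base, act_single]

theorem continuous_orbit : Continuous fun g : SUGroup n => act g (base n) := by
  unfold act
  exact (continuous_toMatrix n).matrix_mulVec continuous_const

/-- The columns of `g` are orthonormal for the form. -/
theorem herm_col (g : SUGroup n) (i j : Fin (n + 1)) :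
    herm (act g (Pi.single i 1)) (act g (Pi.single j 1)) = J n i j := by
  rw [herm_act, herm, mulVec_single_one]
  have h1 : (star (Pi.single i 1 : Vec n)) = Pi.single i 1 := by
    rw [← Pi.single_star, star_one]
  rw [h1, single_one_dotProduct]
  rfl

private theorem J_sq' (m : ℕ) : J m * J m = 1 := by
  rw [J, diagonal_mul_diagonal, ← diagonal_one]
  congr 1
  funext i
  split_ifs <;> norm_num

/-- `g J g^* = J`. -/
theorem mul_J_mul (g : SUGroup n) : g.toMatrix * J n * g.toMatrixᴴ = J n := by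
  have h1 : (J n * g.toMatrixᴴ * J n) * g.toMatrix = 1 := by
    rw [Matrix.mul_assoc, Matrix.mul_assoc, ← Matrix.mul_assoc g.toMatrixᴴ, pres, J_sq']
  have h2 : g.toMatrix * (J n * g.toMatrixᴴ * J n) = 1 := mul_eq_one_comm.1 h1
  calc g.toMatrix * J n * g.toMatrixᴴ = g.toMatrix * (J n * g.toMatrixᴴ * J n) * J n := by
        rw [Matrix.mul_assoc, Matrix.mul_assoc, Matrix.mul_assoc, Matrix.mul_assoc, J_sq',
          Matrix.mul_one]
    _ = J n := by rw [h2, Matrix.one_mul]

end action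

section cosh

private theorem bb_J_mul_J : J n * J n = 1 := by
  rw [J, diagonal_mul_diagonal, ← diagonal_one]
  congr 1
  funext i
  split_ifs <;> norm_num

private theorem bb_inv_toMatrix (x : SUGroup n) :
    (x⁻¹).toMatrix = J n * x.toMatrixᴴ * J n := by
  calc (x⁻¹).toMatrix = (J n * J n) * (x⁻¹).toMatrix := by rw [bb_J_mul_J, Matrix.one_mul]
    _ = (J n * (x.toMatrixᴴ * J n * x.toMatrix)) * (x⁻¹).toMatrix := by rw [pres]
    _ = J n * x.toMatrixᴴ * J n * (x.toMatrix * (x⁻¹).toMatrix) := by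
        simp only [Matrix.mul_assoc]
    _ = _ := by rw [toMatrix_mul_inv, Matrix.mul_one]

private theorem bb_pres' (x : SUGroup n) : x.toMatrix * J n * x.toMatrixᴴ = J n := by
  calc x.toMatrix * J n * x.toMatrixᴴ
      = x.toMatrix * (J n * x.toMatrixᴴ * J n) * J n := by
        simp only [Matrix.mul_assoc, bb_J_mul_J, Matrix.mul_one]
    _ = x.toMatrix * (x⁻¹).toMatrix * J n := by rw [bb_inv_toMatrix]
    _ = J n := by rw [toMatrix_mul_inv, Matrix.one_mul]

private theorem bb_J_last : J n (Fin.last n) (Fin.last n) = -1 := by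
  rw [J, diagonal_apply_eq, if_pos rfl]

private theorem bb_J_castSucc (i : Fin n) : J n i.castSucc i.castSucc = 1 := by
  rw [J, diagonal_apply_eq, if_neg (Fin.castSucc_lt_last i).ne]

private theorem bb_J_mul_apply (A : Matrix (Fin (n + 1)) (Fin (n + 1)) ℂ) (i j : Fin (n + 1)) :
    (J n * A) i j = J n i i * A i j := by
  rw [J, diagonal_mul, diagonal_apply_eq]

private theorem bb_mul_J_apply (A : Matrix (Fin (n + 1)) (Fin (n + 1)) ℂ) (i j : Fin (n + 1)) :
    (A * J n) i j = A i j * J n j j := by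
  rw [J, mul_diagonal, diagonal_apply_eq]

private theorem bb_col_form (x : SUGroup n) (j j' : Fin (n + 1)) :
    ∑ i : Fin n, star (x.toMatrix i.castSucc j) * x.toMatrix i.castSucc j' -
      star (x.toMatrix (Fin.last n) j) * x.toMatrix (Fin.last n) j' = J n j j' := by
  rw [← pres x, Matrix.mul_assoc, Matrix.mul_apply, Fin.sum_univ_castSucc]
  simp only [bb_J_mul_apply, bb_J_castSucc, bb_J_last, conjTranspose_apply]
  simp only [one_mul, neg_mul, mul_neg, sub_eq_add_neg]

private theorem bb_row_form (x : SUGroup n) (j j' : Fin (n + 1)) :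
    ∑ i : Fin n, x.toMatrix j i.castSucc * star (x.toMatrix j' i.castSucc) -
      x.toMatrix j (Fin.last n) * star (x.toMatrix j' (Fin.last n)) = J n j j' := by
  rw [← bb_pres' x, Matrix.mul_apply, Fin.sum_univ_castSucc]
  simp only [bb_mul_J_apply, bb_J_castSucc, bb_J_last, conjTranspose_apply]
  simp only [mul_one, neg_mul, mul_neg, sub_eq_add_neg]

private theorem bb_star_mul_self_eq (z : ℂ) : star z * z = ((‖z‖ ^ 2 : ℝ) : ℂ) := by
  rw [RCLike.star_def, Complex.conj_mul']
  push_cast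
  rfl

private theorem bb_mul_star_self_eq (z : ℂ) : z * star z = ((‖z‖ ^ 2 : ℝ) : ℂ) := by
  rw [mul_comm, bb_star_mul_self_eq]

theorem continuous_ch : Continuous (ch (n := n)) :=
  ((continuous_toMatrix n).matrix_elem _ _).norm

/-- `∑_{j<n} |x_nj|² = ch² - 1 = ∑_{j<n} |x_jn|²`. -/
theorem sum_row (x : SUGroup n) :
    ∑ j : Fin n, ‖x.toMatrix (Fin.last n) j.castSucc‖ ^ 2 = ch x ^ 2 - 1 := by
  have h := bb_row_form x (Fin.last n) (Fin.last n)
  simp only [bb_mul_star_self_eq, bb_J_last] at h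
  have h' : ((∑ i : Fin n, ‖x.toMatrix (Fin.last n) i.castSucc‖ ^ 2 -
      ‖x.toMatrix (Fin.last n) (Fin.last n)‖ ^ 2 : ℝ) : ℂ) = ((-1 : ℝ) : ℂ) := by
    push_cast
    push_cast at h
    exact h
  have h2 := Complex.ofReal_injective h'
  rw [ch]
  linarith

theorem sum_col (x : SUGroup n) :
    ∑ j : Fin n, ‖x.toMatrix j.castSucc (Fin.last n)‖ ^ 2 = ch x ^ 2 - 1 := by
  have h := bb_col_form x (Fin.last n) (Fin.last n)
  simp only [bb_star_mul_self_eq, bb_J_last] at h
  have h' : ((∑ i : Fin n, ‖x.toMatrix i.castSucc (Fin.last n)‖ ^ 2 -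
      ‖x.toMatrix (Fin.last n) (Fin.last n)‖ ^ 2 : ℝ) : ℂ) = ((-1 : ℝ) : ℂ) := by
    push_cast
    push_cast at h
    exact h
  have h2 := Complex.ofReal_injective h'
  rw [ch]
  linarith

theorem one_le_ch (x : SUGroup n) : 1 ≤ ch x := by
  have h := sum_col x
  have h1 : 0 ≤ ∑ i : Fin n, ‖x.toMatrix i.castSucc (Fin.last n)‖ ^ 2 :=
    Finset.sum_nonneg fun i _ => sq_nonneg _
  have h2 : 0 ≤ ch x := norm_nonneg _
  nlinarith

private theorem bb_ch_pos (x : SUGroup n) : 0 < ch x := lt_of_lt_of_le one_pos (one_le_ch x)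

theorem ch_one : ch (1 : SUGroup n) = 1 := by
  rw [ch, toMatrix_one, Matrix.one_apply_eq, norm_one]

theorem ch_inv (x : SUGroup n) : ch x⁻¹ = ch x := by
  rw [ch, bb_inv_toMatrix, bb_mul_J_apply, bb_J_mul_apply, bb_J_last, conjTranspose_apply]
  simp [ch]

private theorem bb_mul_last_last (x y : SUGroup n) :
    (x * y).toMatrix (Fin.last n) (Fin.last n) =
    ∑ i : Fin n, x.toMatrix (Fin.last n) i.castSucc * y.toMatrix i.castSucc (Fin.last n) +
      x.toMatrix (Fin.last n) (Fin.last n) * y.toMatrix (Fin.last n) (Fin.last n) := by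
  rw [toMatrix_mul, Matrix.mul_apply, Fin.sum_univ_castSucc]

private theorem bb_norm_cross_le (x y : SUGroup n) :
    ‖∑ i : Fin n, x.toMatrix (Fin.last n) i.castSucc * y.toMatrix i.castSucc (Fin.last n)‖ ≤
      Real.sqrt (ch x ^ 2 - 1) * Real.sqrt (ch y ^ 2 - 1) := by
  rw [← sum_row x, ← sum_col y]
  calc _ ≤ ∑ i : Fin n, ‖x.toMatrix (Fin.last n) i.castSucc * y.toMatrix i.castSucc (Fin.last n)‖ :=
        norm_sum_le _ _
    _ = ∑ i : Fin n, ‖x.toMatrix (Fin.last n) i.castSucc‖ * ‖y.toMatrix i.castSucc (Fin.last n)‖ := by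
        simp only [norm_mul]
    _ ≤ _ := Real.sum_mul_le_sqrt_mul_sqrt _ _ _

theorem ch_mul_le (x y : SUGroup n) :
    ch (x * y) ≤ ch x * ch y + Real.sqrt (ch x ^ 2 - 1) * Real.sqrt (ch y ^ 2 - 1) := by
  have e : ch (x * y) = ‖(x * y).toMatrix (Fin.last n) (Fin.last n)‖ := rfl
  rw [e, bb_mul_last_last]
  calc _ ≤ _ := norm_add_le _ _
    _ ≤ Real.sqrt (ch x ^ 2 - 1) * Real.sqrt (ch y ^ 2 - 1) + ch x * ch y := by
        refine add_le_add (bb_norm_cross_le x y) ?_
        rw [norm_mul, ch, ch]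
    _ = _ := by ring

private theorem bb_ch_mul_ge (x y : SUGroup n) :
    ch x * ch y - Real.sqrt (ch x ^ 2 - 1) * Real.sqrt (ch y ^ 2 - 1) ≤ ch (x * y) := by
  have h1 : ch x * ch y =
      ‖x.toMatrix (Fin.last n) (Fin.last n) * y.toMatrix (Fin.last n) (Fin.last n)‖ := by
    rw [norm_mul, ch, ch]
  have h2 : x.toMatrix (Fin.last n) (Fin.last n) * y.toMatrix (Fin.last n) (Fin.last n) =
      (x * y).toMatrix (Fin.last n) (Fin.last n) -
      ∑ i : Fin n, x.toMatrix (Fin.last n) i.castSucc * y.toMatrix i.castSucc (Fin.last n) := by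
    rw [bb_mul_last_last]; ring
  rw [h1, h2]
  have h3 := norm_sub_le ((x * y).toMatrix (Fin.last n) (Fin.last n))
    (∑ i : Fin n, x.toMatrix (Fin.last n) i.castSucc * y.toMatrix i.castSucc (Fin.last n))
  have h4 := bb_norm_cross_le x y
  have e : ch (x * y) = ‖(x * y).toMatrix (Fin.last n) (Fin.last n)‖ := rfl
  rw [e]
  linarith

private theorem bb_sqrt_le (x : SUGroup n) : Real.sqrt (ch x ^ 2 - 1) ≤ ch x := by
  rw [Real.sqrt_le_left (bb_ch_pos x).le]
  linarith

theorem ch_mul_le' (x y : SUGroup n) : ch (x * y) ≤ 2 * ch x * ch y := by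
  have h := ch_mul_le x y
  have h1 := mul_le_mul (bb_sqrt_le x) (bb_sqrt_le y) (Real.sqrt_nonneg _) (bb_ch_pos x).le
  linarith

theorem ch_mul_le_wt (x y : SUGroup n) : ch (x * y) ≤ wt x * ch y := by
  have h := ch_mul_le x y
  have h3 := mul_le_mul_of_nonneg_left (bb_sqrt_le y) (Real.sqrt_nonneg (ch x ^ 2 - 1))
  rw [wt]
  linarith

theorem one_le_wt (x : SUGroup n) : 1 ≤ wt x := by
  have := one_le_ch x
  have := Real.sqrt_nonneg (ch x ^ 2 - 1)
  rw [wt]
  linarith

theorem wt_one : wt (1 : SUGroup n) = 1 := by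
  rw [wt, ch_one]
  norm_num

theorem wt_le (x : SUGroup n) : wt x ≤ 2 * ch x := by
  have h1 := bb_sqrt_le x
  rw [wt]
  linarith

theorem ch_le_wt (x : SUGroup n) : ch x ≤ wt x := by
  have := Real.sqrt_nonneg (ch x ^ 2 - 1)
  rw [wt]
  linarith

theorem wt_inv (x : SUGroup n) : wt x⁻¹ = wt x := by rw [wt, wt, ch_inv]

theorem wt_mul_le (x y : SUGroup n) : wt (x * y) ≤ wt x * wt y := by
  have hx := one_le_ch x
  have hy := one_le_ch y
  have hxy := one_le_ch (x * y)
  have h := ch_mul_le x y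
  have ex : 0 ≤ ch x ^ 2 - 1 := by nlinarith
  have ey : 0 ≤ ch y ^ 2 - 1 := by nlinarith
  set a : ℝ := ch x
  set b : ℝ := ch y
  set c : ℝ := ch (x * y)
  set u : ℝ := Real.sqrt (a ^ 2 - 1) with hu
  set v : ℝ := Real.sqrt (b ^ 2 - 1) with hv
  have hu0 : 0 ≤ u := Real.sqrt_nonneg _
  have hv0 : 0 ≤ v := Real.sqrt_nonneg _
  have hu2 : u ^ 2 = a ^ 2 - 1 := Real.sq_sqrt ex
  have hv2 : v ^ 2 = b ^ 2 - 1 := Real.sq_sqrt ey
  have h1 : c ^ 2 ≤ (a * b + u * v) ^ 2 := pow_le_pow_left₀ (by linarith) h 2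
  have h2 : (a * b + u * v) ^ 2 - 1 = (a * v + u * b) ^ 2 := by
    have e : (a * b + u * v) ^ 2 - (a * v + u * b) ^ 2 = (a ^ 2 - u ^ 2) * (b ^ 2 - v ^ 2) := by
      ring
    rw [hu2, hv2] at e
    linarith
  have h3 : Real.sqrt (c ^ 2 - 1) ≤ a * v + u * b := by
    rw [Real.sqrt_le_left (by positivity)]
    linarith
  show c + Real.sqrt (c ^ 2 - 1) ≤ (a + u) * (b + v)
  linarith

theorem continuous_wt : Continuous (wt (n := n)) :=
  continuous_ch.add ((continuous_ch.pow 2).sub continuous_const).sqrt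

private theorem bb_act_base (x : SUGroup n) (i : Fin (n + 1)) :
    act x (base n) i = x.toMatrix i (Fin.last n) := by
  rw [act, base, Matrix.mulVec_single_one]
  rfl

/-- `ch x = 1` on the stabiliser of the base point. -/
theorem ch_eq_one_iff (x : SUGroup n) :
    ch x = 1 ↔ ∃ c : ℂ, ‖c‖ = 1 ∧ act x (base n) = c • base n := by
  constructor
  · intro h
    refine ⟨x.toMatrix (Fin.last n) (Fin.last n), h, ?_⟩
    have h1 := sum_col x
    rw [h, one_pow, sub_self] at h1
    funext i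
    rw [bb_act_base, Pi.smul_apply, smul_eq_mul, base]
    refine Fin.lastCases ?_ (fun i => ?_) i
    · rw [Pi.single_eq_same, mul_one]
    · rw [Pi.single_eq_of_ne (Fin.castSucc_lt_last i).ne, mul_zero]
      have h2 := (Finset.sum_eq_zero_iff_of_nonneg
        (fun (i : Fin n) _ => sq_nonneg ‖x.toMatrix i.castSucc (Fin.last n)‖)).mp h1 i
          (Finset.mem_univ i)
      exact norm_eq_zero.mp (pow_eq_zero_iff (two_ne_zero) |>.mp h2)
  · rintro ⟨c, hc, h⟩
    have h1 := congrFun h (Fin.last n)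
    rw [bb_act_base, Pi.smul_apply, smul_eq_mul, base, Pi.single_eq_same, mul_one] at h1
    rw [ch, h1, hc]

/-- `ch` is invariant under the stabiliser on both sides. -/
theorem ch_mul_of_ch_eq_one {k : SUGroup n} (hk : ch k = 1) (x : SUGroup n) :
    ch (k * x) = ch x ∧ ch (x * k) = ch x := by
  constructor
  · have h1 := ch_mul_le k x
    have h2 := bb_ch_mul_ge k x
    rw [hk] at h1 h2
    simp at h1 h2
    linarith
  · have h1 := ch_mul_le x k
    have h2 := bb_ch_mul_ge x k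
    rw [hk] at h1 h2
    simp at h1 h2
    linarith

/-- All entries of `x` are bounded by `2 ch x`. -/
theorem norm_entry_le (x : SUGroup n) (i j : Fin (n + 1)) : ‖x.toMatrix i j‖ ≤ 2 * ch x := by
  have h0 := one_le_ch x
  have key : ‖x.toMatrix i j‖ ^ 2 ≤ (ch x + 1) ^ 2 := by
    have hrow : ‖x.toMatrix (Fin.last n) j‖ ^ 2 ≤ ch x ^ 2 := by
      refine Fin.lastCases ?_ (fun j => ?_) j
      · exact le_rfl
      · have h1 := sum_row x
        have := Finset.single_le_sum
          (f := fun i : Fin n => ‖x.toMatrix (Fin.last n) i.castSucc‖ ^ 2)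
          (fun i _ => sq_nonneg _) (Finset.mem_univ j)
        linarith
    refine Fin.lastCases ?_ (fun i => ?_) i
    · nlinarith
    · have h := bb_col_form x j j
      simp only [bb_star_mul_self_eq] at h
      have hJ : (J n j j).re ≤ 1 := by
        refine Fin.lastCases ?_ (fun j => ?_) j
        · rw [bb_J_last]; simp
        · rw [bb_J_castSucc]; simp
      have h' := congrArg Complex.re h
      rw [← Complex.ofReal_sum, ← Complex.ofReal_sub, Complex.ofReal_re] at h'
      have := Finset.single_le_sum (f := fun i : Fin n => ‖x.toMatrix i.castSucc j‖ ^ 2)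
          (fun i _ => sq_nonneg _) (Finset.mem_univ i)
      nlinarith
  have := le_of_sq_le_sq key (by linarith)
  linarith

/-- Closed balls are compact. -/
theorem isCompact_ball (T : ℝ) : IsCompact {x : SUGroup n | ch x ≤ T} := by
  have h1 : IsCompact (Set.pi Set.univ fun _ : Fin (n + 1) => Set.pi Set.univ fun _ : Fin (n + 1) =>
      Metric.closedBall (0 : ℂ) (2 * T)) :=
    isCompact_univ_pi fun _ => isCompact_univ_pi fun _ => isCompact_closedBall _ _
  have h2 : IsCompact ((SUGroup.toMatrix (m := n)) ⁻¹' (Set.pi Set.univ fun _ : Fin (n + 1) =>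
      Set.pi Set.univ fun _ : Fin (n + 1) => Metric.closedBall (0 : ℂ) (2 * T))) :=
    (isClosedEmbedding_toMatrix n).isCompact_preimage h1
  refine h2.of_isClosed_subset (isClosed_le continuous_ch continuous_const) ?_
  intro x hx
  have hx' : ch x ≤ T := hx
  intro i _ j _
  rw [mem_closedBall_zero_iff]
  have := norm_entry_le x i j
  linarith

end cosh

section kernel

theorem ker_orbit (s : ℕ) (g y : SUGroup n) :
    ker s (act g (base n)) (act y (base n)) = (ch (g⁻¹ * y) ^ (2 * s))⁻¹ := by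
  rw [ker, q_orbit, q_orbit, norm_herm_orbit, pow_mul, ← inv_pow]
  norm_num

theorem ker_comm (s : ℕ) (v w : Vec n) : ker s v w = ker s w v := by
  rw [ker, ker, herm_comm v w, norm_star, mul_comm (q v)]

theorem ker_act (s : ℕ) (g : SUGroup n) (v w : Vec n) :
    ker s (act g v) (act g w) = ker s v w := by
  rw [ker, ker, q_act, q_act, herm_act]

theorem ker_smul_left (s : ℕ) {c : ℂ} (hc : c ≠ 0) (v w : Vec n) :
    ker s (c • v) w = ker s v w := by
  rw [ker, ker, q_smul, herm_smul_left, norm_mul, norm_star, mul_pow, mul_assoc,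
    mul_div_mul_left _ _ (pow_ne_zero 2 (norm_ne_zero_iff.mpr hc))]

theorem ker_smul_right (s : ℕ) {c : ℂ} (hc : c ≠ 0) (v w : Vec n) :
    ker s v (c • w) = ker s v w := by
  rw [ker_comm, ker_smul_left s hc, ker_comm]

theorem ker_pos (s : ℕ) {v w : Vec n} (hv : v ∈ Cone n) (hw : w ∈ Cone n) : 0 < ker s v w := by
  have hv' : q v < 0 := hv
  have hw' : q w < 0 := hw
  rw [ker]
  exact pow_pos (div_pos (mul_pos_of_neg_of_neg hv' hw')
    (pow_pos (norm_pos_iff.mpr (herm_ne_zero hv hw)) 2)) s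

theorem ker_le_one (s : ℕ) {v w : Vec n} (hv : v ∈ Cone n) (hw : w ∈ Cone n) :
    ker s v w ≤ 1 := by
  have hv' : q v < 0 := hv
  have hw' : q w < 0 := hw
  have h := pow_pos (norm_pos_iff.mpr (herm_ne_zero hv hw)) 2
  rw [ker]
  refine pow_le_one₀ (div_nonneg (mul_pos_of_neg_of_neg hv' hw').le h.le) ?_
  rw [div_le_one h]
  exact q_mul_q_le hv hw

/-- The averaging operator on the orbit. -/
theorem P_orbit (s : ℕ) (f : Vec n → E) (g : SUGroup n) :
    P s f (act g (base n)) = ∫ x : SUGroup n, kap s x • f (act (g * x) (base n)) ∂(mu n) := by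
  rw [P, ← integral_mul_left_eq_self _ g]
  refine integral_congr_ae (Filter.Eventually.of_forall fun x => ?_)
  show (ker s (act g (base n)) (act (g * x) (base n)) / cs n s) • f (act (g * x) (base n)) = _
  rw [ker_orbit, inv_mul_cancel_left]
  rfl

end kernel

end Pool.Agent.Lib.MP_5d4057_al.HM
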