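import Pool.Agent.Lib.MP_5d4057_al.HM.Kak

namespace Pool.Agent.Lib.MP_5d4057_al.HM

open Matrix MeasureTheory Filter Topology Pool.Agent.Lib.MP_5d4057_al Pool.Agent.Lib.MP_5d4057_al.Hyb

open scoped ComplexOrder MatrixOrder Matrix.Norms.L2Operator

variable {n m : ℕ} {E : Type} [NormedAddCommGroup E] [NormedSpace ℝ E]

private theorem ball_meas (T : ℝ) : MeasurableSet {x : SUGroup n | ch x ≤ T} :=
  (isClosed_le continuous_ch continuous_const).measurableSet

private theorem ball_lt_top (T : ℝ) : mu n {x : SUGroup n | ch x ≤ T} < ⊤ :=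
  (isCompact_ball T).measure_lt_top

private theorem ball_pos (n : ℕ) : 0 < mu n {x : SUGroup n | ch x ≤ 2} := by
  have h1 : IsOpen {x : SUGroup n | ch x < 2} := isOpen_lt continuous_ch continuous_const
  have h2 : (1 : SUGroup n) ∈ {x : SUGroup n | ch x < 2} := by
    show ch (1 : SUGroup n) < 2
    rw [ch_one]
    norm_num
  exact (h1.measure_pos (mu n) ⟨1, h2⟩).trans_le (measure_mono fun x (hx : ch x < 2) => hx.le)

private theorem map_right (g : SUGroup n) :
    Measure.map (fun x => x * g) (mu n) = Measure.modularCharacterFun g • mu n := by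
  rw [Measure.modularCharacterFun_eq_haarScalarFactor (mu n)]
  exact Measure.isMulLeftInvariant_eq_smul _ _

private theorem mod_stab (k : SUGroup n) (hk : ch k = 1) : Measure.modularCharacterFun k = 1 := by
  have h : Measure.map (fun x => x * k) (mu n) {x : SUGroup n | ch x ≤ 2} =
      (Measure.modularCharacterFun k • mu n) {x : SUGroup n | ch x ≤ 2} := by rw [map_right]
  rw [Measure.map_apply (measurable_mul_const k) (ball_meas 2)] at h
  have e : (fun x => x * k) ⁻¹' {x : SUGroup n | ch x ≤ 2} = {x : SUGroup n | ch x ≤ 2} := by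
    ext x
    simp only [Set.mem_preimage, Set.mem_ofPred_eq, (ch_mul_of_ch_eq_one hk x).2]
  rw [e, Measure.smul_apply, ENNReal.smul_def, smul_eq_mul] at h
  have h1 : (Measure.modularCharacterFun k : ENNReal) * mu n {x : SUGroup n | ch x ≤ 2} =
      1 * mu n {x : SUGroup n | ch x ≤ 2} := by rw [one_mul, ← h]
  rw [ENNReal.mul_left_inj (ball_pos n).ne' (ball_lt_top 2).ne] at h1
  exact_mod_cast h1

private theorem mod_all (x : SUGroup n) : Measure.modularCharacterFun x = 1 := by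
  obtain ⟨g, a, b, ha, hb, h1, h2⟩ := exists_swap (base_mem n) (orbit_mem x)
  have hna : ‖a‖ = 1 := by
    have h := congrArg q h1
    rw [q_act, q_smul, q_orbit, q_base] at h
    have : ‖a‖ ^ 2 = 1 := by linarith
    nlinarith [norm_nonneg a]
  have hnb : ‖b‖ = 1 := by
    have h := congrArg q h2
    rw [q_act, q_smul, q_orbit, q_base] at h
    have : ‖b‖ ^ 2 = 1 := by linarith
    nlinarith [norm_nonneg b]
  have k1 : ch (x⁻¹ * g) = 1 := by
    rw [ch_eq_one_iff]
    refine ⟨a, hna, ?_⟩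
    rw [act_mul, h1, act_smul, ← act_mul, inv_mul_cancel, act_one]
  have k2 : ch (g * x) = 1 := by
    rw [ch_eq_one_iff]
    refine ⟨b, hnb, ?_⟩
    rw [act_mul, h2]
  have e : g * x = x * (x⁻¹ * g) * x := by group
  have m1 := mod_stab _ k1
  have m2 := mod_stab _ k2
  rw [e, Measure.modularCharacterFun_map_mul, Measure.modularCharacterFun_map_mul, m1,
    mul_one] at m2
  have h3 : (Measure.modularCharacterFun x) ^ 2 = 1 := by rw [pow_two, m2]
  simpa using h3

/-- `SU(n,1)` is unimodular: the modular character is `1` on the compact stabiliser and, since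
`ch x⁻¹ = ch x`, `x⁻¹ ∈ K x K`; so it is `1` everywhere. For `n = 0` the group is trivial. -/
instance (n : ℕ) : (mu n).IsMulRightInvariant :=
  ⟨fun g => by rw [map_right, mod_all, one_smul]⟩

instance (n : ℕ) : (mu n).IsInvInvariant := by
  constructor
  have hc : (mu n).inv = Measure.haarScalarFactor (mu n).inv (mu n) • mu n :=
    Measure.isMulLeftInvariant_eq_smul _ _
  have h : (mu n).inv {x : SUGroup n | ch x ≤ 2} =
      (Measure.haarScalarFactor (mu n).inv (mu n) • mu n) {x : SUGroup n | ch x ≤ 2} := by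
    rw [← hc]
  rw [Measure.inv_apply] at h
  have e : {x : SUGroup n | ch x ≤ 2}⁻¹ = {x : SUGroup n | ch x ≤ 2} := by
    ext x
    simp only [Set.mem_inv, Set.mem_ofPred_eq, ch_inv]
  rw [e, Measure.smul_apply, ENNReal.smul_def, smul_eq_mul] at h
  have h1 : (Measure.haarScalarFactor (mu n).inv (mu n) : ENNReal) *
      mu n {x : SUGroup n | ch x ≤ 2} = 1 * mu n {x : SUGroup n | ch x ≤ 2} := by
    rw [one_mul, ← h]
  rw [ENNReal.mul_left_inj (ball_pos n).ne' (ball_lt_top 2).ne] at h1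
  have h2 : Measure.haarScalarFactor (mu n).inv (mu n) = 1 := by exact_mod_cast h1
  rw [hc, h2, one_smul]

open scoped Pointwise in
private theorem prod_mem (S : Set (SUGroup n)) (l : List (SUGroup n)) (h : ∀ y ∈ l, y ∈ S) :
    l.prod ∈ S ^ l.length := by
  induction l with
  | nil => simp
  | cons a l ih =>
    rw [List.prod_cons, List.length_cons, pow_succ']
    exact Set.mul_mem_mul (h a (by simp)) (ih fun y hy => h y (by simp [hy]))

open scoped Pointwise in
private theorem pow_bound (n : ℕ) : ∃ M : ℕ, ∀ k : ℕ,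
    mu n ({x : SUGroup n | ch x ≤ 2} ^ (k + 1)) ≤
      (M : ENNReal) ^ k * mu n {x : SUGroup n | ch x ≤ 2} := by
  have hS : IsCompact {x : SUGroup n | ch x ≤ 2} := isCompact_ball 2
  obtain ⟨F, hF⟩ := (hS.mul hS).elim_finite_subcover (fun t : SUGroup n => {y | ch (y * t⁻¹) < 2})
    (fun t => isOpen_lt (continuous_ch.comp (continuous_mul_const t⁻¹)) continuous_const)
    (fun y _ => by
      refine Set.mem_iUnion.2 ⟨y, ?_⟩
      show ch (y * y⁻¹) < 2
      rw [mul_inv_cancel, ch_one]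
      norm_num)
  have step : ∀ k : ℕ, mu n ({x : SUGroup n | ch x ≤ 2} ^ (k + 1 + 1)) ≤
      (F.card : ENNReal) * mu n ({x : SUGroup n | ch x ≤ 2} ^ (k + 1)) := by
    intro k
    have h1 : {x : SUGroup n | ch x ≤ 2} ^ (k + 1 + 1) ⊆
        ⋃ t ∈ F, (fun z => z * t⁻¹) ⁻¹' ({x : SUGroup n | ch x ≤ 2} ^ (k + 1)) := by
      rw [pow_succ, pow_succ, mul_assoc]
      rintro z ⟨a, ha, b, hb, rfl⟩
      obtain ⟨t, ht, hbt⟩ := Set.mem_iUnion₂.1 (hF hb)
      refine Set.mem_iUnion₂.2 ⟨t, ht, ?_⟩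
      show a * b * t⁻¹ ∈ {x : SUGroup n | ch x ≤ 2} ^ (k + 1)
      rw [mul_assoc]
      exact Set.mul_mem_mul ha (le_of_lt (α := ℝ) hbt)
    calc _ ≤ _ := measure_mono h1
      _ ≤ ∑ t ∈ F, mu n ((fun z => z * t⁻¹) ⁻¹' ({x : SUGroup n | ch x ≤ 2} ^ (k + 1))) :=
          measure_biUnion_finset_le F _
      _ = _ := by
          rw [Finset.sum_congr rfl fun t _ => measure_preimage_mul_right (mu n) t⁻¹ _,
            Finset.sum_const, nsmul_eq_mul]
  refine ⟨F.card, fun k => ?_⟩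
  induction k with
  | zero => simp
  | succ k ih =>
    calc _ ≤ _ := step k
      _ ≤ _ := mul_le_mul_right ih _
      _ = _ := by rw [pow_succ', mul_assoc]

open scoped Pointwise in
private theorem ball_sub (hn : 1 ≤ n) {T : ℝ} {k : ℕ} (hk : 2 * T < 2 ^ (k + 1)) :
    {x : SUGroup n | ch x ≤ T} ⊆ {x : SUGroup n | ch x ≤ 2} ^ (k + 1) := by
  intro x (hx : ch x ≤ T)
  obtain ⟨l, hl, hlx, hly⟩ := exists_factor hn x (k + 1) (by omega)
  have := prod_mem {x : SUGroup n | ch x ≤ 2} l (fun y hy => by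
    have h1 := hly y hy
    have h2 : wt y ^ (k + 1) ≤ 2 ^ (k + 1) := by
      rw [h1]
      exact (wt_le x).trans ((mul_le_mul_of_nonneg_left hx (by norm_num)).trans hk.le)
    have h3 : wt y ≤ 2 := le_of_pow_le_pow_left₀ (by omega) (by norm_num) h2
    exact (ch_le_wt y).trans h3)
  rwa [hlx, hl] at this

/-- Volume growth. Let `S = {ch ≤ 2}`, `S * S ⊆ ⋃ i < M, S * t_i`, so `μ (S^(k+1)) ≤ M * μ (S^k)`, and
`{ch ≤ 2^k} ⊆ S^(c k)` by `exists_factor`. -/
theorem volume_le (n : ℕ) : ∃ (N : ℕ) (C : ℝ), ∀ T : ℝ, 1 ≤ T →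
    (mu n).real {x | ch x ≤ T} ≤ C * T ^ N := by
  rcases Nat.eq_zero_or_pos n with h0 | hn
  · subst h0
    refine ⟨0, (mu 0).real {x | ch x ≤ 1}, fun T hT => ?_⟩
    rw [pow_zero, mul_one]
    refine measureReal_mono (fun x _ => ?_) (ball_lt_top 1).ne
    have h := sum_col x
    simp only [Finset.univ_eq_empty, Finset.sum_empty] at h
    have h1 := one_le_ch x
    show ch x ≤ 1
    nlinarith
  · obtain ⟨M, hM⟩ := pow_bound n
    refine ⟨M, 2 ^ M * (mu n).real {x | ch x ≤ 2}, fun T hT => ?_⟩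
    obtain ⟨k, hk1, hk2⟩ := exists_nat_pow_near (x := 2 * T) (y := (2 : ℝ)) (by linarith)
      (by norm_num)
    have hlt : (M : ENNReal) ^ k * mu n {x : SUGroup n | ch x ≤ 2} < ⊤ :=
      ENNReal.mul_lt_top (by simp) (ball_lt_top 2)
    have h1 : (mu n).real {x | ch x ≤ T} ≤ (M : ℝ) ^ k * (mu n).real {x | ch x ≤ 2} := by
      have h2 := (measure_mono (ball_sub hn hk2)).trans (hM k)
      have h3 := ENNReal.toReal_mono hlt.ne h2
      rw [ENNReal.toReal_mul, ENNReal.toReal_pow, ENNReal.toReal_natCast] at h3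
      exact h3
    have h4 : (M : ℝ) ^ k ≤ 2 ^ M * T ^ M := by
      have h5 : (M : ℝ) ≤ 2 ^ M := by exact_mod_cast Nat.lt_two_pow_self.le
      calc (M : ℝ) ^ k ≤ (2 ^ M) ^ k := pow_le_pow_left₀ (by positivity) h5 k
        _ = (2 ^ k) ^ M := by rw [← pow_mul, ← pow_mul, mul_comm]
        _ ≤ (2 * T) ^ M := pow_le_pow_left₀ (by positivity) hk1 M
        _ = _ := by rw [mul_pow]
    have h6 : 0 ≤ (mu n).real {x : SUGroup n | ch x ≤ 2} := measureReal_nonneg
    calc _ ≤ _ := h1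
      _ ≤ (2 ^ M * T ^ M) * (mu n).real {x | ch x ≤ 2} := mul_le_mul_of_nonneg_right h4 h6
      _ = _ := by ring

private theorem cont_inv (s : ℕ) : Continuous fun x : SUGroup n => (ch x ^ (2 * s))⁻¹ := by
  refine (continuous_ch.pow _).inv₀ fun x => ?_
  exact (pow_pos (lt_of_lt_of_le one_pos (one_le_ch x)) _).ne'

/-- Integrability of the kernel. -/
theorem integrable_ch (n : ℕ) : ∃ s₀ : ℕ, ∀ s, s₀ ≤ s →
    Integrable (fun x : SUGroup n => (ch x ^ (2 * s))⁻¹) (mu n) := by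
  obtain ⟨N, C, hC⟩ := volume_le n
  have hC0 : 0 ≤ C := by
    have := hC 1 le_rfl
    rw [one_pow, mul_one] at this
    exact measureReal_nonneg.trans this
  refine ⟨N + 1, fun s hs => ⟨(cont_inv s).aestronglyMeasurable, ?_⟩⟩
  have hmeas : ∀ k : ℕ, Measurable (fun x : SUGroup n =>
      Set.indicator {x : SUGroup n | ch x ≤ 2 ^ (k + 1)}
        (fun _ => ENNReal.ofReal ((2 ^ k) ^ (2 * s))⁻¹) x) :=
    fun k => measurable_const.indicator (ball_meas _)
  have h1 : ∀ x : SUGroup n, ‖(ch x ^ (2 * s))⁻¹‖ₑ ≤ ∑' k : ℕ,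
      Set.indicator {x : SUGroup n | ch x ≤ 2 ^ (k + 1)}
        (fun _ => ENNReal.ofReal ((2 ^ k) ^ (2 * s))⁻¹) x := by
    intro x
    have hx := one_le_ch x
    have hx0 : 0 < ch x := lt_of_lt_of_le one_pos hx
    obtain ⟨k, hk1, hk2⟩ := exists_nat_pow_near hx (show (1 : ℝ) < 2 by norm_num)
    refine le_trans ?_ (ENNReal.le_tsum k)
    rw [Set.indicator_of_mem (show x ∈ {x : SUGroup n | ch x ≤ 2 ^ (k + 1)} from hk2.le),
      Real.enorm_eq_ofReal (by positivity)]
    refine ENNReal.ofReal_le_ofReal ?_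
    exact inv_anti₀ (by positivity) (pow_le_pow_left₀ (by positivity) hk1 _)
  rw [hasFiniteIntegral_def]
  refine lt_of_le_of_lt (lintegral_mono h1) ?_
  rw [lintegral_tsum fun k => (hmeas k).aemeasurable]
  have h2 : ∀ k : ℕ, ∫⁻ x : SUGroup n, Set.indicator {x : SUGroup n | ch x ≤ 2 ^ (k + 1)}
      (fun _ => ENNReal.ofReal ((2 ^ k) ^ (2 * s))⁻¹) x ∂(mu n) ≤
      ENNReal.ofReal (C * 2 ^ N * (1 / 2) ^ k) := by
    intro k
    rw [lintegral_indicator (ball_meas _), setLIntegral_const,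
      ← ENNReal.ofReal_toReal (ball_lt_top (n := n) (2 ^ (k + 1))).ne,
      ← ENNReal.ofReal_mul (by positivity)]
    refine ENNReal.ofReal_le_ofReal ?_
    have h3 := hC (2 ^ (k + 1)) (one_le_pow₀ (by norm_num))
    calc _ ≤ ((2 ^ k) ^ (2 * s))⁻¹ * (C * (2 ^ (k + 1)) ^ N) :=
          mul_le_mul_of_nonneg_left h3 (by positivity)
      _ = C * 2 ^ N * ((2 ^ k) ^ N * ((2 ^ k) ^ (2 * s))⁻¹) := by
          rw [pow_succ, mul_pow]
          ring
      _ ≤ _ := by
          refine mul_le_mul_of_nonneg_left ?_ (by positivity)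
          rw [one_div, inv_pow, ← div_eq_mul_inv, div_le_iff₀ (by positivity), inv_mul_eq_div,
            le_div_iff₀ (by positivity), ← pow_succ]
          exact pow_le_pow_right₀ (one_le_pow₀ (by norm_num)) (by omega)
  refine lt_of_le_of_lt (ENNReal.tsum_le_tsum h2) ?_
  have hsum : Summable fun k : ℕ => C * 2 ^ N * (1 / 2 : ℝ) ^ k :=
    (summable_geometric_of_lt_one (by norm_num) (by norm_num)).mul_left _
  rw [← ENNReal.ofReal_tsum_of_nonneg (fun k => by positivity) hsum]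
  exact ENNReal.ofReal_lt_top

theorem cs_pos (n : ℕ) : ∃ s₀ : ℕ, ∀ s, s₀ ≤ s → 0 < cs n s := by
  obtain ⟨s₀, hs₀⟩ := integrable_ch n
  refine ⟨s₀, fun s hs => ?_⟩
  have hpos : ∀ x : SUGroup n, 0 < (ch x ^ (2 * s))⁻¹ := fun x => by
    have : 0 < ch x := lt_of_lt_of_le one_pos (one_le_ch x)
    positivity
  rw [cs, integral_pos_iff_support_of_nonneg (fun x => (hpos x).le) (hs₀ s hs)]
  have h1 : Function.support (fun x : SUGroup n => (ch x ^ (2 * s))⁻¹) = Set.univ := by
    ext x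
    simp only [Function.mem_support, Set.mem_univ, iff_true]
    exact (hpos x).ne'
  rw [h1]
  exact (ball_pos n).trans_le (measure_mono (Set.subset_univ _))

end Pool.Agent.Lib.MP_5d4057_al.HM
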