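import Pool.Agent.Lib.MP_5d4057_al.HM.LapKer
import Pool.Agent.Lib.MP_5d4057_al.HM.Haar
import Pool.Agent.Lib.MP_5d4057_al.HM.Param

/-! The averaging operators as integrals with a smooth kernel and a compact parameter space. -/

namespace Pool.Agent.Lib.MP_5d4057_al.HM

open Matrix MeasureTheory Filter Topology Pool.Agent.Lib.MP_5d4057_al Pool.Agent.Lib.MP_5d4057_al.Hyb

open scoped ComplexOrder MatrixOrder Matrix.Norms.L2Operator

variable {n m : ℕ} {E : Type} [NormedAddCommGroup E] [NormedSpace ℝ E]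

/-- The vector `(z, 1)`. -/
def pt (z : Fin n → ℂ) : Vec n := Fin.snoc (α := fun _ => ℂ) z 1

/-- The closed unit ball. -/
def zball (n : ℕ) : Set (Fin n → ℂ) := {z | ∑ i, ‖z i‖ ^ 2 ≤ 1}

@[simp] theorem pt_castSucc (z : Fin n → ℂ) (i : Fin n) : pt z i.castSucc = z i := by
  simp [pt]

@[simp] theorem pt_last (z : Fin n → ℂ) : pt z (Fin.last n) = 1 := by
  simp [pt]

theorem pt_ne_zero (z : Fin n → ℂ) : pt z ≠ 0 := by
  intro h
  have := congrFun h (Fin.last n)
  simp at this

theorem q_pt (z : Fin n → ℂ) : q (pt z) = ∑ i, ‖z i‖ ^ 2 - 1 := by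
  rw [q_eq]
  simp

theorem isCompact_zball (n : ℕ) : IsCompact (zball n) := by
  have h1 : IsCompact (Metric.closedBall (0 : Fin n → ℂ) 1) := isCompact_closedBall _ _
  refine h1.of_isClosed_subset ?_ fun z hz => ?_
  · exact isClosed_le (by fun_prop) continuous_const
  · rw [mem_closedBall_zero_iff, pi_norm_le_iff_of_nonneg zero_le_one]
    intro i
    have h2 : ‖z i‖ ^ 2 ≤ 1 :=
      (Finset.single_le_sum (f := fun i : Fin n => ‖z i‖ ^ 2) (fun i _ => sq_nonneg _)
        (Finset.mem_univ i)).trans hz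
    exact (sq_le_one_iff₀ (norm_nonneg _)).1 h2

theorem herm_pt_ne_zero {v : Vec n} (hv : v ∈ Cone n) {z : Fin n → ℂ} (hz : z ∈ zball n) :
    herm v (pt z) ≠ 0 := by
  intro h
  have h1 := q_pos_of_orth hv h (pt_ne_zero z)
  rw [q_pt] at h1
  have h2 : ∑ i, ‖z i‖ ^ 2 ≤ 1 := hz
  linarith

theorem toMatrix_last_ne_zero (y : SUGroup n) : y.toMatrix (Fin.last n) (Fin.last n) ≠ 0 := by
  intro h
  have h1 := one_le_ch y
  rw [ch, h, norm_zero] at h1
  linarith

theorem act_base_apply (y : SUGroup n) (i : Fin (n + 1)) :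
    act y (base n) i = y.toMatrix i (Fin.last n) := by
  simp [act, base, Matrix.mulVec_single]

theorem act_base_eq (y : SUGroup n) :
    act y (base n) = y.toMatrix (Fin.last n) (Fin.last n) • pt (zc y) := by
  ext i
  rw [act_base_apply, Pi.smul_apply, smul_eq_mul]
  have h := toMatrix_last_ne_zero y
  refine Fin.lastCases ?_ (fun i => ?_) i
  · simp
  · rw [pt_castSucc, zc, mul_div_cancel₀ _ h]

theorem zc_mem (y : SUGroup n) : zc y ∈ zball n := by
  have h1 : q (act y (base n)) = -1 := q_orbit y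
  rw [act_base_eq, q_smul, q_pt] at h1
  have h2 : 0 < ‖y.toMatrix (Fin.last n) (Fin.last n)‖ ^ 2 := by
    have := toMatrix_last_ne_zero y
    positivity
  show ∑ i, ‖zc y i‖ ^ 2 ≤ 1
  by_contra h
  have h3 : 0 < ∑ i, ‖zc y i‖ ^ 2 - 1 := by linarith
  have := mul_pos h2 h3
  linarith

theorem continuous_zcv : Continuous fun y : SUGroup n => zc y := by
  refine continuous_pi fun j => ?_
  have h := continuous_toMatrix n
  exact (h.matrix_elem _ _).div (h.matrix_elem _ _) fun y => toMatrix_last_ne_zero y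

/-- The kernel on the cone times the closed ball. -/
noncomputable def KPhi (s : ℕ) (v : Vec n) (z : Fin n → ℂ) : ℝ := (-q v / ‖herm v (pt z)‖ ^ 2) ^ s

theorem ker_eq_KPhi (s : ℕ) (v : Vec n) (y : SUGroup n) :
    ker s v (act y (base n)) = KPhi s v (zc y) * (ch y ^ (2 * s))⁻¹ := by
  rw [ker, q_orbit, act_base_eq, herm_smul_right, norm_mul, KPhi]
  have h : ch y = ‖y.toMatrix (Fin.last n) (Fin.last n)‖ := rfl
  rw [← h]
  have hc : ch y ≠ 0 := by linarith [one_le_ch y]
  rw [pow_mul, ← inv_pow, ← mul_pow]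
  congr 1
  rw [mul_pow]
  by_cases h0 : ‖herm v (pt (zc y))‖ = 0
  · simp [h0]
  · field_simp

theorem contDiff_herm : ContDiff ℝ (⊤ : ℕ∞) fun p : Vec n × Vec n => herm p.1 p.2 := by
  simp only [herm_eq]
  have hc : ContDiff ℝ (⊤ : ℕ∞) (fun z : ℂ => star z) := Complex.conjCLE.contDiff
  have h1 : ∀ i, ContDiff ℝ (⊤ : ℕ∞) fun p : Vec n × Vec n => star (p.1 i) * p.2 i := by
    intro i
    exact (hc.comp ((contDiff_apply ℝ ℂ i).comp contDiff_fst)).mul
      ((contDiff_apply ℝ ℂ i).comp contDiff_snd)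
  exact (ContDiff.sum fun i _ => h1 _).sub (h1 _)

theorem contDiff_q : ContDiff ℝ (⊤ : ℕ∞) fun v : Vec n => q v := by
  have h1 : ContDiff ℝ (⊤ : ℕ∞) fun v : Vec n => herm v v :=
    contDiff_herm.comp (contDiff_id.prodMk contDiff_id)
  exact Complex.reCLM.contDiff.comp h1

theorem contDiff_pt : ContDiff ℝ (⊤ : ℕ∞) fun z : Fin n → ℂ => pt z := by
  rw [contDiff_pi]
  intro i
  refine Fin.lastCases ?_ (fun i => ?_) i
  · simp only [pt_last]
    exact contDiff_const
  · simp only [pt_castSucc]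
    exact contDiff_apply ℝ ℂ i

/-- The domain of smoothness. -/
def Om (n : ℕ) : Set (Vec n × (Fin n → ℂ)) := {p | herm p.1 (pt p.2) ≠ 0}

theorem contDiff_herm_pt : ContDiff ℝ (⊤ : ℕ∞) fun p : Vec n × (Fin n → ℂ) => herm p.1 (pt p.2) :=
  contDiff_herm.comp (contDiff_fst.prodMk (contDiff_pt.comp contDiff_snd))

theorem isOpen_Om (n : ℕ) : IsOpen (Om n) :=
  isOpen_ne_fun contDiff_herm_pt.continuous continuous_const

theorem cone_prod_subset (n : ℕ) : Cone n ×ˢ zball n ⊆ Om n := fun _ hp =>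
  herm_pt_ne_zero hp.1 hp.2

theorem contDiffOn_KPhi (s : ℕ) :
    ContDiffOn ℝ (⊤ : ℕ∞) (Function.uncurry (KPhi (n := n) s)) (Om n) := by
  have h1 : ContDiff ℝ (⊤ : ℕ∞) fun p : Vec n × (Fin n → ℂ) => ‖herm p.1 (pt p.2)‖ ^ 2 :=
    (contDiff_norm_sq ℝ).comp contDiff_herm_pt
  have h2 : ContDiff ℝ (⊤ : ℕ∞) fun p : Vec n × (Fin n → ℂ) => -q p.1 :=
    (contDiff_q.comp contDiff_fst).neg
  refine ContDiffOn.pow (ContDiffOn.div h2.contDiffOn h1.contDiffOn fun p hp => ?_) s
  have : herm p.1 (pt p.2) ≠ 0 := hp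
  positivity

/-- The weight. -/
noncomputable def wgt (s : ℕ) (f : Vec n → E) (y : SUGroup n) : E :=
  ((ch y ^ (2 * s))⁻¹ / cs n s) • f (act y (base n))

theorem P_eq (s : ℕ) (f : Vec n → E) (v : Vec n) :
    P s f v = ∫ y : SUGroup n, ContinuousLinearMap.lsmul ℝ ℝ (KPhi s v (zc y)) (wgt s f y) ∂(mu n) := by
  rw [P]
  refine integral_congr_ae (Eventually.of_forall fun y => ?_)
  simp only [ContinuousLinearMap.lsmul_apply, wgt, smul_smul, ker_eq_KPhi]
  congr 1
  ring

private theorem ch_pos' (x : SUGroup n) : 0 < ch x := lt_of_lt_of_le one_pos (one_le_ch x)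

theorem integrable_pow_of_le {s t : ℕ} (h : s ≤ t)
    (hs : Integrable (fun x : SUGroup n => (ch x ^ (2 * s))⁻¹) (mu n)) :
    Integrable (fun x : SUGroup n => (ch x ^ (2 * t))⁻¹) (mu n) := by
  refine hs.mono' ?_ (Eventually.of_forall fun x => ?_)
  · have hc : Continuous fun x : SUGroup n => (ch x ^ (2 * t))⁻¹ :=
      (continuous_ch.pow _).inv₀ fun x => pow_ne_zero _ (ch_pos' x).ne'
    exact hc.aestronglyMeasurable
  · have h1 := one_le_ch x
    rw [Real.norm_of_nonneg (by positivity)]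
    exact inv_anti₀ (by positivity) (pow_le_pow_right₀ h1 (by omega))

theorem integrable_wgt {s N : ℕ} {C : ℝ} {f : Vec n → E} (hf : Adm N C f) (hN : N ≤ s)
    (hs : Integrable (fun x : SUGroup n => (ch x ^ (2 * (s - N)))⁻¹) (mu n)) :
    Integrable (wgt s f) (mu n) := by
  refine Integrable.mono' (g := fun y => (C / |cs n s|) * (ch y ^ (2 * (s - N)))⁻¹)
    (hs.const_mul _) ?_ (Eventually.of_forall fun y => ?_)
  · have hc : Continuous fun x : SUGroup n => (ch x ^ (2 * s))⁻¹ / cs n s :=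
      ((continuous_ch.pow _).inv₀ fun x => pow_ne_zero _ (ch_pos' x).ne').div_const _
    exact hc.aestronglyMeasurable.smul hf.meas
  · have h1 := one_le_ch y
    have h0 : 0 < ch y := by linarith
    rw [wgt, norm_smul, norm_div, Real.norm_of_nonneg (by positivity), Real.norm_eq_abs]
    have e : (ch y ^ (2 * (s - N)))⁻¹ = (ch y ^ (2 * s))⁻¹ * ch y ^ (2 * N) := by
      have : ch y ^ (2 * s) = ch y ^ (2 * (s - N)) * ch y ^ (2 * N) := by
        rw [← pow_add]
        congr 1
        omega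
      rw [this]
      field_simp
    rw [e]
    calc (ch y ^ (2 * s))⁻¹ / |cs n s| * ‖f (act y (base n))‖
        ≤ (ch y ^ (2 * s))⁻¹ / |cs n s| * (C * ch y ^ (2 * N)) := by
          gcongr
          exact hf.bound y
      _ = _ := by ring

theorem contDiffOn_P_of {s : ℕ} {f : Vec n → E} (hi : Integrable (wgt s f) (mu n)) :
    ContDiffOn ℝ (⊤ : ℕ∞) (P s f) (Cone n) := by
  have h := contDiffOn_param (ContinuousLinearMap.lsmul ℝ ℝ) (isOpen_cone n) (isOpen_Om n)
    (isCompact_zball n) (cone_prod_subset n) (contDiffOn_KPhi s)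
    (continuous_zcv (n := n)).aemeasurable (zc_mem (n := n)) hi
  exact h.congr fun v _ => P_eq s f v

theorem fderiv_P_apply_of {s : ℕ} {f : Vec n → E} (hi : Integrable (wgt s f) (mu n)) {v : Vec n}
    (hv : v ∈ Cone n) (ξ : Vec n) : fderiv ℝ (P s f) v ξ =
      ∫ y : SUGroup n, (fderiv ℝ (fun v => ker s v (act y (base n))) v ξ / cs n s) •
        f (act y (base n)) ∂(mu n) := by
  have h0 : P s f = fun v => ∫ y : SUGroup n,
      ContinuousLinearMap.lsmul ℝ ℝ (KPhi s v (zc y)) (wgt s f y) ∂(mu n) := funext (P_eq s f)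
  rw [h0, fderiv_param_apply (ContinuousLinearMap.lsmul ℝ ℝ) (isOpen_cone n) (isOpen_Om n)
    (isCompact_zball n) (cone_prod_subset n)
    ((contDiffOn_KPhi s).of_le (by exact_mod_cast (le_top : ((1 : ℕ) : ℕ∞) ≤ ⊤)))
    (continuous_zcv (n := n)).aemeasurable (zc_mem (n := n)) hi hv]
  refine integral_congr_ae (Eventually.of_forall fun y => ?_)
  simp only [ContinuousLinearMap.lsmul_apply, wgt, smul_smul]
  congr 1
  have h1 : (fun v => ker s v (act y (base n))) =
      (ch y ^ (2 * s))⁻¹ • fun v => KPhi s v (zc y) := by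
    funext v
    rw [ker_eq_KPhi, Pi.smul_apply, smul_eq_mul, mul_comm]
  rw [h1, fderiv_const_smul_field]
  simp only [_root_.smul_apply, Pi.smul_apply, smul_eq_mul]
  ring

theorem fderiv_fderiv_P_apply_of {s : ℕ} {f : Vec n → E} (hi : Integrable (wgt s f) (mu n))
    {v : Vec n} (hv : v ∈ Cone n) (ξ η : Vec n) : fderiv ℝ (fderiv ℝ (P s f)) v ξ η =
      ∫ y : SUGroup n, (fderiv ℝ (fderiv ℝ (fun v => ker s v (act y (base n)))) v ξ η / cs n s) •
        f (act y (base n)) ∂(mu n) := by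
  have h0 : P s f = fun v => ∫ y : SUGroup n,
      ContinuousLinearMap.lsmul ℝ ℝ (KPhi s v (zc y)) (wgt s f y) ∂(mu n) := funext (P_eq s f)
  rw [h0, fderiv_fderiv_param_apply (ContinuousLinearMap.lsmul ℝ ℝ) (isOpen_cone n) (isOpen_Om n)
    (isCompact_zball n) (cone_prod_subset n)
    ((contDiffOn_KPhi s).of_le (WithTop.coe_le_coe.2 (le_top : (2 : ℕ∞) ≤ ⊤)))
    (continuous_zcv (n := n)).aemeasurable (zc_mem (n := n)) hi hv]
  refine integral_congr_ae (Eventually.of_forall fun y => ?_)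
  simp only [ContinuousLinearMap.lsmul_apply, wgt, smul_smul]
  congr 1
  have h1 : (fun v => ker s v (act y (base n))) =
      (ch y ^ (2 * s))⁻¹ • fun v => KPhi s v (zc y) := by
    funext v
    rw [ker_eq_KPhi, Pi.smul_apply, smul_eq_mul, mul_comm]
  have h2 : fderiv ℝ (fun v => ker s v (act y (base n))) =
      (ch y ^ (2 * s))⁻¹ • fderiv ℝ fun v => KPhi s v (zc y) := by
    funext v
    rw [h1, fderiv_const_smul_field, Pi.smul_apply]
  have h3 := fderiv_const_smul_field (𝕜 := ℝ) (f := fderiv ℝ fun v => KPhi s v (zc y))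
    ((ch y ^ (2 * s))⁻¹)
  rw [h2, h3]
  simp only [_root_.smul_apply, Pi.smul_apply, smul_eq_mul]
  ring

theorem integrable_fderiv_fderiv_P_of {s : ℕ} {f : Vec n → E} (hi : Integrable (wgt s f) (mu n))
    {v : Vec n} (hv : v ∈ Cone n) (ξ η : Vec n) : Integrable (fun y : SUGroup n =>
      (fderiv ℝ (fderiv ℝ (fun v => ker s v (act y (base n)))) v ξ η / cs n s) •
        f (act y (base n))) (mu n) := by
  have h := integrable_fderiv_fderiv_param (ContinuousLinearMap.lsmul ℝ ℝ) (isOpen_cone n)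
    (isOpen_Om n) (isCompact_zball n) (cone_prod_subset n)
    ((contDiffOn_KPhi s).of_le (WithTop.coe_le_coe.2 (le_top : (2 : ℕ∞) ≤ ⊤)))
    (continuous_zcv (n := n)).aemeasurable (zc_mem (n := n)) hi hv ξ η
  refine h.congr (Eventually.of_forall fun y => ?_)
  simp only [ContinuousLinearMap.lsmul_apply, wgt, smul_smul]
  congr 1
  have h1 : (fun v => ker s v (act y (base n))) =
      (ch y ^ (2 * s))⁻¹ • fun v => KPhi s v (zc y) := by
    funext v
    rw [ker_eq_KPhi, Pi.smul_apply, smul_eq_mul, mul_comm]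
  have h2 : fderiv ℝ (fun v => ker s v (act y (base n))) =
      (ch y ^ (2 * s))⁻¹ • fderiv ℝ fun v => KPhi s v (zc y) := by
    funext v
    rw [h1, fderiv_const_smul_field, Pi.smul_apply]
  have h3 := fderiv_const_smul_field (𝕜 := ℝ) (f := fderiv ℝ fun v => KPhi s v (zc y))
    ((ch y ^ (2 * s))⁻¹)
  rw [h2, h3]
  simp only [_root_.smul_apply, Pi.smul_apply, smul_eq_mul]
  ring

theorem integrable_P_of {s : ℕ} {f : Vec n → E} (hi : Integrable (wgt s f) (mu n))
    {v : Vec n} (hv : v ∈ Cone n) : Integrable (fun y : SUGroup n =>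
      (ker s v (act y (base n)) / cs n s) • f (act y (base n))) (mu n) := by
  have h := integrable_param (ContinuousLinearMap.lsmul ℝ ℝ) (isOpen_cone n)
    (isOpen_Om n) (isCompact_zball n) (cone_prod_subset n)
    (contDiffOn_KPhi s).continuousOn (continuous_zcv (n := n)).aemeasurable (zc_mem (n := n)) hi hv
  refine h.congr (Eventually.of_forall fun y => ?_)
  simp only [ContinuousLinearMap.lsmul_apply, wgt, smul_smul, ker_eq_KPhi]
  congr 1
  ring

theorem integrable_fderiv_P_of {s : ℕ} {f : Vec n → E} (hi : Integrable (wgt s f) (mu n))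
    {v : Vec n} (hv : v ∈ Cone n) (ξ : Vec n) : Integrable (fun y : SUGroup n =>
      (fderiv ℝ (fun v => ker s v (act y (base n))) v ξ / cs n s) •
        f (act y (base n))) (mu n) := by
  have h := integrable_fderiv_param (ContinuousLinearMap.lsmul ℝ ℝ) (isOpen_cone n)
    (isOpen_Om n) (isCompact_zball n) (cone_prod_subset n)
    ((contDiffOn_KPhi s).of_le (by exact_mod_cast (le_top : ((1 : ℕ) : ℕ∞) ≤ ⊤)))
    (continuous_zcv (n := n)).aemeasurable (zc_mem (n := n)) hi hv ξ
  refine h.congr (Eventually.of_forall fun y => ?_)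
  simp only [ContinuousLinearMap.lsmul_apply, wgt, smul_smul]
  congr 1
  have h1 : (fun v => ker s v (act y (base n))) =
      (ch y ^ (2 * s))⁻¹ • fun v => KPhi s v (zc y) := by
    funext v
    rw [ker_eq_KPhi, Pi.smul_apply, smul_eq_mul, mul_comm]
  rw [h1, fderiv_const_smul_field]
  simp only [_root_.smul_apply, Pi.smul_apply, smul_eq_mul]
  ring

/-- The Laplacian under the integral sign. -/
theorem lap_P_integral {s : ℕ} {f : Vec n → E} (hi : Integrable (wgt s f) (mu n)) {v : Vec n}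
    (hv : v ∈ Cone n) : Lap (P s f) v =
      ∫ y : SUGroup n, (Lap (fun v => ker s v (act y (base n))) v / cs n s) •
        f (act y (base n)) ∂(mu n) := by
  rw [Lap]
  simp only [fderiv_fderiv_P_apply_of hi hv]
  have h1 : ∀ i : Fin (n + 1), Integrable (fun y : SUGroup n => (J n i i).re •
      ((fderiv ℝ (fderiv ℝ (fun v => ker s v (act y (base n)))) v (Pi.single i 1)
          (Pi.single i 1) / cs n s) • f (act y (base n)) +
        (fderiv ℝ (fderiv ℝ (fun v => ker s v (act y (base n)))) v (Pi.single i Complex.I)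
          (Pi.single i Complex.I) / cs n s) • f (act y (base n)))) (mu n) := fun i =>
    ((integrable_fderiv_fderiv_P_of hi hv _ _).add
      (integrable_fderiv_fderiv_P_of hi hv _ _)).smul _
  have h2 : ∀ i : Fin (n + 1), (J n i i).re •
      (∫ y : SUGroup n, (fderiv ℝ (fderiv ℝ (fun v => ker s v (act y (base n)))) v (Pi.single i 1)
          (Pi.single i 1) / cs n s) • f (act y (base n)) ∂(mu n) +
        ∫ y : SUGroup n, (fderiv ℝ (fderiv ℝ (fun v => ker s v (act y (base n)))) v
          (Pi.single i Complex.I) (Pi.single i Complex.I) / cs n s) • f (act y (base n)) ∂(mu n)) =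
      ∫ y : SUGroup n, (J n i i).re •
      ((fderiv ℝ (fderiv ℝ (fun v => ker s v (act y (base n)))) v (Pi.single i 1)
          (Pi.single i 1) / cs n s) • f (act y (base n)) +
        (fderiv ℝ (fderiv ℝ (fun v => ker s v (act y (base n)))) v (Pi.single i Complex.I)
          (Pi.single i Complex.I) / cs n s) • f (act y (base n))) ∂(mu n) := fun i => by
    rw [integral_smul, integral_add (integrable_fderiv_fderiv_P_of hi hv _ _)
      (integrable_fderiv_fderiv_P_of hi hv _ _)]
  rw [Finset.sum_congr rfl fun i _ => h2 i, ← integral_finsetSum _ fun i _ => h1 i,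
    ← integral_smul]
  refine integral_congr_ae (Eventually.of_forall fun y => ?_)
  simp only [Lap]
  have h3 : ∀ i : Fin (n + 1), (J n i i).re •
      ((fderiv ℝ (fderiv ℝ (fun v => ker s v (act y (base n)))) v (Pi.single i 1)
          (Pi.single i 1) / cs n s) • f (act y (base n)) +
        (fderiv ℝ (fderiv ℝ (fun v => ker s v (act y (base n)))) v (Pi.single i Complex.I)
          (Pi.single i Complex.I) / cs n s) • f (act y (base n))) =
      (((J n i i).re • (fderiv ℝ (fderiv ℝ (fun v => ker s v (act y (base n)))) v (Pi.single i 1)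
          (Pi.single i 1) +
        fderiv ℝ (fderiv ℝ (fun v => ker s v (act y (base n)))) v (Pi.single i Complex.I)
          (Pi.single i Complex.I))) / cs n s) • f (act y (base n)) := fun i => by
    rw [← add_smul, smul_smul]
    congr 1
    rw [smul_eq_mul]
    ring
  rw [Finset.sum_congr rfl fun i _ => h3 i, ← Finset.sum_smul, smul_smul]
  congr 1
  rw [← Finset.sum_div, smul_eq_mul]
  ring

theorem lap_P_of {s : ℕ} {f : Vec n → E} (hi : Integrable (wgt s f) (mu n))
    (hi' : Integrable (wgt (s + 1) f) (mu n)) (h0 : cs n s ≠ 0)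
    (h1 : cs n (s + 1) ≠ 0) (hcs : (s : ℝ) * cs n (s + 1) = (s - n) * cs n s) {v : Vec n}
    (hv : v ∈ Cone n) : Lap (P s f) v = lam n s • (P s f v - P (s + 1) f v) := by
  rw [lap_P_integral hi hv, P, P, ← integral_sub (integrable_P_of hi hv) (integrable_P_of hi' hv),
    ← integral_smul]
  refine integral_congr_ae (Eventually.of_forall fun y => ?_)
  simp only
  rw [lap_ker s hv (orbit_mem y), ← sub_smul, smul_smul]
  congr 1
  rw [lam]
  have key : (s : ℝ) ^ 2 * cs n (s + 1) = (s * (s - n)) * cs n s := by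
    calc (s : ℝ) ^ 2 * cs n (s + 1) = s * (s * cs n (s + 1)) := by ring
      _ = s * ((s - n) * cs n s) := by rw [hcs]
      _ = _ := by ring
  have e : (s : ℝ) ^ 2 / cs n s = (s * (s - n)) / cs n (s + 1) := by
    rw [div_eq_div_iff h0 h1]
    linear_combination key
  calc ((s : ℝ) * (s - n) * ker s v (act y (base n)) - (s : ℝ) ^ 2 * ker (s + 1) v (act y (base n))) /
        cs n s = (s : ℝ) * (s - n) * (ker s v (act y (base n)) / cs n s) -
          (s : ℝ) ^ 2 / cs n s * ker (s + 1) v (act y (base n)) := by ring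
    _ = _ := by
      rw [e]
      ring

end Pool.Agent.Lib.MP_5d4057_al.HM
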