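import Pool.Agent.Lib.MP_5d4057_al.HM.AppHarm

/-! Section F: the standard metric. -/

set_option autoImplicit false

namespace Pool.Agent.Lib.MP_5d4057_al.HM

open Matrix Filter Topology Pool.Agent.Lib.MP_5d4057_al Pool.Agent.Lib.MP_5d4057_al.Hyb

open scoped ComplexOrder MatrixOrder Matrix.Norms.L2Operator

variable {n m : ℕ}

/-- Continuous version of a bilinear map. -/
noncomputable def toBil {V₁ V₂ V₃ : Type} [NormedAddCommGroup V₁] [NormedSpace ℂ V₁]
    [FiniteDimensional ℂ V₁] [NormedAddCommGroup V₂] [NormedSpace ℂ V₂] [FiniteDimensional ℂ V₂]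
    [NormedAddCommGroup V₃] [NormedSpace ℂ V₃] (B : V₁ →ₗ[ℂ] V₂ →ₗ[ℂ] V₃) :
    V₁ →L[ℂ] V₂ →L[ℂ] V₃ :=
  LinearMap.toContinuousLinearMap
    ((LinearMap.toContinuousLinearMap : (V₂ →ₗ[ℂ] V₃) ≃ₗ[ℂ] (V₂ →L[ℂ] V₃)).toLinearMap ∘ₗ B)

theorem toBil_apply {V₁ V₂ V₃ : Type} [NormedAddCommGroup V₁] [NormedSpace ℂ V₁]
    [FiniteDimensional ℂ V₁] [NormedAddCommGroup V₂] [NormedSpace ℂ V₂] [FiniteDimensional ℂ V₂]
    [NormedAddCommGroup V₃] [NormedSpace ℂ V₃] (B : V₁ →ₗ[ℂ] V₂ →ₗ[ℂ] V₃) (u : V₁) (w : V₂) :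
    toBil B u w = B u w := rfl

/-- `u w^T` as a bilinear map. -/
noncomputable def vmL (n : ℕ) : Vec n →L[ℂ] Vec n →L[ℂ] Mat (n + 1) :=
  toBil (LinearMap.mk₂ ℂ (fun u w : Vec n => vecMulVec u w)
    (fun u u' w => by ext i j; simp [vecMulVec_apply, add_mul])
    (fun c u w => by ext i j; simp [vecMulVec_apply, mul_assoc])
    (fun u w w' => by ext i j; simp [vecMulVec_apply, mul_add])
    (fun c u w => by ext i j; simp [vecMulVec_apply]; ring))

theorem vmL_apply (u w : Vec n) : vmL n u w = vecMulVec u w := rfl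

/-- the bilinear form `u^T J w` -/
noncomputable def hmL (n : ℕ) : Vec n →L[ℂ] Vec n →L[ℂ] ℂ :=
  toBil (LinearMap.mk₂ ℂ (fun u w : Vec n => u ⬝ᵥ (J n *ᵥ w))
    (fun u u' w => by rw [add_dotProduct])
    (fun c u w => by rw [smul_dotProduct])
    (fun u w w' => by rw [mulVec_add, dotProduct_add])
    (fun c u w => by rw [mulVec_smul, dotProduct_smul]))

theorem hmL_apply (u w : Vec n) : hmL n (star u) w = herm u w := rfl

theorem hasZ_star (v ξ : Vec n) : HasZ (fun w : Vec n => star w) v ξ 0 (star ξ) := by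
  have h := (hasZ_id v ξ).comp_anti (F := Vec n) (starL' ℝ : Vec n ≃L[ℝ] Vec n).toContinuousLinearMap
    (by
      intro x
      show star (Complex.I • x) = -(Complex.I • star x)
      rw [star_smul]
      simp)
  have h0 : ((starL' ℝ : Vec n ≃L[ℝ] Vec n).toContinuousLinearMap) 0 = 0 := map_zero _
  rw [h0] at h
  exact h

/-- The derivative of `w w^*`. -/
theorem hasZ_vv (v ξ : Vec n) : HasZ (fun w : Vec n => vecMulVec w (star w)) v ξ
    (vecMulVec ξ (star v)) (vecMulVec v (star ξ)) := by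
  have h := (hasZ_id v ξ).bilin (hasZ_star v ξ) (vmL n)
  simp only [vmL_apply, map_zero, zero_add, _root_.zero_apply, add_zero] at h
  exact h

theorem hasZ_vr (η v ξ : Vec n) : HasZ (fun w : Vec n => vecMulVec w η) v ξ
    (vecMulVec ξ η) 0 := by
  have h := (hasZ_id v ξ).bilin (hasZ_const η v ξ) (vmL n)
  simp only [vmL_apply, map_zero, zero_add, _root_.zero_apply] at h
  exact h

theorem hasZ_herm_left (u v ξ : Vec n) : HasZ (fun w : Vec n => herm u w) v ξ (herm u ξ) 0 :=
  hasZ_clm (hmL n (star u)) v ξ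

/-- The derivative of the quadratic form. -/
theorem hasZ_q (v ξ : Vec n) : HasZ (fun w : Vec n => (q w : ℂ)) v ξ (herm v ξ) (herm ξ v) := by
  have h := (hasZ_star v ξ).bilin (hasZ_id v ξ) (hmL n)
  simp only [map_zero, _root_.zero_apply, add_zero, hmL_apply, zero_add] at h
  refine h.congr (Eventually.of_forall fun w => ?_)
  exact (herm_self w).symm

theorem q_ne {v : Vec n} (hv : v ∈ Cone n) : (q v : ℂ) ≠ 0 := by
  have : q v < 0 := hv
  exact_mod_cast this.ne

/-- The component orthogonal to `v`. -/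
noncomputable def prj (v ξ : Vec n) : Vec n := ξ - (herm v ξ * (q v : ℂ)⁻¹) • v

theorem herm_prj {v : Vec n} (hv : v ∈ Cone n) (ξ : Vec n) : herm v (prj v ξ) = 0 := by
  have h := q_ne hv
  rw [prj, sub_eq_add_neg, ← neg_smul, herm_add_right, herm_smul_right, herm_self]
  field_simp
  ring

theorem herm_prj' {v : Vec n} (hv : v ∈ Cone n) (ξ : Vec n) : herm (prj v ξ) v = 0 := by
  rw [herm_comm, herm_prj hv, star_zero]

theorem prj_eq {v ξ : Vec n} (h : herm v ξ = 0) : prj v ξ = ξ := by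
  rw [prj, h, zero_mul, zero_smul, sub_zero]

theorem star_prj (v ξ : Vec n) : star (prj v ξ) = star ξ - (herm ξ v * (q v : ℂ)⁻¹) • star v := by
  have h : star (q v : ℂ) = (q v : ℂ) := Complex.conj_ofReal _
  rw [prj, star_sub, star_smul, star_mul', ← herm_comm, star_inv₀, h]

/-- The standard metric. -/
noncomputable def std (w : Vec n) : Mat (n + 1) :=
  J n + (-2 * (q w : ℂ)⁻¹) • vecMulVec w (star w)

/-- Its holomorphic derivative. -/
noncomputable def stdA (v ξ : Vec n) : Mat (n + 1) :=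
  (-2 * (q v : ℂ)⁻¹) • vecMulVec (prj v ξ) (star v)

/-- Its antiholomorphic derivative. -/
noncomputable def stdB (v ξ : Vec n) : Mat (n + 1) :=
  (-2 * (q v : ℂ)⁻¹) • vecMulVec v (star (prj v ξ))

theorem HasZ.of_eq {E : Type} [NormedAddCommGroup E] [NormedSpace ℂ E] {f : Vec n → E}
    {v ξ : Vec n} {a b a' b' : E} (h : HasZ f v ξ a b) (ha : a = a') (hb : b = b') :
    HasZ f v ξ a' b' := by
  rw [← ha, ← hb]
  exact h

theorem hasZ_std {v : Vec n} (hv : v ∈ Cone n) (ξ : Vec n) :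
    HasZ std v ξ (stdA v ξ) (stdB v ξ) := by
  have h := (hasZ_const (J n) v ξ).add ((((hasZ_q v ξ).inv (q_ne hv)).const_smul (-2)).smul
    (hasZ_vv v ξ))
  have hq := q_ne hv
  refine HasZ.of_eq h ?_ ?_
  · ext i j
    simp only [stdA, prj, Matrix.smul_apply, Matrix.add_apply, vecMulVec_apply, Pi.sub_apply,
      Pi.smul_apply, smul_eq_mul, Matrix.zero_apply]
    field_simp
    ring
  · ext i j
    simp only [stdB, star_prj, Matrix.smul_apply, Matrix.add_apply, vecMulVec_apply, Pi.sub_apply,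
      Pi.smul_apply, smul_eq_mul, Matrix.zero_apply]
    field_simp
    ring

theorem J_J : J n * J n = 1 := by
  rw [J, diagonal_mul_diagonal, ← diagonal_one]
  congr 1
  funext i
  split_ifs <;> norm_num

theorem J_herm : (J n)ᴴ = J n := by
  rw [J, diagonal_conjTranspose]
  congr 1
  funext i
  simp only [Pi.star_apply]
  split_ifs <;> simp

theorem herm_eq' (v w : Vec n) : herm v w = star v ᵥ* J n ⬝ᵥ w := by
  rw [herm, dotProduct_mulVec]

theorem vmm {l : ℕ} (a b c d : Fin l → ℂ) :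
    vecMulVec a b * vecMulVec c d = (b ⬝ᵥ c) • vecMulVec a d := by
  rw [vecMulVec_mul_vecMulVec]
  ext i j
  simp [vecMulVec_apply]
  ring

theorem vmv {l : ℕ} (a b c : Fin l → ℂ) : vecMulVec a b *ᵥ c = (b ⬝ᵥ c) • a := by
  rw [vecMulVec_mulVec]
  ext i
  simp [mul_comm]

theorem std_J_std {w : Vec n} (hw : w ∈ Cone n) : std w * J n * std w = J n := by
  have hq := q_ne hw
  have h1 : vecMulVec w (star w) * J n * vecMulVec w (star w) = (q w : ℂ) • vecMulVec w (star w) := by
    rw [vecMulVec_mul, vmm, ← herm_eq', herm_self]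
  rw [std, Matrix.add_mul, J_J, Matrix.add_mul, Matrix.one_mul, Matrix.mul_add, Matrix.smul_mul,
    Matrix.smul_mul, Matrix.smul_mul, Matrix.mul_assoc, J_J, Matrix.mul_one, Matrix.mul_smul, h1,
    smul_smul, smul_smul]
  have : (-2 * (q w : ℂ)⁻¹) * (-2 * (q w : ℂ)⁻¹) * (q w : ℂ) = 4 * (q w : ℂ)⁻¹ := by
    field_simp
    norm_num
  rw [this]
  module

theorem std_act (g : SUGroup n) (w : Vec n) :
    std (act g w) = g.toMatrix * std w * g.toMatrixᴴ := by
  rw [std, std, q_act, Matrix.mul_add, Matrix.add_mul, mul_J_mul, Matrix.mul_smul, Matrix.smul_mul,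
    mul_vecMulVec, vecMulVec_mul]
  congr 3
  rw [act, star_mulVec]

theorem std_base : std (base n) = 1 := by
  ext i j
  rw [std, q_base, Matrix.add_apply, Matrix.smul_apply, vecMulVec_apply, base]
  rcases eq_or_ne i j with rfl | hij
  · rw [J, diagonal_apply_eq, one_apply_eq]
    by_cases h : i = Fin.last n
    · rw [if_pos h, h]
      simp
      norm_num
    · rw [if_neg h]
      simp [h]
  · rw [J, diagonal_apply_ne _ hij, one_apply_ne hij]
    by_cases h : i = Fin.last n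
    · have h' : j ≠ Fin.last n := fun h2 => hij (h.trans h2.symm)
      simp [Pi.single_apply, h']
    · simp [Pi.single_apply, h]

theorem std_inv {w : Vec n} (hw : w ∈ Cone n) : (std w)⁻¹ = J n * std w * J n := by
  apply inv_eq_left_inv
  rw [Matrix.mul_assoc, Matrix.mul_assoc, ← Matrix.mul_assoc (std w), std_J_std hw, J_J]

theorem std_inv_mulVec {w x : Vec n} (hw : w ∈ Cone n) (h : herm w x = 0) :
    (std w)⁻¹ *ᵥ x = J n *ᵥ x := by
  rw [std_inv hw, ← mulVec_mulVec, ← mulVec_mulVec, std, add_mulVec, smul_mulVec, vmv]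
  have : star w ⬝ᵥ (J n *ᵥ x) = 0 := h
  rw [this, zero_smul, smul_zero, add_zero, mulVec_mulVec, J_J, one_mulVec]

theorem std_inv_self {w : Vec n} (hw : w ∈ Cone n) :
    (std w)⁻¹ *ᵥ w = -(J n *ᵥ w) := by
  have hq := q_ne hw
  rw [std_inv hw, ← mulVec_mulVec, ← mulVec_mulVec, std, add_mulVec, smul_mulVec, vmv]
  have : star w ⬝ᵥ (J n *ᵥ w) = (q w : ℂ) := herm_self w
  rw [this, mulVec_mulVec, J_J, one_mulVec, smul_smul]
  have h2 : w + (-2 * (q w : ℂ)⁻¹ * (q w : ℂ)) • w = -w := by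
    have : -2 * (q w : ℂ)⁻¹ * (q w : ℂ) = -2 := by field_simp
    rw [this]
    module
  rw [h2, mulVec_neg]

theorem std_herm (w : Vec n) : (std w).IsHermitian := by
  rw [IsHermitian, std, conjTranspose_add, J_herm, conjTranspose_smul, conjTranspose_vecMulVec,
    star_star]
  congr 2
  rw [star_mul', star_inv₀]
  have : star (q w : ℂ) = (q w : ℂ) := Complex.conj_ofReal _
  rw [this]
  simp

/-- `|u|² = |u^⊥|² + |<w,u>|²/q(w)`. -/
theorem q_prj {w : Vec n} (hw : w ∈ Cone n) (u : Vec n) :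
    q u = q (prj w u) + ‖herm w u‖ ^ 2 / q w := by
  have hq : q w ≠ 0 := (show q w < 0 from hw).ne
  have h1 : u = prj w u + (herm w u * (q w : ℂ)⁻¹) • w := by rw [prj, sub_add_cancel]
  have h2 : herm u u = herm (prj w u) (prj w u) +
      star (herm w u * (q w : ℂ)⁻¹) * (herm w u * (q w : ℂ)⁻¹) * (q w : ℂ) := by
    conv_lhs => rw [h1]
    rw [herm_add_left, herm_add_right, herm_add_right, herm_smul_right, herm_smul_right,
      herm_smul_left, herm_smul_left, herm_prj hw, herm_prj' hw, herm_self w]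
    ring
  rw [herm_self, herm_self] at h2
  have h3 : star (herm w u * (q w : ℂ)⁻¹) * (herm w u * (q w : ℂ)⁻¹) =
      ((‖herm w u‖ ^ 2 / q w ^ 2 : ℝ) : ℂ) := by
    have e : (‖q w‖ : ℝ) ^ 2 = q w ^ 2 := by rw [Real.norm_eq_abs, sq_abs]
    rw [Complex.star_def, Complex.conj_mul', norm_mul, norm_inv, Complex.norm_real, ← e]
    push_cast
    rw [mul_pow, inv_pow, div_eq_mul_inv]
  rw [h3] at h2
  have h4 : q u = q (prj w u) + ‖herm w u‖ ^ 2 / q w ^ 2 * q w := by exact_mod_cast h2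
  rw [h4]
  congr 1
  field_simp

theorem std_posDef {w : Vec n} (hw : w ∈ Cone n) : (std w).PosDef := by
  refine Matrix.PosDef.of_dotProduct_mulVec_pos (std_herm w) ?_
  intro x hx
  have hq : q w < 0 := hw
  set u : Vec n := J n *ᵥ x with hu
  have hxu : x = J n *ᵥ u := by rw [hu, mulVec_mulVec, J_J, one_mulVec]
  have hu0 : u ≠ 0 := by
    intro h
    apply hx
    rw [hxu, h, mulVec_zero]
  have h1 : star x ⬝ᵥ (std w *ᵥ x) = ((q (prj w u) + ‖herm w u‖ ^ 2 / (-q w) : ℝ) : ℂ) := by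
    have e1 : star x ⬝ᵥ (J n *ᵥ x) = (q u : ℂ) := by
      rw [← herm_self u, herm, ← hxu, hu, star_mulVec, J_herm, ← dotProduct_mulVec]
    have e2 : star w ⬝ᵥ x = herm w u := by rw [herm, ← hxu]
    have e3 : star x ⬝ᵥ w = star (herm w u) := by
      rw [← e2]
      simp [dotProduct, mul_comm]
    rw [std, add_mulVec, dotProduct_add, e1, smul_mulVec, dotProduct_smul, vmv, e2,
      dotProduct_smul, e3, q_prj hw u, smul_eq_mul, smul_eq_mul, Complex.star_def,
      Complex.mul_conj']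
    push_cast
    have := q_ne hw
    field_simp
    ring
  rw [h1]
  have h2 : 0 < q (prj w u) + ‖herm w u‖ ^ 2 / (-q w) := by
    by_cases hp : prj w u = 0
    · have h3 : herm w u ≠ 0 := by
        intro h4
        apply hu0
        rw [prj, h4, zero_mul, zero_smul, sub_zero] at hp
        exact hp
      have h4 : 0 < ‖herm w u‖ := norm_pos_iff.2 h3
      have h5 : q (prj w u) = 0 := by
        rw [hp, q_eq]
        simp
      rw [h5, zero_add]
      exact div_pos (by positivity) (by linarith)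
    · have h3 := q_pos_of_orth hw (herm_prj hw u) hp
      have h4 : 0 ≤ ‖herm w u‖ ^ 2 / (-q w) := div_nonneg (by positivity) (by linarith)
      linarith
  exact_mod_cast h2

end Pool.Agent.Lib.MP_5d4057_al.HM
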