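import Pool.Agent.Lib.MP_5d4057_al.HM.SubB

set_option maxSynthPendingDepth 3

namespace Pool.Agent.Lib.MP_5d4057_al.HM

open Matrix MeasureTheory Filter Topology Pool.Agent.Lib.MP_5d4057_al Pool.Agent.Lib.MP_5d4057_al.Hyb

open scoped ComplexOrder MatrixOrder Matrix.Norms.L2Operator

variable {n m : ℕ} {E : Type} [NormedAddCommGroup E] [NormedSpace ℝ E] [CompleteSpace E]

/-- `s (P_s A_s - A_s) → Lap A` (blueprint A10): the telescoping estimate, and `P_tendsto`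
for `Lap A_s → Lap A`. -/
theorem lap_limit (hn : 1 ≤ n) (N : ℕ) (C : ℝ) {s : ℕ → ℕ} (hs : Tendsto s atTop atTop)
    {A : ℕ → Vec n → Mat m} {A₀ : Vec n → Mat m} (hA : ∀ j, Tame N C (A j)) (hA₀ : Tame N C A₀)
    (h : ∀ T ε : ℝ, 0 < ε → ∃ j₀ : ℕ, ∀ j, j₀ ≤ j → ∀ g : SUGroup n, ch g ≤ T →
      ‖Lap (A j) (act g (base n)) - Lap A₀ (act g (base n))‖ ≤ ε) (g : SUGroup n) :
    Tendsto (fun j => (s j : ℝ) • (P (s j) (A j) (act g (base n)) - A j (act g (base n)))) atTop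
      (𝓝 (Lap A₀ (act g (base n)))) := by
  obtain ⟨s₁, h1⟩ := P_sub_P (E := Mat m) hn N
  have hP0 : ∀ j, Tendsto (fun t => P t (A j) (act g (base n))) atTop
      (𝓝 (A j (act g (base n)))) := by
    intro j
    rw [Metric.tendsto_atTop]
    intro ε hε
    obtain ⟨j₀, s₂, h2⟩ := P_tendsto n N (f := fun _ => A j) (fun _ => (hA j).adm)
      (hA j).cd.continuousOn (hA j).hom
      (fun T ε hε => ⟨0, fun _ _ g _ => by simpa using hε.le⟩) (ch g) (ε / 2) (by positivity)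
    refine ⟨s₂, fun t ht => ?_⟩
    rw [dist_eq_norm]
    have := h2 j₀ le_rfl t ht g le_rfl
    linarith
  have hP1 := P_tendsto n N (f := fun j => Lap (A j)) (f₀ := Lap A₀) (fun j => (hA j).adm_lap)
    hA₀.continuousOn_lap (homog_lap hA₀.hom hA₀.cd) h (ch g)
  obtain ⟨c, hc⟩ : ∃ c, c = Lap A₀ (act g (base n)) := ⟨_, rfl⟩
  rw [← hc, Metric.tendsto_atTop]
  intro ε hε
  obtain ⟨j₀, s₂, h2⟩ := hP1 (ε / 4) (by positivity)
  obtain ⟨s₃, hs₃⟩ := exists_nat_ge (4 * ‖c‖ * (n + 1) / ε)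
  obtain ⟨S, hS⟩ : ∃ S : ℕ, S = s₁ + s₂ + s₃ + 2 * (n + 1) + 1 := ⟨_, rfl⟩
  obtain ⟨j₁, hj₁⟩ := eventually_atTop.1 (hs.eventually_ge_atTop S)
  refine ⟨max j₀ j₁, fun j hj => ?_⟩
  have hjS := hj₁ j ((le_max_right _ _).trans hj)
  obtain ⟨t, ht⟩ : ∃ t, t = s j := ⟨_, rfl⟩
  rw [← ht] at hjS ⊢
  have hn1 : n + 1 < t := by omega
  have k := tele_scaled (n := n) (a := fun t => P t (A j) (act g (base n)))
    (b := fun t => P t (Lap (A j)) (act g (base n))) (a₀ := A j (act g (base n))) (c := c)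
    (e := ε / 4) (s := t) hn1 (hP0 j)
    (fun r hr => by
      have := h1 r (by omega) C (A j) (hA j) _ (orbit_mem g) 1
      simpa using this)
    (fun r hr => by
      rw [hc]
      exact h2 j ((le_max_left _ _).trans hj) r (by omega) g le_rfl)
  have a1 : (S : ℝ) ≤ t := by exact_mod_cast hjS
  have a2 : (S : ℝ) = s₁ + s₂ + s₃ + 2 * (n + 1) + 1 := by rw [hS]; push_cast; ring
  have a3 : (0 : ℝ) ≤ s₁ := Nat.cast_nonneg _
  have a4 : (0 : ℝ) ≤ s₂ := Nat.cast_nonneg _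
  have a5 : (0 : ℝ) ≤ n := Nat.cast_nonneg _
  have a6 : (0 : ℝ) ≤ s₃ := Nat.cast_nonneg _
  have b0 : (0 : ℝ) < t - n - 1 := by linarith
  have b1 : (t : ℝ) / (t - n - 1) ≤ 2 := by
    rw [div_le_iff₀ b0]
    linarith
  have b2 : ‖c‖ * ((n + 1) / (t - n - 1)) ≤ ε / 4 := by
    rw [← mul_div_assoc, div_le_iff₀ b0]
    rw [div_le_iff₀ hε] at hs₃
    have b3 : (s₃ : ℝ) ≤ t - n - 1 := by linarith
    have b4 := mul_le_mul_of_nonneg_right b3 hε.le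
    linarith
  rw [dist_eq_norm]
  have b5 : ε / 4 * (t / (t - n - 1)) ≤ ε / 4 * 2 :=
    mul_le_mul_of_nonneg_left b1 (by positivity)
  linarith

/-- RESULT of blueprint E3: all left averages of a limit satisfy `Lap A ≥ e(A)`. -/
theorem lap_ge_en (hn : 1 ≤ n) {N : ℕ} {C : ℝ} {s : ℕ → ℕ} {M : ℕ → Vec n → Mat m}
    {F : Vec n → Mat m} (hF : Approx N C s M F) (hFh : Homog F) (hFa : Adm N C F)
    (hFi : Adm N C fun v => (F v)⁻¹) (hFp : ∀ v ∈ Cone n, (F v).PosDef)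
    {Φ : Mat (n + 1) → ℝ} (hΦ : Test n Φ) (hΦ1 : 0 < ∫ a : SUGroup n, Φ a.toMatrix ∂(mu n))
    {v : Vec n} (hv : v ∈ Cone n) : en (lav Φ F) v ≤ Lap (lav Φ F) v := by
  obtain ⟨N', hT⟩ := lav_tame (E := Mat m) n N
  obtain ⟨C', hC', hT'⟩ := hT Φ hΦ
  have hMa : ∀ j, Adm N C (M j) := fun j => adm_of_continuousOn (hF.cont j) (hF.bound j)
  have hMi : ∀ j, Adm N C fun w => (M j w)⁻¹ := fun j =>
    adm_of_continuousOn (SubA.continuousOn_inv_of (hF.cont j) (hF.pos j)) (hF.boundInv j)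
  have hC : 0 ≤ C := SubA.adm_nonneg_of hFa
  -- a common constant
  obtain ⟨c, hc⟩ : ∃ c : ℝ, c = ((∫ a : SUGroup n, Φ a.toMatrix ∂(mu n)) ^ 2)⁻¹ := ⟨_, rfl⟩
  have hc0 : 0 < c := by rw [hc]; positivity
  obtain ⟨K, hK⟩ : ∃ K : ℝ, K = 1 + C' * C + c * (C' * C) := ⟨_, rfl⟩
  have hK1 : 1 ≤ K := by rw [hK]; have := hC'.le; linarith [show 0 ≤ C' * C + c * (C' * C) by positivity]
  have tK : ∀ {f : Vec n → Mat m}, Homog f → Adm N C f → Tame N' K (lav Φ f) := by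
    intro f hf ha
    have h1 := hT' C f hf ha
    have h2 : C' * C ≤ K := by
      rw [hK]
      have := hC'.le
      linarith [show 0 ≤ c * (C' * C) by positivity]
    have h3 : ∀ g : SUGroup n, C' * C * ch g ^ (2 * N') ≤ K * ch g ^ (2 * N') := fun g =>
      mul_le_mul_of_nonneg_right h2 (pow_nonneg (ch_pos g).le _)
    exact ⟨h1.hom, h1.cd, fun g => (h1.b0 g).trans (h3 g), fun g => (h1.b1 g).trans (h3 g),
      fun g => (h1.b2 g).trans (h3 g)⟩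
  have iK : ∀ {f : Vec n → Mat m}, Homog f → Adm N C f → Adm N C (fun w => (f w)⁻¹) →
      (∀ v ∈ Cone n, (f v).PosDef) → ∀ g : SUGroup n,
      ‖(lav Φ f (act g (base n)))⁻¹‖ ≤ K * ch g ^ (2 * N') := by
    intro f hf ha hi hp g
    refine (SubA.norm_inv_lav_le hΦ hΦ1 ha hi hp (orbit_mem g)).trans ?_
    rw [← hc]
    have h1 := (hT' C _ (SubA.homog_inv_of hf) hi).b0 g
    have h2 : c * (C' * C) ≤ K := by
      rw [hK]
      have := hC'.le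
      linarith [show 0 ≤ C' * C by positivity]
    calc c * ‖lav Φ (fun w => (f w)⁻¹) (act g (base n))‖ ≤ c * (C' * C * ch g ^ (2 * N')) :=
          mul_le_mul_of_nonneg_left h1 hc0.le
      _ = c * (C' * C) * ch g ^ (2 * N') := by ring
      _ ≤ _ := mul_le_mul_of_nonneg_right h2 (pow_nonneg (ch_pos g).le _)
  obtain ⟨A, hA⟩ : ∃ A : ℕ → Vec n → Mat m, A = fun j => lav Φ (M j) := ⟨_, rfl⟩
  obtain ⟨A₀, hA₀⟩ : ∃ A₀ : Vec n → Mat m, A₀ = lav Φ F := ⟨_, rfl⟩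
  have tA : ∀ j, Tame N' K (A j) := fun j => by rw [hA]; exact tK (hF.hom j) (hMa j)
  have tA₀ : Tame N' K A₀ := by rw [hA₀]; exact tK hFh hFa
  have pA : ∀ j, ∀ w ∈ Cone n, (A j w).PosDef := fun j w hw => by
    rw [hA]; exact lav_posDef hΦ hΦ1 (hMa j) (hF.pos j) hw
  have pA₀ : ∀ w ∈ Cone n, (A₀ w).PosDef := fun w hw => by
    rw [hA₀]; exact lav_posDef hΦ hΦ1 hFa hFp hw
  have iA : ∀ j, Tame (5 * N') (3 * K ^ 5) fun w => (A j w)⁻¹ := fun j =>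
    SubA.tame_inv hK1 (tA j) (fun w hw => (pA j w hw).isUnit) fun g => by
      rw [hA]; exact iK (hF.hom j) (hMa j) (hMi j) (hF.pos j) g
  have iA₀ : Tame (5 * N') (3 * K ^ 5) fun w => (A₀ w)⁻¹ :=
    SubA.tame_inv hK1 tA₀ (fun w hw => (pA₀ w hw).isUnit) fun g => by
      rw [hA₀]; exact iK hFh hFa hFi hFp g
  -- convergence of the averages with two derivatives
  have hconv := lav_tendsto hΦ hMa hFa hF.lim
  rw [← hA₀] at hconv
  have hcA : ContDiffOn ℝ (⊤ : ℕ∞) A₀ (Cone n) := by rw [hA₀]; exact lav_contDiffOn hΦ hFa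
  have hcA' : ∀ j, ContDiffOn ℝ (⊤ : ℕ∞) (A j) (Cone n) := fun j => by
    rw [hA]; exact lav_contDiffOn hΦ (hMa j)
  have cF1 : ContinuousOn (fderiv ℝ A₀) (Cone n) :=
    (hcA.fderiv_of_isOpen (m := (⊤ : ℕ∞)) (isOpen_cone n) (by simp)).continuousOn
  have cF2 : ContinuousOn (fderiv ℝ (fderiv ℝ A₀)) (Cone n) :=
    ((hcA.fderiv_of_isOpen (m := (⊤ : ℕ∞)) (isOpen_cone n) (by simp)).fderiv_of_isOpen
      (m := (⊤ : ℕ∞)) (isOpen_cone n) (by simp)).continuousOn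
  have co : ∀ {F' : Type} [TopologicalSpace F'] {f : Vec n → F'}, ContinuousOn f (Cone n) →
      Continuous fun g : SUGroup n => f (act g (base n)) := fun hf =>
    hf.comp_continuous continuous_orbit orbit_mem
  have t0 := SubA.cc_of (f := fun j g => A j (act g (base n)))
    (f₀ := fun g => A₀ (act g (base n))) (co hcA.continuousOn)
    (fun T ε hε => by
      obtain ⟨j₀, hj⟩ := hconv T ε hε
      exact ⟨j₀, fun j hjj g hg => by rw [hA]; exact (hj j hjj g hg).1⟩)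
  have t1 := SubA.cc_of (f := fun j g => fderiv ℝ (A j) (act g (base n)))
    (f₀ := fun g => fderiv ℝ A₀ (act g (base n))) (co cF1)
    (fun T ε hε => by
      obtain ⟨j₀, hj⟩ := hconv T ε hε
      exact ⟨j₀, fun j hjj g hg => by rw [hA]; exact (hj j hjj g hg).2.1⟩)
  have t2 := SubA.cc_of (f := fun j g => fderiv ℝ (fderiv ℝ (A j)) (act g (base n)))
    (f₀ := fun g => fderiv ℝ (fderiv ℝ A₀) (act g (base n))) (co cF2)
    (fun T ε hε => by
      obtain ⟨j₀, hj⟩ := hconv T ε hε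
      exact ⟨j₀, fun j hjj g hg => by rw [hA]; exact (hj j hjj g hg).2.2⟩)
  have ti : ∀ g₀ : SUGroup n, Tendsto (fun p : ℕ × SUGroup n => (A p.1 (act p.2 (base n)))⁻¹)
      (atTop ×ˢ 𝓝 g₀) (𝓝 (A₀ (act g₀ (base n)))⁻¹) := by
    intro g₀
    have h1 : ContinuousAt (fun x : Mat m => x⁻¹) (A₀ (act g₀ (base n))) := by
      simp only [Matrix.nonsing_inv_eq_ringInverse]
      exact NormedRing.inverse_continuousAt (pA₀ _ (orbit_mem g₀)).isUnit.unit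
    exact h1.tendsto.comp (t0 g₀)
  have t1' : ∀ (g₀ : SUGroup n) (ξ : Vec n), Tendsto
      (fun p : ℕ × SUGroup n => fderiv ℝ (A p.1) (act p.2 (base n)) ξ)
      (atTop ×ˢ 𝓝 g₀) (𝓝 (fderiv ℝ A₀ (act g₀ (base n)) ξ)) := fun g₀ ξ =>
    ((ContinuousLinearMap.apply ℝ (Mat m) ξ).continuous.tendsto _).comp (t1 g₀)
  have t2' : ∀ (g₀ : SUGroup n) (ξ : Vec n), Tendsto
      (fun p : ℕ × SUGroup n => fderiv ℝ (fderiv ℝ (A p.1)) (act p.2 (base n)) ξ ξ)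
      (atTop ×ˢ 𝓝 g₀) (𝓝 (fderiv ℝ (fderiv ℝ A₀) (act g₀ (base n)) ξ ξ)) := fun g₀ ξ =>
    (((ContinuousLinearMap.apply ℝ (Mat m) ξ).comp
      (ContinuousLinearMap.apply ℝ (Vec n →L[ℝ] Mat m) ξ)).continuous.tendsto _).comp (t2 g₀)
  have tq : ∀ g₀ : SUGroup n, Tendsto (fun p : ℕ × SUGroup n => -q (act p.2 (base n)) / 4)
      (atTop ×ˢ 𝓝 g₀) (𝓝 (-q (act g₀ (base n)) / 4)) := by
    intro g₀
    simp only [q_orbit]
    exact tendsto_const_nhds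
  have tL : ∀ g₀ : SUGroup n, Tendsto (fun p : ℕ × SUGroup n => Lap (A p.1) (act p.2 (base n)))
      (atTop ×ˢ 𝓝 g₀) (𝓝 (Lap A₀ (act g₀ (base n)))) := by
    intro g₀
    unfold Lap
    refine (tq g₀).smul (tendsto_finsetSum _ fun i _ => ?_)
    exact ((t2' g₀ _).add (t2' g₀ _)).const_smul _
  have tE : ∀ g₀ : SUGroup n, Tendsto (fun p : ℕ × SUGroup n => en (A p.1) (act p.2 (base n)))
      (atTop ×ˢ 𝓝 g₀) (𝓝 (en A₀ (act g₀ (base n)))) := by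
    intro g₀
    unfold en
    refine (tq g₀).smul (tendsto_finsetSum _ fun i _ => ?_)
    exact ((((t1' g₀ _).mul (ti g₀)).mul (t1' g₀ _)).add
      (((t1' g₀ _).mul (ti g₀)).mul (t1' g₀ _))).const_smul _
  have eL : ∀ j (g : SUGroup n), Lap (fun w => (A j w)⁻¹) (act g (base n)) =
      (A j (act g (base n)))⁻¹ * ((2 : ℝ) • en (A j) (act g (base n)) -
        Lap (A j) (act g (base n))) * (A j (act g (base n)))⁻¹ := fun j g =>
    lap_matInv (((tA j).cd _ (orbit_mem g)).contDiffAt ((isOpen_cone n).mem_nhds (orbit_mem g)))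
      (pA j _ (orbit_mem g)).isUnit
  have eL₀ : ∀ w ∈ Cone n, Lap (fun w => (A₀ w)⁻¹) w =
      (A₀ w)⁻¹ * ((2 : ℝ) • en A₀ w - Lap A₀ w) * (A₀ w)⁻¹ := fun w hw =>
    lap_matInv ((tA₀.cd _ hw).contDiffAt ((isOpen_cone n).mem_nhds hw)) (pA₀ _ hw).isUnit
  have tLi : ∀ g₀ : SUGroup n, Tendsto
      (fun p : ℕ × SUGroup n => Lap (fun w => (A p.1 w)⁻¹) (act p.2 (base n)))
      (atTop ×ˢ 𝓝 g₀) (𝓝 (Lap (fun w => (A₀ w)⁻¹) (act g₀ (base n)))) := by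
    intro g₀
    simp only [eL, eL₀ _ (orbit_mem g₀)]
    exact (((ti g₀).mul (((tE g₀).const_smul _).sub (tL g₀)))).mul (ti g₀)
  obtain ⟨c₁, hc₁, hcv⟩ := sec_spec hv
  obtain ⟨g, hg⟩ : ∃ g, g = sec n v := ⟨_, rfl⟩
  rw [← hg] at hcv
  have l1 := lap_limit hn N' K hF.tends tA tA₀
    (SubA.of_cc (co tA₀.continuousOn_lap) tL) g
  have l2 := lap_limit hn (5 * N') (3 * K ^ 5) hF.tends iA iA₀
    (SubA.of_cc (co iA₀.continuousOn_lap) tLi) g
  -- the limits at `v`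
  have m1 : Tendsto (fun j => (s j : ℝ) • (P (s j) (A j) v - A j v)) atTop (𝓝 (Lap A₀ v)) := by
    rw [hcv, homog_lap tA₀.hom tA₀.cd c₁ hc₁ _ (orbit_mem g)]
    refine l1.congr fun j => ?_
    rw [P_homog (s j) (A j) c₁ hc₁ _ (orbit_mem g), (tA j).hom c₁ hc₁ _ (orbit_mem g)]
  have m2 : Tendsto (fun j => (s j : ℝ) • (P (s j) (fun w => (A j w)⁻¹) v - (A j v)⁻¹)) atTop
      (𝓝 (Lap (fun w => (A₀ w)⁻¹) v)) := by
    rw [hcv, homog_lap iA₀.hom iA₀.cd c₁ hc₁ _ (orbit_mem g)]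
    refine l2.congr fun j => ?_
    rw [P_homog (s j) (fun w => (A j w)⁻¹) c₁ hc₁ _ (orbit_mem g),
      (tA j).hom c₁ hc₁ _ (orbit_mem g)]
  have m0 : Tendsto (fun j => A j v) atTop (𝓝 (A₀ v)) := by
    rw [hcv, tA₀.hom c₁ hc₁ _ (orbit_mem g)]
    have h1 : Tendsto (fun j : ℕ => ((j, g) : ℕ × SUGroup n)) atTop (atTop ×ˢ 𝓝 g) :=
      tendsto_id.prodMk tendsto_const_nhds
    refine ((t0 g).comp h1).congr fun j => ?_
    show A j (act g (base n)) = _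
    rw [(tA j).hom c₁ hc₁ _ (orbit_mem g)]
  obtain ⟨s₁, hs₁⟩ := P_lav (E := Mat m) hΦ N
  have hev : ∀ᶠ j in atTop, A j v * ((s j : ℝ) • (P (s j) (fun w => (A j w)⁻¹) v - (A j v)⁻¹)) *
      A j v ≤ (s j : ℝ) • (P (s j) (A j) v - A j v) := by
    filter_upwards [hF.tends.eventually_ge_atTop (s₁ + n + N + 5 * N' + 1)] with j hj
    have h1 := SubA.lav_sub_le hΦ hΦ1 (hF.hom j) (hF.cont j) (hF.pos j) (hF.bound j)
      (hF.boundInv j) (N' := 5 * N') (C' := 3 * K ^ 5)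
      (by have := (iA j).adm; rw [hA] at this; exact this) (s := s j) (by omega) (by omega)
      (fun w hw => hs₁ (s j) (by omega) C (M j) (hF.hom j) (hMa j) w hw) (hF.sub j) hv
    have e1 : lav Φ (M j) = A j := by rw [hA]
    rw [e1] at h1
    have hu : IsUnit (A j v).det := (isUnit_iff_isUnit_det _).1 (pA j v hv).isUnit
    have e2 : A j v * ((s j : ℝ) • (P (s j) (fun w => (A j w)⁻¹) v - (A j v)⁻¹)) * A j v =
        (s j : ℝ) • (A j v * P (s j) (fun w => (A j w)⁻¹) v * A j v - A j v) := by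
      rw [mul_smul_comm, smul_mul_assoc, mul_sub, sub_mul, mul_nonsing_inv _ hu, one_mul]
    rw [e2]
    rw [Matrix.le_iff] at h1 ⊢
    rw [← smul_sub, sub_sub_sub_cancel_right]
    exact h1.smul (Nat.cast_nonneg _)
  have hfin : A₀ v * Lap (fun w => (A₀ w)⁻¹) v * A₀ v ≤ Lap A₀ v :=
    le_of_tendsto_of_tendsto ((m0.mul m2).mul m0) m1 hev
  have hu : IsUnit (A₀ v).det := (isUnit_iff_isUnit_det _).1 (pA₀ v hv).isUnit
  rw [eL₀ v hv, mul_assoc (A₀ v)⁻¹, ← mul_assoc (A₀ v), mul_nonsing_inv _ hu, one_mul, mul_assoc,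
    nonsing_inv_mul _ hu, mul_one, Matrix.le_iff] at hfin
  rw [← hA₀, Matrix.le_iff]
  have h4 := hfin.smul (show (0 : ℝ) ≤ 1 / 2 by norm_num)
  refine (congrArg Matrix.PosSemidef ?_).mp h4
  module

end Pool.Agent.Lib.MP_5d4057_al.HM
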