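import Pool.Agent.Lib.MP_5d4057_al.HM.LipD
import Pool.Agent.Lib.MP_5d4057_al.HM.RegAx

/-! Mollifiers: almost everywhere convergence. -/

namespace Pool.Agent.Lib.MP_5d4057_al.HM

open Matrix MeasureTheory Filter Topology Pool.Agent.Lib.MP_5d4057_al Pool.Agent.Lib.MP_5d4057_al.Hyb

open scoped ComplexOrder MatrixOrder Matrix.Norms.L2Operator ENNReal

variable {n m : ℕ} {Γ : Subgroup (SUGroup n)} {E : Type} [NormedAddCommGroup E] [NormedSpace ℝ E]

theorem lf_integrable {Φ : Mat (n + 1) → ℝ} (hΦ : Test n Φ) {N : ℕ} {C : ℝ} {F : Vec n → E}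
    (hA : Adm N C F) (g : SUGroup n) :
    Integrable (fun a : SUGroup n => Φ a.toMatrix • F (act (a * g) (base n))) (mu n) := by
  have h1 : Integrable (fun a : SUGroup n => Φ a.toMatrix * (C * ch (a * g) ^ (2 * N))) (mu n) := by
    refine Continuous.integrable_of_hasCompactSupport ?_ ?_
    · exact (Ax.continuous_test hΦ).mul (continuous_const.mul
        ((continuous_ch.comp (continuous_id.mul continuous_const)).pow _))
    · exact (Ax.compact_test hΦ).mul_right
  refine h1.mono' ?_ (Eventually.of_forall fun a => ?_)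
  · exact (Ax.continuous_test hΦ).aestronglyMeasurable.smul
      (hA.meas.comp_measurePreserving (measurePreserving_mul_right (mu n) g))
  · rw [norm_smul, Real.norm_eq_abs, abs_of_nonneg (hΦ.nonneg _)]
    exact mul_le_mul_of_nonneg_left (hA.bound _) (hΦ.nonneg _)

theorem lf_enorm_le [CompleteSpace E] {Φ : Mat (n + 1) → ℝ} (hΦ : Test n Φ)
    (h1 : ∫ a : SUGroup n, Φ a.toMatrix ∂(mu n) = 1) {N : ℕ} {C : ℝ} {F : Vec n → E}
    (hF : Homog F) (hA : Adm N C F) (g : SUGroup n) :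
    ENNReal.ofReal ‖lav Φ F (act g (base n)) - F (act g (base n))‖ ≤
      ∫⁻ a : SUGroup n, ENNReal.ofReal (Φ a.toMatrix) *
        ENNReal.ofReal ‖F (act (a * g) (base n)) - F (act g (base n))‖ ∂(mu n) := by
  have e1 : lav Φ F (act g (base n)) - F (act g (base n)) =
      ∫ a : SUGroup n, Φ a.toMatrix • (F (act (a * g) (base n)) - F (act g (base n))) ∂(mu n) := by
    have h2 : (fun a : SUGroup n => Φ a.toMatrix • (F (act (a * g) (base n)) - F (act g (base n)))) =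
        fun a => Φ a.toMatrix • F (act (a * g) (base n)) - Φ a.toMatrix • F (act g (base n)) := by
      funext a; rw [smul_sub]
    rw [h2, integral_sub (lf_integrable hΦ hA g) ((Ax.integrable_test hΦ).smul_const _),
      integral_smul_const, h1, one_smul, lav_eq hF (orbit_mem g)]
    congr 1
    refine integral_congr_ae (Eventually.of_forall fun a => ?_)
    simp only [act_mul]
  rw [e1, ofReal_norm]
  refine (enorm_integral_le_lintegral_enorm _).trans (le_of_eq (lintegral_congr fun a => ?_))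
  rw [enorm_smul, Real.enorm_of_nonneg (hΦ.nonneg _), ofReal_norm]

omit [NormedSpace ℝ E] in
theorem lf_meas_mul {N : ℕ} {C : ℝ} {F : Vec n → E} (hA : Adm N C F) :
    AEStronglyMeasurable (fun p : SUGroup n × SUGroup n => F (act (p.1 * p.2) (base n)))
      ((mu n).prod (mu n)) := by
  have h1 := (measurePreserving_prod_mul (mu n) (mu n)).quasiMeasurePreserving
  have h2 := (Measure.quasiMeasurePreserving_snd (μ := mu n) (ν := mu n)).comp h1
  exact hA.meas.comp_quasiMeasurePreserving h2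

theorem lf_young {x ε : ℝ} (hx : 0 ≤ x) (hε : 0 < ε) : x ≤ ε + ε⁻¹ * x ^ 2 := by
  rcases le_total x ε with h | h
  · have : 0 ≤ ε⁻¹ * x ^ 2 := by positivity
    linarith
  · have h1 : ε⁻¹ * x ^ 2 = x * (ε⁻¹ * x) := by ring
    have h2 : 1 ≤ ε⁻¹ * x := by
      rw [inv_mul_eq_div, le_div_iff₀ hε]; linarith
    nlinarith

/-- The mollification converges in the mean. -/
theorem lf_lint [CompleteSpace E] {N : ℕ} {C : ℝ} {F : Vec n → E} (hF : Homog F) (hA : Adm N C F)
    (T : ℝ) {M : ℝ} (hM0 : 0 ≤ M) (hM : ∀ (a : SUGroup n) (r : ℝ), 0 ≤ r → r ≤ 1 →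
      ‖a.toMatrix - 1‖ ≤ r → ∫⁻ g, ib T g *
        ENNReal.ofReal (‖F (act (a * g) (base n)) - F (act g (base n))‖ ^ 2) ∂(mu n) ≤
          ENNReal.ofReal (M * r ^ 2)) : ∃ K : ℝ, 0 ≤ K ∧ ∀ Φ : Mat (n + 1) → ℝ, Test n Φ →
      ∫ a : SUGroup n, Φ a.toMatrix ∂(mu n) = 1 → ∀ ε : ℝ, 0 < ε → ε ≤ 1 →
      (∀ A, ε < ‖A - 1‖ → Φ A = 0) → ∫⁻ g, ib T g *
        ENNReal.ofReal ‖lav Φ F (act g (base n)) - F (act g (base n))‖ ∂(mu n) ≤
        ENNReal.ofReal (K * ε) := by
  obtain ⟨V, hV⟩ : ∃ V : ℝ, V = (mu n).real {g : SUGroup n | ch g ≤ T} := ⟨_, rfl⟩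
  have hV0 : 0 ≤ V := by rw [hV]; exact measureReal_nonneg
  refine ⟨V + M, by positivity, fun Φ hΦ hΦ1 ε hε hε1 hsupp => ?_⟩
  have hmm : AEMeasurable (fun p : SUGroup n × SUGroup n => ib T p.2 *
      (ENNReal.ofReal (Φ p.1.toMatrix) *
        ENNReal.ofReal ‖F (act (p.1 * p.2) (base n)) - F (act p.2 (base n))‖)) ((mu n).prod (mu n)) := by
    refine ((measurable_ib T).comp measurable_snd).aemeasurable.mul
      (((Ax.continuous_test hΦ).measurable.comp measurable_fst).ennreal_ofReal.aemeasurable.mul ?_)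
    exact ((lf_meas_mul hA).sub hA.meas.comp_snd).norm.aemeasurable.ennreal_ofReal
  have hin : ∀ a : SUGroup n, ∫⁻ g, ib T g * (ENNReal.ofReal (Φ a.toMatrix) *
      ENNReal.ofReal ‖F (act (a * g) (base n)) - F (act g (base n))‖) ∂(mu n) ≤
      ENNReal.ofReal (Φ a.toMatrix) * ENNReal.ofReal ((V + M) * ε) := by
    intro a
    by_cases ha : ‖a.toMatrix - 1‖ ≤ ε
    · have h1 : ∀ g, ib T g * (ENNReal.ofReal (Φ a.toMatrix) *
          ENNReal.ofReal ‖F (act (a * g) (base n)) - F (act g (base n))‖) ≤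
          ENNReal.ofReal (Φ a.toMatrix) * (ib T g * ENNReal.ofReal ε + ENNReal.ofReal ε⁻¹ * (ib T g *
          ENNReal.ofReal (‖F (act (a * g) (base n)) - F (act g (base n))‖ ^ 2))) := by
        intro g
        rw [mul_left_comm]
        refine mul_le_mul_right ?_ _
        rw [mul_left_comm, ← mul_add]
        refine mul_le_mul_right ?_ _
        rw [← ENNReal.ofReal_mul (by positivity), ← ENNReal.ofReal_add hε.le (by positivity)]
        exact ENNReal.ofReal_le_ofReal (lf_young (norm_nonneg _) hε)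
      calc _ ≤ ∫⁻ g, ENNReal.ofReal (Φ a.toMatrix) * (ib T g * ENNReal.ofReal ε +
            ENNReal.ofReal ε⁻¹ * (ib T g *
            ENNReal.ofReal (‖F (act (a * g) (base n)) - F (act g (base n))‖ ^ 2))) ∂(mu n) :=
            lintegral_mono h1
        _ = ENNReal.ofReal (Φ a.toMatrix) * (ENNReal.ofReal V * ENNReal.ofReal ε +
            ENNReal.ofReal ε⁻¹ * ∫⁻ g, (ib T g *
            ENNReal.ofReal (‖F (act (a * g) (base n)) - F (act g (base n))‖ ^ 2)) ∂(mu n)) := by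
            rw [lintegral_const_mul' _ _ ENNReal.ofReal_ne_top,
              lintegral_add_left ((measurable_ib T).mul_const _),
              lintegral_mul_const' _ _ ENNReal.ofReal_ne_top,
              lintegral_const_mul' _ _ ENNReal.ofReal_ne_top, lint_ib, hV]
        _ ≤ ENNReal.ofReal (Φ a.toMatrix) * (ENNReal.ofReal V * ENNReal.ofReal ε +
            ENNReal.ofReal ε⁻¹ * ENNReal.ofReal (M * ε ^ 2)) := by
            gcongr
            exact hM a ε hε.le hε1 ha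
        _ = _ := by
            congr 1
            rw [← ENNReal.ofReal_mul hV0, ← ENNReal.ofReal_mul (by positivity),
              ← ENNReal.ofReal_add (by positivity) (by positivity)]
            congr 1
            field_simp
    · have h2 : Φ a.toMatrix = 0 := hsupp _ (lt_of_not_ge ha)
      rw [h2]
      simp
  calc ∫⁻ g, ib T g * ENNReal.ofReal ‖lav Φ F (act g (base n)) - F (act g (base n))‖ ∂(mu n)
      ≤ ∫⁻ g, ib T g * ∫⁻ a : SUGroup n, ENNReal.ofReal (Φ a.toMatrix) *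
        ENNReal.ofReal ‖F (act (a * g) (base n)) - F (act g (base n))‖ ∂(mu n) ∂(mu n) :=
        lintegral_mono fun g => mul_le_mul_right (lf_enorm_le hΦ hΦ1 hF hA g) _
    _ = ∫⁻ g, ∫⁻ a : SUGroup n, ib T g * (ENNReal.ofReal (Φ a.toMatrix) *
        ENNReal.ofReal ‖F (act (a * g) (base n)) - F (act g (base n))‖) ∂(mu n) ∂(mu n) := by
        refine lintegral_congr fun g => ?_
        rw [lintegral_const_mul' _ _ (lt_of_le_of_lt (ib_le_one T g) ENNReal.one_lt_top).ne]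
    _ = ∫⁻ a : SUGroup n, ∫⁻ g, ib T g * (ENNReal.ofReal (Φ a.toMatrix) *
        ENNReal.ofReal ‖F (act (a * g) (base n)) - F (act g (base n))‖) ∂(mu n) ∂(mu n) :=
        (lintegral_lintegral_swap hmm).symm
    _ ≤ ∫⁻ a : SUGroup n, ENNReal.ofReal (Φ a.toMatrix) * ENNReal.ofReal ((V + M) * ε) ∂(mu n) :=
        lintegral_mono hin
    _ = _ := by
        rw [lintegral_mul_const' _ _ ENNReal.ofReal_ne_top,
          ← ofReal_integral_eq_lintegral_ofReal (Ax.integrable_test hΦ)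
            (Eventually.of_forall fun a => hΦ.nonneg _), hΦ1, ENNReal.ofReal_one, one_mul]

theorem lf_ae {f : ℕ → SUGroup n → ℝ≥0∞} (hf : ∀ k, AEMeasurable (f k) (mu n))
    (h : ∀ T : ℝ, ∃ K : ℝ, 0 ≤ K ∧ ∀ k, ∫⁻ g, ib T g * f k g ∂(mu n) ≤
      ENNReal.ofReal (K * (1 / 2) ^ k)) :
    ∀ᵐ g ∂(mu n), Tendsto (fun k => f k g) atTop (𝓝 0) := by
  have h1 : ∀ T : ℕ, ∀ᵐ g ∂(mu n), Tendsto (fun k => ib T g * f k g) atTop (𝓝 0) := by
    intro T
    obtain ⟨K, hK0, hK⟩ := h T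
    have h2 : ∫⁻ g, ∑' k, ib T g * f k g ∂(mu n) < ⊤ := by
      have h5 : ∀ k, AEMeasurable (fun g => ib (T : ℝ) g * f k g) (mu n) := fun k =>
        (measurable_ib (n := n) T).aemeasurable.mul (hf k)
      rw [lintegral_tsum (f := fun k g => ib (T : ℝ) g * f k g) h5]
      refine lt_of_le_of_lt (ENNReal.tsum_le_tsum hK) ?_
      rw [← ENNReal.ofReal_tsum_of_nonneg (fun k => by positivity)
        ((summable_geometric_of_lt_one (by norm_num) (by norm_num)).mul_left K)]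
      exact ENNReal.ofReal_lt_top
    have h3 := ae_lt_top' (AEMeasurable.tsum fun k =>
      (measurable_ib (n := n) T).aemeasurable.mul (hf k)) h2.ne
    filter_upwards [h3] with g hg
    exact ENNReal.tendsto_atTop_zero_of_tsum_ne_top hg.ne
  rw [← ae_all_iff] at h1
  filter_upwards [h1] with g hg
  obtain ⟨T, hT⟩ := exists_nat_ge (ch g)
  have h4 := hg T
  have h5 : ib (T : ℝ) g = 1 := by unfold ib; rw [if_pos hT]
  simpa only [h5, one_mul] using h4

theorem sig_inv {a b : Mat m} (ha : a.PosDef) (hb : b.PosDef) : sig a⁻¹ b⁻¹ = sig a b := by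
  unfold sig
  have h1 : IsUnit a.det := (Matrix.isUnit_iff_isUnit_det _).1 ha.isUnit
  have h2 : IsUnit b.det := (Matrix.isUnit_iff_isUnit_det _).1 hb.isUnit
  rw [nonsing_inv_nonsing_inv _ h1, nonsing_inv_nonsing_inv _ h2, trace_mul_comm a, trace_mul_comm b,
    add_comm]

section lim

variable {ρ : Γ →* Mat m} {χ : SUGroup n → ℝ} {N : ℕ} {C : ℝ} {F : Vec n → Mat m}

theorem LimMet.adm (hF : LimMet ρ χ N C F) : Adm N C F := ⟨hF.meas, hF.bound⟩

theorem LimMet.adm_inv (hF : LimMet ρ χ N C F) : Adm N C fun v => (F v)⁻¹ :=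
  ⟨aesm_inv hF.meas hF.opos, hF.boundInv⟩

theorem LimMet.hom_inv (hF : LimMet ρ χ N C F) : Homog fun v => (F v)⁻¹ := fun c hc v hv => by
  simp only [hF.hom c hc v hv]

theorem LimMet.lint_sq (hF : LimMet ρ χ N C F) (hΓ : Coc Γ) (hχ : Cut Γ χ) (T : ℝ) :
    ∃ M : ℝ, 0 ≤ M ∧ ∀ (a : SUGroup n) (r : ℝ), 0 ≤ r → r ≤ 1 → ‖a.toMatrix - 1‖ ≤ r →
      ∫⁻ g, ib T g * ENNReal.ofReal (‖F (act (a * g) (base n)) - F (act g (base n))‖ ^ 2) ∂(mu n) ≤
          ENNReal.ofReal (M * r ^ 2) ∧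
      ∫⁻ g, ib T g * ENNReal.ofReal (‖(F (act (a * g) (base n)))⁻¹ - (F (act g (base n)))⁻¹‖ ^ 2)
        ∂(mu n) ≤ ENNReal.ofReal (M * r ^ 2) := by
  obtain ⟨M, hM0, hM⟩ := hF.lint_sig hΓ hχ T
  obtain ⟨R, hR1, hR⟩ := hF.dT_bound (max T (4 * T))
  have hR0 : 0 < R := by linarith
  refine ⟨R ^ 2 * M, by positivity, fun a r hr0 hr1 har => ?_⟩
  have key : ∀ G : SUGroup n → ℝ, (∀ g, ch g ≤ T → G g ≤
      R ^ 2 * sig (F (act g (base n))) (F (act (a * g) (base n)))) →
      ∫⁻ g, ib T g * ENNReal.ofReal (G g) ∂(mu n) ≤ ENNReal.ofReal (R ^ 2 * M * r ^ 2) := by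
    intro G hG
    calc ∫⁻ g, ib T g * ENNReal.ofReal (G g) ∂(mu n)
        ≤ ∫⁻ g, ENNReal.ofReal (R ^ 2) * (ib T g * ENNReal.ofReal (sig (F (act g (base n)))
          (F (act (a * g) (base n))))) ∂(mu n) := by
          refine lintegral_mono fun g => ?_
          by_cases hg : ch g ≤ T
          · rw [mul_left_comm]
            refine mul_le_mul_right ?_ _
            rw [← ENNReal.ofReal_mul (by positivity)]
            exact ENNReal.ofReal_le_ofReal (hG g hg)
          · have : ib T g = 0 := by unfold ib; rw [if_neg hg]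
            simp only [this, zero_mul, mul_zero, le_refl]
      _ = ENNReal.ofReal (R ^ 2) * ∫⁻ g, (ib T g * ENNReal.ofReal (sig (F (act g (base n)))
          (F (act (a * g) (base n))))) ∂(mu n) := lintegral_const_mul' _ _ ENNReal.ofReal_ne_top
      _ ≤ ENNReal.ofReal (R ^ 2) * ENNReal.ofReal (M * r ^ 2) := by
          gcongr; exact hM a r hr0 hr1 har
      _ = _ := by rw [← ENNReal.ofReal_mul (by positivity), mul_assoc]
  have hb : ∀ g, ch g ≤ T → (ch g ≤ max T (4 * T) ∧ ch (a * g) ≤ max T (4 * T)) := by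
    intro g hg
    have h2 := lp_ch_four (har.trans hr1) g
    exact ⟨hg.trans (le_max_left _ _), le_trans (by linarith) (le_max_right _ _)⟩
  constructor
  · refine key _ fun g hg => ?_
    obtain ⟨h3, h4⟩ := hb g hg
    exact norm_sub_sq_le (hF.opos g) (hF.opos (a * g)) hR0 (hR g h3).1 (hR _ h4).1
  · refine key _ fun g hg => ?_
    obtain ⟨h3, h4⟩ := hb g hg
    rw [← sig_inv (hF.opos g) (hF.opos (a * g))]
    exact norm_sub_sq_le (hF.opos g).inv (hF.opos (a * g)).inv hR0 (hR g h3).2 (hR _ h4).2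

/-- Mollifiers converging almost everywhere on the limit metric and its inverse. -/
theorem LimMet.exists_moll_ae (hF : LimMet ρ χ N C F) (hΓ : Coc Γ) (hχ : Cut Γ χ) :
    ∃ Φ : ℕ → Mat (n + 1) → ℝ, (∀ k, Ax.Mo n (Φ k)) ∧
      (∀ k A, (1 / 2 : ℝ) ^ k < ‖A - 1‖ → Φ k A = 0) ∧
      (∀ᵐ g ∂(mu n), Tendsto (fun k => lav (Φ k) F (act g (base n))) atTop
        (𝓝 (F (act g (base n))))) ∧
      ∀ᵐ g ∂(mu n), Tendsto (fun k => lav (Φ k) (fun v => (F v)⁻¹) (act g (base n))) atTop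
        (𝓝 (F (act g (base n)))⁻¹) := by
  choose Φ hΦ using fun k : ℕ => exists_moll n (ε := (1 / 2 : ℝ) ^ k) (by positivity)
  have hle : ∀ k : ℕ, (1 / 2 : ℝ) ^ k ≤ 1 := fun k => pow_le_one₀ (by norm_num) (by norm_num)
  have key : ∀ G : Vec n → Mat m, Homog G → Adm N C G → (∀ T : ℝ, ∃ M : ℝ, 0 ≤ M ∧
      ∀ (a : SUGroup n) (r : ℝ), 0 ≤ r → r ≤ 1 → ‖a.toMatrix - 1‖ ≤ r →
      ∫⁻ g, ib T g * ENNReal.ofReal (‖G (act (a * g) (base n)) - G (act g (base n))‖ ^ 2) ∂(mu n) ≤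
          ENNReal.ofReal (M * r ^ 2)) →
      ∀ᵐ g ∂(mu n), Tendsto (fun k => lav (Φ k) G (act g (base n))) atTop
        (𝓝 (G (act g (base n)))) := by
    intro G hG hA hM
    have h1 : ∀ᵐ g ∂(mu n), Tendsto (fun k => ENNReal.ofReal
        ‖lav (Φ k) G (act g (base n)) - G (act g (base n))‖) atTop (𝓝 0) := by
      refine lf_ae (fun k => ?_) fun T => ?_
      · exact ((continuous_orb (lav_contDiffOn (hΦ k).1 hA).continuousOn).aestronglyMeasurable.sub
          hA.meas).norm.aemeasurable.ennreal_ofReal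
      · obtain ⟨M, hM0, hM'⟩ := hM T
        obtain ⟨K, hK0, hK⟩ := lf_lint hG hA T hM0 hM'
        exact ⟨K, hK0, fun k => hK (Φ k) (hΦ k).1 (hΦ k).2.1 _ (by positivity) (hle k) (hΦ k).2.2⟩
    filter_upwards [h1] with g hg
    rw [tendsto_iff_norm_sub_tendsto_zero]
    have h2 := (ENNReal.tendsto_toReal (a := 0) ENNReal.zero_ne_top).comp hg
    simpa only [Function.comp_def, ENNReal.toReal_ofReal (norm_nonneg _), ENNReal.toReal_zero]
      using h2
  refine ⟨Φ, fun k => ⟨(hΦ k).1, (hΦ k).2.1, fun A hA => (hΦ k).2.2 A (lt_of_le_of_lt (hle k) hA)⟩,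
    fun k => (hΦ k).2.2, ?_, ?_⟩
  · refine key F hF.hom hF.adm fun T => ?_
    obtain ⟨M, hM0, hM⟩ := hF.lint_sq hΓ hχ T
    exact ⟨M, hM0, fun a r h1 h2 h3 => (hM a r h1 h2 h3).1⟩
  · refine key (fun v => (F v)⁻¹) hF.hom_inv hF.adm_inv fun T => ?_
    obtain ⟨M, hM0, hM⟩ := hF.lint_sq hΓ hχ T
    exact ⟨M, hM0, fun a r h1 h2 h3 => (hM a r h1 h2 h3).2⟩

end lim

end Pool.Agent.Lib.MP_5d4057_al.HM
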