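import Pool.Agent.Lib.MP_5d4057_al.HM.Smooth
import Pool.Agent.Lib.MP_5d4057_al.HM.SmoothA
import Pool.Agent.Lib.MP_5d4057_al.HM.Mom
import Pool.Agent.Lib.MP_5d4057_al.HM.Mx

namespace Pool.Agent.Lib.MP_5d4057_al.HM

open Matrix MeasureTheory Filter Topology Pool.Agent.Lib.MP_5d4057_al Pool.Agent.Lib.MP_5d4057_al.Hyb

open scoped ComplexOrder MatrixOrder Matrix.Norms.L2Operator

variable {n m : ℕ} {E : Type} [NormedAddCommGroup E] [NormedSpace ℝ E] [CompleteSpace E]

/-- Averaging commutes with translations. -/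
theorem P_act (s : ℕ) (f : Vec n → E) (a : SUGroup n) {v : Vec n} (hv : v ∈ Cone n) :
    P s (fun w => f (act a w)) v = P s f (act a v) := by
  have _ := hv
  have h := integral_mul_left_eq_self (μ := mu n) (fun y : SUGroup n =>
    (ker s (act a v) (act y (base n)) / cs n s) • f (act y (base n))) a
  rw [P, P, ← h]
  refine integral_congr_ae (Filter.Eventually.of_forall fun y => ?_)
  simp only [act_mul, ker_act]

theorem P_const (n : ℕ) : ∃ s₀ : ℕ, ∀ s, s₀ ≤ s → ∀ c : E, ∀ v ∈ Cone n,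
    P s (fun _ : Vec n => c) v = c := by
  refine ⟨n + 1, fun s hs c v hv => ?_⟩
  obtain ⟨g, a, ha, rfl⟩ := exists_act_eq hv
  rw [P_homog s _ a ha _ (orbit_mem g), P_orbit, integral_smul_const,
    integral_kap (show n < s by omega), one_smul]

private theorem int_wgt {s N : ℕ} (h : n + N + 1 ≤ s) {C : ℝ} {f : Vec n → E} (hf : Adm N C f) :
    Integrable (wgt s f) (mu n) :=
  integrable_wgt hf (by omega) (integrable_inv (show n < s - N by omega))

private theorem int_P {s N : ℕ} (h : n + N + 1 ≤ s) {C : ℝ} {f : Vec n → E} (hf : Adm N C f)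
    {v : Vec n} (hv : v ∈ Cone n) : Integrable (fun y : SUGroup n =>
      (ker s v (act y (base n)) / cs n s) • f (act y (base n))) (mu n) :=
  integrable_P_of (int_wgt h hf) hv

private theorem ker_nn (s : ℕ) {v : Vec n} (hv : v ∈ Cone n) (y : SUGroup n) :
    0 ≤ ker s v (act y (base n)) / cs n s :=
  div_nonneg (ker_pos s hv (orbit_mem y)).le (cs_nonneg n s)

/-- Integrability in the definition of `P`. -/
theorem P_integrable (n N : ℕ) : ∃ s₀ : ℕ, ∀ s, s₀ ≤ s → ∀ (C : ℝ) (f : Vec n → E), Adm N C f →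
    ∀ v ∈ Cone n, Integrable (fun y : SUGroup n =>
      (ker s v (act y (base n)) / cs n s) • f (act y (base n))) (mu n) :=
  ⟨n + N + 1, fun _ hs _ _ hf _ hv => int_P hs hf hv⟩

private theorem kap_eq (s : ℕ) (g x : SUGroup n) :
    ker s (act g (base n)) (act (g * x) (base n)) / cs n s = kap s x := by
  rw [ker_orbit, inv_mul_cancel_left, kap]

private theorem int_kap {s N : ℕ} (h : n + N + 1 ≤ s) {C : ℝ} {f : Vec n → E} (hf : Adm N C f)
    (g : SUGroup n) : Integrable (fun x : SUGroup n => kap s x • f (act (g * x) (base n)))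
      (mu n) := by
  have h1 := (int_P h hf (orbit_mem g)).comp_mul_left g
  simp only [kap_eq] at h1
  exact h1

theorem kap_integrable (n N : ℕ) : ∃ s₀ : ℕ, ∀ s, s₀ ≤ s → ∀ (C : ℝ) (f : Vec n → E), Adm N C f →
    ∀ g : SUGroup n, Integrable (fun x : SUGroup n => kap s x • f (act (g * x) (base n)))
      (mu n) :=
  ⟨n + N + 1, fun _ hs _ _ hf g => int_kap hs hf g⟩

theorem P_add (n N : ℕ) : ∃ s₀ : ℕ, ∀ s, s₀ ≤ s → ∀ (C₁ C₂ : ℝ) (f₁ f₂ : Vec n → E),
    Adm N C₁ f₁ → Adm N C₂ f₂ → ∀ v ∈ Cone n,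
      P s (fun w => f₁ w + f₂ w) v = P s f₁ v + P s f₂ v := by
  refine ⟨n + N + 1, fun s hs C₁ C₂ f₁ f₂ h₁ h₂ v hv => ?_⟩
  rw [P, P, P, ← integral_add (int_P hs h₁ hv) (int_P hs h₂ hv)]
  simp only [smul_add]

theorem P_smul (s : ℕ) (c : ℝ) (f : Vec n → E) (v : Vec n) :
    P s (fun w => c • f w) v = c • P s f v := by
  rw [P, P, ← integral_smul]
  refine integral_congr_ae (Filter.Eventually.of_forall fun y => ?_)
  exact smul_comm _ _ _

/-- Monotonicity for real functions and for matrices. -/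
theorem P_mono (n N : ℕ) : ∃ s₀ : ℕ, ∀ s, s₀ ≤ s → ∀ (C₁ C₂ : ℝ) (f₁ f₂ : Vec n → ℝ),
    Adm N C₁ f₁ → Adm N C₂ f₂ → (∀ g : SUGroup n, f₁ (act g (base n)) ≤ f₂ (act g (base n))) →
      ∀ v ∈ Cone n, P s f₁ v ≤ P s f₂ v := by
  refine ⟨n + N + 1, fun s hs C₁ C₂ f₁ f₂ h₁ h₂ hle v hv => ?_⟩
  refine integral_mono (int_P hs h₁ hv) (int_P hs h₂ hv) fun y => ?_
  exact mul_le_mul_of_nonneg_left (hle y) (ker_nn s hv y)

private theorem smul_le_mat {A B : Mat m} {c : ℝ} (hc : 0 ≤ c) (h : A ≤ B) : c • A ≤ c • B := by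
  rw [Matrix.le_iff] at h ⊢
  rw [← smul_sub]
  exact h.smul hc

theorem P_mono_mat (n m N : ℕ) : ∃ s₀ : ℕ, ∀ s, s₀ ≤ s → ∀ (C₁ C₂ : ℝ) (f₁ f₂ : Vec n → Mat m),
    Adm N C₁ f₁ → Adm N C₂ f₂ → (∀ g : SUGroup n, f₁ (act g (base n)) ≤ f₂ (act g (base n))) →
      ∀ v ∈ Cone n, P s f₁ v ≤ P s f₂ v := by
  refine ⟨n + N + 1, fun s hs C₁ C₂ f₁ f₂ h₁ h₂ hle v hv => ?_⟩
  refine integral_mono_mat (int_P hs h₁ hv) (int_P hs h₂ hv)
    (Filter.Eventually.of_forall fun y => ?_)
  exact smul_le_mat (ker_nn s hv y) (hle y)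

private theorem mu_ne_zero (n : ℕ) : mu n ≠ 0 := by
  intro h
  have h1 := cs_pos' (show n < n + 1 by omega)
  rw [cs, h, integral_zero_measure] at h1
  exact lt_irrefl _ h1

theorem P_posDef (n m N : ℕ) : ∃ s₀ : ℕ, ∀ s, s₀ ≤ s → ∀ (C : ℝ) (f : Vec n → Mat m),
    Adm N C f → (∀ g : SUGroup n, (f (act g (base n))).PosDef) →
      ∀ v ∈ Cone n, (P s f v).PosDef := by
  refine ⟨n + N + 1, fun s hs C f hf hpos v hv => ?_⟩
  refine integral_posDef (int_P hs hf hv) (fun y => ?_) (mu_ne_zero n)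
  exact (hpos y).smul (div_pos (ker_pos s hv (orbit_mem y)) (cs_pos' (show n < s by omega)))

/-- `P` commutes with continuous linear maps. -/
theorem P_clm (n N : ℕ) {E' : Type} [NormedAddCommGroup E'] [NormedSpace ℝ E'] [CompleteSpace E'] :
    ∃ s₀ : ℕ, ∀ s, s₀ ≤ s → ∀ (C : ℝ) (f : Vec n → E) (l : E →L[ℝ] E'), Adm N C f →
      ∀ v ∈ Cone n, P s (fun w => l (f w)) v = l (P s f v) := by
  refine ⟨n + N + 1, fun s hs C f l hf v hv => ?_⟩
  rw [P, P, ← l.integral_comp_comm (int_P hs hf hv)]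
  simp only [map_smul]

/-! ### Commutation -/

/-- the kernel of `P a P b` -/
private noncomputable def RR (a b : ℕ) (v w : Vec n) : ℝ :=
  ∫ x : SUGroup n, (ker a v (act x (base n)) / cs n a) * (ker b (act x (base n)) w / cs n b) ∂(mu n)

private theorem RR_comm (a b : ℕ) {v w : Vec n} (hv : v ∈ Cone n) (hw : w ∈ Cone n) :
    RR a b v w = RR b a v w := by
  obtain ⟨g, c, d, hc, hd, hgv, hgw⟩ := exists_swap hv hw
  have h := integral_mul_left_eq_self (μ := mu n) (fun x : SUGroup n =>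
    (ker b v (act x (base n)) / cs n b) * (ker a (act x (base n)) w / cs n a)) g
  rw [RR, RR, ← h]
  refine integral_congr_ae (Filter.Eventually.of_forall fun x => ?_)
  simp only []
  have e1 : ker b v (act (g * x) (base n)) = ker b (act x (base n)) w := by
    rw [act_mul, ← ker_smul_left b hd v, ← hgw, ker_act, ker_comm]
  have e2 : ker a (act (g * x) (base n)) w = ker a v (act x (base n)) := by
    rw [act_mul, ← ker_smul_right a hc _ w, ← hgv, ker_act, ker_comm]
  rw [e1, e2]
  ring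

private theorem adm_norm {N : ℕ} {C : ℝ} {f : Vec n → E} (hf : Adm N C f) :
    Adm N C fun w => ‖f w‖ :=
  ⟨hf.meas.norm, fun y => by rw [norm_norm]; exact hf.bound y⟩

private theorem PP_eq {N : ℕ} : ∃ s₀ : ℕ, ∀ a b, s₀ ≤ a → s₀ ≤ b → ∀ (C : ℝ) (f : Vec n → E),
    Adm N C f → ∀ v ∈ Cone n, P a (P b f) v =
      ∫ z : SUGroup n, RR a b v (act z (base n)) • f (act z (base n)) ∂(mu n) := by
  obtain ⟨s₁, hs₁⟩ := P_bound (E := ℝ) n N
  refine ⟨max s₁ (n + N + 1), fun a b ha hb C f hf v hv => ?_⟩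
  have ha1 : n + N + 1 ≤ a := (le_max_right _ _).trans ha
  have hb1 : n + N + 1 ≤ b := (le_max_right _ _).trans hb
  have hb2 : s₁ ≤ b := (le_max_left _ _).trans hb
  -- continuity of the kernels
  have hc1 : Continuous fun x : SUGroup n => ker a v (act x (base n)) / cs n a := by
    obtain ⟨g, c, hc, rfl⟩ := exists_act_eq hv
    simp only [ker_smul_left a hc, ker_orbit]
    exact (((continuous_ch.comp (continuous_const.mul continuous_id)).pow _).inv₀
      fun x => pow_ne_zero _ (ch_pos _).ne').div_const _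
  have hc2 : Continuous fun p : SUGroup n × SUGroup n =>
      ker b (act p.1 (base n)) (act p.2 (base n)) / cs n b := by
    simp only [ker_orbit]
    exact (((continuous_ch.comp (continuous_fst.inv.mul continuous_snd)).pow _).inv₀
      fun x => pow_ne_zero _ (ch_pos _).ne').div_const _
  have hmeas : AEStronglyMeasurable (fun p : SUGroup n × SUGroup n =>
      (ker a v (act p.1 (base n)) / cs n a) •
        ((ker b (act p.1 (base n)) (act p.2 (base n)) / cs n b) • f (act p.2 (base n))))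
      ((mu n).prod (mu n)) := by
    refine AEStronglyMeasurable.smul (hc1.comp continuous_fst).aestronglyMeasurable ?_
    exact AEStronglyMeasurable.smul hc2.aestronglyMeasurable hf.meas.comp_snd
  have hnorm : ∀ x : SUGroup n, ∫ z : SUGroup n, ‖(ker a v (act x (base n)) / cs n a) •
      ((ker b (act x (base n)) (act z (base n)) / cs n b) • f (act z (base n)))‖ ∂(mu n) =
      (ker a v (act x (base n)) / cs n a) • P b (fun w => ‖f w‖) (act x (base n)) := by
    intro x
    rw [P, smul_eq_mul, ← integral_const_mul]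
    refine integral_congr_ae (Filter.Eventually.of_forall fun z => ?_)
    simp only []
    rw [norm_smul, norm_smul, Real.norm_of_nonneg (ker_nn a hv x),
      Real.norm_of_nonneg (ker_nn b (orbit_mem x) z), smul_eq_mul]
  have hint : Integrable (fun p : SUGroup n × SUGroup n =>
      (ker a v (act p.1 (base n)) / cs n a) •
        ((ker b (act p.1 (base n)) (act p.2 (base n)) / cs n b) • f (act p.2 (base n))))
      ((mu n).prod (mu n)) := by
    have hx : ∀ x : SUGroup n, Integrable (fun z : SUGroup n =>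
        (ker a v (act x (base n)) / cs n a) •
        ((ker b (act x (base n)) (act z (base n)) / cs n b) • f (act z (base n)))) (mu n) := by
      intro x
      have hx1 : Integrable (fun z : SUGroup n =>
          (ker b (act x (base n)) (act z (base n)) / cs n b) • f (act z (base n))) (mu n) :=
        int_P hb1 hf (orbit_mem x)
      exact hx1.smul (ker a v (act x (base n)) / cs n a)
    have hy : Integrable (fun x : SUGroup n => ∫ z : SUGroup n,
        ‖(ker a v (act x (base n)) / cs n a) •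
        ((ker b (act x (base n)) (act z (base n)) / cs n b) • f (act z (base n)))‖ ∂(mu n))
        (mu n) := by
      have hy1 : Integrable (fun x : SUGroup n =>
          (ker a v (act x (base n)) / cs n a) • P b (fun w => ‖f w‖) (act x (base n))) (mu n) :=
        int_P ha1 (hs₁ b hb2 C _ (adm_norm hf)) hv
      exact hy1.congr (Filter.Eventually.of_forall fun x => (hnorm x).symm)
    exact (integrable_prod_iff hmeas).2 ⟨Filter.Eventually.of_forall hx, hy⟩
  have h1 : P a (P b f) v = ∫ x : SUGroup n, ∫ z : SUGroup n,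
      (ker a v (act x (base n)) / cs n a) •
        ((ker b (act x (base n)) (act z (base n)) / cs n b) • f (act z (base n)))
        ∂(mu n) ∂(mu n) := by
    rw [P]
    refine integral_congr_ae (Filter.Eventually.of_forall fun x => ?_)
    simp only []
    rw [P, ← integral_smul]
  rw [h1, integral_integral_swap hint]
  refine integral_congr_ae (Filter.Eventually.of_forall fun z => ?_)
  simp only []
  rw [RR, ← integral_smul_const]
  refine integral_congr_ae (Filter.Eventually.of_forall fun x => ?_)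
  exact smul_smul _ _ _

/-- `P a` and `P b` commute (blueprint A7): `P a (P b f) v = ∫ R(v,z) f(z) dz` with
`R(v,z) = ∫ K_a(v,y) K_b(y,z) dy`; by `exists_swap` and invariance of `μ` (inversion, left, right)
`R(v,z) = R(z,v)`, which is the kernel of `P b (P a f)`. -/
theorem P_comm (hn : 1 ≤ n) (N : ℕ) : ∃ s₀ : ℕ, ∀ a b, s₀ ≤ a → s₀ ≤ b → ∀ (C : ℝ) (f : Vec n → E),
    Adm N C f → ∀ v ∈ Cone n, P a (P b f) v = P b (P a f) v := by
  have _ := hn
  obtain ⟨s₀, hs₀⟩ := PP_eq (n := n) (E := E) (N := N)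
  refine ⟨s₀, fun a b ha hb C f hf v hv => ?_⟩
  rw [hs₀ a b ha hb C f hf v hv, hs₀ b a hb ha C f hf v hv]
  refine integral_congr_ae (Filter.Eventually.of_forall fun z => ?_)
  simp only []
  rw [RR_comm a b hv (orbit_mem z)]

/-! ### Limits -/

private theorem adm_W (N : ℕ) (C : ℝ) : Adm N |C| fun w : Vec n => C * W w ^ N := by
  constructor
  · simp only [W_orbit]
    exact (continuous_const.mul ((continuous_ch.pow 2).pow N)).aestronglyMeasurable
  · intro y
    rw [W_orbit, Real.norm_eq_abs, abs_mul, ← pow_mul, abs_of_nonneg (pow_nonneg (ch_pos y).le _)]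

/-- Dominated convergence for `P`. -/
theorem P_tendsto_of_ae (n N : ℕ) : ∃ s₀ : ℕ, ∀ s, s₀ ≤ s → ∀ (C : ℝ) (f : ℕ → Vec n → E)
    (f₀ : Vec n → E), (∀ j, Adm N C (f j)) →
    (∀ᵐ g ∂(mu n), Tendsto (fun j => f j (act g (base n))) atTop (𝓝 (f₀ (act g (base n))))) →
      ∀ v ∈ Cone n, Tendsto (fun j => P s (f j) v) atTop (𝓝 (P s f₀ v)) := by
  refine ⟨n + N + 1, fun s hs C f f₀ hf hlim v hv => ?_⟩
  refine tendsto_integral_of_dominated_convergence
    (fun y => (ker s v (act y (base n)) / cs n s) • (C * W (act y (base n)) ^ N))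
    (fun j => (int_P hs (hf j) hv).aestronglyMeasurable) (int_P hs (adm_W N C) hv)
    (fun j => Filter.Eventually.of_forall fun y => ?_) ?_
  · rw [norm_smul, Real.norm_of_nonneg (ker_nn s hv y), smul_eq_mul, W_orbit, ← pow_mul]
    exact mul_le_mul_of_nonneg_left ((hf j).bound y) (ker_nn s hv y)
  · filter_upwards [hlim] with y hy
    exact hy.const_smul _

/-- Continuous homogeneous functions on the cone. -/
theorem continuous_orbit_of {f : Vec n → E} (hc : ContinuousOn f (Cone n)) :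
    Continuous fun g : SUGroup n => f (act g (base n)) :=
  hc.comp_continuous continuous_orbit orbit_mem

private theorem unif_cont {f₀ : Vec n → E} (hc : ContinuousOn f₀ (Cone n)) (hh : Homog f₀)
    (T : ℝ) {ε : ℝ} (hε : 0 < ε) : ∃ e : ℝ, 0 < e ∧ e ≤ 1 ∧ ∀ g x : SUGroup n, ch g ≤ T →
      ch x ^ 2 - 1 < e → ‖f₀ (act (g * x) (base n)) - f₀ (act g (base n))‖ < ε := by
  have hcont := continuous_orbit_of hc
  have hF : Continuous fun p : SUGroup n × SUGroup n =>
      ‖f₀ (act (p.1 * p.2) (base n)) - f₀ (act p.1 (base n))‖ :=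
    ((hcont.comp (continuous_fst.mul continuous_snd)).sub (hcont.comp continuous_fst)).norm
  have hK : IsCompact (({g : SUGroup n | ch g ≤ T} ×ˢ {x : SUGroup n | ch x ≤ 2}) ∩
      {p : SUGroup n × SUGroup n |
        ε ≤ ‖f₀ (act (p.1 * p.2) (base n)) - f₀ (act p.1 (base n))‖}) :=
    ((isCompact_ball T).prod (isCompact_ball 2)).inter_right (isClosed_le continuous_const hF)
  have hpos : ∀ p ∈ (({g : SUGroup n | ch g ≤ T} ×ˢ {x : SUGroup n | ch x ≤ 2}) ∩
      {p : SUGroup n × SUGroup n |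
        ε ≤ ‖f₀ (act (p.1 * p.2) (base n)) - f₀ (act p.1 (base n))‖}), 0 < ch p.2 ^ 2 - 1 := by
    rintro ⟨g, x⟩ ⟨-, hp⟩
    have h1 := one_le_ch x
    rcases h1.eq_or_lt with h2 | h2
    · exfalso
      obtain ⟨c, hc1, hc2⟩ := (ch_eq_one_iff x).1 h2.symm
      have hc0 : c ≠ 0 := by
        intro h3
        rw [h3, norm_zero] at hc1
        exact zero_ne_one hc1
      have h3 : f₀ (act (g * x) (base n)) = f₀ (act g (base n)) := by
        rw [act_mul, hc2, act_smul]
        exact hh c hc0 _ (orbit_mem g)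
      simp only [Set.mem_ofPred_eq] at hp
      rw [h3, sub_self, norm_zero] at hp
      linarith
    · change 0 < ch x ^ 2 - 1
      nlinarith
  rcases (({g : SUGroup n | ch g ≤ T} ×ˢ {x : SUGroup n | ch x ≤ 2}) ∩
      {p : SUGroup n × SUGroup n |
        ε ≤ ‖f₀ (act (p.1 * p.2) (base n)) - f₀ (act p.1 (base n))‖}).eq_empty_or_nonempty
      with hem | hne
  · refine ⟨1, one_pos, le_rfl, fun g x hg hx => ?_⟩
    by_contra hcon
    push Not at hcon
    have hx2 : ch x ≤ 2 := by
      have := ch_pos x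
      nlinarith
    have : (g, x) ∈ (({g : SUGroup n | ch g ≤ T} ×ˢ {x : SUGroup n | ch x ≤ 2}) ∩
        {p : SUGroup n × SUGroup n |
          ε ≤ ‖f₀ (act (p.1 * p.2) (base n)) - f₀ (act p.1 (base n))‖}) := ⟨⟨hg, hx2⟩, hcon⟩
    rw [hem] at this
    exact this
  · obtain ⟨p₀, hp₀, hmin⟩ := hK.exists_isMinOn hne
      (((continuous_ch.comp continuous_snd).pow 2).sub continuous_const).continuousOn
    have he0 := hpos p₀ hp₀
    refine ⟨min 1 (ch p₀.2 ^ 2 - 1), lt_min one_pos he0, min_le_left _ _, fun g x hg hx => ?_⟩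
    by_contra hcon
    push Not at hcon
    have hx1 : ch x ^ 2 - 1 < 1 := lt_of_lt_of_le hx (min_le_left _ _)
    have hx3 : ch x ^ 2 - 1 < ch p₀.2 ^ 2 - 1 := lt_of_lt_of_le hx (min_le_right _ _)
    have hx2 : ch x ≤ 2 := by
      have := ch_pos x
      nlinarith
    have h1 := hmin (show (g, x) ∈ _ from ⟨⟨hg, hx2⟩, hcon⟩)
    simp only [Set.mem_ofPred_eq] at h1
    exact absurd h1 (not_le.2 hx3)

/-- `P s f → f` locally uniformly, also for a locally uniformly convergent family. -/
theorem P_tendsto (n N : ℕ) {C : ℝ} {f : ℕ → Vec n → E} {f₀ : Vec n → E} (hf : ∀ j, Adm N C (f j))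
    (hc : ContinuousOn f₀ (Cone n)) (hh : Homog f₀)
    (h : ∀ T ε : ℝ, 0 < ε → ∃ j₀ : ℕ, ∀ j, j₀ ≤ j → ∀ g : SUGroup n, ch g ≤ T →
      ‖f j (act g (base n)) - f₀ (act g (base n))‖ ≤ ε) :
    ∀ T ε : ℝ, 0 < ε → ∃ j₀ s₁ : ℕ, ∀ j, j₀ ≤ j → ∀ s, s₁ ≤ s → ∀ g : SUGroup n, ch g ≤ T →
      ‖P s (f j) (act g (base n)) - f₀ (act g (base n))‖ ≤ ε := by
  -- the limit has the same growth
  have hC : 0 ≤ C := by
    have h1 := (norm_nonneg _).trans ((hf 0).bound 1)
    rw [ch_one, one_pow, mul_one] at h1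
    exact h1
  have hf₀ : ∀ g : SUGroup n, ‖f₀ (act g (base n))‖ ≤ C * ch g ^ (2 * N) := by
    intro g
    refine le_of_forall_pos_le_add fun ε hε => ?_
    obtain ⟨j₀, hj₀⟩ := h (ch g) ε hε
    have h1 := hj₀ j₀ le_rfl g le_rfl
    have h2 := (hf j₀).bound g
    have h3 : ‖f₀ (act g (base n))‖ ≤ ‖f j₀ (act g (base n))‖ +
        ‖f j₀ (act g (base n)) - f₀ (act g (base n))‖ := by
      have h4 := norm_sub_le (f j₀ (act g (base n))) (f j₀ (act g (base n)) - f₀ (act g (base n)))
      rwa [sub_sub_cancel] at h4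
    linarith
  intro T' ε hε
  obtain ⟨T, hT⟩ : ∃ T : ℝ, T = max T' 1 := ⟨_, rfl⟩
  have hT1 : 1 ≤ T := by rw [hT]; exact le_max_right _ _
  have hTT : T' ≤ T := by rw [hT]; exact le_max_left _ _
  obtain ⟨e, he0, he1, hue⟩ := unif_cont hc hh T (show 0 < ε / 4 by positivity)
  obtain ⟨j₀, hj₀⟩ := h (4 * T) (ε / 4) (by positivity)
  obtain ⟨D, hD0, hD⟩ := mom_tail n N 1 he0
  obtain ⟨K, hK⟩ : ∃ K : ℝ, K = C * (2 * T) ^ (2 * N) + C * T ^ (2 * N) := ⟨_, rfl⟩
  have hK0 : 0 ≤ K := by rw [hK]; positivity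
  obtain ⟨s₂, hs₂⟩ := exists_nat_ge (2 * (K * D) / ε)
  refine ⟨j₀, max (max (n + N + 2) s₂) 1, fun j hj s hs g hg' => ?_⟩
  have hg : ch g ≤ T := hg'.trans hTT
  have hs1 : n + N + 2 ≤ s := ((le_max_left _ _).trans (le_max_left _ _)).trans hs
  have hs2 : (s₂ : ℝ) ≤ s := by
    exact_mod_cast ((le_max_right _ _).trans (le_max_left _ _)).trans hs
  have hs3 : (1 : ℝ) ≤ s := by exact_mod_cast (le_max_right _ _).trans hs
  have hs0 : (0 : ℝ) < s := by linarith
  have hkapi : Integrable (kap s : SUGroup n → ℝ) (mu n) := integrable_kap (by omega)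
  have hkap1 : ∫ x : SUGroup n, kap s x ∂(mu n) = 1 := integral_kap (by omega)
  have h1 : Integrable (fun x : SUGroup n => kap s x • f j (act (g * x) (base n))) (mu n) :=
    int_kap (by omega) (hf j) g
  have h2 : Integrable (fun x : SUGroup n => kap s x • f₀ (act g (base n))) (mu n) :=
    hkapi.smul_const _
  have h3 : P s (f j) (act g (base n)) - f₀ (act g (base n)) =
      ∫ x : SUGroup n, (kap s x • f j (act (g * x) (base n)) - kap s x • f₀ (act g (base n)))
        ∂(mu n) := by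
    rw [integral_sub h1 h2, integral_smul_const, hkap1, one_smul, P_orbit]
  obtain ⟨A, hA⟩ : ∃ A : Set (SUGroup n), A = {x : SUGroup n | e ≤ ch x ^ 2 - 1} := ⟨_, rfl⟩
  have hAm : MeasurableSet A := by
    rw [hA]
    exact (isClosed_le continuous_const ((continuous_ch.pow 2).sub continuous_const)).measurableSet
  have hmomi : Integrable (fun x : SUGroup n => kap s x * ch x ^ (2 * N)) (mu n) :=
    integrable_kap_pow (by omega)
  have hbi : Integrable (fun x : SUGroup n => kap s x * (ε / 2) +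
      A.indicator (fun x => K * (kap s x * ch x ^ (2 * N))) x) (mu n) :=
    (hkapi.mul_const _).add ((hmomi.const_mul K).indicator hAm)
  have hpt : ∀ x : SUGroup n,
      ‖kap s x • f j (act (g * x) (base n)) - kap s x • f₀ (act g (base n))‖ ≤
        kap s x * (ε / 2) + A.indicator (fun x => K * (kap s x * ch x ^ (2 * N))) x := by
    intro x
    have hk := kap_nonneg s x
    rw [← smul_sub, norm_smul, Real.norm_of_nonneg hk]
    by_cases hx : x ∈ A
    · rw [Set.indicator_of_mem hx]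
      have h4 : ‖f j (act (g * x) (base n)) - f₀ (act g (base n))‖ ≤ K * ch x ^ (2 * N) := by
        refine (norm_sub_le _ _).trans ?_
        have h5 : ‖f j (act (g * x) (base n))‖ ≤ C * (2 * T) ^ (2 * N) * ch x ^ (2 * N) := by
          refine ((hf j).bound (g * x)).trans ?_
          rw [mul_assoc, ← mul_pow]
          refine mul_le_mul_of_nonneg_left (pow_le_pow_left₀ (ch_pos _).le ?_ _) hC
          refine (ch_mul_le' g x).trans ?_
          have := ch_pos x
          nlinarith
        have h6 : ‖f₀ (act g (base n))‖ ≤ C * T ^ (2 * N) * ch x ^ (2 * N) := by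
          refine (hf₀ g).trans ?_
          have h7 : ch g ^ (2 * N) ≤ T ^ (2 * N) := pow_le_pow_left₀ (ch_pos g).le hg _
          have h8 : 1 ≤ ch x ^ (2 * N) := one_le_pow₀ (one_le_ch x)
          have h9 : C * ch g ^ (2 * N) ≤ C * T ^ (2 * N) := mul_le_mul_of_nonneg_left h7 hC
          have h10 : 0 ≤ C * T ^ (2 * N) := by positivity
          nlinarith
        rw [hK, add_mul]
        exact add_le_add h5 h6
      have h11 : 0 ≤ kap s x * (ε / 2) := by positivity
      have h12 := mul_le_mul_of_nonneg_left h4 hk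
      calc kap s x * ‖f j (act (g * x) (base n)) - f₀ (act g (base n))‖
          ≤ kap s x * (K * ch x ^ (2 * N)) := h12
        _ = K * (kap s x * ch x ^ (2 * N)) := by ring
        _ ≤ _ := by linarith
    · rw [Set.indicator_of_notMem hx, add_zero]
      refine mul_le_mul_of_nonneg_left ?_ hk
      have hx' : ch x ^ 2 - 1 < e := by
        rw [hA, Set.mem_ofPred_eq, not_le] at hx
        exact hx
      have h4 := hue g x hg hx'
      have hx2 : ch x ≤ 2 := by
        have := ch_pos x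
        nlinarith
      have h5 := hj₀ j hj (g * x) (by
        refine (ch_mul_le' g x).trans ?_
        have := ch_pos x
        nlinarith)
      have h6 : f j (act (g * x) (base n)) - f₀ (act g (base n)) =
          (f j (act (g * x) (base n)) - f₀ (act (g * x) (base n))) +
            (f₀ (act (g * x) (base n)) - f₀ (act g (base n))) := by abel
      rw [h6]
      refine (norm_add_le _ _).trans ?_
      linarith
  rw [h3]
  refine (norm_integral_le_integral_norm _).trans ?_
  refine (integral_mono (h1.sub h2).norm hbi hpt).trans ?_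
  rw [integral_add (hkapi.mul_const _) ((hmomi.const_mul K).indicator hAm), integral_mul_const,
    hkap1, one_mul, integral_indicator hAm, integral_const_mul, hA]
  have h7 := hD s (by omega)
  rw [pow_one] at h7
  have h8 : K * (∫ x in {x : SUGroup n | e ≤ ch x ^ 2 - 1}, kap s x * ch x ^ (2 * N) ∂(mu n)) ≤
      ε / 2 := by
    refine (mul_le_mul_of_nonneg_left h7 hK0).trans ?_
    rw [← mul_div_assoc, div_le_iff₀ hs0]
    have h9 : 2 * (K * D) / ε ≤ s := hs₂.trans hs2
    rw [div_le_iff₀ hε] at h9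
    linarith
  linarith

/-- Harnack inequality: `P s f (g x) ≤ wt x ^ (2 s) P s f (g)` for `f ≥ 0`. -/
theorem P_harnack (n m N : ℕ) : ∃ s₀ : ℕ, ∀ s, s₀ ≤ s → ∀ (C : ℝ) (f : Vec n → Mat m),
    Adm N C f → (∀ g : SUGroup n, (f (act g (base n))).PosSemidef) → ∀ g x : SUGroup n,
      P s f (act (g * x) (base n)) ≤ (wt x ^ (2 * s) : ℂ) • P s f (act g (base n)) := by
  refine ⟨n + N + 1, fun s hs C f hf hpos g x => ?_⟩
  have hwt : 0 < wt x := lt_of_lt_of_le one_pos (one_le_wt x)
  have h1 : ∀ y : SUGroup n, ker s (act (g * x) (base n)) (act y (base n)) / cs n s ≤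
      wt x ^ (2 * s) * (ker s (act g (base n)) (act y (base n)) / cs n s) := by
    intro y
    rw [← mul_div_assoc]
    refine div_le_div_of_nonneg_right ?_ (cs_nonneg n s)
    rw [ker_orbit, ker_orbit]
    have h2 : ch (g⁻¹ * y) ≤ wt x * ch ((g * x)⁻¹ * y) := by
      have h3 := ch_mul_le_wt x ((g * x)⁻¹ * y)
      have h3' : x * ((g * x)⁻¹ * y) = g⁻¹ * y := by
        rw [_root_.mul_inv_rev, mul_assoc, mul_inv_cancel_left]
      rwa [h3'] at h3
    have h4 := pow_le_pow_left₀ (ch_pos (g⁻¹ * y)).le h2 (2 * s)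
    rw [mul_pow] at h4
    have h5 : 0 < ch ((g * x)⁻¹ * y) ^ (2 * s) := pow_pos (ch_pos _) _
    have h6 : 0 < ch (g⁻¹ * y) ^ (2 * s) := pow_pos (ch_pos _) _
    rw [← div_eq_mul_inv, inv_eq_one_div, div_le_div_iff₀ h5 h6, one_mul]
    exact h4
  have h2 : (wt x ^ (2 * s) : ℂ) • P s f (act g (base n)) =
      ∫ y : SUGroup n, (wt x ^ (2 * s) * (ker s (act g (base n)) (act y (base n)) / cs n s)) •
        f (act y (base n)) ∂(mu n) := by
    have h3 : (wt x ^ (2 * s) : ℂ) • P s f (act g (base n)) =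
        (wt x ^ (2 * s) : ℝ) • P s f (act g (base n)) := by
      ext i j
      rw [Matrix.smul_apply, Matrix.smul_apply, smul_eq_mul, Complex.real_smul]
      push_cast
      rfl
    rw [h3, P, ← integral_smul]
    refine integral_congr_ae (Filter.Eventually.of_forall fun y => ?_)
    exact smul_smul _ _ _
  rw [h2, P]
  refine integral_mono_mat (int_P hs hf (orbit_mem (g * x))) ?_
    (Filter.Eventually.of_forall fun y => ?_)
  · have h3 : Integrable (fun y : SUGroup n => (wt x ^ (2 * s)) •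
        ((ker s (act g (base n)) (act y (base n)) / cs n s) • f (act y (base n)))) (mu n) :=
      (int_P hs hf (orbit_mem g)).smul (wt x ^ (2 * s))
    have h4 : ∀ y : SUGroup n, (wt x ^ (2 * s)) •
        ((ker s (act g (base n)) (act y (base n)) / cs n s) • f (act y (base n))) =
        (wt x ^ (2 * s) * (ker s (act g (base n)) (act y (base n)) / cs n s)) •
          f (act y (base n)) := fun y => smul_smul _ _ _
    exact h3.congr (Filter.Eventually.of_forall h4)
  · rw [Matrix.le_iff, ← sub_smul]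
    exact (hpos y).smul (sub_nonneg.2 (h1 y))

end Pool.Agent.Lib.MP_5d4057_al.HM
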