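import Pool.Agent.Lib.MP_5d4057_al.HM.GreenA
import Pool.Agent.Lib.MP_5d4057_al.HM.LapKer

/-! Green's formula with compact support, cut-off functions, decay of the kernel and of its derivatives. -/

namespace Pool.Agent.Lib.MP_5d4057_al.HM

open Matrix MeasureTheory Filter Topology Pool.Agent.Lib.MP_5d4057_al Pool.Agent.Lib.MP_5d4057_al.Hyb

open scoped ComplexOrder MatrixOrder Matrix.Norms.L2Operator

variable {n m : ℕ} {E : Type} [NormedAddCommGroup E] [NormedSpace ℝ E]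

/-- derivatives of a function vanish where the function does -/
theorem gr_supp {φ : Vec n → ℝ} (hφ : Homog φ) (hφ2 : ContDiffOn ℝ 2 φ (Cone n))
    {S : Set (SUGroup n)} (hS : IsClosed S) (h0 : ∀ g, g ∉ S → φ (act g (base n)) = 0)
    (ξ : Fin n → ℂ) (hξ : ∑ i, ‖ξ i‖ ^ 2 = 1) :
    (∀ g, g ∉ S → fderiv ℝ φ (act g (base n)) (act g (vec ξ)) = 0) ∧
      ∀ g, g ∉ S → fderiv ℝ (fderiv ℝ φ) (act g (base n)) (act g (vec ξ)) (act g (vec ξ)) = 0 := by
  obtain ⟨b, hb0, hb, hbc, -, hbd⟩ := exists_flow ξ hξ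
  have hnear : ∀ g, g ∉ S → ∀ᶠ t in 𝓝 (0 : ℝ), g * b t ∉ S := by
    intro g hg
    have hc : Continuous fun t : ℝ => g * b t := continuous_const.mul hbc
    have h1 : (Sᶜ : Set (SUGroup n)) ∈ 𝓝 (g * b 0) := by
      rw [hb0, mul_one]
      exact hS.isOpen_compl.mem_nhds hg
    exact hc.continuousAt.eventually_mem h1
  have h1 : ∀ g, g ∉ S → fderiv ℝ φ (act g (base n)) (act g (vec ξ)) = 0 := by
    intro g hg
    have a0 := hasDerivAt_flow hbd g 0
      ((gr_contDiffAt hφ2 (orbit_mem (n := n) (g * b 0))).differentiableAt (by norm_num))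
    have a1 : HasDerivAt (fun t => φ (act (g * b t) (base n))) 0 0 := by
      refine (hasDerivAt_const (0 : ℝ) (0 : ℝ)).congr_of_eventuallyEq ?_
      filter_upwards [hnear g hg] with t ht
      exact h0 _ ht
    have h2 := a0.unique a1
    rwa [hb0, mul_one] at h2
  refine ⟨h1, fun g hg => ?_⟩
  have a0 := hasDerivAt_flow_two hφ hξ hbd g 0 (gr_contDiffAt hφ2 (orbit_mem (n := n) (g * b 0)))
  have a1 : HasDerivAt (fun t => fderiv ℝ φ (act (g * b t) (base n)) (act (g * b t) (vec ξ))) 0 0 := by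
    refine (hasDerivAt_const (0 : ℝ) (0 : ℝ)).congr_of_eventuallyEq ?_
    filter_upwards [hnear g hg] with t ht
    exact h1 _ ht
  have h2 := a0.unique a1
  rwa [hb0, mul_one] at h2

/-- Green's formula with a compactly supported function -/
theorem gr_compact [CompleteSpace E] {φ : Vec n → ℝ} {f : Vec n → E} (hφ : Homog φ)
    (hφ2 : ContDiffOn ℝ 2 φ (Cone n)) (hφs : HasCompactSupport fun g : SUGroup n => φ (act g (base n)))
    (hf : Homog f) (hf2 : ContDiffOn ℝ 2 f (Cone n)) :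
    ∫ g, φ (act g (base n)) • Lap f (act g (base n)) ∂(mu n) =
      ∫ g, Lap φ (act g (base n)) • f (act g (base n)) ∂(mu n) := by
  have hS : IsClosed (tsupport fun g : SUGroup n => φ (act g (base n))) := isClosed_tsupport _
  have hz : ∀ g, g ∉ tsupport (fun g : SUGroup n => φ (act g (base n))) → φ (act g (base n)) = 0 :=
    fun g hg => image_eq_zero_of_notMem_tsupport (f := fun g : SUGroup n => φ (act g (base n))) hg
  have key : ∀ F : SUGroup n → E, Continuous F →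
      (∀ g, g ∉ tsupport (fun g : SUGroup n => φ (act g (base n))) → F g = 0) →
      Integrable F (mu n) := fun F hF h => hF.integrable_of_hasCompactSupport
        (HasCompactSupport.intro hφs h)
  have hcφ := gr_orbit hφ2.continuousOn
  have hcf := gr_orbit hf2.continuousOn
  refine gr_green hφ hφ2 hf hf2 (fun ξ hξ => ?_) (fun ξ hξ => ?_) (fun ξ hξ => ?_) (fun ξ hξ => ?_)
  · refine key _ (hcφ.smul ((gr_orbit (gr_fderiv hf2)).clm_apply (gr_act _))) fun g hg => ?_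
    rw [hz g hg, zero_smul]
  · refine key _ (((gr_orbit (gr_fderiv hφ2)).clm_apply (gr_act _)).smul hcf) fun g hg => ?_
    rw [(gr_supp hφ hφ2 hS hz ξ hξ).1 g hg, zero_smul]
  · refine key _ (hcφ.smul (((gr_orbit (gr_fderiv_two hf2)).clm_apply (gr_act _)).clm_apply
      (gr_act _))) fun g hg => ?_
    rw [hz g hg, zero_smul]
  · refine key _ ((((gr_orbit (gr_fderiv_two hφ2)).clm_apply (gr_act _)).clm_apply
      (gr_act _)).smul hcf) fun g hg => ?_
    rw [(gr_supp hφ hφ2 hS hz ξ hξ).2 g hg, zero_smul]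

theorem gr_q_contDiff : ContDiff ℝ (⊤ : ℕ∞) (q (n := n)) := by
  have h : (q : Vec n → ℝ) = fun v => ∑ i : Fin n, ‖v i.castSucc‖ ^ 2 - ‖v (Fin.last n)‖ ^ 2 := by
    funext v
    exact q_eq v
  rw [h]
  have hn : ∀ i : Fin (n + 1), ContDiff ℝ (⊤ : ℕ∞) (fun v : Vec n => ‖v i‖ ^ 2) := fun i =>
    (contDiff_apply ℝ ℂ i).norm_sq ℝ
  exact (ContDiff.sum fun i _ => hn _).sub (hn _)

theorem gr_W_contDiffOn : ContDiffOn ℝ (⊤ : ℕ∞) (W (n := n)) (Cone n) := by
  unfold W
  refine ContDiffOn.div ?_ gr_q_contDiff.neg.contDiffOn fun v hv => ?_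
  · exact ((contDiff_apply ℝ ℂ (Fin.last n)).norm_sq ℝ).contDiffOn
  · have h : q v < 0 := hv
    linarith

theorem gr_W_homog {c : ℂ} (hc : c ≠ 0) (v : Vec n) : W (c • v) = W v := by
  unfold W
  have h1 : ‖c‖ ^ 2 ≠ 0 := pow_ne_zero 2 (norm_ne_zero_iff.2 hc)
  rw [q_smul, Pi.smul_apply, smul_eq_mul, norm_mul, mul_pow, ← mul_neg, mul_div_mul_left _ _ h1]

theorem gr_cutoff (n : ℕ) (T : ℝ) : ∃ φ : Vec n → ℝ, Homog φ ∧
    ContDiffOn ℝ (⊤ : ℕ∞) φ (Cone n) ∧ HasCompactSupport (fun g : SUGroup n => φ (act g (base n))) ∧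
    (∀ v ∈ Cone n, 0 ≤ φ v ∧ φ v ≤ 1) ∧ ∀ g : SUGroup n, ch g ≤ T → φ (act g (base n)) = 1 := by
  have hT : 0 < T ^ 2 + 1 := by positivity
  refine ⟨fun v => Real.smoothTransition (2 - W v / (T ^ 2 + 1)), ?_, ?_, ?_, ?_, ?_⟩
  · intro c hc v _
    show Real.smoothTransition _ = Real.smoothTransition _
    rw [gr_W_homog hc]
  · exact Real.smoothTransition.contDiff.comp_contDiffOn
      (contDiffOn_const.sub (gr_W_contDiffOn.div_const _))
  · refine HasCompactSupport.intro (isCompact_ball (Real.sqrt (2 * (T ^ 2 + 1)))) fun g hg => ?_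
    have h1 : Real.sqrt (2 * (T ^ 2 + 1)) < ch g := not_le.1 hg
    have h2 : 2 * (T ^ 2 + 1) < ch g ^ 2 := by
      have := Real.lt_sq_of_sqrt_lt h1
      exact this
    refine Real.smoothTransition.zero_of_nonpos ?_
    rw [W_orbit, sub_nonpos, le_div_iff₀ hT]
    exact h2.le
  · intro v _
    exact ⟨Real.smoothTransition.nonneg _, Real.smoothTransition.le_one _⟩
  · intro g hg
    refine Real.smoothTransition.one_of_one_le ?_
    have h1 : ch g ^ 2 ≤ T ^ 2 := pow_le_pow_left₀ (zero_le_one.trans (one_le_ch g)) hg 2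
    have h2 : ch g ^ 2 / (T ^ 2 + 1) ≤ 1 := (div_le_one hT).2 (by linarith)
    rw [W_orbit]
    linarith

/-- decay of the kernel -/
theorem gr_ker_le (s : ℕ) {v : Vec n} (hv : v ∈ Cone n) : ∃ C : ℝ, 0 < C ∧ ∀ g : SUGroup n,
    ker s v (act g (base n)) ≤ C * (ch g ^ (2 * s))⁻¹ := by
  obtain ⟨g₀, c, hc, rfl⟩ := exists_act_eq hv
  have h0 : 0 < ch g₀ := zero_lt_one.trans_le (one_le_ch g₀)
  refine ⟨(2 * ch g₀) ^ (2 * s), by positivity, fun g => ?_⟩
  rw [ker_smul_left s hc, ker_orbit]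
  have h1 : 0 < ch g := zero_lt_one.trans_le (one_le_ch g)
  have h2 : 0 < ch (g₀⁻¹ * g) := zero_lt_one.trans_le (one_le_ch _)
  have h3 : ch g ≤ 2 * ch g₀ * ch (g₀⁻¹ * g) := by
    have := ch_mul_le' g₀ (g₀⁻¹ * g)
    rwa [mul_inv_cancel_left] at this
  have h4 : ch g ^ (2 * s) ≤ (2 * ch g₀) ^ (2 * s) * ch (g₀⁻¹ * g) ^ (2 * s) := by
    rw [← mul_pow]
    exact pow_le_pow_left₀ h1.le h3 _
  rw [← div_eq_mul_inv, le_div_iff₀ (by positivity), inv_mul_le_iff₀ (by positivity)]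
  linarith

/-- the derivative of an orbit map along the flow -/
theorem gr_act_flow {ξ : Fin n → ℂ} {b : ℝ → SUGroup n}
    (hbd : ∀ t, HasDerivAt (fun t => (b t).toMatrix) ((b t).toMatrix * xmat ξ) t) (g : SUGroup n)
    (w : Vec n) (t : ℝ) :
    HasDerivAt (fun t => act (g * b t) w) (act (g * b t) (xmat ξ *ᵥ w)) t := by
  let L : Mat (n + 1) →ₗ[ℝ] Vec n :=
    { toFun := fun M => (g.toMatrix * M) *ᵥ w
      map_add' := fun M N => by rw [Matrix.mul_add, Matrix.add_mulVec]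
      map_smul' := fun r M => by
        rw [Matrix.mul_smul, Matrix.smul_mulVec]
        rfl }
  have h1 : HasDerivAt (fun t => L.toContinuousLinearMap ((b t).toMatrix))
      (L.toContinuousLinearMap ((b t).toMatrix * xmat ξ)) t :=
    L.toContinuousLinearMap.hasFDerivAt.comp_hasDerivAt t (hbd t)
  have e1 : (fun t => L.toContinuousLinearMap ((b t).toMatrix)) = fun t => act (g * b t) w := by
    funext t
    rfl
  have e2 : L.toContinuousLinearMap ((b t).toMatrix * xmat ξ) = act (g * b t) (xmat ξ *ᵥ w) := by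
    show (g.toMatrix * ((b t).toMatrix * xmat ξ)) *ᵥ w = (g * b t).toMatrix *ᵥ (xmat ξ *ᵥ w)
    rw [Matrix.mulVec_mulVec, toMatrix_mul, Matrix.mul_assoc]
  rw [e1, e2] at h1
  exact h1

theorem gr_vec_last (ξ : Fin n → ℂ) : vec ξ (Fin.last n) = 0 := by
  rw [vec, Fin.snoc_last]

theorem gr_vec_castSucc (ξ : Fin n → ℂ) (i : Fin n) : vec ξ i.castSucc = ξ i := by
  rw [vec, Fin.snoc_castSucc]

theorem gr_base_dot (w : Vec n) : base n ⬝ᵥ w = w (Fin.last n) := by
  rw [base, single_one_dotProduct]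

theorem gr_xmat_base (ξ : Fin n → ℂ) : xmat ξ *ᵥ base n = vec ξ := by
  rw [xmat, Matrix.add_mulVec, Matrix.vecMulVec_mulVec, Matrix.vecMulVec_mulVec, gr_base_dot]
  have h1 : base n (Fin.last n) = 1 := by rw [base, Pi.single_eq_same]
  have h2 : star (vec ξ) ⬝ᵥ base n = 0 := by
    rw [base, dotProduct_single_one, Pi.star_apply, gr_vec_last, star_zero]
  rw [h1, h2]
  simp

theorem gr_xmat_vec (ξ : Fin n → ℂ) (hξ : ∑ i, ‖ξ i‖ ^ 2 = 1) : xmat ξ *ᵥ vec ξ = base n := by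
  rw [xmat, Matrix.add_mulVec, Matrix.vecMulVec_mulVec, Matrix.vecMulVec_mulVec, gr_base_dot,
    gr_vec_last]
  have h2 : star (vec ξ) ⬝ᵥ vec ξ = 1 := by
    rw [dotProduct, Fin.sum_univ_castSucc]
    simp only [Pi.star_apply, gr_vec_castSucc, gr_vec_last, mul_zero, add_zero]
    have h3 : ∀ i : Fin n, star (ξ i) * ξ i = ((‖ξ i‖ ^ 2 : ℝ) : ℂ) := by
      intro i
      rw [RCLike.star_def, Complex.conj_mul']
      push_cast
      rfl
    rw [Finset.sum_congr rfl (fun i _ => h3 i), ← Complex.ofReal_sum, hξ, Complex.ofReal_one]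
  rw [h2]
  simp

/-- `herm v` as a continuous real linear map -/
noncomputable def hermL (v : Vec n) : Vec n →L[ℝ] ℂ :=
  LinearMap.toContinuousLinearMap
    { toFun := fun w => herm v w
      map_add' := fun w u => herm_add_right v w u
      map_smul' := fun r w => by
        have h : (r • w : Vec n) = (r : ℂ) • w := by
          funext i
          simp
        rw [h, herm_smul_right]
        rfl }

theorem hermL_apply (v w : Vec n) : hermL v w = herm v w := rfl

theorem gr_herm_vec_le {v : Vec n} (hv : v ∈ Cone n) (g : SUGroup n) {ξ : Fin n → ℂ}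
    (hξ : ∑ i, ‖ξ i‖ ^ 2 = 1) :
    ‖herm v (act g (vec ξ))‖ ≤ ‖herm v (act g (base n))‖ := by
  have hu : act g⁻¹ v ∈ Cone n := act_mem _ hv
  have e : ∀ w : Vec n, herm v (act g w) = herm (act g⁻¹ v) w := by
    intro w
    rw [← herm_act g⁻¹, ← act_mul, inv_mul_cancel, act_one]
  rw [e, e]
  obtain ⟨u, hu'⟩ : ∃ u, u = act g⁻¹ v := ⟨_, rfl⟩
  rw [← hu'] at hu ⊢
  have h1 : ‖herm u (base n)‖ = ‖u (Fin.last n)‖ := by
    rw [herm_eq, base, Pi.single_eq_same, Finset.sum_eq_zero]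
    · simp
    · intro i _
      rw [Pi.single_eq_of_ne (Fin.castSucc_lt_last i).ne]
      simp
  have h2 : ‖herm u (vec ξ)‖ ≤ ∑ i : Fin n, ‖u i.castSucc‖ * ‖ξ i‖ := by
    rw [herm_eq]
    simp only [gr_vec_castSucc, gr_vec_last, mul_zero, sub_zero]
    refine (norm_sum_le _ _).trans (Finset.sum_le_sum fun i _ => ?_)
    rw [norm_mul, norm_star]
  have h3 := Finset.sum_mul_sq_le_sq_mul_sq Finset.univ (fun i : Fin n => ‖u i.castSucc‖)
    (fun i => ‖ξ i‖)
  rw [hξ, mul_one] at h3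
  have h4 : q u < 0 := hu
  rw [q_eq] at h4
  rw [h1]
  refine h2.trans ?_
  refine le_of_sq_le_sq ?_ (norm_nonneg _)
  linarith

/-- the logarithmic derivative along the flow -/
theorem gr_ker_flow (s : ℕ) {v : Vec n} (hv : v ∈ Cone n) {ξ : Fin n → ℂ}
    (hξ : ∑ i, ‖ξ i‖ ^ 2 = 1) {b : ℝ → SUGroup n}
    (hbd : ∀ t, HasDerivAt (fun t => (b t).toMatrix) ((b t).toMatrix * xmat ξ) t) (g : SUGroup n) :
    ∃ R R' : ℝ → ℝ, (∀ t, |R t| ≤ 2) ∧ (∀ t, |R' t| ≤ 8) ∧ (∀ t, HasDerivAt R (R' t) t) ∧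
      ∀ t, HasDerivAt (fun t => ker s v (act (g * b t) (base n)))
        (-(s : ℝ) * R t * ker s v (act (g * b t) (base n))) t := by
  obtain ⟨h0, hh0⟩ : ∃ h0 : ℝ → ℂ, h0 = fun t => herm v (act (g * b t) (base n)) := ⟨_, rfl⟩
  obtain ⟨h1, hh1⟩ : ∃ h1 : ℝ → ℂ, h1 = fun t => herm v (act (g * b t) (vec ξ)) := ⟨_, rfl⟩
  have d0 : ∀ t, HasDerivAt h0 (h1 t) t := by
    intro t
    have a := (hermL v).hasFDerivAt.comp_hasDerivAt t (gr_act_flow hbd g (base n) t)
    rw [gr_xmat_base] at a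
    rw [hh0, hh1]
    exact a
  have d1 : ∀ t, HasDerivAt h1 (h0 t) t := by
    intro t
    have a := (hermL v).hasFDerivAt.comp_hasDerivAt t (gr_act_flow hbd g (vec ξ) t)
    rw [gr_xmat_vec ξ hξ] at a
    rw [hh0, hh1]
    exact a
  have hne : ∀ t, h0 t ≠ 0 := fun t => by
    rw [hh0]
    exact herm_ne_zero hv (orbit_mem _)
  have hle : ∀ t, ‖h1 t‖ ≤ ‖h0 t‖ := fun t => by
    rw [hh0, hh1]
    exact gr_herm_vec_le hv _ hξ
  have r0 : ∀ t, HasDerivAt (fun t => (h0 t).re) (h1 t).re t := fun t =>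
    Complex.reCLM.hasFDerivAt.comp_hasDerivAt t (d0 t)
  have i0 : ∀ t, HasDerivAt (fun t => (h0 t).im) (h1 t).im t := fun t =>
    Complex.imCLM.hasFDerivAt.comp_hasDerivAt t (d0 t)
  have r1 : ∀ t, HasDerivAt (fun t => (h1 t).re) (h0 t).re t := fun t =>
    Complex.reCLM.hasFDerivAt.comp_hasDerivAt t (d1 t)
  have i1 : ∀ t, HasDerivAt (fun t => (h1 t).im) (h0 t).im t := fun t =>
    Complex.imCLM.hasFDerivAt.comp_hasDerivAt t (d1 t)
  obtain ⟨N, hN⟩ : ∃ N : ℝ → ℝ, N = fun t => (h0 t).re * (h0 t).re + (h0 t).im * (h0 t).im := ⟨_, rfl⟩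
  obtain ⟨M, hM⟩ : ∃ M : ℝ → ℝ, M = fun t => (h0 t).re * (h1 t).re + (h0 t).im * (h1 t).im := ⟨_, rfl⟩
  have hNn : ∀ t, N t = ‖h0 t‖ ^ 2 := fun t => by
    rw [hN, ← Complex.normSq_eq_norm_sq, Complex.normSq_apply]
  have hNpos : ∀ t, 0 < N t := fun t => by
    rw [hNn]
    exact pow_pos (norm_pos_iff.2 (hne t)) 2
  have dN : ∀ t, HasDerivAt N (2 * M t) t := fun t => by
    have a := ((r0 t).mul (r0 t)).add ((i0 t).mul (i0 t))
    rw [hN, hM]
    exact a.congr_deriv (by ring)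
  have dM : ∀ t, HasDerivAt M (((h1 t).re ^ 2 + (h1 t).im ^ 2) + N t) t := fun t => by
    have a := ((r0 t).mul (r1 t)).add ((i0 t).mul (i1 t))
    rw [hN, hM]
    exact a.congr_deriv (by ring)
  have hMle : ∀ t, |M t| ≤ N t := fun t => by
    have a : M t ^ 2 ≤ ((h0 t).re ^ 2 + (h0 t).im ^ 2) * ((h1 t).re ^ 2 + (h1 t).im ^ 2) := by
      rw [hM]
      nlinarith [sq_nonneg ((h0 t).re * (h1 t).im - (h0 t).im * (h1 t).re)]
    have b' : (h1 t).re ^ 2 + (h1 t).im ^ 2 ≤ N t := by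
      rw [hNn]
      have := pow_le_pow_left₀ (norm_nonneg _) (hle t) 2
      rw [← Complex.normSq_eq_norm_sq (h1 t), Complex.normSq_apply] at this
      nlinarith
    have c' : M t ^ 2 ≤ N t ^ 2 := by
      have e : (h0 t).re ^ 2 + (h0 t).im ^ 2 = N t := by
        rw [hN]
        ring
      rw [e] at a
      have := mul_le_mul_of_nonneg_left b' (hNpos t).le
      nlinarith
    exact abs_le_of_sq_le_sq c' (hNpos t).le
  have hQle : ∀ t, (h1 t).re ^ 2 + (h1 t).im ^ 2 ≤ N t := fun t => by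
    rw [hNn]
    have := pow_le_pow_left₀ (norm_nonneg _) (hle t) 2
    rw [← Complex.normSq_eq_norm_sq (h1 t), Complex.normSq_apply] at this
    nlinarith
  refine ⟨fun t => 2 * M t / N t, fun t => (2 * (((h1 t).re ^ 2 + (h1 t).im ^ 2) + N t) * N t -
    2 * M t * (2 * M t)) / N t ^ 2, fun t => ?_, fun t => ?_, fun t => ?_, fun t => ?_⟩
  · rw [abs_div, abs_of_pos (hNpos t), div_le_iff₀ (hNpos t), abs_mul, abs_two]
    exact mul_le_mul_of_nonneg_left (hMle t) zero_le_two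
  · rw [abs_div, abs_of_pos (pow_pos (hNpos t) 2), div_le_iff₀ (pow_pos (hNpos t) 2)]
    have a := hMle t
    have b' := hQle t
    have c' := hNpos t
    have d' : M t ^ 2 ≤ N t ^ 2 := sq_le_sq' (by linarith [neg_abs_le (M t)]) (by linarith [le_abs_self (M t)])
    have e' : 0 ≤ (h1 t).re ^ 2 + (h1 t).im ^ 2 := by positivity
    rw [abs_le]
    constructor <;> nlinarith [mul_nonneg e' c'.le, mul_le_mul_of_nonneg_right b' c'.le, sq_nonneg (M t)]
  · exact ((dM t).const_mul 2).div (dN t) (hNpos t).ne'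
  · have hk : (fun t => ker s v (act (g * b t) (base n))) = fun t => (-q v / N t) ^ s := by
      funext t
      rw [ker, q_orbit, mul_neg, mul_one, hNn, hh0]
    have hk' : ker s v (act (g * b t) (base n)) = (-q v / N t) ^ s := congrFun hk t
    rw [hk', hk]
    have a := ((hasDerivAt_const t (-q v)).div (dN t) (hNpos t).ne').pow s
    rcases Nat.eq_zero_or_pos s with hs | hs
    · subst hs
      simpa using hasDerivAt_const t (1 : ℝ)
    · obtain ⟨r, rfl⟩ : ∃ r, s = r + 1 := ⟨s - 1, by omega⟩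
      refine a.congr_deriv ?_
      have hn := (hNpos t).ne'
      rw [Nat.add_sub_cancel]
      show ((r + 1 : ℕ) : ℝ) * (-q v / N t) ^ r * ((0 * N t - -q v * (2 * M t)) / N t ^ 2) =
        -((r + 1 : ℕ) : ℝ) * (2 * M t / N t) * (-q v / N t) ^ (r + 1)
      rw [pow_succ (-q v / N t) r]
      generalize (-q v / N t) ^ r = x
      have e1 : (0 * N t - -q v * (2 * M t)) / N t ^ 2 = -((2 * M t / N t) * (-q v / N t)) := by
        field_simp
        ring
      rw [e1]
      ring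

/-- decay of the derivatives of the kernel -/
theorem gr_ker_deriv (s : ℕ) {v : Vec n} (hv : v ∈ Cone n) {ξ : Fin n → ℂ}
    (hξ : ∑ i, ‖ξ i‖ ^ 2 = 1) (g : SUGroup n) :
    ‖fderiv ℝ (fun w => ker s v w) (act g (base n)) (act g (vec ξ))‖ ≤
      2 * s * ker s v (act g (base n)) ∧
    ‖fderiv ℝ (fderiv ℝ fun w => ker s v w) (act g (base n)) (act g (vec ξ)) (act g (vec ξ))‖ ≤
      8 * (s + 1) ^ 2 * ker s v (act g (base n)) := by
  obtain ⟨b, hb0, hb, hbc, -, hbd⟩ := exists_flow ξ hξ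
  have hker : (fun w => ker s v w) = fun w => ker s w v := by
    funext w
    exact ker_comm s v w
  have hcd : ContDiffOn ℝ 2 (fun w => ker s v w) (Cone n) := by
    rw [hker]
    exact (contDiffOn_ker s hv).of_le (WithTop.coe_le_coe.2 (le_top : (2 : ℕ∞) ≤ ⊤))
  have hhom : Homog (fun w => ker s v w) := fun c hc w _ => ker_smul_right s hc v w
  obtain ⟨R, R', hR, hR', dR, dA⟩ := gr_ker_flow s hv hξ hbd g
  have hpos : 0 < ker s v (act g (base n)) := ker_pos s hv (orbit_mem g)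
  have e1 : ∀ t, fderiv ℝ (fun w => ker s v w) (act (g * b t) (base n)) (act (g * b t) (vec ξ)) =
      -(s : ℝ) * R t * ker s v (act (g * b t) (base n)) := fun t =>
    (hasDerivAt_flow hbd g t ((gr_contDiffAt hcd (orbit_mem (n := n) (g * b t))).differentiableAt
      (by norm_num))).unique (dA t)
  have e2 := hasDerivAt_flow_two hhom hξ hbd g 0 (gr_contDiffAt hcd (orbit_mem (n := n) (g * b 0)))
  have e3 : HasDerivAt (fun t => fderiv ℝ (fun w => ker s v w) (act (g * b t) (base n))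
      (act (g * b t) (vec ξ))) (-(s : ℝ) * R' 0 * ker s v (act (g * b 0) (base n)) +
        -(s : ℝ) * R 0 * (-(s : ℝ) * R 0 * ker s v (act (g * b 0) (base n)))) 0 := by
    have a := ((dR 0).const_mul (-(s : ℝ))).mul (dA 0)
    have hfun : (fun t => fderiv ℝ (fun w => ker s v w) (act (g * b t) (base n))
      (act (g * b t) (vec ξ))) = fun t => -(s : ℝ) * R t * ker s v (act (g * b t) (base n)) := by
      funext t
      exact e1 t
    rw [hfun]
    exact a
  have e4 := e2.unique e3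
  rw [hb0, mul_one] at e4
  have e5 := e1 0
  rw [hb0, mul_one] at e5
  have hs0 : (0 : ℝ) ≤ s := Nat.cast_nonneg s
  constructor
  · rw [e5, Real.norm_eq_abs, abs_mul, abs_mul, abs_neg, abs_of_nonneg hs0, abs_of_pos hpos]
    refine mul_le_mul_of_nonneg_right ?_ hpos.le
    have := mul_le_mul_of_nonneg_left (hR 0) hs0
    linarith
  · rw [e4, Real.norm_eq_abs]
    have a1 := hR 0
    have a2 := hR' 0
    have b1 : |R 0| ^ 2 ≤ 4 := by nlinarith [abs_nonneg (R 0)]
    have hfac : -(s : ℝ) * R' 0 * ker s v (act g (base n)) +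
        -(s : ℝ) * R 0 * (-(s : ℝ) * R 0 * ker s v (act g (base n))) =
        (-(s : ℝ) * R' 0 + (s : ℝ) ^ 2 * R 0 ^ 2) * ker s v (act g (base n)) := by ring
    rw [hfac, abs_mul, abs_of_pos hpos]
    refine mul_le_mul_of_nonneg_right ?_ hpos.le
    refine (abs_add_le _ _).trans ?_
    rw [abs_mul, abs_neg, abs_of_nonneg hs0, abs_mul, abs_of_nonneg (sq_nonneg (s : ℝ)),
      abs_of_nonneg (sq_nonneg (R 0)), ← sq_abs (R 0)]
    have c1 := mul_le_mul_of_nonneg_left a2 hs0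
    have c2 := mul_le_mul_of_nonneg_left b1 (sq_nonneg (s : ℝ))
    nlinarith

end Pool.Agent.Lib.MP_5d4057_al.HM
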