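import Pool.Agent.Lib.MP_5d4057_al.HM.Comm
import Pool.Agent.Lib.MP_5d4057_al.HM.GreenB

namespace Pool.Agent.Lib.MP_5d4057_al.HM

open Matrix MeasureTheory Filter Topology Pool.Agent.Lib.MP_5d4057_al Pool.Agent.Lib.MP_5d4057_al.Hyb

open scoped ComplexOrder MatrixOrder Matrix.Norms.L2Operator

variable {n m : ℕ} {E : Type} [NormedAddCommGroup E] [NormedSpace ℝ E] [CompleteSpace E]

/-- Growth of the Laplacian (directly from the definition, `q = -1`). -/
theorem Tame.adm {N : ℕ} {C : ℝ} {f : Vec n → E} (hf : Tame N C f) : Adm N C f :=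
  ⟨(gr_orbit hf.cd.continuousOn).aestronglyMeasurable, hf.b0⟩

theorem Tame.adm_lap {N : ℕ} {C : ℝ} {f : Vec n → E} (hf : Tame N C f) :
    Adm N ((n + 1) * C) (Lap f) := by
  refine ⟨(gr_orbit (gr_lap_cont hf.cd)).aestronglyMeasurable, fun y => ?_⟩
  rw [mul_assoc]
  exact gr_norm_lap f y (hf.b2 y)

theorem Tame.continuousOn_lap {N : ℕ} {C : ℝ} {f : Vec n → E} (hf : Tame N C f) :
    ContinuousOn (Lap f) (Cone n) := gr_lap_cont hf.cd

/-- The Laplacian of a homogeneous function is homogeneous. -/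
theorem homog_lap {f : Vec n → E} (hf : Homog f) (hc : ContDiffOn ℝ 2 f (Cone n)) :
    Homog (Lap f) := gr_homog_lap hf hc

/-- Green's formula with a compactly supported function (blueprint A5): apply `integral_flow` along the
`2n` one-parameter groups to `Ψ(g) = φ(g e_n) Df(g e_n)[g ξ] - Dφ(g e_n)[g ξ] f(g e_n)`. -/
theorem green (hn : 1 ≤ n) {φ : Vec n → ℝ} {f : Vec n → E} (hφ : Homog φ)
    (hφ2 : ContDiffOn ℝ 2 φ (Cone n)) (hφs : HasCompactSupport fun g : SUGroup n => φ (act g (base n)))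
    (hf : Homog f) (hf2 : ContDiffOn ℝ 2 f (Cone n)) :
    ∫ g, φ (act g (base n)) • Lap f (act g (base n)) ∂(mu n) =
      ∫ g, Lap φ (act g (base n)) • f (act g (base n)) ∂(mu n) := by
  have _ := hn
  exact gr_compact hφ hφ2 hφs hf hf2

/-- Cut-off functions: `φ(v) = ψ(W v)`, `ψ` smooth, `ψ = 1` on `[1, T²]` and `0` beyond `4 T²`. -/
theorem exists_cutoff (n : ℕ) (T : ℝ) : ∃ φ : Vec n → ℝ, Homog φ ∧
    ContDiffOn ℝ (⊤ : ℕ∞) φ (Cone n) ∧ HasCompactSupport (fun g : SUGroup n => φ (act g (base n))) ∧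
    (∀ v ∈ Cone n, 0 ≤ φ v ∧ φ v ≤ 1) ∧ ∀ g : SUGroup n, ch g ≤ T → φ (act g (base n)) = 1 :=
  gr_cutoff n T

private theorem gr_growth (g : SUGroup n) {ξ : Fin n → ℂ} (hξ : ∑ i, ‖ξ i‖ ^ 2 = 1) :
    ‖act g (vec ξ)‖ ≤ 2 * (n + 1) * ch g := by
  have h0 : 0 < ch g := zero_lt_one.trans_le (one_le_ch g)
  have hle : ∀ j, ‖vec ξ j‖ ≤ 1 := by
    intro j
    refine Fin.lastCases ?_ (fun j => ?_) j
    · rw [gr_vec_last, norm_zero]
      exact zero_le_one
    · rw [gr_vec_castSucc]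
      have h1 : ‖ξ j‖ ^ 2 ≤ 1 := by
        rw [← hξ]
        exact Finset.single_le_sum (f := fun i => ‖ξ i‖ ^ 2) (fun i _ => sq_nonneg _)
          (Finset.mem_univ j)
      nlinarith [norm_nonneg (ξ j)]
  rw [pi_norm_le_iff_of_nonneg (by positivity)]
  intro i
  have h1 : act g (vec ξ) i = ∑ j, g.toMatrix i j * vec ξ j := rfl
  rw [h1]
  refine (norm_sum_le _ _).trans ?_
  have h2 : ∀ j ∈ (Finset.univ : Finset (Fin (n + 1))), ‖g.toMatrix i j * vec ξ j‖ ≤ 2 * ch g := by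
    intro j _
    rw [norm_mul]
    have := norm_entry_le g i j
    calc ‖g.toMatrix i j‖ * ‖vec ξ j‖ ≤ 2 * ch g * 1 :=
          mul_le_mul this (hle j) (norm_nonneg _) (by positivity)
      _ = 2 * ch g := mul_one _
  refine (Finset.sum_le_sum h2).trans (le_of_eq ?_)
  rw [Finset.sum_const, Finset.card_univ, Fintype.card_fin, nsmul_eq_mul]
  push_cast
  ring

private theorem gr_int {s N : ℕ} (hs : n + N < s) {v : Vec n} (hv : v ∈ Cone n)
    {F : SUGroup n → E} (hF : Continuous F) {C : ℝ}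
    (hb : ∀ g, ‖F g‖ ≤ C * ker s v (act g (base n)) * ch g ^ (2 * N)) : Integrable F (mu n) := by
  obtain ⟨D, hD, hDk⟩ := gr_ker_le s hv
  have hC : 0 ≤ C := by
    by_contra hcon
    push Not at hcon
    have h1 := hb 1
    have h2 : 0 < ker s v (act (1 : SUGroup n) (base n)) := ker_pos s hv (orbit_mem _)
    have h3 : 0 < ch (1 : SUGroup n) ^ (2 * N) := pow_pos (ch_pos _) _
    have h4 : C * ker s v (act (1 : SUGroup n) (base n)) * ch (1 : SUGroup n) ^ (2 * N) < 0 :=
      mul_neg_of_neg_of_pos (mul_neg_of_neg_of_pos hcon h2) h3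
    linarith [norm_nonneg (F 1)]
  refine ((integrable_pow (n := n) hs).const_mul (C * D)).mono' hF.aestronglyMeasurable
    (Eventually.of_forall fun g => ?_)
  refine (hb g).trans ?_
  have h1 := mul_le_mul_of_nonneg_left (hDk g) hC
  have h2 : 0 ≤ ch g ^ (2 * N) := pow_nonneg (ch_pos g).le _
  have h3 := mul_le_mul_of_nonneg_right h1 h2
  calc C * ker s v (act g (base n)) * ch g ^ (2 * N) ≤ C * (D * (ch g ^ (2 * s))⁻¹) * ch g ^ (2 * N) := h3
    _ = C * D * ((ch g ^ (2 * s))⁻¹ * ch g ^ (2 * N)) := by ring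

private theorem gr_ker_cd (s : ℕ) {v : Vec n} (hv : v ∈ Cone n) :
    ContDiffOn ℝ 2 (fun w => ker s v w) (Cone n) := by
  have hker : (fun w => ker s v w) = fun w => ker s w v := by
    funext w
    exact ker_comm s v w
  rw [hker]
  exact (contDiffOn_ker s hv).of_le (WithTop.coe_le_coe.2 (le_top : (2 : ℕ∞) ≤ ⊤))

/-- Green's formula for the kernel. -/
theorem green_ker {N : ℕ} {C : ℝ} {f : Vec n → E} (hf : Tame N C f) {s : ℕ} (hs : n + (N + 1) < s)
    {v : Vec n} (hv : v ∈ Cone n) :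
    ∫ g, ker s v (act g (base n)) • Lap f (act g (base n)) ∂(mu n) =
      ∫ g, Lap (fun w => ker s v w) (act g (base n)) • f (act g (base n)) ∂(mu n) := by
  have hcd := gr_ker_cd s hv
  have hhom : Homog (fun w => ker s v w) := fun c hc w _ => ker_smul_right s hc v w
  have hcφ := gr_orbit hcd.continuousOn
  have hcf := gr_orbit hf.cd.continuousOn
  have hC : 0 ≤ C := by
    have h1 := hf.b0 1
    have h2 : 0 < ch (1 : SUGroup n) ^ (2 * N) := pow_pos (ch_pos _) _
    by_contra hcon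
    push Not at hcon
    have := mul_neg_of_neg_of_pos hcon h2
    linarith [norm_nonneg (f (act (1 : SUGroup n) (base n)))]
  have hpow : ∀ g : SUGroup n, ch g ^ (2 * N) ≤ ch g ^ (2 * (N + 1)) := fun g =>
    pow_le_pow_right₀ (one_le_ch g) (by omega)
  have hpow1 : ∀ g : SUGroup n, ch g ^ (2 * N) * ch g ≤ ch g ^ (2 * (N + 1)) := fun g => by
    rw [← pow_succ]
    exact pow_le_pow_right₀ (one_le_ch g) (by omega)
  have hpow2 : ∀ g : SUGroup n, ch g ^ (2 * N) * ch g ^ 2 = ch g ^ (2 * (N + 1)) := fun g => by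
    rw [← pow_add]
    congr 1
  have hkp : ∀ g : SUGroup n, 0 < ker s v (act g (base n)) := fun g => ker_pos s hv (orbit_mem g)
  refine gr_green hhom hcd hf.hom hf.cd (fun ξ hξ => ?_) (fun ξ hξ => ?_) (fun ξ hξ => ?_) (fun ξ hξ => ?_)
  · refine gr_int (C := C * (2 * (n + 1))) hs hv
      (hcφ.smul ((gr_orbit (gr_fderiv hf.cd)).clm_apply (gr_act _))) fun g => ?_
    rw [norm_smul, Real.norm_eq_abs, abs_of_pos (hkp g)]
    have h1 : ‖fderiv ℝ f (act g (base n)) (act g (vec ξ))‖ ≤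
        C * ch g ^ (2 * N) * (2 * (n + 1) * ch g) :=
      (ContinuousLinearMap.le_opNorm _ _).trans (mul_le_mul (hf.b1 g) (gr_growth g hξ) (norm_nonneg _)
        (mul_nonneg hC (pow_nonneg (ch_pos g).le _)))
    have h2 := mul_le_mul_of_nonneg_left h1 (hkp g).le
    refine h2.trans ?_
    have h3 := mul_le_mul_of_nonneg_left (hpow1 g)
      (mul_nonneg (mul_nonneg hC (by positivity : (0 : ℝ) ≤ 2 * (n + 1))) (hkp g).le)
    calc ker s v (act g (base n)) * (C * ch g ^ (2 * N) * (2 * (n + 1) * ch g))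
        = C * (2 * (n + 1)) * ker s v (act g (base n)) * (ch g ^ (2 * N) * ch g) := by ring
      _ ≤ _ := h3
  · refine gr_int (C := 2 * s * C) hs hv
      (((gr_orbit (gr_fderiv hcd)).clm_apply (gr_act _)).smul hcf) fun g => ?_
    rw [norm_smul]
    have h1 := mul_le_mul (gr_ker_deriv s hv hξ g).1 (hf.b0 g) (norm_nonneg _)
      (mul_nonneg (by positivity) (hkp g).le)
    refine h1.trans ?_
    have h3 := mul_le_mul_of_nonneg_left (hpow g)
      (mul_nonneg (mul_nonneg (by positivity : (0 : ℝ) ≤ 2 * s) hC) (hkp g).le)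
    calc 2 * s * ker s v (act g (base n)) * (C * ch g ^ (2 * N))
        = 2 * s * C * ker s v (act g (base n)) * ch g ^ (2 * N) := by ring
      _ ≤ _ := h3
  · refine gr_int (C := C * (2 * (n + 1)) ^ 2) hs hv
      (hcφ.smul (((gr_orbit (gr_fderiv_two hf.cd)).clm_apply (gr_act _)).clm_apply (gr_act _))) fun g => ?_
    rw [norm_smul, Real.norm_eq_abs, abs_of_pos (hkp g)]
    have h0 : 0 ≤ C * ch g ^ (2 * N) := mul_nonneg hC (pow_nonneg (ch_pos g).le _)
    have h1 : ‖fderiv ℝ (fderiv ℝ f) (act g (base n)) (act g (vec ξ)) (act g (vec ξ))‖ ≤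
        C * ch g ^ (2 * N) * (2 * (n + 1) * ch g) * (2 * (n + 1) * ch g) :=
      (ContinuousLinearMap.le_opNorm _ _).trans (mul_le_mul ((ContinuousLinearMap.le_opNorm _ _).trans
        (mul_le_mul (hf.b2 g) (gr_growth g hξ) (norm_nonneg _) h0)) (gr_growth g hξ) (norm_nonneg _)
        (mul_nonneg h0 (mul_nonneg (by positivity) (ch_pos g).le)))
    have h2 := mul_le_mul_of_nonneg_left h1 (hkp g).le
    refine h2.trans (le_of_eq ?_)
    calc ker s v (act g (base n)) * (C * ch g ^ (2 * N) * (2 * (n + 1) * ch g) * (2 * (n + 1) * ch g))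
        = C * (2 * (n + 1)) ^ 2 * ker s v (act g (base n)) * (ch g ^ (2 * N) * ch g ^ 2) := by ring
      _ = _ := by rw [hpow2]
  · refine gr_int (C := 8 * (s + 1) ^ 2 * C) hs hv
      ((((gr_orbit (gr_fderiv_two hcd)).clm_apply (gr_act _)).clm_apply (gr_act _)).smul hcf) fun g => ?_
    rw [norm_smul]
    have h1 := mul_le_mul (gr_ker_deriv s hv hξ g).2 (hf.b0 g) (norm_nonneg _)
      (mul_nonneg (by positivity) (hkp g).le)
    refine h1.trans ?_
    have h3 := mul_le_mul_of_nonneg_left (hpow g)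
      (mul_nonneg (mul_nonneg (by positivity : (0 : ℝ) ≤ 8 * (s + 1) ^ 2) hC) (hkp g).le)
    calc 8 * (s + 1) ^ 2 * ker s v (act g (base n)) * (C * ch g ^ (2 * N))
        = 8 * (s + 1) ^ 2 * C * ker s v (act g (base n)) * ch g ^ (2 * N) := by ring
      _ ≤ _ := h3

private theorem grn_P_eq (s : ℕ) (f : Vec n → E) (v : Vec n) :
    P s f v = (cs n s)⁻¹ • ∫ y : SUGroup n, ker s v (act y (base n)) • f (act y (base n)) ∂(mu n) := by
  rw [P, ← integral_smul]
  refine integral_congr_ae (Eventually.of_forall fun y => ?_)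
  show (ker s v (act y (base n)) / cs n s) • _ = (cs n s)⁻¹ • (_ • _)
  rw [smul_smul, div_eq_inv_mul]

private theorem lam_ne {s : ℕ} (h : n < s) : lam n s ≠ 0 := by
  have h1 : (n : ℝ) < s := by exact_mod_cast h
  have h2 : (0 : ℝ) ≤ n := Nat.cast_nonneg n
  unfold lam
  exact mul_ne_zero (by linarith) (by linarith)

private theorem lam_pos {s : ℕ} (h : n < s) : 0 < lam n s := by
  have h1 : (n : ℝ) < s := by exact_mod_cast h
  have h2 : (0 : ℝ) ≤ n := Nat.cast_nonneg n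
  unfold lam
  exact mul_pos (by linarith) (by linarith)

/-- The Laplacian commutes with averaging (blueprint A8): Green's formula for `ker s v` and `f` (integrable
because of the growth of the derivatives of `f` and the decay of those of the kernel), and
`Lap_v ker = Lap_w ker` (`lap_ker` and `ker_comm`). -/
theorem lap_P_comm (hn : 1 ≤ n) (N : ℕ) : ∃ s₀ : ℕ, ∀ s, s₀ ≤ s → ∀ (C : ℝ) (f : Vec n → E),
    Tame N C f → ∀ v ∈ Cone n, Lap (P s f) v = P s (Lap f) v := by
  obtain ⟨s₁, hs₁⟩ := lap_P (E := E) hn N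
  refine ⟨s₁ + n + N + 2, fun s hs C f hf v hv => ?_⟩
  have hns : n + (N + 1) < s := by omega
  have hcs : 0 < cs n s := cs_pos' (by omega)
  have hcs' : 0 < cs n (s + 1) := cs_pos' (by omega)
  rw [hs₁ s (by omega) C f hf.adm v hv, grn_P_eq s (Lap f) v, green_ker hf hns hv]
  have hL : ∀ g : SUGroup n, Lap (fun w => ker s v w) (act g (base n)) • f (act g (base n)) =
      lam n s • (ker s v (act g (base n)) • f (act g (base n))) -
        (s : ℝ) ^ 2 • (ker (s + 1) v (act g (base n)) • f (act g (base n))) := by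
    intro g
    have hker : (fun w => ker s v w) = fun w => ker s w v := by
      funext w
      exact ker_comm s v w
    rw [hker, lap_ker s (orbit_mem g) hv, sub_smul, mul_smul, mul_smul, ker_comm s, ker_comm (s + 1)]
  have hC0 : ∀ (r : ℕ), n + N < r → Integrable (fun g : SUGroup n =>
      ker r v (act g (base n)) • f (act g (base n))) (mu n) := by
    intro r hr
    refine gr_int (C := C) hr hv ((gr_orbit (gr_ker_cd r hv).continuousOn).smul
      (gr_orbit hf.cd.continuousOn)) fun g => ?_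
    have hkp : 0 < ker r v (act g (base n)) := ker_pos r hv (orbit_mem g)
    rw [norm_smul, Real.norm_eq_abs, abs_of_pos hkp]
    have := mul_le_mul_of_nonneg_left (hf.b0 g) hkp.le
    calc _ ≤ ker r v (act g (base n)) * (C * ch g ^ (2 * N)) := this
      _ = C * ker r v (act g (base n)) * ch g ^ (2 * N) := by ring
  simp only [hL]
  have i1 : Integrable (fun g : SUGroup n => lam n s • (ker s v (act g (base n)) •
      f (act g (base n)))) (mu n) := (hC0 s (by omega)).smul (lam n s)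
  have i2 : Integrable (fun g : SUGroup n => (s : ℝ) ^ 2 • (ker (s + 1) v (act g (base n)) •
      f (act g (base n)))) (mu n) := (hC0 (s + 1) (by omega)).smul ((s : ℝ) ^ 2)
  rw [integral_sub i1 i2, integral_smul, integral_smul, smul_sub, smul_sub, grn_P_eq s f v,
    grn_P_eq (s + 1) f v]
  congr 1
  · rw [smul_smul, smul_smul, mul_comm]
  · rw [smul_smul, smul_smul]
    congr 1
    have h1 := cs_succ (n := n) (s := s) (by omega)
    unfold lam
    rw [eq_comm, inv_mul_eq_iff_eq_mul₀ hcs.ne']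
    field_simp
    linear_combination (s : ℝ) * h1

/-- Telescoping of `P s f - P (s+1) f = (lam n s)⁻¹ • P s (Lap f)`. -/
theorem P_sub_P (hn : 1 ≤ n) (N : ℕ) : ∃ s₀ : ℕ, ∀ s, s₀ ≤ s → ∀ (C : ℝ) (f : Vec n → E),
    Tame N C f → ∀ v ∈ Cone n, ∀ M : ℕ,
      P s f v - P (s + M) f v = ∑ j ∈ Finset.range M, (lam n (s + j))⁻¹ • P (s + j) (Lap f) v := by
  obtain ⟨s₁, hs₁⟩ := lap_P (E := E) hn N
  obtain ⟨s₂, hs₂⟩ := lap_P_comm (E := E) hn N
  refine ⟨s₁ + s₂ + n + 1, fun s hs C f hf v hv M => ?_⟩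
  induction M with
  | zero => simp
  | succ M ih =>
    rw [Finset.sum_range_succ, ← ih, ← hs₂ (s + M) (by omega) C f hf v hv,
      hs₁ (s + M) (by omega) C f hf.adm v hv, smul_smul, inv_mul_cancel₀ (lam_ne (by omega)), one_smul,
      add_assoc]
    abel

/-- The series: `P s f - f = ∑ (lam n (s+j))⁻¹ • P (s+j) (Lap f)`. -/
theorem P_series (hn : 1 ≤ n) (N : ℕ) : ∃ s₀ : ℕ, ∀ s, s₀ ≤ s → ∀ (C : ℝ) (f : Vec n → E),
    Tame N C f → ∀ v ∈ Cone n,
      HasSum (fun j : ℕ => (lam n (s + j))⁻¹ • P (s + j) (Lap f) v) (P s f v - f v) := by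
  obtain ⟨s₁, hs₁⟩ := P_sub_P (E := E) hn N
  obtain ⟨s₂, hs₂⟩ := P_bound (E := E) n N
  refine ⟨s₁ + s₂ + n + 1, fun s hs C f hf v hv => ?_⟩
  obtain ⟨g, c, hc, hvg⟩ := exists_act_eq hv
  have hPv : ∀ (r : ℕ) (F : Vec n → E), P r F v = P r F (act g (base n)) := by
    intro r F
    rw [hvg]
    exact P_homog r F c hc _ (orbit_mem g)
  have hfv : f v = f (act g (base n)) := by
    rw [hvg]
    exact hf.hom c hc _ (orbit_mem g)
  have hC : 0 ≤ C := by
    have h1 := hf.b0 1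
    have h2 : 0 < ch (1 : SUGroup n) ^ (2 * N) := pow_pos (ch_pos _) _
    by_contra hcon
    push Not at hcon
    have := mul_neg_of_neg_of_pos hcon h2
    linarith [norm_nonneg (f (act (1 : SUGroup n) (base n)))]
  obtain ⟨B, hB⟩ : ∃ B : ℝ, B = 2 * 4 ^ N * ((n + 1) * C) * ch g ^ (2 * N) := ⟨_, rfl⟩
  have hB0 : 0 ≤ B := by
    rw [hB]
    have := (ch_pos g).le
    positivity
  have hbd : ∀ j : ℕ, ‖P (s + j) (Lap f) v‖ ≤ B := by
    intro j
    rw [hPv, hB]
    exact (hs₂ (s + j) (by omega) _ _ hf.adm_lap).bound g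
  have hlam : ∀ j : ℕ, ((j : ℝ) + 1) ^ 2 ≤ lam n (s + j) := by
    intro j
    have h1 : (n : ℝ) + 1 ≤ s := by
      have : n + 1 ≤ s := by omega
      exact_mod_cast this
    have h2 : (0 : ℝ) ≤ n := Nat.cast_nonneg n
    have h3 : (0 : ℝ) ≤ j := Nat.cast_nonneg j
    unfold lam
    push_cast
    nlinarith
  have hsum : Summable (fun j : ℕ => (lam n (s + j))⁻¹ • P (s + j) (Lap f) v) := by
    have h1 : Summable (fun j : ℕ => B * (((j : ℝ) + 1) ^ 2)⁻¹) := by
      refine Summable.mul_left B ?_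
      have h2 := (summable_nat_add_iff 1).2 (Real.summable_nat_pow_inv.2 (by norm_num : 1 < 2))
      refine h2.congr fun j => ?_
      push_cast
      rfl
    refine Summable.of_norm_bounded h1 fun j => ?_
    have h3 : (0 : ℝ) < ((j : ℝ) + 1) ^ 2 := by positivity
    have h4 : 0 < lam n (s + j) := lam_pos (by omega)
    rw [norm_smul, norm_inv, Real.norm_eq_abs, abs_of_pos h4, mul_comm]
    exact mul_le_mul (hbd j) (inv_anti₀ h3 (hlam j)) (by positivity) hB0
  rw [hsum.hasSum_iff_tendsto_nat]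
  have hpart : ∀ M : ℕ, ∑ j ∈ Finset.range M, (lam n (s + j))⁻¹ • P (s + j) (Lap f) v =
      P s f v - P (s + M) f v := fun M => (hs₁ s (by omega) C f hf v hv M).symm
  simp only [hpart]
  refine tendsto_const_nhds.sub ?_
  rw [hfv]
  simp only [hPv]
  rw [Metric.tendsto_atTop]
  intro ε hε
  obtain ⟨j₀, s₁', h⟩ := P_tendsto n N (f := fun _ => f) (fun _ => hf.adm) hf.cd.continuousOn hf.hom
    (fun T ε hε => ⟨0, fun j _ g _ => by simpa using hε.le⟩) (ch g) (ε / 2) (by positivity)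
  refine ⟨s₁', fun M hM => ?_⟩
  rw [dist_eq_norm]
  have := h j₀ le_rfl (s + M) (by omega) g le_rfl
  linarith

/-- Subharmonic functions are below their averages. -/
theorem le_P_of_lap_nonneg (hn : 1 ≤ n) (N : ℕ) : ∃ s₀ : ℕ, ∀ s, s₀ ≤ s → ∀ (C : ℝ)
    (f : Vec n → ℝ), Tame N C f → (∀ v ∈ Cone n, 0 ≤ Lap f v) → ∀ v ∈ Cone n,
      f v ≤ P s f v ∧ P (s + 1) f v ≤ P s f v := by
  obtain ⟨s₁, hs₁⟩ := P_series (E := ℝ) hn N
  obtain ⟨s₂, hs₂⟩ := P_sub_P (E := ℝ) hn N
  refine ⟨s₁ + s₂ + n + 1, fun s hs C f hf hL v hv => ?_⟩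
  have hpos : ∀ r : ℕ, 0 ≤ P r (Lap f) v := by
    intro r
    refine integral_nonneg fun y => ?_
    exact mul_nonneg (div_nonneg (ker_pos r hv (orbit_mem y)).le (cs_nonneg n r))
      (hL _ (orbit_mem y))
  have hterm : ∀ j : ℕ, 0 ≤ (lam n (s + j))⁻¹ • P (s + j) (Lap f) v := by
    intro j
    exact mul_nonneg (inv_nonneg.2 (lam_pos (by omega)).le) (hpos _)
  constructor
  · have h1 := (hs₁ s (by omega) C f hf v hv).nonneg hterm
    linarith
  · have h2 := hs₂ s (by omega) C f hf v hv 1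
    rw [Finset.sum_range_one] at h2
    have h3 := hterm 0
    linarith

end Pool.Agent.Lib.MP_5d4057_al.HM
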