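import Pool.Agent.Lib.MP_5d4057_al.HM.Sub
import Pool.Agent.Lib.MP_5d4057_al.HM.TrSub
import Pool.Agent.Lib.MP_5d4057_al.HM.Flow

/-! Products and translates of tame functions. -/

set_option maxSynthPendingDepth 3

namespace Pool.Agent.Lib.MP_5d4057_al.HM

open Matrix MeasureTheory Filter Topology Pool.Agent.Lib.MP_5d4057_al Pool.Agent.Lib.MP_5d4057_al.Hyb

open scoped ComplexOrder MatrixOrder Matrix.Norms.L2Operator

variable {n m : ℕ} {E : Type} [NormedAddCommGroup E] [NormedSpace ℝ E]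

theorem lt_nonneg {N : ℕ} {C : ℝ} {f : Vec n → E} (hf : Tame N C f) : 0 ≤ C := by
  have h := hf.b0 1
  have h1 : ch (1 : SUGroup n) = 1 := ch_one
  rw [h1, one_pow, mul_one] at h
  exact (norm_nonneg _).trans h

theorem lt_mono {N N' : ℕ} {C C' : ℝ} {f : Vec n → E} (hf : Tame N C f) (hN : N ≤ N')
    (hC : C ≤ C') : Tame N' C' f := by
  have h0 := lt_nonneg hf
  have key : ∀ g : SUGroup n, C * ch g ^ (2 * N) ≤ C' * ch g ^ (2 * N') := fun g => by
    have h1 := one_le_ch g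
    exact mul_le_mul hC (pow_le_pow_right₀ h1 (by omega)) (by positivity) (h0.trans hC)
  exact ⟨hf.hom, hf.cd, fun g => (hf.b0 g).trans (key g), fun g => (hf.b1 g).trans (key g),
    fun g => (hf.b2 g).trans (key g)⟩

/-- the energy matrix is invariant -/
theorem en_act (A : Vec n → Mat m) (g : SUGroup n) {v : Vec n} 
    (hd : DifferentiableAt ℝ A (act g v)) : en (fun u => A (act g u)) v = en A (act g v) := by
  have h1 : fderiv ℝ (fun u => A (act g u)) v = (fderiv ℝ A (act g v)).comp (actL g) :=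
    (hd.hasFDerivAt.comp v (actL g).hasFDerivAt).fderiv
  rw [en, en, sum_J_frame (fun a b => fderiv ℝ A (act g v) a * (A (act g v))⁻¹ *
      fderiv ℝ A (act g v) b)
    (fun a b c => by simp only [map_add, add_mul]) (fun a b c => by simp only [map_add, mul_add])
    (fun r a c => by simp only [map_smul, smul_mul_assoc])
    (fun r a c => by simp only [map_smul, mul_smul_comm]) g,
    q_act]
  congr 1
  refine Finset.sum_congr rfl fun i _ => ?_
  congr 1
  rw [h1]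
  rfl

section comp

variable {f : Vec n → E}

theorem lt_comp_b1 (L : Vec n →L[ℝ] Vec n) {v : Vec n} (hd : DifferentiableAt ℝ f (L v)) :
    ‖fderiv ℝ (fun u => f (L u)) v‖ ≤ ‖fderiv ℝ f (L v)‖ * ‖L‖ := by
  have h1 : fderiv ℝ (fun u => f (L u)) v = (fderiv ℝ f (L v)).comp L :=
    (hd.hasFDerivAt.comp v L.hasFDerivAt).fderiv
  rw [h1]
  exact ContinuousLinearMap.opNorm_comp_le _ _

theorem lt_comp_b2 (L : Vec n →L[ℝ] Vec n) {v : Vec n} (hd : ContDiffAt ℝ 2 f (L v)) :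
    ‖fderiv ℝ (fderiv ℝ (fun u => f (L u))) v‖ ≤ ‖fderiv ℝ (fderiv ℝ f) (L v)‖ * ‖L‖ * ‖L‖ := by
  refine ContinuousLinearMap.opNorm_le_bound _ (by positivity) fun ξ => ?_
  refine ContinuousLinearMap.opNorm_le_bound _ (by positivity) fun η => ?_
  rw [fderiv_two_comp L hd]
  calc ‖fderiv ℝ (fderiv ℝ f) (L v) (L ξ) (L η)‖
      ≤ ‖fderiv ℝ (fderiv ℝ f) (L v)‖ * ‖L ξ‖ * ‖L η‖ := ContinuousLinearMap.le_opNorm₂ _ _ _
    _ ≤ ‖fderiv ℝ (fderiv ℝ f) (L v)‖ * (‖L‖ * ‖ξ‖) * (‖L‖ * ‖η‖) := by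
        gcongr <;> exact ContinuousLinearMap.le_opNorm _ _
    _ = _ := by ring

end comp

theorem lt_act {N : ℕ} {C : ℝ} {f : Vec n → E} (hf : Tame N C f) (a : SUGroup n) :
    ∃ C' : ℝ, Tame N C' fun v => f (act a v) := by
  have h0 := lt_nonneg hf
  have ha := one_le_ch a
  obtain ⟨l, hl⟩ : ∃ l : ℝ, l = ‖actL a‖ + 1 := ⟨_, rfl⟩
  have hl1 : 1 ≤ l := by rw [hl]; linarith [norm_nonneg (actL a)]
  have hla : ‖actL a‖ ≤ l := by rw [hl]; linarith
  have key : ∀ g : SUGroup n, C * ch (a * g) ^ (2 * N) ≤ C * (2 * ch a) ^ (2 * N) * ch g ^ (2 * N) := by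
    intro g
    rw [mul_assoc, ← mul_pow]
    exact mul_le_mul_of_nonneg_left (pow_le_pow_left₀ (zero_le_one.trans (one_le_ch _))
      (ch_mul_le' a g) _) h0
  have hcd : ∀ v ∈ Cone n, ContDiffAt ℝ 2 f (act a v) := fun v hv => TrSub.contDiffAt_cone hf.cd (act_mem a hv)
  have hco : ContDiffOn ℝ 2 (fun v => f (act a v)) (Cone n) := by
    refine hf.cd.comp (g := f) (f := fun v => act a v) ?_ fun v hv => act_mem a hv
    exact (actL a).contDiff.contDiffOn
  refine ⟨C * (2 * ch a) ^ (2 * N) * l ^ 2, ?_, hco, fun g => ?_, fun g => ?_, fun g => ?_⟩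
  · intro c hc v hv
    have h1 : act a (c • v) = c • act a v := mulVec_smul _ _ _
    simp only [h1]
    exact hf.hom c hc _ (act_mem a hv)
  · simp only [← act_mul]
    refine (hf.b0 (a * g)).trans ((key g).trans ?_)
    have h1 : 0 ≤ C * (2 * ch a) ^ (2 * N) * ch g ^ (2 * N) := by
      have := one_le_ch g
      positivity
    nlinarith [mul_le_mul_of_nonneg_left (one_le_pow₀ hl1 (n := 2)) h1]
  · refine (lt_comp_b1 (actL a) ((hcd _ (orbit_mem g)).differentiableAt (by norm_num))).trans ?_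
    have h1 : ‖fderiv ℝ f (actL a (act g (base n)))‖ ≤ C * (2 * ch a) ^ (2 * N) * ch g ^ (2 * N) := by
      rw [actL_apply, ← act_mul]
      exact (hf.b1 _).trans (key g)
    have h2 : ‖actL a‖ ≤ l ^ 2 := hla.trans (by nlinarith)
    calc _ ≤ (C * (2 * ch a) ^ (2 * N) * ch g ^ (2 * N)) * l ^ 2 :=
          mul_le_mul h1 h2 (norm_nonneg _) ((norm_nonneg _).trans h1)
      _ = _ := by ring
  · refine (lt_comp_b2 (actL a) (hcd _ (orbit_mem g))).trans ?_
    have h1 : ‖fderiv ℝ (fderiv ℝ f) (actL a (act g (base n)))‖ ≤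
        C * (2 * ch a) ^ (2 * N) * ch g ^ (2 * N) := by
      rw [actL_apply, ← act_mul]
      exact (hf.b2 _).trans (key g)
    rw [mul_assoc]
    have h2 : ‖actL a‖ * ‖actL a‖ ≤ l ^ 2 := by
      rw [sq]; exact mul_le_mul hla hla (norm_nonneg _) (by linarith)
    calc _ ≤ (C * (2 * ch a) ^ (2 * N) * ch g ^ (2 * N)) * l ^ 2 :=
          mul_le_mul h1 h2 (by positivity) ((norm_nonneg _).trans h1)
      _ = _ := by ring

section bil

variable {X : Type} [NormedAddCommGroup X] [NormedSpace ℝ X] {R : Type} [NormedRing R] [NormedAlgebra ℝ R]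

theorem lt_mul_b1 {f g : X → R} {v : X} (hf : DifferentiableAt ℝ f v)
    (hg : DifferentiableAt ℝ g v) :
    ‖fderiv ℝ (fun u => f u * g u) v‖ ≤ ‖f v‖ * ‖fderiv ℝ g v‖ + ‖fderiv ℝ f v‖ * ‖g v‖ := by
  refine ContinuousLinearMap.opNorm_le_bound _ (by positivity) fun ξ => ?_
  rw [TrSub.fderiv_mul_apply hf hg]
  calc ‖f v * fderiv ℝ g v ξ + fderiv ℝ f v ξ * g v‖
      ≤ ‖f v‖ * ‖fderiv ℝ g v ξ‖ + ‖fderiv ℝ f v ξ‖ * ‖g v‖ :=
        (norm_add_le _ _).trans (add_le_add (norm_mul_le _ _) (norm_mul_le _ _))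
    _ ≤ ‖f v‖ * (‖fderiv ℝ g v‖ * ‖ξ‖) + (‖fderiv ℝ f v‖ * ‖ξ‖) * ‖g v‖ := by
        gcongr <;> exact ContinuousLinearMap.le_opNorm _ _
    _ = _ := by ring

theorem lt_mul_b2 {f g : X → R} {v : X} (hf : ContDiffAt ℝ 2 f v) (hg : ContDiffAt ℝ 2 g v) :
    ‖fderiv ℝ (fderiv ℝ (fun u => f u * g u)) v‖ ≤ ‖f v‖ * ‖fderiv ℝ (fderiv ℝ g) v‖ +
      2 * (‖fderiv ℝ f v‖ * ‖fderiv ℝ g v‖) + ‖fderiv ℝ (fderiv ℝ f) v‖ * ‖g v‖ := by
  have hev : fderiv ℝ (fun u => f u * g u) =ᶠ[𝓝 v] fun u =>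
      (ContinuousLinearMap.mul ℝ R).precompR X (f u) (fderiv ℝ g u) +
        (ContinuousLinearMap.mul ℝ R).precompL X (fderiv ℝ f u) (g u) := by
    have h1 : ∀ᶠ w in 𝓝 v, ContDiffAt ℝ 2 f w := hf.eventually (by norm_num)
    have h2 : ∀ᶠ w in 𝓝 v, ContDiffAt ℝ 2 g w := hg.eventually (by norm_num)
    filter_upwards [h1, h2] with u hu1 hu2
    exact ((ContinuousLinearMap.mul ℝ R).hasFDerivAt_of_bilinear
      (hu1.differentiableAt (by norm_num)).hasFDerivAt
      (hu2.differentiableAt (by norm_num)).hasFDerivAt).fderiv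
  have hfd := (hf.differentiableAt (by norm_num)).hasFDerivAt
  have hgd := (hg.differentiableAt (by norm_num)).hasFDerivAt
  have hfd2 : HasFDerivAt (fderiv ℝ f) (fderiv ℝ (fderiv ℝ f) v) v :=
    ((hf.fderiv_right (m := 1) (by norm_num)).differentiableAt (by norm_num)).hasFDerivAt
  have hgd2 : HasFDerivAt (fderiv ℝ g) (fderiv ℝ (fderiv ℝ g) v) v :=
    ((hg.fderiv_right (m := 1) (by norm_num)).differentiableAt (by norm_num)).hasFDerivAt
  have hd1 := ((ContinuousLinearMap.mul ℝ R).precompR X).hasFDerivAt_of_bilinear hfd hgd2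
  have hd2 := ((ContinuousLinearMap.mul ℝ R).precompL X).hasFDerivAt_of_bilinear hfd2 hgd
  have hd3 : fderiv ℝ (fun u =>
      (ContinuousLinearMap.mul ℝ R).precompR X (f u) (fderiv ℝ g u) +
        (ContinuousLinearMap.mul ℝ R).precompL X (fderiv ℝ f u) (g u)) v = _ := (hd1.add hd2).fderiv
  rw [hev.fderiv_eq, hd3]
  have hβ : ‖ContinuousLinearMap.mul ℝ R‖ ≤ 1 := ContinuousLinearMap.opNorm_mul_le ℝ R
  have hβR : ‖(ContinuousLinearMap.mul ℝ R).precompR X‖ ≤ 1 :=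
    (ContinuousLinearMap.norm_precompR_le X _).trans hβ
  have hβL : ‖(ContinuousLinearMap.mul ℝ R).precompL X‖ ≤ 1 :=
    (ContinuousLinearMap.norm_precompL_le X _).trans hβ
  have h11 := ContinuousLinearMap.le_opNorm₂ (((ContinuousLinearMap.mul ℝ R).precompR X).precompR X)
    (f v) (fderiv ℝ (fderiv ℝ g) v)
  have h12 := ContinuousLinearMap.le_opNorm₂ (((ContinuousLinearMap.mul ℝ R).precompR X).precompL X)
    (fderiv ℝ f v) (fderiv ℝ g v)
  have h21 := ContinuousLinearMap.le_opNorm₂ (((ContinuousLinearMap.mul ℝ R).precompL X).precompR X)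
    (fderiv ℝ f v) (fderiv ℝ g v)
  have h22 := ContinuousLinearMap.le_opNorm₂ (((ContinuousLinearMap.mul ℝ R).precompL X).precompL X)
    (fderiv ℝ (fderiv ℝ f) v) (g v)
  have n11 := (ContinuousLinearMap.norm_precompR_le X ((ContinuousLinearMap.mul ℝ R).precompR X)).trans hβR
  have n12 := (ContinuousLinearMap.norm_precompL_le X ((ContinuousLinearMap.mul ℝ R).precompR X)).trans hβR
  have n21 := (ContinuousLinearMap.norm_precompR_le X ((ContinuousLinearMap.mul ℝ R).precompL X)).trans hβL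
  have n22 := (ContinuousLinearMap.norm_precompL_le X ((ContinuousLinearMap.mul ℝ R).precompL X)).trans hβL
  refine (norm_add_le _ _).trans ((add_le_add (norm_add_le _ _) (norm_add_le _ _)).trans ?_)
  have k11 := h11.trans (mul_le_mul_of_nonneg_right (mul_le_mul_of_nonneg_right n11 (norm_nonneg _)) (norm_nonneg _))
  have k12 := h12.trans (mul_le_mul_of_nonneg_right (mul_le_mul_of_nonneg_right n12 (norm_nonneg _)) (norm_nonneg _))
  have k21 := h21.trans (mul_le_mul_of_nonneg_right (mul_le_mul_of_nonneg_right n21 (norm_nonneg _)) (norm_nonneg _))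
  have k22 := h22.trans (mul_le_mul_of_nonneg_right (mul_le_mul_of_nonneg_right n22 (norm_nonneg _)) (norm_nonneg _))
  linarith

end bil

end Pool.Agent.Lib.MP_5d4057_al.HM
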