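import Pool.Agent.Lib.MP_5d4057_al.HM.LipF
import Pool.Agent.Lib.MP_5d4057_al.HM.LipT
import Pool.Agent.Lib.MP_5d4057_al.HM.Green
import Pool.Agent.Lib.MP_5d4057_al.HM.Comm

/-! The two-point function is below its averages. -/

set_option maxSynthPendingDepth 3

namespace Pool.Agent.Lib.MP_5d4057_al.HM

open Matrix MeasureTheory Filter Topology Pool.Agent.Lib.MP_5d4057_al Pool.Agent.Lib.MP_5d4057_al.Hyb

open scoped ComplexOrder MatrixOrder Matrix.Norms.L2Operator

variable {n m : ℕ} {Γ : Subgroup (SUGroup n)}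

section clm

variable {E E' : Type} [NormedAddCommGroup E] [NormedSpace ℝ E] [NormedAddCommGroup E'] [NormedSpace ℝ E']

theorem lt_clm {N : ℕ} {C : ℝ} {h : Vec n → E} (hf : Tame N C h) (l : E →L[ℝ] E') :
    Tame N (‖l‖ * C) fun v => l (h v) := by
  have h0 := lt_nonneg hf
  have hcd : ∀ v ∈ Cone n, ContDiffAt ℝ 2 h v := fun v hv => TrSub.contDiffAt_cone hf.cd hv
  have hfd : ∀ v ∈ Cone n, fderiv ℝ (fun u => l (h u)) v = l.comp (fderiv ℝ h v) := fun v hv =>
    (l.hasFDerivAt.comp v ((hcd v hv).differentiableAt (by norm_num)).hasFDerivAt).fderiv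
  refine ⟨fun c hc v hv => by simp only [hf.hom c hc v hv], l.contDiff.comp_contDiffOn hf.cd,
    fun g => ?_, fun g => ?_, fun g => ?_⟩
  · rw [mul_assoc]
    exact (l.le_opNorm _).trans (mul_le_mul_of_nonneg_left (hf.b0 g) (norm_nonneg _))
  · rw [hfd _ (orbit_mem g), mul_assoc]
    exact (ContinuousLinearMap.opNorm_comp_le _ _).trans
      (mul_le_mul_of_nonneg_left (hf.b1 g) (norm_nonneg _))
  · have hv := orbit_mem g
    have hev : fderiv ℝ (fun u => l (h u)) =ᶠ[𝓝 (act g (base n))] fun u =>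
        ContinuousLinearMap.compL ℝ (Vec n) E E' l (fderiv ℝ h u) := by
      filter_upwards [(isOpen_cone n).mem_nhds hv] with u hu
      exact hfd u hu
    have hd : HasFDerivAt (fderiv ℝ h) (fderiv ℝ (fderiv ℝ h) (act g (base n))) (act g (base n)) :=
      (((hcd _ hv).fderiv_right (m := 1) (by norm_num)).differentiableAt (by norm_num)).hasFDerivAt
    have hd2 : fderiv ℝ (fun u => ContinuousLinearMap.compL ℝ (Vec n) E E' l (fderiv ℝ h u))
        (act g (base n)) = (ContinuousLinearMap.compL ℝ (Vec n) E E' l).comp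
          (fderiv ℝ (fderiv ℝ h) (act g (base n))) :=
      ((ContinuousLinearMap.compL ℝ (Vec n) E E' l).hasFDerivAt.comp _ hd).fderiv
    rw [hev.fderiv_eq, hd2, mul_assoc]
    refine ContinuousLinearMap.opNorm_le_bound _ ?_ fun ξ => ?_
    · exact mul_nonneg (norm_nonneg _) ((norm_nonneg _).trans (hf.b2 g))
    · refine ContinuousLinearMap.opNorm_le_bound _ ?_ fun η => ?_
      · exact mul_nonneg (mul_nonneg (norm_nonneg _) ((norm_nonneg _).trans (hf.b2 g))) (norm_nonneg _)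
      · show ‖l (fderiv ℝ (fderiv ℝ h) (act g (base n)) ξ η)‖ ≤ _
        have h1 := (fderiv ℝ (fderiv ℝ h) (act g (base n))).le_opNorm₂ ξ η
        calc ‖l (fderiv ℝ (fderiv ℝ h) (act g (base n)) ξ η)‖
            ≤ ‖l‖ * ‖fderiv ℝ (fderiv ℝ h) (act g (base n)) ξ η‖ := l.le_opNorm _
          _ ≤ ‖l‖ * (‖fderiv ℝ (fderiv ℝ h) (act g (base n))‖ * ‖ξ‖ * ‖η‖) := by gcongr
          _ ≤ ‖l‖ * (C * ch g ^ (2 * N) * ‖ξ‖ * ‖η‖) := by
              have := hf.b2 g
              gcongr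
          _ = _ := by ring

end clm

theorem lt_mul {N : ℕ} {C C' : ℝ} {f g : Vec n → Mat m} (hf : Tame N C f) (hg : Tame N C' g) :
    Tame (2 * N) (4 * (C * C')) fun v => f v * g v := by
  have h0 := lt_nonneg hf
  have h0' := lt_nonneg hg
  have hp : ∀ x : SUGroup n, ∀ a b : ℝ, 0 ≤ a → 0 ≤ b → a ≤ C * ch x ^ (2 * N) → b ≤ C' * ch x ^ (2 * N) →
      a * b ≤ (C * C') * ch x ^ (2 * (2 * N)) := by
    intro x a b ha hb h1 h2
    refine (mul_le_mul h1 h2 hb (ha.trans h1)).trans (le_of_eq ?_)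
    ring
  refine ⟨fun c hc v hv => by simp only [hf.hom c hc v hv, hg.hom c hc v hv], hf.cd.mul hg.cd,
    fun x => ?_, fun x => ?_, fun x => ?_⟩
  · have h1 := hp x _ _ (norm_nonneg _) (norm_nonneg _) (hf.b0 x) (hg.b0 x)
    have h2 := (mul_nonneg (norm_nonneg _) (norm_nonneg _)).trans h1
    refine (norm_mul_le _ _).trans ?_
    linarith
  · have h1 := hp x _ _ (norm_nonneg _) (norm_nonneg _) (hf.b0 x) (hg.b1 x)
    have h2 := hp x _ _ (norm_nonneg _) (norm_nonneg _) (hf.b1 x) (hg.b0 x)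
    have h3 := (mul_nonneg (norm_nonneg _) (norm_nonneg _)).trans h1
    refine (lt_mul_b1 ((TrSub.contDiffAt_cone hf.cd (orbit_mem x)).differentiableAt (by norm_num))
      ((TrSub.contDiffAt_cone hg.cd (orbit_mem x)).differentiableAt (by norm_num))).trans ?_
    linarith
  · have h1 := hp x _ _ (norm_nonneg _) (norm_nonneg _) (hf.b0 x) (hg.b2 x)
    have h2 := hp x _ _ (norm_nonneg _) (norm_nonneg _) (hf.b1 x) (hg.b1 x)
    have h3 := hp x _ _ (norm_nonneg _) (norm_nonneg _) (hf.b2 x) (hg.b0 x)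
    refine (lt_mul_b2 (TrSub.contDiffAt_cone hf.cd (orbit_mem x))
      (TrSub.contDiffAt_cone hg.cd (orbit_mem x))).trans ?_
    linarith

/-- a measurable metric approximated by smooth subharmonic ones -/
structure Ap (N : ℕ) (C : ℝ) (G : Vec n → Mat m) (A : ℕ → Vec n → Mat m) : Prop where
  tame : ∀ k, ∃ C', Tame N C' (A k)
  pos : ∀ k, ∀ v ∈ Cone n, (A k v).PosDef
  sub : ∀ k, ∀ v ∈ Cone n, en (A k) v ≤ Lap (A k) v
  bd : ∀ k g, ‖A k (act g (base n))‖ ≤ C * ch g ^ (2 * N)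
  lim : ∀ᵐ g ∂(mu n), Tendsto (fun k => A k (act g (base n))) atTop (𝓝 (G (act g (base n))))

theorem Ap.nonneg {N : ℕ} {C : ℝ} {G : Vec n → Mat m} {A : ℕ → Vec n → Mat m} (h : Ap N C G A) :
    0 ≤ C := by
  have h1 := h.bd 0 1
  have h2 : ch (1 : SUGroup n) = 1 := ch_one
  rw [h2, one_pow, mul_one] at h1
  exact (norm_nonneg _).trans h1

theorem Ap.act {N : ℕ} {C : ℝ} {G : Vec n → Mat m} {A : ℕ → Vec n → Mat m} (h : Ap N C G A)
    (a : SUGroup n) : Ap N (C * (2 * ch a) ^ (2 * N)) (fun v => G (act a v))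
      fun k v => A k (act a v) := by
  have h0 := h.nonneg
  refine ⟨fun k => ?_, fun k v hv => h.pos k _ (act_mem a hv), fun k v hv => ?_, fun k g => ?_, ?_⟩
  · obtain ⟨C', hC'⟩ := h.tame k
    exact lt_act hC' a
  · obtain ⟨C', hC'⟩ := h.tame k
    have hcd := TrSub.contDiffAt_cone hC'.cd (act_mem a hv)
    rw [en_act (A k) a (hcd.differentiableAt (by norm_num)), lap_act (A k) a hv hcd]
    exact h.sub k _ (act_mem a hv)
  · simp only [← act_mul]
    refine (h.bd k (a * g)).trans ?_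
    rw [mul_assoc, ← mul_pow]
    exact mul_le_mul_of_nonneg_left (pow_le_pow_left₀ (zero_le_one.trans (one_le_ch _))
      (ch_mul_le' a g) _) h0
  · have h1 := (measurePreserving_mul_left (mu n) a).quasiMeasurePreserving.ae h.lim
    filter_upwards [h1] with g hg
    simpa only [act_mul] using hg

theorem lp_trace_le (A : Mat m) : |A.trace.re| ≤ m * ‖A‖ := Ax.abs_trace_le A

theorem Ap.le_P (hn : 1 ≤ n) (N : ℕ) : ∃ t₀ : ℕ, ∀ t, t₀ ≤ t → ∀ (C C' : ℝ) (G G' : Vec n → Mat m)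
    (A A' : ℕ → Vec n → Mat m), Ap N C G A → Ap N C' G' A' → ∀ᵐ g ∂(mu n),
      (G' (HM.act g (base n)) * G (HM.act g (base n))).trace.re ≤
        P t (fun v => (G' v * G v).trace.re) (HM.act g (base n)) := by
  obtain ⟨s₁, hs₁⟩ := le_P_of_lap_nonneg hn (2 * N)
  obtain ⟨s₂, hs₂⟩ := P_tendsto_of_ae (E := ℝ) n (2 * N)
  refine ⟨max s₁ s₂, fun t ht C C' G G' A A' h h' => ?_⟩
  have hC := h.nonneg
  have hC' := h'.nonneg
  have htm : ∀ k, ∃ D, Tame (2 * N) D fun v => (A' k v * A k v).trace.re := by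
    intro k
    obtain ⟨D, hD⟩ := h.tame k
    obtain ⟨D', hD'⟩ := h'.tame k
    exact ⟨_, lt_clm (lt_mul hD' hD) (Ax.trL m)⟩
  have hle : ∀ k, ∀ v ∈ Cone n, (A' k v * A k v).trace.re ≤
      P t (fun v => (A' k v * A k v).trace.re) v := by
    intro k v hv
    obtain ⟨D, hD⟩ := htm k
    obtain ⟨C₁, h1⟩ := h.tame k
    obtain ⟨C₂, h2⟩ := h'.tame k
    exact (hs₁ t (le_trans (le_max_left _ _) ht) D _ hD
      (lap_trace_nonneg h1.hom h2.hom h1.cd h2.cd (h.pos k) (h'.pos k) (h.sub k) (h'.sub k)) v hv).1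
  have hcont : Continuous fun X : Mat m × Mat m => (X.1 * X.2).trace.re := by
    have h3 := (Ax.trL m).continuous.comp (continuous_fst.mul continuous_snd :
      Continuous fun X : Mat m × Mat m => X.1 * X.2)
    exact h3
  have hlim : ∀ᵐ g ∂(mu n), Tendsto (fun k => (A' k (HM.act g (base n)) *
      A k (HM.act g (base n))).trace.re) atTop
      (𝓝 (G' (HM.act g (base n)) * G (HM.act g (base n))).trace.re) := by
    filter_upwards [h.lim, h'.lim] with g h3 h4
    have h5 := (hcont.tendsto (G' (HM.act g (base n)), G (HM.act g (base n)))).comp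
      (h4.prodMk_nhds h3)
    simpa only [Function.comp_def] using h5
  have hadm : ∀ k, Adm (2 * N) (m * (C' * C)) fun v => (A' k v * A k v).trace.re := by
    intro k
    obtain ⟨D, hD⟩ := htm k
    refine ⟨(continuous_orb hD.cd.continuousOn).aestronglyMeasurable, fun g => ?_⟩
    rw [Real.norm_eq_abs]
    refine (lp_trace_le _).trans ?_
    have h3 := h.bd k g
    have h4 := h'.bd k g
    rw [mul_assoc]
    refine mul_le_mul_of_nonneg_left ?_ (Nat.cast_nonneg m)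
    refine (norm_mul_le _ _).trans ?_
    refine (mul_le_mul h4 h3 (norm_nonneg _) ((norm_nonneg _).trans h4)).trans (le_of_eq ?_)
    ring
  have hPl := hs₂ t (le_trans (le_max_right _ _) ht) (m * (C' * C))
    (fun k v => (A' k v * A k v).trace.re) (fun v => (G' v * G v).trace.re) hadm hlim
  filter_upwards [hlim] with g hg
  exact le_of_tendsto_of_tendsto' hg (hPl _ (orbit_mem g)) fun k => hle k _ (orbit_mem g)

section lim

variable {ρ : Γ →* Mat m} {χ : SUGroup n → ℝ} {N : ℕ} {C : ℝ} {F : Vec n → Mat m}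

theorem exists_ap (hn : 1 ≤ n) (n' : ℕ) : ∃ N' : ℕ, ∀ (C : ℝ) (F : Vec n → Mat m) (s : ℕ → ℕ)
    (M : ℕ → Vec n → Mat m), Approx n' C s M F → Homog F → Adm n' C F → (Adm n' C fun v => (F v)⁻¹) →
      (∀ v ∈ Cone n, (F v).PosDef) → ∀ Φ : ℕ → Mat (n + 1) → ℝ, (∀ k, Ax.Mo n (Φ k)) →
      (∀ᵐ g ∂(mu n), Tendsto (fun k => lav (Φ k) F (act g (base n))) atTop
        (𝓝 (F (act g (base n))))) → Ap N' (C * 4 ^ (2 * n')) F fun k => lav (Φ k) F := by
  obtain ⟨N₀, hN₀⟩ := lav_tame (E := Mat m) n n'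
  refine ⟨N₀ + n', fun C F s M hA hh ha hi hp Φ hΦ hlim => ?_⟩
  have hC := Ax.adm_nonneg ha
  have h1 : ∀ k, 0 < ∫ a : SUGroup n, Φ k a.toMatrix ∂(mu n) := fun k => by
    rw [(hΦ k).int]; exact one_pos
  refine ⟨fun k => ?_, fun k v hv => lav_posDef (hΦ k).test (h1 k) ha hp hv,
    fun k v hv => lap_ge_en hn hA hh ha hi hp (hΦ k).test (h1 k) hv, fun k g => ?_, hlim⟩
  · obtain ⟨C', _, hC'⟩ := hN₀ (Φ k) (hΦ k).test
    exact ⟨_, lt_mono (hC' C F hh ha) (by omega) le_rfl⟩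
  · refine (Ax.lav_bound (hΦ k) ha g).trans ?_
    exact mul_le_mul_of_nonneg_left (Ax.pow_ch_mono g (by omega)) (by positivity)

/-- RESULT: the two-point function is below its average. -/
theorem sig_le_P_of (hn : 1 ≤ n) {ρ : Γ →* Mat m} {χ : SUGroup n → ℝ} (N : ℕ) : ∃ t₀ : ℕ, ∀ t, t₀ ≤ t →
    ∀ (C : ℝ) (F : Vec n → Mat m), LimMet ρ χ N C F → (∃ Φ : ℕ → Mat (n + 1) → ℝ,
      (∀ k, Ax.Mo n (Φ k)) ∧ (∀ᵐ g ∂(mu n), Tendsto (fun k => lav (Φ k) F (act g (base n))) atTop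
        (𝓝 (F (act g (base n))))) ∧
      ∀ᵐ g ∂(mu n), Tendsto (fun k => lav (Φ k) (fun v => (F v)⁻¹) (act g (base n))) atTop
        (𝓝 (F (act g (base n)))⁻¹)) → ∀ a : SUGroup n, ∀ᵐ g ∂(mu n),
      sig (F (act g (base n))) (F (act (a * g) (base n))) ≤
        P t (fun v => sig (F v) (F (act a v))) (act g (base n)) := by
  obtain ⟨N', hN'⟩ := exists_ap (n := n) (m := m) hn N
  obtain ⟨t₁, ht₁⟩ := Ap.le_P (n := n) (m := m) hn N'
  obtain ⟨t₂, ht₂⟩ := P_add (E := ℝ) n (2 * N)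
  obtain ⟨t₃, ht₃⟩ := P_const (E := ℝ) n
  refine ⟨t₁ + t₂ + t₃, fun t ht C F hF hΦ a => ?_⟩
  obtain ⟨Φ, hΦ, hl1, hl2⟩ := hΦ
  obtain ⟨s, M, hsub⟩ := hF.sub
  obtain ⟨s', M', hsub'⟩ := hF.sub'
  have hinv : ∀ v ∈ Cone n, ((F v)⁻¹)⁻¹ = F v := fun v hv =>
    nonsing_inv_nonsing_inv _ ((Matrix.isUnit_iff_isUnit_det _).1 (hF.pos v hv).isUnit)
  have hi' : Adm N C fun v => ((F v)⁻¹)⁻¹ := by
    refine ⟨hF.meas.congr (Eventually.of_forall fun g => (hinv _ (orbit_mem g)).symm), fun g => ?_⟩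
    simp only [hinv _ (orbit_mem g)]
    exact hF.bound g
  have hA := hN' C F s M hsub hF.hom hF.adm hF.adm_inv hF.pos Φ hΦ hl1
  have hB := hN' C (fun v => (F v)⁻¹) s' M' hsub' hF.hom_inv hF.adm_inv hi'
    (fun v hv => (hF.pos v hv).inv) Φ hΦ hl2
  have h1 := ht₁ t (by omega) _ _ _ _ _ _ (hA.act a) hB
  have h2 := ht₁ t (by omega) _ _ _ _ _ _ hA (hB.act a)
  have hC := Ax.adm_nonneg hF.adm
  -- admissibility of the two terms
  have hcont : Continuous fun X : Mat m × Mat m => (X.1 * X.2).trace.re := by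
    have h3 := (Ax.trL m).continuous.comp (continuous_fst.mul continuous_snd :
      Continuous fun X : Mat m × Mat m => X.1 * X.2)
    exact h3
  have hbd : ∀ (X Y : Mat m) (g : SUGroup n), ‖X‖ ≤ C * ch g ^ (2 * N) →
      ‖Y‖ ≤ C * (2 * ch a) ^ (2 * N) * ch g ^ (2 * N) → ‖X‖ * ‖Y‖ ≤
        (C * (C * (2 * ch a) ^ (2 * N))) * ch g ^ (2 * (2 * N)) := by
    intro X Y g h3 h4
    refine (mul_le_mul h3 h4 (norm_nonneg _) ((norm_nonneg _).trans h3)).trans (le_of_eq ?_)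
    ring
  have hag : ∀ g : SUGroup n, C * ch (a * g) ^ (2 * N) ≤ C * (2 * ch a) ^ (2 * N) * ch g ^ (2 * N) := by
    intro g
    rw [mul_assoc, ← mul_pow]
    exact mul_le_mul_of_nonneg_left (pow_le_pow_left₀ (zero_le_one.trans (one_le_ch _))
      (ch_mul_le' a g) _) hC
  have hadm1 : Adm (2 * N) (m * (C * (C * (2 * ch a) ^ (2 * N))))
      fun v => ((F v)⁻¹ * F (act a v)).trace.re := by
    refine ⟨?_, fun g => ?_⟩
    · have h3 := (hF.adm_inv.meas).prodMk (hF.meas_left a)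
      simpa only [act_mul, Function.comp_def] using hcont.comp_aestronglyMeasurable h3
    · rw [Real.norm_eq_abs, ← act_mul]
      refine (lp_trace_le _).trans ?_
      rw [mul_assoc]
      refine mul_le_mul_of_nonneg_left ((norm_mul_le _ _).trans ?_) (Nat.cast_nonneg m)
      exact hbd _ _ g (hF.boundInv g) ((hF.bound _).trans (hag g))
  have hadm2 : Adm (2 * N) (m * (C * (C * (2 * ch a) ^ (2 * N))))
      fun v => ((F (act a v))⁻¹ * F v).trace.re := by
    refine ⟨?_, fun g => ?_⟩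
    · have h3 := (aesm_inv (hF.meas_left a) fun _ => hF.opos _).prodMk hF.meas
      simpa only [act_mul, Function.comp_def] using hcont.comp_aestronglyMeasurable h3
    · rw [Real.norm_eq_abs, ← act_mul]
      refine (lp_trace_le _).trans ?_
      rw [mul_assoc]
      refine mul_le_mul_of_nonneg_left ((norm_mul_le _ _).trans ?_) (Nat.cast_nonneg m)
      rw [mul_comm ‖(F (act (a * g) (base n)))⁻¹‖]
      exact hbd _ _ g (hF.bound g) ((hF.boundInv _).trans (hag g))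
  have hadm3 : Adm (2 * N) (2 * m) fun _ : Vec n => -(2 * (m : ℝ)) := by
    refine ⟨aestronglyMeasurable_const, fun g => ?_⟩
    have h3 : (0 : ℝ) ≤ 2 * m := by positivity
    rw [norm_neg, Real.norm_eq_abs, abs_of_nonneg h3]
    exact le_mul_of_one_le_right h3 (one_le_pow₀ (one_le_ch g))
  have hadm12 : Adm (2 * N) (m * (C * (C * (2 * ch a) ^ (2 * N))) + m * (C * (C * (2 * ch a) ^ (2 * N))))
      fun v => ((F v)⁻¹ * F (act a v)).trace.re + ((F (act a v))⁻¹ * F v).trace.re := by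
    refine ⟨hadm1.meas.add hadm2.meas, fun g => ?_⟩
    rw [add_mul]
    exact (norm_add_le _ _).trans (add_le_add (hadm1.bound g) (hadm2.bound g))
  have hsplit : (fun v => sig (F v) (F (act a v))) = fun v =>
      (((F v)⁻¹ * F (act a v)).trace.re + ((F (act a v))⁻¹ * F v).trace.re) + -(2 * (m : ℝ)) := by
    funext v
    unfold sig
    rw [Complex.add_re]
    ring
  filter_upwards [h1, h2] with g hg1 hg2
  have e1 : P t (fun v => sig (F v) (F (act a v))) (act g (base n)) =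
      P t (fun v => ((F v)⁻¹ * F (act a v)).trace.re) (act g (base n)) +
      P t (fun v => ((F (act a v))⁻¹ * F v).trace.re) (act g (base n)) + -(2 * (m : ℝ)) := by
    rw [hsplit, ht₂ t (by omega) _ _ _ _ hadm12 hadm3 _ (orbit_mem g),
      ht₂ t (by omega) _ _ _ _ hadm1 hadm2 _ (orbit_mem g), ht₃ t (by omega) _ _ (orbit_mem g)]
  have e2 : sig (F (act g (base n))) (F (act a (act g (base n)))) = _ :=
    congrFun hsplit (act g (base n))
  rw [e1, act_mul, e2]
  linarith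

end lim

end Pool.Agent.Lib.MP_5d4057_al.HM
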