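import Pool.Agent.Lib.MP_5d4057_al.HM.AppDefs

/-! Section F: calculus with complex linear and antilinear derivatives. -/

set_option autoImplicit false

namespace Pool.Agent.Lib.MP_5d4057_al.HM

open Matrix Filter Topology Pool.Agent.Lib.MP_5d4057_al Pool.Agent.Lib.MP_5d4057_al.Hyb

open scoped ComplexOrder MatrixOrder Matrix.Norms.L2Operator

variable {n n' m : ℕ} {E F G : Type} [NormedAddCommGroup E] [NormedSpace ℂ E]
  [NormedAddCommGroup F] [NormedSpace ℂ F] [NormedAddCommGroup G] [NormedSpace ℂ G]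

/-- The complex linear part of the derivative. -/
noncomputable def pz (f : Vec n → E) (v ξ : Vec n) : E :=
  (1 / 2 : ℂ) • (fderiv ℝ f v ξ - Complex.I • fderiv ℝ f v (Complex.I • ξ))

/-- The antilinear part of the derivative. -/
noncomputable def pb (f : Vec n → E) (v ξ : Vec n) : E :=
  (1 / 2 : ℂ) • (fderiv ℝ f v ξ + Complex.I • fderiv ℝ f v (Complex.I • ξ))

theorem dz_eq (A : Vec n → Mat m) (v ξ : Vec n) : dz A v ξ = pz A v ξ := rfl

theorem dzb_eq (A : Vec n → Mat m) (v ξ : Vec n) : dzb A v ξ = pb A v ξ := rfl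

/-- `f` is differentiable with derivatives `a`, `b` in the direction `ξ`. -/
structure HasZ (f : Vec n → E) (v ξ : Vec n) (a b : E) : Prop where
  diff : DifferentiableAt ℝ f v
  one : fderiv ℝ f v ξ = a + b
  I : fderiv ℝ f v (Complex.I • ξ) = Complex.I • (a - b)

theorem II_smul (x : E) : Complex.I • Complex.I • x = -x := by
  rw [smul_smul, Complex.I_mul_I, neg_one_smul]

theorem half_smul (x y : E) : (1 / 2 : ℂ) • (x + y + (x - y)) = x := by
  rw [show x + y + (x - y) = (2 : ℂ) • x by rw [two_smul]; abel, smul_smul]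
  norm_num

theorem half_smul' (x y : E) : (1 / 2 : ℂ) • (x + y - (x - y)) = y := by
  rw [show x + y - (x - y) = (2 : ℂ) • y by rw [two_smul]; abel, smul_smul]
  norm_num

theorem HasZ.pz {f : Vec n → E} {v ξ : Vec n} {a b : E} (h : HasZ f v ξ a b) :
    pz f v ξ = a := by
  rw [HM.pz, h.one, h.I, II_smul, sub_neg_eq_add, half_smul]

theorem HasZ.pb {f : Vec n → E} {v ξ : Vec n} {a b : E} (h : HasZ f v ξ a b) :
    pb f v ξ = b := by
  rw [HM.pb, h.one, h.I, II_smul, ← sub_eq_add_neg, half_smul']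

theorem hasZ {f : Vec n → E} {v : Vec n} (h : DifferentiableAt ℝ f v) (ξ : Vec n) :
    HasZ f v ξ (pz f v ξ) (pb f v ξ) where
  diff := h
  one := by
    rw [pz, pb, ← smul_add]
    rw [show ∀ x y : E, x - y + (x + y) = (2 : ℂ) • x from fun x y => by rw [two_smul]; abel,
      smul_smul]
    norm_num
  I := by
    rw [pz, pb, ← smul_sub]
    rw [show ∀ x y : E, x - y - (x + y) = (-2 : ℂ) • y from
      fun x y => by rw [neg_smul, two_smul]; abel, smul_smul, smul_smul, smul_smul]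
    rw [show Complex.I * (1 / 2) * -2 * Complex.I = 1 by
      linear_combination -Complex.I_mul_I, one_smul]

theorem HasZ.congr {f g : Vec n → E} {v ξ : Vec n} {a b : E} (h : HasZ f v ξ a b)
    (hg : g =ᶠ[𝓝 v] f) : HasZ g v ξ a b where
  diff := h.diff.congr_of_eventuallyEq hg
  one := by rw [hg.fderiv_eq, h.one]
  I := by rw [hg.fderiv_eq, h.I]

theorem pz_congr {f g : Vec n → E} {v : Vec n} (hg : g =ᶠ[𝓝 v] f) (ξ : Vec n) :
    pz g v ξ = pz f v ξ := by
  rw [pz, pz, hg.fderiv_eq]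

theorem pb_congr {f g : Vec n → E} {v : Vec n} (hg : g =ᶠ[𝓝 v] f) (ξ : Vec n) :
    pb g v ξ = pb f v ξ := by
  rw [pb, pb, hg.fderiv_eq]

/-- Outer holomorphic function. -/
theorem HasZ.comp_holo {f : Vec n → E} {v ξ : Vec n} {a b : E} (h : HasZ f v ξ a b) {Φ : E → F}
    {Φ' : E →L[ℂ] F} (hΦ : HasFDerivAt Φ Φ' (f v)) :
    HasZ (fun w => Φ (f w)) v ξ (Φ' a) (Φ' b) := by
  have h1 : HasFDerivAt Φ (Φ'.restrictScalars ℝ) (f v) := hΦ.restrictScalars ℝ
  have h2 : HasFDerivAt (fun w => Φ (f w)) ((Φ'.restrictScalars ℝ).comp (fderiv ℝ f v)) v :=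
    h1.comp v h.diff.hasFDerivAt
  refine ⟨h2.differentiableAt, ?_, ?_⟩
  · rw [h2.fderiv, ContinuousLinearMap.comp_apply, h.one]
    exact map_add Φ' a b
  · rw [h2.fderiv, ContinuousLinearMap.comp_apply, h.I]
    rw [← map_sub, ← map_smul]
    rfl

/-- Outer complex linear map. -/
theorem HasZ.clm {f : Vec n → E} {v ξ : Vec n} {a b : E} (h : HasZ f v ξ a b) (L : E →L[ℂ] F) :
    HasZ (fun w => L (f w)) v ξ (L a) (L b) := h.comp_holo L.hasFDerivAt

theorem HasZ.prodMk {f : Vec n → E} {g : Vec n → F} {v ξ : Vec n} {a b : E} {c d : F}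
    (hf : HasZ f v ξ a b) (hg : HasZ g v ξ c d) :
    HasZ (fun w => (f w, g w)) v ξ (a, c) (b, d) := by
  have h2 := hf.diff.hasFDerivAt.prodMk hg.diff.hasFDerivAt
  refine ⟨h2.differentiableAt, ?_, ?_⟩
  · rw [h2.fderiv, ContinuousLinearMap.prod_apply, hf.one, hg.one]
    rfl
  · rw [h2.fderiv, ContinuousLinearMap.prod_apply, hf.I, hg.I]
    rfl

/-- Products. -/
theorem HasZ.bilin {f : Vec n → E} {g : Vec n → F} {v ξ : Vec n} {a b : E} {c d : F}
    (hf : HasZ f v ξ a b) (hg : HasZ g v ξ c d) (B : E →L[ℂ] F →L[ℂ] G) :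
    HasZ (fun w => B (f w) (g w)) v ξ (B (f v) c + B a (g v)) (B (f v) d + B b (g v)) := by
  have h1 : HasFDerivAt (𝕜 := ℂ) (fun p : E × F => B p.1 p.2) (B.deriv₂ (f v, g v)) (f v, g v) :=
    B.isBoundedBilinearMap.hasFDerivAt (f v, g v)
  have h2 := (hf.prodMk hg).comp_holo h1
  simpa only [ContinuousLinearMap.coe_deriv₂] using h2

theorem HasZ.add {f g : Vec n → E} {v ξ : Vec n} {a b c d : E}
    (hf : HasZ f v ξ a b) (hg : HasZ g v ξ c d) :
    HasZ (fun w => f w + g w) v ξ (a + c) (b + d) := by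
  refine ⟨hf.diff.add hg.diff, ?_, ?_⟩
  · rw [fderiv_fun_add hf.diff hg.diff, _root_.add_apply, hf.one, hg.one]
    abel
  · rw [fderiv_fun_add hf.diff hg.diff, _root_.add_apply, hf.I, hg.I, ← smul_add]
    congr 1
    abel

theorem HasZ.neg {f : Vec n → E} {v ξ : Vec n} {a b : E} (hf : HasZ f v ξ a b) :
    HasZ (fun w => -f w) v ξ (-a) (-b) := by
  refine ⟨hf.diff.neg, ?_, ?_⟩
  · rw [fderiv_fun_neg, _root_.neg_apply, hf.one]
    abel
  · rw [fderiv_fun_neg, _root_.neg_apply, hf.I, ← smul_neg]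
    congr 1
    abel

theorem HasZ.sub {f g : Vec n → E} {v ξ : Vec n} {a b c d : E}
    (hf : HasZ f v ξ a b) (hg : HasZ g v ξ c d) :
    HasZ (fun w => f w - g w) v ξ (a - c) (b - d) := by
  simp only [sub_eq_add_neg]
  exact hf.add hg.neg

theorem hasZ_const (c : E) (v ξ : Vec n) : HasZ (fun _ => c) v ξ 0 0 := by
  refine ⟨differentiableAt_const c, ?_, ?_⟩ <;> simp

/-- Complex linear functions. -/
theorem hasZ_clm (L : Vec n →L[ℂ] E) (v ξ : Vec n) : HasZ (fun w => L w) v ξ (L ξ) 0 := by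
  have h : HasFDerivAt (fun w => L w) (L.restrictScalars ℝ) v := L.hasFDerivAt.restrictScalars ℝ
  refine ⟨h.differentiableAt, ?_, ?_⟩
  · rw [h.fderiv, add_zero]
    rfl
  · rw [h.fderiv, sub_zero, ← map_smul]
    rfl

theorem hasZ_id (v ξ : Vec n) : HasZ (fun w : Vec n => w) v ξ ξ 0 :=
  hasZ_clm (ContinuousLinearMap.id ℂ (Vec n)) v ξ

/-- Multiplication of matrices. -/
theorem HasZ.mul {f g : Vec n → Mat m} {v ξ : Vec n} {a b c d : Mat m}
    (hf : HasZ f v ξ a b) (hg : HasZ g v ξ c d) :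
    HasZ (fun w => f w * g w) v ξ (f v * c + a * g v) (f v * d + b * g v) :=
  hf.bilin hg (ContinuousLinearMap.mul ℂ (Mat m))

theorem HasZ.smul {f : Vec n → ℂ} {g : Vec n → E} {v ξ : Vec n} {a b : ℂ} {c d : E}
    (hf : HasZ f v ξ a b) (hg : HasZ g v ξ c d) :
    HasZ (fun w => f w • g w) v ξ (f v • c + a • g v) (f v • d + b • g v) :=
  hf.bilin hg (ContinuousLinearMap.lsmul ℂ ℂ)

theorem HasZ.const_smul {g : Vec n → E} {v ξ : Vec n} {c d : E} (k : ℂ)
    (hg : HasZ g v ξ c d) : HasZ (fun w => k • g w) v ξ (k • c) (k • d) :=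
  hg.clm (k • ContinuousLinearMap.id ℂ E)

theorem HasZ.inv {f : Vec n → ℂ} {v ξ : Vec n} {a b : ℂ} (hf : HasZ f v ξ a b) (h : f v ≠ 0) :
    HasZ (fun w => (f w)⁻¹) v ξ (-a / f v ^ 2) (-b / f v ^ 2) := by
  have h1 := hf.comp_holo (hasDerivAt_inv h).hasFDerivAt
  convert h1 using 1 <;> simp <;> ring

theorem HasZ.mul' {f g : Vec n → ℂ} {v ξ : Vec n} {a b c d : ℂ}
    (hf : HasZ f v ξ a b) (hg : HasZ g v ξ c d) :
    HasZ (fun w => f w * g w) v ξ (f v * c + a * g v) (f v * d + b * g v) :=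
  hf.bilin hg (ContinuousLinearMap.mul ℂ ℂ)

theorem hasFDerivAt_matInvC {A : Mat m} (hA : IsUnit A) :
    HasFDerivAt (𝕜 := ℂ) (fun X : Mat m => X⁻¹)
      (-ContinuousLinearMap.mulLeftRight ℂ (Mat m) A⁻¹ A⁻¹) A := by
  obtain ⟨u, rfl⟩ := hA
  have h := hasFDerivAt_ringInverse (𝕜 := ℂ) u
  have h1 : (fun X : Mat m => X⁻¹) = Ring.inverse := by
    funext X
    exact nonsing_inv_eq_ringInverse X
  rw [h1, nonsing_inv_eq_ringInverse, Ring.inverse_unit]
  exact h

theorem HasZ.matInv {f : Vec n → Mat m} {v ξ : Vec n} {a b : Mat m} (hf : HasZ f v ξ a b)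
    (h : IsUnit (f v)) :
    HasZ (fun w => (f w)⁻¹) v ξ (-((f v)⁻¹ * a * (f v)⁻¹)) (-((f v)⁻¹ * b * (f v)⁻¹)) := by
  have h1 := hf.comp_holo (hasFDerivAt_matInvC h)
  exact h1

/-- Inner complex linear map. -/
theorem HasZ.comp_lin {f : Vec n → E} (L : Vec n' →L[ℂ] Vec n) {v ξ : Vec n'} {a b : E}
    (h : HasZ f (L v) (L ξ) a b) : HasZ (fun w => f (L w)) v ξ a b := by
  have h1 : HasFDerivAt (fun w => L w) (L.restrictScalars ℝ) v := L.hasFDerivAt.restrictScalars ℝ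
  have h2 : HasFDerivAt (fun w => f (L w)) ((fderiv ℝ f (L v)).comp (L.restrictScalars ℝ)) v :=
    h.diff.hasFDerivAt.comp v h1
  refine ⟨h2.differentiableAt, ?_, ?_⟩
  · rw [h2.fderiv, ← h.one]
    rfl
  · rw [h2.fderiv, ← h.I, ← map_smul]
    rfl

/-- Outer antilinear map. -/
theorem HasZ.comp_anti {f : Vec n → E} {v ξ : Vec n} {a b : E} (h : HasZ f v ξ a b)
    (L : E →L[ℝ] F) (hL : ∀ x : E, L (Complex.I • x) = -(Complex.I • L x)) :
    HasZ (fun w => L (f w)) v ξ (L b) (L a) := by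
  have h2 : HasFDerivAt (fun w => L (f w)) (L.comp (fderiv ℝ f v)) v :=
    L.hasFDerivAt.comp v h.diff.hasFDerivAt
  refine ⟨h2.differentiableAt, ?_, ?_⟩
  · rw [h2.fderiv, ContinuousLinearMap.comp_apply, h.one, map_add, add_comm]
  · rw [h2.fderiv, ContinuousLinearMap.comp_apply, h.I, hL, map_sub, ← smul_neg, neg_sub]

end Pool.Agent.Lib.MP_5d4057_al.HM
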