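import Pool.Agent.Lib.MP_5d4057_al.HM.AppOne

/-! Section F: the complex conjugate of a pluriharmonic metric. -/

set_option autoImplicit false

namespace Pool.Agent.Lib.MP_5d4057_al.HM

open Matrix Filter Topology Pool.Agent.Lib.MP_5d4057_al Pool.Agent.Lib.MP_5d4057_al.Hyb

open scoped ComplexOrder MatrixOrder Matrix.Norms.L2Operator

variable {n m j k : ℕ}

theorem cj_I_smul (x : ℂ) : cj (Complex.I * x) = -(Complex.I * cj x) := by
  rw [map_mul, cj_apply, cj_apply, Complex.conj_I, neg_mul]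

/-- Entrywise complex conjugation. -/
noncomputable def cjL (m : ℕ) : Mat m →L[ℝ] Mat m := LinearMap.toContinuousLinearMap
  { toFun := fun A => A.map cj
    map_add' := fun A B => by
      ext i j
      simp
    map_smul' := fun c A => by
      ext i j
      simp [cj_apply, Complex.real_smul] }

theorem cjL_apply (A : Mat m) : cjL m A = A.map cj := rfl

theorem cjL_anti (A : Mat m) : cjL m (Complex.I • A) = -(Complex.I • cjL m A) := by
  ext i j
  simp only [cjL_apply, Matrix.map_apply, Matrix.smul_apply, Matrix.neg_apply, smul_eq_mul,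
    cj_I_smul]

/-- Conjugate transpose. -/
noncomputable def ctL (m : ℕ) : Mat m →L[ℝ] Mat m := LinearMap.toContinuousLinearMap
  { toFun := fun A => Aᴴ
    map_add' := fun A B => by
      ext i j
      simp
    map_smul' := fun c A => by
      ext i j
      simp }

theorem ctL_apply (A : Mat m) : ctL m A = Aᴴ := rfl

theorem ctL_anti (A : Mat m) : ctL m (Complex.I • A) = -(Complex.I • ctL m A) := by
  rw [ctL_apply, ctL_apply, conjTranspose_smul, Complex.star_def, Complex.conj_I, neg_smul]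

theorem HasZ.cj {f : Vec n → Mat m} {v ξ : Vec n} {a b : Mat m} (h : HasZ f v ξ a b) :
    HasZ (fun w => (f w).map cj) v ξ (b.map cj) (a.map cj) :=
  h.comp_anti (cjL m) cjL_anti

theorem HasZ.ct {f : Vec n → Mat m} {v ξ : Vec n} {a b : Mat m} (h : HasZ f v ξ a b) :
    HasZ (fun w => (f w)ᴴ) v ξ bᴴ aᴴ :=
  h.comp_anti (ctL m) ctL_anti

/-- The two derivatives of a Hermitian function. -/
theorem Harm.pb_eq {F : Vec n → Mat m} (h : Harm F) {v : Vec n} (hv : v ∈ Cone n) (ξ : Vec n) :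
    pb F v ξ = (pz F v ξ)ᴴ := by
  have h1 : HasZ F v ξ (pz F v ξ) (pb F v ξ) := hasZ (h.diff hv) ξ
  have h2 := h1.ct.congr (g := F) (by
    filter_upwards [mem_nhds_cone hv] with w hw
    exact (h.pos w hw).isHermitian.eq.symm)
  exact h2.pb

theorem map_cj_eq {A : Mat m} (hA : Aᴴ = A) : A.map cj = Aᵀ := by
  ext i j
  rw [Matrix.map_apply, transpose_apply]
  conv_rhs => rw [← hA]
  rfl

theorem posDef_cj {A : Mat m} (hA : A.PosDef) : (A.map cj).PosDef := by
  rw [map_cj_eq hA.isHermitian.eq]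
  exact hA.transpose

theorem cj_inv {A : Mat m} (hA : IsUnit A) : (A.map cj)⁻¹ = A⁻¹.map cj :=
  tm_inv cj ((isUnit_iff_isUnit_det A).1 hA).ne_zero

theorem cj_ct (A : Mat m) : (A.map cj)ᴴ = Aᴴ.map cj := by
  ext i j
  rfl

/-- The conjugate metric. -/
theorem Harm.cj {F : Vec n → Mat m} (h : Harm F) : Harm fun v => (F v).map cj := by
  refine Harm.mk' (fun v ξ => (pb F v ξ).map HM.cj) (fun v ξ => (pz F v ξ).map HM.cj)
    ?_ ?_ ?_ ?_ ?_ ?_
  · exact (cjL m).contDiff.comp_contDiffOn h.cd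
  · intro c hc v hv
    show (F (c • v)).map HM.cj = _
    rw [h.hom c hc v hv]
  · exact fun v hv => posDef_cj (h.pos v hv)
  · exact fun v hv ξ => (hasZ (h.diff hv) ξ).cj
  · intro v hv ξ η
    have h1 : HasZ (fun w => pz F w η) v ξ _ _ :=
      hasZ (hasFDerivAt_pz (h.cda hv) η).differentiableAt ξ
    have h3 : pz (fun w => pb F w ξ) v η = (1 / 2 : ℂ) •
      (pb F v ξ * (F v)⁻¹ * pz F v η + pz F v η * (F v)⁻¹ * pb F v ξ) := h.ph v hv η ξ
    rw [h1.cj.pz, ← pz_pb_comm (h.cda hv) η ξ, h3, cj_inv (h.unit hv), tm_smul,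
      Matrix.map_add HM.cj (map_add HM.cj), tm_mul, tm_mul, tm_mul, tm_mul]
    have h4 : HM.cj (1 / 2 : ℂ) = 1 / 2 := by
      have h0 : (1 / 2 : ℂ) = ((1 / 2 : ℝ) : ℂ) := by push_cast; rfl
      rw [cj_apply, h0, Complex.conj_ofReal]
    rw [h4, add_comm]
  · intro v hv ξ η
    have h2 : pz F v ξ * (F v)⁻¹ * pz F v η = pz F v η * (F v)⁻¹ * pz F v ξ := h.comm v hv ξ η
    have h5 : ((F v)⁻¹)ᴴ = (F v)⁻¹ := (h.pos v hv).inv.isHermitian.eq
    have h6 := congrArg conjTranspose h2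
    simp only [conjTranspose_mul, h5, ← h.pb_eq hv, ← Matrix.mul_assoc] at h6
    show (pb F v ξ).map HM.cj * ((F v).map HM.cj)⁻¹ * (pb F v η).map HM.cj =
      (pb F v η).map HM.cj * ((F v).map HM.cj)⁻¹ * (pb F v ξ).map HM.cj
    rw [cj_inv (h.unit hv), ← tm_mul, ← tm_mul, ← tm_mul, ← tm_mul, h6]

theorem equi_std_cj (Γ : Subgroup (SUGroup n)) :
    Equi (rhoT cj Γ) fun w => (std w).map cj := by
  intro γ w _
  show (std (act (γ : SUGroup n) w)).map cj = _
  rw [std_act, tm_mul, tm_mul, rhoT_apply, ← cj_ct]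

end Pool.Agent.Lib.MP_5d4057_al.HM
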