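import Pool.Agent.Lib.MP_5d4057_al.HM.AppNorm

/-! Section F4: the automorphisms fixing the trace field of the pieces fix all traces of the
hybrid. -/

set_option autoImplicit false

namespace Pool.Agent.Lib.MP_5d4057_al.HM

open Matrix Filter Topology Pool.Agent.Lib.MP_5d4057_al Pool.Agent.Lib.MP_5d4057_al.Hyb

open scoped ComplexOrder MatrixOrder Matrix.Norms.L2Operator

variable {n m j k : ℕ}

/-- The vector `(x, y, 0, …)`. -/
def two (k : ℕ) (x y : ℂ) : Vec (k + 2) := Fin.cons x (Fin.cons y 0)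

theorem two_eq (x y : ℂ) : two k x y = x • nrm (k + 1) + y • inc (k + 1) (nrm k) := by
  ext i
  rw [two, nrm, nrm, inc_apply]
  refine Fin.cases ?_ (fun i => Fin.cases ?_ (fun i => ?_) i) i <;> simp

theorem two_inj {x y x' y' : ℂ} (h : two k x y = two k x' y') : x = x' ∧ y = y' := by
  constructor
  · exact congrFun h 0
  · exact congrFun h 1

theorem bsum_two (X : Mat 2) (A : Mat (k + 1)) (x y : ℂ) :
    bsum X A *ᵥ two k x y = two k (X 0 0 * x + X 0 1 * y) (X 1 0 * x + X 1 1 * y) := by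
  rw [two, bsum_mulVec_cons, mulVec_zero]
  rfl

theorem bsum_base (X : Mat 2) (c : ℂ) :
    bsum X (c • (1 : Mat (k + 1))) *ᵥ base (k + 2) = c • base (k + 2) := by
  rw [← inc_base, ← inc_base, inc_apply, inc_apply, bsum_mulVec_cons]
  ext i
  refine Fin.cases ?_ (fun i => Fin.cases ?_ (fun i => ?_) i) i <;> simp [smul_mulVec]

theorem herm_base_nrm : herm (base (k + 1)) (nrm k) = 0 := by
  have h : (nrm k) (Fin.last (k + 1)) = 0 := rfl
  rw [herm_eq, h, mul_zero, sub_zero]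
  refine Finset.sum_eq_zero fun i _ => ?_
  rw [base, Pi.single_eq_of_ne (Fin.castSucc_lt_last i).ne]
  simp

/-- The derivatives in the plane spanned by the first two vectors. -/
theorem Pce.deriv_two {Γ : Subgroup (SUGroup (k + 1))} {G : Vec (k + 2) → Mat (k + 3)} {l a p : ℂ}
    (P : Pce (k + 1) Γ G l a)
    (hp : pz G (base (k + 2)) (nrm (k + 1)) = p • vecMulVec (nrm (k + 1)) (star (base (k + 2))))
    (x y : ℂ) :
    pz G (base (k + 2)) (two k x y) =
      vecMulVec (two k (p * x) (2 * a * y)) (star (base (k + 2))) := by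
  have hb := base_mem (k + 1)
  have hB := base_mem (k + 2)
  have h1 := (P.tan hb (nrm k)).1
  rw [inc_base, prj_eq herm_base_nrm, q_base] at h1
  have h2 : HasZ G (base (k + 2)) (nrm (k + 1)) _ _ := hasZ (P.harm.diff hB) (nrm (k + 1))
  have h3 : HasZ G (base (k + 2)) (inc (k + 1) (nrm k)) _ _ :=
    hasZ (P.harm.diff hB) (inc (k + 1) (nrm k))
  have h4 := (h2.smul_dir x).pz
  have h5 := (h3.smul_dir y).pz
  have hadd : ∀ u v : Vec (k + 2), pz G (base (k + 2)) (u + v) =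
      pz G (base (k + 2)) u + pz G (base (k + 2)) v := by
    intro u v
    rw [pz, pz, pz, smul_add, map_add, map_add, ← smul_add]
    congr 1
    module
  rw [two_eq, hadd, h4, h5, hp, h1, two_eq]
  ext i i'
  simp only [vecMulVec_apply, Pi.smul_apply, Pi.add_apply, Matrix.smul_apply, Matrix.add_apply,
    smul_eq_mul]
  push_cast
  ring

/-- F4 (the main theorem of the application). -/
theorem key_id (H : ThmH) (U : ThmU) (Γ : Fin 2 → Subgroup (SUGroup (k + 1)))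
    (g : Fin 2 → SUGroup (k + 2)) (hcoc : Coc (hybrid Γ g)) (hcocb : ∀ b, Coc (Γ b))
    (hspan : Submodule.span ℂ (SUGroup.toMatrix '' (hybrid Γ g : Set (SUGroup (k + 2)))) = ⊤)
    (hspanb : ∀ b, Submodule.span ℂ (SUGroup.toMatrix '' (Γ b : Set (SUGroup (k + 1)))) = ⊤)
    {K : Subfield ℂ} {D : Matrix (Fin (k + 1)) (Fin (k + 1)) ℂ}
    {HD : Matrix (Fin (k + 1)) (Fin (k + 1)) K} {μ : Fin 2 → ℂ} {q : Fin 2 → K}
    (hn : IsNF k K D HD μ q) (hrat : ∀ b, ∀ γ ∈ Γ b, EntriesIn K (dsum (μ b) D) γ.toMatrix)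
    {X : Matrix (Fin 2) (Fin 2) ℂ} {ζ : ℂ} (hζ : star ζ * ζ = 1) (hX : Xᴴ * X = 1)
    (hg : (g 1).toMatrix = (g 0).toMatrix * (ζ • bsum X 1)) (h01 : X 0 1 ≠ 0)
    (t : ℂ ≃+* ℂ) (ht : ∀ x : K, t (x : ℂ) = x) :
    ∀ γ ∈ hybrid Γ g, t γ.toMatrix.trace = γ.toMatrix.trace := by
  obtain ⟨F, Q, l, a, Y, hQu, hQρ, hFh, P, hQ1, hY01, ha01⟩ :=
    two_data H U Γ g hcoc hcocb hspan hspanb hn hrat hζ hg h01 t ht
  have hp := fun b => (P b).nrm_deriv (by omega) (hcocb b)
  choose p hp using hp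
  have hB := base_mem (k + 2)
  have hζ0 : ζ ≠ 0 := by
    intro h
    rw [h, mul_zero] at hζ
    exact zero_ne_one hζ
  set c : ℂ := t ζ with hc
  have hc0 : c ≠ 0 := (map_ne_zero t).2 hζ0
  have hc0' : star c ≠ 0 := star_ne_zero.2 hc0
  set R : Mat (k + 3) := bsum Y (c • 1) with hR
  have hRu : IsUnit R := by
    have h1 : IsUnit (Q 0 * R) := by rw [← hQ1]; exact hQu 1
    exact isUnit_of_mul_isUnit_right h1
  have hRd := (isUnit_iff_isUnit_det _).1 hRu
  set G : Fin 2 → Vec (k + 2) → Mat (k + 3) :=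
    fun b v => (Q b)⁻¹ * F (act (g b) v) * ((Q b)⁻¹)ᴴ with hG
  -- the two metrics are related
  have hLX : ∀ v : Vec (k + 2), act (g 1) v =
      ζ • act (g 0) (bsum X (1 : Mat (k + 1)) *ᵥ v) := by
    intro v
    rw [act, act, hg, ← mulVec_mulVec, smul_mulVec, mulVec_smul]
  have hrel : ∀ v ∈ Cone (k + 2), R * G 1 v * Rᴴ = G 0 (bsum X (1 : Mat (k + 1)) *ᵥ v) := by
    intro v hv
    have h1 : act (g 0) (bsum X (1 : Mat (k + 1)) *ᵥ v) ∈ Cone (k + 2) := by
      have h2 := act_mem (g 1) hv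
      rw [hLX v] at h2
      have h3 := smul_mem_cone (inv_ne_zero hζ0) h2
      rwa [smul_smul, inv_mul_cancel₀ hζ0, one_smul] at h3
    have h4 : F (act (g 1) v) = F (act (g 0) (bsum X (1 : Mat (k + 1)) *ᵥ v)) := by
      rw [hLX v, hFh ζ hζ0 _ h1]
    show R * ((Q 1)⁻¹ * F (act (g 1) v) * ((Q 1)⁻¹)ᴴ) * Rᴴ =
      (Q 0)⁻¹ * F (act (g 0) (bsum X (1 : Mat (k + 1)) *ᵥ v)) * ((Q 0)⁻¹)ᴴ
    rw [h4, hQ1, Matrix.mul_inv_rev, conjTranspose_mul]
    have e1 : R * R⁻¹ = 1 := mul_nonsing_inv _ hRd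
    have e2 : (R⁻¹)ᴴ * Rᴴ = 1 := by rw [← conjTranspose_mul, e1, conjTranspose_one]
    calc R * (R⁻¹ * (Q 0)⁻¹ * F (act (g 0) (bsum X (1 : Mat (k + 1)) *ᵥ v)) *
          (((Q 0)⁻¹)ᴴ * (R⁻¹)ᴴ)) * Rᴴ
        = (R * R⁻¹) * (Q 0)⁻¹ * F (act (g 0) (bsum X (1 : Mat (k + 1)) *ᵥ v)) * ((Q 0)⁻¹)ᴴ *
          ((R⁻¹)ᴴ * Rᴴ) := by simp only [Matrix.mul_assoc]
      _ = _ := by rw [e1, e2, Matrix.one_mul, Matrix.mul_one]
  -- derivatives
  have hXB : bsum X (1 : Mat (k + 1)) *ᵥ base (k + 2) = base (k + 2) := by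
    have := bsum_base (k := k) X 1
    rwa [one_smul, one_smul] at this
  set LX : Vec (k + 2) →L[ℂ] Vec (k + 2) :=
    LinearMap.toContinuousLinearMap (bsum X (1 : Mat (k + 1))).mulVecLin with hLXd
  have hLXa : ∀ v, LX v = bsum X (1 : Mat (k + 1)) *ᵥ v := fun v => rfl
  have hder : ∀ x y : ℂ, R * pz (G 1) (base (k + 2)) (two k x y) * Rᴴ =
      pz (G 0) (base (k + 2)) (two k (X 0 0 * x + X 0 1 * y) (X 1 0 * x + X 1 1 * y)) := by
    intro x y
    have h1 : HasZ (fun v => R * G 1 v * Rᴴ) (base (k + 2)) (two k x y) _ _ :=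
      (hasZ ((P 1).harm.diff hB) (two k x y)).clm
        (ContinuousLinearMap.mulLeftRight ℂ (Mat (k + 3)) R Rᴴ)
    have h2 : HasZ (G 0) (LX (base (k + 2))) (LX (two k x y)) _ _ :=
      hasZ (by rw [hLXa, hXB]; exact (P 0).harm.diff hB) (LX (two k x y))
    have h3 : HasZ (fun v => G 0 (LX v)) (base (k + 2)) (two k x y) _ _ := h2.comp_lin LX
    have h4 : (fun v => R * G 1 v * Rᴴ) =ᶠ[𝓝 (base (k + 2))] fun v => G 0 (LX v) := by
      filter_upwards [mem_nhds_cone hB] with v hv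
      exact hrel v hv
    have h5 := pz_congr h4 (two k x y)
    rw [h1.pz, h3.pz, hLXa, hXB, hLXa, bsum_two] at h5
    exact h5
  have hder2 : ∀ x y : ℂ, (star c) • two k (Y 0 0 * (p 1 * x) + Y 0 1 * (2 * a 1 * y))
      (Y 1 0 * (p 1 * x) + Y 1 1 * (2 * a 1 * y)) =
      two k (p 0 * (X 0 0 * x + X 0 1 * y)) (2 * a 0 * (X 1 0 * x + X 1 1 * y)) := by
    intro x y
    have h1 := hder x y
    rw [(P 1).deriv_two (hp 1), (P 0).deriv_two (hp 0), mul_vecMulVec, vecMulVec_mul, hR, bsum_two,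
      ← star_mulVec, bsum_base, star_smul] at h1
    have h2 := congrArg (fun A : Mat (k + 3) => A *ᵥ base (k + 2)) h1
    have h3 : star (base (k + 2)) ⬝ᵥ base (k + 2) = 1 := by
      rw [base]
      simp
    simp only [vmv, smul_dotProduct, h3, one_smul, smul_eq_mul, mul_one] at h2
    exact h2
  have htwo_smul : ∀ (s x y : ℂ), s • two k x y = two k (s * x) (s * y) := by
    intro s x y
    ext i
    refine Fin.cases ?_ (fun i => Fin.cases ?_ (fun i => ?_) i) i <;> simp [two]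
  have hcol0 := hder2 1 0
  have hcol1 := hder2 0 1
  rw [htwo_smul] at hcol0 hcol1
  obtain ⟨r00, r10⟩ := two_inj hcol0
  obtain ⟨r01, r11⟩ := two_inj hcol1
  have hp0 : p 0 ≠ 0 := by
    intro h
    rw [h, zero_mul] at r01
    have h2 : star c * (Y 0 1 * (2 * a 1)) = 0 := by linear_combination r01
    exact (mul_ne_zero hc0' (mul_ne_zero hY01 (mul_ne_zero two_ne_zero (P 1).ha.ne'))) h2
  set Dm : Fin 2 → Mat 2 := fun b => !![p b, 0; 0, 2 * a b] with hDm
  have hDX : star c • (Y * Dm 1) = Dm 0 * X := by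
    generalize star c = s at r00 r01 r10 r11 ⊢
    ext i i'
    fin_cases i <;> fin_cases i' <;>
      simp [hDm, Matrix.mul_apply, Fin.sum_univ_two]
    · linear_combination r00
    · linear_combination r01
    · linear_combination r10
    · linear_combination r11
  -- the intertwiner
  set T : Fin 2 → Mat (k + 3) := fun b =>
    Q b * dsum (p b) ((2 * a b) • (1 : Mat (k + 2))) * ((g b)⁻¹).toMatrix with hT
  have hTb : ∀ b, ∀ x : Mat (k + 2), T b * ((g b).toMatrix * dsum 1 x * ((g b)⁻¹).toMatrix) =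
      (Q b * dsum 1 x * (Q b)⁻¹) * T b := by
    intro b x
    have e1 : (Q b)⁻¹ * Q b = 1 := nonsing_inv_mul _ ((isUnit_iff_isUnit_det _).1 (hQu b))
    have e2 : dsum (p b) ((2 * a b) • (1 : Mat (k + 2))) * dsum 1 x =
        dsum 1 x * dsum (p b) ((2 * a b) • (1 : Mat (k + 2))) := by
      rw [dsum_mul, dsum_mul, mul_one, one_mul, Matrix.smul_mul, Matrix.mul_smul, Matrix.one_mul,
        Matrix.mul_one]
    calc T b * ((g b).toMatrix * dsum 1 x * ((g b)⁻¹).toMatrix)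
        = Q b * dsum (p b) ((2 * a b) • (1 : Mat (k + 2))) *
          (((g b)⁻¹).toMatrix * (g b).toMatrix) * dsum 1 x * ((g b)⁻¹).toMatrix := by
          simp only [hT, Matrix.mul_assoc]
      _ = Q b * (dsum (p b) ((2 * a b) • (1 : Mat (k + 2))) * dsum 1 x) * ((g b)⁻¹).toMatrix := by
          rw [toMatrix_inv_mul, Matrix.mul_one, Matrix.mul_assoc (Q b)]
      _ = Q b * dsum 1 x * ((Q b)⁻¹ * Q b) * dsum (p b) ((2 * a b) • (1 : Mat (k + 2))) *
          ((g b)⁻¹).toMatrix := by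
          rw [e2, e1, Matrix.mul_one]
          simp only [Matrix.mul_assoc]
      _ = _ := by simp only [hT, Matrix.mul_assoc]
  have hdb : ∀ b, dsum (p b) ((2 * a b) • (1 : Mat (k + 2))) =
      bsum (Dm b) ((2 * a b) • (1 : Mat (k + 1))) := by
    intro b
    rw [show (1 : Mat (k + 2)) = dsum 1 1 from dsum_one.symm, smul_dsum, dsum_dsum, mul_one]
  have hT1 : T 1 = (star ζ * (star c)⁻¹) • T 0 := by
    have hXX : X * Xᴴ = 1 := mul_eq_one_comm.1 hX
    have e1 : Y * Dm 1 * Xᴴ = (star c)⁻¹ • Dm 0 := by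
      have h2 : Y * Dm 1 = (star c)⁻¹ • (Dm 0 * X) := by
        rw [← hDX, smul_smul, inv_mul_cancel₀ hc0', one_smul]
      rw [h2, Matrix.smul_mul, Matrix.mul_assoc, hXX, Matrix.mul_one]
    have e2 : c * (2 * a 1) = (star c)⁻¹ * (2 * a 0) := by
      rw [ha01]
      field_simp
    show Q 1 * dsum (p 1) ((2 * a 1) • (1 : Mat (k + 2))) * ((g 1)⁻¹).toMatrix = _
    rw [hQ1, hdb, toMatrix_gen_one hζ hX hg]
    calc Q 0 * R * bsum (Dm 1) ((2 * a 1) • (1 : Mat (k + 1))) *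
          (star ζ • bsum Xᴴ 1 * ((g 0)⁻¹).toMatrix)
        = star ζ • (Q 0 * (R * bsum (Dm 1) ((2 * a 1) • (1 : Mat (k + 1))) * bsum Xᴴ 1) *
          ((g 0)⁻¹).toMatrix) := by
          simp only [Matrix.mul_assoc, Matrix.mul_smul, Matrix.smul_mul]
      _ = star ζ • (Q 0 * ((star c)⁻¹ • bsum (Dm 0) ((2 * a 0) • (1 : Mat (k + 1)))) *
          ((g 0)⁻¹).toMatrix) := by
          congr 3
          rw [hR, bsum_mul, bsum_mul, e1, smul_bsum]
          congr 1
          rw [Matrix.smul_mul, Matrix.one_mul, Matrix.mul_one, smul_smul, smul_smul, e2]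
      _ = _ := by
          rw [← hdb, Matrix.mul_smul, Matrix.smul_mul, smul_smul]
  have hcomm : ∀ x ∈ hybrid Γ g, T 0 * x.toMatrix = x.toMatrix.map t * T 0 := by
    intro x hx
    induction hx using Subgroup.closure_induction with
    | mem x hx =>
      obtain ⟨b, γ, hγ, rfl⟩ := hx
      have h1 := hTb b γ.toMatrix
      have h2 : (g b * extend (k + 1) γ * (g b)⁻¹).toMatrix.map t =
          Q b * dsum 1 γ.toMatrix * (Q b)⁻¹ := hQρ b ⟨γ, hγ⟩
      have h3 : (g b * extend (k + 1) γ * (g b)⁻¹).toMatrix =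
          (g b).toMatrix * dsum 1 γ.toMatrix * ((g b)⁻¹).toMatrix := by
        rw [toMatrix_mul, toMatrix_mul, extend_toMatrix]
      rw [← h3, ← h2] at h1
      by_cases hb : b = 0
      · rw [hb] at h1 ⊢
        exact h1
      · have hb1 : b = 1 := by omega
        rw [hb1] at h1 ⊢
        rw [hT1, Matrix.smul_mul, Matrix.mul_smul] at h1
        exact smul_right_injective (Mat (k + 3))
          (mul_ne_zero (star_ne_zero.2 hζ0) (inv_ne_zero hc0')) h1
    | one => rw [toMatrix_one, tm_one, Matrix.mul_one, Matrix.one_mul]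
    | mul x y _ _ hx hy =>
      rw [toMatrix_mul, tm_mul, ← Matrix.mul_assoc, hx, Matrix.mul_assoc, hy, Matrix.mul_assoc]
    | inv x _ hx =>
      rw [tm_gp_inv]
      have hu := tm_gp_unit t x
      have hd := (isUnit_iff_isUnit_det _).1 hu
      calc T 0 * (x⁻¹).toMatrix = (x.toMatrix.map t)⁻¹ * (x.toMatrix.map t * T 0) *
            (x⁻¹).toMatrix := by
            rw [← Matrix.mul_assoc, nonsing_inv_mul _ hd, Matrix.one_mul]
        _ = (x.toMatrix.map t)⁻¹ * T 0 * (x.toMatrix * (x⁻¹).toMatrix) := by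
            rw [← hx]
            simp only [Matrix.mul_assoc]
        _ = _ := by rw [toMatrix_mul_inv, Matrix.mul_one]
  have hTu : IsUnit (T 0) := by
    refine ((hQu 0).mul ?_).mul (toMatrix_unit _)
    rw [isUnit_iff_isUnit_det, det_dsum, det_smul, det_one, mul_one]
    refine (isUnit_iff_ne_zero.2 hp0).mul ((isUnit_iff_ne_zero.2 ?_).pow _)
    exact mul_ne_zero two_ne_zero (P 0).ha.ne'
  have hTd := (isUnit_iff_isUnit_det _).1 hTu
  intro γ hγ
  have h1 := hcomm γ hγ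
  have h2 : γ.toMatrix.map t = T 0 * γ.toMatrix * (T 0)⁻¹ := by
    rw [h1, Matrix.mul_assoc, mul_nonsing_inv _ hTd, Matrix.mul_one]
  have h3 : t γ.toMatrix.trace = (γ.toMatrix.map t).trace := by
    rw [Matrix.trace, Matrix.trace, map_sum]
    rfl
  rw [h3, h2, Matrix.trace_mul_comm, ← Matrix.mul_assoc, nonsing_inv_mul _ hTd, Matrix.one_mul]

end Pool.Agent.Lib.MP_5d4057_al.HM
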