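import Pool.Agent.Lib.MP_5d4057_al.HM.AppOrth
import Pool.Agent.Lib.MP_5d4057_al.HM.AppFour
import Pool.Agent.Lib.MP_5d4057_al.HM.AppEnd
import Pool.Agent.Lib.MP_5d4057_al.HM.Haar
import Pool.Agent.Lib.MP_5d4057_al.Hyb.Fields

/-! Section F: arithmeticity of cocompact hybrids, assembly. -/

set_option autoImplicit false

namespace Pool.Agent.Lib.MP_5d4057_al.HM

open Matrix Pool.Agent.Lib.MP_5d4057_al Pool.Agent.Lib.MP_5d4057_al.Hyb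

/-- The cocompact case. -/
theorem coc_main (H : ThmH) (U : ThmU) {k : ℕ} (hk : 1 ≤ k) (Γ₃ : Subgroup (SUGroup k))
    (Γ : Fin 2 → Subgroup (SUGroup (k + 1))) (g : Fin 2 → SUGroup (k + 2))
    (h₃ : IsLattice Γ₃) (hL : ∀ b, IsLattice (Γ b)) (hA : ∀ b, IsArithmetic (k + 1) (Γ b))
    (hsub : ∀ b, ∀ γ ∈ Γ₃, extend k γ ∈ Γ b)
    (hagree : ∀ γ ∈ Γ₃, g 0 * extend (k + 1) (extend k γ) * (g 0)⁻¹ =
      g 1 * extend (k + 1) (extend k γ) * (g 1)⁻¹)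
    (hcpt : CompactSpace (SUGroup (k + 2) ⧸ hybrid Γ g)) (hlat : IsLattice (hybrid Γ g)) :
    (IsArithmetic (k + 2) (hybrid Γ g) ↔ traceField (Γ 0) = traceField (Γ 1) ∧
      ∀ γ ∈ hybrid Γ g, IsIntegral ℤ γ.toMatrix.trace) ∧
    traceField (Γ 0) = traceField (Γ 1) := by
  have hcoc : Coc (hybrid Γ g) := coc_of_compactSpace hlat.1 hcpt
  have hcocb : ∀ b, Coc (Γ b) := coc_piece hL hcoc
  have hspan := span_top (by omega : 1 ≤ k + 2) (hybrid Γ g) hlat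
  have hspanb : ∀ b, Submodule.span ℂ
      (SUGroup.toMatrix '' (Γ b : Set (SUGroup (k + 1)))) = ⊤ :=
    fun b => span_top (by omega : 1 ≤ k + 1) (Γ b) (hL b)
  constructor
  · refine app_end hk Γ₃ Γ g h₃ hL hA hsub hagree hlat ?_ ?_
    · intro K D HD μ q hcm hn hrat X ζ hζ hX hg h01 t ht ht'
      rw [(cosSq_eq hζ hX hg).1]
      exact key_lt H U Γ g hcoc hcocb hspan hspanb hcm hn hrat hζ hX hg h01 t ht ht'
    · intro K D HD μ q _ hn hrat X ζ hζ hX hg h01 t ht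
      exact key_id H U Γ g hcoc hcocb hspan hspanb hn hrat hζ hX hg h01 t ht
  · exact fields_coc H U hk Γ₃ Γ g h₃ hL hA hsub hagree hlat hcoc hcocb

/-- The main theorem, in all cases. -/
theorem hybrid_main (H : ThmH) (U : ThmU) (k : ℕ) (hk : 1 ≤ k) (Γ₃ : Subgroup (SUGroup k))
    (Γ : Fin 2 → Subgroup (SUGroup (k + 1))) (g : Fin 2 → SUGroup (k + 2))
    (h₃ : IsLattice Γ₃) (hL : ∀ b, IsLattice (Γ b)) (hA : ∀ b, IsArithmetic (k + 1) (Γ b))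
    (hsub : ∀ b, ∀ γ ∈ Γ₃, extend k γ ∈ Γ b)
    (hagree : ∀ γ ∈ Γ₃, g 0 * extend (k + 1) (extend k γ) * (g 0)⁻¹ =
      g 1 * extend (k + 1) (extend k γ) * (g 1)⁻¹)
    (hcase : CompactSpace (SUGroup (k + 2) ⧸ hybrid Γ g) ∨ Orthogonal g ∨
      ∃ γ ∈ Γ₃, γ ≠ 1 ∧ IsNilpotent (γ.toMatrix - 1))
    (hlat : IsLattice (hybrid Γ g)) :
    (IsArithmetic (k + 2) (hybrid Γ g) ↔ traceField (Γ 0) = traceField (Γ 1) ∧
      ∀ γ ∈ hybrid Γ g, IsIntegral ℤ γ.toMatrix.trace) ∧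
    (CompactSpace (SUGroup (k + 2) ⧸ hybrid Γ g) ∨ 2 ≤ k ∨ ¬ Orthogonal g →
      traceField (Γ 0) = traceField (Γ 1)) := by
  have h2k : 2 ≤ k → traceField (Γ 0) = traceField (Γ 1) := fun h2 =>
    (traceField_three h2 Γ₃ h₃ (Γ 0) (hL 0) (hA 0) (hsub 0)).trans
      (traceField_three h2 Γ₃ h₃ (Γ 1) (hL 1) (hA 1) (hsub 1)).symm
  by_cases hcp : CompactSpace (SUGroup (k + 2) ⧸ hybrid Γ g)
  · obtain ⟨h1, h2⟩ := coc_main H U hk Γ₃ Γ g h₃ hL hA hsub hagree hcp hlat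
    exact ⟨h1, fun _ => h2⟩
  · have hc := hcase.resolve_left hcp
    refine ⟨⟨main_mp hk Γ g hL, fun h => main_mpr hk Γ₃ Γ g h₃ hL hA hsub hagree hc hlat
      h.1 h.2⟩, ?_⟩
    rintro (h2 | h2 | h2)
    · exact absurd h2 hcp
    · exact h2k h2
    · exact fields_eq_of_not_orth hk Γ₃ Γ g h₃ hL hA hsub hagree (hc.resolve_left h2) hlat.1 h2

/-- The cocompact case: a hybrid is arithmetic if and only if its traces are integral. -/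
theorem coc_iff (H : ThmH) (U : ThmU) {k : ℕ} (hk : 1 ≤ k) (Γ₃ : Subgroup (SUGroup k))
    (Γ : Fin 2 → Subgroup (SUGroup (k + 1))) (g : Fin 2 → SUGroup (k + 2))
    (h₃ : IsLattice Γ₃) (hL : ∀ b, IsLattice (Γ b)) (hA : ∀ b, IsArithmetic (k + 1) (Γ b))
    (hsub : ∀ b, ∀ γ ∈ Γ₃, extend k γ ∈ Γ b)
    (hagree : ∀ γ ∈ Γ₃, g 0 * extend (k + 1) (extend k γ) * (g 0)⁻¹ =
      g 1 * extend (k + 1) (extend k γ) * (g 1)⁻¹)
    (hcpt : CompactSpace (SUGroup (k + 2) ⧸ hybrid Γ g)) (hlat : IsLattice (hybrid Γ g)) :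
    IsArithmetic (k + 2) (hybrid Γ g) ↔ ∀ γ ∈ hybrid Γ g, IsIntegral ℤ γ.toMatrix.trace := by
  obtain ⟨h1, h2⟩ := coc_main H U hk Γ₃ Γ g h₃ hL hA hsub hagree hcpt hlat
  exact ⟨fun h => (h1.1 h).2, fun h => h1.2 ⟨h2, h⟩⟩

end Pool.Agent.Lib.MP_5d4057_al.HM
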