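import Pool.Agent.Lib.MP_5d4057_al.HM.AppOrth
import Pool.Agent.Lib.MP_5d4057_al.HM.WideD
import Pool.Agent.Lib.MP_5d4057_al.HM.AppMain
import Pool.Agent.Lib.MP_5d4057_al.HM.AppPlur
import Pool.Agent.Lib.MP_5d4057_al.Hyb.ArithA
import Pool.Agent.Lib.MP_5d4057_al.Hyb.ArithG

/-! Final assembly: hybrids of arbitrary arithmetic lattices. -/

set_option autoImplicit false

namespace Pool.Agent.Lib.MP_5d4057_al.HM

open Matrix Pool.Agent.Lib.MP_5d4057_al Pool.Agent.Lib.MP_5d4057_al.Hyb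

variable {k : ℕ}

/-- The pieces of a cocompact hybrid are contained in `SU(H, K)`. -/
theorem narrow_of_arith (H : ThmH) (U : ThmU) (hk : 1 ≤ k) (Γ₃ : Subgroup (SUGroup k))
    (Γ : Fin 2 → Subgroup (SUGroup (k + 1))) (g : Fin 2 → SUGroup (k + 2))
    (h₃ : IsLattice Γ₃) (hL : ∀ b, IsLattice (Γ b)) (hA : ∀ b, IsArith (k + 1) (Γ b))
    (hsub : ∀ b, ∀ γ ∈ Γ₃, extend k γ ∈ Γ b)
    (hagree : ∀ γ ∈ Γ₃, g 0 * extend (k + 1) (extend k γ) * (g 0)⁻¹ =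
      g 1 * extend (k + 1) (extend k γ) * (g 1)⁻¹)
    (hlat : IsLattice (hybrid Γ g)) (hcoc : Coc (hybrid Γ g)) :
    (∀ b, IsArithmetic (k + 1) (Γ b)) ∧ traceField (Γ 0) = traceField (Γ 1) := by
  have hcocb : ∀ b, Coc (Γ b) := coc_piece hL hcoc
  have h3 := fun b => exists_form hk h₃ (hA b) (hsub b)
  choose K HH B hf hc using h3
  obtain ⟨Γ', hΓ'⟩ : ∃ Γ' : Fin 2 → Subgroup (SUGroup (k + 1)),
    Γ' = fun b => ratPart (Γ b) (K b) (B b) := ⟨_, rfl⟩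
  have hle : ∀ b, Γ' b ≤ Γ b := by
    intro b
    rw [hΓ']
    exact ratPart_le _ _ _
  have hfin : ∀ b, (Γ' b).relIndex (Γ b) ≠ 0 := by
    intro b
    rw [hΓ']
    exact ratPart_relIndex (hc b)
  have hcocb' : ∀ b, Coc (Γ' b) := fun b => (hcocb b).of_relIndex (hle b) (hfin b)
  have hA' : ∀ b, IsArithmetic (k + 1) (Γ' b) := by
    intro b
    rw [hΓ']
    exact isArithmetic_ratPart (hf b) (hc b)
  have htf : ∀ b, traceField (Γ' b) = K b := by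
    intro b
    refine traceField_eq (by omega : 2 ≤ k + 1) (Γ' b) (hcocb' b).isLattice (K b) (HH b) (B b)
      (hf b) fun γ hγ => ?_
    rw [hΓ'] at hγ
    exact hγ.2.1
  have hcoc3 : Coc Γ₃ := coc_three h₃ (hsub 0) (hcocb 0)
  have hcoc3' : Coc (commonPart Γ₃ Γ') :=
    hcoc3.of_relIndex (commonPart_le Γ₃ Γ') (commonPart_relIndex hsub hfin)
  have hfield := fields_wide H U hk (commonPart Γ₃ Γ') Γ Γ' hle g hcoc3'.isLattice
    (fun b => (hcocb' b).isLattice) hA' (commonPart_sub Γ₃ Γ')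
    (fun γ hγ => hagree γ (commonPart_le Γ₃ Γ' hγ)) hlat hcoc hcocb'
  have hK : ∀ b, K b = K 0 := by
    rw [Fin.forall_fin_two]
    refine ⟨rfl, ?_⟩
    rw [← htf 0, ← htf 1]
    exact hfield.symm
  have h4 : ∀ b, ∃ (H' : Matrix (Fin (k + 1 + 1)) (Fin (k + 1 + 1)) (K 0))
      (B' : Matrix (Fin (k + 1 + 1)) (Fin (k + 1 + 1)) ℂ), IsForm (k + 1) (K 0) H' B' ∧
        Subgroup.Commensurable (Γ b) (integralPoints (k + 1) (K 0) B') := by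
    intro b
    rw [← hK b]
    exact ⟨HH b, B b, hf b, hc b⟩
  choose HH' B' hf' hc' using h4
  have hr := wide_narrow_one H U hk Γ₃ Γ g h₃ hL hf' hc' hsub hagree hlat hcoc
  refine ⟨fun b => ⟨K 0, HH' b, B' b, hf' b, hr b, hc' b⟩, ?_⟩
  rw [traceField_eq (by omega : 2 ≤ k + 1) (Γ 0) (hL 0) (K 0) (HH' 0) (B' 0) (hf' 0) (hr 0),
    traceField_eq (by omega : 2 ≤ k + 1) (Γ 1) (hL 1) (K 0) (HH' 1) (B' 1) (hf' 1) (hr 1)]

/-- The final theorem. -/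
theorem hybrid_final (k : ℕ) (hk : 1 ≤ k) (Γ₃ : Subgroup (SUGroup k))
    (Γ : Fin 2 → Subgroup (SUGroup (k + 1))) (g : Fin 2 → SUGroup (k + 2))
    (h₃ : IsLattice Γ₃) (hL : ∀ b, IsLattice (Γ b)) (hA : ∀ b, IsArith (k + 1) (Γ b))
    (hsub : ∀ b, ∀ γ ∈ Γ₃, extend k γ ∈ Γ b)
    (hagree : ∀ γ ∈ Γ₃, g 0 * extend (k + 1) (extend k γ) * (g 0)⁻¹ =
      g 1 * extend (k + 1) (extend k γ) * (g 1)⁻¹)
    (hcase : CompactSpace (SUGroup (k + 2) ⧸ hybrid Γ g) ∨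
      ((∀ b, IsArithmetic (k + 1) (Γ b)) ∧
        (Orthogonal g ∨ ∃ γ ∈ Γ₃, γ ≠ 1 ∧ IsNilpotent (γ.toMatrix - 1))))
    (hlat : IsLattice (hybrid Γ g)) :
    (IsArith (k + 2) (hybrid Γ g) ↔ traceField (Γ 0) = traceField (Γ 1) ∧
      ∀ γ ∈ hybrid Γ g, IsIntegral ℤ γ.toMatrix.trace) ∧
    (CompactSpace (SUGroup (k + 2) ⧸ hybrid Γ g) ∨ 2 ≤ k ∨ ¬ Orthogonal g →
      traceField (Γ 0) = traceField (Γ 1)) := by
  rcases hcase with hc | ⟨hA', hc⟩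
  · have hcoc : Coc (hybrid Γ g) := coc_of_compactSpace hlat.1 hc
    obtain ⟨hA', hf⟩ := narrow_of_arith thmH thmU hk Γ₃ Γ g h₃ hL hA hsub hagree hlat hcoc
    obtain ⟨h1, -⟩ := coc_main thmH thmU hk Γ₃ Γ g h₃ hL hA' hsub hagree hc hlat
    exact ⟨⟨fun h => ⟨hf, h.integral⟩, fun h => (h1.2 h).isArith⟩, fun _ => hf⟩
  · obtain ⟨h1, h2⟩ := hybrid_main thmH thmU k hk Γ₃ Γ g h₃ hL hA' hsub hagree (Or.inr hc) hlat
    exact ⟨⟨fun h => ⟨fields_of_isArith' hk Γ g hL hlat h, h.integral⟩,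
      fun h => (h1.2 h).isArith⟩, h2⟩

end Pool.Agent.Lib.MP_5d4057_al.HM
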