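import Pool.Agent.Lib.MP_5d4057_al.HM.AppHol
import Pool.Agent.Lib.MP_5d4057_al.HM.Param

/-! Section F: a holomorphic function of class `C¹` is of class `C²`. -/

set_option autoImplicit false

namespace Pool.Agent.Lib.MP_5d4057_al.HM

open Matrix Filter Topology MeasureTheory Pool.Agent.Lib.MP_5d4057_al
  Pool.Agent.Lib.MP_5d4057_al.Hyb

variable {n : ℕ}

/-- The derivative of a function without antilinear part is complex linear. -/
theorem fderiv_of_pb {f : Vec n → ℂ} {v : Vec n} (hd : DifferentiableAt ℝ f v)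
    (h : ∀ ξ, pb f v ξ = 0) : ∀ ξ, fderiv ℝ f v ξ = fderiv ℂ f v ξ := by
  have h1 : HasFDerivAt f ((fderiv ℂ f v).restrictScalars ℝ) v :=
    (differentiableAt_of_pb hd h).hasFDerivAt.restrictScalars ℝ
  intro ξ
  rw [h1.fderiv]
  rfl

/-- Cauchy's formula for the derivative in one direction, as a real integral. -/
theorem cauchy_dir {f : Vec n → ℂ} {v e : Vec n} {r : ℝ} (hr : 0 < r) {U : Set ℂ} (hU : IsOpen U)
    (hb : Metric.closedBall (0 : ℂ) r ⊆ U)
    (hf : ∀ z ∈ U, DifferentiableAt ℂ f (v + z • e)) :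
    fderiv ℂ f v e = ∫ θ in Set.Ioc 0 (2 * Real.pi), f (v + circleMap 0 r θ • e) *
      ((2 * Real.pi * Complex.I : ℂ)⁻¹ * (deriv (circleMap 0 r) θ * (circleMap 0 r θ ^ 2)⁻¹)) := by
  have hg : DifferentiableOn ℂ (fun z : ℂ => f (v + z • e)) U := by
    intro z hz
    have h1 : DifferentiableAt ℂ (fun z : ℂ => v + z • e) z := by fun_prop
    exact ((hf z hz).comp z h1).differentiableWithinAt
  have h0 : HasDerivAt (fun z : ℂ => f (v + z • e)) (fderiv ℂ f v e) 0 := by
    have h1 : HasDerivAt (fun z : ℂ => v + z • e) e 0 := by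
      have := ((hasDerivAt_id (0 : ℂ)).smul_const e).const_add v
      simpa using this
    have h2 : HasFDerivAt f (fderiv ℂ f v) (v + (0 : ℂ) • e) := by
      have h3 := hf 0 (hb (by simpa using hr.le))
      have h4 : v + (0 : ℂ) • e = v := by simp
      rw [h4] at h3 ⊢
      exact h3.hasFDerivAt
    exact h2.comp_hasDerivAt (0 : ℂ) h1
  have h1 := Complex.two_pi_I_inv_smul_circleIntegral_sub_sq_inv_smul_of_differentiable hU hb hg
    (w₀ := 0) (by simpa using hr)
  rw [h0.deriv] at h1
  rw [← h1, circleIntegral, intervalIntegral.integral_of_le (by positivity), ← integral_smul]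
  refine integral_congr_ae (Eventually.of_forall fun θ => ?_)
  simp only [sub_zero, smul_eq_mul]
  ring

/-- Holomorphic functions of class `C¹` are of class `C²`. -/
theorem contDiffOn_two_of_pb {U : Set (Vec n)} (hU : IsOpen U) {f : Vec n → ℂ}
    (hf : ContDiffOn ℝ 1 f U) (hb : ∀ v ∈ U, ∀ ξ, pb f v ξ = 0) : ContDiffOn ℝ 2 f U := by
  have hd : ∀ v ∈ U, DifferentiableAt ℝ f v := fun v hv =>
    (hf.contDiffAt (hU.mem_nhds hv)).differentiableAt one_ne_zero
  have hdc : ∀ v ∈ U, DifferentiableAt ℂ f v := fun v hv =>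
    differentiableAt_of_pb (hd v hv) (hb v hv)
  have key : ∀ e : Vec n, ContDiffOn ℝ 1 (fun v => fderiv ℝ f v e) U := by
    intro e v₀ hv₀
    obtain ⟨δ, hδ, hball⟩ := Metric.isOpen_iff.1 hU v₀ hv₀
    set r : ℝ := δ / (2 * (‖e‖ + 1)) with hr
    have he : 0 < ‖e‖ + 1 := by positivity
    have hr0 : 0 < r := by positivity
    have hre : 2 * (r * ‖e‖) < δ := by
      have h1 : 2 * (r * (‖e‖ + 1)) = δ := by
        rw [hr]
        field_simp
      nlinarith
    set s : Set (Vec n) := Metric.ball v₀ (δ / 2) with hs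
    set Φ : Vec n → ℂ → ℂ := fun v z => f (v + z • e) with hΦ
    set Ω : Set (Vec n × ℂ) := {p | p.1 + p.2 • e ∈ U} with hΩ
    have hcont : Continuous fun p : Vec n × ℂ => p.1 + p.2 • e := by fun_prop
    have hΩo : IsOpen Ω := hU.preimage hcont
    have hmem : ∀ v ∈ s, ∀ z : ℂ, ‖z‖ ≤ r → v + z • e ∈ U := by
      intro v hv z hz
      apply hball
      rw [Metric.mem_ball, dist_eq_norm]
      have h1 : ‖v - v₀‖ < δ / 2 := by
        rw [← dist_eq_norm]
        exact hv
      calc ‖v + z • e - v₀‖ = ‖(v - v₀) + z • e‖ := by congr 1; abel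
        _ ≤ ‖v - v₀‖ + ‖z • e‖ := norm_add_le _ _
        _ ≤ ‖v - v₀‖ + r * ‖e‖ := by
            rw [norm_smul]
            gcongr
        _ < δ := by linarith
    have hsk : s ×ˢ Metric.sphere (0 : ℂ) r ⊆ Ω := by
      rintro ⟨v, z⟩ ⟨hv, hz⟩
      refine hmem v hv z ?_
      have : ‖z‖ = r := by simpa using hz
      exact this.le
    have hΦd : ContDiffOn ℝ ((1 : ℕ∞) : WithTop ℕ∞) (Function.uncurry Φ) Ω := by
      have h1 : ContDiff ℝ 1 fun p : Vec n × ℂ => p.1 + p.2 • e := by fun_prop
      exact hf.comp h1.contDiffOn fun p hp => hp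
    set m : ℝ → ℂ := fun θ => (2 * Real.pi * Complex.I : ℂ)⁻¹ *
      (deriv (circleMap 0 r) θ * (circleMap 0 r θ ^ 2)⁻¹) with hm
    have hmc : Continuous m := by
      have h1 : Continuous (circleMap 0 r) := continuous_circleMap 0 r
      have h2 : ∀ θ, circleMap 0 r θ ^ 2 ≠ 0 := fun θ =>
        pow_ne_zero 2 (circleMap_ne_center hr0.ne')
      have h3 : Continuous fun θ => (circleMap 0 r θ ^ 2)⁻¹ := (h1.pow 2).inv₀ h2
      have h4 : Continuous (deriv (circleMap 0 r)) := by
        have : deriv (circleMap 0 r) = fun θ => circleMap 0 r θ * Complex.I := by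
          funext θ
          simp
        rw [this]
        exact h1.mul continuous_const
      exact continuous_const.mul (h4.mul h3)
    have hmi : Integrable m (volume.restrict (Set.Ioc 0 (2 * Real.pi))) :=
      (hmc.integrableOn_Icc).mono_set Set.Ioc_subset_Icc_self
    have hP := contDiffOn_param (ν := volume.restrict (Set.Ioc 0 (2 * Real.pi)))
      (ContinuousLinearMap.mul ℝ ℂ) (Metric.isOpen_ball (x := v₀) (ε := δ / 2)) hΩo
      (isCompact_sphere (0 : ℂ) r) hsk hΦd (u := circleMap 0 r)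
      (continuous_circleMap 0 r).aemeasurable (fun θ => circleMap_mem_sphere 0 hr0.le θ) hmi
    have hv₀s : v₀ ∈ s := Metric.mem_ball_self (by positivity)
    have hP1 := hP.contDiffAt (Metric.isOpen_ball.mem_nhds hv₀s)
    refine (hP1.congr_of_eventuallyEq ?_).contDiffWithinAt
    filter_upwards [Metric.isOpen_ball.mem_nhds hv₀s] with v hv
    have hvU : v ∈ U := by
      have := hmem v hv 0 (by simpa using hr0.le)
      simpa using this
    rw [fderiv_of_pb (hd v hvU) (hb v hvU)]
    exact cauchy_dir hr0 (U := {z : ℂ | v + z • e ∈ U})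
      (hU.preimage (by fun_prop : Continuous fun z : ℂ => v + z • e))
      (fun z hz => hmem v hv z (by simpa using hz)) (fun z hz => hdc _ hz)
  rw [show (2 : WithTop ℕ∞) = 1 + 1 from (one_add_one_eq_two).symm,
    contDiffOn_succ_iff_fderiv_of_isOpen hU]
  refine ⟨fun v hv => (hd v hv).differentiableWithinAt, by simp, ?_⟩
  exact contDiffOn_clm_apply.2 key

end Pool.Agent.Lib.MP_5d4057_al.HM
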