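import Pool.Agent.Lib.MP_5d4057_al.HM.AppCj
import Pool.Agent.Lib.MP_5d4057_al.HM.Mx
import Pool.Agent.Lib.MP_5d4057_al.Hyb.FinalA
import Pool.Agent.Lib.MP_5d4057_al.Hyb.SpanFin

/-! Section F: the trace fields of the pieces agree (cocompact case). -/

set_option autoImplicit false

namespace Pool.Agent.Lib.MP_5d4057_al.HM

open Matrix Filter Topology Pool.Agent.Lib.MP_5d4057_al Pool.Agent.Lib.MP_5d4057_al.Hyb

open scoped ComplexOrder MatrixOrder Matrix.Norms.L2Operator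

variable {n m j k : ℕ}

theorem star_base_vec : star (base n) = base n := by
  rw [base, ← Pi.single_star, star_one]

theorem last_ne_zero' : Fin.last (k + 1) ≠ 0 := (Fin.last_pos).ne'

theorem herm_base_e : herm (base (k + 1)) (Pi.single 0 1) = 0 := by
  rw [herm, mulVec_single_one, star_base_vec, base, single_one_dotProduct]
  show J (k + 1) (Fin.last (k + 1)) 0 = 0
  rw [J, diagonal_apply_ne _ last_ne_zero']

theorem stdA_base : stdA (base (k + 1)) (Pi.single 0 1) =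
    (2 : ℂ) • vecMulVec (Pi.single 0 1) (base (k + 1)) := by
  rw [stdA, prj_eq herm_base_e, q_base, star_base_vec]
  norm_num

theorem stdB_base : stdB (base (k + 1)) (Pi.single 0 1) =
    (2 : ℂ) • vecMulVec (base (k + 1)) (Pi.single 0 1) := by
  have h1 : star (Pi.single 0 1 : Vec (k + 1)) = Pi.single 0 1 := by
    rw [← Pi.single_star, star_one]
  rw [stdB, prj_eq herm_base_e, q_base, h1]
  norm_num

theorem dsum_smul_vmv (c : ℂ) (u w : Vec j) :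
    dsum 0 (c • vecMulVec u w) = c • vecMulVec (inc j u) (inc j w) := by
  ext a b
  refine Fin.cases ?_ (fun a => ?_) a <;> refine Fin.cases ?_ (fun b => ?_) b <;>
    simp [inc_apply, vecMulVec_apply]

theorem mix_bsum_base (X : Mat 2) : bsum X (1 : Mat (k + 1)) *ᵥ base (k + 2) = base (k + 2) := by
  rw [← inc_base, ← inc_base, inc_apply, inc_apply, bsum_mulVec_cons]
  simp

/-- The derivative along the first hyperplane. -/
theorem mix_slice0 {G : Vec (k + 2) → Mat (k + 3)} (hG : Harm G) {l a : ℂ}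
    (h0 : ∀ w ∈ Cone (k + 1), G (inc (k + 1) w) = dsum l (a • std w)) :
    pz G (base (k + 2)) (inc (k + 1) (Pi.single 0 1)) =
      (2 * a) • vecMulVec (inc (k + 1) (Pi.single 0 1)) (base (k + 2)) := by
  have hb : base (k + 1) ∈ Cone (k + 1) := base_mem _
  have h1 : HasZ (fun w => G (inc (k + 1) w)) (base (k + 1)) (Pi.single 0 1) _ _ :=
    (((hasZ_std hb (Pi.single 0 1)).const_smul a).dsum l).congr (by
      filter_upwards [mem_nhds_cone hb] with w hw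
      exact h0 w hw)
  have h2 : HasZ (fun w => G (inc (k + 1) w)) (base (k + 1)) (Pi.single 0 1) _ _ :=
    (hasZ (hG.diff (inc_mem hb)) (inc (k + 1) (Pi.single 0 1))).comp_lin (inc (k + 1))
  rw [inc_base] at h2
  rw [← h2.pz, h1.pz, stdA_base, smul_smul, dsum_smul_vmv, inc_base, mul_comm]

/-- The derivative along the second hyperplane, conjugate case. -/
theorem mix_slice1 {G : Vec (k + 2) → Mat (k + 3)} (hG : Harm G) {l a : ℂ}
    {X : Mat 2} {M : Mat (k + 3)}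
    (hX : ∀ w ∈ Cone (k + 1), bsum X 1 *ᵥ inc (k + 1) w ∈ Cone (k + 2))
    (h1 : ∀ w ∈ Cone (k + 1), G (bsum X 1 *ᵥ inc (k + 1) w) =
      M * dsum l (a • (std w).map cj) * Mᴴ) :
    pz G (base (k + 2)) (bsum X 1 *ᵥ inc (k + 1) (Pi.single 0 1)) =
      (2 * a) • (M * vecMulVec (base (k + 2)) (inc (k + 1) (Pi.single 0 1)) * Mᴴ) := by
  have hb : base (k + 1) ∈ Cone (k + 1) := base_mem _
  set L : Vec (k + 1) →L[ℂ] Vec (k + 2) :=
    (LinearMap.toContinuousLinearMap (bsum X (1 : Mat (k + 1))).mulVecLin).comp (inc (k + 1))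
    with hL
  have hLa : ∀ w, L w = bsum X 1 *ᵥ inc (k + 1) w := fun w => rfl
  have e1 : HasZ (fun w => G (L w)) (base (k + 1)) (Pi.single 0 1) _ _ :=
    ((((hasZ_std hb (Pi.single 0 1)).cj.const_smul a).dsum l).clm
      (ContinuousLinearMap.mulLeftRight ℂ (Mat (k + 3)) M Mᴴ)).congr (by
      filter_upwards [mem_nhds_cone hb] with w hw
      rw [hLa, h1 w hw]
      rfl)
  have e2 : HasZ (fun w => G (L w)) (base (k + 1)) (Pi.single 0 1) _ _ :=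
    (hasZ (hG.diff (hX _ hb)) (L (Pi.single 0 1))).comp_lin L
  rw [hLa, inc_base, mix_bsum_base] at e2
  rw [← e2.pz, e1.pz]
  show M * dsum 0 (a • (stdB (base (k + 1)) (Pi.single 0 1)).map cj) * Mᴴ = _
  have e4 : (stdB (base (k + 1)) (Pi.single 0 1)).map cj =
      (2 : ℂ) • vecMulVec (base (k + 1)) (Pi.single 0 1) := by
    rw [stdB_base]
    ext i j
    have h2 : cj (2 : ℂ) = 2 := by
      have h0 : (2 : ℂ) = ((2 : ℝ) : ℂ) := by push_cast; rfl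
      rw [cj_apply, h0, Complex.conj_ofReal]
    simp only [Matrix.map_apply, Matrix.smul_apply, vecMulVec_apply, smul_eq_mul, map_mul, h2, base,
      Pi.single_apply]
    split_ifs <;> simp
  rw [e4, smul_smul, dsum_smul_vmv, inc_base, Matrix.mul_smul, Matrix.smul_mul, mul_comm a]

/-- The commutation relation excludes the conjugate case. -/
theorem mix_core {G : Vec (k + 2) → Mat (k + 3)} (hG : Harm G) {l a l' a' : ℂ}
    (hl : 0 < l) (ha : 0 < a) (ha' : 0 < a') {X Y : Mat 2} {N : Mat (k + 1)} (hN : IsUnit N)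
    (hX : ∀ w ∈ Cone (k + 1), bsum X 1 *ᵥ inc (k + 1) w ∈ Cone (k + 2))
    (h0 : ∀ w ∈ Cone (k + 1), G (inc (k + 1) w) = dsum l (a • std w))
    (h1 : ∀ w ∈ Cone (k + 1), G (bsum X 1 *ᵥ inc (k + 1) w) =
      bsum Y N * dsum l' (a' • (std w).map cj) * (bsum Y N)ᴴ) : Y 1 1 = 0 := by
  have hb : base (k + 1) ∈ Cone (k + 1) := base_mem _
  have hGb : G (base (k + 2)) = dsum l (a • 1) := by
    have := h0 _ hb
    rwa [inc_base, std_base] at this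
  have hau : IsUnit (a • (1 : Mat (k + 2))) := by
    refine IsUnit.of_mul_eq_one (a⁻¹ • (1 : Mat (k + 2))) ?_
    rw [Matrix.smul_mul, Matrix.mul_smul, smul_smul, mul_inv_cancel₀ ha.ne', one_smul,
      Matrix.one_mul]
  have hai : (a • (1 : Mat (k + 2)))⁻¹ = a⁻¹ • 1 := by
    apply inv_eq_left_inv
    rw [Matrix.smul_mul, Matrix.mul_smul, smul_smul, inv_mul_cancel₀ ha.ne', one_smul,
      Matrix.one_mul]
  have hGi : (G (base (k + 2)))⁻¹ = dsum l⁻¹ (a⁻¹ • 1) := by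
    rw [hGb, dsum_inv' hl.ne' hau, hai]
  have hc := hG.comm (base (k + 2)) (base_mem _) (inc (k + 1) (Pi.single 0 1))
    (bsum X 1 *ᵥ inc (k + 1) (Pi.single 0 1))
  rw [dz_eq, dz_eq, mix_slice0 hG h0, mix_slice1 hG hX h1, hGi] at hc
  set e1 : Vec (k + 2) := inc (k + 1) (Pi.single 0 1) with he1
  set e3 : Vec (k + 2) := base (k + 2) with he3
  set M : Mat (k + 3) := bsum Y N with hM
  have he1' : e1 = Pi.single 1 1 := by
    ext i
    refine Fin.cases ?_ (fun i => ?_) i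
    · rw [he1, inc_zero, Pi.single_eq_of_ne]
      exact Fin.zero_ne_one
    · rw [he1, inc_succ, ← Fin.succ_zero_eq_one, Pi.single_apply, Pi.single_apply]
      simp only [Fin.succ_inj]
  have hMc : M * vecMulVec e3 e1 * Mᴴ = vecMulVec (M *ᵥ e3) (e1 ᵥ* Mᴴ) := by
    rw [mul_vecMulVec, vecMulVec_mul]
  have hGe1 : dsum l⁻¹ (a⁻¹ • (1 : Mat (k + 2))) *ᵥ e1 = a⁻¹ • e1 := by
    rw [he1, dsum_mulVec_inc, smul_mulVec, one_mulVec, map_smul]
  rw [hMc] at hc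
  simp only [Matrix.smul_mul, Matrix.mul_smul, Matrix.mul_assoc, smul_smul] at hc
  have hA : ∀ u w : Vec (k + 2), dsum l⁻¹ (a⁻¹ • (1 : Mat (k + 2))) * vecMulVec u w =
      vecMulVec (dsum l⁻¹ (a⁻¹ • (1 : Mat (k + 2))) *ᵥ u) w := fun u w => mul_vecMulVec _ _ _
  rw [hA, hA, vmm, vmm, hGe1, dotProduct_smul, smul_smul, smul_smul, smul_eq_mul] at hc
  have hd : (e1 ᵥ* Mᴴ) ⬝ᵥ e1 = star (Y 1 1) := by
    rw [he1', single_one_vecMul, dotProduct_single_one]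
    rfl
  rw [hd] at hc
  -- a nonzero coordinate
  obtain ⟨i, hi⟩ : ∃ i : Fin (k + 1), (M *ᵥ e3) i.succ.succ ≠ 0 := by
    by_contra hcon
    push Not at hcon
    have h3 : M *ᵥ e3 = inc (k + 1) (inc k (N *ᵥ base k)) := by
      rw [he3, ← inc_base, ← inc_base, inc_apply, inc_apply, hM, bsum_mulVec_cons, inc_apply,
        inc_apply]
      simp
    have h4 : N *ᵥ base k = 0 := by
      ext i
      have := hcon i
      rw [h3, inc_succ, inc_succ] at this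
      exact this
    have h5 : base k = 0 := by
      have := congrArg (fun x => N⁻¹ *ᵥ x) h4
      simp only [mulVec_mulVec, mulVec_zero, nonsing_inv_mul _ ((isUnit_iff_isUnit_det N).1 hN),
        one_mulVec] at this
      exact this
    have := congrFun h5 (Fin.last k)
    rw [base, Pi.single_eq_same] at this
    exact one_ne_zero this
  have h6 := congrFun (congrFun hc i.succ.succ) (Fin.last (k + 2))
  simp only [Matrix.smul_apply, vecMulVec_apply, smul_eq_mul] at h6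
  have h7 : e1 i.succ.succ = 0 := by
    rw [he1, inc_succ, Pi.single_eq_of_ne (Fin.succ_ne_zero i)]
  have h8 : e3 (Fin.last (k + 2)) = 1 := by rw [he3, base, Pi.single_eq_same]
  rw [h7, h8, zero_mul, mul_zero, mul_one] at h6
  have h9 := mul_eq_zero.1 h6.symm
  rcases h9 with h9 | h9
  · have ha0 := ha.ne'
    have ha0' := ha'.ne'
    have h10 : star (Y 1 1) = 0 := by
      by_contra hne
      apply absurd h9
      positivity
    exact star_eq_zero.1 h10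
  · exact absurd h9 hi

/-- The alternatives for an automorphism of the complex numbers. -/
theorem piece_alt (hm : 2 ≤ m) (Γ : Subgroup (SUGroup m)) (hL : IsLattice Γ)
    (hA : IsArithmetic m Γ) (t : ℂ ≃+* ℂ) : (∀ x ∈ traceField Γ, t x = x) ∨
      (∀ x ∈ traceField Γ, t x = cj x) ∨ ∃ C : ℝ, ∀ γ ∈ Γ, ‖t γ.toMatrix.trace‖ ≤ C := by
  obtain ⟨K, H, B, hf, hr, -⟩ := hA
  have e := traceField_eq hm Γ hL K H B hf hr
  subst e
  set τ : traceField Γ →+* ℂ := t.toRingHom.comp (traceField Γ).subtype with hτ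
  have hτa : ∀ x : traceField Γ, τ x = t (x : ℂ) := fun x => rfl
  rcases hf.definite τ with h | h | h
  · exact Or.inl fun x hx => h ⟨x, hx⟩
  · exact Or.inr (Or.inl fun x hx => h ⟨x, hx⟩)
  · refine Or.inr (Or.inr ?_)
    obtain ⟨C, hC⟩ := entries_bound' (H.map τ) h
    refine ⟨((m + 1 : ℕ) : ℝ) * C, fun γ hγ => ?_⟩
    obtain ⟨G, -, hG, hG2⟩ := exists_rat hf γ (hr γ hγ)
    have h3 : (G.map τ).trace = t γ.toMatrix.trace := by
      rw [← hG, ← hτa, Matrix.trace, Matrix.trace, map_sum]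
      rfl
    rw [← h3, Matrix.trace]
    calc ‖∑ i, (G.map τ).diag i‖ ≤ ∑ i, ‖(G.map τ).diag i‖ := norm_sum_le _ _
      _ ≤ ∑ _i : Fin (m + 1), C := Finset.sum_le_sum fun i _ => hC _ (hG2 τ) i i
      _ = _ := by simp

/-- A basis adapted to the hyperplane. -/
theorem piece_frame (hk : 1 ≤ k) (Γ₃ : Subgroup (SUGroup k)) (h₃ : IsLattice Γ₃)
    (Γ : Subgroup (SUGroup (k + 1))) (hL : IsLattice Γ) (hA : IsArithmetic (k + 1) Γ)
    (hsub : ∀ γ ∈ Γ₃, extend k γ ∈ Γ) : ∃ (μ : ℂ) (D : Mat (k + 1)), μ ≠ 0 ∧ D.det ≠ 0 ∧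
      ∀ γ ∈ Γ, EntriesIn (traceField Γ) (dsum μ D) γ.toMatrix := by
  obtain ⟨K, H, B, hf, hr, -⟩ := hA
  have e := traceField_eq (by omega : 2 ≤ k + 1) Γ hL K H B hf hr
  subst e
  obtain ⟨t, D, Q, q, H', ht, hD, hQ, hBQ, hq, hform, hdef⟩ := split_form hk Γ₃ h₃ _ H B hf
    (fun γ hγ => hr _ (hsub γ hγ))
  have hBQ' : B * Q.map (fun x : traceField Γ => (x : ℂ)) = (1 : ℂ) • dsum t D := by
    rw [hBQ, one_smul]
  exact ⟨t, D, ht, hD, fun γ hγ => EntriesIn.change hf.det one_ne_zero hQ hBQ' (hr γ hγ)⟩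

/-- The elements of a larger group: they are known up to a scalar. -/
theorem wide_scalar (hn : 1 ≤ n) {Γ Γ' : Subgroup (SUGroup n)} (hL' : IsLattice Γ')
    (hle : Γ' ≤ Γ) (hfin : Γ'.relIndex Γ ≠ 0) (t s : ℂ ≃+* ℂ) {R : Mat (n + 1)} (hR : IsUnit R)
    (h : ∀ γ ∈ Γ', γ.toMatrix.map t = R * γ.toMatrix.map s * R⁻¹) :
    ∀ γ ∈ Γ, ∃ χ : ℂ, γ.toMatrix.map t = R * (χ • γ.toMatrix.map s) * R⁻¹ := by
  intro γ hγ
  set φ : SUGroup n →* SUGroup n := (MulAut.conj γ).toMonoidHom with hφ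
  have hφa : ∀ x, φ x = γ * x * γ⁻¹ := fun x => rfl
  have hmap : Γ.map φ = Γ := by
    ext x
    rw [Subgroup.mem_map]
    constructor
    · rintro ⟨y, hy, rfl⟩
      exact Γ.mul_mem (Γ.mul_mem hγ hy) (Γ.inv_mem hγ)
    · intro hx
      refine ⟨γ⁻¹ * x * γ, Γ.mul_mem (Γ.mul_mem (Γ.inv_mem hγ) hx) hγ, ?_⟩
      rw [hφa]
      group
  have h1 : (Γ'.comap φ).relIndex Γ ≠ 0 := by
    rw [Subgroup.relIndex_comap, hmap]
    exact hfin
  have h2 : (Γ' ⊓ Γ'.comap φ).relIndex Γ' ≠ 0 := fun h3 =>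
    Subgroup.relIndex_inf_ne_zero hfin h1 (Subgroup.relIndex_eq_zero_of_le_right hle h3)
  have hspan := span_rhoT s _ (span_top_fin hn Γ' (Γ' ⊓ Γ'.comap φ) hL' h2)
  set T := γ.toMatrix.map t with hT
  set A := γ.toMatrix.map s with hA
  have hTd := (isUnit_iff_isUnit_det _).1 (tm_gp_unit t γ)
  have hAd := (isUnit_iff_isUnit_det _).1 (tm_gp_unit s γ)
  have hRd := (isUnit_iff_isUnit_det _).1 hR
  have hcomm : ∀ δ : (Γ' ⊓ Γ'.comap φ : Subgroup (SUGroup n)),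
      rhoT s _ δ * (A⁻¹ * R⁻¹ * T * R) = (A⁻¹ * R⁻¹ * T * R) * rhoT s _ δ := by
    intro δ
    have e1 := h δ δ.2.1
    have e2 := h (γ * (δ : SUGroup n) * γ⁻¹) δ.2.2
    rw [toMatrix_mul, toMatrix_mul, tm_mul, tm_mul, tm_gp_inv, tm_mul, tm_mul, tm_gp_inv, e1,
      ← hT, ← hA] at e2
    rw [rhoT_apply]
    set d := (δ : SUGroup n).toMatrix.map s with hd
    have e3 : A⁻¹ * R⁻¹ * (T * (R * d * R⁻¹) * T⁻¹) * (T * R) =
        A⁻¹ * R⁻¹ * (R * (A * d * A⁻¹) * R⁻¹) * (T * R) := by rw [e2]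
    have e4 : A⁻¹ * R⁻¹ * (T * (R * d * R⁻¹) * T⁻¹) * (T * R) = A⁻¹ * R⁻¹ * T * R * d := by
      calc A⁻¹ * R⁻¹ * (T * (R * d * R⁻¹) * T⁻¹) * (T * R)
          = A⁻¹ * R⁻¹ * T * R * d * (R⁻¹ * (T⁻¹ * T) * R) := by simp only [Matrix.mul_assoc]
        _ = _ := by
            rw [nonsing_inv_mul _ hTd, Matrix.mul_one, nonsing_inv_mul _ hRd, Matrix.mul_one]
    have e5 : A⁻¹ * R⁻¹ * (R * (A * d * A⁻¹) * R⁻¹) * (T * R) = d * (A⁻¹ * R⁻¹ * T * R) := by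
      calc A⁻¹ * R⁻¹ * (R * (A * d * A⁻¹) * R⁻¹) * (T * R)
          = (A⁻¹ * (R⁻¹ * R) * A) * d * (A⁻¹ * R⁻¹ * T * R) := by simp only [Matrix.mul_assoc]
        _ = _ := by
            rw [nonsing_inv_mul _ hRd, Matrix.mul_one, nonsing_inv_mul _ hAd, Matrix.one_mul]
    rw [← e5, ← e3, e4]
  obtain ⟨χ, hχ⟩ := scalar_of_commute _ hspan hcomm
  refine ⟨χ, ?_⟩
  have e6 : T * R = R * (χ • A) := by
    calc T * R = R * A * (A⁻¹ * R⁻¹ * T * R) := by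
          have : R * A * (A⁻¹ * R⁻¹ * T * R) = R * (A * A⁻¹) * R⁻¹ * T * R := by
            simp only [Matrix.mul_assoc]
          rw [this, mul_nonsing_inv _ hAd, Matrix.mul_one, mul_nonsing_inv _ hRd, Matrix.one_mul]
      _ = _ := by rw [hχ, Matrix.mul_smul, Matrix.mul_one, Matrix.mul_smul]
  rw [← e6, Matrix.mul_assoc, mul_nonsing_inv _ hRd, Matrix.mul_one]

/-- The metric on a hyperplane, for an automorphism `t` which agrees with `s` on `K`. -/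
theorem slice_data (U : ThmU) (Γ Γ' : Fin 2 → Subgroup (SUGroup (k + 1)))
    (g : Fin 2 → SUGroup (k + 2)) (b : Fin 2) (hle : Γ' b ≤ Γ b) (hL' : IsLattice (Γ' b))
    (hfin : (Γ' b).relIndex (Γ b) ≠ 0) (hcocb : Coc (Γ' b))
    {K : Subfield ℂ} {μ : ℂ} {D : Mat (k + 1)} (hμ : μ ≠ 0) (hD : D.det ≠ 0)
    (hrat : ∀ γ ∈ Γ' b, EntriesIn K (dsum μ D) γ.toMatrix)
    (t s t' : ℂ ≃+* ℂ) (hts : ∀ x, t x = s (t' x)) (ht' : ∀ x : K, t' (x : ℂ) = x)
    {S : Vec (k + 1) → Mat (k + 2)} (hS : Harm S) (hSe : Equi (rhoT s (Γ b)) S)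
    {F : Vec (k + 2) → Mat (k + 3)} (hF : Harm F) (hFe : Equi (rhoT t (hybrid Γ g)) F) :
    ∃ (ν : ℂ) (E : Mat (k + 1)) (l a : ℂ), ν ≠ 0 ∧ IsUnit E ∧ 0 < l ∧ 0 < a ∧
      (∀ w ∈ Cone (k + 1), F (hyp (g b) w) =
        ((g b).toMatrix.map t * dsum 1 (dsum ν E)) * dsum l (a • S w) *
          ((g b).toMatrix.map t * dsum 1 (dsum ν E))ᴴ) ∧
      (∀ γ ∈ Γ' b, (g b * extend (k + 1) γ * (g b)⁻¹).toMatrix.map t =
        ((g b).toMatrix.map t * dsum 1 (dsum ν E)) * dsum 1 (γ.toMatrix.map s) *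
          ((g b).toMatrix.map t * dsum 1 (dsum ν E))⁻¹) ∧
      ∀ γ ∈ Γ b, ∃ χ : ℂ, χ * star χ = 1 ∧
        (g b * extend (k + 1) γ * (g b)⁻¹).toMatrix.map t =
        ((g b).toMatrix.map t * dsum 1 (dsum ν E)) * dsum 1 (χ • γ.toMatrix.map s) *
          ((g b).toMatrix.map t * dsum 1 (dsum ν E))⁻¹ := by
  have hBd : (dsum μ D).det ≠ 0 := by
    rw [det_dsum]
    exact mul_ne_zero hμ hD
  have hmts : ∀ {l : ℕ} (A : Mat l), A.map t = (A.map t').map s := by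
    intro l A
    ext i j
    exact hts _
  set E₀ : Mat (k + 1) := D.map t' * D⁻¹ with hE₀
  set ν₀ : ℂ := t' μ * μ⁻¹ with hν₀
  have hEb : (dsum μ D).map t' * (dsum μ D)⁻¹ = dsum ν₀ E₀ := by
    rw [tm_dsum, dsum_inv _ _ hμ hD, dsum_mul]
  have hν₀0 : ν₀ ≠ 0 := mul_ne_zero ((map_ne_zero t').2 hμ) (inv_ne_zero hμ)
  have hE₀u : IsUnit E₀ := (tm_unit t' hD).mul
    (isUnit_nonsing_inv_iff.2 ((isUnit_iff_isUnit_det D).2 (isUnit_iff_ne_zero.2 hD)))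
  have hE₀d : E₀.det ≠ 0 := ((isUnit_iff_isUnit_det E₀).1 hE₀u).ne_zero
  set E : Mat (k + 1) := E₀.map s with hE
  set ν : ℂ := s ν₀ with hν
  have hν0 : ν ≠ 0 := (map_ne_zero s).2 hν₀0
  have hEu : IsUnit E := tm_unit s hE₀d
  have hEd : E.det ≠ 0 := ((isUnit_iff_isUnit_det E).1 hEu).ne_zero
  have hR₀d : (dsum ν₀ E₀).det ≠ 0 := by
    rw [det_dsum]
    exact mul_ne_zero hν₀0 hE₀d
  have hRd : (dsum ν E).det ≠ 0 := by
    rw [det_dsum]
    exact mul_ne_zero hν0 hEd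
  have hRs : (dsum ν₀ E₀).map s = dsum ν E := tm_dsum s _ _
  set Q : Mat (k + 3) := (g b).toMatrix.map t * dsum 1 (dsum ν E) with hQ
  have hRu : IsUnit (dsum ν E) := (isUnit_iff_isUnit_det _).2 (isUnit_iff_ne_zero.2 hRd)
  have hQu : IsUnit Q := by
    refine (tm_gp_unit t (g b)).mul ?_
    rw [isUnit_iff_isUnit_det, det_dsum, one_mul]
    exact (isUnit_iff_isUnit_det _).1 hRu
  have hsmall : ∀ γ ∈ Γ' b, γ.toMatrix.map t = dsum ν E * γ.toMatrix.map s * (dsum ν E)⁻¹ := by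
    intro γ hγ
    rw [hmts, tm_fix t' ht' hBd (hrat γ hγ), hEb, tm_mul, tm_mul, ← tm_inv s hR₀d, hRs]
  have htr : ∀ γ ∈ Γ b, ∀ B : Mat (k + 2), γ.toMatrix.map t = dsum ν E * B * (dsum ν E)⁻¹ →
      (g b * extend (k + 1) γ * (g b)⁻¹).toMatrix.map t = Q * dsum 1 B * Q⁻¹ := by
    intro γ hγ B hB
    have h2 : (g b * extend (k + 1) γ * (g b)⁻¹).toMatrix.map t =
        ((rhoT t (hybrid Γ g)).comp (embHyb Γ g b)) ⟨γ, hγ⟩ := rfl
    have h4 : ((⟨γ, hγ⟩ : Γ b) : SUGroup (k + 1)).toMatrix.map t =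
        dsum ν E * B * (dsum ν E)⁻¹ := hB
    rw [h2, rhoT_emb t Γ g b ⟨γ, hγ⟩, rhoT_apply, h4, hQ, Matrix.mul_inv_rev,
      dsum_inv' one_ne_zero hRu, inv_one]
    have h3 : dsum (1 : ℂ) (dsum ν E * B * (dsum ν E)⁻¹) =
        dsum 1 (dsum ν E) * dsum 1 B * dsum 1 (dsum ν E)⁻¹ := by
      rw [dsum_mul, dsum_mul, one_mul, one_mul]
    rw [h3]
    simp only [Matrix.mul_assoc]
  have hc : ∀ γ ∈ Γ' b, (g b * extend (k + 1) γ * (g b)⁻¹).toMatrix.map t =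
      Q * dsum 1 (γ.toMatrix.map s) * Q⁻¹ := fun γ hγ => htr γ (hle hγ) _ (hsmall γ hγ)
  obtain ⟨l, a, hl, ha, hFb⟩ := slice_form U (by omega) hcocb (rhoT s (Γ' b))
    (span_rhoT _ _ (span_top (by omega) _ hL')) hS
    (fun γ w hw => hSe (Subgroup.inclusion hle γ) w hw) hQu (hF.hyp (g b))
    (((rhoT t (hybrid Γ g)).comp (embHyb Γ g b)).comp (Subgroup.inclusion hle))
    (fun γ => hc γ γ.2) (fun γ w hw => hFe.hyp b (Subgroup.inclusion hle γ) w hw)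
  refine ⟨ν, E, l, a, hν0, hEu, hl, ha, hFb, hc, ?_⟩
  intro γ hγ
  obtain ⟨χ, hχ⟩ := wide_scalar (by omega) hL' hle hfin t s hRu hsmall γ hγ
  have h1 := htr γ hγ _ hχ
  refine ⟨χ, ?_, h1⟩
  clear_value Q
  have hb := base_mem (k + 1)
  have h2 : F (hyp (g b) (act γ (base (k + 1)))) =
      (g b * extend (k + 1) γ * (g b)⁻¹).toMatrix.map t * F (hyp (g b) (base (k + 1))) *
      ((g b * extend (k + 1) γ * (g b)⁻¹).toMatrix.map t)ᴴ :=
    hFe.hyp b ⟨γ, hγ⟩ (base (k + 1)) hb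
  have h3 : S (act γ (base (k + 1))) =
      γ.toMatrix.map s * S (base (k + 1)) * (γ.toMatrix.map s)ᴴ := hSe ⟨γ, hγ⟩ _ hb
  rw [hFb _ (act_mem γ hb), hFb _ hb, h1] at h2
  have e1 : Q⁻¹ * Q = 1 := nonsing_inv_mul _ ((isUnit_iff_isUnit_det _).1 hQu)
  have e2 : Qᴴ * (Q⁻¹)ᴴ = 1 := by rw [← conjTranspose_mul, e1, conjTranspose_one]
  have h4 : Q * dsum l (a • S (act γ (base (k + 1)))) * Qᴴ =
      Q * dsum l ((χ * star χ * a) • S (act γ (base (k + 1)))) * Qᴴ := by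
    rw [h2]
    calc Q * dsum 1 (χ • γ.toMatrix.map s) * Q⁻¹ * (Q * dsum l (a • S (base (k + 1))) * Qᴴ) *
          (Q * dsum 1 (χ • γ.toMatrix.map s) * Q⁻¹)ᴴ
        = Q * (dsum 1 (χ • γ.toMatrix.map s) * (Q⁻¹ * Q) * dsum l (a • S (base (k + 1))) *
          (Qᴴ * (Q⁻¹)ᴴ) * (dsum 1 (χ • γ.toMatrix.map s))ᴴ) * Qᴴ := by
          rw [conjTranspose_mul, conjTranspose_mul]
          simp only [Matrix.mul_assoc]
      _ = _ := by
          rw [e1, e2, Matrix.mul_one, Matrix.mul_one, dsum_conjTranspose, dsum_mul, dsum_mul,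
            star_one, one_mul, mul_one, h3, conjTranspose_smul]
          simp only [Matrix.mul_smul, Matrix.smul_mul, smul_smul]
          congr 4
          ring
  have h5 := hQu.mul_left_cancel (((isUnit_conjTranspose _).2 hQu).mul_right_cancel h4)
  have h6 := (dsum_inj h5).2
  have hpd := hS.pos _ (act_mem γ hb)
  have h7 : (a - χ * star χ * a) • S (act γ (base (k + 1))) = 0 := by
    rw [sub_smul, h6, sub_self]
  rcases smul_eq_zero.1 h7 with h8 | h8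
  · have h9 : a * (1 - χ * star χ) = 0 := by linear_combination h8
    have h10 := (mul_eq_zero.1 h9).resolve_left ha.ne'
    linear_combination -h10
  · have h9 := hpd.isUnit
    rw [h8] at h9
    exact absurd h9 not_isUnit_zero

theorem q_bsum {X : Mat 2} (hX : Xᴴ * X = 1) (v : Vec (k + 2)) :
    q (bsum X (1 : Mat (k + 1)) *ᵥ v) = q v := by
  rw [q, q, herm, herm, star_mulVec, mulVec_mulVec, ← dotProduct_mulVec, mulVec_mulVec,
    ← Matrix.mul_assoc]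
  congr 3
  rw [J_succ_succ, bsum_conjTranspose, bsum_mul, bsum_mul, Matrix.mul_one, hX, conjTranspose_one,
    Matrix.one_mul, Matrix.mul_one]

theorem equi_std_refl (Γ : Subgroup (SUGroup n)) :
    Equi (rhoT (RingEquiv.refl ℂ) Γ) std := by
  intro γ w _
  have h : rhoT (RingEquiv.refl ℂ) Γ γ = (γ : SUGroup n).toMatrix := by
    rw [rhoT_apply]
    ext i j
    simp
  rw [h, std_act]

/-- The metric on the two hyperplanes, for an automorphism of the complex numbers which fixes the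
first trace field but not the second. -/
theorem mix_data (H : ThmH) (U : ThmU) (hk : 1 ≤ k) (Γ₃ : Subgroup (SUGroup k))
    (Γ Γ' : Fin 2 → Subgroup (SUGroup (k + 1))) (hle : ∀ b, Γ' b ≤ Γ b)
    (hfin : ∀ b, (Γ' b).relIndex (Γ b) ≠ 0) (g : Fin 2 → SUGroup (k + 2))
    (h₃ : IsLattice Γ₃) (hL : ∀ b, IsLattice (Γ' b)) (hA : ∀ b, IsArithmetic (k + 1) (Γ' b))
    (hsub : ∀ b, ∀ γ ∈ Γ₃, extend k γ ∈ Γ' b)
    (hagree : ∀ γ ∈ Γ₃, g 0 * extend (k + 1) (extend k γ) * (g 0)⁻¹ =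
      g 1 * extend (k + 1) (extend k γ) * (g 1)⁻¹)
    (hlat : IsLattice (hybrid Γ g)) (hcoc : Coc (hybrid Γ g)) (hcocb : ∀ b, Coc (Γ' b))
    (t : ℂ ≃+* ℂ) (ht0 : ∀ x ∈ traceField (Γ' 0), t x = x)
    (ht1 : ¬ ∀ x ∈ traceField (Γ' 1), t x = x) :
    ∃ (X Y : Mat 2) (N : Mat (k + 1)) (Q : Mat (k + 3)) (ζ ν0 ν1 l0 a0 l1 a1 : ℂ)
      (F : Vec (k + 2) → Mat (k + 3)), star ζ * ζ = 1 ∧ Xᴴ * X = 1 ∧
      (g 1).toMatrix = (g 0).toMatrix * (ζ • bsum X 1) ∧ ν0 ≠ 0 ∧ ν1 ≠ 0 ∧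
      Y = t ζ • (!![1, 0; 0, ν0⁻¹] * X.map t * !![1, 0; 0, ν1]) ∧ IsUnit N ∧ IsUnit Q ∧
      IsUnit (Q * bsum Y N) ∧
      0 < l0 ∧ 0 < a0 ∧ 0 < l1 ∧ 0 < a1 ∧ Harm F ∧ Equi (rhoT t (hybrid Γ g)) F ∧
      (∀ w ∈ Cone (k + 1), F (hyp (g 0) w) = Q * dsum l0 (a0 • std w) * Qᴴ) ∧
      (∀ w ∈ Cone (k + 1), F (hyp (g 1) w) =
        (Q * bsum Y N) * dsum l1 (a1 • (std w).map cj) * (Q * bsum Y N)ᴴ) ∧
      (∀ γ ∈ Γ' 0, (g 0 * extend (k + 1) γ * (g 0)⁻¹).toMatrix.map t =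
        Q * dsum 1 γ.toMatrix * Q⁻¹) ∧
      (∀ γ ∈ Γ' 1, (g 1 * extend (k + 1) γ * (g 1)⁻¹).toMatrix.map t =
        (Q * bsum Y N) * dsum 1 (γ.toMatrix.map cj) * (Q * bsum Y N)⁻¹) ∧
      (∀ γ ∈ Γ 0, ∃ χ : ℂ, χ * star χ = 1 ∧
        (g 0 * extend (k + 1) γ * (g 0)⁻¹).toMatrix.map t =
          Q * dsum 1 (χ • γ.toMatrix) * Q⁻¹) ∧
      ∀ γ ∈ Γ 1, ∃ χ : ℂ, χ * star χ = 1 ∧
        (g 1 * extend (k + 1) γ * (g 1)⁻¹).toMatrix.map t =
          (Q * bsum Y N) * dsum 1 (χ • γ.toMatrix.map cj) * (Q * bsum Y N)⁻¹ := by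
  obtain ⟨X, ζ, hζ, hX, hg⟩ := frame hk Γ₃ h₃ g hagree
  -- `t` is complex conjugation on the second field
  have ht1' : ∀ x ∈ traceField (Γ' 1), t x = cj x := by
    rcases piece_alt (by omega) (Γ' 1) (hL 1) (hA 1) t with h | h | ⟨C, hC⟩
    · exact absurd h ht1
    · exact h
    · exfalso
      obtain ⟨γ, hγ, hlt⟩ := trace_unbounded hk Γ₃ h₃ (C + 1)
      have h1 := hC _ (hsub 1 γ hγ)
      have h2 : (extend k γ).toMatrix.trace ∈ traceField (Γ' 0) :=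
        Subfield.subset_closure ⟨_, hsub 0 γ hγ, rfl⟩
      rw [ht0 _ h2, extend_toMatrix, trace_dsum] at h1
      have h3 : ‖γ.toMatrix.trace‖ ≤ ‖1 + γ.toMatrix.trace‖ + ‖(1 : ℂ)‖ := by
        calc ‖γ.toMatrix.trace‖ = ‖(1 + γ.toMatrix.trace) - 1‖ := by rw [add_sub_cancel_left]
          _ ≤ _ := norm_sub_le _ _
      rw [norm_one] at h3
      linarith
  obtain ⟨F, hF, hFe⟩ := H (k + 2) (k + 3) (by omega) (by omega) (hybrid Γ g)
    (rhoT t (hybrid Γ g)) hcoc (span_rhoT t _ (span_top (by omega) _ hlat))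
  obtain ⟨μ0, D0, hμ0, hD0, hrat0⟩ := piece_frame hk Γ₃ h₃ (Γ' 0) (hL 0) (hA 0) (hsub 0)
  obtain ⟨μ1, D1, hμ1, hD1, hrat1⟩ := piece_frame hk Γ₃ h₃ (Γ' 1) (hL 1) (hA 1) (hsub 1)
  obtain ⟨ν0, E0, l0, a0, hν0, hE0, hl0, ha0, hF0, hc0, hw0⟩ := slice_data U Γ Γ' g 0 (hle 0)
    (hL 0) (hfin 0) (hcocb 0) hμ0 hD0 hrat0 t (RingEquiv.refl ℂ) t (fun x => rfl)
    (fun x => ht0 x x.2) harm_std (equi_std_refl (Γ 0)) hF hFe
  obtain ⟨ν1, E1, l1, a1, hν1, hE1, hl1, ha1, hF1, hc1, hw1⟩ := slice_data U Γ Γ' g 1 (hle 1)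
    (hL 1) (hfin 1) (hcocb 1) hμ1 hD1 hrat1 t cj (t.trans cj)
    (fun x => (Complex.conj_conj (t x)).symm)
    (fun x => by
      show cj (t (x : ℂ)) = x
      rw [ht1' x x.2]
      exact Complex.conj_conj _) harm_std.cj (equi_std_cj (Γ 1)) hF hFe
  have hE0d : E0.det ≠ 0 := ((isUnit_iff_isUnit_det E0).1 hE0).ne_zero
  have hR0 : IsUnit (dsum ν0 E0) := by
    rw [isUnit_iff_isUnit_det, det_dsum, isUnit_iff_ne_zero]
    exact mul_ne_zero hν0 hE0d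
  set Q0 : Mat (k + 3) := (g 0).toMatrix.map t * dsum 1 (dsum ν0 E0) with hQ0
  have hQ0u : IsUnit Q0 := by
    refine (tm_gp_unit t (g 0)).mul ?_
    rw [isUnit_iff_isUnit_det, det_dsum, one_mul]
    exact (isUnit_iff_isUnit_det _).1 hR0
  have hζ00 : ζ ≠ 0 := by
    intro h
    rw [h, mul_zero] at hζ
    exact zero_ne_one hζ
  have hζ0 : t ζ ≠ 0 := (map_ne_zero t).2 hζ00
  set Y : Mat 2 := t ζ • (!![1, 0; 0, ν0⁻¹] * X.map t * !![1, 0; 0, ν1]) with hY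
  set N : Mat (k + 1) := t ζ • (E0⁻¹ * E1) with hN
  have hNu : IsUnit N := by
    have h1 : N = (t ζ • (1 : Mat (k + 1))) * (E0⁻¹ * E1) := by
      rw [Matrix.smul_mul, Matrix.one_mul]
    have h2 : IsUnit (t ζ • (1 : Mat (k + 1))) := by
      refine IsUnit.of_mul_eq_one ((t ζ)⁻¹ • (1 : Mat (k + 1))) ?_
      rw [Matrix.smul_mul, Matrix.mul_smul, smul_smul, mul_inv_cancel₀ hζ0, one_smul,
        Matrix.one_mul]
    rw [h1]
    exact h2.mul ((isUnit_nonsing_inv_iff.2 hE0).mul hE1)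
  have hQ1 : (g 1).toMatrix.map t * dsum 1 (dsum ν1 E1) = Q0 * bsum Y N := by
    rw [hQ0, hg, tm_mul, tm_smul, tm_bsum, tm_one, dsum_dsum, dsum_dsum, Matrix.mul_assoc,
      Matrix.mul_assoc]
    congr 1
    rw [Matrix.smul_mul, bsum_mul, bsum_mul, smul_bsum]
    congr 1
    · rw [hY, Matrix.mul_smul, ← Matrix.mul_assoc, ← Matrix.mul_assoc]
      have h4 : (!![1, 0; 0, ν0] : Mat 2) * !![1, 0; 0, ν0⁻¹] = 1 := by
        rw [Matrix.mul_fin_two, Matrix.one_fin_two]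
        simp [hν0]
      rw [h4, Matrix.one_mul]
    · rw [Matrix.one_mul, hN, Matrix.mul_smul, ← Matrix.mul_assoc,
        mul_nonsing_inv _ ((isUnit_iff_isUnit_det E0).1 hE0), Matrix.one_mul]
  have hQ1u : IsUnit (Q0 * bsum Y N) := by
    rw [← hQ1]
    refine (tm_gp_unit t (g 1)).mul ?_
    rw [isUnit_iff_isUnit_det, det_dsum, one_mul, det_dsum, isUnit_iff_ne_zero]
    exact mul_ne_zero hν1 ((isUnit_iff_isUnit_det E1).1 hE1).ne_zero
  have hrefl : ∀ A : Mat (k + 2), A.map (RingEquiv.refl ℂ) = A := by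
    intro A
    ext i j
    simp
  rw [hQ1] at hF1 hc1 hw1
  simp only [hrefl] at hc0 hw0
  exact ⟨X, Y, N, Q0, ζ, ν0, ν1, l0, a0, l1, a1, F, hζ, hX, hg, hν0, hν1, hY, hNu, hQ0u, hQ1u,
    hl0, ha0, hl1, ha1, hF, hFe, hF0, hF1, hc0, hc1, hw0, hw1⟩

end Pool.Agent.Lib.MP_5d4057_al.HM
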