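import Pool.Agent.Lib.MP_5d4057_al.HM.AppTwo
import Pool.Agent.Lib.MP_5d4057_al.HM.AppHol

/-! Section F3: the normal derivative of the metric along a hyperplane (pointwise algebra). -/

set_option autoImplicit false

namespace Pool.Agent.Lib.MP_5d4057_al.HM

open Matrix Filter Topology Pool.Agent.Lib.MP_5d4057_al Pool.Agent.Lib.MP_5d4057_al.Hyb

open scoped ComplexOrder MatrixOrder Matrix.Norms.L2Operator

variable {n m j k : ℕ}

/-- The normal direction. -/
def nrm (j : ℕ) : Vec (j + 1) := Fin.cons 1 0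

theorem dsum_zero_vm (x y : Vec j) :
    dsum 0 (vecMulVec x (star y)) = vecMulVec (inc j x) (star (inc j y)) := by
  rw [star_inc, inc_apply]
  ext a b
  refine Fin.cases ?_ (fun a => ?_) a <;> refine Fin.cases ?_ (fun b => ?_) b <;>
    simp [vecMulVec_apply]

theorem smul_dsum_zero (c : ℂ) (A : Mat m) : dsum 0 (c • A) = c • dsum 0 A := by
  rw [smul_dsum, mul_zero]

theorem exists_orth (hj : 1 ≤ j) {w : Vec j} (hw : w ∈ Cone j) : ∃ η : Vec j, η ≠ 0 ∧
    herm w η = 0 := by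
  obtain ⟨i, rfl⟩ : ∃ i, j = i + 1 := ⟨j - 1, by omega⟩
  have hl : w (Fin.last (i + 1)) ≠ 0 := by
    intro h
    have h1 : q w < 0 := hw
    rw [q_eq, h, norm_zero] at h1
    have h2 : 0 ≤ ∑ a : Fin (i + 1), ‖w a.castSucc‖ ^ 2 :=
      Finset.sum_nonneg fun _ _ => by positivity
    linarith
  refine ⟨Pi.single 0 (star (w (Fin.last (i + 1)))) + Pi.single (Fin.last (i + 1)) (star (w 0)),
    ?_, ?_⟩
  · intro h
    have h1 := congrFun h 0
    have h2 : (0 : Fin (i + 1 + 1)) ≠ Fin.last (i + 1) := (Fin.last_pos).ne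
    rw [Pi.add_apply, Pi.single_eq_same, Pi.single_eq_of_ne h2, add_zero, Pi.zero_apply] at h1
    exact hl (star_eq_zero.1 h1)
  · rw [herm_eq]
    have h2 : (0 : Fin (i + 1 + 1)) ≠ Fin.last (i + 1) := (Fin.last_pos).ne
    rw [Finset.sum_eq_single 0]
    · rw [Pi.add_apply, Pi.add_apply]
      have h3 : (Fin.castSucc 0 : Fin (i + 1 + 1)) = 0 := rfl
      rw [h3, Pi.single_eq_same, Pi.single_eq_of_ne h2, Pi.single_eq_same,
        Pi.single_eq_of_ne h2.symm]
      ring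
    · intro b _ hb
      rw [Pi.add_apply, Pi.single_eq_of_ne, Pi.single_eq_of_ne (Fin.castSucc_lt_last b).ne]
      · ring
      · intro h
        apply hb
        ext
        have := congrArg Fin.val h
        simpa using this
    · intro h
      exact absurd (Finset.mem_univ _) h

section pointwise

variable {Γ : Subgroup (SUGroup j)} {G : Vec (j + 1) → Mat (j + 2)} {l a : ℂ}

/-- The normal derivative. -/
noncomputable def NN (G : Vec (j + 1) → Mat (j + 2)) (w : Vec j) : Mat (j + 2) :=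
  pz G (inc j w) (nrm j)

/-- The tangential derivatives. -/
theorem Pce.tan (P : Pce j Γ G l a) {w : Vec j} (hw : w ∈ Cone j) (η : Vec j) :
    pz G (inc j w) (inc j η) =
      (a * (-2 * (q w : ℂ)⁻¹)) • vecMulVec (inc j (prj w η)) (star (inc j w)) ∧
    pb G (inc j w) (inc j η) =
      (a * (-2 * (q w : ℂ)⁻¹)) • vecMulVec (inc j w) (star (inc j (prj w η))) := by
  have h1 : HasZ (fun w => G (inc j w)) w η _ _ :=
    (hasZ (P.harm.diff (inc_mem hw)) (inc j η)).comp_lin (inc j)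
  have h2 : HasZ (fun w => dsum l (a • std w)) w η _ _ :=
    ((hasZ_std hw η).const_smul a).dsum l
  have h3 : (fun w => dsum l (a • std w)) =ᶠ[𝓝 w] fun w => G (inc j w) := by
    filter_upwards [mem_nhds_cone hw] with v hv
    exact (P.slice v hv).symm
  constructor
  · rw [← h1.pz, ← pz_congr h3, h2.pz, stdA, smul_smul, smul_dsum_zero, dsum_zero_vm]
  · rw [← h1.pb, ← pb_congr h3, h2.pb, stdB, smul_smul, smul_dsum_zero, dsum_zero_vm]

theorem std_unit {w : Vec n} (hw : w ∈ Cone n) : IsUnit (std w) := (std_posDef hw).isUnit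

theorem smul_unit {c : ℂ} (hc : c ≠ 0) {A : Mat m} (hA : IsUnit A) : IsUnit (c • A) := by
  rw [isUnit_iff_isUnit_det, det_smul]
  exact ((isUnit_iff_ne_zero.2 hc).pow _).mul ((isUnit_iff_isUnit_det A).1 hA)

theorem smul_matInv {c : ℂ} (hc : c ≠ 0) {A : Mat m} (hA : IsUnit A) :
    (c • A)⁻¹ = c⁻¹ • A⁻¹ := by
  apply inv_eq_left_inv
  rw [Matrix.smul_mul, Matrix.mul_smul, smul_smul, inv_mul_cancel₀ hc, one_smul,
    nonsing_inv_mul _ ((isUnit_iff_isUnit_det A).1 hA)]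

theorem Pce.inv (P : Pce j Γ G l a) {w : Vec j} (hw : w ∈ Cone j) :
    (G (inc j w))⁻¹ = dsum l⁻¹ (a⁻¹ • (std w)⁻¹) := by
  rw [P.slice w hw, dsum_inv' P.hl.ne' (smul_unit P.ha.ne' (std_unit hw)),
    smul_matInv P.ha.ne' (std_unit hw)]

theorem J_inc (x : Vec j) : J (j + 1) *ᵥ inc j x = inc j (J j *ᵥ x) := by
  rw [J_succ, dsum_mulVec_inc]

/-- `G⁻¹` on vectors orthogonal to `w`. -/
theorem Pce.inv_orth (P : Pce j Γ G l a) {w : Vec j} (hw : w ∈ Cone j) {x : Vec j}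
    (hx : herm w x = 0) : (G (inc j w))⁻¹ *ᵥ inc j x = a⁻¹ • (J (j + 1) *ᵥ inc j x) := by
  rw [P.inv hw, dsum_mulVec_inc, smul_mulVec, std_inv_mulVec hw hx, map_smul, J_inc]

theorem Pce.inv_self (P : Pce j Γ G l a) {w : Vec j} (hw : w ∈ Cone j) :
    (G (inc j w))⁻¹ *ᵥ inc j w = -(a⁻¹ • (J (j + 1) *ᵥ inc j w)) := by
  rw [P.inv hw, dsum_mulVec_inc, smul_mulVec, std_inv_self hw, smul_neg, map_neg, map_smul, J_inc]

theorem Pce.real (P : Pce j Γ G l a) : star a = a := by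
  rw [Complex.star_def, Complex.conj_eq_iff_im]
  exact (Complex.lt_def.1 P.ha).2.symm

theorem star_vecMul' {A : Mat m} (hA : A.IsHermitian) (x : Fin m → ℂ) :
    star x ᵥ* A = star (A *ᵥ x) := by
  rw [star_mulVec, hA.eq]

theorem Pce.inv_herm (P : Pce j Γ G l a) {w : Vec j} (hw : w ∈ Cone j) :
    ((G (inc j w))⁻¹).IsHermitian := (P.harm.pos _ (inc_mem hw)).inv.isHermitian

theorem Pce.inv_orth' (P : Pce j Γ G l a) {w : Vec j} (hw : w ∈ Cone j) {x : Vec j}
    (hx : herm w x = 0) :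
    star (inc j x) ᵥ* (G (inc j w))⁻¹ = a⁻¹ • (star (inc j x) ᵥ* J (j + 1)) := by
  rw [star_vecMul' (P.inv_herm hw), P.inv_orth hw hx, star_smul, star_inv₀, P.real,
    star_vecMul' (J_herm (n := j + 1))]

theorem Pce.inv_self' (P : Pce j Γ G l a) {w : Vec j} (hw : w ∈ Cone j) :
    star (inc j w) ᵥ* (G (inc j w))⁻¹ = -(a⁻¹ • (star (inc j w) ᵥ* J (j + 1))) := by
  rw [star_vecMul' (P.inv_herm hw), P.inv_self hw, star_neg, star_smul, star_inv₀, P.real,
    star_vecMul' (J_herm (n := j + 1))]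

/-- Consequence of the commutation relation. -/
theorem Pce.comm_rel (P : Pce j Γ G l a) {w : Vec j} (hw : w ∈ Cone j) {η : Vec j}
    (hη : herm w η = 0) (y : Vec (j + 1)) :
    herm (inc j w) y • ((NN G w * J (j + 1)) *ᵥ inc j η) =
      -(herm (inc j w) ((NN G w * J (j + 1)) *ᵥ y) • inc j η) := by
  have hq := q_ne hw
  have hu := inc_mem hw
  have h1 : pz G (inc j w) (nrm j) * (G (inc j w))⁻¹ * pz G (inc j w) (inc j η) =
      pz G (inc j w) (inc j η) * (G (inc j w))⁻¹ * pz G (inc j w) (nrm j) :=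
    P.harm.comm _ hu (nrm j) (inc j η)
  rw [(P.tan hw η).1, prj_eq hη] at h1
  have h2 := congrArg (fun A : Mat (j + 2) => A *ᵥ (J (j + 1) *ᵥ y)) h1
  have e1 : star (inc j w) ⬝ᵥ (J (j + 1) *ᵥ y) = herm (inc j w) y := rfl
  have hN : pz G (inc j w) (nrm j) = NN G w := rfl
  simp only [Matrix.mul_smul, Matrix.smul_mul, smul_mulVec, ← mulVec_mulVec, vmv, e1, mulVec_smul,
    P.inv_orth hw hη, hN] at h2
  have e2 : star (inc j w) ⬝ᵥ (G (inc j w))⁻¹ *ᵥ NN G w *ᵥ J (j + 1) *ᵥ y =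
      -(a⁻¹ * herm (inc j w) (NN G w *ᵥ J (j + 1) *ᵥ y)) := by
    rw [dotProduct_mulVec, P.inv_self' hw, neg_dotProduct, smul_dotProduct, smul_eq_mul,
      ← dotProduct_mulVec]
    rfl
  rw [e2] at h2
  rw [← mulVec_mulVec, ← mulVec_mulVec]
  have ha := P.ha.ne'
  have hc : a * (-2 * (q w : ℂ)⁻¹) ≠ 0 := by
    refine mul_ne_zero ha (mul_ne_zero (by norm_num) (inv_ne_zero hq))
  have h3 := smul_right_injective (Vec (j + 1)) hc h2
  have h4 := congrArg (fun x : Vec (j + 1) => a • x) h3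
  simp only [smul_smul] at h4
  have e3 : a * (herm (inc j w) y * a⁻¹) = herm (inc j w) y := by field_simp
  have e4 : a * -(a⁻¹ * herm (inc j w) (NN G w *ᵥ J (j + 1) *ᵥ y)) =
      -herm (inc j w) (NN G w *ᵥ J (j + 1) *ᵥ y) := by field_simp
  rw [e3, e4, neg_smul] at h4
  exact h4

/-- The reflection `1 ⊕ S J`. -/
noncomputable def Zr (w : Vec j) : Mat (j + 2) := dsum 1 (std w * J j)

theorem Zr_orth {w : Vec j} {y : Vec (j + 1)} (hy : herm (inc j w) y = 0) :
    Zr w *ᵥ y = y := by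
  obtain ⟨y0, v, rfl⟩ : ∃ (y0 : ℂ) (v : Vec j), y = Fin.cons y0 v :=
    ⟨y 0, Fin.tail y, (Fin.cons_self_tail y).symm⟩
  have h1 : herm w v = 0 := by
    rw [herm, J_succ, dsum_mulVec_cons, star_inc, cons_dot_cons, zero_mul, zero_add] at hy
    exact hy
  rw [Zr, dsum_mulVec_cons, one_mul, ← mulVec_mulVec, std, add_mulVec, mulVec_mulVec, J_J,
    one_mulVec, smul_mulVec, vmv]
  have h2 : star w ⬝ᵥ J j *ᵥ v = 0 := h1
  rw [h2, zero_smul, smul_zero, add_zero]

theorem Zr_self {w : Vec j} (hw : w ∈ Cone j) : Zr w *ᵥ inc j w = -inc j w := by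
  have hq := q_ne hw
  rw [Zr, dsum_mulVec_inc, ← mulVec_mulVec, std, add_mulVec, mulVec_mulVec, J_J,
    one_mulVec, smul_mulVec, vmv]
  have h2 : star w ⬝ᵥ J j *ᵥ w = (q w : ℂ) := herm_self w
  rw [h2, smul_smul, ← map_neg]
  congr 1
  have : -2 * (q w : ℂ)⁻¹ * (q w : ℂ) = -2 := by field_simp
  rw [this]
  module

/-- Consequence of the symmetry of the metric. -/
theorem Pce.refl_rel (P : Pce j Γ G l a) {w : Vec j} (hw : w ∈ Cone j) :
    NN G w * J (j + 1) = -(Zr w * (NN G w * J (j + 1)) * Zr w) := by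
  have hu := inc_mem hw
  have hl := P.hl.ne'
  have ha := P.ha.ne'
  set N' : Mat (j + 2) := dsum l (a • J j) with hN'
  have h1 : HasZ (fun v => N' * (G v)⁻¹ * N') (inc j w) (nrm j) _ _ :=
    ((hasZ (P.harm.diff hu) (nrm j)).matInv (P.harm.unit hu)).clm
      (ContinuousLinearMap.mulLeftRight ℂ (Mat (j + 2)) N' N')
  have h2 : (fun v => N' * (G v)⁻¹ * N') =ᶠ[𝓝 (inc j w)] G := by
    filter_upwards [mem_nhds_cone hu] with v hv
    exact P.refl v hv
  have h3 : NN G w = N' * -((G (inc j w))⁻¹ * NN G w * (G (inc j w))⁻¹) * N' := by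
    have h4 : NN G w = pz (fun v => N' * (G v)⁻¹ * N') (inc j w) (nrm j) :=
      (pz_congr h2 (nrm j)).symm
    conv_lhs => rw [h4, h1.pz]
    rfl
  have e1 : N' * (G (inc j w))⁻¹ = Zr w := by
    rw [P.inv hw, hN', dsum_mul, mul_inv_cancel₀ hl, Matrix.smul_mul, Matrix.mul_smul, smul_smul,
      mul_inv_cancel₀ ha, one_smul, std_inv hw, Zr, ← Matrix.mul_assoc, ← Matrix.mul_assoc, J_J,
      Matrix.one_mul]
  have e2 : (G (inc j w))⁻¹ * N' = J (j + 1) * Zr w * J (j + 1) := by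
    rw [P.inv hw, hN', dsum_mul, inv_mul_cancel₀ hl, Matrix.smul_mul, Matrix.mul_smul, smul_smul,
      inv_mul_cancel₀ ha, one_smul, std_inv hw, Zr, J_succ, dsum_mul, dsum_mul, one_mul, one_mul]
    congr 1
    simp only [Matrix.mul_assoc]
  calc NN G w * J (j + 1)
      = N' * -((G (inc j w))⁻¹ * NN G w * (G (inc j w))⁻¹) * N' * J (j + 1) := by rw [← h3]
    _ = -((N' * (G (inc j w))⁻¹) * NN G w * ((G (inc j w))⁻¹ * N') * J (j + 1)) := by
        simp only [Matrix.mul_neg, Matrix.neg_mul, Matrix.mul_assoc]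
    _ = -(Zr w * NN G w * J (j + 1) * Zr w * (J (j + 1) * J (j + 1))) := by
        rw [e1, e2]
        simp only [Matrix.mul_assoc]
    _ = _ := by rw [J_J, Matrix.mul_one, Matrix.mul_assoc (Zr w)]

/-- The vector `p`. -/
noncomputable def pv (G : Vec (j + 1) → Mat (j + 2)) (w : Vec j) : Vec (j + 1) :=
  -((NN G w * J (j + 1)) *ᵥ inc j w)

/-- The normal derivative is `p ŵ^*/(-q w)` with `p` orthogonal to `ŵ`. -/
theorem Pce.normal (P : Pce j Γ G l a) (hj : 1 ≤ j) {w : Vec j} (hw : w ∈ Cone j) :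
    herm (inc j w) (pv G w) = 0 ∧
      NN G w = (-(q w : ℂ)⁻¹) • vecMulVec (pv G w) (star (inc j w)) := by
  have hq := q_ne hw
  have hu := inc_mem hw
  have hqu : herm (inc j w) (inc j w) = (q w : ℂ) := by rw [herm_self, q_inc]
  set M : Mat (j + 2) := NN G w * J (j + 1) with hM
  obtain ⟨η, hη0, hη⟩ := exists_orth hj hw
  have hη0' : inc j η ≠ 0 := by
    intro h
    apply hη0
    ext i
    have := congrFun h i.succ
    rw [inc_succ] at this
    exact this
  -- orthogonality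
  have h1 : ∀ y : Vec (j + 1), herm (inc j w) y = 0 → herm (inc j w) (M *ᵥ y) = 0 := by
    intro y hy
    have h2 := P.comm_rel hw hη y
    rw [← hM, hy, zero_smul] at h2
    have h3 : herm (inc j w) (M *ᵥ y) • inc j η = 0 := neg_eq_zero.1 h2.symm
    exact (smul_eq_zero.1 h3).resolve_right hη0'
  have hrel : ∀ y : Vec (j + 1), M *ᵥ y = -(Zr w *ᵥ (M *ᵥ (Zr w *ᵥ y))) := by
    intro y
    have h2 := P.refl_rel hw
    rw [← hM] at h2
    conv_lhs => rw [h2]
    rw [neg_mulVec, ← mulVec_mulVec, ← mulVec_mulVec]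
  have hdec : ∀ x : Vec (j + 1), x = prj (inc j w) x +
      (herm (inc j w) x * (q w : ℂ)⁻¹) • inc j w := by
    intro x
    rw [prj, q_inc, sub_add_cancel]
  have hZdec : ∀ x : Vec (j + 1), Zr w *ᵥ x = prj (inc j w) x -
      (herm (inc j w) x * (q w : ℂ)⁻¹) • inc j w := by
    intro x
    conv_lhs => rw [hdec x]
    rw [mulVec_add, mulVec_smul, Zr_orth (herm_prj hu x), Zr_self hw, smul_neg, sub_eq_add_neg]
  have h3 : ∀ y : Vec (j + 1), herm (inc j w) y = 0 → M *ᵥ y = 0 := by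
    intro y hy
    have h4 := hrel y
    rw [Zr_orth hy, hZdec, h1 y hy, zero_mul, zero_smul, sub_zero] at h4
    have h5 : prj (inc j w) (M *ᵥ y) = M *ᵥ y := prj_eq (h1 y hy)
    rw [h5] at h4
    have h6 : (2 : ℂ) • (M *ᵥ y) = 0 := by
      rw [two_smul]
      nth_rewrite 1 [h4]
      simp
    exact (smul_eq_zero.1 h6).resolve_left two_ne_zero
  have h4 : herm (inc j w) (M *ᵥ inc j w) = 0 := by
    have h5 := hrel (inc j w)
    rw [Zr_self hw, mulVec_neg, mulVec_neg, neg_neg, hZdec] at h5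
    have h6 := congrArg (herm (inc j w)) h5
    rw [sub_eq_add_neg, ← neg_smul, herm_add_right, herm_smul_right, herm_prj hu, hqu, zero_add] at h6
    have h7 : -(herm (inc j w) (M *ᵥ inc j w) * (q w : ℂ)⁻¹) * (q w : ℂ) =
        -herm (inc j w) (M *ᵥ inc j w) := by field_simp
    rw [h7] at h6
    have h8 : (2 : ℂ) * herm (inc j w) (M *ᵥ inc j w) = 0 := by linear_combination h6
    exact (mul_eq_zero.1 h8).resolve_left two_ne_zero
  have hpv : pv G w = -(M *ᵥ inc j w) := rfl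
  constructor
  · rw [hpv, ← neg_one_smul ℂ, herm_smul_right, h4, mul_zero]
  · have h5 : ∀ y : Vec (j + 1), M *ᵥ y = -((herm (inc j w) y * (q w : ℂ)⁻¹) • pv G w) := by
      intro y
      conv_lhs => rw [hdec y]
      rw [mulVec_add, mulVec_smul, h3 _ (herm_prj hu y), zero_add, hpv, smul_neg, neg_neg]
    have h6 : NN G w = M * J (j + 1) := by
      rw [hM, Matrix.mul_assoc, J_J, Matrix.mul_one]
    rw [h6]
    apply Matrix.ext_of_mulVec_single
    intro i
    rw [← mulVec_mulVec, h5, smul_mulVec, vmv]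
    have h7 : herm (inc j w) (J (j + 1) *ᵥ Pi.single i 1) = star (inc j w) ⬝ᵥ Pi.single i 1 := by
      rw [herm, mulVec_mulVec, J_J, one_mulVec]
    rw [h7]
    module

end pointwise

end Pool.Agent.Lib.MP_5d4057_al.HM
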