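import Pool.Agent.Lib.MP_5d4057_al.HM.AppStdH
import Pool.Agent.Lib.MP_5d4057_al.Hyb.Aug

/-! Section F: the harmonic metric on a totally geodesic hyperplane. -/

set_option autoImplicit false

namespace Pool.Agent.Lib.MP_5d4057_al.HM

open Matrix Filter Topology Pool.Agent.Lib.MP_5d4057_al Pool.Agent.Lib.MP_5d4057_al.Hyb

open scoped ComplexOrder MatrixOrder Matrix.Norms.L2Operator

variable {n m j : ℕ}

theorem scalar_of_comm {A : Mat m} (h : ∀ X : Mat m, X * A = A * X) :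
    ∃ c : ℂ, A = c • (1 : Mat m) := by
  have hcom : ∀ i j : Fin m, Commute (Matrix.single i j (1 : ℂ)) A := fun i j => h _
  obtain ⟨c, hc⟩ := mem_range_scalar_iff_commute_single'.2 hcom
  refine ⟨c, ?_⟩
  rw [← hc, scalar_apply, smul_one_eq_diagonal]

/-- Schur's lemma for `1 ⊕ σ`. -/
theorem schur_dsum {G : Type} [Group G] (hm : 2 ≤ m) (σ : G →* Mat m)
    (hσ : Submodule.span ℂ (Set.range σ) = ⊤) {T : Mat (m + 1)}
    (hT : ∀ γ, T * (dsum 1 (σ γ))ᴴ = (dsum 1 (σ γ))ᴴ * T) :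
    ∃ l a : ℂ, T = dsum l (a • (1 : Mat m)) := by
  have hspan : Submodule.span ℂ {X | ∃ A ∈ Set.range σ, X = A - 1} = ⊤ := by
    refine span_sub_one hm _ ⟨1, map_one σ⟩ ?_ hσ
    rintro _ ⟨x, rfl⟩ _ ⟨y, rfl⟩
    exact ⟨x * y, map_mul σ x y⟩
  let V : Submodule ℂ (Mat m) :=
    { carrier := {X | T * (dsL m X)ᴴ = (dsL m X)ᴴ * T}
      add_mem' := by
        intro X Y hX hY
        have hX' : T * (dsL m X)ᴴ = (dsL m X)ᴴ * T := hX
        have hY' : T * (dsL m Y)ᴴ = (dsL m Y)ᴴ * T := hY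
        show T * (dsL m (X + Y))ᴴ = (dsL m (X + Y))ᴴ * T
        rw [map_add, conjTranspose_add, Matrix.mul_add, Matrix.add_mul, hX', hY']
      zero_mem' := by
        show T * (dsL m 0)ᴴ = (dsL m 0)ᴴ * T
        rw [map_zero, conjTranspose_zero, Matrix.mul_zero, Matrix.zero_mul]
      smul_mem' := by
        intro c X hX
        have hX' : T * (dsL m X)ᴴ = (dsL m X)ᴴ * T := hX
        show T * (dsL m (c • X))ᴴ = (dsL m (c • X))ᴴ * T
        rw [map_smul, conjTranspose_smul, Matrix.mul_smul, Matrix.smul_mul, hX'] }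
  have hV : V = ⊤ := by
    rw [eq_top_iff, ← hspan, Submodule.span_le]
    rintro _ ⟨_, ⟨γ, rfl⟩, rfl⟩
    show T * (dsL m (σ γ - 1))ᴴ = (dsL m (σ γ - 1))ᴴ * T
    have h1 : dsL m (σ γ - 1) = dsum 1 (σ γ) - 1 := by
      rw [map_sub, dsL_apply, dsL_apply, ← dsum_one (R := ℂ) (n := m)]
      ext i j
      refine Fin.cases ?_ (fun i => ?_) i <;> refine Fin.cases ?_ (fun j => ?_) j <;> simp
    rw [h1, conjTranspose_sub, conjTranspose_one, Matrix.mul_sub, Matrix.sub_mul, hT, Matrix.mul_one,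
      Matrix.one_mul]
  have hall : ∀ Y : Mat m, T * dsum 0 Y = dsum 0 Y * T := by
    intro Y
    have h1 : Yᴴ ∈ V := by rw [hV]; trivial
    have h2 : T * (dsL m Yᴴ)ᴴ = (dsL m Yᴴ)ᴴ * T := h1
    rwa [dsL_apply, dsum_conjTranspose, conjTranspose_conjTranspose, star_zero] at h2
  set A : Mat m := T.submatrix Fin.succ Fin.succ with hA
  have hTA : T = dsum (T 0 0) A := by
    have h1 := hall 1
    ext i j
    refine Fin.cases ?_ (fun i => ?_) i <;> refine Fin.cases ?_ (fun j => ?_) j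
    · rfl
    · have := congrFun (congrFun h1 0) j.succ
      simpa [Matrix.mul_apply, Fin.sum_univ_succ, Matrix.one_apply] using this
    · have := congrFun (congrFun h1 i.succ) 0
      simp [Matrix.mul_apply, Fin.sum_univ_succ, Matrix.one_apply] at this
      simp [this]
    · rfl
  obtain ⟨a, ha⟩ := scalar_of_comm (A := A) (by
    intro X
    have h1 := hall X
    rw [hTA, dsum_mul, dsum_mul] at h1
    exact (dsum_inj h1).2.symm)
  exact ⟨T 0 0, a, by rw [← ha]; exact hTA⟩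

theorem posDef_of_dsum' {l : ℂ} {A : Mat m} (h : (dsum l A).PosDef) : 0 < l ∧ A.PosDef := by
  refine ⟨by simpa using h.diag_pos (i := 0), ?_⟩
  have : A = (dsum l A).submatrix Fin.succ Fin.succ := by
    ext i j
    simp
  rw [this]
  exact h.submatrix (Fin.succ_injective _)

theorem pos_of_smul_posDef {a : ℂ} {A : Mat (m + 1)} (hA : A.PosDef) (h : (a • A).PosDef) :
    0 < a := by
  have h1 : 0 < a * A 0 0 := by simpa using h.diag_pos (i := 0)
  have h2 : 0 < A 0 0 := hA.diag_pos (i := 0)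
  obtain ⟨r, hr, hr'⟩ : ∃ r : ℝ, 0 < r ∧ A 0 0 = (r : ℂ) := by
    have h3 := Complex.lt_def.1 h2
    refine ⟨(A 0 0).re, by simpa using h3.1, ?_⟩
    apply Complex.ext
    · simp
    · simpa using h3.2.symm
  rw [hr'] at h1
  have h3 := Complex.lt_def.1 h1
  rw [Complex.lt_def]
  constructor
  · have h4 : 0 < a.re * r := by simpa using h3.1
    have : 0 < a.re := by
      by_contra hcon
      push Not at hcon
      nlinarith
    simpa using this
  · have h4 : 0 = a.im * r := by simpa using h3.2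
    have : a.im = 0 := by
      rcases mul_eq_zero.1 h4.symm with h5 | h5
      · exact h5
      · exact absurd h5 hr.ne'
    simpa using this.symm

/-- The metric on the hyperplane, from uniqueness. -/
theorem slice_form (U : ThmU) (hj : 1 ≤ j) {Γ : Subgroup (SUGroup j)} (hΓ : Coc Γ)
    (σ : Γ →* Mat (j + 1)) (hσ : Submodule.span ℂ (Set.range σ) = ⊤)
    {M : Vec j → Mat (j + 1)} (hM : Harm M) (hMe : Equi σ M) {Q : Mat (j + 2)} (hQ : IsUnit Q)
    {F : Vec j → Mat (j + 2)} (hF : Harm F) (ρ : Γ →* Mat (j + 2))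
    (hρ : ∀ γ, ρ γ = Q * dsum 1 (σ γ) * Q⁻¹) (hFe : Equi ρ F) :
    ∃ l a : ℂ, 0 < l ∧ 0 < a ∧ ∀ w ∈ Cone j, F w = Q * dsum l (a • M w) * Qᴴ := by
  have hd := (isUnit_iff_isUnit_det Q).1 hQ
  have hQ' : IsUnit Qᴴ := (isUnit_conjTranspose Q).2 hQ
  have hd' := (isUnit_iff_isUnit_det Qᴴ).1 hQ'
  have e1 : Q⁻¹ * Q = 1 := nonsing_inv_mul _ hd
  have e2 : Qᴴ * Qᴴ⁻¹ = 1 := mul_nonsing_inv _ hd'
  have e2' : Qᴴ⁻¹ * Qᴴ = 1 := nonsing_inv_mul _ hd'
  have hρ1 : ∀ γ, ρ γ * Q = Q * dsum 1 (σ γ) := by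
    intro γ
    rw [hρ, Matrix.mul_assoc, e1, Matrix.mul_one]
  have hρ2 : ∀ γ, Qᴴ * (ρ γ)ᴴ = (dsum 1 (σ γ))ᴴ * Qᴴ := by
    intro γ
    rw [← conjTranspose_mul, hρ1, conjTranspose_mul]
  have hM' : Harm fun w => Q * dsum 1 (M w) * Qᴴ := (hM.dsum one_pos).congr hQ
  have hMe' : ∀ γ : Γ, ∀ w ∈ Cone j, dsum 1 (M (act (γ : SUGroup j) w)) =
      dsum 1 (σ γ) * dsum 1 (M w) * (dsum 1 (σ γ))ᴴ := by
    intro γ w hw
    rw [dsum_conjTranspose, dsum_mul, dsum_mul, star_one, one_mul, one_mul, hMe γ w hw]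
  have hMe2 : Equi ρ fun w => Q * dsum 1 (M w) * Qᴴ := by
    intro γ w hw
    show Q * dsum 1 (M (act (γ : SUGroup j) w)) * Qᴴ = ρ γ * (Q * dsum 1 (M w) * Qᴴ) * (ρ γ)ᴴ
    rw [hMe' γ w hw]
    calc Q * (dsum 1 (σ γ) * dsum 1 (M w) * (dsum 1 (σ γ))ᴴ) * Qᴴ
        = Q * dsum 1 (σ γ) * dsum 1 (M w) * ((dsum 1 (σ γ))ᴴ * Qᴴ) := by
          simp only [Matrix.mul_assoc]
      _ = _ := by rw [← hρ2, ← hρ1]; simp only [Matrix.mul_assoc]
  obtain ⟨S, hS⟩ := U j (j + 2) hj Γ ρ hΓ _ F hM' hF hMe2 hFe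
  set T : Mat (j + 2) := Qᴴ * S * Qᴴ⁻¹ with hT
  have hFT : ∀ w ∈ Cone j, F w = Q * dsum 1 (M w) * T * Qᴴ := by
    intro w hw
    rw [hS w hw, hT]
    simp only [Matrix.mul_assoc]
    rw [e2', Matrix.mul_one]
  have hcomm : ∀ γ, T * (dsum 1 (σ γ))ᴴ = (dsum 1 (σ γ))ᴴ * T := by
    intro γ
    have hb : base j ∈ Cone j := base_mem j
    have h1 := hFe γ (base j) hb
    rw [hFT _ (act_mem _ hb), hFT _ hb, hMe' γ _ hb] at h1
    have hu1 : IsUnit (dsum 1 (M (base j))) := (posDef_dsum one_pos (hM.pos _ hb)).isUnit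
    have hu2 : IsUnit (dsum 1 (σ γ)) := by
      have h3 : dsum 1 (σ γ) * dsum 1 (σ γ⁻¹) = 1 := by
        rw [dsum_mul, one_mul, ← map_mul, mul_inv_cancel, map_one, dsum_one]
      exact IsUnit.of_mul_eq_one _ h3
    have h2 : Q * (dsum 1 (σ γ) * (dsum 1 (M (base j)) * ((dsum 1 (σ γ))ᴴ * T))) * Qᴴ =
        Q * (dsum 1 (σ γ) * (dsum 1 (M (base j)) * (T * (dsum 1 (σ γ))ᴴ))) * Qᴴ := by
      calc _ = Q * (dsum 1 (σ γ) * dsum 1 (M (base j)) * (dsum 1 (σ γ))ᴴ) * T * Qᴴ := by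
            simp only [Matrix.mul_assoc]
        _ = ρ γ * (Q * dsum 1 (M (base j)) * T * Qᴴ) * (ρ γ)ᴴ := h1
        _ = (ρ γ * Q) * dsum 1 (M (base j)) * T * (Qᴴ * (ρ γ)ᴴ) := by
            simp only [Matrix.mul_assoc]
        _ = _ := by rw [hρ1, hρ2]; simp only [Matrix.mul_assoc]
    exact (hu1.mul_left_cancel (hu2.mul_left_cancel (hQ.mul_left_cancel
      (hQ'.mul_right_cancel h2)))).symm
  obtain ⟨l, a, hla⟩ := schur_dsum (by omega) σ hσ hcomm
  have hF2 : ∀ w ∈ Cone j, F w = Q * dsum l (a • M w) * Qᴴ := by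
    intro w hw
    rw [hFT w hw, hla, Matrix.mul_assoc Q, dsum_mul, one_mul, Matrix.mul_smul, Matrix.mul_one]
  have hb : base j ∈ Cone j := base_mem j
  have hpos : (dsum l (a • M (base j))).PosDef := by
    have h1 := hF.pos _ hb
    have h2 : dsum l (a • M (base j)) = Q⁻¹ * F (base j) * (Q⁻¹)ᴴ := by
      rw [hF2 _ hb, conjTranspose_nonsing_inv]
      calc dsum l (a • M (base j)) = 1 * dsum l (a • M (base j)) * 1 := by
            rw [Matrix.one_mul, Matrix.mul_one]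
        _ = (Q⁻¹ * Q) * dsum l (a • M (base j)) * (Qᴴ * Qᴴ⁻¹) := by rw [e1, e2]
        _ = _ := by simp only [Matrix.mul_assoc]
    rw [h2]
    exact h1.mul_mul_conjTranspose_same (Matrix.vecMul_injective_of_isUnit
      (isUnit_nonsing_inv_iff.2 hQ))
  obtain ⟨h1, h2⟩ := posDef_of_dsum' hpos
  exact ⟨l, a, h1, pos_of_smul_posDef (hM.pos _ hb) h2, hF2⟩

end Pool.Agent.Lib.MP_5d4057_al.HM
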