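import Pool.Agent.Lib.MP_5d4057_al.HM.AppStd

/-! Section F: the standard metric is pluriharmonic; block sums. -/

set_option autoImplicit false

namespace Pool.Agent.Lib.MP_5d4057_al.HM

open Matrix Filter Topology Pool.Agent.Lib.MP_5d4057_al Pool.Agent.Lib.MP_5d4057_al.Hyb

open scoped ComplexOrder MatrixOrder Matrix.Norms.L2Operator

variable {n m : ℕ}

theorem vecMulVec_smul'' {l : ℕ} (c : ℂ) (a b : Fin l → ℂ) :
    vecMulVec a (c • b) = c • vecMulVec a b := by
  ext i j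
  simp [vecMulVec_apply]
  ring

theorem vecMulVec_sub' {l : ℕ} (a b c : Fin l → ℂ) :
    vecMulVec a (b - c) = vecMulVec a b - vecMulVec a c := by
  ext i j
  simp [vecMulVec_apply]
  ring

theorem stdB_eq (v η : Vec n) : stdB v η = (-2 : ℂ) • ((q v : ℂ)⁻¹ • vecMulVec v (star η)) +
    (2 : ℂ) • ((herm η v * ((q v : ℂ)⁻¹ * (q v : ℂ)⁻¹)) • vecMulVec v (star v)) := by
  rw [stdB, star_prj, vecMulVec_sub', vecMulVec_smul'']
  module

theorem hasZ_stdB {v : Vec n} (hv : v ∈ Cone n) (ξ η : Vec n) :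
    HasZ (fun w => stdB w η) v ξ
      ((2 * ((q v : ℂ)⁻¹ * (q v : ℂ)⁻¹)) • (herm (prj v η) (prj v ξ) • vecMulVec v (star v)) +
        (-2 * (q v : ℂ)⁻¹) • vecMulVec (prj v ξ) (star (prj v η)))
      (pb (fun w => stdB w η) v ξ) := by
  have hq := q_ne hv
  have hi := (hasZ_q v ξ).inv hq
  have h1 := (hi.smul (hasZ_vr (star η) v ξ)).const_smul (-2)
  have h2 := (((hasZ_herm_left η v ξ).mul' (hi.mul' hi)).smul (hasZ_vv v ξ)).const_smul 2
  have h3 := (h1.add h2).congr (g := fun w => stdB w η)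
    (Eventually.of_forall fun w => stdB_eq w η)
  refine HasZ.of_eq h3 ?_ h3.pb.symm
  have e1 : herm (prj v η) (prj v ξ) = herm η ξ - herm η v * herm v ξ * (q v : ℂ)⁻¹ := by
    conv_lhs => rw [prj]
    rw [sub_eq_add_neg, ← neg_smul, herm_add_left, herm_smul_left, herm_prj hv, mul_zero, add_zero,
      prj, sub_eq_add_neg, ← neg_smul, herm_add_right, herm_smul_right]
    ring
  rw [e1, star_prj]
  ext i j
  simp only [prj, Matrix.smul_apply, Matrix.add_apply, vecMulVec_apply, Pi.sub_apply,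
    Pi.smul_apply, smul_eq_mul]
  field_simp
  ring

theorem stdB_mul_stdA {v : Vec n} (hv : v ∈ Cone n) (ξ η : Vec n) :
    stdB v η * (std v)⁻¹ * stdA v ξ = (4 * ((q v : ℂ)⁻¹ * (q v : ℂ)⁻¹)) •
      (herm (prj v η) (prj v ξ) • vecMulVec v (star v)) := by
  rw [stdA, stdB, Matrix.smul_mul, Matrix.smul_mul, Matrix.mul_smul, Matrix.mul_assoc,
    mul_vecMulVec, std_inv_mulVec hv (herm_prj hv ξ), vmm]
  rw [show star (prj v η) ⬝ᵥ (J n *ᵥ prj v ξ) = herm (prj v η) (prj v ξ) from rfl]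
  module

theorem stdA_mul_stdB {v : Vec n} (hv : v ∈ Cone n) (ξ η : Vec n) :
    stdA v ξ * (std v)⁻¹ * stdB v η = (-4 * (q v : ℂ)⁻¹) •
      vecMulVec (prj v ξ) (star (prj v η)) := by
  have hq := q_ne hv
  rw [stdA, stdB, Matrix.smul_mul, Matrix.smul_mul, Matrix.mul_smul, Matrix.mul_assoc,
    mul_vecMulVec, std_inv_self hv, vmm, dotProduct_neg]
  rw [show star v ⬝ᵥ (J n *ᵥ v) = (q v : ℂ) from herm_self v, smul_smul, smul_smul]
  congr 1
  field_simp
  norm_num

theorem stdA_mul_stdA {v : Vec n} (hv : v ∈ Cone n) (ξ η : Vec n) :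
    stdA v ξ * (std v)⁻¹ * stdA v η = 0 := by
  rw [stdA, stdA, Matrix.smul_mul, Matrix.smul_mul, Matrix.mul_smul, Matrix.mul_assoc,
    mul_vecMulVec, std_inv_mulVec hv (herm_prj hv η), vmm]
  rw [show star v ⬝ᵥ (J n *ᵥ prj v η) = herm v (prj v η) from rfl, herm_prj hv]
  simp

theorem q_smul' (c : ℂ) (v : Vec n) : (q (c • v) : ℂ) = star c * c * (q v : ℂ) := by
  rw [← herm_self, herm_smul_left, herm_smul_right, herm_self]
  ring

theorem std_homog : Homog (std (n := n)) := by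
  intro c hc v hv
  have hq := q_ne hv
  have hc' : star c ≠ 0 := star_ne_zero.2 hc
  rw [std, std, q_smul']
  ext i j
  simp only [Matrix.smul_apply, Matrix.add_apply, vecMulVec_apply, Pi.smul_apply, smul_eq_mul,
    Pi.star_apply, star_mul']
  field_simp

theorem contDiff_vv : ContDiff ℝ 2 fun w : Vec n => vecMulVec w (star w) := by
  have h1 : ContDiff ℝ 2 fun w : Vec n => star w :=
    (starL' ℝ : Vec n ≃L[ℝ] Vec n).contDiff
  have h3 : ContDiff ℂ 2 fun p : Vec n × Vec n => vmL n p.1 p.2 :=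
    (vmL n).isBoundedBilinearMap.contDiff
  exact (h3.restrict_scalars ℝ).comp (contDiff_id.prodMk h1)

theorem contDiff_qc : ContDiff ℝ 2 fun w : Vec n => (q w : ℂ) := by
  have h1 : (fun w : Vec n => (q w : ℂ)) = fun w : Vec n =>
      ∑ i, J n i i * ((starRingEnd ℂ) (w i) * w i) := by
    funext w
    rw [← herm_self, herm, dotProduct]
    refine Finset.sum_congr rfl fun i _ => ?_
    rw [J, mulVec_diagonal, diagonal_apply_eq, Pi.star_apply, ← Complex.star_def]
    ring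
  rw [h1]
  refine ContDiff.sum fun i _ => contDiff_const.mul (ContDiff.mul ?_ (contDiff_apply ℝ ℂ i))
  exact Complex.conjCLE.contDiff.comp (contDiff_apply ℝ ℂ i)

theorem contDiffOn_std : ContDiffOn ℝ 2 std (Cone n) := by
  have h1 : ContDiffOn ℝ 2 (fun w : Vec n => (-2 : ℂ) * (q w : ℂ)⁻¹) (Cone n) :=
    contDiffOn_const.mul (contDiff_qc.contDiffOn.inv fun v hv => q_ne hv)
  have h2 : ContDiffOn ℝ 2 (fun w : Vec n => (-2 * (q w : ℂ)⁻¹) • vecMulVec w (star w)) (Cone n) :=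
    h1.smul contDiff_vv.contDiffOn
  exact contDiffOn_const.add h2

/-- The standard metric is pluriharmonic. -/
theorem harm_std : Harm (std (n := n)) := by
  refine Harm.mk' stdA stdB contDiffOn_std std_homog (fun v hv => std_posDef hv)
    (fun v hv ξ => hasZ_std hv ξ) ?_ ?_
  · intro v hv ξ η
    rw [(hasZ_stdB hv ξ η).pz, stdB_mul_stdA hv, stdA_mul_stdB hv]
    module
  · intro v hv ξ η
    rw [stdA_mul_stdA hv, stdA_mul_stdA hv]

/-- The embedding `A ↦ 0 ⊕ A`. -/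
noncomputable def dsL (m : ℕ) : Mat m →L[ℂ] Mat (m + 1) := LinearMap.toContinuousLinearMap
  { toFun := fun A => dsum 0 A
    map_add' := fun A B => by
      ext i j
      refine Fin.cases ?_ (fun i => ?_) i <;> refine Fin.cases ?_ (fun j => ?_) j <;> simp
    map_smul' := fun c A => by
      ext i j
      refine Fin.cases ?_ (fun i => ?_) i <;> refine Fin.cases ?_ (fun j => ?_) j <;> simp }

theorem dsL_apply (A : Mat m) : dsL m A = dsum 0 A := rfl

theorem dsum_split (l : ℂ) (A : Mat m) : dsum l A = dsum l 0 + dsL m A := by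
  rw [dsL_apply]
  ext i j
  refine Fin.cases ?_ (fun i => ?_) i <;> refine Fin.cases ?_ (fun j => ?_) j <;> simp

theorem HasZ.dsum {M : Vec n → Mat m} {v ξ : Vec n} {x y : Mat m} (h : HasZ M v ξ x y) (l : ℂ) :
    HasZ (fun w => dsum l (M w)) v ξ (dsum 0 x) (dsum 0 y) := by
  have h1 := (hasZ_const (Hyb.dsum l (0 : Mat m)) v ξ).add (h.clm (dsL m))
  rw [zero_add, zero_add] at h1
  exact h1.congr (Eventually.of_forall fun w => dsum_split l (M w))

theorem posDef_dsum {l : ℂ} {A : Mat m} (hl : 0 < l) (hA : A.PosDef) : (dsum l A).PosDef := by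
  have hl' := Complex.lt_def.1 hl
  have hstar : star l = l := by
    rw [Complex.star_def, Complex.conj_eq_iff_im]
    exact hl'.2.symm
  refine Matrix.PosDef.of_dotProduct_mulVec_pos ?_ ?_
  · rw [IsHermitian, dsum_conjTranspose, hstar, hA.isHermitian.eq]
  · intro x hx
    obtain ⟨p, v, rfl⟩ : ∃ (p : ℂ) (v : Fin m → ℂ), x = Fin.cons p v :=
      ⟨x 0, Fin.tail x, (Fin.cons_self_tail x).symm⟩
    have h1 : star (Fin.cons p v : Fin (m + 1) → ℂ) ⬝ᵥ (dsum l A *ᵥ Fin.cons p v) =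
        l * (star p * p) + star v ⬝ᵥ (A *ᵥ v) := by
      rw [dsum_mulVec_cons]
      simp [dotProduct, Fin.sum_univ_succ]
      ring
    rw [h1]
    by_cases hp : p = 0
    · have hv : v ≠ 0 := by
        intro hv
        apply hx
        rw [hp, hv]
        ext i
        refine Fin.cases rfl (fun i => rfl) i
      have := hA.dotProduct_mulVec_pos hv
      rw [hp]
      simpa using this
    · have h2 : 0 < star p * p := by
        refine lt_of_le_of_ne (star_mul_self_nonneg p) ?_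
        intro h
        rcases mul_eq_zero.1 h.symm with h | h
        · exact hp (star_eq_zero.1 h)
        · exact hp h
      have h3 : 0 ≤ star v ⬝ᵥ (A *ᵥ v) := hA.posSemidef.dotProduct_mulVec_nonneg v
      exact add_pos_of_pos_of_nonneg (mul_pos hl h2) h3

theorem dsum_inv' {l : ℂ} (hl : l ≠ 0) {A : Mat m} (hA : IsUnit A) :
    (dsum l A)⁻¹ = dsum l⁻¹ A⁻¹ :=
  dsum_inv l A hl ((isUnit_iff_isUnit_det A).1 hA).ne_zero

/-- Block sums with a constant. -/
theorem Harm.dsum {M : Vec n → Mat m} (h : Harm M) {l : ℂ} (hl : 0 < l) :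
    Harm fun v => dsum l (M v) := by
  refine Harm.mk' (fun v ξ => Hyb.dsum 0 (pz M v ξ)) (fun v ξ => Hyb.dsum 0 (pb M v ξ))
    ?_ ?_ ?_ ?_ ?_ ?_
  · have h1 : ContDiffOn ℝ 2 (fun v => Hyb.dsum l (0 : Mat m) + dsL m (M v)) (Cone n) :=
      contDiffOn_const.add (((dsL m).restrictScalars ℝ).contDiff.comp_contDiffOn h.cd)
    exact h1.congr fun v _ => dsum_split l (M v)
  · intro c hc v hv
    show Hyb.dsum l (M (c • v)) = _
    rw [h.hom c hc v hv]
  · exact fun v hv => posDef_dsum hl (h.pos v hv)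
  · exact fun v hv ξ => (hasZ (h.diff hv) ξ).dsum l
  · intro v hv ξ η
    have h1 : HasZ (fun w => pb M w η) v ξ _ _ :=
      hasZ (hasFDerivAt_pb (h.cda hv) η).differentiableAt ξ
    have h3 : pz (fun w => pb M w η) v ξ = (1 / 2 : ℂ) •
      (pb M v η * (M v)⁻¹ * pz M v ξ + pz M v ξ * (M v)⁻¹ * pb M v η) := h.ph v hv ξ η
    rw [(h1.dsum 0).pz, h3, dsum_inv' hl.ne' (h.unit hv), dsum_mul, dsum_mul, dsum_mul, dsum_mul,
      zero_mul, zero_mul, ← dsL_apply, ← dsL_apply, ← dsL_apply, map_smul, map_add]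
  · intro v hv ξ η
    have h2 : pz M v ξ * (M v)⁻¹ * pz M v η = pz M v η * (M v)⁻¹ * pz M v ξ := h.comm v hv ξ η
    show Hyb.dsum 0 (pz M v ξ) * (Hyb.dsum l (M v))⁻¹ * Hyb.dsum 0 (pz M v η) =
      Hyb.dsum 0 (pz M v η) * (Hyb.dsum l (M v))⁻¹ * Hyb.dsum 0 (pz M v ξ)
    rw [dsum_inv' hl.ne' (h.unit hv), dsum_mul, dsum_mul, dsum_mul, dsum_mul, h2]

end Pool.Agent.Lib.MP_5d4057_al.HM
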