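import Pool.Agent.Lib.MP_5d4057_al.HM.AppHolo
import Pool.Agent.Lib.MP_5d4057_al.HM.AppNorm
import Pool.Agent.Lib.MP_5d4057_al.HM.BochC

/-! Section F: a vanishing theorem on compact quotients (a case of the theorem of Kodaira, Akizuki
and Nakano). -/

set_option autoImplicit false

namespace Pool.Agent.Lib.MP_5d4057_al.HM

open Matrix Filter Topology MeasureTheory Pool.Agent.Lib.MP_5d4057_al
  Pool.Agent.Lib.MP_5d4057_al.Hyb

variable {n : ℕ} {E : Type} [NormedAddCommGroup E] [NormedSpace ℂ E]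

theorem pz_add_dir (f : Vec n → E) (v a b : Vec n) : pz f v (a + b) = pz f v a + pz f v b := by
  rw [pz, pz, pz, smul_add, map_add, map_add]
  module

theorem pz_smul_dir (f : Vec n → E) (v a : Vec n) (c : ℂ) : pz f v (c • a) = c • pz f v a := by
  have hc : (c : ℂ) = (c.re : ℂ) + (c.im : ℂ) * Complex.I := (Complex.re_add_im c).symm
  have h1 : c • a = (c.re : ℝ) • a + (c.im : ℝ) • (Complex.I • a) := by
    conv_lhs => rw [hc]
    rw [add_smul, mul_smul]
    rfl
  have h2 : Complex.I • c • a = (c.re : ℝ) • (Complex.I • a) + (c.im : ℝ) • ((-1 : ℝ) • a) := by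
    have h3 : ∀ (r : ℝ) (x : Vec n), r • x = (r : ℂ) • x := fun _ _ => rfl
    rw [h3, h3, h3, smul_smul, smul_smul, smul_smul, ← add_smul]
    congr 1
    conv_lhs => rw [hc]
    push_cast
    linear_combination (c.im : ℂ) * Complex.I_mul_I
  have h3 : ∀ (r : ℝ) (x : Vec n), fderiv ℝ f v (r • x) = (r : ℂ) • fderiv ℝ f v x :=
    fun r x => (fderiv ℝ f v).map_smul r x
  rw [pz, pz, h2, h1, map_add, map_add, h3, h3, h3, h3, h3]
  conv_rhs => rw [hc]
  simp only [smul_sub, smul_add, smul_smul]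
  have e1 : ((c.re : ℂ) + (c.im : ℂ) * Complex.I) * (1 / 2 * Complex.I) =
      1 / 2 * (Complex.I * (c.re : ℂ)) - 1 / 2 * (c.im : ℂ) := by
    linear_combination (1 / 2 : ℂ) * (c.im : ℂ) * Complex.I_mul_I
  have e2 : (1 / 2 : ℂ) * (Complex.I * ((c.im : ℂ) * ((-1 : ℝ) : ℂ))) =
      -(1 / 2 * (Complex.I * (c.im : ℂ))) := by
    push_cast
    ring
  rw [e1, e2]
  module

theorem pz_sum_dir {ι : Type} (f : Vec n → E) (v : Vec n) (T : Finset ι) (a : ι → Vec n) :
    pz f v (∑ i ∈ T, a i) = ∑ i ∈ T, pz f v (a i) := by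
  classical
  induction T using Finset.induction_on with
  | empty =>
    have := pz_smul_dir f v 0 0
    simpa using this
  | insert i T hi ih => rw [Finset.sum_insert hi, Finset.sum_insert hi, pz_add_dir, ih]

theorem pz_eq_sum (f : Vec n → E) (v ξ : Vec n) :
    pz f v ξ = ∑ c, ξ c • pz f v (Pi.single c 1) := by
  have h : ξ = ∑ c, ξ c • (Pi.single c 1 : Vec n) := by
    ext i
    simp [Finset.sum_apply, Pi.single_apply]
  conv_lhs => rw [h]
  rw [pz_sum_dir]
  exact Finset.sum_congr rfl fun c _ => pz_smul_dir _ _ _ _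

/-- The matrix of the complex linear part of the derivative. -/
noncomputable def pzM (β : Vec n → Vec n) (v : Vec n) : Mat (n + 1) :=
  Matrix.of fun i c => pz β v (Pi.single c 1) i

theorem pzM_mulVec (β : Vec n → Vec n) (v ξ : Vec n) : pzM β v *ᵥ ξ = pz β v ξ := by
  rw [pz_eq_sum]
  ext i
  rw [Finset.sum_apply]
  show ∑ c, pz β v (Pi.single c 1) i * ξ c = _
  exact Finset.sum_congr rfl fun c _ => by rw [Pi.smul_apply, smul_eq_mul, mul_comm]

/-- The divergence. -/
noncomputable def dv (β : Vec n → Vec n) (v : Vec n) : ℂ := (pzM β v).trace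

theorem dv_eq (β : Vec n → Vec n) (v : Vec n) : dv β v = ∑ c, pz β v (Pi.single c 1) c := rfl

theorem pz_homog' {f : Vec n → E} {c k : ℂ} (hc : c ≠ 0)
    (hf : ∀ w ∈ Cone n, f (c • w) = k • f w) {v : Vec n} (hv : v ∈ Cone n)
    (hd : ∀ u ∈ Cone n, DifferentiableAt ℝ f u) (ξ : Vec n) :
    c • pz f (c • v) ξ = k • pz f v ξ := by
  have h0 := hasZ (hd _ (smul_mem_cone hc hv)) ξ
  have h1 : HasZ (fun w => f ((c • ContinuousLinearMap.id ℂ (Vec n)) w)) v ξ _ _ :=
    (h0.smul_dir c).comp_lin (c • ContinuousLinearMap.id ℂ (Vec n))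
  have h2 : (fun w => f ((c • ContinuousLinearMap.id ℂ (Vec n)) w)) =ᶠ[𝓝 v] fun w => k • f w := by
    filter_upwards [mem_nhds_cone hv] with w hw
    exact hf w hw
  have h3 := (hasZ (hd v hv) ξ).const_smul k
  rw [← h1.pz, pz_congr h2, h3.pz]

theorem herm_sum (v w : Vec n) : herm v w = ∑ c, star (v c) * (J n c c * w c) := by
  rw [herm, dotProduct]
  refine Finset.sum_congr rfl fun c _ => ?_
  rw [J, mulVec_diagonal, diagonal_apply_eq]
  rfl

theorem star_J (c : Fin (n + 1)) : star (J n c c) = J n c c := by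
  have := congrFun (congrFun (J_herm (n := n)) c) c
  rwa [conjTranspose_apply] at this

theorem J_sq (c : Fin (n + 1)) : J n c c * J n c c = 1 := by
  have h := congrFun (congrFun (J_J (n := n)) c) c
  rw [J, diagonal_mul_diagonal, diagonal_apply_eq, one_apply_eq] at h
  rw [J, diagonal_apply_eq]
  exact h

theorem herm_single_left (c : Fin (n + 1)) (w : Vec n) :
    herm (Pi.single c 1) w = J n c c * w c := by
  rw [herm_sum, Finset.sum_eq_single c]
  · simp
  · intro b _ hb
    simp [Pi.single_eq_of_ne hb]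
  · intro h
    exact absurd (Finset.mem_univ _) h

theorem herm_neg_right (v w : Vec n) : herm v (-w) = -herm v w := by
  rw [← neg_one_smul ℂ, herm_smul_right, neg_one_mul]

theorem herm_sum_right {ι : Type} (T : Finset ι) (v : Vec n) (w : ι → Vec n) :
    herm v (∑ i ∈ T, w i) = ∑ i ∈ T, herm v (w i) := by
  classical
  induction T using Finset.induction_on with
  | empty => unfold herm; simp
  | insert i T hi ih => rw [Finset.sum_insert hi, Finset.sum_insert hi, herm_add_right, ih]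

/-- Holomorphic sections of `T ⊗ L²`. -/
structure Sec (Γ : Subgroup (SUGroup n)) (β : Vec n → Vec n) : Prop where
  cd : ContDiffOn ℝ 1 β (Cone n)
  hom : ∀ c : ℂ, c ≠ 0 → ∀ v ∈ Cone n, β (c • v) = c⁻¹ • β v
  equi : ∀ γ ∈ Γ, ∀ v ∈ Cone n, β (act γ v) = act γ (β v)
  orth : ∀ v ∈ Cone n, herm v (β v) = 0
  pb : ∀ v ∈ Cone n, ∀ ξ, pb β v ξ = -((herm ξ (β v) / (q v : ℂ)) • v)

variable {Γ : Subgroup (SUGroup n)} {β : Vec n → Vec n}

theorem Sec.diff (h : Sec Γ β) {v : Vec n} (hv : v ∈ Cone n) : DifferentiableAt ℝ β v :=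
  (h.cd.contDiffAt (mem_nhds_cone hv)).differentiableAt one_ne_zero

/-- Euler's relation. -/
theorem Sec.euler (h : Sec Γ β) {v : Vec n} (hv : v ∈ Cone n) : pz β v v = -β v := by
  have key : ∀ c : ℂ, fderiv ℝ β v (c • v) = -(c • β v) := by
    intro c
    have h1 : HasDerivAt (fun t : ℝ => (1 + (t : ℂ) * c) • v) (c • v) 0 := by
      have h2 : HasDerivAt (fun t : ℝ => (1 + (t : ℂ) * c)) c 0 := by
        have h3 : HasDerivAt (fun t : ℝ => (t : ℂ)) 1 0 := Complex.ofRealCLM.hasDerivAt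
        simpa using (h3.mul_const c).const_add 1
      exact h2.smul_const v
    have h4 : HasFDerivAt β (fderiv ℝ β v) ((1 + ((0 : ℝ) : ℂ) * c) • v) := by
      have : (1 + ((0 : ℝ) : ℂ) * c) • v = v := by simp
      rw [this]
      exact (h.diff hv).hasFDerivAt
    have h5 := h4.comp_hasDerivAt (0 : ℝ) h1
    have h6 : HasDerivAt (fun t : ℝ => (1 + (t : ℂ) * c)⁻¹ • β v) (-(c • β v)) 0 := by
      have h2 : HasDerivAt (fun t : ℝ => (1 + (t : ℂ) * c)) c 0 := by
        have h3 : HasDerivAt (fun t : ℝ => (t : ℂ)) 1 0 := Complex.ofRealCLM.hasDerivAt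
        simpa using (h3.mul_const c).const_add 1
      have h7 : HasDerivAt (fun t : ℝ => (1 + (t : ℂ) * c)⁻¹) (-c) 0 := by
        have h8 : HasDerivAt (fun t : ℝ => (1 + (t : ℂ) * c)⁻¹) _ 0 :=
          (hasDerivAt_inv (x := (1 + ((0 : ℝ) : ℂ) * c)) (by simp)).scomp (0 : ℝ) h2
        simpa using h8
      have h9 := h7.smul_const (β v)
      rwa [neg_smul] at h9
    have h7 : (fun t : ℝ => β ((1 + (t : ℂ) * c) • v)) =ᶠ[𝓝 0]
        fun t : ℝ => (1 + (t : ℂ) * c)⁻¹ • β v := by
      have hc : Continuous fun t : ℝ => 1 + (t : ℂ) * c := by fun_prop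
      have h8 : ∀ᶠ t : ℝ in 𝓝 0, 1 + (t : ℂ) * c ≠ 0 :=
        hc.continuousAt.eventually_ne (by simp)
      filter_upwards [h8] with t ht
      exact h.hom _ ht v hv
    exact (h5.congr_of_eventuallyEq h7.symm).unique h6
  have h1 := key 1
  rw [one_smul, one_smul] at h1
  rw [pz, h1, key]
  rw [smul_neg, smul_smul, Complex.I_mul_I]
  module

/-- Sections are of class `C²`. -/
theorem Sec.cd2 (h : Sec Γ β) : ContDiffOn ℝ 2 β (Cone n) := by
  have hp : ∀ i j : Fin (n + 1), ContDiffOn ℝ 2 (fun v => v i * β v j - β v i * v j) (Cone n) := by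
    intro i j
    have hβ : ∀ i, ContDiffOn ℝ 1 (fun v => β v i) (Cone n) := fun i => contDiffOn_pi.1 h.cd i
    refine contDiffOn_two_of_pb (isOpen_cone n) ?_ ?_
    · exact ((contDiff_apply ℝ ℂ i).contDiffOn.mul (hβ j)).sub
        ((hβ i).mul (contDiff_apply ℝ ℂ j).contDiffOn)
    · intro v hv ξ
      have e : ∀ i, HasZ (fun w : Vec n => w i) v ξ _ _ :=
        fun i => hasZ_clm (ContinuousLinearMap.proj i) v ξ
      have f : ∀ i, HasZ (fun w : Vec n => β w i) v ξ _ _ :=
        fun i => (hasZ (h.diff hv) ξ).clm (ContinuousLinearMap.proj i)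
      have g := ((e i).mul' (f j)).sub ((f i).mul' (e j))
      rw [g.pb, h.pb v hv]
      simp only [ContinuousLinearMap.proj_apply, Pi.neg_apply, Pi.smul_apply, smul_eq_mul]
      ring
  rw [contDiffOn_pi]
  intro i
  have h1 : ContDiffOn ℝ 2 (fun v : Vec n => -(q v : ℂ)⁻¹ * ∑ j, (v i * β v j - β v i * v j) *
      (J n j j * star (v j))) (Cone n) := by
    have hq : ContDiffOn ℝ 2 (fun v : Vec n => (q v : ℂ)⁻¹) (Cone n) :=
      contDiff_qc.contDiffOn.inv fun v hv => q_ne hv
    refine hq.neg.mul (ContDiffOn.sum fun j _ => (hp i j).mul ?_)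
    refine contDiffOn_const.mul (ContDiff.contDiffOn ?_)
    exact (Complex.conjCLE.contDiff).comp (contDiff_apply ℝ ℂ j)
  refine h1.congr fun v hv => ?_
  have h2 : ∑ j, (v i * β v j - β v i * v j) * (J n j j * star (v j)) =
      v i * herm v (β v) - β v i * herm v v := by
    rw [herm_sum, herm_sum, Finset.mul_sum, Finset.mul_sum, ← Finset.sum_sub_distrib]
    exact Finset.sum_congr rfl fun j _ => by ring
  rw [h2, h.orth v hv, herm_self]
  have := q_ne hv
  field_simp
  ring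

theorem Sec.cda (h : Sec Γ β) {v : Vec n} (hv : v ∈ Cone n) : ContDiffAt ℝ 2 β v :=
  h.cd2.contDiffAt (mem_nhds_cone hv)

theorem HasZ.sum {ι : Type} (T : Finset ι) {f : ι → Vec n → E} {v ξ : Vec n} {a b : ι → E}
    (h : ∀ i, HasZ (f i) v ξ (a i) (b i)) :
    HasZ (fun w => ∑ i ∈ T, f i w) v ξ (∑ i ∈ T, a i) (∑ i ∈ T, b i) := by
  classical
  induction T using Finset.induction_on with
  | empty => simpa using hasZ_const (0 : E) v ξ
  | insert i T hi ih =>
    simp only [Finset.sum_insert hi]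
    exact (h i).add ih

/-- The antiholomorphic derivative of the divergence. -/
theorem Sec.pb_dv (h : Sec Γ β) {v : Vec n} (hv : v ∈ Cone n) (ξ : Vec n) :
    HasZ (dv β) v ξ (pz (dv β) v ξ) ((1 - (n : ℂ)) * (herm ξ (β v) / (q v : ℂ))) := by
  have hq := q_ne hv
  have H : ∀ c : Fin (n + 1), HasZ (fun w => pz β w (Pi.single c 1) c) v ξ _ _ := fun c =>
    (hasZ (hasFDerivAt_pz (h.cda hv) (Pi.single c 1)).differentiableAt ξ).clm
      (ContinuousLinearMap.proj c)
  have H2 : HasZ (dv β) v ξ _ _ := HasZ.sum Finset.univ H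
  refine HasZ.of_eq H2 H2.pz.symm ?_
  set x := herm ξ (β v) with hx
  have K : ∀ c : Fin (n + 1), HM.pb (fun w => pz β w (Pi.single c 1)) v ξ c =
      -(x * (q v : ℂ)⁻¹ + (x * (-herm v (Pi.single c 1) / (q v : ℂ) ^ 2) +
        herm ξ (pz β v (Pi.single c 1)) * (q v : ℂ)⁻¹) * v c) := by
    intro c
    set e : Vec n := Pi.single c 1 with he
    have h1 : HasZ (fun w => herm ξ (β w)) v e (herm ξ (pz β v e)) _ :=
      (hasZ (h.diff hv) e).clm (hmL n (star ξ))
    have h2 := ((h1.mul' ((hasZ_q v e).inv hq)).smul (hasZ_id v e)).neg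
    have h3 : (fun w => HM.pb β w ξ) =ᶠ[𝓝 v] fun w => -((herm ξ (β w) * (q w : ℂ)⁻¹) • w) := by
      filter_upwards [mem_nhds_cone hv] with w hw
      rw [h.pb w hw, div_eq_mul_inv]
    rw [← pz_pb_comm (h.cda hv) e ξ, pz_congr h3, h2.pz]
    have h4 : e c = 1 := by rw [he, Pi.single_eq_same]
    simp only [Pi.neg_apply, Pi.add_apply, Pi.smul_apply, smul_eq_mul, h4, mul_one, ← hx]
  show ∑ c, HM.pb (fun w => pz β w (Pi.single c 1)) v ξ c = _
  simp only [K]
  have s1 : ∑ c, v c * herm v (Pi.single c 1) = (q v : ℂ) := by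
    rw [← herm_self]
    conv_rhs => rw [show herm v v = herm v (∑ c, v c • (Pi.single c 1 : Vec n)) by
      congr 1
      ext i
      simp [Finset.sum_apply, Pi.single_apply]]
    rw [herm_sum_right]
    exact Finset.sum_congr rfl fun c _ => (herm_smul_right _ _ _).symm
  have s2 : ∑ c, v c * herm ξ (pz β v (Pi.single c 1)) = -x := by
    have h1 := h.euler hv
    rw [pz_eq_sum] at h1
    have h2 := congrArg (herm ξ) h1
    rw [herm_sum_right, herm_neg_right] at h2
    rw [← h2]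
    exact Finset.sum_congr rfl fun c _ => (herm_smul_right _ _ _).symm
  have s3 : ∑ c : Fin (n + 1), -(x * (q v : ℂ)⁻¹ + (x * (-herm v (Pi.single c 1) / (q v : ℂ) ^ 2) +
        herm ξ (pz β v (Pi.single c 1)) * (q v : ℂ)⁻¹) * v c) =
      -((n + 1 : ℂ) * (x * (q v : ℂ)⁻¹)) + x / (q v : ℂ) ^ 2 * (∑ c, v c * herm v (Pi.single c 1)) -
        (q v : ℂ)⁻¹ * ∑ c, v c * herm ξ (pz β v (Pi.single c 1)) := by
    rw [Finset.mul_sum, Finset.mul_sum]
    have : (n + 1 : ℂ) * (x * (q v : ℂ)⁻¹) = ∑ _c : Fin (n + 1), x * (q v : ℂ)⁻¹ := by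
      rw [Finset.sum_const, Finset.card_univ, Fintype.card_fin, nsmul_eq_mul]
      push_cast
      ring
    rw [this, ← Finset.sum_neg_distrib, ← Finset.sum_add_distrib, ← Finset.sum_sub_distrib]
    refine Finset.sum_congr rfl fun c _ => ?_
    ring
  rw [s3, s1, s2]
  field_simp
  ring

theorem Sec.dv_smul (h : Sec Γ β) {c : ℂ} (hc : c ≠ 0) {v : Vec n} (hv : v ∈ Cone n) :
    dv β (c • v) = c⁻¹ * c⁻¹ * dv β v := by
  have h1 : ∀ ξ, pz β (c • v) ξ = (c⁻¹ * c⁻¹) • pz β v ξ := by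
    intro ξ
    have h2 := pz_homog' hc (fun w hw => h.hom c hc w hw) hv (fun u hu => h.diff hu) ξ
    rw [mul_smul, ← h2, smul_smul, inv_mul_cancel₀ hc, one_smul]
  rw [dv_eq, dv_eq, Finset.mul_sum]
  exact Finset.sum_congr rfl fun i _ => by rw [h1, Pi.smul_apply, smul_eq_mul]

theorem Sec.dv_act (h : Sec Γ β) {γ : SUGroup n} (hγ : γ ∈ Γ) {v : Vec n} (hv : v ∈ Cone n) :
    dv β (act γ v) = dv β v := by
  have h0 : ∀ ξ, pz β (act γ v) (act γ ξ) = act γ (pz β v ξ) := by
    intro ξ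
    have h1 : HasZ (fun w => β (actC γ w)) v ξ _ _ :=
      (hasZ (h.diff (act_mem γ hv)) (actC γ ξ)).comp_lin (actC γ)
    have h2 : HasZ (fun w => actC γ (β w)) v ξ _ _ := (hasZ (h.diff hv) ξ).clm (actC γ)
    have h3 : (fun w => β (actC γ w)) =ᶠ[𝓝 v] fun w => actC γ (β w) := by
      filter_upwards [mem_nhds_cone hv] with w hw
      exact h.equi γ hγ w hw
    have h4 := pz_congr h3 ξ
    rw [h1.pz, h2.pz] at h4
    exact h4
  have h1 : pzM β (act γ v) * γ.toMatrix = γ.toMatrix * pzM β v := by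
    apply Matrix.ext_of_mulVec_single
    intro i
    rw [← mulVec_mulVec, ← mulVec_mulVec, pzM_mulVec, pzM_mulVec]
    exact h0 _
  have hu := (isUnit_iff_isUnit_det _).1 (toMatrix_unit γ)
  have h2 : pzM β (act γ v) = γ.toMatrix * pzM β v * (γ.toMatrix)⁻¹ := by
    rw [← h1, Matrix.mul_assoc, mul_nonsing_inv _ hu, Matrix.mul_one]
  rw [dv, h2, Matrix.trace_mul_comm, ← Matrix.mul_assoc, nonsing_inv_mul _ hu, Matrix.one_mul, dv]

/-- The vector field for the divergence theorem. -/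
noncomputable def Yb (β : Vec n → Vec n) (v a : Vec n) : ℂ :=
  herm a (β v) * star (-(q v : ℂ) * dv β v)

theorem hasZ_conj {f : Vec n → ℂ} {v ξ : Vec n} {a b : ℂ} (h : HasZ f v ξ a b) :
    HasZ (fun w => star (f w)) v ξ (star b) (star a) := by
  refine h.comp_anti (F := ℂ) Complex.conjCLE.toContinuousLinearMap ?_
  intro x
  show (starRingEnd ℂ) (Complex.I • x) = -(Complex.I • (starRingEnd ℂ) x)
  rw [smul_eq_mul, smul_eq_mul, map_mul, Complex.conj_I, neg_mul]

/-- The divergence of this vector field. -/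
theorem Sec.div_Yb (h : Sec Γ β) {v : Vec n} (hv : v ∈ Cone n) :
    ∑ c : Fin (n + 1), J n c c * dzc (fun w => Yb β w (Pi.single c 1)) v (Pi.single c 1) =
      ((-q v * ‖dv β v‖ ^ 2 + ((n : ℝ) - 1) * q (β v) : ℝ) : ℂ) := by
  have hq := q_ne hv
  set d := dv β v with hd
  have hqs : star (q v : ℂ) = (q v : ℂ) := Complex.conj_ofReal _
  have K : ∀ c : Fin (n + 1), J n c c * dzc (fun w => Yb β w (Pi.single c 1)) v (Pi.single c 1) =
      ((n : ℂ) - 1) * (star (β v c) * (J n c c * β v c)) - star d * (star (v c) *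
        (J n c c * β v c)) - (q v : ℂ) * star d * pz β v (Pi.single c 1) c := by
    intro c
    set e : Vec n := Pi.single c 1 with he
    have h1 : HasZ (fun w => herm e (β w)) v e (herm e (pz β v e)) _ :=
      (hasZ (h.diff hv) e).clm (hmL n (star e))
    have h2 := ((hasZ_q v e).neg).mul' (h.pb_dv hv e)
    have h3 : HasZ (fun w => Yb β w e) v e _ _ := h1.mul' (hasZ_conj h2)
    have h4 : dzc (fun w => Yb β w e) v e = pz (fun w => Yb β w e) v e := rfl
    rw [h4, h3.pz, ← hd]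
    have e1 : herm v e = J n c c * star (v c) := by
      rw [herm_comm, he, herm_single_left, star_mul', star_J]
    have e2 : herm e v = J n c c * v c := herm_single_left c v
    have e3 : ∀ x : Vec n, herm e x = J n c c * x c := herm_single_left c
    simp only [e2, e3, star_add, star_mul', star_neg, star_sub, star_div₀, hqs, star_J, star_one,
      star_natCast]
    have hJ := J_sq (n := n) c
    field_simp
    linear_combination ((n - 1 : ℂ) * star (β v c) * β v c * J n c c - star d * star (v c) *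
      J n c c * β v c - (q v : ℂ) * star d * pz β v e c) * hJ
  simp only [K]
  rw [Finset.sum_sub_distrib, Finset.sum_sub_distrib, ← Finset.mul_sum, ← Finset.mul_sum,
    ← Finset.mul_sum, ← herm_sum, ← herm_sum, h.orth v hv, herm_self, ← dv_eq, ← hd]
  have e2 : d * star d = ((‖d‖ ^ 2 : ℝ) : ℂ) := by
    rw [RCLike.star_def, Complex.mul_conj, Complex.normSq_eq_norm_sq]
  push_cast at e2 ⊢
  linear_combination -(q v : ℂ) * e2

theorem Sec.dv_cd (h : Sec Γ β) : ContDiffOn ℝ 1 (dv β) (Cone n) := by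
  have h1 : ContDiffOn ℝ 1 (fderiv ℝ β) (Cone n) :=
    h.cd2.fderiv_of_isOpen (isOpen_cone n) (by rw [one_add_one_eq_two])
  have h2 : ∀ ξ : Vec n, ContDiffOn ℝ 1 (fun v => fderiv ℝ β v ξ) (Cone n) :=
    fun ξ => h1.clm_apply contDiffOn_const
  have h3 : ∀ c : Fin (n + 1), ContDiffOn ℝ 1 (fun v => pz β v (Pi.single c 1)) (Cone n) := by
    intro c
    have h4 : ContDiffOn ℝ 1 (fun v => (1 / 2 : ℂ) • (fderiv ℝ β v (Pi.single c 1) -
        Complex.I • fderiv ℝ β v (Complex.I • Pi.single c 1))) (Cone n) :=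
      ((h2 _).sub ((h2 _).const_smul Complex.I)).const_smul (1 / 2 : ℂ)
    exact h4
  have h5 : dv β = fun v => ∑ c, pz β v (Pi.single c 1) c := rfl
  rw [h5]
  exact ContDiffOn.sum fun c _ => contDiffOn_pi.1 (h3 c) c

/-- The vanishing theorem. -/
theorem Sec.zero (h : Sec Γ β) (hn : 2 ≤ n) (hΓ : Coc Γ) : ∀ v ∈ Cone n, β v = 0 := by
  obtain ⟨χ, hχ⟩ := exists_cut hΓ
  have hdv := h.dv_cd
  have hq1 : ContDiff ℝ 1 fun w : Vec n => (q w : ℂ) := contDiff_qc.of_le one_le_two
  have hI : II χ (fun g => ∑ c : Fin (n + 1), J n c c *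
      dzc (fun w => Yb β w (Pi.single c 1)) (act g (base n)) (Pi.single c 1)) = 0 := by
    refine II_div (by omega) hΓ hχ ?_ ?_ ?_ ?_ ?_ ?_
    · intro v a b
      rw [Yb, Yb, Yb, herm_add_left, add_mul]
    · intro v r a
      rw [Yb, Yb, herm_smul_left, mul_assoc]
    · intro a
      have h1 : ContDiffOn ℝ 1 (fun v => herm a (β v)) (Cone n) :=
        ((hmL n (star a)).restrictScalars ℝ).contDiff.comp_contDiffOn h.cd
      have h2 : ContDiffOn ℝ 1 (fun v => -(q v : ℂ) * dv β v) (Cone n) :=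
        (hq1.neg.contDiffOn).mul hdv
      exact h1.mul (Complex.conjCLE.contDiff.comp_contDiffOn h2)
    · intro v hv
      rw [Yb, h.orth v hv, zero_mul]
    · intro c hc v hv a
      have hc' : star c ≠ 0 := star_ne_zero.2 hc
      rw [Yb, Yb, h.hom c hc v hv, h.dv_smul hc hv, herm_smul_left, herm_smul_right, q_smul']
      simp only [star_mul', star_neg, star_inv₀, star_star]
      field_simp
    · intro γ hγ v hv a
      rw [Yb, Yb, h.equi γ hγ v hv, h.dv_act hγ hv, herm_act, q_act]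
  set f : SUGroup n → ℝ := fun g => ‖dv β (act g (base n))‖ ^ 2 +
    ((n : ℝ) - 1) * q (β (act g (base n))) with hf
  have hcβ : Continuous fun g : SUGroup n => β (act g (base n)) :=
    continuous_orb h.cd.continuousOn
  have hcd : Continuous fun g : SUGroup n => dv β (act g (base n)) :=
    continuous_orb hdv.continuousOn
  have hfc : Continuous f := (hcd.norm.pow 2).add (continuous_const.mul (continuous_q.comp hcβ))
  have hn1 : (0 : ℝ) < (n : ℝ) - 1 := by
    have : (2 : ℝ) ≤ n := by exact_mod_cast hn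
    linarith
  have hqn : ∀ g : SUGroup n, 0 ≤ q (β (act g (base n))) := fun g =>
    q_nonneg_of_orth (orbit_mem g) (h.orth _ (orbit_mem g))
  have hf0 : ∀ g, 0 ≤ f g := fun g => add_nonneg (by positivity) (mul_nonneg hn1.le (hqn g))
  have hfi : ∀ γ ∈ Γ, ∀ g, f (γ * g) = f g := by
    intro γ hγ g
    simp only [hf, act_mul]
    rw [h.equi γ hγ _ (orbit_mem g), h.dv_act hγ (orbit_mem g), q_act]
  have hII : II χ f = 0 := by
    have h1 : II χ (fun g => ((f g : ℝ) : ℂ)) = 0 := by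
      rw [← hI]
      refine II_congr fun g => ?_
      rw [h.div_Yb (orbit_mem g), q_orbit]
      simp only [hf]
      push_cast
      ring
    have h2 : II χ (fun g => ((f g : ℝ) : ℂ)) = ((II χ f : ℝ) : ℂ) := by
      refine Eq.trans ?_ (integral_ofReal (𝕜 := ℂ) (μ := mu n) (f := fun g => χ g • f g))
      refine integral_congr_ae (Eventually.of_forall fun g => ?_)
      simp [Complex.real_smul]
    rw [h2] at h1
    exact_mod_cast h1
  have hz := eq_zero_of_II hΓ hχ hfc hfi hf0 hII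
  have hβ : ∀ g : SUGroup n, β (act g (base n)) = 0 := by
    intro g
    by_contra hne
    have h1 := q_pos_of_orth (orbit_mem g) (h.orth _ (orbit_mem g)) hne
    have h2 := hz g
    have h3 : 0 < ((n : ℝ) - 1) * q (β (act g (base n))) := mul_pos hn1 h1
    have h4 : 0 ≤ ‖dv β (act g (base n))‖ ^ 2 := by positivity
    simp only [hf] at h2
    linarith
  intro v hv
  obtain ⟨g, c, hc0, rfl⟩ := exists_act_eq hv
  rw [h.hom c hc0 _ (orbit_mem g), hβ g, smul_zero]

end Pool.Agent.Lib.MP_5d4057_al.HM
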