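import Pool.Agent.Lib.MP_5d4057_al.HM.Defs

namespace Pool.Agent.Lib.MP_5d4057_al.HM

open Matrix MeasureTheory Filter Topology Pool.Agent.Lib.MP_5d4057_al Pool.Agent.Lib.MP_5d4057_al.Hyb

open scoped ComplexOrder MatrixOrder Matrix.Norms.L2Operator

variable {n m : ℕ} {E : Type} [NormedAddCommGroup E] [NormedSpace ℝ E]

private theorem inv_mul' {S : Mat m} (hS : S.PosDef) : S⁻¹ * S = 1 :=
  Matrix.nonsing_inv_mul _ ((Matrix.isUnit_iff_isUnit_det S).1 hS.isUnit)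

private theorem mul_inv' {S : Mat m} (hS : S.PosDef) : S * S⁻¹ = 1 :=
  Matrix.mul_nonsing_inv _ ((Matrix.isUnit_iff_isUnit_det S).1 hS.isUnit)

private theorem congr' {A S : Mat m} (hA : A.PosDef) (hS : S.PosDef) : (S * A * S).PosDef := by
  have h1 : (Sᴴ * A * S).PosSemidef := hA.posSemidef.conjTranspose_mul_mul_same S
  rw [hS.isHermitian.eq] at h1
  rw [h1.posDef_iff_isUnit]
  exact (hS.isUnit.mul hA.isUnit).mul hS.isUnit

private theorem root' {A : Mat m} (hA : A.PosDef) : ∃ S : Mat m, S.PosDef ∧ S * S = A := by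
  have h0 : (0 : Mat m) ≤ A := hA.posSemidef.nonneg
  have h1 := CFC.sqrt_mul_sqrt_self A h0
  have h2 : (CFC.sqrt A).PosSemidef := (CFC.sqrt_nonneg A).posSemidef
  refine ⟨CFC.sqrt A, ?_, h1⟩
  rw [h2.posDef_iff_isUnit]
  have h3 : IsUnit (CFC.sqrt A * CFC.sqrt A) := by rw [h1]; exact hA.isUnit
  exact isUnit_of_mul_isUnit_left h3

/-- The Riccati equation `u A u = B` (blueprint C1): `u = A^(-1/2) (A^(1/2) B A^(1/2))^(1/2) A^(-1/2)`. -/
theorem exists_bar {A B : Mat m} (hA : A.PosDef) (hB : B.PosDef) :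
    ∃ u : Mat m, u.PosDef ∧ u * A * u = B := by
  obtain ⟨S, hS, rfl⟩ := root' hA
  obtain ⟨R, hR, hRR⟩ := root' (congr' hB hS)
  refine ⟨S⁻¹ * R * S⁻¹, congr' hR hS.inv, ?_⟩
  calc S⁻¹ * R * S⁻¹ * (S * S) * (S⁻¹ * R * S⁻¹)
      = S⁻¹ * R * (S⁻¹ * S) * (S * S⁻¹) * R * S⁻¹ := by simp only [Matrix.mul_assoc]
    _ = S⁻¹ * (R * R) * S⁻¹ := by rw [inv_mul' hS, mul_inv' hS]; simp only [Matrix.mul_assoc, Matrix.mul_one]
    _ = (S⁻¹ * S) * B * (S * S⁻¹) := by rw [hRR]; simp only [Matrix.mul_assoc]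
    _ = B := by rw [inv_mul' hS, mul_inv' hS, Matrix.one_mul, Matrix.mul_one]

private theorem herm' {A : Mat m} (hA : A.PosDef) : Aᴴ = A := hA.isHermitian.eq

private theorem tr_re {Z : Mat m} : 0 ≤ ((Zᴴ * Z).trace).re ∧ (((Zᴴ * Z).trace).re ≤ 0 → Z = 0) := by
  have h := (posSemidef_conjTranspose_mul_self Z).trace_nonneg
  have h1 := Complex.le_def.1 h
  refine ⟨by simpa using h1.1, fun h2 => ?_⟩
  rw [← trace_conjTranspose_mul_self_eq_zero_iff]
  apply Complex.ext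
  · simpa using le_antisymm h2 (by simpa using h1.1)
  · simpa using h1.2.symm

/-- The minimum property. If `u A u = B` then
`tr (v⁻¹ B) + tr (A v) - 2 tr (A u) = tr (A (v - u) v⁻¹ (v - u)) ≥ 0`, with equality only for `v = u`. -/
theorem bar_min {A B u v : Mat m} (hA : A.PosDef) (hu : u.PosDef) (hv : v.PosDef)
    (h : u * A * u = B) :
    ((u⁻¹ * B).trace + (A * u).trace).re ≤ ((v⁻¹ * B).trace + (A * v).trace).re ∧
      (((v⁻¹ * B).trace + (A * v).trace).re ≤ ((u⁻¹ * B).trace + (A * u).trace).re → v = u) := by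
  subst h
  obtain ⟨S, hS, rfl⟩ := root' hA
  obtain ⟨Y, hY, hYY⟩ := root' hv.inv
  have e1 : (u⁻¹ * (u * (S * S) * u)).trace = (S * S * u).trace := by
    congr 1
    calc u⁻¹ * (u * (S * S) * u) = (u⁻¹ * u) * (S * S * u) := by simp only [Matrix.mul_assoc]
      _ = S * S * u := by rw [inv_mul' hu, Matrix.one_mul]
  have e2 : ((Y * (v - u) * S)ᴴ * (Y * (v - u) * S)).trace =
      (v⁻¹ * (u * (S * S) * u)).trace + (S * S * v).trace - (S * S * u).trace
        - (S * S * u).trace := by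
    have a1 : (Y * (v - u) * S)ᴴ = S * (v - u) * Y := by
      simp only [conjTranspose_mul, conjTranspose_sub, herm' hS, herm' hY, herm' hv, herm' hu,
        Matrix.mul_assoc]
    have a2 : S * (v - u) * Y * (Y * (v - u) * S) = S * ((v - u) * v⁻¹ * (v - u) * S) := by
      rw [← hYY]; simp only [Matrix.mul_assoc]
    have a3 : (v - u) * v⁻¹ * (v - u) = v - u - u + u * v⁻¹ * u := by
      have : (v - u) * v⁻¹ = 1 - u * v⁻¹ := by rw [Matrix.sub_mul, mul_inv' hv]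
      rw [this, Matrix.sub_mul, Matrix.one_mul, Matrix.mul_sub]
      have : u * v⁻¹ * v = u := by rw [Matrix.mul_assoc, inv_mul' hv, Matrix.mul_one]
      rw [this]
      abel
    rw [a1, a2, trace_mul_comm, a3]
    have a4 : (v - u - u + u * v⁻¹ * u) * S * S =
        v * (S * S) - u * (S * S) - u * (S * S) + u * v⁻¹ * u * (S * S) := by
      simp only [Matrix.add_mul, Matrix.sub_mul, Matrix.mul_assoc]
    rw [a4, trace_add, trace_sub, trace_sub, trace_mul_comm v, trace_mul_comm u]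
    have a5 : (u * v⁻¹ * u * (S * S)).trace = (v⁻¹ * (u * (S * S) * u)).trace := by
      rw [show u * v⁻¹ * u * (S * S) = u * (v⁻¹ * (u * (S * S))) by simp only [Matrix.mul_assoc],
        trace_mul_comm]
      simp only [Matrix.mul_assoc]
    rw [a5]
    ring
  have h1 := tr_re (Z := Y * (v - u) * S)
  rw [e2] at h1
  rw [e1]
  simp only [Complex.add_re, Complex.sub_re] at h1 ⊢
  refine ⟨by linarith [h1.1], fun h2 => ?_⟩
  have h3 := h1.2 (by linarith)
  have h4 : v - u = 0 := by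
    calc v - u = (Y⁻¹ * Y) * (v - u) * (S * S⁻¹) := by
          rw [inv_mul' hY, mul_inv' hS, Matrix.one_mul, Matrix.mul_one]
      _ = Y⁻¹ * (Y * (v - u) * S) * S⁻¹ := by simp only [Matrix.mul_assoc]
      _ = 0 := by rw [h3, Matrix.mul_zero, Matrix.zero_mul]
  exact sub_eq_zero.1 h4

theorem bar_unique {A u v : Mat m} (hA : A.PosDef) (hu : u.PosDef) (hv : v.PosDef)
    (h : u * A * u = v * A * v) : u = v :=
  (bar_min hA hv hu rfl).2 (bar_min hA hu hv h).1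

private theorem sq_le {X Y : Mat m} (hX : X.PosDef) (hY : Y.PosDef) (h : X * X ≤ Y * Y) :
    X ≤ Y := by
  have h1 := CFC.sqrt_le_sqrt _ _ h
  rwa [CFC.sqrt_mul_self X hX.posSemidef.nonneg, CFC.sqrt_mul_self Y hY.posSemidef.nonneg] at h1

private theorem conj_le {X Y S : Mat m} (hS : S.PosDef) (h : X ≤ Y) : S * X * S ≤ S * Y * S :=
  IsSelfAdjoint.conjugate_le_conjugate h hS.isHermitian

private theorem smul_pos' {A : Mat m} (hA : A.PosDef) {c : ℝ} (hc : 0 < c) : (c • A).PosDef :=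
  hA.smul hc

/-- Monotonicity. Let `t` be the largest generalised eigenvalue: `u₁ ≤ t u₂`, `(t u₂ - u₁) x = 0`,
`x ≠ 0`. Then `x^* B₁ x = x^* u₁ A₁ u₁ x = t² x^* u₂ A₁ u₂ x ≥ (t²/c) x^* B₂ x ≥ (t²/c²) x^* B₁ x`.
(Here by operator monotonicity of the square root.) -/
theorem bar_harnack {A₁ A₂ B₁ B₂ u₁ u₂ : Mat m} {c : ℝ} (hc : 0 < c) (hA₁ : A₁.PosDef)
    (hA₂ : A₂.PosDef) (hB₁ : B₁.PosDef) (hu₁ : u₁.PosDef) (hu₂ : u₂.PosDef)
    (h₁ : u₁ * A₁ * u₁ = B₁) (h₂ : u₂ * A₂ * u₂ = B₂) (hA : A₂ ≤ c • A₁) (hB : B₁ ≤ c • B₂) :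
    u₁ ≤ c • u₂ := by
  obtain ⟨S, hS, hSS⟩ := root' hA₂
  have k1 : S * u₁ * S * (S * u₁ * S) = S * (u₁ * A₂ * u₁) * S := by
    rw [← hSS]; simp only [Matrix.mul_assoc]
  have k2 : c • (S * u₂ * S) * (c • (S * u₂ * S)) = S * (c • (c • B₂)) * S := by
    rw [← h₂, ← hSS]
    simp only [Matrix.smul_mul, Matrix.mul_smul, Matrix.mul_assoc]
  have k3 : u₁ * A₂ * u₁ ≤ c • B₁ := by
    refine (conj_le hu₁ hA).trans_eq ?_
    rw [← h₁]
    simp only [Matrix.smul_mul, Matrix.mul_smul]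
  have k4 : u₁ * A₂ * u₁ ≤ c • (c • B₂) := k3.trans (smul_le_smul_of_nonneg_left hB hc.le)
  have k5 : S * u₁ * S ≤ c • (S * u₂ * S) := by
    refine sq_le (congr' hu₁ hS) (smul_pos' (congr' hu₂ hS) hc) ?_
    rw [k1, k2]
    exact conj_le hS k4
  have k6 := conj_le hS.inv k5
  have k7 : ∀ x : Mat m, S⁻¹ * (S * x * S) * S⁻¹ = x := fun x => by
    calc S⁻¹ * (S * x * S) * S⁻¹ = (S⁻¹ * S) * x * (S * S⁻¹) := by simp only [Matrix.mul_assoc]
      _ = x := by rw [inv_mul' hS, mul_inv' hS, Matrix.one_mul, Matrix.mul_one]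
  rw [Matrix.mul_smul, Matrix.smul_mul, k7, k7] at k6
  exact k6

/-- `A ≥ B⁻¹` implies `u ≤ B`. -/
theorem bar_le {A B u : Mat m} (hA : A.PosDef) (hB : B.PosDef) (hu : u.PosDef)
    (h : u * A * u = B) (hAB : B⁻¹ ≤ A) : u ≤ B := by
  have h2 : B * B⁻¹ * B = B := by rw [mul_inv' hB, Matrix.one_mul]
  have := bar_harnack (c := 1) one_pos hA hB.inv hB hu hB h h2 (by simpa using hAB) (by simp)
  simpa using this

private theorem ev_le {ι : Type} {F : Filter ι} {A : ι → Mat m} {A₀ : Mat m}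
    (hA : ∀ i, (A i).PosDef) (hA₀ : A₀.PosDef) (hAt : Tendsto A F (𝓝 A₀)) {c : ℝ} (hc : 1 < c) :
    ∀ᶠ i in F, A₀ ≤ c • A i ∧ A i ≤ c • A₀ := by
  rcases subsingleton_or_nontrivial (Mat m) with hm | hm
  · exact Eventually.of_forall fun i => ⟨(Subsingleton.elim _ _).le, (Subsingleton.elim _ _).le⟩
  have h1 : IsStrictlyPositive A₀ := hA₀.isStrictlyPositive
  obtain ⟨r, hr, hr_le⟩ : ∃ r > 0, (algebraMap ℝ (Mat m)) r ≤ A₀ :=
    (CFC.exists_pos_algebraMap_le_iff h1.isSelfAdjoint).2 fun x hx => h1.spectrum_pos hx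
  rw [Algebra.algebraMap_eq_smul_one] at hr_le
  have hc0 : 0 < c := by linarith
  have hδ : 0 < (c - 1) * r / c := div_pos (mul_pos (by linarith) hr) hc0
  have h2 := (Metric.tendsto_nhds.1 hAt) _ hδ
  filter_upwards [h2] with i hi
  rw [dist_eq_norm] at hi
  have s1 : IsSelfAdjoint (A i - A₀) := IsSelfAdjoint.sub (hA i).isHermitian hA₀.isHermitian
  have k1 : A i - A₀ ≤ ((c - 1) * r / c) • (1 : Mat m) := by
    refine (IsSelfAdjoint.le_algebraMap_norm_self s1).trans ?_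
    rw [Algebra.algebraMap_eq_smul_one]
    exact smul_le_smul_of_nonneg_right hi.le zero_le_one
  have k2 : A₀ - A i ≤ ((c - 1) * r / c) • (1 : Mat m) := by
    have := IsSelfAdjoint.neg_algebraMap_norm_le_self s1
    rw [neg_le] at this
    rw [show A₀ - A i = -(A i - A₀) by abel]
    refine this.trans ?_
    rw [Algebra.algebraMap_eq_smul_one]
    exact smul_le_smul_of_nonneg_right hi.le zero_le_one
  have k3 : (c - 1) • (r • (1 : Mat m)) ≤ (c - 1) • A₀ :=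
    smul_le_smul_of_nonneg_left hr_le (by linarith)
  constructor
  · have k4 : c • (A₀ - A i) ≤ c • (((c - 1) * r / c) • (1 : Mat m)) :=
      smul_le_smul_of_nonneg_left k2 hc0.le
    have k5 : c • (((c - 1) * r / c) • (1 : Mat m)) = (c - 1) • (r • (1 : Mat m)) := by
      rw [smul_smul, smul_smul]
      congr 1
      field_simp
    rw [k5] at k4
    have k6 := k4.trans k3
    rw [smul_sub, sub_smul, one_smul] at k6
    exact (sub_le_sub_iff_left _).1 k6
  · have k4 : ((c - 1) * r / c) • (1 : Mat m) ≤ (c - 1) • (r • (1 : Mat m)) := by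
      rw [smul_smul]
      refine smul_le_smul_of_nonneg_right ?_ zero_le_one
      rw [div_le_iff₀ hc0]
      have : 0 < (c - 1) * r := mul_pos (by linarith) hr
      nlinarith
    have k5 := (k1.trans k4).trans k3
    rw [sub_smul, one_smul] at k5
    exact (sub_le_sub_iff_right _).1 k5

/-- The solution depends continuously on `A`, `B` (along any filter). It is bounded and bounded
below by `bar_harnack`-type estimates, and every cluster point solves the limit equation; or use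
the formula of `exists_bar` and continuity of the square root. -/
theorem bar_tendsto {ι : Type} {F : Filter ι} {A B u : ι → Mat m} {A₀ B₀ u₀ : Mat m}
    (hA : ∀ i, (A i).PosDef) (hu : ∀ i, (u i).PosDef) (h : ∀ i, u i * A i * u i = B i)
    (hA₀ : A₀.PosDef) (hB₀ : B₀.PosDef) (hu₀ : u₀.PosDef) (h₀ : u₀ * A₀ * u₀ = B₀)
    (hAt : Tendsto A F (𝓝 A₀)) (hBt : Tendsto B F (𝓝 B₀)) : Tendsto u F (𝓝 u₀) := by
  have hB : ∀ i, (B i).PosDef := fun i => h i ▸ congr' (hA i) (hu i)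
  rw [Metric.tendsto_nhds]
  intro ε hε
  have hn : 0 ≤ ‖u₀‖ := norm_nonneg _
  have hd : 0 < ε / (6 * ‖u₀‖ + 1) := by positivity
  obtain ⟨η, hη, hη1, hη2⟩ : ∃ η : ℝ, 0 < η ∧ η ≤ 1 ∧ η ≤ ε / (6 * ‖u₀‖ + 1) :=
    ⟨min 1 (ε / (6 * ‖u₀‖ + 1)), lt_min one_pos hd, min_le_left _ _, min_le_right _ _⟩
  have hc : (1 : ℝ) < 1 + η := by linarith
  have hc0 : (0 : ℝ) < 1 + η := by linarith
  filter_upwards [ev_le hA hA₀ hAt hc, ev_le hB hB₀ hBt hc] with i h1 h2
  have k1 : u i ≤ (1 + η) • u₀ :=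
    bar_harnack hc0 (hA i) hA₀ (hB i) (hu i) hu₀ (h i) h₀ h1.1 h2.2
  have k2 : u₀ ≤ (1 + η) • u i :=
    bar_harnack hc0 hA₀ (hA i) hB₀ hu₀ (hu i) h₀ (h i) h1.2 h2.1
  have p0 : (0 : Mat m) ≤ u₀ := hu₀.posSemidef.nonneg
  have k3 : u₀ - u i ≤ (2 * η) • u₀ := by
    have e1 : u₀ - u i ≤ η • u i := by
      rw [sub_le_iff_le_add, add_comm]
      rwa [add_smul, one_smul] at k2
    have e2 : η • u i ≤ (2 * η) • u₀ := by
      refine (smul_le_smul_of_nonneg_left k1 hη.le).trans ?_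
      rw [smul_smul]
      exact smul_le_smul_of_nonneg_right (by nlinarith) p0
    exact e1.trans e2
  have k4 : u i - u₀ ≤ (2 * η) • u₀ := by
    rw [sub_le_iff_le_add]
    refine k1.trans ?_
    rw [add_smul, one_smul, add_comm]
    exact add_le_add_left (smul_le_smul_of_nonneg_right (by linarith) p0) _
  have k5 : 0 ≤ (u i - u₀) + (2 * η) • u₀ := by
    have := sub_nonneg.2 k3
    rwa [show (2 * η) • u₀ - (u₀ - u i) = (u i - u₀) + (2 * η) • u₀ by abel] at this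
  have k6 : (u i - u₀) + (2 * η) • u₀ ≤ (2 * η) • u₀ + (2 * η) • u₀ := add_le_add_left k4 _
  have k7 := CStarAlgebra.norm_le_norm_of_nonneg_of_le k5 k6
  have k8 : ‖(2 * η) • u₀‖ = 2 * η * ‖u₀‖ := by
    rw [norm_smul, Real.norm_of_nonneg (by linarith)]
  have k9 : ‖u i - u₀‖ ≤ 6 * η * ‖u₀‖ := by
    have e1 : ‖u i - u₀‖ ≤ ‖(u i - u₀) + (2 * η) • u₀‖ + ‖(2 * η) • u₀‖ := by
      calc ‖u i - u₀‖ = ‖((u i - u₀) + (2 * η) • u₀) - (2 * η) • u₀‖ := by rw [add_sub_cancel_right]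
        _ ≤ _ := norm_sub_le _ _
    have e2 := norm_add_le ((2 * η) • u₀) ((2 * η) • u₀)
    rw [k8] at e1 e2
    linarith
  rw [dist_eq_norm]
  refine k9.trans_lt ?_
  have k10 : η * (6 * ‖u₀‖ + 1) ≤ ε := (le_div_iff₀ (by positivity)).1 hη2
  nlinarith

end Pool.Agent.Lib.MP_5d4057_al.HM
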