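import Pool.Agent.Lib.MP_5d4057_al.HM.BarA

namespace Pool.Agent.Lib.MP_5d4057_al.HM.BarAux

open Matrix ComplexOrder Filter Topology
open scoped MatrixOrder Matrix.Norms.L2Operator

variable {m : Type*} [Fintype m] [DecidableEq m]

theorem smul_one_diagonal (c : ℝ) (d : m → ℝ) :
    diagonal (fun i => (d i : ℂ)) - c • (1 : Matrix m m ℂ) =
      diagonal (fun i => ((d i - c : ℝ) : ℂ)) := by
  ext i j
  by_cases hij : i = j
  · subst hij; simp
  · simp [hij]

theorem smul_one_le_diagonal {c : ℝ} {d : m → ℝ} :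
    c • (1 : Matrix m m ℂ) ≤ diagonal (fun i => (d i : ℂ)) ↔ ∀ i, c ≤ d i := by
  rw [Matrix.le_iff, smul_one_diagonal, posSemidef_diagonal_iff]
  refine forall_congr' fun i => ?_
  rw [← Complex.ofReal_zero, Complex.real_le_real, sub_nonneg]

theorem diagonal_le_smul_one {c : ℝ} {d : m → ℝ} :
    diagonal (fun i => (d i : ℂ)) ≤ c • (1 : Matrix m m ℂ) ↔ ∀ i, d i ≤ c := by
  have e : c • (1 : Matrix m m ℂ) - diagonal (fun i => (d i : ℂ)) =
      diagonal (fun i => ((c - d i : ℝ) : ℂ)) := by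
    rw [← neg_sub, smul_one_diagonal]
    ext i j
    by_cases hij : i = j
    · subst hij; simp
    · simp [hij]
  rw [Matrix.le_iff, e, posSemidef_diagonal_iff]
  refine forall_congr' fun i => ?_
  rw [← Complex.ofReal_zero, Complex.real_le_real, sub_nonneg]

theorem smul_conj (c : ℝ) (P a : Matrix m m ℂ) : c • (P * a * Pᴴ) = P * (c • a) * Pᴴ := by
  rw [Matrix.mul_smul, Matrix.smul_mul]

/-- Simultaneous diagonalisation and the order. -/
theorem diag_le_iff {P : Matrix m m ℂ} (hP : IsUnit P) {c : ℝ} {d : m → ℝ} :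
    P * diagonal (fun i => (d i : ℂ)) * Pᴴ ≤ c • (P * Pᴴ) ↔ ∀ i, d i ≤ c := by
  have : c • (P * Pᴴ) = P * (c • (1 : Matrix m m ℂ)) * Pᴴ := by
    rw [← smul_conj, Matrix.mul_one]
  rw [this, le_conj_iff hP, diagonal_le_smul_one]

theorem le_diag_iff {P : Matrix m m ℂ} (hP : IsUnit P) {c : ℝ} {d : m → ℝ} :
    P * Pᴴ ≤ c • (P * diagonal (fun i => (d i : ℂ)) * Pᴴ) ↔ ∀ i, 1 ≤ c * d i := by
  have h1 : P * Pᴴ = P * ((1 : ℝ) • (1 : Matrix m m ℂ)) * Pᴴ := by
    rw [one_smul, Matrix.mul_one]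
  have h2 : c • diagonal (fun i => (d i : ℂ)) = diagonal (fun i => ((c * d i : ℝ) : ℂ)) := by
    ext i j
    by_cases hij : i = j
    · subst hij; simp
    · simp [hij]
  rw [smul_conj, h1, le_conj_iff hP, h2, smul_one_le_diagonal]

theorem exists_lower {a : Matrix m m ℂ} (ha : a.PosDef) :
    ∃ δ : ℝ, 0 < δ ∧ δ • (1 : Matrix m m ℂ) ≤ a := by
  obtain ⟨P, d, hP, hd, h1, h2⟩ := simdiag PosDef.one ha
  obtain ⟨δ, hδ, hδd⟩ : ∃ δ : ℝ, 0 < δ ∧ ∀ i, δ ≤ d i := by
    rcases isEmpty_or_nonempty m with h | h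
    · exact ⟨1, one_pos, fun i => (h.false i).elim⟩
    · obtain ⟨i, hi⟩ := Finite.exists_min d
      exact ⟨d i, hd i, hi⟩
  refine ⟨δ, hδ, ?_⟩
  have e : δ • (1 : Matrix m m ℂ) = P * (δ • (1 : Matrix m m ℂ)) * Pᴴ := by
    rw [← smul_conj, Matrix.mul_one, ← h1]
  rw [e, h2, le_conj_iff hP, smul_one_le_diagonal]
  exact hδd

theorem herm_le_norm {a : Matrix m m ℂ} (ha : a.IsHermitian) :
    a ≤ ‖a‖ • (1 : Matrix m m ℂ) := by
  have h := IsSelfAdjoint.le_algebraMap_norm_self (a := a) ha.isSelfAdjoint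
  rwa [Algebra.algebraMap_eq_smul_one] at h

theorem real_smul_le {a b : Matrix m m ℂ} {c : ℝ} (hc : 0 ≤ c) (h : a ≤ b) : c • a ≤ c • b := by
  rw [Matrix.le_iff] at h ⊢
  rw [← smul_sub]
  have := h.smul (a := (c : ℂ)) (by exact_mod_cast hc)
  rwa [Complex.coe_smul] at this

theorem real_smul_le_smul {a : Matrix m m ℂ} {c d : ℝ} (ha : a.PosSemidef) (h : c ≤ d) :
    c • a ≤ d • a := by
  rw [Matrix.le_iff, ← sub_smul]
  have := ha.smul (a := ((d - c : ℝ) : ℂ)) (by exact_mod_cast sub_nonneg.2 h)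
  rwa [Complex.coe_smul] at this

/-- A Hermitian matrix near a positive definite one is comparable with constant near `1`. -/
theorem near {a : Matrix m m ℂ} (ha : a.PosDef) {ε : ℝ} (hε : 0 < ε) :
    ∃ η : ℝ, 0 < η ∧ ∀ b : Matrix m m ℂ, b.IsHermitian → ‖b - a‖ ≤ η →
      b ≤ (1 + ε) • a ∧ a ≤ (1 + ε) • b := by
  obtain ⟨δ, hδ, hle⟩ := exists_lower ha
  have hε1 : 0 < 1 + ε := by linarith
  refine ⟨δ * (ε / (1 + ε)), by positivity, fun b hb hn => ?_⟩
  have hη : ε / (1 + ε) ≤ ε := by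
    rw [div_le_iff₀ hε1]; nlinarith
  have key : ∀ c : Matrix m m ℂ, c.IsHermitian → ‖c‖ ≤ δ * (ε / (1 + ε)) →
      c ≤ (ε / (1 + ε)) • a := by
    intro c hc hcn
    calc c ≤ ‖c‖ • (1 : Matrix m m ℂ) := herm_le_norm hc
      _ ≤ (δ * (ε / (1 + ε))) • (1 : Matrix m m ℂ) := real_smul_le_smul PosSemidef.one hcn
      _ = (ε / (1 + ε)) • (δ • (1 : Matrix m m ℂ)) := by rw [smul_smul]; congr 1; ring
      _ ≤ (ε / (1 + ε)) • a := real_smul_le (by positivity) hle
  constructor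
  · have h1 := key (b - a) (hb.sub ha.1) hn
    have h2 : b ≤ a + (ε / (1 + ε)) • a := by
      have := add_le_add_right h1 a
      rwa [add_sub_cancel] at this
    refine h2.trans ?_
    have : a + (ε / (1 + ε)) • a = (1 + ε / (1 + ε)) • a := by rw [add_smul, one_smul]
    rw [this]
    exact real_smul_le_smul ha.posSemidef (by linarith)
  · have h1 := key (a - b) (ha.1.sub hb) (by rwa [norm_sub_rev])
    have h2 : (1 + ε) • (a - b) ≤ ε • a := by
      have := real_smul_le hε1.le h1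
      rwa [smul_smul, mul_div_cancel₀ _ hε1.ne'] at this
    have h3 : (1 + ε) • a - (1 + ε) • b ≤ ε • a := by rwa [← smul_sub]
    have h4 : (1 + ε) • a ≤ ε • a + (1 + ε) • b := sub_le_iff_le_add.1 h3
    have h5 : (1 + ε) • a = ε • a + a := by rw [add_smul, one_smul, add_comm]
    rw [h5] at h4
    exact le_of_add_le_add_left h4

theorem entry_near {u v : Matrix m m ℂ} (hu : u.PosDef) (hv : v.PosDef) {ε : ℝ} (hε : 0 < ε)
    (h1 : v ≤ (1 + ε) • u) (h2 : u ≤ (1 + ε) • v) (i j : m) :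
    ‖v i j - u i j‖ ≤ ε * (((u i i).re + (u j j).re) / 2) := by
  obtain ⟨P, d, hP, hd, rfl, rfl⟩ := simdiag hu hv
  rw [diag_le_iff hP] at h1
  rw [le_diag_iff hP] at h2
  have hdk : ∀ k, |d k - 1| ≤ ε := by
    intro k
    rw [abs_le]
    have a1 := h1 k
    have a2 := h2 k
    have a3 := hd k
    constructor
    · nlinarith
    · linarith
  have hii : ∀ i, ((P * Pᴴ) i i).re = ∑ k, ‖P i k‖ ^ 2 := by
    intro i
    rw [Matrix.mul_apply, Complex.re_sum]
    refine Finset.sum_congr rfl fun k _ => ?_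
    rw [conjTranspose_apply, RCLike.star_def, Complex.mul_conj, Complex.ofReal_re,
      Complex.normSq_eq_norm_sq]
  have hij : (P * diagonal (fun i => (d i : ℂ)) * Pᴴ) i j - (P * Pᴴ) i j =
      ∑ k, ((d k - 1 : ℝ) : ℂ) * (P i k * star (P j k)) := by
    rw [Matrix.mul_apply, Matrix.mul_apply, ← Finset.sum_sub_distrib]
    refine Finset.sum_congr rfl fun k _ => ?_
    rw [mul_diagonal, conjTranspose_apply]
    push_cast
    ring
  rw [hij, hii, hii, ← Finset.sum_add_distrib, Finset.sum_div, Finset.mul_sum]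
  refine (norm_sum_le _ _).trans (Finset.sum_le_sum fun k _ => ?_)
  rw [norm_mul, norm_mul, norm_star, Complex.norm_real, Real.norm_eq_abs]
  have h3 : ‖P i k‖ * ‖P j k‖ ≤ (‖P i k‖ ^ 2 + ‖P j k‖ ^ 2) / 2 := by
    nlinarith [sq_nonneg (‖P i k‖ - ‖P j k‖)]
  exact mul_le_mul (hdk k) h3 (by positivity) hε.le

end Pool.Agent.Lib.MP_5d4057_al.HM.BarAux
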