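import Pool.Agent.Lib.MP_5d4057_al.HM.Flow
import Pool.Agent.Lib.MP_5d4057_al.HM.Mx

namespace Pool.Agent.Lib.MP_5d4057_al.HM

open Matrix MeasureTheory Filter Topology Pool.Agent.Lib.MP_5d4057_al Pool.Agent.Lib.MP_5d4057_al.Hyb

open scoped ComplexOrder MatrixOrder Matrix.Norms.L2Operator

variable {n m : ℕ}

/-- The complex linear part of the derivative of a complex valued function. -/
noncomputable def dzc (f : Vec n → ℂ) (v ξ : Vec n) : ℂ :=
  (1 / 2 : ℂ) * (fderiv ℝ f v ξ - Complex.I * fderiv ℝ f v (Complex.I • ξ))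

section rules

/-- a real linear map applied to a complex multiple -/
private theorem real_lin (L : Vec n →L[ℝ] Mat m) (c : ℂ) (ξ : Vec n) :
    L (c • ξ) = (c.re : ℂ) • L ξ + (c.im : ℂ) • L (Complex.I • ξ) := by
  have h1 : c • ξ = c.re • ξ + c.im • (Complex.I • ξ) := by
    conv_lhs => rw [← Complex.re_add_im c]
    rw [add_smul, mul_smul]
    rfl
  rw [h1, map_add, map_smul, map_smul]
  rfl

private theorem I_smul_I_smul (L : Vec n →L[ℝ] Mat m) (ξ : Vec n) :
    L (Complex.I • Complex.I • ξ) = - L ξ := by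
  rw [smul_smul, Complex.I_mul_I, neg_one_smul, map_neg]

private theorem real_lin' (L : Vec n →L[ℝ] Mat m) (c : ℂ) (ξ : Vec n) :
    L (Complex.I • c • ξ) = (c.re : ℂ) • L (Complex.I • ξ) - (c.im : ℂ) • L ξ := by
  rw [smul_comm, real_lin, I_smul_I_smul, smul_neg, sub_eq_add_neg]

theorem fderiv_eq_dz_add (A : Vec n → Mat m) (v ξ : Vec n) :
    fderiv ℝ A v ξ = dz A v ξ + dzb A v ξ := by
  rw [dz, dzb]
  module

theorem dz_smul (A : Vec n → Mat m) (v ξ : Vec n) (c : ℂ) : dz A v (c • ξ) = c • dz A v ξ := by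
  rw [dz, dz, real_lin, real_lin']
  generalize (fderiv ℝ A v) ξ = X
  generalize (fderiv ℝ A v) (Complex.I • ξ) = Y
  have hc : c = (c.re : ℂ) + (c.im : ℂ) * Complex.I := (Complex.re_add_im c).symm
  generalize c.re = a at *
  generalize c.im = b at *
  rw [hc]
  match_scalars
  · ring
  · ring_nf; rw [Complex.I_sq]; ring

theorem dzb_smul (A : Vec n → Mat m) (v ξ : Vec n) (c : ℂ) :
    dzb A v (c • ξ) = star c • dzb A v ξ := by
  rw [dzb, dzb, real_lin, real_lin']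
  generalize (fderiv ℝ A v) ξ = X
  generalize (fderiv ℝ A v) (Complex.I • ξ) = Y
  have hc : star c = (c.re : ℂ) - (c.im : ℂ) * Complex.I := by
    apply Complex.ext <;> simp
  generalize c.re = a at *
  generalize c.im = b at *
  rw [hc]
  match_scalars
  · ring
  · ring_nf; rw [Complex.I_sq]; ring

theorem dz_add (A : Vec n → Mat m) (v ξ η : Vec n) : dz A v (ξ + η) = dz A v ξ + dz A v η := by
  rw [dz, dz, dz, smul_add Complex.I, map_add, map_add]
  module

theorem dzb_add (A : Vec n → Mat m) (v ξ η : Vec n) :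
    dzb A v (ξ + η) = dzb A v ξ + dzb A v η := by
  rw [dzb, dzb, dzb, smul_add Complex.I, map_add, map_add]
  module

private theorem fderiv_mul_mat {A B : Vec n → Mat m} {v : Vec n} (hA : DifferentiableAt ℝ A v)
    (hB : DifferentiableAt ℝ B v) (ξ : Vec n) :
    fderiv ℝ (fun w => A w * B w) v ξ = fderiv ℝ A v ξ * B v + A v * fderiv ℝ B v ξ := by
  have h := (hA.hasFDerivAt.mul' hB.hasFDerivAt).fderiv
  have h2 : (fun w => A w * B w) = A * B := rfl
  rw [h2, h]
  simp [add_comm]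

private theorem fderiv_inv_mat {A : Vec n → Mat m} {v : Vec n} (hA : DifferentiableAt ℝ A v)
    (hu : IsUnit (A v)) : HasFDerivAt (fun w => (A w)⁻¹)
      ((-(ContinuousLinearMap.mulLeftRight ℝ (Mat m) (A v)⁻¹ (A v)⁻¹)).comp (fderiv ℝ A v)) v := by
  obtain ⟨u, hu⟩ := hu
  have h1 : HasFDerivAt Ring.inverse
      (-ContinuousLinearMap.mulLeftRight ℝ (Mat m) ↑u⁻¹ ↑u⁻¹) (A v) := by
    rw [← hu]
    exact hasFDerivAt_ringInverse u
  have h2 := h1.comp v hA.hasFDerivAt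
  have h3 : (fun w => (A w)⁻¹) = Ring.inverse ∘ A := by
    funext w
    rw [Matrix.nonsing_inv_eq_ringInverse]
    rfl
  have h4 : ((u⁻¹ : (Mat m)ˣ) : Mat m) = (A v)⁻¹ := by
    rw [← hu]; simp
  rw [h3]
  rw [h4] at h2
  exact h2

theorem dz_mul {A B : Vec n → Mat m} {v : Vec n} (hA : DifferentiableAt ℝ A v)
    (hB : DifferentiableAt ℝ B v) (ξ : Vec n) :
    dz (fun w => A w * B w) v ξ = dz A v ξ * B v + A v * dz B v ξ := by
  rw [dz, dz, dz, fderiv_mul_mat hA hB, fderiv_mul_mat hA hB]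
  simp only [smul_mul_assoc, mul_smul_comm, sub_mul, mul_sub]
  module

theorem dzb_mul {A B : Vec n → Mat m} {v : Vec n} (hA : DifferentiableAt ℝ A v)
    (hB : DifferentiableAt ℝ B v) (ξ : Vec n) :
    dzb (fun w => A w * B w) v ξ = dzb A v ξ * B v + A v * dzb B v ξ := by
  rw [dzb, dzb, dzb, fderiv_mul_mat hA hB, fderiv_mul_mat hA hB]
  simp only [smul_mul_assoc, mul_smul_comm, add_mul, mul_add]
  module

theorem dz_inv {A : Vec n → Mat m} {v : Vec n} (hA : DifferentiableAt ℝ A v)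
    (hu : IsUnit (A v)) (ξ : Vec n) :
    dz (fun w => (A w)⁻¹) v ξ = -((A v)⁻¹ * dz A v ξ * (A v)⁻¹) := by
  rw [dz, dz, (fderiv_inv_mat hA hu).fderiv]
  simp only [_root_.neg_apply, ContinuousLinearMap.comp_apply,
    ContinuousLinearMap.mulLeftRight_apply, smul_mul_assoc, mul_smul_comm, sub_mul, mul_sub]
  module

theorem dzb_inv {A : Vec n → Mat m} {v : Vec n} (hA : DifferentiableAt ℝ A v)
    (hu : IsUnit (A v)) (ξ : Vec n) :
    dzb (fun w => (A w)⁻¹) v ξ = -((A v)⁻¹ * dzb A v ξ * (A v)⁻¹) := by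
  rw [dzb, dzb, (fderiv_inv_mat hA hu).fderiv]
  simp only [_root_.neg_apply, ContinuousLinearMap.comp_apply,
    ContinuousLinearMap.mulLeftRight_apply, smul_mul_assoc, mul_smul_comm, add_mul, mul_add]
  module

private theorem fderiv_trace_mat {A : Vec n → Mat m} {v : Vec n} (hA : DifferentiableAt ℝ A v)
    (ξ : Vec n) : fderiv ℝ (fun w => (A w).trace) v ξ = (fderiv ℝ A v ξ).trace := by
  have h := ((LinearMap.toContinuousLinearMap
    ((Matrix.traceLinearMap (Fin m) ℝ ℂ) : Mat m →ₗ[ℝ] ℂ)).hasFDerivAt.comp v hA.hasFDerivAt).fderiv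
  have h2 : (fun w => (A w).trace) = (LinearMap.toContinuousLinearMap
    ((Matrix.traceLinearMap (Fin m) ℝ ℂ) : Mat m →ₗ[ℝ] ℂ)) ∘ A := rfl
  rw [h2, h]
  rfl

theorem dzc_trace {A : Vec n → Mat m} {v : Vec n} (hA : DifferentiableAt ℝ A v) (ξ : Vec n) :
    dzc (fun w => (A w).trace) v ξ = (dz A v ξ).trace := by
  rw [dzc, dz, fderiv_trace_mat hA, fderiv_trace_mat hA, trace_smul, trace_sub, trace_smul,
    smul_eq_mul, smul_eq_mul]

private theorem diff_fderiv {A : Vec n → Mat m} {v : Vec n} (hA : ContDiffAt ℝ 2 A v) :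
    DifferentiableAt ℝ (fderiv ℝ A) v :=
  (hA.fderiv_right (m := 1) (by norm_num)).differentiableAt (by norm_num)

private theorem symm_two {A : Vec n → Mat m} {v : Vec n} (hA : ContDiffAt ℝ 2 A v) (ξ η : Vec n) :
    fderiv ℝ (fderiv ℝ A) v ξ η = fderiv ℝ (fderiv ℝ A) v η ξ :=
  (hA.isSymmSndFDerivAt (by simp)) ξ η

private theorem hasFDerivAt_apply {A : Vec n → Mat m} {v : Vec n} (hA : ContDiffAt ℝ 2 A v)
    (ξ : Vec n) : HasFDerivAt (fun w => fderiv ℝ A w ξ)
      ((fderiv ℝ (fderiv ℝ A) v).flip ξ) v := by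
  have h := (diff_fderiv hA).hasFDerivAt.clm_apply (hasFDerivAt_const ξ v)
  rw [ContinuousLinearMap.comp_zero, zero_add] at h
  exact h

private theorem hasFDerivAt_dz {A : Vec n → Mat m} {v : Vec n} (hA : ContDiffAt ℝ 2 A v)
    (ξ : Vec n) : HasFDerivAt (fun w => dz A w ξ)
      ((1 / 2 : ℂ) • ((fderiv ℝ (fderiv ℝ A) v).flip ξ -
        Complex.I • (fderiv ℝ (fderiv ℝ A) v).flip (Complex.I • ξ))) v :=
  ((hasFDerivAt_apply hA ξ).sub ((hasFDerivAt_apply hA (Complex.I • ξ)).const_smul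
    Complex.I)).const_smul (1 / 2 : ℂ)

private theorem hasFDerivAt_dzb {A : Vec n → Mat m} {v : Vec n} (hA : ContDiffAt ℝ 2 A v)
    (ξ : Vec n) : HasFDerivAt (fun w => dzb A w ξ)
      ((1 / 2 : ℂ) • ((fderiv ℝ (fderiv ℝ A) v).flip ξ +
        Complex.I • (fderiv ℝ (fderiv ℝ A) v).flip (Complex.I • ξ))) v :=
  ((hasFDerivAt_apply hA ξ).add ((hasFDerivAt_apply hA (Complex.I • ξ)).const_smul
    Complex.I)).const_smul (1 / 2 : ℂ)

private theorem fderiv_dz {A : Vec n → Mat m} {v : Vec n} (hA : ContDiffAt ℝ 2 A v)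
    (ξ η : Vec n) : fderiv ℝ (fun w => dz A w ξ) v η =
      (1 / 2 : ℂ) • (fderiv ℝ (fderiv ℝ A) v η ξ -
        Complex.I • fderiv ℝ (fderiv ℝ A) v η (Complex.I • ξ)) := by
  rw [(hasFDerivAt_dz hA ξ).fderiv]
  rfl

private theorem fderiv_dzb {A : Vec n → Mat m} {v : Vec n} (hA : ContDiffAt ℝ 2 A v)
    (ξ η : Vec n) : fderiv ℝ (fun w => dzb A w ξ) v η =
      (1 / 2 : ℂ) • (fderiv ℝ (fderiv ℝ A) v η ξ +
        Complex.I • fderiv ℝ (fderiv ℝ A) v η (Complex.I • ξ)) := by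
  rw [(hasFDerivAt_dzb hA ξ).fderiv]
  rfl

theorem dz_dzb {A : Vec n → Mat m} {v : Vec n} (hA : ContDiffAt ℝ 2 A v) (ξ η : Vec n) :
    dz (fun w => dzb A w η) v ξ = dzb (fun w => dz A w ξ) v η := by
  rw [dz, dzb, fderiv_dzb hA, fderiv_dzb hA, fderiv_dz hA, fderiv_dz hA, symm_two hA η ξ,
    symm_two hA η (Complex.I • ξ), symm_two hA (Complex.I • η) ξ,
    symm_two hA (Complex.I • η) (Complex.I • ξ)]
  module

theorem dz_dz {A : Vec n → Mat m} {v : Vec n} (hA : ContDiffAt ℝ 2 A v) (ξ η : Vec n) :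
    dz (fun w => dz A w η) v ξ = dz (fun w => dz A w ξ) v η := by
  rw [dz, dz, fderiv_dz hA, fderiv_dz hA, fderiv_dz hA, fderiv_dz hA, symm_two hA η ξ,
    symm_two hA η (Complex.I • ξ), symm_two hA (Complex.I • η) ξ,
    symm_two hA (Complex.I • η) (Complex.I • ξ)]
  module

private noncomputable def ctL : Mat m →L[ℝ] Mat m :=
  LinearMap.toContinuousLinearMap
    { toFun := fun A => Aᴴ
      map_add' := fun A B => conjTranspose_add A B
      map_smul' := fun c A => by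
        show ((c : ℂ) • A)ᴴ = (c : ℂ) • Aᴴ
        rw [conjTranspose_smul]
        simp }

private theorem ctL_apply (A : Mat m) : ctL A = Aᴴ := rfl

private theorem fderiv_herm {A : Vec n → Mat m} (hA : ∀ w ∈ Cone n, (A w).IsHermitian) {v : Vec n}
    (hv : v ∈ Cone n) (hd : DifferentiableAt ℝ A v) (ξ : Vec n) :
    (fderiv ℝ A v ξ)ᴴ = fderiv ℝ A v ξ := by
  have h1 : HasFDerivAt (ctL ∘ A) (ctL.comp (fderiv ℝ A v)) v :=
    ctL.hasFDerivAt.comp v hd.hasFDerivAt
  have h2 : (ctL ∘ A) =ᶠ[𝓝 v] A := by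
    filter_upwards [(isOpen_cone n).mem_nhds hv] with w hw
    exact hA w hw
  have h3 := (h1.congr_of_eventuallyEq h2.symm).fderiv
  have h4 := congrArg (fun L : Vec n →L[ℝ] Mat m => L ξ) h3
  exact h4.symm

/-- Derivatives of the adjoint. -/
theorem dz_conj {A : Vec n → Mat m} (hA : ∀ w ∈ Cone n, (A w).IsHermitian) {v : Vec n}
    (hv : v ∈ Cone n) (hd : DifferentiableAt ℝ A v) (ξ : Vec n) : (dz A v ξ)ᴴ = dzb A v ξ := by
  rw [dz, dzb, conjTranspose_smul, conjTranspose_sub, conjTranspose_smul, fderiv_herm hA hv hd,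
    fderiv_herm hA hv hd]
  simp only [RCLike.star_def, map_div₀, map_one, Complex.conj_I, map_ofNat]
  module

/-- Homogeneity. -/
theorem dz_self {A : Vec n → Mat m} (hA : Homog A) {v : Vec n} (hv : v ∈ Cone n)
    (hd : DifferentiableAt ℝ A v) : dz A v v = 0 ∧ dzb A v v = 0 := by
  have h1 := homog_fderiv hA hv hd 1
  have h2 := homog_fderiv hA hv hd Complex.I
  rw [one_smul] at h1
  rw [dz, dzb, h1, h2]
  simp

private theorem single_I (i : Fin (n + 1)) :
    (Pi.single i Complex.I : Vec n) = Complex.I • (Pi.single i 1 : Vec n) := by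
  rw [← Pi.single_smul, smul_eq_mul, mul_one]

private theorem J_re (i : Fin (n + 1)) : (((J n i i).re : ℝ) : ℂ) = J n i i := by
  rw [J, diagonal_apply_eq]
  split_ifs <;> simp

/-- The Laplacian and the energy in terms of `dz`, `dzb`. -/
theorem lap_eq_dz {A : Vec n → Mat m} {v : Vec n} (hA : ContDiffAt ℝ 2 A v) :
    Lap A v = (-q v : ℂ) • ∑ i : Fin (n + 1), J n i i •
      dzb (fun w => dz A w (Pi.single i 1)) v (Pi.single i 1) := by
  rw [Lap, Finset.smul_sum, Finset.smul_sum]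
  refine Finset.sum_congr rfl fun i _ => ?_
  rw [dzb, fderiv_dz hA, fderiv_dz hA, single_I, ← J_re,
    symm_two hA (Complex.I • Pi.single i 1) (Pi.single i 1)]
  generalize (J n i i).re = r
  generalize fderiv ℝ (fderiv ℝ A) v (Pi.single i 1) (Pi.single i 1) = X
  generalize fderiv ℝ (fderiv ℝ A) v (Complex.I • Pi.single i 1) (Complex.I • Pi.single i 1) = Y
  generalize fderiv ℝ (fderiv ℝ A) v (Pi.single i 1) (Complex.I • Pi.single i 1) = Z
  rw [← Complex.coe_smul, ← Complex.coe_smul]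
  push_cast
  match_scalars
  · ring
  · ring_nf; rw [Complex.I_sq]; ring
  · ring

theorem en_eq_dz (A : Vec n → Mat m) (v : Vec n) :
    en A v = (-q v / 2 : ℂ) • ∑ i : Fin (n + 1), J n i i •
      (dz A v (Pi.single i 1) * (A v)⁻¹ * dzb A v (Pi.single i 1) +
        dzb A v (Pi.single i 1) * (A v)⁻¹ * dz A v (Pi.single i 1)) := by
  rw [en, Finset.smul_sum, Finset.smul_sum]
  refine Finset.sum_congr rfl fun i _ => ?_
  rw [dz, dzb, single_I, ← J_re]
  generalize (J n i i).re = r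
  generalize fderiv ℝ A v (Pi.single i 1) = X
  generalize fderiv ℝ A v (Complex.I • Pi.single i 1) = Y
  rw [← Complex.coe_smul, ← Complex.coe_smul]
  push_cast
  simp only [smul_mul_assoc, mul_smul_comm, add_mul, mul_add, sub_mul, mul_sub, smul_add, smul_sub,
    smul_smul]
  match_scalars
  · ring
  · ring_nf; rw [Complex.I_sq]; ring
  · ring
  · ring

end rules

/-- `θ = (1/2) F⁻¹ ∂F`. -/
noncomputable def thz (F : Vec n → Mat m) (v ξ : Vec n) : Mat m := (1 / 2 : ℂ) • ((F v)⁻¹ * dz F v ξ)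

/-- `θ̄ = (1/2) F⁻¹ ∂̄F`. -/
noncomputable def thb (F : Vec n → Mat m) (v ξ : Vec n) : Mat m := (1 / 2 : ℂ) • ((F v)⁻¹ * dzb F v ξ)

/-- `τ[ξ,η] = (1/2) F⁻¹ (∂̄_η ∂_ξ F - (1/2) (∂̄_η F F⁻¹ ∂_ξ F + ∂_ξ F F⁻¹ ∂̄_η F))`. -/
noncomputable def tau (F : Vec n → Mat m) (v ξ η : Vec n) : Mat m :=
  (1 / 2 : ℂ) • ((F v)⁻¹ * (dzb (fun w => dz F w ξ) v η -
    (1 / 2 : ℂ) • (dzb F v η * (F v)⁻¹ * dz F v ξ + dz F v ξ * (F v)⁻¹ * dzb F v η)))

/-- The trace of `τ`. -/
noncomputable def tauT (F : Vec n → Mat m) (v : Vec n) : Mat m :=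
  (-q v : ℂ) • ∑ i : Fin (n + 1), J n i i • tau F v (Pi.single i 1) (Pi.single i 1)

/-- The `(0,1)`-form `Y` (blueprint E8). -/
noncomputable def Yf (F : Vec n → Mat m) (v η : Vec n) : ℂ :=
  (-q v : ℂ) * ∑ i : Fin (n + 1), J n i i *
      (tau F v (Pi.single i 1) η * thb F v (Pi.single i 1)).trace -
    (tauT F v * thb F v η).trace

section relations

variable {F : Vec n → Mat m} {v : Vec n}

private theorem diff_inv (hF : ContDiffAt ℝ 2 F v) (hu : IsUnit (F v)) :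
    DifferentiableAt ℝ (fun w => (F w)⁻¹) v :=
  (fderiv_inv_mat (hF.differentiableAt (by norm_num)) hu).differentiableAt

private theorem diff_mul {A B : Vec n → Mat m} (hA : DifferentiableAt ℝ A v)
    (hB : DifferentiableAt ℝ B v) : DifferentiableAt ℝ (fun w => A w * B w) v :=
  (hA.hasFDerivAt.mul' hB.hasFDerivAt).differentiableAt

private theorem dz_const_smul {A : Vec n → Mat m} (hA : DifferentiableAt ℝ A v) (c : ℂ)
    (ξ : Vec n) : dz (fun w => c • A w) v ξ = c • dz A v ξ := by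
  have h := (hA.hasFDerivAt.const_smul c).fderiv
  have h2 : (fun w => c • A w) = c • A := rfl
  rw [dz, dz, h2, h]
  simp only [_root_.smul_apply]
  module

private theorem dzb_const_smul {A : Vec n → Mat m} (hA : DifferentiableAt ℝ A v) (c : ℂ)
    (ξ : Vec n) : dzb (fun w => c • A w) v ξ = c • dzb A v ξ := by
  have h := (hA.hasFDerivAt.const_smul c).fderiv
  have h2 : (fun w => c • A w) = c • A := rfl
  rw [dzb, dzb, h2, h]
  simp only [_root_.smul_apply]
  module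

/-- `∂_ξ P + [θ_ξ, P]` for `P = θ_η` is symmetric in `ξ`, `η`. -/
theorem N_thz (hF : ContDiffAt ℝ 2 F v) (hu : IsUnit (F v)) (ξ η : Vec n) :
    dz (fun w => thz F w η) v ξ + (thz F v ξ * thz F v η - thz F v η * thz F v ξ) =
      dz (fun w => thz F w ξ) v η + (thz F v η * thz F v ξ - thz F v ξ * thz F v η) := by
  have h1 : ∀ ξ η : Vec n, dz (fun w => thz F w η) v ξ =
      (1 / 2 : ℂ) • (-((F v)⁻¹ * dz F v ξ * (F v)⁻¹) * dz F v η +
        (F v)⁻¹ * dz (fun w => dz F w η) v ξ) := by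
    intro ξ η
    have h2 : (fun w => thz F w η) = fun w => (1 / 2 : ℂ) • ((F w)⁻¹ * dz F w η) := rfl
    rw [h2, dz_const_smul (diff_mul (diff_inv hF hu) (hasFDerivAt_dz hF η).differentiableAt),
      dz_mul (diff_inv hF hu) (hasFDerivAt_dz hF η).differentiableAt,
      dz_inv (hF.differentiableAt (by norm_num)) hu]
  rw [h1, h1, dz_dz hF ξ η, thz, thz]
  simp only [smul_mul_assoc, mul_smul_comm, smul_add, neg_mul, mul_assoc]
  module

theorem Nb_thz (hF : ContDiffAt ℝ 2 F v) (hu : IsUnit (F v)) (ξ η : Vec n) :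
    dzb (fun w => thz F w ξ) v η + (thb F v η * thz F v ξ - thz F v ξ * thb F v η) =
      tau F v ξ η := by
  have h1 : dzb (fun w => thz F w ξ) v η =
      (1 / 2 : ℂ) • (-((F v)⁻¹ * dzb F v η * (F v)⁻¹) * dz F v ξ +
        (F v)⁻¹ * dzb (fun w => dz F w ξ) v η) := by
    have h2 : (fun w => thz F w ξ) = fun w => (1 / 2 : ℂ) • ((F w)⁻¹ * dz F w ξ) := rfl
    rw [h2, dzb_const_smul (diff_mul (diff_inv hF hu) (hasFDerivAt_dz hF ξ).differentiableAt),
      dzb_mul (diff_inv hF hu) (hasFDerivAt_dz hF ξ).differentiableAt,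
      dzb_inv (hF.differentiableAt (by norm_num)) hu]
  rw [h1, thz, thb, tau]
  simp only [smul_mul_assoc, mul_smul_comm, smul_add, neg_mul, mul_assoc, mul_sub, mul_add]
  module

theorem N_thb (hF : ContDiffAt ℝ 2 F v) (hu : IsUnit (F v)) (ξ η : Vec n) :
    dz (fun w => thb F w η) v ξ + (thz F v ξ * thb F v η - thb F v η * thz F v ξ) =
      tau F v ξ η := by
  have h1 : dz (fun w => thb F w η) v ξ =
      (1 / 2 : ℂ) • (-((F v)⁻¹ * dz F v ξ * (F v)⁻¹) * dzb F v η +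
        (F v)⁻¹ * dz (fun w => dzb F w η) v ξ) := by
    have h2 : (fun w => thb F w η) = fun w => (1 / 2 : ℂ) • ((F w)⁻¹ * dzb F w η) := rfl
    rw [h2, dz_const_smul (diff_mul (diff_inv hF hu) (hasFDerivAt_dzb hF η).differentiableAt),
      dz_mul (diff_inv hF hu) (hasFDerivAt_dzb hF η).differentiableAt,
      dz_inv (hF.differentiableAt (by norm_num)) hu]
  rw [h1, dz_dzb hF ξ η, thz, thb, tau]
  simp only [smul_mul_assoc, mul_smul_comm, smul_add, neg_mul, mul_assoc, mul_sub, mul_add]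
  module

/-- The trace of `τ` is half of `F⁻¹ (Lap F - en F)`. -/
theorem tauT_eq (hF : ContDiffAt ℝ 2 F v) :
    tauT F v = (1 / 2 : ℂ) • ((F v)⁻¹ * (Lap F v - en F v)) := by
  rw [lap_eq_dz hF, en_eq_dz, tauT, Finset.smul_sum, Finset.smul_sum, Finset.smul_sum,
    ← Finset.sum_sub_distrib, Finset.mul_sum, Finset.smul_sum]
  refine Finset.sum_congr rfl fun i _ => ?_
  rw [tau]
  simp only [mul_smul_comm, smul_add, mul_assoc, mul_sub, mul_add, smul_sub, smul_smul]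
  module

theorem tau_self (hF : Homog F) (hv : v ∈ Cone n) (hF2 : ContDiffOn ℝ 2 F (Cone n)) (ξ : Vec n) :
    tau F v ξ v = 0 ∧ tau F v v ξ = 0 ∧ thz F v v = 0 ∧ thb F v v = 0 := by
  have hF2v := hF2.contDiffAt ((isOpen_cone n).mem_nhds hv)
  have hd : ∀ᶠ w in 𝓝 v, DifferentiableAt ℝ F w ∧ w ∈ Cone n := by
    filter_upwards [(isOpen_cone n).mem_nhds hv] with w hw
    exact ⟨(hF2.contDiffAt ((isOpen_cone n).mem_nhds hw)).differentiableAt (by norm_num), hw⟩
  obtain ⟨h1, h2⟩ := dz_self hF hv (hF2v.differentiableAt (by norm_num))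
  -- second derivatives in the direction of the fibre
  have key : ∀ (c : ℂ) (η : Vec n), fderiv ℝ (fderiv ℝ F) v η (c • v) = - fderiv ℝ F v (c • η) := by
    intro c η
    have hL : HasFDerivAt (fun u : Vec n => c • u) (c • ContinuousLinearMap.id ℝ (Vec n)) v :=
      (hasFDerivAt_id v).const_smul c
    have h3 : HasFDerivAt (fun u => fderiv ℝ F u (c • u))
        ((fderiv ℝ F v).comp (c • ContinuousLinearMap.id ℝ (Vec n)) +
          (fderiv ℝ (fderiv ℝ F) v).flip (c • v)) v :=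
      (diff_fderiv hF2v).hasFDerivAt.clm_apply hL
    have hev : (fun u => fderiv ℝ F u (c • u)) =ᶠ[𝓝 v] fun _ => 0 := by
      filter_upwards [hd] with u hu
      exact homog_fderiv hF hu.2 hu.1 c
    have h4 : HasFDerivAt (fun u => fderiv ℝ F u (c • u)) (0 : Vec n →L[ℝ] Mat m) v :=
      (hasFDerivAt_const (0 : Mat m) v).congr_of_eventuallyEq hev
    have h5 := congrArg (fun A : Vec n →L[ℝ] Mat m => A η) (h3.unique h4)
    have h6 : fderiv ℝ F v (c • η) + fderiv ℝ (fderiv ℝ F) v η (c • v) = 0 := h5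
    exact (neg_eq_of_add_eq_zero_right h6).symm
  have k1 : ∀ η : Vec n, fderiv ℝ (fderiv ℝ F) v η v = - fderiv ℝ F v η := by
    intro η
    have := key 1 η
    rwa [one_smul, one_smul] at this
  have h3 : ∀ ξ, dzb (fun w => dz F w ξ) v v = 0 := by
    intro ξ
    rw [dzb, fderiv_dz hF2v, fderiv_dz hF2v, symm_two hF2v v, symm_two hF2v v,
      symm_two hF2v (Complex.I • v), symm_two hF2v (Complex.I • v), k1, k1, key, key]
    rw [I_smul_I_smul]
    match_scalars
    · ring_nf; rw [Complex.I_sq]; ring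
    · ring_nf
  have h4 : ∀ ξ, dzb (fun w => dz F w v) v ξ = 0 := by
    intro ξ
    rw [dzb, fderiv_dz hF2v, fderiv_dz hF2v, k1, k1, key, key, I_smul_I_smul]
    match_scalars
    · ring_nf; rw [Complex.I_sq]; ring
    · ring_nf
  refine ⟨?_, ?_, ?_, ?_⟩
  · rw [tau, h3, h2]; simp
  · rw [tau, h4, h1]; simp
  · rw [thz, h1]; simp
  · rw [thb, h2]; simp

end relations

namespace BochAux

variable {A : Vec n → Mat m} {v : Vec n}

/-- public forms of the auxiliary rules -/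
theorem fderiv_mul_mat {B : Vec n → Mat m} (hA : DifferentiableAt ℝ A v)
    (hB : DifferentiableAt ℝ B v) (ξ : Vec n) :
    fderiv ℝ (fun w => A w * B w) v ξ = fderiv ℝ A v ξ * B v + A v * fderiv ℝ B v ξ :=
  HM.fderiv_mul_mat hA hB ξ

theorem diff_mul {B : Vec n → Mat m} (hA : DifferentiableAt ℝ A v)
    (hB : DifferentiableAt ℝ B v) : DifferentiableAt ℝ (fun w => A w * B w) v :=
  HM.diff_mul hA hB

theorem diff_inv (hA : DifferentiableAt ℝ A v) (hu : IsUnit (A v)) :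
    DifferentiableAt ℝ (fun w => (A w)⁻¹) v :=
  (HM.fderiv_inv_mat hA hu).differentiableAt

theorem fderiv_dz (hA : ContDiffAt ℝ 2 A v) (ξ η : Vec n) :
    fderiv ℝ (fun w => dz A w ξ) v η = (1 / 2 : ℂ) • (fderiv ℝ (fderiv ℝ A) v η ξ -
      Complex.I • fderiv ℝ (fderiv ℝ A) v η (Complex.I • ξ)) := HM.fderiv_dz hA ξ η

theorem fderiv_dzb (hA : ContDiffAt ℝ 2 A v) (ξ η : Vec n) :
    fderiv ℝ (fun w => dzb A w ξ) v η = (1 / 2 : ℂ) • (fderiv ℝ (fderiv ℝ A) v η ξ +
      Complex.I • fderiv ℝ (fderiv ℝ A) v η (Complex.I • ξ)) := HM.fderiv_dzb hA ξ η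

theorem diff_dz (hA : ContDiffAt ℝ 2 A v) (ξ : Vec n) :
    DifferentiableAt ℝ (fun w => dz A w ξ) v := (hasFDerivAt_dz hA ξ).differentiableAt

theorem diff_dzb (hA : ContDiffAt ℝ 2 A v) (ξ : Vec n) :
    DifferentiableAt ℝ (fun w => dzb A w ξ) v := (hasFDerivAt_dzb hA ξ).differentiableAt

theorem dz_const_smul (hA : DifferentiableAt ℝ A v) (c : ℂ)
    (ξ : Vec n) : dz (fun w => c • A w) v ξ = c • dz A v ξ := HM.dz_const_smul hA c ξ

theorem dzb_const_smul (hA : DifferentiableAt ℝ A v) (c : ℂ)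
    (ξ : Vec n) : dzb (fun w => c • A w) v ξ = c • dzb A v ξ := HM.dzb_const_smul hA c ξ

end BochAux

end Pool.Agent.Lib.MP_5d4057_al.HM
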