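import Pool.Agent.Lib.MP_5d4057_al.HM.BochAlg

/-!
From an action of the real Lie algebra `gl (n + 1, ℂ)` by derivations to the hypotheses of the
Bochner identity.
-/

set_option autoImplicit false

namespace Pool.Agent.Lib.MP_5d4057_al.HM

open Finset Matrix

/-- `gl (n + 1, ℂ)`, as a real Lie algebra, acts on the complex algebra `R` by derivations. -/
structure Act {R : Type*} [Ring R] [Algebra ℂ R] {n : ℕ}
    (D : Matrix (Fin (n + 1)) (Fin (n + 1)) ℂ → R → R) : Prop where
  der : ∀ X, IsDer (D X)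
  smul : ∀ X (c : ℂ) f, D X (c • f) = c • D X f
  add : ∀ X Y f, D (X + Y) f = D X f + D Y f
  rsmul : ∀ (t : ℝ) X f, D ((t : ℂ) • X) f = (t : ℂ) • D X f
  comm : ∀ X Y f, D X (D Y f) - D Y (D X f) = D (X * Y - Y * X) f

section

variable {R : Type*} [Ring R] [Algebra ℂ R] {n : ℕ}
  {D : Matrix (Fin (n + 1)) (Fin (n + 1)) ℂ → R → R}

/-- the holomorphic part -/
noncomputable def hol (D : Matrix (Fin (n + 1)) (Fin (n + 1)) ℂ → R → R)
    (X : Matrix (Fin (n + 1)) (Fin (n + 1)) ℂ) (f : R) : R :=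
  (1 / 2 : ℂ) • (D X f - Complex.I • D (Complex.I • X) f)

/-- the antiholomorphic part -/
noncomputable def ahol (D : Matrix (Fin (n + 1)) (Fin (n + 1)) ℂ → R → R)
    (X : Matrix (Fin (n + 1)) (Fin (n + 1)) ℂ) (f : R) : R :=
  (1 / 2 : ℂ) • (D X f + Complex.I • D (Complex.I • X) f)

variable (hD : Act D)

include hD

theorem Act.neg (X : Matrix (Fin (n + 1)) (Fin (n + 1)) ℂ) (f : R) : D (-X) f = -D X f := by
  have h := hD.rsmul (-1) X f
  simpa using h

theorem Act.zero (f : R) : D 0 f = 0 := by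
  have h := hD.rsmul 0 0 f
  simpa using h

theorem Act.sub (X Y : Matrix (Fin (n + 1)) (Fin (n + 1)) ℂ) (f : R) :
    D (X - Y) f = D X f - D Y f := by
  rw [sub_eq_add_neg, hD.add, hD.neg, ← sub_eq_add_neg]

theorem Act.derHol (X : Matrix (Fin (n + 1)) (Fin (n + 1)) ℂ) : IsDer (hol D X) where
  add a b := by
    simp only [hol, (hD.der _).add, smul_add, smul_sub]
    abel
  mul a b := by
    simp only [hol, (hD.der _).mul, smul_add, smul_sub, smul_mul_assoc, mul_smul_comm, sub_mul,
      mul_sub]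
    abel

theorem Act.derAhol (X : Matrix (Fin (n + 1)) (Fin (n + 1)) ℂ) : IsDer (ahol D X) where
  add a b := by
    simp only [ahol, (hD.der _).add, smul_add]
    abel
  mul a b := by
    simp only [ahol, (hD.der _).mul, smul_add, smul_mul_assoc, mul_smul_comm, add_mul, mul_add]
    abel

theorem Act.hol_add (X Y : Matrix (Fin (n + 1)) (Fin (n + 1)) ℂ) (f : R) :
    hol D (X + Y) f = hol D X f + hol D Y f := by
  simp only [hol, smul_add, hD.add, smul_sub]
  abel

theorem Act.ahol_add (X Y : Matrix (Fin (n + 1)) (Fin (n + 1)) ℂ) (f : R) :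
    ahol D (X + Y) f = ahol D X f + ahol D Y f := by
  simp only [ahol, smul_add, hD.add]
  abel

theorem Act.hol_neg (X : Matrix (Fin (n + 1)) (Fin (n + 1)) ℂ) (f : R) :
    hol D (-X) f = -hol D X f := by
  simp only [hol, smul_neg, hD.neg, sub_neg_eq_add, smul_sub]
  rw [smul_add, smul_neg]
  abel

theorem Act.ahol_neg (X : Matrix (Fin (n + 1)) (Fin (n + 1)) ℂ) (f : R) :
    ahol D (-X) f = -ahol D X f := by
  simp only [ahol, smul_neg, hD.neg, smul_add]
  abel

theorem Act.hol_hol (X Y : Matrix (Fin (n + 1)) (Fin (n + 1)) ℂ) (f : R) :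
    hol D X (hol D Y f) - hol D Y (hol D X f) = hol D (X * Y - Y * X) f := by
  have h1 := hD.comm X Y f
  have h2 := hD.comm X (Complex.I • Y) f
  have h3 := hD.comm (Complex.I • X) Y f
  have h4 := hD.comm (Complex.I • X) (Complex.I • Y) f
  rw [mul_smul_comm, smul_mul_assoc, ← smul_sub] at h2
  rw [mul_smul_comm, smul_mul_assoc, ← smul_sub] at h3
  rw [mul_smul_comm, smul_mul_assoc, mul_smul_comm, smul_mul_assoc, ← smul_sub, ← smul_sub,
    smul_smul, Complex.I_mul_I, neg_one_smul, hD.neg] at h4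
  simp only [hol, hD.smul, (hD.der _).sub]
  have e : (1 / 2 : ℂ) • (D (X * Y - Y * X) f - Complex.I • D (Complex.I • (X * Y - Y * X)) f) =
      (1 / 4 : ℂ) • (D (X * Y - Y * X) f - Complex.I • D (Complex.I • (X * Y - Y * X)) f -
        Complex.I • D (Complex.I • (X * Y - Y * X)) f - (-D (X * Y - Y * X) f)) := by
    module
  rw [e]
  nth_rewrite 1 [← h1]
  nth_rewrite 1 [← h2]
  nth_rewrite 1 [← h3]
  rw [← h4]
  simp only [smul_sub]
  match_scalars <;> first | ring1 | linear_combination (1 / 4 : ℂ) * Complex.I_sq | linear_combination (-1 / 4 : ℂ) * Complex.I_sq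

theorem Act.ahol_ahol (X Y : Matrix (Fin (n + 1)) (Fin (n + 1)) ℂ) (f : R) :
    ahol D X (ahol D Y f) - ahol D Y (ahol D X f) = ahol D (X * Y - Y * X) f := by
  have h1 := hD.comm X Y f
  have h2 := hD.comm X (Complex.I • Y) f
  have h3 := hD.comm (Complex.I • X) Y f
  have h4 := hD.comm (Complex.I • X) (Complex.I • Y) f
  rw [mul_smul_comm, smul_mul_assoc, ← smul_sub] at h2
  rw [mul_smul_comm, smul_mul_assoc, ← smul_sub] at h3
  rw [mul_smul_comm, smul_mul_assoc, mul_smul_comm, smul_mul_assoc, ← smul_sub, ← smul_sub,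
    smul_smul, Complex.I_mul_I, neg_one_smul, hD.neg] at h4
  simp only [ahol, hD.smul, (hD.der _).add]
  have e : (1 / 2 : ℂ) • (D (X * Y - Y * X) f + Complex.I • D (Complex.I • (X * Y - Y * X)) f) =
      (1 / 4 : ℂ) • (D (X * Y - Y * X) f + Complex.I • D (Complex.I • (X * Y - Y * X)) f +
        Complex.I • D (Complex.I • (X * Y - Y * X)) f - (-D (X * Y - Y * X) f)) := by
    module
  rw [e]
  nth_rewrite 1 [← h1]
  nth_rewrite 1 [← h2]
  nth_rewrite 1 [← h3]
  rw [← h4]
  simp only [smul_sub, smul_add]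
  match_scalars <;> first | ring1 | linear_combination (1 / 4 : ℂ) * Complex.I_sq | linear_combination (-1 / 4 : ℂ) * Complex.I_sq

theorem Act.hol_ahol (X Y : Matrix (Fin (n + 1)) (Fin (n + 1)) ℂ) (f : R) :
    hol D X (ahol D Y f) = ahol D Y (hol D X f) := by
  have h1 := hD.comm X Y f
  have h2 := hD.comm X (Complex.I • Y) f
  have h3 := hD.comm (Complex.I • X) Y f
  have h4 := hD.comm (Complex.I • X) (Complex.I • Y) f
  rw [mul_smul_comm, smul_mul_assoc, ← smul_sub] at h2
  rw [mul_smul_comm, smul_mul_assoc, ← smul_sub] at h3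
  rw [mul_smul_comm, smul_mul_assoc, mul_smul_comm, smul_mul_assoc, ← smul_sub, ← smul_sub,
    smul_smul, Complex.I_mul_I, neg_one_smul, hD.neg] at h4
  have e : hol D X (ahol D Y f) - ahol D Y (hol D X f) =
      (1 / 4 : ℂ) • ((D X (D Y f) - D Y (D X f)) +
        Complex.I • (D X (D (Complex.I • Y) f) - D (Complex.I • Y) (D X f)) -
        Complex.I • (D (Complex.I • X) (D Y f) - D Y (D (Complex.I • X) f)) +
        (D (Complex.I • X) (D (Complex.I • Y) f) - D (Complex.I • Y) (D (Complex.I • X) f))) := by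
    simp only [hol, ahol, hD.smul, (hD.der _).add, (hD.der _).sub, smul_sub, smul_add]
    match_scalars <;> first | ring1 | linear_combination (1 / 4 : ℂ) * Complex.I_sq | linear_combination (-1 / 4 : ℂ) * Complex.I_sq
  rw [h1, h2, h3, h4] at e
  rw [← sub_eq_zero, e]
  have : D (X * Y - Y * X) f + Complex.I • D (Complex.I • (X * Y - Y * X)) f -
      Complex.I • D (Complex.I • (X * Y - Y * X)) f + -D (X * Y - Y * X) f = 0 := by abel
  rw [this, smul_zero]

end

section

variable {R : Type*} [Ring R] [Algebra ℂ R] {n : ℕ}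
  {D : Matrix (Fin (n + 1)) (Fin (n + 1)) ℂ → R → R}

/-- holomorphic part of `X` plus antiholomorphic part of `Y` -/
noncomputable def mix (D : Matrix (Fin (n + 1)) (Fin (n + 1)) ℂ → R → R)
    (X Y : Matrix (Fin (n + 1)) (Fin (n + 1)) ℂ) (f : R) : R := hol D X f + ahol D Y f

/-- `E_jn` -/
def up (n : ℕ) (j : Fin n) : Matrix (Fin (n + 1)) (Fin (n + 1)) ℂ :=
  Matrix.single j.castSucc (Fin.last n) 1

/-- `E_nj` -/
def dn (n : ℕ) (j : Fin n) : Matrix (Fin (n + 1)) (Fin (n + 1)) ℂ :=
  Matrix.single (Fin.last n) j.castSucc 1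

theorem up_mul_up (i j : Fin n) : up n i * up n j = 0 := by
  unfold up
  rw [Matrix.single_mul_single_of_ne]
  exact (Fin.castSucc_lt_last j).ne'

theorem dn_mul_dn (i j : Fin n) : dn n i * dn n j = 0 := by
  unfold dn
  rw [Matrix.single_mul_single_of_ne]
  exact (Fin.castSucc_lt_last i).ne

/-- `Z_j` -/
noncomputable def ZZ (D : Matrix (Fin (n + 1)) (Fin (n + 1)) ℂ → R → R) (j : Fin n) : R → R :=
  mix D (up n j) (dn n j)

/-- the conjugate of `Z_j` -/
noncomputable def WW (D : Matrix (Fin (n + 1)) (Fin (n + 1)) ℂ → R → R) (j : Fin n) : R → R :=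
  mix D (dn n j) (up n j)

theorem Act.derMix (hD : Act D) (X Y : Matrix (Fin (n + 1)) (Fin (n + 1)) ℂ) :
    IsDer (mix D X Y) where
  add a b := by
    simp only [mix, (hD.derHol _).add, (hD.derAhol _).add]
    abel
  mul a b := by
    simp only [mix, (hD.derHol _).mul, (hD.derAhol _).mul, add_mul, mul_add]
    abel

theorem Act.mix_mix (hD : Act D) (X Y X' Y' : Matrix (Fin (n + 1)) (Fin (n + 1)) ℂ) (f : R) :
    mix D X Y (mix D X' Y' f) - mix D X' Y' (mix D X Y f) =
      mix D (X * X' - X' * X) (Y * Y' - Y' * Y) f := by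
  have h1 := hD.hol_hol X X' f
  have h2 := hD.ahol_ahol Y Y' f
  have h3 := hD.hol_ahol X Y' f
  have h4 := hD.hol_ahol X' Y f
  simp only [mix, (hD.derHol _).add, (hD.derAhol _).add, h3, h4, ← h1, ← h2]
  abel

theorem mix_zero (hD : Act D) (f : R) : mix D 0 0 f = 0 := by
  simp [mix, hol, ahol, hD.zero]

/-- `F` is killed by the complex multiples of everything that maps the last basis vector to a
multiple of itself -/
theorem mix_kill {F : R} (hF : ∀ X, (∀ j : Fin n, X j.castSucc (Fin.last n) = 0) → D X F = 0)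
    {X Y : Matrix (Fin (n + 1)) (Fin (n + 1)) ℂ}
    (hX : ∀ j : Fin n, X j.castSucc (Fin.last n) = 0)
    (hY : ∀ j : Fin n, Y j.castSucc (Fin.last n) = 0) : mix D X Y F = 0 := by
  have h1 := hF X hX
  have h2 := hF Y hY
  have h3 := hF (Complex.I • X) fun j => by rw [Matrix.smul_apply, hX, smul_zero]
  have h4 := hF (Complex.I • Y) fun j => by rw [Matrix.smul_apply, hY, smul_zero]
  simp [mix, hol, ahol, h1, h2, h3, h4]

theorem up_dn_apply (i j k : Fin n) : (up n i * dn n j) k.castSucc (Fin.last n) = 0 := by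
  unfold up dn
  rw [Matrix.single_mul_single_same, Matrix.single_apply_of_col_ne]
  exact (Fin.castSucc_lt_last j).ne

theorem dn_up_apply (i j k : Fin n) : (dn n i * up n j) k.castSucc (Fin.last n) = 0 := by
  unfold up dn
  by_cases h : i = j
  · subst h
    rw [Matrix.single_mul_single_same, Matrix.single_apply_of_row_ne]
    exact (Fin.castSucc_lt_last k).ne'
  · rw [Matrix.single_mul_single_of_ne]
    · rfl
    · exact fun e => h (Fin.castSucc_injective _ e)

theorem boch_of_act (hD : Act D) {F G : R} (hGF : G * F = 1) (hFG : F * G = 1)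
    (hF : ∀ X, (∀ j : Fin n, X j.castSucc (Fin.last n) = 0) → D X F = 0) :
    Boch (ZZ D) (WW D) F G := by
  have hzz : ∀ i j f, ZZ D i (ZZ D j f) = ZZ D j (ZZ D i f) := by
    intro i j f
    rw [← sub_eq_zero]
    unfold ZZ
    rw [hD.mix_mix, up_mul_up, up_mul_up, dn_mul_dn, dn_mul_dn, sub_zero, mix_zero hD]
  have hk : ∀ i j f, ZZ D i (WW D j f) = WW D j (ZZ D i f) +
      mix D (up n i * dn n j - dn n j * up n i) (dn n i * up n j - up n j * dn n i) f := by
    intro i j f
    have := hD.mix_mix (up n i) (dn n i) (dn n j) (up n j) f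
    unfold ZZ WW
    rw [← this]
    abel
  have hkF : ∀ i j, mix D (up n i * dn n j - dn n j * up n i)
      (dn n i * up n j - up n j * dn n i) F = 0 := by
    intro i j
    refine mix_kill hF (fun k => ?_) (fun k => ?_)
    · rw [Matrix.sub_apply, up_dn_apply, dn_up_apply, sub_zero]
    · rw [Matrix.sub_apply, up_dn_apply, dn_up_apply, sub_zero]
  have hkZ : ∀ i j k, mix D (up n i * dn n j - dn n j * up n i)
      (dn n i * up n j - up n j * dn n i) (ZZ D k F) =
      mix D ((up n i * dn n j - dn n j * up n i) * up n k -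
        up n k * (up n i * dn n j - dn n j * up n i))
        ((dn n i * up n j - up n j * dn n i) * dn n k -
        dn n k * (dn n i * up n j - up n j * dn n i)) F := by
    intro i j k
    have := hD.mix_mix (up n i * dn n j - dn n j * up n i) (dn n i * up n j - up n j * dn n i)
      (up n k) (dn n k) F
    rw [hkF, (hD.derMix _ _).zero, sub_zero] at this
    exact this
  refine ⟨fun j => hD.derMix _ _, fun j => hD.derMix _ _, hGF, hFG, fun i j => hzz i j F,
    fun i j => ?_, fun i j => ?_⟩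
  · rw [hk, hkF, add_zero]
  · rw [hk, hk, hkZ, hkZ, hzz j i F]
    congr 1
    have h1 := up_mul_up (n := n)
    have h2 := dn_mul_dn (n := n)
    congr 1
    · simp only [sub_mul, mul_sub, Matrix.mul_assoc, h1, Matrix.mul_zero]
      simp only [← Matrix.mul_assoc, h1, Matrix.zero_mul]
      abel
    · simp only [sub_mul, mul_sub, Matrix.mul_assoc, h2, Matrix.mul_zero]
      simp only [← Matrix.mul_assoc, h2, Matrix.zero_mul]
      abel

end

end Pool.Agent.Lib.MP_5d4057_al.HM
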