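import Mathlib

/-!
The Bochner identity (E8 of h86_corlette.md) as pure algebra: a ring `R` with derivations
`Z j`, `W j` (the second for the conjugate derivations), a unit `F` with inverse `G`,
a trace `tr : R →+ S`.
-/

set_option autoImplicit false

namespace Pool.Agent.Lib.MP_5d4057_al.HM

open Finset

variable {R S ι : Type*} [Ring R] [AddCommGroup S]

/-- a derivation, bare -/
structure IsDer (D : R → R) : Prop where
  add : ∀ a b, D (a + b) = D a + D b
  mul : ∀ a b, D (a * b) = D a * b + a * D b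

namespace IsDer

variable {D : R → R} (hD : IsDer D)

include hD

theorem zero : D 0 = 0 := by
  have h := hD.add 0 0
  simpa using h

theorem neg (a : R) : D (-a) = -D a := by
  have h := hD.add a (-a)
  rw [add_neg_cancel, hD.zero] at h
  exact (neg_eq_of_add_eq_zero_right h.symm).symm

theorem sub (a b : R) : D (a - b) = D a - D b := by
  rw [sub_eq_add_neg, hD.add, hD.neg, ← sub_eq_add_neg]

theorem one : D 1 = 0 := by
  have h := hD.mul 1 1
  simp only [mul_one, one_mul] at h
  exact left_eq_add.1 h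

theorem sum {κ : Type*} (s : Finset κ) (f : κ → R) : D (∑ i ∈ s, f i) = ∑ i ∈ s, D (f i) := by
  classical
  induction s using Finset.induction_on with
  | empty => simp [hD.zero]
  | insert a s ha ih => rw [sum_insert ha, sum_insert ha, hD.add, ih]

theorem inv {F G : R} (hGF : G * F = 1) (hFG : F * G = 1) : D G = -(G * D F * G) := by
  have h := hD.mul G F
  rw [hGF, hD.one] at h
  have h2 : D G * F = -(G * D F) := eq_neg_of_add_eq_zero_left h.symm
  calc D G = D G * (F * G) := by rw [hFG, mul_one]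
    _ = D G * F * G := by rw [mul_assoc]
    _ = -(G * D F) * G := by rw [h2]
    _ = -(G * D F * G) := by rw [neg_mul]

end IsDer

/-- the data of the Bochner identity -/
structure Boch (Z W : ι → R → R) (F G : R) : Prop where
  derZ : ∀ j, IsDer (Z j)
  derW : ∀ j, IsDer (W j)
  GF : G * F = 1
  FG : F * G = 1
  ZZ : ∀ i j, Z i (Z j F) = Z j (Z i F)
  ZW : ∀ i j, Z i (W j F) = W j (Z i F)
  ZWZ : ∀ i j, Z j (W j (Z i F)) = Z i (W j (Z j F))

/-- `2 θ_j` -/
def pp (Z : ι → R → R) (F G : R) (j : ι) : R := G * Z j F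

/-- `4 τ_ij` -/
def ss (Z W : ι → R → R) (F G : R) (i j : ι) : R :=
  2 * (G * W j (Z i F)) - pp W F G j * pp Z F G i - pp Z F G i * pp W F G j

/-- twice the covariant derivative -/
def cov (Z : ι → R → R) (F G : R) (j : ι) (x : R) : R :=
  2 * Z j x + (pp Z F G j * x - x * pp Z F G j)

theorem der_two {D : R → R} (hD : IsDer D) (x : R) : D (2 * x) = 2 * D x := by
  rw [two_mul, two_mul, hD.add]

theorem cov_sub {Z W : ι → R → R} {F G : R} (h : Boch Z W F G) (i j : ι) :
    cov Z F G j (ss Z W F G i j) - cov Z F G i (ss Z W F G j j) =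
      (pp Z F G i * pp Z F G j - pp Z F G j * pp Z F G i) * pp W F G j -
        pp W F G j * (pp Z F G i * pp Z F G j - pp Z F G j * pp Z F G i) := by
  have hG : ∀ k, Z k G = -(G * Z k F * G) := fun k => (h.derZ k).inv h.GF h.FG
  have e1 : ∀ k x, Z k (G * x) = -(G * Z k F * (G * x)) + G * Z k x := by
    intro k x
    rw [(h.derZ k).mul, hG]
    noncomm_ring
  have hd := h.ZWZ i j
  have ha := h.ZZ i j
  unfold cov ss pp
  simp only [(h.derZ _).sub, der_two (h.derZ _), (h.derZ _).mul (G * _) (G * _), e1, hd, ha,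
    h.ZW]
  noncomm_ring

theorem cov_q {Z W : ι → R → R} {F G : R} (h : Boch Z W F G) (i j : ι) :
    cov Z F G j (pp W F G i) = ss Z W F G j i := by
  have hG : ∀ k, Z k G = -(G * Z k F * G) := fun k => (h.derZ k).inv h.GF h.FG
  unfold cov ss pp
  rw [(h.derZ j).mul, hG, h.ZW]
  noncomm_ring

theorem two_der {Z W : ι → R → R} {F G : R} (h : Boch Z W F G) {tr : R →+ S}
    (htr : ∀ a b, tr (a * b) = tr (b * a)) {z : ι → S → S} (hz : ∀ j a, z j (tr a) = tr (Z j a))
    (j : ι) (x y : R) :
    2 • z j (tr (x * y)) = tr (cov Z F G j x * y) + tr (x * cov Z F G j y) := by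
  rw [hz, (h.derZ j).mul, map_add, smul_add, ← map_nsmul, ← map_nsmul]
  have e1 : tr (cov Z F G j x * y) = tr (2 • (Z j x * y)) +
      (tr (pp Z F G j * (x * y)) - tr (x * (pp Z F G j * y))) := by
    rw [← map_sub, ← map_add]
    congr 1
    unfold cov
    noncomm_ring
  have e2 : tr (x * cov Z F G j y) = tr (2 • (x * Z j y)) +
      (tr (x * (pp Z F G j * y)) - tr ((x * y) * pp Z F G j)) := by
    rw [← map_sub, ← map_add]
    congr 1
    unfold cov
    noncomm_ring
  rw [e1, e2, htr (x * y)]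
  abel

/-- **The Bochner identity.** -/
theorem bochner [Fintype ι] {Z W : ι → R → R} {F G : R} (h : Boch Z W F G) {tr : R →+ S}
    (htr : ∀ a b, tr (a * b) = tr (b * a)) {z : ι → S → S} (hz : ∀ j a, z j (tr a) = tr (Z j a)) :
    ∑ i, ∑ j, tr (ss Z W F G i j * ss Z W F G j i) -
        ∑ i, ∑ j, tr ((pp Z F G j * pp Z F G i - pp Z F G i * pp Z F G j) *
          (pp W F G j * pp W F G i - pp W F G i * pp W F G j)) =
      tr ((∑ i, ss Z W F G i i) * ∑ i, ss Z W F G i i) +
        2 • ∑ j, z j (tr (∑ i, ss Z W F G i j * pp W F G i -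
          (∑ i, ss Z W F G i i) * pp W F G j)) := by
  have hs : ∀ j, 2 • z j (tr (∑ i, ss Z W F G i j * pp W F G i -
          (∑ i, ss Z W F G i i) * pp W F G j)) =
      ∑ i, (tr (cov Z F G j (ss Z W F G i j) * pp W F G i) +
        tr (ss Z W F G i j * ss Z W F G j i)) -
      ∑ i, (tr (cov Z F G j (ss Z W F G i i) * pp W F G j) +
        tr (ss Z W F G i i * ss Z W F G j j)) := by
    intro j
    rw [hz, (h.derZ j).sub, (h.derZ j).sum, map_sub, map_sum, sum_mul, (h.derZ j).sum, map_sum,
      smul_sub, smul_sum, smul_sum]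
    congr 1
    · refine sum_congr rfl fun i _ => ?_
      rw [← hz, two_der h htr hz, cov_q h]
    · refine sum_congr rfl fun i _ => ?_
      rw [← hz, two_der h htr hz, cov_q h]
  rw [smul_sum, sum_congr rfl fun j _ => hs j]
  simp only [sum_sub_distrib, sum_add_distrib]
  have e1 : ∑ j, ∑ i, tr (ss Z W F G i i * ss Z W F G j j) =
      tr ((∑ i, ss Z W F G i i) * ∑ i, ss Z W F G i i) := by
    rw [sum_mul_sum, map_sum]
    simp only [map_sum]
    rw [sum_comm]
  have e2 : ∑ j, ∑ i, tr (ss Z W F G i j * ss Z W F G j i) =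
      ∑ i, ∑ j, tr (ss Z W F G i j * ss Z W F G j i) := sum_comm
  have e3 : ∑ j, ∑ i, tr (cov Z F G j (ss Z W F G i i) * pp W F G j) =
      ∑ j, ∑ i, tr (cov Z F G i (ss Z W F G j j) * pp W F G i) := sum_comm
  have e4 : ∑ j, ∑ i, tr (cov Z F G j (ss Z W F G i j) * pp W F G i) -
      ∑ j, ∑ i, tr (cov Z F G i (ss Z W F G j j) * pp W F G i) =
      - ∑ i, ∑ j, tr ((pp Z F G j * pp Z F G i - pp Z F G i * pp Z F G j) *
          (pp W F G j * pp W F G i - pp W F G i * pp W F G j)) := by
    rw [← sum_sub_distrib, sum_comm (s := univ) (t := univ) (f := fun i j =>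
      tr ((pp Z F G j * pp Z F G i - pp Z F G i * pp Z F G j) *
          (pp W F G j * pp W F G i - pp W F G i * pp W F G j))), ← sum_neg_distrib]
    refine sum_congr rfl fun j _ => ?_
    rw [← sum_sub_distrib, ← sum_neg_distrib]
    refine sum_congr rfl fun i _ => ?_
    rw [← map_sub, ← sub_mul, cov_sub h i j]
    set u := pp Z F G i * pp Z F G j - pp Z F G j * pp Z F G i with hu
    have e5 : pp Z F G j * pp Z F G i - pp Z F G i * pp Z F G j = -u := by rw [hu]; abel
    rw [e5, sub_mul, map_sub, mul_assoc (pp W F G j), htr (pp W F G j), ← map_sub, ← map_neg]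
    congr 1
    noncomm_ring
  rw [e1, e2, e3]
  have e6 := e4
  rw [sub_eq_iff_eq_add] at e6
  rw [e6]
  abel

end Pool.Agent.Lib.MP_5d4057_al.HM
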