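import Pool.Agent.Lib.MP_5d4057_al.HM.BochA

namespace Pool.Agent.Lib.MP_5d4057_al.HM

open Matrix MeasureTheory Filter Topology Pool.Agent.Lib.MP_5d4057_al Pool.Agent.Lib.MP_5d4057_al.Hyb

open scoped ComplexOrder MatrixOrder Matrix.Norms.L2Operator

variable {n m : ℕ}

section aux

private theorem bo_sing (v : Vec n) : v = ∑ c, v c • (Pi.single c 1 : Vec n) := by
  conv_lhs => rw [← Finset.univ_sum_single v]
  refine Finset.sum_congr rfl fun c _ => ?_
  rw [← Pi.single_smul, smul_eq_mul, mul_one]

private theorem bo_cdfd {A : Vec n → Mat m} {k l : WithTop ℕ∞} (hkl : l + 1 ≤ k) {v : Vec n}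
    (hA : ContDiffAt ℝ k A v) (ξ : Vec n) : ContDiffAt ℝ l (fun w => fderiv ℝ A w ξ) v :=
  (hA.fderiv_right hkl).clm_apply contDiffAt_const

private theorem bo_cddz {A : Vec n → Mat m} {k l : WithTop ℕ∞} (hkl : l + 1 ≤ k) {v : Vec n}
    (hA : ContDiffAt ℝ k A v) (ξ : Vec n) : ContDiffAt ℝ l (fun w => dz A w ξ) v :=
  ((bo_cdfd hkl hA ξ).sub ((bo_cdfd hkl hA (Complex.I • ξ)).const_smul Complex.I)).const_smul
    (1 / 2 : ℂ)

private theorem bo_cddzb {A : Vec n → Mat m} {k l : WithTop ℕ∞} (hkl : l + 1 ≤ k) {v : Vec n}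
    (hA : ContDiffAt ℝ k A v) (ξ : Vec n) : ContDiffAt ℝ l (fun w => dzb A w ξ) v :=
  ((bo_cdfd hkl hA ξ).add ((bo_cdfd hkl hA (Complex.I • ξ)).const_smul Complex.I)).const_smul
    (1 / 2 : ℂ)

private theorem bo_cdinv {A : Vec n → Mat m} {k : WithTop ℕ∞} {v : Vec n}
    (hA : ContDiffAt ℝ k A v) (h0 : IsUnit (A v)) : ContDiffAt ℝ k (fun w => (A w)⁻¹) v := by
  have h1 : ContDiffAt ℝ k (Ring.inverse : Mat m → Mat m) (A v) := by
    obtain ⟨u, hu⟩ := h0
    rw [← hu]
    exact contDiffAt_ringInverse ℝ u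
  have h2 := h1.comp v hA
  exact h2.congr_of_eventuallyEq
    (Filter.Eventually.of_forall fun w => Matrix.nonsing_inv_eq_ringInverse _)

private theorem bo_cdthz {F : Vec n → Mat m} {k l : WithTop ℕ∞} (hkl : l + 1 ≤ k) {v : Vec n}
    (hA : ContDiffAt ℝ k F v) (h0 : IsUnit (F v)) (ξ : Vec n) :
    ContDiffAt ℝ l (fun w => thz F w ξ) v :=
  ((bo_cdinv (hA.of_le (le_self_add.trans hkl)) h0).mul (bo_cddz hkl hA ξ)).const_smul (1 / 2 : ℂ)

private theorem bo_cdthb {F : Vec n → Mat m} {k l : WithTop ℕ∞} (hkl : l + 1 ≤ k) {v : Vec n}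
    (hA : ContDiffAt ℝ k F v) (h0 : IsUnit (F v)) (ξ : Vec n) :
    ContDiffAt ℝ l (fun w => thb F w ξ) v :=
  ((bo_cdinv (hA.of_le (le_self_add.trans hkl)) h0).mul (bo_cddzb hkl hA ξ)).const_smul (1 / 2 : ℂ)

/-- rules for `dz` and `dzb` -/
private theorem bo_dz_congr {A B : Vec n → Mat m} {v : Vec n} (h : A =ᶠ[𝓝 v] B) (ξ : Vec n) :
    dz A v ξ = dz B v ξ := by
  rw [dz, dz, h.fderiv_eq]

private theorem bo_dzb_congr {A B : Vec n → Mat m} {v : Vec n} (h : A =ᶠ[𝓝 v] B) (ξ : Vec n) :
    dzb A v ξ = dzb B v ξ := by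
  rw [dzb, dzb, h.fderiv_eq]

private theorem bo_dz_add {A B : Vec n → Mat m} {v : Vec n} (hA : DifferentiableAt ℝ A v)
    (hB : DifferentiableAt ℝ B v) (ξ : Vec n) :
    dz (fun w => A w + B w) v ξ = dz A v ξ + dz B v ξ := by
  rw [dz, dz, dz, fderiv_fun_add hA hB, _root_.add_apply,
    _root_.add_apply, ← smul_add, smul_add Complex.I]
  congr 1
  abel

private theorem bo_dz_sub {A B : Vec n → Mat m} {v : Vec n} (hA : DifferentiableAt ℝ A v)
    (hB : DifferentiableAt ℝ B v) (ξ : Vec n) :
    dz (fun w => A w - B w) v ξ = dz A v ξ - dz B v ξ := by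
  rw [dz, dz, dz, fderiv_fun_sub hA hB, _root_.sub_apply,
    _root_.sub_apply, ← smul_sub, smul_sub Complex.I]
  congr 1
  abel

private theorem bo_dzb_sub {A B : Vec n → Mat m} {v : Vec n} (hA : DifferentiableAt ℝ A v)
    (hB : DifferentiableAt ℝ B v) (ξ : Vec n) :
    dzb (fun w => A w - B w) v ξ = dzb A v ξ - dzb B v ξ := by
  rw [dzb, dzb, dzb, fderiv_fun_sub hA hB, _root_.sub_apply,
    _root_.sub_apply, ← smul_sub, smul_sub Complex.I]
  congr 1
  abel

private theorem bo_dzb_add {A B : Vec n → Mat m} {v : Vec n} (hA : DifferentiableAt ℝ A v)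
    (hB : DifferentiableAt ℝ B v) (ξ : Vec n) :
    dzb (fun w => A w + B w) v ξ = dzb A v ξ + dzb B v ξ := by
  rw [dzb, dzb, dzb, fderiv_fun_add hA hB, _root_.add_apply,
    _root_.add_apply, ← smul_add, smul_add Complex.I]
  congr 1
  abel

private theorem bo_dz_csmul {A : Vec n → Mat m} {v : Vec n} (hA : DifferentiableAt ℝ A v) (c : ℂ)
    (ξ : Vec n) : dz (fun w => c • A w) v ξ = c • dz A v ξ := by
  rw [dz, dz, fderiv_fun_const_smul hA]
  simp only [_root_.smul_apply]
  rw [smul_comm Complex.I c, ← smul_sub, smul_comm]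

private theorem bo_dz_sum {ι : Type} (s : Finset ι) {A : ι → Vec n → Mat m} {v : Vec n}
    (hA : ∀ i ∈ s, DifferentiableAt ℝ (A i) v) (ξ : Vec n) :
    dz (fun w => ∑ i ∈ s, A i w) v ξ = ∑ i ∈ s, dz (A i) v ξ := by
  simp only [dz]
  rw [fderiv_fun_sum hA, _root_.sum_apply, _root_.sum_apply,
    Finset.smul_sum, ← Finset.sum_sub_distrib, Finset.smul_sum]

private theorem bo_m {A B : Vec n → Mat m} {v : Vec n} (hA : DifferentiableAt ℝ A v)
    (hB : DifferentiableAt ℝ B v) : DifferentiableAt ℝ (fun w => A w * B w) v := hA.mul hB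

private theorem bo_a {A B : Vec n → Mat m} {v : Vec n} (hA : DifferentiableAt ℝ A v)
    (hB : DifferentiableAt ℝ B v) : DifferentiableAt ℝ (fun w => A w + B w) v := hA.add hB

private theorem bo_s {A B : Vec n → Mat m} {v : Vec n} (hA : DifferentiableAt ℝ A v)
    (hB : DifferentiableAt ℝ B v) : DifferentiableAt ℝ (fun w => A w - B w) v := hA.sub hB

/-- the commutation relation of the covariant derivatives, contracted -/
private theorem bo_comm {F : Vec n → Mat m} (hF3 : ContDiffOn ℝ 3 F (Cone n))
    (hu : ∀ v ∈ Cone n, IsUnit (F v)) {v : Vec n} (hv : v ∈ Cone n) (a b : Vec n) :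
    (dz (fun w => tau F w a b) v b + (thz F v b * tau F v a b - tau F v a b * thz F v b)) -
      (dz (fun w => tau F w b b) v a + (thz F v a * tau F v b b - tau F v b b * thz F v a)) =
    (thz F v a * thz F v b - thz F v b * thz F v a) * thb F v b -
      thb F v b * (thz F v a * thz F v b - thz F v b * thz F v a) := by
  have hev : ∀ᶠ w in 𝓝 v, w ∈ Cone n := (isOpen_cone n).mem_nhds hv
  have h3 : ∀ w ∈ Cone n, ContDiffAt ℝ 3 F w := fun w hw =>
    hF3.contDiffAt ((isOpen_cone n).mem_nhds hw)
  have h2 : ∀ w ∈ Cone n, ContDiffAt ℝ 2 F w := fun w hw => (h3 w hw).of_le (by norm_num)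
  have c2 : ∀ ξ, ContDiffAt ℝ 2 (fun w => thz F w ξ) v := fun ξ =>
    bo_cdthz (by norm_num) (h3 v hv) (hu v hv) ξ
  have c2' : ∀ ξ, ContDiffAt ℝ 2 (fun w => thb F w ξ) v := fun ξ =>
    bo_cdthb (by norm_num) (h3 v hv) (hu v hv) ξ
  have d : ∀ ξ, DifferentiableAt ℝ (fun w => thz F w ξ) v := fun ξ =>
    (c2 ξ).differentiableAt (by norm_num)
  have d' : ∀ ξ, DifferentiableAt ℝ (fun w => thb F w ξ) v := fun ξ =>
    (c2' ξ).differentiableAt (by norm_num)
  have dd : ∀ ξ η, DifferentiableAt ℝ (fun w => dz (fun w => thz F w ξ) w η) v := fun ξ η =>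
    (bo_cddz (k := 2) (l := 1) (by norm_num) (c2 ξ) η).differentiableAt (by norm_num)
  have dd' : ∀ ξ η, DifferentiableAt ℝ (fun w => dzb (fun w => thz F w ξ) w η) v := fun ξ η =>
    (bo_cddzb (k := 2) (l := 1) (by norm_num) (c2 ξ) η).differentiableAt (by norm_num)
  -- the derivative of `tau`
  have key : ∀ ξ η ζ, dz (fun w => tau F w ξ η) v ζ =
      dzb (fun w => dz (fun w => thz F w ξ) w ζ) v η +
        ((dz (fun w => thb F w η) v ζ * thz F v ξ + thb F v η * dz (fun w => thz F w ξ) v ζ) -
        (dz (fun w => thz F w ξ) v ζ * thb F v η + thz F v ξ * dz (fun w => thb F w η) v ζ)) := by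
    intro ξ η ζ
    have e1 : (fun w => tau F w ξ η) =ᶠ[𝓝 v] fun w =>
        dzb (fun w => thz F w ξ) w η + (thb F w η * thz F w ξ - thz F w ξ * thb F w η) := by
      filter_upwards [hev] with w hw
      exact (Nb_thz (h2 w hw) (hu w hw) ξ η).symm
    have m1 := bo_m (d' η) (d ξ)
    have m2 := bo_m (d ξ) (d' η)
    rw [bo_dz_congr e1, bo_dz_add (dd' ξ η) (bo_s m1 m2), bo_dz_sub m1 m2, dz_mul (d' η) (d ξ),
      dz_mul (d ξ) (d' η), dz_dzb (c2 ξ)]
  -- the second derivatives
  have key2 : dzb (fun w => dz (fun w => thz F w a) w b) v b =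
      dzb (fun w => dz (fun w => thz F w b) w a) v b +
        (2 : ℂ) • ((dzb (fun w => thz F w a) v b * thz F v b +
            thz F v a * dzb (fun w => thz F w b) v b) -
          (dzb (fun w => thz F w b) v b * thz F v a +
            thz F v b * dzb (fun w => thz F w a) v b)) := by
    have e1 : (fun w => dz (fun w => thz F w a) w b) =ᶠ[𝓝 v] fun w =>
        dz (fun w => thz F w b) w a + ((thz F w a * thz F w b - thz F w b * thz F w a) +
          (thz F w a * thz F w b - thz F w b * thz F w a)) := by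
      filter_upwards [hev] with w hw
      have h := N_thz (h2 w hw) (hu w hw) b a
      have h' : dz (fun w => thz F w a) w b = dz (fun w => thz F w b) w a +
          (thz F w a * thz F w b - thz F w b * thz F w a) -
            (thz F w b * thz F w a - thz F w a * thz F w b) := by
        rw [← h]
        abel
      rw [h']
      abel
    have m1 := bo_m (d a) (d b)
    have m2 := bo_m (d b) (d a)
    rw [bo_dzb_congr e1, bo_dzb_add (dd b a) (bo_a (bo_s m1 m2) (bo_s m1 m2)),
      bo_dzb_add (bo_s m1 m2) (bo_s m1 m2), bo_dzb_sub m1 m2, dzb_mul (d a) (d b),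
      dzb_mul (d b) (d a), two_smul]
  rw [key, key, key2]
  have r1 : dzb (fun w => thz F w a) v b =
      tau F v a b - (thb F v b * thz F v a - thz F v a * thb F v b) :=
    eq_sub_of_add_eq (Nb_thz (h2 v hv) (hu v hv) a b)
  have r2 : dzb (fun w => thz F w b) v b =
      tau F v b b - (thb F v b * thz F v b - thz F v b * thb F v b) :=
    eq_sub_of_add_eq (Nb_thz (h2 v hv) (hu v hv) b b)
  have r3 : dz (fun w => thb F w b) v a =
      tau F v a b - (thz F v a * thb F v b - thb F v b * thz F v a) :=
    eq_sub_of_add_eq (N_thb (h2 v hv) (hu v hv) a b)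
  have r4 : dz (fun w => thb F w b) v b =
      tau F v b b - (thz F v b * thb F v b - thb F v b * thz F v b) :=
    eq_sub_of_add_eq (N_thb (h2 v hv) (hu v hv) b b)
  have r5 : dz (fun w => thz F w a) v b = dz (fun w => thz F w b) v a +
      (thz F v a * thz F v b - thz F v b * thz F v a) -
        (thz F v b * thz F v a - thz F v a * thz F v b) := by
    rw [← N_thz (h2 v hv) (hu v hv) b a]
    abel
  rw [r1, r2, r3, r4, r5, two_smul]
  noncomm_ring

private theorem bo_diff_q (v : Vec n) : DifferentiableAt ℝ (fun w : Vec n => (-q w : ℂ)) v := by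
  have h4 : (fun w : Vec n => (-q w : ℂ)) =
      fun w => -(∑ i : Fin n, star (w i.castSucc) * w i.castSucc -
        star (w (Fin.last n)) * w (Fin.last n)) := by
    funext w
    rw [← herm_eq, herm_self]
  rw [h4]
  have h5 : ∀ i : Fin (n + 1), Differentiable ℝ (fun w : Vec n => star (w i)) := by
    intro i
    have h6 : Differentiable ℝ (fun w : Vec n => w i) := differentiable_apply i
    exact h6.star
  have h7 : ∀ i : Fin (n + 1), Differentiable ℝ (fun w : Vec n => w i) :=
    fun i => differentiable_apply i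
  fun_prop

/-- the weight -/
private theorem bo_dzc_q (v ξ : Vec n) : dzc (fun w : Vec n => (-q w : ℂ)) v ξ = -herm v ξ := by
  have h1 : ∀ w : Vec n, (-q w : ℂ) = -herm w w := fun w => by rw [herm_self]
  have h2 : HasFDerivAt (fun w : Vec n => (-q w : ℂ))
      (fderiv ℝ (fun w : Vec n => (-q w : ℂ)) v) v := (bo_diff_q v).hasFDerivAt
  have h8 : ∀ η, fderiv ℝ (fun w : Vec n => (-q w : ℂ)) v η = -(herm v η + herm η v) := by
    intro η
    have h9 : HasDerivAt (fun t : ℝ => v + t • η) η 0 := by
      simpa using ((hasDerivAt_id (0 : ℝ)).smul_const η).const_add v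
    have h10 : HasDerivAt (fun t : ℝ => (-q (v + t • η) : ℂ))
        (fderiv ℝ (fun w : Vec n => (-q w : ℂ)) v η) 0 := by
      have h11 : HasFDerivAt (fun w : Vec n => (-q w : ℂ))
          (fderiv ℝ (fun w : Vec n => (-q w : ℂ)) v) (v + (0 : ℝ) • η) := by
        simpa using h2
      exact h11.comp_hasDerivAt (0 : ℝ) h9
    have h12 : HasDerivAt (fun t : ℝ => (-q (v + t • η) : ℂ)) (-(herm v η + herm η v)) 0 := by
      have h13 : (fun t : ℝ => (-q (v + t • η) : ℂ)) = fun t : ℝ =>
          -herm v v + (t : ℂ) * (-(herm v η + herm η v)) + ((t : ℂ) * (t : ℂ)) * (-herm η η) := by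
        funext t
        rw [h1]
        have h14 : t • η = (t : ℂ) • η := by
          ext i
          simp
        rw [h14, herm_add_left, herm_add_right, herm_add_right, herm_smul_left, herm_smul_right,
          herm_smul_left, herm_smul_right, Complex.star_def, Complex.conj_ofReal]
        ring
      rw [h13]
      have h15 : HasDerivAt (fun t : ℝ => (t : ℂ)) 1 0 := Complex.ofRealCLM.hasDerivAt
      have h16 : HasDerivAt (fun t : ℝ =>
          -herm v v + (t : ℂ) * (-(herm v η + herm η v)) + ((t : ℂ) * (t : ℂ)) * (-herm η η)) _ 0 :=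
        ((h15.mul_const (-(herm v η + herm η v))).const_add (-herm v v)).add
        ((h15.mul h15).mul_const (-herm η η))
      exact h16.congr_deriv (by simp)
    exact h10.unique h12
  rw [dzc, h8, h8, herm_smul_left, herm_smul_right, Complex.star_def, Complex.conj_I]
  linear_combination (1 / 2 * herm v ξ - 1 / 2 * herm ξ v) * Complex.I_mul_I

private theorem bo_dzc_mul {f g : Vec n → ℂ} {v : Vec n} (hf : DifferentiableAt ℝ f v)
    (hg : DifferentiableAt ℝ g v) (ξ : Vec n) :
    dzc (fun w => f w * g w) v ξ = dzc f v ξ * g v + f v * dzc g v ξ := by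
  have h : fderiv ℝ (fun w => f w * g w) v = f v • fderiv ℝ g v + g v • fderiv ℝ f v :=
    fderiv_fun_mul hf hg
  rw [dzc, dzc, dzc, h]
  simp only [_root_.add_apply, _root_.smul_apply, smul_eq_mul]
  ring

private theorem bo_diff_tau {F : Vec n → Mat m} (hF3 : ContDiffOn ℝ 3 F (Cone n))
    (hu : ∀ v ∈ Cone n, IsUnit (F v)) {v : Vec n} (hv : v ∈ Cone n) (ξ η : Vec n) :
    DifferentiableAt ℝ (fun w => tau F w ξ η) v := by
  have hev : ∀ᶠ w in 𝓝 v, w ∈ Cone n := (isOpen_cone n).mem_nhds hv
  have h3 : ∀ w ∈ Cone n, ContDiffAt ℝ 3 F w := fun w hw =>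
    hF3.contDiffAt ((isOpen_cone n).mem_nhds hw)
  have h2 : ∀ w ∈ Cone n, ContDiffAt ℝ 2 F w := fun w hw => (h3 w hw).of_le (by norm_num)
  have c2 : ContDiffAt ℝ 2 (fun w => thz F w ξ) v :=
    bo_cdthz (by norm_num) (h3 v hv) (hu v hv) ξ
  have c2' : ContDiffAt ℝ 2 (fun w => thb F w η) v :=
    bo_cdthb (by norm_num) (h3 v hv) (hu v hv) η
  have d : DifferentiableAt ℝ (fun w => thz F w ξ) v := c2.differentiableAt (by norm_num)
  have d' : DifferentiableAt ℝ (fun w => thb F w η) v := c2'.differentiableAt (by norm_num)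
  have dd' : DifferentiableAt ℝ (fun w => dzb (fun w => thz F w ξ) w η) v :=
    (bo_cddzb (k := 2) (l := 1) (by norm_num) c2 η).differentiableAt (by norm_num)
  have e1 : (fun w => tau F w ξ η) =ᶠ[𝓝 v] fun w =>
      dzb (fun w => thz F w ξ) w η + (thb F w η * thz F w ξ - thz F w ξ * thb F w η) := by
    filter_upwards [hev] with w hw
    exact (Nb_thz (h2 w hw) (hu w hw) ξ η).symm
  exact (bo_a dd' (bo_s (bo_m d' d) (bo_m d d'))).congr_of_eventuallyEq e1

private theorem bo_anti {E : Type} [AddCommGroup E] [Module ℂ E] (f : Vec n → E)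
    (hadd : ∀ a b, f (a + b) = f a + f b) (hs : ∀ (r : ℂ) a, f (r • a) = star r • f a)
    (v : Vec n) : f v = ∑ c, star (v c) • f (Pi.single c 1) := by
  have h := map_sum (AddMonoidHom.mk' f hadd) (fun c => v c • (Pi.single c 1 : Vec n)) Finset.univ
  rw [← bo_sing v] at h
  simp only [AddMonoidHom.mk'_apply, hs] at h
  exact h

private theorem bo_lin {E : Type} [AddCommGroup E] [Module ℂ E] (f : Vec n → E)
    (hadd : ∀ a b, f (a + b) = f a + f b) (hs : ∀ (r : ℂ) a, f (r • a) = r • f a)
    (v : Vec n) : f v = ∑ c, v c • f (Pi.single c 1) := by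
  have h := map_sum (AddMonoidHom.mk' f hadd) (fun c => v c • (Pi.single c 1 : Vec n)) Finset.univ
  rw [← bo_sing v] at h
  simp only [AddMonoidHom.mk'_apply, hs] at h
  exact h

private theorem bo_thb_add (F : Vec n → Mat m) (v ξ η : Vec n) :
    thb F v (ξ + η) = thb F v ξ + thb F v η := by
  rw [thb, thb, thb, dzb_add, mul_add, smul_add]

private theorem bo_thb_smul (F : Vec n → Mat m) (v ξ : Vec n) (c : ℂ) :
    thb F v (c • ξ) = star c • thb F v ξ := by
  rw [thb, thb, dzb_smul, mul_smul_comm, smul_comm]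

private theorem bo_thz_add (F : Vec n → Mat m) (v ξ η : Vec n) :
    thz F v (ξ + η) = thz F v ξ + thz F v η := by
  rw [thz, thz, thz, dz_add, mul_add, smul_add]

private theorem bo_thz_smul (F : Vec n → Mat m) (v ξ : Vec n) (c : ℂ) :
    thz F v (c • ξ) = c • thz F v ξ := by
  rw [thz, thz, dz_smul, mul_smul_comm, smul_comm]

private theorem bo_tau_add (F : Vec n → Mat m) (v ξ η ζ : Vec n) :
    tau F v ξ (η + ζ) = tau F v ξ η + tau F v ξ ζ := by
  rw [tau, tau, tau, dzb_add, dzb_add, ← smul_add, ← mul_add]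
  congr 2
  simp only [add_mul, mul_add, smul_add]
  abel

private theorem bo_tau_smul (F : Vec n → Mat m) (v ξ η : Vec n) (c : ℂ) :
    tau F v ξ (c • η) = star c • tau F v ξ η := by
  rw [tau, tau, dzb_smul, dzb_smul]
  simp only [smul_mul_assoc, mul_smul_comm, mul_sub, mul_add]
  module

private theorem bo_herm_single (v : Vec n) (c : Fin (n + 1)) :
    herm v (Pi.single c 1) = star (v c) * J n c c := by
  have h : herm v (Pi.single c 1) = ∑ k, star (v k) * (J n *ᵥ (Pi.single c 1 : Vec n)) k := rfl
  rw [h]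
  simp only [Matrix.mulVec_single_one, Matrix.col_apply]
  rw [Finset.sum_eq_single c]
  · intro k _ hk
    rw [J, diagonal_apply_ne _ hk, mul_zero]
  · intro h
    exact absurd (Finset.mem_univ c) h

private theorem bo_J_sq (c : Fin (n + 1)) : J n c c * J n c c = 1 := by
  rw [J, diagonal_apply_eq]
  split_ifs <;> ring

/-- the form whose divergence is taken, without the weight -/
private noncomputable def MM (F : Vec n → Mat m) (w η : Vec n) : Mat m :=
  ∑ i : Fin (n + 1), J n i i • (tau F w (Pi.single i 1) η * thb F w (Pi.single i 1) -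
    tau F w (Pi.single i 1) (Pi.single i 1) * thb F w η)

private theorem bo_Yf (F : Vec n → Mat m) (w η : Vec n) :
    Yf F w η = (-q w : ℂ) * (MM F w η).trace := by
  rw [Yf, tauT, MM, smul_mul_assoc, trace_smul, smul_eq_mul, ← mul_sub, Finset.sum_mul,
    trace_sum, trace_sum, ← Finset.sum_sub_distrib]
  congr 1
  refine Finset.sum_congr rfl fun i _ => ?_
  rw [smul_mul_assoc, trace_smul, trace_smul, trace_sub, smul_eq_mul, smul_eq_mul, mul_sub]

private theorem bo_MM_self {F : Vec n → Mat m} (hF : Homog F) (hF2 : ContDiffOn ℝ 2 F (Cone n))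
    {v : Vec n} (hv : v ∈ Cone n) : ∑ c, star (v c) * (MM F v (Pi.single c 1)).trace = 0 := by
  have h1 := bo_anti (fun η => (MM F v η).trace) (fun a b => by
    simp only [MM]
    rw [← trace_add, ← Finset.sum_add_distrib]
    congr 1
    refine Finset.sum_congr rfl fun i _ => ?_
    rw [bo_tau_add, bo_thb_add, ← smul_add]
    congr 1
    simp only [add_mul, mul_add]
    abel) (fun r a => by
    simp only [MM]
    rw [← trace_smul, Finset.smul_sum]
    congr 1
    refine Finset.sum_congr rfl fun i _ => ?_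
    rw [bo_tau_smul, bo_thb_smul, smul_comm (star r)]
    congr 1
    simp only [smul_mul_assoc, mul_smul_comm, smul_sub]) v
  simp only [smul_eq_mul] at h1
  rw [← h1]
  have h2 : MM F v v = 0 := by
    rw [MM]
    refine Finset.sum_eq_zero fun i _ => ?_
    rw [(tau_self hF hv hF2 (Pi.single i 1)).1, (tau_self hF hv hF2 (Pi.single i 1)).2.2.2,
      zero_mul, mul_zero, sub_zero, smul_zero]
  simp only [h2, trace_zero]

end aux

/-- THE BOCHNER IDENTITY (blueprint E8), at a point `v` of the cone, in the constant frame `e_a` with the signs `J_aa`.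
Proof. Let `N_a P = ∂_a P + [θ_a, P]`, `N̄_a P = ∂̄_a P + [θ̄_a, P]`; then `∂_a tr(P Q) = tr(N_a P Q) + tr(P N_a Q)`,
`N_a θ_b = N_b θ_a` (`N_thz`), `N̄_b θ_a = τ_ab = N_a θ̄_b`, `N_a N̄_b P - N̄_b N_a P = -[[θ_a, θ̄_b], P]`
(from `∂_a θ̄_b - ∂̄_b θ_a = -2 [θ_a, θ̄_b]` and `∂_a ∂̄_b = ∂̄_b ∂_a`). With `r = -q`: `∂_a r = -J_aa conj(v_a)`.
`r ∑' ∂_c (Y[c]) = r² ∑' ∑' tr(τ_ac τ_ca) - tr(τ²) + r² ∑' ∑' tr((N_c τ_ac - N_a τ_cc) θ̄_a)`; the terms with
`∂_c r` vanish by `tau_self` (antilinearity in the second slot), and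
`N_c τ_ac - N_a τ_cc = -[[θ_c, θ̄_c], θ_a] + [[θ_a, θ̄_c], θ_c] = [[θ_a, θ_c], θ̄_c]` (Jacobi). -/
theorem boch_identity {F : Vec n → Mat m} (hF : Homog F) (hF3 : ContDiffOn ℝ 3 F (Cone n))
    (hu : ∀ v ∈ Cone n, IsUnit (F v)) {v : Vec n} (hv : v ∈ Cone n) :
    (q v : ℂ) ^ 2 * ∑ a : Fin (n + 1), ∑ b : Fin (n + 1), J n a a * J n b b *
      ((tau F v (Pi.single a 1) (Pi.single b 1) * tau F v (Pi.single b 1) (Pi.single a 1)).trace -
        ((thz F v (Pi.single b 1) * thz F v (Pi.single a 1) -
            thz F v (Pi.single a 1) * thz F v (Pi.single b 1)) *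
          (thb F v (Pi.single b 1) * thb F v (Pi.single a 1) -
            thb F v (Pi.single a 1) * thb F v (Pi.single b 1))).trace) =
      (tauT F v * tauT F v).trace +
        (-q v : ℂ) * ∑ c : Fin (n + 1), J n c c *
          dzc (fun w => Yf F w (Pi.single c 1)) v (Pi.single c 1) := by
  have h3 : ContDiffAt ℝ 3 F v := hF3.contDiffAt ((isOpen_cone n).mem_nhds hv)
  have h2 : ContDiffAt ℝ 2 F v := h3.of_le (by norm_num)
  have dt : ∀ ξ η, DifferentiableAt ℝ (fun w => tau F w ξ η) v := bo_diff_tau hF3 hu hv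
  have dh : ∀ ξ, DifferentiableAt ℝ (fun w => thb F w ξ) v := fun ξ =>
    (bo_cdthb (k := 3) (l := 2) (by norm_num) h3 (hu v hv) ξ).differentiableAt (by norm_num)
  -- the derivative of `MM`
  have key : ∀ c i : Fin (n + 1), (dz (fun w => tau F w (Pi.single i 1) (Pi.single c 1) *
        thb F w (Pi.single i 1) - tau F w (Pi.single i 1) (Pi.single i 1) *
          thb F w (Pi.single c 1)) v (Pi.single c 1)).trace =
      ((dz (fun w => tau F w (Pi.single i 1) (Pi.single c 1)) v (Pi.single c 1) +
          (thz F v (Pi.single c 1) * tau F v (Pi.single i 1) (Pi.single c 1) -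
            tau F v (Pi.single i 1) (Pi.single c 1) * thz F v (Pi.single c 1))) *
              thb F v (Pi.single i 1)).trace +
        (tau F v (Pi.single i 1) (Pi.single c 1) * tau F v (Pi.single c 1) (Pi.single i 1)).trace -
      ((dz (fun w => tau F w (Pi.single i 1) (Pi.single i 1)) v (Pi.single c 1) +
          (thz F v (Pi.single c 1) * tau F v (Pi.single i 1) (Pi.single i 1) -
            tau F v (Pi.single i 1) (Pi.single i 1) * thz F v (Pi.single c 1))) *
              thb F v (Pi.single c 1)).trace -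
        (tau F v (Pi.single i 1) (Pi.single i 1) *
          tau F v (Pi.single c 1) (Pi.single c 1)).trace := by
    intro c i
    have r1 : ∀ k : Fin (n + 1), dz (fun w => thb F w (Pi.single k 1)) v (Pi.single c 1) =
        tau F v (Pi.single c 1) (Pi.single k 1) - (thz F v (Pi.single c 1) *
          thb F v (Pi.single k 1) - thb F v (Pi.single k 1) * thz F v (Pi.single c 1)) := fun k =>
      eq_sub_of_add_eq (N_thb h2 (hu v hv) (Pi.single c 1) (Pi.single k 1))
    rw [bo_dz_sub (bo_m (dt _ _) (dh _)) (bo_m (dt _ _) (dh _)), dz_mul (dt _ _) (dh _),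
      dz_mul (dt _ _) (dh _), r1, r1]
    simp only [mul_sub, sub_mul, add_mul, trace_add, trace_sub]
    have e1 : ∀ X Y Z : Mat m, (X * Y * Z).trace = (Y * (Z * X)).trace := by
      intro X Y Z
      rw [mul_assoc, trace_mul_comm, mul_assoc]
    rw [e1 (thz F v (Pi.single c 1)) (tau F v (Pi.single i 1) (Pi.single c 1)),
      e1 (thz F v (Pi.single c 1)) (tau F v (Pi.single i 1) (Pi.single i 1))]
    simp only [mul_assoc]
    ring
  have hM : ∀ c : Fin (n + 1), dzc (fun w => Yf F w (Pi.single c 1)) v (Pi.single c 1) =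
      -(star (v c) * J n c c) * (MM F v (Pi.single c 1)).trace +
        (-q v : ℂ) * ∑ i : Fin (n + 1), J n i i *
          (dz (fun w => tau F w (Pi.single i 1) (Pi.single c 1) *
            thb F w (Pi.single i 1) - tau F w (Pi.single i 1) (Pi.single i 1) *
              thb F w (Pi.single c 1)) v (Pi.single c 1)).trace := by
    intro c
    have d1 : ∀ i : Fin (n + 1), DifferentiableAt ℝ (fun w =>
        tau F w (Pi.single i 1) (Pi.single c 1) *
        thb F w (Pi.single i 1) - tau F w (Pi.single i 1) (Pi.single i 1) *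
          thb F w (Pi.single c 1)) v := fun i =>
      bo_s (bo_m (dt _ _) (dh _)) (bo_m (dt _ _) (dh _))
    have d2 : ∀ i : Fin (n + 1), DifferentiableAt ℝ (fun w => J n i i •
        (tau F w (Pi.single i 1) (Pi.single c 1) *
        thb F w (Pi.single i 1) - tau F w (Pi.single i 1) (Pi.single i 1) *
          thb F w (Pi.single c 1))) v := fun i => (d1 i).fun_const_smul _
    have d3 : DifferentiableAt ℝ (fun w => MM F w (Pi.single c 1)) v :=
      DifferentiableAt.fun_sum fun i _ => d2 i
    have d4 : DifferentiableAt ℝ (fun w => (MM F w (Pi.single c 1)).trace) v := by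
      have h := ((Matrix.traceLinearMap (Fin m) ℝ ℂ).toContinuousLinearMap).differentiableAt.comp v
        d3
      exact h
    have e1 : (fun w => Yf F w (Pi.single c 1)) =
        fun w => (-q w : ℂ) * (MM F w (Pi.single c 1)).trace := funext fun w => bo_Yf F w _
    rw [e1, bo_dzc_mul (bo_diff_q v) d4, bo_dzc_q, bo_herm_single, dzc_trace d3]
    congr 2
    have e2 : dz (fun w => MM F w (Pi.single c 1)) v (Pi.single c 1) =
        ∑ i : Fin (n + 1), J n i i • dz (fun w => tau F w (Pi.single i 1) (Pi.single c 1) *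
            thb F w (Pi.single i 1) - tau F w (Pi.single i 1) (Pi.single i 1) *
              thb F w (Pi.single c 1)) v (Pi.single c 1) := by
      simp only [MM]
      rw [bo_dz_sum _ fun i _ => d2 i]
      exact Finset.sum_congr rfl fun i _ => bo_dz_csmul (d1 i) _ _
    rw [e2, trace_sum]
    exact Finset.sum_congr rfl fun i _ => by rw [trace_smul, smul_eq_mul]
  have hs : ∑ c : Fin (n + 1), J n c c *
      dzc (fun w => Yf F w (Pi.single c 1)) v (Pi.single c 1) =
      (-q v : ℂ) * ∑ c : Fin (n + 1), ∑ i : Fin (n + 1), J n c c * J n i i *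
          (dz (fun w => tau F w (Pi.single i 1) (Pi.single c 1) *
            thb F w (Pi.single i 1) - tau F w (Pi.single i 1) (Pi.single i 1) *
              thb F w (Pi.single c 1)) v (Pi.single c 1)).trace := by
    have e0 := bo_MM_self hF (hF3.of_le (by norm_num)) hv
    have e1 : ∀ c : Fin (n + 1), J n c c *
        dzc (fun w => Yf F w (Pi.single c 1)) v (Pi.single c 1) =
        -(star (v c) * (MM F v (Pi.single c 1)).trace) +
          (-q v : ℂ) * ∑ i : Fin (n + 1), J n c c * J n i i *
          (dz (fun w => tau F w (Pi.single i 1) (Pi.single c 1) *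
            thb F w (Pi.single i 1) - tau F w (Pi.single i 1) (Pi.single i 1) *
              thb F w (Pi.single c 1)) v (Pi.single c 1)).trace := by
      intro c
      rw [hM c]
      simp only [mul_assoc (J n c c)]
      rw [← Finset.mul_sum]
      linear_combination (-(star (v c) * (MM F v (Pi.single c 1)).trace)) * bo_J_sq c
    rw [Finset.sum_congr rfl fun c _ => e1 c, Finset.sum_add_distrib, Finset.sum_neg_distrib, e0,
      neg_zero, zero_add, Finset.mul_sum]
  rw [hs]
  have hT : (tauT F v * tauT F v).trace = (q v : ℂ) ^ 2 * ∑ c : Fin (n + 1), ∑ i : Fin (n + 1),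
      J n c c * J n i i * (tau F v (Pi.single i 1) (Pi.single i 1) *
          tau F v (Pi.single c 1) (Pi.single c 1)).trace := by
    rw [tauT, smul_mul_smul_comm, trace_smul, smul_eq_mul, Finset.sum_mul_sum, trace_sum,
      Finset.sum_comm]
    congr 1
    · ring
    · refine Finset.sum_congr rfl fun c _ => ?_
      rw [trace_sum]
      refine Finset.sum_congr rfl fun i _ => ?_
      rw [smul_mul_smul_comm, trace_smul, smul_eq_mul, mul_comm (J n i i)]
  obtain ⟨X, hX⟩ : ∃ X : Fin (n + 1) → Fin (n + 1) → ℂ, ∀ c i, X c i =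
      ((dz (fun w => tau F w (Pi.single i 1) (Pi.single c 1)) v (Pi.single c 1) +
          (thz F v (Pi.single c 1) * tau F v (Pi.single i 1) (Pi.single c 1) -
            tau F v (Pi.single i 1) (Pi.single c 1) * thz F v (Pi.single c 1))) *
              thb F v (Pi.single i 1)).trace := ⟨_, fun _ _ => rfl⟩
  obtain ⟨Y, hY⟩ : ∃ Y : Fin (n + 1) → Fin (n + 1) → ℂ, ∀ c i, Y c i =
      ((dz (fun w => tau F w (Pi.single i 1) (Pi.single i 1)) v (Pi.single c 1) +
          (thz F v (Pi.single c 1) * tau F v (Pi.single i 1) (Pi.single i 1) -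
            tau F v (Pi.single i 1) (Pi.single i 1) * thz F v (Pi.single c 1))) *
              thb F v (Pi.single c 1)).trace := ⟨_, fun _ _ => rfl⟩
  have hXY : ∀ c i, X c i - Y i c =
      -((thz F v (Pi.single c 1) * thz F v (Pi.single i 1) -
            thz F v (Pi.single i 1) * thz F v (Pi.single c 1)) *
          (thb F v (Pi.single c 1) * thb F v (Pi.single i 1) -
            thb F v (Pi.single i 1) * thb F v (Pi.single c 1))).trace := by
    intro c i
    rw [hX, hY, ← trace_sub, ← sub_mul, bo_comm hF3 hu hv (Pi.single i 1) (Pi.single c 1),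
      sub_mul, trace_sub, mul_assoc (thb F v (Pi.single c 1)),
      trace_mul_comm (thb F v (Pi.single c 1)), ← trace_sub, ← trace_neg]
    congr 1
    noncomm_ring
  have hYs : ∑ c : Fin (n + 1), ∑ i : Fin (n + 1), J n c c * J n i i * Y c i =
      ∑ c : Fin (n + 1), ∑ i : Fin (n + 1), J n c c * J n i i * Y i c := by
    rw [Finset.sum_comm]
    refine Finset.sum_congr rfl fun c _ => Finset.sum_congr rfl fun i _ => ?_
    ring
  have hV : ∑ c : Fin (n + 1), ∑ i : Fin (n + 1), J n c c * J n i i *
          (dz (fun w => tau F w (Pi.single i 1) (Pi.single c 1) *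
            thb F w (Pi.single i 1) - tau F w (Pi.single i 1) (Pi.single i 1) *
              thb F w (Pi.single c 1)) v (Pi.single c 1)).trace =
      ∑ c : Fin (n + 1), ∑ i : Fin (n + 1), J n c c * J n i i * X c i +
      ∑ c : Fin (n + 1), ∑ i : Fin (n + 1), J n c c * J n i i *
        (tau F v (Pi.single i 1) (Pi.single c 1) *
          tau F v (Pi.single c 1) (Pi.single i 1)).trace -
      ∑ c : Fin (n + 1), ∑ i : Fin (n + 1), J n c c * J n i i * Y c i -
      ∑ c : Fin (n + 1), ∑ i : Fin (n + 1), J n c c * J n i i *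
        (tau F v (Pi.single i 1) (Pi.single i 1) *
          tau F v (Pi.single c 1) (Pi.single c 1)).trace := by
    simp only [← Finset.sum_add_distrib, ← Finset.sum_sub_distrib]
    refine Finset.sum_congr rfl fun c _ => Finset.sum_congr rfl fun i _ => ?_
    rw [key c i, hX, hY]
    ring
  have hL : ∑ a : Fin (n + 1), ∑ b : Fin (n + 1), J n a a * J n b b *
      ((tau F v (Pi.single a 1) (Pi.single b 1) * tau F v (Pi.single b 1) (Pi.single a 1)).trace -
        ((thz F v (Pi.single b 1) * thz F v (Pi.single a 1) -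
            thz F v (Pi.single a 1) * thz F v (Pi.single b 1)) *
          (thb F v (Pi.single b 1) * thb F v (Pi.single a 1) -
            thb F v (Pi.single a 1) * thb F v (Pi.single b 1))).trace) =
      ∑ c : Fin (n + 1), ∑ i : Fin (n + 1), J n c c * J n i i * X c i +
      ∑ c : Fin (n + 1), ∑ i : Fin (n + 1), J n c c * J n i i *
        (tau F v (Pi.single i 1) (Pi.single c 1) *
          tau F v (Pi.single c 1) (Pi.single i 1)).trace -
      ∑ c : Fin (n + 1), ∑ i : Fin (n + 1), J n c c * J n i i * Y i c := by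
    rw [Finset.sum_comm]
    simp only [← Finset.sum_add_distrib, ← Finset.sum_sub_distrib]
    refine Finset.sum_congr rfl fun c _ => Finset.sum_congr rfl fun i _ => ?_
    linear_combination (-(J n c c * J n i i)) * hXY c i
  rw [hT, hL, hV, hYs]
  ring

/-- Sesquilinear version of `sum_J_frame`, when `B(v, ·) = B(·, v) = 0` at `v = g e_n`. -/
theorem sum_J_sesq (B : Vec n → Vec n → ℂ) (hadd₁ : ∀ a b c, B (a + b) c = B a c + B b c)
    (hadd₂ : ∀ a b c, B a (b + c) = B a b + B a c) (hs₁ : ∀ (r : ℂ) a c, B (r • a) c = r * B a c)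
    (hs₂ : ∀ (r : ℂ) a c, B a (r • c) = star r * B a c) (g : SUGroup n)
    (h0 : B (act g (base n)) (act g (base n)) = 0) :
    ∑ i : Fin (n + 1), J n i i * B (Pi.single i 1) (Pi.single i 1) =
      ∑ j : Fin n, B (act g (Pi.single j.castSucc 1)) (act g (Pi.single j.castSucc 1)) := by
  have hB : ∀ v w : Vec n, B v w = ∑ i, ∑ j, v i * star (w j) *
      B (Pi.single i 1) (Pi.single j 1) := by
    intro v w
    rw [bo_lin (fun v => B v w) (fun a b => hadd₁ a b w) (fun r a => hs₁ r a w) v]
    refine Finset.sum_congr rfl fun i _ => ?_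
    rw [bo_anti (fun w => B (Pi.single i 1) w) (fun a b => hadd₂ _ a b) (fun r a => hs₂ r _ a) w,
      Finset.smul_sum]
    refine Finset.sum_congr rfl fun j _ => ?_
    rw [smul_eq_mul, smul_eq_mul, mul_assoc]
  have hcol : ∀ k i : Fin (n + 1), act g (Pi.single k 1) i = g.toMatrix i k := by
    intro k i
    rw [act, Matrix.mulVec_single_one, Matrix.col_apply]
  have h1 : ∑ k : Fin (n + 1), J n k k * B (act g (Pi.single k 1)) (act g (Pi.single k 1)) =
      ∑ i : Fin (n + 1), J n i i * B (Pi.single i 1) (Pi.single i 1) := by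
    have h2 : ∀ i j : Fin (n + 1), ∑ k : Fin (n + 1), J n k k * (g.toMatrix i k *
        star (g.toMatrix j k)) = J n i j := by
      intro i j
      have h3 := congrFun (congrFun (mul_J_mul g) i) j
      rw [Matrix.mul_apply] at h3
      rw [← h3]
      refine Finset.sum_congr rfl fun k _ => ?_
      rw [Matrix.conjTranspose_apply, J, Matrix.mul_diagonal, diagonal_apply_eq]
      ring
    simp only [hB (act g _) (act g _), hcol]
    have h4 : ∀ k : Fin (n + 1), J n k k * ∑ i : Fin (n + 1), ∑ j : Fin (n + 1),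
        g.toMatrix i k * star (g.toMatrix j k) * B (Pi.single i 1) (Pi.single j 1) =
        ∑ i : Fin (n + 1), ∑ j : Fin (n + 1), J n k k * (g.toMatrix i k *
          star (g.toMatrix j k)) * B (Pi.single i 1) (Pi.single j 1) := by
      intro k
      rw [Finset.mul_sum]
      refine Finset.sum_congr rfl fun i _ => ?_
      rw [Finset.mul_sum]
      refine Finset.sum_congr rfl fun j _ => ?_
      ring
    rw [Finset.sum_congr rfl fun k _ => h4 k, Finset.sum_comm]
    refine Finset.sum_congr rfl fun i _ => ?_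
    rw [Finset.sum_comm, Finset.sum_eq_single i]
    · rw [← Finset.sum_mul, h2]
    · intro j _ hj
      rw [← Finset.sum_mul, h2, J, diagonal_apply_ne _ hj.symm, zero_mul]
    · intro h
      exact absurd (Finset.mem_univ i) h
  rw [← h1, Fin.sum_univ_castSucc]
  have h5 : (Pi.single (Fin.last n) 1 : Vec n) = base n := rfl
  rw [h5, h0, mul_zero, add_zero]
  refine Finset.sum_congr rfl fun j _ => ?_
  rw [show J n j.castSucc j.castSucc = 1 by
    rw [J, diagonal_apply_eq, if_neg (Fin.castSucc_lt_last j).ne], one_mul]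

private theorem bo_fderiv_star {B : Vec n → Mat m} {v : Vec n} (hB : DifferentiableAt ℝ B v)
    (ξ : Vec n) : fderiv ℝ (fun w => (B w)ᴴ) v ξ = (fderiv ℝ B v ξ)ᴴ := by
  have h : HasFDerivAt (fun w => (B w)ᴴ)
      ((starL' ℝ : Mat m ≃L[ℝ] Mat m).toContinuousLinearMap.comp (fderiv ℝ B v)) v :=
    ((starL' ℝ : Mat m ≃L[ℝ] Mat m).toContinuousLinearMap.hasFDerivAt).comp v hB.hasFDerivAt
  rw [h.fderiv]
  rfl

private theorem bo_half : star (1 / 2 : ℂ) = 1 / 2 := by
  have h : (1 / 2 : ℂ) = ((1 / 2 : ℝ) : ℂ) := by push_cast; rfl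
  rw [h, Complex.star_def, Complex.conj_ofReal]

private theorem bo_dzb_star {B : Vec n → Mat m} {v : Vec n} (hB : DifferentiableAt ℝ B v)
    (ξ : Vec n) : (dzb B v ξ)ᴴ = dz (fun w => (B w)ᴴ) v ξ := by
  rw [dz, dzb, bo_fderiv_star hB, bo_fderiv_star hB, conjTranspose_smul, conjTranspose_add,
    conjTranspose_smul, bo_half]
  simp only [Complex.star_def, Complex.conj_I, neg_smul, ← sub_eq_add_neg]

private theorem bo_her {F : Vec n → Mat m} (hp : ∀ v ∈ Cone n, (F v).PosDef) :
    ∀ w ∈ Cone n, (F w).IsHermitian := fun w hw => (hp w hw).isHermitian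

/-- Adjoint relations for the adjoint `X ↦ F⁻¹ Xᴴ F`. -/
theorem tau_adj {F : Vec n → Mat m} (hF2 : ContDiffOn ℝ 2 F (Cone n))
    (hp : ∀ v ∈ Cone n, (F v).PosDef) {v : Vec n} (hv : v ∈ Cone n) (ξ η : Vec n) :
    (F v)⁻¹ * (tau F v ξ η)ᴴ * F v = tau F v η ξ := by
  have h2 : ∀ w ∈ Cone n, ContDiffAt ℝ 2 F w := fun w hw =>
    hF2.contDiffAt ((isOpen_cone n).mem_nhds hw)
  have hd : ∀ w ∈ Cone n, DifferentiableAt ℝ F w := fun w hw =>
    (h2 w hw).differentiableAt (by norm_num)
  have hev : ∀ᶠ w in 𝓝 v, w ∈ Cone n := (isOpen_cone n).mem_nhds hv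
  have hz : ∀ w ∈ Cone n, ∀ ζ, (dz F w ζ)ᴴ = dzb F w ζ := fun w hw ζ =>
    dz_conj (bo_her hp) hw (hd w hw) ζ
  have hz' : ∀ ζ, (dzb F v ζ)ᴴ = dz F v ζ := fun ζ => by
    rw [← hz v hv, conjTranspose_conjTranspose]
  have hzz : (dzb (fun w => dz F w ξ) v η)ᴴ = dzb (fun w => dz F w η) v ξ := by
    rw [bo_dzb_star ((bo_cddz (k := 2) (l := 1) (by norm_num) (h2 v hv) ξ).differentiableAt
      (by norm_num)), ← dz_dzb (h2 v hv) η ξ]
    refine bo_dz_congr ?_ _
    filter_upwards [hev] with w hw
    exact hz w hw ξ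
  have hFH : (F v)ᴴ = F v := (hp v hv).isHermitian.eq
  have hF1 : ((F v)⁻¹)ᴴ = (F v)⁻¹ := by rw [conjTranspose_nonsing_inv, hFH]
  have hu : IsUnit (F v).det := (isUnit_iff_isUnit_det _).1 (hp v hv).isUnit
  rw [tau, tau, conjTranspose_smul, conjTranspose_mul, conjTranspose_sub, conjTranspose_smul,
    conjTranspose_add, conjTranspose_mul, conjTranspose_mul, conjTranspose_mul,
    conjTranspose_mul, hzz, hz v hv, hz', hF1]
  have e1 : ∀ Z : Mat m, (F v)⁻¹ * (star (1 / 2 : ℂ) • (Z * (F v)⁻¹)) * F v =
      (1 / 2 : ℂ) • ((F v)⁻¹ * Z) := by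
    intro Z
    rw [mul_smul_comm, smul_mul_assoc, mul_assoc, mul_assoc Z, nonsing_inv_mul _ hu, mul_one,
      bo_half]
  rw [e1, bo_half]
  simp only [mul_assoc, add_comm]

theorem thz_adj {F : Vec n → Mat m} (hF2 : ContDiffOn ℝ 2 F (Cone n))
    (hp : ∀ v ∈ Cone n, (F v).PosDef) {v : Vec n} (hv : v ∈ Cone n) (ξ : Vec n) :
    (F v)⁻¹ * (thz F v ξ)ᴴ * F v = thb F v ξ := by
  have hd : DifferentiableAt ℝ F v :=
    (hF2.contDiffAt ((isOpen_cone n).mem_nhds hv)).differentiableAt (by norm_num)
  have hFH : (F v)ᴴ = F v := (hp v hv).isHermitian.eq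
  have hF1 : ((F v)⁻¹)ᴴ = (F v)⁻¹ := by rw [conjTranspose_nonsing_inv, hFH]
  have hu : IsUnit (F v).det := (isUnit_iff_isUnit_det _).1 (hp v hv).isUnit
  rw [thz, thb, conjTranspose_smul, conjTranspose_mul, dz_conj (bo_her hp) hv hd, hF1,
    mul_smul_comm, smul_mul_assoc, mul_assoc, mul_assoc (dzb F v ξ), nonsing_inv_mul _ hu,
    mul_one, bo_half]

/-- The square norm for the metric `F`. -/
noncomputable def nF (F X : Mat m) : ℝ := (X * F⁻¹ * Xᴴ * F).trace.re

theorem nF_nonneg {F : Mat m} (hF : F.PosDef) (X : Mat m) : 0 ≤ nF F X :=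
  trace_mul_nonneg (hF.inv.posSemidef.mul_mul_conjTranspose_same X) hF.posSemidef

private theorem bo_fac {A : Mat m} (hA : A.PosSemidef) : ∃ B : Mat m, A = Bᴴ * B := by
  obtain ⟨B, hB⟩ := CStarAlgebra.nonneg_iff_eq_star_mul_self.1 hA.nonneg
  exact ⟨B, hB⟩

theorem nF_eq_zero {F : Mat m} (hF : F.PosDef) {X : Mat m} (h : nF F X = 0) : X = 0 := by
  obtain ⟨B, hB⟩ := bo_fac hF.posSemidef
  obtain ⟨C, hC⟩ := bo_fac hF.inv.posSemidef
  have hBu : IsUnit B := by
    have h1 : IsUnit (Bᴴ * B).det := hB ▸ (isUnit_iff_isUnit_det _).1 hF.isUnit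
    rw [det_mul] at h1
    exact (isUnit_iff_isUnit_det _).2 (isUnit_of_mul_isUnit_right h1)
  have hCu : IsUnit Cᴴ := by
    have h1 : IsUnit (Cᴴ * C).det := hC ▸ (isUnit_iff_isUnit_det _).1 hF.inv.isUnit
    rw [det_mul] at h1
    exact (isUnit_iff_isUnit_det _).2 (isUnit_of_mul_isUnit_left h1)
  have h1 : (X * F⁻¹ * Xᴴ * F).trace = ((B * X * Cᴴ) * (B * X * Cᴴ)ᴴ).trace := by
    rw [hC]
    conv_lhs => rw [hB]
    rw [conjTranspose_mul, conjTranspose_mul, conjTranspose_conjTranspose,
      ← mul_assoc (X * (Cᴴ * C) * Xᴴ), trace_mul_comm]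
    simp only [mul_assoc]
  have h2 : ((B * X * Cᴴ) * (B * X * Cᴴ)ᴴ).trace = 0 := by
    have h3 := (Matrix.posSemidef_self_mul_conjTranspose (B * X * Cᴴ)).trace_nonneg
    have h4 : ((B * X * Cᴴ) * (B * X * Cᴴ)ᴴ).trace.re = 0 := by
      rw [← h1]
      exact h
    refine Complex.ext h4 ?_
    exact (Complex.le_def.1 h3).2.symm
  rw [Matrix.trace_mul_conjTranspose_self_eq_zero_iff] at h2
  have h5 : B * X = 0 := by
    have := hCu.mul_left_eq_zero.1 h2
    exact this
  exact hBu.mul_right_eq_zero.1 h5

/-- The left side of the identity in a frame. -/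
noncomputable def bochL (F : Vec n → Mat m) (g : SUGroup n) : ℝ :=
  ∑ i : Fin n, ∑ j : Fin n,
    (nF (F (act g (base n))) (tau F (act g (base n)) (act g (Pi.single i.castSucc 1))
        (act g (Pi.single j.castSucc 1))) +
      nF (F (act g (base n))) (thz F (act g (base n)) (act g (Pi.single i.castSucc 1)) *
          thz F (act g (base n)) (act g (Pi.single j.castSucc 1)) -
        thz F (act g (base n)) (act g (Pi.single j.castSucc 1)) *
          thz F (act g (base n)) (act g (Pi.single i.castSucc 1))))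

private theorem bo_tau_add_left {F : Vec n → Mat m} {v : Vec n} (hd : ContDiffAt ℝ 2 F v)
    (ξ η ζ : Vec n) : tau F v (ξ + η) ζ = tau F v ξ ζ + tau F v η ζ := by
  have e0 : dzb (fun w => dz F w (ξ + η)) v ζ = dzb (fun w => dz F w ξ) v ζ +
      dzb (fun w => dz F w η) v ζ := by
    simp only [dz_add]
    exact bo_dzb_add ((bo_cddz (k := 2) (l := 1) (by norm_num) hd ξ).differentiableAt
      (by norm_num)) ((bo_cddz (k := 2) (l := 1) (by norm_num) hd η).differentiableAt
      (by norm_num)) ζ
  rw [tau, tau, tau, dz_add, e0, ← smul_add, ← mul_add]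
  congr 2
  simp only [add_mul, mul_add, smul_add]
  abel

private theorem bo_tau_smul_left {F : Vec n → Mat m} {v : Vec n} (hd : ContDiffAt ℝ 2 F v)
    (ξ η : Vec n) (c : ℂ) : tau F v (c • ξ) η = c • tau F v ξ η := by
  have e0 : dzb (fun w => dz F w (c • ξ)) v η = c • dzb (fun w => dz F w ξ) v η := by
    have h1 : dzb (fun w => dz F w (c • ξ)) v η = dz (fun w => dzb F w η) v (c • ξ) :=
      (dz_dzb hd (c • ξ) η).symm
    rw [h1, dz_smul, dz_dzb hd]
  rw [tau, tau, dz_smul, e0]
  simp only [smul_mul_assoc, mul_smul_comm, mul_sub, mul_add]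
  module

/-- The identity in a frame. -/
theorem boch_frame {F : Vec n → Mat m} (hF : Homog F) (hF3 : ContDiffOn ℝ 3 F (Cone n))
    (hp : ∀ v ∈ Cone n, (F v).PosDef) (g : SUGroup n) :
    bochL F g = nF (F (act g (base n))) (tauT F (act g (base n))) +
      (∑ c : Fin (n + 1), J n c c *
        dzc (fun w => Yf F w (Pi.single c 1)) (act g (base n)) (Pi.single c 1)).re := by
  have hv : act g (base n) ∈ Cone n := orbit_mem g
  have hF2 : ContDiffOn ℝ 2 F (Cone n) := hF3.of_le (by norm_num)
  have hd : ContDiffAt ℝ 2 F (act g (base n)) := hF2.contDiffAt ((isOpen_cone n).mem_nhds hv)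
  have key := boch_identity hF hF3 (fun v hv => (hp v hv).isUnit) hv
  rw [q_orbit] at key
  have hFH : (F (act g (base n)))ᴴ = F (act g (base n)) := (hp _ hv).isHermitian.eq
  have hu : IsUnit (F (act g (base n))).det := (isUnit_iff_isUnit_det _).1 (hp _ hv).isUnit
  have hnF : ∀ X : Mat m, nF (F (act g (base n))) X =
      (X * ((F (act g (base n)))⁻¹ * Xᴴ * F (act g (base n)))).trace.re := by
    intro X
    rw [nF]
    simp only [mul_assoc]
  -- the sums over the frame
  have s1 : ∀ w : Vec n, ∑ a : Fin (n + 1), J n a a *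
      ((tau F (act g (base n)) (Pi.single a 1) w * tau F (act g (base n)) w
          (Pi.single a 1)).trace -
        ((thz F (act g (base n)) w * thz F (act g (base n)) (Pi.single a 1) -
            thz F (act g (base n)) (Pi.single a 1) * thz F (act g (base n)) w) *
          (thb F (act g (base n)) w * thb F (act g (base n)) (Pi.single a 1) -
            thb F (act g (base n)) (Pi.single a 1) * thb F (act g (base n)) w)).trace) =
      ∑ i : Fin n,
      ((tau F (act g (base n)) (act g (Pi.single i.castSucc 1)) w * tau F (act g (base n)) w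
          (act g (Pi.single i.castSucc 1))).trace -
        ((thz F (act g (base n)) w * thz F (act g (base n)) (act g (Pi.single i.castSucc 1)) -
            thz F (act g (base n)) (act g (Pi.single i.castSucc 1)) * thz F (act g (base n)) w) *
          (thb F (act g (base n)) w * thb F (act g (base n)) (act g (Pi.single i.castSucc 1)) -
            thb F (act g (base n)) (act g (Pi.single i.castSucc 1)) *
              thb F (act g (base n)) w)).trace) := by
    intro w
    refine sum_J_sesq (fun ξ η => (tau F (act g (base n)) ξ w * tau F (act g (base n)) w η).trace -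
        ((thz F (act g (base n)) w * thz F (act g (base n)) ξ -
            thz F (act g (base n)) ξ * thz F (act g (base n)) w) *
          (thb F (act g (base n)) w * thb F (act g (base n)) η -
            thb F (act g (base n)) η * thb F (act g (base n)) w)).trace) ?_ ?_ ?_ ?_ g ?_
    · intro a b c
      simp only [bo_tau_add_left hd, bo_thz_add, add_mul, mul_add, sub_mul, mul_sub, trace_add,
        trace_sub]
      ring
    · intro a b c
      simp only [bo_tau_add, bo_thb_add, add_mul, mul_add, sub_mul, mul_sub, trace_add,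
        trace_sub]
      ring
    · intro r a c
      simp only [bo_tau_smul_left hd, bo_thz_smul, smul_mul_assoc, mul_smul_comm, sub_mul,
        mul_sub, trace_sub, trace_smul, smul_eq_mul]
    · intro r a c
      simp only [bo_tau_smul, bo_thb_smul, smul_mul_assoc, mul_smul_comm, sub_mul,
        mul_sub, trace_sub, trace_smul, smul_eq_mul]
    · rw [(tau_self hF hv hF2 w).1, (tau_self hF hv hF2 w).2.2.1, (tau_self hF hv hF2 w).2.2.2]
      simp
  have s2 : ∀ w : Vec n, ∑ b : Fin (n + 1), J n b b *
      ((tau F (act g (base n)) w (Pi.single b 1) * tau F (act g (base n)) (Pi.single b 1)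
          w).trace -
        ((thz F (act g (base n)) (Pi.single b 1) * thz F (act g (base n)) w -
            thz F (act g (base n)) w * thz F (act g (base n)) (Pi.single b 1)) *
          (thb F (act g (base n)) (Pi.single b 1) * thb F (act g (base n)) w -
            thb F (act g (base n)) w * thb F (act g (base n)) (Pi.single b 1))).trace) =
      ∑ j : Fin n,
      ((tau F (act g (base n)) w (act g (Pi.single j.castSucc 1)) *
          tau F (act g (base n)) (act g (Pi.single j.castSucc 1)) w).trace -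
        ((thz F (act g (base n)) (act g (Pi.single j.castSucc 1)) * thz F (act g (base n)) w -
            thz F (act g (base n)) w * thz F (act g (base n)) (act g (Pi.single j.castSucc 1))) *
          (thb F (act g (base n)) (act g (Pi.single j.castSucc 1)) * thb F (act g (base n)) w -
            thb F (act g (base n)) w *
              thb F (act g (base n)) (act g (Pi.single j.castSucc 1)))).trace) := by
    intro w
    refine sum_J_sesq (fun ξ η => (tau F (act g (base n)) w η * tau F (act g (base n)) ξ w).trace -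
        ((thz F (act g (base n)) ξ * thz F (act g (base n)) w -
            thz F (act g (base n)) w * thz F (act g (base n)) ξ) *
          (thb F (act g (base n)) η * thb F (act g (base n)) w -
            thb F (act g (base n)) w * thb F (act g (base n)) η)).trace) ?_ ?_ ?_ ?_ g ?_
    · intro a b c
      simp only [bo_tau_add_left hd, bo_thz_add, add_mul, mul_add, sub_mul, mul_sub, trace_add,
        trace_sub]
      ring
    · intro a b c
      simp only [bo_tau_add, bo_thb_add, add_mul, mul_add, sub_mul, mul_sub, trace_add,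
        trace_sub]
      ring
    · intro r a c
      simp only [bo_tau_smul_left hd, bo_thz_smul, smul_mul_assoc, mul_smul_comm, sub_mul,
        mul_sub, trace_sub, trace_smul, smul_eq_mul]
    · intro r a c
      simp only [bo_tau_smul, bo_thb_smul, smul_mul_assoc, mul_smul_comm, sub_mul,
        mul_sub, trace_sub, trace_smul, smul_eq_mul]
    · rw [(tau_self hF hv hF2 w).2.1, (tau_self hF hv hF2 w).2.2.1, (tau_self hF hv hF2 w).2.2.2]
      simp
  have hadj : ∀ ξ, (F (act g (base n)))⁻¹ * (thz F (act g (base n)) ξ)ᴴ * F (act g (base n)) =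
      thb F (act g (base n)) ξ := fun ξ => thz_adj hF2 hp hv ξ
  have hc : ∀ ξ η, (F (act g (base n)))⁻¹ * (thz F (act g (base n)) ξ *
      thz F (act g (base n)) η)ᴴ * F (act g (base n)) =
        thb F (act g (base n)) η * thb F (act g (base n)) ξ := by
    intro ξ η
    rw [← hadj, ← hadj, conjTranspose_mul]
    have e1 : F (act g (base n)) * (F (act g (base n)))⁻¹ = 1 := mul_nonsing_inv _ hu
    simp only [mul_assoc]
    rw [← mul_assoc (F (act g (base n))) (F (act g (base n)))⁻¹, e1, one_mul]
  have hL : bochL F g = (∑ i : Fin n, ∑ j : Fin n,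
      ((tau F (act g (base n)) (act g (Pi.single i.castSucc 1))
          (act g (Pi.single j.castSucc 1)) *
          tau F (act g (base n)) (act g (Pi.single j.castSucc 1))
            (act g (Pi.single i.castSucc 1))).trace -
        ((thz F (act g (base n)) (act g (Pi.single j.castSucc 1)) *
            thz F (act g (base n)) (act g (Pi.single i.castSucc 1)) -
            thz F (act g (base n)) (act g (Pi.single i.castSucc 1)) *
              thz F (act g (base n)) (act g (Pi.single j.castSucc 1))) *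
          (thb F (act g (base n)) (act g (Pi.single j.castSucc 1)) *
            thb F (act g (base n)) (act g (Pi.single i.castSucc 1)) -
            thb F (act g (base n)) (act g (Pi.single i.castSucc 1)) *
              thb F (act g (base n)) (act g (Pi.single j.castSucc 1)))).trace)).re := by
    rw [bochL, Complex.re_sum]
    refine Finset.sum_congr rfl fun i _ => ?_
    rw [Complex.re_sum]
    refine Finset.sum_congr rfl fun j _ => ?_
    have hZ : ∀ ξ η, (F (act g (base n)))⁻¹ * (thz F (act g (base n)) ξ *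
        thz F (act g (base n)) η - thz F (act g (base n)) η * thz F (act g (base n)) ξ)ᴴ *
          F (act g (base n)) = thb F (act g (base n)) η * thb F (act g (base n)) ξ -
            thb F (act g (base n)) ξ * thb F (act g (base n)) η := by
      intro ξ η
      rw [conjTranspose_sub, mul_sub, sub_mul, hc, hc]
    rw [hnF, hnF, tau_adj hF2 hp hv, hZ, ← Complex.add_re]
    congr 1
    have e : ∀ (a : ℂ) (X Y Z : Mat m),
        a + ((X - Y) * Z).trace = a - ((Y - X) * Z).trace := by
      intro a X Y Z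
      rw [← neg_sub X Y, neg_mul, trace_neg, sub_neg_eq_add]
    exact e _ _ _ _
  have hT : nF (F (act g (base n))) (tauT F (act g (base n))) =
      ((tauT F (act g (base n)) * tauT F (act g (base n))).trace).re := by
    rw [hnF]
    congr 3
    rw [tauT, conjTranspose_smul, conjTranspose_sum, mul_smul_comm, smul_mul_assoc,
      Finset.mul_sum, Finset.sum_mul]
    have e1 : star (-(q (act g (base n)) : ℂ)) = -(q (act g (base n)) : ℂ) := by
      rw [star_neg, Complex.star_def, Complex.conj_ofReal]
    rw [e1]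
    congr 1
    refine Finset.sum_congr rfl fun i _ => ?_
    have e2 : star (J n i i) = J n i i := by
      rw [J, diagonal_apply_eq]
      split_ifs <;> simp
    rw [conjTranspose_smul, e2, mul_smul_comm, smul_mul_assoc, tau_adj hF2 hp hv]
  have hsum : ∑ a : Fin (n + 1), ∑ b : Fin (n + 1), J n a a * J n b b *
      ((tau F (act g (base n)) (Pi.single a 1) (Pi.single b 1) *
          tau F (act g (base n)) (Pi.single b 1) (Pi.single a 1)).trace -
        ((thz F (act g (base n)) (Pi.single b 1) * thz F (act g (base n)) (Pi.single a 1) -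
            thz F (act g (base n)) (Pi.single a 1) * thz F (act g (base n)) (Pi.single b 1)) *
          (thb F (act g (base n)) (Pi.single b 1) * thb F (act g (base n)) (Pi.single a 1) -
            thb F (act g (base n)) (Pi.single a 1) *
              thb F (act g (base n)) (Pi.single b 1))).trace) =
      ∑ i : Fin n, ∑ j : Fin n,
      ((tau F (act g (base n)) (act g (Pi.single i.castSucc 1))
          (act g (Pi.single j.castSucc 1)) *
          tau F (act g (base n)) (act g (Pi.single j.castSucc 1))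
            (act g (Pi.single i.castSucc 1))).trace -
        ((thz F (act g (base n)) (act g (Pi.single j.castSucc 1)) *
            thz F (act g (base n)) (act g (Pi.single i.castSucc 1)) -
            thz F (act g (base n)) (act g (Pi.single i.castSucc 1)) *
              thz F (act g (base n)) (act g (Pi.single j.castSucc 1))) *
          (thb F (act g (base n)) (act g (Pi.single j.castSucc 1)) *
            thb F (act g (base n)) (act g (Pi.single i.castSucc 1)) -
            thb F (act g (base n)) (act g (Pi.single i.castSucc 1)) *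
              thb F (act g (base n)) (act g (Pi.single j.castSucc 1)))).trace) := by
    rw [Finset.sum_comm]
    have e1 : ∀ b : Fin (n + 1), ∑ a : Fin (n + 1), J n a a * J n b b *
      ((tau F (act g (base n)) (Pi.single a 1) (Pi.single b 1) *
          tau F (act g (base n)) (Pi.single b 1) (Pi.single a 1)).trace -
        ((thz F (act g (base n)) (Pi.single b 1) * thz F (act g (base n)) (Pi.single a 1) -
            thz F (act g (base n)) (Pi.single a 1) * thz F (act g (base n)) (Pi.single b 1)) *
          (thb F (act g (base n)) (Pi.single b 1) * thb F (act g (base n)) (Pi.single a 1) -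
            thb F (act g (base n)) (Pi.single a 1) *
              thb F (act g (base n)) (Pi.single b 1))).trace) = J n b b *
        ∑ i : Fin n,
      ((tau F (act g (base n)) (act g (Pi.single i.castSucc 1)) (Pi.single b 1) *
          tau F (act g (base n)) (Pi.single b 1) (act g (Pi.single i.castSucc 1))).trace -
        ((thz F (act g (base n)) (Pi.single b 1) *
            thz F (act g (base n)) (act g (Pi.single i.castSucc 1)) -
            thz F (act g (base n)) (act g (Pi.single i.castSucc 1)) *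
              thz F (act g (base n)) (Pi.single b 1)) *
          (thb F (act g (base n)) (Pi.single b 1) *
            thb F (act g (base n)) (act g (Pi.single i.castSucc 1)) -
            thb F (act g (base n)) (act g (Pi.single i.castSucc 1)) *
              thb F (act g (base n)) (Pi.single b 1))).trace) := by
      intro b
      rw [← s1 (Pi.single b 1), Finset.mul_sum]
      refine Finset.sum_congr rfl fun a _ => ?_
      ring
    rw [Finset.sum_congr rfl fun b _ => e1 b]
    simp only [Finset.mul_sum]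
    rw [Finset.sum_comm]
    exact Finset.sum_congr rfl fun i _ => s2 _
  rw [hL, ← hsum, hT, ← Complex.add_re]
  congr 1
  simpa using key

end Pool.Agent.Lib.MP_5d4057_al.HM
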