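import Pool.Agent.Lib.MP_5d4057_al.HM.BochB
import Pool.Agent.Lib.MP_5d4057_al.HM.CutB

/-! Transformation rules for `dz`, `dzb`, `tau`, `thz`, `thb` under complex linear maps. -/

namespace Pool.Agent.Lib.MP_5d4057_al.HM

open Matrix MeasureTheory Filter Topology Pool.Agent.Lib.MP_5d4057_al Pool.Agent.Lib.MP_5d4057_al.Hyb

open scoped ComplexOrder MatrixOrder Matrix.Norms.L2Operator

variable {n m : ℕ}

/-- the chain rule for a relation `f ∘ T = Λ ∘ f'` -/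
theorem bc_fderiv {f f' : Vec n → Mat m} {T : Vec n →L[ℂ] Vec n} {Λ : Mat m →L[ℂ] Mat m}
    {v : Vec n} (h : ∀ᶠ w in 𝓝 v, f (T w) = Λ (f' w)) (hf : DifferentiableAt ℝ f (T v))
    (hf' : DifferentiableAt ℝ f' v) (ξ : Vec n) :
    fderiv ℝ f (T v) (T ξ) = Λ (fderiv ℝ f' v ξ) := by
  have h1 : HasFDerivAt (fun w => f (T w)) ((fderiv ℝ f (T v)).comp (T.restrictScalars ℝ)) v :=
    hf.hasFDerivAt.comp v (T.restrictScalars ℝ).hasFDerivAt
  have h2 : HasFDerivAt (fun w => Λ (f' w)) ((Λ.restrictScalars ℝ).comp (fderiv ℝ f' v)) v :=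
    (Λ.restrictScalars ℝ).hasFDerivAt.comp v hf'.hasFDerivAt
  have h3 := h2.congr_of_eventuallyEq h
  exact congrArg (fun A : Vec n →L[ℝ] Mat m => A ξ) (h1.unique h3)

theorem bc_dz {f f' : Vec n → Mat m} {T : Vec n →L[ℂ] Vec n} {Λ : Mat m →L[ℂ] Mat m}
    {v : Vec n} (h : ∀ᶠ w in 𝓝 v, f (T w) = Λ (f' w)) (hf : DifferentiableAt ℝ f (T v))
    (hf' : DifferentiableAt ℝ f' v) (ξ : Vec n) : dz f (T v) (T ξ) = Λ (dz f' v ξ) := by
  have h1 := bc_fderiv h hf hf' ξ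
  have h2 := bc_fderiv h hf hf' (Complex.I • ξ)
  rw [map_smul] at h2
  rw [dz, dz, h1, h2, map_smul Λ, map_sub Λ, map_smul Λ]

theorem bc_dzb {f f' : Vec n → Mat m} {T : Vec n →L[ℂ] Vec n} {Λ : Mat m →L[ℂ] Mat m}
    {v : Vec n} (h : ∀ᶠ w in 𝓝 v, f (T w) = Λ (f' w)) (hf : DifferentiableAt ℝ f (T v))
    (hf' : DifferentiableAt ℝ f' v) (ξ : Vec n) : dzb f (T v) (T ξ) = Λ (dzb f' v ξ) := by
  have h1 := bc_fderiv h hf hf' ξ
  have h2 := bc_fderiv h hf hf' (Complex.I • ξ)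
  rw [map_smul] at h2
  rw [dzb, dzb, h1, h2, map_smul Λ, map_add Λ, map_smul Λ]

/-- `X ↦ A X B` -/
noncomputable def bcL (A B : Mat m) : Mat m →L[ℂ] Mat m :=
  LinearMap.toContinuousLinearMap
    { toFun := fun X => A * X * B
      map_add' := fun X Y => by rw [mul_add, add_mul]
      map_smul' := fun c X => by rw [mul_smul_comm, smul_mul_assoc, RingHom.id_apply] }

theorem bcL_apply (A B X : Mat m) : bcL A B X = A * X * B := rfl

/-- `T` is a complex linear map preserving the cone with `F (T v) = A F(v) Aᴴ` -/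
structure Tr (F : Vec n → Mat m) (T : Vec n →L[ℂ] Vec n) (A : Mat m) : Prop where
  cone : ∀ v ∈ Cone n, T v ∈ Cone n
  unit : IsUnit A
  rel : ∀ v ∈ Cone n, F (T v) = A * F v * Aᴴ

theorem cone_nhds {v : Vec n} (hv : v ∈ Cone n) : ∀ᶠ w in 𝓝 v, w ∈ Cone n :=
  (isOpen_cone n).mem_nhds hv

theorem bc_diff {F : Vec n → Mat m} (hF : ContDiffOn ℝ 2 F (Cone n)) {v : Vec n}
    (hv : v ∈ Cone n) : DifferentiableAt ℝ F v :=
  (hF.contDiffAt ((isOpen_cone n).mem_nhds hv)).differentiableAt (by norm_num)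

theorem bc_diff_fderiv {F : Vec n → Mat m} (hF : ContDiffOn ℝ 2 F (Cone n)) {v : Vec n}
    (hv : v ∈ Cone n) : DifferentiableAt ℝ (fderiv ℝ F) v :=
  ((hF.contDiffAt ((isOpen_cone n).mem_nhds hv)).fderiv_right (m := 1)
    (by norm_num)).differentiableAt (by norm_num)

theorem bc_diff_dz {F : Vec n → Mat m} (hF : ContDiffOn ℝ 2 F (Cone n)) {v : Vec n}
    (hv : v ∈ Cone n) (ξ : Vec n) : DifferentiableAt ℝ (fun w => dz F w ξ) v := by
  have h := bc_diff_fderiv hF hv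
  have h1 : ∀ η : Vec n, DifferentiableAt ℝ (fun w => fderiv ℝ F w η) v := fun η =>
    h.clm_apply (differentiableAt_const η)
  unfold dz
  exact ((h1 ξ).sub ((h1 (Complex.I • ξ)).const_smul Complex.I)).const_smul (1 / 2 : ℂ)

section
variable {F : Vec n → Mat m} {T : Vec n →L[ℂ] Vec n} {A : Mat m}

theorem Tr.dz (h : Tr F T A) (hF : ContDiffOn ℝ 2 F (Cone n)) {v : Vec n} (hv : v ∈ Cone n)
    (ξ : Vec n) : dz F (T v) (T ξ) = A * dz F v ξ * Aᴴ := by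
  have h1 : ∀ᶠ w in 𝓝 v, F (T w) = bcL A Aᴴ (F w) := by
    filter_upwards [cone_nhds hv] with w hw
    rw [h.rel w hw, bcL_apply]
  rw [bc_dz h1 (bc_diff hF (h.cone v hv)) (bc_diff hF hv), bcL_apply]

theorem Tr.dzb (h : Tr F T A) (hF : ContDiffOn ℝ 2 F (Cone n)) {v : Vec n} (hv : v ∈ Cone n)
    (ξ : Vec n) : dzb F (T v) (T ξ) = A * dzb F v ξ * Aᴴ := by
  have h1 : ∀ᶠ w in 𝓝 v, F (T w) = bcL A Aᴴ (F w) := by
    filter_upwards [cone_nhds hv] with w hw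
    rw [h.rel w hw, bcL_apply]
  rw [bc_dzb h1 (bc_diff hF (h.cone v hv)) (bc_diff hF hv), bcL_apply]

theorem Tr.dzbz (h : Tr F T A) (hF : ContDiffOn ℝ 2 F (Cone n)) {v : Vec n} (hv : v ∈ Cone n)
    (ξ η : Vec n) : HM.dzb (fun w => HM.dz F w (T ξ)) (T v) (T η) =
      A * HM.dzb (fun w => HM.dz F w ξ) v η * Aᴴ := by
  have h1 : ∀ᶠ w in 𝓝 v, (fun w => HM.dz F w (T ξ)) (T w) =
      bcL A Aᴴ ((fun w => HM.dz F w ξ) w) := by
    filter_upwards [cone_nhds hv] with w hw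
    show HM.dz F (T w) (T ξ) = _
    rw [h.dz hF hw, bcL_apply]
  rw [bc_dzb h1 (bc_diff_dz hF (h.cone v hv) _) (bc_diff_dz hF hv _), bcL_apply]

theorem Tr.unit' (h : Tr F T A) : IsUnit Aᴴ := by
  have := h.unit.star
  rwa [star_eq_conjTranspose] at this

theorem Tr.inv (h : Tr F T A) {v : Vec n} (hv : v ∈ Cone n) :
    (F (T v))⁻¹ = (Aᴴ)⁻¹ * (F v)⁻¹ * A⁻¹ := by
  rw [h.rel v hv, Matrix.mul_inv_rev, Matrix.mul_inv_rev, Matrix.mul_assoc]

private theorem bc_A (h : Tr F T A) : A⁻¹ * A = 1 :=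
  Matrix.nonsing_inv_mul _ ((Matrix.isUnit_iff_isUnit_det _).mp h.unit)

private theorem bc_A' (h : Tr F T A) : Aᴴ * (Aᴴ)⁻¹ = 1 :=
  Matrix.mul_nonsing_inv _ ((Matrix.isUnit_iff_isUnit_det _).mp h.unit')

private theorem bc_cancel (h : Tr F T A) (X Y : Mat m) :
    (Aᴴ)⁻¹ * X * A⁻¹ * (A * Y * Aᴴ) = (Aᴴ)⁻¹ * (X * Y) * Aᴴ := by
  calc (Aᴴ)⁻¹ * X * A⁻¹ * (A * Y * Aᴴ) = (Aᴴ)⁻¹ * X * (A⁻¹ * A) * Y * Aᴴ := by
        simp only [Matrix.mul_assoc]
    _ = _ := by rw [bc_A h, Matrix.mul_one]; simp only [Matrix.mul_assoc]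

private theorem bc_cancel' (h : Tr F T A) (X Y Z : Mat m) :
    A * X * Aᴴ * ((Aᴴ)⁻¹ * Y * A⁻¹) * (A * Z * Aᴴ) = A * (X * Y * Z) * Aᴴ := by
  calc A * X * Aᴴ * ((Aᴴ)⁻¹ * Y * A⁻¹) * (A * Z * Aᴴ) =
        A * X * (Aᴴ * (Aᴴ)⁻¹) * Y * (A⁻¹ * A) * Z * Aᴴ := by simp only [Matrix.mul_assoc]
    _ = _ := by rw [bc_A h, bc_A' h, Matrix.mul_one, Matrix.mul_one]; simp only [Matrix.mul_assoc]

theorem Tr.thz (h : Tr F T A) (hF : ContDiffOn ℝ 2 F (Cone n)) {v : Vec n} (hv : v ∈ Cone n)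
    (ξ : Vec n) : thz F (T v) (T ξ) = (Aᴴ)⁻¹ * thz F v ξ * Aᴴ := by
  rw [HM.thz, HM.thz, h.inv hv, h.dz hF hv, bc_cancel h, mul_smul_comm, smul_mul_assoc]

theorem Tr.thb (h : Tr F T A) (hF : ContDiffOn ℝ 2 F (Cone n)) {v : Vec n} (hv : v ∈ Cone n)
    (ξ : Vec n) : thb F (T v) (T ξ) = (Aᴴ)⁻¹ * thb F v ξ * Aᴴ := by
  rw [HM.thb, HM.thb, h.inv hv, h.dzb hF hv, bc_cancel h, mul_smul_comm, smul_mul_assoc]

theorem Tr.tau (h : Tr F T A) (hF : ContDiffOn ℝ 2 F (Cone n)) {v : Vec n} (hv : v ∈ Cone n)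
    (ξ η : Vec n) : tau F (T v) (T ξ) (T η) = (Aᴴ)⁻¹ * tau F v ξ η * Aᴴ := by
  have e : ∀ X Y Z : Mat m, A * X * Aᴴ - (1 / 2 : ℂ) • (A * Y * Aᴴ + A * Z * Aᴴ) =
      A * (X - (1 / 2 : ℂ) • (Y + Z)) * Aᴴ := by
    intro X Y Z
    simp only [Matrix.mul_sub, Matrix.sub_mul, Matrix.mul_add, Matrix.add_mul, mul_smul_comm,
      smul_mul_assoc, smul_add]
  rw [HM.tau, HM.tau, h.dzbz hF hv, h.inv hv, h.dz hF hv, h.dzb hF hv, bc_cancel' h, bc_cancel' h,
    e, bc_cancel h, mul_smul_comm, smul_mul_assoc]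

end

/-- scalars -/
noncomputable def sclL (n : ℕ) (c : ℂ) : Vec n →L[ℂ] Vec n := c • ContinuousLinearMap.id ℂ (Vec n)

theorem sclL_apply (c : ℂ) (v : Vec n) : sclL n c v = c • v := rfl

theorem tr_scl {F : Vec n → Mat m} (hF : Homog F) {c : ℂ} (hc : c ≠ 0) :
    Tr F (sclL n c) 1 where
  cone v hv := smul_mem_cone hc hv
  unit := isUnit_one
  rel v hv := by
    rw [sclL_apply, hF c hc v hv, conjTranspose_one, Matrix.one_mul, Matrix.mul_one]

/-- the action as a complex linear map -/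
noncomputable def actLC (g : SUGroup n) : Vec n →L[ℂ] Vec n :=
  LinearMap.toContinuousLinearMap (g.toMatrix).mulVecLin

theorem actLC_apply (g : SUGroup n) (v : Vec n) : actLC g v = act g v := rfl

theorem tr_act {Γ : Subgroup (SUGroup n)} {ρ : Γ →* Mat m} {F : Vec n → Mat m} (hF : Equi ρ F)
    (γ : Γ) : Tr F (actLC (γ : SUGroup n)) (ρ γ) where
  cone v hv := act_mem _ hv
  unit := by
    have h : ρ γ * ρ γ⁻¹ = 1 := by rw [← map_mul, mul_inv_cancel, map_one]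
    have h' : ρ γ⁻¹ * ρ γ = 1 := by rw [← map_mul, inv_mul_cancel, map_one]
    exact ⟨⟨ρ γ, ρ γ⁻¹, h, h'⟩, rfl⟩
  rel v hv := hF γ v hv

/-! ### sesquilinear sums -/

/-- sesquilinear maps, bare -/
structure Sesq {E : Type} [AddCommGroup E] [Module ℂ E] (B : Vec n → Vec n → E) : Prop where
  add₁ : ∀ a b c, B (a + b) c = B a c + B b c
  add₂ : ∀ a b c, B a (b + c) = B a b + B a c
  smul₁ : ∀ (r : ℂ) a c, B (r • a) c = r • B a c
  smul₂ : ∀ (r : ℂ) a c, B a (r • c) = star r • B a c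

theorem Sesq.sum₁ {E : Type} [AddCommGroup E] [Module ℂ E] {B : Vec n → Vec n → E} (hB : Sesq B)
    {ι : Type} (s : Finset ι) (f : ι → Vec n) (c : Vec n) : B (∑ i ∈ s, f i) c = ∑ i ∈ s, B (f i) c := by
  classical
  have h0 : B 0 c = 0 := by
    have := hB.smul₁ 0 0 c
    rwa [zero_smul, zero_smul] at this
  induction s using Finset.induction_on with
  | empty => simpa using h0
  | insert a s ha ih => rw [Finset.sum_insert ha, Finset.sum_insert ha, hB.add₁, ih]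

theorem Sesq.sum₂ {E : Type} [AddCommGroup E] [Module ℂ E] {B : Vec n → Vec n → E} (hB : Sesq B)
    {ι : Type} (s : Finset ι) (f : ι → Vec n) (c : Vec n) : B c (∑ i ∈ s, f i) = ∑ i ∈ s, B c (f i) := by
  classical
  have h0 : B c 0 = 0 := by
    have := hB.smul₂ 0 c 0
    rwa [zero_smul, star_zero, zero_smul] at this
  induction s using Finset.induction_on with
  | empty => simpa using h0
  | insert a s ha ih => rw [Finset.sum_insert ha, Finset.sum_insert ha, hB.add₂, ih]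

theorem bc_J (g : SUGroup n) (k l : Fin (n + 1)) :
    ∑ i, J n i i * (g.toMatrix k i * star (g.toMatrix l i)) = J n k l := by
  have h := congrFun (congrFun (mul_J_mul g) k) l
  rw [Matrix.mul_apply] at h
  rw [← h]
  refine Finset.sum_congr rfl fun i _ => ?_
  rw [J, Matrix.mul_diagonal, conjTranspose_apply, diagonal_apply_eq]
  ring

/-- `∑ J_ii B(g e_i, g e_i) = ∑ J_ii B(e_i, e_i)` -/
theorem Sesq.sum_J {E : Type} [AddCommGroup E] [Module ℂ E] {B : Vec n → Vec n → E} (hB : Sesq B)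
    (g : SUGroup n) :
    ∑ i : Fin (n + 1), J n i i • B (act g (Pi.single i 1)) (act g (Pi.single i 1)) =
      ∑ i : Fin (n + 1), J n i i • B (Pi.single i 1) (Pi.single i 1) := by
  have hsing : ∀ (k : Fin (n + 1)) (c : ℂ), (Pi.single k c : Vec n) = c • Pi.single k 1 := by
    intro k c
    rw [← Pi.single_smul, smul_eq_mul, mul_one]
  have hexp : ∀ i : Fin (n + 1), B (act g (Pi.single i 1)) (act g (Pi.single i 1)) =
      ∑ k, ∑ l, (g.toMatrix k i * star (g.toMatrix l i)) •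
        B (Pi.single k 1) (Pi.single l 1) := by
    intro i
    rw [act_single, hB.sum₁]
    refine Finset.sum_congr rfl fun k _ => ?_
    rw [hB.sum₂]
    refine Finset.sum_congr rfl fun l _ => ?_
    rw [mul_one, mul_one, hsing k, hsing l, hB.smul₁, hB.smul₂, smul_smul]
  simp only [hexp, Finset.smul_sum]
  rw [Finset.sum_comm]
  refine Finset.sum_congr rfl fun k _ => ?_
  rw [Finset.sum_comm, Finset.sum_eq_single k]
  · rw [← bc_J g k k, Finset.sum_smul]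
    exact Finset.sum_congr rfl fun i _ => by rw [smul_smul]
  · intro l _ hl
    have h0 : J n k l = 0 := by rw [J, diagonal_apply, if_neg (Ne.symm hl)]
    have : ∑ i, J n i i • (g.toMatrix k i * star (g.toMatrix l i)) • B (Pi.single k 1) (Pi.single l 1) =
        (∑ i, J n i i * (g.toMatrix k i * star (g.toMatrix l i))) •
          B (Pi.single k 1) (Pi.single l 1) := by
      rw [Finset.sum_smul]
      exact Finset.sum_congr rfl fun i _ => by rw [smul_smul]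
    rw [this, bc_J, h0, zero_smul]
  · intro h
    exact absurd (Finset.mem_univ k) h

theorem Sesq.sum_J_scl {E : Type} [AddCommGroup E] [Module ℂ E] {B : Vec n → Vec n → E}
    (hB : Sesq B) (c : ℂ) :
    ∑ i : Fin (n + 1), J n i i • B (c • Pi.single i 1) (c • Pi.single i 1) =
      ((‖c‖ ^ 2 : ℝ) : ℂ) • ∑ i : Fin (n + 1), J n i i • B (Pi.single i 1) (Pi.single i 1) := by
  rw [Finset.smul_sum]
  refine Finset.sum_congr rfl fun i _ => ?_
  rw [hB.smul₁, hB.smul₂, smul_smul c, smul_comm]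
  congr 2
  rw [Complex.star_def, Complex.mul_conj, Complex.normSq_eq_norm_sq]

end Pool.Agent.Lib.MP_5d4057_al.HM
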