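import Pool.Agent.Lib.MP_5d4057_al.HM.BochCA

/-! Regularity and transformation of the form `Yf` and of the Bochner expressions. -/

namespace Pool.Agent.Lib.MP_5d4057_al.HM

open Matrix MeasureTheory Filter Topology Pool.Agent.Lib.MP_5d4057_al Pool.Agent.Lib.MP_5d4057_al.Hyb

open scoped ComplexOrder MatrixOrder Matrix.Norms.L2Operator

variable {n m : ℕ}

theorem bc_dzb_add {f g : Vec n → Mat m} {v : Vec n} (hf : DifferentiableAt ℝ f v)
    (hg : DifferentiableAt ℝ g v) (η : Vec n) :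
    dzb (fun w => f w + g w) v η = dzb f v η + dzb g v η := by
  have h : fderiv ℝ (fun w => f w + g w) v = fderiv ℝ f v + fderiv ℝ g v := fderiv_add hf hg
  rw [dzb, dzb, dzb, h]
  simp only [_root_.add_apply, smul_add]
  abel

theorem bc_dzb_smul {f : Vec n → Mat m} {v : Vec n} (hf : DifferentiableAt ℝ f v) (c : ℂ)
    (η : Vec n) : dzb (fun w => c • f w) v η = c • dzb f v η := by
  have h : fderiv ℝ (fun w => c • f w) v = c • fderiv ℝ f v := fderiv_const_smul hf c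
  rw [dzb, dzb, h]
  simp only [_root_.smul_apply, smul_add, smul_smul]
  congr 2 <;> ring

theorem bc_thb_add (F : Vec n → Mat m) (v ξ η : Vec n) :
    thb F v (ξ + η) = thb F v ξ + thb F v η := by
  rw [thb, thb, thb, dzb_add, Matrix.mul_add, smul_add]

theorem bc_thb_smul (F : Vec n → Mat m) (v ξ : Vec n) (c : ℂ) :
    thb F v (c • ξ) = star c • thb F v ξ := by
  rw [thb, thb, dzb_smul, mul_smul_comm, smul_comm]

theorem bc_thz_add (F : Vec n → Mat m) (v ξ η : Vec n) :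
    thz F v (ξ + η) = thz F v ξ + thz F v η := by
  rw [thz, thz, thz, dz_add, Matrix.mul_add, smul_add]

theorem bc_thz_smul (F : Vec n → Mat m) (v ξ : Vec n) (c : ℂ) :
    thz F v (c • ξ) = c • thz F v ξ := by
  rw [thz, thz, dz_smul, mul_smul_comm, smul_comm]

theorem bc_tau_add₂ (F : Vec n → Mat m) (v ξ η η' : Vec n) :
    tau F v ξ (η + η') = tau F v ξ η + tau F v ξ η' := by
  rw [tau, tau, tau, dzb_add, dzb_add, ← smul_add, ← Matrix.mul_add]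
  congr 2
  simp only [Matrix.add_mul, Matrix.mul_add, smul_add]
  abel

private theorem bc_alg_smul (c : ℂ) (Fi Z B D Fi' : Mat m) :
    (1 / 2 : ℂ) • (Fi * (c • Z - (1 / 2 : ℂ) • (c • B * Fi' * D + D * Fi' * c • B))) =
      c • (1 / 2 : ℂ) • (Fi * (Z - (1 / 2 : ℂ) • (B * Fi' * D + D * Fi' * B))) := by
  have e : c • Z - (1 / 2 : ℂ) • (c • B * Fi' * D + D * Fi' * c • B) =
      c • (Z - (1 / 2 : ℂ) • (B * Fi' * D + D * Fi' * B)) := by
    rw [smul_mul_assoc, smul_mul_assoc, mul_smul_comm, ← smul_add, smul_comm (1 / 2 : ℂ) c,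
      ← smul_sub]
  rw [e, mul_smul_comm, smul_comm]

private theorem bc_alg_smul' (c : ℂ) (Fi Z B D Fi' : Mat m) :
    (1 / 2 : ℂ) • (Fi * (c • Z - (1 / 2 : ℂ) • (D * Fi' * c • B + c • B * Fi' * D))) =
      c • (1 / 2 : ℂ) • (Fi * (Z - (1 / 2 : ℂ) • (D * Fi' * B + B * Fi' * D))) := by
  rw [add_comm (D * Fi' * c • B), add_comm (D * Fi' * B)]
  exact bc_alg_smul c Fi Z B D Fi'

theorem bc_tau_smul₂ (F : Vec n → Mat m) (v ξ η : Vec n) (c : ℂ) :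
    tau F v ξ (c • η) = star c • tau F v ξ η := by
  rw [tau, tau, dzb_smul, dzb_smul]
  exact bc_alg_smul (star c) _ _ _ _ _

theorem bc_tau_add₁ {F : Vec n → Mat m} (hF : ContDiffOn ℝ 2 F (Cone n)) {v : Vec n}
    (hv : v ∈ Cone n) (ξ ξ' η : Vec n) :
    tau F v (ξ + ξ') η = tau F v ξ η + tau F v ξ' η := by
  have h : (fun w => dz F w (ξ + ξ')) = fun w => dz F w ξ + dz F w ξ' :=
    funext fun w => dz_add F w ξ ξ'
  rw [tau, tau, tau, h, bc_dzb_add (bc_diff_dz hF hv ξ) (bc_diff_dz hF hv ξ'), dz_add,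
    ← smul_add, ← Matrix.mul_add]
  congr 2
  simp only [Matrix.add_mul, Matrix.mul_add, smul_add]
  abel

theorem bc_tau_smul₁ {F : Vec n → Mat m} (hF : ContDiffOn ℝ 2 F (Cone n)) {v : Vec n}
    (hv : v ∈ Cone n) (ξ η : Vec n) (c : ℂ) : tau F v (c • ξ) η = c • tau F v ξ η := by
  have h : (fun w => dz F w (c • ξ)) = fun w => c • dz F w ξ :=
    funext fun w => dz_smul F w ξ c
  rw [tau, tau, h, bc_dzb_smul (bc_diff_dz hF hv ξ), dz_smul]
  exact bc_alg_smul' c _ _ _ _ _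

theorem bc_sesq_tau {F : Vec n → Mat m} (hF : ContDiffOn ℝ 2 F (Cone n)) {v : Vec n}
    (hv : v ∈ Cone n) : Sesq fun ξ η => tau F v ξ η where
  add₁ a b c := bc_tau_add₁ hF hv a b c
  add₂ a b c := bc_tau_add₂ F v a b c
  smul₁ r a c := bc_tau_smul₁ hF hv a c r
  smul₂ r a c := bc_tau_smul₂ F v a c r

theorem bc_sesq_tr {F : Vec n → Mat m} (hF : ContDiffOn ℝ 2 F (Cone n)) {v : Vec n}
    (hv : v ∈ Cone n) (η : Vec n) : Sesq fun ξ ξ' => (tau F v ξ η * thb F v ξ').trace where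
  add₁ a b c := by rw [bc_tau_add₁ hF hv, Matrix.add_mul, trace_add]
  add₂ a b c := by rw [bc_thb_add, Matrix.mul_add, trace_add]
  smul₁ r a c := by rw [bc_tau_smul₁ hF hv, smul_mul_assoc, trace_smul]
  smul₂ r a c := by rw [bc_thb_smul, mul_smul_comm, trace_smul]

/-- the behaviour of the form of signature `(n,1)` under a linear map -/
structure TJ (T : Vec n →L[ℂ] Vec n) (r : ℝ) : Prop where
  ne : r ≠ 0
  q : ∀ v, HM.q (T v) = r * HM.q v
  sum : ∀ {E : Type} [AddCommGroup E] [Module ℂ E] {B : Vec n → Vec n → E}, Sesq B →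
    ∑ i : Fin (n + 1), J n i i • B (T (Pi.single i 1)) (T (Pi.single i 1)) =
      (r : ℂ) • ∑ i : Fin (n + 1), J n i i • B (Pi.single i 1) (Pi.single i 1)

theorem tj_scl {c : ℂ} (hc : c ≠ 0) : TJ (sclL n c) (‖c‖ ^ 2) where
  ne := by positivity
  q v := by rw [sclL_apply, q_smul]
  sum hB := by
    simp only [sclL_apply]
    exact hB.sum_J_scl c

theorem tj_act (g : SUGroup n) : TJ (actLC g) 1 where
  ne := one_ne_zero
  q v := by rw [actLC_apply, q_act, one_mul]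
  sum hB := by
    simp only [actLC_apply]
    rw [hB.sum_J g, Complex.ofReal_one, one_smul]

section
variable {F : Vec n → Mat m} {T : Vec n →L[ℂ] Vec n} {A : Mat m} {r : ℝ}

private theorem bc_conj_mul (h : Tr F T A) (X Y : Mat m) :
    (Aᴴ)⁻¹ * X * Aᴴ * ((Aᴴ)⁻¹ * Y * Aᴴ) = (Aᴴ)⁻¹ * (X * Y) * Aᴴ := by
  have h1 : Aᴴ * (Aᴴ)⁻¹ = 1 :=
    Matrix.mul_nonsing_inv _ ((Matrix.isUnit_iff_isUnit_det _).mp h.unit')
  calc (Aᴴ)⁻¹ * X * Aᴴ * ((Aᴴ)⁻¹ * Y * Aᴴ) = (Aᴴ)⁻¹ * X * (Aᴴ * (Aᴴ)⁻¹) * Y * Aᴴ := by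
        simp only [Matrix.mul_assoc]
    _ = _ := by rw [h1, Matrix.mul_one]; simp only [Matrix.mul_assoc]

private theorem bc_conj_trace (h : Tr F T A) (X : Mat m) :
    ((Aᴴ)⁻¹ * X * Aᴴ).trace = X.trace := by
  have h1 : Aᴴ * (Aᴴ)⁻¹ = 1 :=
    Matrix.mul_nonsing_inv _ ((Matrix.isUnit_iff_isUnit_det _).mp h.unit')
  rw [Matrix.trace_mul_comm, ← Matrix.mul_assoc, h1, Matrix.one_mul]

theorem Tr.tauT (h : Tr F T A) (hT : TJ T r) (hF : ContDiffOn ℝ 2 F (Cone n)) {v : Vec n}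
    (hv : v ∈ Cone n) : tauT F (T v) = (Aᴴ)⁻¹ * tauT F v * Aᴴ := by
  have h1 := hT.sum (bc_sesq_tau hF (h.cone v hv))
  simp only [h.tau hF hv] at h1
  have h2 : (r : ℂ) ≠ 0 := by exact_mod_cast hT.ne
  have h3 : ∑ i : Fin (n + 1), J n i i • HM.tau F (T v) (Pi.single i 1) (Pi.single i 1) =
      (r : ℂ)⁻¹ • ∑ i : Fin (n + 1), J n i i •
        ((Aᴴ)⁻¹ * HM.tau F v (Pi.single i 1) (Pi.single i 1) * Aᴴ) := by
    rw [h1, inv_smul_smul₀ h2]
  rw [HM.tauT, HM.tauT, h3, hT.q, smul_smul, mul_smul_comm, smul_mul_assoc, Matrix.mul_sum,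
    Matrix.sum_mul]
  congr 1
  · push_cast
    field_simp
  · exact Finset.sum_congr rfl fun i _ => by rw [mul_smul_comm, smul_mul_assoc]

theorem Tr.Yf (h : Tr F T A) (hT : TJ T r) (hF : ContDiffOn ℝ 2 F (Cone n)) {v : Vec n}
    (hv : v ∈ Cone n) (a : Vec n) : Yf F (T v) (T a) = Yf F v a := by
  have h1 := hT.sum (bc_sesq_tr hF (h.cone v hv) (T a))
  simp only [h.tau hF hv, h.thb hF hv, bc_conj_mul h, bc_conj_trace h] at h1
  have h2 : (r : ℂ) ≠ 0 := by exact_mod_cast hT.ne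
  have h3 : ∑ i : Fin (n + 1), J n i i * (HM.tau F (T v) (Pi.single i 1) (T a) *
      HM.thb F (T v) (Pi.single i 1)).trace =
      (r : ℂ)⁻¹ * ∑ i : Fin (n + 1), J n i i *
        (HM.tau F v (Pi.single i 1) a * HM.thb F v (Pi.single i 1)).trace := by
    have h4 : ∀ x y : ℂ, x = (r : ℂ) • y → y = (r : ℂ)⁻¹ * x := by
      intro x y hxy
      rw [hxy, smul_eq_mul, inv_mul_cancel_left₀ h2]
    simp only [smul_eq_mul] at h1
    exact h4 _ _ (by rw [smul_eq_mul]; exact h1)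
  rw [HM.Yf, HM.Yf, h3, h.tauT hT hF hv, h.thb hF hv, bc_conj_mul h, bc_conj_trace h, hT.q]
  congr 1
  push_cast
  field_simp

end

/-! ### regularity -/

theorem bc_cd_mul {k : WithTop ℕ∞} {f g : Vec n → Mat m} {s : Set (Vec n)}
    (hf : ContDiffOn ℝ k f s) (hg : ContDiffOn ℝ k g s) :
    ContDiffOn ℝ k (fun v => f v * g v) s := hf.mul hg

theorem bc_cd_inv {k : WithTop ℕ∞} {F : Vec n → Mat m} {s : Set (Vec n)}
    (hF : ContDiffOn ℝ k F s) (hu : ∀ v ∈ s, IsUnit (F v)) :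
    ContDiffOn ℝ k (fun v => (F v)⁻¹) s := by
  intro v hv
  obtain ⟨u, hu⟩ := hu v hv
  have h1 : ContDiffAt ℝ k (Ring.inverse : Mat m → Mat m) (F v) := by
    rw [← hu]
    exact contDiffAt_ringInverse ℝ u
  have h2 := h1.comp_contDiffWithinAt v (hF v hv)
  have e : (fun v => (F v)⁻¹) = Ring.inverse ∘ F := by
    funext w
    rw [Matrix.nonsing_inv_eq_ringInverse, Function.comp_apply]
  rw [e]
  exact h2

theorem bc_cd_trace {k : WithTop ℕ∞} {F : Vec n → Mat m} {s : Set (Vec n)}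
    (hF : ContDiffOn ℝ k F s) : ContDiffOn ℝ k (fun v => (F v).trace) s := by
  have h : ContDiff ℝ k (fun A : Mat m => A.trace) :=
    (LinearMap.toContinuousLinearMap (Matrix.traceLinearMap (Fin m) ℝ ℂ)).contDiff
  exact h.comp_contDiffOn hF

theorem bc_cd_dz {k l : WithTop ℕ∞} {F : Vec n → Mat m} (hF : ContDiffOn ℝ l F (Cone n))
    (h : k + 1 ≤ l) (ξ : Vec n) : ContDiffOn ℝ k (fun v => dz F v ξ) (Cone n) := by
  have h1 : ContDiffOn ℝ k (fderiv ℝ F) (Cone n) := hF.fderiv_of_isOpen (isOpen_cone n) h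
  have h2 : ∀ η : Vec n, ContDiffOn ℝ k (fun v => fderiv ℝ F v η) (Cone n) := fun η =>
    h1.clm_apply contDiffOn_const
  unfold dz
  exact ((h2 ξ).sub ((h2 (Complex.I • ξ)).const_smul Complex.I)).const_smul (1 / 2 : ℂ)

theorem bc_cd_dzb {k l : WithTop ℕ∞} {F : Vec n → Mat m} (hF : ContDiffOn ℝ l F (Cone n))
    (h : k + 1 ≤ l) (ξ : Vec n) : ContDiffOn ℝ k (fun v => dzb F v ξ) (Cone n) := by
  have h1 : ContDiffOn ℝ k (fderiv ℝ F) (Cone n) := hF.fderiv_of_isOpen (isOpen_cone n) h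
  have h2 : ∀ η : Vec n, ContDiffOn ℝ k (fun v => fderiv ℝ F v η) (Cone n) := fun η =>
    h1.clm_apply contDiffOn_const
  unfold dzb
  exact ((h2 ξ).add ((h2 (Complex.I • ξ)).const_smul Complex.I)).const_smul (1 / 2 : ℂ)

theorem bc_cd_q {k : ℕ∞} (s : Set (Vec n)) : ContDiffOn ℝ k (fun v : Vec n => (-q v : ℂ)) s := by
  have h1 : ContDiff ℝ (⊤ : ℕ∞) (fun v : Vec n => (q v : ℂ)) :=
    Complex.ofRealCLM.contDiff.comp lk_contDiff_q
  exact (h1.contDiffOn.neg).of_le (by exact_mod_cast le_top)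

theorem bc_cd_thb {k l : WithTop ℕ∞} {F : Vec n → Mat m} (hF : ContDiffOn ℝ l F (Cone n))
    (h : k + 1 ≤ l) (hk : k ≤ l) (hu : ∀ v ∈ Cone n, IsUnit (F v)) (ξ : Vec n) :
    ContDiffOn ℝ k (fun v => thb F v ξ) (Cone n) := by
  unfold thb
  exact (bc_cd_mul (bc_cd_inv (hF.of_le hk) hu) (bc_cd_dzb hF h ξ)).const_smul (1 / 2 : ℂ)

theorem bc_cd_thz {k l : WithTop ℕ∞} {F : Vec n → Mat m} (hF : ContDiffOn ℝ l F (Cone n))
    (h : k + 1 ≤ l) (hk : k ≤ l) (hu : ∀ v ∈ Cone n, IsUnit (F v)) (ξ : Vec n) :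
    ContDiffOn ℝ k (fun v => thz F v ξ) (Cone n) := by
  unfold thz
  exact (bc_cd_mul (bc_cd_inv (hF.of_le hk) hu) (bc_cd_dz hF h ξ)).const_smul (1 / 2 : ℂ)

theorem bc_cd_tau {k l l' : WithTop ℕ∞} {F : Vec n → Mat m} (hF : ContDiffOn ℝ l F (Cone n))
    (h : l' + 1 ≤ l) (h' : k + 1 ≤ l') (h0 : k ≤ l') (hu : ∀ v ∈ Cone n, IsUnit (F v))
    (h1 : l' ≤ l) (ξ η : Vec n) : ContDiffOn ℝ k (fun v => tau F v ξ η) (Cone n) := by
  have a1 : ContDiffOn ℝ k (fun v => (F v)⁻¹) (Cone n) :=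
    bc_cd_inv (hF.of_le (h0.trans h1)) hu
  have a2 : ContDiffOn ℝ k (fun v => dz F v ξ) (Cone n) := (bc_cd_dz hF h ξ).of_le h0
  have a3 : ContDiffOn ℝ k (fun v => dzb F v η) (Cone n) := (bc_cd_dzb hF h η).of_le h0
  have a4 : ContDiffOn ℝ k (fun v => dzb (fun w => dz F w ξ) v η) (Cone n) :=
    bc_cd_dzb (bc_cd_dz hF h ξ) h' η
  unfold tau
  exact (bc_cd_mul a1 (a4.sub (((bc_cd_mul (bc_cd_mul a3 a1) a2).add
    (bc_cd_mul (bc_cd_mul a2 a1) a3)).const_smul (1 / 2 : ℂ)))).const_smul (1 / 2 : ℂ)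

theorem bc_cd_tauT {k : ℕ∞} {l l' : WithTop ℕ∞} {F : Vec n → Mat m}
    (hF : ContDiffOn ℝ l F (Cone n)) (h : l' + 1 ≤ l) (h' : (k : WithTop ℕ∞) + 1 ≤ l')
    (h0 : (k : WithTop ℕ∞) ≤ l') (hu : ∀ v ∈ Cone n, IsUnit (F v)) (h1 : l' ≤ l) :
    ContDiffOn ℝ k (fun v => tauT F v) (Cone n) := by
  unfold tauT
  refine (bc_cd_q (Cone n)).smul (ContDiffOn.sum fun i _ => ?_)
  exact (bc_cd_tau hF h h' h0 hu h1 _ _).const_smul (J n i i)

theorem bc_cd_Yf {F : Vec n → Mat m} (hF : ContDiffOn ℝ 3 F (Cone n))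
    (hu : ∀ v ∈ Cone n, IsUnit (F v)) (a : Vec n) :
    ContDiffOn ℝ 1 (fun v => Yf F v a) (Cone n) := by
  have h23 : (2 : WithTop ℕ∞) + 1 ≤ 3 := by norm_num
  have h12 : ((1 : ℕ∞) : WithTop ℕ∞) + 1 ≤ 2 := by norm_num
  have h2 : ((1 : ℕ∞) : WithTop ℕ∞) ≤ 2 := by norm_num
  have h3 : (2 : WithTop ℕ∞) ≤ 3 := by norm_num
  have b1 : ∀ ξ η, ContDiffOn ℝ 1 (fun v => tau F v ξ η) (Cone n) := fun ξ η =>
    bc_cd_tau (l' := 2) hF h23 (by norm_num) (by norm_num) hu h3 ξ η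
  have b2 : ContDiffOn ℝ 1 (fun v => tauT F v) (Cone n) :=
    bc_cd_tauT (k := 1) (l' := 2) hF h23 h12 h2 hu h3
  have b3 : ∀ ξ, ContDiffOn ℝ 1 (fun v => thb F v ξ) (Cone n) := fun ξ =>
    bc_cd_thb (k := 1) hF (by norm_num) (by norm_num) hu ξ
  unfold Yf
  refine ContDiffOn.sub ?_ (bc_cd_trace (bc_cd_mul b2 (b3 a)))
  refine (bc_cd_q (k := 1) (Cone n)).mul (ContDiffOn.sum fun i _ => ?_)
  exact contDiffOn_const.mul (bc_cd_trace (bc_cd_mul (b1 _ _) (b3 _)))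

theorem bc_Yf_zero {F : Vec n → Mat m} (hF : Homog F) (hF2 : ContDiffOn ℝ 2 F (Cone n))
    {v : Vec n} (hv : v ∈ Cone n) : Yf F v v = 0 := by
  have h : ∀ ξ, tau F v ξ v = 0 := fun ξ => (tau_self hF hv hF2 ξ).1
  have h' : thb F v v = 0 := (tau_self hF hv hF2 v).2.2.2
  rw [Yf, h', Matrix.mul_zero, trace_zero, sub_zero]
  simp only [h, Matrix.zero_mul, trace_zero, mul_zero, Finset.sum_const_zero]

theorem bc_Yf_add (F : Vec n → Mat m) (v a b : Vec n) :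
    Yf F v (a + b) = Yf F v a + Yf F v b := by
  rw [Yf, Yf, Yf, bc_thb_add, Matrix.mul_add, trace_add]
  simp only [bc_tau_add₂, Matrix.add_mul, trace_add, mul_add, Finset.sum_add_distrib]
  ring

theorem bc_Yf_smul (F : Vec n → Mat m) (v a : Vec n) (c : ℂ) :
    Yf F v (c • a) = star c * Yf F v a := by
  rw [Yf, Yf, bc_thb_smul, mul_smul_comm, trace_smul, mul_sub, smul_eq_mul]
  congr 1
  rw [mul_left_comm, Finset.mul_sum (a := star c)]
  congr 1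
  refine Finset.sum_congr rfl fun i _ => ?_
  rw [bc_tau_smul₂, smul_mul_assoc, trace_smul, smul_eq_mul]
  ring

end Pool.Agent.Lib.MP_5d4057_al.HM
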