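import Pool.Agent.Lib.MP_5d4057_al.HM.BochCB

/-! The divergence theorem for `(0,1)`-forms. -/

namespace Pool.Agent.Lib.MP_5d4057_al.HM

open Matrix MeasureTheory Filter Topology Pool.Agent.Lib.MP_5d4057_al Pool.Agent.Lib.MP_5d4057_al.Hyb

open scoped ComplexOrder MatrixOrder Matrix.Norms.L2Operator

variable {n m : ℕ}

variable {Γ : Subgroup (SUGroup n)}

/-- expansion of an antilinear map -/
theorem bc_Y_exp {Y : Vec n → ℂ} (hadd : ∀ a b, Y (a + b) = Y a + Y b)
    (hs : ∀ (r : ℂ) a, Y (r • a) = star r * Y a) (a : Vec n) :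
    Y a = ∑ k, star (a k) * Y (Pi.single k 1) := by
  have h1 : a = ∑ k, a k • (Pi.single k 1 : Vec n) := by
    funext i
    rw [Finset.sum_apply, Finset.sum_eq_single i]
    · rw [Pi.smul_apply, Pi.single_eq_same, smul_eq_mul, mul_one]
    · intro k _ hk
      rw [Pi.smul_apply, Pi.single_eq_of_ne (Ne.symm hk), smul_zero]
    · intro h
      exact absurd (Finset.mem_univ i) h
  have h2 := map_sum (AddMonoidHom.mk' Y hadd) (fun k => a k • (Pi.single k 1 : Vec n)) Finset.univ
  rw [← h1] at h2
  rw [AddMonoidHom.mk'_apply] at h2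
  rw [h2]
  exact Finset.sum_congr rfl fun k _ => hs _ _

theorem bc_dzc_add (f : Vec n → ℂ) (v ξ η : Vec n) : dzc f v (ξ + η) = dzc f v ξ + dzc f v η := by
  rw [dzc, dzc, dzc, smul_add Complex.I, map_add, map_add]
  ring

private theorem bc_real_lin (L : Vec n →L[ℝ] ℂ) (c : ℂ) (ξ : Vec n) :
    L (c • ξ) = (c.re : ℂ) * L ξ + (c.im : ℂ) * L (Complex.I • ξ) := by
  have h1 : c • ξ = c.re • ξ + c.im • (Complex.I • ξ) := by
    conv_lhs => rw [← Complex.re_add_im c]
    rw [add_smul, mul_smul]
    rfl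
  rw [h1, map_add, map_smul, map_smul, Complex.real_smul, Complex.real_smul]

theorem bc_dzc_smul (f : Vec n → ℂ) (v ξ : Vec n) (c : ℂ) : dzc f v (c • ξ) = c * dzc f v ξ := by
  have h2 : fderiv ℝ f v (Complex.I • c • ξ) =
      (c.re : ℂ) * fderiv ℝ f v (Complex.I • ξ) - (c.im : ℂ) * fderiv ℝ f v ξ := by
    rw [smul_comm, bc_real_lin, smul_smul, Complex.I_mul_I, neg_one_smul, map_neg]
    ring
  rw [dzc, dzc, h2, bc_real_lin]
  have hc : c = (c.re : ℂ) + (c.im : ℂ) * Complex.I := (Complex.re_add_im c).symm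
  generalize c.re = a at *
  generalize c.im = b at *
  rw [hc]
  linear_combination (1 / 2 : ℂ) * b * (fderiv ℝ f v) (Complex.I • ξ) * Complex.I_mul_I

/-- the derivative of `f` in a radial direction when `f (c v) = (star c)⁻¹ f(v)` -/
theorem bc_dzc_radial {f : Vec n → ℂ} {v : Vec n} (hd : DifferentiableAt ℝ f v)
    (h : ∀ c : ℂ, c ≠ 0 → star c * f (c • v) = f v) : dzc f v v = 0 := by
  have key : ∀ a : ℂ, fderiv ℝ f v (a • v) = -(star a * f v) := by
    intro a
    have h0 : HasDerivAt (fun t : ℝ => (1 + (t : ℂ) * a)) a 0 := by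
      have h1 : HasDerivAt (fun t : ℝ => (t : ℂ)) 1 0 := Complex.ofRealCLM.hasDerivAt
      have h2 := (h1.mul_const a).const_add 1
      rwa [one_mul] at h2
    have h1 : HasDerivAt (fun t : ℝ => (1 + (t : ℂ) * a) • v) (a • v) 0 := h0.smul_const v
    have e0 : (1 + ((0 : ℝ) : ℂ) * a) • v = v := by
      rw [Complex.ofReal_zero, zero_mul, add_zero, one_smul]
    have h2 : HasDerivAt (fun t : ℝ => f ((1 + (t : ℂ) * a) • v)) (fderiv ℝ f v (a • v)) 0 := by
      have h3 : HasFDerivAt f (fderiv ℝ f v) ((1 + ((0 : ℝ) : ℂ) * a) • v) := by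
        rw [e0]
        exact hd.hasFDerivAt
      exact h3.comp_hasDerivAt (0 : ℝ) h1
    have h3 : HasDerivAt (fun t : ℝ => star (1 + (t : ℂ) * a)) (star a) 0 := h0.star
    have h4 := h3.mul h2
    have h5 : ∀ᶠ t : ℝ in 𝓝 0, star (1 + (t : ℂ) * a) * f ((1 + (t : ℂ) * a) • v) = f v := by
      have hc : ContinuousAt (fun t : ℝ => (1 + (t : ℂ) * a)) 0 := h0.continuousAt
      have hne : (1 + ((0 : ℝ) : ℂ) * a) ≠ 0 := by
        rw [Complex.ofReal_zero, zero_mul, add_zero]
        exact one_ne_zero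
      filter_upwards [hc.eventually_ne hne] with t ht
      exact h _ ht
    have h6 : HasDerivAt (fun t : ℝ => star (1 + (t : ℂ) * a) * f ((1 + (t : ℂ) * a) • v)) 0 0 :=
      (hasDerivAt_const (0 : ℝ) (f v)).congr_of_eventuallyEq h5
    have h7 := h4.unique h6
    rw [e0, Complex.ofReal_zero, zero_mul, add_zero, star_one, one_mul] at h7
    linear_combination h7
  have k1 := key 1
  have k2 := key Complex.I
  rw [one_smul, star_one, one_mul] at k1
  rw [dzc, k1, k2, Complex.star_def, Complex.conj_I]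
  linear_combination (1 / 2 : ℂ) * f v * (-1) * Complex.I_mul_I

/-- the derivative of a column along a flow -/
theorem bc_hasDerivAt_ent {ξ : Fin n → ℂ} {b : ℝ → SUGroup n}
    (hbd : ∀ t, HasDerivAt (fun t => (b t).toMatrix) ((b t).toMatrix * xmat ξ) t) (g : SUGroup n)
    (k : Fin (n + 1)) (j : Fin n) (t : ℝ) :
    HasDerivAt (fun t => star ((g * b t).toMatrix k j.castSucc))
      (ξ j * star ((g * b t).toMatrix k (Fin.last n))) t := by
  let L : Mat (n + 1) →ₗ[ℝ] ℂ :=
    { toFun := fun M => star ((g.toMatrix * M) k j.castSucc)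
      map_add' := fun M N => by rw [Matrix.mul_add, Matrix.add_apply, star_add]
      map_smul' := fun r M => by
        rw [Matrix.mul_smul, Matrix.smul_apply, star_smul]
        rfl }
  have h1 : HasDerivAt (fun t => L.toContinuousLinearMap ((b t).toMatrix))
      (L.toContinuousLinearMap ((b t).toMatrix * xmat ξ)) t :=
    L.toContinuousLinearMap.hasFDerivAt.comp_hasDerivAt t (hbd t)
  have e1 : (fun t => L.toContinuousLinearMap ((b t).toMatrix)) =
      fun t => star ((g * b t).toMatrix k j.castSucc) := by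
    funext t
    show star ((g.toMatrix * (b t).toMatrix) k j.castSucc) = _
    rw [toMatrix_mul]
  have hb1 : base n (Fin.last n) = 1 := by rw [base, Pi.single_eq_same]
  have hb2 : base n j.castSucc = 0 := by
    rw [base, Pi.single_eq_of_ne (Fin.castSucc_lt_last j).ne]
  have e2 : L.toContinuousLinearMap ((b t).toMatrix * xmat ξ) =
      ξ j * star ((g * b t).toMatrix k (Fin.last n)) := by
    show star ((g.toMatrix * ((b t).toMatrix * xmat ξ)) k j.castSucc) = _
    rw [toMatrix_mul, ← Matrix.mul_assoc]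
    generalize g.toMatrix * (b t).toMatrix = A
    rw [xmat, Matrix.mul_add, Matrix.mul_vecMulVec, Matrix.mul_vecMulVec, Matrix.add_apply,
      vecMulVec_apply, vecMulVec_apply, hb2, mul_zero, zero_add, base, Matrix.mulVec_single_one,
      Pi.star_apply, vec, Fin.snoc_castSucc, star_mul, star_star, Matrix.col_apply]
  rw [e1, e2] at h1
  exact h1

theorem bc_II_smul {χ : SUGroup n → ℝ} (c : ℂ) (f : SUGroup n → ℂ) :
    II χ (fun g => c * f g) = c * II χ f := by
  rw [II, II, ← integral_const_mul]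
  refine integral_congr_ae (Filter.Eventually.of_forall fun g => ?_)
  simp only [Complex.real_smul]
  ring

section
variable {Y : Vec n → Vec n → ℂ}

private theorem bc_cont_D (hY1 : ∀ a, ContDiffOn ℝ 1 (fun v => Y v a) (Cone n)) (a w : Vec n) :
    Continuous fun g : SUGroup n => fderiv ℝ (fun v => Y v a) (act g (base n)) (act g w) := by
  have h1 : ContinuousOn (fderiv ℝ (fun v => Y v a)) (Cone n) :=
    (hY1 a).continuousOn_fderiv_of_isOpen (isOpen_cone n) (by norm_num)
  have h2 : Continuous fun g : SUGroup n => fderiv ℝ (fun v => Y v a) (act g (base n)) :=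
    continuous_orb h1
  exact h2.clm_apply (continuous_actv w)

/-- the flow argument for one pair of directions -/
theorem bc_II_one (hΓ : Coc Γ) {χ : SUGroup n → ℝ} (hχ : Cut Γ χ)
    (hadd : ∀ v a b, Y v (a + b) = Y v a + Y v b)
    (hs : ∀ (v : Vec n) (r : ℂ) a, Y v (r • a) = star r * Y v a)
    (hY1 : ∀ a, ContDiffOn ℝ 1 (fun v => Y v a) (Cone n)) (hY0 : ∀ v ∈ Cone n, Y v v = 0)
    (hi : ∀ γ ∈ Γ, ∀ v ∈ Cone n, ∀ a, Y (act γ v) (act γ a) = Y v a) (j : Fin n)
    {ξ : Fin n → ℂ} (hξ : ∑ i, ‖ξ i‖ ^ 2 = 1) :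
    II χ (fun g => ∑ k, star (g.toMatrix k j.castSucc) *
      fderiv ℝ (fun v => Y v (Pi.single k 1)) (act g (base n)) (act g (vec ξ))) = 0 := by
  obtain ⟨b, hb0, hb, hbc, -, hbd⟩ := exists_flow ξ hξ
  have hent : ∀ (k l : Fin (n + 1)), Continuous fun g : SUGroup n => g.toMatrix k l := fun k l =>
    (continuous_toMatrix n).matrix_elem _ _
  have hYc : ∀ a : Vec n, Continuous fun g : SUGroup n => Y (act g (base n)) a := fun a =>
    continuous_orb (hY1 a).continuousOn
  have hcol : ∀ (g : SUGroup n) (l k : Fin (n + 1)), act g (Pi.single l 1) k = g.toMatrix k l := by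
    intro g l k
    rw [act, Matrix.mulVec_single_one, Matrix.col_apply]
  have hPsi : ∀ g : SUGroup n, ∀ l, Y (act g (base n)) (act g (Pi.single l 1)) =
      ∑ k, star (g.toMatrix k l) * Y (act g (base n)) (Pi.single k 1) := by
    intro g l
    rw [bc_Y_exp (hadd _) (hs _)]
    exact Finset.sum_congr rfl fun k _ => by rw [hcol]
  refine II_flow (Ψ := fun g => ∑ k, star (g.toMatrix k j.castSucc) *
      Y (act g (base n)) (Pi.single k 1)) hΓ hχ hb0 hb hbc
    (continuous_finset_sum _ fun k _ => (hent k _).star.mul (hYc _))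
    (continuous_finset_sum _ fun k _ => (hent k _).star.mul (bc_cont_D hY1 _ _))
    (fun g t => ?_) fun γ hγ g => ?_
  · have h1 : ∀ k, HasDerivAt (fun t => star ((g * b t).toMatrix k j.castSucc) *
        Y (act (g * b t) (base n)) (Pi.single k 1))
        (ξ j * star ((g * b t).toMatrix k (Fin.last n)) *
          Y (act (g * b t) (base n)) (Pi.single k 1) +
          star ((g * b t).toMatrix k j.castSucc) *
            fderiv ℝ (fun v => Y v (Pi.single k 1)) (act (g * b t) (base n))
              (act (g * b t) (vec ξ))) t := by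
      intro k
      have hd : DifferentiableAt ℝ (fun v => Y v (Pi.single k 1)) (act (g * b t) (base n)) :=
        ((hY1 _).contDiffAt ((isOpen_cone n).mem_nhds (orbit_mem _))).differentiableAt
          (by norm_num)
      exact (bc_hasDerivAt_ent hbd g k j t).mul (hasDerivAt_flow hbd g t hd)
    have h2 := HasDerivAt.fun_sum fun k (_ : k ∈ Finset.univ) => h1 k
    rw [Finset.sum_add_distrib] at h2
    have h3 : ∑ k, ξ j * star ((g * b t).toMatrix k (Fin.last n)) *
          Y (act (g * b t) (base n)) (Pi.single k 1) = 0 := by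
      have h4 := hPsi (g * b t) (Fin.last n)
      have h5 : Y (act (g * b t) (base n)) (act (g * b t) (Pi.single (Fin.last n) 1)) = 0 :=
        hY0 _ (orbit_mem _)
      rw [h5] at h4
      calc _ = ξ j * ∑ k, star ((g * b t).toMatrix k (Fin.last n)) *
          Y (act (g * b t) (base n)) (Pi.single k 1) := by
            rw [Finset.mul_sum]
            exact Finset.sum_congr rfl fun k _ => by ring
        _ = 0 := by rw [← h4, mul_zero]
    rw [h3, zero_add] at h2
    exact h2
  · show ∑ k, star ((γ * g).toMatrix k j.castSucc) * Y (act (γ * g) (base n)) (Pi.single k 1) =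
      ∑ k, star (g.toMatrix k j.castSucc) * Y (act g (base n)) (Pi.single k 1)
    rw [← hPsi, ← hPsi, act_mul, act_mul]
    exact hi γ hγ _ (orbit_mem g) _

end

theorem bc_II_div (hΓ : Coc Γ) {χ : SUGroup n → ℝ} (hχ : Cut Γ χ)
    {Y : Vec n → Vec n → ℂ} (hadd : ∀ v a b, Y v (a + b) = Y v a + Y v b)
    (hs : ∀ (v : Vec n) (r : ℂ) a, Y v (r • a) = star r * Y v a)
    (hY1 : ∀ a, ContDiffOn ℝ 1 (fun v => Y v a) (Cone n)) (hY0 : ∀ v ∈ Cone n, Y v v = 0)
    (hh : ∀ c : ℂ, c ≠ 0 → ∀ v ∈ Cone n, ∀ a, Y (c • v) (c • a) = Y v a)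
    (hi : ∀ γ ∈ Γ, ∀ v ∈ Cone n, ∀ a, Y (act γ v) (act γ a) = Y v a) :
    II χ (fun g => ∑ c : Fin (n + 1), J n c c *
      dzc (fun w => Y w (Pi.single c 1)) (act g (base n)) (Pi.single c 1)) = 0 := by
  have hent : ∀ (k l : Fin (n + 1)), Continuous fun g : SUGroup n => g.toMatrix k l := fun k l =>
    (continuous_toMatrix n).matrix_elem _ _
  have hcol : ∀ (g : SUGroup n) (l k : Fin (n + 1)), act g (Pi.single l 1) k = g.toMatrix k l := by
    intro g l k
    rw [act, Matrix.mulVec_single_one, Matrix.col_apply]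
  set D : Fin n → (Fin n → ℂ) → SUGroup n → ℂ := fun j ξ g =>
    ∑ k, star (g.toMatrix k j.castSucc) *
      fderiv ℝ (fun v => Y v (Pi.single k 1)) (act g (base n)) (act g (vec ξ)) with hD
  have hDc : ∀ j ξ, Continuous (D j ξ) := fun j ξ =>
    continuous_finset_sum _ fun k _ => (hent k _).star.mul (bc_cont_D hY1 _ _)
  have key : ∀ g : SUGroup n, ∑ c : Fin (n + 1), J n c c *
      dzc (fun w => Y w (Pi.single c 1)) (act g (base n)) (Pi.single c 1) =
      ∑ j : Fin n, ((1 / 2 : ℂ) * D j (Pi.single j 1) g +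
        (-(1 / 2 : ℂ) * Complex.I) * D j (Pi.single j Complex.I) g) := by
    intro g
    have hd : ∀ k : Fin (n + 1), DifferentiableAt ℝ (fun v => Y v (Pi.single k 1))
        (act g (base n)) := fun k =>
      ((hY1 _).contDiffAt ((isOpen_cone n).mem_nhds (orbit_mem _))).differentiableAt (by norm_num)
    have h1 := sum_J_sesq (n := n) (fun a c => ∑ k, star (c k) *
        dzc (fun w => Y w (Pi.single k 1)) (act g (base n)) a)
      (fun a b c => by
        rw [← Finset.sum_add_distrib]
        exact Finset.sum_congr rfl fun k _ => by rw [bc_dzc_add]; ring)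
      (fun a b c => by
        rw [← Finset.sum_add_distrib]
        exact Finset.sum_congr rfl fun k _ => by rw [Pi.add_apply, star_add]; ring)
      (fun r a c => by
        rw [Finset.mul_sum]
        exact Finset.sum_congr rfl fun k _ => by rw [bc_dzc_smul]; ring)
      (fun r a c => by
        rw [Finset.mul_sum]
        exact Finset.sum_congr rfl fun k _ => by
          rw [Pi.smul_apply, smul_eq_mul, star_mul']; ring) g (by
        refine Finset.sum_eq_zero fun k _ => ?_
        rw [bc_dzc_radial (hd k) ?_, mul_zero]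
        intro c hc
        rw [← hs, hh c hc _ (orbit_mem g)])
    have h2 : ∀ c : Fin (n + 1), ∑ k, star ((Pi.single c 1 : Vec n) k) *
        dzc (fun w => Y w (Pi.single k 1)) (act g (base n)) (Pi.single c 1) =
        dzc (fun w => Y w (Pi.single c 1)) (act g (base n)) (Pi.single c 1) := by
      intro c
      rw [Finset.sum_eq_single c]
      · rw [Pi.single_eq_same, star_one, one_mul]
      · intro k _ hk
        rw [Pi.single_eq_of_ne hk, star_zero, zero_mul]
      · intro h
        exact absurd (Finset.mem_univ c) h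
    simp only [h2] at h1
    rw [h1]
    refine Finset.sum_congr rfl fun j _ => ?_
    rw [hD]
    simp only
    rw [Finset.mul_sum, Finset.mul_sum, ← Finset.sum_add_distrib]
    refine Finset.sum_congr rfl fun k _ => ?_
    rw [hcol, vec_single, vec_single, dzc]
    have h3 : Complex.I • act g (Pi.single j.castSucc 1) =
        act g (Pi.single j.castSucc Complex.I) := by
      rw [← act_smul, ← Pi.single_smul, smul_eq_mul, mul_one]
    rw [h3]
    ring
  rw [II_congr key, II_sum hχ]
  · refine Finset.sum_eq_zero fun j _ => ?_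
    have h1 : Continuous fun g => (1 / 2 : ℂ) * D j (Pi.single j 1) g :=
      continuous_const.mul (hDc _ _)
    have h2 : Continuous fun g => (-(1 / 2 : ℂ) * Complex.I) * D j (Pi.single j Complex.I) g :=
      continuous_const.mul (hDc _ _)
    rw [II_add hχ h1 h2, bc_II_smul,
      bc_II_smul, bc_II_one hΓ hχ hadd hs hY1 hY0 hi j (sum_single_sq j (by simp)),
      bc_II_one hΓ hχ hadd hs hY1 hY0 hi j (sum_single_sq j (by simp)), mul_zero, mul_zero,
      add_zero]
  · intro j _
    exact (continuous_const.mul (hDc _ _)).add (continuous_const.mul (hDc _ _))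

end Pool.Agent.Lib.MP_5d4057_al.HM
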