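import Pool.Agent.Lib.MP_5d4057_al.HM.BochCC

/-! Derivatives of the averages: `P s F (v) = ∫ kap s x • F (sec v · x e_n)`. -/

namespace Pool.Agent.Lib.MP_5d4057_al.HM

open Matrix MeasureTheory Filter Topology Pool.Agent.Lib.MP_5d4057_al Pool.Agent.Lib.MP_5d4057_al.Hyb

open scoped ComplexOrder MatrixOrder Matrix.Norms.L2Operator

variable {n m : ℕ} {E : Type} [NormedAddCommGroup E] [NormedSpace ℝ E] [CompleteSpace E]

/-- the bilinear map `(w, A) ↦ A w` -/
noncomputable def bcB (n : ℕ) : Vec n →L[ℝ] Mat (n + 1) →L[ℝ] Vec n :=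
  LinearMap.toContinuousLinearMap
    { toFun := fun w => LinearMap.toContinuousLinearMap
        { toFun := fun A : Mat (n + 1) => A *ᵥ w
          map_add' := fun A B => Matrix.add_mulVec A B w
          map_smul' := fun r A => by
            rw [Matrix.smul_mulVec, RingHom.id_apply] }
      map_add' := fun w w' => by
        ext A
        simp [Matrix.mulVec_add]
      map_smul' := fun r w => by
        ext A
        simp [Matrix.mulVec_smul] }

theorem bcB_apply (w : Vec n) (A : Mat (n + 1)) : bcB n w A = A *ᵥ w := rfl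

/-- the matrix of the section -/
noncomputable def bcS (n : ℕ) (v : Vec n) : Mat (n + 1) := (sec n v).toMatrix

theorem bcS_act (v w : Vec n) : bcB n w (bcS n v) = act (sec n v) w := rfl

theorem bcS_mem (v : Vec n) {w : Vec n} (hw : w ∈ Cone n) : bcB n w (bcS n v) ∈ Cone n := by
  rw [bcS_act]
  exact act_mem _ hw

noncomputable def bcF0 (F : Vec n → E) (v w : Vec n) : E := F (bcB n w (bcS n v))

noncomputable def bcC1 (n : ℕ) (v w : Vec n) : Vec n →L[ℝ] Vec n :=
  (bcB n w).comp (fderiv ℝ (bcS n) v)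

noncomputable def bcC2 (n : ℕ) (v w : Vec n) : Vec n →L[ℝ] Vec n →L[ℝ] Vec n :=
  (ContinuousLinearMap.compL ℝ (Vec n) (Mat (n + 1)) (Vec n) (bcB n w)).comp
    (fderiv ℝ (fderiv ℝ (bcS n)) v)

noncomputable def bcF1 (F : Vec n → E) (v w : Vec n) : Vec n →L[ℝ] E :=
  (fderiv ℝ F (bcB n w (bcS n v))).comp (bcC1 n v w)

noncomputable def bcF2 (F : Vec n → E) (v w : Vec n) : Vec n →L[ℝ] Vec n →L[ℝ] E :=
  (ContinuousLinearMap.compL ℝ (Vec n) (Vec n) E (fderiv ℝ F (bcB n w (bcS n v)))).comp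
      (bcC2 n v w) +
    ((ContinuousLinearMap.compL ℝ (Vec n) (Vec n) E).flip (bcC1 n v w)).comp
      ((fderiv ℝ (fderiv ℝ F) (bcB n w (bcS n v))).comp (bcC1 n v w))

section smoothS

theorem bcS_cd (n : ℕ) : ContDiffOn ℝ (⊤ : ℕ∞) (bcS n) (Cone n) := contDiffOn_sec n

theorem bcS_hasFDerivAt {v : Vec n} (hv : v ∈ Cone n) :
    HasFDerivAt (bcS n) (fderiv ℝ (bcS n) v) v :=
  (((bcS_cd n).contDiffAt ((isOpen_cone n).mem_nhds hv)).differentiableAt
    (by norm_num)).hasFDerivAt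

theorem bcS_hasFDerivAt' {v : Vec n} (hv : v ∈ Cone n) :
    HasFDerivAt (fderiv ℝ (bcS n)) (fderiv ℝ (fderiv ℝ (bcS n)) v) v := by
  have h1 : ContDiffOn ℝ (⊤ : ℕ∞) (fderiv ℝ (bcS n)) (Cone n) :=
    (bcS_cd n).fderiv_of_isOpen (isOpen_cone n) (by norm_num)
  exact ((h1.contDiffAt ((isOpen_cone n).mem_nhds hv)).differentiableAt (by norm_num)).hasFDerivAt

theorem bcS_cont : ContinuousOn (bcS n) (Cone n) := (bcS_cd n).continuousOn

theorem bcS_cont1 : ContinuousOn (fderiv ℝ (bcS n)) (Cone n) :=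
  (bcS_cd n).continuousOn_fderiv_of_isOpen (isOpen_cone n) (by norm_num)

theorem bcS_cont2 : ContinuousOn (fderiv ℝ (fderiv ℝ (bcS n))) (Cone n) := by
  have h1 : ContDiffOn ℝ (⊤ : ℕ∞) (fderiv ℝ (bcS n)) (Cone n) :=
    (bcS_cd n).fderiv_of_isOpen (isOpen_cone n) (by norm_num)
  exact h1.continuousOn_fderiv_of_isOpen (isOpen_cone n) (by norm_num)

theorem bcC_hasFDerivAt {v : Vec n} (hv : v ∈ Cone n) (w : Vec n) :
    HasFDerivAt (fun v => bcB n w (bcS n v)) (bcC1 n v w) v :=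
  (bcB n w).hasFDerivAt.comp v (bcS_hasFDerivAt hv)

theorem bcC1_hasFDerivAt {v : Vec n} (hv : v ∈ Cone n) (w : Vec n) :
    HasFDerivAt (fun v => bcC1 n v w) (bcC2 n v w) v :=
  (ContinuousLinearMap.compL ℝ (Vec n) (Mat (n + 1)) (Vec n) (bcB n w)).hasFDerivAt.comp v
    (bcS_hasFDerivAt' hv)

end smoothS

section
variable {F : Vec n → E}

omit [CompleteSpace E] in
theorem bcF0_hasFDerivAt (hF : ContDiffOn ℝ 2 F (Cone n)) {v w : Vec n} (hv : v ∈ Cone n)
    (hw : w ∈ Cone n) : HasFDerivAt (fun v => bcF0 F v w) (bcF1 F v w) v := by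
  have h1 : HasFDerivAt F (fderiv ℝ F (bcB n w (bcS n v))) (bcB n w (bcS n v)) :=
    ((hF.contDiffAt ((isOpen_cone n).mem_nhds (bcS_mem v hw))).differentiableAt
      (by norm_num)).hasFDerivAt
  exact h1.comp v (bcC_hasFDerivAt hv w)

omit [CompleteSpace E] in
theorem bcF1_hasFDerivAt (hF : ContDiffOn ℝ 2 F (Cone n)) {v w : Vec n} (hv : v ∈ Cone n)
    (hw : w ∈ Cone n) : HasFDerivAt (fun v => bcF1 F v w) (bcF2 F v w) v := by
  have h1 : HasFDerivAt (fderiv ℝ F) (fderiv ℝ (fderiv ℝ F) (bcB n w (bcS n v)))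
      (bcB n w (bcS n v)) :=
    (((hF.contDiffAt ((isOpen_cone n).mem_nhds (bcS_mem v hw))).fderiv_right (m := 1)
      (by norm_num)).differentiableAt (by norm_num)).hasFDerivAt
  have h2 := h1.comp v (bcC_hasFDerivAt hv w)
  exact h2.clm_comp (bcC1_hasFDerivAt hv w)

omit [CompleteSpace E] in
/-- continuity of a function of `v ∈ Cone`, `w ∈ Cone` -/
theorem bcF_cont (hF : ContDiffOn ℝ 2 F (Cone n)) {v : Vec n} :
    ContinuousOn (bcF0 F v) (Cone n) ∧ ContinuousOn (bcF1 F v) (Cone n) ∧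
      ContinuousOn (bcF2 F v) (Cone n) := by
  have c0 : ContinuousOn (fun w => bcB n w (bcS n v)) (Cone n) :=
    ((bcB n).continuous.clm_apply continuous_const).continuousOn
  have hm : Set.MapsTo (fun w => bcB n w (bcS n v)) (Cone n) (Cone n) := fun w hw => bcS_mem v hw
  have c1 : Continuous (bcC1 n v) := (bcB n).continuous.clm_comp continuous_const
  have c2 : Continuous (bcC2 n v) :=
    ((ContinuousLinearMap.compL ℝ (Vec n) (Mat (n + 1)) (Vec n)).continuous.comp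
      (bcB n).continuous).clm_comp continuous_const
  have d0 := hF.continuousOn.comp c0 hm
  have d1 := (continuousOn_fderiv_cone hF).comp c0 hm
  have d2 := (continuousOn_fderiv_two_cone hF).comp c0 hm
  refine ⟨d0, d1.clm_comp c1.continuousOn, ?_⟩
  have e1 : Continuous fun w =>
      (ContinuousLinearMap.compL ℝ (Vec n) (Vec n) E).flip (bcC1 n v w) :=
    ((ContinuousLinearMap.compL ℝ (Vec n) (Vec n) E).flip).continuous.comp c1
  have e2 : ContinuousOn (fun w => ContinuousLinearMap.compL ℝ (Vec n) (Vec n) E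
      (fderiv ℝ F (bcB n w (bcS n v)))) (Cone n) :=
    (ContinuousLinearMap.compL ℝ (Vec n) (Vec n) E).continuous.comp_continuousOn d1
  have e3 := e2.clm_comp c2.continuousOn
  have e4 := e1.continuousOn.clm_comp (d2.clm_comp c1.continuousOn)
  exact e3.add e4

omit [NormedSpace ℝ E] [CompleteSpace E] in
theorem bcF0_smul (hh : Homog F) (v : Vec n) {w : Vec n} (hw : w ∈ Cone n) {c : ℂ} (hc : c ≠ 0) :
    bcF0 F v (c • w) = bcF0 F v w := by
  rw [bcF0, bcF0, bcS_act, bcS_act, act_smul, hh c hc _ (act_mem _ hw)]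

omit [CompleteSpace E] in
theorem bcF1_smul (hh : Homog F) (hF : ContDiffOn ℝ 2 F (Cone n)) {v : Vec n} (hv : v ∈ Cone n)
    {w : Vec n} (hw : w ∈ Cone n) {c : ℂ} (hc : c ≠ 0) : bcF1 F v (c • w) = bcF1 F v w := by
  have h1 := bcF0_hasFDerivAt hF hv (smul_mem_cone hc hw)
  have h2 := bcF0_hasFDerivAt hF hv hw
  have h3 : (fun v => bcF0 F v (c • w)) = fun v => bcF0 F v w :=
    funext fun v => bcF0_smul hh v hw hc
  rw [h3] at h1
  exact h1.unique h2

omit [CompleteSpace E] in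
theorem bcF2_smul (hh : Homog F) (hF : ContDiffOn ℝ 2 F (Cone n)) {v : Vec n} (hv : v ∈ Cone n)
    {w : Vec n} (hw : w ∈ Cone n) {c : ℂ} (hc : c ≠ 0) : bcF2 F v (c • w) = bcF2 F v w := by
  have h1 := bcF1_hasFDerivAt hF hv (smul_mem_cone hc hw)
  have h2 := bcF1_hasFDerivAt hF hv hw
  have h3 : (fun v => bcF1 F v (c • w)) =ᶠ[𝓝 v] fun v => bcF1 F v w := by
    filter_upwards [cone_nhds hv] with u hu
    exact bcF1_smul hh hF hu hw hc
  exact (h1.congr_of_eventuallyEq h3.symm).unique h2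

omit [NormedSpace ℝ E] [CompleteSpace E] in
theorem bcF0_base (hh : Homog F) {v : Vec n} (hv : v ∈ Cone n) : bcF0 F v (base n) = F v := by
  obtain ⟨c, hc, h⟩ := sec_spec hv
  rw [bcF0, bcS_act]
  conv_rhs => rw [h]
  rw [hh c hc _ (orbit_mem _)]

omit [CompleteSpace E] in
theorem bcF1_base (hh : Homog F) (hF : ContDiffOn ℝ 2 F (Cone n)) {v : Vec n} (hv : v ∈ Cone n) :
    bcF1 F v (base n) = fderiv ℝ F v := by
  have h1 := bcF0_hasFDerivAt hF hv (base_mem n)
  have h3 : F =ᶠ[𝓝 v] fun v => bcF0 F v (base n) := by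
    filter_upwards [cone_nhds hv] with u hu
    exact (bcF0_base hh hu).symm
  exact (h1.congr_of_eventuallyEq h3).fderiv.symm

omit [CompleteSpace E] in
theorem bcF2_base (hh : Homog F) (hF : ContDiffOn ℝ 2 F (Cone n)) {v : Vec n} (hv : v ∈ Cone n) :
    bcF2 F v (base n) = fderiv ℝ (fderiv ℝ F) v := by
  have h1 := bcF1_hasFDerivAt hF hv (base_mem n)
  have h3 : fderiv ℝ F =ᶠ[𝓝 v] fun v => bcF1 F v (base n) := by
    filter_upwards [cone_nhds hv] with u hu
    exact (bcF1_base hh hF hu).symm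
  exact (h1.congr_of_eventuallyEq h3).fderiv.symm

end

end Pool.Agent.Lib.MP_5d4057_al.HM
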