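import Pool.Agent.Lib.MP_5d4057_al.HM.BochCE

/-! A `C²` equivariant metric is tame. -/

namespace Pool.Agent.Lib.MP_5d4057_al.HM

open Matrix MeasureTheory Filter Topology Pool.Agent.Lib.MP_5d4057_al Pool.Agent.Lib.MP_5d4057_al.Hyb

open scoped ComplexOrder MatrixOrder Matrix.Norms.L2Operator

set_option maxSynthPendingDepth 3

variable {n m : ℕ}

theorem bc_norm_act_le (g : SUGroup n) (u : Vec n) :
    ‖act g u‖ ≤ 2 * (n + 1) * ch g * ‖u‖ := by
  have h0 := ch_pos g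
  rw [pi_norm_le_iff_of_nonneg (by positivity)]
  intro i
  rw [act, Matrix.mulVec, dotProduct]
  refine (norm_sum_le _ _).trans ?_
  calc ∑ j, ‖g.toMatrix i j * u j‖ ≤ ∑ _j : Fin (n + 1), 2 * ch g * ‖u‖ := by
        refine Finset.sum_le_sum fun j _ => ?_
        rw [norm_mul]
        exact mul_le_mul (norm_entry_le g i j) (norm_le_pi_norm u j) (norm_nonneg _)
          (by positivity)
    _ = _ := by
      rw [Finset.sum_const, Finset.card_univ, Fintype.card_fin, nsmul_eq_mul]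
      push_cast
      ring

theorem bc_norm_actL_le (g : SUGroup n) : ‖actL g‖ ≤ 2 * (n + 1) * ch g := by
  have h0 := ch_pos g
  exact ContinuousLinearMap.opNorm_le_bound _ (by positivity) fun u => by
    rw [actL_apply]
    exact bc_norm_act_le g u

theorem bc_fderiv_rel {V G G' : Type} [NormedAddCommGroup V] [NormedSpace ℝ V]
    [NormedAddCommGroup G] [NormedSpace ℝ G]
    [NormedAddCommGroup G'] [NormedSpace ℝ G'] {f : V → G} {f' : V → G'}
    {T : V →L[ℝ] V} {Λ : G' →L[ℝ] G} {v : V} (h : ∀ᶠ w in 𝓝 v, f w = Λ (f' (T w)))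
    (hf' : DifferentiableAt ℝ f' (T v)) :
    fderiv ℝ f v = (Λ.comp (fderiv ℝ f' (T v))).comp T := by
  have h1 : HasFDerivAt (fun w => Λ (f' (T w))) ((Λ.comp (fderiv ℝ f' (T v))).comp T) v :=
    (Λ.hasFDerivAt.comp (T v) hf'.hasFDerivAt).comp v T.hasFDerivAt
  exact (h1.congr_of_eventuallyEq h).fderiv

theorem bc_norm_comp3 {V G G' : Type} [NormedAddCommGroup V] [NormedSpace ℝ V]
    [NormedAddCommGroup G] [NormedSpace ℝ G]
    [NormedAddCommGroup G'] [NormedSpace ℝ G'] (T : V →L[ℝ] V) (Λ : G' →L[ℝ] G)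
    (D : V →L[ℝ] G') : ‖(Λ.comp D).comp T‖ ≤ ‖Λ‖ * ‖D‖ * ‖T‖ :=
  (ContinuousLinearMap.opNorm_comp_le _ _).trans (mul_le_mul_of_nonneg_right
    (ContinuousLinearMap.opNorm_comp_le _ _) (norm_nonneg _))

/-- the bounds for the derivatives from a relation `F = Λ ∘ F ∘ T` -/
theorem bc_rel_bounds {F : Vec n → Mat m} (hF : ContDiffOn ℝ 2 F (Cone n))
    {T : Vec n →L[ℝ] Vec n} {Λ : Mat m →L[ℝ] Mat m} (hT : ∀ v ∈ Cone n, T v ∈ Cone n)
    (h : ∀ v ∈ Cone n, F v = Λ (F (T v))) {v : Vec n} (hv : v ∈ Cone n) :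
    ‖fderiv ℝ F v‖ ≤ ‖Λ‖ * ‖fderiv ℝ F (T v)‖ * ‖T‖ ∧
    ‖fderiv ℝ (fderiv ℝ F) v‖ ≤ ‖T‖ * ‖Λ‖ * ‖fderiv ℝ (fderiv ℝ F) (T v)‖ * ‖T‖ := by
  have h1 : ∀ u ∈ Cone n, fderiv ℝ F u = (Λ.comp (fderiv ℝ F (T u))).comp T := by
    intro u hu
    refine bc_fderiv_rel ?_ (bc_diff hF (hT u hu))
    filter_upwards [cone_nhds hu] with w hw
    exact h w hw
  refine ⟨?_, ?_⟩
  · rw [h1 v hv]
    exact bc_norm_comp3 _ _ _
  · have h2 : fderiv ℝ (fderiv ℝ F) v =
        ((((ContinuousLinearMap.compL ℝ (Vec n) (Vec n) (Mat m)).flip T).comp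
          (ContinuousLinearMap.compL ℝ (Vec n) (Mat m) (Mat m) Λ)).comp
            (fderiv ℝ (fderiv ℝ F) (T v))).comp T := by
      refine bc_fderiv_rel ?_ (bc_diff_fderiv hF (hT v hv))
      filter_upwards [cone_nhds hv] with w hw
      exact h1 w hw
    rw [h2]
    refine (bc_norm_comp3 _ _ _).trans ?_
    refine mul_le_mul_of_nonneg_right (mul_le_mul_of_nonneg_right ?_ (norm_nonneg _))
      (norm_nonneg _)
    refine (ContinuousLinearMap.opNorm_comp_le _ _).trans ?_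
    have e1 : ‖(ContinuousLinearMap.compL ℝ (Vec n) (Vec n) (Mat m)).flip T‖ ≤ ‖T‖ :=
      bc_compL_flip_le T
    have e2 : ‖ContinuousLinearMap.compL ℝ (Vec n) (Mat m) (Mat m) Λ‖ ≤ ‖Λ‖ := by
      have h : ‖ContinuousLinearMap.compL ℝ (Vec n) (Mat m) (Mat m) Λ‖ ≤
          ‖ContinuousLinearMap.compL ℝ (Vec n) (Mat m) (Mat m)‖ * ‖Λ‖ :=
        ContinuousLinearMap.le_opNorm _ _
      have h1 := ContinuousLinearMap.norm_compL_le ℝ (Vec n) (Mat m) (Mat m)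
      have h2 := norm_nonneg Λ
      nlinarith
    exact mul_le_mul e1 e2 (norm_nonneg _) (norm_nonneg _)

variable {Γ : Subgroup (SUGroup n)}

theorem bc_tame_of_met (hn : 1 ≤ n) (hΓ : Coc Γ) {ρ : Γ →* Mat m} {F : Vec n → Mat m}
    (hF : Met ρ F) (hF2 : ContDiffOn ℝ 2 F (Cone n)) : ∃ (N : ℕ) (C : ℝ), Tame N C F := by
  obtain ⟨K, hK, hcov⟩ := hΓ.cpt
  obtain ⟨N, C, hC, hρ⟩ := rho_growth hn hΓ ρ
  obtain ⟨B0, h0⟩ := hK.exists_bound_of_continuousOn
    (continuous_orb hF.cont).continuousOn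
  have h1' : ∃ B1, ∀ g ∈ K, ‖fderiv ℝ F (act g (base n))‖ ≤ B1 :=
    hK.exists_bound_of_continuousOn (continuous_orb (continuousOn_fderiv_cone hF2)).continuousOn
  have h2' : ∃ B2, ∀ g ∈ K, ‖fderiv ℝ (fderiv ℝ F) (act g (base n))‖ ≤ B2 :=
    hK.exists_bound_of_continuousOn
      (continuous_orb (continuousOn_fderiv_two_cone hF2)).continuousOn
  have h3' : ∃ B3, ∀ g ∈ K, ‖ch g‖ ≤ B3 :=
    hK.exists_bound_of_continuousOn continuous_ch.continuousOn
  obtain ⟨B1, h1⟩ := h1'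
  obtain ⟨B2, h2⟩ := h2'
  obtain ⟨B3, h3⟩ := h3'
  obtain ⟨B, hB⟩ : ∃ B : ℝ, B = max 1 (max (max B0 B1) (max B2 B3)) := ⟨_, rfl⟩
  have hB1 : 1 ≤ B := by rw [hB]; exact le_max_left _ _
  have hBm : max (max B0 B1) (max B2 B3) ≤ B := by rw [hB]; exact le_max_right _ _
  have hb0 : B0 ≤ B := ((le_max_left _ _).trans (le_max_left _ _)).trans hBm
  have hb1 : B1 ≤ B := ((le_max_right _ _).trans (le_max_left _ _)).trans hBm
  have hb2 : B2 ≤ B := ((le_max_left _ _).trans (le_max_right _ _)).trans hBm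
  have hb3 : B3 ≤ B := ((le_max_right _ _).trans (le_max_right _ _)).trans hBm
  -- the constant
  obtain ⟨R, hR⟩ : ∃ R : ℝ, R = 2 * (n + 1) * (2 * B) := ⟨_, rfl⟩
  have hR1 : 1 ≤ R := by
    rw [hR]
    have hn0 : (0 : ℝ) ≤ n := Nat.cast_nonneg n
    nlinarith
  obtain ⟨L, hL⟩ : ∃ L : ℝ, L = (C * (2 * B) ^ N) ^ 2 := ⟨_, rfl⟩
  have hL0 : 0 ≤ L := by rw [hL]; positivity
  have key : ∀ g : SUGroup n,
      ‖F (act g (base n))‖ ≤ (R ^ 2 * L * B) * ch g ^ (2 * (N + 1)) ∧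
      ‖fderiv ℝ F (act g (base n))‖ ≤ (R ^ 2 * L * B) * ch g ^ (2 * (N + 1)) ∧
      ‖fderiv ℝ (fderiv ℝ F) (act g (base n))‖ ≤ (R ^ 2 * L * B) * ch g ^ (2 * (N + 1)) := by
    intro g
    obtain ⟨γ, hγ, hg⟩ := hcov g
    obtain ⟨X, hX⟩ : ∃ X : ℝ, X = ch g := ⟨_, rfl⟩
    have hX1 : 1 ≤ X := by rw [hX]; exact one_le_ch g
    have hX0 : 0 < X := by linarith
    have hchγ : ch γ ≤ 2 * B * X := by
      have e1 : γ = (γ * g) * g⁻¹ := by rw [mul_assoc, mul_inv_cancel, mul_one]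
      rw [e1]
      refine (ch_mul_le' _ _).trans ?_
      rw [ch_inv, ← hX]
      have h4 := h3 _ hg
      rw [Real.norm_of_nonneg (ch_pos _).le] at h4
      have h5 : ch (γ * g) ≤ B := h4.trans hb3
      nlinarith
    set γ' : Γ := ⟨γ, hγ⟩ with hγ'
    -- the linear maps
    obtain ⟨A, hA⟩ : ∃ A : Mat m, A = ρ γ'⁻¹ := ⟨_, rfl⟩
    have hAn : ‖A‖ ≤ C * (2 * B) ^ N * X ^ N := by
      rw [hA]
      refine (hρ _).trans ?_
      have e2 : ((γ'⁻¹ : Γ) : SUGroup n) = γ⁻¹ := rfl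
      rw [e2, ch_inv, mul_assoc, ← mul_pow]
      exact mul_le_mul_of_nonneg_left (pow_le_pow_left₀ (ch_pos _).le hchγ _) hC.le
    have hrel : ∀ v ∈ Cone n, F v = (bcL A Aᴴ).restrictScalars ℝ (F (actL γ v)) := by
      intro v hv
      show F v = A * F (act γ v) * Aᴴ
      have e3 := hF.equi γ'⁻¹ (act γ v) (act_mem γ hv)
      have e4 : act ((γ'⁻¹ : Γ) : SUGroup n) (act γ v) = v := by
        rw [← act_mul]
        show act (γ⁻¹ * γ) v = v
        rw [inv_mul_cancel, act_one]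
      rw [e4] at e3
      rw [hA]
      exact e3
    have hΛ : ‖(bcL A Aᴴ).restrictScalars ℝ‖ ≤ L * X ^ (2 * N) := by
      refine ContinuousLinearMap.opNorm_le_bound _ (by positivity) fun Z => ?_
      show ‖A * Z * Aᴴ‖ ≤ _
      have e5 : ‖A * Z * Aᴴ‖ ≤ ‖A‖ * ‖Z‖ * ‖A‖ := by
        refine (norm_mul_le _ _).trans ?_
        rw [Matrix.l2_opNorm_conjTranspose]
        exact mul_le_mul_of_nonneg_right (norm_mul_le _ _) (norm_nonneg _)
      refine e5.trans ?_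
      have e6 : ‖A‖ * ‖A‖ ≤ (C * (2 * B) ^ N * X ^ N) * (C * (2 * B) ^ N * X ^ N) :=
        mul_le_mul hAn hAn (norm_nonneg _) (by positivity)
      have e7 : (C * (2 * B) ^ N * X ^ N) * (C * (2 * B) ^ N * X ^ N) = L * X ^ (2 * N) := by
        rw [hL, mul_comm 2 N, pow_mul X N 2]
        ring
      rw [e7] at e6
      calc ‖A‖ * ‖Z‖ * ‖A‖ = (‖A‖ * ‖A‖) * ‖Z‖ := by ring
        _ ≤ _ := mul_le_mul_of_nonneg_right e6 (norm_nonneg _)
    have hT : ‖actL γ‖ ≤ R * X := by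
      refine (bc_norm_actL_le γ).trans ?_
      have hn0 : (0 : ℝ) ≤ 2 * (n + 1) := by positivity
      calc 2 * ((n : ℝ) + 1) * ch γ ≤ 2 * (n + 1) * (2 * B * X) :=
            mul_le_mul_of_nonneg_left hchγ hn0
        _ = R * X := by rw [hR]; ring
    have hpt : actL γ (act g (base n)) = act (γ * g) (base n) := by
      rw [actL_apply, act_mul]
    have hbd := bc_rel_bounds hF2 (T := actL γ) (Λ := (bcL A Aᴴ).restrictScalars ℝ)
      (fun v hv => act_mem γ hv) hrel (orbit_mem g)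
    rw [hpt] at hbd
    have g1 : ‖fderiv ℝ F (act (γ * g) (base n))‖ ≤ B := (h1 _ hg).trans hb1
    have g2 : ‖fderiv ℝ (fderiv ℝ F) (act (γ * g) (base n))‖ ≤ B := (h2 _ hg).trans hb2
    have g0 : ‖F (act (γ * g) (base n))‖ ≤ B := (h0 _ hg).trans hb0
    have hXp : X ^ (2 * (N + 1)) = X ^ (2 * N) * X ^ 2 := by
      rw [← pow_add]
      congr 1
    have hX2 : 1 ≤ X ^ 2 := by nlinarith
    have hXX : X ≤ X ^ 2 := by nlinarith
    have hRR : R ≤ R ^ 2 := by nlinarith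
    have hR2 : 1 ≤ R ^ 2 := by nlinarith
    have hP : 0 ≤ L * X ^ (2 * N) * B := by positivity
    rw [← hX, hXp]
    have tgt : R ^ 2 * L * B * (X ^ (2 * N) * X ^ 2) = L * X ^ (2 * N) * B * (R ^ 2 * X ^ 2) := by
      ring
    rw [tgt]
    refine ⟨?_, ?_, ?_⟩
    · have e8 := hrel _ (orbit_mem g)
      rw [e8, hpt]
      refine (ContinuousLinearMap.le_opNorm _ _).trans ?_
      calc _ ≤ L * X ^ (2 * N) * B := mul_le_mul hΛ g0 (norm_nonneg _) (by positivity)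
        _ = L * X ^ (2 * N) * B * (1 * 1) := by ring
        _ ≤ _ := by
          refine mul_le_mul_of_nonneg_left ?_ hP
          exact mul_le_mul hR2 hX2 zero_le_one (by positivity)
    · refine hbd.1.trans ?_
      calc _ ≤ L * X ^ (2 * N) * B * (R * X) :=
            mul_le_mul (mul_le_mul hΛ g1 (norm_nonneg _) (by positivity)) hT (norm_nonneg _)
              (by positivity)
        _ ≤ _ := by
          refine mul_le_mul_of_nonneg_left ?_ hP
          exact mul_le_mul hRR hXX hX0.le (by positivity)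
    · refine hbd.2.trans ?_
      calc _ ≤ (R * X) * (L * X ^ (2 * N)) * B * (R * X) :=
            mul_le_mul (mul_le_mul (mul_le_mul hT hΛ (norm_nonneg _) (by positivity)) g2
              (norm_nonneg _) (by positivity)) hT (norm_nonneg _) (by positivity)
        _ = _ := by ring
  exact ⟨N + 1, R ^ 2 * L * B, ⟨hF.hom, hF2, fun g => (key g).1, fun g => (key g).2.1,
    fun g => (key g).2.2⟩⟩

end Pool.Agent.Lib.MP_5d4057_al.HM
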