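import Pool.Agent.Lib.MP_5d4057_al.HM.BochCF

/-! The Bochner expressions as functions of the jets. -/

namespace Pool.Agent.Lib.MP_5d4057_al.HM

open Matrix MeasureTheory Filter Topology Pool.Agent.Lib.MP_5d4057_al Pool.Agent.Lib.MP_5d4057_al.Hyb

open scoped ComplexOrder MatrixOrder Matrix.Norms.L2Operator

set_option maxSynthPendingDepth 3

variable {n m : ℕ}

/-- `∂` of a linear map -/
noncomputable def jz (D : Vec n →L[ℝ] Mat m) (ξ : Vec n) : Mat m :=
  (1 / 2 : ℂ) • (D ξ - Complex.I • D (Complex.I • ξ))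

noncomputable def jzb (D : Vec n →L[ℝ] Mat m) (ξ : Vec n) : Mat m :=
  (1 / 2 : ℂ) • (D ξ + Complex.I • D (Complex.I • ξ))

noncomputable def jzz (D : Vec n →L[ℝ] Vec n →L[ℝ] Mat m) (ξ η : Vec n) : Mat m :=
  (1 / 2 : ℂ) • (jz (D η) ξ + Complex.I • jz (D (Complex.I • η)) ξ)

/-- jets -/
abbrev Jet (n m : ℕ) : Type :=
  Mat m × (Vec n →L[ℝ] Mat m) × (Vec n →L[ℝ] Vec n →L[ℝ] Mat m) × (Fin (n + 1) → Vec n)

noncomputable def jtau (p : Jet n m) (i j : Fin (n + 1)) : Mat m :=
  (1 / 2 : ℂ) • (p.1⁻¹ * (jzz p.2.2.1 (p.2.2.2 i) (p.2.2.2 j) -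
    (1 / 2 : ℂ) • (jzb p.2.1 (p.2.2.2 j) * p.1⁻¹ * jz p.2.1 (p.2.2.2 i) +
      jz p.2.1 (p.2.2.2 i) * p.1⁻¹ * jzb p.2.1 (p.2.2.2 j))))

noncomputable def jth (p : Jet n m) (i : Fin (n + 1)) : Mat m :=
  (1 / 2 : ℂ) • (p.1⁻¹ * jz p.2.1 (p.2.2.2 i))

noncomputable def jB (p : Jet n m) : ℝ :=
  ∑ i : Fin n, ∑ j : Fin n, (nF p.1 (jtau p i.castSucc j.castSucc) +
    nF p.1 (jth p i.castSucc * jth p j.castSucc - jth p j.castSucc * jth p i.castSucc))

/-- the trace of `τ` at a point with `q = -1` (with the constant frame) -/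
noncomputable def jT (p : Jet n m) : ℝ :=
  nF p.1 (∑ i : Fin (n + 1), J n i i • jtau p i i)

/-- the jet with the moving frame -/
noncomputable def jet (F : Vec n → Mat m) (g : SUGroup n) : Jet n m :=
  (F (act g (base n)), fderiv ℝ F (act g (base n)), fderiv ℝ (fderiv ℝ F) (act g (base n)),
    fun i => act g (Pi.single i 1))

/-- the jet with the constant frame -/
noncomputable def jet' (F : Vec n → Mat m) (g : SUGroup n) : Jet n m :=
  (F (act g (base n)), fderiv ℝ F (act g (base n)), fderiv ℝ (fderiv ℝ F) (act g (base n)),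
    fun i => Pi.single i 1)

theorem bc_fderiv_dz {F : Vec n → Mat m} (hF : ContDiffOn ℝ 2 F (Cone n)) {v : Vec n}
    (hv : v ∈ Cone n) (ξ η : Vec n) :
    fderiv ℝ (fun w => dz F w ξ) v η = jz (fderiv ℝ (fderiv ℝ F) v η) ξ := by
  have h := (bc_diff_fderiv hF hv).hasFDerivAt
  have h1 : ∀ ζ : Vec n, HasFDerivAt (fun w => fderiv ℝ F w ζ)
      ((fderiv ℝ (fderiv ℝ F) v).flip ζ) v := by
    intro ζ
    have h2 := h.clm_apply (hasFDerivAt_const ζ v)
    refine h2.congr_fderiv ?_
    ext x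
    simp
  have h3 := (((h1 ξ).sub ((h1 (Complex.I • ξ)).const_smul Complex.I)).const_smul
    (1 / 2 : ℂ))
  have h4 : HasFDerivAt (fun w => dz F w ξ) _ v := h3
  rw [h4.fderiv]
  rfl

theorem bc_dzbz_eq {F : Vec n → Mat m} (hF : ContDiffOn ℝ 2 F (Cone n)) {v : Vec n}
    (hv : v ∈ Cone n) (ξ η : Vec n) :
    dzb (fun w => dz F w ξ) v η = jzz (fderiv ℝ (fderiv ℝ F) v) ξ η := by
  rw [dzb, bc_fderiv_dz hF hv, bc_fderiv_dz hF hv]
  rfl

theorem jtau_jet {F : Vec n → Mat m} (hF : ContDiffOn ℝ 2 F (Cone n)) (g : SUGroup n)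
    (i j : Fin (n + 1)) : jtau (jet F g) i j =
      tau F (act g (base n)) (act g (Pi.single i 1)) (act g (Pi.single j 1)) := by
  rw [tau, bc_dzbz_eq hF (orbit_mem g)]
  rfl

theorem jtau_jet' {F : Vec n → Mat m} (hF : ContDiffOn ℝ 2 F (Cone n)) (g : SUGroup n)
    (i j : Fin (n + 1)) : jtau (jet' F g) i j =
      tau F (act g (base n)) (Pi.single i 1) (Pi.single j 1) := by
  rw [tau, bc_dzbz_eq hF (orbit_mem g)]
  rfl

theorem jB_jet {F : Vec n → Mat m} (hF : ContDiffOn ℝ 2 F (Cone n)) (g : SUGroup n) :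
    jB (jet F g) = bochL F g := by
  rw [jB, bochL]
  refine Finset.sum_congr rfl fun i _ => Finset.sum_congr rfl fun j _ => ?_
  rw [jtau_jet hF]
  rfl

theorem jT_jet' {F : Vec n → Mat m} (hF : ContDiffOn ℝ 2 F (Cone n)) (g : SUGroup n) :
    jT (jet' F g) = nF (F (act g (base n))) (tauT F (act g (base n))) := by
  rw [jT, tauT, q_orbit]
  simp only [jtau_jet' hF]
  have e : (-((-1 : ℝ) : ℂ)) = 1 := by push_cast; ring
  rw [e, one_smul]
  rfl

/-! ### continuity -/

/-- the open set of jets with invertible value -/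
def jS (n m : ℕ) : Set (Jet n m) := {p | IsUnit p.1}

theorem isOpen_jS : IsOpen (jS n m) :=
  (Units.isOpen (R := Mat m)).preimage continuous_fst

theorem jinv_cont : ContinuousOn (fun p : Jet n m => p.1⁻¹) (jS n m) := by
  intro p hp
  obtain ⟨u, hu⟩ := hp
  have h1 : ContinuousAt (Ring.inverse : Mat m → Mat m) p.1 := by
    rw [← hu]
    exact NormedRing.inverse_continuousAt u
  have e : (fun p : Jet n m => p.1⁻¹) = Ring.inverse ∘ Prod.fst := by
    funext w
    rw [Matrix.nonsing_inv_eq_ringInverse, Function.comp_apply]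
  rw [e]
  exact (h1.comp continuousAt_fst).continuousWithinAt

theorem j1_cont : Continuous fun p : Jet n m => p.2.1 := continuous_fst.comp continuous_snd

theorem j2_cont : Continuous fun p : Jet n m => p.2.2.1 :=
  continuous_fst.comp (continuous_snd.comp continuous_snd)

theorem j3_cont (i : Fin (n + 1)) : Continuous fun p : Jet n m => p.2.2.2 i :=
  (continuous_apply i).comp (continuous_snd.comp (continuous_snd.comp continuous_snd))

theorem jz_cont (i : Fin (n + 1)) : Continuous fun p : Jet n m => jz p.2.1 (p.2.2.2 i) := by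
  unfold jz
  have a1 : Continuous fun p : Jet n m => p.2.1 (p.2.2.2 i) := j1_cont.clm_apply (j3_cont i)
  have a2 : Continuous fun p : Jet n m => p.2.1 (Complex.I • p.2.2.2 i) :=
    j1_cont.clm_apply ((j3_cont i).const_smul Complex.I)
  exact (a1.sub (a2.const_smul Complex.I)).const_smul (1 / 2 : ℂ)

theorem jzb_cont (i : Fin (n + 1)) : Continuous fun p : Jet n m => jzb p.2.1 (p.2.2.2 i) := by
  unfold jzb
  have a1 : Continuous fun p : Jet n m => p.2.1 (p.2.2.2 i) := j1_cont.clm_apply (j3_cont i)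
  have a2 : Continuous fun p : Jet n m => p.2.1 (Complex.I • p.2.2.2 i) :=
    j1_cont.clm_apply ((j3_cont i).const_smul Complex.I)
  exact (a1.add (a2.const_smul Complex.I)).const_smul (1 / 2 : ℂ)

theorem jzz_cont (i j : Fin (n + 1)) :
    Continuous fun p : Jet n m => jzz p.2.2.1 (p.2.2.2 i) (p.2.2.2 j) := by
  unfold jzz jz
  have h1 : Continuous fun p : Jet n m => p.2.2.1 (p.2.2.2 j) := j2_cont.clm_apply (j3_cont j)
  have h2 : Continuous fun p : Jet n m => p.2.2.1 (Complex.I • p.2.2.2 j) :=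
    j2_cont.clm_apply ((j3_cont j).const_smul Complex.I)
  have h3 : Continuous fun p : Jet n m => Complex.I • p.2.2.2 i :=
    (j3_cont i).const_smul Complex.I
  have a1 := h1.clm_apply (j3_cont i)
  have a2 := h1.clm_apply h3
  have a3 := h2.clm_apply (j3_cont i)
  have a4 := h2.clm_apply h3
  exact (((a1.sub (a2.const_smul Complex.I)).const_smul (1 / 2 : ℂ)).add
    (((a3.sub (a4.const_smul Complex.I)).const_smul (1 / 2 : ℂ)).const_smul
      Complex.I)).const_smul (1 / 2 : ℂ)

theorem jtau_cont (i j : Fin (n + 1)) : ContinuousOn (fun p : Jet n m => jtau p i j) (jS n m) := by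
  unfold jtau
  have z := (jz_cont (n := n) (m := m) i).continuousOn (s := jS n m)
  have b := (jzb_cont (n := n) (m := m) j).continuousOn (s := jS n m)
  have c := (jzz_cont (n := n) (m := m) i j).continuousOn (s := jS n m)
  have v := jinv_cont (n := n) (m := m)
  exact (v.mul (c.sub ((((b.mul v).mul z).add ((z.mul v).mul b)).const_smul
    (1 / 2 : ℂ)))).const_smul (1 / 2 : ℂ)

theorem jth_cont (i : Fin (n + 1)) : ContinuousOn (fun p : Jet n m => jth p i) (jS n m) := by
  unfold jth
  exact ((jinv_cont (n := n) (m := m)).mul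
    (jz_cont (n := n) (m := m) i).continuousOn).const_smul (1 / 2 : ℂ)

theorem nF_cont {f : Jet n m → Mat m} (hf : ContinuousOn f (jS n m)) :
    ContinuousOn (fun p : Jet n m => nF p.1 (f p)) (jS n m) := by
  unfold nF
  have v := jinv_cont (n := n) (m := m)
  have hs : ContinuousOn (fun p => (f p)ᴴ) (jS n m) := by
    have := hf.star
    exact this
  have h1 := ((hf.mul v).mul hs).mul (continuous_fst (X := Mat m)).continuousOn
  have ht : Continuous (fun A : Mat m => A.trace.re) :=
    Complex.continuous_re.comp (continuous_id.matrix_trace)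
  exact ht.comp_continuousOn h1

theorem jB_cont : ContinuousOn (jB (n := n) (m := m)) (jS n m) := by
  unfold jB
  refine continuousOn_finset_sum _ fun i _ => continuousOn_finset_sum _ fun j _ => ?_
  refine ContinuousOn.add (nF_cont (jtau_cont _ _)) (nF_cont ?_)
  exact ((jth_cont _).mul (jth_cont _)).sub ((jth_cont _).mul (jth_cont _))

theorem jT_cont : ContinuousOn (jT (n := n) (m := m)) (jS n m) := by
  unfold jT
  exact nF_cont (continuousOn_finset_sum _ fun i _ =>
    (jtau_cont (n := n) (m := m) i i).const_smul (J n i i))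

theorem jet_cont {F : Vec n → Mat m} (hF : ContDiffOn ℝ 2 F (Cone n)) : Continuous (jet F) := by
  unfold jet
  refine (continuous_orb hF.continuousOn).prodMk ((continuous_orb
    (continuousOn_fderiv_cone hF)).prodMk ((continuous_orb
      (continuousOn_fderiv_two_cone hF)).prodMk ?_))
  exact continuous_pi fun i => continuous_actv _

theorem jet'_cont {F : Vec n → Mat m} (hF : ContDiffOn ℝ 2 F (Cone n)) : Continuous (jet' F) := by
  unfold jet'
  exact (continuous_orb hF.continuousOn).prodMk ((continuous_orb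
    (continuousOn_fderiv_cone hF)).prodMk ((continuous_orb
      (continuousOn_fderiv_two_cone hF)).prodMk continuous_const))

theorem bc_unit {F : Vec n → Mat m} (hp : ∀ v ∈ Cone n, (F v).PosDef) {v : Vec n}
    (hv : v ∈ Cone n) : IsUnit (F v) := (hp v hv).isUnit

theorem bochL_cont {F : Vec n → Mat m} (hF : ContDiffOn ℝ 2 F (Cone n))
    (hp : ∀ v ∈ Cone n, (F v).PosDef) : Continuous (bochL F) := by
  have h1 := jB_cont.comp_continuous (jet_cont hF) fun g => bc_unit hp (orbit_mem g)
  exact h1.congr fun g => jB_jet hF g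

theorem nFT_cont {F : Vec n → Mat m} (hF : ContDiffOn ℝ 2 F (Cone n))
    (hp : ∀ v ∈ Cone n, (F v).PosDef) :
    Continuous fun g : SUGroup n => nF (F (act g (base n))) (tauT F (act g (base n))) := by
  have h1 := jT_cont.comp_continuous (jet'_cont hF) fun g => bc_unit hp (orbit_mem g)
  exact h1.congr fun g => jT_jet' hF g

end Pool.Agent.Lib.MP_5d4057_al.HM
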