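import Pool.Agent.Lib.MP_5d4057_al.HM.Grp

/-! Boosts in `SU(n,1)`, the polar form, and `x⁻¹ ∈ K x K`. -/

set_option autoImplicit false

namespace Pool.Agent.Lib.MP_5d4057_al.HG

open Matrix Pool.Agent.Lib.MP_5d4057_al Pool.Agent.Lib.MP_5d4057_al.Hyb

variable {n : ℕ}

/-- unit vectors of `ℂ ^ n` -/
def Uv (n : ℕ) : Type := {ξ : Fin n → ℂ // ∑ i, ‖ξ i‖ ^ 2 = 1}

/-- the last basis vector -/
def el (n : ℕ) : Fin (n + 1) → ℂ := Pi.single (Fin.last n) 1

/-- the vector `(ξ, 0)` -/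
def ext0 (ξ : Fin n → ℂ) : Fin (n + 1) → ℂ := Fin.snoc (α := fun _ => ℂ) ξ 0

@[simp] theorem ext0_castSucc (ξ : Fin n → ℂ) (i : Fin n) : ext0 ξ i.castSucc = ξ i := by
  rw [ext0, Fin.snoc_castSucc]

@[simp] theorem ext0_last (ξ : Fin n → ℂ) : ext0 ξ (Fin.last n) = 0 := by
  rw [ext0, Fin.snoc_last]

@[simp] theorem el_castSucc (i : Fin n) : el n i.castSucc = 0 := by
  rw [el, Pi.single_eq_of_ne (Fin.castSucc_lt_last i).ne]

@[simp] theorem el_last : el n (Fin.last n) = 1 := by rw [el, Pi.single_eq_same]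

theorem star_el : star (el n) = el n := by
  ext i
  refine Fin.lastCases ?_ (fun i => ?_) i
  · simp
  · simp

theorem el_dot_el : el n ⬝ᵥ el n = 1 := by
  rw [dotProduct, Fin.sum_univ_castSucc]
  simp

theorem el_dot_ext0 (ξ : Fin n → ℂ) : el n ⬝ᵥ ext0 ξ = 0 := by
  rw [dotProduct, Fin.sum_univ_castSucc]
  simp

theorem star_ext0_dot_el (ξ : Fin n → ℂ) : star (ext0 ξ) ⬝ᵥ el n = 0 := by
  rw [dotProduct, Fin.sum_univ_castSucc]
  simp

theorem star_ext0_dot_ext0 (ξ : Uv n) : star (ext0 ξ.1) ⬝ᵥ ext0 ξ.1 = 1 := by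
  rw [dotProduct, Fin.sum_univ_castSucc]
  simp only [Pi.star_apply, ext0_castSucc, ext0_last, star_mul_self_eq]
  rw [← Complex.ofReal_sum, ξ.2]
  simp

/-- the element `ξ e^* + e ξ^*` of the Lie algebra -/
def Xm (ξ : Fin n → ℂ) : Matrix (Fin (n + 1)) (Fin (n + 1)) ℂ :=
  vecMulVec (ext0 ξ) (el n) + vecMulVec (el n) (star (ext0 ξ))

theorem Xm_conjTranspose (ξ : Fin n → ℂ) : (Xm ξ)ᴴ = Xm ξ := by
  rw [Xm, conjTranspose_add, conjTranspose_vecMulVec, conjTranspose_vecMulVec, star_star, star_el]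
  exact add_comm _ _

theorem Xm_sq (ξ : Uv n) : Xm ξ.1 * Xm ξ.1 =
    vecMulVec (ext0 ξ.1) (star (ext0 ξ.1)) + vecMulVec (el n) (el n) := by
  rw [Xm, Matrix.add_mul, Matrix.mul_add, Matrix.mul_add]
  simp only [vecMulVec_mul_vecMulVec, el_dot_el, el_dot_ext0, star_ext0_dot_el,
    star_ext0_dot_ext0, one_smul, zero_smul, vecMulVec_zero, zero_add, add_zero]

theorem Xm_cube (ξ : Uv n) : Xm ξ.1 * Xm ξ.1 * Xm ξ.1 = Xm ξ.1 := by
  rw [Xm_sq, Xm, Matrix.add_mul, Matrix.mul_add, Matrix.mul_add]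
  simp only [vecMulVec_mul_vecMulVec, el_dot_el, el_dot_ext0, star_ext0_dot_el,
    star_ext0_dot_ext0, one_smul, zero_smul, vecMulVec_zero, zero_add, add_zero]

theorem J_mul_Xm (ξ : Fin n → ℂ) : J n * Xm ξ = -(Xm ξ * J n) := by
  ext i j
  rw [J_mul_apply, Matrix.neg_apply, mul_J_apply, Xm, Matrix.add_apply, vecMulVec_apply,
    vecMulVec_apply]
  refine Fin.lastCases ?_ (fun i => ?_) i <;> refine Fin.lastCases ?_ (fun j => ?_) j <;>
    simp [J_last, J_castSucc]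

/-- the matrix of the boost -/
noncomputable def boM (ξ : Uv n) (t : ℝ) : Matrix (Fin (n + 1)) (Fin (n + 1)) ℂ :=
  1 + ((Real.sinh t : ℝ) : ℂ) • Xm ξ.1 + ((Real.cosh t - 1 : ℝ) : ℂ) • (Xm ξ.1 * Xm ξ.1)

theorem boM_zero (ξ : Uv n) : boM ξ 0 = 1 := by
  simp [boM]

theorem boM_conjTranspose (ξ : Uv n) (t : ℝ) : (boM ξ t)ᴴ = boM ξ t := by
  rw [boM, conjTranspose_add, conjTranspose_add, conjTranspose_smul, conjTranspose_smul,
    conjTranspose_one, conjTranspose_mul, Xm_conjTranspose]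
  simp only [RCLike.star_def, Complex.conj_ofReal]

theorem boM_mul (ξ : Uv n) (s t : ℝ) : boM ξ s * boM ξ t = boM ξ (s + t) := by
  set X := Xm ξ.1 with hX
  have h3 : X * X * X = X := Xm_cube ξ
  have h3' : X * (X * X) = X := by rw [← Matrix.mul_assoc, h3]
  have h4 : X * X * (X * X) = X * X := by rw [← Matrix.mul_assoc, h3]
  have e : ∀ a b c d : ℂ, (1 + a • X + b • (X * X)) * (1 + c • X + d • (X * X)) =
      1 + (a + c + a * d + b * c) • X + (b + d + a * c + b * d) • (X * X) := by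
    intro a b c d
    simp only [Matrix.add_mul, Matrix.mul_add, Matrix.one_mul, Matrix.mul_one, Matrix.smul_mul,
      Matrix.mul_smul, smul_smul, h3, h3', h4]
    module
  rw [boM, boM, boM, ← hX, e]
  congr 2
  · congr 1
    rw [Real.sinh_add]
    push_cast
    ring
  · congr 1
    rw [Real.cosh_add]
    push_cast
    ring

theorem J_mul_boM (ξ : Uv n) (t : ℝ) : J n * boM ξ t = boM ξ (-t) * J n := by
  have h1 := J_mul_Xm ξ.1
  have h2 : J n * (Xm ξ.1 * Xm ξ.1) = Xm ξ.1 * Xm ξ.1 * J n := by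
    rw [← Matrix.mul_assoc, h1, Matrix.neg_mul, Matrix.mul_assoc, h1, Matrix.mul_neg, neg_neg,
      Matrix.mul_assoc]
  rw [boM, boM, Matrix.mul_add, Matrix.mul_add, Matrix.add_mul, Matrix.add_mul, Matrix.mul_smul,
    Matrix.mul_smul, h1, h2, Real.sinh_neg, Real.cosh_neg, Matrix.mul_one, Matrix.one_mul,
    Matrix.smul_mul, Matrix.smul_mul]
  push_cast
  rw [smul_neg, neg_smul]

theorem boM_pres (ξ : Uv n) (t : ℝ) : (boM ξ t)ᴴ * J n * boM ξ t = J n := by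
  rw [boM_conjTranspose, Matrix.mul_assoc, J_mul_boM, ← Matrix.mul_assoc, boM_mul, add_neg_cancel,
    boM_zero, Matrix.one_mul]

theorem boM_det (ξ : Uv n) (t : ℝ) : (boM ξ t).det = 1 := by
  have h1 : (boM ξ (t / 2)).det = star (boM ξ (t / 2)).det := by
    rw [← det_conjTranspose, boM_conjTranspose]
  obtain ⟨r, hr⟩ := Complex.conj_eq_iff_real.1 h1.symm
  have h2 : (boM ξ t).det = ((r ^ 2 : ℝ) : ℂ) := by
    have : boM ξ t = boM ξ (t / 2) * boM ξ (t / 2) := by rw [boM_mul, add_halves]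
    rw [this, det_mul, hr]
    push_cast
    ring
  have h3 := congrArg det (boM_pres ξ t)
  rw [det_mul, det_mul, boM_conjTranspose, h2] at h3
  have h4 : ((r ^ 2 : ℝ) : ℂ) * ((r ^ 2 : ℝ) : ℂ) = 1 := by
    have h5 := det_J_ne n
    have h6 : (J n).det * (((r ^ 2 : ℝ) : ℂ) * ((r ^ 2 : ℝ) : ℂ)) = (J n).det * 1 := by
      linear_combination h3
    exact mul_left_cancel₀ h5 h6
  rw [h2]
  have h5 : r ^ 2 * r ^ 2 = 1 := by exact_mod_cast h4
  have h6 : r ^ 2 = 1 := by nlinarith [sq_nonneg r, sq_nonneg (r ^ 2 - 1)]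
  rw [h6, Complex.ofReal_one]

/-- the boost -/
noncomputable def bo (ξ : Uv n) (t : ℝ) : SUGroup n := ofMatrix (boM ξ t) (boM_det ξ t) (boM_pres ξ t)

@[simp] theorem bo_toMatrix (ξ : Uv n) (t : ℝ) : (bo ξ t).toMatrix = boM ξ t := rfl

theorem bo_add (ξ : Uv n) (s t : ℝ) : bo ξ (s + t) = bo ξ s * bo ξ t := by
  apply toMatrix_injective
  rw [toMatrix_mul, bo_toMatrix, bo_toMatrix, bo_toMatrix, boM_mul]

theorem bo_zero (ξ : Uv n) : bo ξ 0 = 1 := by
  apply toMatrix_injective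
  rw [bo_toMatrix, boM_zero, toMatrix_one]

theorem bo_neg (ξ : Uv n) (t : ℝ) : bo ξ (-t) = (bo ξ t)⁻¹ := by
  rw [eq_inv_iff_mul_eq_one, ← bo_add, neg_add_cancel, bo_zero]

theorem continuous_bo (ξ : Uv n) : Continuous (bo ξ) := by
  rw [(isClosedEmbedding_toMatrix n).isInducing.continuous_iff]
  show Continuous (fun t => boM ξ t)
  unfold boM
  fun_prop

theorem Xm_mulVec_el (ξ : Fin n → ℂ) : Xm ξ *ᵥ el n = ext0 ξ := by
  rw [Xm, add_mulVec, vecMulVec_mulVec, vecMulVec_mulVec, el_dot_el, star_ext0_dot_el]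
  simp

theorem Xm_mulVec_ext0 (ξ : Uv n) : Xm ξ.1 *ᵥ ext0 ξ.1 = el n := by
  rw [Xm, add_mulVec, vecMulVec_mulVec, vecMulVec_mulVec, el_dot_ext0, star_ext0_dot_ext0]
  simp

theorem boM_mulVec_el (ξ : Uv n) (t : ℝ) :
    boM ξ t *ᵥ el n = ((Real.cosh t : ℝ) : ℂ) • el n + ((Real.sinh t : ℝ) : ℂ) • ext0 ξ.1 := by
  rw [boM, add_mulVec, add_mulVec, one_mulVec, smul_mulVec, smul_mulVec, ← mulVec_mulVec,
    Xm_mulVec_el, Xm_mulVec_ext0]
  push_cast
  module

theorem boM_mulVec_ext0 (ξ : Uv n) (t : ℝ) :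
    boM ξ t *ᵥ ext0 ξ.1 = ((Real.sinh t : ℝ) : ℂ) • el n + ((Real.cosh t : ℝ) : ℂ) • ext0 ξ.1 := by
  rw [boM, add_mulVec, add_mulVec, one_mulVec, smul_mulVec, smul_mulVec, ← mulVec_mulVec,
    Xm_mulVec_ext0, Xm_mulVec_el]
  push_cast
  module

theorem mulVec_el_apply (A : Matrix (Fin (n + 1)) (Fin (n + 1)) ℂ) (j : Fin (n + 1)) :
    (A *ᵥ el n) j = A j (Fin.last n) := by
  rw [mulVec, dotProduct, Fin.sum_univ_castSucc]
  simp

theorem mulVec_ext0_apply (A : Matrix (Fin (n + 1)) (Fin (n + 1)) ℂ) (ξ : Fin n → ℂ)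
    (j : Fin (n + 1)) : (A *ᵥ ext0 ξ) j = ∑ i : Fin n, A j i.castSucc * ξ i := by
  rw [mulVec, dotProduct, Fin.sum_univ_castSucc]
  simp

/-- the last column of `x * bo ξ t` -/
theorem mul_bo_last (x : SUGroup n) (ξ : Uv n) (t : ℝ) (j : Fin (n + 1)) :
    (x * bo ξ t).toMatrix j (Fin.last n) = ((Real.cosh t : ℝ) : ℂ) * x.toMatrix j (Fin.last n) +
      ((Real.sinh t : ℝ) : ℂ) * ∑ i : Fin n, x.toMatrix j i.castSucc * ξ.1 i := by
  rw [← mulVec_el_apply (x * bo ξ t).toMatrix j, toMatrix_mul, bo_toMatrix, ← mulVec_mulVec,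
    boM_mulVec_el, mulVec_add,
    mulVec_smul, mulVec_smul, Pi.add_apply, Pi.smul_apply, Pi.smul_apply, mulVec_el_apply,
    mulVec_ext0_apply, smul_eq_mul, smul_eq_mul]

/-- the column of `x * bo ξ t` in the direction `ξ` -/
theorem mul_bo_dir (x : SUGroup n) (ξ : Uv n) (t : ℝ) (j : Fin (n + 1)) :
    ∑ i : Fin n, (x * bo ξ t).toMatrix j i.castSucc * ξ.1 i =
      ((Real.sinh t : ℝ) : ℂ) * x.toMatrix j (Fin.last n) +
      ((Real.cosh t : ℝ) : ℂ) * ∑ i : Fin n, x.toMatrix j i.castSucc * ξ.1 i := by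
  rw [← mulVec_ext0_apply, toMatrix_mul, bo_toMatrix, ← mulVec_mulVec, boM_mulVec_ext0, mulVec_add,
    mulVec_smul, mulVec_smul, Pi.add_apply, Pi.smul_apply, Pi.smul_apply, mulVec_el_apply,
    mulVec_ext0_apply, smul_eq_mul, smul_eq_mul]

/-- the last row of `bo ξ t * x` -/
theorem bo_mul_last (x : SUGroup n) (ξ : Uv n) (t : ℝ) (j : Fin (n + 1)) :
    (bo ξ t * x).toMatrix (Fin.last n) j = ((Real.cosh t : ℝ) : ℂ) * x.toMatrix (Fin.last n) j +
      ((Real.sinh t : ℝ) : ℂ) * ∑ i : Fin n, star (ξ.1 i) * x.toMatrix i.castSucc j := by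
  have h1 : ∀ i : Fin (n + 1), boM ξ t (Fin.last n) i = star ((boM ξ t *ᵥ el n) i) := by
    intro i
    rw [mulVec_el_apply]
    have h2 := congrFun (congrFun (boM_conjTranspose ξ t) (Fin.last n)) i
    rw [← h2, conjTranspose_apply]
  rw [toMatrix_mul, bo_toMatrix, Matrix.mul_apply, Fin.sum_univ_castSucc]
  simp only [h1, boM_mulVec_el, Pi.add_apply, Pi.smul_apply, el_castSucc, el_last, ext0_castSucc,
    ext0_last, smul_eq_mul, mul_zero, mul_one, zero_add, add_zero, star_mul', RCLike.star_def,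
    Complex.conj_ofReal]
  rw [Finset.mul_sum, add_comm]
  congr 1
  apply Finset.sum_congr rfl
  intro i _
  ring

theorem top_bo (ξ : Uv n) (t : ℝ) : top (bo ξ t) = Real.cosh t := by
  have h : (bo ξ t).toMatrix (Fin.last n) (Fin.last n) = ((Real.cosh t : ℝ) : ℂ) := by
    rw [← mulVec_el_apply (bo ξ t).toMatrix (Fin.last n), bo_toMatrix, boM_mulVec_el]
    simp
  rw [top, h, Complex.norm_real, Real.norm_eq_abs, abs_of_pos (Real.cosh_pos t)]

/-- polar form: `x = bo ξ t * k` with `k ∈ K` -/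
theorem polar (hn : 1 ≤ n) (x : SUGroup n) :
    ∃ (ξ : Uv n) (t : ℝ), 0 ≤ t ∧ Real.cosh t = top x ∧ top ((bo ξ t)⁻¹ * x) = 1 := by
  have h1 := one_le_top x
  set T := top x with hT
  set ρ := Real.sqrt (T ^ 2 - 1) with hρ
  have hρ2 : ρ ^ 2 = T ^ 2 - 1 := Real.sq_sqrt (by nlinarith)
  have hρ0 : 0 ≤ ρ := Real.sqrt_nonneg _
  have hcol : ∑ i : Fin n, ‖x.toMatrix i.castSucc (Fin.last n)‖ ^ 2 = ρ ^ 2 := by
    rw [hρ2, hT, top_sq_col]; ring
  rcases hρ0.eq_or_lt with h0 | h0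
  · have hT1 : T = 1 := by nlinarith
    refine ⟨⟨Pi.single ⟨0, hn⟩ 1, ?_⟩, 0, le_rfl, by rw [Real.cosh_zero, hT1], ?_⟩
    · rw [Finset.sum_eq_single ⟨0, hn⟩]
      · simp
      · intro i _ hi
        rw [Pi.single_eq_of_ne hi]
        simp
      · intro h
        exact absurd (Finset.mem_univ _) h
    · rw [bo_zero, inv_one, one_mul, ← hT, hT1]
  · set v : ℂ := x.toMatrix (Fin.last n) (Fin.last n) with hv
    have hvn : ‖v‖ = T := rfl
    have hT0 : 0 < T := by linarith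
    have hv0 : v ≠ 0 := by
      intro h
      rw [h, norm_zero] at hvn
      linarith
    have hξ : ∑ i : Fin n, ‖x.toMatrix i.castSucc (Fin.last n) * ((T : ℂ) / (v * ρ))‖ ^ 2 = 1 := by
      have e1 : ‖((T : ℂ) / (v * ρ))‖ = 1 / ρ := by
        rw [norm_div, norm_mul, hvn, Complex.norm_real, Complex.norm_real, Real.norm_eq_abs,
          Real.norm_eq_abs, abs_of_pos hT0, abs_of_pos h0]
        field_simp
      simp only [norm_mul, e1, mul_pow]
      rw [← Finset.sum_mul, hcol]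
      field_simp
    obtain ⟨t, ht⟩ := Real.sinh_surjective ρ
    have ht0 : 0 ≤ t := by
      rw [← Real.sinh_nonneg_iff, ht]
      exact hρ0
    have hct : Real.cosh t = T := by
      have h2 := Real.cosh_sq t
      rw [ht, hρ2] at h2
      have h3 := Real.cosh_pos t
      nlinarith
    refine ⟨⟨_, hξ⟩, t, ht0, hct, ?_⟩
    have e2 : ((bo ⟨_, hξ⟩ t)⁻¹ * x).toMatrix (Fin.last n) (Fin.last n) = v / T := by
      rw [← bo_neg, bo_mul_last, Real.cosh_neg, Real.sinh_neg, hct, ht, ← hv]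
      simp only [star_mul', star_div₀, RCLike.star_def, Complex.conj_ofReal]
      have e3 : ∀ i : Fin n, (starRingEnd ℂ) (x.toMatrix i.castSucc (Fin.last n)) *
          ((T : ℂ) / ((starRingEnd ℂ) v * ρ)) * x.toMatrix i.castSucc (Fin.last n) =
          ((T : ℂ) / ((starRingEnd ℂ) v * ρ)) *
            ((‖x.toMatrix i.castSucc (Fin.last n)‖ ^ 2 : ℝ) : ℂ) := by
        intro i
        rw [← star_mul_self_eq, RCLike.star_def]
        ring
      simp only [e3]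
      rw [← Finset.mul_sum, ← Complex.ofReal_sum, hcol]
      have e4 : (starRingEnd ℂ) v * v = ((T ^ 2 : ℝ) : ℂ) := by
        have := star_mul_self_eq v
        rw [hvn] at this
        exact this
      have e5 : (starRingEnd ℂ) v ≠ 0 := by
        intro h
        rw [h, zero_mul] at e4
        have : T ^ 2 = 0 := by exact_mod_cast e4.symm
        nlinarith
      have hρc : (ρ : ℂ) ≠ 0 := by exact_mod_cast h0.ne'
      have hTc : (T : ℂ) ≠ 0 := by exact_mod_cast hT0.ne'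
      have e6 : ((ρ ^ 2 : ℝ) : ℂ) = (T : ℂ) ^ 2 - 1 := by rw [hρ2]; push_cast; ring
      have e7 : (ρ : ℂ) ^ 2 = (T : ℂ) ^ 2 - 1 := by rw [← e6]; push_cast; ring
      have e8 : (starRingEnd ℂ) v * v = (T : ℂ) ^ 2 := by rw [e4]; push_cast; ring
      rw [e6]
      push_cast
      field_simp
      linear_combination ((T : ℂ) ^ 2 - 1) * e8
    rw [top, e2, norm_div, hvn, Complex.norm_real, Real.norm_eq_abs, abs_of_pos hT0,
      div_self hT0.ne']

/-- the symmetry at the base point -/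
theorem exists_sym (n : ℕ) : ∃ κ : SUGroup n, top κ = 1 ∧
    ∀ (ξ : Uv n) (t : ℝ), κ * bo ξ t * κ⁻¹ = bo ξ (-t) := by
  set ω : ℂ := Complex.exp (((Real.pi / (n + 1) : ℝ) : ℂ) * Complex.I) with hω
  have h1 : ω ^ (n + 1) = -1 := by
    rw [hω, ← Complex.exp_nat_mul, ← Complex.exp_pi_mul_I]
    congr 1
    push_cast
    have : ((n : ℂ) + 1) ≠ 0 := by exact_mod_cast Nat.succ_ne_zero n
    field_simp
  have h2 : ‖ω‖ = 1 := by rw [hω, Complex.norm_exp_ofReal_mul_I]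
  have h3 : star ω * ω = 1 := by rw [star_mul_self_eq, h2]; simp
  have hdJ : (J n).det = -1 := by
    rw [J, det_diagonal, Fin.prod_univ_castSucc, if_pos rfl]
    rw [Finset.prod_eq_one (fun i _ => by rw [if_neg (Fin.castSucc_lt_last i).ne]), one_mul]
  have hdet : (ω • J n).det = 1 := by
    rw [det_smul, Fintype.card_fin, h1, hdJ]
    norm_num
  have hpres : (ω • J n)ᴴ * J n * (ω • J n) = J n := by
    rw [conjTranspose_smul, J_conjTranspose, Matrix.smul_mul, Matrix.smul_mul, Matrix.mul_smul,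
      smul_smul, h3, J_mul_J, Matrix.one_mul, one_smul]
  refine ⟨ofMatrix _ hdet hpres, ?_, ?_⟩
  · rw [top, toMatrix_ofMatrix, Matrix.smul_apply, J_last, smul_eq_mul, norm_mul, h2, norm_neg,
      norm_one, one_mul]
  · intro ξ t
    rw [mul_inv_eq_iff_eq_mul]
    apply toMatrix_injective
    rw [toMatrix_mul, toMatrix_mul, toMatrix_ofMatrix, bo_toMatrix, bo_toMatrix, Matrix.smul_mul,
      Matrix.mul_smul, J_mul_boM]

/-- `x⁻¹ ∈ K x K` -/
theorem swap (x : SUGroup n) : ∃ k₁ k₂ : SUGroup n, top k₁ = 1 ∧ top k₂ = 1 ∧ x⁻¹ = k₁ * x * k₂ := by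
  rcases Nat.eq_zero_or_pos n with h0 | h0
  · subst h0
    refine ⟨1, x⁻¹ * x⁻¹, top_one, ?_, by group⟩
    have : ∀ y : SUGroup 0, top y = 1 := by
      intro y
      have h := top_sq_col y
      simp only [Finset.univ_eq_empty, Finset.sum_empty, add_zero] at h
      have := one_le_top y
      nlinarith
    exact this _
  · obtain ⟨ξ, t, -, -, hk⟩ := polar h0 x
    obtain ⟨κ, hκ, hκ2⟩ := exists_sym n
    set k := (bo ξ t)⁻¹ * x with hkdef
    have hx : x = bo ξ t * k := by rw [hkdef]; group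
    refine ⟨k⁻¹ * κ, k⁻¹ * κ⁻¹, ?_, ?_, ?_⟩
    · rw [top_mul_left_eq _ _ (by rw [top_inv, hk]), hκ]
    · rw [top_mul_left_eq _ _ (by rw [top_inv, hk]), top_inv, hκ]
    · have h1 := hκ2 ξ t
      rw [bo_neg] at h1
      calc x⁻¹ = k⁻¹ * (bo ξ t)⁻¹ := by rw [hx]; group
        _ = k⁻¹ * (κ * bo ξ t * κ⁻¹) := by rw [h1]
        _ = k⁻¹ * κ * x * (k⁻¹ * κ⁻¹) := by rw [hx]; group

end Pool.Agent.Lib.MP_5d4057_al.HG
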