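import Mathlib

/-! The discrete telescoping identity behind section D5. -/

set_option autoImplicit false

namespace Pool.Agent.Lib.MP_5d4057_al.HM.Boot

open Finset Filter Topology

theorem tele_sum (lam : ℕ → ℝ) (Φ : ℕ → ℕ → ℝ) (s t : ℕ) (hs : ∀ b, s ≤ b → 0 < lam b)
    (ht : ∀ a, t ≤ a → 0 < lam a)
    (h : ∀ a, t ≤ a → ∀ b, s ≤ b → lam a * (Φ a b - Φ (a + 1) b) = lam b * (Φ a b - Φ a (b + 1)))
    (I N : ℕ) :
    ∑ j ∈ range N, (lam (s + j))⁻¹ * (Φ t (s + j) - Φ (t + I) (s + j)) =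
      ∑ i ∈ range I, (lam (t + i))⁻¹ * (Φ (t + i) s - Φ (t + i) (s + N)) := by
  have h1 : ∀ j, Φ t (s + j) - Φ (t + I) (s + j) =
      ∑ i ∈ range I, (Φ (t + i) (s + j) - Φ (t + (i + 1)) (s + j)) := by
    intro j
    rw [sum_range_sub' (fun i => Φ (t + i) (s + j)) I]
    rfl
  have h2 : ∀ i, Φ (t + i) s - Φ (t + i) (s + N) =
      ∑ j ∈ range N, (Φ (t + i) (s + j) - Φ (t + i) (s + (j + 1))) := by
    intro i
    rw [sum_range_sub' (fun j => Φ (t + i) (s + j)) N]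
    rfl
  simp only [h1, h2, mul_sum]
  rw [sum_comm]
  refine sum_congr rfl fun i _ => sum_congr rfl fun j _ => ?_
  have h3 := h (t + i) (by omega) (s + j) (by omega)
  have h4 := hs (s + j) (by omega)
  have h5 := ht (t + i) (by omega)
  rw [show t + (i + 1) = t + i + 1 by omega, show s + (j + 1) = s + j + 1 by omega]
  rw [inv_mul_eq_div, inv_mul_eq_div, div_eq_div_iff h4.ne' h5.ne']
  linarith

theorem tele_lim (lam : ℕ → ℝ) (Φ : ℕ → ℕ → ℝ) (Ψ Θ : ℕ → ℝ) (s t : ℕ) (B : ℝ)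
    (hs : ∀ b, s ≤ b → 0 < lam b) (ht : ∀ a, t ≤ a → 0 < lam a)
    (h : ∀ a, t ≤ a → ∀ b, s ≤ b → lam a * (Φ a b - Φ (a + 1) b) = lam b * (Φ a b - Φ a (b + 1)))
    (hS : Summable fun j => (lam (s + j))⁻¹) (hT : Summable fun i => (lam (t + i))⁻¹)
    (hB : ∀ a, t ≤ a → ∀ b, s ≤ b → |Φ a b| ≤ B)
    (hΨ : ∀ b, s ≤ b → Tendsto (fun I => Φ (t + I) b) atTop (𝓝 (Ψ b)))
    (hΘ : ∀ a, t ≤ a → Tendsto (fun N => Φ a (s + N)) atTop (𝓝 (Θ a)))
    (hle : ∀ a, t ≤ a → Θ a ≤ Φ a s) :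
    ∑' j, (lam (s + j))⁻¹ * Ψ (s + j) ≤ ∑' j, (lam (s + j))⁻¹ * Φ t (s + j) := by
  have hΨB : ∀ b, s ≤ b → |Ψ b| ≤ B := fun b hb =>
    le_of_tendsto ((hΨ b hb).abs) (Eventually.of_forall fun I => hB (t + I) (by omega) b hb)
  have hinvS : ∀ j, 0 ≤ (lam (s + j))⁻¹ := fun j => (inv_pos.2 (hs (s + j) (by omega))).le
  have hinvT : ∀ j, 0 ≤ (lam (t + j))⁻¹ := fun j => (inv_pos.2 (ht (t + j) (by omega))).le
  have hsum1 : Summable fun j => (lam (s + j))⁻¹ * Ψ (s + j) := by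
    refine Summable.of_norm_bounded (hS.mul_right B) fun j => ?_
    rw [Real.norm_eq_abs, abs_mul, abs_of_nonneg (hinvS j)]
    exact mul_le_mul_of_nonneg_left (hΨB (s + j) (by omega)) (hinvS j)
  have hsum2 : Summable fun j => (lam (s + j))⁻¹ * Φ t (s + j) := by
    refine Summable.of_norm_bounded (hS.mul_right B) fun j => ?_
    rw [Real.norm_eq_abs, abs_mul, abs_of_nonneg (hinvS j)]
    exact mul_le_mul_of_nonneg_left (hB t le_rfl (s + j) (by omega)) (hinvS j)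
  have hsumT : ∀ N, Summable fun i => (lam (t + i))⁻¹ * (Φ (t + i) s - Φ (t + i) (s + N)) := by
    intro N
    refine Summable.of_norm_bounded (hT.mul_right (2 * B)) fun i => ?_
    rw [Real.norm_eq_abs, abs_mul, abs_of_nonneg (hinvT i)]
    refine mul_le_mul_of_nonneg_left ?_ (hinvT i)
    have h1 := hB (t + i) (by omega) s le_rfl
    have h2 := hB (t + i) (by omega) (s + N) (by omega)
    have h3 := abs_sub (Φ (t + i) s) (Φ (t + i) (s + N))
    linarith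
  have hN : ∀ N, ∑ j ∈ range N, (lam (s + j))⁻¹ * (Φ t (s + j) - Ψ (s + j)) =
      ∑' i, (lam (t + i))⁻¹ * (Φ (t + i) s - Φ (t + i) (s + N)) := by
    intro N
    have l1 : Tendsto (fun I => ∑ j ∈ range N, (lam (s + j))⁻¹ *
        (Φ t (s + j) - Φ (t + I) (s + j))) atTop
        (𝓝 (∑ j ∈ range N, (lam (s + j))⁻¹ * (Φ t (s + j) - Ψ (s + j)))) :=
      tendsto_finsetSum _ fun j _ => ((tendsto_const_nhds.sub (hΨ (s + j) (by omega))).const_mul _)
    have l2 := (hsumT N).hasSum.tendsto_sum_nat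
    simp only [tele_sum lam Φ s t hs ht h] at l1
    exact tendsto_nhds_unique l1 l2
  have hlim : Tendsto (fun N => ∑' i, (lam (t + i))⁻¹ * (Φ (t + i) s - Φ (t + i) (s + N))) atTop
      (𝓝 (∑' i, (lam (t + i))⁻¹ * (Φ (t + i) s - Θ (t + i)))) := by
    refine tendsto_tsum_of_dominated_convergence (bound := fun i => (lam (t + i))⁻¹ * (2 * B))
      (hT.mul_right (2 * B)) ?_ ?_
    · intro i
      exact (tendsto_const_nhds.sub (hΘ (t + i) (by omega))).const_mul _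
    · refine Eventually.of_forall fun N i => ?_
      rw [Real.norm_eq_abs, abs_mul, abs_of_nonneg (hinvT i)]
      refine mul_le_mul_of_nonneg_left ?_ (hinvT i)
      have h1 := hB (t + i) (by omega) s le_rfl
      have h2 := hB (t + i) (by omega) (s + N) (by omega)
      have h3 := abs_sub (Φ (t + i) s) (Φ (t + i) (s + N))
      linarith
  have hlim2 : Tendsto (fun N => ∑ j ∈ range N, (lam (s + j))⁻¹ * (Φ t (s + j) - Ψ (s + j))) atTop
      (𝓝 (∑' j, (lam (s + j))⁻¹ * (Φ t (s + j) - Ψ (s + j)))) := by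
    refine Summable.tendsto_sum_tsum_nat ?_
    simp only [mul_sub]
    exact hsum2.sub hsum1
  have heq : ∑' j, (lam (s + j))⁻¹ * (Φ t (s + j) - Ψ (s + j)) =
      ∑' i, (lam (t + i))⁻¹ * (Φ (t + i) s - Θ (t + i)) := by
    refine tendsto_nhds_unique hlim2 ?_
    simp only [hN]
    exact hlim
  have hpos : 0 ≤ ∑' j, (lam (s + j))⁻¹ * (Φ t (s + j) - Ψ (s + j)) := by
    rw [heq]
    exact tsum_nonneg fun i => mul_nonneg (hinvT i) (by linarith [hle (t + i) (by omega)])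
  simp only [mul_sub] at hpos
  rw [hsum2.tsum_sub hsum1] at hpos
  linarith

end Pool.Agent.Lib.MP_5d4057_al.HM.Boot
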