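import Pool.Agent.Lib.MP_5d4057_al.HM.KerCmp
import Pool.Agent.Lib.MP_5d4057_al.HM.Tele

/-! The bootstrap of blueprint D5, D6. -/

set_option autoImplicit false

namespace Pool.Agent.Lib.MP_5d4057_al.HM.Boot

open Matrix MeasureTheory Filter Topology Finset Pool.Agent.Lib.MP_5d4057_al
  Pool.Agent.Lib.MP_5d4057_al.Hyb

variable {n : ℕ}

/-- the function of two variables `(y, x) ↦ kap r (x y⁻¹) kap t y u(g x)` -/
noncomputable def FF (r t : ℕ) (u : SUGroup n → ℝ) (g : SUGroup n) (z : SUGroup n × SUGroup n) : ℝ :=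
  kap r (z.2 * z.1⁻¹) * kap t z.1 * u (g * z.2)

theorem continuous_FF (r t : ℕ) {u : SUGroup n → ℝ} (hu : Continuous u) (g : SUGroup n) :
    Continuous (FF r t u g) := by
  unfold FF
  have h1 := continuous_kap (n := n) r
  have h2 := continuous_kap (n := n) t
  fun_prop

theorem integrable_FF_comp {s₀ : ℕ} (h : CsOK n s₀) {N : ℕ} {C : ℝ} {u : SUGroup n → ℝ}
    (hu : Gr N C u) (hC : 0 ≤ C) {r t : ℕ} (hr : s₀ + N ≤ r + 1) (ht : s₀ + N ≤ t + 1)
    (g : SUGroup n) :
    Integrable (fun z : SUGroup n × SUGroup n => FF r t u g (z.1, z.2 * z.1))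
      ((mu n).prod (mu n)) := by
  have h1 := (integrable_kap_ch h ht).mul_prod (integrable_kap_ch h hr)
  refine Integrable.mono' (h1.const_mul (C * 4 ^ N * ch g ^ (2 * N) * 4 ^ N)) ?_ ?_
  · have h2 : Continuous fun z : SUGroup n × SUGroup n => ((z.1, z.2 * z.1) : SUGroup n × SUGroup n) := by
      fun_prop
    exact ((continuous_FF r t hu.cont g).comp h2).aestronglyMeasurable
  · refine Eventually.of_forall fun z => ?_
    have h2 := kap_nonneg' h (s := r) (by omega) z.2
    have h3 := kap_nonneg' h (s := t) (by omega) z.1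
    have h4 := hu.nonneg (g * (z.2 * z.1))
    unfold FF
    simp only [mul_inv_cancel_right]
    rw [Real.norm_eq_abs, abs_of_nonneg (by positivity)]
    have h5 := hu.le' hC g (z.2 * z.1)
    have h6 : ch (z.2 * z.1) ^ (2 * N) ≤ 4 ^ N * ch z.2 ^ (2 * N) * ch z.1 ^ (2 * N) := by
      refine (pow_le_pow_left₀ (ch_pos _).le (ch_mul_le' z.2 z.1) _).trans (le_of_eq ?_)
      rw [mul_pow, mul_pow, pow_mul (2 : ℝ) 2 N]
      norm_num
    have hg : 0 ≤ ch g ^ (2 * N) := pow_nonneg (ch_pos g).le _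
    calc kap r z.2 * kap t z.1 * u (g * (z.2 * z.1))
        ≤ kap r z.2 * kap t z.1 * (C * 4 ^ N * ch g ^ (2 * N) *
          (4 ^ N * ch z.2 ^ (2 * N) * ch z.1 ^ (2 * N))) := by
          refine mul_le_mul_of_nonneg_left (h5.trans ?_) (by positivity)
          exact mul_le_mul_of_nonneg_left h6 (by positivity)
      _ = _ := by ring

theorem integrable_FF {s₀ : ℕ} (h : CsOK n s₀) {N : ℕ} {C : ℝ} {u : SUGroup n → ℝ}
    (hu : Gr N C u) (hC : 0 ≤ C) {r t : ℕ} (hr : s₀ + N ≤ r + 1) (ht : s₀ + N ≤ t + 1)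
    (g : SUGroup n) : Integrable (FF r t u g) ((mu n).prod (mu n)) := by
  have h1 := measurePreserving_prod_mul_right (mu n) (mu n)
  have h2 := (h1.integrable_comp (g := FF r t u g)
    (continuous_FF r t hu.cont g).aestronglyMeasurable).1
  exact h2 (integrable_FF_comp h hu hC hr ht g)

/-- iterated averages as integrals over the product -/
theorem QQ_eq {s₀ : ℕ} (h : CsOK n s₀) {N : ℕ} {C : ℝ} {u : SUGroup n → ℝ}
    (hu : Gr N C u) (hC : 0 ≤ C) {r t : ℕ} (hr : s₀ + N ≤ r + 1) (ht : s₀ + N ≤ t + 1)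
    (g : SUGroup n) :
    Q r (Q t u) g = ∫ x : SUGroup n, ∫ y : SUGroup n, kap r (x * y⁻¹) * kap t y * u (g * x)
      ∂(mu n) ∂(mu n) := by
  have h1 := measurePreserving_prod_mul_right (mu n) (mu n)
  have h2 := integral_prod_symm _ (integrable_FF h hu hC hr ht g)
  have h3 := integral_prod_symm _ (integrable_FF_comp h hu hC hr ht g)
  have h4 : ∫ z, FF r t u g z ∂((mu n).prod (mu n)) =
      ∫ z : SUGroup n × SUGroup n, FF r t u g (z.1, z.2 * z.1) ∂((mu n).prod (mu n)) := by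
    have h5 := integral_map (μ := (mu n).prod (mu n)) h1.measurable.aemeasurable
      (f := FF r t u g) (continuous_FF r t hu.cont g).aestronglyMeasurable
    rw [h1.map_eq] at h5
    exact h5
  rw [h2, h3] at h4
  unfold FF at h4
  simp only [mul_inv_cancel_right] at h4
  rw [h4]
  unfold Q
  refine integral_congr_ae (Eventually.of_forall fun x => ?_)
  show kap r x * ∫ y : SUGroup n, kap t y * u (g * x * y) ∂(mu n) = _
  rw [← integral_const_mul]
  refine integral_congr_ae (Eventually.of_forall fun y => ?_)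
  show kap r x * (kap t y * u (g * x * y)) = kap r x * kap t y * u (g * (x * y))
  rw [mul_assoc g x y]
  ring

/-- the second comparison for averages -/
theorem Gr.Q_le_QQ {s₀ : ℕ} (h : CsOK n s₀) {N : ℕ} {C : ℝ} {u : SUGroup n → ℝ} (hu : Gr N C u)
    (hC : 0 ≤ C) {s : ℕ} (hs : 2 * s₀ + 2 * N ≤ s) (g : SUGroup n) :
    Q s u g ≤ 2 * Real.exp (4 * n + 1) * Q (s / 2) (Q (2 * s) u) g := by
  have hgt := h.gt
  rw [QQ_eq h hu hC (by omega) (by omega)]
  have hF := integrable_FF h hu hC (r := s / 2) (t := 2 * s) (by omega) (by omega) g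
  have hF2 := hF.integral_prod_right
  rw [← integral_const_mul]
  unfold Q
  refine integral_mono_ae (hu.integrable h hC (by omega) g) (hF2.const_mul _) ?_
  have hF3 := hF.prod_left_ae
  filter_upwards [hF3] with x hx
  obtain ⟨S, hS⟩ : ∃ S : Set (SUGroup n), S = {y | ch y ^ 2 ≤ 1 + (4 * n + 1) / (2 * s : ℕ)} :=
    ⟨_, rfl⟩
  have hSm : MeasurableSet S := by
    rw [hS]
    exact measurableSet_le (continuous_ch.pow 2).measurable measurable_const
  have hmass := mass_half h (s := 2 * s) (by omega)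
  rw [← hS] at hmass
  have hk := integrable_kap' h (s := 2 * s) (by omega)
  have hu0 := hu.nonneg (g * x)
  have hk0 := kap_nonneg' h (s := s) (by omega) x
  have step1 : kap s x * u (g * x) ≤ 2 * ∫ y in S, kap s x * kap (2 * s) y * u (g * x) ∂(mu n) := by
    have h1 : ∫ y in S, kap s x * kap (2 * s) y * u (g * x) ∂(mu n) =
        kap s x * u (g * x) * ∫ y in S, kap (2 * s) y ∂(mu n) := by
      rw [← integral_const_mul]
      refine integral_congr_ae (Eventually.of_forall fun y => ?_)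
      show kap s x * kap (2 * s) y * u (g * x) = kap s x * u (g * x) * kap (2 * s) y
      ring
    rw [h1]
    have h2 : 0 ≤ kap s x * u (g * x) := by positivity
    nlinarith
  have step2 : ∫ y in S, kap s x * kap (2 * s) y * u (g * x) ∂(mu n) ≤
      ∫ y in S, Real.exp (4 * n + 1) * (kap (s / 2) (x * y⁻¹) * kap (2 * s) y * u (g * x)) ∂(mu n) := by
    refine setIntegral_mono_on ?_ ?_ hSm ?_
    · refine Integrable.integrableOn ?_
      exact (hk.const_mul (kap s x)).mul_const _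
    · exact (hx.const_mul _).integrableOn
    · intro y hy
      rw [hS] at hy
      have h3 := kap_le_kap h (s := s) (by omega) x y hy
      have h4 := kap_nonneg' h (s := 2 * s) (by omega) y
      calc kap s x * kap (2 * s) y * u (g * x)
          ≤ (Real.exp (4 * n + 1) * kap (s / 2) (x * y⁻¹)) * kap (2 * s) y * u (g * x) := by
            refine mul_le_mul_of_nonneg_right ?_ hu0
            exact mul_le_mul_of_nonneg_right h3 h4
        _ = _ := by ring
  have step3 : ∫ y in S, Real.exp (4 * n + 1) *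
      (kap (s / 2) (x * y⁻¹) * kap (2 * s) y * u (g * x)) ∂(mu n) ≤
      Real.exp (4 * n + 1) * ∫ y, kap (s / 2) (x * y⁻¹) * kap (2 * s) y * u (g * x) ∂(mu n) := by
    rw [integral_const_mul]
    refine mul_le_mul_of_nonneg_left ?_ (Real.exp_pos _).le
    refine setIntegral_le_integral hx (Eventually.of_forall fun y => ?_)
    have h4 := kap_nonneg' h (s := 2 * s) (by omega) y
    have h5 := kap_nonneg' h (s := s / 2) (by omega) (x * y⁻¹)
    show 0 ≤ kap (s / 2) (x * y⁻¹) * kap (2 * s) y * u (g * x)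
    positivity
  calc kap s x * u (g * x) ≤ 2 * ∫ y in S, kap s x * kap (2 * s) y * u (g * x) ∂(mu n) := step1
    _ ≤ 2 * (Real.exp (4 * n + 1) *
        ∫ y, kap (s / 2) (x * y⁻¹) * kap (2 * s) y * u (g * x) ∂(mu n)) :=
        mul_le_mul_of_nonneg_left (step2.trans step3) (by norm_num)
    _ = _ := by ring

theorem ch_mul_K {k : SUGroup n} (hk : ch k = 1) (x : SUGroup n) : ch (k⁻¹ * x) = ch x :=
  (ch_mul_of_ch_eq_one (by rw [ch_inv, hk]) x).1

/-- averages are right invariant under the stabiliser -/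
theorem Q_mul_K (s : ℕ) (u : SUGroup n → ℝ) (g : SUGroup n) {k : SUGroup n} (hk : ch k = 1) :
    Q s u (g * k) = Q s u g := by
  unfold Q
  have h1 := integral_mul_left_eq_self (μ := mu n) (fun x => kap s (k⁻¹ * x) * u (g * x)) k
  simp only [inv_mul_cancel_left] at h1
  simp only [mul_assoc]
  rw [h1]
  refine integral_congr_ae (Eventually.of_forall fun x => ?_)
  show kap s (k⁻¹ * x) * u (g * x) = kap s x * u (g * x)
  unfold kap
  rw [ch_mul_K hk]

/-- averages are continuous -/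
theorem Gr.Q_cont {s₀ : ℕ} (h : CsOK n s₀) {N : ℕ} {C : ℝ} {u : SUGroup n → ℝ} (hu : Gr N C u)
    (hC : 0 ≤ C) {s : ℕ} (hs : s₀ + N ≤ s + 1) : Continuous (Q s u) := by
  rw [continuous_iff_continuousAt]
  intro g
  unfold Q
  refine continuousAt_of_dominated (bound := fun x => C * 4 ^ N * (ch g + 1) ^ (2 * N) *
    (kap s x * ch x ^ (2 * N))) ?_ ?_ ((integrable_kap_ch h hs).const_mul _) ?_
  · refine Eventually.of_forall fun g' => ?_
    exact ((continuous_kap s).mul (hu.cont.comp (continuous_const_mul g'))).aestronglyMeasurable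
  · have h1 : ∀ᶠ g' in 𝓝 g, ch g' < ch g + 1 :=
      (continuous_ch.continuousAt).eventually (gt_mem_nhds (lt_add_one _))
    filter_upwards [h1] with g' hg'
    refine Eventually.of_forall fun x => ?_
    have h1 := kap_nonneg' h (s := s) (by omega) x
    have h2 := hu.nonneg (g' * x)
    rw [Real.norm_eq_abs, abs_of_nonneg (mul_nonneg h1 h2)]
    have h3 : ch g' ^ (2 * N) ≤ (ch g + 1) ^ (2 * N) :=
      pow_le_pow_left₀ (ch_pos g').le hg'.le _
    have hx : 0 ≤ ch x ^ (2 * N) := pow_nonneg (ch_pos x).le _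
    calc kap s x * u (g' * x) ≤ kap s x * (C * 4 ^ N * ch g' ^ (2 * N) * ch x ^ (2 * N)) :=
          mul_le_mul_of_nonneg_left (hu.le' hC g' x) h1
      _ ≤ kap s x * (C * 4 ^ N * (ch g + 1) ^ (2 * N) * ch x ^ (2 * N)) := by
          refine mul_le_mul_of_nonneg_left ?_ h1
          refine mul_le_mul_of_nonneg_right ?_ hx
          exact mul_le_mul_of_nonneg_left h3 (by positivity)
      _ = _ := by ring
  · refine Eventually.of_forall fun x => ?_
    exact (continuous_const.mul (hu.cont.comp (continuous_mul_const x))).continuousAt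

theorem Gr.Q_gr {s₀ : ℕ} (h : CsOK n s₀) {N : ℕ} {C : ℝ} {u : SUGroup n → ℝ} (hu : Gr N C u)
    (hC : 0 ≤ C) {s : ℕ} (hs : s₀ + 2 * N ≤ s) : Gr N (4 ^ N * Real.exp (2 * n) * C) (Q s u) :=
  ⟨hu.Q_cont h hC (by omega), fun g => hu.Q_nonneg h (by omega) g,
    fun g => hu.Q_le h hC (by omega) (by omega) g⟩

/-- near the stabiliser a continuous right `K`-invariant function is almost constant -/
theorem near_K {u : SUGroup n → ℝ} (hc : Continuous u)
    (hK : ∀ g k, ch k = 1 → u (g * k) = u g) (g : SUGroup n) {ε : ℝ} (hε : 0 < ε) :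
    ∃ δ : ℝ, 0 < δ ∧ ∀ x, ch x ^ 2 ≤ 1 + δ → |u (g * x) - u g| < ε := by
  by_contra hcon
  push Not at hcon
  have h1 : ∀ k : ℕ, ∃ x, ch x ^ 2 ≤ 1 + 1 / ((k : ℝ) + 1) ∧ ε ≤ |u (g * x) - u g| := fun k =>
    hcon _ (by positivity)
  choose x hx hx2 using h1
  have hcpt := isCompact_ball (n := n) 2
  have hmem : ∀ k, x k ∈ {x : SUGroup n | ch x ≤ 2} := by
    intro k
    have h2 : 1 / ((k : ℝ) + 1) ≤ 1 := by
      rw [div_le_one (by positivity)]
      have : (0 : ℝ) ≤ k := Nat.cast_nonneg k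
      linarith
    have h3 := hx k
    show ch (x k) ≤ 2
    nlinarith [ch_pos (x k)]
  obtain ⟨y, -, φ, hφ, hlim⟩ := hcpt.tendsto_subseq hmem
  have hy : ch y ^ 2 ≤ 1 := by
    have l1 : Tendsto (fun k => ch (x (φ k)) ^ 2) atTop (𝓝 (ch y ^ 2)) :=
      ((continuous_ch.pow 2).tendsto y).comp hlim
    have l2 : Tendsto (fun k => 1 + 1 / (((φ k : ℕ) : ℝ) + 1)) atTop (𝓝 (1 + 0)) :=
      tendsto_const_nhds.add (tendsto_one_div_add_atTop_nhds_zero_nat.comp hφ.tendsto_atTop)
    rw [add_zero] at l2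
    exact le_of_tendsto_of_tendsto' l1 l2 fun k => hx (φ k)
  have hy1 : ch y = 1 := by
    have := one_le_ch y
    nlinarith
  have l3 : Tendsto (fun k => |u (g * x (φ k)) - u g|) atTop (𝓝 |u (g * y) - u g|) := by
    have hcont : Continuous fun z => |u (g * z) - u g| := by
      have := hc.comp (continuous_const_mul g)
      fun_prop
    exact (hcont.tendsto y).comp hlim
  have h4 : ε ≤ |u (g * y) - u g| := ge_of_tendsto' l3 fun k => hx2 (φ k)
  rw [hK g y hy1, sub_self, abs_zero] at h4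
  linarith

theorem kap_tail {s₀ : ℕ} (h : CsOK n s₀) {s N : ℕ} (hs : s₀ + 2 * N + 2 ≤ s) :
    ∫ x : SUGroup n, kap s x * ((ch x ^ 2 - 1) * ch x ^ (2 * N)) ∂(mu n) ≤
      Real.exp (2 * n) * (n / ((s : ℝ) - N - 1 - n)) := by
  have hgt := h.gt
  have h1 := integrable_kap_ch h (s := s) (N := N) (by omega)
  have h2 := integrable_kap_ch h (s := s) (N := N + 1) (by omega)
  have h3 : ∀ x : SUGroup n, kap s x * ((ch x ^ 2 - 1) * ch x ^ (2 * N)) =
      kap s x * ch x ^ (2 * (N + 1)) - kap s x * ch x ^ (2 * N) := by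
    intro x
    ring
  simp only [h3]
  rw [integral_sub h2 h1]
  simp only [kap_ch_pow h (s := s) (N := N) (by omega), kap_ch_pow h (s := s) (N := N + 1) (by omega)]
  rw [integral_const_mul, integral_const_mul, integral_kap' h (by omega), integral_kap' h (by omega),
    mul_one, mul_one]
  obtain ⟨r, rfl⟩ : ∃ r, s = r + N + 1 := ⟨s - N - 1, by omega⟩
  rw [show r + N + 1 - (N + 1) = r by omega, show r + N + 1 - N = r + 1 by omega]
  have p0 := h.pos r (by omega)
  have p1 := h.pos (r + 1) (by omega)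
  have p2 := h.pos (r + N + 1) (by omega)
  have h4 := h.succ r (by omega)
  have hr : (0 : ℝ) < (r : ℝ) - n := by
    have h1 : n < r := by omega
    have h2 : (n : ℝ) < r := by exact_mod_cast h1
    linarith
  have hr0 : (0 : ℝ) < r := by
    have : 0 < r := by omega
    exact_mod_cast this
  have h5 : cs n (r + 1) ≤ Real.exp (2 * n) * cs n (r + N + 1) := by
    have h6 := cs_ratio_two h (s := r + 1) (j := N) (by omega) (by omega)
    rwa [show r + 1 + N = r + N + 1 by omega] at h6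
  have h6 : cs n r / cs n (r + N + 1) - cs n (r + 1) / cs n (r + N + 1) =
      cs n (r + 1) / cs n (r + N + 1) * (n / ((r : ℝ) - n)) := by
    have h7 : cs n r = (r : ℝ) / ((r : ℝ) - n) * cs n (r + 1) := by
      rw [h4]
      field_simp
    rw [h7]
    field_simp
    ring
  rw [h6]
  have h8 : ((r + N + 1 : ℕ) : ℝ) - N - 1 - n = (r : ℝ) - n := by
    push_cast
    ring
  rw [h8]
  refine mul_le_mul_of_nonneg_right ?_ (by positivity)
  rw [div_le_iff₀ p2]
  exact h5

/-- approximate identity -/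
theorem Gr.tendsto_Q {s₀ : ℕ} (h : CsOK n s₀) {N : ℕ} {C : ℝ} {u : SUGroup n → ℝ} (hu : Gr N C u)
    (hC : 0 ≤ C) (hK : ∀ g k, ch k = 1 → u (g * k) = u g) (t : ℕ) (g : SUGroup n) :
    Tendsto (fun I => Q (t + I) u g) atTop (𝓝 (u g)) := by
  have hgt := h.gt
  rw [Metric.tendsto_atTop]
  intro ε hε
  obtain ⟨δ, hδ, hnear⟩ := near_K hu.cont hK g (half_pos hε)
  obtain ⟨D, hD⟩ : ∃ D : ℝ, D = (C * 4 ^ N * ch g ^ (2 * N) + u g) / δ := ⟨_, rfl⟩
  have hg0 : 0 ≤ ch g ^ (2 * N) := pow_nonneg (ch_pos g).le _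
  have hug := hu.nonneg g
  have hD0 : 0 ≤ D := by
    rw [hD]
    positivity
  -- the tail tends to zero
  have hlim : Tendsto (fun I : ℕ => D * (Real.exp (2 * n) * (n / (((t + I : ℕ) : ℝ) - N - 1 - n))))
      atTop (𝓝 0) := by
    have l1 : Tendsto (fun I : ℕ => ((t + I : ℕ) : ℝ) - N - 1 - n) atTop atTop := by
      have l2 : Tendsto (fun I : ℕ => ((t + I : ℕ) : ℝ)) atTop atTop :=
        tendsto_natCast_atTop_atTop.comp (tendsto_add_atTop_iff_nat (f := fun I => I) t |>.2 tendsto_id |>.congr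
          fun I => by simp [add_comm])
      exact ((l2.atTop_add tendsto_const_nhds).atTop_add tendsto_const_nhds).atTop_add
        tendsto_const_nhds
    have l3 : Tendsto (fun I : ℕ => (n : ℝ) / (((t + I : ℕ) : ℝ) - N - 1 - n)) atTop (𝓝 0) :=
      tendsto_const_nhds.div_atTop l1
    simpa using (l3.const_mul (Real.exp (2 * n))).const_mul D
  obtain ⟨I₀, hI₀⟩ := (Metric.tendsto_atTop.1 hlim) (ε / 2) (half_pos hε)
  refine ⟨max I₀ (s₀ + 2 * N + 2), fun I hI => ?_⟩
  have hI1 : I₀ ≤ I := (le_max_left _ _).trans hI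
  have hI2 : s₀ + 2 * N + 2 ≤ I := (le_max_right _ _).trans hI
  have h1 := hI₀ I hI1
  rw [dist_zero_right, Real.norm_eq_abs] at h1
  obtain ⟨s, hs⟩ : ∃ s, s = t + I := ⟨_, rfl⟩
  rw [← hs] at h1 ⊢
  have hk := integrable_kap' h (s := s) (by omega)
  have hi := hu.integrable h hC (s := s) (by omega) g
  have h2 : Q s u g - u g = ∫ x, kap s x * (u (g * x) - u g) ∂(mu n) := by
    simp only [mul_sub]
    rw [integral_sub hi (hk.mul_const _), integral_mul_const, integral_kap' h (by omega), one_mul]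
    rfl
  rw [dist_eq_norm, h2]
  have h3 : ∀ x : SUGroup n, ‖kap s x * (u (g * x) - u g)‖ ≤
      ε / 2 * kap s x + D * (kap s x * ((ch x ^ 2 - 1) * ch x ^ (2 * N))) := by
    intro x
    have hk0 := kap_nonneg' h (s := s) (by omega) x
    have hx1 := one_le_ch x
    have hx2 : 0 ≤ ch x ^ 2 - 1 := by nlinarith
    have hx3 : 1 ≤ ch x ^ (2 * N) := one_le_pow₀ hx1
    rw [norm_mul, Real.norm_eq_abs, Real.norm_eq_abs, abs_of_nonneg hk0]
    rcases le_or_gt (ch x ^ 2) (1 + δ) with hx | hx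
    · have h4 := hnear x hx
      have h5 : 0 ≤ D * (kap s x * ((ch x ^ 2 - 1) * ch x ^ (2 * N))) := by positivity
      nlinarith
    · have h4 : |u (g * x) - u g| ≤ (C * 4 ^ N * ch g ^ (2 * N) + u g) * ch x ^ (2 * N) := by
        have h5 := hu.le' hC g x
        have h6 := hu.nonneg (g * x)
        rw [abs_le]
        constructor
        · have : 0 ≤ C * 4 ^ N * ch g ^ (2 * N) * ch x ^ (2 * N) := by positivity
          nlinarith
        · nlinarith
      have h5 : (C * 4 ^ N * ch g ^ (2 * N) + u g) * ch x ^ (2 * N) ≤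
          D * ((ch x ^ 2 - 1) * ch x ^ (2 * N)) := by
        have h6 : C * 4 ^ N * ch g ^ (2 * N) + u g ≤ D * (ch x ^ 2 - 1) := by
          rw [hD, div_mul_eq_mul_div, le_div_iff₀ hδ]
          refine mul_le_mul_of_nonneg_left (by linarith) (by positivity)
        rw [← mul_assoc]
        exact mul_le_mul_of_nonneg_right h6 (by positivity)
      have h6 : 0 ≤ ε / 2 * kap s x := by positivity
      calc kap s x * |u (g * x) - u g| ≤ kap s x * (D * ((ch x ^ 2 - 1) * ch x ^ (2 * N))) :=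
            mul_le_mul_of_nonneg_left (h4.trans h5) hk0
        _ ≤ _ := by
            rw [mul_left_comm]
            linarith
  have hi2 : Integrable (fun x : SUGroup n => kap s x * ((ch x ^ 2 - 1) * ch x ^ (2 * N))) (mu n) := by
    have g1 := integrable_kap_ch h (s := s) (N := N) (by omega)
    have g2 := integrable_kap_ch h (s := s) (N := N + 1) (by omega)
    refine (g2.sub g1).congr (Eventually.of_forall fun x => ?_)
    show kap s x * ch x ^ (2 * (N + 1)) - kap s x * ch x ^ (2 * N) = _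
    ring
  have h4 := norm_integral_le_of_norm_le ((hk.const_mul (ε / 2)).add (hi2.const_mul D))
    (Eventually.of_forall h3)
  refine lt_of_le_of_lt h4 ?_
  simp only [Pi.add_apply]
  rw [integral_add (hk.const_mul (ε / 2)) (hi2.const_mul D), integral_const_mul, integral_const_mul,
    integral_kap' h (by omega), mul_one]
  have h5 := mul_le_mul_of_nonneg_left (kap_tail h (s := s) (N := N) (by omega)) hD0
  have h6 := le_abs_self (D * (Real.exp (2 * n) * (n / ((s : ℝ) - N - 1 - n))))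
  linarith

theorem lam_inv_le {s₀ : ℕ} (h : CsOK n s₀) {s : ℕ} (hs : s₀ ≤ s + 1) (j : ℕ) :
    (lam n (s + j))⁻¹ ≤ 4 * (1 / ((s : ℝ) + j) - 1 / ((s : ℝ) + (j + 1 : ℕ))) := by
  have hgt := h.gt
  have h1 : 2 * (n : ℝ) + 1 ≤ s := by
    have : 2 * n + 1 ≤ s := by omega
    exact_mod_cast this
  have hn0 : (0 : ℝ) ≤ n := Nat.cast_nonneg n
  have hj0 : (0 : ℝ) ≤ j := Nat.cast_nonneg j
  unfold lam
  push_cast
  have e1 : 1 / ((s : ℝ) + j) - 1 / (s + (j + 1)) = 1 / ((s + j) * (s + (j + 1))) := by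
    have : (s : ℝ) + j ≠ 0 := by linarith
    have : (s : ℝ) + (j + 1) ≠ 0 := by linarith
    field_simp
    ring
  rw [e1, inv_eq_one_div, mul_one_div]
  have p1 : (0 : ℝ) < (s + j) * (s + j - n) := mul_pos (by linarith) (by linarith)
  have p2 : (0 : ℝ) < (s + j) * (s + (j + 1)) := mul_pos (by linarith) (by linarith)
  rw [div_le_div_iff₀ p1 p2, one_mul]
  nlinarith

theorem lam_sum {s₀ : ℕ} (h : CsOK n s₀) {s : ℕ} (hs : s₀ ≤ s + 1) :
    (Summable fun j => (lam n (s + j))⁻¹) ∧ ∑' j, (lam n (s + j))⁻¹ ≤ 4 / s := by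
  have hgt := h.gt
  have hs0 : (0 : ℝ) < s := by
    have : 0 < s := by omega
    exact_mod_cast this
  have hnn : ∀ j, 0 ≤ (lam n (s + j))⁻¹ := fun j => (inv_pos.2 (lam_pos h (by omega))).le
  have hpart : ∀ N, ∑ j ∈ range N, (lam n (s + j))⁻¹ ≤ 4 / s := by
    intro N
    refine (sum_le_sum fun j _ => lam_inv_le h hs j).trans ?_
    rw [← mul_sum, sum_range_sub' (fun j : ℕ => 1 / ((s : ℝ) + j)) N]
    have h1 : 0 ≤ 1 / ((s : ℝ) + N) := by positivity
    simp only [Nat.cast_zero, add_zero]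
    rw [mul_sub, mul_one_div]
    linarith
  exact ⟨summable_of_sum_range_le hnn hpart, Real.tsum_le_of_sum_range_le hnn hpart⟩

/-- the constant of `boot_five` -/
noncomputable def cfive (n N : ℕ) : ℝ :=
  2 * Real.exp (4 * n + 1) * (4 ^ N * Real.exp (2 * n) *
    (16 * Real.exp (2 * n) * (4 ^ N * Real.exp (2 * n))))

theorem cfive_pos (n N : ℕ) : 0 < cfive n N := by
  unfold cfive
  positivity

/-- blueprint D5 -/
theorem boot_five {s₀ : ℕ} (h : CsOK n s₀) {N : ℕ} {C : ℝ} {u : SUGroup n → ℝ} (hu : Gr N C u)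
    (hC : 0 ≤ C) {A : ℕ} (hA : 2 * s₀ + 4 * N + 2 ≤ A)
    (hcomm : ∀ a b, A ≤ a → A ≤ b → ∀ g, Q a (Q b u) g = Q b (Q a u) g)
    (hlap : ∀ a b, A ≤ a → A ≤ b → ∀ g, lam n a * (Q a (Q b u) g - Q (a + 1) (Q b u) g) =
      lam n b * (Q a (Q b u) g - Q a (Q (b + 1) u) g))
    {s t : ℕ} (hs : A ≤ s) (ht : A ≤ t) (hsub : ∀ g, u g ≤ Q s u g) {B : ℝ} (hB : 0 ≤ B)
    (hPt : ∀ g, Q t u g ≤ B * ch g ^ (2 * N)) (g : SUGroup n) :
    u g ≤ cfive n N * B * ch g ^ (2 * N) := by
  have hgt := h.gt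
  obtain ⟨D, hD⟩ : ∃ D : ℝ, D = 4 ^ N * Real.exp (2 * n) := ⟨_, rfl⟩
  have hD0 : 0 ≤ D := by
    rw [hD]
    positivity
  have hQ : ∀ b, A ≤ b → Gr N (D * C) (Q b u) := fun b hb => by
    rw [hD]
    exact hu.Q_gr h hC (by omega)
  have hDC : 0 ≤ D * C := mul_nonneg hD0 hC
  have hs0 : (0 : ℝ) < s := by
    have : 0 < s := by omega
    exact_mod_cast this
  obtain ⟨hsum, hsum4⟩ := lam_sum h (s := s) (by omega)
  -- the bound for `P_(2s) U`
  have hW : ∀ g, Q (2 * s) u g ≤ 16 * Real.exp (2 * n) * D * B * ch g ^ (2 * N) := by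
    intro g
    have hg0 : 0 ≤ ch g ^ (2 * N) := pow_nonneg (ch_pos g).le _
    have hbd : ∀ a, A ≤ a → ∀ b, A ≤ b → |Q a (Q b u) g| ≤ D * (D * C) * ch g ^ (2 * N) := by
      intro a ha b hb
      have h1 := (hQ b hb).Q_gr h hDC (s := a) (by omega)
      rw [abs_of_nonneg (h1.nonneg g)]
      rw [hD] at h1 ⊢
      exact h1.le g
    have key := tele_lim (lam n) (fun a b => Q a (Q b u) g) (fun b => Q b u g) (fun a => Q a u g)
      s t (D * (D * C) * ch g ^ (2 * N)) (fun b hb => lam_pos h (by omega))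
      (fun a ha => lam_pos h (by omega)) (fun a ha b hb => hlap a b (by omega) (by omega) g)
      hsum (lam_sum h (s := t) (by omega)).1 (fun a ha b hb => hbd a (by omega) b (by omega))
      (fun b hb => (hQ b (by omega)).tendsto_Q h hDC (fun g k hk => Q_mul_K b u g hk) t g)
      (fun a ha => by
        have h1 := (hQ a (by omega)).tendsto_Q h hDC (fun g k hk => Q_mul_K a u g hk) s g
        refine h1.congr fun I => ?_
        exact (hcomm a (s + I) (by omega) (by omega) g).symm)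
      (fun a ha => by
        have g1 := hu.integrable h hC (s := a) (by omega) g
        have g2 := (hQ s hs).integrable h hDC (s := a) (by omega) g
        exact integral_mono g1 g2 fun x =>
          mul_le_mul_of_nonneg_left (hsub (g * x)) (kap_nonneg' h (by omega) x))
    have hright : ∑' j, (lam n (s + j))⁻¹ * Q t (Q (s + j) u) g ≤
        D * B * ch g ^ (2 * N) * (4 / s) := by
      have h1 : ∀ j, (lam n (s + j))⁻¹ * Q t (Q (s + j) u) g ≤
          (lam n (s + j))⁻¹ * (D * B * ch g ^ (2 * N)) := by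
        intro j
        refine mul_le_mul_of_nonneg_left ?_ (inv_pos.2 (lam_pos h (by omega))).le
        rw [hcomm t (s + j) (by omega) (by omega) g]
        have h2 : Gr N B (Q t u) := ⟨(hQ t ht).cont, (hQ t ht).nonneg, hPt⟩
        have h3 := h2.Q_le h hB (s := s + j) (by omega) (by omega) g
        rw [hD]
        exact h3
      have h2 : Summable fun j => (lam n (s + j))⁻¹ * (D * B * ch g ^ (2 * N)) := hsum.mul_right _
      have h3 : Summable fun j => (lam n (s + j))⁻¹ * Q t (Q (s + j) u) g := by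
        refine Summable.of_nonneg_of_le (fun j => ?_) h1 h2
        refine mul_nonneg (inv_pos.2 (lam_pos h (by omega))).le ?_
        exact (hQ (s + j) (by omega)).Q_nonneg h (by omega) g
      refine (h3.tsum_le_tsum h1 h2).trans ?_
      rw [tsum_mul_right, mul_comm]
      exact mul_le_mul_of_nonneg_left hsum4 (by positivity)
    have hleft : ∑ j ∈ range s, (lam n (s + j))⁻¹ * Q (s + j) u g ≤
        ∑' j, (lam n (s + j))⁻¹ * Q (s + j) u g := by
      have h1 : Summable fun j => (lam n (s + j))⁻¹ * Q (s + j) u g := by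
        refine Summable.of_nonneg_of_le (f := fun j => (lam n (s + j))⁻¹ * (D * C * ch g ^ (2 * N)))
          (fun j => ?_) (fun j => ?_) (hsum.mul_right _)
        · exact mul_nonneg (inv_pos.2 (lam_pos h (by omega))).le
            (hu.Q_nonneg h (by omega) g)
        · exact mul_le_mul_of_nonneg_left ((hQ (s + j) (by omega)).le g)
            (inv_pos.2 (lam_pos h (by omega))).le
      exact h1.sum_le_tsum _ fun j _ => mul_nonneg (inv_pos.2 (lam_pos h (by omega))).le
            (hu.Q_nonneg h (by omega) g)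
    have h1 := hu.Q_two_le h hC (s := s) (by omega) g
    refine h1.trans ?_
    calc 4 * Real.exp (2 * n) * s * ∑ j ∈ range s, (lam n (s + j))⁻¹ * Q (s + j) u g
        ≤ 4 * Real.exp (2 * n) * s * (D * B * ch g ^ (2 * N) * (4 / s)) :=
          mul_le_mul_of_nonneg_left (hleft.trans (key.trans hright)) (by positivity)
      _ = _ := by
          field_simp
          ring
  have h2 : Gr N (16 * Real.exp (2 * n) * D * B) (Q (2 * s) u) :=
    ⟨(hQ (2 * s) (by omega)).cont, (hQ (2 * s) (by omega)).nonneg, hW⟩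
  have h3 := h2.Q_le h (by positivity) (s := s / 2) (by omega) (by omega) g
  have h4 := hu.Q_le_QQ h hC (s := s) (by omega) g
  refine (hsub g).trans (h4.trans ?_)
  calc 2 * Real.exp (4 * n + 1) * Q (s / 2) (Q (2 * s) u) g
      ≤ 2 * Real.exp (4 * n + 1) * (4 ^ N * Real.exp (2 * n) * (16 * Real.exp (2 * n) * D * B) *
        ch g ^ (2 * N)) := mul_le_mul_of_nonneg_left h3 (by positivity)
    _ = _ := by
        unfold cfive
        rw [hD]
        ring

theorem split_aux {α : Type*} [MeasurableSpace α] {ν : Measure α} {f a b : α → ℝ} {S : Set α}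
    (hf : Integrable f ν) (ha : Integrable a ν) (hb : Integrable b ν) (hS : MeasurableSet S)
    (hSf : ν S ≠ ⊤) (p q r : ℝ)
    (h : ∀ x, f x ≤ p * a x + q * b x + S.indicator (fun _ => r) x) :
    ∫ x, f x ∂ν ≤ p * ∫ x, a x ∂ν + q * ∫ x, b x ∂ν + ν.real S * r := by
  have i1 : Integrable (fun x => p * a x + q * b x) ν := (ha.const_mul p).add (hb.const_mul q)
  have i2 : Integrable (fun x => S.indicator (fun _ => r) x) ν :=
    (integrable_indicator_iff hS).2 (integrableOn_const hSf)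
  calc ∫ x, f x ∂ν ≤ ∫ x, (p * a x + q * b x + S.indicator (fun _ => r) x) ∂ν :=
        integral_mono hf (i1.add i2) h
    _ = ∫ x, (p * a x + q * b x) ∂ν + ∫ x, S.indicator (fun _ => r) x ∂ν := integral_add i1 i2
    _ = p * ∫ x, a x ∂ν + q * ∫ x, b x ∂ν + ν.real S * r := by
        rw [integral_add (ha.const_mul p) (hb.const_mul q), integral_const_mul,
          integral_const_mul, integral_indicator_const _ hS, smul_eq_mul]

/-- splitting an average at the level `T` -/
theorem Gr.Q_split {s₀ : ℕ} (h : CsOK n s₀) {N : ℕ} {C : ℝ} {u : SUGroup n → ℝ} (hu : Gr N C u)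
    (hC : 0 ≤ C) {t : ℕ} (ht : s₀ + 2 * N + 2 ≤ t) {R₀ R T : ℝ} (hR₀ : 1 ≤ R₀) (hR : 1 ≤ R)
    (hT : 0 ≤ T) {y : SUGroup n} (hy : ch y ≤ R₀) :
    Q t u y ≤ T + C * 4 ^ N * R₀ ^ (2 * N) * (Real.exp (2 * n) / R ^ 2 +
      (mu n).real {z | ch z ≤ 2 * R₀ * R ∧ T < u z} / cs n t) := by
  have hgt := h.gt
  have hct := h.pos t (by omega)
  obtain ⟨c, hc⟩ : ∃ c : ℝ, c = C * 4 ^ N * R₀ ^ (2 * N) := ⟨_, rfl⟩
  have hc0 : 0 ≤ c := by
    rw [hc]
    positivity
  obtain ⟨S, hS⟩ : ∃ S : Set (SUGroup n), S = {x | ch x ≤ R ∧ T < u (y * x)} := ⟨_, rfl⟩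
  have hSm : MeasurableSet S := by
    rw [hS]
    exact (measurableSet_le continuous_ch.measurable measurable_const).inter
      (measurableSet_lt measurable_const (hu.cont.comp (continuous_const_mul y)).measurable)
  have hSfin : (mu n) S < ⊤ := by
    refine lt_of_le_of_lt (measure_mono ?_) (isCompact_ball (n := n) R).measure_lt_top
    rw [hS]
    exact fun x hx => hx.1
  have hpt : ∀ x : SUGroup n, kap t x * u (y * x) ≤ T * kap t x +
      c / R ^ 2 * (kap t x * ch x ^ (2 * (N + 1))) + S.indicator (fun _ => c / cs n t) x := by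
    intro x
    have hk0 := kap_nonneg' h (s := t) (by omega) x
    have hx1 := one_le_ch x
    have hx0 := ch_pos x
    have hux := hu.nonneg (y * x)
    have h2 : u (y * x) ≤ c * ch x ^ (2 * N) := by
      refine (hu.le' hC y x).trans ?_
      rw [hc]
      have h3 : ch y ^ (2 * N) ≤ R₀ ^ (2 * N) := pow_le_pow_left₀ (ch_pos y).le hy _
      exact mul_le_mul_of_nonneg_right (mul_le_mul_of_nonneg_left h3 (by positivity))
        (by positivity)
    have hi0 : 0 ≤ S.indicator (fun _ => c / cs n t) x :=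
      Set.indicator_nonneg (fun _ _ => by positivity) x
    rcases le_or_gt (u (y * x)) T with hle | hlt
    · have h3 : kap t x * u (y * x) ≤ T * kap t x := by
        rw [mul_comm]
        exact mul_le_mul_of_nonneg_right hle hk0
      have h4 : 0 ≤ c / R ^ 2 * (kap t x * ch x ^ (2 * (N + 1))) := by positivity
      linarith
    · rcases le_or_gt (ch x) R with hxR | hxR
      · have hmem : x ∈ S := by
          rw [hS]
          exact ⟨hxR, hlt⟩
        rw [Set.indicator_of_mem hmem]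
        have h3 : kap t x * ch x ^ (2 * N) ≤ 1 / cs n t := by
          unfold kap
          rw [div_mul_eq_mul_div]
          refine div_le_div_of_nonneg_right ?_ hct.le
          rw [inv_mul_le_iff₀ (by positivity), mul_one]
          exact pow_le_pow_right₀ hx1 (by omega)
        have h4 : kap t x * u (y * x) ≤ c / cs n t := by
          calc kap t x * u (y * x) ≤ kap t x * (c * ch x ^ (2 * N)) :=
                mul_le_mul_of_nonneg_left h2 hk0
            _ = c * (kap t x * ch x ^ (2 * N)) := by ring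
            _ ≤ c * (1 / cs n t) := mul_le_mul_of_nonneg_left h3 hc0
            _ = _ := by ring
        have h5 : 0 ≤ T * kap t x := by positivity
        have h6 : 0 ≤ c / R ^ 2 * (kap t x * ch x ^ (2 * (N + 1))) := by positivity
        linarith
      · have h3 : kap t x * u (y * x) ≤ c / R ^ 2 * (kap t x * ch x ^ (2 * (N + 1))) := by
          have h4 : (1 : ℝ) ≤ ch x ^ 2 / R ^ 2 := by
            rw [one_le_div (by positivity)]
            exact pow_le_pow_left₀ (by linarith) hxR.le 2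
          calc kap t x * u (y * x) ≤ kap t x * (c * ch x ^ (2 * N)) :=
                mul_le_mul_of_nonneg_left h2 hk0
            _ = kap t x * (c * ch x ^ (2 * N)) * 1 := (mul_one _).symm
            _ ≤ kap t x * (c * ch x ^ (2 * N)) * (ch x ^ 2 / R ^ 2) :=
                mul_le_mul_of_nonneg_left h4 (by positivity)
            _ = _ := by ring
        have h5 : 0 ≤ T * kap t x := by positivity
        linarith
  have h1 : Q t u y ≤ T * ∫ x : SUGroup n, kap t x ∂(mu n) +
      c / R ^ 2 * ∫ x, kap t x * ch x ^ (2 * (N + 1)) ∂(mu n) + (mu n).real S * (c / cs n t) :=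
    split_aux (hu.integrable h hC (by omega) y) (integrable_kap' h (s := t) (by omega))
      (integrable_kap_ch h (s := t) (N := N + 1) (by omega)) hSm hSfin.ne T (c / R ^ 2) (c / cs n t)
      hpt
  rw [integral_kap' h (by omega), mul_one] at h1
  have h3 := integral_kap_ch h (s := t) (N := N + 1) (by omega) (by omega)
  have h4 : (mu n).real S ≤ (mu n).real {z | ch z ≤ 2 * R₀ * R ∧ T < u z} := by
    obtain ⟨V, hV⟩ : ∃ V : Set (SUGroup n), V = {z | ch z ≤ 2 * R₀ * R ∧ T < u z} := ⟨_, rfl⟩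
    rw [← hV]
    have hsub : S ⊆ (fun x => y * x) ⁻¹' V := by
      intro x hx
      rw [hS] at hx
      rw [Set.mem_preimage, hV]
      refine ⟨(ch_mul_le' y x).trans ?_, hx.2⟩
      have h6 := ch_pos y
      have h7 := ch_pos x
      calc 2 * ch y * ch x ≤ 2 * R₀ * ch x :=
            mul_le_mul_of_nonneg_right (by linarith) h7.le
        _ ≤ _ := mul_le_mul_of_nonneg_left hx.1 (by linarith)
    have hVfin : (mu n) V ≠ ⊤ := by
      have hVs : V ⊆ {x : SUGroup n | ch x ≤ 2 * R₀ * R} := by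
        rw [hV]
        exact fun x hx => hx.1
      exact (lt_of_le_of_lt (measure_mono hVs) (isCompact_ball (n := n) (2 * R₀ * R)).measure_lt_top).ne
    have h5 : (mu n) S ≤ (mu n) V := by
      rw [← measure_preimage_mul (mu n) y V]
      exact measure_mono hsub
    exact ENNReal.toReal_mono hVfin h5
  refine h1.trans ?_
  rw [← hc]
  have h5 : c / R ^ 2 * ∫ x, kap t x * ch x ^ (2 * (N + 1)) ∂(mu n) ≤
      c / R ^ 2 * Real.exp (2 * n) := mul_le_mul_of_nonneg_left h3 (by positivity)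
  have h6 : (mu n).real S * (c / cs n t) ≤
      (mu n).real {z | ch z ≤ 2 * R₀ * R ∧ T < u z} * (c / cs n t) :=
    mul_le_mul_of_nonneg_right h4 (by positivity)
  have h7 : c * (Real.exp (2 * n) / R ^ 2 +
      (mu n).real {z | ch z ≤ 2 * R₀ * R ∧ T < u z} / cs n t) = c / R ^ 2 * Real.exp (2 * n) +
        (mu n).real {z | ch z ≤ 2 * R₀ * R ∧ T < u z} * (c / cs n t) := by ring
  rw [h7]
  linarith

/-- blueprint D6: a family of almost subharmonic functions which is bounded in measure is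
uniformly bounded. -/
theorem boot_six {s₀ : ℕ} (h : CsOK n s₀) {N A : ℕ} (hA : 2 * s₀ + 4 * N + 2 ≤ A)
    {F₀ : Set (SUGroup n)} (hF₀ : IsCompact F₀) (hne : F₀.Nonempty) {C₀ : ℝ} (hC₀ : 0 < C₀)
    {ψ : ℝ → ℝ → ℝ} (hψ : ∀ R, Tendsto (ψ R) atTop (𝓝 0)) :
    ∃ C₁ : ℝ, 0 < C₁ ∧ ∀ (s : ℕ) (u : SUGroup n → ℝ), A ≤ s → Continuous u → (∀ g, 0 ≤ u g) →
      (∀ g k, ch k = 1 → u (g * k) = u g) →
      (∀ M, (∀ g ∈ F₀, u g ≤ M) → ∀ g, u g ≤ C₀ * M * ch g ^ (2 * N)) →
      (∀ M, (∀ g ∈ F₀, Q A u g ≤ M) → ∀ g, Q A u g ≤ C₀ * M * ch g ^ (2 * N)) →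
      (∀ R T, (mu n).real {g | ch g ≤ R ∧ T < u g} ≤ ψ R T) →
      (∀ a b, A ≤ a → A ≤ b → ∀ g, Q a (Q b u) g = Q b (Q a u) g) →
      (∀ a b, A ≤ a → A ≤ b → ∀ g, lam n a * (Q a (Q b u) g - Q (a + 1) (Q b u) g) =
        lam n b * (Q a (Q b u) g - Q a (Q (b + 1) u) g)) →
      (∀ g, u g ≤ Q s u g) → ∀ g, u g ≤ C₁ * ch g ^ (2 * N) := by
  have hgt := h.gt
  have hct := h.pos A (by omega)
  -- a bound for `ch` on `F₀`
  obtain ⟨R₀, hR₀, hR₀1⟩ : ∃ R₀ : ℝ, 1 ≤ R₀ ∧ ∀ y ∈ F₀, ch y ≤ R₀ := by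
    obtain ⟨y, -, hy⟩ := hF₀.exists_isMaxOn hne continuous_ch.continuousOn
    exact ⟨ch y, one_le_ch y, fun z hz => hy hz⟩
  obtain ⟨K, hK⟩ : ∃ K : ℝ, K = cfive n N * C₀ * R₀ ^ (2 * N) := ⟨_, rfl⟩
  have hK0 : 0 < K := by
    rw [hK]
    have := cfive_pos n N
    positivity
  obtain ⟨L, hL⟩ : ∃ L : ℝ, L = C₀ * 4 ^ N * R₀ ^ (2 * N) := ⟨_, rfl⟩
  have hL0 : 0 < L := by
    rw [hL]
    positivity
  -- choice of `R`
  obtain ⟨R, hR1, hR⟩ : ∃ R : ℝ, 1 ≤ R ∧ K * L * (Real.exp (2 * n) / R ^ 2) ≤ 1 / 4 := by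
    obtain ⟨X, hX⟩ : ∃ X : ℝ, X = K * L * Real.exp (2 * n) := ⟨_, rfl⟩
    have hX0 : 0 < X := by
      rw [hX]
      positivity
    refine ⟨1 + 4 * X, by linarith, ?_⟩
    rw [← mul_div_assoc, ← hX, div_le_div_iff₀ (by positivity) (by norm_num)]
    nlinarith
  -- choice of `T`
  obtain ⟨T, hT1, hT⟩ : ∃ T : ℝ, 1 ≤ T ∧ K * L * (ψ (2 * R₀ * R) T / cs n A) ≤ 1 / 4 := by
    have h1 : Tendsto (fun T => K * L * (ψ (2 * R₀ * R) T / cs n A)) atTop (𝓝 0) := by
      simpa using ((hψ (2 * R₀ * R)).div_const (cs n A)).const_mul (K * L)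
    have h2 := (h1.eventually (gt_mem_nhds (by norm_num : (0 : ℝ) < 1 / 4))).and
      (eventually_ge_atTop (1 : ℝ))
    obtain ⟨T, hT, hT1⟩ := h2.exists
    exact ⟨T, hT1, hT.le⟩
  refine ⟨C₀ * (2 * K * T), by positivity, fun s u hs hc h0 hKinv hg0 hg1 hvol hcomm hlap hsub g => ?_⟩
  obtain ⟨y₁, hy₁, hmax⟩ := hF₀.exists_isMaxOn hne hc.continuousOn
  obtain ⟨M, hM⟩ : ∃ M, M = u y₁ := ⟨_, rfl⟩
  have hM0 : 0 ≤ M := hM ▸ h0 y₁
  have hMb : ∀ g ∈ F₀, u g ≤ M := fun g hg => by
    rw [hM]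
    exact hmax hg
  have hgrow := hg0 M hMb
  have hu : Gr N (C₀ * M) u := ⟨hc, h0, hgrow⟩
  have hCM : 0 ≤ C₀ * M := by positivity
  obtain ⟨ε, hε⟩ : ∃ ε : ℝ, ε = L * (Real.exp (2 * n) / R ^ 2 + ψ (2 * R₀ * R) T / cs n A) :=
    ⟨_, rfl⟩
  have hKε : K * ε ≤ 1 / 2 := by
    rw [hε]
    have : K * (L * (Real.exp (2 * n) / R ^ 2 + ψ (2 * R₀ * R) T / cs n A)) =
        K * L * (Real.exp (2 * n) / R ^ 2) + K * L * (ψ (2 * R₀ * R) T / cs n A) := by ring
    rw [this]
    linarith
  have hNt : ∀ y ∈ F₀, Q A u y ≤ T + M * ε := by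
    intro y hy
    have h1 := hu.Q_split h hCM (t := A) (by omega) hR₀ hR1 (by linarith : 0 ≤ T) (hR₀1 y hy)
    refine h1.trans ?_
    have h2 : (mu n).real {z | ch z ≤ 2 * R₀ * R ∧ T < u z} / cs n A ≤
        ψ (2 * R₀ * R) T / cs n A := div_le_div_of_nonneg_right (hvol _ _) hct.le
    have h3 : C₀ * M * 4 ^ N * R₀ ^ (2 * N) = M * L := by
      rw [hL]
      ring
    rw [h3, hε, ← mul_assoc]
    have h4 : 0 ≤ M * L := by positivity
    have h5 := mul_le_mul_of_nonneg_left (add_le_add_right h2 (Real.exp (2 * n) / R ^ 2)) h4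
    linarith
  have hNt0 : 0 ≤ T + M * ε := by
    obtain ⟨y, hy⟩ := hne
    exact (hu.Q_nonneg h (by omega) y).trans (hNt y hy)
  have hPt := hg1 _ hNt
  have h5 := boot_five h hu hCM hA hcomm hlap hs le_rfl hsub (B := C₀ * (T + M * ε))
    (by positivity) hPt
  -- the bound for `M`
  have hM2 : M ≤ K * (T + M * ε) := by
    have h6 := h5 y₁
    rw [← hM] at h6
    refine h6.trans ?_
    have h7 : ch y₁ ^ (2 * N) ≤ R₀ ^ (2 * N) := pow_le_pow_left₀ (ch_pos y₁).le (hR₀1 y₁ hy₁) _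
    have h8 : 0 ≤ cfive n N * (C₀ * (T + M * ε)) := by
      have := cfive_pos n N
      positivity
    refine (mul_le_mul_of_nonneg_left h7 h8).trans (le_of_eq ?_)
    rw [hK]
    ring
  have hM3 : M ≤ 2 * K * T := by
    have h9 : K * (T + M * ε) = K * T + M * (K * ε) := by ring
    have h10 : M * (K * ε) ≤ M * (1 / 2) := mul_le_mul_of_nonneg_left hKε hM0
    linarith
  refine (hgrow g).trans ?_
  refine mul_le_mul_of_nonneg_right ?_ (pow_nonneg (ch_pos g).le _)
  exact mul_le_mul_of_nonneg_left hM3 hC₀.le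

end Pool.Agent.Lib.MP_5d4057_al.HM.Boot
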