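import Pool.Agent.Lib.MP_5d4057_al.HM.LevB
import Pool.Agent.Lib.MP_5d4057_al.HM.Thompson
import Pool.Agent.Lib.MP_5d4057_al.HM.Mom

namespace Pool.Agent.Lib.MP_5d4057_al.HM

open Matrix MeasureTheory Filter Topology Pool.Agent.Lib.MP_5d4057_al Pool.Agent.Lib.MP_5d4057_al.Hyb

open scoped ComplexOrder MatrixOrder Matrix.Norms.L2Operator

variable {n m : ℕ}

variable {Γ : Subgroup (SUGroup n)}

/-! ### Linear maps and integrals -/

private noncomputable def clL (C : Mat m) : Mat m →L[ℝ] Mat m :=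
  LinearMap.toContinuousLinearMap
    { toFun := fun A => C * A
      map_add' := fun A B => mul_add C A B
      map_smul' := fun c A => by rw [mul_smul_comm, RingHom.id_apply] }

private noncomputable def crL (C : Mat m) : Mat m →L[ℝ] Mat m :=
  LinearMap.toContinuousLinearMap
    { toFun := fun A => A * C
      map_add' := fun A B => add_mul A B C
      map_smul' := fun c A => by rw [smul_mul_assoc, RingHom.id_apply] }

/-- the functional `A ↦ Re tr (C A)` -/
private noncomputable def ctrL (C : Mat m) : Mat m →L[ℝ] ℝ :=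
  LinearMap.toContinuousLinearMap
    { toFun := fun A => (C * A).trace.re
      map_add' := fun A B => by rw [mul_add, trace_add, Complex.add_re]
      map_smul' := fun c A => by
        rw [mul_smul_comm, trace_smul, RingHom.id_apply, Complex.real_smul, Complex.re_ofReal_mul,
          smul_eq_mul] }

private theorem clL_apply (C A : Mat m) : clL C A = C * A := rfl

private theorem crL_apply (C A : Mat m) : crL C A = A * C := rfl

private theorem ctrL_apply (C A : Mat m) : ctrL C A = (C * A).trace.re := rfl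

private theorem int_sand {α : Type} [MeasurableSpace α] {ν : Measure α} {A : α → Mat m}
    (hA : Integrable A ν) (C : Mat m) :
    Integrable (fun x => C * A x * C) ν ∧ ∫ x, C * A x * C ∂ν = C * (∫ x, A x ∂ν) * C := by
  have h1 : Integrable (fun x => C * A x) ν := (clL C).integrable_comp hA
  have h2 : Integrable (fun x => C * A x * C) ν := (crL C).integrable_comp h1
  refine ⟨h2, ?_⟩
  have e1 := (clL C).integral_comp_comm hA
  have e2 := (crL C).integral_comp_comm h1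
  simp only [clL_apply, crL_apply] at e1 e2
  rw [e2, e1]

private theorem int_tr {α : Type} [MeasurableSpace α] {ν : Measure α} {A : α → Mat m}
    (hA : Integrable A ν) (C : Mat m) :
    Integrable (fun x => (C * A x).trace.re) ν ∧
      ∫ x, (C * A x).trace.re ∂ν = (C * ∫ x, A x ∂ν).trace.re := by
  refine ⟨(ctrL C).integrable_comp hA, ?_⟩
  have e := (ctrL C).integral_comp_comm hA
  simp only [ctrL_apply] at e
  exact e

/-! ### Growth and integrability -/

private theorem adm_nonneg {E : Type} [NormedAddCommGroup E] [NormedSpace ℝ E] {N : ℕ} {C : ℝ}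
    {f : Vec n → E} (hf : Adm N C f) : 0 ≤ C := by
  have h := hf.bound 1
  rw [ch_one, one_pow, mul_one] at h
  exact (norm_nonneg _).trans h

private theorem int_adm {E : Type} [NormedAddCommGroup E] [NormedSpace ℝ E] {s N : ℕ}
    (hs : n + N < s) {C : ℝ} {f : Vec n → E} (hf : Adm N C f) (g : SUGroup n) :
    Integrable (fun x => kap s x • f (act (g * x) (base n))) (mu n) := by
  have hC := adm_nonneg hf
  have h1 : Integrable (fun x : SUGroup n => (C * (2 * ch g) ^ (2 * N)) *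
      (kap s x * ch x ^ (2 * N))) (mu n) := (integrable_kap_pow hs).const_mul _
  refine h1.mono' ?_ (Eventually.of_forall fun x => ?_)
  · refine ((continuous_kap s).aestronglyMeasurable).smul ?_
    exact hf.meas.comp_quasiMeasurePreserving (quasiMeasurePreserving_mul_left (mu n) g)
  · rw [norm_smul, Real.norm_eq_abs, abs_of_nonneg (kap_nonneg s x)]
    have h2 := hf.bound (g * x)
    have h3 : ch (g * x) ^ (2 * N) ≤ (2 * ch g * ch x) ^ (2 * N) :=
      pow_le_pow_left₀ (ch_pos _).le (ch_mul_le' g x) _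
    have h4 : C * ch (g * x) ^ (2 * N) ≤ C * (2 * ch g * ch x) ^ (2 * N) :=
      mul_le_mul_of_nonneg_left h3 hC
    calc kap s x * ‖f (act (g * x) (base n))‖ ≤ kap s x * (C * (2 * ch g * ch x) ^ (2 * N)) :=
          mul_le_mul_of_nonneg_left (h2.trans h4) (kap_nonneg s x)
      _ = (C * (2 * ch g) ^ (2 * N)) * (kap s x * ch x ^ (2 * N)) := by
          rw [mul_pow]
          ring

/-- the growth of a metric and its inverse; the exponent only depends on `ρ` -/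
private theorem met_adm (hn : 1 ≤ n) (hΓ : Coc Γ) (ρ : Γ →* Mat m) : ∃ N : ℕ,
    ∀ H : Vec n → Mat m, Met ρ H → ∃ C : ℝ, Adm N C H ∧ Adm N C (fun v => (H v)⁻¹) := by
  obtain ⟨F, N, C, hF, -, -, h⟩ := met_growth hn hΓ ρ
  refine ⟨N, fun H hH => ?_⟩
  have hc : Continuous fun g : SUGroup n => H (act g (base n)) :=
    hH.cont.comp_continuous continuous_orbit fun g => orbit_mem g
  have hc' : Continuous fun g : SUGroup n => (H (act g (base n)))⁻¹ :=
    (met_inv hH).cont.comp_continuous continuous_orbit fun g => orbit_mem g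
  have t1 : Continuous fun g : SUGroup n => (H (act g (base n))).trace.re :=
    Complex.continuous_re.comp hc.matrix_trace
  have t2 : Continuous fun g : SUGroup n => ((H (act g (base n)))⁻¹).trace.re :=
    Complex.continuous_re.comp hc'.matrix_trace
  obtain ⟨M1, h1⟩ := hF.exists_bound_of_continuousOn t1.continuousOn
  obtain ⟨M2, h2⟩ := hF.exists_bound_of_continuousOn t2.continuousOn
  refine ⟨C * max M1 M2, h H (max M1 M2) hH fun g hg => ⟨?_, ?_⟩⟩
  · exact (le_abs_self _).trans ((h1 g hg).trans (le_max_left _ _))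
  · exact (le_abs_self _).trans ((h2 g hg).trans (le_max_right _ _))

private theorem P_congr {E : Type} [NormedAddCommGroup E] [NormedSpace ℝ E] (s : ℕ)
    {f f' : Vec n → E} (h : ∀ v ∈ Cone n, f v = f' v) (v : Vec n) : P s f v = P s f' v := by
  unfold P
  congr 1
  funext y
  rw [h _ (orbit_mem y)]

private theorem P_smul_left {E : Type} [NormedAddCommGroup E] [NormedSpace ℝ E] (s : ℕ)
    (f : Vec n → E) {c : ℂ} (hc : c ≠ 0) (v : Vec n) : P s f (c • v) = P s f v := by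
  unfold P
  congr 1
  funext y
  rw [ker_smul_left s hc]

private theorem det_unit {A : Mat m} (hA : A.PosDef) : IsUnit A.det :=
  (isUnit_iff_isUnit_det A).1 hA.isUnit

private theorem sand_eq {A X : Mat m} (hA : A.PosDef) :
    (A - X) * A⁻¹ * (A - X) = A - (X + X) + X * A⁻¹ * X := by
  have h1 : A * A⁻¹ = 1 := mul_nonsing_inv A (det_unit hA)
  have h2 : A⁻¹ * A = 1 := nonsing_inv_mul A (det_unit hA)
  calc (A - X) * A⁻¹ * (A - X) = (A * A⁻¹) * A - (A * A⁻¹) * X - X * (A⁻¹ * A) + X * A⁻¹ * X := by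
        noncomm_ring
    _ = A - (X + X) + X * A⁻¹ * X := by
        rw [h1, h2]
        noncomm_ring

/-- the integral of the quadratic expression -/
private theorem quad_int {s N : ℕ} (hs : n + N < s) {C C' : ℝ} {H : Vec n → Mat m}
    (hH : Adm N C H) (hH' : Adm N C' (fun v => (H v)⁻¹)) (hp : ∀ v ∈ Cone n, (H v).PosDef)
    (X : Mat m) (g : SUGroup n) :
    Integrable (fun x => kap s x • ((H (act (g * x) (base n)) - X) *
      (H (act (g * x) (base n)))⁻¹ * (H (act (g * x) (base n)) - X))) (mu n) ∧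
    ∫ x, kap s x • ((H (act (g * x) (base n)) - X) * (H (act (g * x) (base n)))⁻¹ *
      (H (act (g * x) (base n)) - X)) ∂(mu n) =
      P s H (act g (base n)) - (X + X) + X * P s (fun w => (H w)⁻¹) (act g (base n)) * X := by
  have i1 := int_adm hs hH g
  have i2 := int_adm hs hH' g
  have i3 : Integrable (fun x : SUGroup n => kap s x • (X + X)) (mu n) :=
    (integrable_kap (by omega)).smul_const _
  obtain ⟨i4, e4⟩ := int_sand i2 X
  have e : ∀ x, kap s x • ((H (act (g * x) (base n)) - X) *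
      (H (act (g * x) (base n)))⁻¹ * (H (act (g * x) (base n)) - X)) =
      kap s x • H (act (g * x) (base n)) - kap s x • (X + X) +
        X * (kap s x • (H (act (g * x) (base n)))⁻¹) * X := by
    intro x
    rw [sand_eq (hp _ (orbit_mem _)), smul_add, smul_sub, mul_smul_comm, smul_mul_assoc]
  simp_rw [e]
  have i13 : Integrable (fun x => kap s x • H (act (g * x) (base n)) - kap s x • (X + X)) (mu n) :=
    i1.sub i3
  refine ⟨i13.add i4, ?_⟩
  rw [integral_add i13 i4, integral_sub i1 i3, e4, P_orbit, P_orbit,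
    integral_smul_const, integral_kap (by omega), one_smul]

/-! ### Pairs -/

/-- Symmetry. -/
theorem Pair.symm {ρ : Γ →* Mat m} {s : ℕ} {H L : Vec n → Mat m} (h : Pair ρ s H L) :
    Pair ρ s L H := ⟨h.metL, h.metH, h.el2, h.el1⟩

private theorem inv_el {H L : Vec n → Mat m} {s : ℕ} (hH : ∀ v ∈ Cone n, (H v).PosDef)
    (hL : ∀ v ∈ Cone n, (L v).PosDef)
    (h : ∀ v ∈ Cone n, L v * P s (fun w => (H w)⁻¹) v * L v = P s H v) :
    ∀ v ∈ Cone n, (L v)⁻¹ * P s (fun w => ((H w)⁻¹)⁻¹) v * (L v)⁻¹ = P s (fun w => (H w)⁻¹) v := by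
  intro v hv
  have e1 : P s (fun w => ((H w)⁻¹)⁻¹) v = P s H v :=
    P_congr s (fun w hw => nonsing_inv_nonsing_inv _ (det_unit (hH w hw))) v
  rw [e1, ← h v hv]
  have h1 : L v * (L v)⁻¹ = 1 := mul_nonsing_inv _ (det_unit (hL v hv))
  have h2 : (L v)⁻¹ * L v = 1 := nonsing_inv_mul _ (det_unit (hL v hv))
  calc (L v)⁻¹ * (L v * P s (fun w => (H w)⁻¹) v * L v) * (L v)⁻¹ =
        ((L v)⁻¹ * L v) * P s (fun w => (H w)⁻¹) v * (L v * (L v)⁻¹) := by noncomm_ring
    _ = P s (fun w => (H w)⁻¹) v := by rw [h1, h2, one_mul, mul_one]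

/-- Duality. -/
theorem Pair.inv {ρ : Γ →* Mat m} {s : ℕ} {H L : Vec n → Mat m} (h : Pair ρ s H L) :
    Pair (dual ρ) s (fun v => (H v)⁻¹) (fun v => (L v)⁻¹) :=
  ⟨met_inv h.metH, met_inv h.metL, inv_el h.metH.pos h.metL.pos h.el1,
    inv_el h.metL.pos h.metH.pos h.el2⟩

/-- The identities (ED) of blueprint C5. -/
theorem pair_ed (hn : 1 ≤ n) (hΓ : Coc Γ) (ρ : Γ →* Mat m) : ∃ s₀ : ℕ, ∀ s, s₀ ≤ s →
    ∀ H L : Vec n → Mat m, Pair ρ s H L → ∀ g : SUGroup n,
      P s H (act g (base n)) - L (act g (base n)) =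
        (1 / 2 : ℝ) • ∫ x, kap s x • ((H (act (g * x) (base n)) - L (act g (base n))) *
          (H (act (g * x) (base n)))⁻¹ * (H (act (g * x) (base n)) - L (act g (base n)))) ∂(mu n) := by
  obtain ⟨N, hN⟩ := met_adm hn hΓ ρ
  refine ⟨n + N + 1, fun s hs H L h g => ?_⟩
  obtain ⟨C, hC1, hC2⟩ := hN H h.metH
  obtain ⟨-, e⟩ := quad_int (by omega : n + N < s) hC1 hC2 h.metH.pos (L (act g (base n))) g
  rw [e, h.el1 _ (orbit_mem g)]
  have e2 : P s H (act g (base n)) - (L (act g (base n)) + L (act g (base n))) +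
      P s H (act g (base n)) = (2 : ℝ) • (P s H (act g (base n)) - L (act g (base n))) := by
    rw [two_smul]
    abel
  rw [e2, smul_smul]
  norm_num

private theorem sand_psd {A X : Mat m} (hA : A.PosDef) (hX : X.IsHermitian) :
    (0 : Mat m) ≤ (A - X) * A⁻¹ * (A - X) := by
  have h1 : (A - X)ᴴ = A - X := by
    rw [conjTranspose_sub, hA.1.eq, hX.eq]
  have h2 := hA.inv.posSemidef.conjTranspose_mul_mul_same (A - X)
  rw [h1] at h2
  exact Matrix.nonneg_iff_posSemidef.2 h2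

private theorem int_nonneg_mat {α : Type} [MeasurableSpace α] {ν : Measure α} {A : α → Mat m}
    (hA : Integrable A ν) (h : ∀ x, 0 ≤ A x) : 0 ≤ ∫ x, A x ∂ν := by
  have h1 := integral_mono_mat (A := fun _ : α => (0 : Mat m)) (integrable_zero α (Mat m) ν) hA
    (Eventually.of_forall h)
  rwa [integral_zero] at h1

private theorem smul_nonneg_mat {A : Mat m} {c : ℝ} (hc : 0 ≤ c) (h : 0 ≤ A) : 0 ≤ c • A :=
  Matrix.nonneg_iff_posSemidef.2 ((Matrix.nonneg_iff_posSemidef.1 h).smul hc)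

private theorem pair_le_aux (hn : 1 ≤ n) (hΓ : Coc Γ) (ρ : Γ →* Mat m) : ∃ s₀ : ℕ, ∀ s, s₀ ≤ s →
    ∀ H L : Vec n → Mat m, Pair ρ s H L → ∀ v ∈ Cone n, L v ≤ P s H v := by
  obtain ⟨s₁, h₁⟩ := pair_ed hn hΓ ρ
  obtain ⟨N, hN⟩ := met_adm hn hΓ ρ
  refine ⟨max s₁ (n + N + 1), fun s hs H L h v hv => ?_⟩
  obtain ⟨g, c, hc, rfl⟩ := exists_act_eq hv
  rw [P_smul_left s H hc, h.metL.hom c hc _ (orbit_mem g)]
  have hs1 : s₁ ≤ s := (le_max_left _ _).trans hs
  have hs2 : n + N + 1 ≤ s := (le_max_right _ _).trans hs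
  have e := h₁ s hs1 H L h g
  obtain ⟨C, hC1, hC2⟩ := hN H h.metH
  obtain ⟨i, -⟩ := quad_int (by omega : n + N < s) hC1 hC2 h.metH.pos (L (act g (base n))) g
  rw [← sub_nonneg, e]
  refine smul_nonneg_mat (by norm_num) (int_nonneg_mat i fun x => ?_)
  exact smul_nonneg_mat (kap_nonneg s x)
    (sand_psd (h.metH.pos _ (orbit_mem _)) (h.metL.pos _ (orbit_mem _)).1)

/-- Consequences: `L ≤ P s H` and `L⁻¹ ≤ P s (H⁻¹)`. -/
theorem pair_le (hn : 1 ≤ n) (hΓ : Coc Γ) (ρ : Γ →* Mat m) : ∃ s₀ : ℕ, ∀ s, s₀ ≤ s →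
    ∀ H L : Vec n → Mat m, Pair ρ s H L → ∀ v ∈ Cone n,
      L v ≤ P s H v ∧ H v ≤ P s L v ∧ (L v)⁻¹ ≤ P s (fun w => (H w)⁻¹) v ∧
        (H v)⁻¹ ≤ P s (fun w => (L w)⁻¹) v := by
  obtain ⟨s₁, h₁⟩ := pair_le_aux hn hΓ ρ
  obtain ⟨s₂, h₂⟩ := pair_le_aux hn hΓ (dual ρ)
  refine ⟨max s₁ s₂, fun s hs H L h v hv => ?_⟩
  have hs1 : s₁ ≤ s := (le_max_left _ _).trans hs
  have hs2 : s₂ ≤ s := (le_max_right _ _).trans hs
  exact ⟨h₁ s hs1 H L h v hv, h₁ s hs1 L H h.symm v hv, h₂ s hs2 _ _ h.inv v hv,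
    h₂ s hs2 _ _ h.symm.inv v hv⟩

private theorem half_real (A : Mat m) : (1 / 2 : ℂ) • A = (1 / 2 : ℝ) • A := by
  ext i j
  simp [Matrix.smul_apply]

/-- joint convexity for two points -/
private theorem joint_two {X₁ X₂ Y₁ Y₂ : Mat m} (h₁ : Y₁.PosDef) (h₂ : Y₂.PosDef)
    (hX₁ : X₁.IsHermitian) (hX₂ : X₂.IsHermitian) :
    ((1 / 2 : ℝ) • (X₁ + X₂)) * ((1 / 2 : ℝ) • (Y₁ + Y₂))⁻¹ * ((1 / 2 : ℝ) • (X₁ + X₂)) ≤
      (1 / 2 : ℝ) • (X₁ * Y₁⁻¹ * X₁ + X₂ * Y₂⁻¹ * X₂) := by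
  set X : Mat m := (1 / 2 : ℝ) • (X₁ + X₂) with hX
  set Y : Mat m := (1 / 2 : ℝ) • (Y₁ + Y₂) with hY
  have hYp : Y.PosDef := by
    rw [hY]
    exact (h₁.add h₂).smul (by norm_num)
  have hXh : Xᴴ = X := by
    rw [hX, conjTranspose_smul, conjTranspose_add, hX₁.eq, hX₂.eq, star_trivial]
  have hY1 : Y * Y⁻¹ = 1 := mul_nonsing_inv _ (det_unit hYp)
  have hYh : (Y⁻¹)ᴴ = Y⁻¹ := hYp.inv.1.eq
  set B : Mat m := Y⁻¹ * X with hB
  have hBh : Bᴴ = X * Y⁻¹ := by rw [hB, conjTranspose_mul, hXh, hYh]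
  have e1 : X * Y⁻¹ * X = X * B + Bᴴ * X - Bᴴ * Y * B := by
    rw [hBh, hB]
    calc X * Y⁻¹ * X = X * (Y⁻¹ * X) + X * Y⁻¹ * X - X * Y⁻¹ * X := by noncomm_ring
      _ = X * (Y⁻¹ * X) + X * Y⁻¹ * X - X * (Y⁻¹ * (Y * Y⁻¹)) * X := by rw [hY1, mul_one]
      _ = _ := by noncomm_ring
  have d1 := duality h₁ X₁ B
  have d2 := duality h₂ X₂ B
  rw [hX₁.eq] at d1
  rw [hX₂.eq] at d2
  have e2 : X * B + Bᴴ * X - Bᴴ * Y * B = (1 / 2 : ℝ) •
      ((X₁ * B + Bᴴ * X₁ - Bᴴ * Y₁ * B) + (X₂ * B + Bᴴ * X₂ - Bᴴ * Y₂ * B)) := by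
    rw [hX, hY]
    simp only [smul_mul_assoc, mul_smul_comm, add_mul, mul_add, smul_add, smul_sub]
    abel
  rw [e1, e2, ← sub_nonneg, ← smul_sub]
  exact smul_nonneg_mat (by norm_num) (sub_nonneg.2 (add_le_add d1 d2))

private theorem met_mean {ρ : Γ →* Mat m} {H L : Vec n → Mat m} (hH : Met ρ H) (hL : Met ρ L) :
    Met ρ (fun v => (1 / 2 : ℂ) • (H v + L v)) where
  hom := fun c hc v hv => by
    show (1 / 2 : ℂ) • (H (c • v) + L (c • v)) = _
    rw [hH.hom c hc v hv, hL.hom c hc v hv]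
  cont := (hH.cont.add hL.cont).const_smul (1 / 2 : ℂ)
  pos := fun v hv => by
    show ((1 / 2 : ℂ) • (H v + L v)).PosDef
    rw [half_real]
    exact ((hH.pos v hv).add (hL.pos v hv)).smul (by norm_num)
  equi := fun γ v hv => by
    show (1 / 2 : ℂ) • (H (act (γ : SUGroup n) v) + L (act (γ : SUGroup n) v)) = _
    rw [hH.equi γ v hv, hL.equi γ v hv, mul_smul_comm, smul_mul_assoc, mul_add, add_mul]

private theorem pull (k : ℝ) (A B C : Mat m) : A * (k • B) * C = k • (A * B * C) := by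
  rw [mul_smul_comm, smul_mul_assoc]

/-- The inequality for the mean `M = (H + L)/2`: `P_s M = (1/2) ∫ kap s (L H'⁻¹ L + H L'⁻¹ H)` by `el1`, `el2`, and
joint convexity of `X Y⁻¹ X` (two points) for every `x`. Together with `Pair.inv` it gives the same for
`(H⁻¹ + L⁻¹)/2`. -/
theorem pair_mean (hn : 1 ≤ n) (hΓ : Coc Γ) (ρ : Γ →* Mat m) : ∃ s₀ : ℕ, ∀ s, s₀ ≤ s →
    ∀ H L : Vec n → Mat m, Pair ρ s H L → ∀ v ∈ Cone n,
      ((1 / 2 : ℂ) • (H v + L v)) * P s (fun w => ((1 / 2 : ℂ) • (H w + L w))⁻¹) v *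
          ((1 / 2 : ℂ) • (H v + L v)) ≤
        P s (fun w => (1 / 2 : ℂ) • (H w + L w)) v := by
  obtain ⟨N, hN⟩ := met_adm hn hΓ ρ
  refine ⟨n + N + 1, fun s hs H L h v hv => ?_⟩
  obtain ⟨g, c, hc, rfl⟩ := exists_act_eq hv
  have hs2 : n + N < s := by omega
  rw [P_smul_left s _ hc, P_smul_left s _ hc, h.metH.hom c hc _ (orbit_mem g),
    h.metL.hom c hc _ (orbit_mem g)]
  have hM : Met ρ (fun v => (1 / 2 : ℂ) • (H v + L v)) := met_mean h.metH h.metL
  obtain ⟨C, hC1, hC2⟩ := hN _ hM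
  obtain ⟨CH, hH1, hH2⟩ := hN H h.metH
  obtain ⟨CL, hL1, hL2⟩ := hN L h.metL
  have i1 := int_adm hs2 hH1 g
  have i2 := int_adm hs2 hL1 g
  have i3 := int_adm hs2 hH2 g
  have i4 := int_adm hs2 hL2 g
  have i5 := int_adm hs2 hC2 g
  obtain ⟨j3, e3⟩ := int_sand i3 (L (act g (base n)))
  obtain ⟨j4, e4⟩ := int_sand i4 (H (act g (base n)))
  obtain ⟨j5, e5⟩ := int_sand i5 ((1 / 2 : ℂ) • (H (act g (base n)) + L (act g (base n))))
  have eP : P s (fun w => (1 / 2 : ℂ) • (H w + L w)) (act g (base n)) =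
      (1 / 2 : ℝ) • (P s H (act g (base n)) + P s L (act g (base n))) := by
    rw [P_orbit, P_orbit, P_orbit, ← integral_add i1 i2, ← integral_smul]
    congr 1
    funext x
    show kap s x • ((1 / 2 : ℂ) • (H (act (g * x) (base n)) + L (act (g * x) (base n)))) = _
    rw [half_real, smul_comm, smul_add (kap s x)]
  rw [eP, ← h.el1 _ (orbit_mem g), ← h.el2 _ (orbit_mem g), P_orbit, P_orbit, P_orbit]
  rw [← e3, ← e4, ← e5, ← integral_add j3 j4, ← integral_smul]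
  refine integral_mono_mat j5 ((j3.add j4).smul (1 / 2 : ℝ)) (Eventually.of_forall fun x => ?_)
  have pH := h.metH.pos _ (orbit_mem (g * x))
  have pL := h.metL.pos _ (orbit_mem (g * x))
  have pH0 := h.metH.pos _ (orbit_mem g)
  have pL0 := h.metL.pos _ (orbit_mem g)
  have hj := joint_two pH pL pL0.1 pH0.1
  show ((1 / 2 : ℂ) • (H (act g (base n)) + L (act g (base n)))) *
      (kap s x • ((1 / 2 : ℂ) • (H (act (g * x) (base n)) + L (act (g * x) (base n))))⁻¹) *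
      ((1 / 2 : ℂ) • (H (act g (base n)) + L (act g (base n)))) ≤
    (1 / 2 : ℝ) • (L (act g (base n)) * (kap s x • (H (act (g * x) (base n)))⁻¹) *
      L (act g (base n)) + H (act g (base n)) * (kap s x • (L (act (g * x) (base n)))⁻¹) *
      H (act g (base n)))
  rw [half_real, half_real, pull (kap s x), pull (kap s x) (L (act g (base n))),
    pull (kap s x) (H (act g (base n))), ← smul_add, smul_comm (1 / 2 : ℝ),
    add_comm (H (act g (base n))), ← sub_nonneg, ← smul_sub]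
  exact smul_nonneg_mat (kap_nonneg s x) (sub_nonneg.2 hj)

/-! ### Energy -/

private theorem inner_eq {s N : ℕ} (hs : n + N < s) {C C' : ℝ} {H L : Vec n → Mat m}
    (hH : Adm N C H) (hH' : Adm N C' (fun v => (H v)⁻¹)) (g : SUGroup n) :
    ∫ x, kap s x * sig (L (act g (base n))) (H (act (g * x) (base n))) ∂(mu n) =
      (((L (act g (base n)))⁻¹ * P s H (act g (base n))).trace +
        (P s (fun w => (H w)⁻¹) (act g (base n)) * L (act g (base n))).trace).re - 2 * m := by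
  obtain ⟨i1, e1⟩ := int_tr (int_adm hs hH g) (L (act g (base n)))⁻¹
  obtain ⟨i2, e2⟩ := int_tr (int_adm hs hH' g) (L (act g (base n)))
  have i3 : Integrable (fun x : SUGroup n => kap s x * (2 * (m : ℝ))) (mu n) :=
    (integrable_kap (by omega)).mul_const _
  have e : ∀ x : SUGroup n, kap s x * sig (L (act g (base n))) (H (act (g * x) (base n))) =
      ((L (act g (base n)))⁻¹ * (kap s x • H (act (g * x) (base n)))).trace.re +
      (L (act g (base n)) * (kap s x • (H (act (g * x) (base n)))⁻¹)).trace.re -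
      kap s x * (2 * (m : ℝ)) := by
    intro x
    unfold sig
    rw [mul_smul_comm, mul_smul_comm, trace_smul, trace_smul, Complex.real_smul,
      Complex.real_smul, Complex.re_ofReal_mul, Complex.re_ofReal_mul, Complex.add_re,
      trace_mul_comm (H (act (g * x) (base n)))⁻¹]
    ring
  simp_rw [e]
  have i12 : Integrable (fun x : SUGroup n =>
      ((L (act g (base n)))⁻¹ * (kap s x • H (act (g * x) (base n)))).trace.re +
      (L (act g (base n)) * (kap s x • (H (act (g * x) (base n)))⁻¹)).trace.re) (mu n) := i1.add i2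
  rw [integral_sub i12 i3, integral_add i1 i2, e1, e2, ← P_orbit, integral_mul_const,
    integral_kap (by omega), one_mul, Complex.add_re,
    trace_mul_comm (P s (fun w => (H w)⁻¹) (act g (base n)))]
  rw [P_orbit s (fun w => (H w)⁻¹) g]

/-- Energy and functional: `Es = JJ - 2 m II 1`. -/
theorem Es_eq (hn : 1 ≤ n) (hΓ : Coc Γ) {χ : SUGroup n → ℝ} (hχ : Cut Γ χ) (ρ : Γ →* Mat m) :
    ∃ s₀ : ℕ, ∀ s, s₀ ≤ s → ∀ H L : Vec n → Mat m, Met ρ H → Met ρ L →
      Es χ s H L = JJ χ s H L - 2 * m * II χ (fun _ => (1 : ℝ)) := by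
  obtain ⟨N, hN⟩ := met_adm hn hΓ ρ
  obtain ⟨s₁, h₁⟩ := met_P hn hΓ ρ
  refine ⟨max s₁ (n + N + 1), fun s hs H L hH hL => ?_⟩
  have hs1 : s₁ ≤ s := (le_max_left _ _).trans hs
  have hs2 : n + N < s := lt_of_lt_of_le (Nat.lt_succ_self _) ((le_max_right _ _).trans hs)
  obtain ⟨C, hC1, hC2⟩ := hN H hH
  obtain ⟨m1, -, m2, -⟩ := h₁ s hs1 H hH
  set Φ : SUGroup n → ℝ := fun g => (((L (act g (base n)))⁻¹ * P s H (act g (base n))).trace +
    (P s (fun w => (H w)⁻¹) (act g (base n)) * L (act g (base n))).trace).re with hΦ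
  have c1 : Continuous fun g : SUGroup n => P s H (act g (base n)) :=
    m1.cont.comp_continuous continuous_orbit fun g => orbit_mem g
  have c2 : Continuous fun g : SUGroup n => P s (fun w => (H w)⁻¹) (act g (base n)) :=
    m2.cont.comp_continuous continuous_orbit fun g => orbit_mem g
  have c3 : Continuous fun g : SUGroup n => L (act g (base n)) :=
    hL.cont.comp_continuous continuous_orbit fun g => orbit_mem g
  have c4 : Continuous fun g : SUGroup n => (L (act g (base n)))⁻¹ :=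
    (met_inv hL).cont.comp_continuous continuous_orbit fun g => orbit_mem g
  have cΦ : Continuous Φ :=
    Complex.continuous_re.comp ((c4.mul c1).matrix_trace.add (c2.mul c3).matrix_trace)
  have iΦ : Integrable (fun g => χ g • Φ g) (mu n) :=
    (hχ.cont.smul cΦ).integrable_of_hasCompactSupport hχ.supp.smul_right
  have i1 : Integrable (fun g => 2 * (m : ℝ) * (χ g • (1 : ℝ))) (mu n) := by
    simp only [smul_eq_mul, mul_one]
    exact hχ.integrable.const_mul _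
  show ∫ g, χ g • (∫ x, kap s x * sig (L (act g (base n))) (H (act (g * x) (base n))) ∂(mu n))
    ∂(mu n) = ∫ g, χ g • Φ g ∂(mu n) - 2 * m * ∫ g, χ g • (1 : ℝ) ∂(mu n)
  rw [← integral_const_mul, ← integral_sub iΦ i1]
  congr 1
  funext g
  rw [inner_eq hs2 hC1 hC2 g]
  simp only [hΦ, smul_eq_mul]
  ring

theorem Es_symm (hn : 1 ≤ n) (hΓ : Coc Γ) {χ : SUGroup n → ℝ} (hχ : Cut Γ χ) (ρ : Γ →* Mat m) :
    ∃ s₀ : ℕ, ∀ s, s₀ ≤ s → ∀ H L : Vec n → Mat m, Met ρ H → Met ρ L →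
      Es χ s H L = Es χ s L H := by
  obtain ⟨s₁, h₁⟩ := Es_eq hn hΓ hχ ρ
  obtain ⟨s₂, h₂⟩ := JJ_symm hn hΓ hχ ρ
  refine ⟨max s₁ s₂, fun s hs H L hH hL => ?_⟩
  have hs1 : s₁ ≤ s := (le_max_left _ _).trans hs
  have hs2 : s₂ ≤ s := (le_max_right _ _).trans hs
  rw [h₁ s hs1 H L hH hL, h₁ s hs1 L H hL hH, h₂ s hs2 H L hH hL]

/-- `w ^ a - w ^ (-a)` against `ch` -/
private theorem wt_pow_le (a : ℕ) (x : SUGroup n) :
    (wt x ^ a - (wt x)⁻¹ ^ a) ^ 2 ≤ 4 * (a : ℝ) ^ 2 * 4 ^ a * (ch x ^ (2 * a) * (ch x ^ 2 - 1)) := by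
  have hc : 1 ≤ ch x := one_le_ch x
  have hw : 1 ≤ wt x := one_le_wt x
  have hw0 : 0 < wt x := by linarith
  have hd : 0 ≤ ch x ^ 2 - 1 := by nlinarith
  have hsq : Real.sqrt (ch x ^ 2 - 1) ^ 2 = ch x ^ 2 - 1 := Real.sq_sqrt hd
  have hr : (wt x)⁻¹ = ch x - Real.sqrt (ch x ^ 2 - 1) := by
    refine inv_eq_of_mul_eq_one_right ?_
    unfold wt
    nlinarith
  have hr1 : (wt x)⁻¹ ≤ 1 := inv_le_one_of_one_le₀ hw
  have hr0 : 0 ≤ (wt x)⁻¹ := by positivity
  have e1 : wt x - (wt x)⁻¹ = 2 * Real.sqrt (ch x ^ 2 - 1) := by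
    rw [hr]
    unfold wt
    ring
  have h1 : ∑ i ∈ Finset.range a, wt x ^ i * (wt x)⁻¹ ^ (a - 1 - i) ≤ a * wt x ^ a := by
    calc ∑ i ∈ Finset.range a, wt x ^ i * (wt x)⁻¹ ^ (a - 1 - i) ≤
          ∑ i ∈ Finset.range a, wt x ^ a := by
          refine Finset.sum_le_sum fun i hi => ?_
          have h2 : (wt x)⁻¹ ^ (a - 1 - i) ≤ 1 := pow_le_one₀ hr0 hr1
          have h3 : wt x ^ i ≤ wt x ^ a := pow_le_pow_right₀ hw (Finset.mem_range.1 hi).le
          calc wt x ^ i * (wt x)⁻¹ ^ (a - 1 - i) ≤ wt x ^ i * 1 :=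
                mul_le_mul_of_nonneg_left h2 (by positivity)
            _ ≤ wt x ^ a := by rw [mul_one]; exact h3
      _ = a * wt x ^ a := by rw [Finset.sum_const, Finset.card_range, nsmul_eq_mul]
  have h0 : 0 ≤ ∑ i ∈ Finset.range a, wt x ^ i * (wt x)⁻¹ ^ (a - 1 - i) :=
    Finset.sum_nonneg fun i _ => by positivity
  have e2 : wt x ^ a - (wt x)⁻¹ ^ a =
      (∑ i ∈ Finset.range a, wt x ^ i * (wt x)⁻¹ ^ (a - 1 - i)) * (wt x - (wt x)⁻¹) :=
    (geom_sum₂_mul _ _ _).symm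
  have h4 : wt x ^ a ≤ (2 * ch x) ^ a := pow_le_pow_left₀ hw0.le (wt_le x) a
  have h5 : (∑ i ∈ Finset.range a, wt x ^ i * (wt x)⁻¹ ^ (a - 1 - i)) ^ 2 ≤
      (a * (2 * ch x) ^ a) ^ 2 :=
    pow_le_pow_left₀ h0 (h1.trans (mul_le_mul_of_nonneg_left h4 (Nat.cast_nonneg _))) 2
  rw [e2, mul_pow, e1, mul_pow 2, hsq]
  calc (∑ i ∈ Finset.range a, wt x ^ i * (wt x)⁻¹ ^ (a - 1 - i)) ^ 2 * (2 ^ 2 * (ch x ^ 2 - 1))
      ≤ (a * (2 * ch x) ^ a) ^ 2 * (2 ^ 2 * (ch x ^ 2 - 1)) :=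
        mul_le_mul_of_nonneg_right h5 (by positivity)
    _ = 4 * (a : ℝ) ^ 2 * 4 ^ a * (ch x ^ (2 * a) * (ch x ^ 2 - 1)) := by
        have e4 : (4 : ℝ) ^ a = (2 ^ a) ^ 2 := by
          rw [← pow_mul, mul_comm a 2, pow_mul]
          norm_num
        have e5 : ch x ^ (2 * a) = (ch x ^ a) ^ 2 := by rw [← pow_mul, mul_comm a 2]
        rw [mul_pow (2 : ℝ) (ch x) a, e4, e5]
        ring

private theorem sig_harn {ρ : Γ →* Mat m} {a : ℕ} {H : Vec n → Mat m} (hH : Met ρ H)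
    (h : Harn (2 * a) H) (g x : SUGroup n) :
    sig (H (act g (base n))) (H (act (g * x) (base n))) ≤
      m * (4 * (a : ℝ) ^ 2 * 4 ^ a) * (ch x ^ (2 * a) * (ch x ^ 2 - 1)) := by
  have hw : 1 ≤ wt x := one_le_wt x
  have hw0 : 0 < wt x := by linarith
  set t : ℝ := 2 * a * Real.log (wt x) with ht
  have ht0 : 0 ≤ t := by
    have := Real.log_nonneg hw
    positivity
  have et : Real.exp t = wt x ^ (2 * a) := by
    rw [ht, show 2 * (a : ℝ) * Real.log (wt x) = ((2 * a : ℕ) : ℝ) * Real.log (wt x) by push_cast; ring,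
      Real.exp_nat_mul, Real.exp_log hw0]
  have e1 : (Real.exp t : ℂ) = (wt x : ℂ) ^ (2 * a) := by
    rw [et]
    push_cast
    rfl
  have h2 : H (act (g * x) (base n)) ≤ (Real.exp t : ℂ) • H (act g (base n)) := by
    rw [e1]
    exact h g x
  have h1 : H (act g (base n)) ≤ (Real.exp t : ℂ) • H (act (g * x) (base n)) := by
    rw [e1]
    have h3 := h (g * x) x⁻¹
    rwa [mul_inv_cancel_right, wt_inv] at h3
  have h4 := sig_le ht0 (hH.pos _ (orbit_mem g)) (hH.pos _ (orbit_mem (g * x))) h1 h2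
  have e2 : Real.exp (t / 2) = wt x ^ a := by
    rw [ht, show 2 * (a : ℝ) * Real.log (wt x) / 2 = ((a : ℕ) : ℝ) * Real.log (wt x) by ring,
      Real.exp_nat_mul, Real.exp_log hw0]
  have e3 : Real.exp (-(t / 2)) = (wt x)⁻¹ ^ a := by
    rw [Real.exp_neg, e2, inv_pow]
  rw [e2, e3] at h4
  refine h4.trans ?_
  rw [mul_assoc (m : ℝ)]
  exact mul_le_mul_of_nonneg_left (wt_pow_le a x) (Nat.cast_nonneg _)

/-- Energy of a metric with the Harnack property: `sig ≤ m (wt^a' - wt^(-a'))²`, `a = 2 a'`, which is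
at most `C ch^(2a) (ch² - 1)`, and `moment_one`. -/
theorem Es_le (hn : 1 ≤ n) (hΓ : Coc Γ) {χ : SUGroup n → ℝ} (hχ : Cut Γ χ) (ρ : Γ →* Mat m)
    (a : ℕ) : ∃ (s₀ : ℕ) (C : ℝ), ∀ s, s₀ ≤ s → ∀ H : Vec n → Mat m, Met ρ H → Harn (2 * a) H →
      Es χ s H H ≤ C / s := by
  obtain ⟨C₁, hC₁, h₁⟩ := mom_le n a 1
  set K : ℝ := m * (4 * (a : ℝ) ^ 2 * 4 ^ a) with hK
  have hK0 : 0 ≤ K := by positivity
  refine ⟨n + a + 1 + 1, K * C₁ * II χ (fun _ => (1 : ℝ)), fun s hs H hH hh => ?_⟩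
  have hs1 : n + a + 1 < s := by omega
  have hs0 : (0 : ℝ) < s := by exact_mod_cast (by omega : 0 < s)
  have hinner : ∀ g : SUGroup n, 0 ≤ ∫ x, kap s x * sig (H (act g (base n)))
      (H (act (g * x) (base n))) ∂(mu n) ∧
      ∫ x, kap s x * sig (H (act g (base n))) (H (act (g * x) (base n))) ∂(mu n) ≤
        K * C₁ / s := by
    intro g
    have hp : ∀ x : SUGroup n, 0 ≤ kap s x * sig (H (act g (base n)))
        (H (act (g * x) (base n))) := fun x =>
      mul_nonneg (kap_nonneg s x) (sig_nonneg (hH.pos _ (orbit_mem g)) (hH.pos _ (orbit_mem _)))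
    refine ⟨integral_nonneg hp, ?_⟩
    have hi : Integrable (fun x : SUGroup n =>
        K * (kap s x * (ch x ^ (2 * a) * (ch x ^ 2 - 1) ^ 1))) (mu n) :=
      (integrable_mom hs1).const_mul K
    calc ∫ x, kap s x * sig (H (act g (base n))) (H (act (g * x) (base n))) ∂(mu n)
        ≤ ∫ x, K * (kap s x * (ch x ^ (2 * a) * (ch x ^ 2 - 1) ^ 1)) ∂(mu n) := by
          refine integral_mono_of_nonneg (Eventually.of_forall hp) hi
            (Eventually.of_forall fun x => ?_)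
          have h2 := mul_le_mul_of_nonneg_left (sig_harn hH hh g x) (kap_nonneg s x)
          calc kap s x * sig (H (act g (base n))) (H (act (g * x) (base n))) ≤ _ := h2
            _ = K * (kap s x * (ch x ^ (2 * a) * (ch x ^ 2 - 1) ^ 1)) := by
                rw [pow_one, hK]
                ring
      _ = K * ∫ x, kap s x * (ch x ^ (2 * a) * (ch x ^ 2 - 1) ^ 1) ∂(mu n) :=
          integral_const_mul _ _
      _ ≤ K * (C₁ / s ^ 1) := mul_le_mul_of_nonneg_left (h₁ s hs1) hK0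
      _ = K * C₁ / s := by rw [pow_one]; ring
  calc Es χ s H H = ∫ g, χ g • (∫ x, kap s x * sig (H (act g (base n)))
        (H (act (g * x) (base n))) ∂(mu n)) ∂(mu n) := rfl
    _ ≤ ∫ g, (K * C₁ / s) * (χ g • (1 : ℝ)) ∂(mu n) := by
        refine integral_mono_of_nonneg (Eventually.of_forall fun g => ?_) ?_
          (Eventually.of_forall fun g => ?_)
        · exact smul_nonneg (hχ.nonneg g) (hinner g).1
        · simp only [smul_eq_mul, mul_one]
          exact hχ.integrable.const_mul _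
        · show χ g • (∫ x, kap s x * sig (H (act g (base n)))
            (H (act (g * x) (base n))) ∂(mu n)) ≤ (K * C₁ / s) * (χ g • (1 : ℝ))
          rw [smul_eq_mul, smul_eq_mul, mul_one, mul_comm (K * C₁ / s)]
          exact mul_le_mul_of_nonneg_left (hinner g).2 (hχ.nonneg g)
    _ = K * C₁ * II χ (fun _ => (1 : ℝ)) / s := by
        rw [integral_const_mul]
        show K * C₁ / s * II χ (fun _ => (1 : ℝ)) = _
        ring

private theorem harn_mono {ρ : Γ →* Mat m} {a b : ℕ} (hab : a ≤ b) {H : Vec n → Mat m}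
    (hH : Met ρ H) (h : Harn a H) : Harn b H := by
  intro g x
  refine (h g x).trans ?_
  rw [← sub_nonneg, ← sub_smul]
  have e : (wt x : ℂ) ^ b - (wt x : ℂ) ^ a = ((wt x ^ b - wt x ^ a : ℝ) : ℂ) := by push_cast; rfl
  rw [e]
  have h1 : 0 ≤ wt x ^ b - wt x ^ a := sub_nonneg.2 (pow_le_pow_right₀ (one_le_wt x) hab)
  have h2 := smul_nonneg_mat h1 (Matrix.nonneg_iff_posSemidef.2
    (hH.pos _ (orbit_mem g)).posSemidef)
  have e2 : (((wt x ^ b - wt x ^ a : ℝ) : ℂ)) • H (act g (base n)) =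
      (wt x ^ b - wt x ^ a) • H (act g (base n)) := by
    ext i j
    simp [Matrix.smul_apply]
  rw [e2]
  exact h2

/-- RESULT OF THE LEVEL `s` PART. -/
theorem exists_pairs (hn : 1 ≤ n) (hm : 0 < m) (hΓ : Coc Γ) {χ : SUGroup n → ℝ} (hχ : Cut Γ χ)
    (ρ : Γ →* Mat m) (hρ : Submodule.span ℂ (Set.range ρ) = ⊤) :
    ∃ (s₀ : ℕ) (C : ℝ), ∀ s, s₀ ≤ s → ∃ H L : Vec n → Mat m, Pair ρ s H L ∧
      Es χ s H L ≤ C / s := by
  obtain ⟨H₁, hH₁⟩ := exists_met hΓ ρ
  obtain ⟨s₁, h₁⟩ := met_P hn hΓ ρ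
  obtain ⟨m0, harn0, -, -⟩ := h₁ s₁ le_rfl H₁ hH₁
  obtain ⟨s₂, C, h₂⟩ := Es_le hn hΓ hχ ρ s₁
  obtain ⟨s₃, h₃⟩ := exists_pair hn hm hΓ hχ ρ hρ
  obtain ⟨s₄, h₄⟩ := Es_eq hn hΓ hχ ρ
  refine ⟨max (max s₁ s₂) (max s₃ s₄), C, fun s hs => ?_⟩
  have hs1 : s₁ ≤ s := ((le_max_left _ _).trans (le_max_left _ _)).trans hs
  have hs2 : s₂ ≤ s := ((le_max_right _ _).trans (le_max_left _ _)).trans hs
  have hs3 : s₃ ≤ s := ((le_max_left _ _).trans (le_max_right _ _)).trans hs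
  have hs4 : s₄ ≤ s := ((le_max_right _ _).trans (le_max_right _ _)).trans hs
  obtain ⟨H, L, hp, hJ⟩ := h₃ s hs3 (P s₁ H₁) m0 (harn_mono (by omega) m0 harn0)
  refine ⟨H, L, hp, ?_⟩
  have e1 := h₄ s hs4 H L hp.metH hp.metL
  have e2 := h₄ s hs4 (P s₁ H₁) (P s₁ H₁) m0 m0
  have e3 := h₂ s hs2 (P s₁ H₁) m0 harn0
  linarith

end Pool.Agent.Lib.MP_5d4057_al.HM
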