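import Pool.Agent.Lib.MP_5d4057_al.HM.Boot
import Pool.Agent.Lib.MP_5d4057_al.HM.LevC

/-! The uniform bound for critical pairs (blueprint D5, D6). -/

set_option autoImplicit false

namespace Pool.Agent.Lib.MP_5d4057_al.HM

open Matrix MeasureTheory Filter Topology Pool.Agent.Lib.MP_5d4057_al Pool.Agent.Lib.MP_5d4057_al.Hyb

open scoped ComplexOrder MatrixOrder Matrix.Norms.L2Operator

variable {n m : ℕ} {Γ : Subgroup (SUGroup n)}

theorem Boot.Q_eq_P (s : ℕ) (U : Vec n → ℝ) (g : SUGroup n) :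
    Boot.Q s (fun g => U (act g (base n))) g = P s U (act g (base n)) := by
  rw [P_orbit]
  rfl

/-- the trace as a continuous linear map -/
noncomputable def Boot.trL (m : ℕ) : Mat m →L[ℝ] ℝ :=
  LinearMap.toContinuousLinearMap
    { toFun := fun A : Mat m => A.trace.re
      map_add' := fun A B => by rw [trace_add, Complex.add_re]
      map_smul' := fun r A => by
        rw [RingHom.id_apply, trace_smul, Complex.real_smul, smul_eq_mul, Complex.mul_re,
          Complex.ofReal_re, Complex.ofReal_im, zero_mul, sub_zero] }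

theorem Boot.trL_apply (A : Mat m) : Boot.trL m A = A.trace.re := rfl

theorem Boot.lap_congr {f f' : Vec n → ℝ} (h : ∀ v ∈ Cone n, f v = f' v) {v : Vec n}
    (hv : v ∈ Cone n) : Lap f v = Lap f' v := by
  have h1 : f =ᶠ[𝓝 v] f' := by
    filter_upwards [(isOpen_cone n).mem_nhds hv] with w hw
    exact h w hw
  have h2 : fderiv ℝ f =ᶠ[𝓝 v] fderiv ℝ f' := h1.fderiv
  unfold Lap
  rw [h2.fderiv_eq]

/-- RESULT of blueprint D5, D6: critical pairs whose trace is bounded in measure are uniformly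
bounded. -/
theorem boot_pair (hn : 1 ≤ n) (hΓ : Coc Γ) (ρ : Γ →* Mat m) : ∃ N s₁ : ℕ,
    ∀ ψ : ℝ → ℝ → ℝ, (∀ R, Tendsto (ψ R) atTop (𝓝 0)) → ∃ C : ℝ, 0 < C ∧
      ∀ s, s₁ ≤ s → ∀ H L : Vec n → Mat m, Pair ρ s H L →
        (∀ R T, (mu n).real {g | ch g ≤ R ∧
          T < (H (act g (base n)) + L (act g (base n))).trace.re} ≤ ψ R T) →
        ∀ g : SUGroup n, (H (act g (base n)) + L (act g (base n))).trace.re ≤
          C * ch g ^ (2 * N) := by
  obtain ⟨F, N, C₀, hF, hcov, hC₀, hgrow⟩ := equi_growth hn hΓ ρ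
  have hne : F.Nonempty := by
    obtain ⟨γ, -, h⟩ := hcov 1
    exact ⟨_, h⟩
  obtain ⟨s1, h1⟩ := met_P hn hΓ ρ
  obtain ⟨s2, h2⟩ := pair_le hn hΓ ρ
  obtain ⟨s3, h3⟩ := P_comm (E := ℝ) hn N
  obtain ⟨s4, h4⟩ := lap_P (E := ℝ) hn N
  obtain ⟨s5, h5⟩ := P_bound (E := ℝ) n N
  obtain ⟨s6, h6⟩ := P_clm (E := Mat m) (E' := ℝ) n N
  obtain ⟨s7, h7⟩ := P_add (E := Mat m) n N
  obtain ⟨A, hA⟩ : ∃ A, A = 2 * (2 * n + 2) + 4 * N + 2 + (s1 + s2 + s3 + s4 + s5 + s6 + s7) :=
    ⟨_, rfl⟩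
  refine ⟨N, A, fun ψ hψ => ?_⟩
  obtain ⟨C₁, hC₁, key⟩ := Boot.boot_six (Boot.csOK n) (N := N) (A := A) (by omega) hF hne hC₀ hψ
  refine ⟨C₁, hC₁, fun s hs H L hHL hvol => ?_⟩
  -- the sum
  obtain ⟨M, hM⟩ : ∃ M : Vec n → Mat m, M = fun v => H v + L v := ⟨_, rfl⟩
  have hMet : Met ρ M := by
    rw [hM]
    refine ⟨fun c hc v hv => ?_, ?_, fun v hv => ?_, fun γ v hv => ?_⟩
    · beta_reduce
      rw [hHL.metH.hom c hc v hv, hHL.metL.hom c hc v hv]
    · exact hHL.metH.cont.add hHL.metL.cont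
    · exact (hHL.metH.pos v hv).add (hHL.metL.pos v hv)
    · beta_reduce
      rw [hHL.metH.equi γ v hv, hHL.metL.equi γ v hv, Matrix.mul_add, Matrix.add_mul]
  obtain ⟨U, hU⟩ : ∃ U : Vec n → ℝ, U = fun v => (M v).trace.re := ⟨_, rfl⟩
  obtain ⟨u, hu⟩ : ∃ u : SUGroup n → ℝ, u = fun g => U (act g (base n)) := ⟨_, rfl⟩
  have hug : ∀ g, u g = (M (act g (base n))).trace.re := fun g => by rw [hu, hU]
  have hUc : ContinuousOn U (Cone n) := by
    rw [hU]
    exact (Boot.trL m).continuous.comp_continuousOn hMet.cont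
  have huc : Continuous u := by
    rw [hu]
    exact continuous_orbit_of hUc
  have hpsd : ∀ v ∈ Cone n, (M v).PosSemidef := fun v hv => (hMet.pos v hv).posSemidef
  have hu0 : ∀ g, 0 ≤ u g := by
    intro g
    rw [hug]
    have h := (hpsd _ (orbit_mem g)).trace_nonneg
    exact (Complex.le_def.1 h).1
  have huK : ∀ g k, ch k = 1 → u (g * k) = u g := by
    intro g k hk
    obtain ⟨c, hc1, hc2⟩ := (ch_eq_one_iff k).1 hk
    have hc0 : c ≠ 0 := by
      intro h
      rw [h, norm_zero] at hc1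
      exact zero_ne_one hc1
    rw [hug, hug, act_mul, hc2, act_smul, hMet.hom c hc0 _ (orbit_mem g)]
  have hg0 : ∀ K, (∀ g ∈ F, u g ≤ K) → ∀ g, u g ≤ C₀ * K * ch g ^ (2 * N) := by
    intro K hK g
    rw [hug]
    exact hgrow M K hMet.equi hpsd (fun g hg => by
      rw [← hug]
      exact hK g hg) g
  -- growth
  obtain ⟨B, hB⟩ : ∃ B : ℝ, ∀ g ∈ F, u g ≤ B := by
    obtain ⟨y, -, hy⟩ := hF.exists_isMaxOn hne huc.continuousOn
    exact ⟨u y, fun g hg => hy hg⟩
  have hAdmU : Adm N (C₀ * B) U := by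
    refine ⟨?_, fun g => ?_⟩
    · have : (fun y : SUGroup n => U (act y (base n))) = u := by rw [hu]
      rw [this]
      exact huc.aestronglyMeasurable
    · have e : U (act g (base n)) = u g := by rw [hu]
      rw [e, Real.norm_eq_abs, abs_of_nonneg (hu0 g)]
      exact hg0 B hB g
  have hAdmM : Adm N (C₀ * B) M := by
    refine ⟨?_, fun g => ?_⟩
    · exact (continuous_orbit_of hMet.cont).aestronglyMeasurable
    · refine (norm_le_trace (hpsd _ (orbit_mem g))).trans ?_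
      rw [← hug]
      exact hg0 B hB g
  have hAdmHL : Adm N (C₀ * B) H ∧ Adm N (C₀ * B) L := by
    have hle : ∀ g, (H (act g (base n))).trace.re ≤ u g ∧ (L (act g (base n))).trace.re ≤ u g := by
      intro g
      have a1 := (Complex.le_def.1 (hHL.metH.pos _ (orbit_mem g)).posSemidef.trace_nonneg).1
      have a2 := (Complex.le_def.1 (hHL.metL.pos _ (orbit_mem g)).posSemidef.trace_nonneg).1
      rw [Complex.zero_re] at a1 a2
      rw [hug, hM]
      beta_reduce
      rw [trace_add, Complex.add_re]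
      constructor <;> linarith
    constructor
    · refine ⟨(continuous_orbit_of hHL.metH.cont).aestronglyMeasurable, fun g => ?_⟩
      exact ((norm_le_trace (hHL.metH.pos _ (orbit_mem g)).posSemidef).trans (hle g).1).trans
        (hg0 B hB g)
    · refine ⟨(continuous_orbit_of hHL.metL.cont).aestronglyMeasurable, fun g => ?_⟩
      exact ((norm_le_trace (hHL.metL.pos _ (orbit_mem g)).posSemidef).trans (hle g).2).trans
        (hg0 B hB g)
  have hPtr : ∀ a, A ≤ a → ∀ v ∈ Cone n, P a U v = (P a M v).trace.re := by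
    intro a ha v hv
    have h := h6 a (by omega) (C₀ * B) M (Boot.trL m) hAdmM v hv
    rw [Boot.trL_apply] at h
    rw [← h, hU]
    rfl
  have hQP : ∀ a g, Boot.Q a u g = P a U (act g (base n)) := by
    intro a g
    rw [hu, Boot.Q_eq_P]
  have hg1 : ∀ K, (∀ g ∈ F, Boot.Q A u g ≤ K) → ∀ g, Boot.Q A u g ≤ C₀ * K * ch g ^ (2 * N) := by
    intro K hK g
    obtain ⟨hP, -, -, -⟩ := h1 A (by omega) M hMet
    rw [hQP, hPtr A le_rfl _ (orbit_mem g)]
    refine hgrow (P A M) K hP.equi (fun v hv => (hP.pos v hv).posSemidef) (fun g hg => ?_) g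
    have h := hK g hg
    rwa [hQP, hPtr A le_rfl _ (orbit_mem g)] at h
  have hQQ : ∀ a b g, Boot.Q a (Boot.Q b u) g = P a (P b U) (act g (base n)) := by
    intro a b g
    have e : Boot.Q b u = fun g => P b U (act g (base n)) := funext fun g => hQP b g
    rw [e, Boot.Q_eq_P]
  have hcomm : ∀ a b, A ≤ a → A ≤ b → ∀ g, Boot.Q a (Boot.Q b u) g = Boot.Q b (Boot.Q a u) g := by
    intro a b ha hb g
    rw [hQQ, hQQ]
    exact h3 a b (by omega) (by omega) _ U hAdmU _ (orbit_mem g)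
  have hlap : ∀ a b, A ≤ a → A ≤ b → ∀ g,
      lam n a * (Boot.Q a (Boot.Q b u) g - Boot.Q (a + 1) (Boot.Q b u) g) =
        lam n b * (Boot.Q a (Boot.Q b u) g - Boot.Q a (Boot.Q (b + 1) u) g) := by
    intro a b ha hb g
    have hv := orbit_mem (n := n) g
    have e1 := h4 a (by omega) _ (P b U) (h5 b (by omega) _ U hAdmU) _ hv
    have e2 := h4 b (by omega) _ (P a U) (h5 a (by omega) _ U hAdmU) _ hv
    have e3 := Boot.lap_congr (fun w hw => h3 a b (by omega) (by omega) _ U hAdmU w hw) hv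
    have e4 := h3 a b (by omega) (by omega) _ U hAdmU _ hv
    have e5 := h3 a (b + 1) (by omega) (by omega) _ U hAdmU _ hv
    simp only [hQQ]
    rw [e1, e2, smul_eq_mul, smul_eq_mul, ← e4, ← e5] at e3
    exact e3
  have hsub : ∀ g, u g ≤ Boot.Q s u g := by
    intro g
    have hv := orbit_mem (n := n) g
    obtain ⟨k1, k2, -, -⟩ := h2 s (by omega) H L hHL _ hv
    have e := h7 s (by omega) _ _ H L hAdmHL.1 hAdmHL.2 _ hv
    rw [hQP, hPtr s hs _ hv, hug, hM]
    beta_reduce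
    rw [e]
    have t1 := (Complex.le_def.1 (Matrix.le_iff.1 k1).trace_nonneg).1
    have t2 := (Complex.le_def.1 (Matrix.le_iff.1 k2).trace_nonneg).1
    rw [trace_sub, Complex.sub_re, Complex.zero_re] at t1 t2
    rw [trace_add, trace_add, Complex.add_re, Complex.add_re]
    linarith
  have hvol' : ∀ R T, (mu n).real {g | ch g ≤ R ∧ T < u g} ≤ ψ R T := by
    intro R T
    have h := hvol R T
    have e : {g : SUGroup n | ch g ≤ R ∧ T < (H (act g (base n)) + L (act g (base n))).trace.re} =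
        {g | ch g ≤ R ∧ T < u g} := by
      ext g
      simp only [Set.mem_ofPred_eq]
      rw [hug, hM]
    rwa [e] at h
  intro g
  have h := key s u hs huc hu0 huK hg0 hg1 hvol' hcomm hlap hsub g
  rw [hug, hM] at h
  exact h

end Pool.Agent.Lib.MP_5d4057_al.HM
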