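import Pool.Agent.Lib.MP_5d4057_al.HM.Cut
import Pool.Agent.Lib.MP_5d4057_al.HM.Thompson

/-!
The `L²` norm over the quotient of `G` by `Γ` and the displacement of equivariant metrics.
-/

namespace Pool.Agent.Lib.MP_5d4057_al.HM.DD

open Matrix MeasureTheory Filter Topology Pool.Agent.Lib.MP_5d4057_al Pool.Agent.Lib.MP_5d4057_al.Hyb

open scoped ComplexOrder MatrixOrder Matrix.Norms.L2Operator

variable {n m : ℕ} {Γ : Subgroup (SUGroup n)}

/-- The `L²` norm over the quotient. -/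
noncomputable def nm (χ : SUGroup n → ℝ) (f : SUGroup n → ℝ) : ℝ :=
  Real.sqrt (II χ fun g => f g ^ 2)

/-- Bounded measurable functions. -/
def BM (f : SUGroup n → ℝ) : Prop := AEStronglyMeasurable f (mu n) ∧ ∃ C : ℝ, ∀ g, ‖f g‖ ≤ C

theorem BM.add {f g : SUGroup n → ℝ} (hf : BM f) (hg : BM g) : BM (fun x => f x + g x) := by
  obtain ⟨hf1, C, hC⟩ := hf
  obtain ⟨hg1, D, hD⟩ := hg
  exact ⟨hf1.add hg1, C + D, fun x => (norm_add_le _ _).trans (add_le_add (hC x) (hD x))⟩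

theorem BM.mul {f g : SUGroup n → ℝ} (hf : BM f) (hg : BM g) : BM (fun x => f x * g x) := by
  obtain ⟨hf1, C, hC⟩ := hf
  obtain ⟨hg1, D, hD⟩ := hg
  refine ⟨hf1.mul hg1, C * D, fun x => ?_⟩
  rw [norm_mul]
  exact mul_le_mul (hC x) (hD x) (norm_nonneg _) ((norm_nonneg _).trans (hC x))

theorem BM.const_mul {f : SUGroup n → ℝ} (c : ℝ) (hf : BM f) : BM (fun x => c * f x) := by
  obtain ⟨hf1, C, hC⟩ := hf
  refine ⟨hf1.const_mul c, ‖c‖ * C, fun x => ?_⟩
  rw [norm_mul]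
  exact mul_le_mul_of_nonneg_left (hC x) (norm_nonneg _)

theorem BM.sq {f : SUGroup n → ℝ} (hf : BM f) : BM (fun x => f x ^ 2) := by
  simp only [pow_two]
  exact hf.mul hf

theorem BM.comp_mul_right {f : SUGroup n → ℝ} (hf : BM f) (a : SUGroup n) :
    BM (fun x => f (x * a)) := by
  obtain ⟨hf1, C, hC⟩ := hf
  exact ⟨hf1.comp_quasiMeasurePreserving
    (measurePreserving_mul_right (mu n) a).quasiMeasurePreserving, C, fun x => hC _⟩

theorem BM.of_continuous {f : SUGroup n → ℝ} (hΓ : Coc Γ) (hc : Continuous f)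
    (hf : ∀ γ ∈ Γ, ∀ g, f (γ * g) = f g) : BM f :=
  ⟨hc.aestronglyMeasurable, bounded_of_invariant hΓ hc hf⟩

theorem BM.integrable {χ : SUGroup n → ℝ} (hχ : Cut Γ χ) {f : SUGroup n → ℝ} (hf : BM f) :
    Integrable (fun g => χ g • f g) (mu n) := by
  obtain ⟨hf1, C, hC⟩ := hf
  have h := hχ.integrable.bdd_mul hf1 (ae_of_all _ hC)
  refine h.congr (ae_of_all _ fun g => ?_)
  simp only [smul_eq_mul]
  ring

theorem II_add' {χ : SUGroup n → ℝ} (hχ : Cut Γ χ) {f g : SUGroup n → ℝ} (hf : BM f) (hg : BM g) :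
    II χ (fun x => f x + g x) = II χ f + II χ g := by
  unfold II
  rw [← integral_add (hf.integrable hχ) (hg.integrable hχ)]
  simp only [smul_add]

theorem II_const_mul (χ : SUGroup n → ℝ) (c : ℝ) (f : SUGroup n → ℝ) :
    II χ (fun x => c * f x) = c * II χ f := by
  unfold II
  rw [← integral_const_mul]
  congr 1
  funext x
  simp only [smul_eq_mul]
  ring

theorem II_nonneg {χ : SUGroup n → ℝ} (hχ : Cut Γ χ) {f : SUGroup n → ℝ} (hf : ∀ g, 0 ≤ f g) :
    0 ≤ II χ f :=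
  integral_nonneg fun g => by
    simp only [smul_eq_mul]
    exact mul_nonneg (hχ.nonneg g) (hf g)

theorem nm_nonneg (χ f : SUGroup n → ℝ) : 0 ≤ nm χ f := Real.sqrt_nonneg _

theorem nm_sq {χ : SUGroup n → ℝ} (hχ : Cut Γ χ) (f : SUGroup n → ℝ) :
    nm χ f ^ 2 = II χ fun g => f g ^ 2 :=
  Real.sq_sqrt (II_nonneg hχ fun g => sq_nonneg _)

/-- Cauchy-Schwarz. -/
theorem II_mul_le {χ : SUGroup n → ℝ} (hχ : Cut Γ χ) {f g : SUGroup n → ℝ} (hf : BM f)
    (hg : BM g) : II χ (fun x => f x * g x) ≤ nm χ f * nm χ g := by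
  have key : ∀ t : ℝ, 0 ≤ nm χ f ^ 2 * (t * t) + 2 * II χ (fun x => f x * g x) * t + nm χ g ^ 2 := by
    intro t
    have h1 : 0 ≤ II χ (fun x => (t * f x + g x) ^ 2) := II_nonneg hχ fun x => sq_nonneg _
    have h2 : (fun x => (t * f x + g x) ^ 2) =
        fun x => (t * t) * f x ^ 2 + (2 * t * (f x * g x) + g x ^ 2) := by
      funext x
      ring
    rw [h2, II_add' hχ (hf.sq.const_mul _) (((hf.mul hg).const_mul _).add hg.sq),
      II_add' hχ ((hf.mul hg).const_mul _) hg.sq, II_const_mul, II_const_mul, ← nm_sq hχ,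
      ← nm_sq hχ] at h1
    linarith
  have h3 := discrim_le_zero key
  rw [discrim] at h3
  have h4 : II χ (fun x => f x * g x) ^ 2 ≤ (nm χ f * nm χ g) ^ 2 := by nlinarith
  exact (abs_le_of_sq_le_sq' h4 (mul_nonneg (nm_nonneg _ _) (nm_nonneg _ _))).2

/-- Minkowski. -/
theorem nm_add_le {χ : SUGroup n → ℝ} (hχ : Cut Γ χ) {f g : SUGroup n → ℝ} (hf : BM f)
    (hg : BM g) : nm χ (fun x => f x + g x) ≤ nm χ f + nm χ g := by
  have h2 : (fun x => (f x + g x) ^ 2) = fun x => f x ^ 2 + (2 * (f x * g x) + g x ^ 2) := by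
    funext x
    ring
  have h1 : nm χ (fun x => f x + g x) ^ 2 ≤ (nm χ f + nm χ g) ^ 2 := by
    rw [nm_sq hχ, h2, II_add' hχ hf.sq (((hf.mul hg).const_mul _).add hg.sq),
      II_add' hχ ((hf.mul hg).const_mul _) hg.sq, II_const_mul, ← nm_sq hχ, ← nm_sq hχ]
    have := II_mul_le hχ hf hg
    nlinarith
  exact abs_le_of_sq_le_sq' h1 (add_nonneg (nm_nonneg _ _) (nm_nonneg _ _)) |>.2

theorem nm_mono {χ : SUGroup n → ℝ} (hχ : Cut Γ χ) {f g : SUGroup n → ℝ} (hf : BM f)
    (hg : BM g) (h : ∀ x, |f x| ≤ g x) : nm χ f ≤ nm χ g := by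
  apply Real.sqrt_le_sqrt
  refine II_mono hχ hf.sq.1 hf.sq.2 hg.sq.1 hg.sq.2 fun x => ?_
  rw [← sq_abs (f x)]
  exact pow_le_pow_left₀ (abs_nonneg _) (h x) 2

theorem nm_mul_right (hΓ : Coc Γ) {χ : SUGroup n → ℝ} (hχ : Cut Γ χ) {f : SUGroup n → ℝ}
    (hf : BM f) (hi : ∀ γ ∈ Γ, ∀ g, f (γ * g) = f g) (a : SUGroup n) :
    nm χ (fun g => f (g * a)) = nm χ f := by
  unfold nm
  congr 1
  exact II_mul_right hΓ hχ (f := fun g => f g ^ 2) (fun γ hγ g => by simp only [hi γ hγ g])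
    hf.sq.1 hf.sq.2 a

section disp

variable {ρ : Γ →* Mat m}

/-- The distance of `A g` and `B (g x)`. -/
noncomputable def dd (A B : Vec n → Mat m) (x g : SUGroup n) : ℝ :=
  dT (A (act g (base n))) (B (act (g * x) (base n)))

/-- The displacement. -/
noncomputable def disp (χ : SUGroup n → ℝ) (A B : Vec n → Mat m) (x : SUGroup n) : ℝ :=
  nm χ (dd A B x)

theorem isUnit_rho (γ : Γ) : IsUnit (ρ γ) := by
  refine ⟨⟨ρ γ, ρ γ⁻¹, ?_, ?_⟩, rfl⟩
  · rw [← map_mul, mul_inv_cancel, map_one]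
  · rw [← map_mul, inv_mul_cancel, map_one]

theorem dd_inv {A B : Vec n → Mat m} (hA : Equi ρ A) (hB : Equi ρ B) (x : SUGroup n) :
    ∀ γ ∈ Γ, ∀ g, dd A B x (γ * g) = dd A B x g := by
  intro γ hγ g
  unfold dd
  rw [mul_assoc, act_mul γ g, act_mul γ (g * x)]
  have h1 := hA ⟨γ, hγ⟩ _ (orbit_mem g)
  have h2 := hB ⟨γ, hγ⟩ _ (orbit_mem (g * x))
  simp only at h1 h2
  rw [h1, h2, dT_conj _ (isUnit_rho _)]

theorem met_cont {A : Vec n → Mat m} (hA : Met ρ A) :
    Continuous fun g : SUGroup n => A (act g (base n)) :=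
  hA.cont.comp_continuous continuous_orbit orbit_mem

theorem met_pos {A : Vec n → Mat m} (hA : Met ρ A) (g : SUGroup n) :
    (A (act g (base n))).PosDef := hA.pos _ (orbit_mem g)

theorem continuous_dd {A B : Vec n → Mat m} (hA : Met ρ A) (hB : Met ρ B) :
    Continuous fun p : SUGroup n × SUGroup n => dd A B p.1 p.2 := by
  unfold dd
  refine continuousOn_dT.comp_continuous (f := fun p : SUGroup n × SUGroup n =>
    (A (act p.2 (base n)), B (act (p.2 * p.1) (base n)))) ?_ ?_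
  · exact ((met_cont hA).comp continuous_snd).prodMk
      ((met_cont hB).comp (continuous_snd.mul continuous_fst))
  · intro p
    exact ⟨met_pos hA _, met_pos hB _⟩

theorem continuous_dd_right {A B : Vec n → Mat m} (hA : Met ρ A) (hB : Met ρ B) (x : SUGroup n) :
    Continuous (dd A B x) := by
  have h0 : Continuous fun g : SUGroup n => g * x := continuous_mul_const x
  have h2 : Continuous fun g : SUGroup n => B (act (g * x) (base n)) := (met_cont hB).comp h0
  have h1 : Continuous fun g : SUGroup n => (A (act g (base n)), B (act (g * x) (base n))) :=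
    (met_cont hA).prodMk h2
  unfold dd
  exact continuousOn_dT.comp_continuous (f := fun g : SUGroup n =>
    (A (act g (base n)), B (act (g * x) (base n)))) h1 fun g => ⟨met_pos hA _, met_pos hB _⟩

theorem dd_nonneg (A B : Vec n → Mat m) (x g : SUGroup n) : 0 ≤ dd A B x g := dT_nonneg _ _

theorem bm_dd (hΓ : Coc Γ) {A B : Vec n → Mat m} (hA : Met ρ A) (hB : Met ρ B) (x : SUGroup n) :
    BM (dd A B x) := by
  exact BM.of_continuous hΓ (continuous_dd_right hA hB x) (dd_inv hA.equi hB.equi x)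

theorem disp_nonneg (χ : SUGroup n → ℝ) (A B : Vec n → Mat m) (x : SUGroup n) :
    0 ≤ disp χ A B x := nm_nonneg _ _

/-- The displacement of `B` seen from a translate. -/
theorem disp_shift (hΓ : Coc Γ) {χ : SUGroup n → ℝ} (hχ : Cut Γ χ) {A B : Vec n → Mat m}
    (hA : Met ρ A) (hB : Met ρ B) (x y : SUGroup n) :
    nm χ (fun g => dT (A (act (g * y) (base n))) (B (act (g * x) (base n)))) =
      disp χ A B (y⁻¹ * x) := by
  rw [disp, ← nm_mul_right hΓ hχ (bm_dd hΓ hA hB _) (dd_inv hA.equi hB.equi _) y]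
  congr 1
  funext g
  rw [dd, mul_assoc, mul_inv_cancel_left]

theorem bm_shift (hΓ : Coc Γ) {A B : Vec n → Mat m}
    (hA : Met ρ A) (hB : Met ρ B) (x y : SUGroup n) :
    BM (fun g => dT (A (act (g * y) (base n))) (B (act (g * x) (base n)))) := by
  have h := (bm_dd hΓ hA hB (y⁻¹ * x)).comp_mul_right y
  refine (congrArg BM ?_).mp h
  funext g
  rw [dd, mul_assoc, mul_inv_cancel_left]

theorem disp_triangle (hΓ : Coc Γ) {χ : SUGroup n → ℝ} (hχ : Cut Γ χ) {A B C : Vec n → Mat m}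
    (hA : Met ρ A) (hB : Met ρ B) (hC : Met ρ C) (x y : SUGroup n) :
    disp χ A C x ≤ disp χ A B y + disp χ B C (y⁻¹ * x) := by
  rw [← disp_shift hΓ hχ hB hC]
  refine le_trans ?_ (nm_add_le hχ (bm_dd hΓ hA hB y) (bm_shift hΓ hB hC x y))
  refine nm_mono hχ (bm_dd hΓ hA hC x) ((bm_dd hΓ hA hB y).add (bm_shift hΓ hB hC x y)) fun g => ?_
  rw [abs_of_nonneg (dd_nonneg _ _ _ _)]
  exact dT_triangle (met_pos hA _) (met_pos hB _) (met_pos hC _)

theorem disp_symm (hΓ : Coc Γ) {χ : SUGroup n → ℝ} (hχ : Cut Γ χ) {A B : Vec n → Mat m}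
    (hA : Met ρ A) (hB : Met ρ B) (x : SUGroup n) : disp χ A B x = disp χ B A x⁻¹ := by
  have h := disp_shift hΓ hχ hB hA 1 x
  rw [mul_one] at h
  rw [← h, disp]
  congr 1
  funext g
  rw [dd, mul_one, dT_comm]

theorem dT_self (a : Mat m) : dT a a = 0 := by
  refine le_antisymm ?_ (dT_nonneg _ _)
  refine dT_le le_rfl ?_ ?_ <;> simp

theorem disp_one (χ : SUGroup n → ℝ) (A : Vec n → Mat m) : disp χ A A 1 = 0 := by
  have : dd A A 1 = fun _ => 0 := by
    funext g
    rw [dd, mul_one, dT_self]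
  rw [disp, this, nm]
  simp [II]

theorem disp_list (hΓ : Coc Γ) {χ : SUGroup n → ℝ} (hχ : Cut Γ χ) {A : Vec n → Mat m}
    (hA : Met ρ A) (c : ℝ) (l : List (SUGroup n)) (hl : ∀ y ∈ l, disp χ A A y ≤ c) :
    disp χ A A l.prod ≤ l.length * c := by
  induction l with
  | nil => simp [disp_one]
  | cons a l ih =>
    have h := disp_triangle hΓ hχ hA hA hA (a * l.prod) a
    rw [inv_mul_cancel_left] at h
    have h1 := hl a (List.mem_cons_self)
    have h2 := ih fun y hy => hl y (List.mem_cons_of_mem _ hy)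
    rw [List.prod_cons, List.length_cons]
    push_cast
    linarith

theorem continuous_disp_sq {χ : SUGroup n → ℝ} (hχ : Cut Γ χ) {A B : Vec n → Mat m}
    (hA : Met ρ A) (hB : Met ρ B) : Continuous fun x => disp χ A B x ^ 2 := by
  have h1 : (fun x => disp χ A B x ^ 2) =
      fun x => ∫ g in tsupport χ, χ g * dd A B x g ^ 2 ∂(mu n) := by
    funext x
    rw [disp, nm_sq hχ, II]
    simp only [smul_eq_mul]
    rw [setIntegral_eq_integral_of_forall_compl_eq_zero]
    intro g hg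
    rw [image_eq_zero_of_notMem_tsupport hg, zero_mul]
  rw [h1]
  refine continuous_parametric_integral_of_continuous ?_ hχ.supp
  have h2 := continuous_dd hA hB
  have h3 := hχ.cont
  fun_prop

end disp

end Pool.Agent.Lib.MP_5d4057_al.HM.DD
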