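import Pool.Agent.Lib.MP_5d4057_al.HM.D2
import Pool.Agent.Lib.MP_5d4057_al.HM.Mom
import Pool.Agent.Lib.MP_5d4057_al.HM.LevC

/-!
The displacement bound (blueprint D3).
-/

namespace Pool.Agent.Lib.MP_5d4057_al.HM.DD

open Matrix MeasureTheory Filter Topology Pool.Agent.Lib.MP_5d4057_al Pool.Agent.Lib.MP_5d4057_al.Hyb

open scoped ComplexOrder MatrixOrder Matrix.Norms.L2Operator

variable {n m : ℕ} {Γ : Subgroup (SUGroup n)}

theorem wt_pos (x : SUGroup n) : 0 < wt x := lt_of_lt_of_le one_pos (one_le_wt x)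

theorem log_wt_nonneg (x : SUGroup n) : 0 ≤ Real.log (wt x) := Real.log_nonneg (one_le_wt x)

/-- `2 ch = wt + wt⁻¹`. -/
theorem two_ch (x : SUGroup n) : 2 * ch x = wt x + (wt x)⁻¹ := by
  have h1 := one_le_ch x
  have h2 : 0 ≤ ch x ^ 2 - 1 := by nlinarith
  have h3 := Real.sq_sqrt h2
  have h4 : wt x = ch x + Real.sqrt (ch x ^ 2 - 1) := rfl
  have h5 : wt x * (ch x - Real.sqrt (ch x ^ 2 - 1)) = 1 := by
    rw [h4]
    nlinarith
  have h6 : (wt x)⁻¹ = ch x - Real.sqrt (ch x ^ 2 - 1) := by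
    rw [inv_eq_iff_eq_inv, eq_comm, inv_eq_iff_eq_inv]
    exact (eq_inv_of_mul_eq_one_right h5)
  rw [h6, h4]
  ring

theorem ch_sq_sub_one (x : SUGroup n) : ch x ^ 2 - 1 = ((wt x - (wt x)⁻¹) / 2) ^ 2 := by
  have h1 := two_ch x
  have h2 : ch x = (wt x + (wt x)⁻¹) / 2 := by linarith
  have h3 : wt x * (wt x)⁻¹ = 1 := mul_inv_cancel₀ (wt_pos x).ne'
  rw [h2]
  nlinarith

/-- Small elements. -/
theorem ch_sq_le (x : SUGroup n) (h : Real.log (wt x) ≤ 1) :
    ch x ^ 2 - 1 ≤ 9 / 4 * Real.log (wt x) ^ 2 := by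
  set u := Real.log (wt x) with hu
  have hu0 : 0 ≤ u := log_wt_nonneg x
  have h1 : wt x = Real.exp u := (Real.exp_log (wt_pos x)).symm
  have h2 : Real.exp u ≤ 1 + 2 * u := by
    have := Real.abs_exp_sub_one_sub_id_le (x := u) (by rw [abs_of_nonneg hu0]; exact h)
    have h3 := (abs_le.1 this).2
    nlinarith
  have h3 : 1 - u ≤ (Real.exp u)⁻¹ := by
    rw [← Real.exp_neg]
    have := Real.add_one_le_exp (-u)
    linarith
  have h4 : 1 ≤ Real.exp u := Real.one_le_exp hu0
  have h5 : (Real.exp u)⁻¹ ≤ 1 := inv_le_one_of_one_le₀ h4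
  rw [ch_sq_sub_one, h1]
  have h6 : 0 ≤ Real.exp u - (Real.exp u)⁻¹ := by linarith
  have h7 : Real.exp u - (Real.exp u)⁻¹ ≤ 3 * u := by linarith
  have h8 : (Real.exp u - (Real.exp u)⁻¹) ^ 2 ≤ (3 * u) ^ 2 := pow_le_pow_left₀ h6 h7 2
  nlinarith

section energy

variable {ρ : Γ →* Mat m}

theorem continuous_sig_pair {L H : Vec n → Mat m} (hL : Met ρ L) (hH : Met ρ H) :
    Continuous fun p : SUGroup n × SUGroup n =>
      sig (L (act p.1 (base n))) (H (act (p.1 * p.2) (base n))) := by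
  have h1 : Continuous fun p : SUGroup n × SUGroup n => L (act p.1 (base n)) :=
    (met_cont hL).comp continuous_fst
  have h2 : Continuous fun p : SUGroup n × SUGroup n => H (act (p.1 * p.2) (base n)) :=
    (met_cont hH).comp continuous_mul
  have h3 : Continuous fun p : SUGroup n × SUGroup n => (L (act p.1 (base n)))⁻¹ := by
    rw [continuous_iff_continuousAt]
    intro p
    have hu : IsUnit (L (act p.1 (base n))) := (met_pos hL p.1).isUnit
    have := NormedRing.inverse_continuousAt hu.unit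
    simp only [Matrix.nonsing_inv_eq_ringInverse]
    exact ContinuousAt.comp (f := fun p : SUGroup n × SUGroup n => L (act p.1 (base n)))
      (by simpa using this) h1.continuousAt
  have h4 : Continuous fun p : SUGroup n × SUGroup n => (H (act (p.1 * p.2) (base n)))⁻¹ := by
    rw [continuous_iff_continuousAt]
    intro p
    have hu : IsUnit (H (act (p.1 * p.2) (base n))) := (met_pos hH _).isUnit
    have := NormedRing.inverse_continuousAt hu.unit
    simp only [Matrix.nonsing_inv_eq_ringInverse]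
    exact ContinuousAt.comp (f := fun p : SUGroup n × SUGroup n => H (act (p.1 * p.2) (base n)))
      (by simpa using this) h2.continuousAt
  unfold sig
  have h5 : Continuous fun p : SUGroup n × SUGroup n =>
      ((L (act p.1 (base n)))⁻¹ * H (act (p.1 * p.2) (base n))).trace :=
    (h3.matrix_mul h2).matrix_trace
  have h6 : Continuous fun p : SUGroup n × SUGroup n =>
      ((H (act (p.1 * p.2) (base n)))⁻¹ * L (act p.1 (base n))).trace :=
    (h4.matrix_mul h1).matrix_trace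
  exact (Complex.continuous_re.comp (h5.add h6)).sub continuous_const

theorem sig_le_norm (a b : Mat m) : sig a b ≤ m * (‖a⁻¹‖ * ‖b‖ + ‖b⁻¹‖ * ‖a‖) := by
  have h1 := trace_le_norm (a⁻¹ * b)
  have h2 := trace_le_norm (b⁻¹ * a)
  have h3 : ‖a⁻¹ * b‖ ≤ ‖a⁻¹‖ * ‖b‖ := norm_mul_le _ _
  have h4 : ‖b⁻¹ * a‖ ≤ ‖b⁻¹‖ * ‖a‖ := norm_mul_le _ _
  have hm : (0 : ℝ) ≤ m := Nat.cast_nonneg m
  unfold sig
  rw [Complex.add_re]
  have h5 := mul_le_mul_of_nonneg_left h3 hm
  have h6 := mul_le_mul_of_nonneg_left h4 hm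
  linarith

/-- Integrability of the energy density. -/
theorem integrable_energy (hn : 1 ≤ n) (hΓ : Coc Γ) {χ : SUGroup n → ℝ} (hχ : Cut Γ χ)
    (ρ : Γ →* Mat m) : ∃ s₀ : ℕ, ∀ s, s₀ ≤ s → ∀ L H : Vec n → Mat m, Met ρ L → Met ρ H →
      Integrable (fun p : SUGroup n × SUGroup n => χ p.1 *
        (kap s p.2 * sig (L (act p.1 (base n))) (H (act (p.1 * p.2) (base n)))))
        ((mu n).prod (mu n)) := by
  obtain ⟨F, N, C, hF, hcov, hC, hg⟩ := met_growth hn hΓ ρ
  refine ⟨n + N + 1, fun s hs L H hL hH => ?_⟩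
  have hbd : ∀ A : Vec n → Mat m, Met ρ A → ∃ M : ℝ, ∀ g ∈ F, (A (act g (base n))).trace.re ≤ M ∧
      ((A (act g (base n)))⁻¹).trace.re ≤ M := by
    intro A hA
    have h1 : ContinuousOn (fun g : SUGroup n => (A (act g (base n))).trace.re) F :=
      (Complex.continuous_re.comp (met_cont hA).matrix_trace).continuousOn
    have h2 : ContinuousOn (fun g : SUGroup n => ((A (act g (base n)))⁻¹).trace.re) F :=
      (Complex.continuous_re.comp (met_cont (met_inv hA)).matrix_trace).continuousOn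
    obtain ⟨M1, hM1⟩ := hF.bddAbove_image h1
    obtain ⟨M2, hM2⟩ := hF.bddAbove_image h2
    refine ⟨max M1 M2, fun g hg => ⟨?_, ?_⟩⟩
    · exact (hM1 ⟨g, hg, rfl⟩).trans (le_max_left _ _)
    · exact (hM2 ⟨g, hg, rfl⟩).trans (le_max_right _ _)
  obtain ⟨ML, hML⟩ := hbd L hL
  obtain ⟨MH, hMH⟩ := hbd H hH
  obtain ⟨hL1, hL2⟩ := hg L ML hL hML
  obtain ⟨hH1, hH2⟩ := hg H MH hH hMH
  have hχi := hχ.integrable
  -- the dominating function
  set a : ℝ := C * ML
  set b : ℝ := C * MH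
  have hkey : ∀ p : SUGroup n × SUGroup n,
      ‖χ p.1 * (kap s p.2 * sig (L (act p.1 (base n))) (H (act (p.1 * p.2) (base n))))‖ ≤
        (χ p.1 * (m * (2 * a * b * (ch p.1 ^ (2 * N) * (4 ^ N * ch p.1 ^ (2 * N)))))) *
          (kap s p.2 * ch p.2 ^ (2 * N)) := by
    intro p
    have h1 := sig_le_norm (L (act p.1 (base n))) (H (act (p.1 * p.2) (base n)))
    have h2 := sig_nonneg (met_pos hL p.1) (met_pos hH (p.1 * p.2))
    have h3 := hL1.bound p.1
    have h4 := hL2.bound p.1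
    have h5 := hH1.bound (p.1 * p.2)
    have h6 := hH2.bound (p.1 * p.2)
    have h7 := hχ.nonneg p.1
    have h8 := kap_nonneg s p.2
    have h9 : ch (p.1 * p.2) ^ (2 * N) ≤ 4 ^ N * ch p.1 ^ (2 * N) * ch p.2 ^ (2 * N) := by
      have h10 := ch_mul_le' p.1 p.2
      have h11 : ch (p.1 * p.2) ^ (2 * N) ≤ (2 * ch p.1 * ch p.2) ^ (2 * N) :=
        pow_le_pow_left₀ (ch_pos _).le h10 _
      refine h11.trans (le_of_eq ?_)
      rw [mul_pow, mul_pow, pow_mul 2 2 N]
      norm_num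
    have hLn : 0 ≤ ‖L (act p.1 (base n))‖ := norm_nonneg _
    have hHn : 0 ≤ ‖H (act (p.1 * p.2) (base n))‖ := norm_nonneg _
    have hc1 : 0 < ch p.1 ^ (2 * N) := pow_pos (ch_pos _) _
    have hc2 : 0 < ch p.2 ^ (2 * N) := pow_pos (ch_pos _) _
    have hc3 : 0 < ch (p.1 * p.2) ^ (2 * N) := pow_pos (ch_pos _) _
    have ha0 : 0 ≤ a := by
      have := hLn.trans h3
      by_contra hneg
      push Not at hneg
      nlinarith
    have hb0 : 0 ≤ b := by
      have := hHn.trans h5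
      by_contra hneg
      push Not at hneg
      nlinarith
    have hX : sig (L (act p.1 (base n))) (H (act (p.1 * p.2) (base n))) ≤
        m * (2 * a * b * (ch p.1 ^ (2 * N) * (4 ^ N * ch p.1 ^ (2 * N) * ch p.2 ^ (2 * N)))) := by
      refine h1.trans (mul_le_mul_of_nonneg_left ?_ (Nat.cast_nonneg m))
      have e1 : ‖(L (act p.1 (base n)))⁻¹‖ * ‖H (act (p.1 * p.2) (base n))‖ ≤
          (a * ch p.1 ^ (2 * N)) * (b * (4 ^ N * ch p.1 ^ (2 * N) * ch p.2 ^ (2 * N))) :=
        mul_le_mul h4 (h5.trans (mul_le_mul_of_nonneg_left h9 hb0)) hHn (by positivity)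
      have e2 : ‖(H (act (p.1 * p.2) (base n)))⁻¹‖ * ‖L (act p.1 (base n))‖ ≤
          (b * (4 ^ N * ch p.1 ^ (2 * N) * ch p.2 ^ (2 * N))) * (a * ch p.1 ^ (2 * N)) :=
        mul_le_mul (h6.trans (mul_le_mul_of_nonneg_left h9 hb0)) h3 hLn (by positivity)
      linarith
    rw [Real.norm_of_nonneg (mul_nonneg h7 (mul_nonneg h8 h2))]
    calc χ p.1 * (kap s p.2 * sig (L (act p.1 (base n))) (H (act (p.1 * p.2) (base n))))
        ≤ χ p.1 * (kap s p.2 * (m * (2 * a * b * (ch p.1 ^ (2 * N) *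
            (4 ^ N * ch p.1 ^ (2 * N) * ch p.2 ^ (2 * N)))))) :=
          mul_le_mul_of_nonneg_left (mul_le_mul_of_nonneg_left hX h8) h7
      _ = _ := by ring
  have hcont : Continuous fun p : SUGroup n × SUGroup n => χ p.1 *
      (kap s p.2 * sig (L (act p.1 (base n))) (H (act (p.1 * p.2) (base n)))) :=
    (hχ.cont.comp continuous_fst).mul
      (((continuous_kap s).comp continuous_snd).mul (continuous_sig_pair hL hH))
  refine Integrable.mono' ?_ hcont.aestronglyMeasurable (ae_of_all _ hkey)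
  refine Integrable.mul_prod (f := fun g : SUGroup n =>
    χ g * (m * (2 * a * b * (ch g ^ (2 * N) * (4 ^ N * ch g ^ (2 * N))))))
    (g := fun x : SUGroup n => kap s x * ch x ^ (2 * N)) ?_ (integrable_kap_pow (by omega))
  refine Continuous.integrable_of_hasCompactSupport ?_ ?_
  · have := hχ.cont
    have h2 := continuous_ch (n := n)
    fun_prop
  · exact hχ.supp.mul_right

end energy

theorem continuous_dd' {ρ : Γ →* Mat m} {A B : Vec n → Mat m} (hA : Met ρ A) (hB : Met ρ B) :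
    Continuous fun p : SUGroup n × SUGroup n => dd A B p.2 p.1 := by
  unfold dd
  refine continuousOn_dT.comp_continuous (f := fun p : SUGroup n × SUGroup n =>
    (A (act p.1 (base n)), B (act (p.1 * p.2) (base n)))) ?_ ?_
  · exact ((met_cont hA).comp continuous_fst).prodMk
      ((met_cont hB).comp (continuous_fst.mul continuous_snd))
  · intro p
    exact ⟨met_pos hA _, met_pos hB _⟩

/-- The mean of the squared displacement is bounded by the energy. -/
theorem integral_disp_le {ρ : Γ →* Mat m} {χ : SUGroup n → ℝ} (hχ : Cut Γ χ) {s : ℕ}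
    {L H : Vec n → Mat m} (hL : Met ρ L) (hH : Met ρ H)
    (hi : Integrable (fun p : SUGroup n × SUGroup n => χ p.1 *
        (kap s p.2 * sig (L (act p.1 (base n))) (H (act (p.1 * p.2) (base n)))))
        ((mu n).prod (mu n))) :
    Integrable (fun x => kap s x * disp χ L H x ^ 2) (mu n) ∧
      ∫ x, kap s x * disp χ L H x ^ 2 ∂(mu n) ≤ Es χ s H L := by
  have hcd : Continuous fun p : SUGroup n × SUGroup n => dd L H p.2 p.1 := continuous_dd' hL hH
  have hc : Continuous fun p : SUGroup n × SUGroup n =>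
      χ p.1 * (kap s p.2 * dd L H p.2 p.1 ^ 2) :=
    (hχ.cont.comp continuous_fst).mul (((continuous_kap s).comp continuous_snd).mul (hcd.pow 2))
  have hle : ∀ p : SUGroup n × SUGroup n, χ p.1 * (kap s p.2 * dd L H p.2 p.1 ^ 2) ≤
      χ p.1 * (kap s p.2 * sig (L (act p.1 (base n))) (H (act (p.1 * p.2) (base n)))) := by
    intro p
    refine mul_le_mul_of_nonneg_left (mul_le_mul_of_nonneg_left ?_ (kap_nonneg _ _))
      (hχ.nonneg _)
    exact dT_sq_le_sig (met_pos hL _) (met_pos hH _)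
  have hnn : ∀ p : SUGroup n × SUGroup n, 0 ≤ χ p.1 * (kap s p.2 * dd L H p.2 p.1 ^ 2) := by
    intro p
    exact mul_nonneg (hχ.nonneg _) (mul_nonneg (kap_nonneg _ _) (sq_nonneg _))
  have hi2 : Integrable (fun p : SUGroup n × SUGroup n =>
      χ p.1 * (kap s p.2 * dd L H p.2 p.1 ^ 2)) ((mu n).prod (mu n)) := by
    refine hi.mono' hc.aestronglyMeasurable (ae_of_all _ fun p => ?_)
    rw [Real.norm_of_nonneg (hnn p)]
    exact hle p
  have e1 : (fun x => kap s x * disp χ L H x ^ 2) = fun x => ∫ g, χ g *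
      (kap s x * dd L H x g ^ 2) ∂(mu n) := by
    funext x
    rw [disp, nm_sq hχ, II, ← integral_const_mul]
    congr 1
    funext g
    simp only [smul_eq_mul]
    ring
  constructor
  · rw [e1]
    exact hi2.integral_prod_right
  · rw [e1, Es, II]
    have e2 : ∫ x, ∫ g, χ g * (kap s x * dd L H x g ^ 2) ∂(mu n) ∂(mu n) =
        ∫ g, ∫ x, χ g * (kap s x * dd L H x g ^ 2) ∂(mu n) ∂(mu n) :=
      (integral_integral_swap hi2).symm
    rw [e2]
    have e3 : ∀ g, χ g • ∫ x, kap s x * sig (L (act g (base n))) (H (act (g * x) (base n))) ∂(mu n) =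
        ∫ x, χ g * (kap s x * sig (L (act g (base n))) (H (act (g * x) (base n)))) ∂(mu n) := by
      intro g
      rw [smul_eq_mul, ← integral_const_mul]
    simp only [e3]
    refine integral_mono_ae hi2.integral_prod_left hi.integral_prod_left ?_
    filter_upwards [hi2.prod_right_ae, hi.prod_right_ae] with g h1 h2
    exact integral_mono h1 h2 fun x => hle (g, x)

section bound

variable {ρ : Γ →* Mat m}

/-- Comparison of the kernel at `x` and at a small translate `b x`. -/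
theorem kap_mul_ge {s : ℕ} (hs : n < s) (hs1 : 1 ≤ s) {b x : SUGroup n}
    (hb : ch b ^ 2 - 1 ≤ 1 / (400 * n * s)) (hx : ch x ^ 2 - 1 ≤ 16 * n / s) (hn : 1 ≤ n) :
    1 / 2 * kap s x ≤ kap s (b * x) := by
  have hn' : (1 : ℝ) ≤ n := by exact_mod_cast hn
  have hs' : (1 : ℝ) ≤ s := by exact_mod_cast hs1
  have h1 := ch_mul_le b x
  have hb1 := one_le_ch b
  have hx1 := one_le_ch x
  have hbx := one_le_ch (b * x)
  have hb0 : 0 ≤ ch b ^ 2 - 1 := by nlinarith
  have hx0 : 0 ≤ ch x ^ 2 - 1 := by nlinarith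
  have h2 : Real.sqrt (ch b ^ 2 - 1) * Real.sqrt (ch x ^ 2 - 1) ≤ 1 / (5 * s) := by
    rw [← Real.sqrt_mul hb0]
    apply Real.sqrt_le_iff.2
    refine ⟨by positivity, ?_⟩
    calc (ch b ^ 2 - 1) * (ch x ^ 2 - 1) ≤ 1 / (400 * n * s) * (16 * n / s) :=
          mul_le_mul hb hx hx0 (by positivity)
      _ = (1 / (5 * s)) ^ 2 := by
          field_simp
          ring
  have h3 : ch b ≤ 1 + 1 / (800 * s) := by
    have h4 : ch b ^ 2 ≤ (1 + 1 / (800 * s)) ^ 2 := by
      have h5 : 1 / (400 * n * s) ≤ 1 / (400 * (s : ℝ)) := by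
        apply one_div_le_one_div_of_le (by positivity)
        nlinarith
      have h6 : (1 + 1 / (800 * (s : ℝ))) ^ 2 = 1 + 1 / (400 * s) + (1 / (800 * s)) ^ 2 := by
        field_simp
        ring
      rw [h6]
      have := sq_nonneg (1 / (800 * (s : ℝ)))
      linarith
    exact le_of_sq_le_sq h4 (by positivity)
  have h4 : ch (b * x) ≤ ch x * (1 + 1 / (4 * s)) := by
    have e1 : ch b * ch x ≤ (1 + 1 / (800 * s)) * ch x :=
      mul_le_mul_of_nonneg_right h3 (by linarith)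
    have e2 : 1 / (5 * (s : ℝ)) ≤ ch x * (1 / (5 * s)) := by
      have : 0 < 1 / (5 * (s : ℝ)) := by positivity
      nlinarith
    have e3 : 1 / (800 * (s : ℝ)) + 1 / (5 * s) ≤ 1 / (4 * s) := by
      rw [div_add_div _ _ (by positivity) (by positivity), div_le_div_iff₀ (by positivity)
        (by positivity)]
      nlinarith [mul_pos (show (0 : ℝ) < s by linarith) (show (0 : ℝ) < s by linarith)]
    have e4 : ch x * (1 / (800 * (s : ℝ)) + 1 / (5 * s)) ≤ ch x * (1 / (4 * s)) :=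
      mul_le_mul_of_nonneg_left e3 (by linarith)
    nlinarith
  have h5 : (1 + 1 / (4 * (s : ℝ))) ^ (2 * s) ≤ 2 := by
    have e1 : 1 + 1 / (4 * (s : ℝ)) ≤ Real.exp (1 / (4 * s)) := by
      have := Real.add_one_le_exp (1 / (4 * (s : ℝ)))
      linarith
    have e2 : (1 + 1 / (4 * (s : ℝ))) ^ (2 * s) ≤ Real.exp (1 / (4 * s)) ^ (2 * s) :=
      pow_le_pow_left₀ (by positivity) e1 _
    refine e2.trans ?_
    rw [← Real.exp_nat_mul]
    have e3 : ((2 * s : ℕ) : ℝ) * (1 / (4 * s)) = 1 / 2 := by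
      push_cast
      field_simp
      ring
    rw [e3]
    have e4 : Real.exp (1 / 2) ^ 2 = Real.exp 1 := by
      rw [← Real.exp_nat_mul]
      norm_num
    have e5 := Real.exp_one_lt_d9
    nlinarith [Real.exp_pos (1 / 2 : ℝ)]
  have hcs : 0 < cs n s := cs_pos' hs
  have h6 : ch (b * x) ^ (2 * s) ≤ 2 * ch x ^ (2 * s) := by
    calc ch (b * x) ^ (2 * s) ≤ (ch x * (1 + 1 / (4 * s))) ^ (2 * s) :=
          pow_le_pow_left₀ (by linarith) h4 _
      _ = ch x ^ (2 * s) * (1 + 1 / (4 * (s : ℝ))) ^ (2 * s) := mul_pow _ _ _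
      _ ≤ ch x ^ (2 * s) * 2 := mul_le_mul_of_nonneg_left h5 (by positivity)
      _ = _ := mul_comm _ _
  unfold kap
  rw [← mul_div_assoc]
  apply div_le_div_of_nonneg_right _ hcs.le
  have hp : 0 < ch x ^ (2 * s) := pow_pos (by linarith) _
  have hq : 0 < ch (b * x) ^ (2 * s) := pow_pos (by linarith) _
  rw [one_div, ← mul_inv]
  exact inv_anti₀ hq h6
where
  le_of_sq_le_sq {a b : ℝ} (h : a ^ 2 ≤ b ^ 2) (hb : 0 ≤ b) : a ≤ b :=
    (abs_le_of_sq_le_sq' h hb).2

/-- The good set: large mass. -/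
theorem good_mass {χ : SUGroup n → ℝ} (hχ : Cut Γ χ) {s : ℕ} (hn : 1 ≤ n) (hs : 2 * n + 2 ≤ s)
    {L H : Vec n → Mat m} (hL : Met ρ L) (hH : Met ρ H) {c : ℝ} (hc : 0 < c)
    (hi : Integrable (fun x => kap s x * disp χ L H x ^ 2) (mu n))
    (hE : ∫ x, kap s x * disp χ L H x ^ 2 ∂(mu n) ≤ c / s) :
    3 / 4 ≤ ∫ x in {x : SUGroup n | disp χ L H x ^ 2 ≤ 8 * c / s ∧ ch x ^ 2 - 1 ≤ 16 * n / s},
      kap s x ∂(mu n) := by
  have hn' : (1 : ℝ) ≤ n := by exact_mod_cast hn
  have hs0 : (2 : ℝ) * n + 2 ≤ s := by exact_mod_cast hs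
  have hsp : (0 : ℝ) < s := by linarith
  set A := {x : SUGroup n | disp χ L H x ^ 2 ≤ 8 * c / s ∧ ch x ^ 2 - 1 ≤ 16 * n / s} with hA
  have hAm : MeasurableSet A := by
    have h1 : IsClosed A := by
      apply IsClosed.inter
      · exact isClosed_le (continuous_disp_sq hχ hL hH) continuous_const
      · exact isClosed_le ((continuous_ch.pow 2).sub continuous_const) continuous_const
    exact h1.measurableSet
  have hk := integrable_kap (n := n) (s := s) (by omega)
  have hk1 := integral_kap (n := n) (s := s) (by omega)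
  have hm := integrable_mom (n := n) (s := s) (N := 0) (k := 1) (by omega)
  have hm1 := mom_one (n := n) (s := s) (by omega)
  simp only [mul_zero, pow_zero, one_mul, pow_one] at hm
  have h1 : ∫ x in A, kap s x ∂(mu n) + ∫ x in Aᶜ, kap s x ∂(mu n) = 1 := by
    rw [integral_add_compl hAm hk, hk1]
  have h2 : ∫ x in Aᶜ, kap s x ∂(mu n) ≤ ∫ x, (s / (8 * c) * (kap s x * disp χ L H x ^ 2) +
      s / (16 * n) * (kap s x * (ch x ^ 2 - 1))) ∂(mu n) := by
    rw [← integral_indicator hAm.compl]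
    refine integral_mono (hk.indicator hAm.compl)
      ((hi.const_mul _).add (hm.const_mul _)) fun x => ?_
    have hkx := kap_nonneg s x
    have h3 : 0 ≤ disp χ L H x ^ 2 := sq_nonneg _
    have h4 : 0 ≤ ch x ^ 2 - 1 := by
      have := one_le_ch x
      nlinarith
    simp only
    by_cases hx : x ∈ Aᶜ
    · rw [Set.indicator_of_mem hx]
      have hx2 : ¬ (disp χ L H x ^ 2 ≤ 8 * c / s ∧ ch x ^ 2 - 1 ≤ 16 * n / s) := hx
      have key : 1 ≤ s / (8 * c) * disp χ L H x ^ 2 + s / (16 * n) * (ch x ^ 2 - 1) := by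
        rw [not_and_or, not_le, not_le] at hx2
        have e3 : 0 ≤ s / (8 * c) * disp χ L H x ^ 2 := by positivity
        have e4 : 0 ≤ s / (16 * n) * (ch x ^ 2 - 1) := by positivity
        rcases hx2 with h | h
        · have : 1 ≤ s / (8 * c) * disp χ L H x ^ 2 := by
            have e5 := mul_le_mul_of_nonneg_left h.le (show 0 ≤ (s : ℝ) / (8 * c) by positivity)
            have e6 : (s : ℝ) / (8 * c) * (8 * c / s) = 1 := by field_simp
            linarith
          linarith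
        · have : 1 ≤ s / (16 * n) * (ch x ^ 2 - 1) := by
            have e5 := mul_le_mul_of_nonneg_left h.le
              (show 0 ≤ (s : ℝ) / (16 * n) by positivity)
            have e6 : (s : ℝ) / (16 * n) * (16 * n / s) = 1 := by field_simp
            linarith
          linarith
      nlinarith
    · rw [Set.indicator_of_notMem hx]
      positivity
  rw [integral_add (hi.const_mul _) (hm.const_mul _), integral_const_mul, integral_const_mul,
    hm1] at h2
  have h3 : s / (8 * c) * ∫ x, kap s x * disp χ L H x ^ 2 ∂(mu n) ≤ 1 / 8 := by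
    have := mul_le_mul_of_nonneg_left hE (show 0 ≤ (s : ℝ) / (8 * c) by positivity)
    refine this.trans (le_of_eq ?_)
    field_simp
  have h4 : (s : ℝ) / (16 * n) * (n / (s - 1 - n)) ≤ 1 / 8 := by
    have e1 : (0 : ℝ) < s - 1 - n := by linarith
    rw [div_mul_div_comm, div_le_div_iff₀ (by positivity) (by norm_num)]
    nlinarith
  linarith

/-- Small translates. -/
theorem disp_small (hΓ : Coc Γ) {χ : SUGroup n → ℝ} (hχ : Cut Γ χ) {s : ℕ} (hn : 1 ≤ n)
    (hs : 2 * n + 2 ≤ s) {L H : Vec n → Mat m} (hL : Met ρ L) (hH : Met ρ H) {c : ℝ} (hc : 0 < c)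
    (hmass : 3 / 4 ≤ ∫ x in {x : SUGroup n | disp χ L H x ^ 2 ≤ 8 * c / s ∧
      ch x ^ 2 - 1 ≤ 16 * n / s}, kap s x ∂(mu n)) {b : SUGroup n}
    (hb : ch b ^ 2 - 1 ≤ 1 / (400 * n * s)) :
    disp χ L L b ≤ 2 * Real.sqrt (8 * c / s) := by
  set A := {x : SUGroup n | disp χ L H x ^ 2 ≤ 8 * c / s ∧ ch x ^ 2 - 1 ≤ 16 * n / s} with hA
  have hAm : MeasurableSet A := by
    have h1 : IsClosed A := by
      apply IsClosed.inter
      · exact isClosed_le (continuous_disp_sq hχ hL hH) continuous_const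
      · exact isClosed_le ((continuous_ch.pow 2).sub continuous_const) continuous_const
    exact h1.measurableSet
  have hk := integrable_kap (n := n) (s := s) (by omega)
  have hk1 := integral_kap (n := n) (s := s) (by omega)
  obtain ⟨y, hy1, hy2⟩ : ∃ y, y ∈ A ∧ b⁻¹ * y ∈ A := by
    by_contra hno
    push Not at hno
    set B : Set (SUGroup n) := (fun y => b⁻¹ * y) ⁻¹' A with hB
    have hBm : MeasurableSet B := (measurable_const_mul b⁻¹) hAm
    have hdisj : Disjoint A B := by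
      rw [Set.disjoint_left]
      intro y h1 h2
      exact hno y h1 h2
    have h1 : ∫ x in A ∪ B, kap s x ∂(mu n) = ∫ x in A, kap s x ∂(mu n) +
        ∫ x in B, kap s x ∂(mu n) :=
      setIntegral_union hdisj hBm hk.integrableOn hk.integrableOn
    have h2 : ∫ x in A ∪ B, kap s x ∂(mu n) ≤ 1 := by
      rw [← hk1]
      exact setIntegral_le_integral hk (ae_of_all _ fun x => kap_nonneg s x)
    have h3 : 1 / 2 * ∫ x in A, kap s x ∂(mu n) ≤ ∫ x in B, kap s x ∂(mu n) := by
      have e1 : ∫ x in B, kap s x ∂(mu n) = ∫ x, A.indicator (fun x => kap s (b * x)) x ∂(mu n) := by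
        rw [← integral_indicator hBm, ← integral_mul_left_eq_self (μ := mu n) _ b]
        congr 1
        funext x
        by_cases hx : x ∈ A
        · rw [Set.indicator_of_mem hx, Set.indicator_of_mem]
          show b⁻¹ * (b * x) ∈ A
          rwa [inv_mul_cancel_left]
        · rw [Set.indicator_of_notMem hx, Set.indicator_of_notMem]
          show ¬ (b⁻¹ * (b * x) ∈ A)
          rwa [inv_mul_cancel_left]
      rw [e1, ← integral_indicator hAm, ← integral_const_mul]
      refine integral_mono ((hk.indicator hAm).const_mul _)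
        ((hk.comp_mul_left b).indicator hAm) fun x => ?_
      by_cases hx : x ∈ A
      · simp only [Set.indicator_of_mem hx]
        exact kap_mul_ge (by omega) (by omega) hb hx.2 hn
      · simp only [Set.indicator_of_notMem hx, mul_zero, le_refl]
    linarith
  have h1 := disp_triangle hΓ hχ hL hH hL b y
  have h2 : disp χ H L (y⁻¹ * b) = disp χ L H (b⁻¹ * y) := by
    rw [disp_symm hΓ hχ hH hL, _root_.mul_inv_rev, inv_inv]
  rw [h2] at h1
  have h3 : disp χ L H y ≤ Real.sqrt (8 * c / s) := Real.le_sqrt_of_sq_le hy1.1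
  have h4 : disp χ L H (b⁻¹ * y) ≤ Real.sqrt (8 * c / s) := Real.le_sqrt_of_sq_le hy2.1
  linarith

/-- **The displacement bound.** -/
theorem disp_bound (hΓ : Coc Γ) {χ : SUGroup n → ℝ} (hχ : Cut Γ χ) {s : ℕ} (hn : 1 ≤ n)
    (hs : 2 * n + 2 ≤ s) {L H : Vec n → Mat m} (hL : Met ρ L) (hH : Met ρ H) {c : ℝ} (hc : 0 < c)
    (hmass : 3 / 4 ≤ ∫ x in {x : SUGroup n | disp χ L H x ^ 2 ≤ 8 * c / s ∧
      ch x ^ 2 - 1 ≤ 16 * n / s}, kap s x ∂(mu n)) (x : SUGroup n) :
    disp χ L L x ≤ 2 * Real.sqrt (8 * c) * (30 * n * Real.log (wt x) + 2 / Real.sqrt s) := by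
  have hn' : (1 : ℝ) ≤ n := by exact_mod_cast hn
  have hs0 : (2 : ℝ) * n + 2 ≤ s := by exact_mod_cast hs
  have hsp : (0 : ℝ) < s := by linarith
  have hsq : 0 < Real.sqrt s := Real.sqrt_pos.2 hsp
  have hsq1 : 1 ≤ Real.sqrt s := Real.one_le_sqrt.2 (by linarith)
  set u := Real.log (wt x) with hu
  have hu0 : 0 ≤ u := log_wt_nonneg x
  set K : ℝ := 30 * n * Real.sqrt s * u with hK
  have hK0 : 0 ≤ K := by positivity
  set N : ℕ := ⌈K⌉₊ + 1 with hN
  have hNK : K ≤ N := by
    rw [hN]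
    push_cast
    have := Nat.le_ceil K
    linarith
  have hN2 : (N : ℝ) ≤ K + 2 := by
    rw [hN]
    push_cast
    have := Nat.ceil_lt_add_one hK0
    linarith
  have hN1 : 1 ≤ N := by omega
  have hN1' : (1 : ℝ) ≤ N := by exact_mod_cast hN1
  obtain ⟨l, hl1, hl2, hl3⟩ := exists_factor hn x N hN1
  have hsm : ∀ y ∈ l, disp χ L L y ≤ 2 * Real.sqrt (8 * c / s) := by
    intro y hy
    have h1 := hl3 y hy
    have h2 : (N : ℝ) * Real.log (wt y) = u := by
      rw [← Real.log_pow, h1]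
    have h3 : Real.log (wt y) ≤ 1 / (30 * n * Real.sqrt s) := by
      rw [le_div_iff₀ (by positivity)]
      by_contra hneg
      push Not at hneg
      have h4 : 0 ≤ Real.log (wt y) := log_wt_nonneg y
      have h5 : K = (N : ℝ) * (Real.log (wt y) * (30 * n * Real.sqrt s)) := by
        rw [hK, ← h2]
        ring
      nlinarith
    have h4 : 0 ≤ Real.log (wt y) := log_wt_nonneg y
    have h5 : 1 / (30 * n * Real.sqrt s) ≤ 1 := by
      rw [div_le_one (by positivity)]
      nlinarith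
    have h6 := ch_sq_le y (h3.trans h5)
    have h7 : Real.log (wt y) ^ 2 ≤ (1 / (30 * n * Real.sqrt s)) ^ 2 := pow_le_pow_left₀ h4 h3 2
    have h8 : (1 / (30 * n * Real.sqrt s)) ^ 2 = 1 / (900 * n ^ 2 * s) := by
      rw [div_pow, mul_pow, mul_pow, Real.sq_sqrt hsp.le]
      norm_num
    refine disp_small hΓ hχ hn hs hL hH hc hmass ?_
    refine h6.trans ?_
    rw [h8] at h7
    calc 9 / 4 * Real.log (wt y) ^ 2 ≤ 9 / 4 * (1 / (900 * (n : ℝ) ^ 2 * s)) := by linarith
      _ = 1 / (400 * (n : ℝ) ^ 2 * s) := by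
          field_simp
          norm_num
      _ ≤ 1 / (400 * (n : ℝ) * s) := by
          apply one_div_le_one_div_of_le (by positivity)
          nlinarith [mul_pos (show (0 : ℝ) < n by linarith) hsp]
  have h1 := disp_list hΓ hχ hL _ l hsm
  rw [hl1, hl2] at h1
  refine h1.trans ?_
  rw [Real.sqrt_div (by positivity)]
  have h2 : (N : ℝ) * (2 * (Real.sqrt (8 * c) / Real.sqrt s)) ≤
      (K + 2) * (2 * (Real.sqrt (8 * c) / Real.sqrt s)) :=
    mul_le_mul_of_nonneg_right hN2 (by positivity)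
  refine h2.trans (le_of_eq ?_)
  rw [hK]
  field_simp

/-- `L` and `H` are close to each other. -/
theorem disp_LH (hΓ : Coc Γ) {χ : SUGroup n → ℝ} (hχ : Cut Γ χ) {s : ℕ} (hn : 1 ≤ n)
    (hs : 2 * n + 2 ≤ s) {L H : Vec n → Mat m} (hL : Met ρ L) (hH : Met ρ H) {c : ℝ} (hc : 0 < c)
    (hmass : 3 / 4 ≤ ∫ x in {x : SUGroup n | disp χ L H x ^ 2 ≤ 8 * c / s ∧
      ch x ^ 2 - 1 ≤ 16 * n / s}, kap s x ∂(mu n)) :
    disp χ L H 1 ≤ Real.sqrt (8 * c) * (240 * n * Real.sqrt n + 5) / Real.sqrt s := by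
  have hn' : (1 : ℝ) ≤ n := by exact_mod_cast hn
  have hs0 : (2 : ℝ) * n + 2 ≤ s := by exact_mod_cast hs
  have hsp : (0 : ℝ) < s := by linarith
  have hsq : 0 < Real.sqrt s := Real.sqrt_pos.2 hsp
  obtain ⟨x, hx⟩ : ({x : SUGroup n | disp χ L H x ^ 2 ≤ 8 * c / s ∧
      ch x ^ 2 - 1 ≤ 16 * n / s}).Nonempty := by
    by_contra hne
    rw [Set.not_nonempty_iff_eq_empty] at hne
    rw [hne, setIntegral_empty] at hmass
    norm_num at hmass
  have h1 := disp_triangle hΓ hχ hL hL hH 1 x⁻¹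
  rw [inv_inv, mul_one] at h1
  have h2 := disp_bound hΓ hχ hn hs hL hH hc hmass x⁻¹
  have h3 : Real.log (wt x⁻¹) ≤ 4 * Real.sqrt n / Real.sqrt s := by
    rw [wt_inv]
    refine (log_wt_le x).trans ?_
    have e1 : Real.sqrt (ch x ^ 2 - 1) ≤ Real.sqrt (16 * n / s) := Real.sqrt_le_sqrt hx.2
    refine e1.trans (le_of_eq ?_)
    rw [Real.sqrt_div (by positivity), Real.sqrt_mul (by norm_num)]
    congr 2
    rw [show (16 : ℝ) = 4 ^ 2 by norm_num, Real.sqrt_sq (by norm_num)]
  have h4 : disp χ L H x ≤ Real.sqrt (8 * c) / Real.sqrt s := by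
    rw [← Real.sqrt_div (by positivity)]
    exact Real.le_sqrt_of_sq_le hx.1
  have h5 : 30 * n * Real.log (wt x⁻¹) + 2 / Real.sqrt s ≤
      (120 * n * Real.sqrt n + 2) / Real.sqrt s := by
    have := mul_le_mul_of_nonneg_left h3 (show (0 : ℝ) ≤ 30 * n by positivity)
    have e2 : (120 * n * Real.sqrt n + 2) / Real.sqrt s =
        30 * n * (4 * Real.sqrt n / Real.sqrt s) + 2 / Real.sqrt s := by
      field_simp
      ring
    rw [e2]
    linarith
  have h6 := mul_le_mul_of_nonneg_left h5 (show (0 : ℝ) ≤ 2 * Real.sqrt (8 * c) by positivity)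
  have h7 : 2 * Real.sqrt (8 * c) * ((120 * n * Real.sqrt n + 2) / Real.sqrt s) +
      Real.sqrt (8 * c) / Real.sqrt s =
      Real.sqrt (8 * c) * (240 * n * Real.sqrt n + 5) / Real.sqrt s := by
    field_simp
    ring
  linarith

end bound

end Pool.Agent.Lib.MP_5d4057_al.HM.DD
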