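import Pool.Agent.Lib.MP_5d4057_al.HM.D3

/-!
The centre (blueprint D4): irreducibility bounds the distance from a fixed reference metric.
-/

namespace Pool.Agent.Lib.MP_5d4057_al.HM.DD

open Matrix MeasureTheory Filter Topology Pool.Agent.Lib.MP_5d4057_al Pool.Agent.Lib.MP_5d4057_al.Hyb

open scoped ComplexOrder MatrixOrder Matrix.Norms.L2Operator

variable {n m : ℕ} {Γ : Subgroup (SUGroup n)} {ρ : Γ →* Mat m}

theorem smul_met {L : Vec n → Mat m} (hL : Met ρ L) {t : ℝ} (ht : 0 < t) :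
    Met ρ (fun v => (t : ℂ) • L v) where
  hom c hc v hv := by simp only [hL.hom c hc v hv]
  cont := by
    have h : Continuous fun A : Mat m => (t : ℂ) • A := continuous_const_smul _
    exact h.comp_continuousOn hL.cont
  pos v hv := by
    have h := (hL.pos v hv).smul (Complex.zero_lt_real.2 ht)
    exact h
  equi γ v hv := by
    simp only [hL.equi γ v hv, Matrix.mul_smul, Matrix.smul_mul]

theorem dT_smul {a b : Mat m} {t : ℝ} (ht : 0 < t) :
    dT ((t : ℂ) • a) ((t : ℂ) • b) = dT a b := by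
  have h1 : IsUnit (((Real.sqrt t : ℝ) : ℂ) • (1 : Mat m)) := by
    have h2 : ((Real.sqrt t : ℝ) : ℂ) ≠ 0 := by
      exact_mod_cast (Real.sqrt_pos.2 ht).ne'
    exact (isUnit_one (M := Mat m)).smul (Units.mk0 _ h2)
  have h3 := dT_conj (a := a) (b := b) _ h1
  have h4 : ∀ c : Mat m, (((Real.sqrt t : ℝ) : ℂ) • (1 : Mat m)) * c *
      (((Real.sqrt t : ℝ) : ℂ) • (1 : Mat m))ᴴ = (t : ℂ) • c := by
    intro c
    rw [conjTranspose_smul, conjTranspose_one, Matrix.smul_mul, Matrix.one_mul, Matrix.mul_smul,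
      Matrix.mul_one, smul_smul]
    congr 1
    rw [Complex.star_def, Complex.conj_ofReal, ← Complex.ofReal_mul, Real.mul_self_sqrt ht.le]
  rw [h4, h4] at h3
  exact h3

theorem disp_smul (χ : SUGroup n → ℝ) (A B : Vec n → Mat m) {t : ℝ} (ht : 0 < t) (x : SUGroup n) :
    disp χ (fun v => (t : ℂ) • A v) (fun v => (t : ℂ) • B v) x = disp χ A B x := by
  unfold disp dd
  simp only [dT_smul ht]

theorem II_one_pos (hΓ : Coc Γ) {χ : SUGroup n → ℝ} (hχ : Cut Γ χ) : 0 < II χ fun _ => (1 : ℝ) := by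
  have h0 : 0 ≤ II χ fun _ => (1 : ℝ) := II_nonneg hχ fun _ => zero_le_one
  refine lt_of_le_of_ne h0 fun h => ?_
  have h1 := eq_zero_of_II hΓ hχ (f := fun _ => (1 : ℝ)) continuous_const (fun _ _ _ => rfl)
    (fun _ => zero_le_one) h.symm 1
  norm_num at h1

theorem measurableSet_ball (T : ℝ) : MeasurableSet {x : SUGroup n | ch x ≤ T} :=
  (isClosed_le continuous_ch continuous_const).measurableSet

theorem ball_pos : 0 < (mu n).real {x : SUGroup n | ch x ≤ 2} := by
  rw [Measure.real, ENNReal.toReal_pos_iff]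
  refine ⟨?_, (isCompact_ball 2).measure_lt_top⟩
  have h1 : IsOpen {x : SUGroup n | ch x < 2} := isOpen_lt continuous_ch continuous_const
  have h2 : ({x : SUGroup n | ch x < 2}).Nonempty := ⟨1, by
    show ch (1 : SUGroup n) < 2
    rw [ch_one]
    norm_num⟩
  exact (h1.measure_pos (mu n) h2).trans_le (measure_mono fun x (hx : ch x < 2) => hx.le)

/-- The function `g ↦ ∫_B d(L g, L (g x))² dx`. -/
noncomputable def osc (L : Vec n → Mat m) (T : ℝ) (g : SUGroup n) : ℝ :=
  ∫ x in {x : SUGroup n | ch x ≤ T}, dd L L x g ^ 2 ∂(mu n)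

theorem osc_nonneg (L : Vec n → Mat m) (T : ℝ) (g : SUGroup n) : 0 ≤ osc L T g :=
  integral_nonneg fun _ => sq_nonneg _

/-- Tonelli. -/
theorem II_osc {χ : SUGroup n → ℝ} (hχ : Cut Γ χ) {L : Vec n → Mat m} (hL : Met ρ L)
    (T : ℝ) : II χ (osc L T) = ∫ x in {x : SUGroup n | ch x ≤ T}, disp χ L L x ^ 2 ∂(mu n) := by
  have hc : Continuous fun p : SUGroup n × SUGroup n => χ p.1 * dd L L p.2 p.1 ^ 2 :=
    (hχ.cont.comp continuous_fst).mul ((continuous_dd' hL hL).pow 2)
  have hi : Integrable (fun p : SUGroup n × SUGroup n => χ p.1 * dd L L p.2 p.1 ^ 2)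
      (((mu n).restrict (tsupport χ)).prod ((mu n).restrict {x : SUGroup n | ch x ≤ T})) := by
    rw [Measure.prod_restrict]
    exact hc.continuousOn.integrableOn_compact (hχ.supp.isCompact.prod (isCompact_ball T))
  have h1 : II χ (osc L T) = ∫ g in tsupport χ, ∫ x in {x : SUGroup n | ch x ≤ T},
      χ g * dd L L x g ^ 2 ∂(mu n) ∂(mu n) := by
    rw [II, ← setIntegral_eq_integral_of_forall_compl_eq_zero (s := tsupport χ)]
    · congr 1
      funext g
      rw [smul_eq_mul, osc, ← integral_const_mul]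
    · intro g hg
      rw [image_eq_zero_of_notMem_tsupport hg, zero_smul]
  rw [h1, integral_integral_swap hi]
  congr 1
  funext x
  have e : ∫ g in tsupport χ, χ g • dd L L x g ^ 2 ∂(mu n) = ∫ g, χ g • dd L L x g ^ 2 ∂(mu n) :=
    setIntegral_eq_integral_of_forall_compl_eq_zero fun g hg => by
      rw [image_eq_zero_of_notMem_tsupport hg, zero_smul]
  rw [disp, nm_sq hχ, II, ← e]
  simp only [smul_eq_mul]

/-- Some point of the support of `χ` has small oscillation. -/
theorem exists_good (hΓ : Coc Γ) {χ : SUGroup n → ℝ} (hχ : Cut Γ χ) {L : Vec n → Mat m}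
    (hL : Met ρ L) (T : ℝ) {c : ℝ}
    (hc : ∫ x in {x : SUGroup n | ch x ≤ T}, disp χ L L x ^ 2 ∂(mu n) ≤ c) :
    ∃ g ∈ tsupport χ, osc L T g ≤ (c + 1) / II χ fun _ => (1 : ℝ) := by
  by_contra hno
  push Not at hno
  have hv := II_one_pos hΓ hχ
  set v := II χ fun _ => (1 : ℝ) with hvdef
  have hc' : Continuous fun p : SUGroup n × SUGroup n => χ p.1 * dd L L p.2 p.1 ^ 2 :=
    (hχ.cont.comp continuous_fst).mul ((continuous_dd' hL hL).pow 2)
  have hi : Integrable (fun p : SUGroup n × SUGroup n => χ p.1 * dd L L p.2 p.1 ^ 2)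
      (((mu n).restrict (tsupport χ)).prod ((mu n).restrict {x : SUGroup n | ch x ≤ T})) := by
    rw [Measure.prod_restrict]
    exact hc'.continuousOn.integrableOn_compact (hχ.supp.isCompact.prod (isCompact_ball T))
  have hi2 := hi.integral_prod_left
  have e1 : ∀ g, ∫ x in {x : SUGroup n | ch x ≤ T}, χ g * dd L L x g ^ 2 ∂(mu n) =
      χ g * osc L T g := by
    intro g
    rw [osc, ← integral_const_mul]
  simp only [e1] at hi2
  have hi3 : IntegrableOn (fun g => χ g * osc L T g) (tsupport χ) (mu n) := hi2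
  have h1 : ∫ g in tsupport χ, χ g * ((c + 1) / v) ∂(mu n) ≤
      ∫ g in tsupport χ, χ g * osc L T g ∂(mu n) := by
    refine setIntegral_mono_on (hχ.integrable.mul_const _).integrableOn hi3
      (isClosed_tsupport χ).measurableSet fun g hg => ?_
    exact mul_le_mul_of_nonneg_left (hno g hg).le (hχ.nonneg g)
  have h2 : ∫ g in tsupport χ, χ g * osc L T g ∂(mu n) = II χ (osc L T) := by
    rw [II, setIntegral_eq_integral_of_forall_compl_eq_zero]
    · simp only [smul_eq_mul]
    · intro g hg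
      rw [image_eq_zero_of_notMem_tsupport hg, zero_mul]
  have h3 : ∫ g in tsupport χ, χ g * ((c + 1) / v) ∂(mu n) = v * ((c + 1) / v) := by
    rw [integral_mul_const]
    congr 1
    rw [hvdef, II, setIntegral_eq_integral_of_forall_compl_eq_zero]
    · simp only [smul_eq_mul, mul_one]
    · intro g hg
      rw [image_eq_zero_of_notMem_tsupport hg]
  have h4 : v * ((c + 1) / v) = c + 1 := by field_simp
  rw [h2, h3, h4, II_osc hχ hL] at h1
  linarith

/-- Chebyshev: a point `x` in the ball of radius two such that `L` moves little both at `x` and at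
`h x`. -/
theorem exists_point {L : Vec n → Mat m} (hL : Met ρ L) {T : ℝ} {g h : SUGroup n}
    (hT : 4 * ch h ≤ T) {c u : ℝ} (hu : 0 < u) (ho : osc L T g ≤ c)
    (hc : 2 * c < u ^ 2 * (mu n).real {x : SUGroup n | ch x ≤ 2}) :
    ∃ x, dd L L x g ≤ u ∧ dd L L (h * x) g ≤ u := by
  set B := {x : SUGroup n | ch x ≤ T} with hB
  set B1 := {x : SUGroup n | ch x ≤ 2} with hB1
  have hch := one_le_ch h
  have hB1B : B1 ⊆ B := fun x (hx : ch x ≤ 2) => by
    show ch x ≤ T
    linarith
  set E := {x : SUGroup n | ch x ≤ T ∧ u < dd L L x g} with hE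
  have hcx : Continuous fun x => dd L L x g := by
    have h1 : Continuous fun x : SUGroup n => L (act (g * x) (base n)) :=
      (met_cont hL).comp (continuous_const_mul g)
    unfold dd
    exact continuousOn_dT.comp_continuous (f := fun x : SUGroup n =>
      (L (act g (base n)), L (act (g * x) (base n)))) (continuous_const.prodMk h1)
      fun x => ⟨met_pos hL _, met_pos hL _⟩
  have hEm : MeasurableSet E :=
    (measurableSet_ball T).inter (isOpen_lt continuous_const hcx).measurableSet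
  have hBf : (mu n) B ≠ ⊤ := (isCompact_ball T).measure_lt_top.ne
  have hEf : (mu n) E ≠ ⊤ := ne_top_of_le_ne_top hBf (measure_mono fun x hx => hx.1)
  have hi : IntegrableOn (fun x => dd L L x g ^ 2) B (mu n) :=
    (hcx.pow 2).continuousOn.integrableOn_compact (isCompact_ball T)
  have h1 : u ^ 2 * (mu n).real E ≤ c := by
    refine le_trans ?_ ho
    have e1 : ∫ x in E, u ^ 2 ∂(mu n) = u ^ 2 * (mu n).real E := by
      rw [setIntegral_const, smul_eq_mul, mul_comm]
    rw [← e1, osc]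
    have hEB : E ⊆ B := fun x hx => hx.1
    refine le_trans ?_ (setIntegral_mono_set hi (ae_of_all _ fun x => sq_nonneg _)
      (ae_of_all _ hEB))
    refine setIntegral_mono_on (integrableOn_const hEf) (hi.mono_set fun x hx => hx.1) hEm
      fun x hx => pow_le_pow_left₀ hu.le hx.2.le 2
  by_contra hno
  push Not at hno
  have h2 : B1 ⊆ E ∪ (fun x => h * x) ⁻¹' E := by
    intro x hx
    have hx2 : ch x ≤ 2 := hx
    have hhx : ch (h * x) ≤ T := by
      have := ch_mul_le' h x
      nlinarith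
    by_cases h3 : dd L L x g ≤ u
    · exact Or.inr ⟨hhx, hno x h3⟩
    · exact Or.inl ⟨hB1B hx, not_le.1 h3⟩
  have h3 : (mu n).real ((fun x => h * x) ⁻¹' E) = (mu n).real E := by
    rw [Measure.real, measure_preimage_mul]
    rfl
  have hpf : (mu n) ((fun x => h * x) ⁻¹' E) ≠ ⊤ := by
    rw [measure_preimage_mul]
    exact hEf
  have h4 : (mu n).real B1 ≤ (mu n).real E + (mu n).real E := by
    calc (mu n).real B1 ≤ (mu n).real (E ∪ (fun x => h * x) ⁻¹' E) :=
          measureReal_mono h2 (measure_union_ne_top hEf hpf)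
      _ ≤ (mu n).real E + (mu n).real ((fun x => h * x) ⁻¹' E) := measureReal_union_le _ _
      _ = _ := by rw [h3]
  nlinarith [sq_nonneg u]

/-- **The centre.** -/
theorem centre (hm : 0 < m) (hΓ : Coc Γ) {χ : SUGroup n → ℝ} (hχ : Cut Γ χ)
    (hρ : Submodule.span ℂ (Set.range ρ) = ⊤) {F₀ : Vec n → Mat m} (hF₀ : Met ρ F₀) (C₀ : ℝ) :
    ∃ C : ℝ, 0 < C ∧ ∀ L : Vec n → Mat m, Met ρ L →
      (∀ x, disp χ L L x ≤ C₀ * (Real.log (wt x) + 1)) →
        ∃ t : ℝ, 0 < t ∧ disp χ F₀ (fun v => (t : ℂ) • L v) 1 ≤ C := by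
  classical
  obtain ⟨T, hT⟩ := exists_finite_span ρ hρ
  have hK := hχ.supp.isCompact
  -- a bound for the conjugates
  obtain ⟨T1, hT1⟩ : ∃ T1 : ℝ, ∀ γ ∈ T, ∀ g ∈ tsupport χ, ch (g⁻¹ * (γ : SUGroup n) * g) ≤ T1 := by
    have h1 : ∀ γ : Γ, ∃ c : ℝ, ∀ g ∈ tsupport χ, ch (g⁻¹ * (γ : SUGroup n) * g) ≤ c := by
      intro γ
      have hc : ContinuousOn (fun g : SUGroup n => ch (g⁻¹ * (γ : SUGroup n) * g)) (tsupport χ) := by
        have : Continuous fun g : SUGroup n => g⁻¹ * (γ : SUGroup n) * g :=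
          (continuous_inv.mul continuous_const).mul continuous_id
        exact (continuous_ch.comp this).continuousOn
      obtain ⟨c, hc⟩ := hK.bddAbove_image hc
      exact ⟨c, fun g hg => hc ⟨g, hg, rfl⟩⟩
    choose c hc using h1
    refine ⟨∑ γ ∈ T, |c γ|, fun γ hγ g hg => (hc γ g hg).trans ((le_abs_self _).trans ?_)⟩
    exact Finset.single_le_sum (f := fun γ => |c γ|) (fun _ _ => abs_nonneg _) hγ
  -- a bound for the quotients
  obtain ⟨T2, hT2⟩ : ∃ T2 : ℝ, ∀ g ∈ tsupport χ, ∀ h ∈ tsupport χ, ch (g⁻¹ * h) ≤ T2 := by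
    have hc : Continuous fun p : SUGroup n × SUGroup n => ch (p.1⁻¹ * p.2) := by
      have : Continuous fun p : SUGroup n × SUGroup n => p.1⁻¹ * p.2 :=
        (continuous_inv.comp continuous_fst).mul continuous_snd
      exact continuous_ch.comp this
    obtain ⟨c, hc⟩ := (hK.prod hK).bddAbove_image hc.continuousOn
    exact ⟨c, fun g hg h hh => hc ⟨(g, h), ⟨hg, hh⟩, rfl⟩⟩
  set R : ℝ := max 2 (max (4 * T1) T2) with hR
  have hR2 : (2 : ℝ) ≤ R := le_max_left _ _
  have hR1 : 4 * T1 ≤ R := (le_max_left _ _).trans (le_max_right _ _)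
  have hR3 : T2 ≤ R := (le_max_right _ _).trans (le_max_right _ _)
  -- the integral of the displacement
  set b : ℝ := (mu n).real {x : SUGroup n | ch x ≤ R} with hb
  have hb0 : 0 ≤ b := measureReal_nonneg
  set cB : ℝ := b * (|C₀| * (Real.log (2 * R) + 1)) ^ 2 with hcB
  have hv := II_one_pos hΓ hχ
  set v := II χ fun _ => (1 : ℝ) with hvdef
  set c2 : ℝ := (cB + 1) / v with hc2
  have hcB0 : 0 ≤ cB := by positivity
  have hc20 : 0 < c2 := by positivity
  have hb1 := ball_pos (n := n)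
  set b1 := (mu n).real {x : SUGroup n | ch x ≤ 2} with hb1def
  set u : ℝ := Real.sqrt (2 * c2 / b1) + 1 with hu
  have hu0 : 0 < u := by positivity
  have hu2 : 2 * c2 < u ^ 2 * b1 := by
    have h1 : 0 ≤ 2 * c2 / b1 := by positivity
    have h2 := Real.sq_sqrt h1
    have h3 := Real.sqrt_nonneg (2 * c2 / b1)
    have h4 : 2 * c2 / b1 < u ^ 2 := by
      rw [hu]
      nlinarith
    rwa [div_lt_iff₀ hb1] at h4
  obtain ⟨δ, hδ, hδ2⟩ := exists_delta (fun γ : T => ρ (γ : Γ)) (by
    rw [← hT]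
    congr 1
    ext A
    simp [Set.mem_image, Set.mem_range]) (Real.exp (2 * u))
  obtain ⟨c3, hc3⟩ : ∃ c3 : ℝ, ∀ g ∈ tsupport χ, dT (F₀ (act g (base n))) 1 ≤ c3 := by
    have hc : Continuous fun g : SUGroup n => dT (F₀ (act g (base n))) 1 :=
      continuousOn_dT.comp_continuous (f := fun g : SUGroup n => (F₀ (act g (base n)), (1 : Mat m)))
        ((met_cont hF₀).prodMk continuous_const) fun g => ⟨met_pos hF₀ _, Matrix.PosDef.one⟩
    obtain ⟨c, hc⟩ := hK.bddAbove_image hc.continuousOn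
    exact ⟨c, fun g hg => hc ⟨g, hg, rfl⟩⟩
  set c4 : ℝ := |c3| + |Real.log δ| with hc4
  refine ⟨Real.sqrt (2 * c4 ^ 2 * v + 2 * c2) + 1, by positivity, fun L hL hdisp => ?_⟩
  -- the integral of the displacement
  have hint : ∫ x in {x : SUGroup n | ch x ≤ R}, disp χ L L x ^ 2 ∂(mu n) ≤ cB := by
    have hfin : (mu n) {x : SUGroup n | ch x ≤ R} ≠ ⊤ := (isCompact_ball R).measure_lt_top.ne
    have e1 : ∫ x in {x : SUGroup n | ch x ≤ R}, (|C₀| * (Real.log (2 * R) + 1)) ^ 2 ∂(mu n) = cB := by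
      rw [setIntegral_const, smul_eq_mul]
    rw [← e1]
    refine setIntegral_mono_on
      ((continuous_disp_sq hχ hL hL).continuousOn.integrableOn_compact (isCompact_ball R))
      (integrableOn_const hfin) (measurableSet_ball R) fun x hx => ?_
    refine pow_le_pow_left₀ (disp_nonneg _ _ _ _) ((hdisp x).trans ?_) 2
    have h1 : Real.log (wt x) ≤ Real.log (2 * R) := by
      apply Real.log_le_log (wt_pos x)
      have := wt_le x
      have h2 : ch x ≤ R := hx
      linarith
    have h2 := log_wt_nonneg x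
    exact (mul_le_mul_of_nonneg_right (le_abs_self C₀) (by linarith)).trans
      (mul_le_mul_of_nonneg_left (by linarith) (abs_nonneg _))
  obtain ⟨g₀, hg₀, ho⟩ := exists_good hΓ hχ hL R hint
  set A₀ := L (act g₀ (base n)) with hA₀
  have hA₀p : A₀.PosDef := met_pos hL g₀
  have : Nonempty (Fin m) := ⟨⟨0, hm⟩⟩
  have htr : 0 < A₀.trace.re := by
    have h1 := hA₀p.trace_pos
    exact (Complex.lt_def.1 h1).1
  have htr2 : A₀.trace = (A₀.trace.re : ℂ) := by
    have h1 := hA₀p.trace_pos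
    have h2 := (Complex.lt_def.1 h1).2
    apply Complex.ext
    · simp
    · rw [← h2]
      simp
  -- the displacement of the generators
  have hgen : ∀ γ ∈ T, ρ γ * A₀ * (ρ γ)ᴴ ≤ (Real.exp (2 * u) : ℂ) • A₀ := by
    intro γ hγ
    set h : SUGroup n := g₀⁻¹ * (γ : SUGroup n) * g₀ with hh
    have hhT : 4 * ch h ≤ R := by
      have := hT1 γ hγ g₀ hg₀
      linarith
    obtain ⟨x, hx1, hx2⟩ := exists_point hL hhT hu0 ho hu2
    have e1 : g₀ * (h * x) = (γ : SUGroup n) * (g₀ * x) := by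
      rw [hh]
      group
    have e2 : L (act (g₀ * (h * x)) (base n)) = ρ γ * L (act (g₀ * x) (base n)) * (ρ γ)ᴴ := by
      rw [e1, act_mul]
      exact hL.equi γ _ (orbit_mem _)
    have hp1 : (ρ γ * A₀ * (ρ γ)ᴴ).PosDef := by
      have h1 := hL.equi γ _ (orbit_mem g₀)
      rw [← h1]
      exact hL.pos _ (act_mem _ (orbit_mem _))
    have h1 : dT (ρ γ * A₀ * (ρ γ)ᴴ) A₀ ≤ 2 * u := by
      have h2 := dT_triangle hp1 (met_pos hL (g₀ * (h * x))) hA₀p
      have h3 : dT (ρ γ * A₀ * (ρ γ)ᴴ) (L (act (g₀ * (h * x)) (base n))) ≤ u := by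
        rw [e2, dT_conj _ (isUnit_rho γ)]
        exact hx1
      have h4 : dT (L (act (g₀ * (h * x)) (base n))) A₀ ≤ u := by
        rw [dT_comm]
        exact hx2
      linarith
    refine (le_exp_dT hp1 hA₀p).trans ?_
    have h5 : ((Real.exp (dT (ρ γ * A₀ * (ρ γ)ᴴ) A₀) : ℝ) : ℂ) ≤ ((Real.exp (2 * u) : ℝ) : ℂ) := by
      exact_mod_cast Real.exp_le_exp.2 h1
    exact smul_le_smul_of_nonneg_right h5 hA₀p.posSemidef.nonneg
  set t : ℝ := (A₀.trace.re)⁻¹ with ht
  have ht0 : 0 < t := inv_pos.2 htr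
  refine ⟨t, ht0, ?_⟩
  have hA1 : ((t : ℂ) • A₀).PosDef := hA₀p.smul (Complex.zero_lt_real.2 ht0)
  have hlow : (δ : ℂ) • (1 : Mat m) ≤ (t : ℂ) • A₀ := by
    refine hδ2 _ hA1.posSemidef ?_ ?_
    · rw [trace_smul, htr2, ht, smul_eq_mul, ← Complex.ofReal_mul, inv_mul_cancel₀ htr.ne']
      simp
    · intro γ
      have h1 := hgen γ γ.2
      have h2 : ρ (γ : Γ) * ((t : ℂ) • A₀) * (ρ (γ : Γ))ᴴ = (t : ℂ) • (ρ (γ : Γ) * A₀ * (ρ (γ : Γ))ᴴ) := by
        rw [Matrix.mul_smul, Matrix.smul_mul]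
      rw [h2, smul_comm]
      have h3 : (0 : ℂ) ≤ (t : ℂ) := Complex.zero_le_real.2 ht0.le
      exact smul_le_smul_of_nonneg_left h1 h3
  have hup : (t : ℂ) • A₀ ≤ 1 := by
    have h1 := le_trace_smul_one hA1.posSemidef
    have h2 : ((t : ℂ) • A₀).trace.re = 1 := by
      rw [trace_smul, htr2, ht, smul_eq_mul, ← Complex.ofReal_mul, inv_mul_cancel₀ htr.ne']
      simp
    rw [h2] at h1
    simpa using h1
  have hd1 : dT 1 ((t : ℂ) • A₀) ≤ |Real.log δ| := by
    refine dT_le (abs_nonneg _) ?_ ?_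
    · -- 1 ≤ exp |log δ| • A
      have h1 : (1 : Mat m) ≤ ((δ⁻¹ : ℝ) : ℂ) • ((t : ℂ) • A₀) := by
        have h3 : (0 : ℂ) ≤ ((δ⁻¹ : ℝ) : ℂ) := Complex.zero_le_real.2 (inv_pos.2 hδ).le
        have h2 := smul_le_smul_of_nonneg_left hlow h3
        rwa [smul_smul, ← Complex.ofReal_mul, inv_mul_cancel₀ hδ.ne', Complex.ofReal_one,
          one_smul] at h2
      refine h1.trans (smul_le_smul_of_nonneg_right ?_ hA1.posSemidef.nonneg)
      have h4 : δ⁻¹ ≤ Real.exp |Real.log δ| := by
        rw [← Real.exp_log (inv_pos.2 hδ), Real.log_inv]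
        exact Real.exp_le_exp.2 (neg_le_abs _)
      exact_mod_cast h4
    · refine hup.trans ?_
      have h4 : (1 : ℝ) ≤ Real.exp |Real.log δ| := Real.one_le_exp (abs_nonneg _)
      have h5 : (1 : ℂ) ≤ ((Real.exp |Real.log δ| : ℝ) : ℂ) := by exact_mod_cast h4
      have h6 := smul_le_smul_of_nonneg_right h5 (Matrix.PosSemidef.one (n := Fin m) (R := ℂ)).nonneg
      rwa [one_smul] at h6
  -- the final estimate
  have htL := smul_met hL ht0
  have hpt : ∀ g ∈ tsupport χ, dd F₀ (fun v => (t : ℂ) • L v) 1 g ^ 2 ≤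
      2 * c4 ^ 2 + 2 * dT A₀ (L (act g (base n))) ^ 2 := by
    intro g hg
    have h1 : dd F₀ (fun v => (t : ℂ) • L v) 1 g ≤ c4 + dT A₀ (L (act g (base n))) := by
      unfold dd
      simp only [mul_one]
      have e1 := dT_triangle (met_pos hF₀ g) Matrix.PosDef.one (met_pos htL g)
      have e2 := dT_triangle (Matrix.PosDef.one (n := Fin m) (R := ℂ)) hA1 (met_pos htL g)
      simp only [dT_smul ht0] at e2
      have e3 := hc3 g hg
      have e4 := le_abs_self c3
      linarith
    have h2 : 0 ≤ dT A₀ (L (act g (base n))) := dT_nonneg _ _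
    have h3 := pow_le_pow_left₀ (dd_nonneg F₀ (fun v => (t : ℂ) • L v) 1 g) h1 2
    nlinarith [sq_nonneg (c4 - dT A₀ (L (act g (base n))))]
  have hcont1 : Continuous fun g : SUGroup n => dT A₀ (L (act g (base n))) :=
    continuousOn_dT.comp_continuous (f := fun g : SUGroup n => (A₀, L (act g (base n))))
      (continuous_const.prodMk (met_cont hL)) fun g => ⟨hA₀p, met_pos hL g⟩
  have hi1 : Integrable (fun g => χ g * (2 * c4 ^ 2 + 2 * dT A₀ (L (act g (base n))) ^ 2)) (mu n) := by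
    refine Continuous.integrable_of_hasCompactSupport ?_ hχ.supp.mul_right
    exact hχ.cont.mul (continuous_const.add (continuous_const.mul (hcont1.pow 2)))
  have hi2 : Integrable (fun g => χ g * dT A₀ (L (act g (base n))) ^ 2) (mu n) := by
    refine Continuous.integrable_of_hasCompactSupport ?_ hχ.supp.mul_right
    exact hχ.cont.mul (hcont1.pow 2)
  have hfin : II χ (fun g => dd F₀ (fun v => (t : ℂ) • L v) 1 g ^ 2) ≤ 2 * c4 ^ 2 * v + 2 * c2 := by
    have e1 : II χ (fun g => dd F₀ (fun v => (t : ℂ) • L v) 1 g ^ 2) ≤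
        ∫ g, χ g * (2 * c4 ^ 2 + 2 * dT A₀ (L (act g (base n))) ^ 2) ∂(mu n) := by
      refine integral_mono ((bm_dd hΓ hF₀ htL 1).sq.integrable hχ) hi1 fun g => ?_
      simp only [smul_eq_mul]
      by_cases hg : g ∈ tsupport χ
      · exact mul_le_mul_of_nonneg_left (hpt g hg) (hχ.nonneg g)
      · rw [image_eq_zero_of_notMem_tsupport hg, zero_mul, zero_mul]
    have e2 : ∫ g, χ g * (2 * c4 ^ 2 + 2 * dT A₀ (L (act g (base n))) ^ 2) ∂(mu n) =
        2 * c4 ^ 2 * v + 2 * ∫ g, χ g * dT A₀ (L (act g (base n))) ^ 2 ∂(mu n) := by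
      have e3 : (fun g => χ g * (2 * c4 ^ 2 + 2 * dT A₀ (L (act g (base n))) ^ 2)) =
          fun g => (2 * c4 ^ 2) * χ g + 2 * (χ g * dT A₀ (L (act g (base n))) ^ 2) := by
        funext g
        ring
      rw [e3, integral_add (hχ.integrable.const_mul _) (hi2.const_mul _), integral_const_mul,
        integral_const_mul, hvdef, II]
      simp only [smul_eq_mul, mul_one]
    have e4 : ∫ g, χ g * dT A₀ (L (act g (base n))) ^ 2 ∂(mu n) ≤ c2 := by
      refine le_trans ?_ ho
      rw [← integral_mul_left_eq_self (μ := mu n) _ g₀, osc,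
        ← integral_indicator (measurableSet_ball R)]
      have hcx : Continuous fun x => dd L L x g₀ := by
        have h1 : Continuous fun x : SUGroup n => L (act (g₀ * x) (base n)) :=
          (met_cont hL).comp (continuous_const_mul g₀)
        unfold dd
        exact continuousOn_dT.comp_continuous (f := fun x : SUGroup n =>
          (L (act g₀ (base n)), L (act (g₀ * x) (base n)))) (continuous_const.prodMk h1)
          fun x => ⟨met_pos hL _, met_pos hL _⟩
      refine integral_mono (hi2.comp_mul_left g₀) (((hcx.pow 2).continuousOn.integrableOn_compact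
        (isCompact_ball R)).integrable_indicator (measurableSet_ball R)) fun x => ?_
      simp only
      by_cases hx : g₀ * x ∈ tsupport χ
      · have hx2 : x ∈ {x : SUGroup n | ch x ≤ R} := by
          have := hT2 g₀ hg₀ _ hx
          rw [inv_mul_cancel_left] at this
          exact this.trans hR3
        rw [Set.indicator_of_mem hx2]
        have h1 := hχ.le_one (g₀ * x)
        have h2 : 0 ≤ dT A₀ (L (act (g₀ * x) (base n))) ^ 2 := sq_nonneg _
        have h3 : dd L L x g₀ ^ 2 = dT A₀ (L (act (g₀ * x) (base n))) ^ 2 := rfl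
        rw [h3]
        nlinarith
      · rw [image_eq_zero_of_notMem_tsupport hx, zero_mul]
        exact Set.indicator_nonneg (fun _ _ => sq_nonneg _) _
    rw [e2] at e1
    linarith
  have h9 : disp χ F₀ (fun v => (t : ℂ) • L v) 1 ≤ Real.sqrt (2 * c4 ^ 2 * v + 2 * c2) :=
    Real.sqrt_le_sqrt hfin
  linarith

end Pool.Agent.Lib.MP_5d4057_al.HM.DD
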