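import Pool.Agent.Lib.MP_5d4057_al.Hyb.Top

namespace Pool.Agent.Lib.MP_5d4057_al.HM

open Matrix MeasureTheory Pool.Agent.Lib.MP_5d4057_al Pool.Agent.Lib.MP_5d4057_al.Hyb

open scoped ComplexOrder MatrixOrder Matrix.Norms.L2Operator

/-- The vector space `ℂ^(n+1)` with the form `J n` of signature `(n,1)`. -/
abbrev Vec (n : ℕ) : Type := Fin (n + 1) → ℂ

/-- Square complex matrices (with the operator norm and the Loewner order). -/
abbrev Mat (m : ℕ) : Type := Matrix (Fin m) (Fin m) ℂ

variable {n m : ℕ} {E : Type} [NormedAddCommGroup E] [NormedSpace ℝ E]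

/-- The Hermitian form, antilinear in `v`. -/
def herm (v w : Vec n) : ℂ := star v ⬝ᵥ (J n *ᵥ w)

/-- The quadratic form. -/
def q (v : Vec n) : ℝ := (herm v v).re

/-- The cone of negative vectors. Functions on complex hyperbolic space are functions on the cone,
homogeneous of degree `0`. -/
def Cone (n : ℕ) : Set (Vec n) := {v | q v < 0}

/-- The base point. -/
def base (n : ℕ) : Vec n := Pi.single (Fin.last n) 1

/-- The linear action. -/
def act (g : SUGroup n) (v : Vec n) : Vec n := g.toMatrix *ᵥ v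

/-- `cosh` of the distance of the base point and its image. -/
noncomputable def ch (x : SUGroup n) : ℝ := ‖x.toMatrix (Fin.last n) (Fin.last n)‖

/-- `exp` of the distance of the base point and its image. -/
noncomputable def wt (x : SUGroup n) : ℝ := ch x + Real.sqrt (ch x ^ 2 - 1)

/-- The weight on the cone: `W (g e_n) = ch g ^ 2`. -/
noncomputable def W (v : Vec n) : ℝ := ‖v (Fin.last n)‖ ^ 2 / (- q v)

/-- Homogeneity of degree `0`. -/
def Homog {F : Type} (f : Vec n → F) : Prop := ∀ c : ℂ, c ≠ 0 → ∀ v ∈ Cone n, f (c • v) = f v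

instance (n : ℕ) : MeasurableSpace (SUGroup n) := borel _

instance (n : ℕ) : BorelSpace (SUGroup n) := ⟨rfl⟩

/-- Haar measure. -/
noncomputable def mu (n : ℕ) : Measure (SUGroup n) := Measure.haar

instance (n : ℕ) : (mu n).IsHaarMeasure :=
  inferInstanceAs (Measure.haar (G := SUGroup n)).IsHaarMeasure

/-- The kernel `(q v q w / |<v,w>|^2)^s`. -/
noncomputable def ker (s : ℕ) (v w : Vec n) : ℝ := (q v * q w / ‖herm v w‖ ^ 2) ^ s

/-- The normalising constant. -/
noncomputable def cs (n s : ℕ) : ℝ := ∫ x : SUGroup n, (ch x ^ (2 * s))⁻¹ ∂(mu n)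

/-- The normalised kernel as a function on the group. -/
noncomputable def kap (s : ℕ) (x : SUGroup n) : ℝ := (ch x ^ (2 * s))⁻¹ / cs n s

/-- The averaging operator: `P s f (g e_n) = ∫ kap s x • f (g x e_n)`. -/
noncomputable def P (s : ℕ) (f : Vec n → E) (v : Vec n) : E :=
  ∫ y : SUGroup n, (ker s v (act y (base n)) / cs n s) • f (act y (base n)) ∂(mu n)

/-- The eigenvalue `s (s - n)`. -/
def lam (n s : ℕ) : ℝ := s * (s - n)

/-- Measurable functions on the orbit of the base point with growth `C ch^(2N)`. -/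
structure Adm (N : ℕ) (C : ℝ) (f : Vec n → E) : Prop where
  meas : AEStronglyMeasurable (fun y : SUGroup n => f (act y (base n))) (mu n)
  bound : ∀ y : SUGroup n, ‖f (act y (base n))‖ ≤ C * ch y ^ (2 * N)

/-- The coordinates of the image of the base point in the unit ball. -/
noncomputable def zc (x : SUGroup n) (j : Fin n) : ℂ :=
  x.toMatrix j.castSucc (Fin.last n) / x.toMatrix (Fin.last n) (Fin.last n)

/-- The invariant Laplacian (on functions homogeneous of degree `0`). -/
noncomputable def Lap (f : Vec n → E) (v : Vec n) : E :=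
  (- q v / 4) • ∑ i : Fin (n + 1), (J n i i).re •
    (fderiv ℝ (fderiv ℝ f) v (Pi.single i 1) (Pi.single i 1) +
      fderiv ℝ (fderiv ℝ f) v (Pi.single i Complex.I) (Pi.single i Complex.I))

/-- The energy matrix `e(A)`. -/
noncomputable def en (A : Vec n → Mat m) (v : Vec n) : Mat m :=
  (- q v / 4) • ∑ i : Fin (n + 1), (J n i i).re •
    (fderiv ℝ A v (Pi.single i 1) * (A v)⁻¹ * fderiv ℝ A v (Pi.single i 1) +
      fderiv ℝ A v (Pi.single i Complex.I) * (A v)⁻¹ * fderiv ℝ A v (Pi.single i Complex.I))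

/-- The complex linear part of the derivative. -/
noncomputable def dz (A : Vec n → Mat m) (v ξ : Vec n) : Mat m :=
  (1 / 2 : ℂ) • (fderiv ℝ A v ξ - Complex.I • fderiv ℝ A v (Complex.I • ξ))

/-- The antilinear part of the derivative. -/
noncomputable def dzb (A : Vec n → Mat m) (v ξ : Vec n) : Mat m :=
  (1 / 2 : ℂ) • (fderiv ℝ A v ξ + Complex.I • fderiv ℝ A v (Complex.I • ξ))

/-- The vector `(ξ, 0)`. -/
def vec (ξ : Fin n → ℂ) : Vec n := Fin.snoc (α := fun _ => ℂ) ξ 0

/-- The element `e_n ξ^* + ξ e_n^*` of the Lie algebra, `ξ ∈ ℂ^n`. -/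
def xmat (ξ : Fin n → ℂ) : Mat (n + 1) :=
  Matrix.vecMulVec (vec ξ) (base n) + Matrix.vecMulVec (base n) (star (vec ξ))

/-- Discrete and cocompact (for the action of `Γ` from the left). -/
structure Coc (Γ : Subgroup (SUGroup n)) : Prop where
  disc : DiscreteTopology Γ
  cpt : ∃ F : Set (SUGroup n), IsCompact F ∧ ∀ g, ∃ γ ∈ Γ, γ * g ∈ F

/-- A partition of unity for `Γ`. -/
structure Cut (Γ : Subgroup (SUGroup n)) (χ : SUGroup n → ℝ) : Prop where
  cont : Continuous χ
  supp : HasCompactSupport χ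
  nonneg : ∀ g, 0 ≤ χ g
  sum : ∀ g, ∑' γ : Γ, χ (γ * g) = 1

/-- Integration over the quotient of `G` by `Γ`. -/
noncomputable def II (χ : SUGroup n → ℝ) (f : SUGroup n → E) : E := ∫ g, χ g • f g ∂(mu n)

/-- Equivariance of a metric. -/
def Equi {Γ : Subgroup (SUGroup n)} (ρ : Γ →* Mat m) (H : Vec n → Mat m) : Prop :=
  ∀ γ : Γ, ∀ v ∈ Cone n, H (act (γ : SUGroup n) v) = ρ γ * H v * (ρ γ)ᴴ

/-- The dual representation. -/
def dual {Γ : Subgroup (SUGroup n)} (ρ : Γ →* Mat m) : Γ →* Mat m where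
  toFun γ := (ρ γ⁻¹)ᴴ
  map_one' := by simp
  map_mul' a b := by rw [_root_.mul_inv_rev, map_mul, conjTranspose_mul]

/-- A continuous equivariant metric. -/
structure Met {Γ : Subgroup (SUGroup n)} (ρ : Γ →* Mat m) (H : Vec n → Mat m) : Prop where
  hom : Homog H
  cont : ContinuousOn H (Cone n)
  pos : ∀ v ∈ Cone n, (H v).PosDef
  equi : Equi ρ H

/-- `σ(a,b) = tr (a⁻¹ b) + tr (b⁻¹ a) - 2m`. -/
noncomputable def sig (a b : Mat m) : ℝ := ((a⁻¹ * b).trace + (b⁻¹ * a).trace).re - 2 * m

end Pool.Agent.Lib.MP_5d4057_al.HM
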