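import Pool.Agent.Lib.MP_5d4057_al.HM.Mx

/-! Matrix inequalities for the limit of the discrete Euler-Lagrange equations. -/

namespace Pool.Agent.Lib.MP_5d4057_al.HM

open Matrix MeasureTheory Filter Topology Pool.Agent.Lib.MP_5d4057_al Pool.Agent.Lib.MP_5d4057_al.Hyb

open scoped ComplexOrder MatrixOrder Matrix.Norms.L2Operator

variable {m : ℕ}

/-- Limits of matrix inequalities. -/
theorem le_of_tendsto_mat {ι : Type} {F : Filter ι} [F.NeBot] {a b : ι → Mat m} {A B : Mat m}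
    (ha : Tendsto a F (𝓝 A)) (hb : Tendsto b F (𝓝 B)) (h : ∀ᶠ i in F, a i ≤ b i) : A ≤ B :=
  le_of_tendsto_of_tendsto ha hb h

theorem psd_of_le {A B : Mat m} (h : A ≤ B) : (B - A).PosSemidef := Matrix.le_iff.1 h

/-- `A + B ≤ B A⁻¹ B + A B⁻¹ A`. -/
theorem add_le_conj {A B : Mat m} (hA : A.PosDef) (hB : B.PosDef) :
    A + B ≤ B * A⁻¹ * B + A * B⁻¹ * A := by
  have h1 := duality hA B 1
  have h2 := duality hB A 1
  rw [hB.isHermitian.eq, conjTranspose_one, mul_one, one_mul, one_mul, mul_one] at h1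
  rw [hA.isHermitian.eq, conjTranspose_one, mul_one, one_mul, one_mul, mul_one] at h2
  have h3 := add_le_add h1 h2
  refine le_trans (le_of_eq ?_) h3
  abel

/-- The two discrete inequalities combined. -/
theorem defect_le {A B R S PA PB : Mat m} {s : ℝ} (hs : 0 ≤ s) (hA : A.PosDef) (hB : B.PosDef)
    (h1 : B * R * B ≤ PA) (h2 : A * S * A ≤ PB) :
    B * (s • (R - A⁻¹)) * B + A * (s • (S - B⁻¹)) * A ≤ s • (PA - A) + s • (PB - B) := by
  have h3 := add_le_add (add_le_add h1 h2) (add_le_conj hA hB)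
  rw [Matrix.le_iff] at h3 ⊢
  have h4 := h3.smul hs
  refine (congrArg Matrix.PosSemidef ?_).mp h4
  simp only [smul_sub, mul_sub, sub_mul, smul_mul_assoc, mul_smul_comm, smul_add]
  abel

/-- The limit of the discrete inequalities. -/
theorem en_le_of_defect {ι : Type} {F : Filter ι} [F.NeBot] {a b R S PA PB : ι → Mat m} {s : ι → ℝ}
    {A LA EA : Mat m} (hs : ∀ i, 0 ≤ s i) (hA : A.PosDef) (ha : ∀ i, (a i).PosDef)
    (hb : ∀ i, (b i).PosDef) (h1 : ∀ i, b i * R i * b i ≤ PA i) (h2 : ∀ i, a i * S i * a i ≤ PB i)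
    (ta : Tendsto a F (𝓝 A)) (tb : Tendsto b F (𝓝 A))
    (tPA : Tendsto (fun i => s i • (PA i - a i)) F (𝓝 LA))
    (tPB : Tendsto (fun i => s i • (PB i - b i)) F (𝓝 LA))
    (tR : Tendsto (fun i => s i • (R i - (a i)⁻¹)) F (𝓝 (A⁻¹ * ((2 : ℝ) • EA - LA) * A⁻¹)))
    (tS : Tendsto (fun i => s i • (S i - (b i)⁻¹)) F (𝓝 (A⁻¹ * ((2 : ℝ) • EA - LA) * A⁻¹))) :
    EA ≤ LA := by
  have h : ∀ i, b i * (s i • (R i - (a i)⁻¹)) * b i + a i * (s i • (S i - (b i)⁻¹)) * a i ≤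
      s i • (PA i - a i) + s i • (PB i - b i) := fun i =>
    defect_le (hs i) (ha i) (hb i) (h1 i) (h2 i)
  have t1 := ((tb.mul tR).mul tb).add ((ta.mul tS).mul ta)
  have t2 := tPA.add tPB
  have h3 := le_of_tendsto_mat t1 t2 (Eventually.of_forall h)
  have hu : IsUnit A.det := (isUnit_iff_isUnit_det A).1 hA.isUnit
  have e1 : A * (A⁻¹ * ((2 : ℝ) • EA - LA) * A⁻¹) * A = (2 : ℝ) • EA - LA := by
    rw [mul_assoc A⁻¹, ← mul_assoc A, mul_nonsing_inv A hu, one_mul, mul_assoc,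
      nonsing_inv_mul A hu, mul_one]
  rw [e1, Matrix.le_iff] at h3
  rw [Matrix.le_iff]
  have h4 := h3.smul (show (0 : ℝ) ≤ 1 / 4 by norm_num)
  refine (congrArg Matrix.PosSemidef ?_).mp h4
  module

end Pool.Agent.Lib.MP_5d4057_al.HM
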