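import Pool.Agent.Lib.MP_5d4057_al.HM.Flow

/-! The Laplacian of the inverse. -/

namespace Pool.Agent.Lib.MP_5d4057_al.HM

open Matrix MeasureTheory Filter Topology Pool.Agent.Lib.MP_5d4057_al Pool.Agent.Lib.MP_5d4057_al.Hyb

open scoped ComplexOrder MatrixOrder Matrix.Norms.L2Operator

variable {n m : ℕ}

theorem hasFDerivAt_matInv {A : Vec n → Mat m} {A' : Vec n →L[ℝ] Mat m} {v : Vec n}
    (hA : HasFDerivAt A A' v) (hu : IsUnit (A v)) :
    HasFDerivAt (fun w => (A w)⁻¹)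
      ((-(ContinuousLinearMap.mulLeftRight ℝ (Mat m) (A v)⁻¹ (A v)⁻¹)).comp A') v := by
  obtain ⟨u, hu'⟩ := hu
  have h1 := hasFDerivAt_ringInverse (𝕜 := ℝ) u
  have h2 : ((u⁻¹ : (Mat m)ˣ) : Mat m) = (A v)⁻¹ := by
    rw [← hu', nonsing_inv_eq_ringInverse, Ring.inverse_unit]
  rw [h2, hu'] at h1
  have h3 := h1.comp v hA
  refine h3.congr_of_eventuallyEq (Eventually.of_forall fun w => ?_)
  simp only [Function.comp]
  rw [nonsing_inv_eq_ringInverse]

theorem fderiv_matInv {A : Vec n → Mat m} {v : Vec n} (hA : DifferentiableAt ℝ A v)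
    (hu : IsUnit (A v)) (ξ : Vec n) :
    fderiv ℝ (fun w => (A w)⁻¹) v ξ = -((A v)⁻¹ * fderiv ℝ A v ξ * (A v)⁻¹) := by
  rw [(hasFDerivAt_matInv hA.hasFDerivAt hu).fderiv]
  simp

theorem contDiffAt_matInv {A : Vec n → Mat m} {v : Vec n} {k : WithTop ℕ∞} (hA : ContDiffAt ℝ k A v)
    (hu : IsUnit (A v)) : ContDiffAt ℝ k (fun w => (A w)⁻¹) v := by
  obtain ⟨u, hu'⟩ := hu
  have h1 := contDiffAt_ringInverse (𝕜 := ℝ) (n := k) u
  rw [hu'] at h1
  have h3 := h1.comp v hA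
  refine h3.congr_of_eventuallyEq (Eventually.of_forall fun w => ?_)
  simp only [Function.comp]
  rw [nonsing_inv_eq_ringInverse]

/-- The second derivative of the inverse on a line. -/
theorem fderiv_two_matInv {A : Vec n → Mat m} {v : Vec n} (hA : ContDiffAt ℝ 2 A v)
    (hu : IsUnit (A v)) (ξ : Vec n) :
    fderiv ℝ (fderiv ℝ (fun w => (A w)⁻¹)) v ξ ξ =
      (A v)⁻¹ * ((2 : ℝ) • (fderiv ℝ A v ξ * (A v)⁻¹ * fderiv ℝ A v ξ) -
        fderiv ℝ (fderiv ℝ A) v ξ ξ) * (A v)⁻¹ := by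
  have hd : ContDiffAt ℝ 1 (fderiv ℝ A) v := hA.fderiv_right (by norm_num)
  have hd' : DifferentiableAt ℝ (fderiv ℝ A) v := hd.differentiableAt (by norm_num)
  have hi : ContDiffAt ℝ 2 (fun w => (A w)⁻¹) v := contDiffAt_matInv hA hu
  have hid : DifferentiableAt ℝ (fderiv ℝ (fun w => (A w)⁻¹)) v :=
    (hi.fderiv_right (m := 1) (by norm_num)).differentiableAt (by norm_num)
  have hev1 : ∀ᶠ w in 𝓝 v, DifferentiableAt ℝ A w := by
    filter_upwards [hA.eventually (by simp)] with w hw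
    exact hw.differentiableAt (by norm_num)
  have hev2 : ∀ᶠ w in 𝓝 v, IsUnit (A w) := by
    have : {x : Mat m | IsUnit x} ∈ 𝓝 (A v) := Units.isOpen.mem_nhds hu
    exact hA.continuousAt this
  have hev : (fun w => fderiv ℝ (fun w => (A w)⁻¹) w ξ) =ᶠ[𝓝 v]
      fun w => -((A w)⁻¹ * fderiv ℝ A w ξ * (A w)⁻¹) := by
    filter_upwards [hev1, hev2] with w h1 h2
    exact fderiv_matInv h1 h2 ξ
  have h1 : fderiv ℝ (fun w => fderiv ℝ (fun w => (A w)⁻¹) w ξ) v ξ =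
      fderiv ℝ (fderiv ℝ (fun w => (A w)⁻¹)) v ξ ξ := by
    have := (hid.hasFDerivAt.clm_apply (hasFDerivAt_const ξ v)).fderiv
    rw [this]; simp
  have hI := hasFDerivAt_matInv (hev1.self_of_nhds).hasFDerivAt hu
  have hD : HasFDerivAt (fun w => fderiv ℝ A w ξ) ((fderiv ℝ (fderiv ℝ A) v).flip ξ) v := by
    have := hd'.hasFDerivAt.clm_apply (hasFDerivAt_const ξ v)
    rwa [ContinuousLinearMap.comp_zero, zero_add] at this
  have hP : HasFDerivAt (fun w => -((A w)⁻¹ * fderiv ℝ A w ξ * (A w)⁻¹)) _ v :=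
    ((hI.mul' hD).mul' hI).neg
  rw [← h1, hev.fderiv_eq, hP.fderiv]
  simp only [_root_.neg_apply, _root_.add_apply,
    _root_.smul_apply, ContinuousLinearMap.comp_apply, ContinuousLinearMap.flip_apply,
    ContinuousLinearMap.mulLeftRight_apply, smul_eq_mul, MulOpposite.smul_eq_mul_unop,
    MulOpposite.unop_op, Pi.mul_apply, two_smul]
  noncomm_ring

/-- The Laplacian of the inverse. -/
theorem lap_matInv {A : Vec n → Mat m} {v : Vec n} (hA : ContDiffAt ℝ 2 A v)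
    (hu : IsUnit (A v)) :
    Lap (fun w => (A w)⁻¹) v = (A v)⁻¹ * ((2 : ℝ) • en A v - Lap A v) * (A v)⁻¹ := by
  unfold Lap en
  simp only [fderiv_two_matInv hA hu]
  rw [smul_comm (2 : ℝ), ← smul_sub, mul_smul_comm, smul_mul_assoc]
  congr 1
  rw [Finset.smul_sum, ← Finset.sum_sub_distrib, Finset.mul_sum, Finset.sum_mul]
  refine Finset.sum_congr rfl fun i _ => ?_
  rw [smul_comm (2 : ℝ), ← smul_sub, mul_smul_comm, smul_mul_assoc, ← add_mul, ← mul_add]
  congr 3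
  module

end Pool.Agent.Lib.MP_5d4057_al.HM
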