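import Pool.Agent.Lib.MP_5d4057_al.HM.Basic

/-! A telescoping estimate and the concentration of the kernels. -/

namespace Pool.Agent.Lib.MP_5d4057_al.HM

open Matrix MeasureTheory Filter Topology Pool.Agent.Lib.MP_5d4057_al Pool.Agent.Lib.MP_5d4057_al.Hyb

open scoped ComplexOrder MatrixOrder Matrix.Norms.L2Operator

variable {n m : ℕ} {E : Type} [NormedAddCommGroup E] [NormedSpace ℝ E]

theorem lam_pos {n s : ℕ} (h : n < s) : 0 < lam n s := by
  unfold lam
  have h1 : (n : ℝ) < s := by exact_mod_cast h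
  have h2 : (0 : ℝ) ≤ n := Nat.cast_nonneg _
  exact mul_pos (by linarith) (by linarith)

theorem lam_inv_ge {n s : ℕ} (h : n + 1 < s) : (1 : ℝ) / s - 1 / (s + 1) ≤ (lam n s)⁻¹ := by
  have h0 := lam_pos (show n < s by omega)
  have h1 : (n : ℝ) + 1 < s := by exact_mod_cast h
  have h2 : (0 : ℝ) ≤ n := Nat.cast_nonneg _
  have h3 : (0 : ℝ) < s := by linarith
  have e1 : (1 : ℝ) / s - 1 / (s + 1) = 1 / (s * (s + 1)) := by
    field_simp; ring
  rw [e1, ← one_div]
  refine one_div_le_one_div_of_le h0 ?_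
  unfold lam
  exact mul_le_mul_of_nonneg_left (by linarith) h3.le

theorem lam_inv_le {n s : ℕ} (h : n + 1 < s) :
    (lam n s)⁻¹ ≤ (1 : ℝ) / (s - n - 1) - 1 / (s + 1 - n - 1) := by
  have h0 := lam_pos (show n < s by omega)
  have h1 : (n : ℝ) + 1 < s := by exact_mod_cast h
  have h2 : (0 : ℝ) ≤ n := Nat.cast_nonneg _
  have h3 : (0 : ℝ) < s - n - 1 := by linarith
  have h4 : (0 : ℝ) < s - n := by linarith
  have e1 : (1 : ℝ) / (s - n - 1) - 1 / (s + 1 - n - 1) = 1 / ((s - n - 1) * (s - n)) := by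
    have h5 : (s : ℝ) + 1 - n - 1 = s - n := by ring
    rw [h5]
    field_simp; ring
  rw [e1, ← one_div]
  refine one_div_le_one_div_of_le (mul_pos h3 h4) ?_
  unfold lam
  exact mul_le_mul_of_nonneg_right (by linarith) h4.le

theorem sum_lam_ge {n s : ℕ} (h : n + 1 < s) (J : ℕ) :
    (1 : ℝ) / s - 1 / (s + J) ≤ ∑ j ∈ Finset.range J, (lam n (s + j))⁻¹ := by
  have h1 := Finset.sum_range_sub' (fun j : ℕ => (1 : ℝ) / ((s : ℝ) + j)) J
  simp only [Nat.cast_zero, add_zero] at h1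
  rw [← h1]
  refine Finset.sum_le_sum fun j _ => ?_
  have h2 := lam_inv_ge (n := n) (s := s + j) (by omega)
  push_cast at h2 ⊢
  rw [← add_assoc]
  exact h2

theorem sum_lam_le {n s : ℕ} (h : n + 1 < s) (J : ℕ) :
    ∑ j ∈ Finset.range J, (lam n (s + j))⁻¹ ≤ (1 : ℝ) / (s - n - 1) := by
  have h1 := Finset.sum_range_sub' (fun j : ℕ => (1 : ℝ) / ((s : ℝ) + j - n - 1)) J
  simp only [Nat.cast_zero, add_zero] at h1
  have h5 : (n : ℝ) + 1 < s := by exact_mod_cast h
  have h6 : (0 : ℝ) ≤ 1 / ((s : ℝ) + J - n - 1) := by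
    have : (0 : ℝ) ≤ J := Nat.cast_nonneg _
    exact one_div_nonneg.2 (by linarith)
  have h7 : ∑ j ∈ Finset.range J, (lam n (s + j))⁻¹ ≤ ∑ j ∈ Finset.range J,
      ((1 : ℝ) / ((s : ℝ) + j - n - 1) - 1 / ((s : ℝ) + (j + 1 : ℕ) - n - 1)) := by
    refine Finset.sum_le_sum fun j _ => ?_
    have h2 := lam_inv_le (n := n) (s := s + j) (by omega)
    push_cast at h2 ⊢
    rw [← add_assoc]
    exact h2
  linarith

/-- A telescoping estimate. -/
theorem tele_scaled {a b : ℕ → E} {a₀ c : E} {e : ℝ} {s : ℕ} (hs : n + 1 < s)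
    (ha : Tendsto a atTop (𝓝 a₀)) (hd : ∀ t, s ≤ t → a t - a (t + 1) = (lam n t)⁻¹ • b t)
    (hb : ∀ t, s ≤ t → ‖b t - c‖ ≤ e) :
    ‖(s : ℝ) • (a s - a₀) - c‖ ≤ e * (s / (s - n - 1)) + ‖c‖ * ((n + 1) / (s - n - 1)) := by
  have h5 : (n : ℝ) + 1 < s := by exact_mod_cast hs
  have h0 : (0 : ℝ) ≤ n := Nat.cast_nonneg _
  have hs0 : (0 : ℝ) < s := by linarith
  have hd0 : (0 : ℝ) < s - n - 1 := by linarith
  have he : 0 ≤ e := (norm_nonneg _).trans (hb s le_rfl)
  have key : ∀ J : ℕ, ‖(s : ℝ) • (a s - a (s + J)) - c‖ ≤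
      e * (s / (s - n - 1)) + ‖c‖ * ((n + 1) / (s - n - 1)) + ‖c‖ * (s / (s + J)) := by
    intro J
    obtain ⟨S, hS⟩ : ∃ S : ℝ, S = ∑ j ∈ Finset.range J, (lam n (s + j))⁻¹ := ⟨_, rfl⟩
    have hS0 : 0 ≤ S := by
      rw [hS]
      exact Finset.sum_nonneg fun j _ => (inv_pos.2 (lam_pos (by omega))).le
    have e1 : a s - a (s + J) = ∑ j ∈ Finset.range J, (lam n (s + j))⁻¹ • b (s + j) := by
      have h1 := Finset.sum_range_sub' (fun j : ℕ => a (s + j)) J
      simp only [add_zero] at h1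
      rw [← h1]
      refine Finset.sum_congr rfl fun j _ => ?_
      have := hd (s + j) (by omega)
      rw [← this, add_assoc]
    have e2 : (s : ℝ) • (a s - a (s + J)) - c =
        (s : ℝ) • (∑ j ∈ Finset.range J, (lam n (s + j))⁻¹ • (b (s + j) - c)) +
          ((s : ℝ) * S - 1) • c := by
      rw [e1, hS]
      simp only [smul_sub, Finset.sum_sub_distrib, ← Finset.sum_smul]
      rw [smul_smul]
      module
    have h2 : ‖∑ j ∈ Finset.range J, (lam n (s + j))⁻¹ • (b (s + j) - c)‖ ≤ S * e := by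
      rw [hS, Finset.sum_mul]
      refine norm_sum_le_of_le _ fun j _ => ?_
      have h3 : 0 < lam n (s + j) := lam_pos (by omega)
      rw [norm_smul, Real.norm_of_nonneg (inv_pos.2 h3).le]
      exact mul_le_mul_of_nonneg_left (hb _ (by omega)) (inv_pos.2 h3).le
    have h3 : (1 : ℝ) / s - 1 / (s + J) ≤ S := by rw [hS]; exact sum_lam_ge hs J
    have h4 : S ≤ (1 : ℝ) / (s - n - 1) := by rw [hS]; exact sum_lam_le hs J
    have hJ : (0 : ℝ) ≤ J := Nat.cast_nonneg _
    have h6 : (s : ℝ) * S ≤ s / (s - n - 1) := by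
      have := mul_le_mul_of_nonneg_left h4 hs0.le
      rwa [mul_one_div] at this
    have h7 : 1 - s / (s + J) ≤ (s : ℝ) * S := by
      have := mul_le_mul_of_nonneg_left h3 hs0.le
      rw [mul_sub, mul_one_div, mul_one_div, div_self hs0.ne'] at this
      exact this
    have h8 : |(s : ℝ) * S - 1| ≤ (n + 1) / (s - n - 1) + s / (s + J) := by
      have h9 : (s : ℝ) / (s - n - 1) = 1 + (n + 1) / (s - n - 1) := by
        field_simp; ring
      have h10 : (0 : ℝ) ≤ s / (s + J) := by positivity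
      have h11 : (0 : ℝ) ≤ (n + 1) / (s - n - 1) := by positivity
      rw [abs_le]
      constructor <;> linarith
    rw [e2]
    refine (norm_add_le _ _).trans ?_
    rw [norm_smul, norm_smul, Real.norm_of_nonneg hs0.le, Real.norm_eq_abs]
    have h12 : (s : ℝ) * ‖∑ j ∈ Finset.range J, (lam n (s + j))⁻¹ • (b (s + j) - c)‖ ≤
        e * (s / (s - n - 1)) := by
      calc (s : ℝ) * ‖∑ j ∈ Finset.range J, (lam n (s + j))⁻¹ • (b (s + j) - c)‖
          ≤ s * (S * e) := mul_le_mul_of_nonneg_left h2 hs0.le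
        _ = e * (s * S) := by ring
        _ ≤ _ := mul_le_mul_of_nonneg_left h6 he
    have h13 := mul_le_mul_of_nonneg_right h8 (norm_nonneg c)
    linarith
  have t1 : Tendsto (fun J : ℕ => ‖(s : ℝ) • (a s - a (s + J)) - c‖) atTop
      (𝓝 ‖(s : ℝ) • (a s - a₀) - c‖) := by
    have h1 : Tendsto (fun J : ℕ => a (s + J)) atTop (𝓝 a₀) := by
      have := (tendsto_add_atTop_iff_nat s).2 ha
      refine this.congr fun J => by rw [add_comm]
    exact (((tendsto_const_nhds.sub h1).const_smul (s : ℝ)).sub tendsto_const_nhds).norm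
  have t2 : Tendsto (fun J : ℕ => e * (s / (s - n - 1)) + ‖c‖ * ((n + 1) / (s - n - 1)) +
      ‖c‖ * ((s : ℝ) / (s + J))) atTop
      (𝓝 (e * (s / (s - n - 1)) + ‖c‖ * ((n + 1) / (s - n - 1)) + ‖c‖ * 0)) := by
    refine tendsto_const_nhds.add (tendsto_const_nhds.mul ?_)
    refine Tendsto.div_atTop tendsto_const_nhds ?_
    exact tendsto_atTop_add_const_left _ _ tendsto_natCast_atTop_atTop
  have h := le_of_tendsto_of_tendsto' t1 t2 key
  rwa [mul_zero, add_zero] at h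

end Pool.Agent.Lib.MP_5d4057_al.HM
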