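import Pool.Agent.Lib.MP_5d4057_al.HM.Trans
import Pool.Agent.Lib.MP_5d4057_al.HM.Mom
import Pool.Agent.Lib.MP_5d4057_al.HM.SmoothA

/-! Gradient estimates for the averaging operators (blueprint A9). -/

namespace Pool.Agent.Lib.MP_5d4057_al.HM.Gr

open Matrix MeasureTheory Filter Topology Pool.Agent.Lib.MP_5d4057_al Pool.Agent.Lib.MP_5d4057_al.Hyb

open scoped ComplexOrder MatrixOrder Matrix.Norms.L2Operator

variable {n m : ℕ} {E : Type} [NormedAddCommGroup E] [NormedSpace ℝ E]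

/-- The weight in the moment bound. -/
noncomputable def om (N s : ℕ) (y : SUGroup n) : ℝ :=
  ch y ^ (2 * N) * (1 + s * (ch y ^ 2 - 1)) ^ 2

theorem om_nonneg (N s : ℕ) (y : SUGroup n) : 0 ≤ om N s y := by
  have := ch_pos y
  unfold om
  positivity

theorem exists_om (n N : ℕ) : ∃ K : ℝ, 0 < K ∧ ∀ s : ℕ, n + N + 2 < s →
    Integrable (fun y : SUGroup n => kap s y * om N s y) (mu n) ∧
      ∫ y : SUGroup n, kap s y * om N s y ∂(mu n) ≤ K := by
  obtain ⟨C0, h0, H0⟩ := mom_le n N 0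
  obtain ⟨C1, h1, H1⟩ := mom_le n N 1
  obtain ⟨C2, h2, H2⟩ := mom_le n N 2
  refine ⟨C0 + 2 * C1 + C2, by positivity, fun s hs => ?_⟩
  have i0 := integrable_mom (n := n) (s := s) (N := N) (k := 0) (by omega)
  have i1 := integrable_mom (n := n) (s := s) (N := N) (k := 1) (by omega)
  have i2 := integrable_mom (n := n) (s := s) (N := N) (k := 2) (by omega)
  have hs0 : (0 : ℝ) < s := by
    have : 0 < s := by omega
    exact_mod_cast this
  have e : (fun y : SUGroup n => kap s y * om N s y) = fun y =>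
      kap s y * (ch y ^ (2 * N) * (ch y ^ 2 - 1) ^ 0) +
        (2 * s) * (kap s y * (ch y ^ (2 * N) * (ch y ^ 2 - 1) ^ 1)) +
        s ^ 2 * (kap s y * (ch y ^ (2 * N) * (ch y ^ 2 - 1) ^ 2)) := by
    funext y
    rw [om]
    ring
  rw [e]
  refine ⟨(i0.add (i1.const_mul _)).add (i2.const_mul _), ?_⟩
  have e' : ∫ y : SUGroup n, (kap s y * (ch y ^ (2 * N) * (ch y ^ 2 - 1) ^ 0) +
        (2 * (s : ℝ)) * (kap s y * (ch y ^ (2 * N) * (ch y ^ 2 - 1) ^ 1)) +
        (s : ℝ) ^ 2 * (kap s y * (ch y ^ (2 * N) * (ch y ^ 2 - 1) ^ 2))) ∂(mu n) =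
      ∫ y : SUGroup n, kap s y * (ch y ^ (2 * N) * (ch y ^ 2 - 1) ^ 0) ∂(mu n) +
        2 * (s : ℝ) * ∫ y : SUGroup n, kap s y * (ch y ^ (2 * N) * (ch y ^ 2 - 1) ^ 1) ∂(mu n) +
        (s : ℝ) ^ 2 * ∫ y : SUGroup n, kap s y * (ch y ^ (2 * N) * (ch y ^ 2 - 1) ^ 2) ∂(mu n) := by
    have j1 : Integrable (fun y : SUGroup n =>
        (2 * (s : ℝ)) * (kap s y * (ch y ^ (2 * N) * (ch y ^ 2 - 1) ^ 1))) (mu n) := i1.const_mul _
    have j2 : Integrable (fun y : SUGroup n =>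
        (s : ℝ) ^ 2 * (kap s y * (ch y ^ (2 * N) * (ch y ^ 2 - 1) ^ 2))) (mu n) := i2.const_mul _
    have j3 : Integrable (fun y : SUGroup n => kap s y * (ch y ^ (2 * N) * (ch y ^ 2 - 1) ^ 0) +
        (2 * (s : ℝ)) * (kap s y * (ch y ^ (2 * N) * (ch y ^ 2 - 1) ^ 1))) (mu n) := i0.add j1
    rw [integral_add j3 j2, integral_add i0 j1, integral_const_mul, integral_const_mul]
  rw [e']
  have a0 := H0 s (by omega)
  have a1 := H1 s (by omega)
  have a2 := H2 s (by omega)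
  have b1 : 2 * (s : ℝ) * ∫ y : SUGroup n, kap s y * (ch y ^ (2 * N) * (ch y ^ 2 - 1) ^ 1) ∂(mu n) ≤
      2 * C1 := by
    calc _ ≤ 2 * (s : ℝ) * (C1 / s ^ 1) := mul_le_mul_of_nonneg_left a1 (by positivity)
      _ = 2 * C1 := by field_simp
  have b2 : (s : ℝ) ^ 2 * ∫ y : SUGroup n, kap s y * (ch y ^ (2 * N) * (ch y ^ 2 - 1) ^ 2) ∂(mu n) ≤
      C2 := by
    calc _ ≤ (s : ℝ) ^ 2 * (C2 / s ^ 2) := mul_le_mul_of_nonneg_left a2 (by positivity)
      _ = C2 := by field_simp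
  rw [pow_zero, div_one] at a0
  linarith

theorem hh_le (y : SUGroup n) : hh y ≤ ch y ^ 2 - 1 := by
  have h := one_le_ch y
  have h1 : 0 < ch y ^ 2 := by positivity
  have h2 : ch y ^ 2 * (ch y ^ 2)⁻¹ = 1 := mul_inv_cancel₀ h1.ne'
  have h3 : 0 < (ch y ^ 2)⁻¹ := by positivity
  rw [hh]
  nlinarith [sq_nonneg (ch y ^ 2 - 1)]

omit [NormedSpace ℝ E] in
theorem adm_nn {N : ℕ} {C : ℝ} {f : Vec n → E} (hf : Adm N C f) : 0 ≤ C := by
  have h := hf.bound 1
  rw [ch_one, one_pow, mul_one] at h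
  exact (norm_nonneg _).trans h

theorem adm_wgt {N : ℕ} {C : ℝ} {f : Vec n → E} (hf : Adm N C f) {s : ℕ} (hs : n + N < s) :
    Integrable (wgt s f) (mu n) :=
  integrable_wgt hf (by omega) (integrable_inv (by omega))

/-- `s √h ≤ √s (1 + s (ch² - 1))`. -/
theorem aux_sqrt (s : ℕ) (y : SUGroup n) :
    s * Real.sqrt (hh y) ≤ Real.sqrt s * (1 + s * (ch y ^ 2 - 1)) := by
  have h1 := hh_le y
  have h2 := hh_nonneg y
  have hs : (0 : ℝ) ≤ s := Nat.cast_nonneg s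
  have e : (s : ℝ) * Real.sqrt (hh y) = Real.sqrt s * Real.sqrt (s * hh y) := by
    rw [Real.sqrt_mul hs, ← mul_assoc, Real.mul_self_sqrt hs]
  rw [e]
  refine mul_le_mul_of_nonneg_left ?_ (Real.sqrt_nonneg _)
  have h3 : (s : ℝ) * hh y ≤ s * (ch y ^ 2 - 1) := mul_le_mul_of_nonneg_left h1 hs
  have h4 : 0 ≤ (s : ℝ) * hh y := mul_nonneg hs h2
  rw [Real.sqrt_le_left (by linarith)]
  nlinarith

/-- The bound for the first derivative at the base point, in integrated form. -/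
theorem base_one (n N : ℕ) : ∃ K : ℝ, 0 < K ∧ ∀ s : ℕ, n + N + 2 < s →
    ∀ (E : Type) [NormedAddCommGroup E] [NormedSpace ℝ E] (f : Vec n → E) (C : ℝ),
      Adm N C f → ‖fderiv ℝ (P s f) (base n)‖ ≤ K * C * Real.sqrt s := by
  obtain ⟨K, hK, H⟩ := exists_om n N
  refine ⟨2 * Real.sqrt (n + 1) * K, by positivity, fun s hs E _ _ f C hf => ?_⟩
  obtain ⟨hi, hb⟩ := H s hs
  have hC := (adm_nn hf)
  have hcs := cs_nonneg n s
  refine ContinuousLinearMap.opNorm_le_bound _ (by positivity) fun ξ => ?_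
  rw [fderiv_P_apply_of (adm_wgt hf (by omega)) (base_mem n)]
  have hle : ∀ y : SUGroup n, ‖(fderiv ℝ (fun v => ker s v (act y (base n))) (base n) ξ / cs n s) •
      f (act y (base n))‖ ≤ (2 * Real.sqrt (n + 1) * ‖ξ‖ * C * Real.sqrt s) *
        (kap s y * om N s y) := by
    intro y
    have h0 := ch_pos y
    have h1 := one_le_ch y
    have hp : 0 ≤ ch y ^ 2 - 1 := by nlinarith
    rw [norm_smul, norm_div, Real.norm_eq_abs, Real.norm_of_nonneg hcs]
    have a1 := abs_fderiv_ker_le s y ξ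
    have a2 := hf.bound y
    have a3 := aux_sqrt s y
    have a4 : 1 + s * (ch y ^ 2 - 1) ≤ (1 + s * (ch y ^ 2 - 1)) ^ 2 := by
      have : 0 ≤ (s : ℝ) * (ch y ^ 2 - 1) := by positivity
      nlinarith
    have a5 : |fderiv ℝ (fun v => ker s v (act y (base n))) (base n) ξ| ≤
        (ch y ^ (2 * s))⁻¹ * (2 * (Real.sqrt s * (1 + s * (ch y ^ 2 - 1)) ^ 2) *
          (Real.sqrt (n + 1) * ‖ξ‖)) := by
      refine a1.trans ?_
      refine mul_le_mul_of_nonneg_left ?_ (by positivity)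
      refine mul_le_mul_of_nonneg_right ?_ (by positivity)
      have : s * Real.sqrt (hh y) ≤ Real.sqrt s * (1 + s * (ch y ^ 2 - 1)) ^ 2 :=
        a3.trans (mul_le_mul_of_nonneg_left a4 (Real.sqrt_nonneg _))
      linarith
    calc |fderiv ℝ (fun v => ker s v (act y (base n))) (base n) ξ| / cs n s *
          ‖f (act y (base n))‖
        ≤ ((ch y ^ (2 * s))⁻¹ * (2 * (Real.sqrt s * (1 + s * (ch y ^ 2 - 1)) ^ 2) *
          (Real.sqrt (n + 1) * ‖ξ‖))) / cs n s * (C * ch y ^ (2 * N)) := by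
          gcongr
      _ = _ := by
          rw [kap, om]
          ring
  refine (norm_integral_le_of_norm_le (hi.const_mul _) (Eventually.of_forall hle)).trans ?_
  rw [integral_const_mul]
  calc _ ≤ (2 * Real.sqrt (n + 1) * ‖ξ‖ * C * Real.sqrt s) * K := by gcongr
    _ = _ := by ring

/-- The general bound for the second derivative at the base point: `f` may be small near the base
point. -/
theorem base_two_aux (n N : ℕ) : ∃ K : ℝ, 0 < K ∧ ∀ s : ℕ, n + N + 2 < s →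
    ∀ (E : Type) [NormedAddCommGroup E] [NormedSpace ℝ E] (f : Vec n → E) (C A : ℝ),
      Adm N C f → 0 ≤ A → (∀ y : SUGroup n, (4 * (s : ℝ) ^ 2 * hh y + 30 * s) *
        ‖f (act y (base n))‖ ≤ A * om N s y) →
      ‖fderiv ℝ (fderiv ℝ (P s f)) (base n)‖ ≤ K * A := by
  obtain ⟨K, hK, H⟩ := exists_om n N
  refine ⟨2 * ((n + 1) * K), by positivity, fun s hs E _ _ f C A hf hA hle => ?_⟩
  obtain ⟨hi, hb⟩ := H s hs
  have hC := (adm_nn hf)
  have hcs := cs_nonneg n s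
  have hw := adm_wgt hf (s := s) (by omega)
  have hcd : ContDiffAt ℝ 2 (P s f) (base n) :=
    ((contDiffOn_P_of hw).contDiffAt ((isOpen_cone n).mem_nhds (base_mem n))).of_le
      (WithTop.coe_le_coe.mpr (le_top : (2 : ℕ∞) ≤ ⊤))
  have hsym : ∀ x y, fderiv ℝ (fderiv ℝ (P s f)) (base n) x y =
      fderiv ℝ (fderiv ℝ (P s f)) (base n) y x := by
    have := hcd.isSymmSndFDerivAt (by simp)
    intro x y
    exact this.eq x y
  have h1 : ‖fderiv ℝ (fderiv ℝ (P s f)) (base n)‖ ≤ 2 * (((n : ℝ) + 1) * K * A) := by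
    refine opNorm_le_of_diag _ hsym (by positivity) fun ξ => ?_
    rw [fderiv_fderiv_P_apply_of hw (base_mem n)]
    have hle' : ∀ y : SUGroup n,
        ‖(fderiv ℝ (fderiv ℝ fun v => ker s v (act y (base n))) (base n) ξ ξ / cs n s) •
          f (act y (base n))‖ ≤ (((n : ℝ) + 1) * ‖ξ‖ ^ 2 * A) * (kap s y * om N s y) := by
      intro y
      have h0 := ch_pos y
      rw [norm_smul, norm_div, Real.norm_eq_abs, Real.norm_of_nonneg hcs]
      have a1 := abs_fderiv_two_ker_le s y ξ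
      calc |fderiv ℝ (fderiv ℝ fun v => ker s v (act y (base n))) (base n) ξ ξ| / cs n s *
            ‖f (act y (base n))‖
          ≤ ((ch y ^ (2 * s))⁻¹ * ((4 * (s : ℝ) ^ 2 * hh y + 30 * s) * ((n + 1) * ‖ξ‖ ^ 2))) /
            cs n s * ‖f (act y (base n))‖ := by gcongr
        _ = (((n : ℝ) + 1) * ‖ξ‖ ^ 2) * (((ch y ^ (2 * s))⁻¹ / cs n s) *
              ((4 * (s : ℝ) ^ 2 * hh y + 30 * s) * ‖f (act y (base n))‖)) := by ring
        _ ≤ (((n : ℝ) + 1) * ‖ξ‖ ^ 2) * (((ch y ^ (2 * s))⁻¹ / cs n s) * (A * om N s y)) := by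
            refine mul_le_mul_of_nonneg_left ?_ (by positivity)
            exact mul_le_mul_of_nonneg_left (hle y) (by positivity)
        _ = _ := by
            rw [kap]
            ring
    refine (norm_integral_le_of_norm_le (hi.const_mul _) (Eventually.of_forall hle')).trans ?_
    rw [integral_const_mul]
    calc _ ≤ (((n : ℝ) + 1) * ‖ξ‖ ^ 2 * A) * K := by gcongr
      _ = _ := by ring
  refine h1.trans (le_of_eq ?_)
  ring

theorem base_two (n N : ℕ) : ∃ K : ℝ, 0 < K ∧ ∀ s : ℕ, n + N + 2 < s →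
    ∀ (E : Type) [NormedAddCommGroup E] [NormedSpace ℝ E] (f : Vec n → E) (C : ℝ),
      Adm N C f → ‖fderiv ℝ (fderiv ℝ (P s f)) (base n)‖ ≤ K * C * s := by
  obtain ⟨K, hK, H⟩ := base_two_aux n N
  refine ⟨30 * K, by positivity, fun s hs E _ _ f C hf => ?_⟩
  have hC := (adm_nn hf)
  have := H s hs E f C (30 * C * s) hf (by positivity) fun y => ?_
  · refine this.trans (le_of_eq ?_)
    ring
  · have h0 := ch_pos y
    have h1 := one_le_ch y
    have hp : 0 ≤ ch y ^ 2 - 1 := by nlinarith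
    have h2 := hh_le y
    have hh0 := hh_nonneg y
    have hs0 : (0 : ℝ) ≤ s := Nat.cast_nonneg s
    have a1 : 4 * (s : ℝ) ^ 2 * hh y + 30 * s ≤ 30 * s * (1 + s * (ch y ^ 2 - 1)) ^ 2 := by
      have b1 : (s : ℝ) ^ 2 * hh y ≤ s ^ 2 * (ch y ^ 2 - 1) := by gcongr
      have b2 : 0 ≤ (s : ℝ) * (ch y ^ 2 - 1) := by positivity
      have b3 : 0 ≤ (s : ℝ) ^ 2 * (ch y ^ 2 - 1) := by positivity
      have b4 : 0 ≤ (s : ℝ) * (s * (ch y ^ 2 - 1)) ^ 2 := by positivity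
      nlinarith
    calc _ ≤ (30 * s * (1 + s * (ch y ^ 2 - 1)) ^ 2) * (C * ch y ^ (2 * N)) := by
            gcongr
            exact hf.bound y
      _ = _ := by
            rw [om]
            ring

/-- The improved bound at a point where `f` is Hölder continuous with exponent `1/2`. -/
theorem base_two_holder (n N : ℕ) : ∃ K : ℝ, 0 < K ∧ ∀ s : ℕ, n + N + 2 < s →
    ∀ (E : Type) [NormedAddCommGroup E] [NormedSpace ℝ E] (f : Vec n → E) (C A : ℝ),
      Adm N C f → 0 ≤ A →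
      (∀ y : SUGroup n, ‖f (act y (base n))‖ ≤ A * hh y ^ (1 / 4 : ℝ) * ch y ^ (2 * N)) →
      ‖fderiv ℝ (fderiv ℝ (P s f)) (base n)‖ ≤ K * A * (s : ℝ) ^ (3 / 4 : ℝ) := by
  obtain ⟨K, hK, H⟩ := base_two_aux n N
  refine ⟨30 * K, by positivity, fun s hs E _ _ f C A hf hA hle => ?_⟩
  have hs0 : (0 : ℝ) < s := by
    have : 0 < s := by omega
    exact_mod_cast this
  have := H s hs E f C (30 * A * (s : ℝ) ^ (3 / 4 : ℝ)) hf (by positivity) fun y => ?_
  · refine this.trans (le_of_eq ?_)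
    ring
  · have h0 := ch_pos y
    have h1 := one_le_ch y
    have hp : 0 ≤ ch y ^ 2 - 1 := by nlinarith
    have h2 := hh_le y
    have hh0 := hh_nonneg y
    -- `4 s² h + 30 s ≤ 30 s (1 + s p)` and `h^(1/4) ≤ s^(-1/4) (1 + s p)`
    have a1 : 4 * (s : ℝ) ^ 2 * hh y + 30 * s ≤ 30 * s * (1 + s * (ch y ^ 2 - 1)) := by
      have b1 : (s : ℝ) ^ 2 * hh y ≤ s ^ 2 * (ch y ^ 2 - 1) := by gcongr
      have b3 : 0 ≤ (s : ℝ) ^ 2 * (ch y ^ 2 - 1) := by positivity
      nlinarith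
    have a2 : s * hh y ^ (1 / 4 : ℝ) ≤ (s : ℝ) ^ (3 / 4 : ℝ) * (1 + s * (ch y ^ 2 - 1)) := by
      have b1 : (s : ℝ) * hh y ^ (1 / 4 : ℝ) = (s : ℝ) ^ (3 / 4 : ℝ) * (s * hh y) ^ (1 / 4 : ℝ) := by
        rw [Real.mul_rpow hs0.le hh0, ← mul_assoc, ← Real.rpow_add hs0]
        norm_num
      rw [b1]
      refine mul_le_mul_of_nonneg_left ?_ (by positivity)
      have b2 : (s * hh y) ^ (1 / 4 : ℝ) ≤ 1 + s * hh y := by
        have hx : 0 ≤ (s : ℝ) * hh y := by positivity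
        have b4 : (s * hh y) ^ (1 / 4 : ℝ) ≤ (1 + s * hh y) ^ (1 / 4 : ℝ) :=
          Real.rpow_le_rpow hx (by linarith) (by norm_num)
        have b5 : (1 + s * hh y) ^ (1 / 4 : ℝ) ≤ (1 + s * hh y) ^ (1 : ℝ) :=
          Real.rpow_le_rpow_of_exponent_le (by linarith) (by norm_num)
        rw [Real.rpow_one] at b5
        linarith
      have b3 : (s : ℝ) * hh y ≤ s * (ch y ^ 2 - 1) := by gcongr
      linarith
    calc _ ≤ (30 * s * (1 + s * (ch y ^ 2 - 1))) * (A * hh y ^ (1 / 4 : ℝ) * ch y ^ (2 * N)) := by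
            gcongr
            exact hle y
      _ = 30 * A * ch y ^ (2 * N) * (1 + s * (ch y ^ 2 - 1)) * (s * hh y ^ (1 / 4 : ℝ)) := by ring
      _ ≤ 30 * A * ch y ^ (2 * N) * (1 + s * (ch y ^ 2 - 1)) *
            ((s : ℝ) ^ (3 / 4 : ℝ) * (1 + s * (ch y ^ 2 - 1))) := by gcongr
      _ = _ := by
            rw [om]
            ring

end Pool.Agent.Lib.MP_5d4057_al.HM.Gr
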