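import Pool.Agent.Lib.MP_5d4057_al.HM.Flow

/-! Calculus on the cone and Green's formula (general form with integrability hypotheses). -/

namespace Pool.Agent.Lib.MP_5d4057_al.HM

open Matrix MeasureTheory Filter Topology Pool.Agent.Lib.MP_5d4057_al Pool.Agent.Lib.MP_5d4057_al.Hyb

open scoped ComplexOrder MatrixOrder Matrix.Norms.L2Operator

variable {n m : ℕ} {E : Type} [NormedAddCommGroup E] [NormedSpace ℝ E]

theorem gr_contDiffAt {f : Vec n → E} {k : WithTop ℕ∞} (hc : ContDiffOn ℝ k f (Cone n)) {v : Vec n}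
    (hv : v ∈ Cone n) : ContDiffAt ℝ k f v :=
  hc.contDiffAt ((isOpen_cone n).mem_nhds hv)

theorem gr_orbit {F : Type} [TopologicalSpace F] {f : Vec n → F} (hc : ContinuousOn f (Cone n)) :
    Continuous fun g : SUGroup n => f (act g (base n)) :=
  hc.comp_continuous continuous_orbit fun g => orbit_mem g

theorem gr_act (w : Vec n) : Continuous fun g : SUGroup n => act g w := by
  unfold act
  exact (continuous_toMatrix n).matrix_mulVec continuous_const

theorem gr_fderiv {f : Vec n → E} (hc : ContDiffOn ℝ 2 f (Cone n)) :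
    ContinuousOn (fderiv ℝ f) (Cone n) :=
  hc.continuousOn_fderiv_of_isOpen (isOpen_cone n) (by norm_num)

theorem gr_fderiv_two {f : Vec n → E} (hc : ContDiffOn ℝ 2 f (Cone n)) :
    ContinuousOn (fderiv ℝ (fderiv ℝ f)) (Cone n) := by
  have h1 : ContDiffOn ℝ 1 (fderiv ℝ f) (Cone n) :=
    hc.fderiv_of_isOpen (isOpen_cone n) (by norm_num)
  exact h1.continuousOn_fderiv_of_isOpen (isOpen_cone n) le_rfl

theorem gr_q : Continuous (q (n := n)) := by
  have h : (q : Vec n → ℝ) = fun v => ∑ i : Fin n, ‖v i.castSucc‖ ^ 2 - ‖v (Fin.last n)‖ ^ 2 := by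
    funext v
    exact q_eq v
  rw [h]
  fun_prop

theorem gr_lap_cont {f : Vec n → E} (hc : ContDiffOn ℝ 2 f (Cone n)) :
    ContinuousOn (Lap f) (Cone n) := by
  have h2 := gr_fderiv_two hc
  unfold Lap
  refine ContinuousOn.smul ?_ (continuousOn_finsetSum _ fun i _ => ?_)
  · exact (gr_q.neg.div_const 4).continuousOn
  · refine ContinuousOn.const_smul (ContinuousOn.add ?_ ?_) _
    · exact (h2.clm_apply continuousOn_const).clm_apply continuousOn_const
    · exact (h2.clm_apply continuousOn_const).clm_apply continuousOn_const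

/-- the map `v ↦ c • v` -/
noncomputable def smulL (n : ℕ) (c : ℂ) : Vec n →L[ℝ] Vec n :=
  c • ContinuousLinearMap.id ℝ (Vec n)

theorem smulL_apply (c : ℂ) (v : Vec n) : smulL n c v = c • v := rfl

theorem gr_smul_two {f : Vec n → E} (hf : Homog f) (hc : ContDiffOn ℝ 2 f (Cone n)) {c : ℂ}
    (hcn : c ≠ 0) {v : Vec n} (hv : v ∈ Cone n) (ξ η : Vec n) :
    fderiv ℝ (fderiv ℝ f) (c • v) ξ η = fderiv ℝ (fderiv ℝ f) v (c⁻¹ • ξ) (c⁻¹ • η) := by
  have hcv : c • v ∈ Cone n := smul_mem_cone hcn hv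
  have hev : ∀ u ∈ Cone n, (fun u => f (smulL n c⁻¹ u)) u = f u := by
    intro u hu
    exact hf _ (inv_ne_zero hcn) u hu
  have h1 : fderiv ℝ (fderiv ℝ fun u => f (smulL n c⁻¹ u)) (c • v) ξ η =
      fderiv ℝ (fderiv ℝ f) (smulL n c⁻¹ (c • v)) (smulL n c⁻¹ ξ) (smulL n c⁻¹ η) := by
    refine fderiv_two_comp (smulL n c⁻¹) ?_ ξ η
    rw [smulL_apply, smul_smul, inv_mul_cancel₀ hcn, one_smul]
    exact gr_contDiffAt hc hv
  rw [smulL_apply, smulL_apply, smulL_apply, smul_smul, inv_mul_cancel₀ hcn, one_smul] at h1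
  rw [← h1]
  have h2 : (fun u => f (smulL n c⁻¹ u)) =ᶠ[𝓝 (c • v)] f := by
    filter_upwards [(isOpen_cone n).mem_nhds hcv] with u hu
    exact hev u hu
  have h3 := h2.fderiv (𝕜 := ℝ)
  rw [h3.fderiv_eq]

theorem gr_homog_lap {f : Vec n → E} (hf : Homog f) (hc : ContDiffOn ℝ 2 f (Cone n)) :
    Homog (Lap f) := by
  intro c hcn v hv
  have hsing : ∀ (k : Fin (n + 1)) (d : ℂ), (Pi.single k d : Vec n) =
      d.re • (Pi.single k 1 : Vec n) + d.im • (Pi.single k Complex.I : Vec n) := by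
    intro k d
    rw [← Pi.single_smul, ← Pi.single_smul, ← Pi.single_add]
    congr 1
    rw [Complex.real_smul, Complex.real_smul, mul_one]
    exact (Complex.re_add_im d).symm
  obtain ⟨d, hd⟩ : ∃ d : ℂ, d = c⁻¹ := ⟨_, rfl⟩
  have key : ∀ i : Fin (n + 1), fderiv ℝ (fderiv ℝ f) (c • v) (Pi.single i 1) (Pi.single i 1) +
      fderiv ℝ (fderiv ℝ f) (c • v) (Pi.single i Complex.I) (Pi.single i Complex.I) =
      (d.re ^ 2 + d.im ^ 2) • (fderiv ℝ (fderiv ℝ f) v (Pi.single i 1) (Pi.single i 1) +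
      fderiv ℝ (fderiv ℝ f) v (Pi.single i Complex.I) (Pi.single i Complex.I)) := by
    intro i
    rw [gr_smul_two hf hc hcn hv, gr_smul_two hf hc hcn hv, ← hd, ← Pi.single_smul, ← Pi.single_smul,
      smul_eq_mul, smul_eq_mul, mul_one, hsing i d, hsing i (d * Complex.I)]
    have e1 : (d * Complex.I).re = - d.im := by simp
    have e2 : (d * Complex.I).im = d.re := by simp
    rw [e1, e2]
    simp only [map_add, map_smul, _root_.add_apply, _root_.smul_apply]
    module
  have hN : ‖c‖ ^ 2 * (d.re ^ 2 + d.im ^ 2) = 1 := by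
    have h1 : d.re ^ 2 + d.im ^ 2 = ‖d‖ ^ 2 := by
      rw [← Complex.normSq_eq_norm_sq, Complex.normSq_apply]
      ring
    rw [h1, ← mul_pow, hd, norm_inv, mul_inv_cancel₀ (norm_ne_zero_iff.2 hcn), one_pow]
  unfold Lap
  rw [q_smul]
  simp only [key]
  rw [Finset.smul_sum, Finset.smul_sum]
  refine Finset.sum_congr rfl fun i _ => ?_
  rw [smul_smul, smul_smul, smul_smul]
  congr 1
  calc -(‖c‖ ^ 2 * q v) / 4 * (J n i i).re * (d.re ^ 2 + d.im ^ 2)
      = (‖c‖ ^ 2 * (d.re ^ 2 + d.im ^ 2)) * (-q v / 4 * (J n i i).re) := by ring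
    _ = -q v / 4 * (J n i i).re := by rw [hN, one_mul]

theorem gr_norm_single (i : Fin (n + 1)) (c : ℂ) : ‖(Pi.single i c : Vec n)‖ = ‖c‖ :=
  Pi.norm_single (G := fun _ : Fin (n + 1) => ℂ) (i := i) c

theorem gr_norm_lap (f : Vec n → E) (g : SUGroup n) {D : ℝ}
    (h : ‖fderiv ℝ (fderiv ℝ f) (act g (base n))‖ ≤ D) :
    ‖Lap f (act g (base n))‖ ≤ (n + 1) * D := by
  have hD : 0 ≤ D := le_trans (norm_nonneg (fderiv ℝ (fderiv ℝ f) (act g (base n)))) h
  have hJ : ∀ i : Fin (n + 1), |(J n i i).re| ≤ 1 := by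
    intro i
    rw [J, diagonal_apply_eq]
    split_ifs <;> simp
  have hone : ∀ (i : Fin (n + 1)) (c : ℂ), ‖c‖ = 1 →
      ‖fderiv ℝ (fderiv ℝ f) (act g (base n)) (Pi.single i c) (Pi.single i c)‖ ≤ D := by
    intro i c hc
    refine (ContinuousLinearMap.le_opNorm _ _).trans ?_
    rw [gr_norm_single, hc, mul_one]
    refine (ContinuousLinearMap.le_opNorm _ _).trans ?_
    rw [gr_norm_single, hc, mul_one]
    exact h
  unfold Lap
  rw [q_orbit, norm_smul]
  have h1 : ‖(- (-1 : ℝ) / 4)‖ = 1 / 4 := by norm_num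
  rw [h1]
  have h2 : ‖∑ i : Fin (n + 1), (J n i i).re •
      (fderiv ℝ (fderiv ℝ f) (act g (base n)) (Pi.single i 1) (Pi.single i 1) +
      fderiv ℝ (fderiv ℝ f) (act g (base n)) (Pi.single i Complex.I) (Pi.single i Complex.I))‖ ≤
      ∑ _i : Fin (n + 1), 2 * D := by
    refine (norm_sum_le _ _).trans (Finset.sum_le_sum fun i _ => ?_)
    rw [norm_smul, Real.norm_eq_abs]
    have h3 := norm_add_le
      (fderiv ℝ (fderiv ℝ f) (act g (base n)) (Pi.single i 1) (Pi.single i 1))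
      (fderiv ℝ (fderiv ℝ f) (act g (base n)) (Pi.single i Complex.I) (Pi.single i Complex.I))
    have h4 := hone i 1 (by simp)
    have h5 := hone i Complex.I (by simp)
    have h6 := hJ i
    calc |(J n i i).re| * _ ≤ 1 * (2 * D) := by
          refine mul_le_mul h6 (by linarith) (norm_nonneg _) zero_le_one
      _ = 2 * D := one_mul _
  rw [Finset.sum_const, Finset.card_univ, Fintype.card_fin, nsmul_eq_mul] at h2
  push_cast at h2
  nlinarith

/-- the vector `(ξ, 0)` for a coordinate vector -/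
theorem gr_vec_single (j : Fin n) (c : ℂ) :
    vec (Pi.single j c : Fin n → ℂ) = (Pi.single j.castSucc c : Vec n) := by
  funext i
  refine Fin.lastCases ?_ (fun i => ?_) i
  · rw [vec, Fin.snoc_last, Pi.single_eq_of_ne (Fin.castSucc_lt_last j).ne']
  · rw [vec, Fin.snoc_castSucc]
    by_cases h : i = j
    · subst h
      rw [Pi.single_eq_same, Pi.single_eq_same]
    · rw [Pi.single_eq_of_ne h, Pi.single_eq_of_ne (fun h' => h (Fin.castSucc_injective n h'))]

theorem gr_sum_single (j : Fin n) {c : ℂ} (hc : ‖c‖ = 1) :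
    ∑ i, ‖(Pi.single j c : Fin n → ℂ) i‖ ^ 2 = 1 := by
  rw [Finset.sum_eq_single j]
  · rw [Pi.single_eq_same, hc, one_pow]
  · intro i _ hi
    rw [Pi.single_eq_of_ne hi, norm_zero]
    norm_num
  · intro h
    exact absurd (Finset.mem_univ j) h

/-- Green's formula for one direction. -/
theorem gr_dir [CompleteSpace E] {φ : Vec n → ℝ} {f : Vec n → E} (hφ : Homog φ)
    (hφ2 : ContDiffOn ℝ 2 φ (Cone n)) (hf : Homog f) (hf2 : ContDiffOn ℝ 2 f (Cone n))
    (ξ : Fin n → ℂ) (hξ : ∑ i, ‖ξ i‖ ^ 2 = 1)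
    (h1 : Integrable (fun g : SUGroup n => φ (act g (base n)) •
      fderiv ℝ f (act g (base n)) (act g (vec ξ))) (mu n))
    (h2 : Integrable (fun g : SUGroup n => fderiv ℝ φ (act g (base n)) (act g (vec ξ)) •
      f (act g (base n))) (mu n))
    (h3 : Integrable (fun g : SUGroup n => φ (act g (base n)) •
      fderiv ℝ (fderiv ℝ f) (act g (base n)) (act g (vec ξ)) (act g (vec ξ))) (mu n))
    (h4 : Integrable (fun g : SUGroup n =>
      fderiv ℝ (fderiv ℝ φ) (act g (base n)) (act g (vec ξ)) (act g (vec ξ)) •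
      f (act g (base n))) (mu n)) :
    ∫ g, φ (act g (base n)) •
      fderiv ℝ (fderiv ℝ f) (act g (base n)) (act g (vec ξ)) (act g (vec ξ)) ∂(mu n) =
    ∫ g, fderiv ℝ (fderiv ℝ φ) (act g (base n)) (act g (vec ξ)) (act g (vec ξ)) •
      f (act g (base n)) ∂(mu n) := by
  obtain ⟨b, hb0, hb, hbc, -, hbd⟩ := exists_flow ξ hξ
  have hcφ := gr_orbit hφ2.continuousOn
  have hcf := gr_orbit hf2.continuousOn
  have hcφ2 : Continuous fun g : SUGroup n =>
      fderiv ℝ (fderiv ℝ φ) (act g (base n)) (act g (vec ξ)) (act g (vec ξ)) :=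
    ((gr_orbit (gr_fderiv_two hφ2)).clm_apply (gr_act _)).clm_apply (gr_act _)
  have hcf2 : Continuous fun g : SUGroup n =>
      fderiv ℝ (fderiv ℝ f) (act g (base n)) (act g (vec ξ)) (act g (vec ξ)) :=
    ((gr_orbit (gr_fderiv_two hf2)).clm_apply (gr_act _)).clm_apply (gr_act _)
  have hmain := integral_flow (Ψ := fun g : SUGroup n => φ (act g (base n)) •
      fderiv ℝ f (act g (base n)) (act g (vec ξ)) -
      fderiv ℝ φ (act g (base n)) (act g (vec ξ)) • f (act g (base n)))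
    (Ψ' := fun g : SUGroup n => φ (act g (base n)) •
      fderiv ℝ (fderiv ℝ f) (act g (base n)) (act g (vec ξ)) (act g (vec ξ)) -
      fderiv ℝ (fderiv ℝ φ) (act g (base n)) (act g (vec ξ)) (act g (vec ξ)) •
      f (act g (base n))) hb0 hb hbc ((hcφ.smul hcf2).sub (hcφ2.smul hcf)) (fun g t => ?_)
      (h1.sub h2) (h3.sub h4)
  · rw [integral_sub h3 h4] at hmain
    exact sub_eq_zero.1 hmain
  · have hmem := orbit_mem (n := n) (g * b t)
    have a0 := hasDerivAt_flow hbd g t ((gr_contDiffAt hφ2 hmem).differentiableAt (by norm_num))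
    have a1 := hasDerivAt_flow_two hφ hξ hbd g t (gr_contDiffAt hφ2 hmem)
    have b0 := hasDerivAt_flow hbd g t ((gr_contDiffAt hf2 hmem).differentiableAt (by norm_num))
    have b1 := hasDerivAt_flow_two hf hξ hbd g t (gr_contDiffAt hf2 hmem)
    have h5 := (a0.smul b1).sub (a1.smul b0)
    have h6 : ∀ x y z : E, x - z = (x + y) - (y + z) := fun x y z => by abel
    rw [h6 _ (fderiv ℝ φ (act (g * b t) (base n)) (act (g * b t) (vec ξ)) •
      fderiv ℝ f (act (g * b t) (base n)) (act (g * b t) (vec ξ))) _]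
    exact h5

/-- Green's formula, with integrability hypotheses. -/
theorem gr_green [CompleteSpace E] {φ : Vec n → ℝ} {f : Vec n → E} (hφ : Homog φ)
    (hφ2 : ContDiffOn ℝ 2 φ (Cone n)) (hf : Homog f) (hf2 : ContDiffOn ℝ 2 f (Cone n))
    (h1 : ∀ ξ : Fin n → ℂ, ∑ i, ‖ξ i‖ ^ 2 = 1 → Integrable (fun g : SUGroup n => φ (act g (base n)) •
      fderiv ℝ f (act g (base n)) (act g (vec ξ))) (mu n))
    (h2 : ∀ ξ : Fin n → ℂ, ∑ i, ‖ξ i‖ ^ 2 = 1 → Integrable (fun g : SUGroup n =>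
      fderiv ℝ φ (act g (base n)) (act g (vec ξ)) • f (act g (base n))) (mu n))
    (h3 : ∀ ξ : Fin n → ℂ, ∑ i, ‖ξ i‖ ^ 2 = 1 → Integrable (fun g : SUGroup n => φ (act g (base n)) •
      fderiv ℝ (fderiv ℝ f) (act g (base n)) (act g (vec ξ)) (act g (vec ξ))) (mu n))
    (h4 : ∀ ξ : Fin n → ℂ, ∑ i, ‖ξ i‖ ^ 2 = 1 → Integrable (fun g : SUGroup n =>
      fderiv ℝ (fderiv ℝ φ) (act g (base n)) (act g (vec ξ)) (act g (vec ξ)) •
      f (act g (base n))) (mu n)) :
    ∫ g, φ (act g (base n)) • Lap f (act g (base n)) ∂(mu n) =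
      ∫ g, Lap φ (act g (base n)) • f (act g (base n)) ∂(mu n) := by
  have hI : ‖Complex.I‖ = 1 := by simp
  have h1n : ‖(1 : ℂ)‖ = 1 := by simp
  have e1 : ∀ g : SUGroup n, φ (act g (base n)) • Lap f (act g (base n)) =
      (1 / 4 : ℝ) • ∑ j : Fin n, (φ (act g (base n)) • fderiv ℝ (fderiv ℝ f) (act g (base n))
        (act g (vec (Pi.single j 1))) (act g (vec (Pi.single j 1))) +
        φ (act g (base n)) • fderiv ℝ (fderiv ℝ f) (act g (base n))
        (act g (vec (Pi.single j Complex.I))) (act g (vec (Pi.single j Complex.I)))) := by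
    intro g
    rw [lap_frame hf g (gr_contDiffAt hf2 (orbit_mem g)), smul_comm, Finset.smul_sum]
    congr 1
    refine Finset.sum_congr rfl fun j _ => ?_
    rw [smul_add, gr_vec_single, gr_vec_single]
  have e2 : ∀ g : SUGroup n, Lap φ (act g (base n)) • f (act g (base n)) =
      (1 / 4 : ℝ) • ∑ j : Fin n, (fderiv ℝ (fderiv ℝ φ) (act g (base n))
        (act g (vec (Pi.single j 1))) (act g (vec (Pi.single j 1))) • f (act g (base n)) +
        fderiv ℝ (fderiv ℝ φ) (act g (base n))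
        (act g (vec (Pi.single j Complex.I))) (act g (vec (Pi.single j Complex.I))) •
          f (act g (base n))) := by
    intro g
    rw [lap_frame hφ g (gr_contDiffAt hφ2 (orbit_mem g)), smul_eq_mul, mul_smul, Finset.sum_smul]
    congr 1
    refine Finset.sum_congr rfl fun j _ => ?_
    rw [add_smul, gr_vec_single, gr_vec_single]
  simp only [e1, e2]
  rw [integral_smul, integral_smul, integral_finsetSum, integral_finsetSum]
  · congr 1
    refine Finset.sum_congr rfl fun j _ => ?_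
    rw [integral_add (h3 _ (gr_sum_single j h1n)) (h3 _ (gr_sum_single j hI)),
      integral_add (h4 _ (gr_sum_single j h1n)) (h4 _ (gr_sum_single j hI))]
    rw [gr_dir hφ hφ2 hf hf2 _ (gr_sum_single j h1n) (h1 _ (gr_sum_single j h1n))
      (h2 _ (gr_sum_single j h1n)) (h3 _ (gr_sum_single j h1n)) (h4 _ (gr_sum_single j h1n)),
      gr_dir hφ hφ2 hf hf2 _ (gr_sum_single j hI) (h1 _ (gr_sum_single j hI))
      (h2 _ (gr_sum_single j hI)) (h3 _ (gr_sum_single j hI)) (h4 _ (gr_sum_single j hI))]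
  · intro j _
    exact (h4 _ (gr_sum_single j h1n)).add (h4 _ (gr_sum_single j hI))
  · intro j _
    exact (h3 _ (gr_sum_single j h1n)).add (h3 _ (gr_sum_single j hI))

end Pool.Agent.Lib.MP_5d4057_al.HM
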