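import Pool.Agent.Lib.MP_5d4057_al.HM.LapKer

namespace Pool.Agent.Lib.MP_5d4057_al.HM.Gr

open Matrix MeasureTheory Filter Topology Pool.Agent.Lib.MP_5d4057_al Pool.Agent.Lib.MP_5d4057_al.Hyb

open scoped ComplexOrder MatrixOrder Matrix.Norms.L2Operator

variable {n m : ℕ} {E : Type} [NormedAddCommGroup E] [NormedSpace ℝ E]

/-- `|z(y)|² = 1 - ch(y)⁻²`. -/
noncomputable def hh (y : SUGroup n) : ℝ := 1 - (ch y ^ 2)⁻¹

/-- The linear form `ζ(ξ) = ∑ conj z_j ξ_j`. -/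
noncomputable def zeta (y : SUGroup n) (ξ : Vec n) : ℂ :=
  ∑ j : Fin n, star (zc y j) * ξ j.castSucc

theorem hh_nonneg (y : SUGroup n) : 0 ≤ hh y := by
  have h := one_le_ch y
  rw [hh, sub_nonneg]
  exact inv_le_one_of_one_le₀ (by nlinarith)

theorem hh_le_one (y : SUGroup n) : hh y ≤ 1 := by
  have h := one_le_ch y
  rw [hh, sub_le_self_iff]
  positivity

theorem sum_zc (y : SUGroup n) : ∑ j : Fin n, ‖zc y j‖ ^ 2 = hh y := by
  have h := sum_col y
  have h1 := one_le_ch y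
  have h2 : ∑ j : Fin n, ‖zc y j‖ ^ 2 =
      (∑ j : Fin n, ‖y.toMatrix j.castSucc (Fin.last n)‖ ^ 2) / ch y ^ 2 := by
    rw [Finset.sum_div]
    refine Finset.sum_congr rfl fun j _ => ?_
    rw [zc, norm_div, div_pow]
    rfl
  rw [h2, h, hh]
  field_simp

/-- `|ζ(ξ)|² ≤ |z|² |ξ|²`. -/
theorem norm_zeta_sq_le (y : SUGroup n) (ξ : Vec n) :
    ‖zeta y ξ‖ ^ 2 ≤ hh y * ((n + 1) * ‖ξ‖ ^ 2) := by
  have h1 : ‖zeta y ξ‖ ≤ ∑ j : Fin n, ‖zc y j‖ * ‖ξ‖ := by
    rw [zeta]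
    refine (norm_sum_le _ _).trans (Finset.sum_le_sum fun j _ => ?_)
    rw [norm_mul, norm_star]
    exact mul_le_mul_of_nonneg_left (norm_le_pi_norm ξ _) (norm_nonneg _)
  have h2 : (∑ j : Fin n, ‖zc y j‖ * ‖ξ‖) ^ 2 ≤
      (∑ j : Fin n, ‖zc y j‖ ^ 2) * ∑ _j : Fin n, ‖ξ‖ ^ 2 :=
    Finset.sum_mul_sq_le_sq_mul_sq _ _ _
  rw [sum_zc, Finset.sum_const, Finset.card_univ, Fintype.card_fin, nsmul_eq_mul] at h2
  have h3 : ‖zeta y ξ‖ ^ 2 ≤ (∑ j : Fin n, ‖zc y j‖ * ‖ξ‖) ^ 2 :=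
    pow_le_pow_left₀ (norm_nonneg _) h1 2
  have h4 := hh_nonneg y
  have h5 : 0 ≤ hh y * ‖ξ‖ ^ 2 := by positivity
  nlinarith

theorem orbit_apply (y : SUGroup n) (i : Fin (n + 1)) :
    act y (base n) i = y.toMatrix i (Fin.last n) := by
  rw [act, base, Matrix.mulVec_single_one]
  rfl

theorem toMatrix_last_ne (y : SUGroup n) : y.toMatrix (Fin.last n) (Fin.last n) ≠ 0 := by
  have h := one_le_ch y
  intro h0
  rw [ch, h0, norm_zero] at h
  linarith

theorem herm_orbit_right (y : SUGroup n) (ξ : Vec n) :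
    herm (act y (base n)) ξ =
      - star (y.toMatrix (Fin.last n) (Fin.last n)) * (ξ (Fin.last n) - zeta y ξ) := by
  have hne := toMatrix_last_ne y
  have h1 : ∀ j : Fin n, star (act y (base n) j.castSucc) * ξ j.castSucc =
      star (y.toMatrix (Fin.last n) (Fin.last n)) * (star (zc y j) * ξ j.castSucc) := by
    intro j
    rw [orbit_apply, zc, star_div₀, ← mul_assoc, mul_div_cancel₀]
    exact star_ne_zero.mpr hne
  rw [herm_eq, Finset.sum_congr rfl fun j _ => h1 j, ← Finset.mul_sum, ← zeta, orbit_apply]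
  ring

/-- The ratio of the kernel along a line through the base point. -/
noncomputable def rat (a b r p t : ℝ) : ℝ := (1 + 2 * t * a - t ^ 2 * b) / (1 + 2 * t * r + t ^ 2 * p)

theorem ker_line (s : ℕ) (y : SUGroup n) (ξ : Vec n) (t : ℝ) :
    ker s (base n + t • ξ) (act y (base n)) = (ch y ^ (2 * s))⁻¹ *
      rat (ξ (Fin.last n)).re (q ξ) (ξ (Fin.last n) - zeta y ξ).re
        (‖ξ (Fin.last n) - zeta y ξ‖ ^ 2) t ^ s := by
  have h1 : q (base n + t • ξ) = -(1 + 2 * t * (ξ (Fin.last n)).re - t ^ 2 * q ξ) := by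
    have e : herm (base n + t • ξ) (base n + t • ξ) =
        herm (base n) (base n) + (t : ℂ) * herm (base n) ξ + (t : ℂ) * herm ξ (base n) +
          (t : ℂ) ^ 2 * herm ξ ξ := by
      have ht : t • ξ = (t : ℂ) • ξ := (Complex.coe_smul t ξ).symm
      rw [ht, herm_add_left, herm_add_right, herm_add_right, herm_smul_left, herm_smul_left,
        herm_smul_right, herm_smul_right]
      have : star (t : ℂ) = t := Complex.conj_ofReal t
      rw [this]
      ring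
    have hb : herm (base n) ξ = - ξ (Fin.last n) := by
      have h := herm_orbit_right (1 : SUGroup n) ξ
      rw [act_one, toMatrix_one, Matrix.one_apply_eq, star_one] at h
      rw [h]
      have hz : zeta (1 : SUGroup n) ξ = 0 := by
        have := norm_zeta_sq_le (1 : SUGroup n) ξ
        rw [hh, ch_one] at this
        norm_num at this
        exact this
      rw [hz]
      ring
    have hb' : herm ξ (base n) = - star (ξ (Fin.last n)) := by rw [herm_comm, hb, star_neg]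
    have h2 := congrArg Complex.re e
    rw [hb, hb', herm_self, herm_self, herm_self, q_base] at h2
    simp only [Complex.add_re, Complex.ofReal_re, Complex.mul_re, Complex.neg_re, Complex.ofReal_im,
      zero_mul, sub_zero, Complex.star_def, Complex.conj_re, pow_two, Complex.mul_im] at h2
    rw [h2]
    ring
  have h2 : ‖herm (base n + t • ξ) (act y (base n))‖ ^ 2 = ch y ^ 2 *
      (1 + 2 * t * (ξ (Fin.last n) - zeta y ξ).re + t ^ 2 * ‖ξ (Fin.last n) - zeta y ξ‖ ^ 2) := by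
    rw [herm_comm, norm_star]
    have e : herm (act y (base n)) (base n + t • ξ) =
        - star (y.toMatrix (Fin.last n) (Fin.last n)) * (1 + t * (ξ (Fin.last n) - zeta y ξ)) := by
      have ht : t • ξ = (t : ℂ) • ξ := (Complex.coe_smul t ξ).symm
      rw [ht, herm_add_right, herm_smul_right, herm_orbit_right, herm_orbit_right]
      have hz : zeta y (base n) = 0 := by
        rw [zeta]
        refine Finset.sum_eq_zero fun j _ => ?_
        rw [base, Pi.single_eq_of_ne (Fin.castSucc_lt_last j).ne, mul_zero]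
      rw [hz, base, Pi.single_eq_same]
      ring
    rw [e, norm_mul, norm_neg, norm_star, mul_pow]
    congr 1
    have : ‖(1 : ℂ) + t * (ξ (Fin.last n) - zeta y ξ)‖ ^ 2 =
        1 + 2 * t * (ξ (Fin.last n) - zeta y ξ).re + t ^ 2 * ‖ξ (Fin.last n) - zeta y ξ‖ ^ 2 := by
      rw [← Complex.normSq_eq_norm_sq, ← Complex.normSq_eq_norm_sq, Complex.normSq_apply,
        Complex.normSq_apply]
      simp only [Complex.add_re, Complex.one_re, Complex.mul_re, Complex.ofReal_re,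
        Complex.ofReal_im, zero_mul, sub_zero, Complex.add_im, Complex.one_im, Complex.mul_im,
        zero_add, add_zero]
      ring
    exact this
  have h3 : 0 < ch y ^ 2 := pow_pos (lt_of_lt_of_le one_pos (one_le_ch y)) 2
  have h4 : ∀ a b : ℝ, -a * -1 / (ch y ^ 2 * b) = (ch y ^ 2)⁻¹ * (a / b) := by
    intro a b
    rw [neg_mul_neg, mul_one, ← div_div, div_right_comm, div_eq_inv_mul (a / b)]
  rw [ker, h1, h2, q_orbit, rat, pow_mul, ← inv_pow ((ch y) ^ 2) s, h4, mul_pow]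

theorem hasDerivAt_lin (c t : ℝ) : HasDerivAt (fun t : ℝ => 1 + 2 * t * c) (2 * c) t := by
  simpa using (((hasDerivAt_id' t).const_mul 2).mul_const c).const_add 1

theorem hasDerivAt_quad (c t : ℝ) : HasDerivAt (fun t : ℝ => t ^ 2 * c) (2 * t * c) t := by
  simpa using (hasDerivAt_pow 2 t).mul_const c

theorem hasDerivAt_lin' (d c t : ℝ) : HasDerivAt (fun t : ℝ => 2 * d + 2 * t * c) (2 * c) t := by
  simpa using (((hasDerivAt_id' t).const_mul 2).mul_const c).const_add (2 * d)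

theorem hasDerivAt_lin'' (d c t : ℝ) : HasDerivAt (fun t : ℝ => 2 * d - 2 * t * c) (-(2 * c)) t := by
  simpa using (((hasDerivAt_id' t).const_mul 2).mul_const c).const_sub (2 * d)

/-- First derivative of the ratio. -/
theorem hasDerivAt_rat (a b r p t : ℝ) (h : 1 + 2 * t * r + t ^ 2 * p ≠ 0) :
    HasDerivAt (fun t => rat a b r p t)
      (((2 * a - 2 * t * b) * (1 + 2 * t * r + t ^ 2 * p) -
        (1 + 2 * t * a - t ^ 2 * b) * (2 * r + 2 * t * p)) / (1 + 2 * t * r + t ^ 2 * p) ^ 2) t :=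
  ((hasDerivAt_lin a t).sub (hasDerivAt_quad b t)).div
    ((hasDerivAt_lin r t).add (hasDerivAt_quad p t)) h

/-- Second derivative of the power of the ratio at `0`. -/
theorem deriv_rat_pow (a b r p : ℝ) (s : ℕ) :
    HasDerivAt (fun t => rat a b r p t ^ s) (s * (2 * (a - r))) 0 ∧
    deriv (deriv fun t => rat a b r p t ^ s) 0 =
      4 * (s : ℝ) ^ 2 * (a - r) ^ 2 + s * (-2 * b - 4 * a ^ 2 + 4 * r ^ 2 - 2 * p) := by
  have hne : ∀ᶠ t : ℝ in 𝓝 0, 1 + 2 * t * r + t ^ 2 * p ≠ 0 := by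
    have hc : ContinuousAt (fun t : ℝ => 1 + 2 * t * r + t ^ 2 * p) 0 := by fun_prop
    exact hc.eventually_ne (by norm_num)
  have h0 : rat a b r p 0 = 1 := by simp [rat]
  have hd : ∀ᶠ t : ℝ in 𝓝 0, deriv (fun t => rat a b r p t ^ s) t =
      s * rat a b r p t ^ (s - 1) * (((2 * a - 2 * t * b) * (1 + 2 * t * r + t ^ 2 * p) -
        (1 + 2 * t * a - t ^ 2 * b) * (2 * r + 2 * t * p)) / (1 + 2 * t * r + t ^ 2 * p) ^ 2) := by
    filter_upwards [hne] with t ht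
    exact ((hasDerivAt_rat a b r p t ht).pow s).deriv
  have hz : HasDerivAt (fun t => rat a b r p t) (2 * (a - r)) 0 := by
    have := hasDerivAt_rat a b r p 0 (by norm_num)
    convert this using 1
    norm_num
    ring
  refine ⟨?_, ?_⟩
  · have := hz.pow s
    rw [h0, one_pow, mul_one] at this
    exact this
  have hd' : deriv (deriv fun t => rat a b r p t ^ s) 0 = _ := Filter.EventuallyEq.deriv_eq hd
  rw [hd']
  -- the derivative of the explicit quotient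
  have e1 : HasDerivAt (fun t : ℝ => (2 * a - 2 * t * b) * (1 + 2 * t * r + t ^ 2 * p) -
        (1 + 2 * t * a - t ^ 2 * b) * (2 * r + 2 * t * p)) (-2 * b - 2 * p) 0 := by
    have := ((hasDerivAt_lin'' a b 0).mul ((hasDerivAt_lin r 0).add (hasDerivAt_quad p 0))).sub
      (((hasDerivAt_lin a 0).sub (hasDerivAt_quad b 0)).mul (hasDerivAt_lin' r p 0))
    refine this.congr_deriv ?_
    simp only [Pi.add_apply, Pi.sub_apply]
    norm_num
    ring
  have e2 : HasDerivAt (fun t : ℝ => (1 + 2 * t * r + t ^ 2 * p) ^ 2) (4 * r) 0 := by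
    have := ((hasDerivAt_lin r 0).add (hasDerivAt_quad p 0)).pow 2
    refine this.congr_deriv ?_
    simp only [Pi.add_apply]
    norm_num
    ring
  have e3 := e1.div e2 (by norm_num)
  have e4 := (hz.pow (s - 1)).const_mul (s : ℝ)
  have e5 := (e4.mul e3).deriv
  have e6 : deriv (fun t : ℝ => s * rat a b r p t ^ (s - 1) *
      (((2 * a - 2 * t * b) * (1 + 2 * t * r + t ^ 2 * p) -
        (1 + 2 * t * a - t ^ 2 * b) * (2 * r + 2 * t * p)) / (1 + 2 * t * r + t ^ 2 * p) ^ 2)) 0 =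
      _ := e5
  rw [e6]
  simp only [Pi.pow_apply, Pi.div_apply]
  rw [h0]
  rcases Nat.eq_zero_or_pos s with hs | hs
  · subst hs
    simp
  · have : ((s - 1 : ℕ) : ℝ) = (s : ℝ) - 1 := by
      rw [Nat.cast_sub hs, Nat.cast_one]
    rw [this]
    norm_num
    ring

/-- The first derivative of the kernel at the base point. -/
theorem fderiv_ker_base (s : ℕ) (y : SUGroup n) (ξ : Vec n) :
    fderiv ℝ (fun v => ker s v (act y (base n))) (base n) ξ =
      (ch y ^ (2 * s))⁻¹ * (2 * s * (zeta y ξ).re) := by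
  have hd : DifferentiableAt ℝ (fun v => ker s v (act y (base n))) (base n) :=
    ((contDiffOn_ker s (orbit_mem y)).differentiableOn (by simp)).differentiableAt
      ((isOpen_cone n).mem_nhds (base_mem n))
  rw [← hd.lineDeriv_eq_fderiv, lineDeriv]
  simp only [ker_line]
  have h := (deriv_rat_pow (ξ (Fin.last n)).re (q ξ) (ξ (Fin.last n) - zeta y ξ).re
    (‖ξ (Fin.last n) - zeta y ξ‖ ^ 2) s).1.const_mul ((ch y ^ (2 * s))⁻¹)
  rw [h.deriv, Complex.sub_re]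
  ring

/-- The second derivative of the kernel at the base point. -/
theorem fderiv_two_ker_base (s : ℕ) (y : SUGroup n) (ξ : Vec n) :
    fderiv ℝ (fderiv ℝ fun v => ker s v (act y (base n))) (base n) ξ ξ =
      (ch y ^ (2 * s))⁻¹ * (4 * (s : ℝ) ^ 2 * (zeta y ξ).re ^ 2 +
        s * (-2 * q ξ - 4 * (ξ (Fin.last n)).re ^ 2 + 4 * (ξ (Fin.last n) - zeta y ξ).re ^ 2 -
          2 * ‖ξ (Fin.last n) - zeta y ξ‖ ^ 2)) := by
  have hd : ContDiffAt ℝ 2 (fun v => ker s v (act y (base n))) (base n) :=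
    ((contDiffOn_ker s (orbit_mem y)).contDiffAt ((isOpen_cone n).mem_nhds (base_mem n))).of_le
      (WithTop.coe_le_coe.mpr (le_top : (2 : ℕ∞) ≤ ⊤))
  rw [fderiv_fderiv_line hd]
  simp only [ker_line]
  have h := (deriv_rat_pow (ξ (Fin.last n)).re (q ξ) (ξ (Fin.last n) - zeta y ξ).re
    (‖ξ (Fin.last n) - zeta y ξ‖ ^ 2) s).2
  have h1 : (deriv fun t : ℝ => (ch y ^ (2 * s))⁻¹ *
      rat (ξ (Fin.last n)).re (q ξ) (ξ (Fin.last n) - zeta y ξ).re
        (‖ξ (Fin.last n) - zeta y ξ‖ ^ 2) t ^ s) = fun t => (ch y ^ (2 * s))⁻¹ *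
      deriv (fun t => rat (ξ (Fin.last n)).re (q ξ) (ξ (Fin.last n) - zeta y ξ).re
        (‖ξ (Fin.last n) - zeta y ξ‖ ^ 2) t ^ s) t := by
    funext t
    exact deriv_const_mul_field _
  rw [h1, deriv_const_mul_field, h, Complex.sub_re]
  ring

/-- Bounds. -/
theorem abs_fderiv_ker_le (s : ℕ) (y : SUGroup n) (ξ : Vec n) :
    |fderiv ℝ (fun v => ker s v (act y (base n))) (base n) ξ| ≤
      (ch y ^ (2 * s))⁻¹ * (2 * s * Real.sqrt (hh y) * (Real.sqrt (n + 1) * ‖ξ‖)) := by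
  have h0 : 0 < ch y := lt_of_lt_of_le one_pos (one_le_ch y)
  have h1 : |(zeta y ξ).re| ≤ Real.sqrt (hh y) * (Real.sqrt (n + 1) * ‖ξ‖) := by
    refine (Complex.abs_re_le_norm _).trans ?_
    have h2 : ‖zeta y ξ‖ ≤ Real.sqrt (hh y * ((n + 1) * ‖ξ‖ ^ 2)) :=
      Real.le_sqrt_of_sq_le (norm_zeta_sq_le y ξ)
    refine h2.trans (le_of_eq ?_)
    rw [Real.sqrt_mul (hh_nonneg y), Real.sqrt_mul (by positivity), Real.sqrt_sq (norm_nonneg _)]
  rw [fderiv_ker_base, abs_mul, abs_mul, abs_mul, abs_of_nonneg (by positivity),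
    abs_of_nonneg (by positivity : (0 : ℝ) ≤ 2), abs_of_nonneg (by positivity : (0 : ℝ) ≤ (s : ℝ))]
  have h2 : 0 ≤ (ch y ^ (2 * s))⁻¹ := by positivity
  refine mul_le_mul_of_nonneg_left ?_ h2
  rw [mul_assoc (2 * (s : ℝ))]
  exact mul_le_mul_of_nonneg_left h1 (by positivity)

theorem abs_fderiv_two_ker_le (s : ℕ) (y : SUGroup n) (ξ : Vec n) :
    |fderiv ℝ (fderiv ℝ fun v => ker s v (act y (base n))) (base n) ξ ξ| ≤
      (ch y ^ (2 * s))⁻¹ * ((4 * (s : ℝ) ^ 2 * hh y + 30 * s) * ((n + 1) * ‖ξ‖ ^ 2)) := by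
  have h0 : 0 < ch y := lt_of_lt_of_le one_pos (one_le_ch y)
  have h1 := norm_zeta_sq_le y ξ
  have hn : (0 : ℝ) ≤ n := Nat.cast_nonneg n
  set X : ℝ := (n + 1) * ‖ξ‖ ^ 2 with hX
  have hX0 : 0 ≤ X := by positivity
  have hxX : ‖ξ‖ ^ 2 ≤ X := by
    have : 0 ≤ ‖ξ‖ ^ 2 := by positivity
    rw [hX]
    nlinarith
  have hz : ‖zeta y ξ‖ ^ 2 ≤ X := h1.trans (by
    have := hh_le_one y
    nlinarith)
  have hzre : (zeta y ξ).re ^ 2 ≤ hh y * X := by
    refine le_trans ?_ h1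
    rw [← sq_abs]
    exact pow_le_pow_left₀ (abs_nonneg _) (Complex.abs_re_le_norm _) 2
  have hl : ‖ξ (Fin.last n)‖ ^ 2 ≤ X :=
    (pow_le_pow_left₀ (norm_nonneg _) (norm_le_pi_norm ξ _) 2).trans hxX
  have hlre : (ξ (Fin.last n)).re ^ 2 ≤ X := by
    refine le_trans ?_ hl
    rw [← sq_abs]
    exact pow_le_pow_left₀ (abs_nonneg _) (Complex.abs_re_le_norm _) 2
  have hb : ‖ξ (Fin.last n) - zeta y ξ‖ ^ 2 ≤ 4 * X := by
    have h2 := norm_sub_le (ξ (Fin.last n)) (zeta y ξ)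
    have h3 : ‖ξ (Fin.last n) - zeta y ξ‖ ^ 2 ≤ (‖ξ (Fin.last n)‖ + ‖zeta y ξ‖) ^ 2 :=
      pow_le_pow_left₀ (norm_nonneg _) h2 2
    nlinarith [sq_nonneg (‖ξ (Fin.last n)‖ - ‖zeta y ξ‖)]
  have hbre : (ξ (Fin.last n) - zeta y ξ).re ^ 2 ≤ 4 * X := by
    refine le_trans ?_ hb
    rw [← sq_abs]
    exact pow_le_pow_left₀ (abs_nonneg _) (Complex.abs_re_le_norm _) 2
  have hq : |q ξ| ≤ X := by
    rw [q_eq, abs_le]
    have hs : ∑ i : Fin n, ‖ξ i.castSucc‖ ^ 2 ≤ n * ‖ξ‖ ^ 2 := by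
      refine (Finset.sum_le_card_nsmul _ _ (‖ξ‖ ^ 2) fun i _ => ?_).trans (le_of_eq ?_)
      · exact pow_le_pow_left₀ (norm_nonneg _) (norm_le_pi_norm ξ _) 2
      · rw [Finset.card_univ, Fintype.card_fin, nsmul_eq_mul]
    have hs0 : 0 ≤ ∑ i : Fin n, ‖ξ i.castSucc‖ ^ 2 := Finset.sum_nonneg fun i _ => sq_nonneg _
    have h5 : 0 ≤ ‖ξ (Fin.last n)‖ ^ 2 := sq_nonneg _
    have h6 : 0 ≤ ‖ξ‖ ^ 2 := sq_nonneg _
    constructor
    · linarith
    · rw [hX]
      linarith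
  have hq' := abs_le.mp hq
  rw [fderiv_two_ker_base, abs_mul, abs_of_nonneg (by positivity : 0 ≤ (ch y ^ (2 * s))⁻¹)]
  refine mul_le_mul_of_nonneg_left ?_ (by positivity)
  have hs : (0 : ℝ) ≤ s := Nat.cast_nonneg s
  have hA : |4 * (s : ℝ) ^ 2 * (zeta y ξ).re ^ 2| ≤ 4 * (s : ℝ) ^ 2 * hh y * X := by
    rw [abs_of_nonneg (by positivity), mul_assoc (4 * (s : ℝ) ^ 2)]
    exact mul_le_mul_of_nonneg_left hzre (by positivity)
  have hB : |(s : ℝ) * (-2 * q ξ - 4 * (ξ (Fin.last n)).re ^ 2 +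
      4 * (ξ (Fin.last n) - zeta y ξ).re ^ 2 - 2 * ‖ξ (Fin.last n) - zeta y ξ‖ ^ 2)| ≤
      30 * s * X := by
    rw [abs_mul, abs_of_nonneg hs]
    have : |-2 * q ξ - 4 * (ξ (Fin.last n)).re ^ 2 +
      4 * (ξ (Fin.last n) - zeta y ξ).re ^ 2 - 2 * ‖ξ (Fin.last n) - zeta y ξ‖ ^ 2| ≤ 30 * X := by
      rw [abs_le]
      constructor
      · nlinarith [sq_nonneg (ξ (Fin.last n) - zeta y ξ).re]
      · nlinarith [sq_nonneg (ξ (Fin.last n)).re, sq_nonneg ‖ξ (Fin.last n) - zeta y ξ‖]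
    calc (s : ℝ) * _ ≤ s * (30 * X) := mul_le_mul_of_nonneg_left this hs
      _ = 30 * s * X := by ring
  calc _ ≤ _ := abs_add_le _ _
    _ ≤ 4 * (s : ℝ) ^ 2 * hh y * X + 30 * s * X := add_le_add hA hB
    _ = _ := by ring

end Pool.Agent.Lib.MP_5d4057_al.HM.Gr
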