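import Pool.Agent.Lib.MP_5d4057_al.HM.Mom

/-! Comparison of the kernels at different levels (blueprint D5). -/

set_option autoImplicit false

namespace Pool.Agent.Lib.MP_5d4057_al.HM.Boot

open Matrix MeasureTheory Filter Topology Finset Pool.Agent.Lib.MP_5d4057_al
  Pool.Agent.Lib.MP_5d4057_al.Hyb

variable {n : ℕ}

/-- the facts about the normalising constants which are used: levels `≥ s₀` -/
structure CsOK (n s₀ : ℕ) : Prop where
  gt : 2 * n + 2 ≤ s₀
  int : ∀ s, s₀ ≤ s + 1 → Integrable (fun x : SUGroup n => (ch x ^ (2 * s))⁻¹) (mu n)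
  pos : ∀ s, s₀ ≤ s + 1 → 0 < cs n s
  succ : ∀ s, s₀ ≤ s + 1 → cs n (s + 1) = ((s : ℝ) - n) / s * cs n s

theorem csOK (n : ℕ) : CsOK n (2 * n + 2) where
  gt := le_rfl
  int := fun s hs => integrable_inv (by omega)
  pos := fun s hs => cs_pos' (by omega)
  succ := fun s hs => by
    have h := cs_succ (n := n) (s := s) (by omega)
    have hs0 : (s : ℝ) ≠ 0 := by
      have : s ≠ 0 := by omega
      exact_mod_cast this
    rw [div_mul_eq_mul_div, eq_div_iff hs0]
    linarith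

theorem kap_nonneg' {s₀ : ℕ} (h : CsOK n s₀) {s : ℕ} (hs : s₀ ≤ s + 1) (x : SUGroup n) :
    0 ≤ kap s x :=
  div_nonneg (inv_nonneg.2 (pow_nonneg (ch_pos x).le _)) (h.pos s hs).le

theorem cs_anti {s₀ : ℕ} (h : CsOK n s₀) {s j : ℕ} (hs : s₀ ≤ s + 1) : cs n (s + j) ≤ cs n s := by
  induction j with
  | zero => simp
  | succ j ih =>
    have hgt := h.gt
    have h1 := h.succ (s + j) (by omega)
    rw [show s + (j + 1) = s + j + 1 by omega, h1]
    have h2 := h.pos (s + j) (by omega)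
    have h3 : (0 : ℝ) < ((s + j : ℕ) : ℝ) := by
      have : 0 < s + j := by omega
      exact_mod_cast this
    have h4 : (((s + j : ℕ) : ℝ) - n) / ((s + j : ℕ) : ℝ) ≤ 1 := by
      rw [div_le_one h3]
      have : (0 : ℝ) ≤ n := Nat.cast_nonneg n
      linarith
    calc _ ≤ 1 * cs n (s + j) := mul_le_mul_of_nonneg_right h4 h2.le
      _ = cs n (s + j) := one_mul _
      _ ≤ _ := ih

theorem cs_ratio {s₀ : ℕ} (h : CsOK n s₀) {s j : ℕ} (hs : s₀ ≤ s + 1) :
    cs n s ≤ Real.exp (n * j / ((s : ℝ) - n)) * cs n (s + j) := by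
  have hgt := h.gt
  have hsn : (0 : ℝ) < (s : ℝ) - n := by
    have h1 : n < s := by omega
    have h2 : (n : ℝ) < s := by exact_mod_cast h1
    linarith
  induction j with
  | zero => simp
  | succ j ih =>
    refine ih.trans ?_
    have h1 := h.succ (s + j) (by omega)
    have h2 := h.pos (s + j) (by omega)
    have h3 : (s : ℝ) - n ≤ ((s + j : ℕ) : ℝ) - n := by
      push_cast
      have : (0 : ℝ) ≤ j := Nat.cast_nonneg j
      linarith
    have h4 : (0 : ℝ) < ((s + j : ℕ) : ℝ) := by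
      have : 0 < s + j := by omega
      exact_mod_cast this
    have h5 : 1 ≤ Real.exp (n / ((s : ℝ) - n)) * ((((s + j : ℕ) : ℝ) - n) / ((s + j : ℕ) : ℝ)) := by
      have h6 : (n : ℝ) / ((s : ℝ) - n) + 1 ≤ Real.exp (n / ((s : ℝ) - n)) := Real.add_one_le_exp _
      have h7 : ((s + j : ℕ) : ℝ) / (((s + j : ℕ) : ℝ) - n) ≤ Real.exp (n / ((s : ℝ) - n)) := by
        refine le_trans ?_ h6
        have h8 : ((s + j : ℕ) : ℝ) / (((s + j : ℕ) : ℝ) - n) =
            n / (((s + j : ℕ) : ℝ) - n) + 1 := by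
          rw [div_add_one (by linarith : (((s + j : ℕ) : ℝ) - n) ≠ 0)]
          congr 1
          ring
        rw [h8]
        have h9 : (n : ℝ) / (((s + j : ℕ) : ℝ) - n) ≤ n / ((s : ℝ) - n) :=
          div_le_div_of_nonneg_left (Nat.cast_nonneg n) hsn h3
        linarith
      have h8 : 0 < ((((s + j : ℕ) : ℝ) - n) / ((s + j : ℕ) : ℝ)) :=
        div_pos (by linarith) h4
      calc (1 : ℝ) = ((s + j : ℕ) : ℝ) / (((s + j : ℕ) : ℝ) - n) *
            ((((s + j : ℕ) : ℝ) - n) / ((s + j : ℕ) : ℝ)) := by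
              rw [div_mul_div_cancel₀ (by linarith), div_self h4.ne']
        _ ≤ _ := mul_le_mul_of_nonneg_right h7 h8.le
    rw [show s + (j + 1) = s + j + 1 by omega, h1]
    have h10 : Real.exp (n * ((j + 1 : ℕ) : ℝ) / ((s : ℝ) - n)) =
        Real.exp (n * j / ((s : ℝ) - n)) * Real.exp (n / ((s : ℝ) - n)) := by
      rw [← Real.exp_add]
      congr 1
      push_cast
      ring
    rw [h10]
    have h11 : 0 ≤ Real.exp (n * j / ((s : ℝ) - n)) * cs n (s + j) := by positivity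
    calc Real.exp (n * j / ((s : ℝ) - n)) * cs n (s + j)
        = Real.exp (n * j / ((s : ℝ) - n)) * cs n (s + j) * 1 := (mul_one _).symm
      _ ≤ Real.exp (n * j / ((s : ℝ) - n)) * cs n (s + j) *
          (Real.exp (n / ((s : ℝ) - n)) * ((((s + j : ℕ) : ℝ) - n) / ((s + j : ℕ) : ℝ))) :=
          mul_le_mul_of_nonneg_left h5 h11
      _ = _ := by ring

/-- `cs n s ≤ e^(2n) cs n (s+j)` for `j ≤ s`, `2 n ≤ s` -/
theorem cs_ratio_two {s₀ : ℕ} (h : CsOK n s₀) {s j : ℕ} (hs : s₀ ≤ s + 1) (hj : j ≤ s) :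
    cs n s ≤ Real.exp (2 * n) * cs n (s + j) := by
  refine (cs_ratio h (j := j) hs).trans ?_
  have hgt := h.gt
  refine mul_le_mul_of_nonneg_right ?_ (h.pos (s + j) (by omega)).le
  rw [Real.exp_le_exp]
  have h1 : 2 * (n : ℝ) ≤ s := by
    have : 2 * n ≤ s := by omega
    exact_mod_cast this
  have h0 : (0 : ℝ) < s := by
    have : 0 < s := by omega
    exact_mod_cast this
  have h3 : (0 : ℝ) ≤ n := Nat.cast_nonneg n
  have h2 : (j : ℝ) ≤ s := by exact_mod_cast hj
  rw [div_le_iff₀ (by linarith)]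
  nlinarith

theorem lam_pos {s₀ : ℕ} (h : CsOK n s₀) {s : ℕ} (hs : s₀ ≤ s + 1) : 0 < lam n s := by
  have hgt := h.gt
  unfold lam
  have h1 : n < s := by omega
  have h2 : (n : ℝ) < s := by exact_mod_cast h1
  have h3 : (0 : ℝ) ≤ n := Nat.cast_nonneg n
  exact mul_pos (by linarith) (by linarith)

/-- blueprint D5, first comparison -/
theorem kap_two_le {s₀ : ℕ} (h : CsOK n s₀) {s : ℕ} (hs : s₀ ≤ s + 1) (x : SUGroup n) :
    kap (2 * s) x ≤ 4 * Real.exp (2 * n) * s *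
      ∑ j ∈ range s, (lam n (s + j))⁻¹ * kap (s + j) x := by
  have hgt := h.gt
  have hspos : (0 : ℝ) < s := by
    have : 0 < s := by omega
    exact_mod_cast this
  have hn0 : (0 : ℝ) ≤ n := Nat.cast_nonneg n
  have hterm : ∀ j ∈ range s, (4 * (s : ℝ) ^ 2)⁻¹ * (Real.exp (-(2 * n)) * kap (2 * s) x) ≤
      (lam n (s + j))⁻¹ * kap (s + j) x := by
    intro j hj
    rw [mem_range] at hj
    have hjs : (j : ℝ) ≤ s := by exact_mod_cast hj.le
    have hj0 : (0 : ℝ) ≤ j := Nat.cast_nonneg j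
    refine mul_le_mul ?_ ?_ ?_ ?_
    · refine inv_anti₀ (lam_pos h (by omega)) ?_
      unfold lam
      push_cast
      nlinarith
    · unfold kap
      have h1 := cs_ratio_two h hs le_rfl
      have h2 := cs_anti h (j := j) hs
      have p1 := h.pos s hs
      have p2 := h.pos (s + s) (by omega)
      have p3 := h.pos (s + j) (by omega)
      rw [← two_mul] at h1 p2
      have h3 : (ch x ^ (2 * (2 * s)))⁻¹ ≤ (ch x ^ (2 * (s + j)))⁻¹ :=
        inv_anti₀ (pow_pos (ch_pos x) _) (pow_le_pow_right₀ (one_le_ch x) (by omega))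
      have h4 : Real.exp (-(2 * n)) / cs n (2 * s) ≤ 1 / cs n (s + j) := by
        rw [div_le_div_iff₀ p2 p3, one_mul]
        have h5 : Real.exp (-(2 * n)) * cs n s ≤ cs n (2 * s) := by
          calc Real.exp (-(2 * n)) * cs n s ≤ Real.exp (-(2 * n)) *
                (Real.exp (2 * n) * cs n (2 * s)) :=
                mul_le_mul_of_nonneg_left h1 (Real.exp_pos _).le
            _ = cs n (2 * s) := by
                rw [← mul_assoc, ← Real.exp_add]
                simp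
        exact (mul_le_mul_of_nonneg_left h2 (Real.exp_pos _).le).trans h5
      calc Real.exp (-(2 * n)) * ((ch x ^ (2 * (2 * s)))⁻¹ / cs n (2 * s))
          = (ch x ^ (2 * (2 * s)))⁻¹ * (Real.exp (-(2 * n)) / cs n (2 * s)) := by ring
        _ ≤ (ch x ^ (2 * (s + j)))⁻¹ * (1 / cs n (s + j)) := by
            refine mul_le_mul h3 h4 (by positivity) ?_
            exact inv_nonneg.2 (pow_nonneg (ch_pos x).le _)
        _ = _ := by ring
    · exact mul_nonneg (Real.exp_pos _).le (kap_nonneg' h (by omega) x)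
    · exact (inv_pos.2 (lam_pos h (by omega))).le
  have hsum := sum_le_sum hterm
  rw [sum_const, card_range, nsmul_eq_mul] at hsum
  have h5 : kap (2 * s) x = 4 * Real.exp (2 * n) * s *
      ((s : ℝ) * ((4 * (s : ℝ) ^ 2)⁻¹ * (Real.exp (-(2 * n)) * kap (2 * s) x))) := by
    have h6 : Real.exp (2 * n) * Real.exp (-(2 * n)) = 1 := by
      rw [← Real.exp_add]
      simp
    have h7 : (s : ℝ) * s * (4 * (s : ℝ) ^ 2)⁻¹ * 4 = 1 := by
      field_simp
    calc kap (2 * s) x = 1 * 1 * kap (2 * s) x := by ring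
      _ = ((s : ℝ) * s * (4 * (s : ℝ) ^ 2)⁻¹ * 4) *
          (Real.exp (2 * n) * Real.exp (-(2 * n))) * kap (2 * s) x := by rw [h6, h7]
      _ = _ := by ring
  calc kap (2 * s) x = _ := h5
    _ ≤ _ := mul_le_mul_of_nonneg_left hsum (by positivity)

/-- first moment -/
theorem integral_kap' {s₀ : ℕ} (h : CsOK n s₀) {s : ℕ} (hs : s₀ ≤ s + 1) :
    ∫ x : SUGroup n, kap s x ∂(mu n) = 1 := by
  unfold kap
  rw [integral_div]
  exact div_self (h.pos s hs).ne'

theorem integrable_kap' {s₀ : ℕ} (h : CsOK n s₀) {s : ℕ} (hs : s₀ ≤ s + 1) :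
    Integrable (fun x : SUGroup n => kap s x) (mu n) :=
  (h.int s hs).div_const _

theorem kap_mul_ch {s : ℕ} (x : SUGroup n) (hs : 1 ≤ s) (hp : cs n (s - 1) ≠ 0) :
    kap s x * ch x ^ 2 = cs n (s - 1) / cs n s * kap (s - 1) x := by
  obtain ⟨r, rfl⟩ : ∃ r, s = r + 1 := ⟨s - 1, by omega⟩
  rw [Nat.add_sub_cancel] at hp ⊢
  unfold kap
  have hx := (ch_pos x).ne'
  rw [show 2 * (r + 1) = 2 * r + 2 by ring, pow_add]
  field_simp

theorem moment_one {s₀ : ℕ} (h : CsOK n s₀) {s : ℕ} (hs : s₀ ≤ s) :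
    Integrable (fun x : SUGroup n => kap s x * ch x ^ 2) (mu n) ∧
    ∫ x : SUGroup n, kap s x * ch x ^ 2 ∂(mu n) = ((s : ℝ) - 1) / ((s : ℝ) - 1 - n) := by
  have hgt := h.gt
  obtain ⟨r, rfl⟩ : ∃ r, s = r + 1 := ⟨s - 1, by omega⟩
  have hp := h.pos r (by omega)
  have hp' := h.pos (r + 1) (by omega)
  have heq : (fun x : SUGroup n => kap (r + 1) x * ch x ^ 2) =
      fun x => cs n r / cs n (r + 1) * kap r x := by
    funext x
    have := kap_mul_ch (s := r + 1) x (by omega) (by simpa using hp.ne')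
    simpa using this
  rw [heq]
  refine ⟨(integrable_kap' h (by omega)).const_mul _, ?_⟩
  rw [integral_const_mul, integral_kap' h (by omega), mul_one, h.succ r (by omega)]
  have hr : (0 : ℝ) < (r : ℝ) - n := by
    have h1 : n < r := by omega
    have h2 : (n : ℝ) < r := by exact_mod_cast h1
    linarith
  have hr0 : (r : ℝ) ≠ 0 := by
    have : r ≠ 0 := by omega
    exact_mod_cast this
  push_cast
  rw [show (r : ℝ) + 1 - 1 = r by ring]
  rw [div_mul_eq_mul_div, div_div_eq_mul_div, div_eq_div_iff (by positivity) hr.ne']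
  ring

/-- at least half of the mass of `kap s` lies in the ball `ch² ≤ 1 + (4n+1)/s` -/
theorem mass_half {s₀ : ℕ} (h : CsOK n s₀) {s : ℕ} (hs : s₀ ≤ s) :
    1 / 2 ≤ ∫ x in {x : SUGroup n | ch x ^ 2 ≤ 1 + (4 * n + 1) / s}, kap s x ∂(mu n) := by
  have hgt := h.gt
  have hspos : (0 : ℝ) < s := by
    have : 0 < s := by omega
    exact_mod_cast this
  have hn0 : (0 : ℝ) ≤ n := Nat.cast_nonneg n
  have hs2 : 2 * (n : ℝ) + 2 ≤ s := by
    have : 2 * n + 2 ≤ s := by omega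
    exact_mod_cast this
  have hmeas : MeasurableSet {x : SUGroup n | ch x ^ 2 ≤ 1 + (4 * n + 1) / s} :=
    measurableSet_le (continuous_ch.pow 2).measurable measurable_const
  obtain ⟨hi, hm⟩ := moment_one h hs
  have hk := integrable_kap' h (s := s) (by omega)
  have h1 : ∫ x : SUGroup n, kap s x * (ch x ^ 2 - 1) ∂(mu n) = n / ((s : ℝ) - 1 - n) := by
    simp only [mul_sub, mul_one]
    rw [integral_sub hi hk, hm, integral_kap' h (by omega), div_sub_one (by linarith)]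
    congr 1
    ring
  have h2 : ∫ x in {x : SUGroup n | ch x ^ 2 ≤ 1 + (4 * n + 1) / s}ᶜ, kap s x ∂(mu n) ≤ 1 / 2 := by
    have h3 : ∀ x : SUGroup n, x ∈ {x : SUGroup n | ch x ^ 2 ≤ 1 + (4 * n + 1) / s}ᶜ →
        kap s x ≤ s / (4 * n + 1) * (kap s x * (ch x ^ 2 - 1)) := by
      intro x hx
      simp only [Set.mem_compl_iff, Set.mem_ofPred_eq, not_le] at hx
      have h4 : (4 * (n : ℝ) + 1) / s ≤ ch x ^ 2 - 1 := by linarith
      have h5 : 1 ≤ s / (4 * n + 1) * (ch x ^ 2 - 1) := by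
        calc (1 : ℝ) = s / (4 * n + 1) * ((4 * (n : ℝ) + 1) / s) := by
              field_simp
          _ ≤ _ := mul_le_mul_of_nonneg_left h4 (by positivity)
      calc kap s x = kap s x * 1 := (mul_one _).symm
        _ ≤ kap s x * (s / (4 * n + 1) * (ch x ^ 2 - 1)) :=
            mul_le_mul_of_nonneg_left h5 (kap_nonneg' h (by omega) x)
        _ = _ := by ring
    have hint : Integrable (fun x : SUGroup n => s / (4 * n + 1) * (kap s x * (ch x ^ 2 - 1)))
        (mu n) := by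
      refine Integrable.const_mul ?_ _
      simp only [mul_sub, mul_one]
      exact hi.sub hk
    calc ∫ x in {x : SUGroup n | ch x ^ 2 ≤ 1 + (4 * n + 1) / s}ᶜ, kap s x ∂(mu n)
        ≤ ∫ x in {x : SUGroup n | ch x ^ 2 ≤ 1 + (4 * n + 1) / s}ᶜ,
            s / (4 * n + 1) * (kap s x * (ch x ^ 2 - 1)) ∂(mu n) :=
          setIntegral_mono_on hk.integrableOn hint.integrableOn hmeas.compl h3
      _ ≤ ∫ x : SUGroup n, s / (4 * n + 1) * (kap s x * (ch x ^ 2 - 1)) ∂(mu n) := by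
          refine setIntegral_le_integral hint (Eventually.of_forall fun x => ?_)
          have h6 := kap_nonneg' h (s := s) (by omega) x
          have h7 : 0 ≤ ch x ^ 2 - 1 := by
            have := one_le_pow₀ (n := 2) (one_le_ch x)
            linarith
          show (0 : ℝ) ≤ _
          positivity
      _ = s / (4 * n + 1) * (n / ((s : ℝ) - 1 - n)) := by rw [integral_const_mul, h1]
      _ ≤ s / (4 * n + 1) * (2 * n / s) := by
          refine mul_le_mul_of_nonneg_left ?_ (by positivity)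
          rw [div_le_div_iff₀ (by linarith) hspos]
          nlinarith
      _ ≤ 1 / 2 := by
          rw [div_mul_div_comm, div_le_div_iff₀ (by positivity) (by norm_num)]
          nlinarith
  have h3 := integral_add_compl hmeas hk
  rw [integral_kap' h (by omega)] at h3
  linarith

/-- the pointwise inequality behind the second comparison -/
theorem ch_pow_le (x y : SUGroup n) (r : ℕ) :
    ch (x * y) ^ (2 * r) ≤ Real.exp (2 * r * (ch y ^ 2 - 1)) * ch x ^ (4 * r) := by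
  have hx := one_le_ch x
  have hy := one_le_ch y
  have hx0 := ch_pos x
  have hy0 := ch_pos y
  have hx2 : 0 ≤ ch x ^ 2 - 1 := by nlinarith
  have hy2 : 0 ≤ ch y ^ 2 - 1 := by nlinarith
  obtain ⟨u, hu⟩ : ∃ u, u = Real.sqrt (ch x ^ 2 - 1) := ⟨_, rfl⟩
  obtain ⟨v, hv⟩ : ∃ v, v = Real.sqrt (ch y ^ 2 - 1) := ⟨_, rfl⟩
  have hu0 : 0 ≤ u := hu ▸ Real.sqrt_nonneg _
  have hv0 : 0 ≤ v := hv ▸ Real.sqrt_nonneg _
  have hu2 : u ^ 2 = ch x ^ 2 - 1 := by rw [hu, Real.sq_sqrt hx2]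
  have hv2 : v ^ 2 = ch y ^ 2 - 1 := by rw [hv, Real.sq_sqrt hy2]
  have h1 : ch (x * y) ≤ ch x * ch y + u * v := by
    rw [hu, hv]
    exact ch_mul_le x y
  -- `τ = u / ch x`
  obtain ⟨τ, hτ⟩ : ∃ τ, τ = u / ch x := ⟨_, rfl⟩
  have hτ0 : 0 ≤ τ := by
    rw [hτ]
    positivity
  have hτ2 : τ ^ 2 = 1 - (ch x ^ 2)⁻¹ := by
    rw [hτ, div_pow, hu2]
    field_simp
  have h2 : ch y ≤ Real.exp (v ^ 2 / 2) := by
    have h3 : ch y ^ 2 ≤ Real.exp (v ^ 2 / 2) ^ 2 := by
      rw [← Real.exp_nat_mul]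
      have h4 := Real.add_one_le_exp (v ^ 2)
      have h5 : ((2 : ℕ) : ℝ) * (v ^ 2 / 2) = v ^ 2 := by
        push_cast
        ring
      rw [h5]
      linarith
    exact le_of_sq_le_sq h3 (Real.exp_pos _).le
  have h3 : ch y + v * τ ≤ Real.exp (v ^ 2 + τ ^ 2 / 2) := by
    have h4 : v * τ ≤ (v ^ 2 + τ ^ 2) / 2 := by nlinarith [sq_nonneg (v - τ)]
    have h5 : 1 ≤ Real.exp (v ^ 2 / 2) := Real.one_le_exp (by positivity)
    calc ch y + v * τ ≤ Real.exp (v ^ 2 / 2) + Real.exp (v ^ 2 / 2) * ((v ^ 2 + τ ^ 2) / 2) := by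
          refine add_le_add h2 (h4.trans ?_)
          have h6 : 0 ≤ (v ^ 2 + τ ^ 2) / 2 := by positivity
          nlinarith
      _ = Real.exp (v ^ 2 / 2) * ((v ^ 2 + τ ^ 2) / 2 + 1) := by ring
      _ ≤ Real.exp (v ^ 2 / 2) * Real.exp ((v ^ 2 + τ ^ 2) / 2) :=
          mul_le_mul_of_nonneg_left (Real.add_one_le_exp _) (Real.exp_pos _).le
      _ = Real.exp (v ^ 2 + τ ^ 2 / 2) := by
          rw [← Real.exp_add]
          congr 1
          ring
  have h4 : ch (x * y) ≤ ch x * Real.exp (v ^ 2 + τ ^ 2 / 2) := by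
    refine h1.trans (le_trans (le_of_eq ?_) (mul_le_mul_of_nonneg_left h3 hx0.le))
    rw [hτ]
    field_simp
  have h5 : Real.exp (τ ^ 2) ≤ ch x ^ 2 := by
    have h6 : (ch x ^ 2)⁻¹ ≤ Real.exp (-(τ ^ 2)) := by
      have := Real.add_one_le_exp (-(τ ^ 2))
      linarith
    rw [Real.exp_neg] at h6
    exact (inv_le_inv₀ (by positivity) (Real.exp_pos _)).1 h6
  calc ch (x * y) ^ (2 * r) ≤ (ch x * Real.exp (v ^ 2 + τ ^ 2 / 2)) ^ (2 * r) :=
        pow_le_pow_left₀ (ch_pos _).le h4 _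
    _ = ch x ^ (2 * r) * (Real.exp (2 * r * v ^ 2) * Real.exp (τ ^ 2) ^ r) := by
        rw [mul_pow, ← Real.exp_nat_mul, ← Real.exp_nat_mul, ← Real.exp_add]
        congr 2
        push_cast
        ring
    _ ≤ ch x ^ (2 * r) * (Real.exp (2 * r * v ^ 2) * (ch x ^ 2) ^ r) := by
        refine mul_le_mul_of_nonneg_left ?_ (by positivity)
        refine mul_le_mul_of_nonneg_left ?_ (Real.exp_pos _).le
        exact pow_le_pow_left₀ (Real.exp_pos _).le h5 r
    _ = _ := by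
        rw [hv2, ← pow_mul, show 4 * r = 2 * r + 2 * r by ring, pow_add]
        ring

theorem kap_ch_pow {s₀ : ℕ} (h : CsOK n s₀) {s N : ℕ} (hs : s₀ + N ≤ s + 1) (x : SUGroup n) :
    kap s x * ch x ^ (2 * N) = cs n (s - N) / cs n s * kap (s - N) x := by
  have hgt := h.gt
  obtain ⟨r, rfl⟩ : ∃ r, s = r + N := ⟨s - N, by omega⟩
  rw [Nat.add_sub_cancel]
  have hp := (h.pos r (by omega)).ne'
  unfold kap
  have hx := (ch_pos x).ne'
  rw [show 2 * (r + N) = 2 * r + 2 * N by ring, pow_add]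
  field_simp

theorem integrable_kap_ch {s₀ : ℕ} (h : CsOK n s₀) {s N : ℕ} (hs : s₀ + N ≤ s + 1) :
    Integrable (fun x : SUGroup n => kap s x * ch x ^ (2 * N)) (mu n) := by
  have hgt := h.gt
  simp only [kap_ch_pow h hs]
  exact (integrable_kap' h (by omega)).const_mul _

theorem integral_kap_ch {s₀ : ℕ} (h : CsOK n s₀) {s N : ℕ} (hs : s₀ + N ≤ s + 1) (hN : 2 * N ≤ s) :
    ∫ x : SUGroup n, kap s x * ch x ^ (2 * N) ∂(mu n) ≤ Real.exp (2 * n) := by
  have hgt := h.gt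
  simp only [kap_ch_pow h hs]
  rw [integral_const_mul, integral_kap' h (by omega), mul_one,
    div_le_iff₀ (h.pos s (by omega))]
  have h1 := cs_ratio_two h (s := s - N) (j := N) (by omega) (by omega)
  rwa [Nat.sub_add_cancel (by omega)] at h1

/-- blueprint D5, second comparison, pointwise form -/
theorem kap_le_kap {s₀ : ℕ} (h : CsOK n s₀) {s : ℕ} (hs : 2 * s₀ ≤ s) (x y : SUGroup n)
    (hy : ch y ^ 2 ≤ 1 + (4 * n + 1) / (2 * s : ℕ)) :
    kap s x ≤ Real.exp (4 * n + 1) * kap (s / 2) (x * y⁻¹) := by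
  have hgt := h.gt
  obtain ⟨r, hr⟩ : ∃ r, r = s / 2 := ⟨_, rfl⟩
  rw [← hr]
  have hs0 : (0 : ℝ) < s := by
    have : 0 < s := by omega
    exact_mod_cast this
  have hn0 : (0 : ℝ) ≤ n := Nat.cast_nonneg n
  have h1 := ch_pow_le x y⁻¹ r
  rw [ch_inv] at h1
  have h2 : cs n r ≤ Real.exp (2 * n) * cs n s := by
    have h3 := cs_ratio h (s := r) (j := s - r) (by omega)
    rw [Nat.add_sub_cancel' (by omega)] at h3
    refine h3.trans ?_
    refine mul_le_mul_of_nonneg_right ?_ (h.pos s (by omega)).le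
    rw [Real.exp_le_exp]
    have h4 : 2 * (n : ℝ) + 1 ≤ r := by
      have : 2 * n + 1 ≤ r := by omega
      exact_mod_cast this
    have h5 : ((s - r : ℕ) : ℝ) ≤ r + 1 := by
      have : s - r ≤ r + 1 := by omega
      exact_mod_cast this
    rw [div_le_iff₀ (by linarith)]
    nlinarith
  have p1 := h.pos r (by omega)
  have p2 := h.pos s (by omega)
  have h3 : Real.exp (2 * r * (ch y ^ 2 - 1)) ≤ Real.exp (2 * n + 1) := by
    rw [Real.exp_le_exp]
    have h4 : ch y ^ 2 - 1 ≤ (4 * n + 1) / (2 * s) := by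
      push_cast at hy
      linarith
    have h5 : 2 * (r : ℝ) ≤ s := by
      have : 2 * r ≤ s := by omega
      exact_mod_cast this
    have h6 : 0 ≤ ch y ^ 2 - 1 := by
      have := one_le_pow₀ (n := 2) (one_le_ch y)
      linarith
    calc 2 * (r : ℝ) * (ch y ^ 2 - 1) ≤ s * ((4 * n + 1) / (2 * s)) :=
          mul_le_mul h5 h4 h6 hs0.le
      _ = (4 * n + 1) / 2 := by
          field_simp
      _ ≤ _ := by linarith
  unfold kap
  have hc1 : 0 < ch x ^ (2 * s) := pow_pos (ch_pos x) _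
  have hc2 : 0 < ch (x * y⁻¹) ^ (2 * r) := pow_pos (ch_pos _) _
  have h5 : (ch x ^ (2 * s))⁻¹ ≤ Real.exp (2 * n + 1) * (ch (x * y⁻¹) ^ (2 * r))⁻¹ := by
    rw [inv_eq_one_div, ← div_eq_mul_inv, div_le_div_iff₀ hc1 hc2, one_mul]
    refine h1.trans ?_
    refine (mul_le_mul_of_nonneg_right h3 (pow_pos (ch_pos x) _).le).trans ?_
    refine mul_le_mul_of_nonneg_left ?_ (Real.exp_pos _).le
    exact pow_le_pow_right₀ (one_le_ch x) (by omega)
  have h6 : (cs n s)⁻¹ ≤ Real.exp (2 * n) * (cs n r)⁻¹ := by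
    rw [inv_eq_one_div, ← div_eq_mul_inv, div_le_div_iff₀ p2 p1, one_mul]
    exact h2
  rw [div_eq_mul_inv, div_eq_mul_inv]
  calc (ch x ^ (2 * s))⁻¹ * (cs n s)⁻¹
      ≤ (Real.exp (2 * n + 1) * (ch (x * y⁻¹) ^ (2 * r))⁻¹) * (Real.exp (2 * n) * (cs n r)⁻¹) :=
        mul_le_mul h5 h6 (inv_nonneg.2 p2.le) (by positivity)
    _ = (Real.exp (2 * n + 1) * Real.exp (2 * n)) * ((ch (x * y⁻¹) ^ (2 * r))⁻¹ * (cs n r)⁻¹) := by
        ring
    _ = _ := by
        rw [← Real.exp_add]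
        congr 2
        ring

/-- Averages on the group. -/
noncomputable def Q (s : ℕ) (u : SUGroup n → ℝ) (g : SUGroup n) : ℝ :=
  ∫ x : SUGroup n, kap s x * u (g * x) ∂(mu n)

/-- continuous functions with polynomial growth -/
structure Gr (N : ℕ) (C : ℝ) (u : SUGroup n → ℝ) : Prop where
  cont : Continuous u
  nonneg : ∀ g, 0 ≤ u g
  le : ∀ g, u g ≤ C * ch g ^ (2 * N)

theorem Gr.le' {N : ℕ} {C : ℝ} {u : SUGroup n → ℝ} (hu : Gr N C u) (hC : 0 ≤ C) (g x : SUGroup n) :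
    u (g * x) ≤ C * 4 ^ N * ch g ^ (2 * N) * ch x ^ (2 * N) := by
  refine (hu.le _).trans ?_
  have h1 : ch (g * x) ^ (2 * N) ≤ (2 * ch g * ch x) ^ (2 * N) :=
    pow_le_pow_left₀ (ch_pos _).le (ch_mul_le' g x) _
  calc C * ch (g * x) ^ (2 * N) ≤ C * (2 * ch g * ch x) ^ (2 * N) :=
        mul_le_mul_of_nonneg_left h1 hC
    _ = _ := by
        rw [mul_pow, mul_pow, pow_mul (2 : ℝ) 2 N]
        norm_num
        ring

theorem Gr.integrable {s₀ : ℕ} (h : CsOK n s₀) {N : ℕ} {C : ℝ} {u : SUGroup n → ℝ} (hu : Gr N C u)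
    (hC : 0 ≤ C) {s : ℕ} (hs : s₀ + N ≤ s + 1) (g : SUGroup n) :
    Integrable (fun x : SUGroup n => kap s x * u (g * x)) (mu n) := by
  refine Integrable.mono' ((integrable_kap_ch h hs).const_mul (C * 4 ^ N * ch g ^ (2 * N))) ?_ ?_
  · exact ((continuous_kap s).mul (hu.cont.comp (continuous_const_mul g))).aestronglyMeasurable
  · refine Eventually.of_forall fun x => ?_
    have h1 := kap_nonneg' h (s := s) (by omega) x
    have h2 := hu.nonneg (g * x)
    rw [Real.norm_eq_abs, abs_of_nonneg (mul_nonneg h1 h2)]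
    calc kap s x * u (g * x) ≤ kap s x * (C * 4 ^ N * ch g ^ (2 * N) * ch x ^ (2 * N)) :=
          mul_le_mul_of_nonneg_left (hu.le' hC g x) h1
      _ = _ := by ring

theorem Gr.Q_nonneg {s₀ : ℕ} (h : CsOK n s₀) {N : ℕ} {C : ℝ} {u : SUGroup n → ℝ} (hu : Gr N C u)
    {s : ℕ} (hs : s₀ ≤ s + 1) (g : SUGroup n) : 0 ≤ Q s u g :=
  integral_nonneg fun x => mul_nonneg (kap_nonneg' h hs x) (hu.nonneg _)

theorem Gr.Q_le {s₀ : ℕ} (h : CsOK n s₀) {N : ℕ} {C : ℝ} {u : SUGroup n → ℝ} (hu : Gr N C u)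
    (hC : 0 ≤ C) {s : ℕ} (hs : s₀ + N ≤ s + 1) (hN : 2 * N ≤ s) (g : SUGroup n) :
    Q s u g ≤ 4 ^ N * Real.exp (2 * n) * C * ch g ^ (2 * N) := by
  unfold Q
  have hg : 0 ≤ ch g ^ (2 * N) := pow_nonneg (ch_pos g).le _
  calc ∫ x : SUGroup n, kap s x * u (g * x) ∂(mu n)
      ≤ ∫ x : SUGroup n, (C * 4 ^ N * ch g ^ (2 * N)) * (kap s x * ch x ^ (2 * N)) ∂(mu n) := by
        refine integral_mono (hu.integrable h hC hs g) ((integrable_kap_ch h hs).const_mul _) ?_
        intro x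
        have h1 := kap_nonneg' h (s := s) (by omega) x
        calc kap s x * u (g * x) ≤ kap s x * (C * 4 ^ N * ch g ^ (2 * N) * ch x ^ (2 * N)) :=
              mul_le_mul_of_nonneg_left (hu.le' hC g x) h1
          _ = _ := by ring
    _ = (C * 4 ^ N * ch g ^ (2 * N)) * ∫ x : SUGroup n, kap s x * ch x ^ (2 * N) ∂(mu n) :=
        integral_const_mul _ _
    _ ≤ (C * 4 ^ N * ch g ^ (2 * N)) * Real.exp (2 * n) :=
        mul_le_mul_of_nonneg_left (integral_kap_ch h hs hN) (by positivity)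
    _ = _ := by ring

/-- the first comparison for averages -/
theorem Gr.Q_two_le {s₀ : ℕ} (h : CsOK n s₀) {N : ℕ} {C : ℝ} {u : SUGroup n → ℝ} (hu : Gr N C u)
    (hC : 0 ≤ C) {s : ℕ} (hs : s₀ + N ≤ s + 1) (g : SUGroup n) :
    Q (2 * s) u g ≤ 4 * Real.exp (2 * n) * s * ∑ j ∈ range s, (lam n (s + j))⁻¹ * Q (s + j) u g := by
  have hgt := h.gt
  unfold Q
  have h1 : 4 * Real.exp (2 * n) * s * ∑ j ∈ range s, (lam n (s + j))⁻¹ *
      ∫ x : SUGroup n, kap (s + j) x * u (g * x) ∂(mu n) =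
      ∫ x : SUGroup n, (4 * Real.exp (2 * n) * s * ∑ j ∈ range s, (lam n (s + j))⁻¹ *
        kap (s + j) x) * u (g * x) ∂(mu n) := by
    have h2 : ∀ x : SUGroup n, (4 * Real.exp (2 * n) * s * ∑ j ∈ range s, (lam n (s + j))⁻¹ *
        kap (s + j) x) * u (g * x) = 4 * Real.exp (2 * n) * s * ∑ j ∈ range s,
        (lam n (s + j))⁻¹ * (kap (s + j) x * u (g * x)) := by
      intro x
      rw [mul_assoc, sum_mul]
      congr 1
      refine sum_congr rfl fun j _ => ?_
      ring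
    simp only [h2]
    rw [integral_const_mul, integral_finsetSum _ fun j _ =>
      (hu.integrable h hC (s := s + j) (by omega) g).const_mul _]
    congr 1
    refine sum_congr rfl fun j _ => ?_
    rw [integral_const_mul]
  rw [h1]
  refine integral_mono (hu.integrable h hC (by omega) g) ?_ ?_
  · have h2 : ∀ x : SUGroup n, (4 * Real.exp (2 * n) * s * ∑ j ∈ range s, (lam n (s + j))⁻¹ *
        kap (s + j) x) * u (g * x) = 4 * Real.exp (2 * n) * s * ∑ j ∈ range s,
        (lam n (s + j))⁻¹ * (kap (s + j) x * u (g * x)) := by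
      intro x
      rw [mul_assoc, sum_mul]
      congr 1
      refine sum_congr rfl fun j _ => ?_
      ring
    simp only [h2]
    exact (integrable_finsetSum _ fun j _ =>
      (hu.integrable h hC (s := s + j) (by omega) g).const_mul _).const_mul _
  · intro x
    exact mul_le_mul_of_nonneg_right (kap_two_le h (by omega) x) (hu.nonneg _)

end Pool.Agent.Lib.MP_5d4057_al.HM.Boot
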