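import Pool.Agent.Lib.MP_5d4057_al.HM.Green
import Pool.Agent.Lib.MP_5d4057_al.HM.Mx
import Pool.Agent.Lib.MP_5d4057_al.HM.LavA

namespace Pool.Agent.Lib.MP_5d4057_al.HM

open Matrix MeasureTheory Filter Topology Pool.Agent.Lib.MP_5d4057_al Pool.Agent.Lib.MP_5d4057_al.Hyb

open scoped ComplexOrder MatrixOrder Matrix.Norms.L2Operator

variable {n m : ℕ} {E : Type} [NormedAddCommGroup E] [NormedSpace ℝ E] [CompleteSpace E]

open Lv

attribute [local instance] Lv.instMS Lv.instBS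

/-- Mollifiers on the group. -/
theorem exists_moll (n : ℕ) {ε : ℝ} (hε : 0 < ε) : ∃ Φ : Mat (n + 1) → ℝ, Test n Φ ∧
    ∫ a : SUGroup n, Φ a.toMatrix ∂(mu n) = 1 ∧ ∀ A, ε < ‖A - 1‖ → Φ A = 0 := by
  let f : ContDiffBump (1 : Mat (n + 1)) := ⟨ε / 2, ε, by positivity, by linarith⟩
  have hcont : Continuous fun a : SUGroup n => f a.toMatrix :=
    f.continuous.comp (continuous_toMatrix n)
  have hcs : HasCompactSupport fun a : SUGroup n => f a.toMatrix :=
    f.hasCompactSupport.comp_isClosedEmbedding (isClosedEmbedding_toMatrix n)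
  have h1 : f (1 : Mat (n + 1)) = 1 := f.one_of_mem_closedBall (by simp [f.rIn_pos.le])
  have hpos : 0 < ∫ a : SUGroup n, f a.toMatrix ∂(mu n) := by
    refine hcont.integral_pos_of_hasCompactSupport_nonneg_nonzero hcs (fun a => f.nonneg)
      (x := 1) ?_
    rw [toMatrix_one, h1]
    exact one_ne_zero
  refine ⟨fun A => f A / ∫ a : SUGroup n, f a.toMatrix ∂(mu n), ⟨?_, ?_, ?_⟩, ?_, ?_⟩
  · exact f.contDiff.div_const _
  · exact f.hasCompactSupport.mono' fun A hA => by
      refine subset_tsupport _ ?_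
      intro h
      exact hA (by simp [h])
  · exact fun A => div_nonneg f.nonneg hpos.le
  · rw [integral_div, div_self hpos.ne']
  · intro A hA
    show f A / _ = 0
    rw [f.zero_of_le_dist (by rw [dist_eq_norm]; exact hA.le), zero_div]

theorem Test.integrable {Φ : Mat (n + 1) → ℝ} (hΦ : Test n Φ) {N : ℕ} {C : ℝ} {F : Vec n → E}
    (hF : Adm N C F) {v : Vec n} (hv : v ∈ Cone n) :
    Integrable (fun b : SUGroup n => Φ ((b * (sec n v)⁻¹).toMatrix) • F (act b (base n)))
      (mu n) := by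
  have _ := hv
  obtain ⟨R, hR1, hR⟩ := exists_R hΦ
  obtain ⟨K, hK0, hK⟩ := exists_K hΦ
  have hR0 : 0 ≤ R := zero_le_one.trans hR1
  rw [core_eq (s := {v}) (σ := sec n) (T := ch (sec n v)) hR hR0
    (fun w hw => by rw [Set.mem_singleton_iff.1 hw]) (Set.mem_singleton v)]
  have hi := integrable_mb (adm_integrableOn hF (2 * R * ch (sec n v)))
  simp only [ContinuousLinearMap.lsmul_apply]
  have hm : Measurable fun b : SUGroup n => Φ (ub (2 * R * ch (sec n v)) b *
      ((sec n v)⁻¹).toMatrix) := by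
    have h1 : Continuous fun b : SUGroup n => Φ (b.toMatrix * ((sec n v)⁻¹).toMatrix) :=
      hΦ.smooth.continuous.comp ((continuous_toMatrix n).mul continuous_const)
    have e : (fun b : SUGroup n => Φ (ub (2 * R * ch (sec n v)) b * ((sec n v)⁻¹).toMatrix)) =
        fun b : SUGroup n => if ch b ≤ 2 * R * ch (sec n v) then
          Φ (b.toMatrix * ((sec n v)⁻¹).toMatrix) else Φ (1 * ((sec n v)⁻¹).toMatrix) := by
      funext b
      unfold ub
      split_ifs <;> rfl
    rw [e]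
    exact Measurable.ite (measurableSet_ball _) h1.measurable measurable_const
  refine hi.bdd_smul K hm.aestronglyMeasurable (Eventually.of_forall fun b => ?_)
  have h2 := hK 0 (by norm_num) (ub (2 * R * ch (sec n v)) b * ((sec n v)⁻¹).toMatrix)
  rwa [norm_iteratedFDeriv_zero] at h2

/-- The left average as an average (right invariance of `μ` and homogeneity of `F`). -/
theorem lav_eq {Φ : Mat (n + 1) → ℝ} {F : Vec n → E} (hF : Homog F) {v : Vec n}
    (hv : v ∈ Cone n) : lav Φ F v = ∫ a : SUGroup n, Φ a.toMatrix • F (act a v) ∂(mu n) := by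
  obtain ⟨c, hc, h⟩ := sec_spec hv
  exact int_sec hF hc h

theorem lav_homog (Φ : Mat (n + 1) → ℝ) (F : Vec n → E) : Homog (lav Φ F) := by
  intro c hc v hv
  rw [lav, lav, sec_smul hv hc]

/-- Smoothness: differentiate `Φ ((b * (sec v)⁻¹).toMatrix)`, a smooth function of `v`. -/
theorem lav_contDiffOn {Φ : Mat (n + 1) → ℝ} (hΦ : Test n Φ) {N : ℕ} {C : ℝ} {F : Vec n → E}
    (hF : Adm N C F) : ContDiffOn ℝ (⊤ : ℕ∞) (lav Φ F) (Cone n) := by
  obtain ⟨R, hR1, hR⟩ := exists_R hΦ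
  have hR0 : 0 ≤ R := zero_le_one.trans hR1
  intro v hv
  have hT : 1 ≤ ch (sec n v) + 1 := by linarith [one_le_ch (sec n v)]
  have hs := isOpen_sub (n := n) ((ch (sec n v) + 1) ^ 2)
  have hvs : v ∈ {w : Vec n | w ∈ Cone n ∧ W w < (ch (sec n v) + 1) ^ 2} := by
    refine ⟨hv, ?_⟩
    rw [W_eq hv]
    exact pow_lt_pow_left₀ (by linarith) (by linarith [one_le_ch (sec n v)]) (by norm_num)
  have h := core_contDiffOn (σ := sec n) (F := F) (T := ch (sec n v) + 1) hΦ hR hR0
    (by nlinarith) hs ((contDiffOn_sec_inv n).mono fun w hw => hw.1)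
    (fun w hw => by
      have h1 : W w < (ch (sec n v) + 1) ^ 2 := hw.2
      rw [W_eq hw.1] at h1
      exact (lt_of_pow_lt_pow_left₀ 2 (by linarith) h1).le)
    (adm_integrableOn hF _)
  exact ((h v hvs).contDiffAt (hs.mem_nhds hvs)).contDiffWithinAt

theorem lav_add {Φ : Mat (n + 1) → ℝ} (hΦ : Test n Φ) {N : ℕ} {C : ℝ} {F₁ F₂ : Vec n → E}
    (h₁ : Adm N C F₁) (h₂ : Adm N C F₂) {v : Vec n} (hv : v ∈ Cone n) :
    lav Φ (fun w => F₁ w + F₂ w) v = lav Φ F₁ v + lav Φ F₂ v := by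
  rw [lav, lav, lav, ← integral_add (hΦ.integrable h₁ hv) (hΦ.integrable h₂ hv)]
  simp only [smul_add]

theorem lav_sub {Φ : Mat (n + 1) → ℝ} (hΦ : Test n Φ) {N : ℕ} {C : ℝ} {F₁ F₂ : Vec n → E}
    (h₁ : Adm N C F₁) (h₂ : Adm N C F₂) {v : Vec n} (hv : v ∈ Cone n) :
    lav Φ (fun w => F₁ w - F₂ w) v = lav Φ F₁ v - lav Φ F₂ v := by
  rw [lav, lav, lav, ← integral_sub (hΦ.integrable h₁ hv) (hΦ.integrable h₂ hv)]
  simp only [smul_sub]

theorem lav_mono {Φ : Mat (n + 1) → ℝ} (hΦ : Test n Φ) {N : ℕ} {C : ℝ} {F₁ F₂ : Vec n → Mat m}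
    (h₁ : Adm N C F₁) (h₂ : Adm N C F₂)
    (h : ∀ g : SUGroup n, F₁ (act g (base n)) ≤ F₂ (act g (base n))) {v : Vec n}
    (hv : v ∈ Cone n) : lav Φ F₁ v ≤ lav Φ F₂ v := by
  refine integral_mono_mat (hΦ.integrable h₁ hv) (hΦ.integrable h₂ hv)
    (Eventually.of_forall fun b => ?_)
  have h3 := h b
  rw [Matrix.le_iff] at h3 ⊢
  rw [← smul_sub]
  exact h3.smul (hΦ.nonneg _)

theorem lav_posDef {Φ : Mat (n + 1) → ℝ} (hΦ : Test n Φ)
    (hΦ1 : 0 < ∫ a : SUGroup n, Φ a.toMatrix ∂(mu n)) {N : ℕ} {C : ℝ} {F : Vec n → Mat m}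
    (hF : Adm N C F) (hp : ∀ v ∈ Cone n, (F v).PosDef) {v : Vec n} (hv : v ∈ Cone n) :
    (lav Φ F v).PosDef := by
  obtain ⟨w, hw⟩ : ∃ w : SUGroup n → NNReal, w = fun b =>
      (⟨Φ ((b * (sec n v)⁻¹).toMatrix), hΦ.nonneg _⟩ : NNReal) := ⟨_, rfl⟩
  have hcont : Continuous fun b : SUGroup n => Φ ((b * (sec n v)⁻¹).toMatrix) :=
    hΦ.smooth.continuous.comp ((continuous_toMatrix n).comp (continuous_mul_const _))
  have hwm : Measurable w := by
    rw [hw]
    exact (hcont.subtype_mk _).measurable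
  have e : lav Φ F v = ∫ b, F (act b (base n)) ∂((mu n).withDensity fun b => (w b : ENNReal)) := by
    rw [integral_withDensity_eq_integral_smul hwm, lav, hw]
    rfl
  rw [e]
  refine integral_posDef ?_ (fun b => hp _ (orbit_mem b)) ?_
  · rw [integrable_withDensity_iff_integrable_smul hwm]
    have := hΦ.integrable hF hv
    rw [hw]
    exact this
  · intro h0
    have h1 : ∫ b : SUGroup n, (1 : ℝ) ∂((mu n).withDensity fun b => (w b : ENNReal)) =
        ∫ b, w b • (1 : ℝ) ∂(mu n) := integral_withDensity_eq_integral_smul hwm _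
    rw [h0, integral_zero_measure] at h1
    have h2 : ∫ b, w b • (1 : ℝ) ∂(mu n) = ∫ a : SUGroup n, Φ a.toMatrix ∂(mu n) := by
      rw [← integral_mul_right_eq_self (fun a : SUGroup n => Φ a.toMatrix) (sec n v)⁻¹, hw]
      refine integral_congr_ae (Eventually.of_forall fun b => ?_)
      show (Φ ((b * (sec n v)⁻¹).toMatrix)) * 1 = _
      rw [mul_one]
    rw [← h2, ← h1] at hΦ1
    exact lt_irrefl _ hΦ1

private theorem cont_iter {M : Vec n → Mat (n + 1)} (hM : ContDiffOn ℝ (⊤ : ℕ∞) M (Cone n)) (i : ℕ) :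
    ContinuousOn (iteratedFDeriv ℝ i M) (Cone n) := by
  have h1 := hM.continuousOn_iteratedFDerivWithin (m := i) (by exact_mod_cast le_top)
    (isOpen_cone n).uniqueDiffOn
  exact h1.congr fun v hv => (iteratedFDerivWithin_of_isOpen i (isOpen_cone n) hv).symm

/-- Local estimates by the local `L¹` norm. -/
theorem lav_bound_L1 {Φ : Mat (n + 1) → ℝ} (hΦ : Test n Φ) (T : ℝ) : ∃ (T' C' : ℝ), 0 < C' ∧
    ∀ (N : ℕ) (C : ℝ) (F : Vec n → E), Adm N C F → ∀ g : SUGroup n, ch g ≤ T →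
      ‖lav Φ F (act g (base n))‖ + ‖fderiv ℝ (lav Φ F) (act g (base n))‖ +
        ‖fderiv ℝ (fderiv ℝ (lav Φ F)) (act g (base n))‖ ≤
      C' * ∫ b in {b : SUGroup n | ch b ≤ T'}, ‖F (act b (base n))‖ ∂(mu n) := by
  obtain ⟨R, hR1, hR⟩ := exists_R hΦ
  obtain ⟨K, hK0, hK⟩ := exists_K hΦ
  have hR0 : 0 ≤ R := zero_le_one.trans hR1
  -- bounds for the derivatives of the section
  have hc : IsCompact ((fun g : SUGroup n => act g (base n)) '' {g : SUGroup n | ch g ≤ T}) :=
    (isCompact_ball T).image continuous_orbit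
  have hsub : (fun g : SUGroup n => act g (base n)) '' {g : SUGroup n | ch g ≤ T} ⊆ Cone n := by
    rintro _ ⟨g, -, rfl⟩
    exact orbit_mem g
  obtain ⟨D1, hD1⟩ := hc.exists_bound_of_continuousOn
    ((cont_iter (contDiffOn_sec_inv n) 1).mono hsub)
  obtain ⟨D2, hD2⟩ := hc.exists_bound_of_continuousOn
    ((cont_iter (contDiffOn_sec_inv n) 2).mono hsub)
  obtain ⟨D, hD⟩ : ∃ D, D = max 1 (max D1 D2) := ⟨_, rfl⟩
  have hD0 : 1 ≤ D := hD ▸ le_max_left _ _
  obtain ⟨T₁, hT₁⟩ : ∃ T₁, T₁ = |T| + 1 := ⟨_, rfl⟩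
  have hT₁1 : 1 ≤ T₁ := by rw [hT₁]; linarith [abs_nonneg T]
  have hTT : T < T₁ := by rw [hT₁]; linarith [le_abs_self T]
  obtain ⟨K₁, hK₁⟩ : ∃ K₁, K₁ = 2 * K * ((1 + 2 * (n + 1) * (2 * R * T₁)) * D) ^ 2 := ⟨_, rfl⟩
  have hK₁0 : 0 < K₁ := by rw [hK₁]; positivity
  refine ⟨2 * R * T₁, 3 * K₁, by positivity, fun N C F hF g hg => ?_⟩
  have hs := isOpen_sub (n := n) (T₁ ^ 2)
  have hvs : act g (base n) ∈ {w : Vec n | w ∈ Cone n ∧ W w < T₁ ^ 2} := by
    refine ⟨orbit_mem g, ?_⟩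
    rw [W_orbit]
    exact pow_lt_pow_left₀ (hg.trans_lt hTT) (by linarith [one_le_ch g]) (by norm_num)
  have hmem : act g (base n) ∈
      (fun g : SUGroup n => act g (base n)) '' {g : SUGroup n | ch g ≤ T} := ⟨g, hg, rfl⟩
  obtain ⟨h1, h2, h3⟩ := core_bound (σ := sec n) (F := F) (T := T₁) (h := lav Φ F) hΦ hK hR hR0
    (by nlinarith) hs ((contDiffOn_sec_inv n).mono fun w hw => hw.1)
    (fun w hw => by
      have h1 : W w < T₁ ^ 2 := hw.2
      rw [W_eq hw.1] at h1
      exact (lt_of_pow_lt_pow_left₀ 2 (by linarith) h1).le)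
    (adm_integrableOn hF _) hvs hD0
    ((hD1 _ hmem).trans (hD ▸ (le_max_left _ _).trans (le_max_right _ _)))
    ((hD2 _ hmem).trans (hD ▸ (le_max_right _ _).trans (le_max_right _ _)))
    (fun v _ => rfl) rfl
  rw [← hK₁] at h1 h2 h3
  linarith

private theorem norm_actL_le (g : SUGroup n) : ‖actL g‖ ≤ 2 * (n + 1) * ch g := by
  have h0 := one_le_ch g
  refine ContinuousLinearMap.opNorm_le_bound _ (by positivity) fun v => ?_
  rw [actL_apply, pi_norm_le_iff_of_nonneg (by positivity)]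
  intro i
  rw [act, mulVec, dotProduct]
  calc _ ≤ ∑ j, ‖g.toMatrix i j * v j‖ := norm_sum_le _ _
    _ ≤ ∑ j : Fin (n + 1), 2 * ch g * ‖v‖ := by
        refine Finset.sum_le_sum fun j _ => ?_
        rw [norm_mul]
        exact mul_le_mul (norm_entry_le g i j) (norm_le_pi_norm v j) (norm_nonneg _)
          (by positivity)
    _ = _ := by
        simp
        ring

private theorem sec_g_eq (g : SUGroup n) : (fun w => ((g * sec n (act g⁻¹ w))⁻¹).toMatrix) =
    fun w => ContinuousLinearMap.mul ℝ (Mat (n + 1)) |>.flip (g⁻¹).toMatrix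
      (((fun v => ((sec n v)⁻¹).toMatrix) ∘ actL g⁻¹) w) := by
  funext w
  show _ = ((sec n (act g⁻¹ w))⁻¹).toMatrix * (g⁻¹).toMatrix
  rw [← toMatrix_mul, _root_.mul_inv_rev]

private theorem preimage_cone (g : SUGroup n) : actL g ⁻¹' Cone n = Cone n := by
  ext v
  show act g v ∈ Cone n ↔ v ∈ Cone n
  show q (act g v) < 0 ↔ q v < 0
  rw [q_act]

private theorem sec_g_contDiffOn (g : SUGroup n) :
    ContDiffOn ℝ (⊤ : ℕ∞) (fun w => ((g * sec n (act g⁻¹ w))⁻¹).toMatrix) (Cone n) := by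
  rw [sec_g_eq]
  refine (ContinuousLinearMap.contDiff _).comp_contDiffOn ?_
  exact (contDiffOn_sec_inv n).comp (actL g⁻¹).contDiff.contDiffOn fun v hv => act_mem _ hv

private theorem sec_g_iter (g : SUGroup n) {i : ℕ} (hi : i ≤ 2) {D : ℝ}
    (hD : ‖iteratedFDeriv ℝ i (fun v => ((sec n v)⁻¹).toMatrix) (base n)‖ ≤ D) :
    ‖iteratedFDeriv ℝ i (fun w => ((g * sec n (act g⁻¹ w))⁻¹).toMatrix) (act g (base n))‖ ≤
      D * (2 * (n + 1) * ch g) ^ 3 := by
  have hU := (isOpen_cone n).uniqueDiffOn (𝕜 := ℝ)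
  have h0 := one_le_ch g
  have hD0 : 0 ≤ D := (norm_nonneg _).trans hD
  have hc1 : 1 ≤ 2 * (n + 1) * ch g := by
    have : (0 : ℝ) ≤ n := Nat.cast_nonneg n
    nlinarith
  rw [← iteratedFDerivWithin_of_isOpen i (isOpen_cone n) (orbit_mem g), sec_g_eq]
  have h1 : ContDiffOn ℝ (⊤ : ℕ∞) ((fun v => ((sec n v)⁻¹).toMatrix) ∘ actL g⁻¹) (Cone n) :=
    (contDiffOn_sec_inv n).comp (actL g⁻¹).contDiff.contDiffOn fun v hv => act_mem _ hv
  have h2 := ((ContinuousLinearMap.mul ℝ (Mat (n + 1))).flip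
    (g⁻¹).toMatrix).norm_iteratedFDerivWithin_comp_left (h1 _ (orbit_mem g)) hU (orbit_mem g)
    (n := i) (by exact_mod_cast le_top)
  refine h2.trans ?_
  have h3 : ‖(ContinuousLinearMap.mul ℝ (Mat (n + 1))).flip (g⁻¹).toMatrix‖ ≤
      2 * (n + 1) * ch g := by
    refine (ContinuousLinearMap.opNorm_le_bound _ (norm_nonneg _) fun X => ?_).trans
      ((norm_toMatrix_le g⁻¹).trans_eq (by rw [ch_inv]))
    rw [ContinuousLinearMap.flip_apply, ContinuousLinearMap.mul_apply', mul_comm]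
    exact norm_mul_le _ _
  have h4 := (actL g⁻¹).iteratedFDerivWithin_comp_right (contDiffOn_sec_inv n) hU
    (by rw [preimage_cone]; exact hU) (x := act g (base n))
    (show actL g⁻¹ (act g (base n)) ∈ Cone n by
      rw [actL_apply, ← act_mul, inv_mul_cancel, act_one]
      exact base_mem n) (i := i) (by exact_mod_cast le_top)
  rw [preimage_cone] at h4
  rw [h4, actL_apply, ← act_mul, inv_mul_cancel, act_one]
  have h5 := ContinuousMultilinearMap.norm_compContinuousLinearMap_le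
    (iteratedFDerivWithin ℝ i (fun v => ((sec n v)⁻¹).toMatrix) (Cone n) (base n))
    (fun _ : Fin i => actL g⁻¹)
  rw [Finset.prod_const, Finset.card_univ, Fintype.card_fin,
    iteratedFDerivWithin_of_isOpen i (isOpen_cone n) (base_mem n)] at h5
  have h6 : ‖actL g⁻¹‖ ^ i ≤ (2 * (n + 1) * ch g) ^ 2 := by
    have h7 := norm_actL_le g⁻¹
    rw [ch_inv] at h7
    exact (pow_le_pow_left₀ (norm_nonneg _) h7 i).trans (pow_le_pow_right₀ hc1 hi)
  calc _ ≤ (2 * (n + 1) * ch g) * (D * (2 * (n + 1) * ch g) ^ 2) := by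
        refine mul_le_mul h3 ?_ (norm_nonneg _) (by positivity)
        rw [iteratedFDerivWithin_of_isOpen i (isOpen_cone n) (base_mem n)]
        exact h5.trans (mul_le_mul hD h6 (by positivity) hD0)
    _ = _ := by ring

/-- Polynomial growth: `lav Φ F (g v) = ∫ Φ(g b (sec v)⁻¹ g⁻¹) F(g b e_n) db` (if `F` is homogeneous) and its
derivatives in `v` at `v = e_n`. The exponent does not depend on `Φ`, the constant not on `F`. -/
theorem lav_tame (n N : ℕ) : ∃ N' : ℕ, ∀ Φ : Mat (n + 1) → ℝ, Test n Φ → ∃ C' : ℝ, 0 < C' ∧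
    ∀ (C : ℝ) (F : Vec n → E), Homog F → Adm N C F → Tame N' (C' * C) (lav Φ F) := by
  obtain ⟨N₀, C₀, hvol⟩ := volume_le n
  have hC₀ : 0 ≤ C₀ := by
    have h := hvol 1 le_rfl
    rw [one_pow, mul_one] at h
    exact measureReal_nonneg.trans h
  refine ⟨4 + N + N₀, fun Φ hΦ => ?_⟩
  obtain ⟨R, hR1, hR⟩ := exists_R hΦ
  obtain ⟨K, hK0, hK⟩ := exists_K hΦ
  have hR0 : 0 ≤ R := zero_le_one.trans hR1
  obtain ⟨D, hD⟩ : ∃ D, D = max 1
    (max ‖iteratedFDeriv ℝ 1 (fun v => ((sec n v)⁻¹).toMatrix) (base n)‖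
      ‖iteratedFDeriv ℝ 2 (fun v => ((sec n v)⁻¹).toMatrix) (base n)‖) := ⟨_, rfl⟩
  have hD0 : 1 ≤ D := hD ▸ le_max_left _ _
  obtain ⟨C', hC'⟩ : ∃ C', C' = 2 * K * ((1 + 8 * (n + 1) * R) * (D * (2 * (n + 1)) ^ 3)) ^ 2 *
    ((4 * R) ^ (2 * N + N₀) * (C₀ + 1)) := ⟨_, rfl⟩
  refine ⟨C', by rw [hC']; positivity, fun C F hF hA => ?_⟩
  have hC : 0 ≤ C := by
    have h1 := (norm_nonneg _).trans (hA.bound 1)
    rwa [ch_one, one_pow, mul_one] at h1
  have key : ∀ g : SUGroup n, ‖lav Φ F (act g (base n))‖ ≤ C' * C * ch g ^ (2 * (4 + N + N₀)) ∧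
      ‖fderiv ℝ (lav Φ F) (act g (base n))‖ ≤ C' * C * ch g ^ (2 * (4 + N + N₀)) ∧
      ‖fderiv ℝ (fderiv ℝ (lav Φ F)) (act g (base n))‖ ≤
        C' * C * ch g ^ (2 * (4 + N + N₀)) := by
    intro g
    have h0 := one_le_ch g
    obtain ⟨T, hT⟩ : ∃ T, T = 2 * ch g := ⟨_, rfl⟩
    have hT0 : 0 ≤ T := by rw [hT]; linarith
    have hs := isOpen_sub (n := n) (T ^ 2)
    have hvs : act g (base n) ∈ {w : Vec n | w ∈ Cone n ∧ W w < T ^ 2} := by
      refine ⟨orbit_mem g, ?_⟩
      rw [W_orbit]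
      exact pow_lt_pow_left₀ (by rw [hT]; linarith) (by linarith) (by norm_num)
    have hsec : ∀ w ∈ Cone n, ∃ c : ℂ, c ≠ 0 ∧
        w = c • act (g * sec n (act g⁻¹ w)) (base n) := by
      intro w hw
      obtain ⟨c, hc, h⟩ := sec_spec (act_mem g⁻¹ hw)
      refine ⟨c, hc, ?_⟩
      rw [act_mul, ← act_smul, ← h, ← act_mul, mul_inv_cancel, act_one]
    have hcn : 0 < 2 * (n + 1) * ch g := by positivity
    have hDg : 1 ≤ D * (2 * (n + 1) * ch g) ^ 3 := by
      refine one_le_mul_of_one_le_of_one_le hD0 (one_le_pow₀ ?_)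
      have : (0 : ℝ) ≤ n := Nat.cast_nonneg n
      nlinarith
    obtain ⟨h1, h2, h3⟩ := core_bound (σ := fun w => g * sec n (act g⁻¹ w)) (F := F) (T := T)
      (h := lav Φ F) hΦ hK hR hR0 (by rw [hT]; nlinarith) hs
      ((sec_g_contDiffOn g).mono fun w hw => hw.1)
      (fun w hw => by
        obtain ⟨c, hc, h⟩ := hsec w hw.1
        have h1 : W w < T ^ 2 := hw.2
        rw [W_of_eq hc h] at h1
        exact (lt_of_pow_lt_pow_left₀ 2 hT0 h1).le)
      (adm_integrableOn hA _) hvs hDg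
      (sec_g_iter g (by norm_num) (hD ▸ (le_max_left _ _).trans (le_max_right _ _)))
      (sec_g_iter g le_rfl (hD ▸ (le_max_right _ _).trans (le_max_right _ _)))
      (fun w hw => by
        obtain ⟨c, hc, h⟩ := hsec w hw.1
        rw [lav_eq hF hw.1, int_sec hF hc h]) rfl
    have hI : ∫ b in {b : SUGroup n | ch b ≤ 2 * R * T}, ‖F (act b (base n))‖ ∂(mu n) ≤
        C * (2 * R * T) ^ (2 * N) * (C₀ * (2 * R * T) ^ N₀) := by
      have hT1 : 1 ≤ 2 * R * T := by rw [hT]; nlinarith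
      have h4 : ∀ᵐ b ∂((mu n).restrict {b : SUGroup n | ch b ≤ 2 * R * T}),
          ‖F (act b (base n))‖ ≤ C * (2 * R * T) ^ (2 * N) := by
        refine (ae_restrict_iff' (measurableSet_ball _)).2 (Eventually.of_forall fun b hb => ?_)
        refine (hA.bound b).trans ?_
        have h5 : ch b ≤ 2 * R * T := hb
        have h6 := one_le_ch b
        gcongr
      have h5 : ∫ b in {b : SUGroup n | ch b ≤ 2 * R * T}, ‖F (act b (base n))‖ ∂(mu n) ≤
          ∫ b in {b : SUGroup n | ch b ≤ 2 * R * T}, C * (2 * R * T) ^ (2 * N) ∂(mu n) :=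
        integral_mono_ae (adm_integrableOn hA _).norm
          (integrableOn_const (isCompact_ball _).measure_lt_top.ne) h4
      refine h5.trans ?_
      rw [setIntegral_const, smul_eq_mul, mul_comm]
      exact mul_le_mul_of_nonneg_left (hvol _ hT1) (by positivity)
    have hfin : 2 * K * ((1 + 2 * (n + 1) * (2 * R * T)) * (D * (2 * (n + 1) * ch g) ^ 3)) ^ 2 *
        ∫ b in {b : SUGroup n | ch b ≤ 2 * R * T}, ‖F (act b (base n))‖ ∂(mu n) ≤
        C' * C * ch g ^ (2 * (4 + N + N₀)) := by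
      have h7 : 1 + 2 * (n + 1) * (2 * R * T) ≤ (1 + 8 * (n + 1) * R) * ch g := by
        rw [hT]
        nlinarith
      have h8 : C₀ ≤ C₀ + 1 := by linarith
      calc _ ≤ 2 * K * (((1 + 8 * (n + 1) * R) * ch g) * (D * (2 * (n + 1) * ch g) ^ 3)) ^ 2 *
            (C * (2 * R * T) ^ (2 * N) * ((C₀ + 1) * (2 * R * T) ^ N₀)) := by
            refine mul_le_mul ?_ (hI.trans ?_) (integral_nonneg fun b => norm_nonneg _)
              (by positivity)
            · gcongr
            · gcongr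
        _ = C' * C * ch g ^ (8 + (2 * N + N₀)) := by
            have e1 : (2 * R * T) ^ (2 * N) * (2 * R * T) ^ N₀ =
                (4 * R) ^ (2 * N + N₀) * ch g ^ (2 * N + N₀) := by
              rw [← pow_add, hT, ← mul_pow]
              congr 1
              ring
            have e2 : C * (2 * R * T) ^ (2 * N) * ((C₀ + 1) * (2 * R * T) ^ N₀) =
                C * (C₀ + 1) * ((2 * R * T) ^ (2 * N) * (2 * R * T) ^ N₀) := by ring
            rw [e2, e1, hC', pow_add (ch g) 8]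
            generalize (4 * R) ^ (2 * N + N₀) = p1
            generalize ch g ^ (2 * N + N₀) = p2
            generalize 1 + 8 * ((n : ℝ) + 1) * R = p3
            rw [mul_pow (2 * ((n : ℝ) + 1)) (ch g) 3]
            generalize (2 * ((n : ℝ) + 1)) ^ 3 = p4
            ring
        _ ≤ _ := by
            refine mul_le_mul_of_nonneg_left (pow_le_pow_right₀ h0 (by omega)) ?_
            rw [hC']
            positivity
    exact ⟨h1.trans hfin, h2.trans hfin, h3.trans hfin⟩
  exact ⟨lav_homog Φ F, (lav_contDiffOn hΦ hA).of_le (WithTop.coe_le_coe.2 le_top),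
    fun g => (key g).1, fun g => (key g).2.1, fun g => (key g).2.2⟩

/-- The Laplacian commutes with left averages. -/
theorem lap_lav {Φ : Mat (n + 1) → ℝ} (hΦ : Test n Φ) {N : ℕ} {C : ℝ} {F : Vec n → E}
    (hF : Tame N C F) {v : Vec n} (hv : v ∈ Cone n) : Lap (lav Φ F) v = lav Φ (Lap F) v := by
  obtain ⟨R, hR1, hR⟩ := exists_R hΦ
  have hcd : ∀ w ∈ Cone n, ContDiffAt ℝ 2 F w := fun w hw =>
    hF.cd.contDiffAt ((isOpen_cone n).mem_nhds hw)
  have hΦm := integrable_phi hΦ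
  obtain ⟨Ω, hΩ⟩ : ∃ Ω : Set (Vec n × Mat (n + 1)), Ω = {p | p.2 *ᵥ p.1 ∈ Cone n} := ⟨_, rfl⟩
  have hΩo : IsOpen Ω := by
    rw [hΩ]
    exact (isOpen_cone n).preimage (contDiff_mulVec n).continuous
  have hψ : ContDiffOn ℝ 2 (Function.uncurry fun (w : Vec n) (X : Mat (n + 1)) => F (X *ᵥ w))
      Ω := by
    refine hF.cd.comp ((contDiff_mulVec n).of_le (WithTop.coe_le_coe.2 le_top)).contDiffOn ?_
    intro p hp
    rw [hΩ] at hp
    exact hp
  have hsub : Cone n ×ˢ kb n R ⊆ Ω := by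
    rintro ⟨w, X⟩ ⟨hw, b, -, rfl⟩
    rw [hΩ]
    exact act_mem b hw
  have heq : ∀ w ∈ Cone n, lav Φ F w = ∫ a : SUGroup n,
      (ContinuousLinearMap.lsmul ℝ ℝ : ℝ →L[ℝ] E →L[ℝ] E).flip (F (ub R a *ᵥ w))
        (Φ a.toMatrix) ∂(mu n) := by
    intro w hw
    rw [lav_eq hF.hom hw]
    refine integral_congr_ae (Eventually.of_forall fun a => ?_)
    show Φ a.toMatrix • F (act a w) = Φ a.toMatrix • F (ub R a *ᵥ w)
    by_cases ha : ch a ≤ R
    · rw [ub, if_pos ha]
      rfl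
    · rw [phi_zero hR ha, zero_smul, zero_smul]
  have heq' : lav Φ F =ᶠ[𝓝 v] fun w => ∫ a : SUGroup n,
      (ContinuousLinearMap.lsmul ℝ ℝ : ℝ →L[ℝ] E →L[ℝ] E).flip (F (ub R a *ᵥ w))
        (Φ a.toMatrix) ∂(mu n) := by
    filter_upwards [(isOpen_cone n).mem_nhds hv] with w hw
    exact heq w hw
  obtain ⟨G, hG⟩ : ∃ G : SUGroup n → Vec n → E, G = fun a p => F (ub R a *ᵥ p) := ⟨_, rfl⟩
  have hint : ∀ ξ η : Vec n, Integrable (fun a : SUGroup n => Φ a.toMatrix •
      fderiv ℝ (fderiv ℝ (G a)) v ξ η) (mu n) := by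
    intro ξ η
    have := integrable_fderiv_fderiv_param
      ((ContinuousLinearMap.lsmul ℝ ℝ : ℝ →L[ℝ] E →L[ℝ] E).flip)
      (Φ := fun (w : Vec n) (X : Mat (n + 1)) => F (X *ᵥ w))
      (isOpen_cone n) hΩo (isCompact_kb n R) hsub hψ (measurable_ub R).aemeasurable
      (ub_mem hR1) hΦm hv ξ η
    rw [hG]
    exact this
  have hder : ∀ ξ η : Vec n, fderiv ℝ (fderiv ℝ (lav Φ F)) v ξ η =
      ∫ a : SUGroup n, Φ a.toMatrix • fderiv ℝ (fderiv ℝ (G a)) v ξ η ∂(mu n) := by
    intro ξ η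
    rw [heq'.fderiv.fderiv_eq]
    have := fderiv_fderiv_param_apply
      ((ContinuousLinearMap.lsmul ℝ ℝ : ℝ →L[ℝ] E →L[ℝ] E).flip)
      (Φ := fun (w : Vec n) (X : Mat (n + 1)) => F (X *ᵥ w))
      (isOpen_cone n) hΩo (isCompact_kb n R) hsub hψ (measurable_ub R).aemeasurable
      (ub_mem hR1) hΦm hv ξ η
    rw [this, hG]
    rfl
  have hL : Lap (lav Φ F) v = ∫ a : SUGroup n, Φ a.toMatrix • Lap (G a) v ∂(mu n) := by
    have e : ∀ a : SUGroup n, Φ a.toMatrix • Lap (G a) v =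
        (- q v / 4) • ∑ i : Fin (n + 1), (J n i i).re •
          (Φ a.toMatrix • fderiv ℝ (fderiv ℝ (G a)) v (Pi.single i 1) (Pi.single i 1) +
          Φ a.toMatrix • fderiv ℝ (fderiv ℝ (G a)) v (Pi.single i Complex.I)
            (Pi.single i Complex.I)) := by
      intro a
      rw [Lap, smul_comm, Finset.smul_sum]
      congr 1
      refine Finset.sum_congr rfl fun i _ => ?_
      rw [smul_comm, smul_add]
    simp only [e]
    rw [integral_smul, integral_finsetSum]
    swap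
    · exact fun i _ => ((hint _ _).add (hint _ _)).smul _
    rw [Lap]
    congr 1
    refine Finset.sum_congr rfl fun i _ => ?_
    rw [integral_smul, integral_add (hint _ _) (hint _ _), hder, hder]
  rw [hL, lav_eq (homog_lap hF.hom hF.cd) hv]
  refine integral_congr_ae (Eventually.of_forall fun a => ?_)
  show Φ a.toMatrix • Lap (G a) v = Φ a.toMatrix • Lap F (act a v)
  by_cases ha : ch a ≤ R
  · have e : G a = fun p => F (act a p) := by
      rw [hG]
      funext p
      show F (ub R a *ᵥ p) = _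
      rw [ub, if_pos ha]
      rfl
    rw [e, lap_act F a hv (hcd _ (act_mem a hv))]
  · rw [phi_zero hR ha, zero_smul, zero_smul]

/-- Averaging operators commute with left averages. -/
theorem P_lav {Φ : Mat (n + 1) → ℝ} (hΦ : Test n Φ) (N : ℕ) : ∃ s₀ : ℕ, ∀ s, s₀ ≤ s →
    ∀ (C : ℝ) (F : Vec n → E), Homog F → Adm N C F → ∀ v ∈ Cone n,
      P s (lav Φ F) v = lav Φ (P s F) v := by
  obtain ⟨s₁, hs₁⟩ := P_integrable (E := ℝ) n N
  refine ⟨s₁, fun s hs C F hF hA v hv => ?_⟩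
  have hC : 0 ≤ C := by
    have h1 := (norm_nonneg _).trans (hA.bound 1)
    rwa [ch_one, one_pow, mul_one] at h1
  have hk0 : ∀ y : SUGroup n, 0 ≤ ker s v (act y (base n)) / cs n s := fun y =>
    div_nonneg (ker_pos s hv (orbit_mem y)).le (cs_nonneg n s)
  have hadm : Adm N 1 fun w : Vec n => W w ^ N := by
    constructor
    · simp only [W_orbit]
      exact ((continuous_ch.pow 2).pow N).aestronglyMeasurable
    · intro y
      rw [W_orbit, ← pow_mul, one_mul, Real.norm_of_nonneg (pow_nonneg (ch_pos y).le _)]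
  have hki : Integrable (fun y : SUGroup n =>
      (ker s v (act y (base n)) / cs n s) * ch y ^ (2 * N)) (mu n) := by
    have := hs₁ s hs 1 _ hadm v hv
    simp only [W_orbit, ← pow_mul, smul_eq_mul] at this
    exact this
  have hkc : Continuous fun x : SUGroup n => ker s v (act x (base n)) / cs n s := by
    obtain ⟨c, hc, h⟩ := sec_spec hv
    rw [h]
    simp only [ker_smul_left s hc, ker_orbit]
    exact (((continuous_ch.comp (continuous_const.mul continuous_id)).pow _).inv₀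
      fun x => pow_ne_zero _ (ch_pos _).ne').div_const _
  have hΦc : Continuous fun a : SUGroup n => Φ a.toMatrix :=
    hΦ.smooth.continuous.comp (continuous_toMatrix n)
  have hΦi : Integrable (fun a : SUGroup n => Φ a.toMatrix * (C * (2 * ch a) ^ (2 * N))) (mu n) := by
    have h1 : Continuous fun a : SUGroup n => Φ a.toMatrix * (C * (2 * ch a) ^ (2 * N)) :=
      hΦc.mul (continuous_const.mul ((continuous_const.mul continuous_ch).pow _))
    refine h1.integrable_of_hasCompactSupport ?_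
    exact (hΦ.supp.comp_isClosedEmbedding (isClosedEmbedding_toMatrix n)).mul_right
  have hFm : AEStronglyMeasurable (fun p : SUGroup n × SUGroup n => F (act (p.1 * p.2) (base n)))
      ((mu n).prod (mu n)) := by
    have h1 : Measure.QuasiMeasurePreserving (fun p : SUGroup n × SUGroup n => p.1 * p.2)
        ((mu n).prod (mu n)) (mu n) :=
      Measure.quasiMeasurePreserving_snd.comp
        (measurePreserving_prod_mul (mu n) (mu n)).quasiMeasurePreserving
    exact hA.meas.comp_quasiMeasurePreserving h1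
  have hint : Integrable (Function.uncurry fun (a y : SUGroup n) => Φ a.toMatrix •
      ((ker s v (act y (base n)) / cs n s) • F (act (a * y) (base n)))) ((mu n).prod (mu n)) := by
    refine (hΦi.mul_prod hki).mono' ?_ (Eventually.of_forall fun p => ?_)
    · exact (hΦc.comp continuous_fst).aestronglyMeasurable.smul
        ((hkc.comp continuous_snd).aestronglyMeasurable.smul hFm)
    · show ‖Φ p.1.toMatrix • ((ker s v (act p.2 (base n)) / cs n s) •
        F (act (p.1 * p.2) (base n)))‖ ≤ _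
      rw [norm_smul, norm_smul, Real.norm_of_nonneg (hΦ.nonneg _), Real.norm_of_nonneg (hk0 _)]
      have h1 := hA.bound (p.1 * p.2)
      have h2 : ch (p.1 * p.2) ^ (2 * N) ≤ (2 * ch p.1) ^ (2 * N) * ch p.2 ^ (2 * N) := by
        rw [← mul_pow]
        exact pow_le_pow_left₀ (ch_pos _).le (ch_mul_le' _ _) _
      calc _ ≤ Φ p.1.toMatrix * (ker s v (act p.2 (base n)) / cs n s *
            (C * ((2 * ch p.1) ^ (2 * N) * ch p.2 ^ (2 * N)))) := by
            refine mul_le_mul_of_nonneg_left ?_ (hΦ.nonneg _)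
            refine mul_le_mul_of_nonneg_left ?_ (hk0 _)
            exact h1.trans (mul_le_mul_of_nonneg_left h2 hC)
        _ = _ := by ring
  have h1 : lav Φ (P s F) v = ∫ a : SUGroup n, ∫ y : SUGroup n, Φ a.toMatrix •
      ((ker s v (act y (base n)) / cs n s) • F (act (a * y) (base n))) ∂(mu n) ∂(mu n) := by
    rw [lav_eq (P_homog s F) hv]
    refine integral_congr_ae (Eventually.of_forall fun a => ?_)
    show Φ a.toMatrix • P s F (act a v) = _
    rw [← P_act s F a hv, P, ← integral_smul]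
    simp only [act_mul]
  have h2 : P s (lav Φ F) v = ∫ y : SUGroup n, ∫ a : SUGroup n, Φ a.toMatrix •
      ((ker s v (act y (base n)) / cs n s) • F (act (a * y) (base n))) ∂(mu n) ∂(mu n) := by
    rw [P]
    refine integral_congr_ae (Eventually.of_forall fun y => ?_)
    show (ker s v (act y (base n)) / cs n s) • lav Φ F (act y (base n)) = _
    rw [lav_eq hF (orbit_mem y), ← integral_smul]
    refine integral_congr_ae (Eventually.of_forall fun a => ?_)
    show (ker s v (act y (base n)) / cs n s) • Φ a.toMatrix • F (act a (act y (base n))) =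
      Φ a.toMatrix • ((ker s v (act y (base n)) / cs n s) • F (act (a * y) (base n)))
    rw [smul_comm, act_mul]
  rw [h1, h2, integral_integral_swap hint]

/-- Convergence of left averages with their derivatives up to order two. -/
theorem lav_tendsto {Φ : Mat (n + 1) → ℝ} (hΦ : Test n Φ) {N : ℕ} {C : ℝ} {F : ℕ → Vec n → E}
    {F₀ : Vec n → E} (hF : ∀ j, Adm N C (F j)) (hF₀ : Adm N C F₀)
    (hlim : ∀ᵐ g ∂(mu n), Tendsto (fun j => F j (act g (base n))) atTop
      (𝓝 (F₀ (act g (base n))))) (T ε : ℝ) (hε : 0 < ε) : ∃ j₀ : ℕ, ∀ j, j₀ ≤ j →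
      ∀ g : SUGroup n, ch g ≤ T →
        ‖lav Φ (F j) (act g (base n)) - lav Φ F₀ (act g (base n))‖ ≤ ε ∧
        ‖fderiv ℝ (lav Φ (F j)) (act g (base n)) - fderiv ℝ (lav Φ F₀) (act g (base n))‖ ≤ ε ∧
        ‖fderiv ℝ (fderiv ℝ (lav Φ (F j))) (act g (base n)) -
          fderiv ℝ (fderiv ℝ (lav Φ F₀)) (act g (base n))‖ ≤ ε := by
  obtain ⟨T', C', hC', hb⟩ := lav_bound_L1 (E := E) hΦ T
  have hC : 0 ≤ C := by
    have h1 := (norm_nonneg _).trans (hF₀.bound 1)
    rwa [ch_one, one_pow, mul_one] at h1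
  have hdiff : ∀ j, Adm N (2 * C) fun w => F j w - F₀ w := by
    intro j
    refine ⟨(hF j).meas.sub hF₀.meas, fun y => ?_⟩
    have h1 := (hF j).bound y
    have h2 := hF₀.bound y
    have h3 := norm_sub_le (F j (act y (base n))) (F₀ (act y (base n)))
    linarith
  have hlim' : Tendsto (fun j => ∫ b in {b : SUGroup n | ch b ≤ T'},
      ‖F j (act b (base n)) - F₀ (act b (base n))‖ ∂(mu n)) atTop (𝓝 0) := by
    have h0 : (0 : ℝ) = ∫ b in {b : SUGroup n | ch b ≤ T'}, (0 : ℝ) ∂(mu n) := by simp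
    rw [h0]
    refine tendsto_integral_of_dominated_convergence (fun _ => 2 * C * T' ^ (2 * N))
      (fun j => ((hdiff j).meas.norm.restrict)) (integrableOn_const
        (isCompact_ball T').measure_lt_top.ne) (fun j => ?_) ?_
    · refine (ae_restrict_iff' (measurableSet_ball _)).2 (Eventually.of_forall fun b hb => ?_)
      rw [norm_norm]
      refine ((hdiff j).bound b).trans ?_
      have h5 : ch b ≤ T' := hb
      have h6 := one_le_ch b
      gcongr
    · refine (ae_restrict_of_ae hlim).mono fun b hb => ?_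
      have h1 := (hb.sub_const (F₀ (act b (base n)))).norm
      rwa [sub_self, norm_zero] at h1
  obtain ⟨j₀, hj₀⟩ := eventually_atTop.1 (hlim'.eventually (gt_mem_nhds (show 0 < ε / C' by
    positivity)))
  refine ⟨j₀, fun j hj g hg => ?_⟩
  have hsum := hb N (2 * C) _ (hdiff j) g hg
  have hI := hj₀ j hj
  have heq : (lav Φ fun w => F j w - F₀ w) =ᶠ[𝓝 (act g (base n))]
      fun w => lav Φ (F j) w - lav Φ F₀ w := by
    filter_upwards [(isOpen_cone n).mem_nhds (orbit_mem g)] with w hw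
    exact lav_sub hΦ (hF j) hF₀ hw
  have hd1 : ∀ w ∈ Cone n, ContDiffAt ℝ 2 (lav Φ (F j)) w := fun w hw =>
    ((lav_contDiffOn hΦ (hF j)).of_le (WithTop.coe_le_coe.2 le_top)).contDiffAt
      ((isOpen_cone n).mem_nhds hw)
  have hd0 : ∀ w ∈ Cone n, ContDiffAt ℝ 2 (lav Φ F₀) w := fun w hw =>
    ((lav_contDiffOn hΦ hF₀).of_le (WithTop.coe_le_coe.2 le_top)).contDiffAt
      ((isOpen_cone n).mem_nhds hw)
  have heq1 : fderiv ℝ (lav Φ fun w => F j w - F₀ w) =ᶠ[𝓝 (act g (base n))]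
      fun w => fderiv ℝ (lav Φ (F j)) w - fderiv ℝ (lav Φ F₀) w := by
    refine heq.fderiv.trans ?_
    filter_upwards [(isOpen_cone n).mem_nhds (orbit_mem g)] with w hw
    exact fderiv_fun_sub ((hd1 w hw).differentiableAt (by norm_num))
      ((hd0 w hw).differentiableAt (by norm_num))
  have heq2 : fderiv ℝ (fderiv ℝ (lav Φ fun w => F j w - F₀ w)) (act g (base n)) =
      fderiv ℝ (fderiv ℝ (lav Φ (F j))) (act g (base n)) -
        fderiv ℝ (fderiv ℝ (lav Φ F₀)) (act g (base n)) := by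
    rw [heq1.fderiv_eq]
    exact fderiv_fun_sub
      (((hd1 _ (orbit_mem g)).fderiv_right (m := 1) (by norm_num)).differentiableAt (by norm_num))
      (((hd0 _ (orbit_mem g)).fderiv_right (m := 1) (by norm_num)).differentiableAt (by norm_num))
  rw [heq.eq_of_nhds, heq1.eq_of_nhds, heq2] at hsum
  have hle : C' * ∫ b in {b : SUGroup n | ch b ≤ T'},
      ‖F j (act b (base n)) - F₀ (act b (base n))‖ ∂(mu n) ≤ ε := by
    have := mul_le_mul_of_nonneg_left hI.le hC'.le
    rwa [mul_div_cancel₀ _ hC'.ne'] at this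
  have hsum' := hsum.trans hle
  have n1 := norm_nonneg (lav Φ (F j) (act g (base n)) - lav Φ F₀ (act g (base n)))
  have n2 := norm_nonneg (fderiv ℝ (lav Φ (F j)) (act g (base n)) -
    fderiv ℝ (lav Φ F₀) (act g (base n)))
  have n3 := norm_nonneg (fderiv ℝ (fderiv ℝ (lav Φ (F j))) (act g (base n)) -
    fderiv ℝ (fderiv ℝ (lav Φ F₀)) (act g (base n)))
  exact ⟨by linarith, by linarith, by linarith⟩

/-- Approximation of a continuous function. -/
theorem lav_approx {F : Vec n → E} (hF : Homog F) (hc : ContinuousOn F (Cone n)) (T : ℝ) {ε : ℝ}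
    (hε : 0 < ε) : ∃ δ > 0, ∀ Φ : Mat (n + 1) → ℝ, Test n Φ →
      ∫ a : SUGroup n, Φ a.toMatrix ∂(mu n) = 1 → (∀ A, δ < ‖A - 1‖ → Φ A = 0) →
      ∀ g : SUGroup n, ch g ≤ T → ‖lav Φ F (act g (base n)) - F (act g (base n))‖ ≤ ε := by
  have hcont := continuous_orbit_of hc
  have hF2 : Continuous fun p : SUGroup n × SUGroup n =>
      ‖F (act (p.1 * p.2) (base n)) - F (act p.2 (base n))‖ :=
    ((hcont.comp (continuous_fst.mul continuous_snd)).sub (hcont.comp continuous_snd)).norm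
  have hev : ∀ᶠ a : SUGroup n in 𝓝 1, ∀ g ∈ {g : SUGroup n | ch g ≤ T},
      ‖F (act (a * g) (base n)) - F (act g (base n))‖ < ε := by
    refine (isCompact_ball T).eventually_forall_of_forall_eventually fun g _ => ?_
    refine hF2.continuousAt.eventually (gt_mem_nhds ?_)
    simp only [one_mul, sub_self, norm_zero]
    exact hε
  rw [(isClosedEmbedding_toMatrix n).isInducing.nhds_eq_comap, Filter.eventually_comap,
    toMatrix_one, Metric.eventually_nhds_iff] at hev
  obtain ⟨δ, hδ, h⟩ := hev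
  refine ⟨δ / 2, by positivity, fun Φ hΦ h1 hsupp g hg => ?_⟩
  have hi := integrable_phi hΦ
  have hΦc : Continuous fun a : SUGroup n => Φ a.toMatrix :=
    hΦ.smooth.continuous.comp (continuous_toMatrix n)
  have hi2 : Integrable (fun a : SUGroup n => Φ a.toMatrix • F (act (a * g) (base n))) (mu n) := by
    have h2 : Continuous fun a : SUGroup n => Φ a.toMatrix • F (act (a * g) (base n)) :=
      hΦc.smul (hcont.comp (continuous_mul_const g))
    exact h2.integrable_of_hasCompactSupport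
      (hΦ.supp.comp_isClosedEmbedding (isClosedEmbedding_toMatrix n)).smul_right
  have e1 : lav Φ F (act g (base n)) - F (act g (base n)) =
      ∫ a : SUGroup n, Φ a.toMatrix • (F (act (a * g) (base n)) - F (act g (base n))) ∂(mu n) := by
    simp only [smul_sub]
    rw [lav_eq hF (orbit_mem g), integral_sub hi2 (hi.smul_const _), integral_smul_const, h1,
      one_smul]
    simp only [act_mul]
  have e2 : ε = ∫ a : SUGroup n, Φ a.toMatrix * ε ∂(mu n) := by
    rw [integral_mul_const, h1, one_mul]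
  rw [e1, e2]
  refine norm_integral_le_of_norm_le (hi.mul_const ε) (Eventually.of_forall fun a => ?_)
  rw [norm_smul, Real.norm_of_nonneg (hΦ.nonneg _)]
  by_cases ha : Φ a.toMatrix = 0
  · rw [ha, zero_mul, zero_mul]
  · refine mul_le_mul_of_nonneg_left ?_ (hΦ.nonneg _)
    have h3 : ‖a.toMatrix - 1‖ ≤ δ / 2 := by
      by_contra h4
      exact ha (hsupp _ (not_le.1 h4))
    exact (h (y := a.toMatrix) (by rw [dist_eq_norm]; linarith) a rfl g hg).le

/-- Joint convexity for left averages. -/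
theorem lav_joint {Φ : Mat (n + 1) → ℝ} (hΦ : Test n Φ)
    (hΦ1 : 0 < ∫ a : SUGroup n, Φ a.toMatrix ∂(mu n)) {N : ℕ} {C : ℝ} {X Y : Vec n → Mat m}
    (hX : Adm N C X) (hY : Adm N C Y) (hY' : Adm N C fun v => (Y v)⁻¹)
    (hXs : ∀ v ∈ Cone n, (X v).IsHermitian) (hp : ∀ v ∈ Cone n, (Y v).PosDef) {v : Vec n}
    (hv : v ∈ Cone n) :
    lav Φ X v * (lav Φ Y v)⁻¹ * lav Φ X v ≤ lav Φ (fun w => X w * (Y w)⁻¹ * X w) v := by
  have hC : 0 ≤ C := by
    have h1 := (norm_nonneg _).trans (hX.bound 1)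
    rwa [ch_one, one_pow, mul_one] at h1
  have hXY : Adm (N + N + N) (C * C * C) fun w => X w * (Y w)⁻¹ * X w := by
    refine ⟨(hX.meas.mul hY'.meas).mul hX.meas, fun y => ?_⟩
    have h0 := one_le_ch y
    calc ‖X (act y (base n)) * (Y (act y (base n)))⁻¹ * X (act y (base n))‖ ≤
          ‖X (act y (base n))‖ * ‖(Y (act y (base n)))⁻¹‖ * ‖X (act y (base n))‖ :=
          (norm_mul_le _ _).trans (mul_le_mul_of_nonneg_right (norm_mul_le _ _) (norm_nonneg _))
      _ ≤ (C * ch y ^ (2 * N)) * (C * ch y ^ (2 * N)) * (C * ch y ^ (2 * N)) := by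
          have h1 := hX.bound y
          have h2 := hY'.bound y
          gcongr
      _ = _ := by ring
  have hXh : (lav Φ X v)ᴴ = lav Φ X v := by
    have h1 := (starL' ℝ : Mat m ≃L[ℝ] Mat m).integral_comp_comm (μ := mu n)
      fun b : SUGroup n => Φ ((b * (sec n v)⁻¹).toMatrix) • X (act b (base n))
    refine (show (lav Φ X v)ᴴ = _ from h1.symm).trans ?_
    refine integral_congr_ae (Eventually.of_forall fun b => ?_)
    show star (Φ ((b * (sec n v)⁻¹).toMatrix) • X (act b (base n))) =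
      Φ ((b * (sec n v)⁻¹).toMatrix) • X (act b (base n))
    rw [star_smul, star_trivial, star_eq_conjTranspose, (hXs _ (orbit_mem b)).eq]
  have h := integral_joint (ν := mu n) (X := fun b : SUGroup n => X (act b (base n)))
    (Y := fun b : SUGroup n => Y (act b (base n)))
    (w := fun b : SUGroup n => Φ ((b * (sec n v)⁻¹).toMatrix)) (fun b => hΦ.nonneg _)
    (fun b => hp _ (orbit_mem b)) (hΦ.integrable hX hv) (hΦ.integrable hY hv)
    (by
      have h1 := hΦ.integrable hXY hv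
      refine h1.congr (Eventually.of_forall fun b => ?_)
      show _ = Φ _ • ((X (act b (base n)))ᴴ * (Y (act b (base n)))⁻¹ * X (act b (base n)))
      rw [(hXs _ (orbit_mem b)).eq])
    (lav_posDef hΦ hΦ1 hY hp hv)
  have e : ∀ b : SUGroup n, (X (act b (base n)))ᴴ = X (act b (base n)) := fun b =>
    (hXs _ (orbit_mem b)).eq
  simp only [e] at h
  have h' : (lav Φ X v)ᴴ * (lav Φ Y v)⁻¹ * lav Φ X v ≤
      lav Φ (fun w => X w * (Y w)⁻¹ * X w) v := h
  rwa [hXh] at h'

end Pool.Agent.Lib.MP_5d4057_al.HM
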