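import Pool.Agent.Lib.MP_5d4057_al.HM.CutB
import Pool.Agent.Lib.MP_5d4057_al.HM.AA
import Pool.Agent.Lib.MP_5d4057_al.HM.Bar
import Pool.Agent.Lib.MP_5d4057_al.HM.Mx

namespace Pool.Agent.Lib.MP_5d4057_al.HM

open Matrix MeasureTheory Filter Topology Pool.Agent.Lib.MP_5d4057_al Pool.Agent.Lib.MP_5d4057_al.Hyb

open scoped ComplexOrder MatrixOrder Matrix.Norms.L2Operator

variable {n m : ℕ}

variable {Γ : Subgroup (SUGroup n)}

/-- Harnack property with exponent `a` (blueprint C2). -/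
def Harn (a : ℕ) (H : Vec n → Mat m) : Prop :=
  ∀ g x : SUGroup n, H (act (g * x) (base n)) ≤ (wt x ^ a : ℂ) • H (act g (base n))

private theorem rho_mul_inv (ρ : Γ →* Mat m) (γ : Γ) : ρ γ * ρ γ⁻¹ = 1 := by
  rw [← map_mul, mul_inv_cancel, map_one]

private theorem rho_inv_mul (ρ : Γ →* Mat m) (γ : Γ) : ρ γ⁻¹ * ρ γ = 1 := by
  rw [← map_mul, inv_mul_cancel, map_one]

private theorem dual_eq (ρ : Γ →* Mat m) (γ : Γ) : dual ρ γ = (ρ γ⁻¹)ᴴ := rfl

private theorem inv_conj {A X Y : Mat m} (h : X * Y = 1) : (X * A * Xᴴ)⁻¹ = Yᴴ * A⁻¹ * Y := by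
  rw [Matrix.mul_inv_rev, Matrix.mul_inv_rev, Matrix.inv_eq_right_inv h,
    ← Matrix.conjTranspose_nonsing_inv, Matrix.inv_eq_right_inv h, Matrix.mul_assoc]

private theorem continuousAt_inv {A : Mat m} (hA : A.PosDef) :
    ContinuousAt (fun B : Mat m => B⁻¹) A := by
  have h : IsUnit A := hA.isUnit
  have e : (fun B : Mat m => B⁻¹) = Ring.inverse := by
    funext B
    exact Matrix.nonsing_inv_eq_ringInverse B
  rw [e]
  exact NormedRing.inverse_continuousAt h.unit

private theorem coe_smul_mat (c : ℝ) (A : Mat m) : (c : ℂ) • A = c • A := by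
  ext i j
  simp

/-- Growth of a continuous equivariant metric and its inverse, and of all others which are
bounded by `M` on a fixed compact set. The representation `dual ρ` for the inverse. -/
theorem met_inv {ρ : Γ →* Mat m} {H : Vec n → Mat m} (hH : Met ρ H) :
    Met (dual ρ) (fun v => (H v)⁻¹) where
  hom := fun c hc v hv => by
    beta_reduce
    rw [hH.hom c hc v hv]
  cont := fun v hv => (continuousAt_inv (hH.pos v hv)).comp_continuousWithinAt (hH.cont v hv)
  pos := fun v hv => (hH.pos v hv).inv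
  equi := fun γ v hv => by
    beta_reduce
    rw [hH.equi γ v hv, inv_conj (rho_mul_inv ρ γ), dual_eq, conjTranspose_conjTranspose]

private theorem exists_bound {ρ : Γ →* Mat m} {H : Vec n → Mat m} (hH : Met ρ H)
    {F : Set (SUGroup n)} (hF : IsCompact F) :
    ∃ M : ℝ, ∀ g ∈ F, (H (act g (base n))).trace.re ≤ M ∧
      ((H (act g (base n)))⁻¹).trace.re ≤ M := by
  have h1 : Continuous fun g : SUGroup n => (H (act g (base n))).trace.re :=
    Complex.continuous_re.comp (continuous_orbit_of hH.cont).matrix_trace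
  have h2 : Continuous fun g : SUGroup n => ((H (act g (base n)))⁻¹).trace.re :=
    Complex.continuous_re.comp (continuous_orbit_of (met_inv hH).cont).matrix_trace
  obtain ⟨M1, hM1⟩ := hF.exists_bound_of_continuousOn h1.continuousOn
  obtain ⟨M2, hM2⟩ := hF.exists_bound_of_continuousOn h2.continuousOn
  exact ⟨max M1 M2, fun g hg => ⟨((le_abs_self _).trans (hM1 g hg)).trans (le_max_left _ _),
    ((le_abs_self _).trans (hM2 g hg)).trans (le_max_right _ _)⟩⟩

theorem met_growth (hn : 1 ≤ n) (hΓ : Coc Γ) (ρ : Γ →* Mat m) :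
    ∃ (F : Set (SUGroup n)) (N : ℕ) (C : ℝ), IsCompact F ∧ (∀ g, ∃ γ ∈ Γ, γ * g ∈ F) ∧ 0 < C ∧
      ∀ (H : Vec n → Mat m) (M : ℝ), Met ρ H → (∀ g ∈ F, (H (act g (base n))).trace.re ≤ M ∧
        ((H (act g (base n)))⁻¹).trace.re ≤ M) →
        Adm N (C * M) H ∧ Adm N (C * M) (fun v => (H v)⁻¹) := by
  obtain ⟨F1, N1, C1, hF1, hcov1, hC1, h1⟩ := equi_growth hn hΓ ρ
  obtain ⟨F2, N2, C2, hF2, hcov2, hC2, h2⟩ := equi_growth hn hΓ (dual ρ)
  refine ⟨F1 ∪ F2, max N1 N2, max C1 C2, hF1.union hF2, fun g => ?_, lt_max_of_lt_left hC1,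
    fun H M hH hM => ?_⟩
  · obtain ⟨γ, hγ, h⟩ := hcov1 g
    exact ⟨γ, hγ, Or.inl h⟩
  · have hM0 : 0 ≤ M := by
      obtain ⟨γ, hγ, h⟩ := hcov1 1
      refine le_trans ?_ (hM _ (Or.inl h)).1
      have h3 := (hH.pos _ (orbit_mem (γ * 1))).posSemidef.trace_nonneg
      exact (Complex.le_def.1 h3).1
    have key : ∀ (N' : ℕ) (C' : ℝ) (g : SUGroup n), N' ≤ max N1 N2 → C' ≤ max C1 C2 → 0 < C' →
        C' * M * ch g ^ (2 * N') ≤ max C1 C2 * M * ch g ^ (2 * max N1 N2) := by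
      intro N' C' g hN hC hC0
      have h3 := one_le_ch g
      refine mul_le_mul (mul_le_mul_of_nonneg_right hC hM0)
        (pow_le_pow_right₀ h3 (by omega)) (by positivity) ?_
      exact mul_nonneg (hC0.le.trans hC) hM0
    constructor
    · refine ⟨(continuous_orbit_of hH.cont).aestronglyMeasurable, fun g => ?_⟩
      refine (norm_le_trace (hH.pos _ (orbit_mem g)).posSemidef).trans ?_
      refine (h1 H M hH.equi (fun v hv => (hH.pos v hv).posSemidef)
        (fun g hg => (hM g (Or.inl hg)).1) g).trans ?_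
      exact key N1 C1 g (le_max_left _ _) (le_max_left _ _) hC1
    · have hH' := met_inv hH
      refine ⟨(continuous_orbit_of hH'.cont).aestronglyMeasurable, fun g => ?_⟩
      refine (norm_le_trace (hH'.pos _ (orbit_mem g)).posSemidef).trans ?_
      refine (h2 _ M hH'.equi (fun v hv => (hH'.pos v hv).posSemidef)
        (fun g hg => (hM g (Or.inr hg)).2) g).trans ?_
      exact key N2 C2 g (le_max_right _ _) (le_max_right _ _) hC2

private theorem W_smul {c : ℂ} (hc : c ≠ 0) (v : Vec n) : W (c • v) = W v := by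
  have h : 0 < ‖c‖ ^ 2 := by positivity
  unfold W
  rw [q_smul, Pi.smul_apply, smul_eq_mul, norm_mul, mul_pow, ← mul_neg,
    mul_div_mul_left _ _ h.ne']

private theorem continuousOn_sec : ContinuousOn (sec n) (Cone n) := by
  rw [(isClosedEmbedding_toMatrix n).isInducing.continuousOn_iff]
  exact (contDiffOn_sec n).continuousOn

private theorem posDef_mul_conj {X Y : Mat m} (h : X * Y = 1) {c : ℝ} (hc : 0 < c) :
    (c • (X * Xᴴ)).PosDef := by
  have hX : IsUnit X := ⟨⟨X, Y, h, mul_eq_one_comm.1 h⟩, rfl⟩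
  have h1 : (X * 1 * Xᴴ).PosDef :=
    PosDef.one.mul_mul_conjTranspose_same (Matrix.vecMul_injective_of_isUnit hX)
  rw [Matrix.mul_one] at h1
  rw [← coe_smul_mat]
  exact h1.smul (by exact_mod_cast hc)

private theorem posSemidef_mul_conj (X : Mat m) {c : ℝ} (hc : 0 ≤ c) :
    (c • (X * Xᴴ)).PosSemidef := by
  rw [← coe_smul_mat]
  exact (posSemidef_self_mul_conjTranspose X).smul (by exact_mod_cast hc)

/-- An equivariant metric exists: `∑_γ φ(γ v) ρ(γ)⁻¹ ρ(γ)⁻ᴴ` with `φ(v) = max 0 (T - W v)`; a locally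
finite sum. -/
theorem exists_met (hΓ : Coc Γ) (ρ : Γ →* Mat m) : ∃ H : Vec n → Mat m, Met ρ H := by
  classical
  obtain ⟨F, hF, hcov⟩ := hΓ.cpt
  obtain ⟨R, hR⟩ := hF.exists_bound_of_continuousOn (continuous_ch (n := n)).continuousOn
  obtain ⟨T, hT⟩ : ∃ T : ℝ, T = R ^ 2 + 1 := ⟨_, rfl⟩
  obtain ⟨φ, hφ⟩ : ∃ φ : Vec n → ℝ, φ = fun v => max 0 (T - W v) := ⟨_, rfl⟩
  obtain ⟨B, hB⟩ : ∃ B : Γ → Mat m, B = fun γ => ρ γ⁻¹ * (ρ γ⁻¹)ᴴ := ⟨_, rfl⟩
  have hφ0 : ∀ v, 0 ≤ φ v := fun v => by rw [hφ]; exact le_max_left _ _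
  have hφs : ∀ (c : ℂ) (v : Vec n), c ≠ 0 → φ (c • v) = φ v := fun c v hc => by
    rw [hφ]
    simp only [W_smul hc]
  have hφg : ∀ g : SUGroup n, φ (act g (base n)) = max 0 (T - ch g ^ 2) := fun g => by
    rw [hφ]
    simp only [W_orbit]
  have hψc : ∀ γ : SUGroup n, Continuous fun g : SUGroup n => φ (act (γ * g) (base n)) := by
    intro γ
    simp only [hφg]
    exact continuous_const.max
      (continuous_const.sub ((continuous_ch.comp (continuous_const_mul γ)).pow 2))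
  have hloc : ∀ g0 : SUGroup n, ∃ S : Finset Γ, ∀ᶠ g in 𝓝 g0, ∀ γ : Γ, γ ∉ S →
      φ (act ((γ : SUGroup n) * g) (base n)) = 0 := by
    intro g0
    obtain ⟨K, hK, hKn⟩ := exists_compact_mem_nhds g0
    refine ⟨(finite_meet hΓ hK (isCompact_ball T)).toFinset, ?_⟩
    filter_upwards [hKn] with g hg γ hγ
    by_contra h
    refine hγ ?_
    rw [Set.Finite.mem_toFinset]
    refine ⟨g, hg, ?_⟩
    rw [hφg] at h
    have h1 : 0 < T - ch ((γ : SUGroup n) * g) ^ 2 := by
      by_contra h2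
      exact h (max_eq_left (not_lt.1 h2))
    have h2 := one_le_ch ((γ : SUGroup n) * g)
    show ch ((γ : SUGroup n) * g) ≤ T
    nlinarith
  have hsec : ∀ v ∈ Cone n, ∀ γ : SUGroup n,
      φ (act γ v) = φ (act (γ * sec n v) (base n)) := by
    intro v hv γ
    obtain ⟨c, hc, hv'⟩ := sec_spec hv
    conv_lhs => rw [hv']
    rw [act_smul, hφs _ _ hc, act_mul]
  have hfin : ∀ v ∈ Cone n, ∃ S : Finset Γ, ∀ γ : Γ, γ ∉ S →
      φ (act (γ : SUGroup n) v) • B γ = 0 := by
    intro v hv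
    obtain ⟨S, hS⟩ := hloc (sec n v)
    refine ⟨S, fun γ hγ => ?_⟩
    rw [hsec v hv, hS.self_of_nhds γ hγ, zero_smul]
  have hsum : ∀ v ∈ Cone n, Summable fun γ : Γ => φ (act (γ : SUGroup n) v) • B γ := by
    intro v hv
    obtain ⟨S, hS⟩ := hfin v hv
    exact summable_of_ne_finset_zero (s := S) hS
  refine ⟨fun v => ∑' γ : Γ, φ (act (γ : SUGroup n) v) • B γ, ?_, ?_, ?_, ?_⟩
  · intro c hc v _
    refine tsum_congr fun γ => ?_
    rw [act_smul, hφs _ _ hc]
  · have h1 : Continuous fun g : SUGroup n =>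
        ∑' γ : Γ, φ (act ((γ : SUGroup n) * g) (base n)) • B γ := by
      rw [continuous_iff_continuousAt]
      intro g0
      obtain ⟨S, hS⟩ := hloc g0
      have h1 : ContinuousAt (fun g : SUGroup n =>
          ∑ γ ∈ S, φ (act ((γ : SUGroup n) * g) (base n)) • B γ) g0 := by
        refine Continuous.continuousAt ?_
        exact continuous_finsetSum S fun γ _ => (hψc γ).smul continuous_const
      refine h1.congr ?_
      filter_upwards [hS] with g hg
      exact (tsum_eq_sum fun γ hγ => by rw [hg γ hγ, zero_smul]).symm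
    refine (h1.comp_continuousOn continuousOn_sec).congr fun v hv => ?_
    exact tsum_congr fun γ => by rw [hsec v hv]
  · intro v hv
    obtain ⟨S, hS⟩ := hfin v hv
    obtain ⟨γ0, hγ0, h0⟩ := hcov (sec n v)
    have hpos : 0 < φ (act γ0 v) := by
      rw [hsec v hv, hφg]
      refine lt_max_of_lt_right ?_
      have h1 := hR _ h0
      rw [Real.norm_eq_abs] at h1
      have h2 := abs_le.1 h1
      have h3 := one_le_ch (γ0 * sec n v)
      rw [hT]
      nlinarith
    have h1 : ∑' γ : Γ, φ (act (γ : SUGroup n) v) • B γ =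
        φ (act γ0 v) • B ⟨γ0, hγ0⟩ +
          ∑ γ ∈ (insert ⟨γ0, hγ0⟩ S).erase ⟨γ0, hγ0⟩, φ (act (γ : SUGroup n) v) • B γ := by
      rw [tsum_eq_sum (s := insert ⟨γ0, hγ0⟩ S) fun γ hγ =>
        hS γ fun h => hγ (Finset.mem_insert_of_mem h)]
      exact (Finset.add_sum_erase _ (fun γ : Γ => φ (act (γ : SUGroup n) v) • B γ)
        (Finset.mem_insert_self _ _)).symm
    show (∑' γ : Γ, φ (act (γ : SUGroup n) v) • B γ).PosDef
    rw [h1]
    refine PosDef.add_posSemidef ?_ ?_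
    · rw [hB]
      exact posDef_mul_conj (rho_inv_mul ρ _) hpos
    · refine posSemidef_sum _ fun γ _ => ?_
      rw [hB]
      exact posSemidef_mul_conj _ (hφ0 _)
  · intro γ0 v hv
    have hBe : ∀ δ : Γ, B (δ * γ0⁻¹) = ρ γ0 * B δ * (ρ γ0)ᴴ := by
      intro δ
      rw [hB]
      beta_reduce
      rw [_root_.mul_inv_rev, inv_inv, map_mul, conjTranspose_mul]
      simp only [Matrix.mul_assoc]
    show ∑' γ : Γ, φ (act (γ : SUGroup n) (act (γ0 : SUGroup n) v)) • B γ =
      ρ γ0 * (∑' γ : Γ, φ (act (γ : SUGroup n) v) • B γ) * (ρ γ0)ᴴ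
    rw [← (hsum v hv).tsum_mul_left, ← ((hsum v hv).mul_left (ρ γ0)).tsum_mul_right,
      ← (Equiv.mulRight γ0⁻¹).tsum_eq
        (fun γ : Γ => φ (act (γ : SUGroup n) (act (γ0 : SUGroup n) v)) • B γ)]
    refine tsum_congr fun δ => ?_
    rw [Equiv.coe_mulRight, hBe, ← act_mul, ← Subgroup.coe_mul, inv_mul_cancel_right,
      Matrix.mul_smul, Matrix.smul_mul]

private theorem met_adm (hn : 1 ≤ n) (hΓ : Coc Γ) (ρ : Γ →* Mat m) : ∃ N : ℕ,
    ∀ H : Vec n → Mat m, Met ρ H → ∃ C : ℝ, Adm N C H ∧ Adm N C (fun v => (H v)⁻¹) := by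
  obtain ⟨F, N, C, hF, -, -, h⟩ := met_growth hn hΓ ρ
  refine ⟨N, fun H hH => ?_⟩
  obtain ⟨M, hM⟩ := exists_bound hH hF
  exact ⟨C * M, h H M hH hM⟩

private theorem P_congr {E : Type} [NormedAddCommGroup E] [NormedSpace ℝ E] (s : ℕ)
    {f f' : Vec n → E} (h : ∀ y : SUGroup n, f (act y (base n)) = f' (act y (base n)))
    (v : Vec n) : P s f v = P s f' v := by
  unfold P
  simp only [h]

/-- The map `A ↦ X A X^*`. -/
private noncomputable def conjL (X : Mat m) : Mat m →L[ℝ] Mat m :=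
  LinearMap.toContinuousLinearMap
    { toFun := fun A => X * A * Xᴴ
      map_add' := fun A B => by rw [Matrix.mul_add, Matrix.add_mul]
      map_smul' := fun c A => by rw [Matrix.mul_smul, Matrix.smul_mul, RingHom.id_apply] }

private theorem conjL_apply (X A : Mat m) : conjL X A = X * A * Xᴴ := rfl

private theorem P_met (n m N : ℕ) : ∃ s₀ : ℕ, ∀ s, s₀ ≤ s → ∀ (Γ : Subgroup (SUGroup n))
    (ρ : Γ →* Mat m) (H : Vec n → Mat m) (C : ℝ), Met ρ H → Adm N C H →
      Met ρ (P s H) ∧ Harn (2 * s) (P s H) := by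
  obtain ⟨s1, h1⟩ := P_contDiffOn (E := Mat m) n N
  obtain ⟨s2, h2⟩ := P_posDef n m N
  obtain ⟨s3, h3⟩ := P_clm (E := Mat m) (E' := Mat m) n N
  obtain ⟨s4, h4⟩ := P_harnack n m N
  refine ⟨s1 + s2 + s3 + s4, fun s hs Γ ρ H C hH hC => ⟨⟨P_homog s H, ?_, ?_, ?_⟩, ?_⟩⟩
  · exact (h1 s (by omega) C H hC).continuousOn
  · exact h2 s (by omega) C H hC fun g => hH.pos _ (orbit_mem g)
  · intro γ v hv
    rw [← P_act s H (γ : SUGroup n) hv, ← conjL_apply, ← h3 s (by omega) C H (conjL (ρ γ)) hC v hv]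
    exact P_congr s (fun y => hH.equi γ _ (orbit_mem y)) v
  · exact h4 s (by omega) C H hC fun g => (hH.pos _ (orbit_mem g)).posSemidef

/-- Averages of equivariant metrics. -/
theorem met_P (hn : 1 ≤ n) (hΓ : Coc Γ) (ρ : Γ →* Mat m) : ∃ s₀ : ℕ, ∀ s, s₀ ≤ s →
    ∀ H : Vec n → Mat m, Met ρ H → Met ρ (P s H) ∧ Harn (2 * s) (P s H) ∧
      Met (dual ρ) (P s fun v => (H v)⁻¹) ∧ Harn (2 * s) (P s fun v => (H v)⁻¹) := by
  obtain ⟨N, hN⟩ := met_adm hn hΓ ρ
  obtain ⟨s0, h0⟩ := P_met n m N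
  refine ⟨s0, fun s hs H hH => ?_⟩
  obtain ⟨C, hC1, hC2⟩ := hN H hH
  obtain ⟨h1, h2⟩ := h0 s hs Γ ρ H C hH hC1
  obtain ⟨h3, h4⟩ := h0 s hs Γ (dual ρ) _ C (met_inv hH) hC2
  exact ⟨h1, h2, h3, h4⟩

/-- The averaged metric (blueprint C2). -/
noncomputable def bar (s : ℕ) (H : Vec n → Mat m) (v : Vec n) : Mat m :=
  open Classical in
  if h : (P s (fun w => (H w)⁻¹) v).PosDef ∧ (P s H v).PosDef then (exists_bar h.1 h.2).choose else 1

private theorem bar_spec {s : ℕ} {H : Vec n → Mat m} {v : Vec n}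
    (h1 : (P s (fun w => (H w)⁻¹) v).PosDef) (h2 : (P s H v).PosDef) :
    (bar s H v).PosDef ∧ bar s H v * P s (fun w => (H w)⁻¹) v * bar s H v = P s H v := by
  have h : (P s (fun w => (H w)⁻¹) v).PosDef ∧ (P s H v).PosDef := ⟨h1, h2⟩
  unfold bar
  rw [dif_pos h]
  exact (exists_bar h.1 h.2).choose_spec

private theorem P_smul_mat (s : ℕ) (c : ℝ) (H : Vec n → Mat m) (v : Vec n) :
    P s (fun w => (c : ℂ) • H w) v = (c : ℂ) • P s H v := by
  rw [coe_smul_mat, ← P_smul]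
  exact P_congr s (fun y => coe_smul_mat c _) v

private theorem inv_smul_mat {c : ℝ} (hc : c ≠ 0) (A : Mat m) :
    ((c : ℂ) • A)⁻¹ = ((c⁻¹ : ℝ) : ℂ) • A⁻¹ := by
  have hc' : (c : ℂ) ≠ 0 := by exact_mod_cast hc
  by_cases hA : IsUnit A.det
  · refine Matrix.inv_eq_right_inv ?_
    rw [Matrix.smul_mul, Matrix.mul_smul, smul_smul, Matrix.mul_nonsing_inv A hA,
      Complex.ofReal_inv, mul_inv_cancel₀ hc', one_smul]
  · rw [Matrix.nonsing_inv_apply_not_isUnit A hA, smul_zero,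
      Matrix.nonsing_inv_apply_not_isUnit]
    rw [Matrix.det_smul]
    intro h
    exact hA (isUnit_of_mul_isUnit_right h)

/-- The defining properties of `bar s H`. Continuity: `bar_tendsto`; Harnack: `bar_harnack`;
`bar s H ≤ P s H`: `bar_le` and `inv_integral_le`; equivariance and homogeneity: `bar_unique`. -/
theorem bar_props (hn : 1 ≤ n) (hΓ : Coc Γ) (ρ : Γ →* Mat m) : ∃ s₀ : ℕ, ∀ s, s₀ ≤ s →
    ∀ H : Vec n → Mat m, Met ρ H → Met ρ (bar s H) ∧ Harn (2 * s) (bar s H) ∧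
      (∀ v ∈ Cone n, bar s H v * P s (fun w => (H w)⁻¹) v * bar s H v = P s H v) ∧
      (∀ v ∈ Cone n, bar s H v ≤ P s H v) ∧
      (∀ v ∈ Cone n, (bar s H v)⁻¹ ≤ P s (fun w => (H w)⁻¹) v) ∧
      ∀ c : ℝ, 0 < c → ∀ v ∈ Cone n, bar s (fun w => (c : ℂ) • H w) v = (c : ℂ) • bar s H v := by
  obtain ⟨s1, h1⟩ := met_P hn hΓ ρ
  obtain ⟨N, hN⟩ := met_adm hn hΓ ρ
  obtain ⟨s2, h2⟩ := kap_integrable (E := Mat m) n N
  refine ⟨s1 + s2 + (n + 1), fun s hs H hH => ?_⟩
  obtain ⟨mB, harnB, mA, harnA⟩ := h1 s (by omega) H hH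
  obtain ⟨C, hC1, hC2⟩ := hN H hH
  have spec : ∀ v ∈ Cone n, (bar s H v).PosDef ∧
      bar s H v * P s (fun w => (H w)⁻¹) v * bar s H v = P s H v := fun v hv =>
    bar_spec (mA.pos v hv) (mB.pos v hv)
  have hom : Homog (bar s H) := by
    intro c hc v hv
    have hcv := smul_mem_cone hc hv
    refine bar_unique (mA.pos v hv) (spec _ hcv).1 (spec v hv).1 ?_
    have h3 := (spec _ hcv).2
    rw [mA.hom c hc v hv, mB.hom c hc v hv] at h3
    rw [h3, (spec v hv).2]
  have hs1 : n < s := by omega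
  have orb : ∀ g : SUGroup n, (P s (fun w => (H w)⁻¹) (act g (base n)))⁻¹ ≤
      P s H (act g (base n)) ∧ (P s H (act g (base n)))⁻¹ ≤
      P s (fun w => (H w)⁻¹) (act g (base n)) := by
    intro g
    have hi : ∀ x : SUGroup n, ((H (act (g * x) (base n)))⁻¹)⁻¹ = H (act (g * x) (base n)) :=
      fun x => Matrix.nonsing_inv_nonsing_inv _
        ((Matrix.isUnit_iff_isUnit_det _).1 (hH.pos _ (orbit_mem _)).isUnit)
    rw [P_orbit, P_orbit]
    constructor
    · have h3 := inv_integral_le (ν := mu n) (A := fun x => (H (act (g * x) (base n)))⁻¹)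
        (w := kap s) (fun x => kap_nonneg s x) (integral_kap hs1)
        (fun x => (hH.pos _ (orbit_mem _)).inv) (h2 s (by omega) C _ hC2 g) ?_
      · simp only [hi] at h3
        exact h3
      · simp only [hi]
        exact h2 s (by omega) C _ hC1 g
    · exact inv_integral_le (ν := mu n) (A := fun x => H (act (g * x) (base n)))
        (w := kap s) (fun x => kap_nonneg s x) (integral_kap hs1)
        (fun x => hH.pos _ (orbit_mem _)) (h2 s (by omega) C _ hC1 g) (h2 s (by omega) C _ hC2 g)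
  have cone : ∀ v ∈ Cone n, (P s (fun w => (H w)⁻¹) v)⁻¹ ≤ P s H v ∧
      (P s H v)⁻¹ ≤ P s (fun w => (H w)⁻¹) v := by
    intro v hv
    obtain ⟨g, c, hc, rfl⟩ := exists_act_eq hv
    rw [mA.hom c hc _ (orbit_mem g), mB.hom c hc _ (orbit_mem g)]
    exact orb g
  refine ⟨⟨hom, ?_, fun v hv => (spec v hv).1, ?_⟩, ?_, fun v hv => (spec v hv).2, ?_, ?_, ?_⟩
  · rw [continuousOn_iff_continuous_domRestrict, continuous_iff_continuousAt]
    rintro ⟨v, hv⟩
    have hA := (continuousOn_iff_continuous_domRestrict.1 mA.cont).continuousAt (x := ⟨v, hv⟩)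
    have hB := (continuousOn_iff_continuous_domRestrict.1 mB.cont).continuousAt (x := ⟨v, hv⟩)
    exact bar_tendsto (fun i : Cone n => mA.pos _ i.2) (fun i => (spec _ i.2).1)
      (fun i => (spec _ i.2).2) (mA.pos v hv) (mB.pos v hv) (spec v hv).1 (spec v hv).2 hA hB
  · intro γ v hv
    have hγv := act_mem (γ : SUGroup n) hv
    have hu : IsUnit (ρ γ) := ⟨⟨ρ γ, ρ γ⁻¹, rho_mul_inv ρ γ, rho_inv_mul ρ γ⟩, rfl⟩
    refine bar_unique (mA.pos _ hγv) (spec _ hγv).1 ((spec v hv).1.mul_mul_conjTranspose_same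
      (Matrix.vecMul_injective_of_isUnit hu)) ?_
    rw [(spec _ hγv).2, mA.equi γ v hv, mB.equi γ v hv, dual_eq, conjTranspose_conjTranspose]
    have e1 : (ρ γ)ᴴ * (ρ γ⁻¹)ᴴ = 1 := by
      rw [← conjTranspose_mul, rho_inv_mul, conjTranspose_one]
    calc ρ γ * P s H v * (ρ γ)ᴴ
        = ρ γ * (bar s H v * P s (fun w => (H w)⁻¹) v * bar s H v) * (ρ γ)ᴴ := by
          rw [(spec v hv).2]
      _ = ρ γ * bar s H v * ((ρ γ)ᴴ * (ρ γ⁻¹)ᴴ) * P s (fun w => (H w)⁻¹) v *
          (ρ γ⁻¹ * ρ γ) * bar s H v * (ρ γ)ᴴ := by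
          rw [e1, rho_inv_mul, Matrix.mul_one, Matrix.mul_one]
          simp only [Matrix.mul_assoc]
      _ = _ := by simp only [Matrix.mul_assoc]
  · intro g x
    have hw : 0 < wt x ^ (2 * s) := pow_pos (lt_of_lt_of_le one_pos (one_le_wt x)) _
    have e : ((wt x : ℂ) ^ (2 * s)) = ((wt x ^ (2 * s) : ℝ) : ℂ) := by push_cast; rfl
    rw [e, coe_smul_mat]
    refine bar_harnack hw (mA.pos _ (orbit_mem _)) (mA.pos _ (orbit_mem _))
      (mB.pos _ (orbit_mem _)) (spec _ (orbit_mem _)).1 (spec _ (orbit_mem _)).1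
      (spec _ (orbit_mem _)).2 (spec _ (orbit_mem _)).2 ?_ ?_
    · have h3 := harnA (g * x) x⁻¹
      rw [mul_inv_cancel_right, wt_inv, e, coe_smul_mat] at h3
      exact h3
    · have h3 := harnB g x
      rw [e, coe_smul_mat] at h3
      exact h3
  · intro v hv
    exact bar_le (mA.pos v hv) (mB.pos v hv) (spec v hv).1 (spec v hv).2 (cone v hv).2
  · intro v hv
    have hu := (spec v hv).1
    have hdet : IsUnit (bar s H v).det := (Matrix.isUnit_iff_isUnit_det _).1 hu.isUnit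
    refine bar_le (mB.pos v hv) (mA.pos v hv) hu.inv ?_ (cone v hv).1
    rw [← (spec v hv).2]
    simp only [Matrix.mul_assoc]
    rw [Matrix.mul_nonsing_inv _ hdet, Matrix.mul_one, ← Matrix.mul_assoc,
      Matrix.nonsing_inv_mul _ hdet, Matrix.one_mul]
  · intro c hc v hv
    have hc' : (c : ℂ) ≠ 0 := by exact_mod_cast hc.ne'
    have hcp : (0 : ℂ) < (c : ℂ) := by exact_mod_cast hc
    have eB : P s (fun w => (c : ℂ) • H w) v = (c : ℂ) • P s H v := P_smul_mat s c H v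
    have eA : P s (fun w => ((c : ℂ) • H w)⁻¹) v =
        ((c⁻¹ : ℝ) : ℂ) • P s (fun w => (H w)⁻¹) v := by
      rw [← P_smul_mat]
      exact P_congr s (fun y => inv_smul_mat hc.ne' _) v
    have pB : (P s (fun w => (c : ℂ) • H w) v).PosDef := by
      rw [eB]
      exact (mB.pos v hv).smul hcp
    have pA : (P s (fun w => ((c : ℂ) • H w)⁻¹) v).PosDef := by
      rw [eA]
      exact (mA.pos v hv).smul (by exact_mod_cast inv_pos.2 hc)
    obtain ⟨h3, h4⟩ := bar_spec pA pB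
    refine bar_unique pA h3 ((spec v hv).1.smul hcp) ?_
    rw [h4, eB, eA, ← (spec v hv).2]
    simp only [Matrix.smul_mul, Matrix.mul_smul, smul_smul]
    rw [Complex.ofReal_inv, inv_mul_cancel₀ hc', mul_one]

/-- The functional (blueprint C3). -/
noncomputable def JJ (χ : SUGroup n → ℝ) (s : ℕ) (H L : Vec n → Mat m) : ℝ :=
  II χ fun g => (((L (act g (base n)))⁻¹ * P s H (act g (base n))).trace +
    (P s (fun w => (H w)⁻¹) (act g (base n)) * L (act g (base n))).trace).re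

/-- The map `A ↦ Re tr (X A)`. -/
private noncomputable def trL (X : Mat m) : Mat m →L[ℝ] ℝ :=
  LinearMap.toContinuousLinearMap
    { toFun := fun A => (X * A).trace.re
      map_add' := fun A B => by rw [Matrix.mul_add, trace_add, Complex.add_re]
      map_smul' := fun c A => by
        rw [Matrix.mul_smul, trace_smul, Complex.real_smul, Complex.re_ofReal_mul,
          RingHom.id_apply, smul_eq_mul] }

private theorem trL_apply (X A : Mat m) : trL X A = (X * A).trace.re := rfl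

private theorem trL_comm (X A : Mat m) : trL X A = trL A X := by
  rw [trL_apply, trL_apply, trace_mul_comm]

private theorem abs_trL_le (X A : Mat m) : |trL X A| ≤ m * (‖X‖ * ‖A‖) := by
  have h1 : |(X * A).trace.re| ≤ m * ‖X * A‖ := by
    rw [abs_le]
    have h2 := trace_le_norm (X * A)
    have h3 := trace_le_norm (-(X * A))
    rw [norm_neg, trace_neg, Complex.neg_re] at h3
    exact ⟨by linarith, h2⟩
  rw [trL_apply]
  exact h1.trans (mul_le_mul_of_nonneg_left (norm_mul_le _ _) (Nat.cast_nonneg m))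

private theorem trL_conj {X Y : Mat m} (h : X * Y = 1) (A B : Mat m) :
    trL (Yᴴ * A * Y) (X * B * Xᴴ) = trL A B := by
  have h1 : Y * X = 1 := mul_eq_one_comm.1 h
  have h2 : Xᴴ * Yᴴ = 1 := by rw [← conjTranspose_mul, h1, conjTranspose_one]
  rw [trL_apply, trL_apply]
  have e : Yᴴ * A * Y * (X * B * Xᴴ) = Yᴴ * (A * (Y * X) * B * Xᴴ) := by
    simp only [Matrix.mul_assoc]
  rw [e, h1, Matrix.mul_one, trace_mul_comm]
  simp only [Matrix.mul_assoc]
  rw [h2, Matrix.mul_one]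

private theorem JJ_eq (χ : SUGroup n → ℝ) (s : ℕ) (H L : Vec n → Mat m) :
    JJ χ s H L = II χ fun g => trL ((L (act g (base n)))⁻¹) (P s H (act g (base n))) +
      trL (L (act g (base n))) (P s (fun w => (H w)⁻¹) (act g (base n))) := by
  unfold JJ
  congr 1
  funext g
  rw [Complex.add_re, trL_comm (L (act g (base n))), trL_apply, trL_apply]

private theorem continuous_trL {X : Type*} [TopologicalSpace X] {A B : X → Mat m}
    (hA : Continuous A) (hB : Continuous B) : Continuous fun x => trL (A x) (B x) := by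
  simp only [trL_apply]
  exact Complex.continuous_re.comp (hA.matrix_mul hB).matrix_trace

private theorem psi_inv {ρ : Γ →* Mat m} {A B : Vec n → Mat m} (hA : Met (dual ρ) A)
    (hB : Met ρ B) {γ : SUGroup n} (hγ : γ ∈ Γ) (g h : SUGroup n) :
    trL (A (act (γ * g) (base n))) (B (act (γ * h) (base n))) =
      trL (A (act g (base n))) (B (act h (base n))) := by
  have h1 := hA.equi ⟨γ, hγ⟩ _ (orbit_mem g)
  have h2 := hB.equi ⟨γ, hγ⟩ _ (orbit_mem h)
  rw [act_mul, act_mul, h1, h2, dual_eq, conjTranspose_conjTranspose]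
  exact trL_conj (rho_mul_inv ρ _) _ _

private theorem adm_bound {N : ℕ} {C R : ℝ} {A : Vec n → Mat m} (hA : Adm N C A)
    {g x : SUGroup n} (hg : ch g ≤ R) :
    ‖A (act (g * x) (base n))‖ ≤ (|C| * (2 * R) ^ (2 * N)) * ch x ^ (2 * N) := by
  have h0 := one_le_ch g
  have h1 := one_le_ch x
  have h2 := one_le_ch (g * x)
  calc _ ≤ C * ch (g * x) ^ (2 * N) := hA.bound _
    _ ≤ |C| * (2 * R * ch x) ^ (2 * N) := by
        refine mul_le_mul (le_abs_self C) (pow_le_pow_left₀ (by linarith) ?_ _) (by positivity)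
          (abs_nonneg C)
        refine (ch_mul_le' g x).trans ?_
        exact mul_le_mul_of_nonneg_right (mul_le_mul_of_nonneg_left hg (by norm_num))
          (by linarith)
    _ = _ := by rw [mul_pow]; ring

theorem JJ_symm (hn : 1 ≤ n) (hΓ : Coc Γ) {χ : SUGroup n → ℝ} (hχ : Cut Γ χ) (ρ : Γ →* Mat m) :
    ∃ s₀ : ℕ, ∀ s, s₀ ≤ s → ∀ H L : Vec n → Mat m, Met ρ H → Met ρ L →
      JJ χ s H L = JJ χ s L H := by
  obtain ⟨N, hN⟩ := met_adm hn hΓ ρ
  obtain ⟨s1, h1⟩ := kap_integrable (E := Mat m) n N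
  obtain ⟨s2, h2⟩ := II_swap hΓ hχ N
  refine ⟨s1 + s2, fun s hs H L hH hL => ?_⟩
  have key : ∀ A B : Vec n → Mat m, Met ρ A → Met ρ B → JJ χ s A B =
      II χ fun g => ∫ x, kap s x * (trL ((B (act g (base n)))⁻¹) (A (act (g * x) (base n))) +
        trL (B (act g (base n))) ((A (act (g * x) (base n)))⁻¹)) ∂(mu n) := by
    intro A B hA hB
    obtain ⟨C, hC1, hC2⟩ := hN A hA
    rw [JJ_eq]
    congr 1
    funext g
    have i1 := h1 s (by omega) C _ hC1 g
    have i2 := h1 s (by omega) C _ hC2 g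
    have e1 := (trL ((B (act g (base n)))⁻¹)).integral_comp_comm i1
    have e2 := (trL (B (act g (base n)))).integral_comp_comm i2
    rw [P_orbit, P_orbit, ← e1, ← e2, ← integral_add
      ((trL ((B (act g (base n)))⁻¹)).integrable_comp i1)
      ((trL (B (act g (base n)))).integrable_comp i2)]
    refine integral_congr_ae (Eventually.of_forall fun x => ?_)
    beta_reduce
    rw [map_smul, map_smul, smul_eq_mul, smul_eq_mul, mul_add]
  rw [key H L hH hL, key L H hL hH]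
  obtain ⟨CH, hH1, hH2⟩ := hN H hH
  obtain ⟨CL, hL1, hL2⟩ := hN L hL
  have iH := met_inv hH
  have iL := met_inv hL
  obtain ⟨F, hF, hcov⟩ := hΓ.cpt
  obtain ⟨R, hR⟩ := hF.exists_bound_of_continuousOn (continuous_ch (n := n)).continuousOn
  have hsw := h2 s (by omega)
    (2 * (m * ((|CL| * (2 * R) ^ (2 * N)) * (|CH| * (2 * R) ^ (2 * N)))))
    (fun g h => trL ((L (act g (base n)))⁻¹) (H (act h (base n))) +
        trL (L (act g (base n))) ((H (act h (base n)))⁻¹)) ?_ ?_ ?_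
  · rw [hsw]
    congr 1
    funext g
    refine integral_congr_ae (Eventually.of_forall fun x => ?_)
    beta_reduce
    rw [trL_comm ((L (act (g * x) (base n)))⁻¹), trL_comm (L (act (g * x) (base n))), add_comm]
  · exact (continuous_trL ((continuous_orbit_of iL.cont).comp continuous_fst)
      ((continuous_orbit_of hH.cont).comp continuous_snd)).add
      (continuous_trL ((continuous_orbit_of hL.cont).comp continuous_fst)
      ((continuous_orbit_of iH.cont).comp continuous_snd))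
  · intro γ hγ g h
    have e1 := psi_inv iL hH hγ g h
    have e2 := psi_inv iH hL hγ h g
    beta_reduce at e1 e2 ⊢
    rw [e1, trL_comm (L (act (γ * g) (base n))), e2, trL_comm (L (act g (base n)))]
  · intro g x
    obtain ⟨γ, hγ, hgF⟩ := hcov g
    have hg : ch (γ * g) ≤ R := (le_abs_self _).trans (hR _ hgF)
    have e1 := psi_inv iL hH hγ g (g * x)
    have e2 := psi_inv iH hL hγ (g * x) g
    beta_reduce at e1 e2 ⊢
    rw [← e1, trL_comm (L (act g (base n))), ← e2, ← mul_assoc]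
    have b1 := adm_bound hH1 (x := x) hg
    have b2 := adm_bound hH2 (x := x) hg
    have b3 := adm_bound hL1 (x := 1) hg
    have b4 := adm_bound hL2 (x := 1) hg
    rw [mul_one, ch_one, one_pow, mul_one] at b3 b4
    beta_reduce at b2 b4
    have c1 := abs_trL_le ((L (act (γ * g) (base n)))⁻¹) (H (act (γ * g * x) (base n)))
    have c2 := abs_trL_le ((H (act (γ * g * x) (base n)))⁻¹) (L (act (γ * g) (base n)))
    have d1 : ‖(L (act (γ * g) (base n)))⁻¹‖ * ‖H (act (γ * g * x) (base n))‖ ≤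
        (|CL| * (2 * R) ^ (2 * N)) * ((|CH| * (2 * R) ^ (2 * N)) * ch x ^ (2 * N)) :=
      mul_le_mul b4 b1 (norm_nonneg _) ((norm_nonneg _).trans b4)
    have d2 : ‖(H (act (γ * g * x) (base n)))⁻¹‖ * ‖L (act (γ * g) (base n))‖ ≤
        ((|CH| * (2 * R) ^ (2 * N)) * ch x ^ (2 * N)) * (|CL| * (2 * R) ^ (2 * N)) :=
      mul_le_mul b2 b3 (norm_nonneg _) ((norm_nonneg _).trans b2)
    have f1 := mul_le_mul_of_nonneg_left d1 (Nat.cast_nonneg (α := ℝ) m)
    have f2 := mul_le_mul_of_nonneg_left d2 (Nat.cast_nonneg (α := ℝ) m)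
    refine (abs_add_le _ _).trans ?_
    calc _ ≤ _ := add_le_add (c1.trans f1) (c2.trans f2)
      _ = _ := by ring

private theorem fun_props {ρ : Γ →* Mat m} {A B L : Vec n → Mat m} (hA : Met (dual ρ) A)
    (hB : Met ρ B) (hL : Met ρ L) :
    (Continuous fun g : SUGroup n => trL ((L (act g (base n)))⁻¹) (B (act g (base n))) +
      trL (L (act g (base n))) (A (act g (base n)))) ∧
    ∀ γ ∈ Γ, ∀ g : SUGroup n,
      trL ((L (act (γ * g) (base n)))⁻¹) (B (act (γ * g) (base n))) +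
        trL (L (act (γ * g) (base n))) (A (act (γ * g) (base n))) =
      trL ((L (act g (base n)))⁻¹) (B (act g (base n))) +
        trL (L (act g (base n))) (A (act g (base n))) := by
  have iL := met_inv hL
  constructor
  · exact (continuous_trL (continuous_orbit_of iL.cont) (continuous_orbit_of hB.cont)).add
      (continuous_trL (continuous_orbit_of hL.cont) (continuous_orbit_of hA.cont))
  · intro γ hγ g
    have e1 := psi_inv iL hB hγ g g
    have e2 := psi_inv hA hL hγ g g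
    beta_reduce at e1
    rw [e1, trL_comm (L (act (γ * g) (base n))), e2, trL_comm (L (act g (base n)))]

private theorem lev_II_sub {χ : SUGroup n → ℝ} (hχ : Cut Γ χ) {f₁ f₂ : SUGroup n → ℝ}
    (hm₁ : AEStronglyMeasurable f₁ (mu n)) (hb₁ : ∃ C : ℝ, ∀ g, ‖f₁ g‖ ≤ C)
    (hm₂ : AEStronglyMeasurable f₂ (mu n)) (hb₂ : ∃ C : ℝ, ∀ g, ‖f₂ g‖ ≤ C) :
    II χ (fun g => f₁ g - f₂ g) = II χ f₁ - II χ f₂ := by
  unfold II
  rw [← integral_sub (hχ.integrable_smul hm₁ hb₁) (hχ.integrable_smul hm₂ hb₂)]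
  simp only [smul_sub]

theorem JJ_min (hn : 1 ≤ n) (hΓ : Coc Γ) {χ : SUGroup n → ℝ} (hχ : Cut Γ χ) (ρ : Γ →* Mat m) :
    ∃ s₀ : ℕ, ∀ s, s₀ ≤ s → ∀ H L : Vec n → Mat m, Met ρ H → Met ρ L →
      JJ χ s H (bar s H) ≤ JJ χ s H L ∧
      (JJ χ s H L ≤ JJ χ s H (bar s H) → ∀ v ∈ Cone n, L v = bar s H v) := by
  obtain ⟨s1, h1⟩ := met_P hn hΓ ρ
  obtain ⟨s2, h2⟩ := bar_props hn hΓ ρ
  refine ⟨s1 + s2, fun s hs H L hH hL => ?_⟩
  obtain ⟨mB, -, mA, -⟩ := h1 s (by omega) H hH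
  obtain ⟨mu', -, hu, -⟩ := h2 s (by omega) H hH
  obtain ⟨c1, i1⟩ := fun_props mA mB mu'
  obtain ⟨c2, i2⟩ := fun_props mA mB hL
  have b1 := bounded_of_invariant hΓ c1 i1
  have b2 := bounded_of_invariant hΓ c2 i2
  have hmin : ∀ g : SUGroup n, _ := fun g => bar_min (mA.pos _ (orbit_mem g))
    (mu'.pos _ (orbit_mem g)) (hL.pos _ (orbit_mem g)) (hu _ (orbit_mem g))
  have conv : ∀ (X : Vec n → Mat m) (g : SUGroup n),
      trL ((X (act g (base n)))⁻¹) (P s H (act g (base n))) +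
        trL (X (act g (base n))) (P s (fun w => (H w)⁻¹) (act g (base n))) =
      (((X (act g (base n)))⁻¹ * P s H (act g (base n))).trace +
        (P s (fun w => (H w)⁻¹) (act g (base n)) * X (act g (base n))).trace).re := by
    intro X g
    rw [Complex.add_re, trL_comm (X (act g (base n))), trL_apply, trL_apply]
  have hle : ∀ g : SUGroup n, trL ((bar s H (act g (base n)))⁻¹) (P s H (act g (base n))) +
        trL (bar s H (act g (base n))) (P s (fun w => (H w)⁻¹) (act g (base n))) ≤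
      trL ((L (act g (base n)))⁻¹) (P s H (act g (base n))) +
        trL (L (act g (base n))) (P s (fun w => (H w)⁻¹) (act g (base n))) := by
    intro g
    rw [conv, conv]
    exact (hmin g).1
  rw [JJ_eq, JJ_eq]
  refine ⟨II_mono hχ c1.aestronglyMeasurable b1 c2.aestronglyMeasurable b2 hle, fun h v hv => ?_⟩
  have hz := eq_zero_of_II hΓ hχ (c2.sub c1)
    (fun γ hγ g => by
      simp only [Pi.sub_apply]
      rw [i1 γ hγ g, i2 γ hγ g])
    (fun g => by
      simp only [Pi.sub_apply]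
      exact sub_nonneg.2 (hle g)) (by
      have h3 := lev_II_sub hχ c2.aestronglyMeasurable b2 c1.aestronglyMeasurable b1
      have h4 := II_mono hχ c1.aestronglyMeasurable b1 c2.aestronglyMeasurable b2 hle
      have h5 : II χ (fun g : SUGroup n =>
        (trL ((L (act g (base n)))⁻¹) (P s H (act g (base n))) +
          trL (L (act g (base n))) (P s (fun w => (H w)⁻¹) (act g (base n)))) -
        (trL ((bar s H (act g (base n)))⁻¹) (P s H (act g (base n))) +
          trL (bar s H (act g (base n))) (P s (fun w => (H w)⁻¹) (act g (base n))))) = 0 := by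
        rw [h3]
        linarith
      exact h5)
  obtain ⟨g, c, hc, rfl⟩ := exists_act_eq hv
  rw [hL.hom c hc _ (orbit_mem g), mu'.hom c hc _ (orbit_mem g)]
  refine (hmin g).2 ?_
  rw [← conv L g, ← conv (bar s H) g]
  have h6 := hz g
  simp only [Pi.sub_apply] at h6
  linarith

theorem JJ_smul (χ : SUGroup n → ℝ) (s : ℕ) (H L : Vec n → Mat m) {c : ℝ} (hc : 0 < c) :
    JJ χ s (fun w => (c : ℂ) • H w) (fun w => (c : ℂ) • L w) = JJ χ s H L := by
  have hc' : (c : ℂ) ≠ 0 := by exact_mod_cast hc.ne'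
  unfold JJ
  congr 1
  funext g
  have eA : P s (fun w => ((c : ℂ) • H w)⁻¹) (act g (base n)) =
      ((c⁻¹ : ℝ) : ℂ) • P s (fun w => (H w)⁻¹) (act g (base n)) := by
    rw [← P_smul_mat]
    exact P_congr s (fun y => inv_smul_mat hc.ne' _) _
  rw [P_smul_mat, eA, inv_smul_mat hc.ne']
  simp only [Matrix.smul_mul, Matrix.mul_smul, smul_smul]
  rw [Complex.ofReal_inv, mul_inv_cancel₀ hc', one_smul, one_smul]

theorem JJ_nonneg (hn : 1 ≤ n) (hΓ : Coc Γ) {χ : SUGroup n → ℝ} (hχ : Cut Γ χ) (ρ : Γ →* Mat m) :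
    ∃ s₀ : ℕ, ∀ s, s₀ ≤ s → ∀ H L : Vec n → Mat m, Met ρ H → Met ρ L → 0 ≤ JJ χ s H L := by
  obtain ⟨s1, h1⟩ := met_P hn hΓ ρ
  refine ⟨s1, fun s hs H L hH hL => ?_⟩
  obtain ⟨mB, -, mA, -⟩ := h1 s hs H hH
  refine integral_nonneg fun g => mul_nonneg (hχ.nonneg g) ?_
  beta_reduce
  rw [Complex.add_re]
  exact add_nonneg
    (trace_mul_nonneg (hL.pos _ (orbit_mem g)).inv.posSemidef (mB.pos _ (orbit_mem g)).posSemidef)
    (trace_mul_nonneg (mA.pos _ (orbit_mem g)).posSemidef (hL.pos _ (orbit_mem g)).posSemidef)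

end Pool.Agent.Lib.MP_5d4057_al.HM
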