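import Pool.Agent.Lib.MP_5d4057_al.HM.LevA

namespace Pool.Agent.Lib.MP_5d4057_al.HM

open Matrix MeasureTheory Filter Topology Pool.Agent.Lib.MP_5d4057_al Pool.Agent.Lib.MP_5d4057_al.Hyb

open scoped ComplexOrder MatrixOrder Matrix.Norms.L2Operator

variable {n m : ℕ}

variable {Γ : Subgroup (SUGroup n)}

private theorem psd_smul {A : Mat m} (hA : A.PosSemidef) {c : ℝ} (hc : 0 ≤ c) :
    ((c : ℂ) • A).PosSemidef := hA.smul (Complex.zero_le_real.2 hc)

private theorem smul_mono {A B : Mat m} {c : ℝ} (hc : 0 ≤ c) (h : A ≤ B) :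
    (c : ℂ) • A ≤ (c : ℂ) • B := by
  rw [Matrix.le_iff] at h ⊢
  rw [← smul_sub]
  exact psd_smul h hc

private theorem smul_mono_left {A : Mat m} (hA : A.PosSemidef) {c d : ℝ} (h : c ≤ d) :
    (c : ℂ) • A ≤ (d : ℂ) • A := by
  rw [Matrix.le_iff, ← sub_smul, ← Complex.ofReal_sub]
  exact psd_smul hA (sub_nonneg.2 h)

private theorem posDef_smul_one {c : ℝ} (hc : 0 < c) : ((c : ℂ) • (1 : Mat m)).PosDef := by
  have h : (0 : ℂ) < (c : ℂ) := Complex.zero_lt_real.2 hc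
  exact PosDef.one.smul h

private theorem inv_smul_mat {c : ℝ} (hc : 0 < c) {A : Mat m} (hA : IsUnit A) :
    ((c : ℂ) • A)⁻¹ = ((c⁻¹ : ℝ) : ℂ) • A⁻¹ := by
  apply inv_eq_right_inv
  rw [smul_mul_smul_comm, mul_nonsing_inv A ((isUnit_iff_isUnit_det A).1 hA)]
  have h : (c : ℂ) * ((c⁻¹ : ℝ) : ℂ) = 1 := by
    rw [← Complex.ofReal_mul, mul_inv_cancel₀ hc.ne', Complex.ofReal_one]
  rw [h, one_smul]

private theorem trace_mono {A B : Mat m} (h : A ≤ B) : A.trace.re ≤ B.trace.re := by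
  have h1 := trace_mul_le h (PosSemidef.one (n := Fin m) (R := ℂ))
  rwa [mul_one, mul_one] at h1

private theorem trace_smul_re (c : ℝ) (A : Mat m) : ((c : ℂ) • A).trace.re = c * A.trace.re := by
  rw [trace_smul, smul_eq_mul, Complex.re_ofReal_mul]

private theorem harn_le {a : ℕ} {H : Vec n → Mat m} (hh : Harn a H) (g x : SUGroup n) :
    H (act (g * x) (base n)) ≤ ((wt x ^ a : ℝ) : ℂ) • H (act g (base n)) := by
  have h := hh g x
  push_cast
  exact h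

private theorem wt_pos (x : SUGroup n) : 0 < wt x := lt_of_lt_of_le one_pos (one_le_wt x)

/-- The uniform lower bound. -/
private theorem lev_low (ρ : Γ →* Mat m) (hρ : Submodule.span ℂ (Set.range ρ) = ⊤) (a : ℕ) :
    ∃ δ : ℝ, 0 < δ ∧ ∀ H : Vec n → Mat m, Met ρ H → Harn a H → (H (base n)).trace = 1 →
      ∀ g : SUGroup n, (H (act g (base n))).trace.re ≤ wt g ^ a ∧
        ((δ / wt g ^ a : ℝ) : ℂ) • (1 : Mat m) ≤ H (act g (base n)) := by
  classical
  obtain ⟨T, hT⟩ := exists_finite_span (fun γ : Γ => ρ γ) hρ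
  have hT' : Submodule.span ℂ (Set.range fun γ : T => ρ (γ : Γ)) = ⊤ := by
    rw [← hT]
    congr 1
    ext A
    constructor
    · rintro ⟨γ, rfl⟩
      exact ⟨γ, γ.2, rfl⟩
    · rintro ⟨γ, hγ, rfl⟩
      exact ⟨⟨γ, hγ⟩, rfl⟩
  obtain ⟨δ, hδ, hδ'⟩ := exists_delta (fun γ : T => ρ (γ : Γ)) hT'
    (∑ γ ∈ T, wt (γ : SUGroup n) ^ a)
  refine ⟨δ, hδ, fun H hH hh ht g => ?_⟩
  have hp0 : (H (base n)).PosDef := hH.pos _ (base_mem n)
  have hpg : (H (act g (base n))).PosDef := hH.pos _ (orbit_mem g)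
  have h0 : (δ : ℂ) • (1 : Mat m) ≤ H (base n) := by
    refine hδ' _ hp0.posSemidef ht fun γ => ?_
    have h1 := harn_le hh 1 ((γ : Γ) : SUGroup n)
    rw [one_mul, act_one, hH.equi (γ : Γ) _ (base_mem n)] at h1
    refine h1.trans (smul_mono_left hp0.posSemidef ?_)
    exact Finset.single_le_sum (f := fun γ : Γ => wt (γ : SUGroup n) ^ a)
      (fun i _ => pow_nonneg (wt_pos _).le a) γ.2
  have hw : 0 < wt g ^ a := pow_pos (wt_pos g) a
  refine ⟨?_, ?_⟩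
  · have h1 := trace_mono (harn_le hh 1 g)
    rw [one_mul, act_one, trace_smul_re, ht, Complex.one_re, mul_one] at h1
    exact h1
  · have h1 := harn_le hh g g⁻¹
    rw [mul_inv_cancel, act_one, wt_inv] at h1
    have h2 := smul_mono (inv_pos.2 hw).le (h0.trans h1)
    rw [smul_smul, smul_smul, ← Complex.ofReal_mul, ← Complex.ofReal_mul, inv_mul_cancel₀ hw.ne',
      Complex.ofReal_one, one_smul] at h2
    rw [div_eq_inv_mul]
    exact h2

theorem exists_unif (hn : 1 ≤ n) (hm : 0 < m) (hΓ : Coc Γ) (ρ : Γ →* Mat m)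
    (hρ : Submodule.span ℂ (Set.range ρ) = ⊤) (s : ℕ) (F : Set (SUGroup n)) (hF : IsCompact F) :
    ∃ M : ℝ, ∀ H : Vec n → Mat m, Met ρ H → Harn (2 * s) H → (H (base n)).trace = 1 →
      ∀ g ∈ F, (H (act g (base n))).trace.re ≤ M ∧ ((H (act g (base n)))⁻¹).trace.re ≤ M := by
  have _ := hn
  have _ := hm
  have _ := hΓ
  obtain ⟨δ, hδ, hlow⟩ := lev_low ρ hρ (2 * s)
  obtain ⟨B, hB⟩ := hF.exists_bound_of_continuousOn
    (continuous_wt (n := n)).continuousOn (f := fun g => wt g)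
  have hB' : ∀ g ∈ F, wt g ≤ |B| := fun g hg =>
    (le_abs_self _).trans ((Real.norm_eq_abs _ ▸ hB g hg).trans (le_abs_self B))
  refine ⟨|B| ^ (2 * s) + m * (|B| ^ (2 * s) / δ), fun H hH hh ht g hg => ?_⟩
  obtain ⟨h1, h2⟩ := hlow H hH hh ht g
  have hw : 0 < wt g ^ (2 * s) := pow_pos (wt_pos g) _
  have hwB : wt g ^ (2 * s) ≤ |B| ^ (2 * s) := pow_le_pow_left₀ (wt_pos g).le (hB' g hg) _
  have hq : 0 ≤ (m : ℝ) * (|B| ^ (2 * s) / δ) := by positivity
  refine ⟨by linarith, ?_⟩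
  have h3 := inv_le_inv_of_le (posDef_smul_one (div_pos hδ hw)) h2
  rw [inv_smul_mat (div_pos hδ hw) isUnit_one, inv_one, inv_div] at h3
  have h4 := trace_mono h3
  rw [trace_smul_re, trace_one, Fintype.card_fin, Complex.natCast_re] at h4
  have h5 : wt g ^ (2 * s) / δ * m ≤ |B| ^ (2 * s) / δ * m := by gcongr
  have h6 : 0 ≤ |B| ^ (2 * s) := by positivity
  linarith

private theorem norm_diff_le {X Y : Mat m} (hX : X.PosSemidef) (hY : Y.PosSemidef) {t : ℝ}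
    (ht : 1 ≤ t) (h1 : X ≤ (t : ℂ) • Y) (h2 : Y ≤ (t : ℂ) • X) :
    ‖X - Y‖ ≤ 3 * ((t - 1) * t) * ‖Y‖ := by
  obtain ⟨r, hr⟩ : ∃ r : ℝ, r = (t - 1) * t := ⟨_, rfl⟩
  have hr0 : 0 ≤ r := by rw [hr]; exact mul_nonneg (by linarith) (by linarith)
  have hr1 : t - 1 ≤ r := by rw [hr]; nlinarith
  have e1 : X ≤ Y + (r : ℂ) • Y := by
    have h3 : ((t : ℝ) : ℂ) • Y ≤ ((1 + r : ℝ) : ℂ) • Y := smul_mono_left hY (by linarith)
    refine (h1.trans h3).trans (le_of_eq ?_)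
    rw [Complex.ofReal_add, Complex.ofReal_one, add_smul, one_smul]
  have e2 : Y ≤ X + (r : ℂ) • Y := by
    have h3 : ((t - 1 : ℝ) : ℂ) • X ≤ ((t - 1 : ℝ) : ℂ) • ((t : ℂ) • Y) :=
      smul_mono (by linarith) h1
    rw [smul_smul, ← Complex.ofReal_mul, ← hr] at h3
    calc Y ≤ (t : ℂ) • X := h2
      _ = X + ((t - 1 : ℝ) : ℂ) • X := by
          rw [Complex.ofReal_sub, Complex.ofReal_one, sub_smul, one_smul]
          abel
      _ ≤ X + (r : ℂ) • Y := add_le_add le_rfl h3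
  have e3 : 0 ≤ X - Y + (r : ℂ) • Y := by
    have h := sub_nonneg.2 e2
    have h' : X + (r : ℂ) • Y - Y = X - Y + (r : ℂ) • Y := by abel
    rwa [h'] at h
  have e4 : X - Y + (r : ℂ) • Y ≤ ((2 * r : ℝ) : ℂ) • Y := by
    have h : X - Y ≤ (r : ℂ) • Y := by
      rw [sub_le_iff_le_add']
      exact e1
    calc X - Y + (r : ℂ) • Y ≤ (r : ℂ) • Y + (r : ℂ) • Y := add_le_add h le_rfl
      _ = ((2 * r : ℝ) : ℂ) • Y := by
          rw [← add_smul, two_mul, Complex.ofReal_add]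
  have e5 := CStarAlgebra.norm_le_norm_of_nonneg_of_le e3 e4
  rw [norm_smul, Complex.norm_real, Real.norm_eq_abs, abs_of_nonneg (by positivity)] at e5
  calc ‖X - Y‖ = ‖X - Y + (r : ℂ) • Y - (r : ℂ) • Y‖ := by rw [add_sub_cancel_right]
    _ ≤ ‖X - Y + (r : ℂ) • Y‖ + ‖(r : ℂ) • Y‖ := norm_sub_le _ _
    _ ≤ 2 * r * ‖Y‖ + r * ‖Y‖ := by
        refine add_le_add e5 (le_of_eq ?_)
        rw [norm_smul, Complex.norm_real, Real.norm_eq_abs, abs_of_nonneg hr0]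
    _ = 3 * ((t - 1) * t) * ‖Y‖ := by rw [hr]; ring

private theorem sec_smul_base {c : ℂ} (hc : c ≠ 0) : sec n (c • base n) = 1 := by
  rw [sec_smul (base_mem n) hc, sec_base]

private theorem wt_eq (x : SUGroup n) : wt x =
    ‖x.toMatrix (Fin.last n) (Fin.last n)‖ +
      Real.sqrt (‖x.toMatrix (Fin.last n) (Fin.last n)‖ ^ 2 - 1) := rfl

private theorem continuousOn_wt_sec (n : ℕ) :
    ContinuousOn (fun v => wt (sec n v)) (Cone n) := by
  have h1 : ContinuousOn (fun v => (sec n v).toMatrix) (Cone n) := (contDiffOn_sec n).continuousOn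
  have h2 : ContinuousOn (fun v => (sec n v).toMatrix (Fin.last n) (Fin.last n)) (Cone n) := by
    have h3 : Continuous fun A : Mat (n + 1) => A (Fin.last n) (Fin.last n) :=
      continuous_id.matrix_elem _ _
    exact h3.comp_continuousOn h1
  simp only [wt_eq]
  have h4 := h2.norm
  exact h4.add (Real.continuous_sqrt.comp_continuousOn ((h4.pow 2).sub continuousOn_const))

/-- points close to `v` are of the form `g x e_n` with `wt x` close to one -/
private theorem near_wt (g : SUGroup n) {c : ℂ} (hc : c ≠ 0) (a : ℕ) {ε : ℝ} (hε : 0 < ε) :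
    ∃ δ > 0, ∀ w, ‖w - c • act g (base n)‖ < δ → w ∈ Cone n ∧ ∃ (x : SUGroup n) (d : ℂ), d ≠ 0 ∧
      w = d • act (g * x) (base n) ∧ wt x ^ a < 1 + ε := by
  have hv : c • act g (base n) ∈ Cone n := smul_mem_cone hc (orbit_mem g)
  have h1 : ContinuousAt (fun w => act g⁻¹ w) (c • act g (base n)) :=
    (actL g⁻¹).continuous.continuousAt
  have e1 : act g⁻¹ (c • act g (base n)) = c • base n := by
    rw [act_smul, ← act_mul, inv_mul_cancel, act_one]
  have hb : c • base n ∈ Cone n := smul_mem_cone hc (base_mem n)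
  have h2 : ContinuousAt (fun u => wt (sec n u) ^ a) (act g⁻¹ (c • act g (base n))) := by
    rw [e1]
    exact ((continuousOn_wt_sec n).continuousAt ((isOpen_cone n).mem_nhds hb)).pow a
  have h3 : ContinuousAt (fun w => wt (sec n (act g⁻¹ w)) ^ a) (c • act g (base n)) :=
    ContinuousAt.comp (f := fun w => act g⁻¹ w) (g := fun u => wt (sec n u) ^ a) h2 h1
  have e2 : wt (sec n (act g⁻¹ (c • act g (base n)))) ^ a = 1 := by
    rw [e1, sec_smul_base hc, wt_one, one_pow]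
  have h4 : ∀ᶠ w in 𝓝 (c • act g (base n)), wt (sec n (act g⁻¹ w)) ^ a < 1 + ε := by
    refine h3.eventually_lt continuousAt_const ?_
    rw [e2]
    linarith
  have h5 : ∀ᶠ w in 𝓝 (c • act g (base n)), w ∈ Cone n := (isOpen_cone n).mem_nhds hv
  obtain ⟨δ, hδ, h6⟩ := Metric.eventually_nhds_iff.1 (h4.and h5)
  refine ⟨δ, hδ, fun w hw => ?_⟩
  obtain ⟨h7, h8⟩ := h6 (y := w) (by rw [dist_eq_norm]; exact hw)
  refine ⟨h8, sec n (act g⁻¹ w), ?_⟩
  obtain ⟨d, hd, he⟩ := sec_spec (act_mem g⁻¹ h8)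
  refine ⟨d, hd, ?_, h7⟩
  rw [act_mul, ← act_smul, ← he, ← act_mul, mul_inv_cancel, act_one]

private theorem exists_rep {v : Vec n} (hv : v ∈ Cone n) : ∃ (g : SUGroup n) (c : ℂ), c ≠ 0 ∧
    v = c • act g (base n) :=
  ⟨sec n v, (sec_spec hv).choose, (sec_spec hv).choose_spec.1, (sec_spec hv).choose_spec.2⟩

private theorem psd_of_tendsto {A : ℕ → Mat m} {B : Mat m} (h : Tendsto A atTop (𝓝 B))
    (hA : ∀ k, (A k).PosSemidef) : B.PosSemidef := by
  have h1 : B.IsHermitian := by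
    have h2 : Tendsto (fun k => (A k)ᴴ) atTop (𝓝 Bᴴ) :=
      (continuous_id.matrix_conjTranspose.tendsto B).comp h
    have h3 : (fun k => (A k)ᴴ) = A := by
      funext k
      exact (hA k).isHermitian.eq
    rw [h3] at h2
    exact tendsto_nhds_unique h2 h
  refine PosSemidef.of_dotProduct_mulVec_nonneg h1 fun v => ?_
  have h2 : Continuous fun A : Mat m => star v ⬝ᵥ (A *ᵥ v) := by fun_prop
  have h3 := (h2.tendsto B).comp h
  refine ge_of_tendsto' h3 fun k => ?_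
  exact (hA k).dotProduct_mulVec_nonneg v

/-- Compactness at a fixed level (blueprint C4): irreducibility (`exists_finite_span`, `exists_delta` with
`C = max wt(γ)^(2s)`) bounds `H (base)` from below, if it has trace one; `Harn` then bounds `H` everywhere;
`exists_subseq`. -/
theorem exists_lim (hn : 1 ≤ n) (hm : 0 < m) (hΓ : Coc Γ) (ρ : Γ →* Mat m)
    (hρ : Submodule.span ℂ (Set.range ρ) = ⊤) (s : ℕ) (H : ℕ → Vec n → Mat m)
    (hH : ∀ k, Met ρ (H k)) (hh : ∀ k, Harn (2 * s) (H k)) (ht : ∀ k, (H k (base n)).trace = 1) :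
    ∃ (φ : ℕ → ℕ) (H₀ : Vec n → Mat m), StrictMono φ ∧ Met ρ H₀ ∧
      ∀ v ∈ Cone n, Tendsto (fun k => H (φ k) v) atTop (𝓝 (H₀ v)) := by
  have _ := hn
  have _ := hm
  have _ := hΓ
  obtain ⟨δ, hδ, hlow⟩ := lev_low ρ hρ (2 * s)
  have hlow' := fun k => hlow (H k) (hH k) (hh k) (ht k)
  have hnorm : ∀ (g : SUGroup n) k, ‖H k (act g (base n))‖ ≤ wt g ^ (2 * s) := fun g k =>
    (norm_le_trace ((hH k).pos _ (orbit_mem g)).posSemidef).trans (hlow' k g).1
  obtain ⟨φ, f, hφ, hf, hlim⟩ := exists_subseq (isOpen_cone n) (F := H)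
    (fun v hv => by
      obtain ⟨g, c, hc, rfl⟩ := exists_rep hv
      refine ⟨wt g ^ (2 * s), fun k => ?_⟩
      rw [(hH k).hom c hc _ (orbit_mem g)]
      exact hnorm g k)
    (fun v hv ε hε => by
      obtain ⟨g, c, hc, rfl⟩ := exists_rep hv
      obtain ⟨B, hB⟩ : ∃ B : ℝ, B = wt g ^ (2 * s) := ⟨_, rfl⟩
      have hB0 : 0 < B := by rw [hB]; exact pow_pos (wt_pos g) _
      obtain ⟨η, hη⟩ : ∃ η : ℝ, η = min 1 (ε / (6 * B)) := ⟨_, rfl⟩
      have hη0 : 0 < η := by rw [hη]; exact lt_min one_pos (by positivity)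
      have hη1 : η ≤ 1 := by rw [hη]; exact min_le_left _ _
      have hη2 : η ≤ ε / (6 * B) := by rw [hη]; exact min_le_right _ _
      obtain ⟨r, hr, hnear⟩ := near_wt g hc (2 * s) hη0
      refine ⟨r, hr, fun w hw k => ?_⟩
      obtain ⟨-, x, d, hd, rfl, hx⟩ := hnear w hw
      rw [(hH k).hom c hc _ (orbit_mem g), (hH k).hom d hd _ (orbit_mem _)]
      have ht1 : 1 ≤ wt x ^ (2 * s) := one_le_pow₀ (one_le_wt x)
      have h1 := harn_le (hh k) g x
      have h2 := harn_le (hh k) (g * x) x⁻¹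
      rw [mul_inv_cancel_right, wt_inv] at h2
      have h3 := norm_diff_le ((hH k).pos _ (orbit_mem _)).posSemidef
        ((hH k).pos _ (orbit_mem g)).posSemidef ht1 h1 h2
      refine h3.trans ?_
      have h4 : ‖H k (act g (base n))‖ ≤ B := by rw [hB]; exact hnorm g k
      have h5 : (wt x ^ (2 * s) - 1) * wt x ^ (2 * s) ≤ η * 2 := by
        have h6 : wt x ^ (2 * s) - 1 ≤ η := by linarith
        have h7 : wt x ^ (2 * s) ≤ 2 := by linarith
        exact mul_le_mul h6 h7 (by linarith) hη0.le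
      calc 3 * ((wt x ^ (2 * s) - 1) * wt x ^ (2 * s)) * ‖H k (act g (base n))‖
          ≤ 3 * (η * 2) * B := by gcongr
        _ = η * (6 * B) := by ring
        _ ≤ ε / (6 * B) * (6 * B) := by gcongr
        _ = ε := by field_simp)
  have hlim' : ∀ v ∈ Cone n, Tendsto (fun k => H (φ k) v) atTop (𝓝 (f v)) := fun v hv =>
    hlim.tendsto_at hv
  refine ⟨φ, f, hφ, ⟨fun c hc v hv => ?_, hf, fun v hv => ?_, fun γ v hv => ?_⟩, hlim'⟩
  · have h1 := hlim' _ (smul_mem_cone hc hv)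
    have h2 : (fun k => H (φ k) (c • v)) = fun k => H (φ k) v := by
      funext k
      exact (hH _).hom c hc v hv
    rw [h2] at h1
    exact tendsto_nhds_unique h1 (hlim' v hv)
  · obtain ⟨g, c, hc, rfl⟩ := exists_rep hv
    have hr : 0 < δ / wt g ^ (2 * s) := div_pos hδ (pow_pos (wt_pos g) _)
    have h1 : Tendsto (fun k => H (φ k) (c • act g (base n)) -
        ((δ / wt g ^ (2 * s) : ℝ) : ℂ) • (1 : Mat m)) atTop
        (𝓝 (f (c • act g (base n)) - ((δ / wt g ^ (2 * s) : ℝ) : ℂ) • (1 : Mat m))) :=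
      (hlim' _ hv).sub_const _
    have h2 := psd_of_tendsto h1 fun k => by
      rw [(hH _).hom c hc _ (orbit_mem g)]
      exact Matrix.le_iff.1 (hlow' _ g).2
    have h3 := (posDef_smul_one hr).add_posSemidef h2
    rwa [add_sub_cancel] at h3
  · have h1 := hlim' _ (act_mem (γ : SUGroup n) hv)
    have h2 : (fun k => H (φ k) (act (γ : SUGroup n) v)) = fun k => ρ γ * H (φ k) v * (ρ γ)ᴴ := by
      funext k
      exact (hH _).equi γ v hv
    rw [h2] at h1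
    have h3 : Tendsto (fun k => ρ γ * H (φ k) v * (ρ γ)ᴴ) atTop (𝓝 (ρ γ * f v * (ρ γ)ᴴ)) :=
      ((hlim' v hv).const_mul _).mul_const _
    exact tendsto_nhds_unique h1 h3

private theorem tendsto_inv' {A : ℕ → Mat m} {B : Mat m} (h : Tendsto A atTop (𝓝 B))
    (hB : B.PosDef) : Tendsto (fun k => (A k)⁻¹) atTop (𝓝 B⁻¹) := by
  obtain ⟨u, hu⟩ := hB.isUnit
  have h1 : ContinuousAt Ring.inverse (u : Mat m) := NormedRing.inverse_continuousAt u
  rw [hu] at h1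
  have h2 := h1.tendsto.comp h
  simp only [nonsing_inv_eq_ringInverse]
  exact h2

/-- Continuity of `bar s` under pointwise convergence with uniform bounds (`P_tendsto_of_ae`,
`bar_tendsto`). -/
theorem bar_lim (hn : 1 ≤ n) (hΓ : Coc Γ) (ρ : Γ →* Mat m) (N : ℕ) : ∃ s₀ : ℕ, ∀ s, s₀ ≤ s →
    ∀ (C : ℝ) (H : ℕ → Vec n → Mat m) (H₀ : Vec n → Mat m), (∀ k, Met ρ (H k)) →
      Met ρ H₀ → (∀ k, Adm N C (H k) ∧ Adm N C (fun v => (H k v)⁻¹)) →
      (∀ v ∈ Cone n, Tendsto (fun k => H k v) atTop (𝓝 (H₀ v))) →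
      ∀ v ∈ Cone n, Tendsto (fun k => bar s (H k) v) atTop (𝓝 (bar s H₀ v)) := by
  obtain ⟨s₁, h₁⟩ := bar_props hn hΓ ρ
  obtain ⟨s₂, h₂⟩ := P_tendsto_of_ae (E := Mat m) n N
  obtain ⟨s₃, h₃⟩ := met_P hn hΓ ρ
  refine ⟨max s₁ (max s₂ s₃), fun s hs C H H₀ hH hH₀ hA hlim v hv => ?_⟩
  have hs1 : s₁ ≤ s := (le_max_left _ _).trans hs
  have hs2 : s₂ ≤ s := ((le_max_left _ _).trans (le_max_right _ _)).trans hs
  have hs3 : s₃ ≤ s := ((le_max_right _ _).trans (le_max_right _ _)).trans hs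
  refine bar_tendsto (A := fun k => P s (fun w => (H k w)⁻¹) v) (B := fun k => P s (H k) v)
    (A₀ := P s (fun w => (H₀ w)⁻¹) v) (B₀ := P s H₀ v)
    (fun k => (h₃ s hs3 _ (hH k)).2.2.1.pos v hv) (fun k => (h₁ s hs1 _ (hH k)).1.pos v hv)
    (fun k => (h₁ s hs1 _ (hH k)).2.2.1 v hv) ((h₃ s hs3 _ hH₀).2.2.1.pos v hv)
    ((h₃ s hs3 _ hH₀).1.pos v hv) ((h₁ s hs1 _ hH₀).1.pos v hv)
    ((h₁ s hs1 _ hH₀).2.2.1 v hv) ?_ ?_
  · exact h₂ s hs2 C (fun k w => (H k w)⁻¹) (fun w => (H₀ w)⁻¹) (fun k => (hA k).2)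
      (Eventually.of_forall fun g => tendsto_inv' (hlim _ (orbit_mem g))
        (hH₀.pos _ (orbit_mem g))) v hv
  · exact h₂ s hs2 C H H₀ (fun k => (hA k).1)
      (Eventually.of_forall fun g => hlim _ (orbit_mem g)) v hv

private theorem met_smul {ρ : Γ →* Mat m} {H : Vec n → Mat m} (hH : Met ρ H) {c : ℝ}
    (hc : 0 < c) : Met ρ fun w => (c : ℂ) • H w := by
  have hc1 : ContinuousOn (fun w => (c : ℂ) • H w) (Cone n) := by
    have h1 : Continuous fun A : Mat m => (c : ℂ) • A := continuous_const_smul _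
    exact h1.comp_continuousOn hH.cont
  refine ⟨fun d hd v hv => ?_, hc1, fun v hv => ?_, fun γ v hv => ?_⟩
  · show (c : ℂ) • H (d • v) = (c : ℂ) • H v
    rw [hH.hom d hd v hv]
  · exact (hH.pos v hv).smul (Complex.zero_lt_real.2 hc)
  · show (c : ℂ) • H (act (γ : SUGroup n) v) = _
    rw [hH.equi γ v hv, mul_smul_comm, smul_mul_assoc]

private theorem harn_smul {a : ℕ} {H : Vec n → Mat m} (hh : Harn a H) {c : ℝ} (hc : 0 < c) :
    Harn a fun w => (c : ℂ) • H w := by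
  intro g x
  have h := smul_mono hc.le (hh g x)
  rw [smul_comm] at h
  exact h

private theorem trace_pos {A : Mat m} (hm : 0 < m) (hA : A.PosDef) : 0 < A.trace.re := by
  have : Nonempty (Fin m) := ⟨⟨0, hm⟩⟩
  exact (Complex.lt_def.1 hA.trace_pos).1

private theorem trace_eq_re {A : Mat m} (hA : A.PosDef) : A.trace = (A.trace.re : ℂ) := by
  have h := hA.posSemidef.trace_nonneg
  exact Complex.ext (by simp) (by simpa using (Complex.le_def.1 h).2.symm)

/-- Uniform growth of a sequence with the Harnack property, convergent at the base point. -/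
private theorem adm_of_lim (hn : 1 ≤ n) (hm : 0 < m) (hΓ : Coc Γ) (ρ : Γ →* Mat m)
    (hρ : Submodule.span ℂ (Set.range ρ) = ⊤) (s : ℕ) {F : Set (SUGroup n)} (hF : IsCompact F)
    {N : ℕ} {C₀ : ℝ} (hgrow : ∀ (H : Vec n → Mat m) (M : ℝ), Met ρ H →
        (∀ g ∈ F, (H (act g (base n))).trace.re ≤ M ∧ ((H (act g (base n)))⁻¹).trace.re ≤ M) →
        Adm N (C₀ * M) H ∧ Adm N (C₀ * M) (fun v => (H v)⁻¹))
    {X : ℕ → Vec n → Mat m} (hX : ∀ k, Met ρ (X k)) (hh : ∀ k, Harn (2 * s) (X k)) {X₀ : Mat m}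
    (hX₀ : X₀.PosDef) (h0 : Tendsto (fun k => X k (base n)) atTop (𝓝 X₀)) :
    ∃ C : ℝ, ∀ k, Adm N C (X k) ∧ Adm N C (fun v => (X k v)⁻¹) := by
  obtain ⟨M, hM⟩ := exists_unif hn hm hΓ ρ hρ s F hF
  obtain ⟨c, hc⟩ : ∃ c : ℕ → ℝ, c = fun k => (X k (base n)).trace.re := ⟨_, rfl⟩
  have hcpos : ∀ k, 0 < c k := fun k => by
    rw [hc]
    exact trace_pos hm ((hX k).pos _ (base_mem n))
  have hclim : Tendsto c atTop (𝓝 X₀.trace.re) := by
    rw [hc]
    have h1 : Continuous fun A : Mat m => A.trace.re :=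
      Complex.continuous_re.comp continuous_id.matrix_trace
    exact (h1.tendsto X₀).comp h0
  have hcinv : Tendsto (fun k => (c k)⁻¹) atTop (𝓝 (X₀.trace.re)⁻¹) :=
    hclim.inv₀ (trace_pos hm hX₀).ne'
  obtain ⟨R₁, hR₁⟩ := hclim.bddAbove_range
  obtain ⟨R₂, hR₂⟩ := hcinv.bddAbove_range
  obtain ⟨M', hM'⟩ : ∃ M' : ℝ, M' = max M 0 := ⟨_, rfl⟩
  have hM0 : 0 ≤ M' := by rw [hM']; exact le_max_right _ _
  have hMM : M ≤ M' := by rw [hM']; exact le_max_left _ _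
  refine ⟨C₀ * (max R₁ R₂ * M'), fun k => hgrow _ _ (hX k) fun g hg => ?_⟩
  have hR1 : c k ≤ max R₁ R₂ := (hR₁ ⟨k, rfl⟩).trans (le_max_left _ _)
  have hR2 : (c k)⁻¹ ≤ max R₁ R₂ := (hR₂ ⟨k, rfl⟩).trans (le_max_right _ _)
  have hci : 0 < (c k)⁻¹ := inv_pos.2 (hcpos k)
  have hY := met_smul (hX k) hci
  have hYh := harn_smul (hh k) hci
  have hYt : ((((c k)⁻¹ : ℝ) : ℂ) • X k (base n)).trace = 1 := by
    rw [trace_smul, smul_eq_mul, trace_eq_re ((hX k).pos _ (base_mem n)), ← Complex.ofReal_mul]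
    have h1 : (X k (base n)).trace.re = c k := by rw [hc]
    rw [h1, inv_mul_cancel₀ (hcpos k).ne', Complex.ofReal_one]
  obtain ⟨h1, h2⟩ := hM _ hY hYh hYt g hg
  rw [inv_smul_mat hci ((hX k).pos _ (orbit_mem g)).isUnit, inv_inv] at h2
  rw [trace_smul_re] at h1 h2
  have hp := trace_pos hm ((hX k).pos _ (orbit_mem g))
  have hpi := trace_pos hm ((hX k).pos _ (orbit_mem g)).inv
  constructor
  · calc (X k (act g (base n))).trace.re
        = c k * ((c k)⁻¹ * (X k (act g (base n))).trace.re) := by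
          rw [← mul_assoc, mul_inv_cancel₀ (hcpos k).ne', one_mul]
      _ ≤ c k * M' := mul_le_mul_of_nonneg_left (h1.trans hMM) (hcpos k).le
      _ ≤ max R₁ R₂ * M' := mul_le_mul_of_nonneg_right hR1 hM0
  · calc ((X k (act g (base n)))⁻¹).trace.re
        = (c k)⁻¹ * (c k * ((X k (act g (base n)))⁻¹).trace.re) := by
          rw [← mul_assoc, inv_mul_cancel₀ (hcpos k).ne', one_mul]
      _ ≤ (c k)⁻¹ * M' := mul_le_mul_of_nonneg_left (h2.trans hMM) hci.le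
      _ ≤ max R₁ R₂ * M' := mul_le_mul_of_nonneg_right hR2 hM0

private theorem norm_trace_mul_le (A B : Mat m) : |((A * B).trace).re| ≤ m * (‖A‖ * ‖B‖) := by
  have h1 := trace_le_norm (A * B)
  have h2 := trace_le_norm (-(A * B))
  rw [trace_neg, Complex.neg_re, norm_neg] at h2
  have h3 : (m : ℝ) * ‖A * B‖ ≤ m * (‖A‖ * ‖B‖) :=
    mul_le_mul_of_nonneg_left (norm_mul_le _ _) (Nat.cast_nonneg m)
  rw [abs_le]
  constructor <;> linarith

/-- Continuity of the functional. -/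
private theorem JJ_lim (hn : 1 ≤ n) (hΓ : Coc Γ) {χ : SUGroup n → ℝ} (hχ : Cut Γ χ)
    (ρ : Γ →* Mat m) (N : ℕ) : ∃ s₀ : ℕ, ∀ s, s₀ ≤ s →
    ∀ (C : ℝ) (H L : ℕ → Vec n → Mat m) (H₀ L₀ : Vec n → Mat m), (∀ k, Met ρ (H k)) →
      (∀ k, Met ρ (L k)) → Met ρ H₀ → Met ρ L₀ →
      (∀ k, Adm N C (H k) ∧ Adm N C (fun v => (H k v)⁻¹)) →
      (∀ k, Adm N C (L k) ∧ Adm N C (fun v => (L k v)⁻¹)) →
      (∀ v ∈ Cone n, Tendsto (fun k => H k v) atTop (𝓝 (H₀ v))) →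
      (∀ v ∈ Cone n, Tendsto (fun k => L k v) atTop (𝓝 (L₀ v))) →
      Tendsto (fun k => JJ χ s (H k) (L k)) atTop (𝓝 (JJ χ s H₀ L₀)) := by
  obtain ⟨s₁, h₁⟩ := P_bound (E := Mat m) n N
  obtain ⟨s₂, h₂⟩ := P_tendsto_of_ae (E := Mat m) n N
  obtain ⟨s₃, h₃⟩ := met_P hn hΓ ρ
  refine ⟨max s₁ (max s₂ s₃), fun s hs C H L H₀ L₀ hH hL hH₀ hL₀ hA hB hlim hlim' => ?_⟩
  have hs1 : s₁ ≤ s := (le_max_left _ _).trans hs
  have hs2 : s₂ ≤ s := ((le_max_left _ _).trans (le_max_right _ _)).trans hs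
  have hs3 : s₃ ≤ s := ((le_max_right _ _).trans (le_max_right _ _)).trans hs
  have hbound := fun g : SUGroup n => show (0 : ℝ) ≤ ch g ^ (2 * N) from
    pow_nonneg (zero_le_one.trans (one_le_ch g)) _
  have hC0 : 0 ≤ C := by
    have h := (hA 0).1.bound 1
    rw [ch_one, one_pow, mul_one] at h
    exact (norm_nonneg _).trans h
  unfold JJ II
  refine tendsto_integral_of_dominated_convergence
    (fun g => χ g * (m * ((C * ch g ^ (2 * N)) * (2 * 4 ^ N * C * ch g ^ (2 * N))) +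
      m * ((2 * 4 ^ N * C * ch g ^ (2 * N)) * (C * ch g ^ (2 * N))))) (fun k => ?_) ?_
    (fun k => Eventually.of_forall fun g => ?_) (Eventually.of_forall fun g => ?_)
  · refine (hχ.cont.smul ?_).aestronglyMeasurable
    have c1 : Continuous fun g : SUGroup n => (L k (act g (base n)))⁻¹ :=
      continuous_orbit_of (met_inv (hL k)).cont
    have c2 : Continuous fun g : SUGroup n => P s (H k) (act g (base n)) :=
      continuous_orbit_of (h₃ s hs3 _ (hH k)).1.cont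
    have c3 : Continuous fun g : SUGroup n => P s (fun w => (H k w)⁻¹) (act g (base n)) :=
      continuous_orbit_of (h₃ s hs3 _ (hH k)).2.2.1.cont
    have c4 : Continuous fun g : SUGroup n => L k (act g (base n)) :=
      continuous_orbit_of (hL k).cont
    exact Complex.continuous_re.comp ((c1.mul c2).matrix_trace.add (c3.mul c4).matrix_trace)
  · refine Continuous.integrable_of_hasCompactSupport ?_ ?_
    · have hc := continuous_ch (n := n)
      exact hχ.cont.mul (by fun_prop)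
    · exact hχ.supp.mul_right
  · rw [norm_smul, Real.norm_eq_abs, Real.norm_eq_abs, abs_of_nonneg (hχ.nonneg g)]
    beta_reduce
    rw [Complex.add_re]
    refine mul_le_mul_of_nonneg_left ?_ (hχ.nonneg g)
    refine (abs_add_le _ _).trans (add_le_add ?_ ?_)
    · refine (norm_trace_mul_le _ _).trans ?_
      have e1 := (hB k).2.bound g
      have e2 := (h₁ s hs1 C (H k) (hA k).1).bound g
      exact mul_le_mul_of_nonneg_left (mul_le_mul e1 e2 (norm_nonneg _)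
        (mul_nonneg hC0 (hbound g))) (Nat.cast_nonneg m)
    · refine (norm_trace_mul_le _ _).trans ?_
      have e1 := (hB k).1.bound g
      have e2 := (h₁ s hs1 C _ (hA k).2).bound g
      exact mul_le_mul_of_nonneg_left (mul_le_mul e2 e1 (norm_nonneg _)
        (mul_nonneg (mul_nonneg (by positivity) hC0) (hbound g))) (Nat.cast_nonneg m)
  · have l1 := tendsto_inv' (hlim' _ (orbit_mem g)) (hL₀.pos _ (orbit_mem g))
    have l2 := h₂ s hs2 C H H₀ (fun k => (hA k).1)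
      (Eventually.of_forall fun g => hlim _ (orbit_mem g)) _ (orbit_mem g)
    have l3 := h₂ s hs2 C (fun k w => (H k w)⁻¹) (fun w => (H₀ w)⁻¹) (fun k => (hA k).2)
      (Eventually.of_forall fun g => tendsto_inv' (hlim _ (orbit_mem g))
        (hH₀.pos _ (orbit_mem g))) _ (orbit_mem g)
    have l4 := hlim' _ (orbit_mem g)
    have ct : Continuous fun A : Mat m => A.trace := continuous_id.matrix_trace
    have l5 := (ct.tendsto _).comp (l1.mul l2)
    have l6 := (ct.tendsto _).comp (l3.mul l4)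
    exact ((Complex.continuous_re.tendsto _).comp (l5.add l6)).const_smul (χ g)

/-- Existence of a critical pair (blueprint C4), with control of the functional by any initial metric
with the Harnack property. -/
theorem exists_pair (hn : 1 ≤ n) (hm : 0 < m) (hΓ : Coc Γ) {χ : SUGroup n → ℝ} (hχ : Cut Γ χ)
    (ρ : Γ →* Mat m) (hρ : Submodule.span ℂ (Set.range ρ) = ⊤) :
    ∃ s₀ : ℕ, ∀ s, s₀ ≤ s → ∀ H₀ : Vec n → Mat m, Met ρ H₀ → Harn (2 * s) H₀ →
      ∃ H L : Vec n → Mat m, Pair ρ s H L ∧ JJ χ s H L ≤ JJ χ s H₀ H₀ := by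
  obtain ⟨F, N, C₀, hF, -, -, hgrow⟩ := met_growth hn hΓ ρ
  obtain ⟨s₁, h₁⟩ := bar_props hn hΓ ρ
  obtain ⟨s₂, h₂⟩ := bar_lim hn hΓ ρ N
  obtain ⟨s₃, h₃⟩ := JJ_symm hn hΓ hχ ρ
  obtain ⟨s₄, h₄⟩ := JJ_min hn hΓ hχ ρ
  obtain ⟨s₅, h₅⟩ := JJ_nonneg hn hΓ hχ ρ
  obtain ⟨s₆, h₆⟩ := JJ_lim hn hΓ hχ ρ N
  refine ⟨s₁ + s₂ + s₃ + s₄ + s₅ + s₆, fun s hs H₀ hH₀ hh₀ => ?_⟩
  have b1 := h₁ s (by omega)
  have b2 := h₂ s (by omega)
  have b3 := h₃ s (by omega)
  have b4 := h₄ s (by omega)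
  have b5 := h₅ s (by omega)
  have b6 := h₆ s (by omega)
  obtain ⟨K, hK0, hKs⟩ : ∃ K : ℕ → Vec n → Mat m, K 0 = H₀ ∧ ∀ k, K (k + 1) = bar s (K k) :=
    ⟨fun k => Nat.rec H₀ (fun _ X => bar s X) k, rfl, fun _ => rfl⟩
  have hK : ∀ k, Met ρ (K k) ∧ Harn (2 * s) (K k) := by
    intro k
    induction k with
    | zero => rw [hK0]; exact ⟨hH₀, hh₀⟩
    | succ k ih => rw [hKs]; exact ⟨(b1 _ ih.1).1, (b1 _ ih.1).2.1⟩
  obtain ⟨t, ht⟩ : ∃ t : ℕ → ℝ, ∀ k, t k = (K k (base n)).trace.re := ⟨_, fun _ => rfl⟩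
  have htp : ∀ k, 0 < (t k)⁻¹ := fun k => by
    rw [ht]
    exact inv_pos.2 (trace_pos hm ((hK k).1.pos _ (base_mem n)))
  obtain ⟨X, hX⟩ : ∃ X : ℕ → ℕ → Vec n → Mat m, ∀ i k, X i k =
      fun w => (((t k)⁻¹ : ℝ) : ℂ) • K (k + i) w := ⟨_, fun _ _ => rfl⟩
  have hXm : ∀ i k, Met ρ (X i k) := fun i k => by rw [hX]; exact met_smul (hK _).1 (htp k)
  have hXh : ∀ i k, Harn (2 * s) (X i k) := fun i k => by
    rw [hX]; exact harn_smul (hK _).2 (htp k)
  have hXb : ∀ i k, ∀ v ∈ Cone n, X (i + 1) k v = bar s (X i k) v := by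
    intro i k v hv
    rw [hX, hX, (b1 _ (hK (k + i)).1).2.2.2.2.2 _ (htp k) v hv]
    show _ • K (k + (i + 1)) v = _
    rw [show k + (i + 1) = (k + i) + 1 from rfl, hKs]
  have hXt : ∀ k, (X 0 k (base n)).trace = 1 := by
    intro k
    rw [hX]
    show ((((t k)⁻¹ : ℝ) : ℂ) • K (k + 0) (base n)).trace = 1
    rw [add_zero, trace_smul, smul_eq_mul, trace_eq_re ((hK k).1.pos _ (base_mem n)),
      ← Complex.ofReal_mul, ← ht, inv_mul_cancel₀, Complex.ofReal_one]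
    exact (inv_pos.1 (htp k)).ne'
  obtain ⟨φ, A, hφ, hA, hlimA⟩ := exists_lim hn hm hΓ ρ hρ s (X 0) (hXm 0) (hXh 0) hXt
  obtain ⟨CA, hCA⟩ := adm_of_lim hn hm hΓ ρ hρ s hF hgrow (X := fun k => X 0 (φ k))
    (fun k => hXm 0 _) (fun k => hXh 0 _) (hA.pos _ (base_mem n)) (hlimA _ (base_mem n))
  have hB := b1 _ hA
  have hlimB : ∀ v ∈ Cone n, Tendsto (fun k => X 1 (φ k) v) atTop (𝓝 (bar s A v)) := by
    intro v hv
    have h := b2 CA (fun k => X 0 (φ k)) A (fun k => hXm 0 _) hA hCA hlimA v hv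
    refine h.congr fun k => ?_
    exact (hXb 0 (φ k) v hv).symm
  obtain ⟨CB, hCB⟩ := adm_of_lim hn hm hΓ ρ hρ s hF hgrow (X := fun k => X 1 (φ k))
    (fun k => hXm 1 _) (fun k => hXh 1 _) (hB.1.pos _ (base_mem n)) (hlimB _ (base_mem n))
  have hC := b1 _ hB.1
  have hlimC : ∀ v ∈ Cone n, Tendsto (fun k => X 2 (φ k) v) atTop (𝓝 (bar s (bar s A) v)) := by
    intro v hv
    have h := b2 CB (fun k => X 1 (φ k)) (bar s A) (fun k => hXm 1 _) hB.1 hCB hlimB v hv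
    refine h.congr fun k => ?_
    exact (hXb 1 (φ k) v hv).symm
  obtain ⟨CC, hCC⟩ := adm_of_lim hn hm hΓ ρ hρ s hF hgrow (X := fun k => X 2 (φ k))
    (fun k => hXm 2 _) (fun k => hXh 2 _) (hC.1.pos _ (base_mem n)) (hlimC _ (base_mem n))
  have hmono : ∀ {C C' : ℝ} {f : Vec n → Mat m}, C ≤ C' → Adm N C f → Adm N C' f := by
    intro C C' f h hf
    refine ⟨hf.meas, fun y => (hf.bound y).trans ?_⟩
    exact mul_le_mul_of_nonneg_right h (pow_nonneg (zero_le_one.trans (one_le_ch y)) _)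
  obtain ⟨D, hD⟩ : ∃ D : ℝ, D = max CA (max CB CC) := ⟨_, rfl⟩
  have hDA : CA ≤ D := by rw [hD]; exact le_max_left _ _
  have hDB : CB ≤ D := by rw [hD]; exact (le_max_left _ _).trans (le_max_right _ _)
  have hDC : CC ≤ D := by rw [hD]; exact (le_max_right _ _).trans (le_max_right _ _)
  have adA := fun k => And.intro (hmono hDA (hCA k).1) (hmono hDA (hCA k).2)
  have adB := fun k => And.intro (hmono hDB (hCB k).1) (hmono hDB (hCB k).2)
  have adC := fun k => And.intro (hmono hDC (hCC k).1) (hmono hDC (hCC k).2)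
  have L1 := b6 D (fun k => X 0 (φ k)) (fun k => X 1 (φ k)) A (bar s A) (fun k => hXm 0 _)
    (fun k => hXm 1 _) hA hB.1 adA adB hlimA hlimB
  have L2 := b6 D (fun k => X 1 (φ k)) (fun k => X 2 (φ k)) (bar s A) (bar s (bar s A))
    (fun k => hXm 1 _) (fun k => hXm 2 _) hB.1 hC.1 adB adC hlimB hlimC
  have hJ : ∀ i k, JJ χ s (X i k) (X (i + 1) k) = JJ χ s (K (k + i)) (K (k + i + 1)) := by
    intro i k
    rw [hX, hX]
    exact JJ_smul χ s (K (k + i)) (K (k + (i + 1))) (htp k)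
  obtain ⟨j, hj⟩ : ∃ j : ℕ → ℝ, ∀ k, j k = JJ χ s (K k) (K (k + 1)) := ⟨_, fun _ => rfl⟩
  have hanti : Antitone j := by
    refine antitone_nat_of_succ_le fun k => ?_
    rw [hj, hj, b3 (K k) (K (k + 1)) (hK k).1 (hK _).1]
    have h := (b4 (K (k + 1)) (K k) (hK _).1 (hK k).1).1
    rw [← hKs] at h
    exact h
  have hbdd : BddBelow (Set.range j) := by
    refine ⟨0, ?_⟩
    rintro _ ⟨k, rfl⟩
    rw [hj]
    exact b5 _ _ (hK _).1 (hK _).1
  have hconv := tendsto_atTop_ciInf hanti hbdd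
  have L1' : Tendsto (fun k => j (φ k)) atTop (𝓝 (JJ χ s A (bar s A))) := by
    refine L1.congr fun k => ?_
    rw [hj]
    exact hJ 0 (φ k)
  have L2' : Tendsto (fun k => j (φ k + 1)) atTop (𝓝 (JJ χ s (bar s A) (bar s (bar s A)))) := by
    refine L2.congr fun k => ?_
    rw [hj]
    exact hJ 1 (φ k)
  have E1 : JJ χ s A (bar s A) = ⨅ i, j i :=
    tendsto_nhds_unique L1' (hconv.comp hφ.tendsto_atTop)
  have E2 : JJ χ s (bar s A) (bar s (bar s A)) = ⨅ i, j i :=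
    tendsto_nhds_unique L2' (hconv.comp ((tendsto_add_atTop_nat 1).comp hφ.tendsto_atTop))
  have E3 : JJ χ s (bar s A) A ≤ JJ χ s (bar s A) (bar s (bar s A)) := by
    rw [← b3 A (bar s A) hA hB.1, E1, E2]
  have E4 := (b4 (bar s A) A hB.1 hA).2 E3
  refine ⟨A, bar s A, ⟨hA, hB.1, fun v hv => hB.2.2.1 v hv, fun v hv => ?_⟩, ?_⟩
  · rw [E4 v hv]
    exact hC.2.2.1 v hv
  · rw [E1]
    refine (ciInf_le hbdd 0).trans ?_
    rw [hj, hK0, hKs, hK0]
    exact (b4 H₀ H₀ hH₀ hH₀).1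

end Pool.Agent.Lib.MP_5d4057_al.HM
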