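import Pool.Agent.Lib.MP_5d4057_al.HM.Lim2
import Pool.Agent.Lib.MP_5d4057_al.HM.BootPair

/-!
Uniform bounds for normalised critical pairs.
-/

namespace Pool.Agent.Lib.MP_5d4057_al.HM.DD

open Matrix MeasureTheory Filter Topology Pool.Agent.Lib.MP_5d4057_al Pool.Agent.Lib.MP_5d4057_al.Hyb

open scoped ComplexOrder MatrixOrder Matrix.Norms.L2Operator

variable {n m : ℕ} {Γ : Subgroup (SUGroup n)}

theorem trace_re_mono {a b : Mat m} (h : a ≤ b) : a.trace.re ≤ b.trace.re := by
  have h1 : (b - a).PosSemidef := Matrix.le_iff.1 h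
  have h2 := h1.trace_nonneg
  rw [trace_sub] at h2
  have h3 := (Complex.le_def.1 h2).1
  rw [Complex.sub_re, Complex.zero_re] at h3
  linarith

theorem trace_le_dT {a b : Mat m} (ha : a.PosDef) (hb : b.PosDef) :
    a.trace.re ≤ Real.exp (dT b a) * b.trace.re := by
  have h := trace_re_mono (le_exp_dT ha hb)
  rw [trace_smul, smul_eq_mul, Complex.mul_re, Complex.ofReal_re, Complex.ofReal_im, zero_mul,
    sub_zero, dT_comm] at h
  exact h

/-- The bound of the trace in measure (Chebyshev). -/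
theorem vol_bound {ρ : Γ →* Mat m} (hΓ : Coc Γ) {χ : SUGroup n → ℝ} (hχ : Cut Γ χ)
    {F₀ : Vec n → Mat m} (hF₀ : Met ρ F₀) (C₀ : ℝ) : ∃ ψ : ℝ → ℝ → ℝ,
    (∀ R, Tendsto (ψ R) atTop (𝓝 0)) ∧ ∀ s (H L : Vec n → Mat m), Nor ρ χ F₀ C₀ s H L → ∀ R T,
      (mu n).real {g | ch g ≤ R ∧
        T < (H (act g (base n)) + L (act g (base n))).trace.re} ≤ ψ R T := by
  choose K hK0 hK using fun R => int_le_II (n := n) hΓ hχ R
  have hc1 : ∀ R : ℝ, ∃ c : ℝ, 0 < c ∧ ∀ g : SUGroup n, ch g ≤ R →
      (F₀ (act g (base n))).trace.re ≤ c := by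
    intro R
    have t1 : Continuous fun g : SUGroup n => (F₀ (act g (base n))).trace.re :=
      Complex.continuous_re.comp (met_cont hF₀).matrix_trace
    obtain ⟨M, hM⟩ := (isCompact_ball (n := n) R).exists_bound_of_continuousOn t1.continuousOn
    refine ⟨|M| + 1, by positivity, fun g hg => ?_⟩
    have h1 := hM g hg
    have h2 := le_abs_self ((F₀ (act g (base n))).trace.re)
    rw [Real.norm_eq_abs] at h1
    have h3 := le_abs_self M
    linarith
  choose c hc0 hc using hc1
  refine ⟨fun R T => if 2 * c R < T then 2 * K R * C₀ ^ 2 / Real.log (T / (2 * c R)) ^ 2 else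
    (mu n).real {g : SUGroup n | ch g ≤ R}, fun R => ?_, fun s H L h R T => ?_⟩
  · have h1 : Tendsto (fun T : ℝ => 2 * K R * C₀ ^ 2 / Real.log (T / (2 * c R)) ^ 2) atTop (𝓝 0) := by
      apply Tendsto.const_div_atTop
      apply (tendsto_pow_atTop (two_ne_zero)).comp
      apply Real.tendsto_log_atTop.comp
      exact tendsto_id.atTop_div_const (by have := hc0 R; positivity)
    refine h1.congr' ?_
    filter_upwards [eventually_gt_atTop (2 * c R)] with T hT
    rw [if_pos hT]
  · beta_reduce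
    have hfin : (mu n) {g : SUGroup n | ch g ≤ R} ≠ ⊤ := (isCompact_ball R).measure_lt_top.ne
    split_ifs with hT
    · have hu : 0 < Real.log (T / (2 * c R)) := by
        apply Real.log_pos
        rw [one_lt_div (by have := hc0 R; positivity)]
        exact hT
      set u := Real.log (T / (2 * c R)) with hu'
      have hmH := h.pair.metH
      have hmL := h.pair.metL
      set f : SUGroup n → ℝ := fun g => dd F₀ H 1 g ^ 2 + dd F₀ L 1 g ^ 2 with hf
      have hfb : BM f := (bm_dd hΓ hF₀ hmH 1).sq.add (bm_dd hΓ hF₀ hmL 1).sq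
      have hf0 : ∀ g, 0 ≤ f g := fun g => by positivity
      have hfi : ∀ γ ∈ Γ, ∀ g, f (γ * g) = f g := by
        intro γ hγ g
        simp only [hf, dd_inv hF₀.equi hmH.equi 1 γ hγ g, dd_inv hF₀.equi hmL.equi 1 γ hγ g]
      have h2 := hK R f hfb hf0 hfi
      have h3 : II χ f ≤ 2 * C₀ ^ 2 := by
        have h4 : II χ f = disp χ F₀ H 1 ^ 2 + disp χ F₀ L 1 ^ 2 := by
          rw [disp, disp, nm_sq hχ, nm_sq hχ, ← II_add' hχ (bm_dd hΓ hF₀ hmH 1).sq
            (bm_dd hΓ hF₀ hmL 1).sq]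
        rw [h4]
        have h5 := pow_le_pow_left₀ (disp_nonneg χ F₀ H 1) h.cH 2
        have h6 := pow_le_pow_left₀ (disp_nonneg χ F₀ L 1) h.cL 2
        linarith
      have h7 : {g : SUGroup n | ch g ≤ R ∧
          T < (H (act g (base n)) + L (act g (base n))).trace.re} ⊆
          {g : SUGroup n | ch g ≤ R} ∩ {g | u ^ 2 ≤ f g} := by
        rintro g ⟨hg, hg2⟩
        refine ⟨hg, ?_⟩
        show u ^ 2 ≤ f g
        by_contra hlt
        rw [not_le] at hlt
        have e1 : dT (F₀ (act g (base n))) (H (act g (base n))) < u := by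
          have : dd F₀ H 1 g ^ 2 < u ^ 2 := by
            have := sq_nonneg (dd F₀ L 1 g)
            simp only [hf] at hlt
            linarith
          have h8 := lt_of_pow_lt_pow_left₀ 2 hu.le this
          rwa [dd, mul_one] at h8
        have e2 : dT (F₀ (act g (base n))) (L (act g (base n))) < u := by
          have : dd F₀ L 1 g ^ 2 < u ^ 2 := by
            have := sq_nonneg (dd F₀ H 1 g)
            simp only [hf] at hlt
            linarith
          have h8 := lt_of_pow_lt_pow_left₀ 2 hu.le this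
          rwa [dd, mul_one] at h8
        have e3 := trace_le_dT (met_pos hmH g) (met_pos hF₀ g)
        have e4 := trace_le_dT (met_pos hmL g) (met_pos hF₀ g)
        have e5 := hc R g hg
        have e6 : Real.exp u = T / (2 * c R) := by
          rw [hu', Real.exp_log]
          have := hc0 R
          have hT0 : 0 < T := by linarith
          positivity
        have e7 : 0 ≤ (F₀ (act g (base n))).trace.re :=
          (Complex.le_def.1 (met_pos hF₀ g).posSemidef.trace_nonneg).1
        have e8 : (H (act g (base n))).trace.re ≤ Real.exp u * c R :=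
          e3.trans (mul_le_mul (Real.exp_le_exp.2 e1.le) e5 e7 (Real.exp_pos _).le)
        have e9 : (L (act g (base n))).trace.re ≤ Real.exp u * c R :=
          e4.trans (mul_le_mul (Real.exp_le_exp.2 e2.le) e5 e7 (Real.exp_pos _).le)
        have e10 : Real.exp u * c R = T / 2 := by
          rw [e6]
          have := (hc0 R).ne'
          field_simp
        rw [trace_add, Complex.add_re] at hg2
        linarith
      have hms : MeasurableSet {g : SUGroup n | u ^ 2 ≤ f g} := by
        have hcf : Continuous f := by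
          have c1 := continuous_dd_right hF₀ hmH 1
          have c2 := continuous_dd_right hF₀ hmL 1
          exact (c1.pow 2).add (c2.pow 2)
        exact (isClosed_le continuous_const hcf).measurableSet
      have h8 : (mu n).real ({g : SUGroup n | ch g ≤ R} ∩ {g | u ^ 2 ≤ f g}) * u ^ 2 ≤
          ∫ g in {g : SUGroup n | ch g ≤ R}, f g ∂(mu n) := by
        have hfin2 : (mu n) ({g : SUGroup n | ch g ≤ R} ∩ {g | u ^ 2 ≤ f g}) ≠ ⊤ :=
          measure_ne_top_of_subset Set.inter_subset_left hfin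
        have hi : IntegrableOn f {g : SUGroup n | ch g ≤ R} (mu n) := by
          have hcf : Continuous f := by
            have c1 := continuous_dd_right hF₀ hmH 1
            have c2 := continuous_dd_right hF₀ hmL 1
            exact (c1.pow 2).add (c2.pow 2)
          exact hcf.continuousOn.integrableOn_compact (isCompact_ball R)
        calc (mu n).real ({g : SUGroup n | ch g ≤ R} ∩ {g | u ^ 2 ≤ f g}) * u ^ 2
            = ∫ g in {g : SUGroup n | ch g ≤ R} ∩ {g | u ^ 2 ≤ f g}, u ^ 2 ∂(mu n) := by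
              rw [setIntegral_const, smul_eq_mul]
          _ ≤ ∫ g in {g : SUGroup n | ch g ≤ R} ∩ {g | u ^ 2 ≤ f g}, f g ∂(mu n) := by
              refine setIntegral_mono_on (integrableOn_const hfin2) (hi.mono_set Set.inter_subset_left)
                ((measurableSet_ball R).inter hms) fun g hg => hg.2
          _ ≤ ∫ g in {g : SUGroup n | ch g ≤ R}, f g ∂(mu n) :=
              setIntegral_mono_set hi (ae_of_all _ hf0)
                (Set.inter_subset_left.eventuallyLE)
      have h9 : (mu n).real {g : SUGroup n | ch g ≤ R ∧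
          T < (H (act g (base n)) + L (act g (base n))).trace.re} ≤
          (mu n).real ({g : SUGroup n | ch g ≤ R} ∩ {g | u ^ 2 ≤ f g}) :=
        measureReal_mono h7 (measure_ne_top_of_subset Set.inter_subset_left hfin)
      rw [le_div_iff₀ (by positivity)]
      have h10 : K R * II χ f ≤ K R * (2 * C₀ ^ 2) := mul_le_mul_of_nonneg_left h3 (hK0 R).le
      have h11 := mul_le_mul_of_nonneg_right h9 (sq_nonneg u)
      nlinarith
    · exact measureReal_mono (fun g hg => hg.1) hfin

/-- **Uniform bounds for normalised critical pairs.** -/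
theorem nor_bound (hn : 1 ≤ n) (hΓ : Coc Γ) {χ : SUGroup n → ℝ} (hχ : Cut Γ χ) (ρ : Γ →* Mat m)
    {F₀ : Vec n → Mat m} (hF₀ : Met ρ F₀) (C₀ : ℝ) : ∃ (N s₁ : ℕ) (C : ℝ), 0 < C ∧
    ∀ s, s₁ ≤ s → ∀ H L : Vec n → Mat m, Nor ρ χ F₀ C₀ s H L → ∀ g : SUGroup n,
      ‖H (act g (base n))‖ ≤ C * ch g ^ (2 * N) ∧ ‖L (act g (base n))‖ ≤ C * ch g ^ (2 * N) := by
  obtain ⟨N, s₁, h1⟩ := boot_pair hn hΓ ρ
  obtain ⟨ψ, hψ, h2⟩ := vol_bound hΓ hχ hF₀ C₀
  obtain ⟨C, hC, h3⟩ := h1 ψ hψ
  refine ⟨N, s₁, C, hC, fun s hs H L h g => ?_⟩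
  have h4 := h3 s hs H L h.pair (h2 s H L h) g
  rw [trace_add, Complex.add_re] at h4
  have pH := met_pos h.pair.metH g
  have pL := met_pos h.pair.metL g
  have e1 := norm_le_trace pH.posSemidef
  have e2 := norm_le_trace pL.posSemidef
  have e3 : 0 ≤ (H (act g (base n))).trace.re := (norm_nonneg _).trans e1
  have e4 : 0 ≤ (L (act g (base n))).trace.re := (norm_nonneg _).trans e2
  exact ⟨by linarith, by linarith⟩

/-- All four bounds. -/
theorem nor_bound_all (hn : 1 ≤ n) (hΓ : Coc Γ) {χ : SUGroup n → ℝ} (hχ : Cut Γ χ) (ρ : Γ →* Mat m)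
    {F₀ : Vec n → Mat m} (hF₀ : Met ρ F₀) (C₀ : ℝ) : ∃ (N s₁ : ℕ) (C : ℝ), 0 < C ∧
    ∀ s, s₁ ≤ s → ∀ H L : Vec n → Mat m, Nor ρ χ F₀ C₀ s H L → ∀ g : SUGroup n,
      (‖H (act g (base n))‖ ≤ C * ch g ^ (2 * N) ∧ ‖L (act g (base n))‖ ≤ C * ch g ^ (2 * N)) ∧
      (‖(H (act g (base n)))⁻¹‖ ≤ C * ch g ^ (2 * N) ∧
        ‖(L (act g (base n)))⁻¹‖ ≤ C * ch g ^ (2 * N)) := by
  obtain ⟨N, s₁, C, hC, h1⟩ := nor_bound hn hΓ hχ ρ hF₀ C₀
  obtain ⟨N', s₁', C', hC', h2⟩ := nor_bound hn hΓ hχ (dual ρ) (met_inv hF₀) C₀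
  refine ⟨max N N', max s₁ s₁', max C C', lt_max_of_lt_left hC, fun s hs H L h g => ?_⟩
  obtain ⟨a1, a2⟩ := h1 s ((le_max_left _ _).trans hs) H L h g
  obtain ⟨b1, b2⟩ := h2 s ((le_max_right _ _).trans hs) _ _ (h.inv hF₀) g
  have hch := one_le_ch g
  have e1 : C * ch g ^ (2 * N) ≤ max C C' * ch g ^ (2 * max N N') :=
    mul_le_mul (le_max_left _ _) (pow_le_pow_right₀ hch (by have := le_max_left N N'; omega))
      (by positivity) (hC.le.trans (le_max_left _ _))
  have e2 : C' * ch g ^ (2 * N') ≤ max C C' * ch g ^ (2 * max N N') :=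
    mul_le_mul (le_max_right _ _) (pow_le_pow_right₀ hch (by have := le_max_right N N'; omega))
      (by positivity) (hC.le.trans (le_max_left _ _))
  exact ⟨⟨a1.trans e1, a2.trans e1⟩, ⟨b1.trans e2, b2.trans e2⟩⟩

end Pool.Agent.Lib.MP_5d4057_al.HM.DD
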