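import Pool.Agent.Lib.MP_5d4057_al.HM.Lim2A

/-!
Integrals over balls are bounded by integrals over the quotient.
-/

namespace Pool.Agent.Lib.MP_5d4057_al.HM.DD

open Matrix MeasureTheory Filter Topology Pool.Agent.Lib.MP_5d4057_al Pool.Agent.Lib.MP_5d4057_al.Hyb

open scoped ComplexOrder MatrixOrder Matrix.Norms.L2Operator

variable {n m : ℕ} {Γ : Subgroup (SUGroup n)}

/-- PROOF. `K R` is the number of `γ ∈ Γ` with `γ • {ch ≤ R}` meeting the support of `χ` (`finite_meet`):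
`1 = ∑ χ(γ g)`, so `∫_{ch ≤ R} f = ∑_γ ∫_{ch ≤ R} χ(γ g) f(g) = ∑_γ ∫_{γ {ch ≤ R}} χ f ≤ K R * II χ f`. -/
theorem int_le_II (hΓ : Coc Γ) {χ : SUGroup n → ℝ} (hχ : Cut Γ χ) (R : ℝ) : ∃ K : ℝ, 0 < K ∧
    ∀ f : SUGroup n → ℝ, BM f → (∀ g, 0 ≤ f g) → (∀ γ ∈ Γ, ∀ g, f (γ * g) = f g) →
      ∫ g in {g : SUGroup n | ch g ≤ R}, f g ∂(mu n) ≤ K * II χ f := by
  set B : Set (SUGroup n) := {g : SUGroup n | ch g ≤ R} with hB
  have hBm : MeasurableSet B := (isClosed_le continuous_ch continuous_const).measurableSet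
  set T : Finset Γ := (finite_meet hΓ (isCompact_ball R) hχ.supp).toFinset with hT
  refine ⟨T.card + 1, by positivity, fun f hf h0 hinv => ?_⟩
  have hi : Integrable (fun g => χ g * f g) (mu n) := hf.integrable hχ
  have hiγ : ∀ γ : Γ, Integrable (fun g => χ ((γ : SUGroup n) * g) * f ((γ : SUGroup n) * g))
      (mu n) := fun γ => hi.comp_mul_left (γ : SUGroup n)
  have heq : ∀ g ∈ B, f g = ∑ γ ∈ T, χ ((γ : SUGroup n) * g) * f ((γ : SUGroup n) * g) := by
    intro g hg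
    have h1 : ∑' γ : Γ, χ ((γ : SUGroup n) * g) = ∑ γ ∈ T, χ ((γ : SUGroup n) * g) := by
      refine tsum_eq_sum fun γ hγ => ?_
      by_contra hne
      refine hγ ?_
      rw [hT, Set.Finite.mem_toFinset]
      exact ⟨g, hg, subset_tsupport _ hne⟩
    rw [hχ.sum g] at h1
    calc f g = (∑ γ ∈ T, χ ((γ : SUGroup n) * g)) * f g := by rw [← h1, one_mul]
      _ = _ := by
        rw [Finset.sum_mul]
        exact Finset.sum_congr rfl fun γ _ => by rw [hinv γ γ.2 g]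
  have hle : ∀ γ : Γ, ∫ g in B, χ ((γ : SUGroup n) * g) * f ((γ : SUGroup n) * g) ∂(mu n) ≤
      II χ f := by
    intro γ
    refine (setIntegral_le_integral (hiγ γ) (ae_of_all _ fun g =>
      mul_nonneg (hχ.nonneg _) (h0 _))).trans (le_of_eq ?_)
    exact integral_mul_left_eq_self (μ := mu n) (fun g => χ g * f g) (γ : SUGroup n)
  have hII0 : 0 ≤ II χ f := II_nonneg hχ h0
  calc ∫ g in B, f g ∂(mu n)
      = ∫ g in B, ∑ γ ∈ T, χ ((γ : SUGroup n) * g) * f ((γ : SUGroup n) * g) ∂(mu n) :=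
        setIntegral_congr_fun hBm heq
    _ = ∑ γ ∈ T, ∫ g in B, χ ((γ : SUGroup n) * g) * f ((γ : SUGroup n) * g) ∂(mu n) :=
        integral_finsetSum T fun γ _ => (hiγ γ).integrableOn
    _ ≤ ∑ _γ ∈ T, II χ f := Finset.sum_le_sum fun γ _ => hle γ
    _ = T.card * II χ f := by rw [Finset.sum_const, nsmul_eq_mul]
    _ ≤ (T.card + 1) * II χ f := by nlinarith

end Pool.Agent.Lib.MP_5d4057_al.HM.DD
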