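import Pool.Agent.Lib.MP_5d4057_al.HM.Lim2B
import Pool.Agent.Lib.MP_5d4057_al.HM.Lim2C

/-!
The averages `P_t L` approximate `L` in `L¹_loc`, uniformly in the metric `L`; equicontinuity.
-/

namespace Pool.Agent.Lib.MP_5d4057_al.HM.DD

open Matrix MeasureTheory Filter Topology Pool.Agent.Lib.MP_5d4057_al Pool.Agent.Lib.MP_5d4057_al.Hyb

open scoped ComplexOrder MatrixOrder Matrix.Norms.L2Operator

variable {n m : ℕ} {Γ : Subgroup (SUGroup n)}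

/-- The averages approximate `L` in `L¹` of a ball (`lap_l1_of`). -/
theorem lap_l1 (hn : 1 ≤ n) (hΓ : Coc Γ) {χ : SUGroup n → ℝ} (hχ : Cut Γ χ) (ρ : Γ →* Mat m) (N : ℕ)
    (C R : ℝ) : ∃ (t₀ : ℕ) (D : ℝ), ∀ t : ℕ, t₀ ≤ t → ∀ (s : ℕ) (L : Vec n → Mat m), Met ρ L →
      (∀ g : SUGroup n, ‖L (act g (base n))‖ ≤ C * ch g ^ (2 * N)) →
      (∀ x, disp χ L L x ≤ C * (Real.log (wt x) + 1 / Real.sqrt s)) →
      ∫ g in {g : SUGroup n | ch g ≤ R}, ‖P t L (act g (base n)) - L (act g (base n))‖ ∂(mu n) ≤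
        D * (1 / Real.sqrt t + 1 / Real.sqrt s) := by
  have _ := hn
  obtain ⟨K, hK, hII⟩ := int_le_II hΓ hχ R
  exact lap_l1_of hΓ hχ ρ N C R hK hII

end Pool.Agent.Lib.MP_5d4057_al.HM.DD
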