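import Pool.Agent.Lib.MP_5d4057_al.HM.Nor

/-!
Norm of differences of comparable positive matrices; equicontinuity of the averages `P_t L`.
-/

namespace Pool.Agent.Lib.MP_5d4057_al.HM.DD

open Matrix MeasureTheory Filter Topology Pool.Agent.Lib.MP_5d4057_al Pool.Agent.Lib.MP_5d4057_al.Hyb

open scoped ComplexOrder MatrixOrder Matrix.Norms.L2Operator

variable {n m : ℕ} {Γ : Subgroup (SUGroup n)}

private theorem l2a_alg (c : ℝ) : algebraMap ℝ (Mat m) c = (c : ℂ) • (1 : Mat m) := by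
  rw [Algebra.algebraMap_eq_smul_one]
  ext i j
  simp [Matrix.smul_apply]

private theorem l2a_norm_one : ‖(1 : Mat m)‖ ≤ 1 := by
  have h0 : (0 : Mat m) ≤ 1 := (Matrix.PosSemidef.one (n := Fin m)).nonneg
  rw [CStarAlgebra.norm_le_iff_le_algebraMap (1 : Mat m) zero_le_one h0, map_one]

private theorem l2a_le_norm {a : Mat m} (ha : a.PosSemidef) : a ≤ (‖a‖ : ℂ) • (1 : Mat m) := by
  rw [← l2a_alg]
  exact (CStarAlgebra.norm_le_iff_le_algebraMap a (norm_nonneg a) ha.nonneg).1 le_rfl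

private theorem l2a_smul_mono {a b : Mat m} {r : ℝ} (hr : 0 ≤ r) (h : a ≤ b) :
    (r : ℂ) • a ≤ (r : ℂ) • b := smul_le_smul_of_nonneg_left h (Complex.zero_le_real.2 hr)

/-- A Hermitian matrix between `-c` and `c` has norm at most `3 c`. -/
private theorem l2a_norm_le {d : Mat m} {c : ℝ} (hc : 0 ≤ c) (h1 : d ≤ (c : ℂ) • (1 : Mat m))
    (h2 : -d ≤ (c : ℂ) • (1 : Mat m)) : ‖d‖ ≤ 3 * c := by
  have h3 : 0 ≤ d + (c : ℂ) • (1 : Mat m) := by
    have h := add_le_add_right h2 d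
    rwa [add_neg_cancel] at h
  have h4 : d + (c : ℂ) • (1 : Mat m) ≤ algebraMap ℝ (Mat m) (2 * c) := by
    rw [l2a_alg]
    have h := add_le_add_left h1 ((c : ℂ) • (1 : Mat m))
    refine h.trans (le_of_eq ?_)
    rw [← add_smul]
    congr 1
    push_cast
    ring
  have h5 : ‖d + (c : ℂ) • (1 : Mat m)‖ ≤ 2 * c :=
    (CStarAlgebra.norm_le_iff_le_algebraMap _ (by positivity) h3).2 h4
  have h6 : ‖(c : ℂ) • (1 : Mat m)‖ ≤ c := by
    rw [norm_smul, Complex.norm_real, Real.norm_of_nonneg hc]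
    exact mul_le_of_le_one_right hc l2a_norm_one
  have h7 : d = (d + (c : ℂ) • (1 : Mat m)) - (c : ℂ) • (1 : Mat m) := by abel
  calc ‖d‖ = ‖(d + (c : ℂ) • (1 : Mat m)) - (c : ℂ) • (1 : Mat m)‖ := by rw [← h7]
    _ ≤ ‖d + (c : ℂ) • (1 : Mat m)‖ + ‖(c : ℂ) • (1 : Mat m)‖ := norm_sub_le _ _
    _ ≤ 3 * c := by linarith

/-- Two positive matrices which are comparable up to a factor `w` are close. -/
theorem norm_sub_le_of_le {a b : Mat m} (ha : a.PosSemidef) (hb : b.PosSemidef) {w : ℝ}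
    (hw : 1 ≤ w) (h1 : b ≤ (w : ℂ) • a) (h2 : a ≤ (w : ℂ) • b) :
    ‖b - a‖ ≤ 3 * ((w - 1) * (‖a‖ + ‖b‖)) := by
  have hw0 : 0 ≤ w - 1 := sub_nonneg.2 hw
  have key : ∀ x y : Mat m, x.PosSemidef → y ≤ (w : ℂ) • x → ∀ r, ‖x‖ ≤ r →
      y - x ≤ (((w - 1) * r : ℝ) : ℂ) • (1 : Mat m) := by
    intro x y hx hxy r hr
    have h3 : y - x ≤ ((w - 1 : ℝ) : ℂ) • x := by
      have h := sub_le_sub_right hxy x
      refine h.trans (le_of_eq ?_)
      push_cast
      rw [sub_smul, one_smul]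
    have h4 := l2a_smul_mono hw0 (l2a_le_norm hx)
    have h5 : ((‖x‖ : ℝ) : ℂ) • (1 : Mat m) ≤ ((r : ℝ) : ℂ) • (1 : Mat m) := by
      rw [← l2a_alg, ← l2a_alg]
      exact algebraMap_mono (Mat m) hr
    have h6 := l2a_smul_mono hw0 h5
    refine (h3.trans (h4.trans h6)).trans (le_of_eq ?_)
    rw [smul_smul]
    push_cast
    rfl
  refine l2a_norm_le (mul_nonneg hw0 (add_nonneg (norm_nonneg _) (norm_nonneg _))) ?_ ?_
  · exact key a b ha h1 _ (by linarith [norm_nonneg b])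
  · rw [neg_sub]
    exact key b a hb h2 _ (by linarith [norm_nonneg a])

/-- PROOF. `u = dT a b`. `b - a ≤ (e^u - 1) a` and `a - b ≤ (e^u - 1) b`, so `-(e^u-1) (a+b) ≤ b - a ≤
(e^u-1) (a+b)`; for a Hermitian matrix this gives `‖b - a‖ ≤ (e^u - 1) ‖a + b‖`. If `u ≤ 1` then
`e^u - 1 ≤ 2 u`; if `u ≥ 1` then `‖b - a‖ ≤ ‖a‖ + ‖b‖ ≤ u (‖a‖ + ‖b‖)`. -/
theorem norm_sub_le_dT {a b : Mat m} (ha : a.PosDef) (hb : b.PosDef) :
    ‖b - a‖ ≤ 6 * dT a b * (‖a‖ + ‖b‖) := by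
  have h0 := dT_nonneg a b
  have hn : 0 ≤ ‖a‖ + ‖b‖ := add_nonneg (norm_nonneg _) (norm_nonneg _)
  rcases le_or_gt (dT a b) 1 with hu | hu
  · have h1 := norm_sub_le_of_le ha.posSemidef hb.posSemidef (Real.one_le_exp h0)
      (by
        have h := le_exp_dT hb ha
        rwa [dT_comm b a] at h) (le_exp_dT ha hb)
    have h2 : Real.exp (dT a b) - 1 ≤ 2 * dT a b := by
      have h3 := Real.abs_exp_sub_one_le (x := dT a b) (by rwa [abs_of_nonneg h0])
      rw [abs_of_nonneg h0] at h3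
      exact (le_abs_self _).trans h3
    refine h1.trans ?_
    nlinarith [mul_le_mul_of_nonneg_right h2 hn]
  · refine (norm_sub_le b a).trans ?_
    nlinarith [mul_nonneg (sub_nonneg.2 hu.le) hn]

/-- PROOF. `P_harnack` for `x = g⁻¹ y` and for its inverse: `wt x ^ (-2t) P t L g ≤ P t L y ≤ wt x ^ (2t) P t L g`,
`‖P t L g‖ ≤ C' ch g ^ (2N)` uniformly in `L`, and `wt x → 1` as `y → g`. -/
theorem P_equicont (n m N : ℕ) : ∃ t₀ : ℕ, ∀ t : ℕ, t₀ ≤ t → ∀ (C : ℝ) (g : SUGroup n), ∀ ε > 0,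
    ∀ᶠ y in 𝓝 g, ∀ L : Vec n → Mat m, Adm N C L → (∀ h : SUGroup n, (L (act h (base n))).PosSemidef) →
      ‖P t L (act y (base n)) - P t L (act g (base n))‖ ≤ ε := by
  obtain ⟨s1, h1⟩ := P_harnack n m N
  obtain ⟨s2, h2⟩ := P_bound (E := Mat m) n N
  obtain ⟨s3, h3⟩ := P_mono_mat n m N
  refine ⟨s1 + s2 + s3, fun t ht C g ε hε => ?_⟩
  set K : ℝ := 2 * 4 ^ N * C with hK
  let φ : SUGroup n → ℝ := fun y =>
    3 * ((wt (g⁻¹ * y) ^ (2 * t) - 1) * (K * ch g ^ (2 * N) + K * ch y ^ (2 * N)))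
  have hφc : Continuous φ := by
    have hw : Continuous fun y : SUGroup n => wt (g⁻¹ * y) :=
      continuous_wt.comp (continuous_const.mul continuous_id)
    exact continuous_const.mul (((hw.pow _).sub continuous_const).mul
      (continuous_const.add (continuous_const.mul (continuous_ch.pow _))))
  have hφg : φ g = 0 := by
    simp only [φ]
    rw [inv_mul_cancel, wt_one, one_pow, sub_self, zero_mul, mul_zero]
  have hev : ∀ᶠ y in 𝓝 g, φ y < ε := by
    have h := hφc.tendsto g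
    rw [hφg] at h
    exact h.eventually (gt_mem_nhds hε)
  filter_upwards [hev] with y hy L hL hpos
  have hpsd : ∀ x : SUGroup n, (P t L (act x (base n))).PosSemidef := by
    intro x
    have hz : Adm N C (fun _ : Vec n => (0 : Mat m)) := by
      refine ⟨aestronglyMeasurable_const, fun y => ?_⟩
      rw [norm_zero]
      exact (norm_nonneg _).trans (hL.bound y)
    have h := h3 t (by omega) C C _ L hz hL (fun g => (hpos g).nonneg) _ (orbit_mem x)
    have h0 : P t (fun _ : Vec n => (0 : Mat m)) (act x (base n)) = 0 := by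
      rw [P]
      simp
    rw [h0] at h
    exact Matrix.nonneg_iff_posSemidef.1 h
  have hle : ∀ x z : SUGroup n, P t L (act z (base n)) ≤
      ((wt (x⁻¹ * z) ^ (2 * t) : ℝ) : ℂ) • P t L (act x (base n)) := by
    intro x z
    have h := h1 t (by omega) C L hL hpos x (x⁻¹ * z)
    rw [mul_inv_cancel_left] at h
    push_cast
    exact h
  have hw : wt (y⁻¹ * g) = wt (g⁻¹ * y) := by
    rw [← wt_inv, _root_.mul_inv_rev, inv_inv]
  have h5 := hle y g
  rw [hw] at h5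
  have h4 := norm_sub_le_of_le (hpsd g) (hpsd y) (w := wt (g⁻¹ * y) ^ (2 * t))
    (one_le_pow₀ (one_le_wt _)) (hle g y) h5
  have h6 := (h2 t (by omega) C L hL).bound g
  have h7 := (h2 t (by omega) C L hL).bound y
  refine h4.trans (le_trans ?_ hy.le)
  simp only [φ]
  have h8 : 0 ≤ wt (g⁻¹ * y) ^ (2 * t) - 1 := sub_nonneg.2 (one_le_pow₀ (one_le_wt _))
  exact mul_le_mul_of_nonneg_left (mul_le_mul_of_nonneg_left (add_le_add h6 h7) h8) (by norm_num)

end Pool.Agent.Lib.MP_5d4057_al.HM.DD
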