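import Pool.Agent.Lib.MP_5d4057_al.HM.Nor

/-!
Lemmas for the limit of a sequence of metrics.
-/

namespace Pool.Agent.Lib.MP_5d4057_al.HM.DD

open Matrix MeasureTheory Filter Topology Pool.Agent.Lib.MP_5d4057_al Pool.Agent.Lib.MP_5d4057_al.Hyb

open scoped ComplexOrder MatrixOrder Matrix.Norms.L2Operator

variable {n m : ℕ} {Γ : Subgroup (SUGroup n)}

theorem ae_tendsto_zero {X : Type} [MeasurableSpace X] {μ : Measure X} (B : ℕ → Set X)
    (hBm : ∀ k, MeasurableSet (B k)) (hBu : ∀ x, ∃ k, x ∈ B k) (f : ℕ → X → ℝ)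
    (hf : ∀ j, Measurable (f j)) (h0 : ∀ j x, 0 ≤ f j x) (hi : ∀ k j, IntegrableOn (f j) (B k) μ)
    (a : ℕ → ℝ) (ha : Summable a) (K : ℕ → ℝ) (hK : ∀ k j, ∫ x in B k, f j x ∂μ ≤ K k * a j) :
    ∀ᵐ x ∂μ, Tendsto (fun j => f j x) atTop (𝓝 0) := by
  have key : ∀ k, ∀ᵐ x ∂(μ.restrict (B k)), Tendsto (fun j => f j x) atTop (𝓝 0) := by
    intro k
    have h1 : ∫⁻ x in B k, ∑' j, ENNReal.ofReal (f j x) ∂μ ≠ ⊤ := by
      rw [lintegral_tsum fun j => (hf j).ennreal_ofReal.aemeasurable]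
      have h2 : ∀ j, ∫⁻ x in B k, ENNReal.ofReal (f j x) ∂μ =
          ENNReal.ofReal (∫ x in B k, f j x ∂μ) := fun j =>
        (ofReal_integral_eq_lintegral_ofReal (hi k j) (ae_of_all _ (h0 j))).symm
      simp only [h2]
      have h3 : Summable fun j => ∫ x in B k, f j x ∂μ := by
        refine Summable.of_nonneg_of_le (fun j => integral_nonneg (h0 j)) (hK k) (ha.mul_left _)
      rw [← ENNReal.ofReal_tsum_of_nonneg (fun j => integral_nonneg (h0 j)) h3]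
      exact ENNReal.ofReal_ne_top
    have h4 := ae_lt_top' (AEMeasurable.ennreal_tsum fun j => (hf j).ennreal_ofReal.aemeasurable) h1
    filter_upwards [h4] with x hx
    have h5 := ENNReal.tendsto_atTop_zero_of_tsum_ne_top hx.ne
    have h6 := (ENNReal.tendsto_toReal ENNReal.zero_ne_top).comp h5
    simp only [Function.comp_def, ENNReal.toReal_zero] at h6
    refine h6.congr fun j => ENNReal.toReal_ofReal (h0 j x)
  have h7 : ∀ᵐ x ∂μ, ∀ k, x ∈ B k → Tendsto (fun j => f j x) atTop (𝓝 0) := by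
    rw [ae_all_iff]
    intro k
    exact (ae_restrict_iff' (hBm k)).1 (key k)
  filter_upwards [h7] with x hx
  obtain ⟨k, hk⟩ := hBu x
  exact hx k hk

theorem ofReal_smul_le {A B : Mat m} {c : ℝ} (hc : 0 ≤ c) (h : A ≤ B) :
    (c : ℂ) • A ≤ (c : ℂ) • B := by
  have h3 : (0 : ℂ) ≤ ((c : ℝ) : ℂ) := Complex.zero_le_real.2 hc
  exact smul_le_smul_of_nonneg_left h h3

theorem le_norm_smul_one {A : Mat m} (hA : A.IsHermitian) : A ≤ (‖A‖ : ℂ) • (1 : Mat m) := by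
  have h1 : IsSelfAdjoint A := hA
  have h := IsSelfAdjoint.le_algebraMap_norm_self (a := A) h1
  rw [Algebra.algebraMap_eq_smul_one] at h
  have h2 : (‖A‖ : ℂ) • (1 : Mat m) = ‖A‖ • (1 : Mat m) := Complex.coe_smul _ _
  rw [h2]
  exact h

theorem smul_le_smul_right_mat {A : Mat m} (hA : A.PosSemidef) {c d : ℝ} (h : c ≤ d) :
    (c : ℂ) • A ≤ (d : ℂ) • A := by
  rw [Matrix.le_iff, ← sub_smul, ← Complex.ofReal_sub]
  exact hA.smul (Complex.zero_le_real.2 (sub_nonneg.2 h))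

/-- `A ≥ c` if `‖A⁻¹‖ ≤ c⁻¹`. -/
theorem smul_one_le {A : Mat m} (hA : A.PosDef) {K : ℝ} (hK : 0 < K) (h : ‖A⁻¹‖ ≤ K) :
    ((K⁻¹ : ℝ) : ℂ) • (1 : Mat m) ≤ A := by
  have h1 : A⁻¹ ≤ (K : ℂ) • (1 : Mat m) :=
    (le_norm_smul_one hA.inv.isHermitian).trans (smul_le_smul_right_mat PosSemidef.one h)
  have h2 := inv_le_inv_of_le hA.inv h1
  rwa [inv_smul_mat hK, inv_one, Matrix.nonsing_inv_nonsing_inv _
    ((Matrix.isUnit_iff_isUnit_det _).1 hA.isUnit)] at h2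

theorem continuousAt_inv_mat {A : Mat m} (hA : A.PosDef) : ContinuousAt (fun x : Mat m => x⁻¹) A := by
  simp only [Matrix.nonsing_inv_eq_ringInverse]
  exact NormedRing.inverse_continuousAt hA.isUnit.unit

theorem posDef_of_smul_one_le {A : Mat m} {c : ℝ} (hc : 0 < c)
    (h : (c : ℂ) • (1 : Mat m) ≤ A) : A.PosDef := by
  have h1 : (A - (c : ℂ) • (1 : Mat m)).PosSemidef := Matrix.le_iff.1 h
  have h2 : ((c : ℂ) • (1 : Mat m)).PosDef := PosDef.one.smul (Complex.zero_lt_real.2 hc)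
  have h3 := h2.add_posSemidef h1
  rwa [add_sub_cancel] at h3

theorem posDef_of_tendsto {a : ℕ → Mat m} (ha : ∀ j, (a j).PosDef) {K : ℝ}
    (hK : ∀ j, ‖(a j)⁻¹‖ ≤ K) {b : Mat m} (h : Tendsto a atTop (𝓝 b)) : b.PosDef := by
  have hK0 : 0 ≤ K := (norm_nonneg _).trans (hK 0)
  have h1 : ∀ j, (((K + 1)⁻¹ : ℝ) : ℂ) • (1 : Mat m) ≤ a j := fun j =>
    smul_one_le (ha j) (by linarith) ((hK j).trans (by linarith))
  have h2 : (((K + 1)⁻¹ : ℝ) : ℂ) • (1 : Mat m) ≤ b :=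
    ge_of_tendsto' h h1
  exact posDef_of_smul_one_le (by positivity) h2

theorem dT_le_norm {a b : Mat m} (ha : a.PosDef) (hb : b.PosDef) :
    dT a b ≤ ‖a‖ * ‖b⁻¹‖ + ‖b‖ * ‖a⁻¹‖ := by
  have key : ∀ a b : Mat m, a.PosDef → b.PosDef → a ≤ ((‖a‖ * ‖b⁻¹‖ : ℝ) : ℂ) • b := by
    intro a b ha hb
    have h1 := le_norm_smul_one ha.isHermitian
    rcases eq_or_lt_of_le (norm_nonneg b⁻¹) with h0 | h0
    · have h2 : b⁻¹ = 0 := norm_eq_zero.1 h0.symm
      have h3 : (1 : Mat m) = 0 := by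
        rw [← Matrix.mul_nonsing_inv b ((Matrix.isUnit_iff_isUnit_det _).1 hb.isUnit), h2, mul_zero]
      have h4 : ∀ x : Mat m, x = 0 := fun x => by rw [← one_mul x, h3, zero_mul]
      rw [h4 a, h4 b, smul_zero]
    · have h2 := smul_one_le hb h0 le_rfl
      have h3 := ofReal_smul_le (c := ‖a‖ * ‖b⁻¹‖) (by positivity) h2
      rw [smul_smul, ← Complex.ofReal_mul, mul_assoc, mul_inv_cancel₀ h0.ne', mul_one] at h3
      exact h1.trans h3
  have hp1 : 0 ≤ ‖a‖ * ‖b⁻¹‖ := by positivity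
  have hp2 : 0 ≤ ‖b‖ * ‖a⁻¹‖ := by positivity
  have he := Real.add_one_le_exp (‖a‖ * ‖b⁻¹‖ + ‖b‖ * ‖a⁻¹‖)
  refine dT_le (by positivity) ?_ ?_
  · exact (key a b ha hb).trans (smul_le_smul_right_mat hb.posSemidef (by linarith))
  · exact (key b a hb ha).trans (smul_le_smul_right_mat ha.posSemidef (by linarith))

/-- The limit of a sequence of metrics with uniform bounds converging almost everywhere. -/
theorem exists_limit_fun {ρ : Γ →* Mat m} {L : ℕ → Vec n → Mat m} (hL : ∀ j, Met ρ (L j)) {N : ℕ}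
    {C : ℝ} (hb : ∀ j (g : SUGroup n), ‖L j (act g (base n))‖ ≤ C * ch g ^ (2 * N))
    (hbi : ∀ j (g : SUGroup n), ‖(L j (act g (base n)))⁻¹‖ ≤ C * ch g ^ (2 * N))
    (hc : ∀ᵐ g ∂(mu n), ∃ a, Tendsto (fun j => L j (act g (base n))) atTop (𝓝 a)) :
    ∃ F : Vec n → Mat m, Homog F ∧ Equi ρ F ∧ (∀ v ∈ Cone n, (F v).PosDef) ∧
      (∀ g : SUGroup n, ‖F (act g (base n))‖ ≤ C * ch g ^ (2 * N)) ∧
      (∀ g : SUGroup n, ‖(F (act g (base n)))⁻¹‖ ≤ C * ch g ^ (2 * N)) ∧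
      ∀ᵐ g ∂(mu n), Tendsto (fun j => L j (act g (base n))) atTop (𝓝 (F (act g (base n)))) := by
  classical
  have hconv : ∀ v ∈ Cone n, ∀ a, Tendsto (fun j => L j v) atTop (𝓝 a) → a.PosDef := by
    intro v hv a ha
    obtain ⟨g, c, hc, rfl⟩ := exists_act_eq hv
    have h1 : (fun j => L j (c • act g (base n))) = fun j => L j (act g (base n)) := by
      funext j
      exact (hL j).hom c hc _ (orbit_mem g)
    rw [h1] at ha
    exact posDef_of_tendsto (fun j => (hL j).pos _ (orbit_mem g)) (fun j => hbi j g) ha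
  set F : Vec n → Mat m := fun v =>
    if ∃ a, Tendsto (fun j => L j v) atTop (𝓝 a) then limUnder atTop (fun j => L j v) else L 0 v with hF
  have hF1 : ∀ v a, Tendsto (fun j => L j v) atTop (𝓝 a) → F v = a := by
    intro v a h
    rw [hF]
    beta_reduce
    rw [if_pos ⟨a, h⟩]
    exact h.limUnder_eq
  have hF2 : ∀ v, (¬ ∃ a, Tendsto (fun j => L j v) atTop (𝓝 a)) → F v = L 0 v := by
    intro v h
    rw [hF]
    beta_reduce
    rw [if_neg h]
  refine ⟨F, ?_, ?_, ?_, ?_, ?_, ?_⟩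
  · intro c hc v hv
    have h1 : (fun j => L j (c • v)) = fun j => L j v := by
      funext j
      exact (hL j).hom c hc v hv
    rw [hF]
    beta_reduce
    rw [h1, (hL 0).hom c hc v hv]
  · intro γ v hv
    have h1 : ∀ a, Tendsto (fun j => L j v) atTop (𝓝 a) →
        Tendsto (fun j => L j (act (γ : SUGroup n) v)) atTop (𝓝 (ρ γ * a * (ρ γ)ᴴ)) := by
      intro a ha
      have h2 := (ha.const_mul (ρ γ)).mul_const (ρ γ)ᴴ
      refine h2.congr fun j => ?_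
      rw [(hL j).equi γ v hv]
    by_cases h : ∃ a, Tendsto (fun j => L j v) atTop (𝓝 a)
    · obtain ⟨a, ha⟩ := h
      rw [hF1 _ _ (h1 a ha), hF1 _ _ ha]
    · have h3 : ¬ ∃ a, Tendsto (fun j => L j (act (γ : SUGroup n) v)) atTop (𝓝 a) := by
        rintro ⟨a, ha⟩
        apply h
        have h2 := (ha.const_mul (ρ γ⁻¹)).mul_const (ρ γ⁻¹)ᴴ
        refine ⟨_, h2.congr fun j => ?_⟩
        rw [(hL j).equi γ v hv]
        have e1 : ρ γ⁻¹ * ρ γ = 1 := by rw [← map_mul, inv_mul_cancel, map_one]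
        have e2 : (ρ γ)ᴴ * (ρ γ⁻¹)ᴴ = 1 := by rw [← conjTranspose_mul, e1, conjTranspose_one]
        calc ρ γ⁻¹ * (ρ γ * L j v * (ρ γ)ᴴ) * (ρ γ⁻¹)ᴴ
            = (ρ γ⁻¹ * ρ γ) * L j v * ((ρ γ)ᴴ * (ρ γ⁻¹)ᴴ) := by simp only [mul_assoc]
          _ = L j v := by rw [e1, e2, one_mul, mul_one]
      rw [hF2 _ h3, hF2 _ h, (hL 0).equi γ v hv]
  · intro v hv
    by_cases h : ∃ a, Tendsto (fun j => L j v) atTop (𝓝 a)
    · obtain ⟨a, ha⟩ := h
      rw [hF1 _ _ ha]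
      exact hconv v hv a ha
    · rw [hF2 _ h]
      exact (hL 0).pos v hv
  · intro g
    by_cases h : ∃ a, Tendsto (fun j => L j (act g (base n))) atTop (𝓝 a)
    · obtain ⟨a, ha⟩ := h
      rw [hF1 _ _ ha]
      exact le_of_tendsto' ha.norm fun j => hb j g
    · rw [hF2 _ h]
      exact hb 0 g
  · intro g
    by_cases h : ∃ a, Tendsto (fun j => L j (act g (base n))) atTop (𝓝 a)
    · obtain ⟨a, ha⟩ := h
      rw [hF1 _ _ ha]
      have h2 := hconv _ (orbit_mem g) a ha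
      have h3 := ((continuousAt_inv_mat h2).tendsto.comp ha).norm
      exact le_of_tendsto' h3 fun j => hbi j g
    · rw [hF2 _ h]
      exact hbi 0 g
  · filter_upwards [hc] with g hg
    obtain ⟨a, ha⟩ := hg
    rw [hF1 _ _ ha]
    exact ha

end Pool.Agent.Lib.MP_5d4057_al.HM.DD
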