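import Pool.Agent.Lib.MP_5d4057_al.HM.Nor

/-!
The approximating sequences `(H_j + L_j) / 2`.
-/

namespace Pool.Agent.Lib.MP_5d4057_al.HM.DD

open Matrix MeasureTheory Filter Topology Pool.Agent.Lib.MP_5d4057_al Pool.Agent.Lib.MP_5d4057_al.Hyb

open scoped ComplexOrder MatrixOrder Matrix.Norms.L2Operator

variable {n m : ℕ} {Γ : Subgroup (SUGroup n)}

private theorem la_half : (0 : ℂ) < 1 / 2 := by simp

private theorem la_pos {a b : Mat m} (ha : a.PosDef) (hb : b.PosDef) :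
    ((1 / 2 : ℂ) • (a + b)).PosDef := (ha.add hb).smul la_half

private theorem la_inv {a b : Mat m} (ha : a.PosDef) (hb : b.PosDef) :
    ‖((1 / 2 : ℂ) • (a + b))⁻¹‖ ≤ 2 * ‖b⁻¹‖ := by
  have h1 : ((1 / 2 : ℝ) : ℂ) • b ≤ (1 / 2 : ℂ) • (a + b) := by
    have h2 : (1 / 2 : ℂ) • b ≤ (1 / 2 : ℂ) • (a + b) :=
      smul_le_smul_of_nonneg_left (le_add_of_nonneg_left ha.posSemidef.nonneg) la_half.le
    refine le_trans (le_of_eq ?_) h2
    congr 1
    push_cast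
    rfl
  have hb2 : (((1 / 2 : ℝ) : ℂ) • b).PosDef :=
    hb.smul (Complex.real_lt_real.2 (by norm_num : (0 : ℝ) < 1 / 2))
  have h3 := inv_le_inv_of_le hb2 h1
  have h4 := CStarAlgebra.norm_le_norm_of_nonneg_of_le (la_pos ha hb).inv.posSemidef.nonneg h3
  refine h4.trans (le_of_eq ?_)
  rw [inv_smul_mat (by norm_num : (0 : ℝ) < 1 / 2), norm_smul, Complex.norm_real]
  norm_num

/-- PROOF. `pair_mean`; `M = (H + L) / 2 ≥ L / 2` gives `M⁻¹ ≤ 2 L⁻¹` (`inv_le_inv_of_le`), so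
`‖M⁻¹‖ ≤ 2 ‖L⁻¹‖`. -/
theorem approx_of (hn : 1 ≤ n) (hΓ : Coc Γ) (ρ : Γ →* Mat m) : ∃ s₁ : ℕ, ∀ (N : ℕ) (C : ℝ) (s : ℕ → ℕ)
    (H L : ℕ → Vec n → Mat m) (F : Vec n → Mat m), Tendsto s atTop atTop → (∀ j, s₁ ≤ s j) →
      (∀ j, Pair ρ (s j) (H j) (L j)) →
      (∀ j (g : SUGroup n), ‖H j (act g (base n))‖ ≤ C * ch g ^ (2 * N)) →
      (∀ j (g : SUGroup n), ‖L j (act g (base n))‖ ≤ C * ch g ^ (2 * N)) →
      (∀ j (g : SUGroup n), ‖(L j (act g (base n)))⁻¹‖ ≤ C * ch g ^ (2 * N)) →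
      (∀ᵐ g ∂(mu n), Tendsto (fun j => H j (act g (base n))) atTop (𝓝 (F (act g (base n))))) →
      (∀ᵐ g ∂(mu n), Tendsto (fun j => L j (act g (base n))) atTop (𝓝 (F (act g (base n))))) →
      Approx N (2 * C) s (fun j v => (1 / 2 : ℂ) • (H j v + L j v)) F := by
  obtain ⟨s₁, hs₁⟩ := pair_mean hn hΓ ρ
  refine ⟨s₁, fun N C s H L F hs hge hP hH hL hLi hlH hlL => ⟨hs, ?_, ?_, ?_, ?_, ?_, ?_, ?_⟩⟩
  · intro j c hc v hv
    show (1 / 2 : ℂ) • (H j (c • v) + L j (c • v)) = _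
    rw [(hP j).metH.hom c hc v hv, (hP j).metL.hom c hc v hv]
  · intro j
    exact ((hP j).metH.cont.add (hP j).metL.cont).const_smul (1 / 2 : ℂ)
  · intro j v hv
    exact la_pos ((hP j).metH.pos v hv) ((hP j).metL.pos v hv)
  · intro j g
    have h1 := hH j g
    have h2 := hL j g
    have h3 : ‖(1 / 2 : ℂ) • (H j (act g (base n)) + L j (act g (base n)))‖ ≤
        (1 / 2) * (‖H j (act g (base n))‖ + ‖L j (act g (base n))‖) := by
      rw [norm_smul]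
      have h4 : ‖(1 / 2 : ℂ)‖ = 1 / 2 := by norm_num
      rw [h4]
      exact mul_le_mul_of_nonneg_left (norm_add_le _ _) (by norm_num)
    have h5 : 0 ≤ C * ch g ^ (2 * N) := (norm_nonneg _).trans h1
    linarith
  · intro j g
    refine (la_inv ((hP j).metH.pos _ (orbit_mem g)) ((hP j).metL.pos _ (orbit_mem g))).trans ?_
    have := hLi j g
    linarith
  · intro j v hv
    exact hs₁ (s j) (hge j) (H j) (L j) (hP j) v hv
  · filter_upwards [hlH, hlL] with g h1 h2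
    have h3 := (h1.add h2).const_smul (1 / 2 : ℂ)
    have h4 : (1 / 2 : ℂ) • (F (act g (base n)) + F (act g (base n))) = F (act g (base n)) := by
      rw [← two_smul ℂ, smul_smul]
      norm_num
    rwa [h4] at h3

end Pool.Agent.Lib.MP_5d4057_al.HM.DD
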