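import Pool.Agent.Lib.MP_5d4057_al.HM.LimA

/-!
The displacement of the limit metric.
-/

namespace Pool.Agent.Lib.MP_5d4057_al.HM.DD

open Matrix MeasureTheory Filter Topology Pool.Agent.Lib.MP_5d4057_al Pool.Agent.Lib.MP_5d4057_al.Hyb

open scoped ComplexOrder MatrixOrder Matrix.Norms.L2Operator

variable {n m : ℕ} {Γ : Subgroup (SUGroup n)}

theorem tendsto_dT {a b : ℕ → Mat m} {x y : Mat m} (ha : ∀ j, (a j).PosDef) (hb : ∀ j, (b j).PosDef)
    (hx : x.PosDef) (hy : y.PosDef) (h1 : Tendsto a atTop (𝓝 x)) (h2 : Tendsto b atTop (𝓝 y)) :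
    Tendsto (fun j => dT (a j) (b j)) atTop (𝓝 (dT x y)) := by
  have h : Tendsto (fun p : Mat m × Mat m => dT p.1 p.2)
      (𝓝[{p | p.1.PosDef ∧ p.2.PosDef}] (x, y)) (𝓝 (dT x y)) :=
    continuousOn_dT (m := m) (x, y) ⟨hx, hy⟩
  have h3 : Tendsto (fun j => (a j, b j)) atTop (𝓝[{p | p.1.PosDef ∧ p.2.PosDef}] (x, y)) := by
    rw [tendsto_nhdsWithin_iff]
    exact ⟨h1.prodMk_nhds h2, Eventually.of_forall fun j => ⟨ha j, hb j⟩⟩
  have h4 := Tendsto.comp h h3
  simp only [Function.comp_def] at h4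
  exact h4

theorem dist_limit {χ : SUGroup n → ℝ} (hχ : Cut Γ χ) {ρ : Γ →* Mat m}
    {L : ℕ → Vec n → Mat m} (hL : ∀ j, Met ρ (L j)) {N : ℕ} {C : ℝ} (hC : 0 ≤ C)
    (hb : ∀ j (g : SUGroup n), ‖L j (act g (base n))‖ ≤ C * ch g ^ (2 * N))
    (hbi : ∀ j (g : SUGroup n), ‖(L j (act g (base n)))⁻¹‖ ≤ C * ch g ^ (2 * N))
    {F : Vec n → Mat m} (hF : ∀ v ∈ Cone n, (F v).PosDef)
    (hlim : ∀ᵐ g ∂(mu n), Tendsto (fun j => L j (act g (base n))) atTop (𝓝 (F (act g (base n)))))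
    {C₀ : ℝ} {e : ℕ → ℝ} (he : Tendsto e atTop (𝓝 0)) (x : SUGroup n)
    (hd : ∀ j, disp χ (L j) (L j) x ≤ C₀ * (Real.log (wt x) + e j)) :
    II χ (fun g => dT (F (act g (base n))) (F (act (g * x) (base n))) ^ 2) ≤
      (C₀ * Real.log (wt x)) ^ 2 := by
  have hx : Continuous fun g : SUGroup n => g * x := continuous_mul_const x
  have key : ∀ᵐ g ∂(mu n), Tendsto (fun j => χ g • dd (L j) (L j) x g ^ 2) atTop
      (𝓝 (χ g • dT (F (act g (base n))) (F (act (g * x) (base n))) ^ 2)) := by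
    have h2 := (measurePreserving_mul_right (mu n) x).quasiMeasurePreserving.ae
      (p := fun g => Tendsto (fun j => L j (act g (base n))) atTop (𝓝 (F (act g (base n))))) hlim
    filter_upwards [hlim, h2] with g hg hgx
    have h3 := tendsto_dT (fun j => met_pos (hL j) g) (fun j => met_pos (hL j) (g * x))
      (hF _ (orbit_mem g)) (hF _ (orbit_mem (g * x))) hg hgx
    exact (h3.pow 2).const_smul (χ g)
  have key2 : ∀ j g, ‖χ g • dd (L j) (L j) x g ^ 2‖ ≤
      χ g * (2 * (C * ch g ^ (2 * N)) * (C * ch (g * x) ^ (2 * N))) ^ 2 := by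
    intro j g
    have e1 : dd (L j) (L j) x g ≤ 2 * (C * ch g ^ (2 * N)) * (C * ch (g * x) ^ (2 * N)) := by
      have hch := one_le_ch g
      have hchx := one_le_ch (g * x)
      have h2 := dT_le_norm (met_pos (hL j) g) (met_pos (hL j) (g * x))
      have h3 := mul_le_mul (hb j g) (hbi j (g * x)) (norm_nonneg _) (by positivity)
      have h4 := mul_le_mul (hb j (g * x)) (hbi j g) (norm_nonneg _) (by positivity)
      rw [dd]
      refine h2.trans ((add_le_add h3 h4).trans (le_of_eq ?_))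
      ring
    rw [norm_smul, Real.norm_of_nonneg (hχ.nonneg g), Real.norm_of_nonneg (sq_nonneg _)]
    exact mul_le_mul_of_nonneg_left (pow_le_pow_left₀ (dd_nonneg _ _ _ _) e1 2) (hχ.nonneg g)
  have key3 : Integrable (fun g => χ g * (2 * (C * ch g ^ (2 * N)) *
      (C * ch (g * x) ^ (2 * N))) ^ 2) (mu n) := by
    have c1 : Continuous fun g : SUGroup n => ch (g * x) := continuous_ch.comp hx
    have c2 := hχ.cont
    have c3 := continuous_ch (n := n)
    have c4 : Continuous fun g : SUGroup n => (2 * (C * ch g ^ (2 * N)) *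
      (C * ch (g * x) ^ (2 * N))) ^ 2 :=
      ((continuous_const.mul (continuous_const.mul (c3.pow _))).mul
        (continuous_const.mul (c1.pow _))).pow 2
    exact (c2.mul c4).integrable_of_hasCompactSupport hχ.supp.mul_right
  have key4 : ∀ j, AEStronglyMeasurable (fun g => χ g • dd (L j) (L j) x g ^ 2) (mu n) := fun j =>
    (hχ.cont.smul ((continuous_dd_right (hL j) (hL j) x).pow 2)).aestronglyMeasurable
  have h1 : Tendsto (fun j => II χ fun g => dd (L j) (L j) x g ^ 2) atTop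
      (𝓝 (II χ (fun g => dT (F (act g (base n))) (F (act (g * x) (base n))) ^ 2))) :=
    tendsto_integral_of_dominated_convergence _ key4 key3 (fun j => ae_of_all _ (key2 j)) key
  have h2 : ∀ j, II χ (fun g => dd (L j) (L j) x g ^ 2) ≤ (C₀ * (Real.log (wt x) + e j)) ^ 2 := by
    intro j
    rw [← nm_sq hχ]
    exact pow_le_pow_left₀ (disp_nonneg _ _ _ _) (hd j) 2
  have h3 : Tendsto (fun j => (C₀ * (Real.log (wt x) + e j)) ^ 2) atTop
      (𝓝 ((C₀ * (Real.log (wt x) + 0)) ^ 2)) :=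
    ((he.const_add _).const_mul _).pow 2
  rw [add_zero] at h3
  exact le_of_tendsto_of_tendsto' h1 h3 h2

end Pool.Agent.Lib.MP_5d4057_al.HM.DD
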