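import Mathlib

/-!
Compactness in `L¹_loc` in the abstract form needed for the limit metric.
-/

set_option autoImplicit false

namespace Pool.Agent.Lib.MP_5d4057_al.HM.DD

open MeasureTheory Filter Topology

/-- pointwise convergence of a subsequence of countably many pointwise bounded equicontinuous families -/
private theorem ls_diag {X E : Type} [TopologicalSpace X] [SecondCountableTopology X]
    [NormedAddCommGroup E] [NormedSpace ℝ E]
    [FiniteDimensional ℝ E] (S : ℕ → ℕ → X → E)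
    (hSb : ∀ t x, ∃ C : ℝ, ∀ j, ‖S t j x‖ ≤ C)
    (hSe : ∀ t x, ∀ ε > 0, ∀ᶠ y in 𝓝 x, ∀ j, ‖S t j y - S t j x‖ ≤ ε) :
    ∃ (φ : ℕ → ℕ) (s : ℕ → X → E), StrictMono φ ∧
      ∀ t x, Tendsto (fun j => S t (φ j) x) atTop (𝓝 (s t x)) := by
  classical
  have : ProperSpace E := FiniteDimensional.proper ℝ E
  obtain ⟨D, hDc, hDd⟩ := TopologicalSpace.exists_countable_dense X
  have : Countable D := hDc.to_subtype
  choose C hC using hSb
  have hK : IsCompact (Set.pi Set.univ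
      (fun d : ℕ × D => Metric.closedBall (0 : E) (C d.1 d.2.1))) :=
    isCompact_univ_pi (fun d => isCompact_closedBall _ _)
  have hmem : ∀ j, (fun d : ℕ × D => S d.1 j d.2.1) ∈
      Set.pi Set.univ (fun d : ℕ × D => Metric.closedBall (0 : E) (C d.1 d.2.1)) := by
    intro j d _
    simpa [mem_closedBall_zero_iff] using hC d.1 d.2.1 j
  obtain ⟨g, _, φ, hφ, hlim⟩ := hK.tendsto_subseq hmem
  have hlim' : ∀ t, ∀ d : D, Tendsto (fun j => S t (φ j) d.1) atTop (𝓝 (g (t, d))) := by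
    intro t d
    exact (tendsto_pi_nhds.1 hlim) (t, d)
  have hcau : ∀ t x, CauchySeq (fun j => S t (φ j) x) := by
    intro t x
    rw [Metric.cauchySeq_iff]
    intro ε hε
    obtain ⟨d, hdU, hdD⟩ := hDd.inter_nhds_nonempty (hSe t x (ε / 4) (by positivity))
    have hd1 : ∀ j, ‖S t j d - S t j x‖ ≤ ε / 4 := hdD
    have hc := (hlim' t ⟨d, hdU⟩).cauchySeq
    rw [Metric.cauchySeq_iff] at hc
    obtain ⟨N, hN⟩ := hc (ε / 4) (by positivity)
    refine ⟨N, fun m hm n hn => ?_⟩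
    have h1 := hN m hm n hn
    rw [dist_eq_norm] at h1 ⊢
    have h2 := hd1 (φ m)
    have h3 := hd1 (φ n)
    have h4 : S t (φ m) x - S t (φ n) x = -(S t (φ m) d - S t (φ m) x)
        + (S t (φ m) d - S t (φ n) d) + (S t (φ n) d - S t (φ n) x) := by abel
    rw [h4]
    calc _ ≤ ‖-(S t (φ m) d - S t (φ m) x)‖ + ‖S t (φ m) d - S t (φ n) d‖
          + ‖S t (φ n) d - S t (φ n) x‖ := norm_add₃_le
      _ < ε := by rw [norm_neg]; linarith
  choose s hs using fun t x => cauchySeq_tendsto_of_complete (hcau t x)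
  exact ⟨φ, s, hφ, hs⟩

private theorem ls_int {X E : Type} [MeasurableSpace X] {ν : Measure X} [NormedAddCommGroup E]
    [IsFiniteMeasure ν] {f : X → E} (hf : AEStronglyMeasurable f ν) {C : ℝ}
    (hb : ∀ᵐ x ∂ν, ‖f x‖ ≤ C) : Integrable f ν :=
  Integrable.of_bound hf C hb

private theorem ls_add4 {X : Type} [MeasurableSpace X] {ν : Measure X} {f g h k : X → ℝ}
    (hf : Integrable f ν) (hg : Integrable g ν) (hh : Integrable h ν) (hk : Integrable k ν) :
    ∫ x, (f x + g x + h x + k x) ∂ν = ∫ x, f x ∂ν + ∫ x, g x ∂ν + ∫ x, h x ∂ν + ∫ x, k x ∂ν := by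
  rw [integral_add (f := fun x => f x + g x + h x) (g := k) ((hf.add hg).add hh) hk,
    integral_add (f := fun x => f x + g x) (g := h) (hf.add hg) hh, integral_add hf hg]

private theorem ls_tri {X E : Type} [MeasurableSpace X] {ν : Measure X} [NormedAddCommGroup E]
    {a b c d e : X → E} (h1 : Integrable (fun x => ‖b x - a x‖) ν)
    (h2 : Integrable (fun x => ‖b x - c x‖) ν) (h3 : Integrable (fun x => ‖d x - c x‖) ν)
    (h4 : Integrable (fun x => ‖d x - e x‖) ν) (h5 : Integrable (fun x => ‖a x - e x‖) ν) :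
    ∫ x, ‖a x - e x‖ ∂ν ≤ ∫ x, ‖b x - a x‖ ∂ν + ∫ x, ‖b x - c x‖ ∂ν + ∫ x, ‖d x - c x‖ ∂ν
      + ∫ x, ‖d x - e x‖ ∂ν := by
  rw [← ls_add4 h1 h2 h3 h4]
  refine integral_mono h5 (((h1.add h2).add h3).add h4) fun x => ?_
  have hx : a x - e x = -(b x - a x) + (b x - c x) + -(d x - c x) + (d x - e x) := by abel
  calc ‖a x - e x‖ = ‖-(b x - a x) + (b x - c x) + -(d x - c x) + (d x - e x)‖ := by rw [← hx]
    _ ≤ ‖-(b x - a x) + (b x - c x) + -(d x - c x)‖ + ‖d x - e x‖ := norm_add_le _ _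
    _ ≤ (‖-(b x - a x)‖ + ‖b x - c x‖ + ‖-(d x - c x)‖) + ‖d x - e x‖ := by
        gcongr
        exact norm_add₃_le
    _ = _ := by rw [norm_neg, norm_neg]

/-- a sequence whose successive differences are summable in `L¹` over an exhaustion converges almost
everywhere -/
private theorem ls_ae {X E : Type} [MeasurableSpace X] {μ : Measure X} [NormedAddCommGroup E]
    [CompleteSpace E] (B : ℕ → Set X) (hBm : ∀ k, MeasurableSet (B k)) (hBmono : Monotone B)
    (hBu : ∀ x, ∃ k, x ∈ B k) (F : ℕ → X → E) (hF : ∀ k, AEStronglyMeasurable (F k) μ)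
    (hi : ∀ k, IntegrableOn (fun x => F (k + 1) x - F k x) (B k) μ)
    (hb : ∀ k, ∫ x in B k, ‖F (k + 1) x - F k x‖ ∂μ ≤ (1 / 2 : ℝ) ^ k) :
    ∀ᵐ x ∂μ, ∃ a, Tendsto (fun k => F k x) atTop (𝓝 a) := by
  have h1 : ∀ k, ∫⁻ x in B k, ‖F (k + 1) x - F k x‖ₑ ∂μ ≤ ENNReal.ofReal ((1 / 2 : ℝ) ^ k) := by
    intro k
    rw [← ofReal_integral_norm_eq_lintegral_enorm (hi k)]
    exact ENNReal.ofReal_le_ofReal (hb k)
  have hm : ∀ k, AEMeasurable ((B k).indicator (fun x => ‖F (k + 1) x - F k x‖ₑ)) μ := by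
    intro k
    exact (((hF (k + 1)).sub (hF k)).enorm).indicator (hBm k)
  have h2 : ∫⁻ x, ∑' k, (B k).indicator (fun x => ‖F (k + 1) x - F k x‖ₑ) x ∂μ ≠ ⊤ := by
    rw [lintegral_tsum hm]
    refine ne_top_of_le_ne_top ?_ (ENNReal.tsum_le_tsum (g := fun k => ENNReal.ofReal ((1 / 2 : ℝ) ^ k))
      fun k => ?_)
    · rw [← ENNReal.ofReal_tsum_of_nonneg (fun k => by positivity) summable_geometric_two]
      exact ENNReal.ofReal_ne_top
    · rw [lintegral_indicator (hBm k)]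
      exact h1 k
  have h3 := ae_lt_top' (AEMeasurable.tsum hm) h2
  filter_upwards [h3] with x hx
  obtain ⟨k₀, hk₀⟩ := hBu x
  have h4 := ENNReal.summable_toReal hx.ne
  have h5 : Summable (fun k => ((B (k + k₀)).indicator
      (fun x => ‖F (k + k₀ + 1) x - F (k + k₀) x‖ₑ) x).toReal) := (summable_nat_add_iff k₀).2 h4
  have h6 : Summable (fun k => dist (F (k + k₀) x) (F (k.succ + k₀) x)) := by
    refine h5.congr fun k => ?_
    have hk : x ∈ B (k + k₀) := hBmono (Nat.le_add_left k₀ k) hk₀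
    rw [Set.indicator_of_mem hk, dist_comm, dist_eq_norm, toReal_enorm]
    have e : k.succ + k₀ = k + k₀ + 1 := by omega
    rw [e]
  obtain ⟨a, ha⟩ := cauchySeq_tendsto_of_complete (cauchySeq_of_summable_dist h6)
  exact ⟨a, (tendsto_add_atTop_iff_nat k₀).1 ha⟩

/-- `A j` is approximated in `L¹(B k)` by the equicontinuous families `S t j`; then some subsequence of
`A j` converges almost everywhere.
PROOF. `D` countable dense; the points `(S t j d)` for `(t, d) ∈ ℕ × D` lie in a countable product of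
compact balls: one subsequence `φ` converges at all of them; equicontinuity: `S t (φ j) x` converges for
all `t`, `x` (see the proof of `exists_subseq` in AA.lean); dominated convergence: `S t (φ j)` is
Cauchy in `L¹(B k)`, hence so is `A (φ j)`; `extraction_forall_of_eventually`: `ψ` with
`∫_{B k} ‖A (φ m) - A (φ (ψ k))‖ ≤ 2^(-k)` for all `m ≥ ψ k`; then `∑ k, ∫_{B k} ‖A (φ (ψ (k+1))) -
A (φ (ψ k))‖ < ∞`, so the sum of the norms is finite almost everywhere (`B` is monotone with union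
everything) and `A (φ (ψ k)) x` is Cauchy for almost all `x`. -/
theorem exists_ae_subseq {X E : Type} [TopologicalSpace X] [SecondCountableTopology X]
    [MeasurableSpace X] [BorelSpace X] {μ : Measure X} [NormedAddCommGroup E] [NormedSpace ℝ E]
    [FiniteDimensional ℝ E] (B : ℕ → Set X) (hBm : ∀ k, MeasurableSet (B k)) (hBmono : Monotone B)
    (hBf : ∀ k, μ (B k) ≠ ⊤) (hBu : ∀ x, ∃ k, x ∈ B k) (A : ℕ → X → E) (hA : ∀ j, Continuous (A j))
    (hAb : ∀ k, ∃ C : ℝ, ∀ j, ∀ x ∈ B k, ‖A j x‖ ≤ C) (S : ℕ → ℕ → X → E)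
    (hS : ∀ t j, Continuous (S t j)) (hSb : ∀ t k, ∃ C : ℝ, ∀ j, ∀ x ∈ B k, ‖S t j x‖ ≤ C)
    (hSe : ∀ t x, ∀ ε > 0, ∀ᶠ y in 𝓝 x, ∀ j, ‖S t j y - S t j x‖ ≤ ε)
    (happ : ∀ k, ∀ ε > 0, ∃ t j₀, ∀ j, j₀ ≤ j → ∫ x in B k, ‖S t j x - A j x‖ ∂μ ≤ ε) :
    ∃ φ : ℕ → ℕ, StrictMono φ ∧ ∀ᵐ x ∂μ, ∃ a, Tendsto (fun j => A (φ j) x) atTop (𝓝 a) := by
  have : CompleteSpace E := FiniteDimensional.complete ℝ E
  have hfin : ∀ k, IsFiniteMeasure (μ.restrict (B k)) := fun k =>
    ⟨by rw [Measure.restrict_apply_univ]; exact (hBf k).lt_top⟩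
  obtain ⟨φ, s, hφ, hs⟩ := ls_diag S (fun t x => by
    obtain ⟨k, hk⟩ := hBu x
    obtain ⟨C, hC⟩ := hSb t k
    exact ⟨C, fun j => hC j x hk⟩) hSe
  have hsm : ∀ t (ν : Measure X), AEStronglyMeasurable (s t) ν := fun t ν =>
    aestronglyMeasurable_of_tendsto_ae atTop (fun j => (hS t (φ j)).aestronglyMeasurable)
      (Eventually.of_forall (hs t))
  have hSm : ∀ t j (ν : Measure X), AEStronglyMeasurable (S t j) ν := fun t j ν =>
    (hS t j).aestronglyMeasurable
  have hAm : ∀ j (ν : Measure X), AEStronglyMeasurable (A j) ν := fun j ν =>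
    (hA j).aestronglyMeasurable
  have hSi : ∀ t j k, Integrable (S t j) (μ.restrict (B k)) := by
    intro t j k
    obtain ⟨C, hC⟩ := hSb t k
    exact ls_int (hSm t j _) ((ae_restrict_iff' (hBm k)).2 (Eventually.of_forall (hC j)))
  have hsi : ∀ t k, Integrable (s t) (μ.restrict (B k)) := by
    intro t k
    obtain ⟨C, hC⟩ := hSb t k
    refine ls_int (C := C) (hsm t _) ((ae_restrict_iff' (hBm k)).2 (Eventually.of_forall ?_))
    intro x hx
    exact le_of_tendsto' (hs t x).norm fun j => hC (φ j) x hx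
  have hAi : ∀ j k, Integrable (A j) (μ.restrict (B k)) := by
    intro j k
    obtain ⟨C, hC⟩ := hAb k
    exact ls_int (hAm j _) ((ae_restrict_iff' (hBm k)).2 (Eventually.of_forall (hC j)))
  have hdct : ∀ t k, Tendsto (fun j => ∫ x in B k, ‖S t (φ j) x - s t x‖ ∂μ) atTop (𝓝 0) := by
    intro t k
    obtain ⟨C, hC⟩ := hSb t k
    have h := tendsto_integral_of_dominated_convergence (μ := μ.restrict (B k))
      (F := fun j x => ‖S t (φ j) x - s t x‖) (f := fun _ => (0 : ℝ)) (fun _ => C + C)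
      (fun j => ((hSm t (φ j) _).sub (hsm t _)).norm) (integrable_const _)
      (fun j => by
        refine (ae_restrict_iff' (hBm k)).2 (Eventually.of_forall fun x hx => ?_)
        rw [norm_norm]
        have h1 : ‖s t x‖ ≤ C := le_of_tendsto' (hs t x).norm fun j => hC (φ j) x hx
        exact (norm_sub_le _ _).trans (add_le_add (hC _ x hx) h1))
      (Eventually.of_forall fun x => by
        have h1 : Tendsto (fun j => ‖S t (φ j) x - s t x‖) atTop (𝓝 ‖s t x - s t x‖) :=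
          ((hs t x).sub tendsto_const_nhds).norm
        simpa using h1)
    simpa using h
  have hcau : ∀ k, ∀ ε > 0, ∀ᶠ N in atTop, ∀ m, N ≤ m →
      ∫ x in B k, ‖A (φ m) x - A (φ N) x‖ ∂μ ≤ ε := by
    intro k ε hε
    obtain ⟨t, j₀, hj₀⟩ := happ k (ε / 4) (by positivity)
    have h1 : ∀ᶠ j in atTop, ∫ x in B k, ‖S t (φ j) x - s t x‖ ∂μ < ε / 4 :=
      (hdct t k).eventually (gt_mem_nhds (by positivity))
    obtain ⟨N₁, hN₁⟩ := eventually_atTop.1 h1
    filter_upwards [eventually_ge_atTop (max N₁ j₀)] with N hN m hm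
    have hNa : N₁ ≤ N := (le_max_left _ _).trans hN
    have hNb : j₀ ≤ N := (le_max_right _ _).trans hN
    have a1 := hj₀ (φ m) ((hNb.trans hm).trans (hφ.id_le m))
    have a2 := hN₁ m (hNa.trans hm)
    have a3 := hN₁ N hNa
    have a4 := hj₀ (φ N) (hNb.trans (hφ.id_le N))
    have a5 := ls_tri (ν := μ.restrict (B k)) (a := A (φ m)) (b := S t (φ m)) (c := s t)
      (d := S t (φ N)) (e := A (φ N)) ((hSi _ _ _).sub (hAi _ _)).norm
      ((hSi _ _ _).sub (hsi _ _)).norm ((hSi _ _ _).sub (hsi _ _)).norm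
      ((hSi _ _ _).sub (hAi _ _)).norm ((hAi _ _).sub (hAi _ _)).norm
    linarith
  obtain ⟨ψ, hψ, hψ'⟩ := extraction_forall_of_eventually
    (P := fun k N => ∀ m, N ≤ m → ∫ x in B k, ‖A (φ m) x - A (φ N) x‖ ∂μ ≤ (1 / 2 : ℝ) ^ k)
    (fun k => hcau k _ (by positivity))
  refine ⟨fun k => φ (ψ k), hφ.comp hψ, ?_⟩
  exact ls_ae B hBm hBmono hBu (fun k => A (φ (ψ k))) (fun k => hAm _ _)
    (fun k => (hAi _ _).sub (hAi _ _)) (fun k => hψ' k _ (hψ.monotone (Nat.le_succ k)))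

end Pool.Agent.Lib.MP_5d4057_al.HM.DD
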