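import Pool.Agent.Lib.MP_5d4057_al.HM.Lim1
import Pool.Agent.Lib.MP_5d4057_al.HM.LimB
import Pool.Agent.Lib.MP_5d4057_al.HM.LimSeq
import Pool.Agent.Lib.MP_5d4057_al.HM.LimApp
import Pool.Agent.Lib.MP_5d4057_al.HM.DefsB

namespace Pool.Agent.Lib.MP_5d4057_al.HM

open Matrix MeasureTheory Filter Topology Pool.Agent.Lib.MP_5d4057_al Pool.Agent.Lib.MP_5d4057_al.Hyb

open scoped ComplexOrder MatrixOrder Matrix.Norms.L2Operator

variable {n m : ℕ}

variable {Γ : Subgroup (SUGroup n)}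

namespace DD

/-- The sequence of levels. -/
def lev (S j : ℕ) : ℕ := S + 2 ^ j

theorem tendsto_lev (S : ℕ) : Tendsto (lev S) atTop atTop :=
  tendsto_atTop_mono (fun j => (Nat.lt_two_pow_self (n := j)).le.trans (Nat.le_add_left _ _)) tendsto_id

theorem summable_lev (S : ℕ) : Summable fun j => 1 / (lev S j : ℝ) := by
  refine Summable.of_nonneg_of_le (fun j => by positivity) (fun j => ?_) summable_geometric_two
  rw [_root_.one_div_pow]
  apply one_div_le_one_div_of_le (by positivity)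
  rw [lev]
  push_cast
  have : (0 : ℝ) ≤ S := Nat.cast_nonneg S
  linarith

theorem exists_t {a ε : ℝ} (hε : 0 < ε) (T : ℕ) : ∃ t : ℕ, T ≤ t ∧ a * (1 / Real.sqrt t) ≤ ε := by
  have h1 : Tendsto (fun t : ℕ => a * (1 / Real.sqrt t)) atTop (𝓝 (a * 0)) := by
    apply Tendsto.const_mul
    simp only [one_div]
    apply Tendsto.inv_tendsto_atTop
    exact Real.tendsto_sqrt_atTop.comp tendsto_natCast_atTop_atTop
  rw [mul_zero] at h1
  obtain ⟨t, h2, h3⟩ := ((h1.eventually (gt_mem_nhds hε)).and (eventually_ge_atTop T)).exists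
  exact ⟨t, h3, h2.le⟩

/-- A subsequence converging almost everywhere. -/
theorem exists_conv (hn : 1 ≤ n) (hΓ : Coc Γ) {χ : SUGroup n → ℝ} (hχ : Cut Γ χ) (ρ : Γ →* Mat m)
    {L : ℕ → Vec n → Mat m} (hL : ∀ j, Met ρ (L j)) {N : ℕ} {C : ℝ}
    (hb : ∀ j (g : SUGroup n), ‖L j (act g (base n))‖ ≤ C * ch g ^ (2 * N)) {s : ℕ → ℕ}
    (hs : Tendsto s atTop atTop)
    (hd : ∀ j x, disp χ (L j) (L j) x ≤ C * (Real.log (wt x) + 1 / Real.sqrt (s j))) :
    ∃ φ : ℕ → ℕ, StrictMono φ ∧ ∀ᵐ g ∂(mu n), ∃ a,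
      Tendsto (fun j => L (φ j) (act g (base n))) atTop (𝓝 a) := by
  have hC : 0 ≤ C := by
    have h := (norm_nonneg _).trans (hb 0 1)
    rw [ch_one, one_pow, mul_one] at h
    exact h
  have hadm : ∀ j, Adm N C (L j) := fun j => ⟨(met_cont (hL j)).aestronglyMeasurable, hb j⟩
  choose t₀ D hD using fun R => lap_l1 hn hΓ hχ ρ N C R
  obtain ⟨t1, h1⟩ := P_equicont n m N
  obtain ⟨t2, h2⟩ := P_bound (E := Mat m) n N
  obtain ⟨t3, h3⟩ := P_contDiffOn (E := Mat m) n N
  set T := max t1 (max t2 t3) with hT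
  have hT1 : t1 ≤ T := le_max_left _ _
  have hT2 : t2 ≤ T := (le_max_left _ _).trans (le_max_right _ _)
  have hT3 : t3 ≤ T := (le_max_right _ _).trans (le_max_right _ _)
  refine exists_ae_subseq (fun k : ℕ => {g : SUGroup n | ch g ≤ k}) (fun k => measurableSet_ball _)
    ?_ (fun k => (isCompact_ball _).measure_lt_top.ne) (fun g => ?_)
    (fun j g => L j (act g (base n))) (fun j => met_cont (hL j)) (fun k => ?_)
    (fun t j g => P (T + t) (L j) (act g (base n))) (fun t j => ?_) (fun t k => ?_)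
    (fun t g ε hε => ?_) (fun k ε hε => ?_)
  · intro k l hkl g hg
    have hg' : ch g ≤ k := hg
    exact hg'.trans (Nat.cast_le.2 hkl)
  · obtain ⟨k, hk⟩ := exists_nat_ge (ch g)
    exact ⟨k, hk⟩
  · refine ⟨C * (k : ℝ) ^ (2 * N), fun j g hg => (hb j g).trans ?_⟩
    exact mul_le_mul_of_nonneg_left (pow_le_pow_left₀ (zero_le_one.trans (one_le_ch g)) hg _) hC
  · have h := (h3 (T + t) (by omega) C (L j) (hadm j)).continuousOn
    exact h.comp_continuous continuous_orbit orbit_mem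
  · have h := fun j => (h2 (T + t) (by omega) C (L j) (hadm j)).bound
    refine ⟨2 * 4 ^ N * C * (k : ℝ) ^ (2 * N), fun j g hg => (h j g).trans ?_⟩
    exact mul_le_mul_of_nonneg_left (pow_le_pow_left₀ (zero_le_one.trans (one_le_ch g)) hg _)
      (by positivity)
  · filter_upwards [h1 (T + t) (by omega) C g ε hε] with y hy j
    exact hy (L j) (hadm j) fun h => (met_pos (hL j) h).posSemidef
  · obtain ⟨t, ht, ht2⟩ := exists_t (a := |D k|) (half_pos hε) (T + t₀ k)
    have h4 : ∀ᶠ j in atTop, |D k| * (1 / Real.sqrt (s j)) ≤ ε / 2 := by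
      obtain ⟨u, hu0, hu⟩ := exists_t (a := |D k|) (half_pos hε) 1
      filter_upwards [hs.eventually_ge_atTop u] with j hj
      have hju : (u : ℝ) ≤ s j := by exact_mod_cast hj
      refine (mul_le_mul_of_nonneg_left ?_ (abs_nonneg _)).trans hu
      apply one_div_le_one_div_of_le
      · apply Real.sqrt_pos.2
        exact_mod_cast hu0
      · exact Real.sqrt_le_sqrt hju
    obtain ⟨j₀, hj₀⟩ := eventually_atTop.1 h4
    refine ⟨t - T, j₀, fun j hj => ?_⟩
    have e : T + (t - T) = t := by omega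
    rw [e]
    have h5 := hD k t (by omega) (s j) (L j) (hL j) (hb j) (hd j)
    have h6 : D k * (1 / Real.sqrt t + 1 / Real.sqrt (s j)) ≤
        |D k| * (1 / Real.sqrt t) + |D k| * (1 / Real.sqrt (s j)) := by
      rw [← mul_add]
      apply mul_le_mul_of_nonneg_right (le_abs_self _)
      positivity
    have h7 := hj₀ j hj
    linarith

end DD

open DD in
/-- RESULT of blueprint D3 - D6 and E1 (strong convergence, dnote 3678): from `exists_pairs`. -/
theorem exists_limit (hn : 1 ≤ n) (hm : 0 < m) (hΓ : Coc Γ) {χ : SUGroup n → ℝ} (hχ : Cut Γ χ)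
    (ρ : Γ →* Mat m) (hρ : Submodule.span ℂ (Set.range ρ) = ⊤) :
    ∃ (N : ℕ) (C : ℝ) (F : Vec n → Mat m), LimMet ρ χ N C F := by
  obtain ⟨F₀, hF₀⟩ := exists_met hΓ ρ
  obtain ⟨S0, C₀, hC₀, h0⟩ := exists_nor hn hm hΓ hχ ρ hρ hF₀
  obtain ⟨N, S1, C₁, hC₁, h1⟩ := nor_bound_all hn hΓ hχ ρ hF₀ C₀
  obtain ⟨S2, h2⟩ := approx_of (m := m) hn hΓ ρ
  obtain ⟨S3, h3⟩ := approx_of (m := m) hn hΓ (dual ρ)
  choose K hK0 hK using fun R => int_le_II (n := n) hΓ hχ R
  set S := S0 + S1 + S2 + S3 + 1 with hS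
  have hlev : ∀ j, S ≤ lev S j := fun j => Nat.le_add_right _ _
  choose H L hN using fun j => h0 (lev S j) ((by omega : S0 ≤ S).trans (hlev j))
  have hb0 := fun j g => h1 (lev S j) ((by omega : S1 ≤ S).trans (hlev j)) (H j) (L j) (hN j) g
  -- one constant
  set C := C₀ + C₀ ^ 2 + C₁ with hCdef
  have hC : 0 < C := by positivity
  have hC1 : C₁ ≤ C := by nlinarith
  have hC0 : C₀ ≤ C := by nlinarith
  have hle : ∀ g : SUGroup n, C₁ * ch g ^ (2 * N) ≤ C * ch g ^ (2 * N) := fun g =>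
    mul_le_mul_of_nonneg_right hC1 (pow_nonneg (zero_le_one.trans (one_le_ch g)) _)
  have bH : ∀ j (g : SUGroup n), ‖H j (act g (base n))‖ ≤ C * ch g ^ (2 * N) :=
    fun j g => (hb0 j g).1.1.trans (hle g)
  have bL : ∀ j (g : SUGroup n), ‖L j (act g (base n))‖ ≤ C * ch g ^ (2 * N) :=
    fun j g => (hb0 j g).1.2.trans (hle g)
  have bHi : ∀ j (g : SUGroup n), ‖(H j (act g (base n)))⁻¹‖ ≤ C * ch g ^ (2 * N) :=
    fun j g => (hb0 j g).2.1.trans (hle g)
  have bLi : ∀ j (g : SUGroup n), ‖(L j (act g (base n)))⁻¹‖ ≤ C * ch g ^ (2 * N) :=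
    fun j g => (hb0 j g).2.2.trans (hle g)
  have hmL := fun j => (hN j).pair.metL
  have hmH := fun j => (hN j).pair.metH
  have hlevR : ∀ j, (0 : ℝ) < lev S j := fun j => by
    have := hlev j
    exact_mod_cast (by omega : 0 < lev S j)
  -- the distance of `L` and `H`
  have hLH : ∀ᵐ g ∂(mu n), Tendsto (fun j => dd (L j) (H j) 1 g ^ 2) atTop (𝓝 0) := by
    refine ae_tendsto_zero (fun k : ℕ => {g : SUGroup n | ch g ≤ k}) (fun k => measurableSet_ball _)
      (fun g => exists_nat_ge (ch g)) _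
      (fun j => ((continuous_dd_right (hmL j) (hmH j) 1).pow 2).measurable)
      (fun j g => sq_nonneg _) (fun k j => ?_) _ (summable_lev S) (fun k => K k * C₀ ^ 2)
      fun k j => ?_
    · exact ((continuous_dd_right (hmL j) (hmH j) 1).pow 2).continuousOn.integrableOn_compact
        (isCompact_ball _)
    · have e1 := hK k (fun g => dd (L j) (H j) 1 g ^ 2) (bm_dd hΓ (hmL j) (hmH j) 1).sq
        (fun g => sq_nonneg _) (fun γ hγ g => by
          simp only [dd_inv (hmL j).equi (hmH j).equi 1 γ hγ g])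
      refine e1.trans ?_
      rw [← nm_sq hχ, mul_assoc]
      refine mul_le_mul_of_nonneg_left ?_ (hK0 k).le
      have e2 := pow_le_pow_left₀ (disp_nonneg _ _ _ _) (hN j).dLH 2
      rw [div_pow, Real.sq_sqrt (hlevR j).le] at e2
      rw [mul_one_div]
      exact e2
  obtain ⟨φ, hφ, hconv⟩ := exists_conv hn hΓ hχ ρ hmL bL (tendsto_lev S) fun j x =>
    ((hN j).dL x).trans (mul_le_mul_of_nonneg_right hC0 (by
      have := log_wt_nonneg x
      positivity))
  obtain ⟨F, f1, f2, f3, f4, f5, f6⟩ := exists_limit_fun (fun j => hmL (φ j)) (fun j => bL (φ j))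
    (fun j => bLi (φ j)) hconv
  have hφt : Tendsto φ atTop atTop := hφ.tendsto_atTop
  have hlt : Tendsto (fun j => lev S (φ j)) atTop atTop := (tendsto_lev S).comp hφt
  -- convergence of `H`
  have f7 : ∀ᵐ g ∂(mu n), Tendsto (fun j => H (φ j) (act g (base n))) atTop
      (𝓝 (F (act g (base n)))) := by
    filter_upwards [f6, hLH] with g hg1 hg2
    have e1 : Tendsto (fun j => dT (L (φ j) (act g (base n))) (H (φ j) (act g (base n)))) atTop
        (𝓝 0) := by
      have e2 := (Real.continuous_sqrt.tendsto 0).comp (hg2.comp hφt)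
      rw [Real.sqrt_zero] at e2
      refine e2.congr fun j => ?_
      simp only [Function.comp_apply]
      rw [Real.sqrt_sq (dd_nonneg _ _ _ _), dd, mul_one]
    have e3 : Tendsto (fun j => H (φ j) (act g (base n)) - L (φ j) (act g (base n))) atTop
        (𝓝 0) := by
      have e4 : Tendsto (fun j => 6 * dT (L (φ j) (act g (base n))) (H (φ j) (act g (base n))) *
          (C * ch g ^ (2 * N) + C * ch g ^ (2 * N))) atTop (𝓝 0) := by
        have := (e1.const_mul 6).mul_const (C * ch g ^ (2 * N) + C * ch g ^ (2 * N))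
        rwa [mul_zero, zero_mul] at this
      refine squeeze_zero_norm (fun j => ?_) e4
      refine (norm_sub_le_dT (met_pos (hmL _) g) (met_pos (hmH _) g)).trans ?_
      refine mul_le_mul_of_nonneg_left (add_le_add (bL _ g) (bH _ g)) ?_
      have := dT_nonneg (L (φ j) (act g (base n))) (H (φ j) (act g (base n)))
      positivity
    have e5 := hg1.add e3
    rw [add_zero] at e5
    refine e5.congr fun j => ?_
    exact add_sub_cancel _ _
  have inv_lim : ∀ X : ℕ → Vec n → Mat m, (∀ᵐ g ∂(mu n), Tendsto (fun j => X j (act g (base n)))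
      atTop (𝓝 (F (act g (base n))))) → ∀ᵐ g ∂(mu n), Tendsto (fun j => (X j (act g (base n)))⁻¹)
      atTop (𝓝 (F (act g (base n)))⁻¹) := by
    intro X hX
    filter_upwards [hX] with g hg
    have e := (continuousAt_inv_mat (f3 _ (orbit_mem g))).tendsto.comp hg
    simpa only [Function.comp_def] using e
  have invinv : ∀ A : Mat m, A.PosDef → A⁻¹⁻¹ = A := fun A hA =>
    Matrix.nonsing_inv_nonsing_inv _ ((Matrix.isUnit_iff_isUnit_det _).1 hA.isUnit)
  have hCC : ∀ g : SUGroup n, C * ch g ^ (2 * N) ≤ 2 * C * ch g ^ (2 * N) := fun g => by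
    have : 0 ≤ C * ch g ^ (2 * N) :=
      mul_nonneg hC.le (pow_nonneg (zero_le_one.trans (one_le_ch g)) _)
    linarith
  refine ⟨N, 2 * C, F, f1, f2, f3, ?_, fun g => (f4 g).trans (hCC g), fun g => (f5 g).trans (hCC g),
    fun x => ?_, ?_, ?_⟩
  · exact aestronglyMeasurable_of_tendsto_ae atTop
      (fun j => (met_cont (hmL (φ j))).aestronglyMeasurable) f6
  · have he : Tendsto (fun j => 1 / Real.sqrt (lev S (φ j))) atTop (𝓝 0) := by
      simp only [one_div]
      apply Tendsto.inv_tendsto_atTop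
      exact Real.tendsto_sqrt_atTop.comp (tendsto_natCast_atTop_atTop.comp hlt)
    refine (dist_limit hχ (fun j => hmL (φ j)) hC.le (fun j => bL (φ j)) (fun j => bLi (φ j)) f3 f6
      (C₀ := C₀) he x fun j => (hN (φ j)).dL x).trans ?_
    rw [mul_pow]
    refine mul_le_mul_of_nonneg_right ?_ (sq_nonneg _)
    nlinarith
  · exact ⟨_, _, h2 N C (fun j => lev S (φ j)) (fun j => H (φ j)) (fun j => L (φ j)) F hlt
      (fun j => (by omega : S2 ≤ S).trans (hlev _)) (fun j => (hN (φ j)).pair)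
      (fun j => bH (φ j)) (fun j => bL (φ j)) (fun j => bLi (φ j)) f7 f6⟩
  · refine ⟨_, _, h3 N C (fun j => lev S (φ j)) (fun j v => (H (φ j) v)⁻¹)
      (fun j v => (L (φ j) v)⁻¹) (fun v => (F v)⁻¹) hlt
      (fun j => (by omega : S3 ≤ S).trans (hlev _)) (fun j => (hN (φ j)).pair.inv)
      (fun j => bHi (φ j)) (fun j => bLi (φ j)) (fun j g => ?_) (inv_lim _ f7) (inv_lim _ f6)⟩
    rw [invinv _ (met_pos (hmL _) g)]
    exact bL (φ j) g

end Pool.Agent.Lib.MP_5d4057_al.HM
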