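import Pool.Agent.Lib.MP_5d4057_al.HM.LipM

/-! The local integral estimate for left translations. -/

namespace Pool.Agent.Lib.MP_5d4057_al.HM

open Matrix MeasureTheory Filter Topology Pool.Agent.Lib.MP_5d4057_al Pool.Agent.Lib.MP_5d4057_al.Hyb

open scoped ComplexOrder MatrixOrder Matrix.Norms.L2Operator ENNReal

variable {n m : ℕ} {Γ : Subgroup (SUGroup n)}

/-- the indicator of a ball -/
noncomputable def ib (T : ℝ) (g : SUGroup n) : ℝ≥0∞ := if ch g ≤ T then 1 else 0

theorem measurable_ib (T : ℝ) : Measurable (ib T : SUGroup n → ℝ≥0∞) :=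
  Measurable.ite (measurableSet_le continuous_ch.measurable measurable_const) measurable_const
    measurable_const

theorem ib_le_one (T : ℝ) (g : SUGroup n) : ib T g ≤ 1 := by
  unfold ib; split_ifs <;> simp

theorem lint_ball (T : ℝ) (f : SUGroup n → ℝ≥0∞) :
    ∫⁻ g in {g : SUGroup n | ch g ≤ T}, f g ∂(mu n) = ∫⁻ g, ib T g * f g ∂(mu n) := by
  rw [← lintegral_indicator (measurableSet_le continuous_ch.measurable measurable_const)]
  refine lintegral_congr fun g => ?_
  by_cases h : ch g ≤ T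
  · rw [Set.indicator_of_mem (show g ∈ {g : SUGroup n | ch g ≤ T} from h), ib, if_pos h, one_mul]
  · rw [Set.indicator_of_notMem (show g ∉ {g : SUGroup n | ch g ≤ T} from h), ib, if_neg h, zero_mul]

/-- Integrals over balls of invariant functions. -/
theorem lint_le_II (hΓ : Coc Γ) {χ : SUGroup n → ℝ} (hχ : Cut Γ χ) (T : ℝ) : ∃ M : ℕ,
    ∀ f : SUGroup n → ℝ≥0∞, AEMeasurable f (mu n) → (∀ γ ∈ Γ, ∀ g, f (γ * g) = f g) →
      ∫⁻ g, ib T g * f g ∂(mu n) ≤ M * ∫⁻ g, ENNReal.ofReal (χ g) * f g ∂(mu n) := by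
  classical
  have hfin := finite_meet hΓ (isCompact_ball T) hχ.supp
  refine ⟨hfin.toFinset.card, fun f hf hi => ?_⟩
  have h1 : ∀ g, ib T g * f g ≤ ∑ γ ∈ hfin.toFinset, ENNReal.ofReal (χ ((γ : SUGroup n) * g)) * f g := by
    intro g
    rw [← Finset.sum_mul]
    refine mul_le_mul_left ?_ _
    unfold ib
    split_ifs with h
    · rw [← ENNReal.ofReal_sum_of_nonneg fun γ _ => hχ.nonneg _]
      have h2 : ∑ γ ∈ hfin.toFinset, χ ((γ : SUGroup n) * g) = 1 := by
        rw [← hχ.sum g]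
        refine (tsum_eq_sum fun γ hγ => ?_).symm
        by_contra hne
        refine hγ (hfin.mem_toFinset.2 ⟨g, h, ?_⟩)
        exact subset_tsupport _ (Function.mem_support.2 hne)
      rw [h2, ENNReal.ofReal_one]
    · exact zero_le
  have hm : ∀ γ : Γ, AEMeasurable (fun g => ENNReal.ofReal (χ ((γ : SUGroup n) * g)) * f g) (mu n) := by
    intro γ
    have : Measurable fun g => ENNReal.ofReal (χ ((γ : SUGroup n) * g)) :=
      (hχ.cont.comp (continuous_const.mul continuous_id)).measurable.ennreal_ofReal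
    exact this.aemeasurable.mul hf
  calc ∫⁻ g, ib T g * f g ∂(mu n)
      ≤ ∫⁻ g, ∑ γ ∈ hfin.toFinset, ENNReal.ofReal (χ ((γ : SUGroup n) * g)) * f g ∂(mu n) :=
        lintegral_mono h1
    _ = ∑ γ ∈ hfin.toFinset, ∫⁻ g, ENNReal.ofReal (χ ((γ : SUGroup n) * g)) * f g ∂(mu n) :=
        lintegral_finsetSum' _ fun γ _ => hm γ
    _ = ∑ γ ∈ hfin.toFinset, ∫⁻ g, ENNReal.ofReal (χ g) * f g ∂(mu n) := by
        refine Finset.sum_congr rfl fun γ _ => ?_
        rw [← lintegral_mul_left_eq_self (μ := mu n)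
          (fun g => ENNReal.ofReal (χ g) * f g) (γ : SUGroup n)]
        refine lintegral_congr fun g => ?_
        rw [hi γ γ.2]
    _ = _ := by rw [Finset.sum_const, nsmul_eq_mul]

section lim

variable {ρ : Γ →* Mat m} {χ : SUGroup n → ℝ} {N : ℕ} {C : ℝ} {F : Vec n → Mat m}

/-- the squared distance -/
noncomputable def Dq (F : Vec n → Mat m) (g h : SUGroup n) : ℝ≥0∞ :=
  ENNReal.ofReal (dT (F (act g (base n))) (F (act h (base n))) ^ 2)

theorem LimMet.opos (hF : LimMet ρ χ N C F) (g : SUGroup n) : (F (act g (base n))).PosDef :=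
  hF.pos _ (orbit_mem g)

theorem LimMet.dq_inv (hF : LimMet ρ χ N C F) (γ : SUGroup n) (hγ : γ ∈ Γ) (g h : SUGroup n) :
    Dq F (γ * g) (γ * h) = Dq F g h := by
  unfold Dq
  have h1 := hF.equi ⟨γ, hγ⟩ _ (orbit_mem g)
  have h2 := hF.equi ⟨γ, hγ⟩ _ (orbit_mem h)
  have hu : IsUnit (ρ ⟨γ, hγ⟩) := (Group.isUnit (⟨γ, hγ⟩ : Γ)).map ρ
  simp only at h1 h2
  rw [act_mul, act_mul, h1, h2, dT_conj _ hu]

theorem Dq_triangle (hp : ∀ g : SUGroup n, (F (act g (base n))).PosDef) (g h k : SUGroup n) :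
    Dq F g k ≤ 2 * Dq F g h + 2 * Dq F h k := by
  unfold Dq
  have h1 := dT_triangle (hp g) (hp h) (hp k)
  have h2 := dT_nonneg (F (act g (base n))) (F (act k (base n)))
  rw [show (2 : ℝ≥0∞) = ENNReal.ofReal 2 by norm_num, ← ENNReal.ofReal_mul (by norm_num),
    ← ENNReal.ofReal_mul (by norm_num), ← ENNReal.ofReal_add (by positivity) (by positivity)]
  refine ENNReal.ofReal_le_ofReal ?_
  nlinarith [sq_nonneg (dT (F (act g (base n))) (F (act h (base n))) -
    dT (F (act h (base n))) (F (act k (base n))))]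

theorem Dq_self (g : SUGroup n) : Dq F g g = 0 := by
  unfold Dq
  have h1 : dT (F (act g (base n))) (F (act g (base n))) ≤ 0 := by
    refine dT_le le_rfl ?_ ?_ <;> simp
  have h2 := dT_nonneg (F (act g (base n))) (F (act g (base n)))
  have h3 : dT (F (act g (base n))) (F (act g (base n))) = 0 := le_antisymm h1 h2
  rw [h3]; simp

/-- measurability on the product -/
theorem LimMet.meas_mul (hF : LimMet ρ χ N C F) :
    AEStronglyMeasurable (fun p : SUGroup n × SUGroup n => F (act (p.1 * p.2) (base n)))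
      ((mu n).prod (mu n)) := by
  have h1 := (measurePreserving_prod_mul (mu n) (mu n)).quasiMeasurePreserving
  have h2 := (Measure.quasiMeasurePreserving_snd (μ := mu n) (ν := mu n)).comp h1
  exact hF.meas.comp_quasiMeasurePreserving h2

theorem LimMet.meas_left (hF : LimMet ρ χ N C F) (a : SUGroup n) :
    AEStronglyMeasurable (fun g : SUGroup n => F (act (a * g) (base n))) (mu n) :=
  hF.meas.comp_measurePreserving (measurePreserving_mul_left (mu n) a)

theorem LimMet.meas_right (hF : LimMet ρ χ N C F) (a : SUGroup n) :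
    AEStronglyMeasurable (fun g : SUGroup n => F (act (g * a) (base n))) (mu n) :=
  hF.meas.comp_measurePreserving (measurePreserving_mul_right (mu n) a)

theorem aem_Dq {α : Type} [MeasurableSpace α] {ν : Measure α} (hp : ∀ g : SUGroup n, (F (act g (base n))).PosDef)
    {u w : α → SUGroup n} (h1 : AEStronglyMeasurable (fun x => F (act (u x) (base n))) ν)
    (h2 : AEStronglyMeasurable (fun x => F (act (w x) (base n))) ν) :
    AEMeasurable (fun x => Dq F (u x) (w x)) ν := by
  unfold Dq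
  exact ((aesm_dT h1 h2 (fun x => hp _) (fun x => hp _)).pow 2).aemeasurable.ennreal_ofReal

theorem LimMet.dT_bound (hF : LimMet ρ χ N C F) (T : ℝ) : ∃ R : ℝ, 1 ≤ R ∧ ∀ g : SUGroup n, ch g ≤ T →
    ‖F (act g (base n))‖ ≤ R ∧ ‖(F (act g (base n)))⁻¹‖ ≤ R := by
  refine ⟨max 1 (|C| * T ^ (2 * N)), le_max_left _ _, fun g hg => ?_⟩
  have h0 := ch_pos g
  have h1 : C * ch g ^ (2 * N) ≤ max 1 (|C| * T ^ (2 * N)) := by
    refine le_trans ?_ (le_max_right _ _)
    exact mul_le_mul (le_abs_self C) (pow_le_pow_left₀ h0.le hg _) (by positivity) (abs_nonneg _)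
  exact ⟨(hF.bound g).trans h1, (hF.boundInv g).trans h1⟩

/-- the distance of `F` and its right translate -/
theorem LimMet.lint_right (hF : LimMet ρ χ N C F) (hΓ : Coc Γ) (hχ : Cut Γ χ) (T : ℝ) : ∃ M : ℝ, 0 ≤ M ∧
    ∀ x : SUGroup n, ∫⁻ g, ib T g * Dq F g (g * x) ∂(mu n) ≤
      ENNReal.ofReal (M * Real.log (wt x) ^ 2) := by
  obtain ⟨M, hM⟩ := lint_le_II hΓ hχ T
  refine ⟨M * |C|, by positivity, fun x => ?_⟩
  have hmeas : AEMeasurable (fun g => Dq F g (g * x)) (mu n) :=
    aem_Dq hF.opos hF.meas (hF.meas_right x)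
  refine (hM (fun g => Dq F g (g * x)) hmeas fun γ hγ g => ?_).trans ?_
  · rw [mul_assoc, hF.dq_inv γ hγ]
  -- the integral with `χ`
  obtain ⟨T₀, hT₀⟩ : ∃ T₀ : ℝ, ∀ g ∈ tsupport χ, ch g ≤ T₀ := by
    obtain ⟨T₀, hT₀⟩ := hχ.supp.isCompact.exists_bound_of_continuousOn continuous_ch.continuousOn
    exact ⟨T₀, fun g hg => (le_abs_self _).trans (hT₀ g hg)⟩
  obtain ⟨R, hR1, hR⟩ := hF.dT_bound (max T₀ (2 * T₀ * ch x))
  have hb : ∀ g, ‖χ g * dT (F (act g (base n))) (F (act (g * x) (base n))) ^ 2‖ ≤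
      χ g * (2 * Real.log R) ^ 2 := by
    intro g
    rw [norm_mul, Real.norm_of_nonneg (hχ.nonneg g), Real.norm_of_nonneg (by positivity)]
    by_cases hg : g ∈ tsupport χ
    · refine mul_le_mul_of_nonneg_left ?_ (hχ.nonneg g)
      refine pow_le_pow_left₀ (dT_nonneg _ _) ?_ 2
      have h1 := hR g ((hT₀ g hg).trans (le_max_left _ _))
      have h2 : ch (g * x) ≤ max T₀ (2 * T₀ * ch x) := by
        refine (ch_mul_le' g x).trans (le_trans ?_ (le_max_right _ _))
        have h3 := hT₀ g hg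
        have h4 := ch_pos x
        gcongr
      have h3 := hR (g * x) h2
      exact dT_le_norm (hF.opos g) (hF.opos (g * x)) hR1 h1.1 h1.2 h3.1 h3.2
    · rw [image_eq_zero_of_notMem_tsupport hg, zero_mul, zero_mul]
  have hint : Integrable (fun g => χ g * dT (F (act g (base n))) (F (act (g * x) (base n))) ^ 2)
      (mu n) := by
    refine (hχ.integrable.mul_const ((2 * Real.log R) ^ 2)).mono' ?_ (Eventually.of_forall hb)
    exact hχ.cont.aestronglyMeasurable.mul
      ((aesm_dT hF.meas (hF.meas_right x) (fun g => hF.opos g) (fun g => hF.opos _)).pow 2)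
  have e1 : ∫⁻ g, ENNReal.ofReal (χ g) * Dq F g (g * x) ∂(mu n) =
      ENNReal.ofReal (II χ (fun g => dT (F (act g (base n))) (F (act (g * x) (base n))) ^ 2)) := by
    unfold II
    simp only [smul_eq_mul]
    rw [ofReal_integral_eq_lintegral_ofReal hint (Eventually.of_forall fun g =>
      mul_nonneg (hχ.nonneg g) (by positivity))]
    refine lintegral_congr fun g => ?_
    rw [Dq, ENNReal.ofReal_mul (hχ.nonneg g)]
  rw [e1]
  have h1 := hF.dist x
  have h2 : II χ (fun g => dT (F (act g (base n))) (F (act (g * x) (base n))) ^ 2) ≤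
      |C| * Real.log (wt x) ^ 2 :=
    h1.trans (mul_le_mul_of_nonneg_right (le_abs_self C) (by positivity))
  calc (M : ℝ≥0∞) * ENNReal.ofReal (II χ (fun g => dT (F (act g (base n))) (F (act (g * x) (base n))) ^ 2))
      ≤ (M : ℝ≥0∞) * ENNReal.ofReal (|C| * Real.log (wt x) ^ 2) := by
        gcongr
    _ = _ := by
        rw [← ENNReal.ofReal_natCast, ← ENNReal.ofReal_mul (Nat.cast_nonneg _), mul_assoc]

/-- averaged over the kernel -/
theorem LimMet.lint_kap (hF : LimMet ρ χ N C F) (hΓ : Coc Γ) (hχ : Cut Γ χ) (T : ℝ) : ∃ M : ℝ, 0 ≤ M ∧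
    ∀ s : ℕ, 2 * n + 2 ≤ s → ∫⁻ p : SUGroup n × SUGroup n, ib T p.1 * ENNReal.ofReal (kap s p.2) *
      Dq F p.1 (p.1 * p.2) ∂((mu n).prod (mu n)) ≤ ENNReal.ofReal (M / s) := by
  obtain ⟨M, hM0, hM⟩ := hF.lint_right hΓ hχ T
  refine ⟨M * (2 * n), by positivity, fun s hs => ?_⟩
  have hkm : Measurable (fun x : SUGroup n => ENNReal.ofReal (kap s x)) :=
    (continuous_kap s).measurable.ennreal_ofReal
  have hmeas : AEMeasurable (fun p : SUGroup n × SUGroup n => ib T p.1 * ENNReal.ofReal (kap s p.2) *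
      Dq F p.1 (p.1 * p.2)) ((mu n).prod (mu n)) := by
    refine AEMeasurable.mul ?_ (aem_Dq hF.opos hF.meas.comp_fst hF.meas_mul)
    exact (((measurable_ib T).comp measurable_fst).mul (hkm.comp measurable_snd)).aemeasurable
  rw [lintegral_prod_symm _ hmeas]
  have h1 : ∀ x : SUGroup n, ∫⁻ g, ib T g * ENNReal.ofReal (kap s x) * Dq F g (g * x) ∂(mu n) ≤
      ENNReal.ofReal (M * (kap s x * (ch x ^ 2 - 1))) := by
    intro x
    have e1 : ∫⁻ g, ib T g * ENNReal.ofReal (kap s x) * Dq F g (g * x) ∂(mu n) =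
        ENNReal.ofReal (kap s x) * ∫⁻ g, ib T g * Dq F g (g * x) ∂(mu n) := by
      rw [← lintegral_const_mul' _ _ ENNReal.ofReal_ne_top]
      refine lintegral_congr fun g => ?_
      ring
    rw [e1]
    have hk := kap_nonneg s x
    have h2 : Real.log (wt x) ^ 2 ≤ ch x ^ 2 - 1 := by
      have h3 := log_wt_le x
      have h4 : 0 ≤ Real.log (wt x) := Real.log_nonneg (one_le_wt x)
      have h5 := one_le_ch x
      have h6 := pow_le_pow_left₀ h4 h3 2
      rwa [Real.sq_sqrt (by nlinarith)] at h6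
    calc ENNReal.ofReal (kap s x) * ∫⁻ g, ib T g * Dq F g (g * x) ∂(mu n)
        ≤ ENNReal.ofReal (kap s x) * ENNReal.ofReal (M * Real.log (wt x) ^ 2) := by
          gcongr; exact hM x
      _ = ENNReal.ofReal (kap s x * (M * Real.log (wt x) ^ 2)) := by
          rw [← ENNReal.ofReal_mul hk]
      _ ≤ _ := by
          refine ENNReal.ofReal_le_ofReal ?_
          calc kap s x * (M * Real.log (wt x) ^ 2) ≤ kap s x * (M * (ch x ^ 2 - 1)) := by gcongr
            _ = _ := by ring
  refine (lintegral_mono h1).trans ?_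
  have hmom := mom_one (n := n) (s := s) (by omega)
  have hint : Integrable (fun x : SUGroup n => M * (kap s x * (ch x ^ 2 - 1))) (mu n) := by
    have := integrable_mom (n := n) (s := s) (N := 0) (k := 1) (by omega)
    refine (this.const_mul M).congr (Eventually.of_forall fun x => ?_)
    simp
  rw [← ofReal_integral_eq_lintegral_ofReal hint (Eventually.of_forall fun x => by
    have h5 := one_le_ch x
    have h6 := kap_nonneg s x
    have h7 : 0 ≤ ch x ^ 2 - 1 := by nlinarith
    positivity)]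
  refine ENNReal.ofReal_le_ofReal ?_
  rw [integral_const_mul, hmom]
  have hs1 : (2 * n + 2 : ℝ) ≤ s := by exact_mod_cast hs
  have hn0 : (0 : ℝ) ≤ n := Nat.cast_nonneg _
  rw [mul_div_assoc]
  refine mul_le_mul_of_nonneg_left ?_ hM0
  rw [div_le_div_iff₀ (by linarith) (by linarith)]
  nlinarith

end lim

end Pool.Agent.Lib.MP_5d4057_al.HM
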