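import Pool.Agent.Lib.MP_5d4057_al.HM.LipB

/-! The local integral estimate for left translations: main step. -/

namespace Pool.Agent.Lib.MP_5d4057_al.HM

open Matrix MeasureTheory Filter Topology Pool.Agent.Lib.MP_5d4057_al Pool.Agent.Lib.MP_5d4057_al.Hyb

open scoped ComplexOrder MatrixOrder Matrix.Norms.L2Operator ENNReal

variable {n m : ℕ} {Γ : Subgroup (SUGroup n)}

/-- at least half of the mass of the kernel is in the ball of radius `2` -/
theorem half_mass {s : ℕ} (hs : 2 * n + 2 ≤ s) : ENNReal.ofReal (1 / 2) ≤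
    ∫⁻ x : SUGroup n, ENNReal.ofReal (kap s x) * ib 2 x ∂(mu n) := by
  obtain ⟨g, hg⟩ : ∃ g : SUGroup n → ℝ, g = fun x => if ch x ≤ 2 then kap s x else 0 := ⟨_, rfl⟩
  have hS : MeasurableSet {x : SUGroup n | ch x ≤ 2} :=
    measurableSet_le continuous_ch.measurable measurable_const
  have hgi : Integrable g (mu n) := by
    have h1 : g = {x : SUGroup n | ch x ≤ 2}.indicator (kap s) := by
      rw [hg]
      funext x
      by_cases h : ch x ≤ 2
      · rw [if_pos h, Set.indicator_of_mem (show x ∈ {x : SUGroup n | ch x ≤ 2} from h)]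
      · rw [if_neg h, Set.indicator_of_notMem (show x ∉ {x : SUGroup n | ch x ≤ 2} from h)]
    rw [h1]
    exact (integrable_kap (by omega)).indicator hS
  have hg0 : ∀ x, 0 ≤ g x := fun x => by
    rw [hg]; simp only; split_ifs
    · exact kap_nonneg s x
    · exact le_rfl
  have e1 : ∫⁻ x : SUGroup n, ENNReal.ofReal (kap s x) * ib 2 x ∂(mu n) =
      ENNReal.ofReal (∫ x, g x ∂(mu n)) := by
    rw [ofReal_integral_eq_lintegral_ofReal hgi (Eventually.of_forall hg0)]
    refine lintegral_congr fun x => ?_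
    rw [hg]
    unfold ib
    by_cases h : ch x ≤ 2
    · simp [h]
    · simp [h]
  rw [e1]
  refine ENNReal.ofReal_le_ofReal ?_
  have hint1 : Integrable (fun x : SUGroup n => kap s x * (ch x ^ 2 - 1)) (mu n) := by
    have := integrable_mom (n := n) (s := s) (N := 0) (k := 1) (by omega)
    refine this.congr (Eventually.of_forall fun x => ?_)
    simp
  have hint2 : Integrable (fun x : SUGroup n => kap s x - 1 / 3 * (kap s x * (ch x ^ 2 - 1))) (mu n) :=
    (integrable_kap (by omega)).sub (hint1.const_mul _)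
  have h1 : ∀ x, kap s x - 1 / 3 * (kap s x * (ch x ^ 2 - 1)) ≤ g x := by
    intro x
    have h2 := kap_nonneg s x
    have h3 := one_le_ch x
    rw [hg]
    simp only
    split_ifs with h
    · have : 0 ≤ kap s x * (ch x ^ 2 - 1) := mul_nonneg h2 (by nlinarith)
      linarith
    · push Not at h
      have h4 : 3 ≤ ch x ^ 2 - 1 := by nlinarith
      have := mul_le_mul_of_nonneg_left h4 h2
      linarith
  have h2 := integral_mono hint2 hgi h1
  rw [integral_sub (integrable_kap (by omega)) (hint1.const_mul _), integral_kap (by omega),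
    integral_const_mul, mom_one (by omega)] at h2
  refine le_trans ?_ h2
  have hs1 : (2 * n + 2 : ℝ) ≤ s := by exact_mod_cast hs
  have hn0 : (0 : ℝ) ≤ n := Nat.cast_nonneg _
  have h3 : (n : ℝ) / (s - 1 - n) ≤ 1 := by
    rw [div_le_one (by linarith)]; linarith
  linarith

section lim

variable {ρ : Γ →* Mat m} {χ : SUGroup n → ℝ} {N : ℕ} {C : ℝ} {F : Vec n → Mat m}

/-- the change of variables -/
theorem LimMet.lint_shift (hF : LimMet ρ χ N C F) {T : ℝ} (hT : 1 ≤ T) {s : ℕ} (hs : 2 * n + 2 ≤ s)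
    (a : SUGroup n) {β : ℝ} (hβ0 : 0 ≤ β) (hβ1 : β ≤ 1 / 2)
    (ha : (2 * (n + 1)) ^ 2 * (4 * T) ^ 2 * ‖a.toMatrix - 1‖ ≤ β) :
    ∫⁻ p : SUGroup n × SUGroup n, ib T p.1 * ENNReal.ofReal (kap (2 * s) p.2) * ib 2 p.2 *
      Dq F (p.1 * p.2) (a * p.1) ∂((mu n).prod (mu n)) ≤
    ENNReal.ofReal (Real.exp (2 * n + 16 * s * β ^ 2)) *
      ∫⁻ p : SUGroup n × SUGroup n, ib (4 * T) p.1 * ENNReal.ofReal (kap s p.2) *
      Dq F p.1 (p.1 * p.2) ∂((mu n).prod (mu n)) := by
  have hkm : ∀ s, Measurable (fun x : SUGroup n => ENNReal.ofReal (kap s x)) := fun s =>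
    (continuous_kap s).measurable.ennreal_ofReal
  have hmeas1 : AEMeasurable (fun p : SUGroup n × SUGroup n => ib T p.1 *
      ENNReal.ofReal (kap (2 * s) p.2) * ib 2 p.2 * Dq F (p.1 * p.2) (a * p.1))
      ((mu n).prod (mu n)) := by
    refine AEMeasurable.mul ?_ (aem_Dq hF.opos hF.meas_mul (hF.meas_left a).comp_fst)
    exact ((((measurable_ib T).comp measurable_fst).mul ((hkm _).comp measurable_snd)).mul
      ((measurable_ib 2).comp measurable_snd)).aemeasurable
  have hmeas3 : AEMeasurable (fun p : SUGroup n × SUGroup n => ib (4 * T) p.1 *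
      ENNReal.ofReal (kap s p.2) * Dq F p.1 (p.1 * p.2)) ((mu n).prod (mu n)) := by
    refine AEMeasurable.mul ?_ (aem_Dq hF.opos hF.meas.comp_fst hF.meas_mul)
    exact (((measurable_ib _).comp measurable_fst).mul ((hkm _).comp measurable_snd)).aemeasurable
  have hdiv : Measurable fun p : SUGroup n × SUGroup n => p.1⁻¹ * p.2 := by fun_prop
  have hmeas2 : AEMeasurable (fun p : SUGroup n × SUGroup n => ib T p.1 *
      ENNReal.ofReal (kap (2 * s) (p.1⁻¹ * p.2)) * ib 2 (p.1⁻¹ * p.2) * Dq F p.2 (a * p.1))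
      ((mu n).prod (mu n)) := by
    refine AEMeasurable.mul ?_ (aem_Dq hF.opos hF.meas.comp_snd (hF.meas_left a).comp_fst)
    exact ((((measurable_ib T).comp measurable_fst).mul ((hkm _).comp hdiv)).mul
      ((measurable_ib 2).comp hdiv)).aemeasurable
  calc ∫⁻ p : SUGroup n × SUGroup n, ib T p.1 * ENNReal.ofReal (kap (2 * s) p.2) * ib 2 p.2 *
        Dq F (p.1 * p.2) (a * p.1) ∂((mu n).prod (mu n))
      = ∫⁻ g, ∫⁻ x, ib T g * ENNReal.ofReal (kap (2 * s) x) * ib 2 x *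
        Dq F (g * x) (a * g) ∂(mu n) ∂(mu n) := lintegral_prod _ hmeas1
    _ = ∫⁻ g, ∫⁻ h, ib T g * ENNReal.ofReal (kap (2 * s) (g⁻¹ * h)) * ib 2 (g⁻¹ * h) *
        Dq F h (a * g) ∂(mu n) ∂(mu n) := by
        refine lintegral_congr fun g => ?_
        rw [← lintegral_mul_left_eq_self (μ := mu n) (fun h => ib T g *
          ENNReal.ofReal (kap (2 * s) (g⁻¹ * h)) * ib 2 (g⁻¹ * h) * Dq F h (a * g)) g]
        refine lintegral_congr fun x => ?_
        rw [inv_mul_cancel_left]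
    _ = ∫⁻ h, ∫⁻ g, ib T g * ENNReal.ofReal (kap (2 * s) (g⁻¹ * h)) * ib 2 (g⁻¹ * h) *
        Dq F h (a * g) ∂(mu n) ∂(mu n) := lintegral_lintegral_swap hmeas2
    _ = ∫⁻ h, ∫⁻ y, ib T (a⁻¹ * h * y) * ENNReal.ofReal (kap (2 * s) (y⁻¹ * (h⁻¹ * a * h))) *
        ib 2 (y⁻¹ * (h⁻¹ * a * h)) * Dq F h (h * y) ∂(mu n) ∂(mu n) := by
        refine lintegral_congr fun h => ?_
        rw [← lintegral_mul_left_eq_self (μ := mu n) (fun g => ib T g *
          ENNReal.ofReal (kap (2 * s) (g⁻¹ * h)) * ib 2 (g⁻¹ * h) * Dq F h (a * g)) (a⁻¹ * h)]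
        refine lintegral_congr fun y => ?_
        have e1 : (a⁻¹ * h * y)⁻¹ * h = y⁻¹ * (h⁻¹ * a * h) := by group
        have e2 : a * (a⁻¹ * h * y) = h * y := by group
        rw [e1, e2]
    _ ≤ ∫⁻ h, ∫⁻ y, ENNReal.ofReal (Real.exp (2 * n + 16 * s * β ^ 2)) * (ib (4 * T) h *
        ENNReal.ofReal (kap s y) * Dq F h (h * y)) ∂(mu n) ∂(mu n) := by
        refine lintegral_mono fun h => lintegral_mono fun y => ?_
        simp only
        by_cases h1 : ch (a⁻¹ * h * y) ≤ T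
        · by_cases h2 : ch (y⁻¹ * (h⁻¹ * a * h)) ≤ 2
          · have h3 : ch h ≤ 4 * T := by
              have e1 : h = (a⁻¹ * h * y) * (y⁻¹ * (h⁻¹ * a * h)) := by group
              have h4 := ch_mul_le' (a⁻¹ * h * y) (y⁻¹ * (h⁻¹ * a * h))
              rw [← e1] at h4
              have h5 := ch_pos (a⁻¹ * h * y)
              have h6 := ch_pos (y⁻¹ * (h⁻¹ * a * h))
              refine h4.trans ?_
              calc 2 * ch (a⁻¹ * h * y) * ch (y⁻¹ * (h⁻¹ * a * h)) ≤ 2 * T * 2 := by gcongr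
                _ = 4 * T := by ring
            have hb : ch (h⁻¹ * a * h) ^ 2 - 1 ≤ β ^ 2 := by
              refine (lp_ch_sq _).trans (pow_le_pow_left₀ (norm_nonneg _) ?_ 2)
              refine (lp_conj h a).trans (le_trans ?_ ha)
              have h7 := ch_pos h
              gcongr
            have hk := lp_kap (n := n) (s := s) (by omega) hβ0 hβ1 hb y
            have e3 : ib (4 * T) h = 1 := by unfold ib; rw [if_pos h3]
            rw [e3, one_mul]
            calc ib T (a⁻¹ * h * y) * ENNReal.ofReal (kap (2 * s) (y⁻¹ * (h⁻¹ * a * h))) *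
                  ib 2 (y⁻¹ * (h⁻¹ * a * h)) * Dq F h (h * y)
                ≤ 1 * ENNReal.ofReal (Real.exp (2 * n + 16 * s * β ^ 2) * kap s y) * 1 *
                  Dq F h (h * y) := by
                  gcongr
                  · exact ib_le_one _ _
                  · exact ib_le_one _ _
              _ = _ := by
                  rw [ENNReal.ofReal_mul (Real.exp_pos _).le]; ring
          · have e4 : ib 2 (y⁻¹ * (h⁻¹ * a * h)) = 0 := by unfold ib; rw [if_neg h2]
            rw [e4]; simp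
        · have e5 : ib T (a⁻¹ * h * y) = 0 := by unfold ib; rw [if_neg h1]
          rw [e5]; simp
    _ = ENNReal.ofReal (Real.exp (2 * n + 16 * s * β ^ 2)) * ∫⁻ h, ∫⁻ y, (ib (4 * T) h *
        ENNReal.ofReal (kap s y) * Dq F h (h * y)) ∂(mu n) ∂(mu n) := by
        rw [← lintegral_const_mul' _ _ ENNReal.ofReal_ne_top]
        refine lintegral_congr fun h => ?_
        rw [lintegral_const_mul' _ _ ENNReal.ofReal_ne_top]
    _ = _ := by rw [lintegral_prod _ hmeas3]

/-- The local integral estimate for the distance, small translations. -/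
theorem LimMet.lint_small (hF : LimMet ρ χ N C F) (hΓ : Coc Γ) (hχ : Cut Γ χ) {T : ℝ} (hT : 1 ≤ T) :
    ∃ M : ℝ, 0 ≤ M ∧ ∀ (a : SUGroup n) (r : ℝ), 0 < r → r ≤ 1 → ‖a.toMatrix - 1‖ ≤ r →
      (2 * (n + 1)) ^ 2 * (4 * T) ^ 2 * r ≤ 1 / 2 →
      ∫⁻ g, ib T g * Dq F g (a * g) ∂(mu n) ≤ ENNReal.ofReal (M * r ^ 2) := by
  obtain ⟨M₁, hM₁0, hM₁⟩ := hF.lint_kap hΓ hχ T
  obtain ⟨M₂, hM₂0, hM₂⟩ := hF.lint_kap hΓ hχ (4 * T)
  obtain ⟨c, hc⟩ : ∃ c : ℝ, c = (2 * (n + 1)) ^ 2 * (4 * T) ^ 2 := ⟨_, rfl⟩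
  have hc0 : 0 ≤ c := by rw [hc]; positivity
  obtain ⟨B, hB⟩ : ∃ B : ℝ, B = Real.exp (2 * n + 16 * c ^ 2 * (2 * n + 4)) := ⟨_, rfl⟩
  have hB0 : 0 ≤ B := by rw [hB]; exact (Real.exp_pos _).le
  refine ⟨4 * (M₁ + B * M₂), by positivity, fun a r hr0 hr1 har hcr => ?_⟩
  rw [← hc] at hcr
  obtain ⟨s, hs⟩ : ∃ s : ℕ, s = ⌈1 / r ^ 2⌉₊ + (2 * n + 2) := ⟨_, rfl⟩
  have hs1 : 2 * n + 2 ≤ s := by omega
  have hr2 : 0 < r ^ 2 := by positivity
  have hs2 : 1 / r ^ 2 ≤ s := by
    rw [hs]; push_cast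
    have := Nat.le_ceil (1 / r ^ 2)
    have h0 : (0 : ℝ) ≤ 2 * n + 2 := by positivity
    linarith
  have hs3 : (s : ℝ) ≤ 1 / r ^ 2 + (2 * n + 3) := by
    rw [hs]; push_cast
    have := Nat.ceil_lt_add_one (show 0 ≤ 1 / r ^ 2 by positivity)
    linarith
  have hs0 : (0 : ℝ) < s := by
    have : 0 < s := by omega
    exact_mod_cast this
  have hsr : (s : ℝ) * r ^ 2 ≤ 2 * n + 4 := by
    have h1 := mul_le_mul_of_nonneg_right hs3 hr2.le
    rw [add_mul, one_div, inv_mul_cancel₀ hr2.ne'] at h1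
    have h2 : (2 * n + 3 : ℝ) * r ^ 2 ≤ (2 * n + 3) * 1 := by
      refine mul_le_mul_of_nonneg_left ?_ (by positivity)
      nlinarith
    linarith
  have hsi : (1 : ℝ) / s ≤ r ^ 2 := by
    rw [div_le_iff₀ hs0]
    rw [div_le_iff₀ hr2] at hs2
    linarith
  -- the shift
  have hsh := hF.lint_shift hT hs1 a (β := c * r) (by positivity) hcr (by
    rw [← hc]; exact mul_le_mul_of_nonneg_left har hc0)
  have hexp : Real.exp (2 * n + 16 * s * (c * r) ^ 2) ≤ B := by
    rw [hB]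
    refine Real.exp_le_exp.2 ?_
    have e1 : 16 * (s : ℝ) * (c * r) ^ 2 = 16 * c ^ 2 * (s * r ^ 2) := by ring
    rw [e1]
    have := mul_le_mul_of_nonneg_left hsr (show 0 ≤ 16 * c ^ 2 by positivity)
    linarith
  have hkm : ∀ s, Measurable (fun x : SUGroup n => ENNReal.ofReal (kap s x)) := fun s =>
    (continuous_kap s).measurable.ennreal_ofReal
  obtain ⟨I, hI⟩ : ∃ I : ℝ≥0∞, I = ∫⁻ g, ib T g * Dq F g (a * g) ∂(mu n) := ⟨_, rfl⟩
  have hmI : AEMeasurable (fun g => ib T g * Dq F g (a * g)) (mu n) :=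
    (measurable_ib T).aemeasurable.mul (aem_Dq hF.opos hF.meas (hF.meas_left a))
  have hm1 : AEMeasurable (fun p : SUGroup n × SUGroup n => ib T p.1 *
      ENNReal.ofReal (kap (2 * s) p.2) * Dq F p.1 (p.1 * p.2)) ((mu n).prod (mu n)) := by
    refine AEMeasurable.mul ?_ (aem_Dq hF.opos hF.meas.comp_fst hF.meas_mul)
    exact (((measurable_ib _).comp measurable_fst).mul ((hkm _).comp measurable_snd)).aemeasurable
  have h1 : I * ∫⁻ x : SUGroup n, ENNReal.ofReal (kap (2 * s) x) * ib 2 x ∂(mu n) =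
      ∫⁻ p : SUGroup n × SUGroup n, (ib T p.1 * Dq F p.1 (a * p.1)) *
        (ENNReal.ofReal (kap (2 * s) p.2) * ib 2 p.2) ∂((mu n).prod (mu n)) := by
    rw [hI]
    exact (lintegral_prod_mul (g := fun x : SUGroup n => ENNReal.ofReal (kap (2 * s) x) * ib 2 x)
      hmI ((hkm _).mul (measurable_ib 2)).aemeasurable).symm
  have h2 : ∫⁻ p : SUGroup n × SUGroup n, (ib T p.1 * Dq F p.1 (a * p.1)) *
        (ENNReal.ofReal (kap (2 * s) p.2) * ib 2 p.2) ∂((mu n).prod (mu n)) ≤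
      2 * (∫⁻ p : SUGroup n × SUGroup n, ib T p.1 * ENNReal.ofReal (kap (2 * s) p.2) *
        Dq F p.1 (p.1 * p.2) ∂((mu n).prod (mu n))) +
      2 * (∫⁻ p : SUGroup n × SUGroup n, ib T p.1 * ENNReal.ofReal (kap (2 * s) p.2) * ib 2 p.2 *
        Dq F (p.1 * p.2) (a * p.1) ∂((mu n).prod (mu n))) := by
    rw [← lintegral_const_mul' _ _ (by norm_num), ← lintegral_const_mul' _ _ (by norm_num),
      ← lintegral_add_left' (hm1.const_mul _)]
    refine lintegral_mono fun p => ?_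
    simp only
    have h3 := Dq_triangle hF.opos p.1 (p.1 * p.2) (a * p.1)
    calc (ib T p.1 * Dq F p.1 (a * p.1)) * (ENNReal.ofReal (kap (2 * s) p.2) * ib 2 p.2)
        ≤ (ib T p.1 * (2 * Dq F p.1 (p.1 * p.2) + 2 * Dq F (p.1 * p.2) (a * p.1))) *
          (ENNReal.ofReal (kap (2 * s) p.2) * ib 2 p.2) := by gcongr
      _ = 2 * (ib T p.1 * ENNReal.ofReal (kap (2 * s) p.2) * Dq F p.1 (p.1 * p.2) * ib 2 p.2) +
          2 * (ib T p.1 * ENNReal.ofReal (kap (2 * s) p.2) * ib 2 p.2 *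
            Dq F (p.1 * p.2) (a * p.1)) := by ring
      _ ≤ 2 * (ib T p.1 * ENNReal.ofReal (kap (2 * s) p.2) * Dq F p.1 (p.1 * p.2) * 1) +
          2 * (ib T p.1 * ENNReal.ofReal (kap (2 * s) p.2) * ib 2 p.2 *
            Dq F (p.1 * p.2) (a * p.1)) := by
          gcongr
          exact ib_le_one _ _
      _ = _ := by rw [mul_one]
  have h3 : I * ENNReal.ofReal (1 / 2) ≤ 2 * ENNReal.ofReal (M₁ * r ^ 2) +
      2 * ENNReal.ofReal (B * (M₂ * r ^ 2)) := by
    calc I * ENNReal.ofReal (1 / 2)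
        ≤ I * ∫⁻ x : SUGroup n, ENNReal.ofReal (kap (2 * s) x) * ib 2 x ∂(mu n) := by
          gcongr; exact half_mass (by omega)
      _ ≤ _ := h1.le.trans h2
      _ ≤ 2 * ENNReal.ofReal (M₁ * r ^ 2) + 2 * ENNReal.ofReal (B * (M₂ * r ^ 2)) := by
          gcongr
          · refine (hM₁ (2 * s) (by omega)).trans (ENNReal.ofReal_le_ofReal ?_)
            rw [div_eq_mul_one_div]
            refine mul_le_mul_of_nonneg_left (le_trans ?_ hsi) hM₁0
            push_cast
            exact one_div_le_one_div_of_le hs0 (by linarith)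
          · refine hsh.trans ?_
            rw [ENNReal.ofReal_mul hB0]
            gcongr
            refine (hM₂ s hs1).trans (ENNReal.ofReal_le_ofReal ?_)
            rw [div_eq_mul_one_div]
            exact mul_le_mul_of_nonneg_left hsi hM₂0
  have h4 : I = I * ENNReal.ofReal (1 / 2) * ENNReal.ofReal 2 := by
    rw [mul_assoc, ← ENNReal.ofReal_mul (by norm_num)]
    norm_num
  rw [← hI, h4]
  calc I * ENNReal.ofReal (1 / 2) * ENNReal.ofReal 2
      ≤ (2 * ENNReal.ofReal (M₁ * r ^ 2) + 2 * ENNReal.ofReal (B * (M₂ * r ^ 2))) * ENNReal.ofReal 2 := by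
        gcongr
    _ = ENNReal.ofReal (4 * (M₁ + B * M₂) * r ^ 2) := by
        rw [show (2 : ℝ≥0∞) = ENNReal.ofReal 2 by norm_num, ← ENNReal.ofReal_mul (by norm_num),
          ← ENNReal.ofReal_mul (by norm_num), ← ENNReal.ofReal_add (by positivity) (by positivity),
          ← ENNReal.ofReal_mul (by positivity)]
        congr 1
        ring

end lim

end Pool.Agent.Lib.MP_5d4057_al.HM
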