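import Pool.Agent.Lib.MP_5d4057_al.HM.LipC

/-! The local integral estimate for `sig`. -/

namespace Pool.Agent.Lib.MP_5d4057_al.HM

open Matrix MeasureTheory Filter Topology Pool.Agent.Lib.MP_5d4057_al Pool.Agent.Lib.MP_5d4057_al.Hyb

open scoped ComplexOrder MatrixOrder Matrix.Norms.L2Operator ENNReal

variable {n m : ℕ} {Γ : Subgroup (SUGroup n)}

theorem ib_mono {T T' : ℝ} (h : T ≤ T') (g : SUGroup n) : ib T g ≤ ib T' g := by
  unfold ib
  split_ifs with h1 h2 h2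
  · exact le_rfl
  · exact absurd (h1.trans h) h2
  · exact zero_le
  · exact le_rfl

theorem lp_ch_two {a : SUGroup n} (h : ‖a.toMatrix - 1‖ ≤ 1) : ch a ≤ 2 := by
  have h1 := lp_ch_sq a
  have h2 := ch_pos a
  have h3 : ‖a.toMatrix - 1‖ ^ 2 ≤ 1 := pow_le_one₀ (norm_nonneg _) h
  nlinarith

theorem lp_ch_four {a : SUGroup n} (h : ‖a.toMatrix - 1‖ ≤ 1) (g : SUGroup n) :
    ch (a * g) ≤ 4 * ch g := by
  have h1 := lp_ch_two h
  have h2 := ch_pos g
  have h3 := ch_mul_le' a g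
  calc ch (a * g) ≤ 2 * ch a * ch g := h3
    _ ≤ 2 * 2 * ch g := by gcongr
    _ = 4 * ch g := by ring

theorem lint_ib (T : ℝ) : ∫⁻ g, ib T g ∂(mu n) = ENNReal.ofReal ((mu n).real {g : SUGroup n | ch g ≤ T}) := by
  have h1 := lint_ball (n := n) T fun _ => 1
  simp only [mul_one, lintegral_const, one_mul, Measure.restrict_apply_univ] at h1
  rw [← h1, Measure.real, ENNReal.ofReal_toReal (isCompact_ball T).measure_lt_top.ne]

section lim

variable {ρ : Γ →* Mat m} {χ : SUGroup n → ℝ} {N : ℕ} {C : ℝ} {F : Vec n → Mat m}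

/-- The local integral estimate for the distance, all small translations. -/
theorem LimMet.lint_dq (hF : LimMet ρ χ N C F) (hΓ : Coc Γ) (hχ : Cut Γ χ) (T : ℝ) :
    ∃ M : ℝ, 0 ≤ M ∧ ∀ (a : SUGroup n) (r : ℝ), 0 ≤ r → r ≤ 1 → ‖a.toMatrix - 1‖ ≤ r →
      ∫⁻ g, ib T g * Dq F g (a * g) ∂(mu n) ≤ ENNReal.ofReal (M * r ^ 2) := by
  obtain ⟨T', hT'⟩ : ∃ T' : ℝ, T' = max 1 T := ⟨_, rfl⟩
  have hT1 : 1 ≤ T' := by rw [hT']; exact le_max_left _ _
  have hTT : T ≤ T' := by rw [hT']; exact le_max_right _ _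
  obtain ⟨M₁, hM₁0, hM₁⟩ := hF.lint_small hΓ hχ hT1
  obtain ⟨R, hR1, hR⟩ := hF.dT_bound (4 * T')
  obtain ⟨c, hc⟩ : ∃ c : ℝ, c = (2 * (n + 1)) ^ 2 * (4 * T') ^ 2 := ⟨_, rfl⟩
  have hc0 : 0 < c := by rw [hc]; positivity
  obtain ⟨V, hV⟩ : ∃ V : ℝ, V = (mu n).real {g : SUGroup n | ch g ≤ T'} := ⟨_, rfl⟩
  have hV0 : 0 ≤ V := by rw [hV]; exact measureReal_nonneg
  refine ⟨M₁ + (2 * c) ^ 2 * ((2 * Real.log R) ^ 2 * V), by positivity, fun a r hr0 hr1 har => ?_⟩
  rcases hr0.eq_or_lt with hr | hr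
  · have h1 : a.toMatrix - 1 = 0 := by
      rw [← norm_le_zero_iff, hr]; exact har
    have h2 : a = 1 := toMatrix_injective ((sub_eq_zero.1 h1).trans toMatrix_one.symm)
    have h3 : ∫⁻ g, ib T g * Dq F g (a * g) ∂(mu n) = 0 := by
      rw [h2]
      simp only [one_mul, Dq_self, mul_zero, lintegral_zero]
    rw [h3]; exact zero_le
  · have h0 : ∫⁻ g, ib T g * Dq F g (a * g) ∂(mu n) ≤ ∫⁻ g, ib T' g * Dq F g (a * g) ∂(mu n) :=
      lintegral_mono fun g => mul_le_mul_left (ib_mono hTT g) _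
    refine h0.trans ?_
    by_cases hcr : c * r ≤ 1 / 2
    · refine (hM₁ a r hr hr1 har (by rw [← hc]; exact hcr)).trans (ENNReal.ofReal_le_ofReal ?_)
      refine mul_le_mul_of_nonneg_right ?_ (by positivity)
      have : 0 ≤ (2 * c) ^ 2 * ((2 * Real.log R) ^ 2 * V) := by positivity
      linarith
    · have h1 : ∀ g, ib T' g * Dq F g (a * g) ≤ ib T' g * ENNReal.ofReal ((2 * Real.log R) ^ 2) := by
        intro g
        by_cases hg : ch g ≤ T'
        · refine mul_le_mul_right ?_ _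
          unfold Dq
          refine ENNReal.ofReal_le_ofReal ?_
          have h2 := lp_ch_four (har.trans hr1) g
          have h3 : ch g ≤ 4 * T' := by linarith
          have h4 : ch (a * g) ≤ 4 * T' := by linarith
          refine pow_le_pow_left₀ (dT_nonneg _ _) ?_ 2
          exact dT_le_norm (hF.opos g) (hF.opos _) hR1 (hR g h3).1 (hR g h3).2 (hR _ h4).1 (hR _ h4).2
        · have : ib T' g = 0 := by unfold ib; rw [if_neg hg]
          rw [this]; simp
      calc ∫⁻ g, ib T' g * Dq F g (a * g) ∂(mu n)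
          ≤ ∫⁻ g, ib T' g * ENNReal.ofReal ((2 * Real.log R) ^ 2) ∂(mu n) := lintegral_mono h1
        _ = ENNReal.ofReal V * ENNReal.ofReal ((2 * Real.log R) ^ 2) := by
            rw [lintegral_mul_const' _ _ ENNReal.ofReal_ne_top, lint_ib, hV]
        _ = ENNReal.ofReal (V * (2 * Real.log R) ^ 2) := by rw [ENNReal.ofReal_mul hV0]
        _ ≤ _ := by
            refine ENNReal.ofReal_le_ofReal ?_
            have h5 : 1 ≤ (2 * c * r) ^ 2 := by
              have : 1 ≤ 2 * c * r := by push Not at hcr; linarith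
              exact one_le_pow₀ this
            have h6 : 0 ≤ V * (2 * Real.log R) ^ 2 := by positivity
            have h7 : 0 ≤ M₁ * r ^ 2 := by positivity
            nlinarith

/-- The local integral estimate for `sig`. -/
theorem LimMet.lint_sig (hF : LimMet ρ χ N C F) (hΓ : Coc Γ) (hχ : Cut Γ χ) (T : ℝ) :
    ∃ M : ℝ, 0 ≤ M ∧ ∀ (a : SUGroup n) (r : ℝ), 0 ≤ r → r ≤ 1 → ‖a.toMatrix - 1‖ ≤ r →
      ∫⁻ g, ib T g * ENNReal.ofReal (sig (F (act g (base n))) (F (act (a * g) (base n)))) ∂(mu n) ≤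
        ENNReal.ofReal (M * r ^ 2) := by
  obtain ⟨M, hM0, hM⟩ := hF.lint_dq hΓ hχ T
  obtain ⟨R, hR1, hR⟩ := hF.dT_bound (max T (4 * T))
  refine ⟨m * R ^ 2 * M, by positivity, fun a r hr0 hr1 har => ?_⟩
  have h1 : ∀ g, ib T g * ENNReal.ofReal (sig (F (act g (base n))) (F (act (a * g) (base n)))) ≤
      ENNReal.ofReal (m * R ^ 2) * (ib T g * Dq F g (a * g)) := by
    intro g
    by_cases hg : ch g ≤ T
    · have h2 := lp_ch_four (har.trans hr1) g
      have h3 : ch g ≤ max T (4 * T) := hg.trans (le_max_left _ _)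
      have h4 : ch (a * g) ≤ max T (4 * T) := by
        refine le_trans ?_ (le_max_right _ _)
        linarith
      have h5 := sig_le_dT (hF.opos g) (hF.opos (a * g)) hR1 (hR g h3).1 (hR g h3).2 (hR _ h4).1
        (hR _ h4).2
      rw [mul_left_comm]
      refine mul_le_mul_right ?_ _
      unfold Dq
      rw [← ENNReal.ofReal_mul (by positivity)]
      exact ENNReal.ofReal_le_ofReal h5
    · have : ib T g = 0 := by unfold ib; rw [if_neg hg]
      rw [this]; simp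
  calc ∫⁻ g, ib T g * ENNReal.ofReal (sig (F (act g (base n))) (F (act (a * g) (base n)))) ∂(mu n)
      ≤ ∫⁻ g, ENNReal.ofReal (m * R ^ 2) * (ib T g * Dq F g (a * g)) ∂(mu n) := lintegral_mono h1
    _ = ENNReal.ofReal (m * R ^ 2) * ∫⁻ g, (ib T g * Dq F g (a * g)) ∂(mu n) :=
        lintegral_const_mul' _ _ ENNReal.ofReal_ne_top
    _ ≤ ENNReal.ofReal (m * R ^ 2) * ENNReal.ofReal (M * r ^ 2) := by
        gcongr
        exact hM a r hr0 hr1 har
    _ = _ := by rw [← ENNReal.ofReal_mul (by positivity), mul_assoc _ M]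

/-- The local integral estimate (dnote 3678 (d4)). -/
theorem integral_sig_le (_hn : 1 ≤ n) (hΓ : Coc Γ) {χ : SUGroup n → ℝ} (hχ : Cut Γ χ)
    {ρ : Γ →* Mat m} {N : ℕ} {C : ℝ} {F : Vec n → Mat m} (hF : LimMet ρ χ N C F) (T : ℝ) :
    ∃ C' : ℝ, ∀ a : SUGroup n, ‖a.toMatrix - 1‖ ≤ 1 →
      ∫ g in {g : SUGroup n | ch g ≤ T}, sig (F (act g (base n))) (F (act (a * g) (base n)))
        ∂(mu n) ≤ C' * ‖a.toMatrix - 1‖ ^ 2 := by
  obtain ⟨M, hM0, hM⟩ := hF.lint_sig hΓ hχ T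
  refine ⟨M, fun a ha => ?_⟩
  have h1 := hM a _ (norm_nonneg _) ha le_rfl
  rw [← lint_ball] at h1
  have h2 : AEStronglyMeasurable (fun g : SUGroup n => sig (F (act g (base n)))
      (F (act (a * g) (base n)))) (mu n) := aesm_sig hF.meas (hF.meas_left a) hF.opos fun g => hF.opos _
  rw [integral_eq_lintegral_of_nonneg_ae (Eventually.of_forall fun g => sig_nonneg (hF.opos _) (hF.opos _))
    h2.restrict]
  refine ENNReal.toReal_le_of_le_ofReal (by positivity) h1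

end lim

end Pool.Agent.Lib.MP_5d4057_al.HM
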