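import Pool.Agent.Lib.MP_5d4057_al.HM.LipA

/-! Measurability for the limit metric. -/

namespace Pool.Agent.Lib.MP_5d4057_al.HM

open Matrix MeasureTheory Filter Topology Pool.Agent.Lib.MP_5d4057_al Pool.Agent.Lib.MP_5d4057_al.Hyb

open scoped ComplexOrder MatrixOrder Matrix.Norms.L2Operator ENNReal

variable {n m : ℕ}

theorem aesm_comp {α X Y : Type} [MeasurableSpace α] {ν : Measure α} [TopologicalSpace X]
    [TopologicalSpace.PseudoMetrizableSpace X] [TopologicalSpace Y]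
    [TopologicalSpace.PseudoMetrizableSpace Y] [SecondCountableTopology Y] {φ : X → Y} {S : Set X}
    (hφ : ContinuousOn φ S) (hS : @MeasurableSet X (borel X) S) {f : α → X}
    (hf : AEStronglyMeasurable f ν) (hfS : ∀ a, f a ∈ S) :
    AEStronglyMeasurable (fun a => φ (f a)) ν := by
  let _ : MeasurableSpace X := borel X
  have _ : BorelSpace X := ⟨rfl⟩
  have hf' : AEMeasurable f ν := hf.aemeasurable
  have h1 : (ν.map f).restrict S = ν.map f := by
    refine Measure.restrict_eq_self_of_ae_mem ?_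
    exact (ae_map_iff (p := fun x => x ∈ S) hf' hS).2 (Eventually.of_forall hfS)
  have h2 : AEStronglyMeasurable φ (ν.map f) := by
    rw [← h1]
    exact hφ.aestronglyMeasurable hS
  exact h2.comp_aemeasurable hf'

theorem measurableSet_posDef (m : ℕ) : @MeasurableSet (Mat m) (borel (Mat m)) {A : Mat m | A.PosDef} := by
  let _ : MeasurableSpace (Mat m) := borel (Mat m)
  have _ : BorelSpace (Mat m) := ⟨rfl⟩
  have e : {A : Mat m | A.PosDef} = Set.Ici (0 : Mat m) ∩ {A : Mat m | IsUnit A} := by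
    ext A
    simp only [Set.mem_ofPred_eq, Set.mem_inter_iff, Set.mem_Ici]
    constructor
    · intro h
      exact ⟨h.posSemidef.nonneg, h.isUnit⟩
    · rintro ⟨h1, h2⟩
      exact (Matrix.nonneg_iff_posSemidef.1 h1).posDef_iff_isUnit.2 h2
  rw [e]
  exact isClosed_Ici.measurableSet.inter Units.isOpen.measurableSet

theorem measurableSet_posDef_prod (m : ℕ) : @MeasurableSet (Mat m × Mat m) (borel (Mat m × Mat m))
    {p : Mat m × Mat m | p.1.PosDef ∧ p.2.PosDef} := by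
  let _ : MeasurableSpace (Mat m) := borel (Mat m)
  have _ : BorelSpace (Mat m) := ⟨rfl⟩
  let i2 : MeasurableSpace (Mat m × Mat m) := borel (Mat m × Mat m)
  have _ : @BorelSpace (Mat m × Mat m) _ i2 := @BorelSpace.mk _ _ i2 rfl
  have h1 : @Measurable _ _ i2 _ (Prod.fst : Mat m × Mat m → Mat m) := continuous_fst.measurable
  have h2 : @Measurable _ _ i2 _ (Prod.snd : Mat m × Mat m → Mat m) := continuous_snd.measurable
  exact (h1 (measurableSet_posDef m)).inter (h2 (measurableSet_posDef m))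

instance instSCMat (m : ℕ) : SecondCountableTopology (Mat m) :=
  inferInstanceAs (SecondCountableTopology (Fin m → Fin m → ℂ))

theorem aesm_dT {α : Type} [MeasurableSpace α] {ν : Measure α} {f h : α → Mat m}
    (hf : AEStronglyMeasurable f ν) (hh : AEStronglyMeasurable h ν) (hfp : ∀ x, (f x).PosDef)
    (hhp : ∀ x, (h x).PosDef) : AEStronglyMeasurable (fun x => dT (f x) (h x)) ν :=
  aesm_comp (X := Mat m × Mat m) (f := fun x => (f x, h x)) continuousOn_dT
    (measurableSet_posDef_prod m) (hf.prodMk hh) fun x => ⟨hfp x, hhp x⟩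

theorem continuousOn_inv_posDef (m : ℕ) : ContinuousOn (fun A : Mat m => A⁻¹) {A : Mat m | A.PosDef} := by
  intro A hA
  obtain ⟨u, hu⟩ := hA.isUnit
  have h1 : ContinuousAt (Ring.inverse : Mat m → Mat m) A := by
    rw [← hu]
    exact NormedRing.inverse_continuousAt u
  refine ContinuousAt.continuousWithinAt ?_
  have h2 : (fun A : Mat m => A⁻¹) = Ring.inverse := by
    funext A
    exact nonsing_inv_eq_ringInverse A
  rw [h2]
  exact h1

theorem aesm_inv {α : Type} [MeasurableSpace α] {ν : Measure α} {f : α → Mat m}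
    (hf : AEStronglyMeasurable f ν) (hfp : ∀ x, (f x).PosDef) :
    AEStronglyMeasurable (fun x => (f x)⁻¹) ν :=
  aesm_comp (continuousOn_inv_posDef m) (measurableSet_posDef m) hf hfp

theorem aesm_sig {α : Type} [MeasurableSpace α] {ν : Measure α} {f h : α → Mat m}
    (hf : AEStronglyMeasurable f ν) (hh : AEStronglyMeasurable h ν) (hfp : ∀ x, (f x).PosDef)
    (hhp : ∀ x, (h x).PosDef) : AEStronglyMeasurable (fun x => sig (f x) (h x)) ν := by
  have h1 : AEStronglyMeasurable (fun x => (f x)⁻¹ * h x) ν := (aesm_inv hf hfp).mul hh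
  have h2 : AEStronglyMeasurable (fun x => (h x)⁻¹ * f x) ν := (aesm_inv hh hhp).mul hf
  have hc : Continuous fun A : Mat m => A.trace := by fun_prop
  have h3 : AEStronglyMeasurable (fun x => ((f x)⁻¹ * h x).trace) ν := hc.comp_aestronglyMeasurable h1
  have h4 : AEStronglyMeasurable (fun x => ((h x)⁻¹ * f x).trace) ν := hc.comp_aestronglyMeasurable h2
  have h5 : AEStronglyMeasurable (fun x => ((f x)⁻¹ * h x).trace + ((h x)⁻¹ * f x).trace) ν := h3.add h4
  have h6 : AEStronglyMeasurable (fun x => (((f x)⁻¹ * h x).trace + ((h x)⁻¹ * f x).trace).re) ν :=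
    Complex.continuous_re.comp_aestronglyMeasurable h5
  unfold sig
  exact h6.sub aestronglyMeasurable_const

theorem le_smul_one_of_norm {a : Mat m} (ha : a.IsHermitian) {R : ℝ} (h : ‖a‖ ≤ R) :
    a ≤ (R : ℂ) • (1 : Mat m) := by
  have h1 : a ≤ algebraMap ℝ (Mat m) ‖a‖ := IsSelfAdjoint.le_algebraMap_norm_self (show IsSelfAdjoint a from ha)
  have h2 : algebraMap ℝ (Mat m) ‖a‖ ≤ algebraMap ℝ (Mat m) R := by
    exact algebraMap_mono (Mat m) h
  have h3 : algebraMap ℝ (Mat m) R = (R : ℂ) • (1 : Mat m) := by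
    rw [Algebra.algebraMap_eq_smul_one]
    ext i j
    simp [Matrix.smul_apply]
  rw [← h3]
  exact h1.trans h2

theorem smul_one_le_of_norm_inv {b : Mat m} (hb : b.PosDef) {R : ℝ} (hR : 0 < R) (h : ‖b⁻¹‖ ≤ R) :
    ((R⁻¹ : ℝ) : ℂ) • (1 : Mat m) ≤ b := by
  have h1 := le_smul_one_of_norm hb.inv.isHermitian h
  have h2 := inv_le_inv_of_le hb.inv h1
  rw [nonsing_inv_nonsing_inv b ((isUnit_iff_isUnit_det b).1 hb.isUnit)] at h2
  have h3 : ((R : ℂ) • (1 : Mat m))⁻¹ = ((R⁻¹ : ℝ) : ℂ) • (1 : Mat m) := by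
    apply inv_eq_right_inv
    rw [smul_mul_smul_comm, one_mul]
    have h : (R : ℂ) * ((R⁻¹ : ℝ) : ℂ) = 1 := by
      rw [← Complex.ofReal_mul, mul_inv_cancel₀ hR.ne', Complex.ofReal_one]
    rw [h, one_smul]
  rwa [h3] at h2

theorem smul_le_smul_mat {a b : Mat m} {r : ℝ} (hr : 0 ≤ r) (h : a ≤ b) : (r : ℂ) • a ≤ (r : ℂ) • b := by
  rw [Matrix.le_iff] at h ⊢
  rw [← smul_sub]
  exact h.smul (by exact_mod_cast hr)

theorem le_sq_smul {a b : Mat m} (ha : a.PosDef) (hb : b.PosDef) {R : ℝ} (hR : 0 < R)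
    (h1 : ‖a‖ ≤ R) (h4 : ‖b⁻¹‖ ≤ R) : a ≤ ((R * R : ℝ) : ℂ) • b := by
  have h5 := le_smul_one_of_norm ha.isHermitian h1
  have h6 := smul_le_smul_mat (r := R * R) (by positivity) (smul_one_le_of_norm_inv hb hR h4)
  rw [smul_smul, ← Complex.ofReal_mul, mul_assoc, mul_inv_cancel₀ hR.ne', mul_one] at h6
  exact h5.trans h6

/-- bounds of `dT` and `sig` by norms -/
theorem dT_le_norm {a b : Mat m} (ha : a.PosDef) (hb : b.PosDef) {R : ℝ} (hR : 1 ≤ R)
    (h1 : ‖a‖ ≤ R) (h2 : ‖a⁻¹‖ ≤ R) (h3 : ‖b‖ ≤ R) (h4 : ‖b⁻¹‖ ≤ R) : dT a b ≤ 2 * Real.log R := by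
  have hR0 : 0 < R := by linarith
  have e1 : Real.exp (2 * Real.log R) = R * R := by
    rw [two_mul, Real.exp_add, Real.exp_log hR0]
  refine dT_le (by have := Real.log_nonneg hR; linarith) ?_ ?_
  · rw [e1]; exact le_sq_smul ha hb hR0 h1 h4
  · rw [e1]; exact le_sq_smul hb ha hR0 h3 h2

theorem sig_le_dT {a b : Mat m} (ha : a.PosDef) (hb : b.PosDef) {R : ℝ} (hR : 1 ≤ R)
    (h1 : ‖a‖ ≤ R) (h2 : ‖a⁻¹‖ ≤ R) (h3 : ‖b‖ ≤ R) (h4 : ‖b⁻¹‖ ≤ R) :
    sig a b ≤ m * R ^ 2 * dT a b ^ 2 := by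
  have hR0 : 0 < R := by linarith
  obtain ⟨t, ht⟩ : ∃ t, t = dT a b := ⟨_, rfl⟩
  have ht0 : 0 ≤ t := by rw [ht]; exact dT_nonneg a b
  have h5 : sig a b ≤ m * (Real.exp (t / 2) - Real.exp (-(t / 2))) ^ 2 := by
    refine sig_le ht0 ha hb ?_ ?_
    · rw [ht]; exact le_exp_dT ha hb
    · rw [ht, dT_comm]; exact le_exp_dT hb ha
  have h6 : Real.exp t ≤ R ^ 2 := by
    have := dT_le_norm ha hb hR h1 h2 h3 h4
    rw [← ht] at this
    calc Real.exp t ≤ Real.exp (2 * Real.log R) := Real.exp_le_exp.2 this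
      _ = R ^ 2 := by rw [two_mul, Real.exp_add, Real.exp_log hR0, sq]
  have h7 : (Real.exp (t / 2) - Real.exp (-(t / 2))) ^ 2 ≤ t ^ 2 * Real.exp t := by
    have e1 : Real.exp (t / 2) - Real.exp (-(t / 2)) = Real.exp (t / 2) * (1 - Real.exp (-t)) := by
      rw [mul_sub, mul_one, ← Real.exp_add]; congr 2; ring
    have e2 : Real.exp t = Real.exp (t / 2) ^ 2 := by rw [← Real.exp_nat_mul]; congr 1; push_cast; ring
    rw [e1, e2, mul_pow, mul_comm (t ^ 2)]
    refine mul_le_mul_of_nonneg_left ?_ (by positivity)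
    have h8 : 1 - Real.exp (-t) ≤ t := by
      have := Real.add_one_le_exp (-t)
      linarith
    have h9 : 0 ≤ 1 - Real.exp (-t) := by
      have : Real.exp (-t) ≤ 1 := Real.exp_le_one_iff.2 (by linarith)
      linarith
    exact pow_le_pow_left₀ h9 h8 2
  rw [← ht]
  calc sig a b ≤ m * (Real.exp (t / 2) - Real.exp (-(t / 2))) ^ 2 := h5
    _ ≤ m * (t ^ 2 * Real.exp t) := mul_le_mul_of_nonneg_left h7 (Nat.cast_nonneg _)
    _ ≤ m * (t ^ 2 * R ^ 2) := by gcongr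
    _ = _ := by ring

theorem sig_le_norm' (a b : Mat m) : sig a b ≤ m * (‖a⁻¹‖ * ‖b‖ + ‖b⁻¹‖ * ‖a‖) := by
  have h1 := trace_le_norm (a⁻¹ * b)
  have h2 := trace_le_norm (b⁻¹ * a)
  have h3 : (m : ℝ) * ‖a⁻¹ * b‖ ≤ m * (‖a⁻¹‖ * ‖b‖) :=
    mul_le_mul_of_nonneg_left (norm_mul_le _ _) (Nat.cast_nonneg _)
  have h4 : (m : ℝ) * ‖b⁻¹ * a‖ ≤ m * (‖b⁻¹‖ * ‖a‖) :=
    mul_le_mul_of_nonneg_left (norm_mul_le _ _) (Nat.cast_nonneg _)
  have h5 : (0 : ℝ) ≤ m := Nat.cast_nonneg _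
  unfold sig
  rw [Complex.add_re, mul_add]
  linarith

theorem norm_sub_sq_le {a b : Mat m} (ha : a.PosDef) (hb : b.PosDef) {R : ℝ} (hR : 0 < R)
    (h1 : ‖a‖ ≤ R) (h3 : ‖b‖ ≤ R) : ‖b - a‖ ^ 2 ≤ R ^ 2 * sig a b := by
  have hX : (b - a)ᴴ = b - a := (hb.isHermitian.sub ha.isHermitian).eq
  have h5 := trace_square_ge (X := b - a) hR hb ha (le_smul_one_of_norm hb.isHermitian h3)
    (le_smul_one_of_norm ha.isHermitian h1)
  rw [hX] at h5
  have h6 := norm_le_trace (posSemidef_conjTranspose_mul_self (b - a))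
  rw [l2_opNorm_conjTranspose_mul_self, hX, ← sq] at h6
  rw [sig_eq ha hb]
  have h7 : (0 : ℝ) < R ^ 2 := by positivity
  rw [inv_mul_le_iff₀ h7] at h5
  exact h6.trans h5

end Pool.Agent.Lib.MP_5d4057_al.HM
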