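import Pool.Agent.Lib.MP_5d4057_al.HM.CutB

/-! A measurable function on the group which is almost everywhere Lipschitz for left translations agrees almost
everywhere with a function which is Lipschitz everywhere. -/

namespace Pool.Agent.Lib.MP_5d4057_al.HM

open Matrix MeasureTheory Filter Topology Pool.Agent.Lib.MP_5d4057_al Pool.Agent.Lib.MP_5d4057_al.Hyb

open scoped ComplexOrder MatrixOrder Matrix.Norms.L2Operator

variable {n m : ℕ} {E : Type} [NormedAddCommGroup E]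

/-- the modulus -/
private noncomputable def lrd (K : ℝ) (M : ℕ) (g g' : SUGroup n) : ℝ :=
  K * ‖(g' * g⁻¹).toMatrix - 1‖ * ch g ^ (2 * M)

private theorem lr_cont_norm : Continuous fun a : SUGroup n => ‖a.toMatrix - 1‖ :=
  ((continuous_toMatrix n).sub continuous_const).norm

private theorem lr_cont_norm2 :
    Continuous fun p : SUGroup n × SUGroup n => ‖(p.2 * p.1⁻¹).toMatrix - 1‖ :=
  lr_cont_norm.comp (continuous_snd.mul continuous_fst.inv)

private theorem lrd_cont (K : ℝ) (M : ℕ) :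
    Continuous fun p : SUGroup n × SUGroup n => lrd K M p.1 p.2 := by
  unfold lrd
  exact (continuous_const.mul lr_cont_norm2).mul ((continuous_ch.comp continuous_fst).pow _)

private theorem lr_cont_norm1 (g : SUGroup n) :
    Continuous fun h : SUGroup n => ‖(h * g⁻¹).toMatrix - 1‖ :=
  lr_cont_norm.comp (continuous_id.mul continuous_const)

private theorem lrd_cont1 (K : ℝ) (M : ℕ) (g : SUGroup n) :
    Continuous fun h : SUGroup n => lrd K M g h := by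
  unfold lrd
  exact (continuous_const.mul (lr_cont_norm1 g)).mul continuous_const

private theorem lrd_self (K : ℝ) (M : ℕ) (g : SUGroup n) : lrd K M g g = 0 := by
  rw [lrd, mul_inv_cancel, toMatrix_one, sub_self, norm_zero, mul_zero, zero_mul]

private theorem lr_norm_self (g : SUGroup n) : ‖(g * g⁻¹).toMatrix - 1‖ = 0 := by
  rw [mul_inv_cancel, toMatrix_one, sub_self, norm_zero]

/-- the measure theoretic part -/
private theorem lr_good {f : SUGroup n → E} (hm : AEStronglyMeasurable f (mu n)) {K : ℝ} {M : ℕ}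
    (hl : ∀ a : SUGroup n, ‖a.toMatrix - 1‖ ≤ 1 → ∀ᵐ g ∂(mu n),
      ‖f (a * g) - f g‖ ≤ K * ‖a.toMatrix - 1‖ * ch g ^ (2 * M)) :
    ∃ f₀ : SUGroup n → E, (∀ᵐ g ∂(mu n), f g = f₀ g) ∧
      ∀ᵐ g ∂(mu n), ∀ᵐ h ∂(mu n), ‖(h * g⁻¹).toMatrix - 1‖ ≤ 1 → ‖f₀ h - f₀ g‖ ≤ lrd K M g h := by
  obtain ⟨f₀, hf₀, hae⟩ := hm
  refine ⟨f₀, hae, ?_⟩
  have h1 : ∀ᵐ a ∂(mu n), ∀ᵐ g ∂(mu n), ‖a.toMatrix - 1‖ ≤ 1 →
      ‖f₀ (a * g) - f₀ g‖ ≤ K * ‖a.toMatrix - 1‖ * ch g ^ (2 * M) := by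
    refine Filter.Eventually.of_forall fun a => ?_
    by_cases ha : ‖a.toMatrix - 1‖ ≤ 1
    · have h2 : ∀ᵐ g ∂(mu n), f (a * g) = f₀ (a * g) :=
        (measurePreserving_mul_left (mu n) a).quasiMeasurePreserving.ae hae
      filter_upwards [hl a ha, hae, h2] with g e1 e2 e3 _
      rw [← e2, ← e3]
      exact e1
    · exact Filter.Eventually.of_forall fun g h => absurd h ha
  have hmeas : MeasurableSet {x : SUGroup n × SUGroup n | ‖x.1.toMatrix - 1‖ ≤ 1 →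
      ‖f₀ (x.1 * x.2) - f₀ x.2‖ ≤ K * ‖x.1.toMatrix - 1‖ * ch x.2 ^ (2 * M)} := by
    have e : {x : SUGroup n × SUGroup n | ‖x.1.toMatrix - 1‖ ≤ 1 →
      ‖f₀ (x.1 * x.2) - f₀ x.2‖ ≤ K * ‖x.1.toMatrix - 1‖ * ch x.2 ^ (2 * M)} =
      {x : SUGroup n × SUGroup n | ‖x.1.toMatrix - 1‖ ≤ 1}ᶜ ∪ {x : SUGroup n × SUGroup n |
        ‖f₀ (x.1 * x.2) - f₀ x.2‖ ≤ K * ‖x.1.toMatrix - 1‖ * ch x.2 ^ (2 * M)} := by
      ext x
      simp only [Set.mem_setOf_eq, Set.mem_union, Set.mem_compl_iff]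
      tauto
    rw [e]
    have c1 : Measurable fun x : SUGroup n × SUGroup n => ‖x.1.toMatrix - 1‖ :=
      (lr_cont_norm.comp continuous_fst).measurable
    have c2 : StronglyMeasurable fun x : SUGroup n × SUGroup n => f₀ (x.1 * x.2) :=
      hf₀.comp_measurable measurable_mul
    have c3 : StronglyMeasurable fun x : SUGroup n × SUGroup n => f₀ x.2 :=
      hf₀.comp_measurable measurable_snd
    have c4 : Measurable fun x : SUGroup n × SUGroup n => ‖f₀ (x.1 * x.2) - f₀ x.2‖ :=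
      (c2.sub c3).norm.measurable
    have c5 : Measurable fun x : SUGroup n × SUGroup n => K * ‖x.1.toMatrix - 1‖ * ch x.2 ^ (2 * M) :=
      ((continuous_const.mul (lr_cont_norm.comp continuous_fst)).mul
        ((continuous_ch.comp continuous_snd).pow _)).measurable
    exact (measurableSet_le c1 measurable_const).compl.union (measurableSet_le c4 c5)
  have h2 := (Measure.ae_ae_comm (μ := mu n) (ν := mu n) (p := fun a g => ‖a.toMatrix - 1‖ ≤ 1 →
      ‖f₀ (a * g) - f₀ g‖ ≤ K * ‖a.toMatrix - 1‖ * ch g ^ (2 * M)) hmeas).1 h1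
  filter_upwards [h2] with g hg
  have h3 := (measurePreserving_mul_right (mu n) g⁻¹).quasiMeasurePreserving.ae hg
  filter_upwards [h3] with h hh h4
  have h5 := hh h4
  rw [inv_mul_cancel_right] at h5
  exact h5

private theorem lr_lip {f₀ : SUGroup n → E} {K : ℝ} {M : ℕ} {g g' : SUGroup n}
    (hg : ∀ᵐ h ∂(mu n), ‖(h * g⁻¹).toMatrix - 1‖ ≤ 1 → ‖f₀ h - f₀ g‖ ≤ lrd K M g h)
    (hg' : ∀ᵐ h ∂(mu n), ‖(h * g'⁻¹).toMatrix - 1‖ ≤ 1 → ‖f₀ h - f₀ g'‖ ≤ lrd K M g' h)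
    (hgg : ‖(g' * g⁻¹).toMatrix - 1‖ < 1) : ‖f₀ g' - f₀ g‖ ≤ lrd K M g g' := by
  have hD := Measure.dense_of_ae (hg.and hg')
  obtain ⟨D, hDd⟩ : ∃ D : Set (SUGroup n), D = {h | (‖(h * g⁻¹).toMatrix - 1‖ ≤ 1 →
      ‖f₀ h - f₀ g‖ ≤ lrd K M g h) ∧
      (‖(h * g'⁻¹).toMatrix - 1‖ ≤ 1 → ‖f₀ h - f₀ g'‖ ≤ lrd K M g' h)} := ⟨_, rfl⟩
  rw [← hDd] at hD
  have hne : (𝓝[D] g').NeBot := mem_closure_iff_nhdsWithin_neBot.1 (hD g')
  have hc1 := lrd_cont1 K M g
  have hc2 := lrd_cont1 K M g'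
  have ht : Tendsto (fun h => lrd K M g h + lrd K M g' h) (𝓝 g')
      (𝓝 (lrd K M g g' + lrd K M g' g')) := (hc1.add hc2).tendsto g'
  rw [lrd_self K M g', add_zero] at ht
  have n1 := lr_cont_norm1 g
  have n2 := lr_cont_norm1 g'
  have ev1 : ∀ᶠ h in 𝓝 g', ‖(h * g⁻¹).toMatrix - 1‖ < 1 := n1.continuousAt.eventually_lt_const hgg
  have ev2 : ∀ᶠ h in 𝓝 g', ‖(h * g'⁻¹).toMatrix - 1‖ < 1 :=
    n2.continuousAt.eventually_lt_const (by
      show ‖(g' * g'⁻¹).toMatrix - 1‖ < 1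
      rw [lr_norm_self]
      exact zero_lt_one)
  have ev3 : ∀ᶠ h in 𝓝[D] g', ‖f₀ g' - f₀ g‖ ≤ lrd K M g h + lrd K M g' h := by
    have ev4 : ∀ᶠ h in 𝓝[D] g', h ∈ D := self_mem_nhdsWithin
    have ev5 := ev1.filter_mono (nhdsWithin_le_nhds (s := D))
    have ev6 := ev2.filter_mono (nhdsWithin_le_nhds (s := D))
    refine (ev4.and (ev5.and ev6)).mono fun h hh => ?_
    obtain ⟨e3, e1, e2⟩ := hh
    rw [hDd] at e3
    have a1 := e3.1 e1.le
    have a2 := e3.2 e2.le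
    have a3 : f₀ g' - f₀ g = (f₀ h - f₀ g) - (f₀ h - f₀ g') := by abel
    rw [a3]
    exact (norm_sub_le _ _).trans (add_le_add a1 a2)
  exact ge_of_tendsto (ht.mono_left nhdsWithin_le_nhds) ev3

/-- the everywhere Lipschitz representative -/
theorem exists_ext [CompleteSpace E] {f : SUGroup n → E} (hm : AEStronglyMeasurable f (mu n))
    {K : ℝ} {M : ℕ} (hl : ∀ a : SUGroup n, ‖a.toMatrix - 1‖ ≤ 1 → ∀ᵐ g ∂(mu n),
      ‖f (a * g) - f g‖ ≤ K * ‖a.toMatrix - 1‖ * ch g ^ (2 * M)) :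
    ∃ f' : SUGroup n → E, Continuous f' ∧ (∀ᵐ g ∂(mu n), f' g = f g) ∧
      ∀ a g : SUGroup n, ‖a.toMatrix - 1‖ < 1 →
        ‖f' (a * g) - f' g‖ ≤ K * ‖a.toMatrix - 1‖ * ch g ^ (2 * M) := by
  obtain ⟨f₀, hae, hgood⟩ := lr_good hm hl
  obtain ⟨S, hS⟩ : ∃ S : Set (SUGroup n), S = {g | ∀ᵐ h ∂(mu n),
    ‖(h * g⁻¹).toMatrix - 1‖ ≤ 1 → ‖f₀ h - f₀ g‖ ≤ lrd K M g h} := ⟨_, rfl⟩
  have hSd : Dense S := by
    rw [hS]
    exact Measure.dense_of_ae hgood
  have hlip : ∀ g ∈ S, ∀ g' ∈ S, ‖(g' * g⁻¹).toMatrix - 1‖ < 1 → ‖f₀ g' - f₀ g‖ ≤ lrd K M g g' := by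
    intro g hg g' hg' h
    rw [hS] at hg hg'
    exact lr_lip hg hg' h
  have hlim : ∀ b : SUGroup n, ∃ c, Tendsto (fun x : S => f₀ x) (comap (↑) (𝓝 b)) (𝓝 c) := by
    intro b
    have hne : (comap ((↑) : S → SUGroup n) (𝓝 b)).NeBot :=
      hSd.isDenseInducing_val.comap_nhds_neBot b
    refine cauchy_map_iff_exists_tendsto.1 ?_
    rw [cauchy_map_iff]
    refine ⟨hne, ?_⟩
    rw [Metric.uniformity_basis_dist.tendsto_right_iff]
    intro ε hε
    have e1 : ∀ᶠ p : SUGroup n × SUGroup n in 𝓝 (b, b), lrd K M p.1 p.2 < ε :=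
      (lrd_cont K M).continuousAt.eventually_lt_const (by
        show lrd K M b b < ε
        rw [lrd_self]
        exact hε)
    have e2 : ∀ᶠ p : SUGroup n × SUGroup n in 𝓝 (b, b), ‖(p.2 * p.1⁻¹).toMatrix - 1‖ < 1 :=
      lr_cont_norm2.continuousAt.eventually_lt_const (by
        show ‖(b * b⁻¹).toMatrix - 1‖ < 1
        rw [lr_norm_self]
        exact zero_lt_one)
    have ht : Tendsto (fun p : S × S => ((p.1 : SUGroup n), (p.2 : SUGroup n)))
        (comap ((↑) : S → SUGroup n) (𝓝 b) ×ˢ comap ((↑) : S → SUGroup n) (𝓝 b)) (𝓝 (b, b)) := by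
      rw [nhds_prod_eq]
      exact tendsto_comap.prodMap tendsto_comap
    filter_upwards [ht.eventually e1, ht.eventually e2] with p h1 h2
    show dist (f₀ p.1) (f₀ p.2) < ε
    rw [dist_comm, dist_eq_norm]
    exact (hlip _ p.1.2 _ p.2.2 h2).trans_lt h1
  have hcont : Continuous (hSd.isDenseInducing_val.extend fun x : S => f₀ x) :=
    hSd.isDenseInducing_val.continuous_extend hlim
  have hext : ∀ g ∈ S, hSd.isDenseInducing_val.extend (fun x : S => f₀ x) g = f₀ g := fun g hg =>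
    hSd.isDenseInducing_val.extend_eq' hlim ⟨g, hg⟩
  refine ⟨hSd.isDenseInducing_val.extend fun x : S => f₀ x, hcont, ?_, ?_⟩
  · filter_upwards [hae, hgood] with g e1 e2
    rw [e1]
    exact hext g (by rw [hS]; exact e2)
  · obtain ⟨f', hf'⟩ : ∃ f' : SUGroup n → E,
      f' = hSd.isDenseInducing_val.extend (fun x : S => f₀ x) := ⟨_, rfl⟩
    rw [← hf'] at hcont hext ⊢
    have key : ∀ p : SUGroup n × SUGroup n, ‖(p.2 * p.1⁻¹).toMatrix - 1‖ < 1 →
        ‖f' p.2 - f' p.1‖ ≤ lrd K M p.1 p.2 := by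
      intro p hp
      have hO : IsOpen {p : SUGroup n × SUGroup n | ‖(p.2 * p.1⁻¹).toMatrix - 1‖ < 1} :=
        isOpen_lt lr_cont_norm2 continuous_const
      have hd : Dense (S ×ˢ S) := hSd.prod hSd
      have hcl := hd.open_subset_closure_inter hO hp
      have hclosed : IsClosed {p : SUGroup n × SUGroup n | ‖f' p.2 - f' p.1‖ ≤ lrd K M p.1 p.2} :=
        isClosed_le ((hcont.comp continuous_snd).sub (hcont.comp continuous_fst)).norm (lrd_cont K M)
      refine hclosed.closure_subset_iff.2 ?_ hcl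
      rintro ⟨g, g'⟩ ⟨h1, h2, h3⟩
      show ‖f' g' - f' g‖ ≤ lrd K M g g'
      rw [hext g h2, hext g' h3]
      exact hlip g h2 g' h3 h1
    intro a g ha
    have h1 := key (g, a * g) (by
      show ‖(a * g * g⁻¹).toMatrix - 1‖ < 1
      rw [mul_inv_cancel_right]
      exact ha)
    rw [lrd] at h1
    simp only [mul_inv_cancel_right] at h1
    exact h1

end Pool.Agent.Lib.MP_5d4057_al.HM
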