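import Pool.Agent.Lib.MP_5d4057_al.HM.D4

/-!
Normalised critical pairs.
-/

namespace Pool.Agent.Lib.MP_5d4057_al.HM.DD

open Matrix MeasureTheory Filter Topology Pool.Agent.Lib.MP_5d4057_al Pool.Agent.Lib.MP_5d4057_al.Hyb

open scoped ComplexOrder MatrixOrder Matrix.Norms.L2Operator

variable {n m : ℕ} {Γ : Subgroup (SUGroup n)}

/-- A normalised critical pair at level `s`: `F₀` is a fixed reference metric. -/
structure Nor (ρ : Γ →* Mat m) (χ : SUGroup n → ℝ) (F₀ : Vec n → Mat m) (C : ℝ) (s : ℕ)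
    (H L : Vec n → Mat m) : Prop where
  pair : Pair ρ s H L
  dL : ∀ x, disp χ L L x ≤ C * (Real.log (wt x) + 1 / Real.sqrt s)
  dLH : disp χ L H 1 ≤ C / Real.sqrt s
  cL : disp χ F₀ L 1 ≤ C
  cH : disp χ F₀ H 1 ≤ C

theorem isUnit_of_posDef {a : Mat m} (ha : a.PosDef) : IsUnit a := ha.isUnit

theorem inv_smul_mat {a : Mat m} {c : ℝ} (hc : 0 < c) :
    ((c : ℂ) • a)⁻¹ = ((c⁻¹ : ℝ) : ℂ) • a⁻¹ := by
  have hc' : (c : ℂ) ≠ 0 := by exact_mod_cast hc.ne'
  by_cases hu : IsUnit a.det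
  · apply Matrix.inv_eq_left_inv
    rw [Matrix.smul_mul, Matrix.mul_smul, Matrix.nonsing_inv_mul a hu, smul_smul,
      Complex.ofReal_inv, inv_mul_cancel₀ hc', one_smul]
  · have h2 : ¬ IsUnit ((c : ℂ) • a).det := by
      rw [det_smul]
      intro h
      exact hu (isUnit_of_mul_isUnit_right h)
    rw [Matrix.nonsing_inv_apply_not_isUnit _ hu, Matrix.nonsing_inv_apply_not_isUnit _ h2,
      smul_zero]

private theorem inv_le_aux {a b : Mat m} (ha : a.PosDef) {t : ℝ}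
    (h : a ≤ (Real.exp t : ℂ) • b) : b⁻¹ ≤ (Real.exp t : ℂ) • a⁻¹ := by
  have h1 := inv_le_inv_of_le ha h
  rw [inv_smul_mat (Real.exp_pos t)] at h1
  have h3 : (0 : ℂ) ≤ ((Real.exp t : ℝ) : ℂ) := Complex.zero_le_real.2 (Real.exp_pos t).le
  have h2 := smul_le_smul_of_nonneg_left h1 h3
  rwa [smul_smul, ← Complex.ofReal_mul, mul_inv_cancel₀ (Real.exp_pos t).ne',
    Complex.ofReal_one, one_smul] at h2

private theorem dT_inv_le {a b : Mat m} (ha : a.PosDef) (hb : b.PosDef) :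
    dT a⁻¹ b⁻¹ ≤ dT a b := by
  refine dT_le (dT_nonneg _ _) ?_ ?_
  · have h := le_exp_dT hb ha
    rw [dT_comm b a] at h
    exact inv_le_aux hb h
  · exact inv_le_aux ha (le_exp_dT ha hb)

theorem dT_inv {a b : Mat m} (ha : a.PosDef) (hb : b.PosDef) : dT a⁻¹ b⁻¹ = dT a b := by
  refine le_antisymm (dT_inv_le ha hb) ?_
  have h := dT_inv_le ha.inv hb.inv
  rwa [Matrix.nonsing_inv_nonsing_inv _ ((Matrix.isUnit_iff_isUnit_det _).1 ha.isUnit),
    Matrix.nonsing_inv_nonsing_inv _ ((Matrix.isUnit_iff_isUnit_det _).1 hb.isUnit)] at h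

theorem disp_inv (χ : SUGroup n → ℝ) {ρ : Γ →* Mat m} {A B : Vec n → Mat m} (hA : Met ρ A)
    (hB : Met ρ B) (x : SUGroup n) :
    disp χ (fun v => (A v)⁻¹) (fun v => (B v)⁻¹) x = disp χ A B x := by
  unfold disp
  congr 1
  funext g
  exact dT_inv (met_pos hA _) (met_pos hB _)

theorem Nor.inv {ρ : Γ →* Mat m} {χ : SUGroup n → ℝ} {F₀ : Vec n → Mat m} (hF₀ : Met ρ F₀) {C : ℝ}
    {s : ℕ} {H L : Vec n → Mat m} (h : Nor ρ χ F₀ C s H L) :
    Nor (dual ρ) χ (fun v => (F₀ v)⁻¹) C s (fun v => (H v)⁻¹) (fun v => (L v)⁻¹) where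
  pair := h.pair.inv
  dL x := by
    rw [disp_inv χ h.pair.metL h.pair.metL]
    exact h.dL x
  dLH := by
    rw [disp_inv χ h.pair.metL h.pair.metH]
    exact h.dLH
  cL := by
    rw [disp_inv χ hF₀ h.pair.metL]
    exact h.cL
  cH := by
    rw [disp_inv χ hF₀ h.pair.metH]
    exact h.cH

theorem P_csmul (s : ℕ) (c : ℝ) (f : Vec n → Mat m) (v : Vec n) :
    P s (fun w => (c : ℂ) • f w) v = (c : ℂ) • P s f v := by
  have h1 : (fun w => (c : ℂ) • f w) = fun w => c • f w := by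
    funext w
    exact Complex.coe_smul c (f w)
  rw [h1, P_smul, Complex.coe_smul]

theorem Pair.csmul {ρ : Γ →* Mat m} {s : ℕ} {H L : Vec n → Mat m} (h : Pair ρ s H L) {t : ℝ}
    (ht : 0 < t) : Pair ρ s (fun v => (t : ℂ) • H v) (fun v => (t : ℂ) • L v) := by
  have key : ∀ A B : Vec n → Mat m, (∀ v ∈ Cone n, B v * P s (fun w => (A w)⁻¹) v * B v = P s A v) →
      ∀ v ∈ Cone n, ((t : ℂ) • B v) * P s (fun w => ((t : ℂ) • A w)⁻¹) v * ((t : ℂ) • B v) =
        P s (fun w => (t : ℂ) • A w) v := by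
    intro A B hAB v hv
    have h1 : (fun w => ((t : ℂ) • A w)⁻¹) = fun w => ((t⁻¹ : ℝ) : ℂ) • (A w)⁻¹ := by
      funext w
      exact inv_smul_mat ht
    rw [h1, P_csmul, P_csmul, ← hAB v hv]
    simp only [Matrix.smul_mul, Matrix.mul_smul, smul_smul]
    congr 1
    have ht' : (t : ℂ) ≠ 0 := by exact_mod_cast ht.ne'
    rw [Complex.ofReal_inv]
    field_simp
  exact ⟨smul_met h.metH ht, smul_met h.metL ht, key H L h.el1, key L H h.el2⟩

/-- **Normalised critical pairs exist.** -/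
theorem exists_nor (hn : 1 ≤ n) (hm : 0 < m) (hΓ : Coc Γ) {χ : SUGroup n → ℝ} (hχ : Cut Γ χ)
    (ρ : Γ →* Mat m) (hρ : Submodule.span ℂ (Set.range ρ) = ⊤) {F₀ : Vec n → Mat m}
    (hF₀ : Met ρ F₀) : ∃ (s₀ : ℕ) (C : ℝ), 0 < C ∧ ∀ s, s₀ ≤ s → ∃ H L : Vec n → Mat m,
      Nor ρ χ F₀ C s H L := by
  obtain ⟨s1, c0, h1⟩ := exists_pairs hn hm hΓ hχ ρ hρ
  obtain ⟨s2, h2⟩ := integrable_energy hn hΓ hχ ρ
  set c : ℝ := |c0| + 1 with hc
  have hc0 : 0 < c := by positivity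
  have hn' : (1 : ℝ) ≤ n := by exact_mod_cast hn
  -- constants
  set K : ℝ := 2 * Real.sqrt (8 * c) * (30 * n + 2) with hK
  have hK0 : 0 < K := by positivity
  obtain ⟨C1, hC1, h3⟩ := centre hm hΓ hχ hρ hF₀ K
  set K2 : ℝ := Real.sqrt (8 * c) * (240 * n * Real.sqrt n + 5) with hK2
  have hK20 : 0 < K2 := by positivity
  refine ⟨max (max s1 s2) (2 * n + 2), K + K2 + C1, by positivity, fun s hs => ?_⟩
  have hs1 : s1 ≤ s := ((le_max_left _ _).trans (le_max_left _ _)).trans hs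
  have hs2 : s2 ≤ s := ((le_max_right _ _).trans (le_max_left _ _)).trans hs
  have hs3 : 2 * n + 2 ≤ s := (le_max_right _ _).trans hs
  have hs0 : (2 : ℝ) * n + 2 ≤ s := by exact_mod_cast hs3
  have hsp : (0 : ℝ) < s := by linarith
  have hsq1 : 1 ≤ Real.sqrt s := Real.one_le_sqrt.2 (by linarith)
  have hsq : 0 < Real.sqrt s := by linarith
  obtain ⟨H, L, hp, hE⟩ := h1 s hs1
  obtain ⟨i1, i2⟩ := integral_disp_le hχ (s := s) hp.metL hp.metH (h2 s hs2 L H hp.metL hp.metH)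
  have hE2 : ∫ x, kap s x * disp χ L H x ^ 2 ∂(mu n) ≤ c / s := by
    refine i2.trans (hE.trans ?_)
    apply div_le_div_of_nonneg_right _ hsp.le
    have := le_abs_self c0
    linarith
  have hmass := good_mass hχ hn hs3 hp.metL hp.metH hc0 i1 hE2
  have hb : ∀ x, disp χ L L x ≤ K * (Real.log (wt x) + 1 / Real.sqrt s) := by
    intro x
    refine (disp_bound hΓ hχ hn hs3 hp.metL hp.metH hc0 hmass x).trans ?_
    have h4 := log_wt_nonneg x
    have h5 : 0 < 1 / Real.sqrt s := by positivity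
    have h6 : 2 / Real.sqrt s = 2 * (1 / Real.sqrt s) := by ring
    have h7 : 30 * n * Real.log (wt x) + 2 / Real.sqrt s ≤
        (30 * n + 2) * (Real.log (wt x) + 1 / Real.sqrt s) := by
      rw [h6]
      nlinarith
    have h8 : 0 ≤ 2 * Real.sqrt (8 * c) := by positivity
    have h9 := mul_le_mul_of_nonneg_left h7 h8
    rw [hK]
    linarith
  have hLH : disp χ L H 1 ≤ K2 / Real.sqrt s :=
    disp_LH hΓ hχ hn hs3 hp.metL hp.metH hc0 hmass
  obtain ⟨t, ht, hcen⟩ := h3 L hp.metL fun x => by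
    refine (hb x).trans (mul_le_mul_of_nonneg_left ?_ hK0.le)
    have : 1 / Real.sqrt s ≤ 1 := by
      rw [div_le_one hsq]
      exact hsq1
    linarith
  refine ⟨fun v => (t : ℂ) • H v, fun v => (t : ℂ) • L v, Pair.csmul hp ht, fun x => ?_, ?_, ?_, ?_⟩
  · rw [disp_smul _ _ _ ht]
    refine (hb x).trans (mul_le_mul_of_nonneg_right (by linarith) ?_)
    have := log_wt_nonneg x
    positivity
  · rw [disp_smul _ _ _ ht]
    exact hLH.trans (div_le_div_of_nonneg_right (by linarith) hsq.le)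
  · exact hcen.trans (by linarith)
  · have hmL := smul_met hp.metL ht
    have hmH := smul_met hp.metH ht
    have h5 := disp_triangle hΓ hχ hF₀ hmL hmH 1 1
    rw [inv_one, mul_one, disp_smul _ _ _ ht] at h5
    have h6 : K2 / Real.sqrt s ≤ K2 := div_le_self hK20.le hsq1
    linarith

end Pool.Agent.Lib.MP_5d4057_al.HM.DD
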