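import Mathlib

namespace Pool.Agent.Lib.MP_5d4057_al.HM

open Filter Topology Set

variable {V E : Type} [NormedAddCommGroup V] [NormedSpace ℝ V] [NormedAddCommGroup E]
  [NormedSpace ℝ E] [CompleteSpace E]

/-- A sequence of `C^1` functions converging pointwise whose derivatives have locally summable
differences: the limit is `C^1` and the derivatives converge locally uniformly. -/
theorem seq_C1 {U : Set V} (hU : IsOpen U) {f : ℕ → V → E} {F : V → E}
    (hf : ∀ᶠ s in atTop, ContDiffOn ℝ 1 (f s) U)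
    (hlim : ∀ x ∈ U, Tendsto (fun s => f s x) atTop (𝓝 (F x)))
    (hb : ∀ x ∈ U, ∃ r : ℝ, 0 < r ∧ ∃ u : ℕ → ℝ, Summable u ∧ ∀ᶠ s in atTop,
      ∀ y ∈ Metric.ball x r, y ∈ U → ‖fderiv ℝ (f (s + 1)) y - fderiv ℝ (f s) y‖ ≤ u s) :
    ContDiffOn ℝ 1 F U ∧
      TendstoLocallyUniformlyOn (fun s => fderiv ℝ (f s)) (fderiv ℝ F) atTop U := by
  classical
  -- pointwise limits of the derivatives
  have hG : ∀ y, ∃ G : V →L[ℝ] E, y ∈ U → Tendsto (fun s => fderiv ℝ (f s) y) atTop (𝓝 G) := by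
    intro y
    by_cases hy : y ∈ U
    · obtain ⟨r, hr, u, hu, h⟩ := hb y hy
      obtain ⟨s₀, hs₀⟩ := eventually_atTop.mp h
      have hc : CauchySeq fun s => fderiv ℝ (f (s + s₀)) y := by
        refine cauchySeq_of_dist_le_of_summable (fun s => u (s + s₀)) (fun s => ?_)
          ((summable_nat_add_iff s₀).mpr hu)
        rw [dist_eq_norm, ← norm_neg, neg_sub]
        have := hs₀ (s + s₀) (by omega) y (Metric.mem_ball_self hr) hy
        have e : s + 1 + s₀ = s + s₀ + 1 := by ring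
        rw [e]
        exact this
      obtain ⟨G, hG⟩ := cauchySeq_tendsto_of_complete hc
      exact ⟨G, fun _ => (tendsto_add_atTop_iff_nat s₀).mp hG⟩
    · exact ⟨0, fun h => absurd h hy⟩
  choose G hG using hG
  have hloc : TendstoLocallyUniformlyOn (fun s => fderiv ℝ (f s)) G atTop U := by
    rw [Metric.tendstoLocallyUniformlyOn_iff]
    intro ε hε x hx
    obtain ⟨r, hr, u, hu, h⟩ := hb x hx
    obtain ⟨s₀, hs₀⟩ := eventually_atTop.mp h
    refine ⟨U ∩ Metric.ball x r, ?_, ?_⟩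
    · exact inter_mem_nhdsWithin U (Metric.ball_mem_nhds x hr)
    · have ht : Tendsto (fun s => ∑' j, u (j + s)) atTop (𝓝 0) := tendsto_sum_nat_add u
      have ht' : ∀ᶠ s in atTop, ∑' j, u (j + s) < ε := (tendsto_order.1 ht).2 ε hε
      filter_upwards [ht', eventually_ge_atTop s₀] with s hs hs1
      intro y hy
      have h1 : dist (fderiv ℝ (f (0 + s)) y) (G y) ≤ ∑' j, u (0 + j + s) := by
        refine dist_le_tsum_of_dist_le_of_tendsto (f := fun j => fderiv ℝ (f (j + s)) y)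
          (fun j => u (j + s)) (fun j => ?_) ((summable_nat_add_iff s).mpr hu)
          ((tendsto_add_atTop_iff_nat s).mpr (hG y hy.1)) 0
        rw [dist_eq_norm, ← norm_neg, neg_sub]
        have := hs₀ (j + s) (by omega) y hy.2 hy.1
        have e : j.succ + s = j + s + 1 := by omega
        show ‖fderiv ℝ (f (j.succ + s)) y - fderiv ℝ (f (j + s)) y‖ ≤ u (j + s)
        rw [e]
        exact this
      simp only [zero_add] at h1
      rw [dist_comm]
      exact h1.trans_lt hs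
  have hd : ∀ x ∈ U, HasFDerivAt F (G x) x := by
    intro x hx
    obtain ⟨s₀, hs₀⟩ := eventually_atTop.mp hf
    refine hasFDerivAt_of_tendstoLocallyUniformlyOn (l := atTop) (f := fun s => f (s + s₀))
      (f' := fun s => fderiv ℝ (f (s + s₀))) hU ?_ (fun s y hy => ?_) (fun y hy => ?_) hx
    · intro v hv y hy
      obtain ⟨t, ht, h⟩ := hloc v hv y hy
      exact ⟨t, ht, (tendsto_add_atTop_nat s₀).eventually h⟩
    · exact (((hs₀ (s + s₀) (by omega)).differentiableOn one_ne_zero).differentiableAt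
        (hU.mem_nhds hy)).hasFDerivAt
    · exact (tendsto_add_atTop_iff_nat s₀).mpr (hlim y hy)
  have hfd : ∀ x ∈ U, fderiv ℝ F x = G x := fun x hx => (hd x hx).fderiv
  have hloc' : TendstoLocallyUniformlyOn (fun s => fderiv ℝ (f s)) (fderiv ℝ F) atTop U := by
    refine hloc.congr_right fun x hx => (hfd x hx).symm
  refine ⟨?_, hloc'⟩
  have hcont : ContinuousOn (fderiv ℝ F) U := by
    refine hloc'.continuousOn (Eventually.frequently ?_)
    filter_upwards [hf] with s hs
    exact hs.continuousOn_fderiv_of_isOpen hU le_rfl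
  rw [show (1 : WithTop ℕ∞) = 0 + 1 from rfl, contDiffOn_succ_iff_fderiv_of_isOpen hU]
  refine ⟨fun x hx => (hd x hx).differentiableAt.differentiableWithinAt, by simp, ?_⟩
  exact contDiffOn_zero.mpr hcont

/-- Second step: the same for second derivatives. -/
theorem seq_C2 {U : Set V} (hU : IsOpen U) {f : ℕ → V → E} {F : V → E}
    (hf : ∀ᶠ s in atTop, ContDiffOn ℝ 2 (f s) U)
    (h1 : ContDiffOn ℝ 1 F U)
    (hlim : TendstoLocallyUniformlyOn (fun s => fderiv ℝ (f s)) (fderiv ℝ F) atTop U)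
    (hb : ∀ x ∈ U, ∃ r : ℝ, 0 < r ∧ ∃ u : ℕ → ℝ, Summable u ∧ ∀ᶠ s in atTop,
      ∀ y ∈ Metric.ball x r, y ∈ U →
        ‖fderiv ℝ (fderiv ℝ (f (s + 1))) y - fderiv ℝ (fderiv ℝ (f s)) y‖ ≤ u s) :
    ContDiffOn ℝ 2 F U ∧
      TendstoLocallyUniformlyOn (fun s => fderiv ℝ (fderiv ℝ (f s))) (fderiv ℝ (fderiv ℝ F))
        atTop U := by
  obtain ⟨h2, h3⟩ := seq_C1 (f := fun s => fderiv ℝ (f s)) (F := fderiv ℝ F) hU
    (by
      filter_upwards [hf] with s hs
      exact hs.fderiv_of_isOpen hU (by norm_num))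
    (fun x hx => hlim.tendsto_at hx) hb
  refine ⟨?_, h3⟩
  rw [show (2 : WithTop ℕ∞) = 1 + 1 by norm_num, contDiffOn_succ_iff_fderiv_of_isOpen hU]
  exact ⟨h1.differentiableOn one_ne_zero, by simp, h2⟩

end Pool.Agent.Lib.MP_5d4057_al.HM
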