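import Pool.Agent.Lib.MP_5d4057_al.HM.GradB
import Pool.Agent.Lib.MP_5d4057_al.HM.SeqLim

/-! The abstract core of the regularity part (blueprint E7): functions with
`P s F - P (s+1) F = (lam s)⁻¹ • P s E₀`. -/

namespace Pool.Agent.Lib.MP_5d4057_al.HM.Gr

open Matrix MeasureTheory Filter Topology Pool.Agent.Lib.MP_5d4057_al Pool.Agent.Lib.MP_5d4057_al.Hyb

open scoped ComplexOrder MatrixOrder Matrix.Norms.L2Operator

variable {n m : ℕ} {E : Type} [NormedAddCommGroup E] [NormedSpace ℝ E]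

/-- Locally bounded and locally Hölder continuous with exponent `1/2`. -/
def LH {V W : Type} [NormedAddCommGroup V] [NormedAddCommGroup W] (f : V → W) (U : Set V) : Prop :=
  ∀ v ∈ U, ∃ r K : ℝ, 0 < r ∧ 0 ≤ K ∧ Metric.ball v r ⊆ U ∧ ∀ u ∈ Metric.ball v r, ‖f u‖ ≤ K ∧
    ∀ w ∈ Metric.ball v r, ‖f u - f w‖ ≤ K * Real.sqrt ‖u - w‖

section LH

set_option linter.unusedSectionVars false

variable {V W W' : Type} [NormedAddCommGroup V] [NormedSpace ℝ V] [NormedAddCommGroup W]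
  [NormedSpace ℝ W] [NormedAddCommGroup W'] [NormedSpace ℝ W'] {U : Set V}

theorem LH.of_C1 (hU : IsOpen U) {f : V → W} (hf : ContDiffOn ℝ 1 f U) : LH f U := by
  intro v hv
  have h1 : ContDiffAt ℝ 1 f v := hf.contDiffAt (hU.mem_nhds hv)
  obtain ⟨K, t, ht, hK⟩ := h1.exists_lipschitzOnWith
  have h2 : ∀ᶠ u in 𝓝 v, ‖f u‖ < ‖f v‖ + 1 :=
    h1.continuousAt.norm.eventually_lt_const (by linarith)
  obtain ⟨r, hr, H⟩ := Metric.eventually_nhds_iff_ball.mp
    ((h2.and (hU.eventually_mem hv)).and ht)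
  refine ⟨min r (1 / 2), max (K : ℝ) (‖f v‖ + 1), by positivity, by positivity, fun u hu =>
    (H u (Metric.ball_subset_ball (min_le_left _ _) hu)).1.2, fun u hu => ⟨?_, fun w hw => ?_⟩⟩
  · exact ((H u (Metric.ball_subset_ball (min_le_left _ _) hu)).1.1.le).trans (le_max_right _ _)
  · have hu' := H u (Metric.ball_subset_ball (min_le_left _ _) hu)
    have hw' := H w (Metric.ball_subset_ball (min_le_left _ _) hw)
    have h3 := hK.dist_le_mul u hu'.2 w hw'.2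
    rw [dist_eq_norm, dist_eq_norm] at h3
    have h4 : ‖u - w‖ ≤ 1 := by
      have a := Metric.ball_subset_ball (min_le_right r (1 / 2)) hu
      have b := Metric.ball_subset_ball (min_le_right r (1 / 2)) hw
      rw [Metric.mem_ball] at a b
      have c := dist_triangle_right u w v
      rw [← dist_eq_norm]
      linarith
    have h5 : ‖u - w‖ ≤ Real.sqrt ‖u - w‖ := by
      have h0 := norm_nonneg (u - w)
      refine Real.le_sqrt_of_sq_le ?_
      nlinarith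
    calc ‖f u - f w‖ ≤ K * ‖u - w‖ := h3
      _ ≤ max (K : ℝ) (‖f v‖ + 1) * Real.sqrt ‖u - w‖ :=
          mul_le_mul (le_max_left _ _) h5 (norm_nonneg _) (by positivity)

/-- Common radius. -/
theorem LH.pair {f : V → W} {g : V → W'} (hf : LH f U) (hg : LH g U) {v : V} (hv : v ∈ U) :
    ∃ r K : ℝ, 0 < r ∧ 0 ≤ K ∧ Metric.ball v r ⊆ U ∧ ∀ u ∈ Metric.ball v r,
      (‖f u‖ ≤ K ∧ ‖g u‖ ≤ K) ∧ ∀ w ∈ Metric.ball v r,
        ‖f u - f w‖ ≤ K * Real.sqrt ‖u - w‖ ∧ ‖g u - g w‖ ≤ K * Real.sqrt ‖u - w‖ := by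
  obtain ⟨r, K, hr, hK, hb, h⟩ := hf v hv
  obtain ⟨r', K', hr', hK', hb', h'⟩ := hg v hv
  refine ⟨min r r', max K K', by positivity, by positivity, fun u hu =>
    hb (Metric.ball_subset_ball (min_le_left _ _) hu), fun u hu => ?_⟩
  have a := h u (Metric.ball_subset_ball (min_le_left _ _) hu)
  have b := h' u (Metric.ball_subset_ball (min_le_right _ _) hu)
  refine ⟨⟨a.1.trans (le_max_left _ _), b.1.trans (le_max_right _ _)⟩, fun w hw => ⟨?_, ?_⟩⟩
  · exact (a.2 w (Metric.ball_subset_ball (min_le_left _ _) hw)).trans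
      (mul_le_mul_of_nonneg_right (le_max_left _ _) (Real.sqrt_nonneg _))
  · exact (b.2 w (Metric.ball_subset_ball (min_le_right _ _) hw)).trans
      (mul_le_mul_of_nonneg_right (le_max_right _ _) (Real.sqrt_nonneg _))

theorem LH.add {f g : V → W} (hf : LH f U) (hg : LH g U) : LH (fun v => f v + g v) U := by
  intro v hv
  obtain ⟨r, K, hr, hK, hb, h⟩ := hf.pair hg hv
  refine ⟨r, 2 * K, hr, by positivity, hb, fun u hu => ⟨?_, fun w hw => ?_⟩⟩
  · have := norm_add_le (f u) (g u)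
    linarith [(h u hu).1.1, (h u hu).1.2]
  · obtain ⟨h1, h2⟩ := (h u hu).2 w hw
    have e : f u + g u - (f w + g w) = (f u - f w) + (g u - g w) := by abel
    rw [e]
    have := norm_add_le (f u - f w) (g u - g w)
    linarith

theorem LH.bilin {R : Type} [NormedAddCommGroup R] [NormedSpace ℝ R] (B : W →L[ℝ] W' →L[ℝ] R)
    {f : V → W} {g : V → W'} (hf : LH f U) (hg : LH g U) : LH (fun v => B (f v) (g v)) U := by
  intro v hv
  obtain ⟨r, K, hr, hK, hb, h⟩ := hf.pair hg hv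
  refine ⟨r, 2 * ‖B‖ * (K * K) + ‖B‖ * (K * K), hr, by positivity, hb, fun u hu =>
    ⟨?_, fun w hw => ?_⟩⟩
  · obtain ⟨⟨h1, h2⟩, -⟩ := h u hu
    calc ‖B (f u) (g u)‖ ≤ ‖B‖ * ‖f u‖ * ‖g u‖ := B.le_opNorm₂ _ _
      _ ≤ ‖B‖ * K * K := by gcongr
      _ ≤ _ := by
        have : 0 ≤ 2 * ‖B‖ * (K * K) := by positivity
        linarith
  · obtain ⟨⟨h1, h2⟩, h3⟩ := h u hu
    obtain ⟨⟨h1', h2'⟩, -⟩ := h w hw
    obtain ⟨h4, h5⟩ := h3 w hw
    have e : B (f u) (g u) - B (f w) (g w) = B (f u - f w) (g u) + B (f w) (g u - g w) := by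
      simp only [map_sub, _root_.sub_apply]
      abel
    rw [e]
    have a : ‖B (f u - f w) (g u)‖ ≤ ‖B‖ * (K * Real.sqrt ‖u - w‖) * K :=
      (B.le_opNorm₂ _ _).trans (by gcongr)
    have b : ‖B (f w) (g u - g w)‖ ≤ ‖B‖ * K * (K * Real.sqrt ‖u - w‖) :=
      (B.le_opNorm₂ _ _).trans (by gcongr)
    have c := norm_add_le (B (f u - f w) (g u)) (B (f w) (g u - g w))
    have d : 0 ≤ ‖B‖ * (K * K) * Real.sqrt ‖u - w‖ := by positivity
    calc _ ≤ ‖B‖ * (K * Real.sqrt ‖u - w‖) * K + ‖B‖ * K * (K * Real.sqrt ‖u - w‖) := by linarith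
      _ = 2 * ‖B‖ * (K * K) * Real.sqrt ‖u - w‖ := by ring
      _ ≤ _ := by
        rw [add_mul]
        linarith

theorem LH.clm (L : W →L[ℝ] W') {f : V → W} (hf : LH f U) : LH (fun v => L (f v)) U := by
  intro v hv
  obtain ⟨r, K, hr, hK, hb, h⟩ := hf v hv
  refine ⟨r, ‖L‖ * K, hr, by positivity, hb, fun u hu => ⟨?_, fun w hw => ?_⟩⟩
  · exact (L.le_opNorm _).trans (mul_le_mul_of_nonneg_left (h u hu).1 (norm_nonneg _))
  · rw [← map_sub]
    refine (L.le_opNorm _).trans ?_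
    rw [mul_assoc]
    exact mul_le_mul_of_nonneg_left ((h u hu).2 w hw) (norm_nonneg _)

theorem LH.zero (hU : IsOpen U) : LH (fun _ : V => (0 : W)) U := LH.of_C1 hU contDiffOn_const

theorem LH.sum (hU : IsOpen U) {ι : Type} (s : Finset ι) {f : ι → V → W} (hf : ∀ i, LH (f i) U) :
    LH (fun v => ∑ i ∈ s, f i v) U := by
  classical
  induction s using Finset.induction_on with
  | empty => simpa using LH.zero hU
  | insert i s hi ih =>
    have := (hf i).add ih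
    simpa [Finset.sum_insert hi] using this

theorem LH.mul {R : Type} [NormedRing R] [NormedAlgebra ℝ R] {f g : V → R} (hf : LH f U)
    (hg : LH g U) : LH (fun v => f v * g v) U :=
  LH.bilin (ContinuousLinearMap.mul ℝ R) hf hg

theorem LH.smul {f : V → ℝ} {g : V → W} (hf : LH f U) (hg : LH g U) : LH (fun v => f v • g v) U :=
  LH.bilin (ContinuousLinearMap.lsmul ℝ ℝ) hf hg

end LH

/-! Elementary estimates for the eigenvalues. -/

theorem lam_ge {s : ℕ} (hs : 2 * n + 1 ≤ s) : (s : ℝ) ^ 2 / 2 ≤ lam n s := by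
  have h1 : (2 * (n : ℝ) + 1) ≤ s := by exact_mod_cast hs
  have h2 : (0 : ℝ) ≤ n := Nat.cast_nonneg n
  rw [lam]
  nlinarith

theorem lam_pos' {s : ℕ} (hs : 2 * n + 1 ≤ s) : 0 < lam n s := by
  have h1 : (2 * (n : ℝ) + 1) ≤ s := by exact_mod_cast hs
  have h2 : (0 : ℝ) ≤ n := Nat.cast_nonneg n
  have := lam_ge hs
  have : 0 < (s : ℝ) ^ 2 / 2 := by
    have : 0 < (s : ℝ) := by linarith
    positivity
  linarith

/-- `(lam s)⁻¹ s^a ≤ 2 s^(a-2)`. -/
theorem inv_lam_mul_le {s : ℕ} (hs : 2 * n + 1 ≤ s) (a : ℝ) :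
    (lam n s)⁻¹ * (s : ℝ) ^ a ≤ 2 * (s : ℝ) ^ (a - 2) := by
  have h0 : 0 < (s : ℝ) := by
    have : 0 < s := by omega
    exact_mod_cast this
  have h1 := lam_ge hs
  have h2 := lam_pos' hs
  have e : (s : ℝ) ^ a = (s : ℝ) ^ (a - 2) * (s : ℝ) ^ 2 := by
    rw [← Real.rpow_natCast, ← Real.rpow_add h0]
    norm_num
  rw [e]
  have h3 : 0 ≤ (s : ℝ) ^ (a - 2) := by positivity
  rw [inv_mul_le_iff₀ h2]
  nlinarith

theorem summable_rpow' {a : ℝ} (ha : a < -1) (c : ℝ) : Summable fun s : ℕ => c * (s : ℝ) ^ a :=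
  (Real.summable_nat_rpow.mpr ha).mul_left c

/-- The first step: if the rescaled differences are locally Lipschitz with constant `O(√s)` then the
limit is of class `C¹`. -/
theorem core_one [CompleteSpace E] {F : Vec n → E} {N : ℕ} {C : ℝ} (hF : Adm N C F)
    (hlim : ∀ v ∈ Cone n, Tendsto (fun s => P s F v) atTop (𝓝 (F v)))
    (hN : ∀ v ∈ Cone n, ∃ r L : ℝ, 0 < r ∧ 0 ≤ L ∧ ∀ᶠ s : ℕ in atTop,
      ∀ u ∈ Metric.ball v r, u ∈ Cone n → ∀ w ∈ Metric.ball v r, w ∈ Cone n →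
        ‖lam n s • (P s F u - P (s + 1) F u) - lam n s • (P s F w - P (s + 1) F w)‖ ≤
          L * Real.sqrt s * ‖u - w‖) :
    ContDiffOn ℝ 1 F (Cone n) ∧
      TendstoLocallyUniformlyOn (fun s => fderiv ℝ (P s F)) (fderiv ℝ F) atTop (Cone n) := by
  have hcd : ∀ s, n + N < s → ContDiffOn ℝ (⊤ : ℕ∞) (P s F) (Cone n) := fun s hs =>
    contDiffOn_P_of (adm_wgt hF hs)
  refine seq_C1 (isOpen_cone n) ?_ hlim fun v hv => ?_
  · filter_upwards [eventually_gt_atTop (n + N)] with s hs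
    exact (hcd s hs).of_le (by exact_mod_cast (le_top : ((1 : ℕ) : ℕ∞) ≤ ⊤))
  · obtain ⟨r, L, hr, hL, h⟩ := hN v hv
    refine ⟨r, hr, fun s => (2 * L) * (s : ℝ) ^ (-(3 / 2) : ℝ), summable_rpow' (by norm_num) _, ?_⟩
    filter_upwards [h, eventually_gt_atTop (n + N), eventually_ge_atTop (2 * n + 1)] with s hs h1 h2
    intro u hu huU
    have hopen : IsOpen (Metric.ball v r ∩ Cone n) := Metric.isOpen_ball.inter (isOpen_cone n)
    have hmem : Metric.ball v r ∩ Cone n ∈ 𝓝 u := hopen.mem_nhds ⟨hu, huU⟩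
    have hLs : 0 ≤ L * Real.sqrt s := by positivity
    set D : Vec n → E := fun u => lam n s • (P s F u - P (s + 1) F u) with hD
    have hlip : LipschitzOnWith (Real.toNNReal (L * Real.sqrt s)) D (Metric.ball v r ∩ Cone n) := by
      refine LipschitzOnWith.of_dist_le_mul fun x hx y hy => ?_
      rw [dist_eq_norm, dist_eq_norm, Real.coe_toNNReal _ hLs]
      exact hs x hx.1 hx.2 y hy.1 hy.2
    have h3 := norm_fderiv_le_of_lipschitzOn ℝ hmem hlip
    rw [Real.coe_toNNReal _ hLs] at h3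
    have d1 : DifferentiableAt ℝ (P s F) u :=
      ((hcd s h1).differentiableOn (by simp)).differentiableAt ((isOpen_cone n).mem_nhds huU)
    have d2 : DifferentiableAt ℝ (P (s + 1) F) u :=
      ((hcd (s + 1) (by omega)).differentiableOn (by simp)).differentiableAt
        ((isOpen_cone n).mem_nhds huU)
    have h4 : fderiv ℝ D u = lam n s • (fderiv ℝ (P s F) u - fderiv ℝ (P (s + 1) F) u) := by
      exact ((d1.hasFDerivAt.sub d2.hasFDerivAt).const_smul (lam n s)).fderiv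
    have hl := lam_pos' h2
    rw [h4, norm_smul, Real.norm_of_nonneg hl.le] at h3
    rw [← norm_neg, neg_sub]
    have h5 : ‖fderiv ℝ (P s F) u - fderiv ℝ (P (s + 1) F) u‖ ≤
        (lam n s)⁻¹ * (L * Real.sqrt s) := by
      rw [le_inv_mul_iff₀ hl]
      exact h3
    refine h5.trans ?_
    have h6 := inv_lam_mul_le h2 (1 / 2)
    rw [← Real.sqrt_eq_rpow] at h6
    have e : (1 / 2 - 2 : ℝ) = -(3 / 2) := by norm_num
    rw [e] at h6
    calc (lam n s)⁻¹ * (L * Real.sqrt s) = L * ((lam n s)⁻¹ * Real.sqrt s) := by ring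
      _ ≤ L * (2 * (s : ℝ) ^ (-(3 / 2) : ℝ)) := mul_le_mul_of_nonneg_left h6 hL
      _ = _ := by ring

/-- The situation of the second and third step. -/
structure Step (N : ℕ) (C : ℝ) (F E₀ : Vec n → E) : Prop where
  admF : Adm N C F
  admE : Adm N C E₀
  lim : ∀ v ∈ Cone n, Tendsto (fun s => P s F v) atTop (𝓝 (F v))
  step : ∀ᶠ s : ℕ in atTop, ∀ v ∈ Cone n,
    P s F v - P (s + 1) F v = (lam n s)⁻¹ • P s E₀ v

theorem fd_aux {V W : Type} [NormedAddCommGroup V] [NormedSpace ℝ V] [NormedAddCommGroup W]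
    [NormedSpace ℝ W] {f g h : V → W} {c : ℝ} {v : V} (hf : DifferentiableAt ℝ f v)
    (hg : DifferentiableAt ℝ g v) (hh : DifferentiableAt ℝ h v)
    (e : ∀ᶠ u in 𝓝 v, f u - g u = c • h u) :
    fderiv ℝ f v - fderiv ℝ g v = c • fderiv ℝ h v := by
  have h1 : (fun u => f u - g u) =ᶠ[𝓝 v] fun u => c • h u := e
  have h2 : HasFDerivAt (fun u => f u - g u) (fderiv ℝ f v - fderiv ℝ g v) v :=
    hf.hasFDerivAt.sub hg.hasFDerivAt
  have h3 : HasFDerivAt (fun u => c • h u) (c • fderiv ℝ h v) v := hh.hasFDerivAt.const_smul c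
  have h4 := h1.fderiv_eq (𝕜 := ℝ)
  rw [h2.fderiv, h3.fderiv] at h4
  exact h4

theorem Step.fderiv_eq {N : ℕ} {C : ℝ} {F E₀ : Vec n → E} (h : Step N C F E₀) :
    ∀ᶠ s : ℕ in atTop, ∀ v ∈ Cone n,
      fderiv ℝ (P s F) v - fderiv ℝ (P (s + 1) F) v = (lam n s)⁻¹ • fderiv ℝ (P s E₀) v ∧
      fderiv ℝ (fderiv ℝ (P s F)) v - fderiv ℝ (fderiv ℝ (P (s + 1) F)) v =
        (lam n s)⁻¹ • fderiv ℝ (fderiv ℝ (P s E₀)) v := by
  filter_upwards [h.step, eventually_gt_atTop (n + N)] with s hs h1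
  have c1 : ContDiffOn ℝ (⊤ : ℕ∞) (P s F) (Cone n) := contDiffOn_P_of (adm_wgt h.admF h1)
  have c2 : ContDiffOn ℝ (⊤ : ℕ∞) (P (s + 1) F) (Cone n) :=
    contDiffOn_P_of (adm_wgt h.admF (by omega))
  have c3 : ContDiffOn ℝ (⊤ : ℕ∞) (P s E₀) (Cone n) := contDiffOn_P_of (adm_wgt h.admE h1)
  have key : ∀ v ∈ Cone n,
      fderiv ℝ (P s F) v - fderiv ℝ (P (s + 1) F) v = (lam n s)⁻¹ • fderiv ℝ (P s E₀) v := by
    intro v hv
    have hm := (isOpen_cone n).mem_nhds hv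
    have d1 : DifferentiableAt ℝ (P s F) v := (c1.differentiableOn (by simp)).differentiableAt hm
    have d2 : DifferentiableAt ℝ (P (s + 1) F) v :=
      (c2.differentiableOn (by simp)).differentiableAt hm
    have d3 : DifferentiableAt ℝ (P s E₀) v := (c3.differentiableOn (by simp)).differentiableAt hm
    exact fd_aux d1 d2 d3 (Filter.eventually_of_mem hm hs)
  intro v hv
  refine ⟨key v hv, ?_⟩
  have hm := (isOpen_cone n).mem_nhds hv
  have c1' : DifferentiableAt ℝ (fderiv ℝ (P s F)) v :=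
    ((c1.fderiv_of_isOpen (m := (⊤ : ℕ∞)) (isOpen_cone n) (by simp)).differentiableOn
      (by simp)).differentiableAt hm
  have c2' : DifferentiableAt ℝ (fderiv ℝ (P (s + 1) F)) v :=
    ((c2.fderiv_of_isOpen (m := (⊤ : ℕ∞)) (isOpen_cone n) (by simp)).differentiableOn
      (by simp)).differentiableAt hm
  have c3' : DifferentiableAt ℝ (fderiv ℝ (P s E₀)) v :=
    ((c3.fderiv_of_isOpen (m := (⊤ : ℕ∞)) (isOpen_cone n) (by simp)).differentiableOn
      (by simp)).differentiableAt hm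
  exact fd_aux c1' c2' c3' (Filter.eventually_of_mem hm key)

end Pool.Agent.Lib.MP_5d4057_al.HM.Gr
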