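import Pool.Agent.Lib.MP_5d4057_al.HM.RegE

/-! The abstract core of the regularity part, continued: Hölder continuity of the derivative and
the second derivative. -/

namespace Pool.Agent.Lib.MP_5d4057_al.HM.Gr

open Matrix MeasureTheory Filter Topology Pool.Agent.Lib.MP_5d4057_al Pool.Agent.Lib.MP_5d4057_al.Hyb

open scoped ComplexOrder MatrixOrder Matrix.Norms.L2Operator

variable {n m : ℕ} {E : Type} [NormedAddCommGroup E] [NormedSpace ℝ E]

/-- `min (a √s) (b s d) ≤ √(a b) s^(3/4) √d`. -/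
theorem interpol {x a b d s : ℝ} (hx : 0 ≤ x) (ha : 0 ≤ a) (hb : 0 ≤ b) (hd : 0 ≤ d) (hs : 0 < s)
    (h1 : x ≤ a * Real.sqrt s) (h2 : x ≤ b * s * d) :
    x ≤ Real.sqrt (a * b) * s ^ (3 / 4 : ℝ) * Real.sqrt d := by
  have h3 : x ^ 2 ≤ (a * Real.sqrt s) * (b * s * d) := by
    rw [sq]
    exact mul_le_mul h1 h2 hx (by positivity)
  have h4 : (Real.sqrt (a * b) * s ^ (3 / 4 : ℝ) * Real.sqrt d) ^ 2 =
      (a * Real.sqrt s) * (b * s * d) := by
    rw [mul_pow, mul_pow, Real.sq_sqrt (by positivity), Real.sq_sqrt hd]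
    have : (s ^ (3 / 4 : ℝ)) ^ 2 = Real.sqrt s * s := by
      rw [Real.sqrt_eq_rpow, ← Real.rpow_natCast, ← Real.rpow_mul hs.le]
      nth_rewrite 3 [← Real.rpow_one s]
      rw [← Real.rpow_add hs]
      norm_num
    rw [this]
    ring
  rw [← h4] at h3
  exact le_of_sq_le_sq h3 (by positivity)

/-- Bounds for the derivatives of `P s E₀` on a ball. -/
theorem ball_bounds {N : ℕ} {C : ℝ} {E₀ : Vec n → E} (hE : Adm N C E₀) {v : Vec n}
    (hv : v ∈ Cone n) : ∃ r K : ℝ, 0 < r ∧ 0 ≤ K ∧ Metric.ball v r ⊆ Cone n ∧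
      ∀ s : ℕ, n + N + 2 < s → ∀ u ∈ Metric.ball v r,
        ‖fderiv ℝ (P s E₀) u‖ ≤ K * Real.sqrt s ∧ ‖fderiv ℝ (fderiv ℝ (P s E₀)) u‖ ≤ K * s := by
  obtain ⟨K₁, hK₁, H₁⟩ := grad_one n N
  obtain ⟨K₂, hK₂, H₂⟩ := grad_two n N
  obtain ⟨r, M, hr, hM, hb, hB⟩ := exists_ball hv
  have hC := adm_nn hE
  refine ⟨r, K₁ * C * (M ^ N * M) + K₂ * C * (M ^ N * M ^ 2), hr, by positivity, hb,
    fun s hs u hu => ?_⟩
  have hW := W_nonneg (hb hu)
  have hl := lo_nonneg u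
  obtain ⟨h1, h2⟩ := hB u hu
  have a := H₁ s hs E E₀ C hE u (hb hu)
  have b := H₂ s hs E E₀ C hE u (hb hu)
  have p1 : 0 ≤ K₁ * C * (M ^ N * M) := by positivity
  have p2 : 0 ≤ K₂ * C * (M ^ N * M ^ 2) := by positivity
  constructor
  · calc _ ≤ K₁ * C * Real.sqrt s * (W u ^ N * lo u) := a
      _ ≤ K₁ * C * Real.sqrt s * (M ^ N * M) := by gcongr
      _ = (K₁ * C * (M ^ N * M)) * Real.sqrt s := by ring
      _ ≤ _ := mul_le_mul_of_nonneg_right (by linarith) (Real.sqrt_nonneg _)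
  · calc _ ≤ K₂ * C * s * (W u ^ N * lo u ^ 2) := b
      _ ≤ K₂ * C * s * (M ^ N * M ^ 2) := by gcongr
      _ = (K₂ * C * (M ^ N * M ^ 2)) * s := by ring
      _ ≤ _ := mul_le_mul_of_nonneg_right (by linarith) (Nat.cast_nonneg _)

/-- The second step: the derivative of `F` is Hölder continuous. -/
theorem core_holder [CompleteSpace E] {N : ℕ} {C : ℝ} {F E₀ : Vec n → E} (h : Step N C F E₀) :
    ContDiffOn ℝ 1 F (Cone n) ∧
      TendstoLocallyUniformlyOn (fun s => fderiv ℝ (P s F)) (fderiv ℝ F) atTop (Cone n) ∧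
      LH (fderiv ℝ F) (Cone n) := by
  have hcd : ∀ s, n + N < s → ContDiffOn ℝ (⊤ : ℕ∞) (P s E₀) (Cone n) := fun s hs =>
    contDiffOn_P_of (adm_wgt h.admE hs)
  have hcdF : ∀ s, n + N < s → ContDiffOn ℝ (⊤ : ℕ∞) (P s F) (Cone n) := fun s hs =>
    contDiffOn_P_of (adm_wgt h.admF hs)
  obtain ⟨h1, h2⟩ := core_one h.admF h.lim (fun v hv => by
    obtain ⟨r, K, hr, hK, hb, H⟩ := ball_bounds h.admE hv
    refine ⟨r, K, hr, hK, ?_⟩
    filter_upwards [h.step, eventually_gt_atTop (n + N + 2), eventually_ge_atTop (2 * n + 1)]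
      with s hs h1 h2
    intro u hu huU w hw hwU
    have hl := lam_pos' h2
    rw [hs u huU, hs w hwU, smul_smul, smul_smul, mul_inv_cancel₀ hl.ne', one_smul, one_smul]
    have h3 : ∀ x ∈ Metric.ball v r, DifferentiableAt ℝ (P s E₀) x := fun x hx =>
      ((hcd s (by omega)).differentiableOn (by simp)).differentiableAt
        ((isOpen_cone n).mem_nhds (hb hx))
    exact (convex_ball v r).norm_image_sub_le_of_norm_fderiv_le h3
      (fun x hx => (H s h1 x hx).1) hw hu)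
  refine ⟨h1, h2, fun v hv => ?_⟩
  obtain ⟨r, K, hr, hK, hb, H⟩ := ball_bounds h.admE hv
  obtain ⟨r', K', hr', hK', hb', H'⟩ := ball_bounds h.admF hv
  -- the common radius
  obtain ⟨t, ht⟩ := eventually_atTop.mp ((h.fderiv_eq.and (eventually_gt_atTop (n + N + 2))).and
    (eventually_ge_atTop (2 * n + 1)))
  set ρ : ℝ := min r r' with hρ
  have hρ0 : 0 < ρ := lt_min hr hr'
  have hsub : Metric.ball v ρ ⊆ Metric.ball v r := Metric.ball_subset_ball (min_le_left _ _)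
  have hsub' : Metric.ball v ρ ⊆ Metric.ball v r' := Metric.ball_subset_ball (min_le_right _ _)
  set K₃ : ℝ := Real.sqrt ((2 * K) * K) with hK₃
  have hsum : Summable fun s : ℕ => (2 * K₃) * (s : ℝ) ^ (-(5 / 4) : ℝ) :=
    summable_rpow' (by norm_num) _
  set K₄ : ℝ := ∑' s : ℕ, (2 * K₃) * (s : ℝ) ^ (-(5 / 4) : ℝ) with hK₄
  have hK₄0 : 0 ≤ K₄ := tsum_nonneg fun s => by positivity
  -- differences of derivatives of `P s E₀`
  have key : ∀ s, t ≤ s → ∀ u ∈ Metric.ball v ρ, ∀ w ∈ Metric.ball v ρ,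
      ‖fderiv ℝ (P s E₀) u - fderiv ℝ (P s E₀) w‖ ≤
        K₃ * (s : ℝ) ^ (3 / 4 : ℝ) * Real.sqrt ‖u - w‖ := by
    intro s hs u hu w hw
    have hs1 := (ht s hs).1.2
    have hs0 : (0 : ℝ) < s := by
      have : 0 < s := by omega
      exact_mod_cast this
    refine interpol (norm_nonneg _) (by positivity) hK (norm_nonneg _) hs0 ?_ ?_
    · have a := norm_sub_le (fderiv ℝ (P s E₀) u) (fderiv ℝ (P s E₀) w)
      have b := (H s hs1 u (hsub hu)).1
      have c := (H s hs1 w (hsub hw)).1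
      linarith
    · have h3 : ∀ x ∈ Metric.ball v ρ, DifferentiableAt ℝ (fderiv ℝ (P s E₀)) x := fun x hx =>
        (((hcd s (by omega)).fderiv_of_isOpen (m := (⊤ : ℕ∞)) (isOpen_cone n)
          (by simp)).differentiableOn (by simp)).differentiableAt
          ((isOpen_cone n).mem_nhds (hb (hsub hx)))
      exact (convex_ball v ρ).norm_image_sub_le_of_norm_fderiv_le h3
        (fun x hx => (H s hs1 x (hsub hx)).2) hw hu
  -- Hölder estimate for the derivative of `F`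
  have hold : ∀ u ∈ Metric.ball v ρ, ∀ w ∈ Metric.ball v ρ, ‖fderiv ℝ F u - fderiv ℝ F w‖ ≤
      (K' * t * Real.sqrt (2 * ρ) + K₄) * Real.sqrt ‖u - w‖ := by
    intro u hu w hw
    set x : ℕ → (Vec n →L[ℝ] E) := fun s => fderiv ℝ (P s F) u - fderiv ℝ (P s F) w with hx
    have hu' := hb (hsub hu)
    have hw' := hb (hsub hw)
    have step : ∀ s, t ≤ s → dist (x s) (x (s + 1)) ≤
        ((2 * K₃) * (s : ℝ) ^ (-(5 / 4) : ℝ)) * Real.sqrt ‖u - w‖ := by
      intro s hs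
      obtain ⟨⟨e, hs1⟩, hs2⟩ := ht s hs
      have hl := lam_pos' hs2
      have e1 : x s - x (s + 1) =
          (lam n s)⁻¹ • (fderiv ℝ (P s E₀) u - fderiv ℝ (P s E₀) w) := by
        rw [smul_sub, ← (e u hu').1, ← (e w hw').1]
        simp only [hx]
        abel
      rw [dist_eq_norm, e1, norm_smul, Real.norm_of_nonneg (inv_nonneg.mpr hl.le)]
      have a := inv_lam_mul_le hs2 (3 / 4)
      have e2 : (3 / 4 - 2 : ℝ) = -(5 / 4) := by norm_num
      rw [e2] at a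
      have hK3 : 0 ≤ K₃ := Real.sqrt_nonneg _
      calc (lam n s)⁻¹ * ‖fderiv ℝ (P s E₀) u - fderiv ℝ (P s E₀) w‖
          ≤ (lam n s)⁻¹ * (K₃ * (s : ℝ) ^ (3 / 4 : ℝ) * Real.sqrt ‖u - w‖) :=
            mul_le_mul_of_nonneg_left (key s hs u hu w hw) (inv_nonneg.mpr hl.le)
        _ = ((lam n s)⁻¹ * (s : ℝ) ^ (3 / 4 : ℝ)) * (K₃ * Real.sqrt ‖u - w‖) := by ring
        _ ≤ (2 * (s : ℝ) ^ (-(5 / 4) : ℝ)) * (K₃ * Real.sqrt ‖u - w‖) :=
            mul_le_mul_of_nonneg_right a (by positivity)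
        _ = _ := by ring
    have hS : ∀ S, t ≤ S → ‖x S‖ ≤ ‖x t‖ + K₄ * Real.sqrt ‖u - w‖ := by
      intro S hS
      have a := dist_le_Ico_sum_of_dist_le hS (d := fun s =>
        ((2 * K₃) * (s : ℝ) ^ (-(5 / 4) : ℝ)) * Real.sqrt ‖u - w‖) (f := x)
        (fun {k} hk _ => step k hk)
      rw [← Finset.sum_mul] at a
      have b : ∑ s ∈ Finset.Ico t S, (2 * K₃) * (s : ℝ) ^ (-(5 / 4) : ℝ) ≤ K₄ :=
        hsum.sum_le_tsum _ fun s _ => by positivity
      have c := mul_le_mul_of_nonneg_right b (Real.sqrt_nonneg ‖u - w‖)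
      have d : ‖x S‖ ≤ ‖x t‖ + dist (x t) (x S) := by
        rw [dist_comm, dist_eq_norm]
        have := norm_add_le (x t) (x S - x t)
        rwa [add_sub_cancel] at this
      linarith
    have hlim : Tendsto (fun S => ‖x S‖) atTop (𝓝 ‖fderiv ℝ F u - fderiv ℝ F w‖) :=
      ((h2.tendsto_at hu').sub (h2.tendsto_at hw')).norm
    have h5 : ‖fderiv ℝ F u - fderiv ℝ F w‖ ≤ ‖x t‖ + K₄ * Real.sqrt ‖u - w‖ :=
      le_of_tendsto hlim (eventually_atTop.mpr ⟨t, hS⟩)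
    have h6 : ‖x t‖ ≤ K' * t * Real.sqrt (2 * ρ) * Real.sqrt ‖u - w‖ := by
      have ht1 := (ht t le_rfl).1.2
      have h3 : ∀ x ∈ Metric.ball v ρ, DifferentiableAt ℝ (fderiv ℝ (P t F)) x := fun x hx =>
        (((hcdF t (by omega)).fderiv_of_isOpen (m := (⊤ : ℕ∞)) (isOpen_cone n)
          (by simp)).differentiableOn (by simp)).differentiableAt
          ((isOpen_cone n).mem_nhds (hb (hsub hx)))
      have h4 : ‖x t‖ ≤ K' * t * ‖u - w‖ :=
        (convex_ball v ρ).norm_image_sub_le_of_norm_fderiv_le h3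
          (fun x hx => (H' t ht1 x (hsub' hx)).2) hw hu
      have h7 : ‖u - w‖ ≤ 2 * ρ := by
        rw [← dist_eq_norm]
        rw [Metric.mem_ball] at hu hw
        have := dist_triangle_right u w v
        linarith
      have h8 : ‖u - w‖ ≤ Real.sqrt (2 * ρ) * Real.sqrt ‖u - w‖ := by
        nth_rewrite 1 [← Real.mul_self_sqrt (norm_nonneg (u - w))]
        exact mul_le_mul_of_nonneg_right (Real.sqrt_le_sqrt h7) (Real.sqrt_nonneg _)
      have h9 : (0 : ℝ) ≤ K' * t := by positivity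
      calc ‖x t‖ ≤ K' * t * ‖u - w‖ := h4
        _ ≤ K' * t * (Real.sqrt (2 * ρ) * Real.sqrt ‖u - w‖) := mul_le_mul_of_nonneg_left h8 h9
        _ = _ := by ring
    rw [add_mul]
    linarith
  have hA : 0 ≤ K' * t * Real.sqrt (2 * ρ) + K₄ := by positivity
  refine ⟨ρ, (K' * t * Real.sqrt (2 * ρ) + K₄) + (‖fderiv ℝ F v‖ +
    (K' * t * Real.sqrt (2 * ρ) + K₄) * Real.sqrt ρ), hρ0, by positivity, fun u hu => hb (hsub hu),
    fun u hu => ⟨?_, fun w hw => ?_⟩⟩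
  · have a := hold u hu v (Metric.mem_ball_self hρ0)
    have b : ‖u - v‖ ≤ ρ := by
      rw [← dist_eq_norm]
      exact (Metric.mem_ball.mp hu).le
    have c : ‖fderiv ℝ F u‖ ≤ ‖fderiv ℝ F v‖ + ‖fderiv ℝ F u - fderiv ℝ F v‖ := by
      have := norm_add_le (fderiv ℝ F v) (fderiv ℝ F u - fderiv ℝ F v)
      rwa [add_sub_cancel] at this
    have d := mul_le_mul_of_nonneg_left (Real.sqrt_le_sqrt b) hA
    linarith
  · refine (hold u hu w hw).trans (mul_le_mul_of_nonneg_right ?_ (Real.sqrt_nonneg _))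
    have : 0 ≤ ‖fderiv ℝ F v‖ + (K' * t * Real.sqrt (2 * ρ) + K₄) * Real.sqrt ρ := by positivity
    linarith

end Pool.Agent.Lib.MP_5d4057_al.HM.Gr
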