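import Pool.Agent.Lib.MP_5d4057_al.HM.RegF

/-! The abstract core of the regularity part: the second derivative. -/

namespace Pool.Agent.Lib.MP_5d4057_al.HM.Gr

open Matrix MeasureTheory Filter Topology Pool.Agent.Lib.MP_5d4057_al Pool.Agent.Lib.MP_5d4057_al.Hyb

open scoped ComplexOrder MatrixOrder Matrix.Norms.L2Operator

variable {n m : ℕ} {E : Type} [NormedAddCommGroup E] [NormedSpace ℝ E]

set_option maxSynthPendingDepth 3 in
theorem norm_aux {V W : Type} [NormedAddCommGroup V] [NormedSpace ℝ V] [NormedAddCommGroup W]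
    [NormedSpace ℝ W] {A B D : V →L[ℝ] V →L[ℝ] W} {c : ℝ} (hc : 0 ≤ c) (h : A - B = c • D) :
    ‖B - A‖ = c * ‖D‖ := by
  rw [norm_sub_rev, h, norm_smul, Real.norm_of_nonneg hc]

theorem herm_sub_right (v w u : Vec n) : herm v (w - u) = herm v w - herm v u := by
  have h := herm_add_right v (w - u) u
  rw [sub_add_cancel] at h
  rw [h]
  ring

/-- The comparison point: `w' = (q v / ⟨v,w⟩) w` satisfies `|w' - v| ≤ lo v (-q v) √(1 - ker 1 v w)`. -/
theorem norm_shift_le {v w : Vec n} (hv : v ∈ Cone n) (hw : w ∈ Cone n) :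
    ‖((q v : ℂ) / herm v w) • w - v‖ ≤ lo v * (-q v) * Real.sqrt (1 - ker 1 v w) := by
  have hne := herm_ne_zero hv hw
  have hqv : q v < 0 := hv
  set c : ℂ := (q v : ℂ) / herm v w with hc
  have hc0 : c ≠ 0 := div_ne_zero (by exact_mod_cast hqv.ne) hne
  set δ : Vec n := c • w - v with hδ
  have horth : herm v δ = 0 := by
    rw [hδ, herm_sub_right, herm_smul_right, herm_self, hc, div_mul_cancel₀ _ hne, sub_self]
  -- `q δ = -q v (1 - ker)`
  have hq : q δ = (-q v) * (1 - ker 1 v w) := by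
    have e : c • w = v + δ := by rw [hδ]; abel
    have e1 : q (c • w) = q v + q δ := by
      have h1 : herm (v + δ) (v + δ) = herm v v + herm δ δ := by
        rw [herm_add_left, herm_add_right, herm_add_right, horth, herm_comm v δ, horth, star_zero]
        ring
      rw [e]
      rw [herm_self, herm_self, herm_self] at h1
      exact_mod_cast h1
    rw [q_smul] at e1
    have e2 : ‖c‖ ^ 2 * q w = q v * ker 1 v w := by
      rw [hc, norm_div, ker, pow_one, Complex.norm_real, div_pow, Real.norm_eq_abs, sq_abs]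
      have : ‖herm v w‖ ≠ 0 := norm_ne_zero_iff.mpr hne
      field_simp
    rw [e2] at e1
    linarith
  obtain ⟨g, a, ha, hva⟩ := exists_act_eq hv
  have ha' : 0 < ‖a‖ := norm_pos_iff.mpr ha
  have h0 := ch_pos g
  -- the vector `g⁻¹ δ` is horizontal
  set η : Vec n := act g⁻¹ δ with hη
  have hδη : δ = act g η := by rw [hη, ← act_mul, mul_inv_cancel, act_one]
  have hηn : η (Fin.last n) = 0 := by
    have h1 : herm (base n) η = 0 := by
      have h2 : herm v δ = star a * herm (base n) η := by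
        rw [hva, hδη, herm_smul_left, herm_act]
      rw [horth] at h2
      rcases mul_eq_zero.mp h2.symm with h3 | h3
      · exact absurd (star_eq_zero.mp h3) ha
      · exact h3
    have h2 := herm_orbit_right (1 : SUGroup n) η
    rw [act_one, toMatrix_one, Matrix.one_apply_eq, star_one, h1] at h2
    have hz : zeta (1 : SUGroup n) η = 0 := by
      have := norm_zeta_sq_le (1 : SUGroup n) η
      rw [hh, ch_one] at this
      norm_num at this
      exact this
    rw [hz, sub_zero] at h2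
    have : η (Fin.last n) = 0 := by linear_combination h2
    exact this
  have hηq : ‖η‖ ^ 2 ≤ q δ := by
    have h1 : q δ = ∑ i : Fin n, ‖η i.castSucc‖ ^ 2 := by
      rw [hδη, q_act, q_eq, hηn, norm_zero]
      ring
    rw [h1]
    have h2 : ‖η‖ ≤ Real.sqrt (∑ i : Fin n, ‖η i.castSucc‖ ^ 2) := by
      rw [pi_norm_le_iff_of_nonneg (Real.sqrt_nonneg _)]
      intro i
      refine Fin.lastCases ?_ (fun i => ?_) i
      · rw [hηn, norm_zero]
        exact Real.sqrt_nonneg _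
      · refine Real.le_sqrt_of_sq_le ?_
        exact Finset.single_le_sum (f := fun i : Fin n => ‖η i.castSucc‖ ^ 2)
          (fun i _ => sq_nonneg _) (Finset.mem_univ i)
    calc ‖η‖ ^ 2 ≤ (Real.sqrt (∑ i : Fin n, ‖η i.castSucc‖ ^ 2)) ^ 2 :=
          pow_le_pow_left₀ (norm_nonneg _) h2 2
      _ = _ := Real.sq_sqrt (Finset.sum_nonneg fun i _ => sq_nonneg _)
  have hk : 0 ≤ 1 - ker 1 v w := by linarith [ker_le_one 1 hv hw]
  have hη' : ‖η‖ ≤ Real.sqrt (-q v) * Real.sqrt (1 - ker 1 v w) := by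
    rw [← Real.sqrt_mul (by linarith)]
    refine Real.le_sqrt_of_sq_le ?_
    rw [← hq]
    exact hηq
  have hlo : lo v * (-q v) = 2 * (n + 1) * ch g * Real.sqrt (-q v) := by
    have h1 : -q v = ‖a‖ ^ 2 := by rw [hva, q_smul, q_orbit]; ring
    have h2 : lo v = ‖a‖⁻¹ * (2 * (n + 1) * ch g) := by rw [hva, lo_eq g ha]
    rw [h1, h2, Real.sqrt_sq ha'.le]
    field_simp
  calc ‖δ‖ = ‖act g η‖ := by rw [← hδη]
    _ ≤ 2 * (n + 1) * ch g * ‖η‖ := norm_act_le g η
    _ ≤ 2 * (n + 1) * ch g * (Real.sqrt (-q v) * Real.sqrt (1 - ker 1 v w)) := by gcongr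
    _ = _ := by rw [hlo]; ring

omit [NormedSpace ℝ E] in
/-- From local Hölder continuity to the form used in `grad_two_holder`. -/
theorem hold_transfer {N : ℕ} {C : ℝ} {E₀ : Vec n → E} (hE : Adm N C E₀) (hh : Homog E₀)
    (hL : LH E₀ (Cone n)) {v₀ : Vec n} (hv₀ : v₀ ∈ Cone n) : ∃ r A : ℝ, 0 < r ∧ 0 ≤ A ∧
      Metric.ball v₀ r ⊆ Cone n ∧ ∀ v ∈ Metric.ball v₀ r, ∀ y : SUGroup n,
        ‖E₀ (act y (base n)) - E₀ v‖ ≤
          A * (1 - ker 1 v (act y (base n))) ^ (1 / 4 : ℝ) * ch y ^ (2 * N) := by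
  obtain ⟨r₁, K, hr₁, hK, hb₁, h₁⟩ := hL v₀ hv₀
  obtain ⟨r₂, M, hr₂, hM, hb₂, h₂⟩ := exists_ball hv₀
  -- bound for `-q`
  obtain ⟨r₃, hr₃, h₃⟩ := Metric.eventually_nhds_iff_ball.mp
    ((continuous_q (n := n)).neg.continuousAt.eventually_lt_const
      (show -q v₀ < -q v₀ + 1 by linarith))
  have hq₀ : q v₀ < 0 := hv₀
  have hC := adm_nn hE
  set r : ℝ := min (r₁ / 2) (min r₂ r₃) with hr
  have hr0 : 0 < r := by positivity
  set M' : ℝ := M * (-q v₀ + 1) + 1 with hM'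
  have hM'1 : 1 ≤ M' := by
    have : 0 ≤ M * (-q v₀ + 1) := mul_nonneg hM.le (by linarith)
    linarith
  set h₀ : ℝ := (r₁ / 2 / M') ^ 2 with hh₀
  have hh₀0 : 0 < h₀ := by positivity
  refine ⟨r, K * Real.sqrt M' + (C + K) * h₀ ^ (-(1 / 4) : ℝ), hr0, by positivity, fun v hv =>
    hb₂ (Metric.ball_subset_ball ((min_le_right _ _).trans (min_le_left _ _)) hv),
    fun v hv y => ?_⟩
  have hv1 : v ∈ Metric.ball v₀ (r₁ / 2) := Metric.ball_subset_ball (min_le_left _ _) hv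
  have hv1' : v ∈ Metric.ball v₀ r₁ := Metric.ball_subset_ball (by linarith) hv1
  have hv2 : v ∈ Metric.ball v₀ r₂ :=
    Metric.ball_subset_ball ((min_le_right _ _).trans (min_le_left _ _)) hv
  have hv3 : v ∈ Metric.ball v₀ r₃ :=
    Metric.ball_subset_ball ((min_le_right _ _).trans (min_le_right _ _)) hv
  have hvC := hb₁ hv1'
  have hw := orbit_mem y
  set w : Vec n := act y (base n) with hwdef
  have hk1 : 0 ≤ 1 - ker 1 v w := by linarith [ker_le_one 1 hvC hw]
  set k : ℝ := 1 - ker 1 v w with hk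
  have hy1 := one_le_ch y
  have hpow : 1 ≤ ch y ^ (2 * N) := one_le_pow₀ hy1
  have hqv : q v < 0 := hvC
  have hshift : ‖((q v : ℂ) / herm v w) • w - v‖ ≤ M' * Real.sqrt k := by
    refine (norm_shift_le hvC hw).trans (mul_le_mul_of_nonneg_right ?_ (Real.sqrt_nonneg _))
    have a := (h₂ v hv2).2
    have b : -q v < -q v₀ + 1 := h₃ v hv3
    have c := lo_nonneg v
    calc lo v * -q v ≤ M * (-q v₀ + 1) := mul_le_mul a b.le (by linarith) hM.le
      _ ≤ M' := by rw [hM']; linarith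
  have hc0 : (q v : ℂ) / herm v w ≠ 0 :=
    div_ne_zero (by exact_mod_cast hqv.ne) (herm_ne_zero hvC hw)
  rcases lt_or_ge k h₀ with hlt | hge
  · -- near
    have hs : Real.sqrt k < r₁ / 2 / M' := by
      rw [hh₀] at hlt
      have := Real.sqrt_lt_sqrt hk1 hlt
      rwa [Real.sqrt_sq (by positivity)] at this
    have hM'0 : 0 < M' := by linarith
    have hd : ‖((q v : ℂ) / herm v w) • w - v‖ < r₁ / 2 := by
      refine hshift.trans_lt ?_
      rw [lt_div_iff₀ hM'0] at hs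
      linarith
    have hmem : ((q v : ℂ) / herm v w) • w ∈ Metric.ball v₀ r₁ := by
      rw [Metric.mem_ball] at hv1 ⊢
      have a := dist_triangle (((q v : ℂ) / herm v w) • w) v v₀
      rw [dist_eq_norm (((q v : ℂ) / herm v w) • w) v] at a
      linarith
    have h5 := (h₁ _ hmem).2 v hv1'
    rw [hh _ hc0 w hw] at h5
    have h6 : Real.sqrt ‖((q v : ℂ) / herm v w) • w - v‖ ≤ Real.sqrt M' * k ^ (1 / 4 : ℝ) := by
      have a := Real.sqrt_le_sqrt hshift
      rw [Real.sqrt_mul (by linarith)] at a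
      have b : Real.sqrt (Real.sqrt k) = k ^ (1 / 4 : ℝ) := by
        rw [Real.sqrt_eq_rpow, Real.sqrt_eq_rpow, ← Real.rpow_mul hk1]
        norm_num
      rwa [b] at a
    have hk4 : 0 ≤ k ^ (1 / 4 : ℝ) := Real.rpow_nonneg hk1 _
    have hrest : 0 ≤ (C + K) * h₀ ^ (-(1 / 4) : ℝ) := by positivity
    calc ‖E₀ w - E₀ v‖ ≤ K * (Real.sqrt M' * k ^ (1 / 4 : ℝ)) :=
          h5.trans (mul_le_mul_of_nonneg_left h6 hK)
      _ = (K * Real.sqrt M') * k ^ (1 / 4 : ℝ) * 1 := by ring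
      _ ≤ (K * Real.sqrt M' + (C + K) * h₀ ^ (-(1 / 4) : ℝ)) * k ^ (1 / 4 : ℝ) *
            ch y ^ (2 * N) := by
          gcongr
          linarith
  · -- far
    have h5 : ‖E₀ w - E₀ v‖ ≤ (C + K) * ch y ^ (2 * N) := by
      have a := norm_sub_le (E₀ w) (E₀ v)
      have b := hE.bound y
      have c := (h₁ v hv1').1
      have d : K ≤ K * ch y ^ (2 * N) := by nlinarith
      calc _ ≤ ‖E₀ w‖ + ‖E₀ v‖ := a
        _ ≤ C * ch y ^ (2 * N) + K * ch y ^ (2 * N) := add_le_add b (c.trans d)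
        _ = _ := by ring
    have h6 : 1 ≤ h₀ ^ (-(1 / 4) : ℝ) * k ^ (1 / 4 : ℝ) := by
      rw [Real.rpow_neg hh₀0.le, ← div_eq_inv_mul, one_le_div (by positivity)]
      exact Real.rpow_le_rpow hh₀0.le hge (by norm_num)
    have hk4 : 0 ≤ k ^ (1 / 4 : ℝ) := Real.rpow_nonneg hk1 _
    have hpow0 : 0 ≤ ch y ^ (2 * N) := by positivity
    calc ‖E₀ w - E₀ v‖ ≤ (C + K) * ch y ^ (2 * N) * 1 := by rw [mul_one]; exact h5
      _ ≤ (C + K) * ch y ^ (2 * N) * (h₀ ^ (-(1 / 4) : ℝ) * k ^ (1 / 4 : ℝ)) :=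
          mul_le_mul_of_nonneg_left h6 (by positivity)
      _ = ((C + K) * h₀ ^ (-(1 / 4) : ℝ)) * k ^ (1 / 4 : ℝ) * ch y ^ (2 * N) := by ring
      _ ≤ _ := by
          gcongr
          have : 0 ≤ K * Real.sqrt M' := by positivity
          linarith

/-- The third step: `F` is of class `C²` and the second derivatives converge. -/
theorem core_two [CompleteSpace E] {N : ℕ} {C : ℝ} {F E₀ : Vec n → E} (h : Step N C F E₀)
    (hh : Homog E₀) (hL : LH E₀ (Cone n)) :
    ContDiffOn ℝ 2 F (Cone n) ∧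
      TendstoLocallyUniformlyOn (fun s => fderiv ℝ (P s F)) (fderiv ℝ F) atTop (Cone n) ∧
      TendstoLocallyUniformlyOn (fun s => fderiv ℝ (fderiv ℝ (P s F))) (fderiv ℝ (fderiv ℝ F))
        atTop (Cone n) := by
  obtain ⟨h1, h2, -⟩ := core_holder h
  obtain ⟨K, hK, H⟩ := grad_two_holder n N
  have hcd : ∀ s, n + N < s → ContDiffOn ℝ (⊤ : ℕ∞) (P s F) (Cone n) := fun s hs =>
    contDiffOn_P_of (adm_wgt h.admF hs)
  obtain ⟨h3, h4⟩ := seq_C2 (isOpen_cone n) (f := fun s => P s F) (F := F) (by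
      filter_upwards [eventually_gt_atTop (n + N)] with s hs
      exact (hcd s hs).of_le (WithTop.coe_le_coe.2 (le_top : (2 : ℕ∞) ≤ ⊤))) h1 h2
    (fun v hv => by
      obtain ⟨r, A, hr, hA, hb, hHold⟩ := hold_transfer h.admE hh hL hv
      obtain ⟨r₂, M, hr₂, hM, hb₂, hB⟩ := exists_ball hv
      refine ⟨min r r₂, by positivity, fun s => (2 * (K * A * (M ^ N * M ^ 2))) *
        (s : ℝ) ^ (-(5 / 4) : ℝ), summable_rpow' (by norm_num) _, ?_⟩
      filter_upwards [h.fderiv_eq, eventually_gt_atTop (n + N + 2),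
        eventually_ge_atTop (2 * n + 1)] with s e hs hs2
      intro u hu huU
      have hl := lam_pos' hs2
      have hu1 := Metric.ball_subset_ball (min_le_left r r₂) hu
      have hu2 := Metric.ball_subset_ball (min_le_right r r₂) hu
      obtain ⟨b1, b2⟩ := hB u hu2
      have hW := W_nonneg huU
      have hlo := lo_nonneg u
      have e0 : ‖fderiv ℝ (fderiv ℝ (P (s + 1) F)) u - fderiv ℝ (fderiv ℝ (P s F)) u‖ =
          (lam n s)⁻¹ * ‖fderiv ℝ (fderiv ℝ (P s E₀)) u‖ := by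
        exact norm_aux (inv_nonneg.mpr hl.le) (e u huU).2
      refine e0.le.trans ?_
      have a := H s hs E E₀ C A h.admE hA u huU (hHold u hu1)
      have a2 := inv_lam_mul_le hs2 (3 / 4)
      have e2 : (3 / 4 - 2 : ℝ) = -(5 / 4) := by norm_num
      rw [e2] at a2
      calc (lam n s)⁻¹ * ‖fderiv ℝ (fderiv ℝ (P s E₀)) u‖
          ≤ (lam n s)⁻¹ * (K * A * (s : ℝ) ^ (3 / 4 : ℝ) * (W u ^ N * lo u ^ 2)) :=
            mul_le_mul_of_nonneg_left a (inv_nonneg.mpr hl.le)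
        _ ≤ (lam n s)⁻¹ * (K * A * (s : ℝ) ^ (3 / 4 : ℝ) * (M ^ N * M ^ 2)) := by gcongr
        _ = ((lam n s)⁻¹ * (s : ℝ) ^ (3 / 4 : ℝ)) * (K * A * (M ^ N * M ^ 2)) := by ring
        _ ≤ (2 * (s : ℝ) ^ (-(5 / 4) : ℝ)) * (K * A * (M ^ N * M ^ 2)) :=
            mul_le_mul_of_nonneg_right a2 (by positivity)
        _ = _ := by ring)
  exact ⟨h3, h2, h4⟩

end Pool.Agent.Lib.MP_5d4057_al.HM.Gr
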