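import Pool.Agent.Lib.MP_5d4057_al.HM.RegG
import Pool.Agent.Lib.MP_5d4057_al.HM.Green
import Pool.Agent.Lib.MP_5d4057_al.HM.EInv

/-! Convergence of `P s F` with two derivatives. -/

namespace Pool.Agent.Lib.MP_5d4057_al.HM.Gr

open Matrix MeasureTheory Filter Topology Pool.Agent.Lib.MP_5d4057_al Pool.Agent.Lib.MP_5d4057_al.Hyb

open scoped ComplexOrder MatrixOrder Matrix.Norms.L2Operator

variable {n m : ℕ} {E : Type} [NormedAddCommGroup E] [NormedSpace ℝ E]

theorem smul_one {f : Vec n → E} (hf : Homog f) (hc : ContDiffOn ℝ 1 f (Cone n)) {c : ℂ}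
    (hcn : c ≠ 0) {v : Vec n} (hv : v ∈ Cone n) (ξ : Vec n) :
    fderiv ℝ f (c • v) ξ = fderiv ℝ f v (c⁻¹ • ξ) := by
  have hcv : c • v ∈ Cone n := smul_mem_cone hcn hv
  have hd : DifferentiableAt ℝ f v :=
    (hc.contDiffAt ((isOpen_cone n).mem_nhds hv)).differentiableAt (by norm_num)
  have e1 : smulL n c⁻¹ (c • v) = v := by
    rw [smulL_apply, smul_smul, inv_mul_cancel₀ hcn, one_smul]
  have h1 : HasFDerivAt (fun u => f (smulL n c⁻¹ u)) ((fderiv ℝ f v).comp (smulL n c⁻¹)) (c • v) := by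
    refine HasFDerivAt.comp (g := f) (c • v) ?_ (smulL n c⁻¹).hasFDerivAt
    rw [e1]
    exact hd.hasFDerivAt
  have h2 : (fun u => f (smulL n c⁻¹ u)) =ᶠ[𝓝 (c • v)] f := by
    filter_upwards [(isOpen_cone n).mem_nhds hcv] with u hu
    exact hf _ (inv_ne_zero hcn) u hu
  rw [← h2.fderiv_eq (𝕜 := ℝ), h1.fderiv]
  rfl

theorem single_re_im (k : Fin (n + 1)) (d : ℂ) : (Pi.single k d : Vec n) =
    d.re • (Pi.single k 1 : Vec n) + d.im • (Pi.single k Complex.I : Vec n) := by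
  rw [← Pi.single_smul, ← Pi.single_smul, ← Pi.single_add]
  congr 1
  rw [Complex.real_smul, Complex.real_smul, mul_one]
  exact (Complex.re_add_im d).symm

/-- The energy matrix is homogeneous. -/
theorem homog_en {A : Vec n → Mat m} (hf : Homog A) (hc : ContDiffOn ℝ 1 A (Cone n)) :
    Homog (en A) := by
  intro c hcn v hv
  obtain ⟨d, hd⟩ : ∃ d : ℂ, d = c⁻¹ := ⟨_, rfl⟩
  have key : ∀ i : Fin (n + 1),
      fderiv ℝ A (c • v) (Pi.single i 1) * (A (c • v))⁻¹ * fderiv ℝ A (c • v) (Pi.single i 1) +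
      fderiv ℝ A (c • v) (Pi.single i Complex.I) * (A (c • v))⁻¹ *
        fderiv ℝ A (c • v) (Pi.single i Complex.I) =
      (d.re ^ 2 + d.im ^ 2) • (fderiv ℝ A v (Pi.single i 1) * (A v)⁻¹ *
        fderiv ℝ A v (Pi.single i 1) + fderiv ℝ A v (Pi.single i Complex.I) * (A v)⁻¹ *
        fderiv ℝ A v (Pi.single i Complex.I)) := by
    intro i
    rw [hf c hcn v hv, smul_one hf hc hcn hv, smul_one hf hc hcn hv, ← hd, ← Pi.single_smul,
      ← Pi.single_smul, smul_eq_mul, smul_eq_mul, mul_one, single_re_im i d,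
      single_re_im i (d * Complex.I)]
    have e1 : (d * Complex.I).re = - d.im := by simp
    have e2 : (d * Complex.I).im = d.re := by simp
    rw [e1, e2]
    simp only [map_add, map_smul, add_mul, mul_add, smul_mul_assoc, mul_smul_comm, smul_add,
      smul_smul]
    module
  have hN : ‖c‖ ^ 2 * (d.re ^ 2 + d.im ^ 2) = 1 := by
    have h1 : d.re ^ 2 + d.im ^ 2 = ‖d‖ ^ 2 := by
      rw [← Complex.normSq_eq_norm_sq, Complex.normSq_apply]
      ring
    rw [h1, ← mul_pow, hd, norm_inv, mul_inv_cancel₀ (norm_ne_zero_iff.2 hcn), one_pow]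
  unfold en
  rw [q_smul]
  simp only [key]
  rw [Finset.smul_sum, Finset.smul_sum]
  refine Finset.sum_congr rfl fun i _ => ?_
  rw [smul_smul, smul_smul, smul_smul]
  congr 1
  calc -(‖c‖ ^ 2 * q v) / 4 * (J n i i).re * (d.re ^ 2 + d.im ^ 2)
      = (‖c‖ ^ 2 * (d.re ^ 2 + d.im ^ 2)) * (-q v / 4 * (J n i i).re) := by ring
    _ = -q v / 4 * (J n i i).re := by rw [hN, one_mul]

/-- The energy matrix is locally Hölder continuous if the first derivative is. -/
theorem lh_en {A : Vec n → Mat m} (hc : ContDiffOn ℝ 1 A (Cone n))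
    (hp : ∀ v ∈ Cone n, (A v).PosDef) (hL : LH (fderiv ℝ A) (Cone n)) :
    LH (en A) (Cone n) := by
  have hinv : LH (fun v => (A v)⁻¹) (Cone n) := by
    refine LH.of_C1 (isOpen_cone n) fun v hv => ?_
    exact (contDiffAt_matInv (hc.contDiffAt ((isOpen_cone n).mem_nhds hv))
      (hp v hv).isUnit).contDiffWithinAt
  have hq : LH (fun v : Vec n => - q v / 4) (Cone n) := by
    refine LH.of_C1 (isOpen_cone n) ?_
    have h1 : ContDiff ℝ 1 (fun v : Vec n => q v) :=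
      contDiff_q.of_le (WithTop.coe_le_coe.2 (le_top : (1 : ℕ∞) ≤ ⊤))
    exact (h1.neg.div_const 4).contDiffOn
  have hap : ∀ ξ : Vec n, LH (fun v => fderiv ℝ A v ξ) (Cone n) := fun ξ =>
    LH.clm (ContinuousLinearMap.apply ℝ (Mat m) ξ) hL
  have hter : ∀ ξ : Vec n, LH (fun v => fderiv ℝ A v ξ * (A v)⁻¹ * fderiv ℝ A v ξ) (Cone n) :=
    fun ξ => ((hap ξ).mul hinv).mul (hap ξ)
  unfold en
  refine hq.smul (LH.sum (isOpen_cone n) Finset.univ fun i => ?_)
  exact LH.clm ((J n i i).re • ContinuousLinearMap.id ℝ (Mat m))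
    ((hter (Pi.single i 1)).add (hter (Pi.single i Complex.I)))

theorem W_hom {c : ℂ} (hc : c ≠ 0) (v : Vec n) : W (c • v) = W v := by
  have h1 : ‖c‖ ^ 2 ≠ 0 := pow_ne_zero 2 (norm_ne_zero_iff.mpr hc)
  unfold W
  rw [q_smul, Pi.smul_apply, smul_eq_mul, norm_mul, mul_pow, ← mul_neg, mul_div_mul_left _ _ h1]

/-- Local uniform convergence of the averages. -/
theorem tlu_P [CompleteSpace E] {N : ℕ} {C : ℝ} {f : Vec n → E} (hf : Adm N C f) (hh : Homog f)
    (hc : ContinuousOn f (Cone n)) :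
    TendstoLocallyUniformlyOn (fun s => P s f) f atTop (Cone n) := by
  rw [Metric.tendstoLocallyUniformlyOn_iff]
  intro ε hε v hv
  obtain ⟨r, M, hr, hM, hb, hB⟩ := exists_ball hv
  obtain ⟨j₀, s₁, h⟩ := P_tendsto n N (f := fun _ => f) (fun _ => hf) hc hh
    (fun T ε hε => ⟨0, fun j _ g _ => by simpa using hε.le⟩) (Real.sqrt M) (ε / 2) (by positivity)
  refine ⟨Metric.ball v r, mem_nhdsWithin_of_mem_nhds (Metric.ball_mem_nhds v hr), ?_⟩
  filter_upwards [eventually_ge_atTop s₁] with s hs u hu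
  obtain ⟨g, c, hc0, hug⟩ := exists_act_eq (hb hu)
  have h1 : W u = ch g ^ 2 := by
    rw [hug, W_hom hc0, W_orbit]
  have h2 : ch g ≤ Real.sqrt M := by
    refine Real.le_sqrt_of_sq_le ?_
    rw [← h1]
    exact (hB u hu).1
  have h3 := h j₀ le_rfl s hs g h2
  rw [dist_comm, dist_eq_norm, hug, P_homog s f c hc0 _ (orbit_mem g), hh c hc0 _ (orbit_mem g)]
  linarith

theorem lap_tendsto {f : ℕ → Vec n → E} {f₀ : Vec n → E}
    (h : TendstoLocallyUniformlyOn (fun s => fderiv ℝ (fderiv ℝ (f s))) (fderiv ℝ (fderiv ℝ f₀))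
      atTop (Cone n)) {v : Vec n} (hv : v ∈ Cone n) :
    Tendsto (fun s => Lap (f s) v) atTop (𝓝 (Lap f₀ v)) := by
  have h1 : Tendsto (fun s => fderiv ℝ (fderiv ℝ (f s)) v) atTop (𝓝 (fderiv ℝ (fderiv ℝ f₀) v)) :=
    h.tendsto_at hv
  have h2 : ∀ ξ : Vec n, Tendsto (fun s => fderiv ℝ (fderiv ℝ (f s)) v ξ ξ) atTop
      (𝓝 (fderiv ℝ (fderiv ℝ f₀) v ξ ξ)) := fun ξ =>
    (((ContinuousLinearMap.apply ℝ E ξ).comp
      (ContinuousLinearMap.apply ℝ (Vec n →L[ℝ] E) ξ)).continuous.tendsto _).comp h1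
  unfold Lap
  refine Tendsto.const_smul (tendsto_finsetSum _ fun i _ => ?_) _
  exact ((h2 _).add (h2 _)).const_smul _

/-- The averages of a tame harmonic metric converge with two derivatives. -/
theorem P_tendsto_C2 (hn : 1 ≤ n) {N : ℕ} {C : ℝ} {F : Vec n → Mat m} (hF : Tame N C F)
    (hp : ∀ v ∈ Cone n, (F v).PosDef) (he : ∀ v ∈ Cone n, Lap F v = en F v) :
    TendstoLocallyUniformlyOn (fun s => P s F) F atTop (Cone n) ∧
    TendstoLocallyUniformlyOn (fun s => fderiv ℝ (P s F)) (fderiv ℝ F) atTop (Cone n) ∧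
    TendstoLocallyUniformlyOn (fun s => fderiv ℝ (fderiv ℝ (P s F))) (fderiv ℝ (fderiv ℝ F))
      atTop (Cone n) := by
  have hC : 0 ≤ C := by
    have h1 := (norm_nonneg _).trans (hF.b0 1)
    rwa [ch_one, one_pow, mul_one] at h1
  have t0 : TendstoLocallyUniformlyOn (fun s => P s F) F atTop (Cone n) :=
    tlu_P hF.adm hF.hom hF.cd.continuousOn
  have hcd1 : ContDiffOn ℝ 1 F (Cone n) := hF.cd.of_le (by norm_num)
  obtain ⟨s₁, hs₁⟩ := P_sub_P (E := Mat m) hn N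
  have hstep : Step N ((n + 1) * C) F (Lap F) := by
    refine ⟨⟨hF.adm.meas, fun y => (hF.adm.bound y).trans ?_⟩, hF.adm_lap, fun v hv =>
      t0.tendsto_at hv, ?_⟩
    · have h1 : (0 : ℝ) ≤ n := Nat.cast_nonneg n
      have h2 : 0 ≤ ch y ^ (2 * N) := pow_nonneg (ch_pos y).le _
      refine mul_le_mul_of_nonneg_right ?_ h2
      nlinarith
    · filter_upwards [eventually_ge_atTop s₁] with s hs v hv
      have := hs₁ s hs C F hF v hv 1
      simpa using this
  have hLH : LH (Lap F) (Cone n) := by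
    have h1 : LH (fderiv ℝ F) (Cone n) :=
      LH.of_C1 (isOpen_cone n) (hF.cd.fderiv_of_isOpen (isOpen_cone n) (by norm_num))
    have h2 := lh_en hcd1 hp h1
    intro v hv
    obtain ⟨r, K, hr, hK, hb, H⟩ := h2 v hv
    refine ⟨r, K, hr, hK, hb, fun u hu => ?_⟩
    rw [he u (hb hu)]
    refine ⟨(H u hu).1, fun w hw => ?_⟩
    rw [he w (hb hw)]
    exact (H u hu).2 w hw
  obtain ⟨-, t1, t2⟩ := core_two hstep (homog_lap hF.hom hF.cd) hLH
  exact ⟨t0, t1, t2⟩

end Pool.Agent.Lib.MP_5d4057_al.HM.Gr
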