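import Pool.Agent.Lib.MP_5d4057_al.HM.Mom
import Pool.Agent.Lib.MP_5d4057_al.HM.SmoothA

/-! Basic properties of the averaging operators on functions of polynomial growth, in the sharp
range `n + N < s`. -/

namespace Pool.Agent.Lib.MP_5d4057_al.HM

open Matrix MeasureTheory Filter Topology Pool.Agent.Lib.MP_5d4057_al Pool.Agent.Lib.MP_5d4057_al.Hyb

open scoped ComplexOrder MatrixOrder Matrix.Norms.L2Operator

variable {n m : ℕ} {E : Type} [NormedAddCommGroup E] [NormedSpace ℝ E]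

set_option linter.unusedSectionVars false

section adm

variable {N : ℕ} {C : ℝ} {f f₁ f₂ : Vec n → E}

theorem Adm.nonneg (hf : Adm N C f) : 0 ≤ C := by
  have h := hf.bound 1
  rw [ch_one, one_pow, mul_one] at h
  exact (norm_nonneg _).trans h

theorem Adm.mono (hf : Adm N C f) {N' : ℕ} {C' : ℝ} (hN : N ≤ N') (hC : C ≤ C') :
    Adm N' C' f where
  meas := hf.meas
  bound y := by
    refine (hf.bound y).trans ?_
    have h1 := one_le_ch y
    have h0 := hf.nonneg
    have h2 : ch y ^ (2 * N) ≤ ch y ^ (2 * N') := pow_le_pow_right₀ h1 (by omega)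
    have h3 : 0 ≤ ch y ^ (2 * N) := by positivity
    exact mul_le_mul hC h2 h3 (h0.trans hC)

theorem Adm.add {N₁ N₂ : ℕ} {C₁ C₂ : ℝ} (h₁ : Adm N₁ C₁ f₁) (h₂ : Adm N₂ C₂ f₂) :
    Adm (max N₁ N₂) (C₁ + C₂) (fun v => f₁ v + f₂ v) where
  meas := h₁.meas.add h₂.meas
  bound y := by
    have a := (h₁.mono (le_max_left N₁ N₂) le_rfl).bound y
    have b := (h₂.mono (le_max_right N₁ N₂) le_rfl).bound y
    calc ‖f₁ (act y (base n)) + f₂ (act y (base n))‖ ≤ _ := norm_add_le _ _
      _ ≤ _ := add_le_add a b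
      _ = _ := by ring

theorem Adm.smul (hf : Adm N C f) (c : ℝ) : Adm N (|c| * C) (fun v => c • f v) where
  meas := hf.meas.const_smul c
  bound y := by
    rw [norm_smul, Real.norm_eq_abs, mul_assoc]
    exact mul_le_mul_of_nonneg_left (hf.bound y) (abs_nonneg c)

theorem Adm.neg (hf : Adm N C f) : Adm N C (fun v => -f v) where
  meas := hf.meas.neg
  bound y := by
    rw [norm_neg]
    exact hf.bound y

theorem Adm.sub {N₁ N₂ : ℕ} {C₁ C₂ : ℝ} (h₁ : Adm N₁ C₁ f₁) (h₂ : Adm N₂ C₂ f₂) :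
    Adm (max N₁ N₂) (C₁ + C₂) (fun v => f₁ v - f₂ v) := by
  simpa only [sub_eq_add_neg] using h₁.add h₂.neg

theorem adm_const (c : E) : Adm (n := n) 0 ‖c‖ (fun _ => c) where
  meas := aestronglyMeasurable_const
  bound y := by simp

theorem adm_of_continuousOn (hf : ContinuousOn f (Cone n))
    (hb : ∀ y : SUGroup n, ‖f (act y (base n))‖ ≤ C * ch y ^ (2 * N)) : Adm N C f where
  meas := (hf.comp_continuous continuous_orbit fun y => orbit_mem y).aestronglyMeasurable
  bound := hb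

/-- Left translation. -/
theorem Adm.act (hf : Adm N C f) (a : SUGroup n) :
    Adm N (C * (2 * ch a) ^ (2 * N)) (fun v => f (act a v)) where
  meas := by
    have h := hf.meas.comp_measurePreserving (measurePreserving_mul_left (mu n) a)
    refine h.congr (Eventually.of_forall fun y => ?_)
    show f (HM.act (a * y) (base n)) = f (HM.act a (HM.act y (base n)))
    rw [act_mul]
  bound y := by
    have h0 := hf.nonneg
    rw [← act_mul]
    refine (hf.bound (a * y)).trans ?_
    have h1 := ch_mul_le' a y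
    have h2 := ch_pos (a * y)
    calc C * ch (a * y) ^ (2 * N) ≤ C * (2 * ch a * ch y) ^ (2 * N) := by gcongr
      _ = _ := by rw [mul_pow]; ring

end adm

namespace Sm

section adm

variable {N : ℕ} {C : ℝ} {f f₁ f₂ : Vec n → E}

theorem integrable_wgt' (hf : Adm N C f) {s : ℕ} (h : n + N < s) :
    Integrable (wgt s f) (mu n) :=
  integrable_wgt hf (by omega) (integrable_inv (by omega))

theorem contDiffOn_P (hf : Adm N C f) {s : ℕ} (h : n + N < s) :
    ContDiffOn ℝ (⊤ : ℕ∞) (P s f) (Cone n) := contDiffOn_P_of (integrable_wgt' hf h)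

theorem integrable_P (hf : Adm N C f) {s : ℕ} (h : n + N < s) {v : Vec n} (hv : v ∈ Cone n) :
    Integrable (fun y : SUGroup n =>
      (ker s v (act y (base n)) / cs n s) • f (act y (base n))) (mu n) :=
  integrable_P_of (integrable_wgt' hf h) hv

theorem fderiv_P (hf : Adm N C f) {s : ℕ} (h : n + N < s) {v : Vec n} (hv : v ∈ Cone n)
    (ξ : Vec n) : fderiv ℝ (P s f) v ξ =
      ∫ y : SUGroup n, (fderiv ℝ (fun v => ker s v (act y (base n))) v ξ / cs n s) •
        f (act y (base n)) ∂(mu n) := fderiv_P_apply_of (integrable_wgt' hf h) hv ξ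

theorem fderiv_fderiv_P (hf : Adm N C f) {s : ℕ} (h : n + N < s) {v : Vec n} (hv : v ∈ Cone n)
    (ξ η : Vec n) : fderiv ℝ (fderiv ℝ (P s f)) v ξ η =
      ∫ y : SUGroup n, (fderiv ℝ (fderiv ℝ (fun v => ker s v (act y (base n)))) v ξ η / cs n s) •
        f (act y (base n)) ∂(mu n) := fderiv_fderiv_P_apply_of (integrable_wgt' hf h) hv ξ η

theorem integrable_fderiv_P (hf : Adm N C f) {s : ℕ} (h : n + N < s) {v : Vec n}
    (hv : v ∈ Cone n) (ξ : Vec n) : Integrable (fun y : SUGroup n =>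
      (fderiv ℝ (fun v => ker s v (act y (base n))) v ξ / cs n s) •
        f (act y (base n))) (mu n) := integrable_fderiv_P_of (integrable_wgt' hf h) hv ξ

theorem integrable_fderiv_fderiv_P (hf : Adm N C f) {s : ℕ} (h : n + N < s) {v : Vec n}
    (hv : v ∈ Cone n) (ξ η : Vec n) : Integrable (fun y : SUGroup n =>
      (fderiv ℝ (fderiv ℝ (fun v => ker s v (act y (base n)))) v ξ η / cs n s) •
        f (act y (base n))) (mu n) := integrable_fderiv_fderiv_P_of (integrable_wgt' hf h) hv ξ η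

/-- The main identity for the averaging operators. -/
theorem lap_P (hf : Adm N C f) {s : ℕ} (h : n + N < s) {v : Vec n} (hv : v ∈ Cone n) :
    Lap (P s f) v = lam n s • (P s f v - P (s + 1) f v) :=
  lap_P_of (integrable_wgt' hf h) (integrable_wgt' hf (by omega)) (cs_pos' (by omega)).ne'
    (cs_pos' (by omega)).ne' (cs_succ (by omega)) hv

end adm

theorem homog_P (s : ℕ) (f : Vec n → E) : Homog (P s f) := by
  intro c hc v _
  rw [P, P]
  refine integral_congr_ae (Eventually.of_forall fun y => ?_)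
  simp only [ker_smul_left s hc]

theorem P_act (s : ℕ) (f : Vec n → E) (a : SUGroup n) (v : Vec n) :
    P s (fun v => f (act a v)) v = P s f (act a v) := by
  rw [P, P]
  symm
  rw [← integral_mul_left_eq_self _ a]
  refine integral_congr_ae (Eventually.of_forall fun y => ?_)
  simp only [act_mul, ker_act]

theorem P_congr (s : ℕ) {f₁ f₂ : Vec n → E}
    (h : ∀ᵐ y : SUGroup n ∂(mu n), f₁ (act y (base n)) = f₂ (act y (base n))) (v : Vec n) :
    P s f₁ v = P s f₂ v := by
  rw [P, P]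
  refine integral_congr_ae ?_
  filter_upwards [h] with y hy
  rw [hy]

theorem P_smul (s : ℕ) (c : ℝ) (f : Vec n → E) (v : Vec n) :
    P s (fun v => c • f v) v = c • P s f v := by
  rw [P, P, ← integral_smul]
  refine integral_congr_ae (Eventually.of_forall fun y => ?_)
  simp only [smul_comm c]

theorem P_neg (s : ℕ) (f : Vec n → E) (v : Vec n) : P s (fun v => -f v) v = -P s f v := by
  have := P_smul s (-1) f v
  simpa using this

theorem P_add {N₁ N₂ : ℕ} {C₁ C₂ : ℝ} {f₁ f₂ : Vec n → E} (h₁ : Adm N₁ C₁ f₁)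
    (h₂ : Adm N₂ C₂ f₂) {s : ℕ} (hs₁ : n + N₁ < s) (hs₂ : n + N₂ < s) {v : Vec n}
    (hv : v ∈ Cone n) : P s (fun v => f₁ v + f₂ v) v = P s f₁ v + P s f₂ v := by
  rw [P, P, P, ← integral_add (integrable_P h₁ hs₁ hv) (integrable_P h₂ hs₂ hv)]
  simp only [smul_add]

theorem P_sub {N₁ N₂ : ℕ} {C₁ C₂ : ℝ} {f₁ f₂ : Vec n → E} (h₁ : Adm N₁ C₁ f₁)
    (h₂ : Adm N₂ C₂ f₂) {s : ℕ} (hs₁ : n + N₁ < s) (hs₂ : n + N₂ < s) {v : Vec n}
    (hv : v ∈ Cone n) : P s (fun v => f₁ v - f₂ v) v = P s f₁ v - P s f₂ v := by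
  rw [P, P, P, ← integral_sub (integrable_P h₁ hs₁ hv) (integrable_P h₂ hs₂ hv)]
  simp only [smul_sub]

theorem exists_orbit {v : Vec n} (hv : v ∈ Cone n) {F : Type} {f : Vec n → F} (hf : Homog f) :
    ∃ g : SUGroup n, f v = f (act g (base n)) := by
  obtain ⟨g, c, hc, rfl⟩ := exists_act_eq hv
  exact ⟨g, hf c hc _ (orbit_mem g)⟩

theorem ker_nonneg (s : ℕ) {v w : Vec n} (hv : v ∈ Cone n) (hw : w ∈ Cone n) :
    0 ≤ ker s v w := (ker_pos s hv hw).le

theorem P_const {s : ℕ} (h : n < s) [CompleteSpace E] (c : E) {v : Vec n} (hv : v ∈ Cone n) :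
    P s (fun _ => c) v = c := by
  obtain ⟨g, hg⟩ := exists_orbit hv (homog_P s fun _ : Vec n => c)
  rw [hg, P_orbit, integral_smul_const, integral_kap h, one_smul]

/-- Monotonicity. -/
theorem P_mono {N₁ N₂ : ℕ} {C₁ C₂ : ℝ} {f₁ f₂ : Vec n → ℝ} (h₁ : Adm N₁ C₁ f₁)
    (h₂ : Adm N₂ C₂ f₂) {s : ℕ} (hs₁ : n + N₁ < s) (hs₂ : n + N₂ < s)
    (h : ∀ᵐ y : SUGroup n ∂(mu n), f₁ (act y (base n)) ≤ f₂ (act y (base n))) {v : Vec n}
    (hv : v ∈ Cone n) : P s f₁ v ≤ P s f₂ v := by
  rw [P, P]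
  refine integral_mono_ae (integrable_P h₁ hs₁ hv) (integrable_P h₂ hs₂ hv) ?_
  filter_upwards [h] with y hy
  exact mul_le_mul_of_nonneg_left hy
    (div_nonneg (ker_nonneg s hv (orbit_mem y)) (cs_nonneg n s))

theorem P_nonneg (s : ℕ) {f : Vec n → ℝ}
    (h : ∀ᵐ y : SUGroup n ∂(mu n), 0 ≤ f (act y (base n))) {v : Vec n} (hv : v ∈ Cone n) :
    0 ≤ P s f v := by
  rw [P]
  refine integral_nonneg_of_ae ?_
  filter_upwards [h] with y hy
  exact mul_nonneg (div_nonneg (ker_nonneg s hv (orbit_mem y)) (cs_nonneg n s)) hy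

/-- The averaging operators on the orbit. -/
theorem integrable_P_orbit {N : ℕ} {C : ℝ} {f : Vec n → E} (hf : Adm N C f) {s : ℕ}
    (h : n + N < s) (g : SUGroup n) :
    Integrable (fun x : SUGroup n => kap s x • f (act (g * x) (base n))) (mu n) := by
  have h1 := (integrable_P hf h (orbit_mem g)).comp_mul_left g
  refine h1.congr (Eventually.of_forall fun x => ?_)
  simp only [ker_orbit, kap]
  rw [inv_mul_cancel_left]

theorem norm_P_orbit_le' {N : ℕ} {C : ℝ} {f : Vec n → E} (hf : Adm N C f) {s : ℕ}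
    (h : n + N < s) {K : ℝ} (hK : cs n (s - N) / cs n s ≤ K) (g : SUGroup n) :
    ‖P s f (act g (base n))‖ ≤ K * 4 ^ N * C * ch g ^ (2 * N) := by
  have h0 := hf.nonneg
  rw [P_orbit]
  have hi : Integrable (fun x : SUGroup n =>
      C * (2 * ch g) ^ (2 * N) * (kap s x * ch x ^ (2 * N))) (mu n) :=
    (integrable_kap_pow h).const_mul _
  calc ‖∫ x : SUGroup n, kap s x • f (act (g * x) (base n)) ∂(mu n)‖
      ≤ ∫ x : SUGroup n, C * (2 * ch g) ^ (2 * N) * (kap s x * ch x ^ (2 * N)) ∂(mu n) := by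
        refine norm_integral_le_of_norm_le hi (Eventually.of_forall fun x => ?_)
        rw [norm_smul, Real.norm_of_nonneg (kap_nonneg s x)]
        have h1 := hf.bound (g * x)
        have h2 := ch_mul_le' g x
        have h3 := ch_pos (g * x)
        have h4 : C * ch (g * x) ^ (2 * N) ≤ C * (2 * ch g * ch x) ^ (2 * N) := by gcongr
        calc kap s x * ‖f (act (g * x) (base n))‖
            ≤ kap s x * (C * (2 * ch g * ch x) ^ (2 * N)) :=
              mul_le_mul_of_nonneg_left (h1.trans h4) (kap_nonneg s x)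
          _ = _ := by rw [mul_pow (2 * ch g)]; ring
    _ = C * (2 * ch g) ^ (2 * N) * (cs n (s - N) / cs n s) := by
        rw [integral_const_mul, integral_kap_pow h]
    _ ≤ C * (2 * ch g) ^ (2 * N) * K := by
        have := ch_pos g
        exact mul_le_mul_of_nonneg_left hK (by positivity)
    _ = _ := by
        have e : (4 : ℝ) ^ N = 2 ^ (2 * N) := by rw [pow_mul]; norm_num
        rw [mul_pow, e]
        ring

theorem norm_P_orbit_le {N : ℕ} {C : ℝ} {f : Vec n → E} (hf : Adm N C f) {s : ℕ}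
    (h : n + N < s) (g : SUGroup n) :
    ‖P s f (act g (base n))‖ ≤ ((n : ℝ) + 1) ^ N * 4 ^ N * C * ch g ^ (2 * N) := by
  refine norm_P_orbit_le' hf h ?_ g
  rw [div_le_iff₀ (cs_pos' (by omega))]
  exact cs_ratio_le h

end Sm

theorem Adm.avg {N : ℕ} {C : ℝ} {f : Vec n → E} (hf : Adm N C f) {s : ℕ} (h : n + N < s) :
    Adm N (((n : ℝ) + 1) ^ N * 4 ^ N * C) (P s f) :=
  adm_of_continuousOn (Sm.contDiffOn_P hf h).continuousOn (Sm.norm_P_orbit_le hf h)

end Pool.Agent.Lib.MP_5d4057_al.HM
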