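import Pool.Agent.Lib.MP_5d4057_al.HM.SmoothA
import Pool.Agent.Lib.MP_5d4057_al.HM.Flow
import Pool.Agent.Lib.MP_5d4057_al.HM.DefsB

/-! Polynomial growth of the averages `P s f` and of their first two derivatives. -/

namespace Pool.Agent.Lib.MP_5d4057_al.HM

open Matrix MeasureTheory Filter Topology Pool.Agent.Lib.MP_5d4057_al Pool.Agent.Lib.MP_5d4057_al.Hyb

open scoped ComplexOrder MatrixOrder Matrix.Norms.L2Operator

set_option linter.unusedSectionVars false

section param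

open Set Function

variable {α P X F G H : Type} [MeasurableSpace α] {ν : Measure α}
  [NormedAddCommGroup P] [NormedSpace ℝ P] [NormedAddCommGroup X] [NormedSpace ℝ X]
  [MeasurableSpace X] [BorelSpace X] [SecondCountableTopology X]
  [NormedAddCommGroup F] [NormedSpace ℝ F] [NormedAddCommGroup G] [NormedSpace ℝ G]
  [NormedAddCommGroup H] [NormedSpace ℝ H]
  (B : F →L[ℝ] G →L[ℝ] H) {Φ : P → X → F} {Ω : Set (P × X)} {s : Set P} {k : Set X}

/-- The bound of a parameter integral at one point, uniform in the weight. -/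
theorem bound_param_zero (hs : IsOpen s) (hΩ : IsOpen Ω) (hk : IsCompact k) (hsk : s ×ˢ k ⊆ Ω)
    (hΦ : ContinuousOn (uncurry Φ) Ω) {p : P} (hp : p ∈ s) :
    ∃ K : ℝ, 0 ≤ K ∧ ∀ (u : α → X) (m : α → G), (∀ a, u a ∈ k) → Integrable m ν →
      ‖∫ a, B (Φ p (u a)) (m a) ∂ν‖ ≤ K * ∫ a, ‖m a‖ ∂ν := by
  obtain ⟨ε, C, hε, hC, hb, hbd⟩ := exists_bound_param hs hΩ hk hsk hΦ hp
  refine ⟨‖B‖ * C, by positivity, fun u m huk hm => ?_⟩
  rw [← integral_const_mul]
  refine norm_integral_le_of_norm_le (hm.norm.const_mul _) (Eventually.of_forall fun a => ?_)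
  exact norm_le_aux B (hbd p (Metric.mem_ball_self hε) _ (huk a)) _

/-- The bound of the first derivative of a parameter integral at one point. -/
theorem bound_param_one (hs : IsOpen s) (hΩ : IsOpen Ω) (hk : IsCompact k) (hsk : s ×ˢ k ⊆ Ω)
    (hΦ : ContDiffOn ℝ 1 (uncurry Φ) Ω) {p : P} (hp : p ∈ s) :
    ∃ K : ℝ, 0 ≤ K ∧ ∀ (u : α → X) (m : α → G), AEMeasurable u ν → (∀ a, u a ∈ k) →
      Integrable m ν →
      ‖fderiv ℝ (fun p => ∫ a, B (Φ p (u a)) (m a) ∂ν) p‖ ≤ K * ∫ a, ‖m a‖ ∂ν := by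
  have hd : ContinuousOn (uncurry (pd Φ)) Ω :=
    (contDiffOn_pd (n := 0) hΩ (by simpa using hΦ)).continuousOn
  obtain ⟨K, hK, h⟩ := bound_param_zero (ν := ν) (preL B) hs hΩ hk hsk hd hp
  refine ⟨K, hK, fun u m hu huk hm => ?_⟩
  rw [(hasFDerivAt_param B hs hΩ hk hsk hΦ hu huk hm hp).fderiv]
  exact h u m huk hm

/-- The bound of the second derivative of a parameter integral at one point. -/
theorem bound_param_two (hs : IsOpen s) (hΩ : IsOpen Ω) (hk : IsCompact k) (hsk : s ×ˢ k ⊆ Ω)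
    (hΦ : ContDiffOn ℝ 2 (uncurry Φ) Ω) {p : P} (hp : p ∈ s) :
    ∃ K : ℝ, 0 ≤ K ∧ ∀ (u : α → X) (m : α → G), AEMeasurable u ν → (∀ a, u a ∈ k) →
      Integrable m ν →
      ‖fderiv ℝ (fderiv ℝ (fun p => ∫ a, B (Φ p (u a)) (m a) ∂ν)) p‖ ≤ K * ∫ a, ‖m a‖ ∂ν := by
  have hΦ1 : ContDiffOn ℝ 1 (uncurry Φ) Ω := hΦ.of_le (by norm_num)
  have hd : ContDiffOn ℝ 1 (uncurry (pd Φ)) Ω :=
    contDiffOn_pd (n := 1) hΩ (by simpa [one_add_one_eq_two] using hΦ)
  obtain ⟨K, hK, h⟩ := bound_param_one (ν := ν) (preL B) hs hΩ hk hsk hd hp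
  refine ⟨K, hK, fun u m hu huk hm => ?_⟩
  have h1 : fderiv ℝ (fun p => ∫ a, B (Φ p (u a)) (m a) ∂ν) =ᶠ[𝓝 p]
      fun p => ∫ a, (preL B) (pd Φ p (u a)) (m a) ∂ν := by
    filter_upwards [hs.mem_nhds hp] with p hp
    exact (hasFDerivAt_param B hs hΩ hk hsk hΦ1 hu huk hm hp).fderiv
  rw [h1.fderiv_eq]
  exact h u m hu huk hm

end param

variable {n m : ℕ} {E : Type} [NormedAddCommGroup E] [NormedSpace ℝ E]

private theorem st_ch_pos (x : SUGroup n) : 0 < ch x := lt_of_lt_of_le one_pos (one_le_ch x)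

private theorem st_adm_nonneg {N : ℕ} {C : ℝ} {f : Vec n → E} (hf : Adm N C f) : 0 ≤ C := by
  have h := (norm_nonneg _).trans (hf.bound 1)
  rwa [ch_one, one_pow, mul_one] at h

/-- The total mass of the weight. -/
theorem integral_norm_wgt_le {s N : ℕ} {C : ℝ} {f : Vec n → E} (hf : Adm N C f) (hN : N ≤ s)
    (hs : Integrable (fun x : SUGroup n => (ch x ^ (2 * (s - N)))⁻¹) (mu n)) :
    ∫ y, ‖wgt s f y‖ ∂(mu n) ≤ C * (|cs n s|⁻¹ * cs n (s - N)) := by
  have e2 : C * (|cs n s|⁻¹ * cs n (s - N)) =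
      ∫ y : SUGroup n, (C / |cs n s|) * (ch y ^ (2 * (s - N)))⁻¹ ∂(mu n) := by
    rw [integral_const_mul, ← cs]
    ring
  rw [e2]
  refine integral_mono (integrable_wgt hf hN hs).norm (hs.const_mul _) fun y => ?_
  have h0 : 0 < ch y := st_ch_pos y
  show ‖wgt s f y‖ ≤ (C / |cs n s|) * (ch y ^ (2 * (s - N)))⁻¹
  rw [wgt, norm_smul, norm_div, Real.norm_of_nonneg (by positivity), Real.norm_eq_abs]
  have e : (ch y ^ (2 * (s - N)))⁻¹ = (ch y ^ (2 * s))⁻¹ * ch y ^ (2 * N) := by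
    have : ch y ^ (2 * s) = ch y ^ (2 * (s - N)) * ch y ^ (2 * N) := by
      rw [← pow_add]
      congr 1
      omega
    rw [this]
    field_simp
  rw [e]
  calc (ch y ^ (2 * s))⁻¹ / |cs n s| * ‖f (act y (base n))‖
      ≤ (ch y ^ (2 * s))⁻¹ / |cs n s| * (C * ch y ^ (2 * N)) := by
        gcongr
        exact hf.bound y
    _ = _ := by ring

/-- Bounds at the base point, uniform in the function. -/
theorem P_base_bound (E : Type) [NormedAddCommGroup E] [NormedSpace ℝ E] {s N : ℕ} (hN : N ≤ s)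
    (hs : Integrable (fun x : SUGroup n => (ch x ^ (2 * (s - N)))⁻¹) (mu n)) :
    ∃ K : ℝ, 0 ≤ K ∧ ∀ (C : ℝ) (f : Vec n → E), Adm N C f → ‖P s f (base n)‖ ≤ K * C ∧
      ‖fderiv ℝ (P s f) (base n)‖ ≤ K * C ∧
      ‖fderiv ℝ (fderiv ℝ (P s f)) (base n)‖ ≤ K * C := by
  obtain ⟨K0, hK0, h0⟩ := bound_param_zero (ν := mu n) (ContinuousLinearMap.lsmul ℝ ℝ (E := E))
    (isOpen_cone n) (isOpen_Om n) (isCompact_zball n) (cone_prod_subset n)
    (contDiffOn_KPhi s).continuousOn (base_mem n)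
  obtain ⟨K1, hK1, h1⟩ := bound_param_one (ν := mu n) (ContinuousLinearMap.lsmul ℝ ℝ (E := E))
    (isOpen_cone n) (isOpen_Om n) (isCompact_zball n) (cone_prod_subset n)
    ((contDiffOn_KPhi s).of_le (by exact_mod_cast (le_top : ((1 : ℕ) : ℕ∞) ≤ ⊤))) (base_mem n)
  obtain ⟨K2, hK2, h2⟩ := bound_param_two (ν := mu n) (ContinuousLinearMap.lsmul ℝ ℝ (E := E))
    (isOpen_cone n) (isOpen_Om n) (isCompact_zball n) (cone_prod_subset n)
    ((contDiffOn_KPhi s).of_le (WithTop.coe_le_coe.2 (le_top : (2 : ℕ∞) ≤ ⊤))) (base_mem n)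
  have hcs : 0 ≤ cs n (s - N) := integral_nonneg fun x => by
    have := st_ch_pos x
    positivity
  set M : ℝ := |cs n s|⁻¹ * cs n (s - N) with hM
  have hM0 : 0 ≤ M := by positivity
  have hmu := (continuous_zcv (n := n)).aemeasurable (μ := mu n)
  refine ⟨(K0 + K1 + K2) * M, by positivity, fun C f hf => ?_⟩
  have hC := st_adm_nonneg hf
  have hi := integrable_wgt hf hN hs
  have hw := integral_norm_wgt_le hf hN hs
  rw [← hM] at hw
  have hP : P s f = fun v => ∫ y : SUGroup n,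
      ContinuousLinearMap.lsmul ℝ ℝ (KPhi s v (zc y)) (wgt s f y) ∂(mu n) := funext (P_eq s f)
  have key : ∀ K : ℝ, 0 ≤ K → K ≤ K0 + K1 + K2 → ∀ x : ℝ, x ≤ K * ∫ y, ‖wgt s f y‖ ∂(mu n) →
      x ≤ (K0 + K1 + K2) * M * C := by
    intro K hK hle x hx
    calc x ≤ K * ∫ y, ‖wgt s f y‖ ∂(mu n) := hx
      _ ≤ K * (C * M) := by gcongr
      _ ≤ (K0 + K1 + K2) * (C * M) := by gcongr
      _ = _ := by ring
  rw [hP]
  exact ⟨key K0 hK0 (by linarith) _ (h0 _ _ (zc_mem (n := n)) hi),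
    key K1 hK1 (by linarith) _ (h1 _ _ hmu (zc_mem (n := n)) hi),
    key K2 hK2 (by linarith) _ (h2 _ _ hmu (zc_mem (n := n)) hi)⟩

private theorem st_P_act (s : ℕ) (f : Vec n → E) (a : SUGroup n) (v : Vec n) :
    P s (fun w => f (act a w)) v = P s f (act a v) := by
  rw [P, P, ← integral_mul_left_eq_self
    (fun y : SUGroup n => (ker s (act a v) (act y (base n)) / cs n s) • f (act y (base n))) a]
  refine integral_congr_ae (Eventually.of_forall fun y => ?_)
  simp only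
  rw [act_mul, ker_act]

private theorem st_adm_act {N : ℕ} {C : ℝ} {f : Vec n → E} (hf : Adm N C f) (a : SUGroup n) :
    Adm N (C * (2 * ch a) ^ (2 * N)) fun w => f (act a w) := by
  have hC := st_adm_nonneg hf
  refine ⟨?_, fun y => ?_⟩
  · have h1 := hf.meas.comp_quasiMeasurePreserving
      (measurePreserving_mul_left (mu n) a).quasiMeasurePreserving
    refine h1.congr (Eventually.of_forall fun y => ?_)
    show f (act (a * y) (base n)) = f (act a (act y (base n)))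
    rw [act_mul]
  · have h0 := st_ch_pos (a * y)
    have h1 := st_ch_pos a
    have h2 := st_ch_pos y
    rw [← act_mul]
    calc ‖f (act (a * y) (base n))‖ ≤ C * ch (a * y) ^ (2 * N) := hf.bound _
      _ ≤ C * (2 * ch a * ch y) ^ (2 * N) := by
        gcongr
        exact ch_mul_le' a y
      _ = _ := by rw [mul_pow (2 * ch a) (ch y)]; ring

private theorem st_norm_act_le (g : SUGroup n) (v : Vec n) :
    ‖act g v‖ ≤ 2 * (n + 1) * ch g * ‖v‖ := by
  have h0 := st_ch_pos g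
  rw [pi_norm_le_iff_of_nonneg (by positivity)]
  intro i
  show ‖∑ j, g.toMatrix i j * v j‖ ≤ _
  calc ‖∑ j, g.toMatrix i j * v j‖ ≤ ∑ j : Fin (n + 1), 2 * ch g * ‖v‖ := by
        refine norm_sum_le_of_le _ fun j _ => ?_
        rw [norm_mul]
        exact mul_le_mul (norm_entry_le g i j) (norm_le_pi_norm v j) (norm_nonneg _) (by positivity)
    _ = _ := by
      rw [Finset.sum_const, Finset.card_univ, Fintype.card_fin, nsmul_eq_mul]
      push_cast
      ring

private theorem st_norm_actL_le (g : SUGroup n) : ‖actL g‖ ≤ 2 * (n + 1) * ch g := by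
  have h0 := st_ch_pos g
  refine ContinuousLinearMap.opNorm_le_bound _ (by positivity) fun v => ?_
  rw [actL_apply]
  exact st_norm_act_le g v

private theorem st_homog (s : ℕ) (f : Vec n → E) : Homog (P s f) := by
  intro c hc v _
  rw [P, P]
  refine integral_congr_ae (Eventually.of_forall fun y => ?_)
  simp only
  rw [ker_smul_left s hc]

/-- Growth of the derivatives. -/
theorem P_tame_of {s N : ℕ} (hN : N ≤ s)
    (hs : Integrable (fun x : SUGroup n => (ch x ^ (2 * (s - N)))⁻¹) (mu n)) :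
    ∃ C' : ℝ, 0 ≤ C' ∧ ∀ (C : ℝ) (f : Vec n → E), Adm N C f → Tame (N + 1) (C' * C) (P s f) := by
  obtain ⟨K, hK, hb⟩ := P_base_bound (n := n) E hN hs
  set D : ℝ := 2 * (n + 1) with hD
  have hD1 : 1 ≤ D := by
    have : (0 : ℝ) ≤ n := Nat.cast_nonneg n
    rw [hD]
    linarith
  refine ⟨K * 2 ^ (2 * N) * D ^ 2, by positivity, fun C f hf => ?_⟩
  have hC := st_adm_nonneg hf
  have hcd : ContDiffOn ℝ (⊤ : ℕ∞) (P s f) (Cone n) := contDiffOn_P_of (integrable_wgt hf hN hs)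
  have hcd2 : ContDiffOn ℝ 2 (P s f) (Cone n) :=
    hcd.of_le (WithTop.coe_le_coe.2 (le_top : (2 : ℕ∞) ≤ ⊤))
  have hle : ∀ g : SUGroup n, K * (C * (2 * ch g) ^ (2 * N)) * (D * ch g) ^ 2 =
      K * 2 ^ (2 * N) * D ^ 2 * C * ch g ^ (2 * (N + 1)) := by
    intro g
    rw [mul_pow, mul_pow, show 2 * (N + 1) = 2 * N + 2 by ring, pow_add]
    ring
  have hDc : ∀ g : SUGroup n, 1 ≤ D * ch g := fun g => by
    have := one_le_ch g
    nlinarith
  have hcomp : ∀ g : SUGroup n, P s f = fun v => P s (fun w => f (act g w)) (actL g⁻¹ v) := by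
    intro g
    funext v
    rw [st_P_act, actL_apply, ← act_mul, mul_inv_cancel, act_one]
  have hpt : ∀ g : SUGroup n, actL g⁻¹ (act g (base n)) = base n := by
    intro g
    rw [actL_apply, ← act_mul, inv_mul_cancel, act_one]
  refine ⟨st_homog s f, hcd2, fun g => ?_, fun g => ?_, fun g => ?_⟩
  · have h1 := (hb _ _ (st_adm_act hf g)).1
    rw [st_P_act] at h1
    have h2 := hDc g
    have h3 := st_ch_pos g
    rw [← hle g]
    calc _ ≤ K * (C * (2 * ch g) ^ (2 * N)) := h1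
      _ ≤ K * (C * (2 * ch g) ^ (2 * N)) * (D * ch g) ^ 2 :=
        le_mul_of_one_le_right (by positivity) (one_le_pow₀ h2)
  · have h1 := (hb _ _ (st_adm_act hf g)).2.1
    have h2 := hDc g
    have h3 := st_ch_pos g
    have hcdg : ContDiffOn ℝ (⊤ : ℕ∞) (P s (fun w => f (act g w))) (Cone n) :=
      contDiffOn_P_of (integrable_wgt (st_adm_act hf g) hN hs)
    have hda : DifferentiableAt ℝ (P s (fun w => f (act g w))) (actL g⁻¹ (act g (base n))) := by
      rw [hpt]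
      exact (hcdg.contDiffAt ((isOpen_cone n).mem_nhds (base_mem n))).differentiableAt
        (by simp)
    have e : fderiv ℝ (P s f) (act g (base n)) =
        (fderiv ℝ (P s (fun w => f (act g w))) (base n)).comp (actL g⁻¹) := by
      have h4 := (hda.hasFDerivAt.comp (act g (base n)) (actL g⁻¹).hasFDerivAt).fderiv
      rw [hpt] at h4
      rw [← h4]
      conv_lhs => rw [hcomp g]
      rfl
    rw [← hle g, e]
    calc _ ≤ ‖fderiv ℝ (P s (fun w => f (act g w))) (base n)‖ * ‖actL g⁻¹‖ :=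
        ContinuousLinearMap.opNorm_comp_le _ _
      _ ≤ K * (C * (2 * ch g) ^ (2 * N)) * (D * ch g) := by
        refine mul_le_mul h1 ?_ (norm_nonneg _) (by positivity)
        rw [← ch_inv g]
        exact st_norm_actL_le g⁻¹
      _ ≤ K * (C * (2 * ch g) ^ (2 * N)) * (D * ch g) ^ 2 := by
        refine mul_le_mul_of_nonneg_left ?_ (by positivity)
        exact le_self_pow₀ h2 two_ne_zero
  · have h1 := (hb _ _ (st_adm_act hf g)).2.2
    have h3 := st_ch_pos g
    have hcdg : ContDiffOn ℝ (⊤ : ℕ∞) (P s (fun w => f (act g w))) (Cone n) :=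
      contDiffOn_P_of (integrable_wgt (st_adm_act hf g) hN hs)
    have hda : ContDiffAt ℝ 2 (P s (fun w => f (act g w))) (actL g⁻¹ (act g (base n))) := by
      rw [hpt]
      exact (hcdg.contDiffAt ((isOpen_cone n).mem_nhds (base_mem n))).of_le
        (WithTop.coe_le_coe.2 (le_top : (2 : ℕ∞) ≤ ⊤))
    have e : ∀ ξ η, fderiv ℝ (fderiv ℝ (P s f)) (act g (base n)) ξ η =
        fderiv ℝ (fderiv ℝ (P s (fun w => f (act g w)))) (base n) (actL g⁻¹ ξ) (actL g⁻¹ η) := by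
      intro ξ η
      have h4 := fderiv_two_comp (actL g⁻¹) hda ξ η
      rw [hpt] at h4
      rw [← h4]
      conv_lhs => rw [hcomp g]
    rw [← hle g]
    refine ContinuousLinearMap.opNorm_le_bound₂ _ (by positivity) fun ξ η => ?_
    rw [e]
    have h5 : ∀ ζ : Vec n, ‖actL g⁻¹ ζ‖ ≤ D * ch g * ‖ζ‖ := fun ζ => by
      rw [← ch_inv g, actL_apply]
      exact st_norm_act_le g⁻¹ ζ
    calc _ ≤ ‖fderiv ℝ (fderiv ℝ (P s (fun w => f (act g w)))) (base n)‖ * ‖actL g⁻¹ ξ‖ *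
          ‖actL g⁻¹ η‖ := ContinuousLinearMap.le_opNorm₂ _ _ _
      _ ≤ K * (C * (2 * ch g) ^ (2 * N)) * (D * ch g * ‖ξ‖) * (D * ch g * ‖η‖) := by
        gcongr
        · exact h5 ξ
        · exact h5 η
      _ = _ := by ring

/-- `P s f` and its first two derivatives have polynomial growth. -/
theorem P_tame_aux (n N : ℕ) : ∃ s₀ : ℕ, ∀ s, s₀ ≤ s → ∃ (N' : ℕ) (C' : ℝ), 0 ≤ C' ∧
    ∀ (C : ℝ) (f : Vec n → E), Adm N C f → Tame N' (C' * C) (P s f) := by
  obtain ⟨s₀, hs₀⟩ := integrable_ch n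
  refine ⟨s₀ + N, fun s hs => ?_⟩
  obtain ⟨C', h1, h2⟩ := P_tame_of (n := n) (E := E) (s := s) (N := N) (by omega)
    (hs₀ (s - N) (by omega))
  exact ⟨N + 1, C', h1, h2⟩

end Pool.Agent.Lib.MP_5d4057_al.HM
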