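import Pool.Agent.Lib.MP_5d4057_al.HM.DefsB
import Pool.Agent.Lib.MP_5d4057_al.HM.Flow
import Pool.Agent.Lib.MP_5d4057_al.HM.LapKer
import Pool.Agent.Lib.MP_5d4057_al.HM.SmoothB
import Pool.Agent.Lib.MP_5d4057_al.HM.SmoothT

namespace Pool.Agent.Lib.MP_5d4057_al.HM

open Matrix MeasureTheory Filter Topology Pool.Agent.Lib.MP_5d4057_al Pool.Agent.Lib.MP_5d4057_al.Hyb

open scoped ComplexOrder MatrixOrder Matrix.Norms.L2Operator

variable {n m : ℕ} {E : Type} [NormedAddCommGroup E] [NormedSpace ℝ E] [CompleteSpace E]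

/-- Smoothness of `P s f` (blueprint A6): differentiate under the integral; the derivatives in `v` of order `i ≤ k`
of the kernel are, locally uniformly in `v ∈ Cone n`, bounded by `C (ch y)^(-2 s)` at
`w = act y (base n)` (`|herm v w| ≥ c ch y`, `|w| ≤ 2 (n+1) ch y`). -/
theorem P_contDiffOn (n N : ℕ) : ∃ s₀ : ℕ, ∀ s, s₀ ≤ s → ∀ (C : ℝ) (f : Vec n → E), Adm N C f →
    ContDiffOn ℝ (⊤ : ℕ∞) (P s f) (Cone n) :=
  ⟨n + N + 1, fun _ hs _ _ hf => Sm.contDiffOn_P hf (by omega)⟩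

/-- Homogeneity of `P s f`. -/
theorem P_homog (s : ℕ) (f : Vec n → E) : Homog (P s f) := Sm.homog_P s f

/-- The ratio of the constants tends to `1`. -/
theorem cs_ratio_near (n N : ℕ) : ∀ c : ℝ, 1 < c → ∃ s₀ : ℕ, n + N < s₀ ∧ ∀ s, s₀ ≤ s →
    cs n (s - N) ≤ c * cs n s := by
  induction N with
  | zero =>
    intro c hc
    refine ⟨n + 1, by omega, fun s hs => ?_⟩
    have h := cs_nonneg n s
    rw [Nat.sub_zero]
    nlinarith
  | succ N ih =>
    intro c hc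
    obtain ⟨c', h1, h2⟩ : ∃ c' : ℝ, 1 < c' ∧ c' * c' ≤ c := by
      refine ⟨Real.sqrt c, ?_, le_of_eq (Real.mul_self_sqrt (by linarith))⟩
      rw [Real.lt_sqrt (by norm_num)]
      linarith
    obtain ⟨s₀, hs₀, h⟩ := ih c' h1
    obtain ⟨s₁, hs₁⟩ := exists_nat_gt ((n : ℝ) * c' / (c' - 1))
    refine ⟨max (s₀ + 1) (s₁ + 1) + n + 1, by omega, fun s hs => ?_⟩
    have e : s - (N + 1) = (s - 1) - N := by omega
    have hb : s₀ ≤ s - 1 := by omega
    have h3 := h (s - 1) hb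
    have hcs := cs_succ (n := n) (s := s - 1) (by omega)
    have e1 : s - 1 + 1 = s := by omega
    rw [e1] at hcs
    have hr : ((s - 1 : ℕ) : ℝ) = s - 1 := by
      rw [Nat.cast_sub (by omega)]
      norm_num
    rw [hr] at hcs
    have hpos := cs_nonneg n s
    have hsn : (s₁ : ℝ) + n + 2 ≤ s := by
      have : s₁ + n + 2 ≤ s := by omega
      exact_mod_cast this
    have hc1 : 0 < c' - 1 := by linarith
    have h4 : (n : ℝ) * c' ≤ (c' - 1) * (s - 1) := by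
      rw [div_lt_iff₀ hc1] at hs₁
      have hn : (0 : ℝ) ≤ n := Nat.cast_nonneg n
      nlinarith
    have hn : (0 : ℝ) ≤ n := Nat.cast_nonneg n
    have hs1 : (0 : ℝ) ≤ s₁ := Nat.cast_nonneg s₁
    have h5 : cs n (s - 1) ≤ c' * cs n s := by
      have h6 : (s : ℝ) - 1 ≤ c' * (s - 1 - n) := by nlinarith
      have h7 : 0 < (s : ℝ) - 1 - n := by linarith
      have h8 : (s - 1 - n) * cs n (s - 1) ≤ (s - 1 - n) * (c' * cs n s) := by
        calc ((s : ℝ) - 1 - n) * cs n (s - 1) = (s - 1) * cs n s := hcs.symm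
          _ ≤ (c' * (s - 1 - n)) * cs n s := mul_le_mul_of_nonneg_right h6 hpos
          _ = _ := by ring
      exact le_of_mul_le_mul_left h8 h7
    rw [e]
    calc cs n (s - 1 - N) ≤ c' * cs n (s - 1) := h3
      _ ≤ c' * (c' * cs n s) := mul_le_mul_of_nonneg_left h5 (by linarith)
      _ = c' * c' * cs n s := by ring
      _ ≤ c * cs n s := mul_le_mul_of_nonneg_right h2 hpos

/-- Growth of `P s f`: `ch (g x) ≤ 2 ch g ch x` and `∫ kap s · ch^(2N) = cs n (s-N)/cs n s ≤ 2`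
for large `s`. -/
theorem P_bound (n N : ℕ) : ∃ s₀ : ℕ, ∀ s, s₀ ≤ s → ∀ (C : ℝ) (f : Vec n → E), Adm N C f →
    Adm N (2 * 4 ^ N * C) (P s f) := by
  obtain ⟨s₀, hs₀, h⟩ := cs_ratio_near n N 2 one_lt_two
  refine ⟨s₀, fun s hs C f hf => ?_⟩
  have hns : n + N < s := by omega
  refine adm_of_continuousOn (Sm.contDiffOn_P hf hns).continuousOn fun g => ?_
  have h1 : cs n (s - N) / cs n s ≤ 2 := by
    rw [div_le_iff₀ (cs_pos' (by omega))]
    exact h s hs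
  exact Sm.norm_P_orbit_le' hf hns h1 g

/-- The Laplacian of `P s f`: differentiate under the integral and use `lap_ker` and `cs_succ`. -/
theorem lap_P (hn : 1 ≤ n) (N : ℕ) : ∃ s₀ : ℕ, ∀ s, s₀ ≤ s → ∀ (C : ℝ) (f : Vec n → E),
    Adm N C f → ∀ v ∈ Cone n, Lap (P s f) v = lam n s • (P s f v - P (s + 1) f v) :=
  ⟨n + N + 1, fun _ hs _ _ hf _ hv => Sm.lap_P hf (by omega) hv⟩

/-- `P s f` and its first two derivatives have polynomial growth. -/
theorem P_tame (hn : 1 ≤ n) (N : ℕ) : ∃ s₀ : ℕ, ∀ s, s₀ ≤ s → ∃ (N' : ℕ) (C' : ℝ), 0 ≤ C' ∧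
    ∀ (C : ℝ) (f : Vec n → E), Adm N C f → Tame N' (C' * C) (P s f) := P_tame_aux n N

end Pool.Agent.Lib.MP_5d4057_al.HM
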