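import Pool.Agent.Lib.MP_5d4057_al.HM.Lav
import Pool.Agent.Lib.MP_5d4057_al.HM.EInv
import Pool.Agent.Lib.MP_5d4057_al.HM.ESeq

/-! Tools for the limit of the subharmonicity: continuous convergence, the growth of the inverse, and
the inequality `A P_s(A⁻¹) A ≤ P_s A` for left averages. -/

namespace Pool.Agent.Lib.MP_5d4057_al.HM

open Matrix MeasureTheory Filter Topology Pool.Agent.Lib.MP_5d4057_al Pool.Agent.Lib.MP_5d4057_al.Hyb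

open scoped ComplexOrder MatrixOrder Matrix.Norms.L2Operator

namespace SubA

variable {n m : ℕ} {E : Type} [NormedAddCommGroup E]

/-! ### Continuous convergence -/

/-- Locally uniform convergence to a continuous function is continuous convergence. -/
theorem cc_of {f : ℕ → SUGroup n → E} {f₀ : SUGroup n → E} (hc : Continuous f₀)
    (h : ∀ T ε : ℝ, 0 < ε → ∃ j₀ : ℕ, ∀ j, j₀ ≤ j → ∀ g : SUGroup n, ch g ≤ T →
      ‖f j g - f₀ g‖ ≤ ε) (g₀ : SUGroup n) :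
    Tendsto (fun p : ℕ × SUGroup n => f p.1 p.2) (atTop ×ˢ 𝓝 g₀) (𝓝 (f₀ g₀)) := by
  rw [Metric.tendsto_nhds]
  intro ε hε
  obtain ⟨j₀, hj⟩ := h (ch g₀ + 1) (ε / 2) (by positivity)
  have h1 : ∀ᶠ g in 𝓝 g₀, ch g < ch g₀ + 1 :=
    continuous_ch.continuousAt.eventually_lt continuousAt_const (by linarith)
  have h2 : ∀ᶠ g in 𝓝 g₀, dist (f₀ g) (f₀ g₀) < ε / 2 :=
    Metric.tendsto_nhds.1 (hc.tendsto g₀) _ (by positivity)
  have h3 := (eventually_ge_atTop j₀).prod_mk (h1.and h2)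
  filter_upwards [h3] with p hp
  have h4 := hj p.1 hp.1 p.2 hp.2.1.le
  rw [← dist_eq_norm] at h4
  exact (dist_triangle _ _ _).trans_lt (by linarith [hp.2.2])

/-- Continuous convergence to a continuous function is locally uniform. -/
theorem of_cc {f : ℕ → SUGroup n → E} {f₀ : SUGroup n → E} (hc : Continuous f₀)
    (h : ∀ g₀ : SUGroup n,
      Tendsto (fun p : ℕ × SUGroup n => f p.1 p.2) (atTop ×ˢ 𝓝 g₀) (𝓝 (f₀ g₀))) (T ε : ℝ)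
    (hε : 0 < ε) : ∃ j₀ : ℕ, ∀ j, j₀ ≤ j → ∀ g : SUGroup n, ch g ≤ T → ‖f j g - f₀ g‖ ≤ ε := by
  have h1 : ∀ g₀ ∈ {x : SUGroup n | ch x ≤ T}, ∃ U ∈ 𝓝[{x : SUGroup n | ch x ≤ T}] g₀, ∃ j₀ : ℕ,
      ∀ j, j₀ ≤ j → ∀ g ∈ U, ‖f j g - f₀ g‖ ≤ ε := by
    intro g₀ _
    have h2 := Metric.tendsto_nhds.1 (h g₀) (ε / 2) (by positivity)
    obtain ⟨pa, ha, pb, hb, hab⟩ := eventually_prod_iff.1 h2
    obtain ⟨j₀, hj₀⟩ := eventually_atTop.1 ha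
    have h3 : ∀ᶠ g in 𝓝 g₀, dist (f₀ g) (f₀ g₀) < ε / 2 :=
      Metric.tendsto_nhds.1 (hc.tendsto g₀) _ (by positivity)
    refine ⟨{g | pb g ∧ dist (f₀ g) (f₀ g₀) < ε / 2}, mem_nhdsWithin_of_mem_nhds (hb.and h3), j₀,
      fun j hj g hg => ?_⟩
    have h4 := hab (hj₀ j hj) hg.1
    have h5 := hg.2
    rw [← dist_eq_norm]
    rw [dist_comm] at h5
    exact (dist_triangle _ (f₀ g₀) _).trans (by linarith)
  choose! U hU j₀ hj using h1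
  obtain ⟨t, hcov⟩ := (isCompact_ball (n := n) T).elim_nhdsWithin_subcover' (fun g hg => U g)
    (fun g hg => hU g hg)
  refine ⟨t.sup fun g => j₀ g, fun j hjj g hg => ?_⟩
  obtain ⟨g₁, hg₁, hgU⟩ := Set.mem_iUnion₂.1 (hcov hg)
  exact hj g₁ g₁.2 j ((Finset.le_sup (f := fun g : {x : SUGroup n | ch x ≤ T} => j₀ g) hg₁).trans hjj)
    g hgU

/-! ### The growth of the inverse -/

theorem norm_inv_le {A : Vec n → Mat m} {A' : Vec n →L[ℝ] Mat m} (B : Mat m) :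
    ‖(-(ContinuousLinearMap.mulLeftRight ℝ (Mat m) B B)).comp A'‖ ≤ ‖B‖ ^ 2 * ‖A'‖ := by
  refine ContinuousLinearMap.opNorm_le_bound _ (by positivity) fun ξ => ?_
  have e : (-(ContinuousLinearMap.mulLeftRight ℝ (Mat m) B B)).comp A' ξ = -(B * A' ξ * B) := by
    simp
  rw [e, norm_neg]
  calc ‖B * A' ξ * B‖ ≤ ‖B‖ * ‖A' ξ‖ * ‖B‖ :=
        (norm_mul_le _ _).trans (mul_le_mul_of_nonneg_right (norm_mul_le _ _) (norm_nonneg _))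
    _ ≤ ‖B‖ * (‖A'‖ * ‖ξ‖) * ‖B‖ := by
        gcongr
        exact A'.le_opNorm ξ
    _ = _ := by ring

/-- The derivative of the inverse. -/
theorem norm_fderiv_inv_le {A : Vec n → Mat m} {v : Vec n} (hA : DifferentiableAt ℝ A v)
    (hu : IsUnit (A v)) :
    ‖fderiv ℝ (fun w => (A w)⁻¹) v‖ ≤ ‖(A v)⁻¹‖ ^ 2 * ‖fderiv ℝ A v‖ := by
  rw [(hasFDerivAt_matInv hA.hasFDerivAt hu).fderiv]
  exact norm_inv_le (A := A) _

/-- The second derivative of the inverse. -/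
theorem norm_fderiv_two_inv_le {A : Vec n → Mat m} {v : Vec n} (hA : ContDiffAt ℝ 2 A v)
    (hu : IsUnit (A v)) :
    ‖fderiv ℝ (fderiv ℝ (fun w => (A w)⁻¹)) v‖ ≤
      2 * ‖(A v)⁻¹‖ ^ 3 * ‖fderiv ℝ A v‖ ^ 2 + ‖(A v)⁻¹‖ ^ 2 * ‖fderiv ℝ (fderiv ℝ A) v‖ := by
  have hd : ContDiffAt ℝ 1 (fderiv ℝ A) v := hA.fderiv_right (by norm_num)
  have hd' : DifferentiableAt ℝ (fderiv ℝ A) v := hd.differentiableAt (by norm_num)
  have hev1 : ∀ᶠ w in 𝓝 v, DifferentiableAt ℝ A w := by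
    filter_upwards [hA.eventually (by simp)] with w hw
    exact hw.differentiableAt (by norm_num)
  have hev2 : ∀ᶠ w in 𝓝 v, IsUnit (A w) := by
    have : {x : Mat m | IsUnit x} ∈ 𝓝 (A v) := Units.isOpen.mem_nhds hu
    exact hA.continuousAt this
  have hi : ContDiffAt ℝ 2 (fun w => (A w)⁻¹) v := contDiffAt_matInv hA hu
  have hid : DifferentiableAt ℝ (fderiv ℝ (fun w => (A w)⁻¹)) v :=
    (hi.fderiv_right (m := 1) (by norm_num)).differentiableAt (by norm_num)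
  have hI := hasFDerivAt_matInv (hev1.self_of_nhds).hasFDerivAt hu
  have hb := norm_fderiv_inv_le (hev1.self_of_nhds) hu
  have hb' : ∀ ξ : Vec n, ‖fderiv ℝ (fun w => (A w)⁻¹) v ξ‖ ≤
      ‖(A v)⁻¹‖ ^ 2 * ‖fderiv ℝ A v‖ * ‖ξ‖ := fun ξ =>
    (ContinuousLinearMap.le_opNorm _ ξ).trans (mul_le_mul_of_nonneg_right hb (norm_nonneg _))
  refine ContinuousLinearMap.opNorm_le_bound _ (by positivity) fun ζ => ?_
  refine ContinuousLinearMap.opNorm_le_bound _ (by positivity) fun ξ => ?_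
  have hev : (fun w => fderiv ℝ (fun w => (A w)⁻¹) w ξ) =ᶠ[𝓝 v]
      fun w => -((A w)⁻¹ * fderiv ℝ A w ξ * (A w)⁻¹) := by
    filter_upwards [hev1, hev2] with w h1 h2
    exact fderiv_matInv h1 h2 ξ
  have h1 : fderiv ℝ (fun w => fderiv ℝ (fun w => (A w)⁻¹) w ξ) v ζ =
      fderiv ℝ (fderiv ℝ (fun w => (A w)⁻¹)) v ζ ξ := by
    have := (hid.hasFDerivAt.clm_apply (hasFDerivAt_const ξ v)).fderiv
    rw [this]; simp
  have hD : HasFDerivAt (fun w => fderiv ℝ A w ξ) ((fderiv ℝ (fderiv ℝ A) v).flip ξ) v := by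
    have := hd'.hasFDerivAt.clm_apply (hasFDerivAt_const ξ v)
    rwa [ContinuousLinearMap.comp_zero, zero_add] at this
  have hP : HasFDerivAt (fun w => -((A w)⁻¹ * fderiv ℝ A w ξ * (A w)⁻¹)) _ v :=
    ((hI.mul' hD).mul' hI).neg
  have hI' : ∀ η : Vec n, (-(ContinuousLinearMap.mulLeftRight ℝ (Mat m) (A v)⁻¹ (A v)⁻¹)).comp
      (fderiv ℝ A v) η = fderiv ℝ (fun w => (A w)⁻¹) v η := fun η => by rw [hI.fderiv]
  have e : fderiv ℝ (fderiv ℝ (fun w => (A w)⁻¹)) v ζ ξ =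
      -(fderiv ℝ (fun w => (A w)⁻¹) v ζ * fderiv ℝ A v ξ * (A v)⁻¹ +
        (A v)⁻¹ * fderiv ℝ (fderiv ℝ A) v ζ ξ * (A v)⁻¹ +
        (A v)⁻¹ * fderiv ℝ A v ξ * fderiv ℝ (fun w => (A w)⁻¹) v ζ) := by
    rw [← h1, hev.fderiv_eq, hP.fderiv, ← hI']
    simp only [_root_.neg_apply, _root_.add_apply,
      _root_.smul_apply, ContinuousLinearMap.comp_apply, ContinuousLinearMap.flip_apply,
      ContinuousLinearMap.mulLeftRight_apply, smul_eq_mul, MulOpposite.smul_eq_mul_unop,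
      MulOpposite.unop_op, Pi.mul_apply]
    noncomm_ring
  rw [e, norm_neg]
  have n3 : ∀ X Y Z : Mat m, ‖X * Y * Z‖ ≤ ‖X‖ * ‖Y‖ * ‖Z‖ := fun X Y Z =>
    (norm_mul_le _ _).trans (mul_le_mul_of_nonneg_right (norm_mul_le _ _) (norm_nonneg _))
  have a1 := (fderiv ℝ A v).le_opNorm ξ
  have a2 : ‖fderiv ℝ (fderiv ℝ A) v ζ ξ‖ ≤ ‖fderiv ℝ (fderiv ℝ A) v‖ * ‖ζ‖ * ‖ξ‖ :=
    (ContinuousLinearMap.le_opNorm _ ξ).trans
      (mul_le_mul_of_nonneg_right (ContinuousLinearMap.le_opNorm _ ζ) (norm_nonneg _))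
  calc _ ≤ ‖fderiv ℝ (fun w => (A w)⁻¹) v ζ‖ * ‖fderiv ℝ A v ξ‖ * ‖(A v)⁻¹‖ +
        ‖(A v)⁻¹‖ * ‖fderiv ℝ (fderiv ℝ A) v ζ ξ‖ * ‖(A v)⁻¹‖ +
        ‖(A v)⁻¹‖ * ‖fderiv ℝ A v ξ‖ * ‖fderiv ℝ (fun w => (A w)⁻¹) v ζ‖ :=
        (norm_add_le _ _).trans (add_le_add ((norm_add_le _ _).trans (add_le_add (n3 _ _ _)
          (n3 _ _ _))) (n3 _ _ _))
    _ ≤ (‖(A v)⁻¹‖ ^ 2 * ‖fderiv ℝ A v‖ * ‖ζ‖) * (‖fderiv ℝ A v‖ * ‖ξ‖) * ‖(A v)⁻¹‖ +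
        ‖(A v)⁻¹‖ * (‖fderiv ℝ (fderiv ℝ A) v‖ * ‖ζ‖ * ‖ξ‖) * ‖(A v)⁻¹‖ +
        ‖(A v)⁻¹‖ * (‖fderiv ℝ A v‖ * ‖ξ‖) * (‖(A v)⁻¹‖ ^ 2 * ‖fderiv ℝ A v‖ * ‖ζ‖) := by
        have h2 := hb' ζ
        gcongr
    _ = _ := by ring

/-- The inverse of a tame metric of bounded inverse is tame. -/
theorem tame_inv {N : ℕ} {C : ℝ} (hC : 1 ≤ C) {A : Vec n → Mat m} (hA : Tame N C A)
    (hp : ∀ v ∈ Cone n, IsUnit (A v))
    (hi : ∀ g : SUGroup n, ‖(A (act g (base n)))⁻¹‖ ≤ C * ch g ^ (2 * N)) :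
    Tame (5 * N) (3 * C ^ 5) fun v => (A v)⁻¹ := by
  have hc2 : ∀ v ∈ Cone n, ContDiffAt ℝ 2 A v := fun v hv =>
    (hA.cd v hv).contDiffAt ((isOpen_cone n).mem_nhds hv)
  have hC0 : 0 ≤ C := zero_le_one.trans hC
  have key : ∀ g : SUGroup n, ∀ K : ℝ, K = C * ch g ^ (2 * N) → 1 ≤ K ∧
      K ^ 5 = C ^ 5 * ch g ^ (2 * (5 * N)) := by
    intro g K hK
    refine ⟨?_, ?_⟩
    · rw [hK]
      exact one_le_mul_of_one_le_of_one_le hC (one_le_pow₀ (one_le_ch g))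
    · rw [hK]; ring
  refine ⟨fun c hc v hv => by rw [hA.hom c hc v hv], fun v hv =>
    (contDiffAt_matInv (hc2 v hv) (hp v hv)).contDiffWithinAt, fun g => ?_, fun g => ?_,
    fun g => ?_⟩
  · obtain ⟨K, hK⟩ : ∃ K, K = C * ch g ^ (2 * N) := ⟨_, rfl⟩
    obtain ⟨h1, h2⟩ := key g K hK
    have h3 := hi g
    rw [← hK] at h3
    rw [mul_assoc, ← h2]
    have h4 : K ≤ K ^ 5 := le_self_pow₀ h1 (by norm_num)
    linarith
  · obtain ⟨K, hK⟩ : ∃ K, K = C * ch g ^ (2 * N) := ⟨_, rfl⟩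
    obtain ⟨h1, h2⟩ := key g K hK
    have h3 := hi g
    have h4 := hA.b1 g
    rw [← hK] at h3 h4
    rw [mul_assoc, ← h2]
    refine (norm_fderiv_inv_le ((hc2 _ (orbit_mem g)).differentiableAt (by norm_num))
      (hp _ (orbit_mem g))).trans ?_
    have h5 : K ^ 3 ≤ K ^ 5 := pow_le_pow_right₀ h1 (by norm_num)
    calc _ ≤ K ^ 2 * K := by gcongr
      _ = K ^ 3 := by ring
      _ ≤ _ := by linarith [pow_nonneg (zero_le_one.trans h1) 5]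
  · obtain ⟨K, hK⟩ : ∃ K, K = C * ch g ^ (2 * N) := ⟨_, rfl⟩
    obtain ⟨h1, h2⟩ := key g K hK
    have h3 := hi g
    have h4 := hA.b1 g
    have h6 := hA.b2 g
    rw [← hK] at h3 h4 h6
    rw [mul_assoc, ← h2]
    refine (norm_fderiv_two_inv_le (hc2 _ (orbit_mem g)) (hp _ (orbit_mem g))).trans ?_
    have h5 : K ^ 3 ≤ K ^ 5 := pow_le_pow_right₀ h1 (by norm_num)
    calc _ ≤ 2 * K ^ 3 * K ^ 2 + K ^ 2 * K := by gcongr
      _ = 2 * K ^ 5 + K ^ 3 := by ring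
      _ ≤ _ := by linarith

end SubA

end Pool.Agent.Lib.MP_5d4057_al.HM
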