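import Pool.Agent.Lib.MP_5d4057_al.HM.SubA

/-! The inequality `A P_s(A⁻¹) A ≤ P_s A` for left averages. -/

namespace Pool.Agent.Lib.MP_5d4057_al.HM

open Matrix MeasureTheory Filter Topology Pool.Agent.Lib.MP_5d4057_al Pool.Agent.Lib.MP_5d4057_al.Hyb

open scoped ComplexOrder MatrixOrder Matrix.Norms.L2Operator

namespace SubA

open Lv

variable {n m : ℕ}

theorem continuousOn_inv_of {A : Vec n → Mat m} (hA : ContinuousOn A (Cone n))
    (hp : ∀ v ∈ Cone n, (A v).PosDef) : ContinuousOn (fun v => (A v)⁻¹) (Cone n) := by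
  intro v hv
  have h1 : ContinuousAt (fun x : Mat m => x⁻¹) (A v) := by
    simp only [Matrix.nonsing_inv_eq_ringInverse]
    exact NormedRing.inverse_continuousAt (hp v hv).isUnit.unit
  exact h1.comp_continuousWithinAt (hA v hv)

theorem homog_inv_of {A : Vec n → Mat m} (hA : Homog A) : Homog fun v => (A v)⁻¹ := by
  intro c hc v hv
  show (A (c • v))⁻¹ = (A v)⁻¹
  rw [hA c hc v hv]

theorem adm_nonneg_of {F : Type} [NormedAddCommGroup F] [NormedSpace ℝ F] {N : ℕ} {C : ℝ}
    {f : Vec n → F} (hf : Adm N C f) : 0 ≤ C := by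
  have h := hf.bound 1
  rw [ch_one, one_pow, mul_one] at h
  exact (norm_nonneg _).trans h

/-- Growth of the inverse of a left average: `(∫ Φ)² (lav Φ F)⁻¹ ≤ lav Φ F⁻¹`. -/
theorem norm_inv_lav_le {Φ : Mat (n + 1) → ℝ} (hΦ : Test n Φ)
    (hΦ1 : 0 < ∫ a : SUGroup n, Φ a.toMatrix ∂(mu n)) {N : ℕ} {C : ℝ} {F : Vec n → Mat m}
    (hA : Adm N C F) (hA' : Adm N C fun v => (F v)⁻¹)
    (hp : ∀ v ∈ Cone n, (F v).PosDef) {v : Vec n} (hv : v ∈ Cone n) :
    ‖(lav Φ F v)⁻¹‖ ≤ ((∫ a : SUGroup n, Φ a.toMatrix ∂(mu n)) ^ 2)⁻¹ *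
      ‖lav Φ (fun w => (F w)⁻¹) v‖ := by
  obtain ⟨c, hc⟩ : ∃ c : ℝ, c = ∫ a : SUGroup n, Φ a.toMatrix ∂(mu n) := ⟨_, rfl⟩
  rw [← hc] at hΦ1 ⊢
  have hpd := lav_posDef hΦ (hc ▸ hΦ1) hA hp hv
  have h1 : Adm N (max C 1) fun _ : Vec n => (1 : Mat m) := by
    refine ⟨aestronglyMeasurable_const, fun y => ?_⟩
    have h2 : ‖(1 : Mat m)‖ ≤ 1 := by
      rcases Nat.eq_zero_or_pos m with h3 | h3
      · subst h3
        have : (1 : Mat 0) = 0 := Subsingleton.elim _ _
        rw [this, norm_zero]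
        exact zero_le_one
      · have : Nonempty (Fin m) := ⟨⟨0, h3⟩⟩
        exact norm_one.le
    have h3 : 1 ≤ ch y ^ (2 * N) := one_le_pow₀ (one_le_ch y)
    exact h2.trans (one_le_mul_of_one_le_of_one_le (le_max_right _ _) h3)
  have h2 := lav_joint hΦ (hc ▸ hΦ1) h1 (hA.mono le_rfl (le_max_left C 1))
    (hA'.mono le_rfl (le_max_left C 1)) (fun _ _ => isHermitian_one) hp hv
  simp only [one_mul, mul_one] at h2
  have h3 : lav Φ (fun _ : Vec n => (1 : Mat m)) v = c • (1 : Mat m) := by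
    rw [lav_eq (fun _ _ _ _ => rfl) hv, integral_smul_const, hc]
  rw [h3, smul_mul_assoc, one_mul, smul_mul_assoc, mul_smul_comm, mul_one, smul_smul] at h2
  have h4 : 0 ≤ (c * c) • (lav Φ F v)⁻¹ := by
    rw [Matrix.le_iff, sub_zero]
    exact hpd.inv.posSemidef.smul (mul_self_nonneg c)
  have h5 := CStarAlgebra.norm_le_norm_of_nonneg_of_le h4 h2
  rw [norm_smul, Real.norm_of_nonneg (mul_self_nonneg c)] at h5
  rw [inv_mul_eq_div, le_div_iff₀ (by positivity), mul_comm, pow_two]
  exact h5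

/-- The inequality `M P_s(M⁻¹) M ≤ P_s M` is inherited by left averages. -/
theorem lav_sub_le {Φ : Mat (n + 1) → ℝ} (hΦ : Test n Φ)
    (hΦ1 : 0 < ∫ a : SUGroup n, Φ a.toMatrix ∂(mu n)) {N s : ℕ} {C : ℝ} {M : Vec n → Mat m}
    (hM : Homog M) (hc : ContinuousOn M (Cone n)) (hp : ∀ v ∈ Cone n, (M v).PosDef)
    (hb : ∀ g, ‖M (act g (base n))‖ ≤ C * ch g ^ (2 * N))
    (hbi : ∀ g, ‖(M (act g (base n)))⁻¹‖ ≤ C * ch g ^ (2 * N)) {N' : ℕ} {C' : ℝ}
    (hAi : Adm N' C' fun w => (lav Φ M w)⁻¹) (hs : n + N < s) (hs' : n + N' < s)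
    (hPl : ∀ v ∈ Cone n, P s (lav Φ M) v = lav Φ (P s M) v)
    (h : ∀ v ∈ Cone n, M v * P s (fun w => (M w)⁻¹) v * M v ≤ P s M v) {v : Vec n}
    (hv : v ∈ Cone n) :
    lav Φ M v * P s (fun w => (lav Φ M w)⁻¹) v * lav Φ M v ≤ P s (lav Φ M) v := by
  have hi := continuousOn_inv_of hc hp
  have hA : Adm N C M := adm_of_continuousOn hc hb
  have hA' : Adm N C fun w => (M w)⁻¹ := adm_of_continuousOn hi hbi
  have hC : 0 ≤ C := adm_nonneg_of hA
  obtain ⟨σ, hσ⟩ : ∃ σ : SUGroup n, σ = sec n v := ⟨_, rfl⟩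
  obtain ⟨w, hw⟩ : ∃ w : SUGroup n → ℝ, w = fun b => Φ ((b * σ⁻¹).toMatrix) := ⟨_, rfl⟩
  have hw0 : ∀ b, 0 ≤ w b := fun b => by rw [hw]; exact hΦ.nonneg _
  have hwc : Continuous w := by
    rw [hw]
    exact hΦ.smooth.continuous.comp ((continuous_toMatrix n).comp (continuous_mul_const _))
  have hws : HasCompactSupport w := by
    have h1 : HasCompactSupport fun a : SUGroup n => Φ a.toMatrix :=
      hΦ.supp.comp_isClosedEmbedding (isClosedEmbedding_toMatrix n)
    rw [hw]
    exact h1.comp_homeomorph (Homeomorph.mulRight σ⁻¹)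
  have hMc : Continuous fun b : SUGroup n => M (act b (base n)) :=
    hc.comp_continuous continuous_orbit orbit_mem
  have hMi : Continuous fun b : SUGroup n => (M (act b (base n)))⁻¹ :=
    hi.comp_continuous continuous_orbit orbit_mem
  -- left averages at translates
  have hlav : ∀ x : SUGroup n, lav Φ M (act (σ * x) (base n)) =
      ∫ b, w b • M (act (b * x) (base n)) ∂(mu n) := by
    intro x
    have h1 := int_sec (Φ := Φ) hM (v := act (σ * x) (base n)) (c := 1) one_ne_zero
      (σ := σ * x) (by rw [one_smul])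
    rw [lav_eq hM (orbit_mem _), ← h1, ← integral_mul_right_eq_self _ x]
    refine integral_congr_ae (Eventually.of_forall fun b => ?_)
    show Φ ((b * x * (σ * x)⁻¹).toMatrix) • M (act (b * x) (base n)) = _
    rw [hw, _root_.mul_inv_rev]
    congr 3
    group
  have hlv : lav Φ M v = ∫ b, w b • M (act b (base n)) ∂(mu n) := by
    rw [lav, hw, hσ]
  have hconj : ∀ (X : Mat m) {f : SUGroup n → Mat m}, Integrable f (mu n) →
      ∫ x, X * f x * X ∂(mu n) = X * (∫ x, f x ∂(mu n)) * X := fun X f hf =>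
    (ContinuousLinearMap.mulLeftRight ℝ (Mat m) X X).integral_comp_comm hf
  have hherm : ∀ b : SUGroup n, (M (act b (base n)))ᴴ = M (act b (base n)) := fun b =>
    (hp _ (orbit_mem b)).isHermitian.eq
  -- the function of two variables
  obtain ⟨G, hG⟩ : ∃ G : SUGroup n → SUGroup n → Mat m, G = fun b x => w b • (kap s x •
      (M (act b (base n)) * (M (act (b * x) (base n)))⁻¹ * M (act b (base n)))) := ⟨_, rfl⟩
  have hWi : Integrable (fun b : SUGroup n => w b * ((C * ch b ^ (2 * N)) *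
      (C * (2 * ch b) ^ (2 * N)) * (C * ch b ^ (2 * N)))) (mu n) := by
    have h1 : Continuous fun b : SUGroup n => w b * ((C * ch b ^ (2 * N)) *
        (C * (2 * ch b) ^ (2 * N)) * (C * ch b ^ (2 * N))) :=
      hwc.mul (((continuous_const.mul (continuous_ch.pow _)).mul
        (continuous_const.mul ((continuous_const.mul continuous_ch).pow _))).mul
        (continuous_const.mul (continuous_ch.pow _)))
    exact h1.integrable_of_hasCompactSupport hws.mul_right
  have hGc : Continuous (Function.uncurry G) := by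
    rw [hG]
    exact (hwc.comp continuous_fst).smul (((continuous_kap s).comp continuous_snd).smul
      (((hMc.comp continuous_fst).mul (hMi.comp (continuous_fst.mul continuous_snd))).mul
        (hMc.comp continuous_fst)))
  have hint : Integrable (Function.uncurry G) ((mu n).prod (mu n)) := by
    refine (hWi.mul_prod (integrable_kap_pow hs)).mono' hGc.aestronglyMeasurable
      (Eventually.of_forall fun p => ?_)
    rw [hG]
    show ‖w p.1 • (kap s p.2 • (M (act p.1 (base n)) * (M (act (p.1 * p.2) (base n)))⁻¹ *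
      M (act p.1 (base n))))‖ ≤ _
    rw [norm_smul, norm_smul, Real.norm_of_nonneg (hw0 _), Real.norm_of_nonneg (kap_nonneg s _)]
    have h1 : ‖(M (act (p.1 * p.2) (base n)))⁻¹‖ ≤ C * ((2 * ch p.1) ^ (2 * N) *
        ch p.2 ^ (2 * N)) := by
      refine (hbi _).trans (mul_le_mul_of_nonneg_left ?_ hC)
      rw [← mul_pow]
      exact pow_le_pow_left₀ (ch_pos _).le (ch_mul_le' _ _) _
    have h2 := hb p.1
    have h3 : ‖M (act p.1 (base n)) * (M (act (p.1 * p.2) (base n)))⁻¹ *
        M (act p.1 (base n))‖ ≤ (C * ch p.1 ^ (2 * N)) * (C * ((2 * ch p.1) ^ (2 * N) *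
        ch p.2 ^ (2 * N))) * (C * ch p.1 ^ (2 * N)) :=
      (norm_mul_le _ _).trans (mul_le_mul ((norm_mul_le _ _).trans (mul_le_mul h2 h1
        (norm_nonneg _) ((norm_nonneg _).trans h2))) h2 (norm_nonneg _)
        (mul_nonneg ((norm_nonneg _).trans h2) ((norm_nonneg _).trans h1)))
    calc _ ≤ w p.1 * (kap s p.2 * ((C * ch p.1 ^ (2 * N)) * (C * ((2 * ch p.1) ^ (2 * N) *
        ch p.2 ^ (2 * N))) * (C * ch p.1 ^ (2 * N)))) :=
          mul_le_mul_of_nonneg_left (mul_le_mul_of_nonneg_left h3 (kap_nonneg s _)) (hw0 _)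
      _ = _ := by ring
  -- the inner integral over x
  have hx : ∀ b : SUGroup n, ∫ x, G b x ∂(mu n) = w b • (M (act b (base n)) *
      P s (fun w => (M w)⁻¹) (act b (base n)) * M (act b (base n))) := by
    intro b
    rw [hG, P_orbit, ← hconj _ (Sm.integrable_P_orbit hA' hs b), ← integral_smul]
    refine integral_congr_ae (Eventually.of_forall fun x => ?_)
    simp only [mul_smul_comm, smul_mul_assoc]
  have hA2 : Adm N (((n : ℝ) + 1) ^ N * 4 ^ N * C) (P s M) := by
    refine adm_of_continuousOn (Sm.contDiffOn_P hA hs).continuousOn fun g => ?_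
    exact Sm.norm_P_orbit_le hA hs g
  have hPi : Integrable (fun b : SUGroup n => w b • P s M (act b (base n))) (mu n) := by
    have := hΦ.integrable hA2 hv
    rw [← hσ] at this
    rw [hw]
    exact this
  have h1 : ∫ b, ∫ x, G b x ∂(mu n) ∂(mu n) ≤ P s (lav Φ M) v := by
    rw [hPl v hv, lav, ← hσ]
    refine integral_mono_mat hint.integral_prod_left ?_ (Eventually.of_forall fun b => ?_)
    · rw [hw] at hPi
      exact hPi
    · have h2 := h _ (orbit_mem b)
      rw [hx b, hw]
      rw [Matrix.le_iff] at h2 ⊢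
      rw [← smul_sub]
      exact h2.smul (hΦ.nonneg _)
  -- the inner integral over b
  have hpos : ∀ x : SUGroup n, (lav Φ M (act (σ * x) (base n))).PosDef := fun x =>
    lav_posDef hΦ hΦ1 hA hp (orbit_mem _)
  have hb2 : ∀ x : SUGroup n, kap s x • (lav Φ M v * (lav Φ M (act (σ * x) (base n)))⁻¹ *
      lav Φ M v) ≤ ∫ b, G b x ∂(mu n) := by
    intro x
    have i1 : Integrable (fun b : SUGroup n => w b • M (act b (base n))) (mu n) :=
      (hwc.smul hMc).integrable_of_hasCompactSupport hws.smul_right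
    have c2 : Continuous fun b : SUGroup n => M (act (b * x) (base n)) :=
      hMc.comp (continuous_mul_const x)
    have c3 : Continuous fun b : SUGroup n => (M (act (b * x) (base n)))⁻¹ :=
      hMi.comp (continuous_mul_const x)
    have i2 : Integrable (fun b : SUGroup n => w b • M (act (b * x) (base n))) (mu n) :=
      (hwc.smul c2).integrable_of_hasCompactSupport hws.smul_right
    have i3 : Integrable (fun b : SUGroup n => w b • ((M (act b (base n)))ᴴ *
        (M (act (b * x) (base n)))⁻¹ * M (act b (base n)))) (mu n) := by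
      simp only [hherm]
      exact (hwc.smul ((hMc.mul c3).mul hMc)).integrable_of_hasCompactSupport hws.smul_right
    have h2 := integral_joint (ν := mu n) (X := fun b : SUGroup n => M (act b (base n)))
      (Y := fun b : SUGroup n => M (act (b * x) (base n))) (w := w) hw0
      (fun b => hp _ (orbit_mem _)) i1 i2 i3 (by rw [← hlav]; exact hpos x)
    rw [← hlav, ← hlv] at h2
    have h3 : (lav Φ M v)ᴴ = lav Φ M v :=
      (lav_posDef hΦ hΦ1 hA hp hv).isHermitian.eq
    rw [h3] at h2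
    have h4 : ∫ b, G b x ∂(mu n) = kap s x • ∫ b, w b • ((M (act b (base n)))ᴴ *
        (M (act (b * x) (base n)))⁻¹ * M (act b (base n))) ∂(mu n) := by
      rw [hG, ← integral_smul]
      refine integral_congr_ae (Eventually.of_forall fun b => ?_)
      simp only [hherm]
      rw [smul_comm]
    rw [h4]
    rw [Matrix.le_iff] at h2 ⊢
    rw [← smul_sub]
    exact h2.smul (kap_nonneg s x)
  have hiA : Integrable (fun x : SUGroup n => kap s x •
      (lav Φ M (act (σ * x) (base n)))⁻¹) (mu n) := Sm.integrable_P_orbit hAi hs' σ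
  have hPv : P s (fun w => (lav Φ M w)⁻¹) v = ∫ x, kap s x •
      (lav Φ M (act (σ * x) (base n)))⁻¹ ∂(mu n) := by
    obtain ⟨c, hc0, hcv⟩ := sec_spec hv
    rw [← hσ] at hcv
    rw [hcv, P_homog s _ c hc0 _ (orbit_mem σ), P_orbit]
  have h2 : lav Φ M v * P s (fun w => (lav Φ M w)⁻¹) v * lav Φ M v ≤
      ∫ x, ∫ b, G b x ∂(mu n) ∂(mu n) := by
    rw [hPv, ← hconj _ hiA]
    refine integral_mono_mat ?_ hint.integral_prod_right (Eventually.of_forall fun x => ?_)
    · exact (ContinuousLinearMap.mulLeftRight ℝ (Mat m) (lav Φ M v) (lav Φ M v)).integrable_comp hiA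
    · refine le_trans (le_of_eq ?_) (hb2 x)
      simp only [mul_smul_comm, smul_mul_assoc]
  rw [← integral_integral_swap hint] at h2
  exact h2.trans h1

end SubA

end Pool.Agent.Lib.MP_5d4057_al.HM
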