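import Pool.Agent.Lib.MP_5d4057_al.HM.KerBase
import Pool.Agent.Lib.MP_5d4057_al.HM.Haar

namespace Pool.Agent.Lib.MP_5d4057_al.HM.Gr

open Matrix MeasureTheory Filter Topology Pool.Agent.Lib.MP_5d4057_al Pool.Agent.Lib.MP_5d4057_al.Hyb

open scoped ComplexOrder MatrixOrder Matrix.Norms.L2Operator

variable {n m : ℕ} {E : Type} [NormedAddCommGroup E] [NormedSpace ℝ E]

/-- Polarisation: the norm of a symmetric bilinear map is at most twice the norm of the quadratic
map. -/
theorem opNorm_le_of_diag {V : Type} [NormedAddCommGroup V] [NormedSpace ℝ V]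
    (B : V →L[ℝ] V →L[ℝ] E) (hs : ∀ x y, B x y = B y x) {M : ℝ} (hM : 0 ≤ M)
    (h : ∀ x, ‖B x x‖ ≤ M * ‖x‖ ^ 2) : ‖B‖ ≤ 2 * M := by
  have key : ∀ x y : V, ‖x‖ ≤ 1 → ‖y‖ ≤ 1 → ‖B x y‖ ≤ 2 * M := by
    intro x y hx hy
    have e : (4 : ℝ) • B x y = B (x + y) (x + y) - B (x - y) (x - y) := by
      simp only [map_add, map_sub, _root_.add_apply, _root_.sub_apply,
        hs y x]
      module
    have h1 : ‖(4 : ℝ) • B x y‖ ≤ 8 * M := by
      rw [e]
      have h2 := h (x + y)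
      have h3 := h (x - y)
      have h4 : ‖x + y‖ ^ 2 ≤ 4 := by
        have := norm_add_le x y
        have h0 := norm_nonneg (x + y)
        nlinarith
      have h5 : ‖x - y‖ ^ 2 ≤ 4 := by
        have := norm_sub_le x y
        have h0 := norm_nonneg (x - y)
        nlinarith
      calc _ ≤ ‖B (x + y) (x + y)‖ + ‖B (x - y) (x - y)‖ := norm_sub_le _ _
        _ ≤ M * ‖x + y‖ ^ 2 + M * ‖x - y‖ ^ 2 := add_le_add h2 h3
        _ ≤ M * 4 + M * 4 := by gcongr
        _ = 8 * M := by ring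
    rw [norm_smul, Real.norm_of_nonneg (by norm_num : (0 : ℝ) ≤ 4)] at h1
    linarith
  refine ContinuousLinearMap.opNorm_le_bound _ (by positivity) fun x => ?_
  refine ContinuousLinearMap.opNorm_le_bound _ (by positivity) fun y => ?_
  rcases eq_or_ne x 0 with hx | hx
  · subst hx
    simp
  rcases eq_or_ne y 0 with hy | hy
  · subst hy
    simp
  have hx' : 0 < ‖x‖ := norm_pos_iff.mpr hx
  have hy' : 0 < ‖y‖ := norm_pos_iff.mpr hy
  have h1 := key (‖x‖⁻¹ • x) (‖y‖⁻¹ • y) (by rw [norm_smul, norm_inv, norm_norm,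
    inv_mul_cancel₀ hx'.ne']) (by rw [norm_smul, norm_inv, norm_norm, inv_mul_cancel₀ hy'.ne'])
  have e : B x y = (‖x‖ * ‖y‖) • B (‖x‖⁻¹ • x) (‖y‖⁻¹ • y) := by
    simp only [map_smul, _root_.smul_apply, smul_smul]
    have : ‖x‖ * ‖y‖ * (‖y‖⁻¹ * ‖x‖⁻¹) = 1 := by field_simp
    rw [this, one_smul]
  rw [e, norm_smul, Real.norm_of_nonneg (by positivity)]
  nlinarith [mul_nonneg hx'.le hy'.le]

/-- The linear map `u ↦ c • g u`. -/
noncomputable def tra (g : SUGroup n) (c : ℂ) (hc : c ≠ 0) : Vec n ≃L[ℝ] Vec n :=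
  LinearEquiv.toContinuousLinearEquiv
    { toFun := fun u => c • act g u
      invFun := fun u => c⁻¹ • act g⁻¹ u
      map_add' := fun u v => by rw [act_add, smul_add]
      map_smul' := fun r u => by
        have h1 : r • u = (r : ℂ) • u := (Complex.coe_smul r u).symm
        rw [h1, act_smul, smul_comm, RingHom.id_apply]
        exact Complex.coe_smul r _
      left_inv := fun u => by
        show c⁻¹ • act g⁻¹ (c • act g u) = u
        rw [act_smul, ← act_mul, inv_mul_cancel, act_one, smul_smul, inv_mul_cancel₀ hc, one_smul]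
      right_inv := fun u => by
        show c • act g (c⁻¹ • act g⁻¹ u) = u
        rw [act_smul, ← act_mul, mul_inv_cancel, act_one, smul_smul, mul_inv_cancel₀ hc, one_smul] }

theorem tra_apply (g : SUGroup n) (c : ℂ) (hc : c ≠ 0) (u : Vec n) :
    tra g c hc u = c • act g u := rfl

theorem tra_symm_apply (g : SUGroup n) (c : ℂ) (hc : c ≠ 0) (u : Vec n) :
    (tra g c hc).symm u = c⁻¹ • act g⁻¹ u := rfl

theorem norm_act_le (g : SUGroup n) (u : Vec n) : ‖act g u‖ ≤ 2 * (n + 1) * ch g * ‖u‖ := by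
  have h0 := one_le_ch g
  rw [pi_norm_le_iff_of_nonneg (by positivity)]
  intro i
  rw [act, mulVec, dotProduct]
  refine (norm_sum_le _ _).trans ?_
  have h1 : ∀ j ∈ (Finset.univ : Finset (Fin (n + 1))), ‖g.toMatrix i j * u j‖ ≤
      2 * ch g * ‖u‖ := by
    intro j _
    rw [norm_mul]
    exact mul_le_mul (norm_entry_le g i j) (norm_le_pi_norm u j) (norm_nonneg _) (by positivity)
  refine (Finset.sum_le_card_nsmul _ _ _ h1).trans (le_of_eq ?_)
  rw [Finset.card_univ, Fintype.card_fin, nsmul_eq_mul]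
  push_cast
  ring

theorem norm_tra_symm_le (g : SUGroup n) (c : ℂ) (hc : c ≠ 0) (u : Vec n) :
    ‖(tra g c hc).symm u‖ ≤ ‖c‖⁻¹ * (2 * (n + 1) * ch g) * ‖u‖ := by
  rw [tra_symm_apply, norm_smul, norm_inv, mul_assoc]
  refine mul_le_mul_of_nonneg_left ?_ (by positivity)
  have := norm_act_le g⁻¹ u
  rwa [ch_inv] at this

/-- Equivariance of the averaging operator. -/
theorem P_tra (s : ℕ) (f : Vec n → E) (g : SUGroup n) {c : ℂ} (hc : c ≠ 0) (u : Vec n) :
    P s f (c • act g u) = P s (fun v => f (act g v)) u := by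
  rw [P, P, ← integral_mul_left_eq_self _ g]
  refine integral_congr_ae (Filter.Eventually.of_forall fun y => ?_)
  show (ker s (c • act g u) (act (g * y) (base n)) / cs n s) • f (act (g * y) (base n)) =
    (ker s u (act y (base n)) / cs n s) • f (act g (act y (base n)))
  rw [ker_smul_left s hc, act_mul, ker_act]

theorem fderiv_comp_tra {f h : Vec n → E} (g : SUGroup n) {c : ℂ} (hc : c ≠ 0)
    (hfh : ∀ u, f (c • act g u) = h u) (u ξ : Vec n) :
    fderiv ℝ f (c • act g u) ξ = fderiv ℝ h u ((tra g c hc).symm ξ) := by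
  have e : h = f ∘ (tra g c hc) := by
    funext u
    rw [Function.comp_apply, tra_apply, hfh]
  rw [e, ContinuousLinearEquiv.comp_right_fderiv, tra_apply]
  show _ = fderiv ℝ f (c • act g u) (tra g c hc ((tra g c hc).symm ξ))
  rw [ContinuousLinearEquiv.apply_symm_apply]

theorem fderiv_two_comp_tra {f h : Vec n → E} (g : SUGroup n) {c : ℂ} (hc : c ≠ 0)
    (hfh : ∀ u, f (c • act g u) = h u) (u ξ η : Vec n) :
    fderiv ℝ (fderiv ℝ f) (c • act g u) ξ η =
      fderiv ℝ (fderiv ℝ h) u ((tra g c hc).symm ξ) ((tra g c hc).symm η) := by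
  set T := tra g c hc with hT
  -- the map `L ↦ L ∘ T` is a linear isomorphism
  let Φ : (Vec n →L[ℝ] E) ≃L[ℝ] (Vec n →L[ℝ] E) :=
    ContinuousLinearEquiv.arrowCongr T (ContinuousLinearEquiv.refl ℝ E)
  have e1 : ∀ u, fderiv ℝ f (c • act g u) = Φ (fderiv ℝ h u) := by
    intro u
    ext ξ
    rw [fderiv_comp_tra g hc hfh]
    rfl
  have e2 : (fderiv ℝ f) ∘ T = Φ ∘ (fderiv ℝ h) := by
    funext u
    rw [Function.comp_apply, Function.comp_apply, hT, tra_apply, e1]
  have e3 : fderiv ℝ ((fderiv ℝ f) ∘ T) u = fderiv ℝ (Φ ∘ (fderiv ℝ h)) u := by rw [e2]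
  rw [ContinuousLinearEquiv.comp_right_fderiv, ContinuousLinearEquiv.comp_fderiv] at e3
  have e4 := congrArg (fun L : Vec n →L[ℝ] (Vec n →L[ℝ] E) => L (T.symm ξ) η) e3
  simp only [ContinuousLinearMap.comp_apply] at e4
  have e5 : fderiv ℝ (fderiv ℝ f) (T u) (T (T.symm ξ)) η =
      fderiv ℝ (fderiv ℝ h) u (T.symm ξ) (T.symm η) := e4
  rw [ContinuousLinearEquiv.apply_symm_apply, hT, tra_apply] at e5
  exact e5

end Pool.Agent.Lib.MP_5d4057_al.HM.Gr
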