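import Pool.Agent.Lib.MP_5d4057_al.HM.Cut
import Pool.Agent.Lib.MP_5d4057_al.HM.Haar

/-! Finite index subgroups of cocompact lattices. -/

namespace Pool.Agent.Lib.MP_5d4057_al.HM

open Matrix MeasureTheory Filter Topology Pool.Agent.Lib.MP_5d4057_al Pool.Agent.Lib.MP_5d4057_al.Hyb

open scoped ComplexOrder MatrixOrder Matrix.Norms.L2Operator Pointwise

variable {n : ℕ}

/-- Subgroups of finite index of cocompact groups are cocompact. -/
theorem Coc.of_relIndex {Γ Γ' : Subgroup (SUGroup n)} (hΓ : Coc Γ) (hle : Γ' ≤ Γ)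
    (hfin : Γ'.relIndex Γ ≠ 0) : Coc Γ' := by
  obtain ⟨F, hF, hcov⟩ := hΓ.cpt
  have hd := hΓ.disc
  refine ⟨?_, ?_⟩
  · have h1 : Topology.IsInducing (Subgroup.inclusion hle) := by
      refine ⟨?_⟩
      rw [instTopologicalSpaceSubtype, instTopologicalSpaceSubtype, induced_compose]
      rfl
    have h2 : Topology.IsEmbedding (Subgroup.inclusion hle) :=
      ⟨h1, Subgroup.inclusion_injective hle⟩
    exact h2.discreteTopology
  · have hfi : (Γ'.subgroupOf Γ).FiniteIndex := ⟨hfin⟩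
    have hfq : Finite (Γ ⧸ Γ'.subgroupOf Γ) := Subgroup.finite_quotient_of_finiteIndex
    refine ⟨⋃ c : Γ ⧸ Γ'.subgroupOf Γ, (fun x : SUGroup n => ((c.out : Γ) : SUGroup n)⁻¹ * x) '' F,
      ?_, fun g => ?_⟩
    · exact isCompact_iUnion fun c => hF.image (continuous_const_mul _)
    · obtain ⟨γ, hγ, hγF⟩ := hcov g
      obtain ⟨c, hc⟩ : ∃ c : Γ ⧸ Γ'.subgroupOf Γ, c = ((⟨γ, hγ⟩ : Γ) : Γ ⧸ Γ'.subgroupOf Γ) := ⟨_, rfl⟩
      have h1 : (c.out : Γ)⁻¹ * ⟨γ, hγ⟩ ∈ Γ'.subgroupOf Γ := by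
        rw [← QuotientGroup.eq, QuotientGroup.out_eq', hc]
      refine ⟨((c.out : Γ) : SUGroup n)⁻¹ * γ, h1, ?_⟩
      refine Set.mem_iUnion.2 ⟨c, γ * g, hγF, ?_⟩
      show ((c.out : Γ) : SUGroup n)⁻¹ * (γ * g) = ((c.out : Γ) : SUGroup n)⁻¹ * γ * g
      rw [mul_assoc]

/-- Discrete cocompact subgroups are lattices. -/
theorem Coc.isLattice {Γ : Subgroup (SUGroup n)} (hΓ : Coc Γ) : IsLattice Γ := by
  obtain ⟨χ, hχ⟩ := exists_cut hΓ
  refine ⟨hΓ.disc, ?_⟩
  let _ : MeasurableSpace (SUGroup n ⧸ Γ) := borel _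
  have : BorelSpace (SUGroup n ⧸ Γ) := ⟨rfl⟩
  obtain ⟨p, hp⟩ : ∃ p : SUGroup n → SUGroup n ⧸ Γ, p = fun g => ((g⁻¹ : SUGroup n) : SUGroup n ⧸ Γ) :=
    ⟨_, rfl⟩
  have hpc : Continuous p := by
    rw [hp]
    exact QuotientGroup.continuous_mk.comp continuous_inv
  have hpm : Measurable p := hpc.measurable
  obtain ⟨ν, hν⟩ : ∃ ν : Measure (SUGroup n), ν = (mu n).withDensity fun g => ENNReal.ofReal (χ g) :=
    ⟨_, rfl⟩
  have hfinite : IsFiniteMeasure ν := by
    rw [hν]
    exact isFiniteMeasure_withDensity_ofReal hχ.integrable.2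
  have hval : ∀ A : Set (SUGroup n ⧸ Γ), MeasurableSet A →
      (ν (p ⁻¹' A)).toReal = II χ fun g => (p ⁻¹' A).indicator (fun _ => (1 : ℝ)) g := by
    intro A hA
    have hm := hpm hA
    have h1 : ∫ g, (p ⁻¹' A).indicator (fun _ => (1 : ℝ)) g ∂ν =
        ∫ g, χ g • (p ⁻¹' A).indicator (fun _ => (1 : ℝ)) g ∂(mu n) := by
      rw [hν]
      have h2 := integral_withDensity_eq_integral_smul (μ := mu n) (f := fun g => (χ g).toNNReal)
        (hχ.cont.measurable.real_toNNReal) ((p ⁻¹' A).indicator (fun _ => (1 : ℝ)))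
      refine (show _ = _ from h2).trans ?_
      refine integral_congr_ae (Eventually.of_forall fun g => ?_)
      show ((χ g).toNNReal : ℝ) • (p ⁻¹' A).indicator (fun _ => (1 : ℝ)) g =
        χ g • (p ⁻¹' A).indicator (fun _ => (1 : ℝ)) g
      rw [Real.coe_toNNReal _ (hχ.nonneg g)]
    rw [integral_indicator hm] at h1
    simp only [integral_const, smul_eq_mul, mul_one, Measure.real, Measure.restrict_apply_univ] at h1
    rw [h1]
    rfl
  refine ⟨ν.map p, ?_, ?_, ?_⟩
  · intro h0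
    have h1 : (ν.map p) Set.univ = 0 := by rw [h0]; rfl
    rw [Measure.map_apply hpm MeasurableSet.univ, Set.preimage_univ] at h1
    have h2 := hval Set.univ MeasurableSet.univ
    rw [Set.preimage_univ, h1] at h2
    have h3 : (0 : ℝ) = ∫ g, χ g ∂(mu n) := by
      rw [ENNReal.toReal_zero] at h2
      rw [h2]
      unfold II
      simp
    have h4 : ∀ g, χ g = 0 := by
      intro g
      have h5 := (integral_eq_zero_iff_of_nonneg hχ.nonneg hχ.integrable).1 h3.symm
      have h6 : (fun g => χ g) = fun _ => (0 : ℝ) :=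
        (Continuous.ae_eq_iff_eq (mu n) hχ.cont continuous_const).1 h5
      exact congrFun h6 g
    have h7 := hχ.sum 1
    simp only [h4, tsum_zero] at h7
    exact zero_ne_one h7
  · rw [Measure.map_apply hpm MeasurableSet.univ]
    exact measure_ne_top ν _
  · intro g s hs
    have hgs : MeasurableSet ((fun x : SUGroup n ⧸ Γ => g • x) ⁻¹' s) :=
      (continuous_const_smul g).measurable hs
    rw [Measure.map_apply hpm hgs, Measure.map_apply hpm hs]
    have h1 := hval _ hgs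
    have h2 := hval s hs
    have h3 : II χ (fun x => (p ⁻¹' ((fun x : SUGroup n ⧸ Γ => g • x) ⁻¹' s)).indicator
        (fun _ => (1 : ℝ)) x) = II χ fun x => (p ⁻¹' s).indicator (fun _ => (1 : ℝ)) x := by
      rw [← II_mul_right hΓ hχ (f := fun x => (p ⁻¹' s).indicator (fun _ => (1 : ℝ)) x) ?_ ?_ ?_ g⁻¹]
      · unfold II
        congr 1
        funext x
        congr 1
        have e : p (x * g⁻¹) = g • p x := by
          rw [hp]
          show ((((x * g⁻¹)⁻¹ : SUGroup n)) : SUGroup n ⧸ Γ) = g • ((x⁻¹ : SUGroup n) : SUGroup n ⧸ Γ)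
          rw [_root_.mul_inv_rev, inv_inv]
          rfl
        by_cases hx : g • p x ∈ s
        · show (p ⁻¹' ((fun x : SUGroup n ⧸ Γ => g • x) ⁻¹' s)).indicator (fun _ => (1 : ℝ)) x =
            (p ⁻¹' s).indicator (fun _ => (1 : ℝ)) (x * g⁻¹)
          rw [Set.indicator_of_mem (show x ∈ p ⁻¹' ((fun x : SUGroup n ⧸ Γ => g • x) ⁻¹' s) from hx),
            Set.indicator_of_mem (show x * g⁻¹ ∈ p ⁻¹' s by rw [Set.mem_preimage, e]; exact hx)]
        · show (p ⁻¹' ((fun x : SUGroup n ⧸ Γ => g • x) ⁻¹' s)).indicator (fun _ => (1 : ℝ)) x =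
            (p ⁻¹' s).indicator (fun _ => (1 : ℝ)) (x * g⁻¹)
          rw [Set.indicator_of_notMem
              (show x ∉ p ⁻¹' ((fun x : SUGroup n ⧸ Γ => g • x) ⁻¹' s) from hx),
            Set.indicator_of_notMem
              (show x * g⁻¹ ∉ p ⁻¹' s by rw [Set.mem_preimage, e]; exact hx)]
      · intro γ hγ x
        have e : p (γ * x) = p x := by
          rw [hp]
          show (((γ * x)⁻¹ : SUGroup n) : SUGroup n ⧸ Γ) = ((x⁻¹ : SUGroup n) : SUGroup n ⧸ Γ)
          rw [_root_.mul_inv_rev, QuotientGroup.eq]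
          simpa using hγ
        by_cases hx : p x ∈ s
        · rw [Set.indicator_of_mem (show γ * x ∈ p ⁻¹' s by rw [Set.mem_preimage, e]; exact hx),
            Set.indicator_of_mem (show x ∈ p ⁻¹' s from hx)]
        · rw [Set.indicator_of_notMem (show γ * x ∉ p ⁻¹' s by rw [Set.mem_preimage, e]; exact hx),
            Set.indicator_of_notMem (show x ∉ p ⁻¹' s from hx)]
      · exact (measurable_const.indicator (hpm hs)).aestronglyMeasurable
      · refine ⟨1, fun x => ?_⟩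
        by_cases hx : x ∈ p ⁻¹' s
        · rw [Set.indicator_of_mem hx, norm_one]
        · rw [Set.indicator_of_notMem hx, norm_zero]
          exact zero_le_one
    rw [h3, ← h2] at h1
    exact (ENNReal.toReal_eq_toReal_iff' (measure_ne_top ν _) (measure_ne_top ν _)).1 h1

end Pool.Agent.Lib.MP_5d4057_al.HM
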