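import Pool.Agent.Lib.MP_5d4057_al.HM.AppFour
import Pool.Agent.Lib.MP_5d4057_al.HM.WideB

/-! Pieces commensurable with `SU(H, O_K)`: in a cocompact hybrid they are rational over `K`. -/

set_option autoImplicit false

namespace Pool.Agent.Lib.MP_5d4057_al.HM

open Matrix Filter Topology Pool.Agent.Lib.MP_5d4057_al Pool.Agent.Lib.MP_5d4057_al.Hyb

open scoped ComplexOrder MatrixOrder Matrix.Norms.L2Operator

variable {n m j k : ℕ}

/-- The data of F2, for pieces which are rational up to scalars: `Γ b` is the piece, `Γ' b` its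
rational part. -/
theorem two_data_wide (H : ThmH) (U : ThmU) (Γ Γ' : Fin 2 → Subgroup (SUGroup (k + 1)))
    (hle : ∀ b, Γ' b ≤ Γ b)
    (g : Fin 2 → SUGroup (k + 2)) (hcoc : Coc (hybrid Γ g)) (hcocb : ∀ b, Coc (Γ' b))
    (hspan : Submodule.span ℂ (SUGroup.toMatrix '' (hybrid Γ g : Set (SUGroup (k + 2)))) = ⊤)
    (hspanb : ∀ b, Submodule.span ℂ (SUGroup.toMatrix '' (Γ' b : Set (SUGroup (k + 1)))) = ⊤)
    {K : Subfield ℂ} {D : Matrix (Fin (k + 1)) (Fin (k + 1)) ℂ}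
    {HD : Matrix (Fin (k + 1)) (Fin (k + 1)) K} {μ : Fin 2 → ℂ} {q : Fin 2 → K}
    (hn : IsNF k K D HD μ q) (hrat' : ∀ b, ∀ γ ∈ Γ' b, EntriesIn K (dsum (μ b) D) γ.toMatrix)
    (hsc : ∀ b, ∀ γ ∈ Γ b, ∃ s : ℂ, s ≠ 0 ∧ s ^ (k + 2) ∈ K ∧
      EntriesIn K (dsum (μ b) D) (s⁻¹ • γ.toMatrix))
    {X : Matrix (Fin 2) (Fin 2) ℂ} {ζ : ℂ} (hζ : star ζ * ζ = 1)
    (hg : (g 1).toMatrix = (g 0).toMatrix * (ζ • bsum X 1)) (h01 : X 0 1 ≠ 0)
    (t : ℂ ≃+* ℂ) (ht : ∀ x : K, t (x : ℂ) = x) :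
    ∃ (F : Vec (k + 2) → Mat (k + 3)) (Q : Fin 2 → Mat (k + 3)) (l a : Fin 2 → ℂ) (Y : Mat 2),
      (∀ b, IsUnit (Q b)) ∧
      Homog F ∧
      (∀ b, Pce (k + 1) (Γ' b) (fun v => (Q b)⁻¹ * F (act (g b) v) * ((Q b)⁻¹)ᴴ) (l b) (a b)) ∧
      (∀ b, ∀ γ ∈ Γ b, ∀ s : ℂ, s ≠ 0 → EntriesIn K (dsum (μ b) D) (s⁻¹ • γ.toMatrix) →
        ∀ v ∈ Cone (k + 2),
        (Q b)⁻¹ * F (act (g b) (act (extend (k + 1) γ) v)) * ((Q b)⁻¹)ᴴ =
          dsum 1 ((t s / s) • γ.toMatrix) * ((Q b)⁻¹ * F (act (g b) v) * ((Q b)⁻¹)ᴴ) *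
            (dsum 1 ((t s / s) • γ.toMatrix))ᴴ) ∧
      Q 1 = Q 0 * bsum Y (t ζ • 1) ∧ Y 0 1 ≠ 0 ∧ a 0 = t ζ * star (t ζ) * a 1 := by
  set ρ := rhoT t (hybrid Γ g)
  have hspanρ := span_rhoT t _ hspan
  obtain ⟨F, hF, hFe⟩ := H (k + 2) (k + 3) (by omega) (by omega) (hybrid Γ g) ρ hcoc hspanρ
  -- the matrices
  have hBd : ∀ b, (dsum (μ b) D).det ≠ 0 := by
    intro b
    rw [det_dsum]
    exact mul_ne_zero (hn.μ_ne b) hn.det
  set E : Mat (k + 1) := D.map t * D⁻¹ with hE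
  set ν : Fin 2 → ℂ := fun b => t (μ b) * (μ b)⁻¹ with hν
  have hν0 : ∀ b, ν b ≠ 0 := fun b => mul_ne_zero ((map_ne_zero t).2 (hn.μ_ne b))
    (inv_ne_zero (hn.μ_ne b))
  have hEb : ∀ b, (dsum (μ b) D).map t * (dsum (μ b) D)⁻¹ = dsum (ν b) E := by
    intro b
    rw [tm_dsum, dsum_inv _ _ (hn.μ_ne b) hn.det, dsum_mul]
  have hEu : IsUnit E := (tm_unit t hn.det).mul
    (isUnit_nonsing_inv_iff.2 ((isUnit_iff_isUnit_det D).2 (isUnit_iff_ne_zero.2 hn.det)))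
  have hEd : E.det ≠ 0 := ((isUnit_iff_isUnit_det E).1 hEu).ne_zero
  have hEbu : ∀ b, IsUnit (dsum (ν b) E) := by
    intro b
    rw [isUnit_iff_isUnit_det, det_dsum, isUnit_iff_ne_zero]
    exact mul_ne_zero (hν0 b) hEd
  set Q : Fin 2 → Mat (k + 3) := fun b => (g b).toMatrix.map t * dsum 1 (dsum (ν b) E) with hQ
  have hQu : ∀ b, IsUnit (Q b) := by
    intro b
    refine (tm_gp_unit t (g b)).mul ?_
    rw [isUnit_iff_isUnit_det, det_dsum, one_mul]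
    exact (isUnit_iff_isUnit_det _).1 (hEbu b)
  have hQρ : ∀ b, ∀ γ : Γ b, ∀ s : ℂ, s ≠ 0 →
      EntriesIn K (dsum (μ b) D) (s⁻¹ • (γ : SUGroup (k + 1)).toMatrix) →
      ρ (embHyb Γ g b γ) =
      Q b * dsum 1 ((t s / s) • (γ : SUGroup (k + 1)).toMatrix) * (Q b)⁻¹ := by
    intro b γ s hs hγs
    have h1 := rhoT_emb t Γ g b γ
    have h0 : (γ : SUGroup (k + 1)).toMatrix.map t =
        dsum (ν b) E * ((t s / s) • (γ : SUGroup (k + 1)).toMatrix) * (dsum (ν b) E)⁻¹ := by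
      have h3 : (γ : SUGroup (k + 1)).toMatrix =
          s • (s⁻¹ • (γ : SUGroup (k + 1)).toMatrix) := by
        rw [smul_smul, mul_inv_cancel₀ hs, one_smul]
      have h4 : (s • (s⁻¹ • (γ : SUGroup (k + 1)).toMatrix)).map t =
          dsum (ν b) E * ((t s / s) • (γ : SUGroup (k + 1)).toMatrix) * (dsum (ν b) E)⁻¹ := by
        rw [tm_smul, tm_fix t ht (hBd b) hγs, hEb b]
        simp only [Matrix.mul_smul, Matrix.smul_mul, smul_smul, div_eq_mul_inv]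
      rw [← h4, ← h3]
    rw [rhoT_apply, h0] at h1
    have h2 : ρ (embHyb Γ g b γ) = ((rhoT t (hybrid Γ g)).comp (embHyb Γ g b)) γ := rfl
    have hdu := (isUnit_iff_isUnit_det _).1 (hEbu b)
    rw [h2, h1, hQ]
    show _ = (g b).toMatrix.map t * dsum 1 (dsum (ν b) E) *
      dsum 1 ((t s / s) • (γ : SUGroup (k + 1)).toMatrix) *
      ((g b).toMatrix.map t * dsum 1 (dsum (ν b) E))⁻¹
    rw [Matrix.mul_inv_rev, dsum_inv' one_ne_zero (hEbu b), inv_one]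
    have h3 : dsum (1 : ℂ) (dsum (ν b) E * ((t s / s) • (γ : SUGroup (k + 1)).toMatrix) *
        (dsum (ν b) E)⁻¹) = dsum 1 (dsum (ν b) E) *
          dsum 1 ((t s / s) • (γ : SUGroup (k + 1)).toMatrix) * dsum 1 (dsum (ν b) E)⁻¹ := by
      rw [dsum_mul, dsum_mul, one_mul, one_mul]
    rw [h3]
    simp only [Matrix.mul_assoc]
  -- the scalars have absolute value one
  have hχ : ∀ s : ℂ, s ≠ 0 → s ^ (k + 2) ∈ K → star (t s / s) * (t s / s) = 1 := by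
    intro s hs hsK
    have h1 : (t s / s) ^ (k + 2) = 1 := by
      have h2 := ht ⟨_, hsK⟩
      have h3 : t s ^ (k + 2) = s ^ (k + 2) := by rw [← map_pow]; exact h2
      rw [div_pow, h3, div_self (pow_ne_zero _ hs)]
    have h2 : ‖t s / s‖ = 1 := Complex.norm_eq_one_of_pow_eq_one h1 (by omega)
    rw [mul_comm, Complex.star_def, Complex.mul_conj, Complex.normSq_eq_norm_sq, h2]
    simp
  have hQρ' : ∀ b, ∀ γ : Γ' b, ρ (embHyb Γ g b (Subgroup.inclusion (hle b) γ)) =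
      Q b * dsum 1 (γ : SUGroup (k + 1)).toMatrix * (Q b)⁻¹ := by
    intro b γ
    have h1 := hQρ b (Subgroup.inclusion (hle b) γ) 1 one_ne_zero (by
      rw [inv_one, one_smul]
      exact hrat' b γ γ.2)
    rw [map_one, div_one, one_smul] at h1
    exact h1
  -- the metric on the hyperplanes
  have hsl : ∀ b, ∃ l a : ℂ, 0 < l ∧ 0 < a ∧ ∀ w ∈ Cone (k + 1), F (hyp (g b) w) =
      Q b * dsum l (a • std w) * (Q b)ᴴ := by
    intro b
    refine slice_form U (by omega) (hcocb b) (rhoT (RingEquiv.refl ℂ) (Γ' b))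
      (span_rhoT _ _ (hspanb b)) harm_std (equi_std (Γ' b)) (hQu b) (hF.hyp (g b))
      ((ρ.comp (embHyb Γ g b)).comp (Subgroup.inclusion (hle b))) ?_
      (fun γ w hw => hFe.hyp b (Subgroup.inclusion (hle b) γ) w hw)
    intro γ
    rw [rhoT_refl]
    exact hQρ' b γ
  choose l a hl ha hFb using hsl
  -- the relation of the matrices
  set Y : Mat 2 := t ζ • (!![1, 0; 0, (ν 0)⁻¹] * X.map t * !![1, 0; 0, ν 1]) with hY
  have hQ1 : Q 1 = Q 0 * bsum Y (t ζ • 1) := by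
    show (g 1).toMatrix.map t * dsum 1 (dsum (ν 1) E) =
      (g 0).toMatrix.map t * dsum 1 (dsum (ν 0) E) * bsum Y (t ζ • 1)
    rw [hg, tm_mul, tm_smul, tm_bsum, tm_one, dsum_dsum, dsum_dsum, Matrix.mul_assoc,
      Matrix.mul_assoc]
    congr 1
    rw [Matrix.smul_mul, bsum_mul, bsum_mul, smul_bsum]
    congr 1
    · rw [hY, Matrix.mul_smul, ← Matrix.mul_assoc, ← Matrix.mul_assoc]
      have h4 : (!![1, 0; 0, ν 0] : Mat 2) * !![1, 0; 0, (ν 0)⁻¹] = 1 := by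
        rw [Matrix.mul_fin_two, Matrix.one_fin_two]
        simp [hν0 0]
      rw [h4, Matrix.one_mul]
    · rw [Matrix.one_mul, Matrix.mul_smul, Matrix.mul_one]
  have hζ0 : t ζ ≠ 0 := by
    refine (map_ne_zero t).2 ?_
    intro h
    rw [h, mul_zero] at hζ
    exact zero_ne_one hζ
  have hY01 : Y 0 1 ≠ 0 := by
    have : Y 0 1 = t ζ * (t (X 0 1) * ν 1) := by
      simp only [hY, Matrix.smul_apply, Matrix.mul_apply, Fin.sum_univ_two, Matrix.of_apply,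
        Matrix.cons_val', Matrix.cons_val_zero, Matrix.cons_val_one, Matrix.map_apply, smul_eq_mul,
        one_mul, zero_mul, mul_zero, add_zero, zero_add, Matrix.cons_val_fin_one]
    rw [this]
    exact mul_ne_zero hζ0 (mul_ne_zero ((map_ne_zero t).2 h01) (hν0 1))
  clear_value Q Y
  -- comparison at the base point
  have hb : base (k + 1) ∈ Cone (k + 1) := base_mem _
  have hb0 := hFb 0 _ hb
  have hb1 := hFb 1 _ hb
  have hQ0' : IsUnit (Q 0)ᴴ := (isUnit_conjTranspose _).2 (hQu 0)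
  have hcmp : dsum (l 0) (a 0 • (1 : Mat (k + 2))) = bsum Y (t ζ • 1) *
      dsum (l 1) (a 1 • (1 : Mat (k + 2))) * (bsum Y (t ζ • 1))ᴴ := by
    rw [std_base] at hb0 hb1
    rw [hyp_agree hζ hg hF.hom, hb0, hQ1, conjTranspose_mul] at hb1
    have h3 : Q 0 * (dsum (l 0) (a 0 • (1 : Mat (k + 2)))) * (Q 0)ᴴ = Q 0 * (bsum Y (t ζ • 1) *
        dsum (l 1) (a 1 • (1 : Mat (k + 2))) * (bsum Y (t ζ • 1))ᴴ) * (Q 0)ᴴ := by
      rw [hb1]
      simp only [Matrix.mul_assoc]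
    exact (hQu 0).mul_left_cancel (hQ0'.mul_right_cancel h3)
  have hone : (1 : Mat (k + 2)) = dsum 1 1 := dsum_one.symm
  rw [hone, smul_dsum, smul_dsum, dsum_dsum, dsum_dsum, bsum_conjTranspose, bsum_mul, bsum_mul]
    at hcmp
  obtain ⟨hc1, hc2⟩ := bsum_inj hcmp
  have ha01 : a 0 = t ζ * star (t ζ) * a 1 := by
    have h1 := congrFun (congrFun hc2 0) 0
    rw [conjTranspose_smul, conjTranspose_one] at h1
    simp only [Matrix.mul_smul, Matrix.mul_one, Matrix.smul_apply,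
      Matrix.one_apply_eq, smul_eq_mul] at h1
    linear_combination h1
  -- the invariant form
  have hJu : ∀ b, dsum (l b) (a b • J (k + 1)) * dsum (l b)⁻¹ ((a b)⁻¹ • J (k + 1)) = 1 := by
    intro b
    rw [dsum_mul, Matrix.smul_mul, Matrix.mul_smul, J_J, smul_smul, mul_inv_cancel₀ (hl b).ne',
      mul_inv_cancel₀ (ha b).ne', one_smul, dsum_one]
  set N : Mat (k + 3) := Q 0 * dsum (l 0) (a 0 • J (k + 1)) * (Q 0)ᴴ with hN
  have hNb : ∀ b, N = Q b * dsum (l b) (a b • J (k + 1)) * (Q b)ᴴ := by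
    rw [Fin.forall_fin_two]
    refine ⟨rfl, ?_⟩
    rw [hN, hQ1, conjTranspose_mul]
    have h1 : dsum (l 0) (a 0 • J (k + 1)) = bsum Y (t ζ • 1) * dsum (l 1) (a 1 • J (k + 1)) *
        (bsum Y (t ζ • 1))ᴴ := by
      rw [J_succ, smul_dsum, smul_dsum, dsum_dsum, dsum_dsum, bsum_conjTranspose, bsum_mul, bsum_mul,
        ← hc1]
      congr 1
      rw [conjTranspose_smul, conjTranspose_one, ha01]
      simp only [Matrix.mul_smul, Matrix.smul_mul, Matrix.mul_one, Matrix.one_mul, smul_smul]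
      congr 1
      ring
    rw [h1]
    simp only [Matrix.mul_assoc]
  have hNu : IsUnit N := ((hQu 0).mul (IsUnit.of_mul_eq_one _ (hJu 0))).mul hQ0'
  have hreal : ∀ {z : ℂ}, 0 < z → star z = z := by
    intro z hz
    rw [Complex.star_def, Complex.conj_eq_iff_im]
    exact (Complex.lt_def.1 hz).2.symm
  have hNh : Nᴴ = N := by
    rw [hN, conjTranspose_mul, conjTranspose_mul, conjTranspose_conjTranspose, dsum_conjTranspose,
      conjTranspose_smul, J_herm, hreal (hl 0), hreal (ha 0), Matrix.mul_assoc]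
  have hNinv : ∀ γ : hybrid Γ g, ρ γ * N * (ρ γ)ᴴ = N := by
    have h1 : ∀ x ∈ hybrid Γ g, x.toMatrix.map t * N * (x.toMatrix.map t)ᴴ = N := by
      intro x hx
      induction hx using Subgroup.closure_induction with
      | mem x hx =>
        obtain ⟨b, γ, hγ, rfl⟩ := hx
        obtain ⟨s, hs, hsK, hγs⟩ := hsc b γ hγ
        have h2 := hQρ b ⟨γ, hγ⟩ s hs hγs
        have hχs := hχ s hs hsK
        obtain ⟨χ, hχd⟩ : ∃ χ, χ = t s / s := ⟨_, rfl⟩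
        rw [← hχd] at h2 hχs
        have h3 : (g b * extend (k + 1) γ * (g b)⁻¹).toMatrix.map t =
            Q b * dsum 1 (χ • γ.toMatrix) * (Q b)⁻¹ := h2
        rw [h3, hNb b]
        have hd := (isUnit_iff_isUnit_det _).1 (hQu b)
        have e1 : (Q b)⁻¹ * Q b = 1 := nonsing_inv_mul _ hd
        have e2 : (Q b)ᴴ * ((Q b)⁻¹)ᴴ = 1 := by
          rw [← conjTranspose_mul, e1, conjTranspose_one]
        have e3 : dsum 1 (χ • γ.toMatrix) * dsum (l b) (a b • J (k + 1)) *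
            (dsum 1 (χ • γ.toMatrix))ᴴ = dsum (l b) (a b • J (k + 1)) := by
          rw [dsum_conjTranspose, dsum_mul, dsum_mul, conjTranspose_smul, star_one, one_mul,
            mul_one]
          simp only [Matrix.mul_smul, Matrix.smul_mul, smul_smul]
          rw [mul_J_mul, mul_left_comm, hχs, mul_one]
        calc Q b * dsum 1 (χ • γ.toMatrix) * (Q b)⁻¹ *
              (Q b * dsum (l b) (a b • J (k + 1)) * (Q b)ᴴ) *
              (Q b * dsum 1 (χ • γ.toMatrix) * (Q b)⁻¹)ᴴ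
            = Q b * dsum 1 (χ • γ.toMatrix) * ((Q b)⁻¹ * Q b) * dsum (l b) (a b • J (k + 1)) *
              ((Q b)ᴴ * ((Q b)⁻¹)ᴴ) * (dsum 1 (χ • γ.toMatrix))ᴴ * (Q b)ᴴ := by
              rw [conjTranspose_mul, conjTranspose_mul]
              simp only [Matrix.mul_assoc]
          _ = Q b * (dsum 1 (χ • γ.toMatrix) * dsum (l b) (a b • J (k + 1)) *
              (dsum 1 (χ • γ.toMatrix))ᴴ) * (Q b)ᴴ := by
              rw [e1, e2]
              simp only [Matrix.mul_assoc, Matrix.mul_one]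
          _ = _ := by rw [e3]
      | one => rw [toMatrix_one, tm_one, Matrix.one_mul, conjTranspose_one, Matrix.mul_one]
      | mul x y _ _ hx hy =>
        rw [toMatrix_mul, tm_mul, conjTranspose_mul]
        calc x.toMatrix.map t * y.toMatrix.map t * N * ((y.toMatrix.map t)ᴴ * (x.toMatrix.map t)ᴴ)
            = x.toMatrix.map t * (y.toMatrix.map t * N * (y.toMatrix.map t)ᴴ) *
              (x.toMatrix.map t)ᴴ := by simp only [Matrix.mul_assoc]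
          _ = _ := by rw [hy, hx]
      | inv x _ hx =>
        have hu := tm_gp_unit t x
        have hd := (isUnit_iff_isUnit_det _).1 hu
        rw [tm_gp_inv]
        set A := x.toMatrix.map t with hA
        have e1 : A⁻¹ * A = 1 := nonsing_inv_mul _ hd
        have e2 : Aᴴ * (A⁻¹)ᴴ = 1 := by rw [← conjTranspose_mul, e1, conjTranspose_one]
        calc A⁻¹ * N * (A⁻¹)ᴴ = A⁻¹ * (A * N * Aᴴ) * (A⁻¹)ᴴ := by rw [hx]
          _ = (A⁻¹ * A) * N * (Aᴴ * (A⁻¹)ᴴ) := by simp only [Matrix.mul_assoc]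
          _ = N := by rw [e1, e2, Matrix.one_mul, Matrix.mul_one]
    intro γ
    exact h1 γ γ.2
  -- the reflected metric
  have hF' : Harm fun v => N * (F v)⁻¹ * N := by
    have := hF.inv.congr hNu
    rwa [hNh] at this
  have hρu : ∀ γ, IsUnit (ρ γ) := fun γ => tm_gp_unit t (γ : SUGroup (k + 2))
  have hFe' : Equi ρ fun v => N * (F v)⁻¹ * N := by
    intro γ v hv
    show N * (F (act (γ : SUGroup (k + 2)) v))⁻¹ * N = ρ γ * (N * (F v)⁻¹ * N) * (ρ γ)ᴴ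
    rw [hFe γ v hv]
    have hd := (isUnit_iff_isUnit_det _).1 (hρu γ)
    have hi := hNinv γ
    set A := ρ γ with hA
    have e1 : A⁻¹ * A = 1 := nonsing_inv_mul _ hd
    have hd' := (isUnit_iff_isUnit_det _).1 ((isUnit_conjTranspose A).2 (hρu γ))
    have e2 : Aᴴ * Aᴴ⁻¹ = 1 := mul_nonsing_inv _ hd'
    have i1 : N * Aᴴ⁻¹ = A * N := by
      calc N * Aᴴ⁻¹ = (A * N * Aᴴ) * Aᴴ⁻¹ := by rw [hi]
        _ = A * N * (Aᴴ * Aᴴ⁻¹) := by simp only [Matrix.mul_assoc]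
        _ = _ := by rw [e2, Matrix.mul_one]
    have i2 : A⁻¹ * N = N * Aᴴ := by
      calc A⁻¹ * N = A⁻¹ * (A * N * Aᴴ) := by rw [hi]
        _ = (A⁻¹ * A) * N * Aᴴ := by simp only [Matrix.mul_assoc]
        _ = _ := by rw [e1, Matrix.one_mul]
    rw [Matrix.mul_inv_rev, Matrix.mul_inv_rev]
    calc N * (Aᴴ⁻¹ * ((F v)⁻¹ * A⁻¹)) * N = (N * Aᴴ⁻¹) * (F v)⁻¹ * (A⁻¹ * N) := by
          simp only [Matrix.mul_assoc]
      _ = _ := by rw [i1, i2]; simp only [Matrix.mul_assoc]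
  have hinvQ : ∀ b, ∀ A : Mat (k + 3), (Q b * A * (Q b)ᴴ)⁻¹ = (Q b)ᴴ⁻¹ * A⁻¹ * (Q b)⁻¹ := by
    intro b A
    rw [Matrix.mul_inv_rev, Matrix.mul_inv_rev, ← Matrix.mul_assoc]
  have hcan : ∀ b, (Q b)⁻¹ * Q b = 1 ∧ (Q b)ᴴ * (Q b)ᴴ⁻¹ = 1 := by
    intro b
    have hd := (isUnit_iff_isUnit_det _).1 (hQu b)
    have hd' := (isUnit_iff_isUnit_det _).1 ((isUnit_conjTranspose (Q b)).2 (hQu b))
    exact ⟨nonsing_inv_mul _ hd, mul_nonsing_inv _ hd'⟩
  have hrefl : ∀ v ∈ Cone (k + 2), N * (F v)⁻¹ * N = F v := by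
    refine eq_of_unique U (by omega) hcoc hF hF' hFe hFe' (hyp_mem (g 0) hb) ?_
    show N * (F (hyp (g 0) (base (k + 1))))⁻¹ * N = F (hyp (g 0) (base (k + 1)))
    have h1u : IsUnit (a 0 • (1 : Mat (k + 2))) := by
      refine IsUnit.of_mul_eq_one ((a 0)⁻¹ • (1 : Mat (k + 2))) ?_
      rw [Matrix.smul_mul, Matrix.mul_smul, smul_smul, mul_inv_cancel₀ (ha 0).ne',
        one_smul, Matrix.one_mul]
    rw [hb0, std_base, hinvQ, dsum_inv' (hl 0).ne' h1u, hN]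
    obtain ⟨e1, e2⟩ := hcan 0
    calc Q 0 * dsum (l 0) (a 0 • J (k + 1)) * (Q 0)ᴴ * ((Q 0)ᴴ⁻¹ *
          dsum (l 0)⁻¹ (a 0 • (1 : Mat (k + 2)))⁻¹ * (Q 0)⁻¹) *
          (Q 0 * dsum (l 0) (a 0 • J (k + 1)) * (Q 0)ᴴ)
        = Q 0 * dsum (l 0) (a 0 • J (k + 1)) * ((Q 0)ᴴ * (Q 0)ᴴ⁻¹) *
          dsum (l 0)⁻¹ (a 0 • (1 : Mat (k + 2)))⁻¹ * ((Q 0)⁻¹ * Q 0) *
          dsum (l 0) (a 0 • J (k + 1)) * (Q 0)ᴴ := by simp only [Matrix.mul_assoc]
      _ = Q 0 * (dsum (l 0) (a 0 • J (k + 1)) * dsum (l 0)⁻¹ (a 0 • (1 : Mat (k + 2)))⁻¹ *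
          dsum (l 0) (a 0 • J (k + 1))) * (Q 0)ᴴ := by
          rw [e1, e2]
          simp only [Matrix.mul_assoc, Matrix.mul_one]
      _ = _ := by
          have h5 : (a 0 • (1 : Mat (k + 2)))⁻¹ = (a 0)⁻¹ • 1 := by
            apply inv_eq_left_inv
            rw [Matrix.smul_mul, Matrix.mul_smul, smul_smul, inv_mul_cancel₀ (ha 0).ne',
              one_smul, Matrix.one_mul]
          rw [h5, dsum_mul, dsum_mul, mul_inv_cancel₀ (hl 0).ne', one_mul]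
          simp only [Matrix.mul_smul, Matrix.smul_mul, smul_smul, J_J,
            inv_mul_cancel₀ (ha 0).ne', mul_one]
  have hequi : ∀ b, ∀ γ ∈ Γ b, ∀ s : ℂ, s ≠ 0 →
      EntriesIn K (dsum (μ b) D) (s⁻¹ • γ.toMatrix) → ∀ v ∈ Cone (k + 2),
        (Q b)⁻¹ * F (act (g b) (act (extend (k + 1) γ) v)) * ((Q b)⁻¹)ᴴ =
          dsum 1 ((t s / s) • γ.toMatrix) * ((Q b)⁻¹ * F (act (g b) v) * ((Q b)⁻¹)ᴴ) *
            (dsum 1 ((t s / s) • γ.toMatrix))ᴴ := by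
    intro b γ hγ s hs hγs v hv
    obtain ⟨e1, e2⟩ := hcan b
    have e2' : (Q b)ᴴ * ((Q b)⁻¹)ᴴ = 1 := by rw [← conjTranspose_mul, e1, conjTranspose_one]
    have h1 : act (g b) (act (extend (k + 1) γ) v) =
        act (g b * extend (k + 1) γ * (g b)⁻¹) (act (g b) v) := by
      rw [← act_mul, ← act_mul, inv_mul_cancel_right]
    have h2 := hFe (embHyb Γ g b ⟨γ, hγ⟩) (act (g b) v) (act_mem _ hv)
    rw [embHyb_coe] at h2
    rw [h1]
    have h2' : F (act (g b * extend (k + 1) γ * (g b)⁻¹) (act (g b) v)) =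
      ρ (embHyb Γ g b ⟨γ, hγ⟩) * F (act (g b) v) * (ρ (embHyb Γ g b ⟨γ, hγ⟩))ᴴ := h2
    rw [h2', hQρ b ⟨γ, hγ⟩ s hs hγs, conjTranspose_mul, conjTranspose_mul]
    show (Q b)⁻¹ * (Q b * dsum 1 ((t s / s) • γ.toMatrix) * (Q b)⁻¹ * F (act (g b) v) *
      (((Q b)⁻¹)ᴴ * ((dsum 1 ((t s / s) • γ.toMatrix))ᴴ * (Q b)ᴴ))) * ((Q b)⁻¹)ᴴ =
      dsum 1 ((t s / s) • γ.toMatrix) *
      ((Q b)⁻¹ * F (act (g b) v) * ((Q b)⁻¹)ᴴ) * (dsum 1 ((t s / s) • γ.toMatrix))ᴴ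
    have h5 : ∀ A : Mat (k + 3), (Q b)⁻¹ * (Q b * A) = A := fun A => by
      rw [← Matrix.mul_assoc, e1, Matrix.one_mul]
    simp only [Matrix.mul_assoc, h5]
    rw [e2', Matrix.mul_one]
  refine ⟨F, Q, l, a, Y, hQu, hF.hom, ?_, hequi, hQ1, hY01, ha01⟩
  intro b
  obtain ⟨e1, e2⟩ := hcan b
  have e2' : (Q b)ᴴ * ((Q b)⁻¹)ᴴ = 1 := by rw [← conjTranspose_mul, e1, conjTranspose_one]
  have hQi : IsUnit (Q b)⁻¹ := isUnit_nonsing_inv_iff.2 (hQu b)
  refine ⟨?_, hl b, ha b, ?_, ?_, ?_⟩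
  · exact (hF.comp (actC (g b)) fun v hv => act_mem (g b) hv).congr hQi
  · intro w hw
    show (Q b)⁻¹ * F (hyp (g b) w) * ((Q b)⁻¹)ᴴ = _
    rw [hFb b w hw]
    calc (Q b)⁻¹ * (Q b * dsum (l b) (a b • std w) * (Q b)ᴴ) * ((Q b)⁻¹)ᴴ
        = ((Q b)⁻¹ * Q b) * dsum (l b) (a b • std w) * ((Q b)ᴴ * ((Q b)⁻¹)ᴴ) := by
          simp only [Matrix.mul_assoc]
      _ = _ := by rw [e1, e2', Matrix.one_mul, Matrix.mul_one]
  · intro v hv
    have hv' := act_mem (g b) hv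
    have h1 := hrefl _ hv'
    rw [hNb b] at h1
    show dsum (l b) (a b • J (k + 1)) * ((Q b)⁻¹ * F (act (g b) v) * ((Q b)⁻¹)ᴴ)⁻¹ *
      dsum (l b) (a b • J (k + 1)) = (Q b)⁻¹ * F (act (g b) v) * ((Q b)⁻¹)ᴴ
    have h2 : ((Q b)⁻¹ * F (act (g b) v) * ((Q b)⁻¹)ᴴ)⁻¹ = (Q b)ᴴ * (F (act (g b) v))⁻¹ * Q b := by
      apply inv_eq_left_inv
      have hFi : (F (act (g b) v))⁻¹ * F (act (g b) v) = 1 :=
        nonsing_inv_mul _ ((isUnit_iff_isUnit_det _).1 (hF.unit hv'))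
      have e3 : Q b * (Q b)⁻¹ = 1 := mul_nonsing_inv _ ((isUnit_iff_isUnit_det _).1 (hQu b))
      calc (Q b)ᴴ * (F (act (g b) v))⁻¹ * Q b * ((Q b)⁻¹ * F (act (g b) v) * ((Q b)⁻¹)ᴴ)
          = (Q b)ᴴ * (F (act (g b) v))⁻¹ * (Q b * (Q b)⁻¹) * F (act (g b) v) * ((Q b)⁻¹)ᴴ := by
            simp only [Matrix.mul_assoc]
        _ = (Q b)ᴴ * ((F (act (g b) v))⁻¹ * F (act (g b) v)) * ((Q b)⁻¹)ᴴ := by
            rw [e3]
            simp only [Matrix.mul_assoc, Matrix.mul_one]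
        _ = 1 := by rw [hFi, Matrix.mul_one, e2']
    rw [h2]
    calc dsum (l b) (a b • J (k + 1)) * ((Q b)ᴴ * (F (act (g b) v))⁻¹ * Q b) *
          dsum (l b) (a b • J (k + 1))
        = (Q b)⁻¹ * (Q b * dsum (l b) (a b • J (k + 1)) * (Q b)ᴴ * (F (act (g b) v))⁻¹ *
          (Q b * dsum (l b) (a b • J (k + 1)) * (Q b)ᴴ)) * ((Q b)⁻¹)ᴴ := by
          have : ∀ A : Mat (k + 3), (Q b)⁻¹ * (Q b * A) = A := fun A => by
            rw [← Matrix.mul_assoc, e1, Matrix.one_mul]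
          simp only [Matrix.mul_assoc, this]
          rw [e2', Matrix.mul_one]
      _ = _ := by rw [h1]
  · intro γ hγ v hv
    have h1 := hequi b γ (hle b hγ) 1 one_ne_zero (by
      rw [inv_one, one_smul]
      exact hrat' b γ hγ) v hv
    rw [map_one, div_one, one_smul] at h1
    exact h1


variable {Γ : Subgroup (SUGroup j)} {G : Vec (j + 1) → Mat (j + 2)} {l a : ℂ}

/-- F3: the normal derivative along the hyperplane. -/
theorem Pce.nrm_all (P : Pce j Γ G l a) (hj : 1 ≤ j) (hΓ : Coc Γ) :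
    ∃ p : ℂ, ∀ w ∈ Cone j,
      NN G w = (-(q w : ℂ)⁻¹ * p) • vecMulVec (nrm j) (star (inc j w)) := by
  have hd : ∀ w ∈ Cone j, DifferentiableAt ℝ (pv G) w := fun w hw => (P.pb_pv hj hw 0).diff
  have hy : ∀ w ∈ Cone j, tl j (pv G w) = 0 := by
    refine sec_zero hΓ (y := fun w => tl j (pv G w)) ?_ ?_ ?_ ?_ ?_
    · intro w hw
      exact ((P.pb_pv hj hw 0).clm (tl j)).diff
    · intro c hc w hw
      show tl j (pv G (c • w)) = tl j (pv G w)
      rw [P.pv_homog c hc w hw]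
    · intro γ hγ w hw
      show tl j (pv G (act γ w)) = act γ (tl j (pv G w))
      rw [P.pv_act hγ hw, (act_extend_hd γ _).2]
    · intro w hw
      show herm w (tl j (pv G w)) = 0
      rw [← herm_inc_tl]
      exact (P.normal hj hw).1
    · intro w hw η
      show pb (fun w => tl j (pv G w)) w η = -((herm η (tl j (pv G w)) / (q w : ℂ)) • w)
      rw [((P.pb_pv hj hw η).clm (tl j)).pb, map_neg, map_smul, tl_inc, herm_inc_tl]
  have hp : ∀ w ∈ Cone j, hd0 j (pv G w) = hd0 j (pv G (base j)) := by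
    refine hol_const (f := fun w => hd0 j (pv G w)) hΓ ?_ ?_ ?_ ?_
    · intro w hw
      exact ((P.pb_pv hj hw 0).clm (hd0 j)).diff
    · intro w hw η
      rw [((P.pb_pv hj hw η).clm (hd0 j)).pb, map_neg, map_smul, hd0_apply, inc_zero, smul_zero,
        neg_zero]
    · intro c hc w hw
      show hd0 j (pv G (c • w)) = hd0 j (pv G w)
      rw [P.pv_homog c hc w hw]
    · intro γ hγ w hw
      show hd0 j (pv G (act γ w)) = hd0 j (pv G w)
      rw [P.pv_act hγ hw, (act_extend_hd γ _).1]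
  refine ⟨hd0 j (pv G (base j)), fun w hw => ?_⟩
  rw [(P.normal hj hw).2]
  have h2 : pv G w = hd0 j (pv G (base j)) • nrm j := by
    conv_lhs => rw [eq_cons (pv G w), hy _ hw, hp _ hw]
    rw [nrm]
    ext i
    refine Fin.cases ?_ (fun i => ?_) i <;> simp
  rw [h2]
  ext i i'
  simp only [vecMulVec_apply, Pi.smul_apply, Matrix.smul_apply, smul_eq_mul]
  ring

/-- Equivariance up to a scalar forces the scalar to be one. -/
theorem Pce.scalar_one (P : Pce j Γ G l a) {p : ℂ} (hp0 : p ≠ 0)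
    (hp : ∀ w ∈ Cone j, NN G w = (-(q w : ℂ)⁻¹ * p) • vecMulVec (nrm j) (star (inc j w)))
    (γ : SUGroup j) (χ : ℂ)
    (hG : ∀ v ∈ Cone (j + 1), G (act (extend j γ) v) =
      dsum 1 (χ • γ.toMatrix) * G v * (dsum 1 (χ • γ.toMatrix))ᴴ) : χ = 1 := by
  have hw := base_mem j
  have hu := inc_mem hw
  obtain ⟨M, hM⟩ : ∃ M, M = dsum 1 (χ • γ.toMatrix) := ⟨_, rfl⟩
  rw [← hM] at hG
  have h1 : HasZ (fun v => G (actC (extend j γ) v)) (inc j (base j)) (nrm j) _ _ :=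
    (hasZ (P.harm.diff (act_mem (extend j γ) hu)) (actC (extend j γ) (nrm j))).comp_lin
      (actC (extend j γ))
  have h2 : HasZ (fun v => M * G v * Mᴴ) (inc j (base j)) (nrm j) _ _ :=
    (hasZ (P.harm.diff hu) (nrm j)).clm (ContinuousLinearMap.mulLeftRight ℂ (Mat (j + 2)) M Mᴴ)
  have h3 : (fun v => G (actC (extend j γ) v)) =ᶠ[𝓝 (inc j (base j))] fun v => M * G v * Mᴴ := by
    filter_upwards [mem_nhds_cone hu] with v hv
    exact hG v hv
  have h4 : pz G (act (extend j γ) (inc j (base j))) (actC (extend j γ) (nrm j)) =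
      M * pz G (inc j (base j)) (nrm j) * Mᴴ := by
    rw [← h1.pz, pz_congr h3, h2.pz]
    rfl
  rw [actC_apply, act_nrm, act_extend] at h4
  have h5 : NN G (act γ (base j)) = M * NN G (base j) * Mᴴ := h4
  rw [hp _ (act_mem γ hw), hp _ hw, q_act, q_base, Matrix.mul_smul, Matrix.smul_mul,
    mul_vecMulVec, vecMulVec_mul, ← star_mulVec] at h5
  have e1 : M *ᵥ nrm j = nrm j := by
    rw [hM, nrm, dsum_mulVec_cons, mulVec_zero, one_mul]
  have e2 : M *ᵥ inc j (base j) = χ • inc j (act γ (base j)) := by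
    rw [hM, dsum_mulVec_inc, smul_mulVec, map_smul]
    rfl
  rw [e1, e2, star_smul] at h5
  have hne : act γ (base j) ≠ 0 := by
    intro h
    have h6 : q (act γ (base j)) < 0 := act_mem γ hw
    rw [h] at h6
    have h7 : q (0 : Vec j) = 0 := by
      rw [q, herm, mulVec_zero, dotProduct_zero]
      rfl
    exact absurd h7 h6.ne
  obtain ⟨i, hi⟩ := Function.ne_iff.1 hne
  have h6 := congrFun (congrFun h5 0) i.succ
  simp only [Matrix.smul_apply, vecMulVec_apply, Pi.smul_apply, Pi.star_apply, smul_eq_mul,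
    inc_succ] at h6
  have h7 : nrm j 0 = 1 := rfl
  rw [h7] at h6
  have h8 : star (act γ (base j) i) ≠ 0 := star_ne_zero.2 hi
  have h9 : p * star (act γ (base j) i) * (1 - star χ) = 0 := by
    push_cast at h6
    linear_combination h6
  have h10 := (mul_eq_zero.1 h9).resolve_left (mul_ne_zero hp0 h8)
  have h11 : star χ = 1 := by linear_combination -h10
  rw [← star_star χ, h11, star_one]


/-- The scalars are fixed by the automorphisms of `ℂ` over `K`. -/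
theorem key_wide (H : ThmH) (U : ThmU) (Γ Γ' : Fin 2 → Subgroup (SUGroup (k + 1)))
    (hle : ∀ b, Γ' b ≤ Γ b)
    (g : Fin 2 → SUGroup (k + 2)) (hcoc : Coc (hybrid Γ g)) (hcocb : ∀ b, Coc (Γ' b))
    (hspan : Submodule.span ℂ (SUGroup.toMatrix '' (hybrid Γ g : Set (SUGroup (k + 2)))) = ⊤)
    (hspanb : ∀ b, Submodule.span ℂ (SUGroup.toMatrix '' (Γ' b : Set (SUGroup (k + 1)))) = ⊤)
    {K : Subfield ℂ} {D : Matrix (Fin (k + 1)) (Fin (k + 1)) ℂ}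
    {HD : Matrix (Fin (k + 1)) (Fin (k + 1)) K} {μ : Fin 2 → ℂ} {q : Fin 2 → K}
    (hn : IsNF k K D HD μ q) (hrat' : ∀ b, ∀ γ ∈ Γ' b, EntriesIn K (dsum (μ b) D) γ.toMatrix)
    (hsc : ∀ b, ∀ γ ∈ Γ b, ∃ s : ℂ, s ≠ 0 ∧ s ^ (k + 2) ∈ K ∧
      EntriesIn K (dsum (μ b) D) (s⁻¹ • γ.toMatrix))
    {X : Matrix (Fin 2) (Fin 2) ℂ} {ζ : ℂ} (hζ : star ζ * ζ = 1) (hX : Xᴴ * X = 1)
    (hg : (g 1).toMatrix = (g 0).toMatrix * (ζ • bsum X 1)) (h01 : X 0 1 ≠ 0)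
    (t : ℂ ≃+* ℂ) (ht : ∀ x : K, t (x : ℂ) = x) :
    ∀ b, ∀ γ ∈ Γ b, ∀ s : ℂ, s ≠ 0 → EntriesIn K (dsum (μ b) D) (s⁻¹ • γ.toMatrix) →
      t s = s := by
  obtain ⟨F, Q, l, a, Y, hQu, hFh, P, hequi, hQ1, hY01, ha01⟩ :=
    two_data_wide H U Γ Γ' hle g hcoc hcocb hspan hspanb hn hrat' hsc hζ hg h01 t ht
  have hp := fun b => (P b).nrm_all (by omega) (hcocb b)
  choose p hpall using hp
  have hp : ∀ b, pz (fun v => (Q b)⁻¹ * F (act (g b) v) * ((Q b)⁻¹)ᴴ) (base (k + 2))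
      (nrm (k + 1)) = p b • vecMulVec (nrm (k + 1)) (star (base (k + 2))) := by
    intro b
    have h1 := hpall b _ (base_mem (k + 1))
    rw [NN, inc_base, q_base] at h1
    rw [h1]
    congr 1
    push_cast
    ring
  have hB := base_mem (k + 2)
  have hζ0 : ζ ≠ 0 := by
    intro h
    rw [h, mul_zero] at hζ
    exact zero_ne_one hζ
  set c : ℂ := t ζ with hc
  have hc0 : c ≠ 0 := (map_ne_zero t).2 hζ0
  have hc0' : star c ≠ 0 := star_ne_zero.2 hc0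
  set R : Mat (k + 3) := bsum Y (c • 1) with hR
  have hRu : IsUnit R := by
    have h1 : IsUnit (Q 0 * R) := by rw [← hQ1]; exact hQu 1
    exact isUnit_of_mul_isUnit_right h1
  have hRd := (isUnit_iff_isUnit_det _).1 hRu
  set G : Fin 2 → Vec (k + 2) → Mat (k + 3) :=
    fun b v => (Q b)⁻¹ * F (act (g b) v) * ((Q b)⁻¹)ᴴ with hG
  have hLX : ∀ v : Vec (k + 2), act (g 1) v =
      ζ • act (g 0) (bsum X (1 : Mat (k + 1)) *ᵥ v) := by
    intro v
    rw [act, act, hg, ← mulVec_mulVec, smul_mulVec, mulVec_smul]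
  have hrel : ∀ v ∈ Cone (k + 2), R * G 1 v * Rᴴ = G 0 (bsum X (1 : Mat (k + 1)) *ᵥ v) := by
    intro v hv
    have h1 : act (g 0) (bsum X (1 : Mat (k + 1)) *ᵥ v) ∈ Cone (k + 2) := by
      have h2 := act_mem (g 1) hv
      rw [hLX v] at h2
      have h3 := smul_mem_cone (inv_ne_zero hζ0) h2
      rwa [smul_smul, inv_mul_cancel₀ hζ0, one_smul] at h3
    have h4 : F (act (g 1) v) = F (act (g 0) (bsum X (1 : Mat (k + 1)) *ᵥ v)) := by
      rw [hLX v, hFh ζ hζ0 _ h1]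
    show R * ((Q 1)⁻¹ * F (act (g 1) v) * ((Q 1)⁻¹)ᴴ) * Rᴴ =
      (Q 0)⁻¹ * F (act (g 0) (bsum X (1 : Mat (k + 1)) *ᵥ v)) * ((Q 0)⁻¹)ᴴ
    rw [h4, hQ1, Matrix.mul_inv_rev, conjTranspose_mul]
    have e1 : R * R⁻¹ = 1 := mul_nonsing_inv _ hRd
    have e2 : (R⁻¹)ᴴ * Rᴴ = 1 := by rw [← conjTranspose_mul, e1, conjTranspose_one]
    calc R * (R⁻¹ * (Q 0)⁻¹ * F (act (g 0) (bsum X (1 : Mat (k + 1)) *ᵥ v)) *
          (((Q 0)⁻¹)ᴴ * (R⁻¹)ᴴ)) * Rᴴ
        = (R * R⁻¹) * (Q 0)⁻¹ * F (act (g 0) (bsum X (1 : Mat (k + 1)) *ᵥ v)) * ((Q 0)⁻¹)ᴴ *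
          ((R⁻¹)ᴴ * Rᴴ) := by simp only [Matrix.mul_assoc]
      _ = _ := by rw [e1, e2, Matrix.one_mul, Matrix.mul_one]
  have hXB : bsum X (1 : Mat (k + 1)) *ᵥ base (k + 2) = base (k + 2) := by
    have := bsum_base (k := k) X 1
    rwa [one_smul, one_smul] at this
  set LX : Vec (k + 2) →L[ℂ] Vec (k + 2) :=
    LinearMap.toContinuousLinearMap (bsum X (1 : Mat (k + 1))).mulVecLin with hLXd
  have hLXa : ∀ v, LX v = bsum X (1 : Mat (k + 1)) *ᵥ v := fun v => rfl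
  have hder : ∀ x y : ℂ, R * pz (G 1) (base (k + 2)) (two k x y) * Rᴴ =
      pz (G 0) (base (k + 2)) (two k (X 0 0 * x + X 0 1 * y) (X 1 0 * x + X 1 1 * y)) := by
    intro x y
    have h1 : HasZ (fun v => R * G 1 v * Rᴴ) (base (k + 2)) (two k x y) _ _ :=
      (hasZ ((P 1).harm.diff hB) (two k x y)).clm
        (ContinuousLinearMap.mulLeftRight ℂ (Mat (k + 3)) R Rᴴ)
    have h2 : HasZ (G 0) (LX (base (k + 2))) (LX (two k x y)) _ _ :=
      hasZ (by rw [hLXa, hXB]; exact (P 0).harm.diff hB) (LX (two k x y))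
    have h3 : HasZ (fun v => G 0 (LX v)) (base (k + 2)) (two k x y) _ _ := h2.comp_lin LX
    have h4 : (fun v => R * G 1 v * Rᴴ) =ᶠ[𝓝 (base (k + 2))] fun v => G 0 (LX v) := by
      filter_upwards [mem_nhds_cone hB] with v hv
      exact hrel v hv
    have h5 := pz_congr h4 (two k x y)
    rw [h1.pz, h3.pz, hLXa, hXB, hLXa, bsum_two] at h5
    exact h5
  have hder2 : ∀ x y : ℂ, (star c) • two k (Y 0 0 * (p 1 * x) + Y 0 1 * (2 * a 1 * y))
      (Y 1 0 * (p 1 * x) + Y 1 1 * (2 * a 1 * y)) =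
      two k (p 0 * (X 0 0 * x + X 0 1 * y)) (2 * a 0 * (X 1 0 * x + X 1 1 * y)) := by
    intro x y
    have h1 := hder x y
    rw [(P 1).deriv_two (hp 1), (P 0).deriv_two (hp 0), mul_vecMulVec, vecMulVec_mul, hR, bsum_two,
      ← star_mulVec, bsum_base, star_smul] at h1
    have h2 := congrArg (fun A : Mat (k + 3) => A *ᵥ base (k + 2)) h1
    have h3 : star (base (k + 2)) ⬝ᵥ base (k + 2) = 1 := by
      rw [base]
      simp
    simp only [vmv, smul_dotProduct, h3, one_smul, smul_eq_mul, mul_one] at h2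
    exact h2
  have htwo_smul : ∀ (s x y : ℂ), s • two k x y = two k (s * x) (s * y) := by
    intro s x y
    ext i
    refine Fin.cases ?_ (fun i => Fin.cases ?_ (fun i => ?_) i) i <;> simp [two]
  have hcol0 := hder2 1 0
  have hcol1 := hder2 0 1
  rw [htwo_smul] at hcol0 hcol1
  obtain ⟨r00, r10⟩ := two_inj hcol0
  obtain ⟨r01, r11⟩ := two_inj hcol1
  have hp0 : p 0 ≠ 0 := by
    intro h
    rw [h, zero_mul] at r01
    have h2 : star c * (Y 0 1 * (2 * a 1)) = 0 := by linear_combination r01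
    exact (mul_ne_zero hc0' (mul_ne_zero hY01 (mul_ne_zero two_ne_zero (P 1).ha.ne'))) h2
  have h10 : X 1 0 ≠ 0 := by
    intro h
    have hXX : X * Xᴴ = 1 := mul_eq_one_comm.1 hX
    have e1 := congrFun (congrFun hXX 1) 1
    have e2 := congrFun (congrFun hXX 0) 1
    rw [Matrix.mul_apply, Fin.sum_univ_two] at e1 e2
    simp only [conjTranspose_apply, Matrix.one_apply_eq, h, star_zero, mul_zero, zero_add] at e1 e2
    rw [Matrix.one_apply_ne Fin.zero_ne_one] at e2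
    have e3 := (mul_eq_zero.1 e2).resolve_left h01
    rw [e3, mul_zero] at e1
    exact zero_ne_one e1
  have hp1 : p 1 ≠ 0 := by
    intro h
    rw [h] at r10
    have h2 : 2 * a 0 * X 1 0 = 0 := by linear_combination -r10
    exact (mul_ne_zero (mul_ne_zero two_ne_zero (P 0).ha.ne') h10) h2
  have hpb : ∀ b, p b ≠ 0 := by
    rw [Fin.forall_fin_two]
    exact ⟨hp0, hp1⟩
  intro b γ hγ s hs hγs
  have h1 := (P b).scalar_one (hpb b) (hpall b) γ (t s / s) (hequi b γ hγ s hs hγs)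
  rwa [div_eq_one_iff_eq hs] at h1

/-- The pieces are rational. -/
theorem rat_wide (H : ThmH) (U : ThmU) (Γ Γ' : Fin 2 → Subgroup (SUGroup (k + 1)))
    (hle : ∀ b, Γ' b ≤ Γ b)
    (g : Fin 2 → SUGroup (k + 2)) (hcoc : Coc (hybrid Γ g)) (hcocb : ∀ b, Coc (Γ' b))
    (hspan : Submodule.span ℂ (SUGroup.toMatrix '' (hybrid Γ g : Set (SUGroup (k + 2)))) = ⊤)
    (hspanb : ∀ b, Submodule.span ℂ (SUGroup.toMatrix '' (Γ' b : Set (SUGroup (k + 1)))) = ⊤)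
    {K : Subfield ℂ} [Countable K] {D : Matrix (Fin (k + 1)) (Fin (k + 1)) ℂ}
    {HD : Matrix (Fin (k + 1)) (Fin (k + 1)) K} {μ : Fin 2 → ℂ} {q : Fin 2 → K}
    (hn : IsNF k K D HD μ q) (hrat' : ∀ b, ∀ γ ∈ Γ' b, EntriesIn K (dsum (μ b) D) γ.toMatrix)
    (hsc : ∀ b, ∀ γ ∈ Γ b, ∃ s : ℂ, s ≠ 0 ∧ s ^ (k + 2) ∈ K ∧
      EntriesIn K (dsum (μ b) D) (s⁻¹ • γ.toMatrix))
    {X : Matrix (Fin 2) (Fin 2) ℂ} {ζ : ℂ} (hζ : star ζ * ζ = 1) (hX : Xᴴ * X = 1)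
    (hg : (g 1).toMatrix = (g 0).toMatrix * (ζ • bsum X 1)) (h01 : X 0 1 ≠ 0) :
    ∀ b, ∀ γ ∈ Γ b, EntriesIn K (dsum (μ b) D) γ.toMatrix := by
  intro b γ hγ
  obtain ⟨s, hs, -, hγs⟩ := hsc b γ hγ
  have h1 : s ∈ K := mem_of_fixed K s fun t ht =>
    key_wide H U Γ Γ' hle g hcoc hcocb hspan hspanb hn hrat' hsc hζ hX hg h01 t ht b γ hγ s hs hγs
  intro i j
  have h2 := K.mul_mem h1 (hγs i j)
  rwa [Matrix.mul_smul, Matrix.smul_mul, Matrix.smul_apply, smul_eq_mul, ← mul_assoc,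
    mul_inv_cancel₀ hs, one_mul] at h2


end Pool.Agent.Lib.MP_5d4057_al.HM
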